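import Pool.Agent.Work.MP_f2af60_mp.Stmts
import Pool.Agent.Work.MP_f2af60_mp.PoleDefs
import Pool.Agent.Work.MP_f2af60_mp.GStmts

/-! Bundle of small proof modules (one section per former module). -/

section

/-!
# MP_f2af60_mp, item 4: the trace pairing
-/

namespace Pool.Agent.Work.MP_f2af60_mp

open MeasureTheory

lemma continuous_slice {K : Type*} [MetricSpace K] [CompactSpace K] (k : C(K × K, ℂ)) :
    Continuous (slice k) :=
  (ContinuousMap.curry (k.comp ⟨Prod.swap, continuous_swap⟩)).continuous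

lemma norm_slice_le {K : Type*} [MetricSpace K] [CompactSpace K] (k : C(K × K, ℂ)) (y : K) :
    ‖slice k y‖ ≤ ‖k‖ := by
  rw [ContinuousMap.norm_le _ (norm_nonneg _)]
  intro x
  exact k.norm_coe_le_norm (x, y)

theorem existsTr : ExistsTr := by
  intro K _ _ _ _ μ C hC V hV M hM
  have : IsFiniteMeasure μ := hC.fin
  have hcont : ∀ (S : C(K, ℂ) →L[ℂ] C(K, ℂ)) (k : C(K × K, ℂ)),
      Continuous fun y => (S (slice k y)) y := by
    intro S k
    have h1 : Continuous fun y => S (slice k y) := S.continuous.comp (continuous_slice k)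
    exact h1.eval continuous_id
  have hbd : ∀ (S : C(K, ℂ) →L[ℂ] C(K, ℂ)) (k : C(K × K, ℂ)) (y : K),
      ‖(V y : ℂ) * (S (slice k y)) y‖ ≤ |M| * (‖S‖ * ‖k‖) := by
    intro S k y
    rw [norm_mul]
    have h1 : ‖(V y : ℂ)‖ ≤ |M| := by
      rw [Complex.norm_real, Real.norm_eq_abs]
      exact (hM y).trans (le_abs_self M)
    have h2 : ‖(S (slice k y)) y‖ ≤ ‖S‖ * ‖k‖ :=
      ((S (slice k y)).norm_coe_le_norm y).trans ((S.le_opNorm (slice k y)).trans
        (mul_le_mul_of_nonneg_left (norm_slice_le k y) (norm_nonneg _)))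
    exact mul_le_mul h1 h2 (norm_nonneg _) (abs_nonneg _)
  have hmeas : ∀ (S : C(K, ℂ) →L[ℂ] C(K, ℂ)) (k : C(K × K, ℂ)),
      AEStronglyMeasurable (fun y => (V y : ℂ) * (S (slice k y)) y) μ := by
    intro S k
    exact ((Complex.measurable_ofReal.comp hV).mul (hcont S k).measurable).aestronglyMeasurable
  have hint : ∀ (S : C(K, ℂ) →L[ℂ] C(K, ℂ)) (k : C(K × K, ℂ)),
      Integrable (fun y => (V y : ℂ) * (S (slice k y)) y) μ := fun S k =>
    Integrable.of_bound (hmeas S k) _ (Filter.Eventually.of_forall (hbd S k))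
  let f : (C(K, ℂ) →L[ℂ] C(K, ℂ)) →ₗ[ℂ] C(K × K, ℂ) →ₗ[ℂ] ℂ :=
    LinearMap.mk₂ ℂ (fun S k => ∫ y, (V y : ℂ) * (S (slice k y)) y ∂μ)
      (by
        intro S S' k
        rw [← integral_add (hint S k) (hint S' k)]
        refine integral_congr_ae (Filter.Eventually.of_forall fun y => ?_)
        simp [mul_add])
      (by
        intro c S k
        rw [smul_eq_mul, ← integral_const_mul]
        refine integral_congr_ae (Filter.Eventually.of_forall fun y => ?_)
        simp [mul_left_comm])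
      (by
        intro S k k'
        rw [← integral_add (hint S k) (hint S k')]
        refine integral_congr_ae (Filter.Eventually.of_forall fun y => ?_)
        have : slice (k + k') y = slice k y + slice k' y := rfl
        simp [mul_add, this])
      (by
        intro c S k
        rw [smul_eq_mul, ← integral_const_mul]
        refine integral_congr_ae (Filter.Eventually.of_forall fun y => ?_)
        have : slice (c • k) y = c • slice k y := rfl
        simp [mul_left_comm, this])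
  refine ⟨LinearMap.mkContinuous₂ f (|M| * μ.real Set.univ) ?_, fun S k => rfl⟩
  intro S k
  have := norm_integral_le_of_norm_le_const (μ := μ) (Filter.Eventually.of_forall (hbd S k))
  calc ‖f S k‖ ≤ |M| * (‖S‖ * ‖k‖) * μ.real Set.univ := this
    _ = |M| * μ.real Set.univ * ‖S‖ * ‖k‖ := by ring

end Pool.Agent.Work.MP_f2af60_mp

end

section

/-!
# MP_f2af60_mp, item 6: finite rank perturbation determinants
-/

namespace Pool.Agent.Work.MP_f2af60_mp

open MeasureTheory Metric Filter Topology Matrix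

section Alg

variable {X : Type*} [NormedAddCommGroup X] [NormedSpace ℂ X] {N : ℕ}
  (φ : Fin N → X) (ψ : Fin N → (X →L[ℂ] ℂ))

theorem FRop_apply (u : X) : FRop φ ψ u = ∑ k, ψ k u • φ k := by
  simp [FRop]

theorem FRmat_apply (T : X →L[ℂ] X) (i j : Fin N) : FRmat φ ψ T i j = ψ i (T (φ j)) := rfl

theorem psi_sum (T : X →L[ℂ] X) (c : Fin N → ℂ) (k : Fin N) :
    ψ k (T (∑ j, c j • φ j)) = (FRmat φ ψ T *ᵥ c) k := by
  simp only [map_sum, map_smul, smul_eq_mul, Matrix.mulVec, dotProduct, FRmat_apply]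
  exact Finset.sum_congr rfl fun j _ => mul_comm _ _

end Alg

theorem frKer : FrKer := by
  intro X _ _ _ N φ ψ A₁ T₁ h1 h2 hdet
  obtain ⟨c, hc, hMc⟩ := Matrix.exists_mulVec_eq_zero_iff.mpr hdet
  have hMc' : ∀ k, c k + (FRmat φ ψ T₁ *ᵥ c) k = 0 := by
    intro k
    have := congrFun hMc k
    rwa [Matrix.add_mulVec, Matrix.one_mulVec, Pi.add_apply, Pi.zero_apply] at this
  refine ⟨T₁ (∑ j, c j • φ j), ?_, ?_⟩
  · intro h0
    apply hc
    funext k
    have h3 : (FRmat φ ψ T₁ *ᵥ c) k = 0 := by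
      rw [← psi_sum, h0, map_zero]
    have := hMc' k
    rw [h3, add_zero] at this
    simpa using this
  · have h2' : ∀ v, T₁ v + A₁ (T₁ v) = v := fun v => by
      have := congrArg (fun S : X →L[ℂ] X => S v) h2
      simpa using this
    have h3 : T₁ (∑ j, c j • φ j) + A₁ (T₁ (∑ j, c j • φ j)) = ∑ j, c j • φ j := h2' _
    have h4 : FRop φ ψ (T₁ (∑ j, c j • φ j)) = ∑ k, (FRmat φ ψ T₁ *ᵥ c) k • φ k := by
      rw [FRop_apply]
      exact Finset.sum_congr rfl fun k _ => by rw [psi_sum]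
    rw [_root_.add_apply, ← add_assoc, h3, h4, ← Finset.sum_add_distrib]
    refine Finset.sum_eq_zero fun k _ => ?_
    rw [← add_smul, hMc' k, zero_smul]

theorem frUnit : FrUnit := by
  intro X _ _ _ N φ ψ A₁ T₁ h1 h2 hdet
  set M := FRmat φ ψ T₁ with hM
  set Q := (1 + M)⁻¹ with hQ
  have hu : IsUnit (1 + M).det := isUnit_iff_ne_zero.mpr hdet
  have hQ1 : (1 + M) * Q = 1 := Matrix.mul_nonsing_inv _ hu
  have hQ2 : Q * (1 + M) = 1 := Matrix.nonsing_inv_mul _ hu
  have h1' : ∀ v, T₁ v + T₁ (A₁ v) = v := fun v => by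
    have := congrArg (fun S : X →L[ℂ] X => S v) h1
    simpa using this
  have h2' : ∀ v, T₁ v + A₁ (T₁ v) = v := fun v => by
    have := congrArg (fun S : X →L[ℂ] X => S v) h2
    simpa using this
  let ψ2 : Fin N → (X →L[ℂ] ℂ) := fun k => ∑ j, Q k j • ((ψ j).comp T₁)
  have hψ2 : ∀ k v, ψ2 k v = (Q *ᵥ fun j => ψ j (T₁ v)) k := by
    intro k v
    simp [ψ2, Matrix.mulVec, dotProduct]
  refine ⟨T₁ - T₁ * FRop φ ψ2, ?_, ?_⟩
  · ext u
    have hv : (1 + (A₁ + FRop φ ψ)) u = (u + A₁ u) + FRop φ ψ u := by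
      simp [add_assoc]
    have hT : T₁ ((u + A₁ u) + FRop φ ψ u) = u + T₁ (FRop φ ψ u) := by
      rw [map_add, map_add, h1' u]
    have ha : ∀ k, ψ k (T₁ ((u + A₁ u) + FRop φ ψ u)) = ((1 + M) *ᵥ fun j => ψ j u) k := by
      intro k
      rw [hT, map_add, FRop_apply, psi_sum, Matrix.add_mulVec, Matrix.one_mulVec, Pi.add_apply]
    have hb : ∀ k, ψ2 k ((u + A₁ u) + FRop φ ψ u) = ψ k u := by
      intro k
      rw [hψ2]
      have : (fun j => ψ j (T₁ ((u + A₁ u) + FRop φ ψ u))) = (1 + M) *ᵥ fun j => ψ j u :=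
        funext ha
      rw [this, Matrix.mulVec_mulVec, hQ2, Matrix.one_mulVec]
    have hc : FRop φ ψ2 ((u + A₁ u) + FRop φ ψ u) = FRop φ ψ u := by
      rw [FRop_apply φ ψ2]
      simp only [hb]
      rw [FRop_apply φ ψ u]
    rw [mul_apply_eq_comp, hv, _root_.sub_apply, mul_apply_eq_comp, hc, hT]
    simp
  · ext v
    have hw : FRop φ ψ (T₁ (FRop φ ψ2 v)) = ∑ k, ((M * Q) *ᵥ fun j => ψ j (T₁ v)) k • φ k := by
      rw [FRop_apply φ ψ]
      refine Finset.sum_congr rfl fun k _ => ?_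
      rw [FRop_apply φ ψ2, psi_sum, ← Matrix.mulVec_mulVec]
      congr 3
      funext j
      rw [hψ2]
    have hw2 : FRop φ ψ2 v = ∑ k, (Q *ᵥ fun j => ψ j (T₁ v)) k • φ k := by
      rw [FRop_apply]
      exact Finset.sum_congr rfl fun k _ => by rw [hψ2]
    have hsum : FRop φ ψ2 v + FRop φ ψ (T₁ (FRop φ ψ2 v)) = FRop φ ψ (T₁ v) := by
      rw [hw, hw2, FRop_apply, ← Finset.sum_add_distrib]
      refine Finset.sum_congr rfl fun k _ => ?_
      rw [← add_smul]
      have : (Q *ᵥ fun j => ψ j (T₁ v)) k + ((M * Q) *ᵥ fun j => ψ j (T₁ v)) k = ψ k (T₁ v) := by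
        have h5 : Q + M * Q = 1 := by rw [← hQ1, add_mul, one_mul]
        rw [← Pi.add_apply, ← Matrix.add_mulVec, h5, Matrix.one_mulVec]
      rw [this]
    have e1 := h2' v
    have e2 := h2' (FRop φ ψ2 v)
    simp only [mul_apply_eq_comp, _root_.add_apply,
      _root_.sub_apply, one_apply_eq_self, map_sub]
    have : T₁ v + (A₁ (T₁ v) + FRop φ ψ (T₁ v)) - (T₁ (FRop φ ψ2 v) + (A₁ (T₁ (FRop φ ψ2 v)) +
        FRop φ ψ (T₁ (FRop φ ψ2 v)))) =
        (T₁ v + A₁ (T₁ v)) - (T₁ (FRop φ ψ2 v) + A₁ (T₁ (FRop φ ψ2 v))) +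
        (FRop φ ψ (T₁ v) - FRop φ ψ (T₁ (FRop φ ψ2 v))) := by abel
    rw [this, e1, e2, ← hsum]
    abel

section Inv

variable {X : Type*} [NormedAddCommGroup X] [NormedSpace ℂ X] {N : ℕ}
  (φ : Fin N → X) (ψ : Fin N → (X →L[ℂ] ℂ)) (A₁ T₁ T : X →L[ℂ] X)

/-- `T v = T₁ v - T₁ F T v`. -/
theorem T_eq (h1 : T₁ * (1 + A₁) = 1) (h4 : (1 + (A₁ + FRop φ ψ)) * T = 1) (v : X) :
    T v = T₁ v - ∑ j, ψ j (T v) • T₁ (φ j) := by
  have h1' : ∀ v, T₁ v + T₁ (A₁ v) = v := fun v => by
    have := congrArg (fun S : X →L[ℂ] X => S v) h1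
    simpa using this
  have h4' : T v + (A₁ (T v) + FRop φ ψ (T v)) = v := by
    have := congrArg (fun S : X →L[ℂ] X => S v) h4
    simpa using this
  have h5 := congrArg T₁ h4'
  rw [map_add, map_add, ← add_assoc, h1' (T v), FRop_apply, map_sum] at h5
  rw [← h5]
  simp only [map_smul]
  abel

theorem one_sub_FRmat (h1 : T₁ * (1 + A₁) = 1) (h4 : (1 + (A₁ + FRop φ ψ)) * T = 1) :
    (1 + FRmat φ ψ T₁) * (1 - FRmat φ ψ T) = 1 := by
  have key : FRmat φ ψ T = FRmat φ ψ T₁ - FRmat φ ψ T₁ * FRmat φ ψ T := by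
    ext i j
    rw [Matrix.sub_apply, Matrix.mul_apply, FRmat_apply, FRmat_apply, T_eq φ ψ A₁ T₁ T h1 h4 (φ j)]
    rw [map_sub, map_sum]
    congr 1
    refine Finset.sum_congr rfl fun k _ => ?_
    rw [map_smul, FRmat_apply, FRmat_apply, smul_eq_mul, mul_comm]
  have h6 : (1 + FRmat φ ψ T₁) * (1 - FRmat φ ψ T) =
      1 + FRmat φ ψ T₁ - (FRmat φ ψ T + FRmat φ ψ T₁ * FRmat φ ψ T) := by
    rw [mul_sub, mul_one, add_mul, one_mul]
  have h7 : FRmat φ ψ T + FRmat φ ψ T₁ * FRmat φ ψ T = FRmat φ ψ T₁ := by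
    nth_rewrite 1 [key]
    abel
  rw [h6, h7]
  abel

end Inv

theorem frInv : FrInv := by
  intro X _ _ _ N φ ψ A₁ T₁ T h1 _ _ h4
  exact one_sub_FRmat φ ψ A₁ T₁ T h1 h4

/-- Jacobi's formula for the derivative of a determinant. -/
theorem hasDerivAt_det {N : ℕ} (A : ℂ → Matrix (Fin N) (Fin N) ℂ) (A' : Matrix (Fin N) (Fin N) ℂ)
    (l : ℂ) (h : ∀ i j, HasDerivAt (fun z => A z i j) (A' i j) l) :
    HasDerivAt (fun z => (A z).det) ((A l).adjugate * A').trace l := by
  have h1 : HasDerivAt (fun z => (A z).det)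
      (∑ σ : Equiv.Perm (Fin N), ((Equiv.Perm.sign σ : ℤ) : ℂ) *
        ∑ i, (∏ j ∈ Finset.univ.erase i, A l (σ j) j) • A' (σ i) i) l := by
    have h2 : (fun z => (A z).det) = fun z => ∑ σ : Equiv.Perm (Fin N),
        ((Equiv.Perm.sign σ : ℤ) : ℂ) * ∏ i, A z (σ i) i := by
      funext z
      exact Matrix.det_apply' _
    rw [h2]
    refine HasDerivAt.fun_sum fun σ _ => ?_
    refine HasDerivAt.const_mul _ ?_
    exact HasDerivAt.fun_finsetProd fun i _ => h (σ i) i
  convert h1 using 1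
  have h3 : ((A l).adjugate * A').trace = ∑ i, ((A l).updateCol i (fun k => A' k i)).det := by
    rw [Matrix.trace]
    refine Finset.sum_congr rfl fun i _ => ?_
    rw [← Matrix.cramer_apply, Matrix.cramer_eq_adjugate_mulVec, Matrix.diag_apply,
      Matrix.mul_apply, Matrix.mulVec, dotProduct]
  rw [h3]
  have h4 : ∀ i, ((A l).updateCol i (fun k => A' k i)).det = ∑ σ : Equiv.Perm (Fin N),
      ((Equiv.Perm.sign σ : ℤ) : ℂ) *
        ((∏ j ∈ Finset.univ.erase i, A l (σ j) j) • A' (σ i) i) := by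
    intro i
    rw [Matrix.det_apply']
    refine Finset.sum_congr rfl fun σ _ => ?_
    congr 1
    rw [← Finset.prod_erase_mul _ _ (Finset.mem_univ i), smul_eq_mul, Matrix.updateCol_self]
    congr 1
    refine Finset.prod_congr rfl fun j hj => ?_
    rw [Matrix.updateCol_ne (Finset.ne_of_mem_erase hj)]
  simp only [h4]
  rw [Finset.sum_comm]
  refine Finset.sum_congr rfl fun σ _ => ?_
  rw [Finset.mul_sum]

theorem frDeriv : FrDeriv := by
  intro X _ _ _ N φ ψ A₁ T₁ l ψ' A₁' T he1 he2 hψ hA h3 h4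
  have h1 := he1.self_of_nhds
  have h2 := he2.self_of_nhds
  -- derivative of T₁
  have hT : HasDerivAt T₁ (-(T₁ l * A₁' * T₁ l)) l := by
    have hinv : ∀ᶠ z in 𝓝 l, T₁ z = Ring.inverse (1 + A₁ z) := by
      filter_upwards [he1, he2] with z hz1 hz2
      exact (Ring.inverse_unit (⟨1 + A₁ z, T₁ z, hz2, hz1⟩ : (X →L[ℂ] X)ˣ)).symm
    have hU := hasFDerivAt_ringInverse (𝕜 := ℂ) (⟨1 + A₁ l, T₁ l, h2, h1⟩ : (X →L[ℂ] X)ˣ)
    have hA1 : HasDerivAt (fun z => 1 + A₁ z) A₁' l := hA.const_add 1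
    have := hU.comp_hasDerivAt l hA1
    refine HasDerivAt.congr_of_eventuallyEq ?_ hinv
    exact this
  -- entries
  have hent : ∀ i j, HasDerivAt (fun z => (1 + FRmat φ (fun k => ψ k z) (T₁ z)) i j)
      (ψ' i (T₁ l (φ j)) - ψ i l (T₁ l (A₁' (T₁ l (φ j))))) l := by
    intro i j
    have ha : HasDerivAt (fun z => T₁ z (φ j)) ((-(T₁ l * A₁' * T₁ l)) (φ j)) l :=
      hT.clm_apply (hasDerivAt_const l (φ j)) |>.congr_deriv (by simp)
    have hb := (hψ i).clm_apply ha
    have hc := hb.const_add ((1 : Matrix (Fin N) (Fin N) ℂ) i j)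
    refine hc.congr_deriv ?_
    simp [sub_eq_add_neg]
  have hdet := hasDerivAt_det (fun z => 1 + FRmat φ (fun k => ψ k z) (T₁ z))
    (Matrix.of fun i j => ψ' i (T₁ l (φ j)) - ψ i l (T₁ l (A₁' (T₁ l (φ j))))) l hent
  refine hdet.congr_deriv ?_
  set M := FRmat φ (fun k => ψ k l) (T₁ l) with hM
  set S := FRmat φ (fun k => ψ k l) T with hS
  have hMS : (1 + M) * (1 - S) = 1 :=
    one_sub_FRmat φ (fun k => ψ k l) (A₁ l) (T₁ l) T h1 h4
  have hadj : (1 + M).adjugate = (1 + M).det • (1 - S) := by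
    have e1 : (1 + M).adjugate * ((1 + M) * (1 - S)) = (1 + M).adjugate := by
      rw [hMS, mul_one]
    rw [← mul_assoc, Matrix.adjugate_mul, smul_mul_assoc, one_mul] at e1
    exact e1.symm
  rw [hadj, smul_mul_assoc, Matrix.trace_smul, smul_eq_mul]
  congr 1
  have hTk : ∀ k, T (φ k) = ∑ j, (1 - S) j k • T₁ l (φ j) := by
    intro k
    rw [T_eq φ (fun k => ψ k l) (A₁ l) (T₁ l) T h1 h4 (φ k)]
    simp only [Matrix.sub_apply, sub_smul, Finset.sum_sub_distrib]
    congr 1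
    simp [Matrix.one_apply]
  rw [Matrix.trace, ← Finset.sum_sub_distrib]
  have hL : ∀ k, ψ' k (T (φ k)) - ψ k l (T₁ l (A₁' (T (φ k)))) =
      ∑ j, (1 - S) j k * (ψ' k (T₁ l (φ j)) - ψ k l (T₁ l (A₁' (T₁ l (φ j))))) := by
    intro k
    rw [hTk k]
    simp only [map_sum, map_smul, smul_eq_mul, mul_sub, Finset.sum_sub_distrib]
  simp only [hL]
  simp only [Matrix.diag_apply, Matrix.mul_apply, Matrix.of_apply]
  rw [Finset.sum_comm]

theorem frBound : FrBound := by
  intro N M b hb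
  have h1 : ∀ i j, ‖(1 + M) i j‖ ≤ 1 + b := by
    intro i j
    rw [Matrix.add_apply]
    refine (norm_add_le _ _).trans (add_le_add ?_ (hb i j))
    rw [Matrix.one_apply]
    split_ifs <;> simp
  have h2 : ‖(1 + M).det‖ ≤ (Fintype.card (Fin N)).factorial • (1 + b) ^ Fintype.card (Fin N) :=
    Matrix.det_le (A := 1 + M) (abv := NormedField.toAbsoluteValue ℂ) (x := 1 + b) h1
  simpa using h2

end Pool.Agent.Work.MP_f2af60_mp

end

section

/-!
# MP_f2af60_mp, item 7: gluing the determinants of the discs to an entire function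
-/

namespace Pool.Agent.Work.MP_f2af60_mp

open MeasureTheory Metric Filter Topology

section Disc

variable {X : Type} [NormedAddCommGroup X] [NormedSpace ℂ X] [CompleteSpace X]

theorem glue_inv_of_norm (B : X →L[ℂ] X) (hB : ‖B‖ ≤ 1 / 2) :
    IsUnit (1 + B) ∧ ‖Ring.inverse (1 + B)‖ ≤ 2 := by
  have hlt : ‖-B‖ < 1 := by rw [norm_neg]; linarith
  have hu : IsUnit (1 + B) := by
    have := isUnit_one_sub_of_norm_lt_one hlt
    simpa using this
  refine ⟨hu, ?_⟩
  have h1 : (1 + B) * Ring.inverse (1 + B) = 1 := Ring.mul_inverse_cancel _ hu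
  refine ContinuousLinearMap.opNorm_le_bound _ (by norm_num) fun x => ?_
  have h2 : Ring.inverse (1 + B) x + B (Ring.inverse (1 + B) x) = x := by
    have := congrArg (fun S : X →L[ℂ] X => S x) h1
    simpa using this
  have h3 : ‖B (Ring.inverse (1 + B) x)‖ ≤ 1 / 2 * ‖Ring.inverse (1 + B) x‖ :=
    (B.le_opNorm _).trans (by gcongr)
  have h4 : ‖Ring.inverse (1 + B) x‖ ≤ ‖x‖ + ‖B (Ring.inverse (1 + B) x)‖ := by
    have : Ring.inverse (1 + B) x = x - B (Ring.inverse (1 + B) x) := by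
      rw [eq_sub_iff_add_eq]; exact h2
    calc ‖Ring.inverse (1 + B) x‖ = ‖x - B (Ring.inverse (1 + B) x)‖ := by rw [← this]
      _ ≤ _ := norm_sub_le _ _
  linarith

theorem glue_det_diff {N : ℕ} {M : ℂ → Matrix (Fin N) (Fin N) ℂ} {z : ℂ}
    (h : ∀ i j, DifferentiableAt ℂ (fun y => M y i j) z) :
    DifferentiableAt ℂ (fun y => (M y).det) z := by
  simp only [Matrix.det_apply]
  refine DifferentiableAt.fun_sum fun σ _ => ?_
  refine DifferentiableAt.const_smul ?_ _
  refine DifferentiableAt.fun_finsetProd fun i _ => h _ _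

theorem glue_fact (N : ℕ) (q : ℝ) (hN : (N : ℝ) ≤ q) : (N.factorial : ℝ) ≤ Real.exp (q * q) := by
  have h0 : (0 : ℝ) ≤ N := Nat.cast_nonneg N
  have h1 : (N.factorial : ℝ) ≤ (N : ℝ) ^ N := by exact_mod_cast Nat.factorial_le_pow N
  have h2 : (N : ℝ) ≤ Real.exp N := by
    have := Real.add_one_le_exp (N : ℝ); linarith
  calc (N.factorial : ℝ) ≤ (N : ℝ) ^ N := h1
    _ ≤ (Real.exp N) ^ N := by gcongr
    _ = Real.exp (N * N) := by rw [← Real.exp_nat_mul]
    _ ≤ Real.exp (q * q) := by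
      apply Real.exp_le_exp.mpr; nlinarith

theorem glue_pow (N : ℕ) (q a : ℝ) (ha : 0 ≤ a) (hN : (N : ℝ) ≤ q) :
    (1 + a * Real.exp (2 * q)) ^ N ≤ Real.exp (q * (a + 2 * q)) := by
  have h0 : (0 : ℝ) ≤ N := Nat.cast_nonneg N
  have hq : 0 ≤ q := h0.trans hN
  have h1 : 1 + a * Real.exp (2 * q) ≤ Real.exp (a + 2 * q) := by
    rw [Real.exp_add]
    have h2 := Real.add_one_le_exp a
    have h3 : 1 ≤ Real.exp (2 * q) := Real.one_le_exp (by linarith)
    nlinarith [Real.exp_pos (2 * q)]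
  calc (1 + a * Real.exp (2 * q)) ^ N ≤ (Real.exp (a + 2 * q)) ^ N := by
        apply pow_le_pow_left₀ _ h1
        have := Real.exp_pos (2 * q); positivity
    _ = Real.exp (N * (a + 2 * q)) := by rw [← Real.exp_nat_mul]
    _ ≤ Real.exp (q * (a + 2 * q)) := by
      apply Real.exp_le_exp.mpr
      have : 0 ≤ a + 2 * q := by linarith
      nlinarith

theorem glue_disc (h1 : FrKer) (h2 : FrUnit) (h3 : FrInv) (h4 : FrDeriv) (h5 : FrBound)
    (A : ℂ → X →L[ℂ] X) (hA : Differentiable ℂ A) (w : ℂ → ℂ) (l0 : ℂ) (T0 : X →L[ℂ] X)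
    (hT0 : T0 * (1 + A l0) = 1) (hT0' : (1 + A l0) * T0 = 1) (C : ℝ) (n : ℕ) (r : ℕ)
    (hr : 1 ≤ r) (hl0 : ‖l0‖ < r) (N : ℕ) (φ : Fin N → X) (ψ : Fin N → ℂ → (X →L[ℂ] ℂ))
    (b : ℂ → ℂ) (hN : (N : ℝ) ≤ C * (r : ℝ) ^ n)
    (hφ : ∀ k, ‖φ k‖ ≤ Real.exp (C * (r : ℝ) ^ n)) (hψd : ∀ k, Differentiable ℂ (ψ k))
    (hψ : ∀ k, ∀ l ∈ ball (0 : ℂ) r, ‖ψ k l‖ ≤ Real.exp (C * (r : ℝ) ^ n))
    (hbd : DifferentiableOn ℂ b (ball 0 r))
    (hb : ∀ l ∈ ball (0 : ℂ) r, ‖b l‖ ≤ C * (r : ℝ) ^ n)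
    (hsmall : ∀ l ∈ ball (0 : ℂ) r, ‖A l - FRop φ (fun k => ψ k l)‖ ≤ 1 / 2)
    (hid : ∀ l ∈ ball (0 : ℂ) r, ∀ T T₁ A₁' : X →L[ℂ] X, T * (1 + A l) = 1 → (1 + A l) * T = 1 →
        T₁ * (1 + (A l - FRop φ (fun k => ψ k l))) = 1 →
        (1 + (A l - FRop φ (fun k => ψ k l))) * T₁ = 1 →
        HasDerivAt (fun z => A z - FRop φ (fun k => ψ k z)) A₁' l →
        ∑ k, (deriv (ψ k) l) (T (φ k)) - ∑ k, ψ k l (T₁ (A₁' (T (φ k)))) = w l - b l) :
    ∃ D : ℂ → ℂ, DifferentiableOn ℂ D (ball 0 r) ∧ D l0 = 1 ∧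
      (∀ z ∈ ball (0 : ℂ) r, ‖D z‖ ≤
        Real.exp ((6 * C ^ 2 + (6 + ‖T0‖) * C) * (r : ℝ) ^ (2 * n + 1))) ∧
      (∀ z ∈ ball (0 : ℂ) r, D z = 0 → ∃ u : X, u ≠ 0 ∧ u + A z u = 0) ∧
      (∀ z ∈ ball (0 : ℂ) r, D z ≠ 0 → IsUnit (1 + A z)) ∧
      (∀ z ∈ ball (0 : ℂ) r, IsUnit (1 + A z) → D z ≠ 0) ∧
      (∀ z ∈ ball (0 : ℂ) r, D z ≠ 0 → HasDerivAt D (w z * D z) z) := by
  classical
  set q : ℝ := C * (r : ℝ) ^ n with hq
  have hrR : (1 : ℝ) ≤ r := by exact_mod_cast hr
  have hq0 : 0 ≤ q := (Nat.cast_nonneg N).trans hN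
  have hC : 0 ≤ C := by
    have hp : 0 < (r : ℝ) ^ n := by positivity
    by_contra hneg
    have : C * (r : ℝ) ^ n < 0 := mul_neg_of_neg_of_pos (not_le.mp hneg) hp
    linarith
  -- the small part
  set A₁ : ℂ → X →L[ℂ] X := fun z => A z - FRop φ (fun k => ψ k z) with hA₁
  set T₁ : ℂ → X →L[ℂ] X := fun z => Ring.inverse (1 + A₁ z) with hT₁
  have hF : Differentiable ℂ (fun z => FRop φ (fun k => ψ k z)) := by
    unfold FRop
    refine Differentiable.fun_sum fun k _ => ?_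
    have : (fun z => (ψ k z).smulRight (φ k)) =
        fun z => (ContinuousLinearMap.smulRightL ℂ X X).flip (φ k) (ψ k z) := by
      ext z x; simp
    rw [this]
    exact (ContinuousLinearMap.differentiable _).comp (hψd k)
  have hA₁d : Differentiable ℂ A₁ := hA.sub hF
  have hunit : ∀ z ∈ ball (0 : ℂ) r, IsUnit (1 + A₁ z) := fun z hz =>
    (glue_inv_of_norm _ (hsmall z hz)).1
  have hTn : ∀ z ∈ ball (0 : ℂ) r, ‖T₁ z‖ ≤ 2 := fun z hz =>
    (glue_inv_of_norm _ (hsmall z hz)).2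
  have hTl : ∀ z ∈ ball (0 : ℂ) r, T₁ z * (1 + A₁ z) = 1 := fun z hz =>
    Ring.inverse_mul_cancel _ (hunit z hz)
  have hTr : ∀ z ∈ ball (0 : ℂ) r, (1 + A₁ z) * T₁ z = 1 := fun z hz =>
    Ring.mul_inverse_cancel _ (hunit z hz)
  have hTd : ∀ z ∈ ball (0 : ℂ) r, DifferentiableAt ℂ T₁ z := fun z hz =>
    ((differentiableAt_const _).add (hA₁d z)).inverse (hunit z hz)
  have hAeq : ∀ z, A₁ z + FRop φ (fun k => ψ k z) = A z := fun z => by simp [hA₁]
  set d : ℂ → ℂ := fun z => (1 + FRmat φ (fun k => ψ k z) (T₁ z)).det with hd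
  have hdd : ∀ z ∈ ball (0 : ℂ) r, DifferentiableAt ℂ d z := by
    intro z hz
    refine glue_det_diff fun i j => ?_
    have : (fun y => (1 + FRmat φ (fun k => ψ k y) (T₁ y)) i j) =
        fun y => (1 : Matrix (Fin N) (Fin N) ℂ) i j + ψ i y (T₁ y (φ j)) := by
      ext y; simp [FRmat]
    rw [this]
    refine (differentiableAt_const _).add ?_
    exact (hψd i z).clm_apply ((hTd z hz).clm_apply (differentiableAt_const _))
  have hinv : ∀ z ∈ ball (0 : ℂ) r, ∀ T : X →L[ℂ] X, T * (1 + A z) = 1 → (1 + A z) * T = 1 →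
      d z * (1 - FRmat φ (fun k => ψ k z) T).det = 1 := by
    intro z hz T hTa hTb
    have := h3 X N φ (fun k => ψ k z) (A₁ z) (T₁ z) T (hTl z hz) (hTr z hz)
      (by rw [hAeq]; exact hTa) (by rw [hAeq]; exact hTb)
    rw [hd]
    simp only
    rw [← Matrix.det_mul, this, Matrix.det_one]
  have hker : ∀ z ∈ ball (0 : ℂ) r, d z = 0 → ∃ u : X, u ≠ 0 ∧ u + A z u = 0 := by
    intro z hz h0
    obtain ⟨u, hu, hu'⟩ := h1 X N φ (fun k => ψ k z) (A₁ z) (T₁ z) (hTl z hz) (hTr z hz) h0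
    exact ⟨u, hu, by rw [hAeq] at hu'; exact hu'⟩
  have huni : ∀ z ∈ ball (0 : ℂ) r, d z ≠ 0 →
      ∃ T : X →L[ℂ] X, T * (1 + A z) = 1 ∧ (1 + A z) * T = 1 := by
    intro z hz h0
    obtain ⟨T, hTa, hTb⟩ :=
      h2 X N φ (fun k => ψ k z) (A₁ z) (T₁ z) (hTl z hz) (hTr z hz) h0
    exact ⟨T, by rw [hAeq] at hTa; exact hTa, by rw [hAeq] at hTb; exact hTb⟩
  have hdne : ∀ z ∈ ball (0 : ℂ) r, IsUnit (1 + A z) → d z ≠ 0 := by
    intro z hz hu h0
    have := hinv z hz (Ring.inverse (1 + A z)) (Ring.inverse_mul_cancel _ hu)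
      (Ring.mul_inverse_cancel _ hu)
    rw [h0, zero_mul] at this
    exact zero_ne_one this
  have hderiv : ∀ z ∈ ball (0 : ℂ) r, d z ≠ 0 → HasDerivAt d (d z * (w z - b z)) z := by
    intro z hz h0
    obtain ⟨T, hTa, hTb⟩ := huni z hz h0
    have hnb : ball (0 : ℂ) r ∈ 𝓝 z := isOpen_ball.mem_nhds hz
    have hA' : HasDerivAt A₁ (deriv A₁ z) z := (hA₁d z).hasDerivAt
    have := h4 X N φ ψ A₁ T₁ z (fun k => deriv (ψ k) z) (deriv A₁ z) T
      (Filter.eventually_of_mem hnb hTl) (Filter.eventually_of_mem hnb hTr)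
      (fun k => (hψd k z).hasDerivAt) hA' (by rw [hAeq]; exact hTa) (by rw [hAeq]; exact hTb)
    rw [hid z hz T (T₁ z) (deriv A₁ z) hTa hTb (hTl z hz) (hTr z hz) hA'] at this
    exact this
  -- the primitive of `b`
  have hl0m : l0 ∈ ball (0 : ℂ) r := by simpa using hl0
  obtain ⟨β, hβ0, hβ⟩ := (hbd.isExactOn_ball).with_val_at l0 0
  have hβn : ∀ z ∈ ball (0 : ℂ) r, ‖β z‖ ≤ 2 * r * q := by
    intro z hz
    have := (convex_ball (0 : ℂ) (r : ℝ)).norm_image_sub_le_of_norm_hasDerivWithin_le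
      (f := β) (f' := b) (C := q) (fun x hx => (hβ x hx).hasDerivWithinAt) hb hl0m hz
    rw [hβ0, sub_zero] at this
    have hz' : ‖z - l0‖ ≤ 2 * r := by
      have : ‖z‖ < r := by simpa using hz
      calc ‖z - l0‖ ≤ ‖z‖ + ‖l0‖ := norm_sub_le _ _
        _ ≤ 2 * r := by linarith
    calc ‖β z‖ ≤ q * ‖z - l0‖ := this
      _ ≤ q * (2 * r) := by gcongr
      _ = 2 * r * q := by ring
  have hdl0 : d l0 ≠ 0 := hdne l0 hl0m ⟨⟨1 + A l0, T0, hT0', hT0⟩, rfl⟩
  -- bounds for the determinants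
  have hent : ∀ z ∈ ball (0 : ℂ) r, ∀ T : X →L[ℂ] X, ∀ i j,
      ‖FRmat φ (fun k => ψ k z) T i j‖ ≤ ‖T‖ * Real.exp (2 * q) := by
    intro z hz T i j
    have e1 : FRmat φ (fun k => ψ k z) T i j = ψ i z (T (φ j)) := rfl
    rw [e1]
    calc ‖ψ i z (T (φ j))‖ ≤ ‖ψ i z‖ * (‖T‖ * ‖φ j‖) :=
          ((ψ i z).le_opNorm _).trans (by gcongr; exact T.le_opNorm _)
      _ ≤ Real.exp q * (‖T‖ * Real.exp q) := by
          gcongr
          · exact hψ i z hz
          · exact hφ j
      _ = ‖T‖ * Real.exp (2 * q) := by rw [two_mul, Real.exp_add]; ring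
  have hdn : ∀ z ∈ ball (0 : ℂ) r, ‖d z‖ ≤ Real.exp (q * q) * Real.exp (q * (2 + 2 * q)) := by
    intro z hz
    have h6 := h5 N (FRmat φ (fun k => ψ k z) (T₁ z)) (2 * Real.exp (2 * q)) (fun i j =>
      (hent z hz (T₁ z) i j).trans (by gcongr; exact hTn z hz))
    refine h6.trans ?_
    gcongr
    · exact glue_fact N q hN
    · exact glue_pow N q 2 (by norm_num) hN
  have hdi : ‖(d l0)⁻¹‖ ≤ Real.exp (q * q) * Real.exp (q * (‖T0‖ + 2 * q)) := by
    have h6 := hinv l0 hl0m T0 hT0 hT0'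
    have h7 : (d l0)⁻¹ = (1 + -FRmat φ (fun k => ψ k l0) T0).det := by
      rw [← sub_eq_add_neg]
      exact (eq_inv_of_mul_eq_one_right h6).symm
    rw [h7]
    have h8 := h5 N (-FRmat φ (fun k => ψ k l0) T0) (‖T0‖ * Real.exp (2 * q)) (fun i j => by
      rw [Matrix.neg_apply, norm_neg]; exact hent l0 hl0m T0 i j)
    refine h8.trans ?_
    gcongr
    · exact glue_fact N q hN
    · exact glue_pow N q ‖T0‖ (norm_nonneg _) hN
  refine ⟨fun z => (d l0)⁻¹ * d z * Complex.exp (β z), ?_, ?_, ?_, ?_, ?_, ?_, ?_⟩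
  · intro z hz
    exact (((hdd z hz).const_mul _).mul
      (hβ z hz).differentiableAt.cexp).differentiableWithinAt
  · simp only
    rw [hβ0, Complex.exp_zero, mul_one, inv_mul_cancel₀ hdl0]
  · intro z hz
    have e1 : ‖Complex.exp (β z)‖ ≤ Real.exp (2 * r * q) := by
      rw [Complex.norm_exp]
      exact Real.exp_le_exp.mpr ((Complex.re_le_norm _).trans (hβn z hz))
    calc ‖(d l0)⁻¹ * d z * Complex.exp (β z)‖
        = ‖(d l0)⁻¹‖ * ‖d z‖ * ‖Complex.exp (β z)‖ := by rw [norm_mul, norm_mul]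
      _ ≤ (Real.exp (q * q) * Real.exp (q * (‖T0‖ + 2 * q))) *
          (Real.exp (q * q) * Real.exp (q * (2 + 2 * q))) * Real.exp (2 * r * q) := by
          gcongr
          exact hdn z hz
      _ = Real.exp (6 * q ^ 2 + (2 + ‖T0‖) * q + 2 * r * q) := by
          rw [← Real.exp_add, ← Real.exp_add, ← Real.exp_add, ← Real.exp_add]
          congr 1; ring
      _ ≤ Real.exp ((6 * C ^ 2 + (6 + ‖T0‖) * C) * (r : ℝ) ^ (2 * n + 1)) := by
          apply Real.exp_le_exp.mpr
          have a1 : (r : ℝ) ^ (2 * n) ≤ (r : ℝ) ^ (2 * n + 1) :=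
            pow_le_pow_right₀ hrR (by omega)
          have a2 : (r : ℝ) ^ n ≤ (r : ℝ) ^ (2 * n + 1) := pow_le_pow_right₀ hrR (by omega)
          have a3 : (r : ℝ) ^ (n + 1) ≤ (r : ℝ) ^ (2 * n + 1) :=
            pow_le_pow_right₀ hrR (by omega)
          have b1 : 6 * q ^ 2 ≤ 6 * C ^ 2 * (r : ℝ) ^ (2 * n + 1) := by
            have : 6 * q ^ 2 = 6 * C ^ 2 * (r : ℝ) ^ (2 * n) := by rw [hq]; ring
            rw [this]; gcongr
          have b2 : (2 + ‖T0‖) * q ≤ (2 + ‖T0‖) * C * (r : ℝ) ^ (2 * n + 1) := by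
            rw [hq, ← mul_assoc]; gcongr
          have b3 : 2 * r * q ≤ 2 * C * (r : ℝ) ^ (2 * n + 1) := by
            have : 2 * r * q = 2 * C * (r : ℝ) ^ (n + 1) := by rw [hq]; ring
            rw [this]; gcongr
          have b4 : 0 ≤ C * (r : ℝ) ^ (2 * n + 1) := by positivity
          nlinarith
  · intro z hz h0
    refine hker z hz ?_
    have : (d l0)⁻¹ ≠ 0 := inv_ne_zero hdl0
    simpa [this, Complex.exp_ne_zero] using h0
  · intro z hz h0
    have h6 : d z ≠ 0 := by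
      intro h7; exact h0 (by simp [h7])
    obtain ⟨T, hTa, hTb⟩ := huni z hz h6
    exact ⟨⟨1 + A z, T, hTb, hTa⟩, rfl⟩
  · intro z hz hu
    have h6 := hdne z hz hu
    simp [h6, hdl0, Complex.exp_ne_zero]
  · intro z hz h0
    have h6 : d z ≠ 0 := by
      intro h7; exact h0 (by simp [h7])
    have h7 := ((hderiv z hz h6).const_mul (d l0)⁻¹).mul ((hβ z hz).cexp)
    have h8 : w z * ((d l0)⁻¹ * d z * Complex.exp (β z)) =
        (d l0)⁻¹ * (d z * (w z - b z)) * Complex.exp (β z) +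
          (d l0)⁻¹ * d z * (Complex.exp (β z) * b z) := by ring
    show HasDerivAt _ (w z * ((d l0)⁻¹ * d z * Complex.exp (β z))) z
    rw [h8]
    exact h7

end Disc

/-- Uniqueness of the normalised solution of `f' = w f` (with possible zeros). -/
theorem glue_unique {f g w : ℂ → ℂ} {r : ℝ} {l0 : ℂ} (hl0 : l0 ∈ ball (0 : ℂ) r)
    (hf : DifferentiableOn ℂ f (ball 0 r)) (hg : DifferentiableOn ℂ g (ball 0 r))
    (hf0 : f l0 = 1) (hg0 : g l0 = 1)
    (hf' : ∀ z ∈ ball (0 : ℂ) r, f z ≠ 0 → HasDerivAt f (w z * f z) z)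
    (hg' : ∀ z ∈ ball (0 : ℂ) r, g z ≠ 0 → HasDerivAt g (w z * g z) z) :
    ∀ z ∈ ball (0 : ℂ) r, f z = g z := by
  have hop : IsOpen (ball (0 : ℂ) r) := isOpen_ball
  have hfa : AnalyticOnNhd ℂ f (ball 0 r) := hf.analyticOnNhd hop
  have hga : AnalyticOnNhd ℂ g (ball 0 r) := hg.analyticOnNhd hop
  -- near `l0` both functions do not vanish
  have hfc : ContinuousAt f l0 := (hfa l0 hl0).continuousAt
  have hgc : ContinuousAt g l0 := (hga l0 hl0).continuousAt
  have e1 : ∀ᶠ z in 𝓝 l0, f z ≠ 0 := hfc.eventually_ne (by rw [hf0]; exact one_ne_zero)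
  have e2 : ∀ᶠ z in 𝓝 l0, g z ≠ 0 := hgc.eventually_ne (by rw [hg0]; exact one_ne_zero)
  have e3 : ∀ᶠ z in 𝓝 l0, z ∈ ball (0 : ℂ) r := hop.mem_nhds hl0
  obtain ⟨δ, hδ, hball⟩ := Metric.eventually_nhds_iff_ball.mp (e1.and (e2.and e3))
  have hconst : ∀ z ∈ ball l0 δ, f z / g z = 1 := by
    intro z hz
    have hd : ∀ y ∈ ball l0 δ, HasDerivAt (fun y => f y / g y) 0 y := by
      intro y hy
      obtain ⟨a1, a2, a3⟩ := hball y hy
      have := (hf' y a3 a1).div (hg' y a3 a2) a2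
      have h8 : (w y * f y * g y - f y * (w y * g y)) / g y ^ 2 = 0 := by
        rw [show w y * f y * g y - f y * (w y * g y) = 0 by ring, zero_div]
      rw [h8] at this
      exact this
    have := (convex_ball l0 δ).is_const_of_fderivWithin_eq_zero (𝕜 := ℂ)
      (f := fun y => f y / g y) (fun y hy => (hd y hy).differentiableAt.differentiableWithinAt)
      (fun y hy => by
        have h6 := (hd y hy).hasFDerivAt.hasFDerivWithinAt (s := ball l0 δ)
        rw [h6.fderivWithin (isOpen_ball.uniqueDiffWithinAt hy)]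
        ext; simp) hz (mem_ball_self hδ)
    have this : f z / g z = f l0 / g l0 := this
    rw [this, hf0, hg0, div_one]
  have hev : f =ᶠ[𝓝 l0] g := by
    filter_upwards [ball_mem_nhds l0 hδ] with z hz
    obtain ⟨a1, a2, a3⟩ := hball z hz
    have := hconst z hz
    rwa [div_eq_one_iff_eq a2] at this
  intro z hz
  exact hfa.eqOn_of_preconnected_of_eventuallyEq hga (convex_ball (0 : ℂ) r).isPreconnected
    hl0 hev hz

/-- Item 7. -/
theorem glue (h1 : FrKer) (h2 : FrUnit) (h3 : FrInv) (h4 : FrDeriv) (h5 : FrBound) : Glue := by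
  intro X _ _ _ A hA w l0 T0 hT0 hT0' C n hyp
  -- the discs
  have key : ∀ r : ℕ, 1 ≤ r → ‖l0‖ < r → ∃ D : ℂ → ℂ, DifferentiableOn ℂ D (ball 0 r) ∧
      D l0 = 1 ∧
      (∀ z ∈ ball (0 : ℂ) r, ‖D z‖ ≤
        Real.exp ((6 * C ^ 2 + (6 + ‖T0‖) * C) * (r : ℝ) ^ (2 * n + 1))) ∧
      (∀ z ∈ ball (0 : ℂ) r, D z = 0 → ∃ u : X, u ≠ 0 ∧ u + A z u = 0) ∧
      (∀ z ∈ ball (0 : ℂ) r, D z ≠ 0 → IsUnit (1 + A z)) ∧
      (∀ z ∈ ball (0 : ℂ) r, IsUnit (1 + A z) → D z ≠ 0) ∧
      (∀ z ∈ ball (0 : ℂ) r, D z ≠ 0 → HasDerivAt D (w z * D z) z) := by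
    intro r hr hl
    obtain ⟨N, φ, ψ, b, a1, a2, a3, a4, a5, a6, a7, a8⟩ := hyp r hr
    exact glue_disc h1 h2 h3 h4 h5 A hA w l0 T0 hT0 hT0' C n r hr hl N φ ψ b a1 a2 a3 a4 a5 a6
      a7 a8
  obtain ⟨r0, hr0⟩ := exists_nat_gt ‖l0‖
  have hr01 : 1 ≤ r0 := by
    rcases Nat.eq_zero_or_pos r0 with h | h
    · exfalso; rw [h] at hr0; have := norm_nonneg l0; simp at hr0; linarith
    · exact h
  choose! D hD1 hD2 hD3 hD4 hD5 hD6 hD7 using key
  have hlt : ∀ r : ℕ, r0 ≤ r → ‖l0‖ < r := fun r hr => hr0.trans_le (by exact_mod_cast hr)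
  have hge : ∀ r : ℕ, r0 ≤ r → 1 ≤ r := fun r hr => hr01.trans hr
  -- consistency
  have hcons : ∀ r s : ℕ, r0 ≤ r → r ≤ s → ∀ z ∈ ball (0 : ℂ) r, D r z = D s z := by
    intro r s hr hrs z hz
    have hsub : ball (0 : ℂ) (r : ℝ) ⊆ ball 0 (s : ℝ) :=
      ball_subset_ball (by exact_mod_cast hrs)
    have hs := hr.trans hrs
    refine glue_unique (w := w) (l0 := l0) (by simpa using hlt r hr)
      (hD1 r (hge r hr) (hlt r hr)) ((hD1 s (hge s hs) (hlt s hs)).mono hsub)
      (hD2 r (hge r hr) (hlt r hr)) (hD2 s (hge s hs) (hlt s hs))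
      (hD7 r (hge r hr) (hlt r hr)) (fun y hy => hD7 s (hge s hs) (hlt s hs) y (hsub hy)) z hz
  set ρ : ℂ → ℕ := fun z => ⌈‖z‖⌉₊ + r0 + 1 with hρ
  have hρ0 : ∀ z, r0 ≤ ρ z := fun z => by simp only [hρ]; omega
  have hρz : ∀ z, z ∈ ball (0 : ℂ) (ρ z) := by
    intro z
    simp only [hρ, mem_ball, dist_zero_right]
    push_cast
    have := Nat.le_ceil ‖z‖
    have h6 : (0 : ℝ) ≤ r0 := Nat.cast_nonneg _
    linarith
  have hE : ∀ s : ℕ, r0 ≤ s → ∀ z ∈ ball (0 : ℂ) s, D (ρ z) z = D s z := by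
    intro s hs z hz
    rcases le_total s (ρ z) with h | h
    · exact (hcons s (ρ z) hs h z hz).symm
    · exact hcons (ρ z) s (hρ0 z) h z (hρz z)
  have hEv : ∀ z, (fun y => D (ρ y) y) =ᶠ[𝓝 z] D (ρ z) := by
    intro z
    filter_upwards [isOpen_ball.mem_nhds (hρz z)] with y hy
    exact hE (ρ z) (hρ0 z) y hy
  have hg : ∀ z, 1 ≤ ρ z ∧ ‖l0‖ < ρ z := fun z => ⟨hge _ (hρ0 z), hlt _ (hρ0 z)⟩
  refine ⟨fun z => D (ρ z) z, ?_, ?_, ?_, ?_, ?_, ?_⟩
  · intro z
    have := (hD1 (ρ z) (hg z).1 (hg z).2).differentiableAt (isOpen_ball.mem_nhds (hρz z))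
    exact this.congr_of_eventuallyEq (hEv z)
  · set K : ℝ := 6 * C ^ 2 + (6 + ‖T0‖) * C with hK
    have hC : 0 ≤ C := by
      obtain ⟨N, φ, ψ, b, a1, -⟩ := hyp 1 le_rfl
      have : (0 : ℝ) ≤ N := Nat.cast_nonneg _
      simpa using this.trans a1
    have hK0 : 0 ≤ K := by positivity
    refine ⟨K * ((r0 : ℝ) + 2) ^ (2 * n + 1), 2 * n + 1, fun z => ?_⟩
    refine (hD3 (ρ z) (hg z).1 (hg z).2 z (hρz z)).trans (Real.exp_le_exp.mpr ?_)
    rw [mul_assoc, ← mul_pow]
    have h6 : (ρ z : ℝ) ≤ ((r0 : ℝ) + 2) * (1 + ‖z‖) := by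
      simp only [hρ]
      push_cast
      have h7 := Nat.ceil_lt_add_one (norm_nonneg z)
      have h8 : (0 : ℝ) ≤ r0 := Nat.cast_nonneg _
      have h9 := norm_nonneg z
      nlinarith
    gcongr
  · simp only
    exact hD2 _ (hg l0).1 (hg l0).2
  · intro z hz
    exact hD4 (ρ z) (hg z).1 (hg z).2 z (hρz z) hz
  · intro z hz
    exact hD5 (ρ z) (hg z).1 (hg z).2 z (hρz z) hz
  · intro z hz
    rw [(hEv z).deriv_eq]
    exact (hD7 (ρ z) (hg z).1 (hg z).2 z (hρz z) hz).deriv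

end Pool.Agent.Work.MP_f2af60_mp

end

section

/-!
# MP_f2af60_mp, item 8: a separable cutoff away from the diagonal
-/

namespace Pool.Agent.Work.MP_f2af60_mp

open MeasureTheory Metric Filter Topology

/-- The one dimensional hat function. -/
noncomputable def hat (t : ℝ) : ℝ := max 0 (1 - |t|)

theorem hat_cont : Continuous hat := by unfold hat; fun_prop

theorem hat_nonneg (t : ℝ) : 0 ≤ hat t := le_max_left _ _

theorem hat_le_one (t : ℝ) : hat t ≤ 1 :=
  max_le zero_le_one (by linarith [abs_nonneg t])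

theorem hat_eq_zero {t : ℝ} (h : 1 ≤ |t|) : hat t = 0 :=
  max_eq_left (by linarith)

theorem abs_lt_of_hat {t : ℝ} (h : hat t ≠ 0) : |t| < 1 := by
  by_contra h'
  exact h (hat_eq_zero (not_lt.mp h'))

theorem hat_sum_range (M : ℕ) : ∀ t : ℝ, 0 ≤ t → t ≤ M →
    ∑ j ∈ Finset.range (M + 1), hat (t - j) = 1 := by
  induction M with
  | zero =>
    intro t h0 h1
    have : t = 0 := le_antisymm (by simpa using h1) h0
    simp [this, hat]
  | succ M ih =>
    intro t h0 h1
    rw [Finset.sum_range_succ]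
    push_cast at h1 ⊢
    by_cases h : t ≤ M
    · rw [ih t h0 h, hat_eq_zero, add_zero]
      rw [abs_of_nonpos (by linarith)]
      linarith
    · push Not at h
      rw [Finset.sum_range_succ, Finset.sum_eq_zero, zero_add]
      · unfold hat
        rw [abs_of_nonneg (by linarith : (0 : ℝ) ≤ t - M),
          abs_of_nonpos (by linarith : t - ((M : ℝ) + 1) ≤ 0), max_eq_right, max_eq_right]
        · ring
        · linarith
        · linarith
      · intro j hj
        rw [Finset.mem_range] at hj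
        have hj' : (j : ℝ) + 1 ≤ M := by exact_mod_cast hj
        apply hat_eq_zero
        rw [abs_of_nonneg (by linarith)]
        linarith

theorem hat_sum (m : ℕ) (t : ℝ) (ht : |t| ≤ m) :
    ∑ j : Fin (2 * m + 1), hat (t - ((j : ℕ) - m : ℝ)) = 1 := by
  rw [Fin.sum_univ_eq_sum_range (fun j : ℕ => hat (t - ((j : ℝ) - m))) (2 * m + 1)]
  rw [abs_le] at ht
  have := hat_sum_range (2 * m) (t + m) (by linarith) (by push_cast; linarith)
  rw [← this]
  refine Finset.sum_congr rfl fun j _ => ?_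
  congr 1
  ring

/-- The product hat functions. -/
noncomputable def chi (d : ℝ) (m : ℕ) (q : Fin 5 → Fin (2 * m + 1)) : C(E5, ℝ) where
  toFun x := ∏ i, hat (x i / d - ((q i : ℕ) - m : ℝ))
  continuous_toFun := by
    refine continuous_finsetProd _ fun i _ => hat_cont.comp ?_
    fun_prop

theorem chi_apply (d : ℝ) (m : ℕ) (q : Fin 5 → Fin (2 * m + 1)) (x : E5) :
    chi d m q x = ∏ i, hat (x i / d - ((q i : ℕ) - m : ℝ)) := rfl

theorem chi_nonneg (d : ℝ) (m : ℕ) (q : Fin 5 → Fin (2 * m + 1)) (x : E5) :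
    0 ≤ chi d m q x := by
  rw [chi_apply]; exact Finset.prod_nonneg fun i _ => hat_nonneg _

theorem chi_le_one (d : ℝ) (m : ℕ) (q : Fin 5 → Fin (2 * m + 1)) (x : E5) :
    chi d m q x ≤ 1 := by
  rw [chi_apply]; exact Finset.prod_le_one (fun i _ => hat_nonneg _) fun i _ => hat_le_one _

theorem abs_lt_of_chi {d : ℝ} {m : ℕ} {q : Fin 5 → Fin (2 * m + 1)} {x : E5}
    (h : chi d m q x ≠ 0) (i : Fin 5) : |x i / d - ((q i : ℕ) - m : ℝ)| < 1 := by
  rw [chi_apply, Finset.prod_ne_zero_iff] at h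
  exact abs_lt_of_hat (h i (Finset.mem_univ _))

theorem chi_sum (d : ℝ) (hd : 0 < d) (m : ℕ) (x : E5) (hx : ∀ i, |x i| ≤ m * d) :
    ∑ q : Fin 5 → Fin (2 * m + 1), chi d m q x = 1 := by
  simp_rw [chi_apply]
  rw [← Fintype.prod_sum (fun (i : Fin 5) (j : Fin (2 * m + 1)) =>
    hat (x i / d - ((j : ℕ) - m : ℝ)))]
  refine Finset.prod_eq_one fun i _ => hat_sum m _ ?_
  rw [abs_div, abs_of_pos hd, div_le_iff₀ hd]
  exact hx i

/-- Far pairs of indices. -/
def Far {m : ℕ} (p : (Fin 5 → Fin (2 * m + 1)) × (Fin 5 → Fin (2 * m + 1))) : Prop :=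
  ∃ i, (3 : ℤ) ≤ |((p.1 i : ℕ) : ℤ) - ((p.2 i : ℕ) : ℤ)|

theorem abs_coord_le (x y : E5) (i : Fin 5) : |x i - y i| ≤ dist x y := by
  rw [dist_eq_norm]
  have := PiLp.norm_apply_le (x - y) i
  simpa using this

theorem exists_coord (x y : E5) (d : ℝ) (hd : 0 < d) (h : 9 * d ≤ dist x y) :
    ∃ i, 4 * d < |x i - y i| := by
  by_contra hcon
  push Not at hcon
  have h1 : dist x y ^ 2 ≤ 80 * d ^ 2 := by
    rw [EuclideanSpace.dist_eq, Real.sq_sqrt (Finset.sum_nonneg fun i _ => sq_nonneg _)]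
    calc ∑ i, dist (x i) (y i) ^ 2 ≤ ∑ i : Fin 5, (4 * d) ^ 2 := by
          refine Finset.sum_le_sum fun i _ => ?_
          rw [Real.dist_eq]
          exact pow_le_pow_left₀ (abs_nonneg _) (hcon i) 2
      _ = 80 * d ^ 2 := by simp; ring
  have h2 : (9 * d) ^ 2 ≤ dist x y ^ 2 := pow_le_pow_left₀ (by positivity) h 2
  nlinarith [sq_pos_of_pos hd]

theorem far_of_dist {m : ℕ} (p : (Fin 5 → Fin (2 * m + 1)) × (Fin 5 → Fin (2 * m + 1)))
    (d : ℝ) (hd : 0 < d) (x y : E5) (hx : chi d m p.1 x ≠ 0) (hy : chi d m p.2 y ≠ 0)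
    (h : 9 * d ≤ dist x y) : Far p := by
  obtain ⟨i, hi⟩ := exists_coord x y d hd h
  refine ⟨i, ?_⟩
  have h1 := abs_lt_of_chi hx i
  have h2 := abs_lt_of_chi hy i
  have h3 : 4 < |x i / d - y i / d| := by
    rw [← sub_div, abs_div, abs_of_pos hd, lt_div_iff₀ hd]
    exact hi
  have h4 : (2 : ℝ) < |((p.1 i : ℕ) : ℝ) - ((p.2 i : ℕ) : ℝ)| := by
    rw [abs_lt] at h1 h2
    rcases lt_abs.mp h3 with h3 | h3
    · exact lt_abs.mpr (Or.inl (by linarith [h1.1, h1.2, h2.1, h2.2]))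
    · exact lt_abs.mpr (Or.inr (by linarith [h1.1, h1.2, h2.1, h2.2]))
  have h5 : (2 : ℤ) < |((p.1 i : ℕ) : ℤ) - ((p.2 i : ℕ) : ℤ)| := by
    have : ((2 : ℤ) : ℝ) < ((|((p.1 i : ℕ) : ℤ) - ((p.2 i : ℕ) : ℤ)| : ℤ) : ℝ) := by
      push_cast
      exact h4
    exact_mod_cast this
  omega

theorem not_far_of_dist {m : ℕ} (p : (Fin 5 → Fin (2 * m + 1)) × (Fin 5 → Fin (2 * m + 1)))
    (d : ℝ) (hd : 0 < d) (x y : E5) (hx : chi d m p.1 x ≠ 0) (hy : chi d m p.2 y ≠ 0)
    (h : dist x y < d) : ¬ Far p := by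
  rintro ⟨i, hi⟩
  have h1 := abs_lt_of_chi hx i
  have h2 := abs_lt_of_chi hy i
  have h3 : |x i / d - y i / d| < 1 := by
    rw [← sub_div, abs_div, abs_of_pos hd, div_lt_iff₀ hd, one_mul]
    exact (abs_coord_le x y i).trans_lt h
  have h4 : |((p.1 i : ℕ) : ℝ) - ((p.2 i : ℕ) : ℝ)| < 3 := by
    rw [abs_lt] at h1 h2 h3 ⊢
    constructor <;> linarith [h1.1, h1.2, h2.1, h2.2, h3.1, h3.2]
  have h5 : |((p.1 i : ℕ) : ℤ) - ((p.2 i : ℕ) : ℤ)| < 3 := by
    have : ((|((p.1 i : ℕ) : ℤ) - ((p.2 i : ℕ) : ℤ)| : ℤ) : ℝ) < ((3 : ℤ) : ℝ) := by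
      push_cast
      exact h4
    exact_mod_cast this
  omega

open Classical in
theorem hats : Hats := by
  intro R c0 hR hc0
  refine ⟨(2 * (9 * R / c0 + 1) + 1) ^ 10, c0 / 9, 10, by positivity, by linarith, ?_⟩
  intro r hr
  have hr' : (1 : ℝ) ≤ r := by exact_mod_cast hr
  have hr0 : (0 : ℝ) < r := by linarith
  set d : ℝ := c0 / (9 * r) with hd
  have hd0 : 0 < d := by positivity
  set m : ℕ := ⌈R / d⌉₊ with hm
  have hmR : R ≤ m * d := by
    have := Nat.le_ceil (R / d)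
    rwa [div_le_iff₀ hd0] at this
  have hmle : (m : ℝ) ≤ (9 * R / c0 + 1) * r := by
    have h1 : (m : ℝ) < R / d + 1 := Nat.ceil_lt_add_one (by positivity)
    have h2 : R / d = 9 * R / c0 * r := by
      rw [hd]; field_simp
    rw [h2] at h1
    nlinarith
  let I := (Fin 5 → Fin (2 * m + 1)) × (Fin 5 → Fin (2 * m + 1))
  let e : I ≃ Fin (Fintype.card I) := Fintype.equivFin I
  let a : I → C(E5, ℝ) := fun p => if Far p then chi d m p.1 else 0
  let b : I → C(E5, ℝ) := fun p => chi d m p.2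
  refine ⟨Fintype.card I, fun k => a (e.symm k), fun k => b (e.symm k), ?_, ?_, ?_, ?_⟩
  · have h1 : Fintype.card I = (2 * m + 1) ^ 10 := by
      simp only [I, Fintype.card_prod, Fintype.card_fun, Fintype.card_fin]
      ring
    rw [h1, ← mul_pow]
    push_cast
    refine pow_le_pow_left₀ (by positivity) ?_ 10
    nlinarith
  · intro k x
    simp only [a]
    split_ifs
    · exact ⟨chi_nonneg _ _ _ _, chi_le_one _ _ _ _⟩
    · simp
  · intro k x
    exact ⟨chi_nonneg _ _ _ _, chi_le_one _ _ _ _⟩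
  · intro x hx y hy
    have hx' : ∀ i, |x i| ≤ m * d := by
      intro i
      have h1 := PiLp.norm_apply_le x i
      rw [Real.norm_eq_abs] at h1
      rw [mem_closedBall_zero_iff] at hx
      linarith
    have hy' : ∀ i, |y i| ≤ m * d := by
      intro i
      have h1 := PiLp.norm_apply_le y i
      rw [Real.norm_eq_abs] at h1
      rw [mem_closedBall_zero_iff] at hy
      linarith
    have hS : ∑ k, (a (e.symm k)) x * (b (e.symm k)) y = ∑ p : I, a p x * b p y :=
      Equiv.sum_comp e.symm (fun p : I => a p x * b p y)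
    have hT : ∑ p : I, chi d m p.1 x * chi d m p.2 y = 1 := by
      rw [Fintype.sum_prod_type]
      simp_rw [← Finset.mul_sum]
      rw [← Finset.sum_mul, chi_sum d hd0 m x hx', chi_sum d hd0 m y hy', one_mul]
    have hle : ∀ p : I, 0 ≤ a p x * b p y ∧ a p x * b p y ≤ chi d m p.1 x * chi d m p.2 y := by
      intro p
      simp only [a, b]
      split_ifs
      · exact ⟨mul_nonneg (chi_nonneg _ _ _ _) (chi_nonneg _ _ _ _), le_rfl⟩
      · simp only [ContinuousMap.zero_apply, zero_mul, le_refl, true_and]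
        exact mul_nonneg (chi_nonneg _ _ _ _) (chi_nonneg _ _ _ _)
    simp only [hS]
    refine ⟨Finset.sum_nonneg fun p _ => (hle p).1, ?_, ?_, ?_⟩
    · rw [← hT]
      exact Finset.sum_le_sum fun p _ => (hle p).2
    · intro hdist
      rw [← hT]
      refine Finset.sum_congr rfl fun p _ => ?_
      by_cases h0 : chi d m p.1 x * chi d m p.2 y = 0
      · rw [h0]
        exact le_antisymm ((hle p).2.trans h0.le) (hle p).1
      · have h1 := left_ne_zero_of_mul h0
        have h2 := right_ne_zero_of_mul h0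
        have hf : Far p := far_of_dist p d hd0 x y h1 h2 (by
          have : 9 * d = c0 / r := by rw [hd]; field_simp
          rw [this]; exact hdist)
        simp only [a, b, if_pos hf]
    · intro hdist
      refine Finset.sum_eq_zero fun p _ => ?_
      by_cases h0 : chi d m p.1 x * chi d m p.2 y = 0
      · exact le_antisymm ((hle p).2.trans h0.le) (hle p).1
      · have h1 := left_ne_zero_of_mul h0
        have h2 := right_ne_zero_of_mul h0
        have hf : ¬ Far p := not_far_of_dist p d hd0 x y h1 h2 (by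
          have : d = c0 / 9 / r := by rw [hd]; field_simp
          rw [this]; exact hdist)
        simp only [a, if_neg hf, ContinuousMap.zero_apply, zero_mul]

end Pool.Agent.Work.MP_f2af60_mp

end

section

/-!
# MP_f2af60_mp, pole form, item P1: the time integral of the five dimensional heat kernel
-/

namespace Pool.Agent.Work.MP_f2af60_mp

open MeasureTheory Set Filter Topology

/-- The primitive of the Gaussian. -/
noncomputable def heatInt_Phi (y : ℝ) : ℝ := ∫ x in (0 : ℝ)..y, Real.exp (-(x ^ 2))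

theorem heatInt_Phi_deriv (y : ℝ) : HasDerivAt heatInt_Phi (Real.exp (-(y ^ 2))) y := by
  have hc : Continuous fun x : ℝ => Real.exp (-(x ^ 2)) := by fun_prop
  exact (hc.integral_hasStrictDerivAt 0 y).hasDerivAt

theorem heatInt_Phi_top : Tendsto heatInt_Phi atTop (𝓝 (Real.sqrt Real.pi / 2)) := by
  have h1 : IntegrableOn (fun x : ℝ => Real.exp (-(x ^ 2))) (Ioi 0) := by
    have := (integrable_exp_neg_mul_sq (b := 1) one_pos).integrableOn (s := Ioi 0)
    simpa using this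
  have h2 := intervalIntegral_tendsto_integral_Ioi 0 h1 tendsto_id
  have h3 : ∫ x in Ioi (0 : ℝ), Real.exp (-(x ^ 2)) = Real.sqrt Real.pi / 2 := by
    have := integral_gaussian_Ioi 1
    simpa using this
  rw [h3] at h2
  exact h2

theorem heatInt_Phi_neg (y : ℝ) : heatInt_Phi (-y) = - heatInt_Phi y := by
  unfold heatInt_Phi
  have h := intervalIntegral.integral_comp_neg (a := 0) (b := y)
    (fun x : ℝ => Real.exp (-(x ^ 2)))
  simp only [neg_zero, even_two, Even.neg_pow] at h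
  rw [h, intervalIntegral.integral_symm]

theorem heatInt_Phi_bot : Tendsto heatInt_Phi atBot (𝓝 (-(Real.sqrt Real.pi / 2))) := by
  have h := (heatInt_Phi_top.comp tendsto_neg_atBot_atTop).neg
  refine h.congr (fun y => ?_)
  rw [Function.comp_apply, heatInt_Phi_neg, neg_neg]

/-- The primitive of the (normalised) heat kernel. -/
noncomputable def heatInt_F (k a t : ℝ) : ℝ :=
  (Real.sqrt t)⁻¹ * Real.exp (-(a ^ 2 / t) - k ^ 2 * t) +
    1 / (2 * a) * (Real.exp (-(2 * k * a)) * heatInt_Phi (k * Real.sqrt t - a / Real.sqrt t) -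
      Real.exp (2 * k * a) * heatInt_Phi (k * Real.sqrt t + a / Real.sqrt t)) +
    k * (Real.exp (2 * k * a) * heatInt_Phi (k * Real.sqrt t + a / Real.sqrt t) +
      Real.exp (-(2 * k * a)) * heatInt_Phi (k * Real.sqrt t - a / Real.sqrt t))

theorem heatInt_F_deriv {k a t : ℝ} (ha : 0 < a) (ht : 0 < t) :
    HasDerivAt (heatInt_F k a)
      (a ^ 2 * (t ^ 2 * Real.sqrt t)⁻¹ * Real.exp (-(a ^ 2 / t) - k ^ 2 * t)) t := by
  have hs : 0 < Real.sqrt t := Real.sqrt_pos.2 ht
  have d0 : HasDerivAt (fun t : ℝ => Real.sqrt t) (1 / (2 * Real.sqrt t)) t :=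
    Real.hasDerivAt_sqrt ht.ne'
  have d1 : HasDerivAt (fun t : ℝ => (Real.sqrt t)⁻¹) (-(1 / (2 * Real.sqrt t)) /
      Real.sqrt t ^ 2) t := d0.inv hs.ne'
  have d2 : HasDerivAt (fun t : ℝ => -(a ^ 2 / t) - k ^ 2 * t) (a ^ 2 / t ^ 2 - k ^ 2) t := by
    have e1 := ((hasDerivAt_const t (a ^ 2)).div (hasDerivAt_id t) ht.ne').neg
    have e2 := (hasDerivAt_id t).const_mul (k ^ 2)
    refine (e1.sub e2).congr_deriv ?_
    simp
    ring
  have d3 := d2.exp
  have dp : HasDerivAt (fun t : ℝ => k * Real.sqrt t + a / Real.sqrt t)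
      (k * (1 / (2 * Real.sqrt t)) - a * (1 / (2 * Real.sqrt t)) / Real.sqrt t ^ 2) t := by
    refine ((d0.const_mul k).add ((hasDerivAt_const t a).div d0 hs.ne')).congr_deriv ?_
    ring
  have dm : HasDerivAt (fun t : ℝ => k * Real.sqrt t - a / Real.sqrt t)
      (k * (1 / (2 * Real.sqrt t)) + a * (1 / (2 * Real.sqrt t)) / Real.sqrt t ^ 2) t := by
    refine ((d0.const_mul k).sub ((hasDerivAt_const t a).div d0 hs.ne')).congr_deriv ?_
    ring
  have dA := ((heatInt_Phi_deriv (k * Real.sqrt t + a / Real.sqrt t)).comp t dp).const_mul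
    (Real.exp (2 * k * a))
  have dB := ((heatInt_Phi_deriv (k * Real.sqrt t - a / Real.sqrt t)).comp t dm).const_mul
    (Real.exp (-(2 * k * a)))
  have dF := ((d1.mul d3).add ((dB.sub dA).const_mul (1 / (2 * a)))).add ((dA.add dB).const_mul k)
  refine dF.congr_deriv ?_
  obtain ⟨s, hs0, hst⟩ : ∃ s : ℝ, 0 < s ∧ t = s ^ 2 := ⟨Real.sqrt t, hs, (Real.sq_sqrt ht.le).symm⟩
  have hsq : Real.sqrt t = s := by rw [hst, Real.sqrt_sq hs0.le]
  rw [hsq, hst]
  have eA : Real.exp (2 * k * a) * Real.exp (-((k * s + a / s) ^ 2)) =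
      Real.exp (-(a ^ 2 / s ^ 2) - k ^ 2 * s ^ 2) := by
    rw [← Real.exp_add]
    congr 1
    field_simp
    ring
  have eB : Real.exp (-(2 * k * a)) * Real.exp (-((k * s - a / s) ^ 2)) =
      Real.exp (-(a ^ 2 / s ^ 2) - k ^ 2 * s ^ 2) := by
    rw [← Real.exp_add]
    congr 1
    field_simp
    ring
  rw [← mul_assoc (Real.exp (2 * k * a)), ← mul_assoc (Real.exp (-(2 * k * a))), eA, eB]
  set X := Real.exp (-(a ^ 2 / s ^ 2) - k ^ 2 * s ^ 2) with hX
  field_simp
  ring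

theorem heatInt_sqrt_zero : Tendsto (fun t : ℝ => Real.sqrt t) (𝓝[>] 0) (𝓝[>] 0) := by
  refine tendsto_nhdsWithin_iff.2 ⟨?_, ?_⟩
  · have h := Real.continuous_sqrt.tendsto 0
    rw [Real.sqrt_zero] at h
    exact h.mono_left nhdsWithin_le_nhds
  · filter_upwards [self_mem_nhdsWithin] with t ht
    exact Real.sqrt_pos.2 ht

theorem heatInt_inv_zero {a : ℝ} (ha : 0 < a) :
    Tendsto (fun t : ℝ => a / Real.sqrt t) (𝓝[>] 0) atTop := by
  have h := (tendsto_inv_nhdsGT_zero.comp heatInt_sqrt_zero).const_mul_atTop ha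
  refine h.congr (fun t => ?_)
  rw [Function.comp_apply, div_eq_mul_inv]

theorem heatInt_mul_zero (k : ℝ) :
    Tendsto (fun t : ℝ => k * Real.sqrt t) (𝓝[>] 0) (𝓝 0) := by
  have h := (heatInt_sqrt_zero.mono_right nhdsWithin_le_nhds).const_mul k
  rwa [mul_zero] at h

theorem heatInt_D_nonneg (k a t : ℝ) :
    0 ≤ (Real.sqrt t)⁻¹ * Real.exp (-(a ^ 2 / t) - k ^ 2 * t) := by positivity

theorem heatInt_D_zero {k a : ℝ} (ha : 0 < a) :
    Tendsto (fun t : ℝ => (Real.sqrt t)⁻¹ * Real.exp (-(a ^ 2 / t) - k ^ 2 * t))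
      (𝓝[>] 0) (𝓝 0) := by
  have h1 : Tendsto (fun t : ℝ => (a ^ 2)⁻¹ * Real.sqrt t) (𝓝[>] 0) (𝓝 0) := heatInt_mul_zero _
  refine tendsto_of_tendsto_of_tendsto_of_le_of_le' tendsto_const_nhds h1
    (Eventually.of_forall fun t => heatInt_D_nonneg k a t) ?_
  filter_upwards [self_mem_nhdsWithin] with t ht
  have ht' : 0 < t := ht
  have hs : 0 < Real.sqrt t := Real.sqrt_pos.2 ht'
  have h2 : Real.exp (-(a ^ 2 / t) - k ^ 2 * t) ≤ t / a ^ 2 := by
    have h3 : Real.exp (-(a ^ 2 / t) - k ^ 2 * t) ≤ Real.exp (-(a ^ 2 / t)) := by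
      apply Real.exp_le_exp.2
      have : 0 ≤ k ^ 2 * t := by positivity
      linarith
    have h4 : a ^ 2 / t ≤ Real.exp (a ^ 2 / t) := by
      have := Real.add_one_le_exp (a ^ 2 / t)
      linarith
    refine h3.trans ?_
    calc Real.exp (-(a ^ 2 / t)) = (Real.exp (a ^ 2 / t))⁻¹ := Real.exp_neg _
      _ ≤ (a ^ 2 / t)⁻¹ := inv_anti₀ (by positivity) h4
      _ = t / a ^ 2 := inv_div _ _
  calc (Real.sqrt t)⁻¹ * Real.exp (-(a ^ 2 / t) - k ^ 2 * t)
      ≤ (Real.sqrt t)⁻¹ * (t / a ^ 2) := mul_le_mul_of_nonneg_left h2 (by positivity)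
    _ = (a ^ 2)⁻¹ * Real.sqrt t := by
        nth_rewrite 2 [← Real.mul_self_sqrt ht'.le]
        field_simp

theorem heatInt_D_top {k a : ℝ} :
    Tendsto (fun t : ℝ => (Real.sqrt t)⁻¹ * Real.exp (-(a ^ 2 / t) - k ^ 2 * t))
      atTop (𝓝 0) := by
  have h1 : Tendsto (fun t : ℝ => (Real.sqrt t)⁻¹) atTop (𝓝 0) :=
    tendsto_inv_atTop_zero.comp Real.tendsto_sqrt_atTop
  refine tendsto_of_tendsto_of_tendsto_of_le_of_le' tendsto_const_nhds h1
    (Eventually.of_forall fun t => heatInt_D_nonneg k a t) ?_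
  filter_upwards [eventually_gt_atTop 0] with t ht
  have h2 : Real.exp (-(a ^ 2 / t) - k ^ 2 * t) ≤ 1 := by
    rw [Real.exp_le_one_iff]
    have h3 : 0 ≤ a ^ 2 / t := by positivity
    have h4 : 0 ≤ k ^ 2 * t := by positivity
    linarith
  calc (Real.sqrt t)⁻¹ * Real.exp (-(a ^ 2 / t) - k ^ 2 * t) ≤ (Real.sqrt t)⁻¹ * 1 :=
        mul_le_mul_of_nonneg_left h2 (by positivity)
    _ = _ := mul_one _

theorem heatInt_F_zero {k a : ℝ} (ha : 0 < a) :
    Tendsto (heatInt_F k a) (𝓝[>] 0) (𝓝 (0 + 1 / (2 * a) * (Real.exp (-(2 * k * a)) *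
      (-(Real.sqrt Real.pi / 2)) - Real.exp (2 * k * a) * (Real.sqrt Real.pi / 2)) +
      k * (Real.exp (2 * k * a) * (Real.sqrt Real.pi / 2) + Real.exp (-(2 * k * a)) *
      (-(Real.sqrt Real.pi / 2))))) := by
  have hp : Tendsto (fun t : ℝ => k * Real.sqrt t + a / Real.sqrt t) (𝓝[>] 0) atTop :=
    (heatInt_mul_zero k).add_atTop (heatInt_inv_zero ha)
  have hm : Tendsto (fun t : ℝ => k * Real.sqrt t - a / Real.sqrt t) (𝓝[>] 0) atBot := by
    simp only [sub_eq_add_neg]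
    exact (heatInt_mul_zero k).add_atBot (tendsto_neg_atTop_atBot.comp (heatInt_inv_zero ha))
  have hA := (heatInt_Phi_top.comp hp).const_mul (Real.exp (2 * k * a))
  have hB := (heatInt_Phi_bot.comp hm).const_mul (Real.exp (-(2 * k * a)))
  exact ((heatInt_D_zero ha).add ((hB.sub hA).const_mul _)).add ((hA.add hB).const_mul _)

theorem heatInt_F_top {k a : ℝ} (hk : 0 < k) :
    Tendsto (heatInt_F k a) atTop (𝓝 (0 + 1 / (2 * a) * (Real.exp (-(2 * k * a)) *
      (Real.sqrt Real.pi / 2) - Real.exp (2 * k * a) * (Real.sqrt Real.pi / 2)) +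
      k * (Real.exp (2 * k * a) * (Real.sqrt Real.pi / 2) + Real.exp (-(2 * k * a)) *
      (Real.sqrt Real.pi / 2)))) := by
  have h0 : Tendsto (fun t : ℝ => k * Real.sqrt t) atTop atTop :=
    Real.tendsto_sqrt_atTop.const_mul_atTop hk
  have h1 : Tendsto (fun t : ℝ => a / Real.sqrt t) atTop (𝓝 0) := by
    have := (tendsto_inv_atTop_zero.comp Real.tendsto_sqrt_atTop).const_mul a
    rw [mul_zero] at this
    refine this.congr (fun t => ?_)
    rw [Function.comp_apply, div_eq_mul_inv]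
  have hp : Tendsto (fun t : ℝ => k * Real.sqrt t + a / Real.sqrt t) atTop atTop :=
    h0.atTop_add h1
  have hm : Tendsto (fun t : ℝ => k * Real.sqrt t - a / Real.sqrt t) atTop atTop := by
    simp only [sub_eq_add_neg]
    exact h0.atTop_add h1.neg
  have hA := (heatInt_Phi_top.comp hp).const_mul (Real.exp (2 * k * a))
  have hB := (heatInt_Phi_top.comp hm).const_mul (Real.exp (-(2 * k * a)))
  exact (heatInt_D_top.add ((hB.sub hA).const_mul _)).add ((hA.add hB).const_mul _)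

theorem heatInt_core {k a : ℝ} (hk : 0 < k) (ha : 0 < a) :
    IntegrableOn (fun t : ℝ => a ^ 2 * (t ^ 2 * Real.sqrt t)⁻¹ *
      Real.exp (-(a ^ 2 / t) - k ^ 2 * t)) (Ioi 0) ∧
    ∫ t in Ioi (0 : ℝ), a ^ 2 * (t ^ 2 * Real.sqrt t)⁻¹ *
      Real.exp (-(a ^ 2 / t) - k ^ 2 * t) =
      Real.sqrt Real.pi * Real.exp (-(2 * k * a)) * (1 / (2 * a) + k) := by
  set L := (0 + 1 / (2 * a) * (Real.exp (-(2 * k * a)) *
      (-(Real.sqrt Real.pi / 2)) - Real.exp (2 * k * a) * (Real.sqrt Real.pi / 2)) +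
      k * (Real.exp (2 * k * a) * (Real.sqrt Real.pi / 2) + Real.exp (-(2 * k * a)) *
      (-(Real.sqrt Real.pi / 2)))) with hL
  have hF0 := heatInt_F_zero (k := k) ha
  rw [← hL] at hF0
  set g := Function.update (heatInt_F k a) 0 L with hg
  have hcont : ContinuousWithinAt g (Ici 0) 0 := by
    rw [hg, continuousWithinAt_update_same]
    rwa [Ici_sdiff_left]
  have hgeq : ∀ t : ℝ, 0 < t → g =ᶠ[𝓝 t] heatInt_F k a := by
    intro t ht
    filter_upwards [lt_mem_nhds ht] with u hu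
    rw [hg, Function.update_of_ne hu.ne']
  have hderiv : ∀ t ∈ Ioi (0 : ℝ), HasDerivAt g (a ^ 2 * (t ^ 2 * Real.sqrt t)⁻¹ *
      Real.exp (-(a ^ 2 / t) - k ^ 2 * t)) t := fun t ht =>
    (heatInt_F_deriv ha ht).congr_of_eventuallyEq (hgeq t ht)
  have hpos : ∀ t ∈ Ioi (0 : ℝ), 0 ≤ a ^ 2 * (t ^ 2 * Real.sqrt t)⁻¹ *
      Real.exp (-(a ^ 2 / t) - k ^ 2 * t) := fun t _ => by positivity
  have htop := (heatInt_F_top (a := a) hk)
  have htop' : Tendsto g atTop _ := htop.congr' (by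
    filter_upwards [eventually_gt_atTop 0] with u hu
    rw [hg, Function.update_of_ne hu.ne'])
  refine ⟨integrableOn_Ioi_deriv_of_nonneg hcont hderiv hpos htop', ?_⟩
  rw [integral_Ioi_of_hasDerivAt_of_nonneg hcont hderiv hpos htop', hg, Function.update_self, hL]
  ring

theorem heatIntegral : HeatIntegral := by
  intro k r hk hr
  have ha : 0 < r / 2 := by positivity
  obtain ⟨h1, h2⟩ := heatInt_core hk ha
  have hpi := Real.pi_pos
  set c : ℝ := ((r / 2) ^ 2 * (32 * Real.pi ^ 2 * Real.sqrt Real.pi))⁻¹ with hc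
  have hcongr : ∀ t ∈ Ioi (0 : ℝ), c * ((r / 2) ^ 2 * (t ^ 2 * Real.sqrt t)⁻¹ *
      Real.exp (-((r / 2) ^ 2 / t) - k ^ 2 * t)) = ((4 * Real.pi * t) ^ (5 / 2 : ℝ))⁻¹ *
      Real.exp (-(r ^ 2 / (4 * t)) - k ^ 2 * t) := by
    intro t ht
    have ht' : 0 < t := ht
    have hs : 0 < Real.sqrt t := Real.sqrt_pos.2 ht'
    have hsp : 0 < Real.sqrt Real.pi := Real.sqrt_pos.2 hpi
    have e1 : (4 * Real.pi * t) ^ (5 / 2 : ℝ) =
        32 * Real.pi ^ 2 * Real.sqrt Real.pi * (t ^ 2 * Real.sqrt t) := by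
      have h0 : 0 < 4 * Real.pi * t := by positivity
      rw [show (5 / 2 : ℝ) = 2 + 1 / 2 by norm_num, Real.rpow_add h0, ← Real.sqrt_eq_rpow,
        Real.rpow_two, mul_assoc 4, Real.sqrt_mul (by norm_num : (0 : ℝ) ≤ 4),
        Real.sqrt_mul hpi.le, show (4 : ℝ) = 2 ^ 2 by norm_num, Real.sqrt_sq (by norm_num)]
      ring
    have e2 : -((r / 2) ^ 2 / t) - k ^ 2 * t = -(r ^ 2 / (4 * t)) - k ^ 2 * t := by
      congr 2
      field_simp
      ring
    rw [e1, e2, hc]
    field_simp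
  constructor
  · exact IntegrableOn.congr_fun (h1.const_mul c) hcongr measurableSet_Ioi
  · rw [← setIntegral_congr_fun measurableSet_Ioi hcongr, integral_const_mul, h2, hc]
    have hsp : 0 < Real.sqrt Real.pi := Real.sqrt_pos.2 hpi
    have e3 : 2 * k * (r / 2) = k * r := by ring
    rw [e3]
    field_simp
    ring

end Pool.Agent.Work.MP_f2af60_mp

end

section

/-!
# MP_f2af60_mp, pole form, P7: a kernel vector produces a pole
-/

namespace Pool.Agent.Work.MP_f2af60_mp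

open MeasureTheory Filter Topology

theorem poleOfKernel : PoleOfKernel := by
  intro X _ _ _ A z0 hAc hmer hinv u hu hker
  set T : ℂ → X →L[ℂ] X := fun z => Ring.inverse (1 + A z) with hT
  have hTl : ∀ᶠ z in 𝓝[≠] z0, T z * (1 + A z) = 1 := by
    filter_upwards [hinv] with z hz
    exact Ring.inverse_mul_cancel _ hz
  have hTr : ∀ᶠ z in 𝓝[≠] z0, (1 + A z) * T z = 1 := by
    filter_upwards [hinv] with z hz
    exact Ring.mul_inverse_cancel _ hz
  have hAc' : Tendsto (fun z => 1 + A z) (𝓝[≠] z0) (𝓝 (1 + A z0)) :=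
    (tendsto_const_nhds.add hAc.tendsto).mono_left nhdsWithin_le_nhds
  have h10 : (1 : X →L[ℂ] X) ≠ 0 := by
    intro h
    exact hu (by simpa using congrArg (fun L : X →L[ℂ] X => L u) h)
  -- the order is negative
  have hneg : meromorphicOrderAt T z0 < 0 := by
    by_contra hge
    obtain ⟨T0, hT0⟩ := tendsto_nhds_of_meromorphicOrderAt_nonneg hmer (not_lt.1 hge)
    have h1 : Tendsto (fun z => T z * (1 + A z)) (𝓝[≠] z0) (𝓝 (T0 * (1 + A z0))) :=
      hT0.mul hAc'
    have h2 : Tendsto (fun z => T z * (1 + A z)) (𝓝[≠] z0) (𝓝 1) :=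
      tendsto_const_nhds.congr' (hTl.mono fun z hz => hz.symm)
    have h3 := tendsto_nhds_unique h1 h2
    have h4 : u = T0 ((1 + A z0) u) := by
      have := congrArg (fun L : X →L[ℂ] X => L u) h3
      simpa using this.symm
    have h5 : (1 + A z0) u = 0 := by simpa using hker
    rw [h5, map_zero] at h4
    exact hu h4
  have hne : meromorphicOrderAt T z0 ≠ ⊤ := (lt_of_lt_of_le hneg le_top).ne
  obtain ⟨n, hn⟩ := WithTop.ne_top_iff_exists.1 hne
  have hn0 : n < 0 := by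
    rw [← hn] at hneg
    exact_mod_cast hneg
  obtain ⟨g, hg, hg0, hgT⟩ := (meromorphicOrderAt_eq_int_iff hmer).1 hn.symm
  -- kernel property of the leading coefficient
  have hgA : (1 + A z0) * g z0 = 0 := by
    have h1 : Tendsto (fun z => (1 + A z) * g z) (𝓝[≠] z0) (𝓝 ((1 + A z0) * g z0)) :=
      hAc'.mul (hg.continuousAt.tendsto.mono_left nhdsWithin_le_nhds)
    have h2 : Tendsto (fun z => ((z - z0) ^ (-n)) • (1 : X →L[ℂ] X)) (𝓝[≠] z0) (𝓝 0) := by
      have h3 : Tendsto (fun z : ℂ => (z - z0) ^ (-n)) (𝓝[≠] z0) (𝓝 0) := by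
        obtain ⟨m, hm⟩ : ∃ m : ℕ, -n = ((m + 1 : ℕ) : ℤ) := by
          refine ⟨(-n - 1).toNat, ?_⟩
          push_cast
          omega
        rw [hm]
        simp only [zpow_natCast]
        have h4 : Tendsto (fun z : ℂ => (z - z0) ^ (m + 1)) (𝓝 z0) (𝓝 ((z0 - z0) ^ (m + 1))) := by
          apply Continuous.tendsto
          fun_prop
        rw [sub_self, zero_pow (Nat.succ_ne_zero m)] at h4
        exact h4.mono_left nhdsWithin_le_nhds
      simpa using h3.smul_const (1 : X →L[ℂ] X)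
    have h3 : (fun z => (1 + A z) * g z) =ᶠ[𝓝[≠] z0]
        (fun z => ((z - z0) ^ (-n)) • (1 : X →L[ℂ] X)) := by
      filter_upwards [hTr, hgT, self_mem_nhdsWithin] with z h4 h5 h6
      have h7 : z - z0 ≠ 0 := sub_ne_zero.2 h6
      have h8 : g z = (z - z0) ^ (-n) • T z := by
        rw [h5, smul_smul, ← zpow_add₀ h7]
        simp
      rw [h8, mul_smul_comm, h4]
    exact tendsto_nhds_unique (h1.congr' h3) h2
  obtain ⟨w, hw⟩ : ∃ w, g z0 w ≠ 0 := by
    by_contra hcon
    push Not at hcon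
    exact hg0 (ContinuousLinearMap.ext hcon)
  refine ⟨w, g z0 w, hw, ?_, ?_⟩
  · have := congrArg (fun L : X →L[ℂ] X => L w) hgA
    simpa using this
  intro P hP
  obtain ⟨m, hm⟩ : ∃ m : ℕ, -n = ((m + 1 : ℕ) : ℤ) := by
    refine ⟨(-n - 1).toNat, ?_⟩
    push_cast
    omega
  have hga : AnalyticAt ℂ (fun z => P (g z w)) z0 := by
    have h1 : AnalyticAt ℂ (fun z => g z w) z0 :=
      ((ContinuousLinearMap.apply ℂ X w).analyticAt _).comp hg
    exact (P.analyticAt _).comp h1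
  have hfa : AnalyticAt ℂ (fun z => (z - z0) ^ (m + 1) * P w - P (g z w)) z0 := by
    refine AnalyticAt.sub ?_ hga
    fun_prop
  have heq : (fun z => P w - P (T z w)) =ᶠ[𝓝[≠] z0]
      (fun z => (z - z0) ^ n • ((z - z0) ^ (m + 1) * P w - P (g z w))) := by
    filter_upwards [hgT, self_mem_nhdsWithin] with z h5 h6
    have h7 : z - z0 ≠ 0 := sub_ne_zero.2 h6
    have h8 : (z - z0) ^ n * (z - z0) ^ (m + 1) = 1 := by
      rw [← zpow_natCast, ← hm, ← zpow_add₀ h7]
      simp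
    rw [h5]
    simp only [_root_.smul_apply, map_smul, smul_eq_mul]
    rw [mul_sub, ← mul_assoc, h8, one_mul]
  have hmF : MeromorphicAt (fun z => P w - P (T z w)) z0 := by
    refine MeromorphicAt.congr ?_ heq.symm
    have h1 : MeromorphicAt (fun z : ℂ => z - z0) z0 := by
      have : AnalyticAt ℂ (fun z : ℂ => z - z0) z0 := by fun_prop
      exact this.meromorphicAt
    have h2 : MeromorphicAt (fun z : ℂ => (z - z0) ^ n) z0 := h1.zpow n
    exact h2.smul hfa.meromorphicAt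
  have horder : meromorphicOrderAt (fun z => P w - P (T z w)) z0 = n := by
    rw [meromorphicOrderAt_eq_int_iff hmF]
    refine ⟨_, hfa, ?_, heq⟩
    simp only [sub_self, ne_eq, Nat.add_eq_zero_iff, one_ne_zero, and_false, not_false_eq_true,
      zero_pow, zero_mul, zero_sub, neg_eq_zero]
    exact hP
  rw [horder]
  exact_mod_cast hn0

end Pool.Agent.Work.MP_f2af60_mp

end

section

/-!
# MP_f2af60_mp, item 9: polynomial approximation of the kernel away from zero

`gh l s / s³ = e^z (1 - z) / (8 π² s³)` with `z = i l s`: truncate the exponential series, and expand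
the powers `s ^ m / s ^ 3` (functions of `t = 1 - s²/c` holomorphic on the unit disc) into Taylor
series, with Cauchy estimates on the circle of radius `1 - η`, `η = κ / r²`.
-/

namespace Pool.Agent.Work.MP_f2af60_mp

open Metric

/-- Taylor coefficients of a holomorphic function on the unit disc, with geometric bounds. -/
theorem pa_taylor (f : ℂ → ℂ) (hf : DifferentiableOn ℂ f (ball 0 1)) (η M : ℝ) (h0 : 0 < η)
    (h1 : η ≤ 1 / 4) (hM : ∀ z : ℂ, ‖z‖ = 1 - η → ‖f z‖ ≤ M) :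
    ∃ a : ℕ → ℂ, (∀ d, ‖a d‖ ≤ M * 2 ^ d) ∧ ∀ t : ℝ, 0 ≤ t → t ≤ 1 - 2 * η → ∀ D : ℕ,
      ‖f t - ∑ d ∈ Finset.range D, a d * (t : ℂ) ^ d‖ ≤ M * (1 - η) ^ D / η := by
  have hR1 : (0 : ℝ) < 1 - η := by linarith
  have hM0 : 0 ≤ M := le_trans (norm_nonneg _) (hM ((1 - η : ℝ) : ℂ)
    (by rw [Complex.norm_real, Real.norm_eq_abs, abs_of_pos hR1]))
  let R : NNReal := ⟨1 - η, hR1.le⟩
  have hR : (R : ℝ) = 1 - η := rfl
  have hR0 : 0 < R := hR1
  have hps := DifferentiableOn.hasFPowerSeriesOnBall (R := R) (c := 0) (f := f)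
    (hf.mono (closedBall_subset_ball (by rw [hR]; linarith))) hR0
  have hco : ∀ d, ‖(cauchyPowerSeries f 0 R).coeff d‖ ≤ M * (1 - η)⁻¹ ^ d := by
    intro d
    rw [← FormalMultilinearSeries.norm_apply_eq_norm_coef]
    refine (norm_cauchyPowerSeries_le f 0 R d).trans ?_
    rw [hR, abs_of_pos hR1]
    refine mul_le_mul_of_nonneg_right ?_ (by positivity)
    have h2 : ‖∫ (θ : ℝ) in 0..2 * Real.pi, ‖f (circleMap 0 (1 - η) θ)‖‖ ≤
        M * |2 * Real.pi - 0| := by
      apply intervalIntegral.norm_integral_le_of_norm_le_const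
      intro x _
      rw [norm_norm]
      apply hM
      rw [circleMap, zero_add, norm_mul, Complex.norm_exp_ofReal_mul_I, mul_one,
        Complex.norm_real, Real.norm_eq_abs, abs_of_pos hR1]
    rw [sub_zero, abs_of_pos Real.two_pi_pos] at h2
    have h3 := (le_abs_self _).trans h2
    calc (2 * Real.pi)⁻¹ * ∫ (θ : ℝ) in 0..2 * Real.pi, ‖f (circleMap 0 (1 - η) θ)‖
        ≤ (2 * Real.pi)⁻¹ * (M * (2 * Real.pi)) :=
          mul_le_mul_of_nonneg_left h3 (inv_nonneg.2 Real.two_pi_pos.le)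
      _ = M := by field_simp
  refine ⟨fun d => (cauchyPowerSeries f 0 R).coeff d, ?_, ?_⟩
  · intro d
    refine (hco d).trans (mul_le_mul_of_nonneg_left ?_ hM0)
    apply pow_le_pow_left₀ (by positivity)
    rw [inv_le_comm₀ hR1 two_pos]
    linarith
  · intro t ht0 ht1 D
    have hsum : HasSum (fun d => (cauchyPowerSeries f 0 R).coeff d * (t : ℂ) ^ d) (f t) := by
      have := hps.hasSum (y := (t : ℂ)) (by
        rw [Metric.eball_coe]
        rw [mem_ball_zero_iff, Complex.norm_real, Real.norm_eq_abs, abs_of_nonneg ht0, hR]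
        linarith)
      rw [zero_add] at this
      refine this.congr_fun ?_
      intro d
      show (cauchyPowerSeries f 0 R).coeff d * (t : ℂ) ^ d = _
      rw [FormalMultilinearSeries.apply_eq_pow_smul_coeff, smul_eq_mul, mul_comm]
    have hle : t / (1 - η) ≤ 1 - η := by
      rw [div_le_iff₀ hR1]
      nlinarith
    have hnn : 0 ≤ t / (1 - η) := div_nonneg ht0 hR1.le
    have h4 := norm_sub_le_of_geometric_bound_of_hasSum (r := t / (1 - η)) (C := M)
      (by linarith) (f := fun d => (cauchyPowerSeries f 0 R).coeff d * (t : ℂ) ^ d) (by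
        intro n
        rw [norm_mul, norm_pow, Complex.norm_real, Real.norm_eq_abs, abs_of_nonneg ht0]
        calc _ ≤ (M * (1 - η)⁻¹ ^ n) * t ^ n :=
              mul_le_mul_of_nonneg_right (hco n) (pow_nonneg ht0 n)
          _ = M * (t / (1 - η)) ^ n := by rw [div_eq_mul_inv, mul_pow]; ring) hsum D
    rw [norm_sub_rev] at h4
    refine h4.trans ?_
    apply div_le_div₀ (by positivity) _ h0 (by linarith)
    exact mul_le_mul_of_nonneg_left (pow_le_pow_left₀ hnn hle D) hM0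

/-- The square root `√(c (1 - t))`, holomorphic on the unit disc. -/
noncomputable def paS (c : ℝ) (t : ℂ) : ℂ :=
  (Real.sqrt c : ℂ) * Complex.exp (Complex.log (1 - t) / 2)

theorem pa_slit (t : ℂ) (ht : ‖t‖ < 1) : 1 - t ∈ Complex.slitPlane := by
  left
  have h1 := (abs_le.1 (Complex.abs_re_le_norm t)).2
  simp only [Complex.sub_re, Complex.one_re]
  linarith

theorem paS_diff (c : ℝ) : DifferentiableOn ℂ (paS c) (ball 0 1) := by
  intro t ht
  have h1 := pa_slit t (by simpa using ht)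
  apply DifferentiableAt.differentiableWithinAt
  unfold paS
  have h2 : DifferentiableAt ℂ (fun t : ℂ => Complex.log (1 - t)) t :=
    ((differentiableAt_const 1).sub differentiableAt_id).clog h1
  exact (differentiableAt_const _).mul (h2.div_const 2).cexp

theorem paS_norm_sq (c : ℝ) (hc : 0 < c) (t : ℂ) (ht : ‖t‖ < 1) :
    ‖paS c t‖ ^ 2 = c * ‖1 - t‖ := by
  have h1 : (1 : ℂ) - t ≠ 0 := by
    intro h
    have : t = 1 := by linear_combination -h
    rw [this, norm_one] at ht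
    exact lt_irrefl _ ht
  rw [← norm_pow, paS, mul_pow, ← Complex.exp_nat_mul]
  rw [show ((2 : ℕ) : ℂ) * (Complex.log (1 - t) / 2) = Complex.log (1 - t) by push_cast; ring]
  rw [Complex.exp_log h1, norm_mul, norm_pow, Complex.norm_real, Real.norm_eq_abs, sq_abs,
    Real.sq_sqrt hc.le]

theorem paS_real (c s : ℝ) (hc : 0 < c) (hs : 0 < s) :
    paS c ((1 - s ^ 2 / c : ℝ) : ℂ) = s := by
  unfold paS
  have h1 : (1 : ℂ) - ((1 - s ^ 2 / c : ℝ) : ℂ) = ((s ^ 2 / c : ℝ) : ℂ) := by push_cast; ring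
  have hpos : 0 < s ^ 2 / c := by positivity
  rw [h1, ← Complex.ofReal_log hpos.le]
  have h2 : Complex.exp ((Real.log (s ^ 2 / c) : ℂ) / 2) = (Real.exp (Real.log (s ^ 2 / c) / 2) : ℂ) := by
    push_cast; rfl
  rw [h2, ← Complex.ofReal_mul]
  congr 1
  have h3 : (Real.sqrt c * Real.exp (Real.log (s ^ 2 / c) / 2)) ^ 2 = s ^ 2 := by
    rw [mul_pow, Real.sq_sqrt hc.le, ← Real.exp_nat_mul]
    rw [show ((2 : ℕ) : ℝ) * (Real.log (s ^ 2 / c) / 2) = Real.log (s ^ 2 / c) by push_cast; ring]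
    rw [Real.exp_log hpos]
    field_simp
  exact (pow_left_inj₀ (by positivity) hs.le two_ne_zero).1 h3

/-- Polynomial approximation of the powers `s ^ m / s ^ 3`. -/
theorem pa_pow (c η B b : ℝ) (hc : 0 < c) (h0 : 0 < η) (h1 : η ≤ 1 / 4) (hB : 1 ≤ B)
    (hB2 : 2 * c ≤ B ^ 2) (hb : 0 < b) (hb2 : b ^ 2 ≤ c * η) :
    ∃ a : ℕ → ℕ → ℂ, (∀ m d, ‖a m d‖ ≤ B ^ m * b⁻¹ ^ 3 * 2 ^ d) ∧
      ∀ (m : ℕ) (s : ℝ), 0 < s → s ^ 2 ≤ c → 2 * η ≤ s ^ 2 / c → ∀ D : ℕ,
        ‖(s : ℂ) ^ m / (s : ℂ) ^ 3 -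
          ∑ d ∈ Finset.range D, a m d * ((1 - s ^ 2 / c : ℝ) : ℂ) ^ d‖ ≤
          B ^ m * b⁻¹ ^ 3 * (1 - η) ^ D / η := by
  have key : ∀ m : ℕ, ∃ a : ℕ → ℂ, (∀ d, ‖a d‖ ≤ B ^ m * b⁻¹ ^ 3 * 2 ^ d) ∧
      ∀ t : ℝ, 0 ≤ t → t ≤ 1 - 2 * η → ∀ D : ℕ,
      ‖(fun t => paS c t ^ m / paS c t ^ 3) (t : ℂ) - ∑ d ∈ Finset.range D, a d * (t : ℂ) ^ d‖ ≤
        B ^ m * b⁻¹ ^ 3 * (1 - η) ^ D / η := by
    intro m
    refine pa_taylor (fun t => paS c t ^ m / paS c t ^ 3) ?_ η _ h0 h1 ?_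
    rotate_left
    · intro z hz
      have hz1 : ‖z‖ < 1 := by rw [hz]; linarith
      have hn := paS_norm_sq c hc z hz1
      have hup : ‖paS c z‖ ≤ B := by
        apply (pow_le_pow_iff_left₀ (norm_nonneg _) (by linarith) two_ne_zero).1
        rw [hn]
        refine le_trans ?_ hB2
        have : ‖1 - z‖ ≤ 2 := by
          refine (norm_sub_le _ _).trans ?_
          rw [norm_one]; linarith
        nlinarith
      have hlow : b ≤ ‖paS c z‖ := by
        apply (pow_le_pow_iff_left₀ hb.le (norm_nonneg _) two_ne_zero).1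
        rw [hn]
        refine hb2.trans ?_
        have : η ≤ ‖1 - z‖ := by
          have := norm_sub_norm_le (1 : ℂ) z
          rw [norm_one, hz] at this
          linarith
        exact mul_le_mul_of_nonneg_left this hc.le
      show ‖paS c z ^ m / paS c z ^ 3‖ ≤ _
      rw [norm_div, norm_pow, norm_pow, div_eq_mul_inv, ← inv_pow]
      apply mul_le_mul
      · exact pow_le_pow_left₀ (norm_nonneg _) hup m
      · exact pow_le_pow_left₀ (by positivity) (inv_anti₀ hb hlow) 3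
      · positivity
      · positivity
    · apply DifferentiableOn.div
      · exact (paS_diff c).pow m
      · exact (paS_diff c).pow 3
      · intro z hz
        have hz1 : ‖z‖ < 1 := by simpa using hz
        apply pow_ne_zero
        unfold paS
        apply mul_ne_zero
        · exact_mod_cast (Real.sqrt_pos.2 hc).ne'
        · exact Complex.exp_ne_zero _
  choose a ha1 ha2 using key
  refine ⟨a, ha1, ?_⟩
  intro m s hs hsc hη D
  have h5 := ha2 m (1 - s ^ 2 / c) (by
    rw [sub_nonneg, div_le_one hc]; exact hsc) (by linarith) D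
  simp only [paS_real c s hc hs] at h5
  exact h5

/-- The truncated exponential series. -/
theorem pa_exp (z : ℂ) (Y : ℝ) (hY : ‖z‖ ≤ Y) (n : ℕ) (hn : 2 * Y ≤ n) :
    ‖Complex.exp z - ∑ m ∈ Finset.range n, z ^ m / m.factorial‖ ≤
      2 * Real.exp (8 * Y - n) := by
  have hY0 : 0 ≤ Y := (norm_nonneg _).trans hY
  have h1 : ‖z‖ / (n.succ : ℝ) ≤ 1 / 2 := by
    rw [div_le_iff₀ (by positivity)]
    push_cast
    linarith
  refine (Complex.exp_bound' h1).trans ?_
  have h2 : ‖z‖ ^ n / n.factorial ≤ Real.exp (8 * Y - n) := by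
    have h3 := Real.pow_div_factorial_le_exp (8 * Y) (by positivity) n
    have h4 : Real.exp (n : ℝ) ≤ 8 ^ n := by
      rw [← Real.exp_one_pow]
      apply pow_le_pow_left₀ (Real.exp_pos _).le
      exact Real.exp_one_lt_d9.le.trans (by norm_num)
    rw [Real.exp_sub, le_div_iff₀ (Real.exp_pos _)]
    calc ‖z‖ ^ n / n.factorial * Real.exp n ≤ Y ^ n / n.factorial * 8 ^ n := by
          apply mul_le_mul _ h4 (Real.exp_pos _).le (by positivity)
          exact div_le_div_of_nonneg_right (pow_le_pow_left₀ (norm_nonneg _) hY n) (by positivity)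
      _ = (8 * Y) ^ n / n.factorial := by rw [mul_pow]; ring
      _ ≤ _ := h3
  linarith

theorem pa_pi : ‖(8 * (Real.pi : ℂ) ^ 2)⁻¹‖ ≤ 1 := by
  rw [norm_inv, norm_mul, norm_pow, Complex.norm_real, Real.norm_eq_abs,
    abs_of_pos Real.pi_pos]
  apply inv_le_one_of_one_le₀
  have h1 := Real.pi_gt_three
  have h2 : (1 : ℝ) ≤ Real.pi ^ 2 := one_le_pow₀ (by linarith)
  rw [show ‖(8 : ℂ)‖ = 8 by simp]
  linarith

/-- Item 9: polynomial approximation of the kernel away from zero. -/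
theorem polyApprox : PolyApprox := by
  intro c c1 e hc hc1 he
  set κ : ℝ := min (1 / 4) (c1 ^ 2 / (2 * c)) with hκ
  have hκ0 : 0 < κ := lt_min (by norm_num) (by positivity)
  have hκ1 : κ ≤ 1 / 4 := min_le_left _ _
  have hκ2 : κ ≤ c1 ^ 2 / (2 * c) := min_le_right _ _
  set B : ℝ := 1 + 2 * c with hB
  have hB1 : 1 ≤ B := by linarith
  have hB2 : 2 * c ≤ B ^ 2 := by nlinarith
  set β : ℝ := Real.sqrt (c * κ) with hβ
  have hβ0 : 0 < β := Real.sqrt_pos.2 (by positivity)
  have hβ2 : β ^ 2 = c * κ := Real.sq_sqrt (by positivity)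
  set w : ℝ := Real.sqrt c with hw
  have hw0 : 0 < w := Real.sqrt_pos.2 hc
  have hw2 : w ^ 2 = c := Real.sq_sqrt hc.le
  set E : ℝ := |Real.log (e / 4)| with hE
  have hE0 : 0 ≤ E := abs_nonneg _
  have hEe : Real.exp (-E) ≤ e / 4 := by
    have h1 : -E ≤ Real.log (e / 4) := neg_abs_le _
    calc Real.exp (-E) ≤ Real.exp (Real.log (e / 4)) := Real.exp_le_exp.2 h1
      _ = e / 4 := Real.exp_log (by positivity)
  obtain ⟨C0, hC0⟩ := exists_nat_ge ((2 * B + 3 / β + 2 + κ⁻¹ + E) / κ)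
  obtain ⟨C1, hC1⟩ := exists_nat_ge (9 * w + 3 / c1 + E)
  have hC0' : 2 * B + 3 / β + 2 + κ⁻¹ + E ≤ κ * C0 := by
    rw [div_le_iff₀ hκ0] at hC0
    linarith
  refine ⟨2 * B + 3 / β + C0, 3, ?_⟩
  intro r hr
  have hr1 : (1 : ℝ) ≤ r := by exact_mod_cast hr
  have hr0 : (0 : ℝ) < r := by linarith
  set η : ℝ := κ / r ^ 2 with hη
  have hη0 : 0 < η := by positivity
  have hη1 : η ≤ 1 / 4 := by
    refine le_trans ?_ hκ1
    exact div_le_self hκ0.le (one_le_pow₀ hr1)
  set b : ℝ := β / r with hb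
  have hb0 : 0 < b := by positivity
  have hb2 : b ^ 2 ≤ c * η := by
    rw [hb, hη, div_pow, hβ2, mul_div_assoc]
  obtain ⟨a, ha1, ha2⟩ := pa_pow c η B b hc hη0 hη1 hB1 hB2 hb0 hb2
  set D : ℕ := C0 * r ^ 3 with hD
  set n : ℕ := C1 * r with hn
  have hbexp : b⁻¹ ^ 3 ≤ Real.exp (3 / β * r) := by
    have h1 : b⁻¹ ≤ Real.exp (r / β) := by
      rw [hb, inv_div]
      linarith [Real.add_one_le_exp ((r : ℝ) / β)]
    calc b⁻¹ ^ 3 ≤ Real.exp (r / β) ^ 3 := pow_le_pow_left₀ (by positivity) h1 3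
      _ = Real.exp (3 / β * r) := by
          rw [← Real.exp_nat_mul]; congr 1; push_cast; ring
  have hsumB : ∀ N : ℕ, ∑ m ∈ Finset.range N, (r : ℝ) ^ m / m.factorial * B ^ m ≤
      Real.exp (B * r) := by
    intro N
    calc ∑ m ∈ Finset.range N, (r : ℝ) ^ m / m.factorial * B ^ m
        = ∑ m ∈ Finset.range N, (B * r) ^ m / m.factorial := by
          apply Finset.sum_congr rfl
          intro m _
          rw [mul_pow]; ring
      _ ≤ _ := Real.sum_le_exp_of_nonneg (by positivity) N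
  -- a common estimate
  have hcomm : ∀ (X : ℕ → ℂ) (x : ℝ), 0 ≤ x → (∀ m, ‖X m‖ ≤ B ^ m * x) → ∀ l : ℂ, ‖l‖ ≤ r →
      ‖(8 * (Real.pi : ℂ) ^ 2)⁻¹ * ∑ m ∈ Finset.range n, (Complex.I * l) ^ m / m.factorial *
        (X m - Complex.I * l * X (m + 1))‖ ≤ Real.exp (2 * B * r) * x := by
    intro X x hx hX l hl
    have hpi := pa_pi
    rw [norm_mul]
    have h1 : ‖∑ m ∈ Finset.range n, (Complex.I * l) ^ m / m.factorial *
        (X m - Complex.I * l * X (m + 1))‖ ≤ Real.exp (2 * B * r) * x := by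
      calc _ ≤ ∑ m ∈ Finset.range n, (r : ℝ) ^ m / m.factorial * B ^ m * ((1 + B * r) * x) := by
            apply norm_sum_le_of_le
            intro m _
            rw [norm_mul, norm_div, norm_pow, norm_mul, Complex.norm_I, one_mul,
              Complex.norm_natCast, mul_assoc (_ / _) (B ^ m)]
            apply mul_le_mul (div_le_div_of_nonneg_right
              (pow_le_pow_left₀ (norm_nonneg _) hl m) (by positivity))
            · refine (norm_sub_le _ _).trans ?_
              rw [norm_mul, norm_mul, Complex.norm_I, one_mul]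
              calc ‖X m‖ + ‖l‖ * ‖X (m + 1)‖ ≤ B ^ m * x + r * (B ^ (m + 1) * x) :=
                    add_le_add (hX m) (mul_le_mul hl (hX _) (norm_nonneg _) hr0.le)
                _ = B ^ m * ((1 + B * r) * x) := by ring
            · exact norm_nonneg _
            · positivity
        _ = (∑ m ∈ Finset.range n, (r : ℝ) ^ m / m.factorial * B ^ m) * ((1 + B * r) * x) := by
            rw [Finset.sum_mul]
        _ ≤ Real.exp (B * r) * (Real.exp (B * r) * x) := by
            apply mul_le_mul (hsumB n) _ (by positivity) (Real.exp_pos _).le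
            apply mul_le_mul_of_nonneg_right _ hx
            linarith [Real.add_one_le_exp (B * (r : ℝ))]
        _ = Real.exp (2 * B * r) * x := by
            rw [← mul_assoc, ← Real.exp_add]; congr 2; ring
    calc _ ≤ 1 * (Real.exp (2 * B * r) * x) :=
          mul_le_mul hpi h1 (norm_nonneg _) zero_le_one
      _ = _ := one_mul _
  refine ⟨D, fun d l => if d < D then (8 * (Real.pi : ℂ) ^ 2)⁻¹ *
    ∑ m ∈ Finset.range n, (Complex.I * l) ^ m / m.factorial *
      (a m d - Complex.I * l * a (m + 1) d) else 0, ?_, ?_, ?_, ?_⟩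
  · rw [hD]
    push_cast
    apply mul_le_mul_of_nonneg_right _ (by positivity)
    have : 0 < 3 / β := by positivity
    linarith
  · intro d
    by_cases hd : d < D
    · simp only [if_pos hd]
      fun_prop
    · simp only [if_neg hd]
      exact differentiable_const _
  · intro d l hl
    by_cases hd : d < D
    · simp only [if_pos hd]
      refine (hcomm (fun m => a m d) (b⁻¹ ^ 3 * 2 ^ d) (by positivity) (fun m => ?_) l hl).trans ?_
      · rw [← mul_assoc]; exact ha1 m d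
      · have h2 : (2 : ℝ) ^ d ≤ Real.exp D := by
          rw [← Real.exp_one_pow]
          calc (2 : ℝ) ^ d ≤ 2 ^ D := pow_le_pow_right₀ one_le_two hd.le
            _ ≤ _ := pow_le_pow_left₀ two_pos.le
                (by linarith [Real.add_one_le_exp (1 : ℝ)]) D
        calc Real.exp (2 * B * r) * (b⁻¹ ^ 3 * 2 ^ d) ≤
              Real.exp (2 * B * r) * (Real.exp (3 / β * r) * Real.exp D) := by
                apply mul_le_mul_of_nonneg_left _ (Real.exp_pos _).le
                exact mul_le_mul hbexp h2 (by positivity) (Real.exp_pos _).le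
          _ = Real.exp (2 * B * r + 3 / β * r + D) := by
                rw [← Real.exp_add, ← Real.exp_add]; congr 1; ring
          _ ≤ _ := by
                apply Real.exp_le_exp.2
                have h3 : (r : ℝ) ≤ (r : ℝ) ^ 3 := le_self_pow₀ hr1 (by norm_num)
                have h4 : (2 * B + 3 / β) * r ≤ (2 * B + 3 / β) * (r : ℝ) ^ 3 :=
                  mul_le_mul_of_nonneg_left h3 (by positivity)
                rw [hD]
                push_cast
                linarith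
    · simp only [if_neg hd, norm_zero]
      exact (Real.exp_pos _).le
  · intro l hl s hs hsc
    have hs0 : 0 < s := lt_of_lt_of_le (by positivity) hs
    set T : ℂ := ((1 - s ^ 2 / c : ℝ) : ℂ) with hT
    set z : ℂ := Complex.I * l * (s : ℂ) with hz
    have hsC : (s : ℂ) ≠ 0 := by exact_mod_cast hs0.ne'
    set X : ℕ → ℂ := fun m => (s : ℂ) ^ m / (s : ℂ) ^ 3 - ∑ d ∈ Finset.range D, a m d * T ^ d
      with hX
    have hdec : gh l s / (s : ℂ) ^ 3 -
        ∑ d ∈ Finset.range D, (if d < D then (8 * (Real.pi : ℂ) ^ 2)⁻¹ *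
          ∑ m ∈ Finset.range n, (Complex.I * l) ^ m / m.factorial *
          (a m d - Complex.I * l * a (m + 1) d) else 0) * T ^ d =
        (8 * (Real.pi : ℂ) ^ 2)⁻¹ * ((Complex.exp z - ∑ m ∈ Finset.range n, z ^ m / m.factorial) *
          (1 - z) / (s : ℂ) ^ 3) +
        (8 * (Real.pi : ℂ) ^ 2)⁻¹ * ∑ m ∈ Finset.range n, (Complex.I * l) ^ m / m.factorial *
          (X m - Complex.I * l * X (m + 1)) := by
      have e1 : ∑ d ∈ Finset.range D, (if d < D then (8 * (Real.pi : ℂ) ^ 2)⁻¹ *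
          ∑ m ∈ Finset.range n, (Complex.I * l) ^ m / m.factorial *
          (a m d - Complex.I * l * a (m + 1) d) else 0) * T ^ d =
          (8 * (Real.pi : ℂ) ^ 2)⁻¹ * ∑ m ∈ Finset.range n, (Complex.I * l) ^ m / m.factorial *
            (∑ d ∈ Finset.range D, a m d * T ^ d -
              Complex.I * l * ∑ d ∈ Finset.range D, a (m + 1) d * T ^ d) := by
        have e2 : ∀ m, (Complex.I * l) ^ m / m.factorial *
            (∑ d ∈ Finset.range D, a m d * T ^ d -
              Complex.I * l * ∑ d ∈ Finset.range D, a (m + 1) d * T ^ d) =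
            ∑ d ∈ Finset.range D, (Complex.I * l) ^ m / m.factorial *
              (a m d - Complex.I * l * a (m + 1) d) * T ^ d := by
          intro m
          rw [Finset.mul_sum, ← Finset.sum_sub_distrib, Finset.mul_sum]
          apply Finset.sum_congr rfl
          intro d _
          ring
        simp only [e2]
        rw [Finset.sum_comm, Finset.mul_sum]
        apply Finset.sum_congr rfl
        intro d hd
        rw [if_pos (Finset.mem_range.1 hd), ← Finset.sum_mul, mul_assoc]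
      have e3 : ∑ m ∈ Finset.range n, (Complex.I * l) ^ m / m.factorial *
          (X m - Complex.I * l * X (m + 1)) =
          (∑ m ∈ Finset.range n, z ^ m / m.factorial) * (1 - z) / (s : ℂ) ^ 3 -
          ∑ m ∈ Finset.range n, (Complex.I * l) ^ m / m.factorial *
            (∑ d ∈ Finset.range D, a m d * T ^ d -
              Complex.I * l * ∑ d ∈ Finset.range D, a (m + 1) d * T ^ d) := by
        rw [Finset.sum_mul, Finset.sum_div, ← Finset.sum_sub_distrib]
        apply Finset.sum_congr rfl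
        intro m _
        simp only [hX, hz]
        rw [mul_pow _ (s : ℂ) m]
        ring
      rw [e1, e3, gh, ← hz]
      ring
    rw [hdec]
    have hpi := pa_pi
    have hEr : Real.exp (-(E * r)) ≤ e / 4 := by
      refine le_trans (Real.exp_le_exp.2 ?_) hEe
      exact neg_le_neg (le_mul_of_one_le_right hE0 hr1)
    have hsw : s ≤ w := Real.le_sqrt_of_sq_le hsc
    have hzY : ‖z‖ ≤ w * r := by
      rw [hz, norm_mul, norm_mul, Complex.norm_I, one_mul, Complex.norm_real, Real.norm_eq_abs,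
        abs_of_pos hs0, mul_comm w]
      exact mul_le_mul hl hsw hs0.le hr0.le
    have hnr : (9 * w + 3 / c1 + E) * r ≤ n := by
      rw [hn]; push_cast
      exact mul_le_mul_of_nonneg_right hC1 hr0.le
    have hc1r : 0 < 3 / c1 * (r : ℝ) := by positivity
    have hwr : 0 < w * (r : ℝ) := by positivity
    have hErn : 0 ≤ E * (r : ℝ) := by positivity
    have h1 : ‖(8 * (Real.pi : ℂ) ^ 2)⁻¹ * ((Complex.exp z -
        ∑ m ∈ Finset.range n, z ^ m / m.factorial) * (1 - z) / (s : ℂ) ^ 3)‖ ≤ e / 2 := by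
      have f1 := pa_exp z (w * r) hzY n (by linarith)
      have f2 : ‖1 - z‖ ≤ Real.exp (w * r) := by
        refine (norm_sub_le _ _).trans ?_
        rw [norm_one]
        linarith [Real.add_one_le_exp (w * (r : ℝ))]
      have f3 : ‖(s : ℂ) ^ 3‖⁻¹ ≤ Real.exp (3 / c1 * r) := by
        rw [norm_pow, Complex.norm_real, Real.norm_eq_abs, abs_of_pos hs0, ← inv_pow]
        have g1 : s⁻¹ ≤ Real.exp (r / c1) := by
          have g2 : s⁻¹ ≤ (c1 / r)⁻¹ := inv_anti₀ (by positivity) hs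
          rw [inv_div] at g2
          linarith [Real.add_one_le_exp ((r : ℝ) / c1)]
        calc s⁻¹ ^ 3 ≤ Real.exp (r / c1) ^ 3 := pow_le_pow_left₀ (by positivity) g1 3
          _ = Real.exp (3 / c1 * r) := by
              rw [← Real.exp_nat_mul]; congr 1; push_cast; ring
      rw [norm_mul, norm_div, norm_mul, div_eq_mul_inv]
      calc _ ≤ 1 * (2 * Real.exp (8 * (w * r) - n) * Real.exp (w * r) * Real.exp (3 / c1 * r)) := by
            apply mul_le_mul hpi _ (by positivity) zero_le_one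
            apply mul_le_mul _ f3 (by positivity) (by positivity)
            exact mul_le_mul f1 f2 (norm_nonneg _) (by positivity)
        _ = 2 * Real.exp (8 * (w * r) - n + w * r + 3 / c1 * r) := by
            rw [Real.exp_add, Real.exp_add]; ring
        _ ≤ 2 * Real.exp (-(E * r)) := by
            apply mul_le_mul_of_nonneg_left _ two_pos.le
            apply Real.exp_le_exp.2
            linarith
        _ ≤ e / 2 := by linarith
    have hη2 : 2 * η ≤ s ^ 2 / c := by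
      have g1 : 2 * η ≤ c1 ^ 2 / (c * r ^ 2) := by
        rw [hη, le_div_iff₀ (by positivity)]
        have : κ * (2 * c) ≤ c1 ^ 2 := by
          rw [le_div_iff₀ (by positivity)] at hκ2
          exact hκ2
        calc 2 * (κ / (r : ℝ) ^ 2) * (c * (r : ℝ) ^ 2) = κ * (2 * c) := by
              field_simp
          _ ≤ _ := this
      have g2 : (c1 / r) ^ 2 ≤ s ^ 2 := pow_le_pow_left₀ (by positivity) hs 2
      refine g1.trans ?_
      rw [mul_comm c, ← div_div, ← div_pow]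
      exact div_le_div_of_nonneg_right g2 hc.le
    have h2 := hcomm X (b⁻¹ ^ 3 * (1 - η) ^ D / η) (by
      have : 0 ≤ 1 - η := by linarith
      positivity) (fun m => by
      refine (ha2 m s hs0 hsc hη2 D).trans (le_of_eq ?_)
      ring) l hl
    have h3 : Real.exp (2 * B * r) * (b⁻¹ ^ 3 * (1 - η) ^ D / η) ≤ e / 4 := by
      have f1 : (1 - η) ^ D ≤ Real.exp (-(κ * C0 * r)) := by
        have g1 : 1 - η ≤ Real.exp (-η) := by linarith [Real.add_one_le_exp (-η)]
        calc (1 - η) ^ D ≤ Real.exp (-η) ^ D := pow_le_pow_left₀ (by linarith) g1 D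
          _ = Real.exp (-(κ * C0 * r)) := by
              rw [← Real.exp_nat_mul, hD, hη]
              congr 1
              push_cast
              field_simp
      have f2 : η⁻¹ ≤ Real.exp (2 * r) * Real.exp (κ⁻¹ * r) := by
        rw [hη, inv_div, div_eq_mul_inv]
        apply mul_le_mul _ _ (by positivity) (by positivity)
        · rw [mul_comm 2 (r : ℝ), mul_comm (r : ℝ) 2, show (2 : ℝ) * r = ((2 : ℕ) : ℝ) * r by norm_num,
            Real.exp_nat_mul]
          exact pow_le_pow_left₀ hr0.le (by linarith [Real.add_one_le_exp (r : ℝ)]) 2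
        · have g1 : κ⁻¹ ≤ κ⁻¹ * r := le_mul_of_one_le_right (by positivity) hr1
          linarith [Real.add_one_le_exp (κ⁻¹ * (r : ℝ))]
      calc Real.exp (2 * B * r) * (b⁻¹ ^ 3 * (1 - η) ^ D / η)
          ≤ Real.exp (2 * B * r) * (Real.exp (3 / β * r) * Real.exp (-(κ * C0 * r)) *
              (Real.exp (2 * r) * Real.exp (κ⁻¹ * r))) := by
            apply mul_le_mul_of_nonneg_left _ (Real.exp_pos _).le
            rw [div_eq_mul_inv]
            have : 0 ≤ 1 - η := by linarith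
            apply mul_le_mul _ f2 (by positivity) (by positivity)
            exact mul_le_mul hbexp f1 (by positivity) (by positivity)
        _ = Real.exp (2 * B * r + 3 / β * r - κ * C0 * r + 2 * r + κ⁻¹ * r) := by
            rw [← Real.exp_add, ← Real.exp_add, ← Real.exp_add, ← Real.exp_add]
            congr 1; ring
        _ ≤ Real.exp (-(E * r)) := by
            apply Real.exp_le_exp.2
            have g1 := mul_le_mul_of_nonneg_right hC0' hr0.le
            linarith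
        _ ≤ e / 4 := hEr
    calc _ ≤ _ := norm_add_le _ _
      _ ≤ e / 2 + e / 4 := add_le_add h1 (h2.trans h3)
      _ ≤ e := by linarith

end Pool.Agent.Work.MP_f2af60_mp

end

section

/-!
# MP_f2af60_mp, item 12: entire functions of finite order with finitely many zeros
-/

namespace Pool.Agent.Work.MP_f2af60_mp

open Filter Topology Metric

/-- One zero can be divided out with its full multiplicity. -/
lemma pe_factor_one (D : ℂ → ℂ) (hD : Differentiable ℂ D) (hne : ∃ z, D z ≠ 0) (a : ℂ) :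
    ∃ (n : ℕ) (D1 : ℂ → ℂ), Differentiable ℂ D1 ∧ D1 a ≠ 0 ∧ ∀ z, D z = (z - a) ^ n * D1 z := by
  have han : AnalyticOnNhd ℂ D Set.univ := fun z _ => hD.analyticAt z
  have hnz : ¬ ∀ᶠ z in 𝓝 a, D z = 0 := by
    intro h
    have h0 : AnalyticOnNhd ℂ (fun _ : ℂ => (0 : ℂ)) Set.univ := fun z _ => analyticAt_const
    have := han.eq_of_eventuallyEq h0 (z₀ := a) h
    obtain ⟨z, hz⟩ := hne
    exact hz (by rw [this])
  obtain ⟨n, g, hg, hga, hgD⟩ := ((hD.analyticAt a).exists_eventuallyEq_pow_smul_nonzero_iff).2 hnz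
  classical
  let D1 : ℂ → ℂ := fun z => if z = a then g a else D z / (z - a) ^ n
  have hD1a : D1 a = g a := by simp [D1]
  have hD1 : ∀ z, z ≠ a → D1 z = D z / (z - a) ^ n := fun z hz => by simp [D1, hz]
  have hev : D1 =ᶠ[𝓝 a] g := by
    filter_upwards [hgD] with z hz
    by_cases hza : z = a
    · rw [hza, hD1a]
    · rw [hD1 z hza, hz, smul_eq_mul]
      have : (z - a) ^ n ≠ 0 := pow_ne_zero _ (sub_ne_zero.2 hza)
      field_simp
  refine ⟨n, D1, ?_, by rw [hD1a]; exact hga, ?_⟩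
  · intro z
    by_cases hza : z = a
    · rw [hza]
      exact (hg.differentiableAt).congr_of_eventuallyEq hev
    · have h1 : D1 =ᶠ[𝓝 z] fun w => D w / (w - a) ^ n := by
        filter_upwards [isOpen_ne.mem_nhds hza] with w hw
        exact hD1 w hw
      refine DifferentiableAt.congr_of_eventuallyEq ?_ h1
      refine (hD z).div ?_ (pow_ne_zero _ (sub_ne_zero.2 hza))
      fun_prop
  · intro z
    by_cases hza : z = a
    · have h1 := hgD.self_of_nhds
      rw [smul_eq_mul] at h1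
      rw [hza, h1, hD1a]
    · rw [hD1 z hza]
      have : (z - a) ^ n ≠ 0 := pow_ne_zero _ (sub_ne_zero.2 hza)
      field_simp

/-- All zeros can be divided out. -/
lemma pe_factor_all (k : ℕ) : ∀ D : ℂ → ℂ, Differentiable ℂ D → (∃ z, D z ≠ 0) →
    {z | D z = 0}.Finite → {z | D z = 0}.ncard = k →
    ∃ (P : Polynomial ℂ) (h : ℂ → ℂ), P ≠ 0 ∧ Differentiable ℂ h ∧ (∀ z, h z ≠ 0) ∧
      ∀ z, D z = P.eval z * h z := by
  induction k using Nat.strong_induction_on with
  | _ k ih =>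
    intro D hD hne hfin hk
    by_cases hemp : {z | D z = 0} = ∅
    · refine ⟨1, D, one_ne_zero, hD, ?_, fun z => by simp⟩
      intro z hz
      have : z ∈ {z | D z = 0} := hz
      rw [hemp] at this
      exact this
    · obtain ⟨a, ha⟩ := Set.nonempty_iff_ne_empty.2 hemp
      obtain ⟨n, D1, hD1, hD1a, hfac⟩ := pe_factor_one D hD hne a
      have hsub : {z | D1 z = 0} ⊂ {z | D z = 0} := by
        refine ⟨fun z hz => ?_, fun h => ?_⟩
        · show D z = 0
          rw [hfac z, show D1 z = 0 from hz, mul_zero]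
        · exact hD1a (h ha)
      have hlt : {z | D1 z = 0}.ncard < k := by
        rw [← hk]; exact Set.ncard_lt_ncard hsub hfin
      obtain ⟨P, h, hP, hh, hh0, hPh⟩ := ih _ hlt D1 hD1 ⟨a, hD1a⟩ (hfin.subset hsub.subset) rfl
      refine ⟨(Polynomial.X - Polynomial.C a) ^ n * P, h,
        mul_ne_zero (pow_ne_zero _ (Polynomial.X_sub_C_ne_zero a)) hP, hh, hh0, fun z => ?_⟩
      rw [hfac z, hPh z]
      simp [mul_assoc]

/-- A nonzero polynomial is bounded below at infinity. -/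
lemma pe_lower (P : Polynomial ℂ) (hP : P ≠ 0) :
    ∃ (c R : ℝ), 0 < c ∧ 0 < R ∧ ∀ z : ℂ, R ≤ ‖z‖ → c ≤ ‖P.eval z‖ := by
  by_cases hdeg : 0 < P.degree
  · have h1 : Tendsto (fun z : ℂ => ‖P.eval z‖) (cocompact ℂ) atTop :=
      P.tendsto_norm_atTop hdeg (tendsto_norm_cocompact_atTop)
    have h2 := h1.eventually (eventually_ge_atTop 1)
    rw [Filter.eventually_iff_exists_mem] at h2
    obtain ⟨s, hs, hs1⟩ := h2
    obtain ⟨R, hR⟩ := (Metric.closedBall_compl_subset_of_mem_cocompact hs (0 : ℂ))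
    refine ⟨1, max R 0 + 1, one_pos, by positivity, fun z hz => hs1 z (hR ?_)⟩
    simp only [Set.mem_compl_iff, Metric.mem_closedBall, dist_zero_right, not_le]
    have := le_max_left R 0
    linarith
  · have h0 : P = Polynomial.C (P.coeff 0) :=
      Polynomial.eq_C_of_degree_le_zero (not_lt.1 hdeg)
    have hc : P.coeff 0 ≠ 0 := by
      intro h; apply hP; rw [h0, h, Polynomial.C_0]
    refine ⟨‖P.coeff 0‖, 1, norm_pos_iff.2 hc, one_pos, fun z _ => ?_⟩
    rw [h0]; simp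

/-- Growth of the zero free factor. -/
lemma pe_growth (D h : ℂ → ℂ) (hh : Differentiable ℂ h) (P : Polynomial ℂ) (hP : P ≠ 0)
    (hfac : ∀ z, D z = P.eval z * h z) (C : ℝ) (m : ℕ)
    (hC : ∀ z, ‖D z‖ ≤ Real.exp (C * (1 + ‖z‖) ^ m)) :
    ∃ A : ℝ, 0 < A ∧ ∀ z, ‖h z‖ ≤ Real.exp (A * (1 + ‖z‖) ^ m) := by
  obtain ⟨c, R, hc, hR, hlow⟩ := pe_lower P hP
  obtain ⟨B, hB⟩ := (isCompact_closedBall (0 : ℂ) R).exists_bound_of_continuousOn
    hh.continuous.continuousOn
  refine ⟨|C| + |Real.log c| + |B| + 1, by positivity, fun z => ?_⟩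
  have h1 : (1 : ℝ) ≤ (1 + ‖z‖) ^ m := one_le_pow₀ (by linarith [norm_nonneg z])
  by_cases hz : R ≤ ‖z‖
  · have h2 : c * ‖h z‖ ≤ ‖D z‖ := by
      rw [hfac z, norm_mul]
      exact mul_le_mul_of_nonneg_right (hlow z hz) (norm_nonneg _)
    have h3 : ‖h z‖ ≤ Real.exp (C * (1 + ‖z‖) ^ m) / c := by
      rw [le_div_iff₀ hc]; linarith [hC z]
    refine h3.trans ?_
    rw [div_eq_mul_inv, ← Real.exp_log (inv_pos.2 hc), Real.log_inv, ← Real.exp_add]
    apply Real.exp_le_exp.2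
    have h4 : C * (1 + ‖z‖) ^ m ≤ |C| * (1 + ‖z‖) ^ m :=
      mul_le_mul_of_nonneg_right (le_abs_self C) (by positivity)
    have h5 : -Real.log c ≤ |Real.log c| * (1 + ‖z‖) ^ m := by
      calc -Real.log c ≤ |Real.log c| := neg_le_abs _
        _ ≤ |Real.log c| * (1 + ‖z‖) ^ m := le_mul_of_one_le_right (abs_nonneg _) h1
    have h6 : 0 ≤ (|B| + 1) * (1 + ‖z‖) ^ m := by positivity
    nlinarith
  · have h2 : ‖h z‖ ≤ B := hB z (by simp only [Metric.mem_closedBall, dist_zero_right]; linarith)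
    have h3 : B ≤ Real.exp (|B|) := by
      calc B ≤ |B| := le_abs_self B
        _ ≤ |B| + 1 := by linarith
        _ ≤ Real.exp |B| := Real.add_one_le_exp _
    refine h2.trans (h3.trans (Real.exp_le_exp.2 ?_))
    have h4 : |B| ≤ |B| * (1 + ‖z‖) ^ m := le_mul_of_one_le_right (abs_nonneg _) h1
    have h6 : 0 ≤ (|C| + |Real.log c| + 1) * (1 + ‖z‖) ^ m := by positivity
    nlinarith

/-- A zero free entire function has an entire logarithm. -/
lemma pe_log (h : ℂ → ℂ) (hh : Differentiable ℂ h) (h0 : ∀ z, h z ≠ 0) :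
    ∃ g : ℂ → ℂ, Differentiable ℂ g ∧ ∀ z, h z = Complex.exp (g z) := by
  have hd : Differentiable ℂ (deriv h) := by
    have := hh.contDiff (n := 2)
    exact (this.differentiable_deriv_two)
  have hq : Differentiable ℂ (fun z => deriv h z / h z) := hd.div hh h0
  obtain ⟨G, hG⟩ := hq.isExactOn_univ
  have hG' : ∀ z, HasDerivAt G (deriv h z / h z) z := fun z => hG z (Set.mem_univ z)
  have hF : ∀ z, HasDerivAt (fun w => h w * Complex.exp (-G w)) 0 z := by
    intro z
    have h1 : HasDerivAt (fun w => h w * Complex.exp (-G w)) (deriv h z * Complex.exp (-G z) +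
        h z * (Complex.exp (-G z) * -(deriv h z / h z))) z :=
      ((hh z).hasDerivAt).mul ((hG' z).neg.cexp)
    have h2 : deriv h z * Complex.exp (-G z) +
        h z * (Complex.exp (-G z) * -(deriv h z / h z)) = 0 := by
      have := h0 z
      field_simp
      ring
    rw [h2] at h1
    exact h1
  have hconst : ∀ z, h z * Complex.exp (-G z) = h 0 * Complex.exp (-G 0) := by
    intro z
    exact is_const_of_deriv_eq_zero (fun w => (hF w).differentiableAt) (fun w => (hF w).deriv) z 0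
  set c := h 0 * Complex.exp (-G 0) with hc
  have hc0 : c ≠ 0 := mul_ne_zero (h0 0) (Complex.exp_ne_zero _)
  refine ⟨fun z => G z + Complex.log c, ?_, fun z => ?_⟩
  · exact (fun z => (hG' z).differentiableAt.add_const _)
  · rw [Complex.exp_add, Complex.exp_log hc0, ← hconst z]
    rw [mul_comm (Complex.exp (G z)), mul_assoc, ← Complex.exp_add]
    simp

/-- An entire function with real part of polynomial growth is a polynomial. -/
lemma pe_poly (g : ℂ → ℂ) (hg : Differentiable ℂ g) (A : ℝ) (hA : 0 < A) (m : ℕ)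
    (hre : ∀ z, (g z).re ≤ A * (1 + ‖z‖) ^ m) :
    ∃ Q : Polynomial ℂ, ∀ z, g z = Q.eval z := by
  set B : ℝ := 2 * A * 3 ^ m + 3 * ‖g 0‖ with hB
  have hbound : ∀ r : ℝ, 1 ≤ r → ∀ z ∈ sphere (0 : ℂ) r, ‖g z‖ ≤ B * r ^ m := by
    intro r hr z hz
    have hzr : ‖z‖ = r := by simpa using hz
    have hr0 : 0 < r := by linarith
    have h1 := Complex.borelCaratheodory (f := g) (R := 2 * r) (M := A * (1 + 2 * r) ^ m) (z := z)
      (by positivity) hg.differentiableOn (by
        intro w hw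
        have hw' : ‖w‖ < 2 * r := by simpa using hw
        show (g w).re ≤ _
        refine (hre w).trans ?_
        gcongr) (by positivity) (by simp [hzr]; linarith)
    rw [hzr] at h1
    have e1 : 2 * r - r = r := by ring
    have e2 : 2 * r + r = 3 * r := by ring
    rw [e1, e2] at h1
    have h2 : 2 * (A * (1 + 2 * r) ^ m) * r / r = 2 * (A * (1 + 2 * r) ^ m) := by
      field_simp
    have h3 : ‖g 0‖ * (3 * r) / r = 3 * ‖g 0‖ := by field_simp
    rw [h2, h3] at h1
    have h4 : (1 + 2 * r) ^ m ≤ (3 * r) ^ m := by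
      gcongr; linarith
    have h5 : (1 : ℝ) ≤ r ^ m := one_le_pow₀ hr
    calc ‖g z‖ ≤ 2 * (A * (1 + 2 * r) ^ m) + 3 * ‖g 0‖ := h1
      _ ≤ 2 * (A * (3 * r) ^ m) + 3 * ‖g 0‖ * r ^ m := by
        have : 3 * ‖g 0‖ ≤ 3 * ‖g 0‖ * r ^ m := le_mul_of_one_le_right (by positivity) h5
        have : A * (1 + 2 * r) ^ m ≤ A * (3 * r) ^ m := by gcongr
        linarith
      _ = B * r ^ m := by rw [hB, mul_pow]; ring
  have hzero : ∀ n : ℕ, m < n → iteratedDeriv n g 0 = 0 := by
    intro n hn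
    have h1 : ∀ r : ℝ, 1 ≤ r → ‖iteratedDeriv n g 0‖ ≤ (n.factorial * B) / r := by
      intro r hr
      have hr0 : 0 < r := by linarith
      have h2 := Complex.norm_iteratedDeriv_le_of_forall_mem_sphere_norm_le n hr0
        (hg.diffContOnCl (s := ball (0 : ℂ) r)) (hbound r hr)
      refine h2.trans ?_
      rw [div_le_div_iff₀ (by positivity) hr0]
      have h3 : r ^ m * r ≤ r ^ n := by
        rw [← pow_succ]; exact pow_le_pow_right₀ hr hn
      have hB0 : 0 ≤ B := by positivity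
      calc (n.factorial : ℝ) * (B * r ^ m) * r = n.factorial * B * (r ^ m * r) := by ring
        _ ≤ n.factorial * B * r ^ n := by gcongr
    have h2 : Tendsto (fun r : ℝ => (n.factorial * B) / r) atTop (𝓝 0) :=
      tendsto_const_nhds.div_atTop tendsto_id
    have h3 : ‖iteratedDeriv n g 0‖ ≤ 0 :=
      ge_of_tendsto h2 (by filter_upwards [eventually_ge_atTop 1] with r hr using h1 r hr)
    exact norm_le_zero_iff.1 h3
  refine ⟨∑ n ∈ Finset.range (m + 1),
    Polynomial.C ((n.factorial : ℂ)⁻¹ * iteratedDeriv n g 0) * Polynomial.X ^ n, fun z => ?_⟩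
  have h1 := Complex.taylorSeries_eq_of_entire hg 0 z
  rw [← h1, tsum_eq_sum (s := Finset.range (m + 1))]
  · rw [Polynomial.eval_finsetSum]
    refine Finset.sum_congr rfl fun n _ => ?_
    simp [mul_comm, mul_left_comm]
  · intro n hn
    rw [Finset.mem_range, not_lt] at hn
    rw [hzero n (by omega)]
    simp

/-- Item 12. -/
theorem polyExp : PolyExp := by
  intro D hD hne C m hC hfin
  obtain ⟨P, h, hP, hh, h0, hfac⟩ := pe_factor_all _ D hD hne hfin rfl
  obtain ⟨A, hA, hgrow⟩ := pe_growth D h hh P hP hfac C m hC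
  obtain ⟨g, hg, hgh⟩ := pe_log h hh h0
  have hre : ∀ z, (g z).re ≤ A * (1 + ‖z‖) ^ m := by
    intro z
    have := hgrow z
    rw [hgh z, Complex.norm_exp] at this
    exact Real.exp_le_exp.1 this
  obtain ⟨Q, hQ⟩ := pe_poly g hg A hA m hre
  exact ⟨P, Q, hP, fun z => by rw [hfac z, hgh z, hQ z]⟩

end Pool.Agent.Work.MP_f2af60_mp

end

section

/-!
# Q12: closed chains with one link removed are integrable
-/

set_option autoImplicit false

namespace Pool.Agent.Work.MP_f2af60_mp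

open MeasureTheory Metric

section gcc

variable {K : Type} [MetricSpace K] [CompactSpace K] [MeasurableSpace K] [BorelSpace K]

/-- The weight of a link. -/
noncomputable def gccW (q : ℕ) (x y : K) : ENNReal := ENNReal.ofReal (((dist x y) ^ (2 * q + 1))⁻¹)

/-- The open chain. -/
noncomputable def gccG (q m : ℕ) (x : Fin (m + 1) → K) : ENNReal :=
  ∏ i : Fin m, gccW q (x i.castSucc) (x i.succ)

theorem gccW_meas (q : ℕ) {α : Type} [MeasurableSpace α] (f g : α → K) (hf : Measurable f)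
    (hg : Measurable g) : Measurable (fun a => gccW q (f a) (g a)) := by
  have : SecondCountableTopology K := inferInstance
  unfold gccW
  exact ((Measurable.dist hf hg).pow_const _).inv.ennreal_ofReal

theorem gccG_meas (q m : ℕ) : Measurable (gccG (K := K) q m) := by
  unfold gccG
  refine Finset.measurable_prod _ ?_
  intro i _
  exact gccW_meas q _ _ (measurable_pi_apply _) (measurable_pi_apply _)

theorem gccG_le (q m : ℕ) (μ : Measure K) [IsFiniteMeasure μ] (C : ENNReal)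
    (hC : ∀ y, ∫⁻ x, gccW q x y ∂μ ≤ C) :
    ∫⁻ x, gccG q m x ∂(Measure.pi fun _ : Fin (m + 1) => μ) ≤ C ^ m * μ Set.univ := by
  induction m with
  | zero =>
    simp [gccG, Measure.pi_univ]
  | succ m ih =>
    have hmp := measurePreserving_piFinSuccAbove (fun _ : Fin (m + 1 + 1) => μ) 0
    have e1 : ∀ x : Fin (m + 1 + 1) → K, gccG q (m + 1) x =
        (fun a : K × (Fin (m + 1) → K) => gccW q a.1 (a.2 0) * gccG q m a.2)
          (MeasurableEquiv.piFinSuccAbove (fun _ => K) 0 x) := by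
      intro x
      simp only [gccG, Fin.prod_univ_succ]
      rfl
    have hm : Measurable (fun a : K × (Fin (m + 1) → K) => gccW q a.1 (a.2 0) * gccG q m a.2) := by
      refine Measurable.mul ?_ ?_
      · exact gccW_meas q _ _ measurable_fst ((measurable_pi_apply 0).comp measurable_snd)
      · exact (gccG_meas q m).comp measurable_snd
    calc ∫⁻ x, gccG q (m + 1) x ∂(Measure.pi fun _ : Fin (m + 1 + 1) => μ)
        = ∫⁻ x, (fun a : K × (Fin (m + 1) → K) => gccW q a.1 (a.2 0) * gccG q m a.2)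
          (MeasurableEquiv.piFinSuccAbove (fun _ => K) 0 x)
            ∂(Measure.pi fun _ : Fin (m + 1 + 1) => μ) := lintegral_congr e1
      _ = ∫⁻ a, gccW q a.1 (a.2 0) * gccG q m a.2
            ∂(μ.prod (Measure.pi fun _ : Fin (m + 1) => μ)) := hmp.lintegral_comp hm
      _ = ∫⁻ b, ∫⁻ a, gccW q a (b 0) * gccG q m b ∂μ ∂(Measure.pi fun _ : Fin (m + 1) => μ) := by
          rw [lintegral_prod_symm _ hm.aemeasurable]
      _ ≤ ∫⁻ b, C * gccG q m b ∂(Measure.pi fun _ : Fin (m + 1) => μ) := by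
          refine lintegral_mono ?_
          intro b
          show ∫⁻ a, gccW q a (b 0) * gccG q m b ∂μ ≤ C * gccG q m b
          have hw : Measurable (fun a : K => gccW q a (b 0)) :=
            gccW_meas q _ _ measurable_id measurable_const
          rw [lintegral_mul_const _ hw]
          gcongr
          exact hC _
      _ = C * ∫⁻ b, gccG q m b ∂(Measure.pi fun _ : Fin (m + 1) => μ) := by
          rw [lintegral_const_mul _ (gccG_meas q m)]
      _ ≤ C * (C ^ m * μ Set.univ) := by gcongr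
      _ = C ^ (m + 1) * μ Set.univ := by rw [pow_succ]; ring

/-- The open chain is integrable. -/
theorem gcc_last (q m : ℕ) (μ : Measure K) [IsFiniteMeasure μ] (C : ℝ)
    (hC : ∀ y, ∫⁻ x, gccW q x y ∂μ ≤ ENNReal.ofReal C) :
    Integrable (fun x : Fin (m + 1) → K => ∏ i ∈ Finset.univ.erase (Fin.last m),
      ((dist (x i) (x (i + 1))) ^ (2 * q + 1))⁻¹) (Measure.pi fun _ => μ) := by
  have : SecondCountableTopology K := inferInstance
  have e1 : ∀ x : Fin (m + 1) → K, ∏ i ∈ Finset.univ.erase (Fin.last m),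
      ((dist (x i) (x (i + 1))) ^ (2 * q + 1))⁻¹ =
      ∏ i : Fin m, ((dist (x i.castSucc) (x i.succ)) ^ (2 * q + 1))⁻¹ := by
    intro x
    have h1 : (Finset.univ.erase (Fin.last m)) = (Finset.univ : Finset (Fin m)).map
        ⟨Fin.castSucc, Fin.castSucc_injective m⟩ := by
      ext i
      simp only [Finset.mem_erase, Finset.mem_univ, and_true, Finset.mem_map, true_and,
        Function.Embedding.coeFn_mk, ne_eq]
      exact Fin.exists_castSucc_eq.symm
    rw [h1, Finset.prod_map]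
    refine Finset.prod_congr rfl ?_
    intro i _
    simp only [Function.Embedding.coeFn_mk, Fin.coeSucc_eq_succ]
  refine ⟨?_, ?_⟩
  · refine Measurable.aestronglyMeasurable ?_
    refine Finset.measurable_prod _ ?_
    intro i _
    have hi : Measurable (fun x : Fin (m + 1) → K => x i) := measurable_pi_apply i
    have hi2 : Measurable (fun x : Fin (m + 1) → K => x (i + 1)) := measurable_pi_apply (i + 1)
    exact ((Measurable.dist hi hi2).pow_const _).inv
  · rw [hasFiniteIntegral_iff_ofReal]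
    · have e2 : ∀ x : Fin (m + 1) → K, ENNReal.ofReal (∏ i ∈ Finset.univ.erase (Fin.last m),
          ((dist (x i) (x (i + 1))) ^ (2 * q + 1))⁻¹) = gccG q m x := by
        intro x
        rw [e1, gccG, ENNReal.ofReal_prod_of_nonneg]
        · rfl
        · intro i _
          positivity
      rw [lintegral_congr e2]
      refine lt_of_le_of_lt (gccG_le q m μ _ hC) ?_
      exact ENNReal.mul_lt_top (ENNReal.pow_lt_top ENNReal.ofReal_lt_top) (measure_lt_top _ _)
    · refine Filter.Eventually.of_forall ?_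
      intro x
      show 0 ≤ ∏ i ∈ Finset.univ.erase (Fin.last m), ((dist (x i) (x (i + 1))) ^ (2 * q + 1))⁻¹
      positivity

/-- Relabelling the variables preserves the product measure. -/
theorem gcc_mp (m : ℕ) (μ : Measure K) [IsFiniteMeasure μ] (e : Equiv.Perm (Fin (m + 1))) :
    MeasurePreserving (fun x : Fin (m + 1) → K => fun i => x (e i))
      (Measure.pi fun _ => μ) (Measure.pi fun _ => μ) := by
  have h := measurePreserving_piCongrLeft (fun _ : Fin (m + 1) => μ) e.symm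
  have h2 : (fun x : Fin (m + 1) → K => fun i => x (e i)) =
      (MeasurableEquiv.piCongrLeft (fun _ : Fin (m + 1) => K) e.symm) := by
    funext x i
    have h3 := Equiv.piCongrLeft_apply (fun _ : Fin (m + 1) => K) e.symm x i
    rw [MeasurableEquiv.coe_piCongrLeft]
    rw [h3]
    simp
  rw [h2]
  exact h

end gcc

/-- **Q12**. -/
theorem chainCut (h : RieszQ) : ChainCut := by
  intro q hq K _ _ _ _ μ C hμ m j
  have := hμ.fin
  obtain ⟨C₁, hC₁, h1, -⟩ := h q hq K μ C hμ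
  have hC : ∀ y, ∫⁻ x, gccW q x y ∂μ ≤ ENNReal.ofReal C₁ := by
    intro y
    obtain ⟨hi, hb⟩ := h1 y (2 * q + 1) (by omega)
    have h2 : ∫⁻ x, gccW q x y ∂μ = ENNReal.ofReal (∫ x, ((dist y x) ^ (2 * q + 1))⁻¹ ∂μ) := by
      rw [ofReal_integral_eq_lintegral_ofReal hi]
      · refine lintegral_congr ?_
        intro x
        unfold gccW
        rw [dist_comm]
      · refine Filter.Eventually.of_forall ?_
        intro x
        show 0 ≤ ((dist y x) ^ (2 * q + 1))⁻¹
        positivity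
    rw [h2]
    exact ENNReal.ofReal_le_ofReal hb
  have hl := gcc_last q m μ C₁ hC
  have hmp := gcc_mp m μ (Equiv.addRight (j + 1))
  have hl2 := hmp.integrable_comp_of_integrable hl
  have e3 : (fun x : Fin (m + 1) → K => ∏ i ∈ Finset.univ.erase j,
      ((dist (x i) (x (i + 1))) ^ (2 * q + 1))⁻¹) =
      (fun x : Fin (m + 1) → K => ∏ i ∈ Finset.univ.erase (Fin.last m),
      ((dist (x i) (x (i + 1))) ^ (2 * q + 1))⁻¹) ∘
      (fun x : Fin (m + 1) → K => fun i => x ((Equiv.addRight (j + 1)) i)) := by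
    funext x
    simp only [Function.comp_apply, Equiv.coe_addRight]
    symm
    refine Finset.prod_bij (fun i _ => i + (j + 1)) ?_ ?_ ?_ ?_
    · intro i hi
      simp only [Finset.mem_erase, Finset.mem_univ, and_true, ne_eq] at hi ⊢
      intro h4
      apply hi
      have h5 : i + 1 = 0 := by
        have : i + 1 + j = 0 + j := by
          rw [zero_add, add_assoc, add_comm 1 j]
          exact h4
        exact add_right_cancel this
      exact Fin.eq_last_of_not_lt (fun h6 => by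
        have h7 : ((i + 1 : Fin (m + 1)) : ℕ) = (i : ℕ) + 1 := Fin.val_add_one_of_lt h6
        rw [h5] at h7
        simp at h7)
    · intro a _ b _ hab
      exact add_right_cancel hab
    · intro b hb
      refine ⟨b - (j + 1), ?_, ?_⟩
      · simp only [Finset.mem_erase, Finset.mem_univ, and_true, ne_eq] at hb ⊢
        intro h4
        apply hb
        have h5 : b = Fin.last m + 1 + j := by
          rw [add_assoc, add_comm 1 j, ← h4]
          abel
        rw [h5, Fin.last_add_one, zero_add]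
      · abel
    · intro i _
      rw [add_right_comm i (j + 1) 1]
  rw [e3]
  exact hl2

end Pool.Agent.Work.MP_f2af60_mp

end

section

/-!
# MP_f2af60_mp, Q13: the diagonal terms as integrals over closed chains
-/

namespace Pool.Agent.Work.MP_f2af60_mp

open MeasureTheory Metric Filter Topology
open scoped ENNReal

namespace ChainRepAux

section Abstract

variable {K : Type*} [MeasurableSpace K]

/-- Open chains. -/
noncomputable def oc (V : K → ℝ) (a b : K → K → ℂ) : (m : ℕ) → K → (Fin m → K) → K → ℂ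
  | 0, x, _, y => b x y
  | (m + 1), x, z, y => a x (z 0) * (V (z 0) : ℂ) * oc V a b m (z 0) (fun i => z i.succ) y

/-- Telescoped differences of open chains. -/
noncomputable def dc (V : K → ℝ) (a a₁ b₁ f f' : K → K → ℂ) :
    (m : ℕ) → K → (Fin m → K) → K → ℂ
  | 0, x, _, y => f' x y
  | (m + 1), x, z, y =>
      a x (z 0) * (V (z 0) : ℂ) * dc V a a₁ b₁ f f' m (z 0) (fun i => z i.succ) y +
      f x (z 0) * (V (z 0) : ℂ) * oc V a₁ b₁ m (z 0) (fun i => z i.succ) y

variable {V : K → ℝ} {a a₁ b b₁ f f' : K → K → ℂ}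

theorem oc_meas (hV : Measurable V) (ha : Measurable (Function.uncurry a))
    (hb : Measurable (Function.uncurry b)) (m : ℕ) :
    Measurable (fun p : K × (Fin m → K) × K => oc V a b m p.1 p.2.1 p.2.2) := by
  induction m with
  | zero =>
    simp only [oc]
    exact hb.comp (measurable_fst.prodMk measurable_snd.snd)
  | succ m ih =>
    simp only [oc]
    have h0 : Measurable (fun p : K × (Fin (m + 1) → K) × K => p.2.1 0) :=
      (measurable_pi_apply 0).comp measurable_snd.fst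
    have h1 : Measurable (fun p : K × (Fin (m + 1) → K) × K => (fun i : Fin m => p.2.1 i.succ)) :=
      measurable_pi_lambda _ (fun i => (measurable_pi_apply i.succ).comp measurable_snd.fst)
    refine Measurable.mul (Measurable.mul ?_ ?_) ?_
    · exact ha.comp (measurable_fst.prodMk h0)
    · exact Complex.measurable_ofReal.comp (hV.comp h0)
    · exact ih.comp (h0.prodMk (h1.prodMk measurable_snd.snd))

theorem dc_meas (hV : Measurable V) (ha : Measurable (Function.uncurry a))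
    (ha₁ : Measurable (Function.uncurry a₁)) (hb₁ : Measurable (Function.uncurry b₁))
    (hf : Measurable (Function.uncurry f)) (hf' : Measurable (Function.uncurry f')) (m : ℕ) :
    Measurable (fun p : K × (Fin m → K) × K => dc V a a₁ b₁ f f' m p.1 p.2.1 p.2.2) := by
  induction m with
  | zero =>
    simp only [dc]
    exact hf'.comp (measurable_fst.prodMk measurable_snd.snd)
  | succ m ih =>
    simp only [dc]
    have h0 : Measurable (fun p : K × (Fin (m + 1) → K) × K => p.2.1 0) :=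
      (measurable_pi_apply 0).comp measurable_snd.fst
    have h1 : Measurable (fun p : K × (Fin (m + 1) → K) × K => (fun i : Fin m => p.2.1 i.succ)) :=
      measurable_pi_lambda _ (fun i => (measurable_pi_apply i.succ).comp measurable_snd.fst)
    have hV0 : Measurable (fun p : K × (Fin (m + 1) → K) × K => ((V (p.2.1 0) : ℝ) : ℂ)) :=
      Complex.measurable_ofReal.comp (hV.comp h0)
    refine Measurable.add (Measurable.mul (Measurable.mul ?_ hV0) ?_)
      (Measurable.mul (Measurable.mul ?_ hV0) ?_)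
    · exact ha.comp (measurable_fst.prodMk h0)
    · exact ih.comp (h0.prodMk (h1.prodMk measurable_snd.snd))
    · exact hf.comp (measurable_fst.prodMk h0)
    · exact (oc_meas hV ha₁ hb₁ m).comp (h0.prodMk (h1.prodMk measurable_snd.snd))

variable {μ : Measure K} [SigmaFinite μ]

theorem mp_cons (m : ℕ) :
    MeasurePreserving (fun p : K × (Fin m → K) => (Fin.cons p.1 p.2 : Fin (m + 1) → K))
      (μ.prod (Measure.pi fun _ => μ)) (Measure.pi fun _ => μ) := by
  have h := (measurePreserving_piFinSuccAbove (fun _ : Fin (m + 1) => μ) 0).symm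
  have e : (fun p : K × (Fin m → K) => (Fin.cons p.1 p.2 : Fin (m + 1) → K)) =
      ⇑(MeasurableEquiv.piFinSuccAbove (fun _ : Fin (m + 1) => K) 0).symm := by
    funext p
    simp [MeasurableEquiv.piFinSuccAbove_symm_apply, Fin.insertNthEquiv]
  rw [e]
  exact h

theorem lint_cons {m : ℕ} (F : (Fin (m + 1) → K) → ℝ≥0∞) (hF : Measurable F) :
    ∫⁻ z, F z ∂(Measure.pi fun _ => μ) =
      ∫⁻ z0, ∫⁻ z : Fin m → K, F (Fin.cons z0 z) ∂(Measure.pi fun _ => μ) ∂μ := by
  rw [← (mp_cons (μ := μ) m).lintegral_comp hF]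
  exact lintegral_prod (fun p : K × (Fin m → K) => F (Fin.cons p.1 p.2))
    (hF.comp (mp_cons (μ := μ) m).measurable).aemeasurable

theorem int_cons {m : ℕ} (F : (Fin (m + 1) → K) → ℂ)
    (hF : Integrable F (Measure.pi fun _ => μ)) :
    ∫ z, F z ∂(Measure.pi fun _ => μ) =
      ∫ z0, ∫ z : Fin m → K, F (Fin.cons z0 z) ∂(Measure.pi fun _ => μ) ∂μ := by
  have h1 : ∫ z, F z ∂(Measure.pi fun _ => μ) =
      ∫ p : K × (Fin m → K), F (Fin.cons p.1 p.2) ∂(μ.prod (Measure.pi fun _ => μ)) := by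
    conv_lhs => rw [← (mp_cons (μ := μ) m).map_eq]
    rw [integral_map (mp_cons (μ := μ) m).aemeasurable]
    rw [(mp_cons (μ := μ) m).map_eq]
    exact hF.aestronglyMeasurable
  rw [h1, integral_prod]
  exact (mp_cons (μ := μ) m).integrable_comp_of_integrable hF

omit [SigmaFinite μ] in
theorem integrable_of_lint {m : ℕ} (F : (Fin m → K) → ℂ) (hF : Measurable F)
    (h : ∫⁻ z, ‖F z‖ₑ ∂(Measure.pi fun _ => μ) < ∞) :
    Integrable F (Measure.pi fun _ => μ) :=
  ⟨hF.aestronglyMeasurable, h⟩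

/-- The first bound: integrals of open chains over the starting point. -/
theorem oc_bound (hV : Measurable V) (ha : Measurable (Function.uncurry a))
    (hb : Measurable (Function.uncurry b)) {A M : ℝ≥0∞} (hA : A < ∞) (hM : M < ∞)
    (hVM : ∀ x, ‖(V x : ℂ)‖ₑ ≤ M) (haA : ∀ z, ∫⁻ x, ‖a x z‖ₑ ∂μ ≤ A)
    (hbA : ∀ y, ∫⁻ x, ‖b x y‖ₑ ∂μ ≤ A) (m : ℕ) :
    ∃ Q : ℝ≥0∞, Q < ∞ ∧ ∀ y, ∫⁻ x, ∫⁻ z : Fin m → K, ‖oc V a b m x z y‖ₑ
      ∂(Measure.pi fun _ => μ) ∂μ ≤ Q := by
  induction m with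
  | zero =>
    refine ⟨A, hA, fun y => ?_⟩
    simp only [oc, lintegral_const]
    simpa using hbA y
  | succ m ih =>
    obtain ⟨Q, hQ, hQy⟩ := ih
    refine ⟨A * (M * Q), ENNReal.mul_lt_top hA (ENNReal.mul_lt_top hM hQ), fun y => ?_⟩
    have hoc := oc_meas hV ha hb m
    have hoc' := oc_meas hV ha hb (m + 1)
    set G : K → ℝ≥0∞ := fun z0 => ∫⁻ z : Fin m → K, ‖oc V a b m z0 z y‖ₑ
      ∂(Measure.pi fun _ => μ) with hG
    have hGm : Measurable G := by
      have : Measurable (fun p : K × (Fin m → K) => ‖oc V a b m p.1 p.2 y‖ₑ) :=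
        (hoc.comp (measurable_fst.prodMk (measurable_snd.prodMk measurable_const))).enorm
      exact this.lintegral_prod_right'
    have h1 : ∀ x, ∫⁻ z : Fin (m + 1) → K, ‖oc V a b (m + 1) x z y‖ₑ
        ∂(Measure.pi fun _ => μ) = ∫⁻ z0, ‖a x z0‖ₑ * ‖(V z0 : ℂ)‖ₑ * G z0 ∂μ := by
      intro x
      rw [lint_cons]
      · refine lintegral_congr fun z0 => ?_
        simp only [oc, Fin.cons_zero, Fin.cons_succ, enorm_mul]
        rw [lintegral_const_mul]
        exact (hoc.comp (measurable_const.prodMk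
          (measurable_id.prodMk measurable_const))).enorm
      · exact (hoc'.comp (measurable_const.prodMk
          (measurable_id.prodMk measurable_const))).enorm
    simp only [h1]
    rw [lintegral_lintegral_swap]
    · calc ∫⁻ z0, ∫⁻ x, ‖a x z0‖ₑ * ‖(V z0 : ℂ)‖ₑ * G z0 ∂μ ∂μ
          ≤ ∫⁻ z0, A * (M * G z0) ∂μ := by
            refine lintegral_mono fun z0 => ?_
            have : ∀ x, ‖a x z0‖ₑ * ‖(V z0 : ℂ)‖ₑ * G z0 = ‖a x z0‖ₑ * (‖(V z0 : ℂ)‖ₑ * G z0) :=
              fun x => mul_assoc _ _ _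
            simp only [this]
            rw [lintegral_mul_const]
            · exact mul_le_mul' (haA z0) (mul_le_mul' (hVM z0) le_rfl)
            · exact (ha.comp (measurable_id.prodMk measurable_const)).enorm
        _ = A * (M * ∫⁻ z0, G z0 ∂μ) := by
            rw [lintegral_const_mul _ (by fun_prop), lintegral_const_mul _ hGm]
        _ ≤ A * (M * Q) := mul_le_mul' le_rfl (mul_le_mul' le_rfl (hQy y))
    · refine Measurable.aemeasurable ?_
      have e1 : Measurable (fun p : K × K => ‖a p.1 p.2‖ₑ) := ha.enorm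
      have e2 : Measurable (fun p : K × K => ‖(V p.2 : ℂ)‖ₑ) :=
        (Complex.measurable_ofReal.comp (hV.comp measurable_snd)).enorm
      have e3 : Measurable (fun p : K × K => G p.2) := hGm.comp measurable_snd
      exact (e1.mul e2).mul e3

/-- The second bound: the telescoped differences are integrable, uniformly in the ends. -/
theorem dc_bound (hV : Measurable V) (ha : Measurable (Function.uncurry a))
    (ha₁ : Measurable (Function.uncurry a₁)) (hb₁ : Measurable (Function.uncurry b₁))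
    (hf : Measurable (Function.uncurry f)) (hf' : Measurable (Function.uncurry f'))
    {A M F : ℝ≥0∞} (hA : A < ∞) (hM : M < ∞) (hF : F < ∞)
    (hVM : ∀ x, ‖(V x : ℂ)‖ₑ ≤ M) (haA : ∀ x, ∫⁻ z, ‖a x z‖ₑ ∂μ ≤ A)
    (haA₁ : ∀ z, ∫⁻ x, ‖a₁ x z‖ₑ ∂μ ≤ A)
    (hbA₁ : ∀ y, ∫⁻ x, ‖b₁ x y‖ₑ ∂μ ≤ A) (hfF : ∀ x y, ‖f x y‖ₑ ≤ F)
    (hfF' : ∀ x y, ‖f' x y‖ₑ ≤ F) (m : ℕ) :
    ∃ B : ℝ≥0∞, B < ∞ ∧ ∀ x y, ∫⁻ z : Fin m → K, ‖dc V a a₁ b₁ f f' m x z y‖ₑ
      ∂(Measure.pi fun _ => μ) ≤ B := by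
  induction m with
  | zero =>
    refine ⟨F, hF, fun x y => ?_⟩
    simp only [dc, lintegral_const]
    simpa using hfF' x y
  | succ m ih =>
    obtain ⟨B, hB, hBy⟩ := ih
    obtain ⟨Q, hQ, hQy⟩ := oc_bound hV ha₁ hb₁ hA hM hVM haA₁ hbA₁ m
    refine ⟨A * (M * B) + F * (M * Q), ENNReal.add_lt_top.2
      ⟨ENNReal.mul_lt_top hA (ENNReal.mul_lt_top hM hB),
        ENNReal.mul_lt_top hF (ENNReal.mul_lt_top hM hQ)⟩, fun x y => ?_⟩
    have hoc := oc_meas hV ha₁ hb₁ m
    have hdc := dc_meas hV ha ha₁ hb₁ hf hf' m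
    have hdc' := dc_meas hV ha ha₁ hb₁ hf hf' (m + 1)
    have hd1 : Measurable (fun z : Fin (m + 1) → K => ‖dc V a a₁ b₁ f f' (m + 1) x z y‖ₑ) :=
      (hdc'.comp (measurable_const.prodMk (measurable_id.prodMk measurable_const))).enorm
    rw [lint_cons _ hd1]
    calc ∫⁻ z0, ∫⁻ z : Fin m → K, ‖dc V a a₁ b₁ f f' (m + 1) x (Fin.cons z0 z) y‖ₑ
          ∂(Measure.pi fun _ => μ) ∂μ
        ≤ ∫⁻ z0, (‖a x z0‖ₑ * (M * B) + F * (M * ∫⁻ z : Fin m → K,
            ‖oc V a₁ b₁ m z0 z y‖ₑ ∂(Measure.pi fun _ => μ))) ∂μ := by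
          refine lintegral_mono fun z0 => ?_
          calc ∫⁻ z : Fin m → K, ‖dc V a a₁ b₁ f f' (m + 1) x (Fin.cons z0 z) y‖ₑ
                ∂(Measure.pi fun _ => μ)
              ≤ ∫⁻ z : Fin m → K, (‖a x z0‖ₑ * ‖(V z0 : ℂ)‖ₑ * ‖dc V a a₁ b₁ f f' m z0 z y‖ₑ +
                ‖f x z0‖ₑ * ‖(V z0 : ℂ)‖ₑ * ‖oc V a₁ b₁ m z0 z y‖ₑ)
                  ∂(Measure.pi fun _ => μ) := by
                refine lintegral_mono fun z => ?_
                simp only [dc, Fin.cons_zero, Fin.cons_succ]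
                refine (enorm_add_le _ _).trans ?_
                simp only [enorm_mul]
                exact le_rfl
            _ = ‖a x z0‖ₑ * ‖(V z0 : ℂ)‖ₑ * (∫⁻ z : Fin m → K, ‖dc V a a₁ b₁ f f' m z0 z y‖ₑ
                  ∂(Measure.pi fun _ => μ)) +
                ‖f x z0‖ₑ * ‖(V z0 : ℂ)‖ₑ * (∫⁻ z : Fin m → K, ‖oc V a₁ b₁ m z0 z y‖ₑ
                  ∂(Measure.pi fun _ => μ)) := by
                have m1 : Measurable (fun z : Fin m → K => ‖dc V a a₁ b₁ f f' m z0 z y‖ₑ) :=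
                  (hdc.comp (measurable_const.prodMk
                    (measurable_id.prodMk measurable_const))).enorm
                have m2 : Measurable (fun z : Fin m → K => ‖oc V a₁ b₁ m z0 z y‖ₑ) :=
                  (hoc.comp (measurable_const.prodMk
                    (measurable_id.prodMk measurable_const))).enorm
                rw [lintegral_add_left (m1.const_mul _), lintegral_const_mul _ m1,
                  lintegral_const_mul _ m2]
            _ ≤ _ := by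
                rw [mul_assoc, mul_assoc]
                exact add_le_add (mul_le_mul' le_rfl (mul_le_mul' (hVM z0) (hBy z0 y)))
                  (mul_le_mul' (hfF x z0) (mul_le_mul' (hVM z0) le_rfl))
      _ = (∫⁻ z0, ‖a x z0‖ₑ ∂μ) * (M * B) + F * (M * ∫⁻ z0, ∫⁻ z : Fin m → K,
            ‖oc V a₁ b₁ m z0 z y‖ₑ ∂(Measure.pi fun _ => μ) ∂μ) := by
          have m1 : Measurable (fun z0 => ‖a x z0‖ₑ) :=
            (ha.comp (measurable_const.prodMk measurable_id)).enorm
          have m2 : Measurable (fun z0 => ∫⁻ z : Fin m → K,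
              ‖oc V a₁ b₁ m z0 z y‖ₑ ∂(Measure.pi fun _ => μ)) := by
            have : Measurable (fun p : K × (Fin m → K) => ‖oc V a₁ b₁ m p.1 p.2 y‖ₑ) :=
              (hoc.comp (measurable_fst.prodMk (measurable_snd.prodMk measurable_const))).enorm
            exact this.lintegral_prod_right'
          rw [lintegral_add_left (m1.mul_const _), lintegral_mul_const _ m1,
            lintegral_const_mul _ (m2.const_mul _), lintegral_const_mul _ m2]
      _ ≤ _ := add_le_add (mul_le_mul' (haA x) le_rfl)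
          (mul_le_mul' le_rfl (mul_le_mul' le_rfl (hQy y)))

omit [SigmaFinite μ] in
theorem int_zero (g : (Fin 0 → K) → ℂ) (c : ℂ) (hg : ∀ z, g z = c) :
    ∫ z, g z ∂(Measure.pi fun _ : Fin 0 => μ) = c := by
  simp only [hg, integral_const]
  simp [Measure.real]

/-- The iterated kernels are integrals of open chains, for almost every starting point. -/
theorem kk_eq (hV : Measurable V) (ha : Measurable (Function.uncurry a))
    (hb : Measurable (Function.uncurry b)) {A M : ℝ≥0∞} (hA : A < ∞) (hM : M < ∞)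
    (hVM : ∀ x, ‖(V x : ℂ)‖ₑ ≤ M) (haA : ∀ z, ∫⁻ x, ‖a x z‖ₑ ∂μ ≤ A)
    (hbA : ∀ y, ∫⁻ x, ‖b x y‖ₑ ∂μ ≤ A) (k : ℕ → K → K → ℂ) (h0 : ∀ x y, k 0 x y = b x y)
    (hk : ∀ m x y, k (m + 1) x y = ∫ z, a x z * (V z : ℂ) * k m z y ∂μ) (y : K) (m : ℕ) :
    ∀ᵐ x ∂μ, k m x y = ∫ z : Fin m → K, oc V a b m x z y ∂(Measure.pi fun _ => μ) := by
  induction m with
  | zero =>
    refine Eventually.of_forall fun x => ?_
    rw [h0]
    exact (int_zero (fun z : Fin 0 → K => oc V a b 0 x z y) (b x y) (fun z => rfl)).symm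
  | succ m ih =>
    obtain ⟨Q, hQ, hQy⟩ := oc_bound hV ha hb hA hM hVM haA hbA (m + 1)
    have hoc := oc_meas hV ha hb (m + 1)
    have m1 : Measurable (fun x => ∫⁻ z : Fin (m + 1) → K, ‖oc V a b (m + 1) x z y‖ₑ
        ∂(Measure.pi fun _ => μ)) := by
      have : Measurable (fun p : K × (Fin (m + 1) → K) => ‖oc V a b (m + 1) p.1 p.2 y‖ₑ) :=
        (hoc.comp (measurable_fst.prodMk (measurable_snd.prodMk measurable_const))).enorm
      exact this.lintegral_prod_right'
    have h2 := ae_lt_top m1 ((hQy y).trans_lt hQ).ne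
    filter_upwards [h2] with x hx
    have hmx : Measurable (fun z : Fin (m + 1) → K => oc V a b (m + 1) x z y) :=
      hoc.comp (measurable_const.prodMk (measurable_id.prodMk measurable_const))
    rw [int_cons _ (integrable_of_lint _ hmx hx), hk]
    refine integral_congr_ae ?_
    filter_upwards [ih] with z0 hz0
    simp only [oc, Fin.cons_zero, Fin.cons_succ]
    rw [integral_const_mul, hz0]

/-- The differences are integrals of telescoped chains. -/
theorem dk_eq (hV : Measurable V) (ha : Measurable (Function.uncurry a))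
    (ha₁ : Measurable (Function.uncurry a₁)) (hb₁ : Measurable (Function.uncurry b₁))
    (hf : Measurable (Function.uncurry f)) (hf' : Measurable (Function.uncurry f'))
    {A M F : ℝ≥0∞} (hA : A < ∞) (hM : M < ∞) (hF : F < ∞)
    (hVM : ∀ x, ‖(V x : ℂ)‖ₑ ≤ M) (haA : ∀ x, ∫⁻ z, ‖a x z‖ₑ ∂μ ≤ A)
    (haA₁ : ∀ z, ∫⁻ x, ‖a₁ x z‖ₑ ∂μ ≤ A)
    (hbA₁ : ∀ y, ∫⁻ x, ‖b₁ x y‖ₑ ∂μ ≤ A) (hfF : ∀ x y, ‖f x y‖ₑ ≤ F)
    (hfF' : ∀ x y, ‖f' x y‖ₑ ≤ F) (k d : ℕ → K → K → ℂ) (h0 : ∀ x y, k 0 x y = b₁ x y)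
    (hk : ∀ m x y, k (m + 1) x y = ∫ z, a₁ x z * (V z : ℂ) * k m z y ∂μ)
    (d0 : ∀ x y, d 0 x y = f' x y)
    (hd : ∀ m x y, d (m + 1) x y = (∫ z, a x z * (V z : ℂ) * d m z y ∂μ) +
      ∫ z, f x z * (V z : ℂ) * k m z y ∂μ) (m : ℕ) :
    ∀ x y, d m x y = ∫ z : Fin m → K, dc V a a₁ b₁ f f' m x z y ∂(Measure.pi fun _ => μ) := by
  induction m with
  | zero =>
    intro x y
    rw [d0]
    exact (int_zero (fun z : Fin 0 → K => dc V a a₁ b₁ f f' 0 x z y) (f' x y)
      (fun z => rfl)).symm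
  | succ m ih =>
    intro x y
    obtain ⟨Q, hQ, hQy⟩ := oc_bound hV ha₁ hb₁ hA hM hVM haA₁ hbA₁ m
    obtain ⟨B, hB, hBy⟩ := dc_bound hV ha ha₁ hb₁ hf hf' hA hM hF hVM haA haA₁ hbA₁ hfF hfF' m
    have hoc := oc_meas hV ha₁ hb₁ m
    have hdc := dc_meas hV ha ha₁ hb₁ hf hf' m
    have z0m : Measurable (fun z : Fin (m + 1) → K => z 0) := measurable_pi_apply 0
    have ztm : Measurable (fun z : Fin (m + 1) → K => (fun i : Fin m => z i.succ)) :=
      measurable_pi_lambda _ (fun i => measurable_pi_apply i.succ)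
    have hV0 : Measurable (fun z : Fin (m + 1) → K => ((V (z 0) : ℝ) : ℂ)) :=
      Complex.measurable_ofReal.comp (hV.comp z0m)
    have p1 : Measurable (fun z : Fin (m + 1) → K =>
        a x (z 0) * (V (z 0) : ℂ) * dc V a a₁ b₁ f f' m (z 0) (fun i => z i.succ) y) := by
      refine Measurable.mul (Measurable.mul ?_ hV0) ?_
      · exact ha.comp (measurable_const.prodMk z0m)
      · exact hdc.comp (z0m.prodMk (ztm.prodMk measurable_const))
    have p2 : Measurable (fun z : Fin (m + 1) → K =>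
        f x (z 0) * (V (z 0) : ℂ) * oc V a₁ b₁ m (z 0) (fun i => z i.succ) y) := by
      refine Measurable.mul (Measurable.mul ?_ hV0) ?_
      · exact hf.comp (measurable_const.prodMk z0m)
      · exact hoc.comp (z0m.prodMk (ztm.prodMk measurable_const))
    have i1 : Integrable (fun z : Fin (m + 1) → K =>
        a x (z 0) * (V (z 0) : ℂ) * dc V a a₁ b₁ f f' m (z 0) (fun i => z i.succ) y)
        (Measure.pi fun _ => μ) := by
      refine integrable_of_lint _ p1 ?_
      rw [lint_cons _ p1.enorm]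
      calc ∫⁻ z0, ∫⁻ z : Fin m → K, ‖a x ((Fin.cons z0 z : Fin (m + 1) → K) 0) *
            (V ((Fin.cons z0 z : Fin (m + 1) → K) 0) : ℂ) *
            dc V a a₁ b₁ f f' m ((Fin.cons z0 z : Fin (m + 1) → K) 0)
              (fun i => (Fin.cons z0 z : Fin (m + 1) → K) i.succ) y‖ₑ
            ∂(Measure.pi fun _ => μ) ∂μ
          ≤ ∫⁻ z0, ‖a x z0‖ₑ * (M * B) ∂μ := by
            refine lintegral_mono fun z0 => ?_
            simp only [Fin.cons_zero, Fin.cons_succ, enorm_mul, mul_assoc]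
            have m1 : Measurable (fun z : Fin m → K => ‖dc V a a₁ b₁ f f' m z0 z y‖ₑ) :=
              (hdc.comp (measurable_const.prodMk (measurable_id.prodMk measurable_const))).enorm
            rw [lintegral_const_mul _ (m1.const_mul _), lintegral_const_mul _ m1]
            exact mul_le_mul' le_rfl (mul_le_mul' (hVM z0) (hBy z0 y))
        _ = (∫⁻ z0, ‖a x z0‖ₑ ∂μ) * (M * B) := by
            rw [lintegral_mul_const]
            exact (ha.comp (measurable_const.prodMk measurable_id)).enorm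
        _ ≤ A * (M * B) := mul_le_mul' (haA x) le_rfl
        _ < ∞ := ENNReal.mul_lt_top hA (ENNReal.mul_lt_top hM hB)
    have i2 : Integrable (fun z : Fin (m + 1) → K =>
        f x (z 0) * (V (z 0) : ℂ) * oc V a₁ b₁ m (z 0) (fun i => z i.succ) y)
        (Measure.pi fun _ => μ) := by
      refine integrable_of_lint _ p2 ?_
      rw [lint_cons _ p2.enorm]
      calc ∫⁻ z0, ∫⁻ z : Fin m → K, ‖f x ((Fin.cons z0 z : Fin (m + 1) → K) 0) *
            (V ((Fin.cons z0 z : Fin (m + 1) → K) 0) : ℂ) *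
            oc V a₁ b₁ m ((Fin.cons z0 z : Fin (m + 1) → K) 0)
              (fun i => (Fin.cons z0 z : Fin (m + 1) → K) i.succ) y‖ₑ
            ∂(Measure.pi fun _ => μ) ∂μ
          ≤ ∫⁻ z0, (F * M) * ∫⁻ z : Fin m → K, ‖oc V a₁ b₁ m z0 z y‖ₑ
            ∂(Measure.pi fun _ => μ) ∂μ := by
            refine lintegral_mono fun z0 => ?_
            simp only [Fin.cons_zero, Fin.cons_succ, enorm_mul]
            have m1 : Measurable (fun z : Fin m → K => ‖oc V a₁ b₁ m z0 z y‖ₑ) :=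
              (hoc.comp (measurable_const.prodMk (measurable_id.prodMk measurable_const))).enorm
            rw [lintegral_const_mul _ m1]
            exact mul_le_mul' (mul_le_mul' (hfF x z0) (hVM z0)) le_rfl
        _ = (F * M) * ∫⁻ z0, ∫⁻ z : Fin m → K, ‖oc V a₁ b₁ m z0 z y‖ₑ
            ∂(Measure.pi fun _ => μ) ∂μ := by
            rw [lintegral_const_mul]
            have : Measurable (fun p : K × (Fin m → K) => ‖oc V a₁ b₁ m p.1 p.2 y‖ₑ) :=
              (hoc.comp (measurable_fst.prodMk (measurable_snd.prodMk measurable_const))).enorm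
            exact this.lintegral_prod_right'
        _ ≤ (F * M) * Q := mul_le_mul' le_rfl (hQy y)
        _ < ∞ := ENNReal.mul_lt_top (ENNReal.mul_lt_top hF hM) hQ
    have hsum : ∫ z : Fin (m + 1) → K, dc V a a₁ b₁ f f' (m + 1) x z y
        ∂(Measure.pi fun _ => μ) = (∫ z : Fin (m + 1) → K,
          a x (z 0) * (V (z 0) : ℂ) * dc V a a₁ b₁ f f' m (z 0) (fun i => z i.succ) y
            ∂(Measure.pi fun _ => μ)) + ∫ z : Fin (m + 1) → K,
          f x (z 0) * (V (z 0) : ℂ) * oc V a₁ b₁ m (z 0) (fun i => z i.succ) y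
            ∂(Measure.pi fun _ => μ) := by
      rw [← integral_add i1 i2]
      rfl
    rw [hsum, hd, int_cons _ i1, int_cons _ i2]
    congr 1
    · refine integral_congr_ae (Eventually.of_forall fun z0 => ?_)
      simp only [Fin.cons_zero, Fin.cons_succ]
      rw [integral_const_mul, ih]
    · refine integral_congr_ae ?_
      filter_upwards [kk_eq hV ha₁ hb₁ hA hM hVM haA₁ hbA₁ k h0 hk y m] with z0 hz0
      simp only [Fin.cons_zero, Fin.cons_succ]
      rw [integral_const_mul, hz0]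

/-- Closing the chains. -/
theorem close_eq [IsFiniteMeasure μ] (hV : Measurable V) (ha : Measurable (Function.uncurry a))
    (ha₁ : Measurable (Function.uncurry a₁)) (hb₁ : Measurable (Function.uncurry b₁))
    (hf : Measurable (Function.uncurry f)) (hf' : Measurable (Function.uncurry f'))
    {A M F : ℝ≥0∞} (hA : A < ∞) (hM : M < ∞) (hF : F < ∞)
    (hVM : ∀ x, ‖(V x : ℂ)‖ₑ ≤ M) (haA : ∀ x, ∫⁻ z, ‖a x z‖ₑ ∂μ ≤ A)
    (haA₁ : ∀ z, ∫⁻ x, ‖a₁ x z‖ₑ ∂μ ≤ A)
    (hbA₁ : ∀ y, ∫⁻ x, ‖b₁ x y‖ₑ ∂μ ≤ A) (hfF : ∀ x y, ‖f x y‖ₑ ≤ F)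
    (hfF' : ∀ x y, ‖f' x y‖ₑ ≤ F) (d : ℕ → K → K → ℂ) (m : ℕ)
    (hd : ∀ x y, d m x y = ∫ z : Fin m → K, dc V a a₁ b₁ f f' m x z y
      ∂(Measure.pi fun _ => μ)) :
    Integrable (fun x : Fin (m + 1) → K => (V (x 0) : ℂ) *
      dc V a a₁ b₁ f f' m (x 0) (fun i => x i.succ) (x 0)) (Measure.pi fun _ => μ) ∧
    ∫ y, (V y : ℂ) * d m y y ∂μ = ∫ x : Fin (m + 1) → K, (V (x 0) : ℂ) *
      dc V a a₁ b₁ f f' m (x 0) (fun i => x i.succ) (x 0) ∂(Measure.pi fun _ => μ) := by
  obtain ⟨B, hB, hBy⟩ := dc_bound hV ha ha₁ hb₁ hf hf' hA hM hF hVM haA haA₁ hbA₁ hfF hfF' m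
  have hdc := dc_meas hV ha ha₁ hb₁ hf hf' m
  have z0m : Measurable (fun z : Fin (m + 1) → K => z 0) := measurable_pi_apply 0
  have ztm : Measurable (fun z : Fin (m + 1) → K => (fun i : Fin m => z i.succ)) :=
    measurable_pi_lambda _ (fun i => measurable_pi_apply i.succ)
  have p1 : Measurable (fun x : Fin (m + 1) → K => (V (x 0) : ℂ) *
      dc V a a₁ b₁ f f' m (x 0) (fun i => x i.succ) (x 0)) :=
    (Complex.measurable_ofReal.comp (hV.comp z0m)).mul
      (hdc.comp (z0m.prodMk (ztm.prodMk z0m)))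
  have i1 : Integrable (fun x : Fin (m + 1) → K => (V (x 0) : ℂ) *
      dc V a a₁ b₁ f f' m (x 0) (fun i => x i.succ) (x 0)) (Measure.pi fun _ => μ) := by
    refine integrable_of_lint _ p1 ?_
    rw [lint_cons _ p1.enorm]
    calc ∫⁻ z0, ∫⁻ z : Fin m → K, ‖(V ((Fin.cons z0 z : Fin (m + 1) → K) 0) : ℂ) *
          dc V a a₁ b₁ f f' m ((Fin.cons z0 z : Fin (m + 1) → K) 0)
            (fun i => (Fin.cons z0 z : Fin (m + 1) → K) i.succ)
            ((Fin.cons z0 z : Fin (m + 1) → K) 0)‖ₑ ∂(Measure.pi fun _ => μ) ∂μ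
        ≤ ∫⁻ z0, M * B ∂μ := by
          refine lintegral_mono fun z0 => ?_
          simp only [Fin.cons_zero, Fin.cons_succ, enorm_mul]
          have m1 : Measurable (fun z : Fin m → K => ‖dc V a a₁ b₁ f f' m z0 z z0‖ₑ) :=
            (hdc.comp (measurable_const.prodMk (measurable_id.prodMk measurable_const))).enorm
          rw [lintegral_const_mul _ m1]
          exact mul_le_mul' (hVM z0) (hBy z0 z0)
      _ = M * B * μ Set.univ := by rw [lintegral_const]
      _ < ∞ := ENNReal.mul_lt_top (ENNReal.mul_lt_top hM hB) (measure_lt_top _ _)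
  refine ⟨i1, ?_⟩
  rw [int_cons _ i1]
  refine integral_congr_ae (Eventually.of_forall fun z0 => ?_)
  simp only [Fin.cons_zero, Fin.cons_succ]
  rw [integral_const_mul, hd]

omit [MeasurableSpace K] in
/-- Open chains as products. -/
theorem oc_prod (m : ℕ) : ∀ (w : Fin (m + 1) → K) (y : K),
    oc V a b m (w 0) (fun i => w i.succ) y = (∏ i : Fin m, (V (w i.succ) : ℂ)) *
      ((∏ i : Fin m, a (w i.castSucc) (w i.succ)) * b (w (Fin.last m)) y) := by
  induction m with
  | zero =>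
    intro w y
    simp [oc]
  | succ m ih =>
    intro w y
    simp only [oc]
    have h := ih (fun i => w i.succ) y
    rw [h, Fin.prod_univ_succ (n := m), Fin.prod_univ_succ (n := m)]
    simp only [Fin.succ_last, Fin.castSucc_zero, Fin.succ_zero_eq_one, Fin.castSucc_succ]
    ring

omit [MeasurableSpace K] in
/-- The telescoped chains are differences of chains off the diagonals. -/
theorem dc_sub (hab : ∀ x y, x ≠ y → a x y - a₁ x y = f x y)
    (hbb : ∀ x y, x ≠ y → b x y - b₁ x y = f' x y) (m : ℕ) : ∀ (w : Fin (m + 1) → K) (y : K),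
    (∀ i : Fin m, w i.castSucc ≠ w i.succ) → w (Fin.last m) ≠ y →
    dc V a a₁ b₁ f f' m (w 0) (fun i => w i.succ) y =
      oc V a b m (w 0) (fun i => w i.succ) y - oc V a₁ b₁ m (w 0) (fun i => w i.succ) y := by
  induction m with
  | zero =>
    intro w y _ h
    simp only [dc, oc]
    exact (hbb _ _ h).symm
  | succ m ih =>
    intro w y h h'
    simp only [dc, oc]
    have h1 := ih (fun i => w i.succ) y (fun i => by
      have := h i.succ
      rwa [← Fin.succ_castSucc] at this) (by simpa using h')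
    rw [h1, ← hab (w 0) (w (Fin.succ 0)) (by simpa using h 0)]
    ring

/-- Two coordinates are almost surely different. -/
theorem ae_ne [NullSingletonClass μ] [MeasurableSingletonClass K] (hdiag :
    MeasurableSet {p : K × K | p.1 = p.2}) {n : ℕ} (i j : Fin (n + 1)) (hij : i ≠ j) :
    ∀ᵐ x ∂(Measure.pi fun _ : Fin (n + 1) => μ), x i ≠ x j := by
  obtain ⟨k, rfl⟩ := Fin.exists_succAbove_eq (x := j) (y := i) hij.symm
  have h := measurePreserving_piFinSuccAbove (fun _ : Fin (n + 1) => μ) i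
  have hs0 : Measurable (fun p : K × (Fin n → K) => (p.1, p.2 k)) :=
    measurable_fst.prodMk ((measurable_pi_apply k).comp measurable_snd)
  have hs : MeasurableSet {p : K × (Fin n → K) | p.1 = p.2 k} := hs0 hdiag
  have h0 : (μ.prod (Measure.pi fun _ : Fin n => μ)) {p | p.1 = p.2 k} = 0 := by
    rw [Measure.prod_apply_symm hs]
    refine (lintegral_congr fun z => ?_).trans lintegral_zero
    have : (fun x => (x, z)) ⁻¹' {p : K × (Fin n → K) | p.1 = p.2 k} = {z k} := by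
      ext x
      simp
    rw [this, measure_singleton]
  rw [ae_iff]
  have h2 : {x : Fin (n + 1) → K | ¬ x i ≠ x (i.succAbove k)} =
      (MeasurableEquiv.piFinSuccAbove (fun _ : Fin (n + 1) => K) i) ⁻¹' {p | p.1 = p.2 k} := by
    ext x
    simp [MeasurableEquiv.piFinSuccAbove, Fin.insertNthEquiv, Fin.removeNth]
  rw [h2, h.measure_preimage hs.nullMeasurableSet]
  exact h0

end Abstract

section Concrete

variable {K : Type} [MetricSpace K] [CompactSpace K] [MeasurableSpace K] [BorelSpace K]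

/-- The kernel `g(x,y) / |x-y|^n`. -/
noncomputable def qk (n : ℕ) (g : C(K × K, ℂ)) (x y : K) : ℂ :=
  g (x, y) * ((((dist x y) ^ n)⁻¹ : ℝ) : ℂ)

theorem qk_meas (n : ℕ) (g : C(K × K, ℂ)) : Measurable (Function.uncurry (qk n g)) := by
  have h1 : Measurable (fun p : K × K => g p) := g.continuous.measurable
  have h2 : Measurable (fun p : K × K => dist p.1 p.2) := continuous_dist.measurable
  exact h1.mul (Complex.measurable_ofReal.comp ((h2.pow_const n).inv))

theorem qk_le (n : ℕ) (g : C(K × K, ℂ)) (x y : K) :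
    ‖qk n g x y‖ₑ ≤ ENNReal.ofReal (‖g‖ * ((dist x y) ^ n)⁻¹) := by
  rw [← ofReal_norm]
  apply ENNReal.ofReal_le_ofReal
  rw [qk, norm_mul, Complex.norm_real, Real.norm_of_nonneg (by positivity)]
  exact mul_le_mul_of_nonneg_right (g.norm_coe_le_norm _) (by positivity)

theorem qk_int {μ : Measure K} {C₁ : ℝ} {n : ℕ}
    (hint : ∀ x, Integrable (fun y => ((dist x y) ^ n)⁻¹) μ ∧
        ∫ y, ((dist x y) ^ n)⁻¹ ∂μ ≤ C₁) (g : C(K × K, ℂ)) :
    (∀ x, ∫⁻ y, ‖qk n g x y‖ₑ ∂μ ≤ ENNReal.ofReal (‖g‖ * C₁)) ∧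
    (∀ y, ∫⁻ x, ‖qk n g x y‖ₑ ∂μ ≤ ENNReal.ofReal (‖g‖ * C₁)) := by
  have key : ∀ x, ∫⁻ y, ENNReal.ofReal (‖g‖ * ((dist x y) ^ n)⁻¹) ∂μ ≤
      ENNReal.ofReal (‖g‖ * C₁) := by
    intro x
    rw [← ofReal_integral_eq_lintegral_ofReal ((hint x).1.const_mul _)
      (Eventually.of_forall fun y => by positivity)]
    apply ENNReal.ofReal_le_ofReal
    rw [integral_const_mul]
    exact mul_le_mul_of_nonneg_left (hint x).2 (norm_nonneg _)
  refine ⟨fun x => (lintegral_mono fun y => qk_le n g x y).trans (key x), fun y => ?_⟩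
  refine (lintegral_mono fun x => qk_le n g x y).trans ?_
  simp only [dist_comm _ y]
  exact key y

end Concrete

end ChainRepAux

open ChainRepAux in
/-- Q13, from the growth of the measure alone. -/
theorem chainRep_of_riesz (h7 : RieszQ) : ChainRep := by
  intro q hq K _ _ _ _ μ C hS V hV M hM h l h₁ l₁ f f' hf hf' m hm
  haveI := hS.fin
  haveI := hS.noat
  obtain ⟨C₁, hC₁, hint, -⟩ := h7 q hq K μ C hS
  have ha := qk_int (fun x => hint x (2 * q + 1) (by omega)) h
  have ha₁ := qk_int (fun x => hint x (2 * q + 1) (by omega)) h₁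
  have hb₁ := qk_int (fun x => hint x (2 * q - 1) (by omega)) l₁
  set N : ℝ := ‖h‖ + ‖h₁‖ + ‖l₁‖ with hN
  have n1 := norm_nonneg h
  have n2 := norm_nonneg h₁
  have n3 := norm_nonneg l₁
  have e1 : ENNReal.ofReal (‖h‖ * C₁) ≤ ENNReal.ofReal (N * C₁) :=
    ENNReal.ofReal_le_ofReal (mul_le_mul_of_nonneg_right (by linarith) hC₁.le)
  have e2 : ENNReal.ofReal (‖h₁‖ * C₁) ≤ ENNReal.ofReal (N * C₁) :=
    ENNReal.ofReal_le_ofReal (mul_le_mul_of_nonneg_right (by linarith) hC₁.le)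
  have e3 : ENNReal.ofReal (‖l₁‖ * C₁) ≤ ENNReal.ofReal (N * C₁) :=
    ENNReal.ofReal_le_ofReal (mul_le_mul_of_nonneg_right (by linarith) hC₁.le)
  have hA : ENNReal.ofReal (N * C₁) < ∞ := ENNReal.ofReal_lt_top
  have hMt : ENNReal.ofReal M < ∞ := ENNReal.ofReal_lt_top
  have hF : ENNReal.ofReal (‖f‖ + ‖f'‖) < ∞ := ENNReal.ofReal_lt_top
  have hVM : ∀ x, ‖(V x : ℂ)‖ₑ ≤ ENNReal.ofReal M := by
    intro x
    rw [← ofReal_norm]
    apply ENNReal.ofReal_le_ofReal
    rw [Complex.norm_real]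
    exact hM x
  have hfF : ∀ x y, ‖f (x, y)‖ₑ ≤ ENNReal.ofReal (‖f‖ + ‖f'‖) := by
    intro x y
    rw [← ofReal_norm]
    apply ENNReal.ofReal_le_ofReal
    linarith [f.norm_coe_le_norm (x, y), norm_nonneg f']
  have hfF' : ∀ x y, ‖f' (x, y)‖ₑ ≤ ENNReal.ofReal (‖f‖ + ‖f'‖) := by
    intro x y
    rw [← ofReal_norm]
    apply ENNReal.ofReal_le_ofReal
    linarith [f'.norm_coe_le_norm (x, y), norm_nonneg f]
  have hfm : Measurable (Function.uncurry (fun x y => f (x, y))) := f.continuous.measurable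
  have hfm' : Measurable (Function.uncurry (fun x y => f' (x, y))) := f'.continuous.measurable
  have hdk := dk_eq (μ := μ) hV (qk_meas (2 * q + 1) h) (qk_meas (2 * q + 1) h₁)
    (qk_meas (2 * q - 1) l₁) hfm hfm' hA hMt hF hVM (fun x => (ha.1 x).trans e1)
    (fun y => (ha₁.2 y).trans e2) (fun y => (hb₁.2 y).trans e3) hfF hfF'
    (fun m x y => KK q μ V h₁ l₁ m x y)
    (fun m x y => DK q μ V h h₁ l₁ (fun x y => f (x, y)) (fun x y => f' (x, y)) m x y)
    (fun x y => rfl) (fun m x y => rfl) (fun x y => rfl) (fun m x y => rfl) m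
  obtain ⟨i1, i2⟩ := close_eq (μ := μ) hV (qk_meas (2 * q + 1) h) (qk_meas (2 * q + 1) h₁)
    (qk_meas (2 * q - 1) l₁) hfm hfm' hA hMt hF hVM (fun x => (ha.1 x).trans e1)
    (fun y => (ha₁.2 y).trans e2) (fun y => (hb₁.2 y).trans e3) hfF hfF'
    (fun m x y => DK q μ V h h₁ l₁ (fun x y => f (x, y)) (fun x y => f' (x, y)) m x y) m hdk
  have hdiag : MeasurableSet {p : K × K | p.1 = p.2} :=
    (isClosed_eq continuous_fst continuous_snd).measurableSet
  have hm1 : 1 ≤ m := (Finset.mem_Icc.1 hm).1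
  have hae : ∀ᵐ x ∂(Measure.pi fun _ : Fin (m + 1) => μ), (V (x 0) : ℂ) *
      dc V (qk (2 * q + 1) h) (qk (2 * q + 1) h₁) (qk (2 * q - 1) l₁)
        (fun x y => f (x, y)) (fun x y => f' (x, y)) m (x 0) (fun i => x i.succ) (x 0) =
      (∏ i, (V (x i) : ℂ)) * (JC q m h l x - JC q m h₁ l₁ x) := by
    have g1 := ae_all_iff.2 (fun i : Fin m =>
      ae_ne (μ := μ) hdiag (n := m) i.castSucc i.succ (Fin.castSucc_lt_succ).ne)
    have g2 := ae_ne (μ := μ) hdiag (n := m) (Fin.last m) 0 (by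
      intro hh
      have := congrArg Fin.val hh
      simp at this
      omega)
    filter_upwards [g1, g2] with x hx1 hx2
    have hab : ∀ n : ℕ, ∀ (g g₁ F : C(K × K, ℂ)),
        (∀ x y, g (x, y) - g₁ (x, y) = ((dist x y : ℝ) : ℂ) ^ n * F (x, y)) →
        ∀ x y, x ≠ y → qk n g x y - qk n g₁ x y = F (x, y) := by
      intro n g g₁ F hg x y hxy
      have hd : ((dist x y : ℝ) : ℂ) ≠ 0 := by
        simpa using hxy
      simp only [qk]
      rw [← sub_mul, hg, Complex.ofReal_inv, Complex.ofReal_pow]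
      field_simp
    rw [dc_sub (b := qk (2 * q - 1) l) (hab _ _ _ _ hf) (hab _ _ _ _ hf') m x (x 0) hx1 hx2,
      oc_prod, oc_prod, Fin.prod_univ_succ]
    simp only [JC, qk]
    ring
  refine ⟨i1.congr hae, ?_⟩
  rw [← integral_congr_ae hae]
  exact i2

/-- Q13: the diagonal terms as integrals over closed chains. -/
theorem chainRep (h7 : RieszQ) (_h8 : KKFacts) (_h9 : DKFacts) (_h12 : ChainCut) : ChainRep :=
  chainRep_of_riesz h7

end Pool.Agent.Work.MP_f2af60_mp

end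

section

set_option autoImplicit false

/-!
# MP_f2af60_mp Q37: the enveloping Taylor polynomials of the cosine
-/

namespace Pool.Agent.Work.MP_f2af60_mp

open MeasureTheory

namespace GCos

/-- The Taylor polynomials of the cosine. -/
noncomputable def tc (j : ℕ) (s : ℝ) : ℝ :=
  ∑ i ∈ Finset.range (j + 1), (-1) ^ i * s ^ (2 * i) / ((2 * i).factorial : ℝ)

/-- The Taylor polynomials of the sine. -/
noncomputable def ts (j : ℕ) (s : ℝ) : ℝ :=
  ∑ i ∈ Finset.range (j + 1), (-1) ^ i * s ^ (2 * i + 1) / ((2 * i + 1).factorial : ℝ)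

theorem hasDerivAt_term (n : ℕ) (c s : ℝ) :
    HasDerivAt (fun x : ℝ => c * x ^ (n + 1) / ((n + 1).factorial : ℝ))
      (c * s ^ n / (n.factorial : ℝ)) s := by
  have h1 : HasDerivAt (fun x : ℝ => x ^ (n + 1)) (((n + 1 : ℕ) : ℝ) * s ^ n) s := by
    simpa using hasDerivAt_pow (n + 1) s
  have h2 := (h1.const_mul c).div_const ((n + 1).factorial : ℝ)
  refine h2.congr_deriv ?_
  have h3 : (n.factorial : ℝ) ≠ 0 := by positivity
  have h4 : ((n : ℝ) + 1) ≠ 0 := by positivity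
  rw [Nat.factorial_succ]
  push_cast
  field_simp

theorem hasDerivAt_ts (j : ℕ) (s : ℝ) : HasDerivAt (ts j) (tc j s) s := by
  unfold ts tc
  exact HasDerivAt.fun_sum (fun i _ => hasDerivAt_term (2 * i) ((-1) ^ i) s)

theorem hasDerivAt_tc (j : ℕ) (s : ℝ) : HasDerivAt (tc (j + 1)) (- ts j s) s := by
  have h1 : tc (j + 1) = fun x : ℝ => (∑ i ∈ Finset.range (j + 1),
      (-1) ^ (i + 1) * x ^ (2 * i + 1 + 1) / ((2 * i + 1 + 1).factorial : ℝ)) + 1 := by
    funext x
    unfold tc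
    rw [Finset.sum_range_succ' _ (j + 1)]
    congr 1
    simp
  rw [h1]
  have h2 : HasDerivAt (fun x : ℝ => ∑ i ∈ Finset.range (j + 1),
      (-1) ^ (i + 1) * x ^ (2 * i + 1 + 1) / ((2 * i + 1 + 1).factorial : ℝ))
      (∑ i ∈ Finset.range (j + 1), (-1) ^ (i + 1) * s ^ (2 * i + 1) /
        ((2 * i + 1).factorial : ℝ)) s :=
    HasDerivAt.fun_sum (fun i _ => hasDerivAt_term (2 * i + 1) ((-1) ^ (i + 1)) s)
  refine (h2.add_const 1).congr_deriv ?_
  unfold ts
  rw [← Finset.sum_neg_distrib]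
  refine Finset.sum_congr rfl (fun i _ => ?_)
  ring

theorem nonneg_of_deriv {f f' : ℝ → ℝ} (hf : ∀ s, HasDerivAt f (f' s) s) (h0 : f 0 = 0)
    (h : ∀ s, 0 ≤ s → 0 ≤ f' s) (s : ℝ) (hs : 0 ≤ s) : 0 ≤ f s := by
  have hm : MonotoneOn f (Set.Ici 0) := by
    refine monotoneOn_of_deriv_nonneg (convex_Ici 0)
      (fun x _ => (hf x).continuousAt.continuousWithinAt)
      (fun x _ => (hf x).differentiableAt.differentiableWithinAt) (fun x hx => ?_)
    rw [interior_Ici, Set.mem_Ioi] at hx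
    rw [(hf x).deriv]
    exact h x hx.le
  rw [← h0]
  exact hm (Set.mem_Ici.2 le_rfl) (Set.mem_Ici.2 hs) hs

theorem tc_zero (j : ℕ) : tc j 0 = 1 := by
  unfold tc
  rw [Finset.sum_range_succ' _ j]
  simp

theorem ts_zero (j : ℕ) : ts j 0 = 0 := by
  unfold ts
  simp

theorem cos_env (j : ℕ) : ∀ s : ℝ, 0 ≤ s → 0 ≤ (-1) ^ (j + 1) * (Real.cos s - tc j s) := by
  induction j with
  | zero =>
    intro s _
    unfold tc
    simp
    linarith [Real.cos_le_one s]
  | succ j ih =>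
    have hsin : ∀ s : ℝ, 0 ≤ s → 0 ≤ (-1) ^ (j + 1) * (Real.sin s - ts j s) := by
      refine nonneg_of_deriv (f' := fun s => (-1) ^ (j + 1) * (Real.cos s - tc j s))
        (fun s => ?_) ?_ ih
      · exact ((Real.hasDerivAt_sin s).sub (hasDerivAt_ts j s)).const_mul _
      · rw [Real.sin_zero, ts_zero, sub_zero, mul_zero]
    refine nonneg_of_deriv (f' := fun s => (-1) ^ (j + 1 + 1) * (- Real.sin s - (- ts j s)))
      (fun s => ?_) ?_ (fun s hs => ?_)
    · exact ((Real.hasDerivAt_cos s).sub (hasDerivAt_tc j s)).const_mul _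
    · rw [Real.cos_zero, tc_zero, sub_self, mul_zero]
    · have h := hsin s hs
      calc (0 : ℝ) ≤ (-1) ^ (j + 1) * (Real.sin s - ts j s) := h
        _ = _ := by
          rw [pow_succ (-1 : ℝ) (j + 1)]
          ring

theorem cos_env' (j : ℕ) (s : ℝ) : 0 ≤ (-1) ^ (j + 1) * (Real.cos s - tc j s) := by
  have h := cos_env j |s| (abs_nonneg s)
  have h1 : tc j |s| = tc j s := by
    unfold tc
    refine Finset.sum_congr rfl (fun i _ => ?_)
    rw [pow_mul, sq_abs, ← pow_mul]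
  rwa [Real.cos_abs, h1] at h

end GCos

open GCos

theorem cosEnv : CosEnv := by
  intro j s
  refine ⟨cos_env' j s, ?_⟩
  have h := cos_env' (j + 1) s
  have h1 : tc (j + 1) s = tc j s + (-1) ^ (j + 1) * s ^ (2 * j + 2) /
      ((2 * j + 2).factorial : ℝ) := by
    unfold tc
    rw [Finset.sum_range_succ _ (j + 1)]
    rfl
  rw [h1] at h
  show (-1) ^ (j + 1) * (Real.cos s - tc j s) ≤ _
  have h2 : ((-1 : ℝ) ^ (j + 1)) * (-1) ^ (j + 1) = 1 := by
    rw [← mul_pow]
    norm_num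
  have h3 : (-1 : ℝ) ^ (j + 1 + 1) * (Real.cos s - (tc j s + (-1) ^ (j + 1) * s ^ (2 * j + 2) /
      ((2 * j + 2).factorial : ℝ))) = - ((-1) ^ (j + 1) * (Real.cos s - tc j s)) +
        ((-1 : ℝ) ^ (j + 1) * (-1) ^ (j + 1)) * (s ^ (2 * j + 2) /
          ((2 * j + 2).factorial : ℝ)) := by
    rw [pow_succ (-1 : ℝ) (j + 1)]
    ring
  rw [h3, h2] at h
  linarith

end Pool.Agent.Work.MP_f2af60_mp

end

section

/-!
# MP_f2af60_mp, Q9: the differences of the iterated kernels are continuous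
-/

namespace Pool.Agent.Work.MP_f2af60_mp

open MeasureTheory Metric Filter Topology

section DKSec

variable {K : Type*} [MetricSpace K] [MeasurableSpace K] [BorelSpace K] {μ : Measure K}

/-- Continuity of a parameter integral with a moving weak singularity. -/
lemma GDK_cont {q b : ℕ} {C₁ : ℝ} (hC : 0 < C₁) [IsFiniteMeasure μ]
    (hb : b ≤ 2 * q + 2) (hna : ∀ x : K, μ {x} = 0)
    (hint : ∀ x, Integrable (fun y => ((dist x y) ^ b)⁻¹) μ)
    (hsm : ∀ x, ∀ e > 0, ∫ y in ball x e, ((dist x y) ^ b)⁻¹ ∂μ ≤ C₁ * e ^ (2 * q + 3 - b))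
    {P : Type*} [TopologicalSpace P] [FirstCountableTopology P] (s : P → K) (hs : Continuous s)
    (G : P → K → ℂ) (A : ℝ) (hA : 0 ≤ A) (hmeas : ∀ p, AEStronglyMeasurable (G p) μ)
    (hbd : ∀ p z, z ≠ s p → ‖G p z‖ ≤ A * ((dist (s p) z) ^ b)⁻¹)
    (hcont : ∀ p0 z, z ≠ s p0 → ContinuousAt (fun p => G p z) p0) :
    Continuous (fun p => ∫ z, G p z ∂μ) := by
  have hne : ∀ x : K, ∀ᵐ z ∂μ, z ≠ x := by
    intro x
    rw [ae_iff]
    simpa using hna x
  have hbd' : ∀ p, ∀ᵐ z ∂μ, ‖G p z‖ ≤ A * ((dist (s p) z) ^ b)⁻¹ := by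
    intro p
    filter_upwards [hne (s p)] with z hz using hbd p z hz
  have hGint : ∀ p, Integrable (G p) μ := fun p =>
    ((hint (s p)).const_mul A).mono' (hmeas p) (hbd' p)
  rw [continuous_iff_continuousAt]
  intro p0
  unfold ContinuousAt
  rw [Metric.tendsto_nhds]
  intro ε hε
  obtain ⟨e, he, he1, he2⟩ : ∃ e : ℝ, 0 < e ∧ 3 * e ≤ 1 ∧ A * C₁ * (3 * e) < ε / 3 := by
    refine ⟨min (1 / 3) (ε / (9 * (A * C₁ + 1)) / 2), ?_, ?_, ?_⟩
    · have : 0 < A * C₁ + 1 := by positivity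
      positivity
    · have := min_le_left (1 / 3) (ε / (9 * (A * C₁ + 1)) / 2)
      linarith
    · have h1 := min_le_right (1 / 3) (ε / (9 * (A * C₁ + 1)) / 2)
      have h0 : 0 < A * C₁ + 1 := by positivity
      have hAC : 0 ≤ A * C₁ := by positivity
      calc A * C₁ * (3 * min (1 / 3) (ε / (9 * (A * C₁ + 1)) / 2))
          ≤ (A * C₁ + 1) * (3 * (ε / (9 * (A * C₁ + 1)) / 2)) := by
            gcongr
            · linarith
        _ = ε / 6 := by field_simp; ring
        _ < ε / 3 := by linarith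
  -- the small part
  have hsmall : ∀ p, dist (s p) (s p0) < e →
      ‖∫ z in ball (s p0) (2 * e), G p z ∂μ‖ ≤ A * C₁ * (3 * e) := by
    intro p hp
    have hsub : ball (s p0) (2 * e) ⊆ ball (s p) (3 * e) := by
      intro z hz
      rw [mem_ball] at hz ⊢
      have := dist_triangle z (s p0) (s p)
      rw [dist_comm (s p0) (s p)] at this
      linarith
    calc ‖∫ z in ball (s p0) (2 * e), G p z ∂μ‖
        ≤ ∫ z in ball (s p0) (2 * e), A * ((dist (s p) z) ^ b)⁻¹ ∂μ :=
          norm_integral_le_of_norm_le ((hint (s p)).const_mul A).integrableOn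
            (ae_restrict_of_ae (hbd' p))
      _ ≤ ∫ z in ball (s p) (3 * e), A * ((dist (s p) z) ^ b)⁻¹ ∂μ :=
          setIntegral_mono_set ((hint (s p)).const_mul A).integrableOn
            (ae_of_all _ fun z => by positivity) hsub.eventuallyLE
      _ = A * ∫ z in ball (s p) (3 * e), ((dist (s p) z) ^ b)⁻¹ ∂μ := by
          rw [integral_const_mul]
      _ ≤ A * (C₁ * (3 * e) ^ (2 * q + 3 - b)) :=
          mul_le_mul_of_nonneg_left (hsm (s p) (3 * e) (by positivity)) hA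
      _ ≤ A * (C₁ * (3 * e)) := by
          have h1 : (3 * e) ^ (2 * q + 3 - b) ≤ (3 * e) ^ 1 :=
            pow_le_pow_of_le_one (by positivity) he1 (by omega)
          rw [pow_one] at h1
          gcongr
      _ = A * C₁ * (3 * e) := by ring
  -- the regular part
  have hreg : Tendsto (fun p => ∫ z in (ball (s p0) (2 * e))ᶜ, G p z ∂μ) (𝓝 p0)
      (𝓝 (∫ z in (ball (s p0) (2 * e))ᶜ, G p0 z ∂μ)) := by
    have hev : ∀ᶠ p in 𝓝 p0, dist (s p) (s p0) < e :=
      (hs.tendsto p0).eventually (ball_mem_nhds _ he)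
    refine tendsto_integral_filter_of_dominated_convergence (fun _ => A * (e ^ b)⁻¹) ?_ ?_ ?_ ?_
    · exact Filter.Eventually.of_forall fun p => (hmeas p).restrict
    · filter_upwards [hev] with p hp
      rw [ae_restrict_iff' measurableSet_ball.compl]
      filter_upwards [hbd' p] with z hz hzc
      refine hz.trans ?_
      have hzc' : 2 * e ≤ dist z (s p0) := by
        have : z ∉ ball (s p0) (2 * e) := hzc
        rw [mem_ball, not_lt] at this
        exact this
      have h2 : e ≤ dist (s p) z := by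
        have h3 := dist_triangle z (s p) (s p0)
        rw [dist_comm z (s p)] at h3
        linarith
      gcongr
    · exact integrable_const _
    · refine ae_restrict_of_ae ?_
      filter_upwards [hne (s p0)] with z hz
      exact hcont p0 z hz
  have hreg2 := (Metric.tendsto_nhds.1 hreg) (ε / 3) (by positivity)
  have hev : ∀ᶠ p in 𝓝 p0, dist (s p) (s p0) < e :=
    (hs.tendsto p0).eventually (ball_mem_nhds _ he)
  filter_upwards [hreg2, hev] with p h1 h2
  rw [dist_eq_norm] at h1 ⊢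
  rw [← integral_add_compl (measurableSet_ball (x := s p0) (ε := 2 * e)) (hGint p),
    ← integral_add_compl (measurableSet_ball (x := s p0) (ε := 2 * e)) (hGint p0)]
  have h3 := hsmall p h2
  have h4 := hsmall p0 (by rw [dist_self]; exact he)
  set a := ∫ z in ball (s p0) (2 * e), G p z ∂μ
  set a0 := ∫ z in ball (s p0) (2 * e), G p0 z ∂μ
  set c := ∫ z in (ball (s p0) (2 * e))ᶜ, G p z ∂μ
  set c0 := ∫ z in (ball (s p0) (2 * e))ᶜ, G p0 z ∂μ
  calc ‖a + c - (a0 + c0)‖ = ‖(a - a0) + (c - c0)‖ := by congr 1; ring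
    _ ≤ ‖a - a0‖ + ‖c - c0‖ := norm_add_le _ _
    _ ≤ (‖a‖ + ‖a0‖) + ‖c - c0‖ := by gcongr; exact norm_sub_le _ _
    _ < ε := by linarith

end DKSec

/-- Q9 -/
theorem dkFacts (h7 : RieszQ) (h8 : KKFacts) : DKFacts := by
  intro q hq K _ _ _ _ μ C hS V hV M hM h l h₁ l₁ f f' hh hl
  have := hS.fin
  have := hS.noat
  obtain ⟨C₁, hC₁, hR1, hR2, -, -, -⟩ := h7 q hq K μ C hS
  obtain ⟨C₂, hC₂, hKK⟩ := h8 q hq K μ C hS V hV M hM
  obtain ⟨hk1, hk2, hk3, hk4, hk5, hk6⟩ := hKK h l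
  obtain ⟨hj1, hj2, hj3, hj4, hj5, hj6⟩ := hKK h₁ l₁
  have hna : ∀ x : K, μ {x} = 0 := fun x => measure_singleton x
  have hne : ∀ x : K, ∀ᵐ z ∂μ, z ≠ x := by
    intro x
    rw [ae_iff]
    simpa using hna x
  by_cases hK : Nonempty K
  swap
  · rw [not_nonempty_iff] at hK
    refine ⟨fun _ => 0, fun _ => 0, ?_, ?_, ?_⟩
    · intro m _ x; exact (hK.false x).elim
    · intro m _ x; exact (hK.false x).elim
    · intro x; exact (hK.false x).elim
  obtain ⟨x₀⟩ := hK
  have hM0 : 0 ≤ M := (abs_nonneg _).trans (hM x₀)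
  -- bound and measurability for `f V KK`
  have hFmeas : ∀ m, ∀ p : K × K, AEStronglyMeasurable
      (fun z => f (p.1, z) * (V z : ℂ) * KK q μ V h₁ l₁ m z p.2) μ := by
    intro m p
    have e1 : Measurable fun z => f (p.1, z) := (f.continuous.comp (by fun_prop)).measurable
    have e2 : Measurable fun z => KK q μ V h₁ l₁ m z p.2 :=
      (hj1 m).comp (measurable_id.prodMk measurable_const)
    have e3 : Measurable fun z => (V z : ℂ) := by fun_prop
    exact ((e1.mul e3).mul e2).aestronglyMeasurable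
  have hFbd : ∀ m < q, ∀ (p : K × K) z, z ≠ p.2 →
      ‖f (p.1, z) * (V z : ℂ) * KK q μ V h₁ l₁ m z p.2‖ ≤
        (‖f‖ * M * (C₂ * ‖h₁‖ ^ m * ‖l₁‖)) * ((dist p.2 z) ^ (2 * q - 1 - 2 * m))⁻¹ := by
    intro m hm p z hz
    rw [norm_mul, norm_mul, Complex.norm_real, Real.norm_eq_abs]
    have e1 := f.norm_coe_le_norm (p.1, z)
    have e2 := hM z
    have e3 := hj2 m hm z p.2 hz
    rw [dist_comm z p.2] at e3
    calc ‖f (p.1, z)‖ * |V z| * ‖KK q μ V h₁ l₁ m z p.2‖
        ≤ ‖f‖ * M * (C₂ * ‖h₁‖ ^ m * ‖l₁‖ * ((dist p.2 z) ^ (2 * q - 1 - 2 * m))⁻¹) := by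
          gcongr
      _ = _ := by ring
  have hFcont : ∀ m < q, Continuous fun p : K × K =>
      ∫ z, f (p.1, z) * (V z : ℂ) * KK q μ V h₁ l₁ m z p.2 ∂μ := by
    intro m hm
    refine GDK_cont (q := q) (b := 2 * q - 1 - 2 * m) hC₁ (by omega) hna
      (fun x => (hR1 x _ (by omega)).1) (fun x e he => hR2 x e he _ (by omega))
      (fun p : K × K => p.2) continuous_snd _ _ (by positivity) (hFmeas m) (hFbd m hm) ?_
    intro p0 z hz
    have e1 : ContinuousAt (fun p : K × K => f (p.1, z)) p0 :=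
      (f.continuous.comp (by fun_prop : Continuous fun p : K × K => (p.1, z))).continuousAt
    have e2 : ContinuousAt (fun p : K × K => KK q μ V h₁ l₁ m z p.2) p0 := by
      have hopen : IsOpen {p : K × K | p.1 ≠ p.2} := isOpen_ne_fun continuous_fst continuous_snd
      have e3 : ContinuousAt (Function.uncurry (KK q μ V h₁ l₁ m)) (z, p0.2) :=
        (hj3 m hm).continuousAt (hopen.mem_nhds hz)
      exact ContinuousAt.comp (f := fun p : K × K => (z, p.2)) e3 (by fun_prop)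
    exact (e1.mul continuousAt_const).mul e2
  -- bound and measurability for `h |x-y|^-(2q+1) V D`
  have hHmeas : ∀ (D : C(K × K, ℂ)) (p : K × K), AEStronglyMeasurable
      (fun z => h (p.1, z) * ((((dist p.1 z) ^ (2 * q + 1))⁻¹ : ℝ) : ℂ) * (V z : ℂ) *
        D (z, p.2)) μ := by
    intro D p
    have e1 : Measurable fun z => h (p.1, z) := (h.continuous.comp (by fun_prop)).measurable
    have e2 : Measurable fun z => D (z, p.2) := (D.continuous.comp (by fun_prop)).measurable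
    have e3 : Measurable fun z => (V z : ℂ) := by fun_prop
    have e4 : Measurable fun z => ((((dist p.1 z) ^ (2 * q + 1))⁻¹ : ℝ) : ℂ) := by fun_prop
    exact (((e1.mul e4).mul e3).mul e2).aestronglyMeasurable
  have hHbd : ∀ (D : C(K × K, ℂ)) (p : K × K) z,
      ‖h (p.1, z) * ((((dist p.1 z) ^ (2 * q + 1))⁻¹ : ℝ) : ℂ) * (V z : ℂ) * D (z, p.2)‖ ≤
        (‖h‖ * M * ‖D‖) * ((dist p.1 z) ^ (2 * q + 1))⁻¹ := by
    intro D p z
    rw [norm_mul, norm_mul, norm_mul, Complex.norm_real, Complex.norm_real, Real.norm_eq_abs,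
      Real.norm_eq_abs, abs_of_nonneg (by positivity : (0 : ℝ) ≤ ((dist p.1 z) ^ (2 * q + 1))⁻¹)]
    have e1 := h.norm_coe_le_norm (p.1, z)
    have e2 := hM z
    have e3 := D.norm_coe_le_norm (z, p.2)
    calc ‖h (p.1, z)‖ * ((dist p.1 z) ^ (2 * q + 1))⁻¹ * |V z| * ‖D (z, p.2)‖
        ≤ ‖h‖ * ((dist p.1 z) ^ (2 * q + 1))⁻¹ * M * ‖D‖ := by gcongr
      _ = _ := by ring
  have hHcont : ∀ D : C(K × K, ℂ), Continuous fun p : K × K =>
      ∫ z, h (p.1, z) * ((((dist p.1 z) ^ (2 * q + 1))⁻¹ : ℝ) : ℂ) * (V z : ℂ) *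
        D (z, p.2) ∂μ := by
    intro D
    refine GDK_cont (q := q) (b := 2 * q + 1) hC₁ (by omega) hna
      (fun x => (hR1 x _ (by omega)).1) (fun x e he => hR2 x e he _ (by omega))
      (fun p : K × K => p.1) continuous_fst _ _ (by positivity) (hHmeas D)
      (fun p z _ => hHbd D p z) ?_
    intro p0 z hz
    have e1 : ContinuousAt (fun p : K × K => h (p.1, z)) p0 :=
      (h.continuous.comp (by fun_prop : Continuous fun p : K × K => (p.1, z))).continuousAt
    have e2 : ContinuousAt (fun p : K × K => D (z, p.2)) p0 :=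
      (D.continuous.comp (by fun_prop : Continuous fun p : K × K => (z, p.2))).continuousAt
    have e3 : ContinuousAt (fun p : K × K => ((((dist p.1 z) ^ (2 * q + 1))⁻¹ : ℝ) : ℂ)) p0 := by
      have e4 : ContinuousAt (fun p : K × K => ((dist p.1 z) ^ (2 * q + 1))⁻¹) p0 := by
        refine ContinuousAt.inv₀ (by fun_prop) ?_
        have : dist p0.1 z ≠ 0 := dist_ne_zero.2 (Ne.symm hz)
        exact pow_ne_zero _ this
      exact Complex.continuous_ofReal.continuousAt.comp e4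
    exact (((e1.mul e3).mul continuousAt_const).mul e2)
  -- the differences
  have hD : ∀ m ≤ q, ∃ D : C(K × K, ℂ), ∀ x y, D (x, y) =
      DK q μ V h h₁ l₁ (fun x y => f (x, y)) (fun x y => f' (x, y)) m x y := by
    intro m
    induction m with
    | zero => intro _; exact ⟨f', fun x y => rfl⟩
    | succ m ih =>
      intro hm
      obtain ⟨D, hD⟩ := ih (by omega)
      refine ⟨⟨_, (hHcont D).add (hFcont m (by omega))⟩, fun x y => ?_⟩
      simp only [ContinuousMap.coe_mk, Pi.add_apply, DK, hD]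
  have hId : ∀ m ≤ q, ∀ x y, (x ≠ y ∨ m = q) →
      DK q μ V h h₁ l₁ (fun x y => f (x, y)) (fun x y => f' (x, y)) m x y =
        KK q μ V h l m x y - KK q μ V h₁ l₁ m x y := by
    intro m
    induction m with
    | zero =>
      intro _ x y hxy
      have hxy' : x ≠ y := by
        rcases hxy with h | h
        · exact h
        · omega
      have hd : dist x y ≠ 0 := dist_ne_zero.2 hxy'
      have hd' : ((dist x y : ℝ) : ℂ) ^ (2 * q - 1) ≠ 0 :=
        pow_ne_zero _ (by exact_mod_cast hd)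
      simp only [DK, KK]
      rw [← sub_mul, hl x y]
      push_cast
      field_simp
    | succ m ih =>
      intro hm x y hxy
      have hmq : m < q := by omega
      obtain ⟨D, hDm⟩ := hD m hmq.le
      have hxy' : x ≠ y ∨ m + 1 = q := hxy
      have i1 := hk6 m hmq x y hxy'
      have i2 := hj6 m hmq x y hxy'
      have i3 : Integrable (fun z => h (x, z) * ((((dist x z) ^ (2 * q + 1))⁻¹ : ℝ) : ℂ) *
          (V z : ℂ) * D (z, y)) μ := by
        refine (((hR1 x (2 * q + 1) (by omega)).1).const_mul (‖h‖ * M * ‖D‖)).mono'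
          (hHmeas D (x, y)) ?_
        exact Filter.Eventually.of_forall fun z => hHbd D (x, y) z
      have i4 : Integrable (fun z => f (x, z) * (V z : ℂ) * KK q μ V h₁ l₁ m z y) μ := by
        refine (((hR1 y (2 * q - 1 - 2 * m) (by omega)).1).const_mul
          (‖f‖ * M * (C₂ * ‖h₁‖ ^ m * ‖l₁‖))).mono' (hFmeas m (x, y)) ?_
        filter_upwards [hne y] with z hz using hFbd m hmq (x, y) z hz
      have e1 : DK q μ V h h₁ l₁ (fun x y => f (x, y)) (fun x y => f' (x, y)) (m + 1) x y =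
          (∫ z, h (x, z) * ((((dist x z) ^ (2 * q + 1))⁻¹ : ℝ) : ℂ) * (V z : ℂ) *
            D (z, y) ∂μ) + ∫ z, f (x, z) * (V z : ℂ) * KK q μ V h₁ l₁ m z y ∂μ := by
        simp only [DK, hDm]
      have e2 : KK q μ V h l (m + 1) x y - KK q μ V h₁ l₁ (m + 1) x y =
          (∫ z, h (x, z) * ((((dist x z) ^ (2 * q + 1))⁻¹ : ℝ) : ℂ) * (V z : ℂ) *
            KK q μ V h l m z y ∂μ) - ∫ z, h₁ (x, z) * ((((dist x z) ^ (2 * q + 1))⁻¹ : ℝ) : ℂ) *
              (V z : ℂ) * KK q μ V h₁ l₁ m z y ∂μ := by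
        simp only [KK]
      rw [e1, e2, ← integral_add i3 i4, ← integral_sub i1 i2]
      refine integral_congr_ae ?_
      filter_upwards [hne x, hne y] with z hzx hzy
      have hd : dist x z ≠ 0 := dist_ne_zero.2 (Ne.symm hzx)
      have hd' : ((dist x z : ℝ) : ℂ) ^ (2 * q + 1) ≠ 0 := pow_ne_zero _ (by exact_mod_cast hd)
      have e3 : D (z, y) = KK q μ V h l m z y - KK q μ V h₁ l₁ m z y := by
        rw [hDm, ih hmq.le z y (Or.inl hzy)]
      have e4 : h₁ (x, z) = h (x, z) - ((dist x z : ℝ) : ℂ) ^ (2 * q + 1) * f (x, z) := by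
        rw [← hh x z]; ring
      rw [e3, e4]
      push_cast
      field_simp
      ring
  choose Δ hΔ using hD
  refine ⟨fun m => if hm : m ≤ q then Δ m hm else 0,
    fun m => if hm : m < q then ⟨_, hFcont m hm⟩ else 0, ?_, ?_, ?_⟩
  · intro m hm x y
    simp only [hm, dif_pos]
    exact hΔ m hm x y
  · intro m hm x y
    simp only [hm, dif_pos]
    rfl
  · intro x y
    simp only [le_refl, dif_pos]
    rw [hΔ q le_rfl x y, hId q le_rfl x y (Or.inr rfl)]

end Pool.Agent.Work.MP_f2af60_mp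

end

section

/-!
# MP_f2af60_mp, all odd dimensions: the decomposition of the kernel
-/

namespace Pool.Agent.Work.MP_f2af60_mp

open MeasureTheory Metric Filter Topology

namespace GDecomp

section

variable {q : ℕ} {R : ℝ} {K D : ℕ} {Nd : ℕ → ℕ} (a b : Fin K → C(En q, ℝ))
  (p p' : (d : ℕ) → Fin (Nd d) → C(En q, ℝ))

/-- the index set -/
abbrev Ix (K D : ℕ) (Nd : ℕ → ℕ) : Type := (d : Fin D) × (Fin K × Fin (Nd d))

/-- the functions of one variable -/
noncomputable def Fn (R : ℝ) (a : Fin K → C(En q, ℝ)) (p : (d : ℕ) → Fin (Nd d) → C(En q, ℝ))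
    (i : Ix K D Nd) : C(closedBall (0 : En q) R, ℂ) :=
  ⟨fun x => ((a i.2.1 x * p i.1 i.2.2 x : ℝ) : ℂ), by fun_prop⟩

theorem Fn_apply (i : Ix K D Nd) (x : closedBall (0 : En q) R) :
    Fn R a p i x = ((a i.2.1 x * p i.1 i.2.2 x : ℝ) : ℂ) := rfl

theorem sum_eq (c : ℝ)
    (hsep : ∀ d, ∀ x y : En q, (1 - dist x y ^ 2 / c) ^ d = ∑ k, p d k x * p' d k y)
    (w : ℕ → ℂ) (x y : closedBall (0 : En q) R) :
    ∑ i : Ix K D Nd, w i.1 * Fn R a p i x * Fn R b p' i y =
      ((∑ k, a k x * b k y : ℝ) : ℂ) *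
        ∑ d ∈ Finset.range D, w d * ((1 - dist x y ^ 2 / c : ℝ) : ℂ) ^ d := by
  rw [Fintype.sum_sigma, Finset.sum_range, Finset.mul_sum]
  refine Finset.sum_congr rfl fun d _ => ?_
  have h1 : ((1 - dist x y ^ 2 / c : ℝ) : ℂ) ^ (d : ℕ) =
      ∑ m, ((p d m x * p' d m y : ℝ) : ℂ) := by
    rw [← Complex.ofReal_pow, Subtype.dist_eq, hsep, Complex.ofReal_sum]
  rw [h1, Fintype.sum_prod_type, Complex.ofReal_sum, Finset.sum_mul]
  refine Finset.sum_congr rfl fun k _ => ?_
  rw [Finset.mul_sum, Finset.mul_sum]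
  refine Finset.sum_congr rfl fun m _ => ?_
  rw [Fn_apply, Fn_apply]
  push_cast
  ring

theorem norm_Fn_le (ha : ∀ k x, 0 ≤ a k x ∧ a k x ≤ 1) {Cs : ℝ} (hCs : 1 ≤ Cs)
    (hp : ∀ d, ∀ k, ∀ x ∈ closedBall (0 : En q) R, |p d k x| ≤ Cs ^ d) (i : Ix K D Nd) :
    ‖Fn R a p i‖ ≤ Real.exp (D * Real.log Cs) := by
  have h0 : Real.exp (D * Real.log Cs) = Cs ^ D := by
    rw [mul_comm, Real.exp_mul, Real.exp_log (by linarith), Real.rpow_natCast]
  rw [h0, ContinuousMap.norm_le _ (by positivity)]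
  intro x
  rw [Fn_apply, Complex.norm_real, Real.norm_eq_abs, abs_mul, abs_of_nonneg (ha _ _).1]
  have h1 : Cs ^ (i.1 : ℕ) ≤ Cs ^ D := pow_le_pow_right₀ hCs i.1.2.le
  calc _ ≤ 1 * Cs ^ (i.1 : ℕ) :=
        mul_le_mul (ha _ _).2 (hp _ _ _ x.2) (abs_nonneg _) zero_le_one
    _ ≤ _ := by rw [one_mul]; exact h1

theorem card_le (M : ℕ) (hN : ∀ d, Nd d ≤ (d + 1) ^ M) :
    Fintype.card (Ix K D Nd) ≤ K * D ^ (M + 1) := by
  rw [Fintype.card_sigma]
  calc ∑ d : Fin D, Fintype.card (Fin K × Fin (Nd d)) ≤ ∑ _d : Fin D, K * D ^ M := by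
        refine Finset.sum_le_sum fun d _ => ?_
        rw [Fintype.card_prod, Fintype.card_fin, Fintype.card_fin]
        exact Nat.mul_le_mul_left _ ((hN d).trans (Nat.pow_le_pow_left d.2 M))
    _ = K * D ^ (M + 1) := by
        rw [Finset.sum_const, Finset.card_univ, Fintype.card_fin, smul_eq_mul, pow_succ]
        ring

end

/-- the derivative in the spectral parameter -/
theorem hasDerivAt_eb (h1 : EbFacts) {q : ℕ} (hq : 1 ≤ q) (l : ℂ) (s : ℝ) :
    HasDerivAt (fun z => eb q (z * (s : ℂ)))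
      ((s : ℂ) ^ 2 * (l * eb (q - 1) (l * (s : ℂ)) / (2 * (Real.pi : ℂ)))) l := by
  obtain ⟨j, rfl⟩ : ∃ j, q = j + 1 := ⟨q - 1, by omega⟩
  have h2 := h1.1 j (l * (s : ℂ))
  have h3 : HasDerivAt (fun z : ℂ => z * (s : ℂ)) (s : ℂ) l := by
    simpa using (hasDerivAt_id l).mul_const (s : ℂ)
  have h4 := h2.comp l h3
  refine h4.congr_deriv ?_
  rw [Nat.add_sub_cancel]
  ring

/-- the two pointwise bounds -/
theorem bounds (h1 : EbFacts) {q : ℕ} (hq1 : 1 ≤ q) {D : ℕ} {P : ℕ → ℂ → ℂ}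
    (hqd : ∀ d, Differentiable ℂ (P d)) {c e1 c1 : ℝ}
    {r : ℕ} (hr : 1 ≤ r) (he1 : 0 < e1) (hc1 : 0 < c1) {s : ℝ} (hs0 : 0 ≤ s)
    (hq : ∀ l : ℂ, ‖l‖ ≤ 2 * r → c1 / r ≤ s → ‖eb q (l * (s : ℂ)) / (s : ℂ) ^ (2 * q + 1) -
      ∑ d ∈ Finset.range D, P d l * ((1 - s ^ 2 / c : ℝ) : ℂ) ^ d‖ ≤ e1)
    {F : ℝ} (hF0 : 0 ≤ F) (hF1 : F ≤ 1) (hNear : s < c1 / r → F = 0) {l : ℂ} (hl : ‖l‖ < r) :
    ‖eb q (l * (s : ℂ)) - (s : ℂ) ^ (2 * q + 1) * ((F : ℂ) *
      ∑ d ∈ Finset.range D, P d l * ((1 - s ^ 2 / c : ℝ) : ℂ) ^ d) -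
      ((1 - F : ℝ) : ℂ) * eb q (l * (s : ℂ))‖ ≤ e1 * s ^ (2 * q + 1) ∧
    ‖l * eb (q - 1) (l * (s : ℂ)) / (2 * (Real.pi : ℂ)) - (s : ℂ) ^ (2 * q - 1) * ((F : ℂ) *
      ∑ d ∈ Finset.range D, deriv (P d) l * ((1 - s ^ 2 / c : ℝ) : ℂ) ^ d) -
      ((1 - F : ℝ) : ℂ) * (l * eb (q - 1) (l * (s : ℂ)) / (2 * (Real.pi : ℂ)))‖ ≤
      e1 * s ^ (2 * q - 1) := by
  have hr0 : (0 : ℝ) < r := by exact_mod_cast hr
  have hr1 : (1 : ℝ) ≤ r := by exact_mod_cast hr
  have hlr : ‖l‖ ≤ 2 * r := by linarith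
  set A : ℂ := ∑ d ∈ Finset.range D, P d l * ((1 - s ^ 2 / c : ℝ) : ℂ) ^ d with hA'
  set A' : ℂ := ∑ d ∈ Finset.range D, deriv (P d) l * ((1 - s ^ 2 / c : ℝ) : ℂ) ^ d with hA''
  set X : ℂ := l * eb (q - 1) (l * (s : ℂ)) / (2 * (Real.pi : ℂ)) with hX
  rcases lt_or_ge s (c1 / r) with h | h
  · rw [hNear h]
    have e1' : eb q (l * (s : ℂ)) - (s : ℂ) ^ (2 * q + 1) * (((0 : ℝ) : ℂ) * A) -
        ((1 - 0 : ℝ) : ℂ) * eb q (l * (s : ℂ)) = 0 := by
      push_cast; ring
    have e2' : X - (s : ℂ) ^ (2 * q - 1) * (((0 : ℝ) : ℂ) * A') -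
        ((1 - 0 : ℝ) : ℂ) * X = 0 := by
      push_cast; ring
    rw [e1', e2', norm_zero]
    exact ⟨by positivity, by positivity⟩
  · have hspos : 0 < s := (div_pos hc1 hr0).trans_le h
    have hsne : (s : ℂ) ≠ 0 := by exact_mod_cast hspos.ne'
    have hA := hq l hlr h
    -- Cauchy estimate
    have hder : ∀ z, HasDerivAt (fun z => eb q (z * (s : ℂ)) / (s : ℂ) ^ (2 * q + 1) -
        ∑ d ∈ Finset.range D, P d z * ((1 - s ^ 2 / c : ℝ) : ℂ) ^ d)
        ((s : ℂ) ^ 2 * (z * eb (q - 1) (z * (s : ℂ)) / (2 * (Real.pi : ℂ))) /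
          (s : ℂ) ^ (2 * q + 1) -
          ∑ d ∈ Finset.range D, deriv (P d) z * ((1 - s ^ 2 / c : ℝ) : ℂ) ^ d) z := by
      intro z
      refine ((hasDerivAt_eb h1 hq1 z s).div_const _).sub ?_
      exact HasDerivAt.fun_sum fun d _ => ((hqd d) z).hasDerivAt.mul_const _
    have hdiff : Differentiable ℂ (fun z => eb q (z * (s : ℂ)) / (s : ℂ) ^ (2 * q + 1) -
        ∑ d ∈ Finset.range D, P d z * ((1 - s ^ 2 / c : ℝ) : ℂ) ^ d) :=
      fun z => (hder z).differentiableAt
    have hB : ‖(s : ℂ) ^ 2 * X / (s : ℂ) ^ (2 * q + 1) - A'‖ ≤ e1 := by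
      have := Complex.norm_deriv_le_of_forall_mem_sphere_norm_le (c := l) (R := 1) (C := e1)
        one_pos hdiff.diffContOnCl (fun z hz => by
          refine hq z ?_ h
          have hz1 : ‖z - l‖ = 1 := by simpa [dist_eq_norm] using hz
          have : ‖z‖ ≤ ‖z - l‖ + ‖l‖ := by
            calc ‖z‖ = ‖(z - l) + l‖ := by ring_nf
              _ ≤ _ := norm_add_le _ _
          linarith)
      rw [(hder l).deriv, div_one] at this
      exact this
    have epow : (s : ℂ) ^ (2 * q + 1) = (s : ℂ) ^ 2 * (s : ℂ) ^ (2 * q - 1) := by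
      rw [← pow_add]
      congr 1
      omega
    have hsp : (s : ℂ) ^ (2 * q - 1) ≠ 0 := pow_ne_zero _ hsne
    have hB2 : ‖X / (s : ℂ) ^ (2 * q - 1) - A'‖ ≤ e1 := by
      have : (s : ℂ) ^ 2 * X / (s : ℂ) ^ (2 * q + 1) = X / (s : ℂ) ^ (2 * q - 1) := by
        rw [epow, mul_div_mul_left _ _ (pow_ne_zero 2 hsne)]
      rwa [this] at hB
    have hsp1 : (s : ℂ) ^ (2 * q + 1) ≠ 0 := pow_ne_zero _ hsne
    have e1' : eb q (l * (s : ℂ)) - (s : ℂ) ^ (2 * q + 1) * ((F : ℂ) * A) -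
        ((1 - F : ℝ) : ℂ) * eb q (l * (s : ℂ)) =
        (F : ℂ) * (s : ℂ) ^ (2 * q + 1) *
          (eb q (l * (s : ℂ)) / (s : ℂ) ^ (2 * q + 1) - A) := by
      push_cast
      field_simp
      ring
    have e2' : X - (s : ℂ) ^ (2 * q - 1) * ((F : ℂ) * A') - ((1 - F : ℝ) : ℂ) * X =
        (F : ℂ) * (s : ℂ) ^ (2 * q - 1) * (X / (s : ℂ) ^ (2 * q - 1) - A') := by
      push_cast
      field_simp
      ring
    have n2 : ‖(F : ℂ)‖ = F := by rw [Complex.norm_real, Real.norm_of_nonneg hF0]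
    have n3 : ‖(s : ℂ)‖ = s := by rw [Complex.norm_real, Real.norm_of_nonneg hs0]
    refine ⟨?_, ?_⟩
    · rw [e1', norm_mul, norm_mul, norm_pow, n2, n3]
      have : F * s ^ (2 * q + 1) *
          ‖eb q (l * (s : ℂ)) / (s : ℂ) ^ (2 * q + 1) - A‖ ≤ 1 * s ^ (2 * q + 1) * e1 := by
        gcongr
      linarith
    · rw [e2', norm_mul, norm_mul, norm_pow, n2, n3]
      have : F * s ^ (2 * q - 1) * ‖X / (s : ℂ) ^ (2 * q - 1) - A'‖ ≤
          1 * s ^ (2 * q - 1) * e1 := by
        gcongr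
      linarith

end GDecomp

open GDecomp in
/-- Q20. -/
theorem decompQ (h1 : EbFacts) (h17 : HatsQ) (h18 : PolyApproxQ) (h19 : SepQ) : DecompQ := by
  intro q hq1 R c0 e hR hc0 he
  classical
  obtain ⟨Ch, c1, nh, hc1, hc10, hH⟩ := h17 q R c0 hR hc0
  have hc : 0 < 4 * R ^ 2 := by positivity
  obtain ⟨Cp, np, hP⟩ := h18 q (4 * R ^ 2) (2 * c1) e hc (by positivity) he
  obtain ⟨Cs, hCs, hS⟩ := h19 q R (4 * R ^ 2) hR hc
  choose Nd p p' hN hps hsep using hS
  set B : ℝ := max 1 (|Cp| * 2 ^ np) with hB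
  have hB1 : 1 ≤ B := le_max_left _ _
  have hB2 : |Cp| * 2 ^ np ≤ B := le_max_right _ _
  have hlog : 0 ≤ Real.log Cs := Real.log_nonneg hCs
  set M : ℕ := 2 * q + 5 with hM
  refine ⟨|Ch| * B ^ (M + 1) + B * Real.log Cs + B, nh + np * (M + 1), ?_⟩
  intro r hr
  have hr1 : (1 : ℝ) ≤ r := by exact_mod_cast hr
  have hr0 : (0 : ℝ) < r := by linarith
  obtain ⟨K, a, b, hK, ha, hb, hab⟩ := hH r hr
  obtain ⟨D, P, hD, hPd, hPar, hPb, hPa⟩ := hP (2 * r) (by omega)
  have hcast : ((2 * r : ℕ) : ℝ) = 2 * r := by push_cast; rfl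
  have hle : np ≤ nh + np * (M + 1) := by nlinarith
  have hpw : (r : ℝ) ^ np ≤ (r : ℝ) ^ (nh + np * (M + 1)) := pow_le_pow_right₀ hr1 hle
  have hCp : Cp * ((2 * r : ℕ) : ℝ) ^ np ≤ B * (r : ℝ) ^ np := by
    rw [hcast, mul_pow, ← mul_assoc]
    refine mul_le_mul_of_nonneg_right ?_ (by positivity)
    exact (mul_le_mul_of_nonneg_right (le_abs_self _) (by positivity)).trans hB2
  have hDr : (D : ℝ) ≤ B * (r : ℝ) ^ np := hD.trans hCp
  set CC : ℝ := |Ch| * B ^ (M + 1) + B * Real.log Cs + B with hCC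
  have hB0 : 0 ≤ B := by linarith
  have hn1 : 0 ≤ |Ch| * B ^ (M + 1) := by positivity
  have hn2 : 0 ≤ B * Real.log Cs := by positivity
  have hpow0 : 0 < (r : ℝ) ^ (nh + np * (M + 1)) := by positivity
  have hexp : Real.exp (D * Real.log Cs) ≤ Real.exp (CC * (r : ℝ) ^ (nh + np * (M + 1))) := by
    refine Real.exp_le_exp.mpr ?_
    calc D * Real.log Cs ≤ (B * (r : ℝ) ^ np) * Real.log Cs :=
          mul_le_mul_of_nonneg_right hDr hlog
      _ = (B * Real.log Cs) * (r : ℝ) ^ np := by ring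
      _ ≤ (B * Real.log Cs) * (r : ℝ) ^ (nh + np * (M + 1)) := by gcongr
      _ ≤ CC * (r : ℝ) ^ (nh + np * (M + 1)) := by
          refine mul_le_mul_of_nonneg_right ?_ hpow0.le
          linarith
  let E := Fintype.equivFin (Ix K D Nd)
  let χ : C(closedBall (0 : En q) R × closedBall (0 : En q) R, ℝ) :=
    ⟨fun z => 1 - ∑ k, a k z.1 * b k z.2, by fun_prop⟩
  have hχ : ∀ x y, χ (x, y) = 1 - ∑ k, a k x * b k y := fun x y => rfl
  refine ⟨Fintype.card (Ix K D Nd), fun k => Fn R a p (E.symm k), fun k => Fn R b p' (E.symm k),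
    fun k => P (E.symm k).1, χ, ?_, ?_, ?_, ?_, ?_, ?_, ?_, ?_, ?_, ?_⟩
  · have h1 : ((Fintype.card (Ix K D Nd) : ℕ) : ℝ) ≤ K * (D : ℝ) ^ (M + 1) := by
      exact_mod_cast card_le M hN
    calc ((Fintype.card (Ix K D Nd) : ℕ) : ℝ) ≤ K * (D : ℝ) ^ (M + 1) := h1
      _ ≤ (|Ch| * (r : ℝ) ^ nh) * (B * (r : ℝ) ^ np) ^ (M + 1) := by
          gcongr
          exact hK.trans (mul_le_mul_of_nonneg_right (le_abs_self _) (by positivity))
      _ = (|Ch| * B ^ (M + 1)) * (r : ℝ) ^ (nh + np * (M + 1)) := by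
          rw [mul_pow, ← pow_mul, pow_add]
          ring
      _ ≤ CC * (r : ℝ) ^ (nh + np * (M + 1)) := by
          refine mul_le_mul_of_nonneg_right ?_ hpow0.le
          linarith
  · intro k
    exact (norm_Fn_le a p ha hCs (fun d k x hx => (hps d k x hx).1) _).trans hexp
  · intro k
    exact (norm_Fn_le b p' hb hCs (fun d k x hx => (hps d k x hx).2) _).trans hexp
  · intro k
    exact hPd _
  · intro k l hl
    rw [mem_ball_zero_iff] at hl
    refine (hPb _ l (by rw [hcast]; linarith)).trans ?_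
    refine Real.exp_le_exp.mpr ?_
    calc Cp * ((2 * r : ℕ) : ℝ) ^ np ≤ B * (r : ℝ) ^ np := hCp
      _ ≤ B * (r : ℝ) ^ (nh + np * (M + 1)) := by gcongr
      _ ≤ CC * (r : ℝ) ^ (nh + np * (M + 1)) := by
          refine mul_le_mul_of_nonneg_right ?_ hpow0.le
          linarith
  · intro k x
    have h0 := (hab x x.2 x x.2).2.2.2
    rw [dist_self] at h0
    have h1 := h0 (by positivity)
    have h2 := (Finset.sum_eq_zero_iff_of_nonneg
      (fun i _ => mul_nonneg (ha i x).1 (hb i x).1)).mp h1 (E.symm k).2.1 (Finset.mem_univ _)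
    rw [Fn_apply, Fn_apply, ← Complex.ofReal_mul]
    have h3 : a (E.symm k).2.1 x * p (E.symm k).1 (E.symm k).2.2 x *
        (b (E.symm k).2.1 x * p' (E.symm k).1 (E.symm k).2.2 x) = 0 := by
      calc _ = (a (E.symm k).2.1 x * b (E.symm k).2.1 x) *
            (p (E.symm k).1 (E.symm k).2.2 x * p' (E.symm k).1 (E.symm k).2.2 x) := by ring
        _ = 0 := by rw [h2, zero_mul]
    rw [h3, Complex.ofReal_zero]
  · intro k
    exact hPar _
  · intro x y
    obtain ⟨f0, f1, ffar, -⟩ := hab x x.2 y y.2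
    rw [hχ]
    refine ⟨by linarith, by linarith, fun h => ?_⟩
    rw [ffar h]
    ring
  all_goals
    intro l hl x y
    rw [mem_ball_zero_iff] at hl
    have hdR : dist x y ≤ 2 * R := by
      have h1 : dist (x : En q) 0 ≤ R := x.2
      have h2 : dist (y : En q) 0 ≤ R := y.2
      calc dist x y = dist (x : En q) (y : En q) := rfl
        _ ≤ dist (x : En q) 0 + dist (0 : En q) (y : En q) := dist_triangle _ _ _
        _ ≤ 2 * R := by rw [dist_comm (0 : En q)]; linarith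
    obtain ⟨f0, f1, ffar, fnear⟩ := hab x x.2 y y.2
    have he2 : 0 < e / (2 * r) := by positivity
    have hb := bounds h1 hq1 (D := D) hPd (c := 4 * R ^ 2) hr he2 hc1 (dist_nonneg (x := x) (y := y))
      (fun l hl h => by
        have := hPa l (by rw [hcast]; exact hl) (dist x y)
          (by rw [hcast, mul_div_mul_left _ _ two_ne_zero]; exact h)
          (by nlinarith [dist_nonneg (x := x) (y := y)])
        rw [hcast] at this
        exact this)
      f0 f1 fnear hl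
    have her : e / (2 * r) ≤ e / r := by
      apply div_le_div_of_nonneg_left he.le hr0
      linarith
  · have hsum : ∑ k, (fun k => P (E.symm k).1) k l * (fun k => Fn R a p (E.symm k)) k x *
        (fun k => Fn R b p' (E.symm k)) k y =
        ∑ i : Ix K D Nd, (fun d => P d l) i.1 * Fn R a p i x * Fn R b p' i y :=
      Equiv.sum_comp E.symm (fun i => P i.1 l * Fn R a p i x * Fn R b p' i y)
    have hse := sum_eq a b p p' (4 * R ^ 2) hsep (D := D) (fun d => P d l) x y
    rw [hsum, hse, hχ]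
    refine hb.1.trans ?_
    exact mul_le_mul_of_nonneg_right her (by positivity)
  · have hsum : ∑ k, deriv ((fun k => P (E.symm k).1) k) l *
        (fun k => Fn R a p (E.symm k)) k x * (fun k => Fn R b p' (E.symm k)) k y =
        ∑ i : Ix K D Nd, (fun d => deriv (P d) l) i.1 * Fn R a p i x * Fn R b p' i y :=
      Equiv.sum_comp E.symm (fun i => deriv (P i.1) l * Fn R a p i x * Fn R b p' i y)
    have hse := sum_eq a b p p' (4 * R ^ 2) hsep (D := D) (fun d => deriv (P d) l) x y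
    rw [hsum, hse, hχ]
    refine hb.2.trans ?_
    exact mul_le_mul_of_nonneg_right her (by positivity)

end Pool.Agent.Work.MP_f2af60_mp

end

section

/-!
# MP_f2af60_mp, Q26: factorisation of the determinants on the discs
-/

namespace Pool.Agent.Work.MP_f2af60_mp

open MeasureTheory Metric Filter Topology

/-- Summability of the terms of a geometrically bounded power series. -/
theorem gdf_summable (c : ℕ → ℂ) (M b : ℝ) (hb : 0 < b) (hc : ∀ j, ‖c j‖ ≤ M * b ^ j)
    (l : ℂ) (hl : ‖l‖ * b < 1) : Summable (fun j => c j * l ^ j) := by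
  have hq : 0 ≤ ‖l‖ * b := mul_nonneg (norm_nonneg _) hb.le
  refine Summable.of_norm_bounded (g := fun j => M * (‖l‖ * b) ^ j)
    ((summable_geometric_of_lt_one hq hl).mul_left M) ?_
  intro j
  rw [norm_mul, norm_pow, mul_pow]
  calc ‖c j‖ * ‖l‖ ^ j ≤ (M * b ^ j) * ‖l‖ ^ j :=
        mul_le_mul_of_nonneg_right (hc j) (by positivity)
    _ = M * (‖l‖ ^ j * b ^ j) := by ring

/-- Termwise differentiation of a geometrically bounded power series. -/
theorem gdf_hasDerivAt (c : ℕ → ℂ) (M b : ℝ) (hb : 0 < b) (hc : ∀ j, ‖c j‖ ≤ M * b ^ j)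
    (l : ℂ) (hl : ‖l‖ * b < 1) :
    HasDerivAt (fun z => ∑' j, c j * z ^ j) (∑' j : ℕ, ((j : ℂ) + 1) * c (j + 1) * l ^ j) l := by
  have hM : 0 ≤ M := by
    have := (norm_nonneg _).trans (hc 0)
    simpa using this
  obtain ⟨ρ, hρ1, hρ2⟩ : ∃ ρ, ‖l‖ < ρ ∧ ρ < 1 / b := exists_between (by rwa [lt_div_iff₀ hb])
  have hρ0 : 0 < ρ := (norm_nonneg _).trans_lt hρ1
  have hρb : ρ * b < 1 := by rwa [lt_div_iff₀ hb] at hρ2
  have hq : 0 ≤ ρ * b := by positivity
  have hs0 : Summable (fun j : ℕ => (j : ℝ) ^ 1 * (ρ * b) ^ j) :=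
    summable_pow_mul_geometric_of_norm_lt_one 1 (by rw [Real.norm_of_nonneg hq]; exact hρb)
  have hu : Summable (fun j : ℕ => M / ρ * ((j : ℝ) ^ 1 * (ρ * b) ^ j)) := hs0.mul_left _
  have key := hasDerivAt_tsum_of_isPreconnected (𝕜 := ℂ) (F := ℂ)
    (g := fun j z => c j * z ^ j) (g' := fun j z => c j * ((j : ℂ) * z ^ (j - 1)))
    (t := ball (0 : ℂ) ρ) (y₀ := 0) (y := l) hu isOpen_ball
    (convex_ball 0 ρ).isPreconnected
    (fun j y _ => by
      have := (hasDerivAt_pow j y).const_mul (c j)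
      simpa using this)
    (fun j y hy => by
      rcases j with _ | j
      · simp
      · have hy' : ‖y‖ ≤ ρ := by
          have := mem_ball_zero_iff.mp hy
          exact this.le
        rw [norm_mul, norm_mul, norm_pow]
        have h1 : ‖((j + 1 : ℕ) : ℂ)‖ = ((j + 1 : ℕ) : ℝ) := by
          rw [Complex.norm_natCast]
        rw [h1]
        have h2 : ‖y‖ ^ (j + 1 - 1) ≤ ρ ^ j := by
          simp only [Nat.add_sub_cancel]
          exact pow_le_pow_left₀ (norm_nonneg _) hy' j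
        calc ‖c (j + 1)‖ * (((j + 1 : ℕ) : ℝ) * ‖y‖ ^ (j + 1 - 1))
            ≤ (M * b ^ (j + 1)) * (((j + 1 : ℕ) : ℝ) * ρ ^ j) := by
              apply mul_le_mul (hc (j + 1)) _ (by positivity) (by positivity)
              exact mul_le_mul_of_nonneg_left h2 (by positivity)
          _ = M / ρ * (((j + 1 : ℕ) : ℝ) ^ 1 * (ρ * b) ^ (j + 1)) := by
              rw [mul_pow, pow_succ ρ j]
              field_simp)
    (by simpa using hρ0)
    (gdf_summable c M b hb hc 0 (by simp))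
    (by simpa using hρ1)
  have hsum : Summable (fun j : ℕ => c j * ((j : ℂ) * l ^ (j - 1))) := by
    refine Summable.of_norm_bounded hu ?_
    intro j
    rcases j with _ | j
    · simp
    · rw [norm_mul, norm_mul, norm_pow]
      have h1 : ‖((j + 1 : ℕ) : ℂ)‖ = ((j + 1 : ℕ) : ℝ) := by
        rw [Complex.norm_natCast]
      rw [h1]
      have h2 : ‖l‖ ^ (j + 1 - 1) ≤ ρ ^ j := by
        simp only [Nat.add_sub_cancel]
        exact pow_le_pow_left₀ (norm_nonneg _) hρ1.le j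
      calc ‖c (j + 1)‖ * (((j + 1 : ℕ) : ℝ) * ‖l‖ ^ (j + 1 - 1))
          ≤ (M * b ^ (j + 1)) * (((j + 1 : ℕ) : ℝ) * ρ ^ j) := by
            apply mul_le_mul (hc (j + 1)) _ (by positivity) (by positivity)
            exact mul_le_mul_of_nonneg_left h2 (by positivity)
        _ = M / ρ * (((j + 1 : ℕ) : ℝ) ^ 1 * (ρ * b) ^ (j + 1)) := by
            rw [mul_pow, pow_succ ρ j]
            field_simp
  have heq : (∑' j : ℕ, c j * ((j : ℂ) * l ^ (j - 1))) =
      ∑' j : ℕ, ((j : ℂ) + 1) * c (j + 1) * l ^ j := by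
    rw [hsum.tsum_eq_zero_add]
    simp only [Nat.cast_zero, zero_mul, mul_zero, zero_add, Nat.add_sub_cancel, Nat.cast_add,
      Nat.cast_one]
    exact tsum_congr (fun j => by ring)
  rw [← heq]
  exact key

/-- A geometrically bounded power series of size `O(|l|^κ)` has no coefficient below `κ`. -/
theorem gdf_coeff_zero (a : ℕ → ℂ) (M b : ℝ) (hb : 0 < b) (ha : ∀ j, ‖a j‖ ≤ M * b ^ j)
    (κ : ℕ) (B e : ℝ) (he : 0 < e)
    (h : ∀ l : ℂ, ‖l‖ ≤ e → ‖∑' j, a j * l ^ j‖ ≤ B * ‖l‖ ^ κ) :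
    ∀ j, j < κ → a j = 0 := by
  intro j
  induction j using Nat.strong_induction_on with
  | _ j ih =>
    intro hj
    have hshift : ∀ i, ‖a (i + j)‖ ≤ (M * b ^ j) * b ^ i := by
      intro i
      have := ha (i + j)
      rw [pow_add] at this
      linarith [this, mul_comm (b ^ i) (b ^ j), mul_assoc M (b ^ j) (b ^ i)]
    have hcont : ContinuousAt (fun z : ℂ => ∑' i, a (i + j) * z ^ i) 0 :=
      (gdf_hasDerivAt (fun i => a (i + j)) (M * b ^ j) b hb hshift 0 (by simp)).continuousAt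
    have hval : (fun z : ℂ => ∑' i, a (i + j) * z ^ i) 0 = a j := by
      have : (∑' i, a (i + j) * (0 : ℂ) ^ i) = a (0 + j) * (0 : ℂ) ^ 0 := by
        apply tsum_eq_single 0
        intro i hi
        simp [hi]
      simpa using this
    have hfac : ∀ z : ℂ, ‖z‖ * b < 1 →
        (∑' i, a i * z ^ i) = z ^ j * ∑' i, a (i + j) * z ^ i := by
      intro z hz
      have hs := gdf_summable a M b hb ha z hz
      rw [← hs.sum_add_tsum_nat_add j, Finset.sum_eq_zero, zero_add, ← tsum_mul_left]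
      · exact tsum_congr (fun i => by rw [pow_add]; ring)
      · intro i hi
        rw [ih i (Finset.mem_range.mp hi) ((Finset.mem_range.mp hi).trans hj), zero_mul]
    by_contra hne
    have hlim : Tendsto (fun z : ℂ => ‖∑' i, a (i + j) * z ^ i‖) (𝓝[≠] 0) (𝓝 ‖a j‖) := by
      have h1 := hcont.norm.tendsto
      have h2 : Tendsto (fun z : ℂ => ‖∑' i, a (i + j) * z ^ i‖) (𝓝 0) (𝓝 ‖a j‖) := by
        rw [← hval]; exact h1
      exact h2.mono_left nhdsWithin_le_nhds
    have hlim2 : Tendsto (fun z : ℂ => B * ‖z‖ ^ (κ - j)) (𝓝[≠] 0) (𝓝 0) := by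
      have h1 : Tendsto (fun z : ℂ => B * ‖z‖ ^ (κ - j)) (𝓝 0) (𝓝 (B * ‖(0 : ℂ)‖ ^ (κ - j))) := by
        apply Continuous.tendsto
        fun_prop
      have h2 : B * ‖(0 : ℂ)‖ ^ (κ - j) = 0 := by
        have : κ - j ≠ 0 := by omega
        simp [this]
      rw [h2] at h1
      exact h1.mono_left nhdsWithin_le_nhds
    have hle : ‖a j‖ ≤ 0 := by
      refine le_of_tendsto_of_tendsto hlim hlim2 ?_
      have hmem : ball (0 : ℂ) (min e (1 / b)) ∈ 𝓝 (0 : ℂ) :=
        ball_mem_nhds _ (lt_min he (by positivity))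
      filter_upwards [nhdsWithin_le_nhds hmem, self_mem_nhdsWithin] with z hz hz0
      have hz1 : ‖z‖ < min e (1 / b) := mem_ball_zero_iff.mp hz
      have hz2 : ‖z‖ ≤ e := (hz1.trans_le (min_le_left _ _)).le
      have hz3 : ‖z‖ * b < 1 := by
        have := hz1.trans_le (min_le_right _ _)
        rwa [lt_div_iff₀ hb] at this
      have hz4 : 0 < ‖z‖ := norm_pos_iff.mpr hz0
      have h3 := h z hz2
      rw [hfac z hz3, norm_mul, norm_pow] at h3
      have h4 : ‖z‖ ^ κ = ‖z‖ ^ j * ‖z‖ ^ (κ - j) := by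
        rw [← pow_add]; congr 1; omega
      rw [h4] at h3
      have h5 : 0 < ‖z‖ ^ j := by positivity
      nlinarith [h3, h5]
    exact hne (norm_le_zero_iff.mp hle)

/-- The logarithm: `w` is small and `|exp w - 1|` small. -/
theorem gdf_log_small (w : ℂ) (hw : ‖w‖ ≤ 1 / 2) : ‖w‖ ≤ 2 * ‖Complex.exp w - 1‖ := by
  have h1 : ‖Complex.exp w - 1 - w‖ ≤ ‖w‖ ^ 2 :=
    Complex.norm_exp_sub_one_sub_id_le (by linarith)
  have h2 : ‖w‖ ≤ ‖Complex.exp w - 1‖ + ‖Complex.exp w - 1 - w‖ := by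
    have : w = (Complex.exp w - 1) - (Complex.exp w - 1 - w) := by ring
    calc ‖w‖ = ‖(Complex.exp w - 1) - (Complex.exp w - 1 - w)‖ := by rw [← this]
      _ ≤ _ := norm_sub_le _ _
  nlinarith [norm_nonneg w, norm_nonneg (Complex.exp w - 1)]

/-- Parity of a logarithm. -/
theorem gdf_parity (c : ℕ → ℂ) (M b : ℝ) (hb : 0 < b) (hc : ∀ j, ‖c j‖ ≤ M * b ^ j)
    (κ : ℕ) (B e : ℝ) (he : 0 < e)
    (h : ∀ l : ℂ, ‖l‖ ≤ e → ‖Complex.exp (∑' j, c j * l ^ j) -
      Complex.exp (∑' j, c j * (-l) ^ j)‖ ≤ B * ‖l‖ ^ κ) :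
    ∀ j, Odd j → j < κ → c j = 0 := by
  have hM : 0 ≤ M := by
    have := (norm_nonneg _).trans (hc 0)
    simpa using this
  set g : ℂ → ℂ := fun z => ∑' j, c j * z ^ j with hg
  have hgc : ContinuousAt g 0 := (gdf_hasDerivAt c M b hb hc 0 (by simp)).continuousAt
  set a : ℕ → ℂ := fun j => (1 - (-1) ^ j) * c j with ha
  have hab : ∀ j, ‖a j‖ ≤ (2 * M) * b ^ j := by
    intro j
    rw [ha]
    simp only [norm_mul]
    have h1 : ‖(1 : ℂ) - (-1) ^ j‖ ≤ 2 := by
      calc ‖(1 : ℂ) - (-1) ^ j‖ ≤ ‖(1 : ℂ)‖ + ‖(-1 : ℂ) ^ j‖ := norm_sub_le _ _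
        _ = 2 := by rw [norm_pow, norm_neg, norm_one, one_pow]; norm_num
    calc ‖(1 : ℂ) - (-1) ^ j‖ * ‖c j‖ ≤ 2 * (M * b ^ j) :=
          mul_le_mul h1 (hc j) (norm_nonneg _) (by norm_num)
      _ = _ := by ring
  have hga : ∀ z : ℂ, ‖z‖ * b < 1 → (∑' j, a j * z ^ j) = g z - g (-z) := by
    intro z hz
    have hs1 := gdf_summable c M b hb hc z hz
    have hs2 := gdf_summable c M b hb hc (-z) (by rwa [norm_neg])
    rw [hg]
    simp only
    rw [← hs1.tsum_sub hs2]
    refine tsum_congr (fun j => ?_)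
    rw [ha]
    simp only
    rw [neg_pow z j]
    ring
  -- near zero
  have hgcn : ContinuousAt (fun z => g (-z)) 0 := by
    have : ContinuousAt g (-(0 : ℂ)) := by rwa [neg_zero]
    exact ContinuousAt.comp (f := fun z : ℂ => -z) this continuous_neg.continuousAt
  have hd0 : Tendsto (fun z => g z - g (-z)) (𝓝 0) (𝓝 0) := by
    have h1 : Tendsto (fun z => g z - g (-z)) (𝓝 0) (𝓝 (g 0 - g (-0))) :=
      (hgc.sub hgcn).tendsto
    rw [neg_zero, sub_self] at h1
    exact h1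
  have hexp : Tendsto (fun z => ‖Complex.exp (-(g (-z)))‖) (𝓝 0)
      (𝓝 ‖Complex.exp (-(g 0))‖) := by
    have h1 : ContinuousAt (fun z => ‖Complex.exp (-(g (-z)))‖) 0 :=
      (Complex.continuous_exp.continuousAt.comp hgcn.neg).norm
    have := h1.tendsto
    simpa using this
  have hev1 : ∀ᶠ z in 𝓝 (0 : ℂ), ‖g z - g (-z)‖ ≤ 1 / 2 := by
    have := hd0.norm
    rw [norm_zero] at this
    exact (this.eventually (gt_mem_nhds (by norm_num : (0 : ℝ) < 1 / 2))).mono (fun _ h => h.le)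
  have hev2 : ∀ᶠ z in 𝓝 (0 : ℂ),
      ‖Complex.exp (-(g (-z)))‖ ≤ ‖Complex.exp (-(g 0))‖ + 1 :=
    (hexp.eventually (gt_mem_nhds (by linarith))).mono (fun _ h => h.le)
  have hev3 : ∀ᶠ z in 𝓝 (0 : ℂ), ‖z‖ < min e (1 / b) := by
    have := ball_mem_nhds (0 : ℂ) (lt_min he (by positivity : 0 < 1 / b))
    filter_upwards [this] with z hz
    exact mem_ball_zero_iff.mp hz
  obtain ⟨δ, hδ, hδ'⟩ := Metric.eventually_nhds_iff_ball.mp ((hev1.and hev2).and hev3)
  have hB : 0 ≤ B := by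
    by_contra hB
    push Not at hB
    have h1 := h (e : ℂ) (by rw [Complex.norm_real, Real.norm_of_nonneg he.le])
    have h2 : 0 < ‖((e : ℝ) : ℂ)‖ ^ κ := by
      rw [Complex.norm_real, Real.norm_of_nonneg he.le]; positivity
    have h3 := norm_nonneg (Complex.exp (∑' j, c j * (e : ℂ) ^ j) -
      Complex.exp (∑' j, c j * (-(e : ℂ)) ^ j))
    nlinarith
  have hsmall := gdf_coeff_zero a (2 * M) b hb hab κ
    (2 * ((‖Complex.exp (-(g 0))‖ + 1) * B)) (δ / 2) (by positivity) (by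
      intro z hz
      have hzb : z ∈ ball (0 : ℂ) δ := by
        rw [mem_ball_zero_iff]; linarith
      obtain ⟨⟨h1, h2⟩, h3⟩ := hδ' z hzb
      have hz3 : ‖z‖ * b < 1 := by
        have := h3.trans_le (min_le_right _ _)
        rwa [lt_div_iff₀ hb] at this
      rw [hga z hz3]
      refine (gdf_log_small _ h1).trans ?_
      have h4 := h z (h3.trans_le (min_le_left _ _)).le
      have h5 : Complex.exp (g z - g (-z)) - 1 =
          Complex.exp (-(g (-z))) * (Complex.exp (g z) - Complex.exp (g (-z))) := by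
        rw [mul_sub, ← Complex.exp_add, ← Complex.exp_add]
        congr 1
        · congr 1; ring
        · rw [neg_add_cancel, Complex.exp_zero]
      rw [h5, norm_mul]
      have h6 : ‖Complex.exp (-(g (-z)))‖ * ‖Complex.exp (g z) - Complex.exp (g (-z))‖ ≤
          (‖Complex.exp (-(g 0))‖ + 1) * (B * ‖z‖ ^ κ) :=
        mul_le_mul h2 h4 (norm_nonneg _) (by positivity)
      linarith)
  intro j hj hjk
  have h1 := hsmall j hjk
  rw [ha] at h1
  simp only at h1
  rw [hj.neg_one_pow] at h1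
  have h2 : (1 - (-1) : ℂ) = 2 := by norm_num
  rw [h2] at h1
  exact (mul_eq_zero.mp h1).resolve_left two_ne_zero

/-- Q26. -/
theorem discFac (h24 : DiscDet) (h25 : DiscLog) : DiscFac := by
  intro X _ _ _ A hA l0 T0 hT1 hT2 C n N φ ψ hyp hfin
  obtain ⟨D, C', n', hD, hU, hpar⟩ := h24 X A hA l0 T0 hT1 hT2 C n N φ ψ hyp
  obtain ⟨P, c, C'', r0, m, hP, hr0, -, hc, hDP⟩ := h25 D l0 C' n'
    {l : ℂ | ∃ u : X, u ≠ 0 ∧ u + A l u = 0} hfin
    (fun r hr => ⟨(hD r hr).1, (hD r hr).2.1, (hD r hr).2.2.1,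
      fun l hl => (hD r hr).2.2.2.1 l hl⟩) hU
  refine ⟨P, c, C'', r0, m, hP, hr0, hc, ?_, ?_⟩
  · intro r hr l hl T T₁ A₁' hTa hTb hT1a hT1b hder
    have hr1 : 1 ≤ r := hr0.trans hr
    have hrpos : (0 : ℝ) < r := by exact_mod_cast hr1
    have hlr : l ∈ ball (0 : ℂ) r := ball_subset_ball (by linarith) hl
    have hl' : ‖l‖ * (8 / (r : ℝ)) < 1 := by
      have h1 : ‖l‖ < r / 8 := mem_ball_zero_iff.mp hl
      rw [mul_div_assoc', div_lt_one hrpos]
      linarith
    have hDne : D r l ≠ 0 := by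
      intro h0
      obtain ⟨u, hu, hu2⟩ := ((hD r hr1).2.2.2.1 l hlr).mp h0
      apply hu
      have h1 : (T * (1 + A l)) u = u := by rw [hTa]; rfl
      have h2 : (T * (1 + A l)) u = T (u + A l u) := rfl
      rw [← h1, h2, hu2, map_zero]
    have hDl := hDP r hr l hl
    have hPne : P.eval l ≠ 0 := by
      intro h0
      rw [h0, zero_mul] at hDl
      exact hDne hDl
    refine ⟨hPne, ?_⟩
    have hd1 := (hD r hr1).2.2.2.2 l hlr T T₁ A₁' hTa hTb hT1a hT1b hder
    have hg := gdf_hasDerivAt (c r) (C'' * (r : ℝ) ^ m) (8 / (r : ℝ)) (by positivity)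
      (hc r hr) l hl'
    have hd2 : HasDerivAt (fun z => P.eval z * Complex.exp (∑' j, c r j * z ^ j))
        (P.derivative.eval l * Complex.exp (∑' j, c r j * l ^ j) +
          P.eval l * (Complex.exp (∑' j, c r j * l ^ j) *
            (∑' j : ℕ, ((j : ℂ) + 1) * c r (j + 1) * l ^ j))) l :=
      (P.hasDerivAt l).mul hg.cexp
    have hd3 : HasDerivAt (D r)
        (P.derivative.eval l * Complex.exp (∑' j, c r j * l ^ j) +
          P.eval l * (Complex.exp (∑' j, c r j * l ^ j) *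
            (∑' j : ℕ, ((j : ℂ) + 1) * c r (j + 1) * l ^ j))) l := by
      refine hd2.congr_of_eventuallyEq ?_
      filter_upwards [isOpen_ball.mem_nhds hl] with z hz
      exact hDP r hr z hz
    have huniq := hd1.unique hd3
    rw [hDl] at huniq
    have hexp : Complex.exp (∑' j, c r j * l ^ j) ≠ 0 := Complex.exp_ne_zero _
    rw [LL]
    set S := ∑ k, (deriv (ψ r k) l) (T (φ r k)) - ∑ k, ψ r k l (T₁ (A₁' (T (φ r k)))) with hS
    set G := ∑' j : ℕ, ((j : ℂ) + 1) * c r (j + 1) * l ^ j with hG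
    set x := Complex.exp (∑' j, c r j * l ^ j) with hx
    have h1 : x * (P.eval l * S) = x * (P.derivative.eval l + P.eval l * G) := by
      linear_combination huniq
    have h2 := mul_left_cancel₀ hexp h1
    field_simp
    linear_combination h2
  · intro hP1 κ hAk hψk r hr
    have hr1 : 1 ≤ r := hr0.trans hr
    have hrpos : (0 : ℝ) < r := by exact_mod_cast hr1
    obtain ⟨B, e, he, hBe⟩ := hpar κ hAk hψk r hr1
    refine gdf_parity (c r) (C'' * (r : ℝ) ^ m) (8 / (r : ℝ)) (by positivity) (hc r hr) κ B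
      (min e ((r : ℝ) / 16)) (lt_min he (by positivity)) ?_
    intro l hl
    have hl1 : l ∈ ball (0 : ℂ) ((r : ℝ) / 8) := by
      rw [mem_ball_zero_iff]
      have := hl.trans (min_le_right _ _)
      linarith
    have hl2 : -l ∈ ball (0 : ℂ) ((r : ℝ) / 8) := by
      rw [mem_ball_zero_iff, norm_neg]
      exact mem_ball_zero_iff.mp hl1
    have h1 := hBe l (hl.trans (min_le_left _ _))
    rw [hDP r hr l hl1, hDP r hr (-l) hl2, hP1] at h1
    simpa using h1

end Pool.Agent.Work.MP_f2af60_mp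

end

section

/-!
# MP_f2af60_mp, item Q32: the closed chain of heat kernels
-/

namespace Pool.Agent.Work.MP_f2af60_mp

open MeasureTheory

lemma ggc_cons_meas (q m : ℕ) (a : En q) (i : Fin (m + 1)) :
    Measurable (fun y : Fin m → En q => (Fin.cons a y : Fin (m + 1) → En q) i) := by
  refine Fin.cases ?_ (fun j => ?_) i
  · simp only [Fin.cons_zero]
    exact measurable_const
  · simp only [Fin.cons_succ]
    exact measurable_pi_apply j

lemma ggc_snoc_meas (q m : ℕ) (b : En q) (i : Fin (m + 1)) :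
    Measurable (fun y : Fin m → En q =>
      (Fin.snoc (α := fun _ : Fin (m + 1) => En q) y b) i) := by
  refine Fin.lastCases ?_ (fun j => ?_) i
  · simp only [Fin.snoc_last]
    exact measurable_const
  · simp only [Fin.snoc_castSucc]
    exact measurable_pi_apply j

/-- The integrand of the open chain. -/
noncomputable def ggcI (q m : ℕ) (t : Fin (m + 1) → ℝ) (a b : En q) (y : Fin m → En q) : ENNReal :=
  ∏ i : Fin (m + 1), ENNReal.ofReal (pt q (t i) ((Fin.cons a y : Fin (m + 1) → En q) i -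
    (Fin.snoc (α := fun _ : Fin (m + 1) => En q) y b) i))

lemma ggcI_meas (h3 : PtFacts) (q m : ℕ) (t : Fin (m + 1) → ℝ) (a b : En q) :
    Measurable (ggcI q m t a b) := by
  unfold ggcI
  refine Finset.measurable_prod _ (fun i _ => ENNReal.measurable_ofReal.comp ?_)
  have hm : Measurable (fun x : En q => pt q (t i) x) :=
    (h3 q).2.2.1.comp (measurable_const.prodMk measurable_id)
  exact hm.comp ((ggc_cons_meas q m a i).sub (ggc_snoc_meas q m b i))

lemma ggcI_cons (q m : ℕ) (t : Fin (m + 2) → ℝ) (a b y0 : En q) (y : Fin m → En q) :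
    ggcI q (m + 1) t a b (Fin.cons y0 y) =
      ENNReal.ofReal (pt q (t 0) (a - y0)) * ggcI q m (fun i => t i.succ) y0 b y := by
  unfold ggcI
  rw [Fin.prod_univ_succ]
  have hs : (Fin.snoc (α := fun _ : Fin (m + 2) => En q) (Fin.cons y0 y : Fin (m + 1) → En q) b) =
      Fin.cons y0 (Fin.snoc (α := fun _ : Fin (m + 1) => En q) y b) :=
    (Fin.cons_snoc_eq_snoc_cons (β := En q) y0 y b).symm
  rw [hs]
  simp only [Fin.cons_zero, Fin.cons_succ]

lemma ggc_open (h3 : PtFacts) (q m : ℕ) : ∀ (t : Fin (m + 1) → ℝ), (∀ i, 0 < t i) →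
    ∀ a b : En q, ∫⁻ y : Fin m → En q, ggcI q m t a b y =
      ENNReal.ofReal (pt q (∑ i, t i) (a - b)) := by
  induction m with
  | zero =>
    intro t ht a b
    have hv : (volume : Measure (Fin 0 → En q)) = Measure.dirac (fun i => i.elim0) := by
      rw [volume_pi, Measure.pi_of_empty]
      congr 1
    rw [hv, lintegral_dirac]
    unfold ggcI
    rw [Fin.prod_univ_one, Fin.sum_univ_one]
    rfl
  | succ m ih =>
    intro t ht a b
    have hmp := (volume_preserving_piFinSuccAbove (fun _ : Fin (m + 1) => En q) 0)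
    have e1 : ∫⁻ y : Fin (m + 1) → En q, ggcI q (m + 1) t a b y =
        ∫⁻ z : En q × (Fin m → En q), ggcI q (m + 1) t a b (Fin.cons z.1 z.2) := by
      rw [← hmp.lintegral_comp_emb (MeasurableEquiv.measurableEmbedding _)]
      apply lintegral_congr
      intro y
      congr 1
      simp only [MeasurableEquiv.piFinSuccAbove_apply, Fin.insertNthEquiv_zero]
      exact (Fin.cons_self_tail y).symm
    rw [e1, Measure.volume_eq_prod]
    rw [lintegral_prod _ ?_]
    · simp only [ggcI_cons]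
      have hpos : ∀ i : Fin (m + 1), 0 < t i.succ := fun i => ht _
      have e2 : ∀ x : En q, ∫⁻ y : Fin m → En q, ENNReal.ofReal (pt q (t 0) (a - x)) *
          ggcI q m (fun i => t i.succ) x b y =
          ENNReal.ofReal (pt q (t 0) (a - x) * pt q (∑ i : Fin (m + 1), t i.succ) (x - b)) := by
        intro x
        rw [lintegral_const_mul _ (ggcI_meas h3 q m _ x b), ih _ hpos x b,
          ENNReal.ofReal_mul ((h3 q).1 _ (ht 0) _).le]
      simp only [e2]
      have hsum : 0 < ∑ i : Fin (m + 1), t i.succ := Finset.sum_pos (fun i _ => hpos i)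
        Finset.univ_nonempty
      obtain ⟨hi, he⟩ := (h3 q).2.2.2.2.1 (t 0) (ht 0) _ hsum a b
      rw [← ofReal_integral_eq_lintegral_ofReal hi, he, ← Fin.sum_univ_succ]
      filter_upwards with x
      exact mul_nonneg ((h3 q).1 _ (ht 0) _).le ((h3 q).1 _ hsum _).le
    · have hc : Measurable (fun z : En q × (Fin m → En q) =>
          (Fin.cons z.1 z.2 : Fin (m + 1) → En q)) := by
        refine measurable_pi_lambda _ (fun i => ?_)
        refine Fin.cases ?_ (fun j => ?_) i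
        · simp only [Fin.cons_zero]
          exact measurable_fst
        · simp only [Fin.cons_succ]
          exact (measurable_pi_apply j).comp measurable_snd
      exact ((ggcI_meas h3 q (m + 1) t a b).comp hc).aemeasurable

theorem gaussChain (h3 : PtFacts) : GaussChain := by
  intro q m hm t ht
  have e : ∀ y : Fin m → En q, ∏ i : Fin (m + 1), ENNReal.ofReal
      (pt q (t i) ((Fin.cons 0 y : Fin (m + 1) → En q) i -
        (Fin.cons 0 y : Fin (m + 1) → En q) (i + 1))) = ggcI q m t 0 0 y := by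
    intro y
    unfold ggcI
    refine Finset.prod_congr rfl (fun i _ => ?_)
    congr 3
    refine Fin.lastCases ?_ (fun j => ?_) i
    · rw [Fin.last_add_one, Fin.cons_zero, Fin.snoc_last]
    · rw [Fin.coeSucc_eq_succ, Fin.cons_succ, Fin.snoc_castSucc]
  simp only [e]
  rw [ggc_open h3 q m t ht 0 0]
  congr 1
  unfold pt
  simp

end Pool.Agent.Work.MP_f2af60_mp

end
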