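import Pool.Agent.Work.MP_f2af60_mp.GStmts
import Pool.Agent.Work.MP_f2af60_mp.Bd.B01

/-! Bundle of small proof modules (one section per former module). -/

section

/-!
# MP_f2af60_mp, item Q24: the perturbation determinants on the discs
-/

namespace Pool.Agent.Work.MP_f2af60_mp

open MeasureTheory Metric Filter Topology

section DiscDetAux

variable {X : Type} [NormedAddCommGroup X] [NormedSpace ℂ X]

/-- Bounded near `0` and even up to order `κ`. -/
def DDGood (κ : ℕ) (f : ℂ → ℂ) : Prop :=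
  ∃ B : ℝ, 0 ≤ B ∧ ∀ l : ℂ, ‖l‖ ≤ 1 / 2 → ‖f l‖ ≤ B ∧ ‖f l - f (-l)‖ ≤ B * ‖l‖ ^ κ

theorem DDGood.const (κ : ℕ) (c : ℂ) : DDGood κ (fun _ => c) :=
  ⟨‖c‖, norm_nonneg _, fun l _ => ⟨le_refl _, by rw [sub_self, norm_zero]; positivity⟩⟩

theorem DDGood.add {κ : ℕ} {f g : ℂ → ℂ} (hf : DDGood κ f) (hg : DDGood κ g) :
    DDGood κ (fun l => f l + g l) := by
  obtain ⟨B, hB, h1⟩ := hf
  obtain ⟨B', hB', h2⟩ := hg
  refine ⟨B + B', by positivity, fun l hl => ⟨?_, ?_⟩⟩
  · exact (norm_add_le _ _).trans (add_le_add (h1 l hl).1 (h2 l hl).1)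
  · have : f l + g l - (f (-l) + g (-l)) = (f l - f (-l)) + (g l - g (-l)) := by ring
    rw [this, add_mul]
    exact (norm_add_le _ _).trans (add_le_add (h1 l hl).2 (h2 l hl).2)

theorem DDGood.mul {κ : ℕ} {f g : ℂ → ℂ} (hf : DDGood κ f) (hg : DDGood κ g) :
    DDGood κ (fun l => f l * g l) := by
  obtain ⟨B, hB, h1⟩ := hf
  obtain ⟨B', hB', h2⟩ := hg
  refine ⟨2 * (B * B'), by positivity, fun l hl => ⟨?_, ?_⟩⟩
  · rw [norm_mul]
    have := mul_le_mul (h1 l hl).1 (h2 l hl).1 (norm_nonneg _) hB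
    nlinarith [mul_nonneg hB hB']
  · have : f l * g l - f (-l) * g (-l) = (f l - f (-l)) * g l + f (-l) * (g l - g (-l)) := by ring
    rw [this]
    have hl' : ‖-l‖ ≤ 1 / 2 := by rwa [norm_neg]
    have a1 : ‖(f l - f (-l)) * g l‖ ≤ (B * ‖l‖ ^ κ) * B' := by
      rw [norm_mul]
      exact mul_le_mul (h1 l hl).2 (h2 l hl).1 (norm_nonneg _) (by positivity)
    have a2 : ‖f (-l) * (g l - g (-l))‖ ≤ B * (B' * ‖l‖ ^ κ) := by
      rw [norm_mul]
      exact mul_le_mul (h1 (-l) hl').1 (h2 l hl).2 (norm_nonneg _) hB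
    calc _ ≤ _ := norm_add_le _ _
      _ ≤ (B * ‖l‖ ^ κ) * B' + B * (B' * ‖l‖ ^ κ) := add_le_add a1 a2
      _ = 2 * (B * B') * ‖l‖ ^ κ := by ring

theorem DDGood.sum {κ : ℕ} {ι : Type*} (s : Finset ι) {f : ι → ℂ → ℂ}
    (hf : ∀ i ∈ s, DDGood κ (f i)) : DDGood κ (fun l => ∑ i ∈ s, f i l) := by
  classical
  induction s using Finset.induction_on with
  | empty => simpa using DDGood.const κ 0
  | insert a s ha ih =>
    have h1 := (hf a (Finset.mem_insert_self _ _)).add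
      (ih fun i hi => hf i (Finset.mem_insert_of_mem hi))
    refine (congrArg (DDGood κ) ?_).mp h1
    funext l
    rw [Finset.sum_insert ha]

theorem DDGood.prod {κ : ℕ} {ι : Type*} (s : Finset ι) {f : ι → ℂ → ℂ}
    (hf : ∀ i ∈ s, DDGood κ (f i)) : DDGood κ (fun l => ∏ i ∈ s, f i l) := by
  classical
  induction s using Finset.induction_on with
  | empty => simpa using DDGood.const κ 1
  | insert a s ha ih =>
    have h1 := (hf a (Finset.mem_insert_self _ _)).mul
      (ih fun i hi => hf i (Finset.mem_insert_of_mem hi))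
    refine (congrArg (DDGood κ) ?_).mp h1
    funext l
    rw [Finset.prod_insert ha]

theorem DDGood.det {κ N : ℕ} {M : ℂ → Matrix (Fin N) (Fin N) ℂ}
    (hM : ∀ i j, DDGood κ (fun l => M l i j)) : DDGood κ (fun l => (M l).det) := by
  have h1 : (fun l => (M l).det) = fun l => ∑ σ : Equiv.Perm (Fin N),
      ((Equiv.Perm.sign σ : ℤ) : ℂ) * ∏ i, M l (σ i) i := by
    funext l
    rw [Matrix.det_apply']
  rw [h1]
  exact DDGood.sum _ fun σ _ => (DDGood.const κ _).mul (DDGood.prod _ fun i _ => hM _ _)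

theorem discDet_FRop_norm {N : ℕ} (φ : Fin N → X) (ψ ψ' : Fin N → (X →L[ℂ] ℂ)) :
    ‖FRop φ ψ - FRop φ ψ'‖ ≤ ∑ k, ‖ψ k - ψ' k‖ * ‖φ k‖ := by
  have h1 : FRop φ ψ - FRop φ ψ' = ∑ k, (ψ k - ψ' k).smulRight (φ k) := by
    ext u
    simp only [_root_.sub_apply, FRop_apply, _root_.sum_apply,
      ContinuousLinearMap.smulRight_apply, sub_smul, Finset.sum_sub_distrib]
  rw [h1]
  refine (norm_sum_le _ _).trans (Finset.sum_le_sum fun k _ => ?_)
  rw [ContinuousLinearMap.norm_smulRight_apply]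

theorem discDet_FRop_diff {N : ℕ} (φ : Fin N → X) {ψ : Fin N → ℂ → (X →L[ℂ] ℂ)}
    (hψd : ∀ k, Differentiable ℂ (ψ k)) :
    Differentiable ℂ (fun z => FRop φ (fun k => ψ k z)) := by
  unfold FRop
  refine Differentiable.fun_sum fun k _ => ?_
  have : (fun z => (ψ k z).smulRight (φ k)) =
      fun z => (ContinuousLinearMap.smulRightL ℂ X X).flip (φ k) (ψ k z) := by
    ext z x; simp
  rw [this]
  exact (ContinuousLinearMap.differentiable _).comp (hψd k)

/-- The determinant of one disc. -/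
noncomputable def discD {N : ℕ} (A : ℂ → X →L[ℂ] X) (φ : Fin N → X)
    (ψ : Fin N → ℂ → (X →L[ℂ] ℂ)) (z : ℂ) : ℂ :=
  (1 + FRmat φ (fun k => ψ k z) (Ring.inverse (1 + (A z - FRop φ (fun k => ψ k z))))).det

end DiscDetAux

theorem discDet (h23 : FrMul) : DiscDet := by
  intro X _ _ _ A hA l0 T0 hT0 hT0' C n N φ ψ hyp
  have hC : 0 ≤ C := by
    have := (hyp 1 le_rfl).1
    simp only [Nat.cast_one, one_pow, mul_one] at this
    exact (Nat.cast_nonneg _).trans this
  -- the inverses of the small parts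
  set A₁ : ℕ → ℂ → X →L[ℂ] X := fun r z => A z - FRop (φ r) (fun k => ψ r k z) with hA₁
  set T₁ : ℕ → ℂ → X →L[ℂ] X := fun r z => Ring.inverse (1 + A₁ r z) with hT₁
  have hA₁d : ∀ r : ℕ, 1 ≤ r → Differentiable ℂ (A₁ r) := fun r hr =>
    hA.sub (discDet_FRop_diff (φ r) (hyp r hr).2.2.1)
  have hunit : ∀ r : ℕ, 1 ≤ r → ∀ z ∈ ball (0 : ℂ) r, IsUnit (1 + A₁ r z) := fun r hr z hz =>
    (glue_inv_of_norm _ ((hyp r hr).2.2.2.2 z hz)).1
  have hTn : ∀ r : ℕ, 1 ≤ r → ∀ z ∈ ball (0 : ℂ) r, ‖T₁ r z‖ ≤ 2 := fun r hr z hz =>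
    (glue_inv_of_norm _ ((hyp r hr).2.2.2.2 z hz)).2
  have hTl : ∀ r : ℕ, 1 ≤ r → ∀ z ∈ ball (0 : ℂ) r, T₁ r z * (1 + A₁ r z) = 1 := fun r hr z hz =>
    Ring.inverse_mul_cancel _ (hunit r hr z hz)
  have hTr : ∀ r : ℕ, 1 ≤ r → ∀ z ∈ ball (0 : ℂ) r, (1 + A₁ r z) * T₁ r z = 1 := fun r hr z hz =>
    Ring.mul_inverse_cancel _ (hunit r hr z hz)
  have hTd : ∀ r : ℕ, 1 ≤ r → ∀ z ∈ ball (0 : ℂ) r, DifferentiableAt ℂ (T₁ r) z := fun r hr z hz =>
    ((differentiableAt_const _).add (hA₁d r hr z)).inverse (hunit r hr z hz)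
  have hAeq : ∀ r z, A₁ r z + FRop (φ r) (fun k => ψ r k z) = A z := fun r z => by simp [hA₁]
  set d : ℕ → ℂ → ℂ := fun r z => (1 + FRmat (φ r) (fun k => ψ r k z) (T₁ r z)).det with hd
  have hdd : ∀ r : ℕ, 1 ≤ r → ∀ z ∈ ball (0 : ℂ) r, DifferentiableAt ℂ (d r) z := by
    intro r hr z hz
    refine glue_det_diff fun i j => ?_
    have : (fun y => (1 + FRmat (φ r) (fun k => ψ r k y) (T₁ r y)) i j) =
        fun y => (1 : Matrix (Fin (N r)) (Fin (N r)) ℂ) i j + ψ r i y (T₁ r y (φ r j)) := by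
      ext y; simp [FRmat]
    rw [this]
    refine (differentiableAt_const _).add ?_
    exact ((hyp r hr).2.2.1 i z).clm_apply ((hTd r hr z hz).clm_apply (differentiableAt_const _))
  have hinv : ∀ r : ℕ, 1 ≤ r → ∀ z ∈ ball (0 : ℂ) r, ∀ T : X →L[ℂ] X, T * (1 + A z) = 1 →
      (1 + A z) * T = 1 → d r z * (1 - FRmat (φ r) (fun k => ψ r k z) T).det = 1 := by
    intro r hr z hz T hTa hTb
    have := frInv X (N r) (φ r) (fun k => ψ r k z) (A₁ r z) (T₁ r z) T (hTl r hr z hz)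
      (hTr r hr z hz) (by rw [hAeq]; exact hTa) (by rw [hAeq]; exact hTb)
    rw [hd]
    simp only
    rw [← Matrix.det_mul, this, Matrix.det_one]
  have hker : ∀ r : ℕ, 1 ≤ r → ∀ z ∈ ball (0 : ℂ) r, d r z = 0 → ∃ u : X, u ≠ 0 ∧ u + A z u = 0 := by
    intro r hr z hz h0
    obtain ⟨u, hu, hu'⟩ := frKer X (N r) (φ r) (fun k => ψ r k z) (A₁ r z) (T₁ r z)
      (hTl r hr z hz) (hTr r hr z hz) h0
    exact ⟨u, hu, by rw [hAeq] at hu'; exact hu'⟩
  have huni : ∀ r : ℕ, 1 ≤ r → ∀ z ∈ ball (0 : ℂ) r, d r z ≠ 0 →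
      ∃ T : X →L[ℂ] X, T * (1 + A z) = 1 ∧ (1 + A z) * T = 1 := by
    intro r hr z hz h0
    obtain ⟨T, hTa, hTb⟩ := frUnit X (N r) (φ r) (fun k => ψ r k z) (A₁ r z) (T₁ r z)
      (hTl r hr z hz) (hTr r hr z hz) h0
    exact ⟨T, by rw [hAeq] at hTa; exact hTa, by rw [hAeq] at hTb; exact hTb⟩
  have hent : ∀ r : ℕ, 1 ≤ r → ∀ z ∈ ball (0 : ℂ) r, ∀ T : X →L[ℂ] X, ∀ i j,
      ‖FRmat (φ r) (fun k => ψ r k z) T i j‖ ≤ ‖T‖ * Real.exp (2 * (C * (r : ℝ) ^ n)) := by
    intro r hr z hz T i j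
    have e1 : FRmat (φ r) (fun k => ψ r k z) T i j = ψ r i z (T (φ r j)) := rfl
    rw [e1]
    calc ‖ψ r i z (T (φ r j))‖ ≤ ‖ψ r i z‖ * (‖T‖ * ‖φ r j‖) :=
          ((ψ r i z).le_opNorm _).trans (by gcongr; exact T.le_opNorm _)
      _ ≤ Real.exp (C * (r : ℝ) ^ n) * (‖T‖ * Real.exp (C * (r : ℝ) ^ n)) := by
          gcongr
          · exact (hyp r hr).2.2.2.1 i z hz
          · exact (hyp r hr).2.1 j
      _ = ‖T‖ * Real.exp (2 * (C * (r : ℝ) ^ n)) := by rw [two_mul, Real.exp_add]; ring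
  have hpow : ∀ r : ℕ, 1 ≤ r → ∀ a : ℝ, 0 ≤ a →
      (C * (r : ℝ) ^ n) * (C * (r : ℝ) ^ n) + (C * (r : ℝ) ^ n) * (a + 2 * (C * (r : ℝ) ^ n)) ≤
        (3 * C ^ 2 + a * C) * (r : ℝ) ^ (2 * n) := by
    intro r hr a ha
    have hrR : (1 : ℝ) ≤ r := by exact_mod_cast hr
    have a2 : (r : ℝ) ^ n ≤ (r : ℝ) ^ (2 * n) := pow_le_pow_right₀ hrR (by omega)
    have a3 : (r : ℝ) ^ (2 * n) = (r : ℝ) ^ n * (r : ℝ) ^ n := by rw [two_mul, pow_add]
    have a4 : a * C * (r : ℝ) ^ n ≤ a * C * (r : ℝ) ^ (2 * n) := by gcongr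
    rw [a3] at a4 ⊢
    nlinarith
  refine ⟨d, 3 * C ^ 2 + (2 + ‖T0‖) * C, 2 * n, ?_, ?_, ?_⟩
  · intro r hr
    refine ⟨fun z hz => (hdd r hr z hz).differentiableWithinAt, ?_, ?_, ?_, ?_⟩
    · intro z hz
      have h6 := frBound (N r) (FRmat (φ r) (fun k => ψ r k z) (T₁ r z))
        (2 * Real.exp (2 * (C * (r : ℝ) ^ n))) (fun i j =>
        (hent r hr z hz (T₁ r z) i j).trans (by gcongr; exact hTn r hr z hz))
      refine h6.trans ?_
      calc _ ≤ Real.exp ((C * (r : ℝ) ^ n) * (C * (r : ℝ) ^ n)) *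
            Real.exp ((C * (r : ℝ) ^ n) * (2 + 2 * (C * (r : ℝ) ^ n))) := by
            gcongr
            · exact glue_fact (N r) _ (hyp r hr).1
            · exact glue_pow (N r) _ 2 (by norm_num) (hyp r hr).1
        _ = Real.exp ((C * (r : ℝ) ^ n) * (C * (r : ℝ) ^ n) +
            (C * (r : ℝ) ^ n) * (2 + 2 * (C * (r : ℝ) ^ n))) := by rw [← Real.exp_add]
        _ ≤ _ := by
            apply Real.exp_le_exp.mpr
            refine (hpow r hr 2 (by norm_num)).trans ?_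
            have : 0 ≤ ‖T0‖ * C := by positivity
            exact mul_le_mul_of_nonneg_right (by nlinarith) (by positivity)
    · intro hl0m
      have h6 := hinv r hr l0 hl0m T0 hT0 hT0'
      have h7 : (d r l0)⁻¹ = (1 + -FRmat (φ r) (fun k => ψ r k l0) T0).det := by
        rw [← sub_eq_add_neg]
        exact (eq_inv_of_mul_eq_one_right h6).symm
      have hne : d r l0 ≠ 0 := left_ne_zero_of_mul_eq_one h6
      have h8 := frBound (N r) (-FRmat (φ r) (fun k => ψ r k l0) T0)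
        (‖T0‖ * Real.exp (2 * (C * (r : ℝ) ^ n))) (fun i j => by
        rw [Matrix.neg_apply, norm_neg]; exact hent r hr l0 hl0m T0 i j)
      rw [← h7, norm_inv] at h8
      have h9 : ‖d r l0‖⁻¹ ≤ Real.exp ((3 * C ^ 2 + (2 + ‖T0‖) * C) * (r : ℝ) ^ (2 * n)) := by
        refine h8.trans ?_
        calc _ ≤ Real.exp ((C * (r : ℝ) ^ n) * (C * (r : ℝ) ^ n)) *
              Real.exp ((C * (r : ℝ) ^ n) * (‖T0‖ + 2 * (C * (r : ℝ) ^ n))) := by
              gcongr
              · exact glue_fact (N r) _ (hyp r hr).1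
              · exact glue_pow (N r) _ ‖T0‖ (norm_nonneg _) (hyp r hr).1
          _ = Real.exp ((C * (r : ℝ) ^ n) * (C * (r : ℝ) ^ n) +
              (C * (r : ℝ) ^ n) * (‖T0‖ + 2 * (C * (r : ℝ) ^ n))) := by rw [← Real.exp_add]
          _ ≤ _ := by
              apply Real.exp_le_exp.mpr
              refine (hpow r hr ‖T0‖ (norm_nonneg _)).trans ?_
              exact mul_le_mul_of_nonneg_right (by nlinarith) (by positivity)
      rw [Real.exp_neg]
      exact inv_le_of_inv_le₀ (norm_pos_iff.mpr hne) h9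
    · intro z hz
      refine ⟨hker r hr z hz, fun ⟨u, hu, hu'⟩ => ?_⟩
      by_contra h0
      obtain ⟨T, hTa, _⟩ := huni r hr z hz h0
      apply hu
      have h1 := congrArg (fun S : X →L[ℂ] X => S u) hTa
      have h2 : (T * (1 + A z)) u = T (u + A z u) := rfl
      have h3 : T (u + A z u) = u := h1
      rw [← h3, hu', map_zero]
    · intro z hz T T₁' A₁' hTa hTb hT1a hT1b hA'
      have hT1 : T₁ r z = T₁' := by
        calc T₁ r z = T₁ r z * ((1 + A₁ r z) * T₁') := by rw [hT1b, mul_one]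
          _ = (T₁ r z * (1 + A₁ r z)) * T₁' := by rw [mul_assoc]
          _ = T₁' := by rw [hTl r hr z hz, one_mul]
      have hnb : ball (0 : ℂ) r ∈ 𝓝 z := isOpen_ball.mem_nhds hz
      have := frDeriv X (N r) (φ r) (ψ r) (A₁ r) (T₁ r) z (fun k => deriv (ψ r k) z) A₁' T
        (Filter.eventually_of_mem hnb (hTl r hr)) (Filter.eventually_of_mem hnb (hTr r hr))
        (fun k => ((hyp r hr).2.2.1 k z).hasDerivAt) hA' (by rw [hAeq]; exact hTa)
        (by rw [hAeq]; exact hTb)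
      rw [hT1] at this
      have e : d r z = (1 + FRmat (φ r) (fun k => ψ r k z) T₁').det := by
        rw [← hT1]
      rw [e]
      exact this
  · intro r r' hr hrr'
    have hr' : 1 ≤ r' := hr.trans hrr'
    have hsub : ball (0 : ℂ) r ⊆ ball (0 : ℂ) r' := ball_subset_ball (by exact_mod_cast hrr')
    refine ⟨fun l => (1 + FRmat (Fin.append (φ r) (φ r'))
      (Fin.append (fun k => ψ r k l) (fun k => -ψ r' k l)) (T₁ r l)).det, ?_, ?_⟩
    · intro z hz
      refine DifferentiableAt.differentiableWithinAt (glue_det_diff fun i j => ?_)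
      have : (fun y => (1 + FRmat (Fin.append (φ r) (φ r'))
          (Fin.append (fun k => ψ r k y) (fun k => -ψ r' k y)) (T₁ r y)) i j) =
          fun y => (1 : Matrix (Fin (N r + N r')) (Fin (N r + N r')) ℂ) i j +
            (Fin.append (fun k => ψ r k y) (fun k => -ψ r' k y)) i
              (T₁ r y (Fin.append (φ r) (φ r') j)) := by
        ext y; simp [FRmat]
      rw [this]
      refine (differentiableAt_const _).add ?_
      refine DifferentiableAt.clm_apply ?_ ((hTd r hr z hz).clm_apply (differentiableAt_const _))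
      refine Fin.addCases (fun i => ?_) (fun i => ?_) i
      · simp only [Fin.append_left]
        exact (hyp r hr).2.2.1 i z
      · simp only [Fin.append_right]
        exact ((hyp r' hr').2.2.1 i z).neg
    · intro l hl
      obtain ⟨D, hD, hD0, hD1⟩ := h23 X (N r) (N r') (φ r) (fun k => ψ r k l) (φ r')
        (fun k => ψ r' k l) (A₁ r l) (T₁ r l) (A₁ r' l) (T₁ r' l) (by rw [hAeq, hAeq])
        (hTl r hr l hl) (hTr r hr l hl) (hTl r' hr' l (hsub hl)) (hTr r' hr' l (hsub hl))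
      simp only
      rw [← hD]
      exact ⟨hD0, by rw [mul_comm]; exact hD1⟩
  · intro κ hAp hψp r hr
    have hsub : ∀ l : ℂ, ‖l‖ ≤ 1 / 2 → l ∈ ball (0 : ℂ) r := fun l hl => by
      rw [mem_ball_zero_iff]
      have hrR : (1 : ℝ) ≤ r := by exact_mod_cast hr
      linarith
    obtain ⟨BA, hBA⟩ := hAp
    choose Bψ hBψ using hψp r hr
    have hBA0 : 0 ≤ |BA| := abs_nonneg _
    -- the difference of the small parts
    set BS : ℝ := |BA| + ∑ k, |Bψ k| * ‖φ r k‖ with hBS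
    have hBS0 : 0 ≤ BS := by positivity
    have hA1p : ∀ l : ℂ, ‖l‖ ≤ 1 / 2 → ‖A₁ r l - A₁ r (-l)‖ ≤ BS * ‖l‖ ^ κ := by
      intro l hl
      have hl1 : ‖l‖ ≤ 1 := by linarith
      have e1 : A₁ r l - A₁ r (-l) = (A l - A (-l)) -
          (FRop (φ r) (fun k => ψ r k l) - FRop (φ r) (fun k => ψ r k (-l))) := by
        simp only [hA₁]; abel
      rw [e1]
      refine (norm_sub_le _ _).trans ?_
      rw [hBS, add_mul]
      refine add_le_add ((hBA l hl1).trans (by gcongr; exact le_abs_self _)) ?_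
      refine (discDet_FRop_norm _ _ _).trans ?_
      rw [Finset.sum_mul]
      refine Finset.sum_le_sum fun k _ => ?_
      calc ‖ψ r k l - ψ r k (-l)‖ * ‖φ r k‖ ≤ (|Bψ k| * ‖l‖ ^ κ) * ‖φ r k‖ := by
            gcongr
            exact (hBψ k l hl1).trans (by gcongr; exact le_abs_self _)
        _ = |Bψ k| * ‖φ r k‖ * ‖l‖ ^ κ := by ring
    have hT1p : ∀ l : ℂ, ‖l‖ ≤ 1 / 2 → ‖T₁ r l - T₁ r (-l)‖ ≤ 4 * BS * ‖l‖ ^ κ := by
      intro l hl
      have hl' : ‖-l‖ ≤ 1 / 2 := by rwa [norm_neg]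
      have m1 := hsub l hl
      have m2 := hsub (-l) hl'
      have e1 : T₁ r l - T₁ r (-l) = T₁ r l * (A₁ r (-l) - A₁ r l) * T₁ r (-l) := by
        have e2 : A₁ r (-l) - A₁ r l = (1 + A₁ r (-l)) - (1 + A₁ r l) := by abel
        rw [e2, mul_sub, sub_mul, hTl r hr l m1, one_mul, mul_assoc, hTr r hr (-l) m2, mul_one]
      rw [e1]
      calc ‖T₁ r l * (A₁ r (-l) - A₁ r l) * T₁ r (-l)‖
          ≤ ‖T₁ r l‖ * ‖A₁ r (-l) - A₁ r l‖ * ‖T₁ r (-l)‖ :=
            (norm_mul_le _ _).trans (by gcongr; exact norm_mul_le _ _)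
        _ ≤ 2 * (BS * ‖l‖ ^ κ) * 2 := by
            gcongr
            · exact hTn r hr l m1
            · rw [norm_sub_rev]; exact hA1p l hl
            · exact hTn r hr (-l) m2
        _ = 4 * BS * ‖l‖ ^ κ := by ring
    have hgood : DDGood κ (d r) := by
      refine DDGood.det fun i j => ?_
      have e1 : (fun l => (1 + FRmat (φ r) (fun k => ψ r k l) (T₁ r l)) i j) =
          fun l => (1 : Matrix (Fin (N r)) (Fin (N r)) ℂ) i j + ψ r i l (T₁ r l (φ r j)) := by
        funext l; simp [FRmat]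
      rw [e1]
      refine (DDGood.const κ _).add ?_
      set Eψ : ℝ := Real.exp (C * (r : ℝ) ^ n) with hEψ
      refine ⟨Eψ * (2 * ‖φ r j‖) + |Bψ i| * (2 * ‖φ r j‖) + Eψ * (4 * BS * ‖φ r j‖),
        by positivity, fun l hl => ⟨?_, ?_⟩⟩
      · have m1 := hsub l hl
        calc ‖ψ r i l (T₁ r l (φ r j))‖ ≤ ‖ψ r i l‖ * (‖T₁ r l‖ * ‖φ r j‖) :=
              ((ψ r i l).le_opNorm _).trans (by gcongr; exact (T₁ r l).le_opNorm _)
          _ ≤ Eψ * (2 * ‖φ r j‖) := by
              gcongr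
              · exact (hyp r hr).2.2.2.1 i l m1
              · exact hTn r hr l m1
          _ ≤ _ := by
              have : 0 ≤ |Bψ i| * (2 * ‖φ r j‖) := by positivity
              have : 0 ≤ Eψ * (4 * BS * ‖φ r j‖) := by positivity
              linarith
      · have hl1 : ‖l‖ ≤ 1 := by linarith
        have hl' : ‖-l‖ ≤ 1 / 2 := by rwa [norm_neg]
        have m1 := hsub l hl
        have m2 := hsub (-l) hl'
        have e2 : ψ r i l (T₁ r l (φ r j)) - ψ r i (-l) (T₁ r (-l) (φ r j)) =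
            (ψ r i l - ψ r i (-l)) (T₁ r l (φ r j)) +
              ψ r i (-l) ((T₁ r l - T₁ r (-l)) (φ r j)) := by
          rw [_root_.sub_apply, _root_.sub_apply, map_sub]; ring
        rw [e2]
        have b1 : ‖(ψ r i l - ψ r i (-l)) (T₁ r l (φ r j))‖ ≤
            (|Bψ i| * ‖l‖ ^ κ) * (2 * ‖φ r j‖) := by
          calc _ ≤ ‖ψ r i l - ψ r i (-l)‖ * (‖T₁ r l‖ * ‖φ r j‖) :=
                (ContinuousLinearMap.le_opNorm _ _).trans
                  (by gcongr; exact (T₁ r l).le_opNorm _)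
            _ ≤ _ := by
                gcongr
                · exact (hBψ i l hl1).trans (by gcongr; exact le_abs_self _)
                · exact hTn r hr l m1
        have b2 : ‖ψ r i (-l) ((T₁ r l - T₁ r (-l)) (φ r j))‖ ≤
            Eψ * (4 * BS * ‖l‖ ^ κ * ‖φ r j‖) := by
          calc _ ≤ ‖ψ r i (-l)‖ * (‖T₁ r l - T₁ r (-l)‖ * ‖φ r j‖) :=
                (ContinuousLinearMap.le_opNorm _ _).trans
                  (by gcongr; exact ContinuousLinearMap.le_opNorm _ _)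
            _ ≤ _ := by
                gcongr
                · exact (hyp r hr).2.2.2.1 i (-l) m2
                · exact hT1p l hl
        have b3 : 0 ≤ Eψ * (2 * ‖φ r j‖) * ‖l‖ ^ κ := by positivity
        calc _ ≤ _ := norm_add_le _ _
          _ ≤ (|Bψ i| * ‖l‖ ^ κ) * (2 * ‖φ r j‖) + Eψ * (4 * BS * ‖l‖ ^ κ * ‖φ r j‖) :=
              add_le_add b1 b2
          _ ≤ _ := by nlinarith
    obtain ⟨B, _, hB⟩ := hgood
    exact ⟨B, 1 / 2, by norm_num, fun l hl => (hB l hl).2⟩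

end Pool.Agent.Work.MP_f2af60_mp

end

section

/-!
# MP_f2af60_mp, item Q25: factorisation and logarithm on the discs
-/

namespace Pool.Agent.Work.MP_f2af60_mp

open Filter Topology Metric

/-- One zero can be divided out with its full multiplicity, on a disc. -/
lemma dl_factor_one (R : ℝ) (D : ℂ → ℂ) (hD : DifferentiableOn ℂ D (ball 0 R))
    (hne : ∃ z ∈ ball (0 : ℂ) R, D z ≠ 0) (a : ℂ) (ha : a ∈ ball (0 : ℂ) R) :
    ∃ (n : ℕ) (D1 : ℂ → ℂ), DifferentiableOn ℂ D1 (ball 0 R) ∧ D1 a ≠ 0 ∧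
      ∀ z ∈ ball (0 : ℂ) R, D z = (z - a) ^ n * D1 z := by
  have han : AnalyticOnNhd ℂ D (ball 0 R) := hD.analyticOnNhd isOpen_ball
  have hnz : ¬ ∀ᶠ z in 𝓝 a, D z = 0 := by
    intro h
    obtain ⟨z, hz, hz0⟩ := hne
    exact hz0 (han.eqOn_zero_of_preconnected_of_eventuallyEq_zero
      (convex_ball (0 : ℂ) R).isPreconnected ha h hz)
  obtain ⟨n, g, hg, hga, hgD⟩ := ((han a ha).exists_eventuallyEq_pow_smul_nonzero_iff).2 hnz
  classical
  let D1 : ℂ → ℂ := fun z => if z = a then g a else D z / (z - a) ^ n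
  have hD1a : D1 a = g a := by simp [D1]
  have hD1 : ∀ z, z ≠ a → D1 z = D z / (z - a) ^ n := fun z hz => by simp [D1, hz]
  have hev : D1 =ᶠ[𝓝 a] g := by
    filter_upwards [hgD] with z hz
    by_cases hza : z = a
    · rw [hza, hD1a]
    · rw [hD1 z hza, hz, smul_eq_mul]
      have : (z - a) ^ n ≠ 0 := pow_ne_zero _ (sub_ne_zero.2 hza)
      field_simp
  refine ⟨n, D1, ?_, by rw [hD1a]; exact hga, ?_⟩
  · intro z hzR
    apply DifferentiableAt.differentiableWithinAt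
    by_cases hza : z = a
    · rw [hza]
      exact (hg.differentiableAt).congr_of_eventuallyEq hev
    · have h1 : D1 =ᶠ[𝓝 z] fun w => D w / (w - a) ^ n := by
        filter_upwards [isOpen_ne.mem_nhds hza] with w hw
        exact hD1 w hw
      refine DifferentiableAt.congr_of_eventuallyEq ?_ h1
      refine (hD.differentiableAt (isOpen_ball.mem_nhds hzR)).div ?_
        (pow_ne_zero _ (sub_ne_zero.2 hza))
      fun_prop
  · intro z _
    by_cases hza : z = a
    · have h1 := hgD.self_of_nhds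
      rw [smul_eq_mul] at h1
      rw [hza, h1, hD1a]
    · rw [hD1 z hza]
      have : (z - a) ^ n ≠ 0 := pow_ne_zero _ (sub_ne_zero.2 hza)
      field_simp

/-- All zeros can be divided out, on a disc. -/
lemma dl_factor_all (R : ℝ) (k : ℕ) : ∀ D : ℂ → ℂ, DifferentiableOn ℂ D (ball 0 R) →
    (∃ z ∈ ball (0 : ℂ) R, D z ≠ 0) → {z | z ∈ ball (0 : ℂ) R ∧ D z = 0}.Finite →
    {z | z ∈ ball (0 : ℂ) R ∧ D z = 0}.ncard = k →
    ∃ (P : Polynomial ℂ) (h : ℂ → ℂ), P.Monic ∧
      (∀ z, P.eval z = 0 → z ∈ ball (0 : ℂ) R ∧ D z = 0) ∧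
      DifferentiableOn ℂ h (ball 0 R) ∧ (∀ z ∈ ball (0 : ℂ) R, h z ≠ 0) ∧
      ∀ z ∈ ball (0 : ℂ) R, D z = P.eval z * h z := by
  induction k using Nat.strong_induction_on with
  | _ k ih =>
    intro D hD hne hfin hk
    by_cases hemp : {z | z ∈ ball (0 : ℂ) R ∧ D z = 0} = ∅
    · refine ⟨1, D, Polynomial.monic_one, ?_, hD, ?_, fun z _ => by simp⟩
      · intro z hz
        simp at hz
      · intro z hzR hz
        have : z ∈ {z | z ∈ ball (0 : ℂ) R ∧ D z = 0} := ⟨hzR, hz⟩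
        rw [hemp] at this
        exact this
    · obtain ⟨a, haR, ha⟩ := Set.nonempty_iff_ne_empty.2 hemp
      obtain ⟨n, D1, hD1, hD1a, hfac⟩ := dl_factor_one R D hD hne a haR
      have hsub : {z | z ∈ ball (0 : ℂ) R ∧ D1 z = 0} ⊂ {z | z ∈ ball (0 : ℂ) R ∧ D z = 0} := by
        refine ⟨fun z hz => ⟨hz.1, ?_⟩, fun h => ?_⟩
        · rw [hfac z hz.1, show D1 z = 0 from hz.2, mul_zero]
        · exact hD1a (h (⟨haR, ha⟩ : a ∈ {z | z ∈ ball (0 : ℂ) R ∧ D z = 0})).2
      have hlt : {z | z ∈ ball (0 : ℂ) R ∧ D1 z = 0}.ncard < k := by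
        rw [← hk]; exact Set.ncard_lt_ncard hsub hfin
      obtain ⟨P, h, hP, hPr, hh, hh0, hPh⟩ :=
        ih _ hlt D1 hD1 ⟨a, haR, hD1a⟩ (hfin.subset hsub.subset) rfl
      refine ⟨(Polynomial.X - Polynomial.C a) ^ n * P, h,
        ((Polynomial.monic_X_sub_C a).pow n).mul hP, ?_, hh, hh0, fun z hz => ?_⟩
      · intro z hz
        rw [Polynomial.eval_mul, mul_eq_zero] at hz
        rcases hz with hz | hz
        · have hza : z = a := by
            rw [Polynomial.eval_pow] at hz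
            have := eq_zero_of_pow_eq_zero hz
            simp only [Polynomial.eval_sub, Polynomial.eval_X, Polynomial.eval_C] at this
            exact sub_eq_zero.1 this
          rw [hza]
          exact ⟨haR, ha⟩
        · exact hsub.subset (hPr z hz)
      · rw [hfac z hz, hPh z hz]
        simp [mul_assoc]

/-- A zero free holomorphic function on a disc has a logarithm with given value at a point. -/
lemma dl_log (R : ℝ) (h : ℂ → ℂ) (hh : DifferentiableOn ℂ h (ball 0 R))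
    (h0 : ∀ z ∈ ball (0 : ℂ) R, h z ≠ 0) (l0 : ℂ) (hl0 : l0 ∈ ball (0 : ℂ) R) :
    ∃ g : ℂ → ℂ, DifferentiableOn ℂ g (ball 0 R) ∧ (∀ z ∈ ball (0 : ℂ) R, h z = Complex.exp (g z)) ∧
      g l0 = Complex.log (h l0) := by
  have hd : DifferentiableOn ℂ (deriv h) (ball 0 R) := hh.deriv isOpen_ball
  have hq : DifferentiableOn ℂ (fun z => deriv h z / h z) (ball 0 R) := hd.div hh h0
  obtain ⟨G, hG⟩ := hq.isExactOn_ball
  have hF : ∀ z ∈ ball (0 : ℂ) R, HasDerivAt (fun w => h w * Complex.exp (-G w)) 0 z := by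
    intro z hz
    have h1 : HasDerivAt (fun w => h w * Complex.exp (-G w)) (deriv h z * Complex.exp (-G z) +
        h z * (Complex.exp (-G z) * -(deriv h z / h z))) z :=
      ((hh.differentiableAt (isOpen_ball.mem_nhds hz)).hasDerivAt).mul ((hG z hz).neg.cexp)
    have h2 : deriv h z * Complex.exp (-G z) +
        h z * (Complex.exp (-G z) * -(deriv h z / h z)) = 0 := by
      have := h0 z hz
      field_simp
      ring
    rw [h2] at h1
    exact h1
  have hconst : ∀ z ∈ ball (0 : ℂ) R,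
      h z * Complex.exp (-G z) = h l0 * Complex.exp (-G l0) := by
    intro z hz
    have hdiff : DifferentiableOn ℂ (fun w => h w * Complex.exp (-G w)) (ball 0 R) :=
      fun w hw => (hF w hw).differentiableAt.differentiableWithinAt
    exact isOpen_ball.is_const_of_deriv_eq_zero (convex_ball (0 : ℂ) R).isPreconnected hdiff
      (fun w hw => (hF w hw).deriv) hz hl0
  refine ⟨fun z => G z - G l0 + Complex.log (h l0), ?_, fun z hz => ?_, by simp⟩
  · intro z hz
    exact (((hG z hz).differentiableAt.sub_const _).add_const _).differentiableWithinAt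
  · rw [Complex.exp_add, Complex.exp_log (h0 l0 hl0), sub_eq_add_neg, Complex.exp_add,
      mul_assoc, mul_comm (Complex.exp (-G l0)), ← hconst z hz, mul_comm (h z), ← mul_assoc,
      ← Complex.exp_add]
    simp

/-- The factorisation extends to larger discs. -/
lemma dl_ext (r1 r : ℝ) (D1 D U h1 : ℂ → ℂ) (Z : Set ℂ) (hZ : Z.Finite)
    (hZr : Z ⊆ ball (0 : ℂ) r1) (P : Polynomial ℂ) (hP : ∀ z, P.eval z = 0 → z ∈ Z)
    (hh : DifferentiableOn ℂ h1 (ball 0 r1)) (hh0 : ∀ z ∈ ball (0 : ℂ) r1, h1 z ≠ 0)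
    (hD1 : ∀ z ∈ ball (0 : ℂ) r1, D1 z = P.eval z * h1 z)
    (hU : DifferentiableOn ℂ U (ball 0 r1)) (hU0 : ∀ z ∈ ball (0 : ℂ) r1, U z ≠ 0)
    (hUD : ∀ z ∈ ball (0 : ℂ) r1, D1 z = U z * D z)
    (hD : DifferentiableOn ℂ D (ball 0 r)) (hDZ : ∀ z ∈ ball (0 : ℂ) r, D z = 0 ↔ z ∈ Z) :
    ∃ H : ℂ → ℂ, DifferentiableOn ℂ H (ball 0 r) ∧ (∀ z ∈ ball (0 : ℂ) r, H z ≠ 0) ∧
      ∀ z ∈ ball (0 : ℂ) r, D z = P.eval z * H z := by
  classical
  let H : ℂ → ℂ := fun z => if z ∈ ball (0 : ℂ) r1 then h1 z / U z else D z / P.eval z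
  have hHin : ∀ z ∈ ball (0 : ℂ) r1, H z = h1 z / U z := fun z hz => by
    simp only [H]
    rw [if_pos hz]
  have hHout : ∀ z, z ∉ Z → z ∈ ball (0 : ℂ) r → H z = D z / P.eval z := by
    intro z hz hzr
    have hPz : P.eval z ≠ 0 := fun h => hz (hP z h)
    by_cases hz1 : z ∈ ball (0 : ℂ) r1
    · rw [hHin z hz1, div_eq_div_iff (hU0 z hz1) hPz, mul_comm, ← hD1 z hz1, hUD z hz1, mul_comm]
    · simp only [H]
      rw [if_neg hz1]
  refine ⟨H, ?_, ?_, ?_⟩
  · intro z hz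
    apply DifferentiableAt.differentiableWithinAt
    by_cases hz1 : z ∈ ball (0 : ℂ) r1
    · have h2 : DifferentiableAt ℂ (fun z => h1 z / U z) z :=
        (hh.differentiableAt (isOpen_ball.mem_nhds hz1)).div
          (hU.differentiableAt (isOpen_ball.mem_nhds hz1)) (hU0 z hz1)
      refine h2.congr_of_eventuallyEq ?_
      filter_upwards [isOpen_ball.mem_nhds hz1] with w hw
      exact hHin w hw
    · have hzZ : z ∉ Z := fun h => hz1 (hZr h)
      have h2 : DifferentiableAt ℂ (fun z => D z / P.eval z) z :=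
        (hD.differentiableAt (isOpen_ball.mem_nhds hz)).div P.differentiable.differentiableAt
          (fun h => hzZ (hP z h))
      refine h2.congr_of_eventuallyEq ?_
      filter_upwards [isOpen_ball.mem_nhds hz, hZ.isClosed.isOpen_compl.mem_nhds hzZ] with w hw hw2
      exact hHout w hw2 hw
  · intro z hz
    by_cases hz1 : z ∈ ball (0 : ℂ) r1
    · rw [hHin z hz1]
      exact div_ne_zero (hh0 z hz1) (hU0 z hz1)
    · have hzZ : z ∉ Z := fun h => hz1 (hZr h)
      rw [hHout z hzZ hz]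
      exact div_ne_zero (fun h => hzZ ((hDZ z hz).1 h)) (fun h => hzZ (hP z h))
  · intro z hz
    by_cases hz1 : z ∈ ball (0 : ℂ) r1
    · rw [hHin z hz1, ← mul_div_assoc, ← hD1 z hz1, hUD z hz1, mul_div_cancel_left₀ _ (hU0 z hz1)]
    · have hzZ : z ∉ Z := fun h => hz1 (hZr h)
      rw [hHout z hzZ hz, mul_div_cancel₀ _ (fun h => hzZ (hP z h))]

/-- Bounds for the Taylor coefficients of the logarithm. -/
lemma dl_coeff (r : ℝ) (hr : 0 < r) (H : ℂ → ℂ) (hH : DifferentiableOn ℂ H (ball 0 r))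
    (h0 : ∀ z ∈ ball (0 : ℂ) r, H z ≠ 0) (l0 : ℂ) (hl0 : ‖l0‖ ≤ r / 8) (M : ℝ) (hM : 0 < M)
    (hup : ∀ z ∈ ball (0 : ℂ) (r / 2), ‖H z‖ ≤ Real.exp M) (hlow : Real.exp (-M) ≤ ‖H l0‖) :
    ∃ c : ℕ → ℂ, (∀ j, ‖c j‖ ≤ (24 * (M + 1)) * (8 / r) ^ j) ∧
      ∀ l ∈ ball (0 : ℂ) (r / 8), H l = Complex.exp (∑' j, c j * l ^ j) := by
  have hl0r : l0 ∈ ball (0 : ℂ) r := by
    rw [mem_ball_zero_iff]
    linarith
  obtain ⟨g, hg, hgH, hgl⟩ := dl_log r H hH h0 l0 hl0r
  have hsub : ball (0 : ℂ) (r / 2) ⊆ ball 0 r := ball_subset_ball (by linarith)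
  have hre : ∀ z ∈ ball (0 : ℂ) (r / 2), (g z).re ≤ M := by
    intro z hz
    have h1 := hup z hz
    rw [hgH z (hsub hz), Complex.norm_exp] at h1
    exact Real.exp_le_exp.1 h1
  have hHl : 0 < ‖H l0‖ := norm_pos_iff.2 (h0 l0 hl0r)
  have hgl0 : ‖g l0‖ ≤ M + 4 := by
    have h1 : |(g l0).re| ≤ M := by
      rw [hgl, Complex.log_re, abs_le]
      constructor
      · have := Real.log_le_log (Real.exp_pos _) hlow
        rwa [Real.log_exp] at this
      · have h2 := hup l0 (by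
          rw [mem_ball_zero_iff]
          linarith)
        have := Real.log_le_log hHl h2
        rwa [Real.log_exp] at this
    have h2 : |(g l0).im| ≤ 4 := by
      rw [hgl, Complex.log_im]
      exact (Complex.abs_arg_le_pi _).trans Real.pi_le_four
    exact (Complex.norm_le_abs_re_add_abs_im _).trans (add_le_add h1 h2)
  -- the value at zero
  have hg0 : ‖g 0‖ ≤ 2 * M + 3 * (M + 4) := by
    have hd : DifferentiableOn ℂ (fun w => g (l0 + w)) (ball 0 (r / 4)) := by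
      intro w hw
      rw [mem_ball_zero_iff] at hw
      have hw2 : l0 + w ∈ ball (0 : ℂ) r := by
        rw [mem_ball_zero_iff]
        have := norm_add_le l0 w
        linarith
      apply DifferentiableAt.differentiableWithinAt
      have h3 := hg.differentiableAt (isOpen_ball.mem_nhds hw2)
      exact h3.comp w (by fun_prop)
    have h1 := Complex.borelCaratheodory (f := fun w => g (l0 + w)) (R := r / 4) (M := M)
      (z := -l0) hM hd (by
        intro w hw
        rw [mem_ball_zero_iff] at hw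
        apply hre
        rw [mem_ball_zero_iff]
        have := norm_add_le l0 w
        linarith) (by linarith) (by
        rw [mem_ball_zero_iff, norm_neg]
        linarith)
    simp only [add_neg_cancel, norm_neg, add_zero] at h1
    refine h1.trans ?_
    have hl := norm_nonneg l0
    have h4 : 0 < r / 4 - ‖l0‖ := by linarith
    have h5 : 2 * M * ‖l0‖ / (r / 4 - ‖l0‖) ≤ 2 * M := by
      rw [div_le_iff₀ h4]
      have : ‖l0‖ ≤ r / 4 - ‖l0‖ := by linarith
      nlinarith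
    have h6 : ‖g l0‖ * (r / 4 + ‖l0‖) / (r / 4 - ‖l0‖) ≤ 3 * (M + 4) := by
      rw [div_le_iff₀ h4]
      have h7 : r / 4 + ‖l0‖ ≤ 3 * (r / 4 - ‖l0‖) := by linarith
      calc ‖g l0‖ * (r / 4 + ‖l0‖) ≤ (M + 4) * (3 * (r / 4 - ‖l0‖)) :=
            mul_le_mul hgl0 h7 (by linarith) (by linarith)
        _ = _ := by ring
    linarith
  have hsph : ∀ z ∈ sphere (0 : ℂ) (r / 8), ‖g z‖ ≤ 24 * (M + 1) := by
    intro z hz
    have hzr : ‖z‖ = r / 8 := by simpa using hz
    have h1 := Complex.borelCaratheodory (f := g) (R := r / 2) (M := M) (z := z) hM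
      (hg.mono hsub) hre (by linarith) (by
        rw [mem_ball_zero_iff, hzr]
        linarith)
    rw [hzr] at h1
    refine h1.trans ?_
    have e1 : 2 * M * (r / 8) / (r / 2 - r / 8) = 2 / 3 * M := by
      field_simp
      ring
    have e2 : ‖g 0‖ * (r / 2 + r / 8) / (r / 2 - r / 8) = 5 / 3 * ‖g 0‖ := by
      field_simp
      ring
    rw [e1, e2]
    linarith
  refine ⟨fun j => (j.factorial : ℂ)⁻¹ * iteratedDeriv j g 0, ?_, ?_⟩
  · intro j
    have hr8 : 0 < r / 8 := by linarith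
    have hdc : DiffContOnCl ℂ g (ball 0 (r / 8)) := by
      apply DifferentiableOn.diffContOnCl
      apply hg.mono
      rw [closure_ball _ hr8.ne']
      exact closedBall_subset_ball (by linarith)
    have h2 := Complex.norm_iteratedDeriv_le_of_forall_mem_sphere_norm_le j hr8 hdc hsph
    rw [norm_mul, norm_inv, Complex.norm_natCast]
    have hj : (0 : ℝ) < j.factorial := by exact_mod_cast j.factorial_pos
    rw [inv_mul_le_iff₀ hj]
    refine h2.trans (le_of_eq ?_)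
    rw [div_pow, div_pow]
    field_simp
  · intro l hl
    have hlr : l ∈ ball (0 : ℂ) r := ball_subset_ball (by linarith) hl
    rw [hgH l hlr]
    congr 1
    have h3 := Complex.taylorSeries_eq_on_ball hg hlr
    rw [← h3]
    apply tsum_congr
    intro j
    simp only [sub_zero, smul_eq_mul]
    ring

/-- Item Q25. -/
theorem discLog : DiscLog := by
  intro D l0 C n Z hZ hD hU
  -- a radius containing everything
  obtain ⟨r1, hr1, hZr1, hl0r1⟩ : ∃ r1 : ℕ, 1 ≤ r1 ∧ Z ⊆ ball (0 : ℂ) r1 ∧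
      l0 ∈ ball (0 : ℂ) r1 := by
    obtain ⟨ρ, hρ⟩ := (hZ.insert l0).isBounded.subset_ball (0 : ℂ)
    obtain ⟨N, hN⟩ := exists_nat_ge ρ
    refine ⟨N + 1, by omega, ?_, ?_⟩
    · intro z hz
      have h1 := hρ (Set.mem_insert_of_mem l0 hz)
      rw [mem_ball] at h1 ⊢
      push_cast
      linarith
    · have h1 := hρ (Set.mem_insert l0 Z)
      rw [mem_ball] at h1 ⊢
      push_cast
      linarith
  obtain ⟨hd1, _, hlow1, hz1⟩ := hD r1 hr1
  have hne1 : D r1 l0 ≠ 0 := by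
    have h1 := hlow1 hl0r1
    intro h0
    rw [h0, norm_zero] at h1
    exact absurd h1 (not_le.2 (Real.exp_pos _))
  have hfin1 : {z | z ∈ ball (0 : ℂ) r1 ∧ D r1 z = 0}.Finite :=
    hZ.subset fun z hz => (hz1 z hz.1).1 hz.2
  obtain ⟨P, h1, hPm, hPr, hh1, hh10, hfac1⟩ :=
    dl_factor_all r1 _ (D r1) hd1 ⟨l0, hl0r1, hne1⟩ hfin1 rfl
  have hPZ : ∀ z, P.eval z = 0 → z ∈ Z := fun z hz => (hz1 z (hPr z hz).1).1 (hPr z hz).2
  have hPl0 : P.eval l0 ≠ 0 := by
    intro h
    apply hne1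
    rw [hfac1 l0 hl0r1, h, zero_mul]
  obtain ⟨c0, Rl, hc0, hRl, hPlow⟩ := pe_lower P hPm.ne_zero
  set A : ℝ := |C| + |Real.log c0| + |Real.log ‖P.eval l0‖| + 1 with hA
  have hA1 : 1 ≤ A := by
    have := abs_nonneg C
    have := abs_nonneg (Real.log c0)
    have := abs_nonneg (Real.log ‖P.eval l0‖)
    rw [hA]
    linarith
  obtain ⟨r2, hr2⟩ := exists_nat_ge (max (2 * Rl) (8 * ‖l0‖))
  set r0 : ℕ := max r1 (max r2 1) with hr0
  -- for every large disc
  have key : ∀ r : ℕ, r0 ≤ r → ∃ c : ℕ → ℂ,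
      (∀ j, ‖c j‖ ≤ (24 * (A * (r : ℝ) ^ n + 1)) * (8 / (r : ℝ)) ^ j) ∧
      ∀ l ∈ ball (0 : ℂ) ((r : ℝ) / 8), D r l = P.eval l * Complex.exp (∑' j, c j * l ^ j) := by
    intro r hr
    have hr1r : r1 ≤ r := (le_max_left _ _).trans hr
    have hr2r : r2 ≤ r := (le_max_left _ _).trans ((le_max_right _ _).trans hr)
    have hr1' : 1 ≤ r := (le_max_right _ _).trans ((le_max_right _ _).trans hr)
    have hr2R : (r2 : ℝ) ≤ r := by exact_mod_cast hr2r
    have hrR : (1 : ℝ) ≤ r := by exact_mod_cast hr1'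
    have hr0R : (0 : ℝ) < r := by linarith
    have hRlr : 2 * Rl ≤ r := (le_max_left _ _).trans (hr2.trans hr2R)
    have hl0r : 8 * ‖l0‖ ≤ r := (le_max_right _ _).trans (hr2.trans hr2R)
    obtain ⟨hdr, hupr, hlowr, hzr⟩ := hD r hr1'
    obtain ⟨U, hUd, hU2⟩ := hU r1 r hr1 hr1r
    obtain ⟨H, hH, hH0, hHfac⟩ := dl_ext r1 r (D r1) (D r) U h1 Z hZ hZr1 P hPZ hh1 hh10 hfac1
      hUd (fun z hz => (hU2 z hz).1) (fun z hz => (hU2 z hz).2) hdr hzr
    have hrn : (1 : ℝ) ≤ (r : ℝ) ^ n := one_le_pow₀ hrR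
    have hl0b : l0 ∈ ball (0 : ℂ) r := by
      rw [mem_ball_zero_iff]
      have := norm_nonneg l0
      by_cases h : ‖l0‖ = 0
      · rw [h]
        exact hr0R
      · have : 0 < ‖l0‖ := lt_of_le_of_ne (norm_nonneg _) (Ne.symm h)
        linarith
    have hsph : ∀ z ∈ sphere (0 : ℂ) ((r : ℝ) / 2), ‖H z‖ ≤ Real.exp (A * (r : ℝ) ^ n) := by
      intro z hz
      have hzr2 : ‖z‖ = (r : ℝ) / 2 := by simpa using hz
      have hzb : z ∈ ball (0 : ℂ) r := by
        rw [mem_ball_zero_iff, hzr2]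
        linarith
      have h2 : c0 * ‖H z‖ ≤ ‖D r z‖ := by
        rw [hHfac z hzb, norm_mul]
        exact mul_le_mul_of_nonneg_right (hPlow z (by rw [hzr2]; linarith)) (norm_nonneg _)
      have h3 : ‖H z‖ ≤ Real.exp (C * (r : ℝ) ^ n) / c0 := by
        rw [le_div_iff₀ hc0]
        linarith [hupr z hzb]
      refine h3.trans ?_
      rw [div_eq_mul_inv, ← Real.exp_log (inv_pos.2 hc0), Real.log_inv, ← Real.exp_add]
      apply Real.exp_le_exp.2
      have h4 : C * (r : ℝ) ^ n ≤ |C| * (r : ℝ) ^ n :=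
        mul_le_mul_of_nonneg_right (le_abs_self C) (by positivity)
      have h5 : -Real.log c0 ≤ |Real.log c0| * (r : ℝ) ^ n :=
        (neg_le_abs _).trans (le_mul_of_one_le_right (abs_nonneg _) hrn)
      have h6 : 0 ≤ (|Real.log ‖P.eval l0‖| + 1) * (r : ℝ) ^ n := by positivity
      rw [hA]
      nlinarith
    have hr2p : (r : ℝ) / 2 ≠ 0 := by positivity
    have hup : ∀ z ∈ ball (0 : ℂ) ((r : ℝ) / 2), ‖H z‖ ≤ Real.exp (A * (r : ℝ) ^ n) := by
      intro z hz
      have hdc : DiffContOnCl ℂ H (ball 0 ((r : ℝ) / 2)) := by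
        apply DifferentiableOn.diffContOnCl
        apply hH.mono
        rw [closure_ball _ hr2p]
        exact closedBall_subset_ball (by linarith)
      refine Complex.norm_le_of_forall_mem_frontier_norm_le isBounded_ball hdc ?_
        (subset_closure hz)
      rw [frontier_ball _ hr2p]
      exact hsph
    have hlow : Real.exp (-(A * (r : ℝ) ^ n)) ≤ ‖H l0‖ := by
      have hPp : 0 < ‖P.eval l0‖ := norm_pos_iff.2 hPl0
      have h2 := hlowr hl0b
      rw [hHfac l0 hl0b, norm_mul] at h2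
      have h3 : Real.exp (-(C * (r : ℝ) ^ n)) / ‖P.eval l0‖ ≤ ‖H l0‖ := by
        rw [div_le_iff₀ hPp]
        linarith
      refine le_trans ?_ h3
      rw [div_eq_mul_inv, ← Real.exp_log (inv_pos.2 hPp), Real.log_inv, ← Real.exp_add]
      apply Real.exp_le_exp.2
      have h4 : C * (r : ℝ) ^ n ≤ |C| * (r : ℝ) ^ n :=
        mul_le_mul_of_nonneg_right (le_abs_self C) (by positivity)
      have h5 : Real.log ‖P.eval l0‖ ≤ |Real.log ‖P.eval l0‖| * (r : ℝ) ^ n :=
        (le_abs_self _).trans (le_mul_of_one_le_right (abs_nonneg _) hrn)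
      have h6 : 0 ≤ (|Real.log c0| + 1) * (r : ℝ) ^ n := by positivity
      rw [hA]
      nlinarith
    obtain ⟨c, hc1, hc2⟩ := dl_coeff r hr0R H hH hH0 l0 (by linarith) (A * (r : ℝ) ^ n)
      (by positivity) hup hlow
    refine ⟨c, hc1, fun l hl => ?_⟩
    rw [hHfac l (ball_subset_ball (by linarith) hl), hc2 l hl]
  classical
  choose! c hc using key
  refine ⟨P, c, 24 * (A + 1), r0, n, hPm, (le_max_right _ _).trans (le_max_right _ _), hPZ,
    fun r hr j => ?_, fun r hr => (hc r hr).2⟩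
  refine ((hc r hr).1 j).trans ?_
  have hr1' : 1 ≤ r := (le_max_right _ _).trans ((le_max_right _ _).trans hr)
  have hrR : (1 : ℝ) ≤ r := by exact_mod_cast hr1'
  have hrn : (1 : ℝ) ≤ (r : ℝ) ^ n := one_le_pow₀ hrR
  apply mul_le_mul_of_nonneg_right _ (by positivity)
  nlinarith

end Pool.Agent.Work.MP_f2af60_mp

end

section

/-!
# MP_f2af60_mp, Q1: the functions `eb q`
-/

set_option autoImplicit false

namespace Pool.Agent.Work.MP_f2af60_mp

open Filter Topology

theorem ebq_pi : (Real.pi : ℂ) ≠ 0 := Complex.ofReal_ne_zero.2 Real.pi_ne_zero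

theorem ebq_rec (j : ℕ) : eb (j + 2) = fun z => ((2 * (j : ℂ) + 3) * eb (j + 1) z -
    z ^ 2 / (2 * (Real.pi : ℂ)) * eb j z) / (2 * (Real.pi : ℂ)) := by
  funext z
  rw [eb]

theorem ebq_zero : eb 0 = fun z => Complex.exp (Complex.I * z) / (4 * (Real.pi : ℂ)) := by
  funext z
  rw [eb]

theorem ebq_one : eb 1 = fun z => Complex.exp (Complex.I * z) * (1 - Complex.I * z) /
    (8 * (Real.pi : ℂ) ^ 2) := by
  funext z
  rw [eb]

theorem ebq_hd_exp (z : ℂ) : HasDerivAt (fun z => Complex.exp (Complex.I * z))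
    (Complex.exp (Complex.I * z) * Complex.I) z := by
  have h1 : HasDerivAt (fun z : ℂ => Complex.I * z) Complex.I z := by
    simpa using (hasDerivAt_id z).const_mul Complex.I
  exact h1.cexp

theorem ebq_hd_zero (z : ℂ) : HasDerivAt (eb 0) (Complex.I * eb 0 z) z := by
  rw [ebq_zero]
  refine ((ebq_hd_exp z).div_const _).congr_deriv ?_
  ring

theorem ebq_hd_one (z : ℂ) : HasDerivAt (eb 1) (z * eb 0 z / (2 * (Real.pi : ℂ))) z := by
  rw [ebq_zero, ebq_one]
  have h1 : HasDerivAt (fun z : ℂ => 1 - Complex.I * z) (-Complex.I) z := by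
    have h2 : HasDerivAt (fun z : ℂ => Complex.I * z) Complex.I z := by
      simpa using (hasDerivAt_id z).const_mul Complex.I
    simpa using h2.const_sub 1
  refine (((ebq_hd_exp z).mul h1).div_const _).congr_deriv ?_
  have hp := ebq_pi
  field_simp
  ring_nf
  rw [Complex.I_sq]
  ring

theorem ebq_main : ∀ q : ℕ, Differentiable ℂ (eb q) ∧
    (∀ z : ℂ, HasDerivAt (eb (q + 1)) (z * eb q z / (2 * (Real.pi : ℂ))) z) ∧
    (∀ z : ℂ, 2 * (Real.pi : ℂ) * eb (q + 1) z = (2 * (q : ℂ) + 1) * eb q z - z * deriv (eb q) z) := by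
  have hp := ebq_pi
  intro q
  induction q with
  | zero =>
    refine ⟨fun z => (ebq_hd_zero z).differentiableAt, ebq_hd_one, fun z => ?_⟩
    rw [(ebq_hd_zero z).deriv, ebq_zero, ebq_one]
    field_simp
    push_cast
    ring
  | succ q ih =>
    obtain ⟨ih1, ih2, ih3⟩ := ih
    have hd : Differentiable ℂ (eb (q + 1)) := fun z => (ih2 z).differentiableAt
    refine ⟨hd, fun z => ?_, fun z => ?_⟩
    · rw [ebq_rec]
      have h1 := (ih2 z).const_mul (2 * (q : ℂ) + 3)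
      have h2 : HasDerivAt (fun z : ℂ => z ^ 2 / (2 * (Real.pi : ℂ))) (2 * z / (2 * (Real.pi : ℂ)))
          z := by
        simpa using (hasDerivAt_pow 2 z).div_const (2 * (Real.pi : ℂ))
      have h3 := h2.mul (ih1 z).hasDerivAt
      refine ((h1.sub h3).div_const (2 * (Real.pi : ℂ))).congr_deriv ?_
      have h4 := ih3 z
      have h5 : z * deriv (eb q) z = (2 * (q : ℂ) + 1) * eb q z - 2 * (Real.pi : ℂ) * eb (q + 1) z := by
        rw [h4]
        ring
      have h6 : z ^ 2 / (2 * (Real.pi : ℂ)) * deriv (eb q) z =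
          z / (2 * (Real.pi : ℂ)) * (z * deriv (eb q) z) := by ring
      rw [h6, h5]
      field_simp
      ring
    · rw [(ih2 z).deriv, ebq_rec]
      field_simp
      push_cast
      ring

theorem ebq_growth : ∀ q : ℕ, ∃ C : ℝ, 0 ≤ C ∧
    ∀ z : ℂ, ‖eb q z‖ ≤ C * (1 + ‖z‖) ^ q * Real.exp (-z.im) := by
  have hexp : ∀ z : ℂ, ‖Complex.exp (Complex.I * z)‖ = Real.exp (-z.im) := by
    intro z
    rw [Complex.norm_exp]
    simp
  have hpi : ‖(Real.pi : ℂ)‖ = Real.pi := by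
    rw [Complex.norm_real, Real.norm_of_nonneg Real.pi_pos.le]
  have hpp := Real.pi_pos
  suffices h : ∀ q : ℕ, (∃ C : ℝ, 0 ≤ C ∧
      ∀ z : ℂ, ‖eb q z‖ ≤ C * (1 + ‖z‖) ^ q * Real.exp (-z.im)) ∧ (∃ C : ℝ, 0 ≤ C ∧
      ∀ z : ℂ, ‖eb (q + 1) z‖ ≤ C * (1 + ‖z‖) ^ (q + 1) * Real.exp (-z.im)) from fun q => (h q).1
  intro q
  induction q with
  | zero =>
    refine ⟨⟨1 / (4 * Real.pi), by positivity, fun z => ?_⟩,
      ⟨1 / (8 * Real.pi ^ 2), by positivity, fun z => ?_⟩⟩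
    · rw [ebq_zero, norm_div, hexp, norm_mul, hpi, pow_zero, Complex.norm_ofNat]
      exact le_of_eq (by ring)
    · have h1 : ‖1 - Complex.I * z‖ ≤ 1 + ‖z‖ := by
        refine (norm_sub_le _ _).trans ?_
        rw [norm_mul, Complex.norm_I, norm_one, one_mul]
      rw [ebq_one, norm_div, norm_mul, hexp, norm_mul, norm_pow, hpi, zero_add, pow_one,
        Complex.norm_ofNat]
      calc Real.exp (-z.im) * ‖1 - Complex.I * z‖ / (8 * Real.pi ^ 2)
          ≤ Real.exp (-z.im) * (1 + ‖z‖) / (8 * Real.pi ^ 2) := by gcongr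
        _ = _ := by ring
  | succ q ih =>
    refine ⟨ih.2, ?_⟩
    obtain ⟨⟨C₀, hC₀, h₀⟩, ⟨C₁, hC₁, h₁⟩⟩ := ih
    refine ⟨((2 * q + 3) * C₁ + C₀ / (2 * Real.pi)) / (2 * Real.pi), by positivity, fun z => ?_⟩
    rw [ebq_rec]
    have hz : (1 : ℝ) ≤ 1 + ‖z‖ := le_add_of_nonneg_right (norm_nonneg z)
    have hz0 : ‖z‖ ≤ 1 + ‖z‖ := le_add_of_nonneg_left zero_le_one
    have h2 : ‖(2 * (q : ℂ) + 3)‖ = 2 * q + 3 := by
      rw [show (2 * (q : ℂ) + 3) = ((2 * q + 3 : ℝ) : ℂ) by push_cast; ring, Complex.norm_real,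
        Real.norm_of_nonneg (by positivity)]
    rw [norm_div, norm_mul, hpi, Complex.norm_ofNat]
    have h3 : ‖(2 * (q : ℂ) + 3) * eb (q + 1) z‖ ≤
        (2 * q + 3) * C₁ * (1 + ‖z‖) ^ (q + 2) * Real.exp (-z.im) := by
      rw [norm_mul, h2]
      calc (2 * (q : ℝ) + 3) * ‖eb (q + 1) z‖
          ≤ (2 * q + 3) * (C₁ * (1 + ‖z‖) ^ (q + 1) * Real.exp (-z.im)) := by gcongr; exact h₁ z
        _ ≤ (2 * q + 3) * (C₁ * (1 + ‖z‖) ^ (q + 2) * Real.exp (-z.im)) := by
            have h5 := pow_le_pow_right₀ hz (Nat.le_succ (q + 1))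
            gcongr
        _ = _ := by ring
    have h4 : ‖z ^ 2 / (2 * (Real.pi : ℂ)) * eb q z‖ ≤
        C₀ / (2 * Real.pi) * (1 + ‖z‖) ^ (q + 2) * Real.exp (-z.im) := by
      rw [norm_mul, norm_div, norm_pow, norm_mul, hpi, Complex.norm_ofNat]
      calc ‖z‖ ^ 2 / (2 * Real.pi) * ‖eb q z‖
          ≤ (1 + ‖z‖) ^ 2 / (2 * Real.pi) * (C₀ * (1 + ‖z‖) ^ q * Real.exp (-z.im)) := by
            gcongr
            exact h₀ z
        _ = _ := by ring
    calc ‖(2 * (q : ℂ) + 3) * eb (q + 1) z - z ^ 2 / (2 * (Real.pi : ℂ)) * eb q z‖ /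
          (2 * Real.pi)
        ≤ ((2 * q + 3) * C₁ * (1 + ‖z‖) ^ (q + 2) * Real.exp (-z.im) +
          C₀ / (2 * Real.pi) * (1 + ‖z‖) ^ (q + 2) * Real.exp (-z.im)) / (2 * Real.pi) := by
          gcongr
          exact (norm_sub_le _ _).trans (add_le_add h3 h4)
      _ = _ := by ring

theorem ebq_mv {D D' : ℂ → ℂ} (hD : ∀ z, HasDerivAt D (D' z) z) (h0 : D 0 = 0) {z : ℂ} {B : ℝ}
    (hB : ∀ w, ‖w‖ ≤ ‖z‖ → ‖D' w‖ ≤ B) : ‖D z‖ ≤ B * ‖z‖ := by
  have h := (convex_closedBall (0 : ℂ) ‖z‖).norm_image_sub_le_of_norm_hasDerivWithin_le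
    (f := D) (f' := D') (C := B) (x := 0) (y := z) (fun w _ => (hD w).hasDerivWithinAt)
    (fun w hw => hB w (by simpa using hw)) (by simp) (by simp)
  rwa [h0, sub_zero, sub_zero] at h

theorem ebq_odd : ∀ q : ℕ, ∃ C : ℝ, 0 ≤ C ∧ ∀ z : ℂ, ‖z‖ ≤ 1 →
    ‖eb q z - eb q (-z)‖ ≤ C * ‖z‖ ^ (2 * q + 1) := by
  have hp := ebq_pi
  have hpp := Real.pi_pos
  have hpi : ‖(Real.pi : ℂ)‖ = Real.pi := by
    rw [Complex.norm_real, Real.norm_of_nonneg Real.pi_pos.le]
  intro q
  induction q with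
  | zero =>
    obtain ⟨C, hC, hg⟩ := ebq_growth 0
    refine ⟨2 * (C * Real.exp 1), by positivity, fun z hz => ?_⟩
    have hD : ∀ z, HasDerivAt (fun z => eb 0 z - eb 0 (-z))
        (Complex.I * eb 0 z + Complex.I * eb 0 (-z)) z := by
      intro z
      have h1 := (ebq_hd_zero (-z)).comp z (hasDerivAt_neg z)
      refine ((ebq_hd_zero z).sub h1).congr_deriv ?_
      ring
    rw [mul_zero, zero_add, pow_one]
    refine ebq_mv hD (by simp) fun w hw => ?_
    have hb : ∀ w : ℂ, ‖w‖ ≤ 1 → ‖eb 0 w‖ ≤ C * Real.exp 1 := by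
      intro w hw
      refine (hg w).trans ?_
      rw [pow_zero, mul_one]
      have h1 : -w.im ≤ 1 := (neg_le_abs _).trans ((Complex.abs_im_le_norm w).trans hw)
      gcongr
    have hw1 := hw.trans hz
    have hw2 : ‖-w‖ ≤ 1 := by rwa [norm_neg]
    refine (norm_add_le _ _).trans ?_
    rw [norm_mul, norm_mul, Complex.norm_I, one_mul, one_mul, two_mul]
    exact add_le_add (hb _ hw1) (hb _ hw2)
  | succ q ih =>
    obtain ⟨C, hC, ih⟩ := ih
    refine ⟨C / (2 * Real.pi), by positivity, fun z hz => ?_⟩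
    have hD : ∀ z, HasDerivAt (fun z => eb (q + 1) z - eb (q + 1) (-z))
        (z * (eb q z - eb q (-z)) / (2 * (Real.pi : ℂ))) z := by
      intro z
      have h1 := ((ebq_main q).2.1 (-z)).comp z (hasDerivAt_neg z)
      refine (((ebq_main q).2.1 z).sub h1).congr_deriv ?_
      ring
    have h2 := ebq_mv (z := z) (B := C / (2 * Real.pi) * ‖z‖ ^ (2 * q + 2)) hD (by simp)
      fun w hw => ?_
    · refine h2.trans (le_of_eq ?_)
      rw [mul_assoc, ← pow_succ]
      rfl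
    · rw [norm_div, norm_mul, norm_mul, hpi, Complex.norm_ofNat]
      have h3 := ih w (hw.trans hz)
      calc ‖w‖ * ‖eb q w - eb q (-w)‖ / (2 * Real.pi)
          ≤ ‖w‖ * (C * ‖w‖ ^ (2 * q + 1)) / (2 * Real.pi) := by gcongr
        _ = C / (2 * Real.pi) * ‖w‖ ^ (2 * q + 2) := by ring
        _ ≤ C / (2 * Real.pi) * ‖z‖ ^ (2 * q + 2) := by gcongr

theorem ebq_ne : ∀ q : ℕ, eb q 0 ≠ 0 := by
  have hp := ebq_pi
  suffices h : ∀ q : ℕ, eb q 0 ≠ 0 ∧ eb (q + 1) 0 ≠ 0 from fun q => (h q).1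
  intro q
  induction q with
  | zero =>
    constructor
    · rw [ebq_zero]
      simp [hp]
    · rw [ebq_one]
      simp [hp]
  | succ q ih =>
    refine ⟨ih.2, ?_⟩
    rw [ebq_rec]
    have h1 : (2 * (q : ℂ) + 3) ≠ 0 := by
      have : ((2 * q + 3 : ℕ) : ℂ) ≠ 0 := Nat.cast_ne_zero.2 (by omega)
      push_cast at this
      exact this
    simp only [ne_eq, OfNat.ofNat_ne_zero, not_false_eq_true, zero_pow, zero_div, zero_mul,
      sub_zero]
    exact div_ne_zero (mul_ne_zero h1 ih.2) (mul_ne_zero two_ne_zero hp)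

theorem ebq_leibniz {f : ℂ → ℂ} (hf : Differentiable ℂ f) (n : ℕ) :
    iteratedDeriv n (fun z => z * f z) =
      fun z => z * iteratedDeriv n f z + n * iteratedDeriv (n - 1) f z := by
  have hdiff : ∀ n, Differentiable ℂ (iteratedDeriv n f) := fun n =>
    (hf.contDiff (n := (⊤ : ℕ∞))).differentiable_iteratedDeriv n (by exact_mod_cast ENat.natCast_lt_top n)
  induction n with
  | zero =>
    funext z
    simp
  | succ n ih =>
    rw [iteratedDeriv_succ, ih]
    funext z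
    have h1 : HasDerivAt (iteratedDeriv n f) (iteratedDeriv (n + 1) f z) z := by
      rw [iteratedDeriv_succ]
      exact (hdiff n z).hasDerivAt
    have h2 := (hasDerivAt_id z).mul h1
    have h3 : HasDerivAt (fun z => (n : ℂ) * iteratedDeriv (n - 1) f z)
        ((n : ℂ) * iteratedDeriv n f z) z := by
      rcases n with _ | n
      · simpa using hasDerivAt_const z (0 : ℂ)
      · have h4 : HasDerivAt (iteratedDeriv n f) (iteratedDeriv (n + 1) f z) z := by
          rw [iteratedDeriv_succ]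
          exact (hdiff n z).hasDerivAt
        exact h4.const_mul _
    have h5 := (h2.add h3).deriv
    refine Eq.trans ?_ (h5.trans ?_)
    · rfl
    · rw [Nat.add_sub_cancel]
      simp only [id]
      push_cast
      ring

theorem ebq_coeff : ∀ (q j : ℕ), Odd j → j < 2 * q + 1 → iteratedDeriv j (eb q) 0 = 0 := by
  intro q
  induction q with
  | zero =>
    intro j hj hj'
    have : j = 0 := by omega
    subst this
    simp at hj
  | succ q ih =>
    intro j hj hj'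
    obtain ⟨i, rfl⟩ := hj
    have hder : deriv (eb (q + 1)) = fun z => z * eb q z / (2 * (Real.pi : ℂ)) :=
      funext fun z => ((ebq_main q).2.1 z).deriv
    rw [iteratedDeriv_succ', hder, iteratedDeriv_div_const, ebq_leibniz (ebq_main q).1]
    rcases i with _ | i
    · simp
    · have h1 := ih (2 * i + 1) ⟨i, rfl⟩ (by omega)
      have e : 2 * (i + 1) - 1 = 2 * i + 1 := by omega
      simp only [zero_mul, zero_add, e, h1, mul_zero, zero_div]

theorem ebFacts : EbFacts := by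
  refine ⟨fun q z => (ebq_main q).2.1 z, fun q => (ebq_main q).1, fun q => ?_, fun q => ?_,
    ebq_ne, fun q z => ?_, ebq_coeff⟩
  · obtain ⟨C, -, h⟩ := ebq_growth q
    exact ⟨C, h⟩
  · obtain ⟨C, -, h⟩ := ebq_odd q
    exact ⟨C, h⟩
  · rw [← Complex.taylorSeries_eq_of_entire' 0 z (ebq_main q).1]
    refine tsum_congr fun j => ?_
    rw [sub_zero]
    ring

end Pool.Agent.Work.MP_f2af60_mp

end

section

/-!
# MP_f2af60_mp, item Q30: passage to the limit in the expansion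
-/

set_option autoImplicit false

namespace Pool.Agent.Work.MP_f2af60_mp

open MeasureTheory Metric Filter Topology

/-! ### The logarithmic derivative of a monic polynomial at infinity -/

lemma gexp_multiset (S : Multiset ℂ) : ∃ C Λ : ℝ, 0 ≤ C ∧ 1 ≤ Λ ∧ ∀ z : ℂ, Λ ≤ ‖z‖ →
    ((S.map (fun a => Polynomial.X - Polynomial.C a)).prod).eval z ≠ 0 ∧
    ‖((S.map (fun a => Polynomial.X - Polynomial.C a)).prod).derivative.eval z /
      ((S.map (fun a => Polynomial.X - Polynomial.C a)).prod).eval z -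
        (Multiset.card S : ℂ) / z‖ ≤ C / ‖z‖ ^ 2 := by
  induction S using Multiset.induction_on with
  | empty =>
    refine ⟨0, 1, le_refl _, le_refl _, fun z _ => ?_⟩
    simp
  | cons a S ih =>
    obtain ⟨C, Λ, hC, hΛ, h⟩ := ih
    refine ⟨C + 2 * ‖a‖, max Λ (2 * ‖a‖ + 1), by positivity, le_max_of_le_left hΛ,
      fun z hz => ?_⟩
    have hz1 : Λ ≤ ‖z‖ := (le_max_left _ _).trans hz
    have hz2 : 2 * ‖a‖ + 1 ≤ ‖z‖ := (le_max_right _ _).trans hz
    have hz0 : 0 < ‖z‖ := by linarith [norm_nonneg a]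
    obtain ⟨h1, h2⟩ := h z hz1
    have hza : ‖z‖ / 2 ≤ ‖z - a‖ := by
      have := norm_sub_norm_le z a
      linarith
    have hza0 : z - a ≠ 0 := by
      rw [← norm_pos_iff]; linarith
    have hzz : z ≠ 0 := norm_pos_iff.mp hz0
    set Q := (S.map (fun a => Polynomial.X - Polynomial.C a)).prod with hQ
    rw [Multiset.map_cons, Multiset.prod_cons, ← hQ, Multiset.card_cons]
    have e1 : ((Polynomial.X - Polynomial.C a) * Q).eval z = (z - a) * Q.eval z := by
      simp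
    have e2 : ((Polynomial.X - Polynomial.C a) * Q).derivative.eval z =
        Q.eval z + (z - a) * Q.derivative.eval z := by
      simp [Polynomial.derivative_mul]
    rw [e1, e2]
    refine ⟨mul_ne_zero hza0 h1, ?_⟩
    have e3 : (Q.eval z + (z - a) * Q.derivative.eval z) / ((z - a) * Q.eval z) -
        (((Multiset.card S + 1 : ℕ) : ℂ)) / z =
        (Q.derivative.eval z / Q.eval z - (Multiset.card S : ℂ) / z) + a / (z * (z - a)) := by
      push_cast
      field_simp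
      ring
    rw [e3]
    refine (norm_add_le _ _).trans ?_
    have h3 : ‖a / (z * (z - a))‖ ≤ 2 * ‖a‖ / ‖z‖ ^ 2 := by
      rw [norm_div, norm_mul, div_le_div_iff₀ (by positivity) (by positivity)]
      have h4 : ‖z‖ ^ 2 ≤ 2 * (‖z‖ * ‖z - a‖) := by nlinarith
      nlinarith [norm_nonneg a]
    calc _ ≤ C / ‖z‖ ^ 2 + 2 * ‖a‖ / ‖z‖ ^ 2 := add_le_add h2 h3
      _ = (C + 2 * ‖a‖) / ‖z‖ ^ 2 := by ring

lemma gexp_logDeriv (P : Polynomial ℂ) (hP : P.Monic) : ∃ C Λ : ℝ, 0 ≤ C ∧ 1 ≤ Λ ∧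
    ∀ z : ℂ, Λ ≤ ‖z‖ → P.eval z ≠ 0 ∧
      ‖P.derivative.eval z / P.eval z - (P.natDegree : ℂ) / z‖ ≤ C / ‖z‖ ^ 2 := by
  have hs := (IsAlgClosed.splits P).eq_prod_roots_of_monic hP
  have hd := (IsAlgClosed.splits P).natDegree_eq_card_roots
  obtain ⟨C, Λ, hC, hΛ, h⟩ := gexp_multiset P.roots
  refine ⟨C, Λ, hC, hΛ, fun z hz => ?_⟩
  have := h z hz
  rw [← hs, ← hd] at this
  exact this

/-! ### The tails -/

lemma gexp_summable : Summable (fun j : ℕ => ((j : ℝ) + 1) * (1 / 2 : ℝ) ^ j) := by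
  have h1 : Summable (fun j : ℕ => (j : ℝ) ^ 1 * (1 / 2 : ℝ) ^ j) :=
    summable_pow_mul_geometric_of_norm_lt_one 1 (by norm_num)
  have h2 : Summable (fun j : ℕ => (1 / 2 : ℝ) ^ j) := summable_geometric_two
  refine (h1.add h2).congr (fun j => ?_)
  ring

lemma gexp_tail {c : ℕ → ℕ → ℂ} {C : ℝ} {r0 m : ℕ}
    (hc : ∀ r : ℕ, r0 ≤ r → ∀ j, ‖c r j‖ ≤ C * (r : ℝ) ^ m * (8 / (r : ℝ)) ^ j)
    (p : ℕ) (hp : m ≤ p) (z : ℂ) (η : ℝ) (hη : 0 < η) :
    ∀ᶠ r : ℕ in atTop, Summable (fun j : ℕ => ((j : ℂ) + 1) * c r (j + 1) * z ^ j) ∧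
      ‖∑' j : ℕ, (((j + p : ℕ) : ℂ) + 1) * c r (j + p + 1) * z ^ (j + p)‖ ≤ η := by
  set R0 : ℝ := 16 * ‖z‖ + 16 with hR0
  have hR0p : 16 ≤ R0 := by rw [hR0]; linarith [norm_nonneg z]
  set C' : ℝ := max C 0 with hC'
  have hC'0 : 0 ≤ C' := le_max_right _ _
  set Sg : ℝ := ∑' j : ℕ, (((j + p : ℕ) : ℝ) + 1) * (1 / 2 : ℝ) ^ (j + p) with hSg
  have hSgs : Summable (fun j : ℕ => (((j + p : ℕ) : ℝ) + 1) * (1 / 2 : ℝ) ^ (j + p)) :=
    (summable_nat_add_iff p).mpr gexp_summable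
  have hSg0 : 0 ≤ Sg := tsum_nonneg (fun j => by positivity)
  set K2 : ℝ := 8 * C' * R0 ^ m * Sg with hK2
  have hK20 : 0 ≤ K2 := by positivity
  have h1 : ∀ᶠ r : ℕ in atTop, max R0 (K2 / η) ≤ (r : ℝ) :=
    tendsto_natCast_atTop_atTop.eventually_ge_atTop _
  filter_upwards [h1, eventually_ge_atTop r0] with r hr hr0
  have hrR : R0 ≤ (r : ℝ) := (le_max_left _ _).trans hr
  have hrK : K2 / η ≤ (r : ℝ) := (le_max_right _ _).trans hr
  have hrpos : (0 : ℝ) < r := by linarith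
  have hR0pos : 0 < R0 := by linarith
  have hterm : ∀ j : ℕ, ‖((j : ℂ) + 1) * c r (j + 1) * z ^ j‖ ≤
      C' * (r : ℝ) ^ m * (8 / r) * (((j : ℝ) + 1) * (8 * ‖z‖ / r) ^ j) := by
    intro j
    rw [norm_mul, norm_mul, norm_pow]
    have e1 : ‖(j : ℂ) + 1‖ = (j : ℝ) + 1 := by
      have : ((j : ℂ) + 1) = (((j : ℝ) + 1 : ℝ) : ℂ) := by push_cast; ring
      rw [this, Complex.norm_real, Real.norm_eq_abs, abs_of_nonneg (by positivity)]
    rw [e1]
    have h2 : ‖c r (j + 1)‖ ≤ C' * (r : ℝ) ^ m * (8 / (r : ℝ)) ^ (j + 1) := by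
      refine (hc r hr0 (j + 1)).trans ?_
      have : C ≤ C' := le_max_left _ _
      gcongr
    calc ((j : ℝ) + 1) * ‖c r (j + 1)‖ * ‖z‖ ^ j
        ≤ ((j : ℝ) + 1) * (C' * (r : ℝ) ^ m * (8 / (r : ℝ)) ^ (j + 1)) * ‖z‖ ^ j := by gcongr
      _ = C' * (r : ℝ) ^ m * (8 / r) * (((j : ℝ) + 1) * ((8 / r) * ‖z‖) ^ j) := by
          rw [mul_pow, pow_succ]; ring
      _ = _ := by rw [show 8 / (r : ℝ) * ‖z‖ = 8 * ‖z‖ / r by ring]
  have hhalf : 8 * ‖z‖ / r ≤ 1 / 2 := by
    rw [div_le_iff₀ hrpos]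
    linarith
  have hnn : 0 ≤ 8 * ‖z‖ / r := by positivity
  constructor
  · refine Summable.of_norm_bounded
      (g := fun j : ℕ => C' * (r : ℝ) ^ m * (8 / r) * (((j : ℝ) + 1) * (1 / 2 : ℝ) ^ j))
      (gexp_summable.mul_left _) (fun j => ?_)
    refine (hterm j).trans ?_
    gcongr
  · have hb : ∀ j : ℕ, ‖(((j + p : ℕ) : ℂ) + 1) * c r (j + p + 1) * z ^ (j + p)‖ ≤
        8 * C' * R0 ^ m / r * ((((j + p : ℕ) : ℝ) + 1) * (1 / 2 : ℝ) ^ (j + p)) := by
      intro j
      refine (hterm (j + p)).trans ?_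
      have h3 : (r : ℝ) ^ m * (8 * ‖z‖ / r) ^ (j + p) ≤ R0 ^ m * (1 / 2 : ℝ) ^ (j + p) := by
        have e1 : 8 * ‖z‖ / r = (8 * ‖z‖ / R0) * (R0 / r) := by field_simp
        have h4 : 8 * ‖z‖ / R0 ≤ 1 / 2 := by
          rw [div_le_iff₀ hR0pos]; linarith
        have h5 : R0 / r ≤ 1 := by rw [div_le_one hrpos]; exact hrR
        have h6 : (R0 / r) ^ (j + p) ≤ (R0 / r) ^ m :=
          pow_le_pow_of_le_one (by positivity) h5 (by omega)
        rw [e1, mul_pow]
        calc (r : ℝ) ^ m * ((8 * ‖z‖ / R0) ^ (j + p) * (R0 / r) ^ (j + p))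
            ≤ (r : ℝ) ^ m * ((1 / 2) ^ (j + p) * (R0 / r) ^ m) := by gcongr
          _ = ((r : ℝ) ^ m * (R0 / r) ^ m) * (1 / 2) ^ (j + p) := by ring
          _ = R0 ^ m * (1 / 2 : ℝ) ^ (j + p) := by
              rw [← mul_pow, mul_div_cancel₀ _ hrpos.ne']
      calc C' * (r : ℝ) ^ m * (8 / r) * ((((j + p : ℕ) : ℝ) + 1) * (8 * ‖z‖ / r) ^ (j + p))
          = 8 * C' / r * (((j + p : ℕ) : ℝ) + 1) * ((r : ℝ) ^ m * (8 * ‖z‖ / r) ^ (j + p)) := by
            ring
        _ ≤ 8 * C' / r * (((j + p : ℕ) : ℝ) + 1) * (R0 ^ m * (1 / 2 : ℝ) ^ (j + p)) := by gcongr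
        _ = _ := by ring
    have h7 : ‖∑' j : ℕ, (((j + p : ℕ) : ℂ) + 1) * c r (j + p + 1) * z ^ (j + p)‖ ≤
        8 * C' * R0 ^ m / r * Sg :=
      tsum_of_norm_bounded (hSgs.hasSum.mul_left _) hb
    refine h7.trans ?_
    have e1 : 8 * C' * R0 ^ m / r * Sg = K2 / r := by rw [hK2]; ring
    rw [e1, div_le_iff₀ hrpos]
    rw [div_le_iff₀ hη] at hrK
    linarith

/-! ### Finite sums -/

lemma gexp_even_sum (g : ℕ → ℂ) (n : ℕ) (h : ∀ j, Odd j → j < 2 * n + 1 → g j = 0) :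
    ∑ j ∈ Finset.range (2 * n + 1), g j = ∑ i ∈ Finset.range (n + 1), g (2 * i) := by
  induction n with
  | zero => simp
  | succ n ih =>
    have e1 : 2 * (n + 1) + 1 = (2 * n + 1) + 1 + 1 := by ring
    rw [e1, Finset.sum_range_succ, Finset.sum_range_succ, ih (fun j hj hj2 => h j hj (by omega)),
      h (2 * n + 1) ⟨n, rfl⟩ (by omega), Finset.sum_range_succ _ (n + 1)]
    have e2 : 2 * n + 1 + 1 = 2 * (n + 1) := by ring
    rw [e2]
    ring

lemma gexp_pow {s : ℝ} (hs : 0 < s) (j : ℕ) :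
    (Complex.I * (Real.sqrt s : ℂ)) ^ j / (2 * (Complex.I * (Real.sqrt s : ℂ))) =
      Complex.I ^ j / (2 * Complex.I) * ((s ^ (((j : ℝ) - 1) / 2) : ℝ) : ℂ) := by
  have h1 : 0 < Real.sqrt s := Real.sqrt_pos.mpr hs
  have h2 : s ^ (((j : ℝ) - 1) / 2) = (Real.sqrt s) ^ j / Real.sqrt s := by
    rw [Real.sqrt_eq_rpow, ← Real.rpow_natCast, ← Real.rpow_mul hs.le, ← Real.rpow_sub hs]
    congr 1
    ring
  rw [h2]
  push_cast
  have h3 : (Real.sqrt s : ℂ) ≠ 0 := by exact_mod_cast h1.ne'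
  have h4 := Complex.I_ne_zero
  rw [mul_pow]
  field_simp


/-! ### The weights -/

lemma gexp_norm_lam {s : ℝ} : ‖Complex.I * (Real.sqrt s : ℂ)‖ = Real.sqrt s := by
  rw [norm_mul, Complex.norm_I, one_mul, Complex.norm_real, Real.norm_eq_abs,
    abs_of_nonneg (Real.sqrt_nonneg _)]

lemma gexp_sqrt_ge {E : ℝ} (hE : 0 ≤ E) (i : ℕ) :
    Real.sqrt E ≤ Real.sqrt ((1 + (i : ℝ)) * E) := by
  apply Real.sqrt_le_sqrt
  have : (0 : ℝ) ≤ i := Nat.cast_nonneg i
  nlinarith

lemma gexp_kap {q : ℕ} {E : ℝ} (hE : 0 < E) (a : ℝ) :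
    ∑ i ∈ Finset.range q, (-1 : ℂ) ^ i * ((q - 1).choose i : ℂ) *
      ((((1 + (i : ℝ)) * E) ^ a : ℝ) : ℂ) = (kap q a : ℂ) * ((E ^ a : ℝ) : ℂ) := by
  rw [kap]
  push_cast
  rw [Finset.sum_mul]
  refine Finset.sum_congr rfl (fun i _ => ?_)
  rw [Real.mul_rpow (by positivity) hE.le]
  push_cast
  ring

lemma gexp_ratio (q : ℕ) (hk : kap q (-1) = 1 / q) (P : Polynomial ℂ) (hP : P.Monic) :
    ∃ C2 Λ2 : ℝ, 0 ≤ C2 ∧ 1 ≤ Λ2 ∧ ∀ E : ℝ, Λ2 ≤ E →
      ‖∑ i ∈ Finset.range q, (-1 : ℂ) ^ i * ((q - 1).choose i : ℂ) *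
        ((P.derivative.eval (Complex.I * (Real.sqrt ((1 + (i : ℝ)) * E) : ℂ)) /
          P.eval (Complex.I * (Real.sqrt ((1 + (i : ℝ)) * E) : ℂ))) /
          (2 * (Complex.I * (Real.sqrt ((1 + (i : ℝ)) * E) : ℂ)))) +
        (((P.natDegree : ℝ) / (2 * q) * E⁻¹ : ℝ) : ℂ)‖ ≤ C2 * E ^ (-(3 / 2) : ℝ) := by
  obtain ⟨C1, Λ, hC1, hΛ, h⟩ := gexp_logDeriv P hP
  refine ⟨(∑ i ∈ Finset.range q, ((q - 1).choose i : ℝ)) * C1, Λ ^ 2, by positivity,
    one_le_pow₀ hΛ, fun E hE => ?_⟩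
  have hE1 : 1 ≤ E := (one_le_pow₀ hΛ).trans hE
  have hE0 : 0 < E := by linarith
  have hsE : Λ ≤ Real.sqrt E := Real.le_sqrt_of_sq_le hE
  have hs0 : 0 < Real.sqrt E := by linarith
  set lam : ℕ → ℂ := fun i => Complex.I * (Real.sqrt ((1 + (i : ℝ)) * E) : ℂ) with hlam
  have hln : ∀ i, ‖lam i‖ = Real.sqrt ((1 + (i : ℝ)) * E) := fun i => gexp_norm_lam
  have hlge : ∀ i, Real.sqrt E ≤ ‖lam i‖ := fun i => by
    rw [hln]; exact gexp_sqrt_ge hE0.le i
  have hl0 : ∀ i, lam i ≠ 0 := fun i => by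
    rw [← norm_pos_iff]; linarith [hlge i]
  have hsq : ∀ i, lam i ^ 2 = -(((1 + (i : ℝ)) * E : ℝ) : ℂ) := by
    intro i
    have h1 : (0 : ℝ) ≤ (1 + (i : ℝ)) * E := by positivity
    simp only [hlam]
    rw [mul_pow, Complex.I_sq, ← Complex.ofReal_pow, Real.sq_sqrt h1]
    ring
  -- the main part
  have hmain : (((P.natDegree : ℝ) / (2 * q) * E⁻¹ : ℝ) : ℂ) =
      -∑ i ∈ Finset.range q, (-1 : ℂ) ^ i * ((q - 1).choose i : ℂ) *
        ((P.natDegree : ℂ) / lam i / (2 * lam i)) := by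
    have h1 := gexp_kap (q := q) hE0 (-1)
    rw [hk] at h1
    have h2 : ∑ i ∈ Finset.range q, (-1 : ℂ) ^ i * ((q - 1).choose i : ℂ) *
        ((P.natDegree : ℂ) / lam i / (2 * lam i)) = -((P.natDegree : ℂ) / 2) *
        ∑ i ∈ Finset.range q, (-1 : ℂ) ^ i * ((q - 1).choose i : ℂ) *
          ((((1 + (i : ℝ)) * E) ^ (-1 : ℝ) : ℝ) : ℂ) := by
      rw [Finset.mul_sum]
      refine Finset.sum_congr rfl (fun i _ => ?_)
      have h3 : (P.natDegree : ℂ) / lam i / (2 * lam i) =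
          (P.natDegree : ℂ) / (2 * lam i ^ 2) := by
        have := hl0 i
        field_simp
      have h4 : (((1 + (i : ℝ)) * E : ℝ) : ℂ) ≠ 0 := by
        have : (0 : ℝ) < (1 + (i : ℝ)) * E := by positivity
        exact_mod_cast this.ne'
      rw [h3, hsq, Real.rpow_neg_one, Complex.ofReal_inv]
      field_simp
    rw [h2, h1, Real.rpow_neg_one]
    push_cast
    ring
  rw [hmain, ← sub_eq_add_neg, ← Finset.sum_sub_distrib]
  have hterm : ∀ i ∈ Finset.range q, ‖(-1 : ℂ) ^ i * ((q - 1).choose i : ℂ) *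
        ((P.derivative.eval (lam i) / P.eval (lam i)) / (2 * lam i)) -
      (-1 : ℂ) ^ i * ((q - 1).choose i : ℂ) * ((P.natDegree : ℂ) / lam i / (2 * lam i))‖ ≤
      ((q - 1).choose i : ℝ) * C1 * E ^ (-(3 / 2) : ℝ) := by
    intro i _
    have e1 : (-1 : ℂ) ^ i * ((q - 1).choose i : ℂ) *
        ((P.derivative.eval (lam i) / P.eval (lam i)) / (2 * lam i)) -
      (-1 : ℂ) ^ i * ((q - 1).choose i : ℂ) * ((P.natDegree : ℂ) / lam i / (2 * lam i)) =
      (-1 : ℂ) ^ i * ((q - 1).choose i : ℂ) *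
        ((P.derivative.eval (lam i) / P.eval (lam i) - (P.natDegree : ℂ) / lam i) /
          (2 * lam i)) := by ring
    rw [e1, norm_mul, norm_mul, norm_pow, norm_neg, norm_one, one_pow, one_mul,
      Complex.norm_natCast, mul_assoc]
    refine mul_le_mul_of_nonneg_left ?_ (by positivity)
    rw [norm_div]
    have h5 := (h (lam i) (hsE.trans (hlge i))).2
    have h6 : ‖(2 : ℂ) * lam i‖ = 2 * ‖lam i‖ := by
      rw [norm_mul]; norm_num
    rw [h6]
    have h7 : E ^ (-(3 / 2) : ℝ) = ((Real.sqrt E) ^ 3)⁻¹ := by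
      rw [Real.sqrt_eq_rpow, ← Real.rpow_natCast, ← Real.rpow_mul hE0.le,
        ← Real.rpow_neg hE0.le]
      norm_num
    have h8 : 0 < ‖lam i‖ := by linarith [hlge i]
    calc ‖P.derivative.eval (lam i) / P.eval (lam i) - (P.natDegree : ℂ) / lam i‖ /
          (2 * ‖lam i‖) ≤ (C1 / ‖lam i‖ ^ 2) / (2 * ‖lam i‖) := by gcongr
      _ = (1 / 2) * (C1 / ‖lam i‖ ^ 3) := by field_simp
      _ ≤ (1 / 2) * (C1 / (Real.sqrt E) ^ 3) := by
          have := hlge i
          gcongr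
      _ ≤ 1 * (C1 / (Real.sqrt E) ^ 3) := by
          have : 0 ≤ C1 / (Real.sqrt E) ^ 3 := by positivity
          nlinarith
      _ = C1 * E ^ (-(3 / 2) : ℝ) := by rw [h7]; ring
  refine (norm_sum_le _ _).trans ((Finset.sum_le_sum hterm).trans (le_of_eq ?_))
  rw [← Finset.sum_mul, ← Finset.sum_mul]


/-- The coefficients of the truncated sum. -/
noncomputable def gexp_b (q : ℕ) (c : ℕ → ℕ → ℂ) (r j : ℕ) : ℂ :=
  ((j : ℂ) + 1) * c r (j + 1) * (Complex.I ^ j / (2 * Complex.I)) *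
    (kap q (((j : ℝ) - 1) / 2) : ℂ)

lemma gexp_main (q : ℕ) (P : Polynomial ℂ) {c : ℕ → ℕ → ℂ} {C : ℝ} {r0 m : ℕ}
    (hc : ∀ r : ℕ, r0 ≤ r → ∀ j, ‖c r j‖ ≤ C * (r : ℝ) ^ m * (8 / (r : ℝ)) ^ j)
    (p : ℕ) (hp : m ≤ p) (E : ℝ) (hE : 1 ≤ E) (η : ℝ) (hη : 0 < η) :
    ∀ᶠ r : ℕ in atTop,
      ‖∑ i ∈ Finset.range q, (-1 : ℂ) ^ i * ((q - 1).choose i : ℂ) *
        (LL P (c r) (Complex.I * (Real.sqrt ((1 + (i : ℝ)) * E) : ℂ)) /
          (2 * (Complex.I * (Real.sqrt ((1 + (i : ℝ)) * E) : ℂ)))) -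
      ∑ i ∈ Finset.range q, (-1 : ℂ) ^ i * ((q - 1).choose i : ℂ) *
        ((P.derivative.eval (Complex.I * (Real.sqrt ((1 + (i : ℝ)) * E) : ℂ)) /
          P.eval (Complex.I * (Real.sqrt ((1 + (i : ℝ)) * E) : ℂ))) /
          (2 * (Complex.I * (Real.sqrt ((1 + (i : ℝ)) * E) : ℂ)))) -
      ∑ j ∈ Finset.range p, gexp_b q c r j * ((E ^ (((j : ℝ) - 1) / 2) : ℝ) : ℂ)‖ ≤ η := by
  have hE0 : 0 < E := by linarith
  set lam : ℕ → ℂ := fun i => Complex.I * (Real.sqrt ((1 + (i : ℝ)) * E) : ℂ) with hlam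
  set W : ℝ := ∑ i ∈ Finset.range q, ((q - 1).choose i : ℝ) with hW
  have hW0 : 0 ≤ W := by positivity
  have hln : ∀ i, ‖lam i‖ = Real.sqrt ((1 + (i : ℝ)) * E) := fun i => gexp_norm_lam
  have hsE : 1 ≤ Real.sqrt E := Real.one_le_sqrt.mpr hE
  have hlge : ∀ i, 1 ≤ ‖lam i‖ := fun i => by
    rw [hln]; exact hsE.trans (gexp_sqrt_ge hE0.le i)
  have hl0 : ∀ i, lam i ≠ 0 := fun i => by
    rw [← norm_pos_iff]; linarith [hlge i]
  have hη' : 0 < η / (W + 1) := by positivity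
  have hev : ∀ᶠ r : ℕ in atTop, ∀ i ∈ Finset.range q,
      Summable (fun j : ℕ => ((j : ℂ) + 1) * c r (j + 1) * lam i ^ j) ∧
      ‖∑' j : ℕ, (((j + p : ℕ) : ℂ) + 1) * c r (j + p + 1) * lam i ^ (j + p)‖ ≤ η / (W + 1) := by
    rw [Filter.eventually_all_finset]
    intro i _
    exact gexp_tail hc p hp (lam i) _ hη'
  filter_upwards [hev] with r hr
  have hLL : ∀ i ∈ Finset.range q, (-1 : ℂ) ^ i * ((q - 1).choose i : ℂ) *
        (LL P (c r) (lam i) / (2 * lam i)) =
      (-1 : ℂ) ^ i * ((q - 1).choose i : ℂ) *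
        ((P.derivative.eval (lam i) / P.eval (lam i)) / (2 * lam i)) +
      ∑ j ∈ Finset.range p, ((-1 : ℂ) ^ i * ((q - 1).choose i : ℂ) *
        (((j : ℂ) + 1) * c r (j + 1) * (Complex.I ^ j / (2 * Complex.I)) *
          ((((1 + (i : ℝ)) * E) ^ (((j : ℝ) - 1) / 2) : ℝ) : ℂ))) +
      (-1 : ℂ) ^ i * ((q - 1).choose i : ℂ) *
        ((∑' j : ℕ, (((j + p : ℕ) : ℂ) + 1) * c r (j + p + 1) * lam i ^ (j + p)) /
          (2 * lam i)) := by
    intro i hi
    obtain ⟨hs, _⟩ := hr i hi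
    rw [LL, ← hs.sum_add_tsum_nat_add p]
    have e1 : ∀ j ∈ Finset.range p, (-1 : ℂ) ^ i * ((q - 1).choose i : ℂ) *
        (((j : ℂ) + 1) * c r (j + 1) * (Complex.I ^ j / (2 * Complex.I)) *
          ((((1 + (i : ℝ)) * E) ^ (((j : ℝ) - 1) / 2) : ℝ) : ℂ)) =
        (-1 : ℂ) ^ i * ((q - 1).choose i : ℂ) *
          ((((j : ℂ) + 1) * c r (j + 1) * lam i ^ j) / (2 * lam i)) := by
      intro j _
      have hpos : (0 : ℝ) < (1 + (i : ℝ)) * E := by positivity
      have h1 := gexp_pow hpos j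
      have h2 : lam i ^ j / (2 * lam i) = Complex.I ^ j / (2 * Complex.I) *
          ((((1 + (i : ℝ)) * E) ^ (((j : ℝ) - 1) / 2) : ℝ) : ℂ) := h1
      rw [mul_div_assoc, h2]
      ring
    rw [Finset.sum_congr rfl e1, ← Finset.mul_sum, ← Finset.sum_div]
    ring
  have hsum : ∑ i ∈ Finset.range q, (-1 : ℂ) ^ i * ((q - 1).choose i : ℂ) *
        (LL P (c r) (lam i) / (2 * lam i)) -
      ∑ i ∈ Finset.range q, (-1 : ℂ) ^ i * ((q - 1).choose i : ℂ) *
        ((P.derivative.eval (lam i) / P.eval (lam i)) / (2 * lam i)) -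
      ∑ j ∈ Finset.range p, gexp_b q c r j * ((E ^ (((j : ℝ) - 1) / 2) : ℝ) : ℂ) =
      ∑ i ∈ Finset.range q, (-1 : ℂ) ^ i * ((q - 1).choose i : ℂ) *
        ((∑' j : ℕ, (((j + p : ℕ) : ℂ) + 1) * c r (j + p + 1) * lam i ^ (j + p)) /
          (2 * lam i)) := by
    have e2 : ∑ i ∈ Finset.range q, ∑ j ∈ Finset.range p,
        ((-1 : ℂ) ^ i * ((q - 1).choose i : ℂ) *
        (((j : ℂ) + 1) * c r (j + 1) * (Complex.I ^ j / (2 * Complex.I)) *
          ((((1 + (i : ℝ)) * E) ^ (((j : ℝ) - 1) / 2) : ℝ) : ℂ))) =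
        ∑ j ∈ Finset.range p, gexp_b q c r j * ((E ^ (((j : ℝ) - 1) / 2) : ℝ) : ℂ) := by
      rw [Finset.sum_comm]
      refine Finset.sum_congr rfl (fun j _ => ?_)
      have h3 := gexp_kap (q := q) hE0 (((j : ℝ) - 1) / 2)
      have h4 : gexp_b q c r j * ((E ^ (((j : ℝ) - 1) / 2) : ℝ) : ℂ) =
          (((j : ℂ) + 1) * c r (j + 1) * (Complex.I ^ j / (2 * Complex.I))) *
            ((kap q (((j : ℝ) - 1) / 2) : ℂ) * ((E ^ (((j : ℝ) - 1) / 2) : ℝ) : ℂ)) := by
        rw [gexp_b, mul_assoc]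
      rw [h4, ← h3, Finset.mul_sum]
      refine Finset.sum_congr rfl (fun i _ => ?_)
      ring
    rw [Finset.sum_congr rfl hLL, Finset.sum_add_distrib, Finset.sum_add_distrib, e2]
    ring
  rw [hsum]
  have hterm : ∀ i ∈ Finset.range q, ‖(-1 : ℂ) ^ i * ((q - 1).choose i : ℂ) *
        ((∑' j : ℕ, (((j + p : ℕ) : ℂ) + 1) * c r (j + p + 1) * lam i ^ (j + p)) /
          (2 * lam i))‖ ≤ ((q - 1).choose i : ℝ) * (η / (W + 1)) := by
    intro i hi
    rw [norm_mul, norm_mul, norm_pow, norm_neg, norm_one, one_pow, one_mul,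
      Complex.norm_natCast]
    refine mul_le_mul_of_nonneg_left ?_ (by positivity)
    rw [norm_div]
    have h6 : ‖(2 : ℂ) * lam i‖ = 2 * ‖lam i‖ := by
      rw [norm_mul]; norm_num
    rw [h6]
    have h7 := hlge i
    rw [div_le_iff₀ (by linarith)]
    have h8 := (hr i hi).2
    nlinarith
  refine (norm_sum_le _ _).trans ((Finset.sum_le_sum hterm).trans ?_)
  rw [← Finset.sum_mul, ← hW]
  have : W * (η / (W + 1)) = η * (W / (W + 1)) := by ring
  rw [this]
  have h9 : W / (W + 1) ≤ 1 := by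
    rw [div_le_one (by positivity)]; linarith
  nlinarith


/-! ### The final statement -/

theorem expand (h27 : KapFacts) (h28 : PowGrowth) (h29 : LimClosure) : Expand := by
  intro q hq P hP c C r0 m hc F E0 hE0 hF hlim
  obtain ⟨hk0, hk1⟩ := h27 q hq
  obtain ⟨C2, Λ2, hC2, hΛ2, hrat⟩ := gexp_ratio q hk1 P hP
  set N : ℝ := (P.natDegree : ℝ) / (2 * q) with hN
  obtain ⟨n, hn⟩ : ∃ n : ℕ, n = 2 * q - 1 := ⟨_, rfl⟩
  obtain ⟨p, hp⟩ : ∃ p : ℕ, p = n + (m + 1) := ⟨_, rfl⟩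
  have hncast : (n : ℝ) = 2 * (q : ℝ) - 1 := by
    have : n + 1 = 2 * q := by omega
    have h2 : ((n + 1 : ℕ) : ℝ) = ((2 * q : ℕ) : ℝ) := by rw [this]
    push_cast at h2
    linarith
  have hq1 : (1 : ℝ) ≤ q := by exact_mod_cast hq
  set E1 : ℝ := max E0 Λ2 with hE1
  have hE11 : 1 ≤ E1 := hE0.trans (le_max_left _ _)
  set F' : ℝ → ℂ := fun E => ((F E + N * E⁻¹ : ℝ) : ℂ) with hF'
  have hinj : Function.Injective (fun j : Fin p => (((j : ℕ) : ℝ) - 1) / 2) := by
    intro a b hab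
    have h1 : (((a : ℕ) : ℝ) - 1) / 2 = (((b : ℕ) : ℝ) - 1) / 2 := hab
    have h2 : ((a : ℕ) : ℝ) = ((b : ℕ) : ℝ) := by linarith
    exact Fin.ext (by exact_mod_cast h2)
  have happ : ∀ E ≥ E1, ∀ η > 0, ∀ᶠ r : ℕ in atTop,
      ‖∑ j : Fin p, gexp_b q c r j * ((E ^ ((((j : ℕ) : ℝ) - 1) / 2) : ℝ) : ℂ) - F' E‖ ≤
        (C + C2) * E ^ (-(3 / 2) : ℝ) + η := by
    intro E hE η hη
    have hEE0 : E0 ≤ E := (le_max_left _ _).trans hE
    have hEΛ : Λ2 ≤ E := (le_max_right _ _).trans hE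
    have hE1' : 1 ≤ E := hE11.trans hE
    filter_upwards [hlim E hEE0 (η / 2) (half_pos hη),
      gexp_main q P hc p (by omega) E hE1' (η / 2) (half_pos hη)] with r h1 h2
    have h3 := hrat E hEΛ
    rw [Fin.sum_univ_eq_sum_range
      (fun j : ℕ => gexp_b q c r j * ((E ^ (((j : ℝ) - 1) / 2) : ℝ) : ℂ)) p]
    set A := ∑ i ∈ Finset.range q, (-1 : ℂ) ^ i * ((q - 1).choose i : ℂ) *
        (LL P (c r) (Complex.I * (Real.sqrt ((1 + (i : ℝ)) * E) : ℂ)) /
          (2 * (Complex.I * (Real.sqrt ((1 + (i : ℝ)) * E) : ℂ)))) with hA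
    set B := ∑ i ∈ Finset.range q, (-1 : ℂ) ^ i * ((q - 1).choose i : ℂ) *
        ((P.derivative.eval (Complex.I * (Real.sqrt ((1 + (i : ℝ)) * E) : ℂ)) /
          P.eval (Complex.I * (Real.sqrt ((1 + (i : ℝ)) * E) : ℂ))) /
          (2 * (Complex.I * (Real.sqrt ((1 + (i : ℝ)) * E) : ℂ)))) with hB
    set S := ∑ j ∈ Finset.range p,
      gexp_b q c r j * ((E ^ (((j : ℝ) - 1) / 2) : ℝ) : ℂ) with hS
    have e1 : S - F' E = (A - (F E : ℂ)) - (A - B - S) - (B + ((N * E⁻¹ : ℝ) : ℂ)) := by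
      simp only [hF']
      push_cast
      ring
    rw [e1]
    have h4 := norm_sub_le ((A - (F E : ℂ)) - (A - B - S)) (B + ((N * E⁻¹ : ℝ) : ℂ))
    have h5 := norm_sub_le (A - (F E : ℂ)) (A - B - S)
    linarith
  obtain ⟨β, hβ1, hβ2⟩ := h29 p (fun j : Fin p => (((j : ℕ) : ℝ) - 1) / 2) hinj
    (fun r j => gexp_b q c r j) F' (fun E => (C + C2) * E ^ (-(3 / 2) : ℝ)) E1 (by linarith) happ
  set βt : ℕ → ℂ := fun j => if h : j < p then β ⟨j, h⟩ else 0 with hβt
  have hβt0 : ∀ j : ℕ, (∀ᶠ r in atTop, gexp_b q c r j = 0) → βt j = 0 := by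
    intro j hj
    simp only [hβt]
    split_ifs with h
    · exact hβ2 ⟨j, h⟩ hj
    · rfl
  have hsum : ∀ E : ℝ, ∑ j : Fin p, β j * ((E ^ ((((j : ℕ) : ℝ) - 1) / 2) : ℝ) : ℂ) =
      ∑ j ∈ Finset.range n, βt j * ((E ^ (((j : ℝ) - 1) / 2) : ℝ) : ℂ) +
      ∑ k ∈ Finset.range (m + 1), βt (n + k) *
        ((E ^ ((((n + k : ℕ) : ℝ) - 1) / 2) : ℝ) : ℂ) := by
    intro E
    have h1 : ∑ j : Fin p, β j * ((E ^ ((((j : ℕ) : ℝ) - 1) / 2) : ℝ) : ℂ) =
        ∑ j : Fin p, (fun j : ℕ => βt j * ((E ^ (((j : ℝ) - 1) / 2) : ℝ) : ℂ)) j := by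
      refine Finset.sum_congr rfl (fun j _ => ?_)
      simp [hβt]
    rw [h1, Fin.sum_univ_eq_sum_range
      (fun j : ℕ => βt j * ((E ^ (((j : ℝ) - 1) / 2) : ℝ) : ℂ)) p, hp, Finset.sum_range_add]
  -- the high coefficients vanish
  have hhigh : ∀ k : Fin (m + 1), βt (n + k) = 0 := by
    have hinj2 : Function.Injective
        (fun k : Fin (m + 1) => (((n + (k : ℕ) : ℕ) : ℝ) - 1) / 2) := by
      intro a b hab
      have h1 : (((n + (a : ℕ) : ℕ) : ℝ) - 1) / 2 = (((n + (b : ℕ) : ℕ) : ℝ) - 1) / 2 := hab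
      have h2 : ((n + (a : ℕ) : ℕ) : ℝ) = ((n + (b : ℕ) : ℕ) : ℝ) := by linarith
      have h3 : n + (a : ℕ) = n + (b : ℕ) := by exact_mod_cast h2
      exact Fin.ext (by omega)
    refine h28 (m + 1) _ hinj2 (fun k => βt (n + k)) ((q : ℝ) - 5 / 4) ?_ ?_
    · intro k
      have : (0 : ℝ) ≤ ((k : ℕ) : ℝ) := Nat.cast_nonneg _
      push_cast
      rw [hncast]
      linarith
    · set K : ℝ := |C| + C2 + |C| + |N| + ∑ j ∈ Finset.range n, ‖βt j‖ with hK
      have hbound : ∀ᶠ E : ℝ in atTop, ‖(∑ k : Fin (m + 1), βt (n + k) *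
          ((E ^ ((((n + (k : ℕ) : ℕ) : ℝ) - 1) / 2) : ℝ) : ℂ)) /
            ((E ^ ((q : ℝ) - 5 / 4) : ℝ) : ℂ)‖ ≤ K * E ^ (-(1 / 4) : ℝ) := by
        filter_upwards [eventually_ge_atTop E1] with E hE
        have hE1' : 1 ≤ E := hE11.trans hE
        have hE0' : 0 < E := by linarith
        have hEE0 : E0 ≤ E := (le_max_left _ _).trans hE
        rw [Fin.sum_univ_eq_sum_range (fun k : ℕ => βt (n + k) *
          ((E ^ ((((n + k : ℕ) : ℝ) - 1) / 2) : ℝ) : ℂ)) (m + 1)]
        have h1 := hβ1 E hE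
        rw [hsum E] at h1
        set S1 := ∑ j ∈ Finset.range n, βt j * ((E ^ (((j : ℝ) - 1) / 2) : ℝ) : ℂ) with hS1
        set S2 := ∑ k ∈ Finset.range (m + 1), βt (n + k) *
          ((E ^ ((((n + k : ℕ) : ℝ) - 1) / 2) : ℝ) : ℂ) with hS2
        set T : ℝ := E ^ ((q : ℝ) - 3 / 2) with hT
        have hT0 : 0 < T := Real.rpow_pos_of_pos hE0' _
        have hS1b : ‖S1‖ ≤ (∑ j ∈ Finset.range n, ‖βt j‖) * T := by
          rw [hS1, Finset.sum_mul]
          refine (norm_sum_le _ _).trans (Finset.sum_le_sum (fun j hj => ?_))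
          rw [Finset.mem_range] at hj
          rw [norm_mul, Complex.norm_real, Real.norm_eq_abs,
            abs_of_nonneg (Real.rpow_nonneg hE0'.le _)]
          refine mul_le_mul_of_nonneg_left ?_ (norm_nonneg _)
          refine Real.rpow_le_rpow_of_exponent_le hE1' ?_
          have h2 : j + 1 ≤ n := hj
          have h3 : ((j + 1 : ℕ) : ℝ) ≤ (n : ℝ) := by exact_mod_cast h2
          push_cast at h3
          rw [hncast] at h3
          linarith
        have hF'b : ‖F' E‖ ≤ |C| * T + |N| * T := by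
          have h2 : ‖F' E‖ = |F E + N * E⁻¹| := by
            simp only [hF']
            rw [Complex.norm_real, Real.norm_eq_abs]
          rw [h2]
          refine (abs_add_le _ _).trans (add_le_add ?_ ?_)
          · refine (hF E hEE0).trans ?_
            exact mul_le_mul_of_nonneg_right (le_abs_self C) hT0.le
          · rw [abs_mul]
            refine mul_le_mul_of_nonneg_left ?_ (abs_nonneg _)
            rw [abs_of_nonneg (by positivity), ← Real.rpow_neg_one]
            exact Real.rpow_le_rpow_of_exponent_le hE1' (by linarith)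
        have h32 : (C + C2) * E ^ (-(3 / 2) : ℝ) ≤ (|C| + C2) * T := by
          have h2 : E ^ (-(3 / 2) : ℝ) ≤ T :=
            Real.rpow_le_rpow_of_exponent_le hE1' (by linarith)
          have h3 : 0 ≤ E ^ (-(3 / 2) : ℝ) := Real.rpow_nonneg hE0'.le _
          have h4 := le_abs_self C
          have h5 := abs_nonneg C
          calc (C + C2) * E ^ (-(3 / 2) : ℝ) ≤ (|C| + C2) * E ^ (-(3 / 2) : ℝ) :=
                mul_le_mul_of_nonneg_right (by linarith) h3
            _ ≤ (|C| + C2) * T := mul_le_mul_of_nonneg_left h2 (by linarith)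
        have hS2b : ‖S2‖ ≤ K * T := by
          have e1 : S2 = (S1 + S2 - F' E) + F' E - S1 := by ring
          have h6 := norm_sub_le ((S1 + S2 - F' E) + F' E) S1
          have h7 := norm_add_le (S1 + S2 - F' E) (F' E)
          rw [← e1] at h6
          have h8 : K * T = (|C| + C2) * T + (|C| * T + |N| * T) +
              (∑ j ∈ Finset.range n, ‖βt j‖) * T := by
            rw [hK]; ring
          rw [h8]
          linarith
        rw [norm_div, Complex.norm_real, Real.norm_eq_abs,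
          abs_of_nonneg (Real.rpow_nonneg hE0'.le _),
          div_le_iff₀ (Real.rpow_pos_of_pos hE0' _), mul_assoc, ← Real.rpow_add hE0']
        have e2 : (-(1 / 4) : ℝ) + ((q : ℝ) - 5 / 4) = (q : ℝ) - 3 / 2 := by ring
        rw [e2]
        exact hS2b
      have hlim0 : Tendsto (fun E : ℝ => K * E ^ (-(1 / 4) : ℝ)) atTop (𝓝 0) := by
        have h9 := (tendsto_rpow_neg_atTop (y := (1 / 4 : ℝ)) (by norm_num)).const_mul K
        rw [mul_zero] at h9
        exact h9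
      exact squeeze_zero_norm' hbound hlim0
  -- the odd coefficients vanish
  have hodd : ∀ j : ℕ, Odd j → j < n → βt j = 0 := by
    intro j hj hjn
    obtain ⟨a, ha⟩ := hj
    refine hβt0 j (Eventually.of_forall (fun r => ?_))
    have h1 : ((j : ℝ) - 1) / 2 = (a : ℝ) := by
      rw [ha]; push_cast; ring
    have h2 : kap q (((j : ℝ) - 1) / 2) = 0 := by
      rw [h1]; exact hk0 a (by omega)
    rw [gexp_b, h2]
    simp
  have hfin : ∀ E : ℝ, ∑ j : Fin p, β j * ((E ^ ((((j : ℕ) : ℝ) - 1) / 2) : ℝ) : ℂ) =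
      ∑ i ∈ Finset.range q, βt (2 * (q - 1 - i)) * ((E ^ ((q : ℝ) - 3 / 2 - i) : ℝ) : ℂ) := by
    intro E
    rw [hsum E]
    have h1 : ∑ k ∈ Finset.range (m + 1), βt (n + k) *
        ((E ^ ((((n + k : ℕ) : ℝ) - 1) / 2) : ℝ) : ℂ) = 0 := by
      refine Finset.sum_eq_zero (fun k hk => ?_)
      rw [Finset.mem_range] at hk
      have := hhigh ⟨k, hk⟩
      simp only at this
      rw [this, zero_mul]
    have h2 : n = 2 * (q - 1) + 1 := by omega
    have h3 := gexp_even_sum (fun j : ℕ => βt j * ((E ^ (((j : ℝ) - 1) / 2) : ℝ) : ℂ)) (q - 1)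
      (fun j hj hjn => by
        have := hodd j hj (by omega)
        simp only [this, zero_mul])
    rw [← h2, Nat.sub_add_cancel hq] at h3
    rw [h1, add_zero, h3, ← Finset.sum_range_reflect]
    refine Finset.sum_congr rfl (fun i hi => ?_)
    rw [Finset.mem_range] at hi
    have h4 : (((2 * (q - 1 - i) : ℕ) : ℝ) - 1) / 2 = (q : ℝ) - 3 / 2 - i := by
      have h5 : q - 1 - i + (1 + i) = q := by omega
      have h6 : ((q - 1 - i + (1 + i) : ℕ) : ℝ) = (q : ℝ) := by rw [h5]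
      push_cast at h6 ⊢
      linarith
    rw [h4]
  refine ⟨fun i => (βt (2 * (q - 1 - i))).re, C + C2, E1, hE11, ?_, ?_⟩
  · intro E hE
    have h1 := hβ1 E hE
    rw [hfin E] at h1
    have h2 : F E + N * E⁻¹ - ∑ i ∈ Finset.range q,
        (βt (2 * (q - 1 - i))).re * E ^ ((q : ℝ) - 3 / 2 - i) =
        -((∑ i ∈ Finset.range q, βt (2 * (q - 1 - i)) *
          ((E ^ ((q : ℝ) - 3 / 2 - i) : ℝ) : ℂ) - F' E).re) := by
      simp only [hF']
      rw [Complex.sub_re, Complex.re_sum, Complex.ofReal_re]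
      have h3 : ∀ i ∈ Finset.range q, (βt (2 * (q - 1 - i)) *
          ((E ^ ((q : ℝ) - 3 / 2 - i) : ℝ) : ℂ)).re =
          (βt (2 * (q - 1 - i))).re * E ^ ((q : ℝ) - 3 / 2 - i) :=
        fun i _ => Complex.re_mul_ofReal _ _
      rw [Finset.sum_congr rfl h3]
      ring
    rw [h2, abs_neg]
    exact (Complex.abs_re_le_norm _).trans h1
  · intro _ hcodd i hi
    have h1 : βt (2 * (q - 1 - i)) = 0 := by
      refine hβt0 _ ?_
      filter_upwards [eventually_ge_atTop r0] with r hr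
      have h2 : c r (2 * (q - 1 - i) + 1) = 0 :=
        hcodd r hr _ ⟨q - 1 - i, rfl⟩ (by omega)
      rw [gexp_b, h2]
      simp
    simp only [h1, Complex.zero_re]

end Pool.Agent.Work.MP_f2af60_mp

end

section

/-!
# MP_f2af60_mp, item Q22: the numerators as entire families in `C(K × K, ℂ)`
-/

namespace Pool.Agent.Work.MP_f2af60_mp

open MeasureTheory Metric Filter Topology

section

variable {K : Type} [MetricSpace K] [CompactSpace K]

/-- The function `|x - y|` as an element of the Banach algebra. -/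
noncomputable def gfamDist (K : Type) [MetricSpace K] [CompactSpace K] : C(K × K, ℂ) where
  toFun p := ((dist p.1 p.2 : ℝ) : ℂ)
  continuous_toFun := by fun_prop

theorem gfamDist_apply (p : K × K) : gfamDist K p = ((dist p.1 p.2 : ℝ) : ℂ) := rfl

theorem gfam_exp (z : ℂ) (p : K × K) :
    (NormedSpace.exp (z • (Complex.I • gfamDist K)) : C(K × K, ℂ)) p =
      Complex.exp (Complex.I * (z * ((dist p.1 p.2 : ℝ) : ℂ))) := by
  have h := NormedSpace.map_exp (ContinuousMap.evalAlgHom ℂ ℂ p : C(K × K, ℂ) →ₐ[ℂ] ℂ)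
    (continuous_eval_const p) (z • (Complex.I • gfamDist K))
  simp only [ContinuousMap.evalAlgHom_apply] at h
  rw [h, ← Complex.exp_eq_exp_ℂ, ContinuousMap.smul_apply, ContinuousMap.smul_apply,
    gfamDist_apply, smul_eq_mul, smul_eq_mul]
  congr 1
  ring

/-- The family `z ↦ eb q (z |x - y|)` in the Banach algebra. -/
noncomputable def gfam (K : Type) [MetricSpace K] [CompactSpace K] : ℕ → ℂ → C(K × K, ℂ)
  | 0, z => (4 * (Real.pi : ℂ))⁻¹ • NormedSpace.exp (z • (Complex.I • gfamDist K))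
  | 1, z => (8 * (Real.pi : ℂ) ^ 2)⁻¹ • (NormedSpace.exp (z • (Complex.I • gfamDist K)) *
      (1 - z • (Complex.I • gfamDist K)))
  | (j + 2), z => (2 * (Real.pi : ℂ))⁻¹ • ((2 * (j : ℂ) + 3) • gfam K (j + 1) z -
      (2 * (Real.pi : ℂ))⁻¹ • ((z • gfamDist K) * (z • gfamDist K) * gfam K j z))

theorem gfam_apply_aux (z : ℂ) (p : K × K) : ∀ q : ℕ,
    gfam K q z p = eb q (z * ((dist p.1 p.2 : ℝ) : ℂ)) ∧
      gfam K (q + 1) z p = eb (q + 1) (z * ((dist p.1 p.2 : ℝ) : ℂ)) := by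
  intro q
  induction q with
  | zero =>
    constructor
    · simp only [gfam, eb, ContinuousMap.smul_apply, gfam_exp, smul_eq_mul]
      rw [div_eq_inv_mul]
    · simp only [gfam, eb, ContinuousMap.smul_apply, ContinuousMap.mul_apply,
        ContinuousMap.sub_apply, ContinuousMap.one_apply, gfam_exp, smul_eq_mul, gfamDist_apply]
      rw [div_eq_inv_mul]
      ring
  | succ j ih =>
    refine ⟨ih.2, ?_⟩
    simp only [gfam, eb, ContinuousMap.smul_apply, ContinuousMap.mul_apply,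
      ContinuousMap.sub_apply, smul_eq_mul, gfamDist_apply, ih.1, ih.2]
    rw [div_eq_inv_mul, div_eq_inv_mul]
    ring

theorem gfam_apply (q : ℕ) (z : ℂ) (x y : K) :
    gfam K q z (x, y) = eb q (z * ((dist x y : ℝ) : ℂ)) := (gfam_apply_aux z (x, y) q).1

theorem gfam_diff_aux : ∀ q : ℕ, Differentiable ℂ (gfam K q) ∧ Differentiable ℂ (gfam K (q + 1)) := by
  have he : Differentiable ℂ
      (fun z : ℂ => NormedSpace.exp (z • (Complex.I • gfamDist K))) :=
    differentiable_exp_smul_const ℂ (Complex.I • gfamDist K)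
  intro q
  induction q with
  | zero =>
    constructor
    · have : gfam K 0 = fun z => (4 * (Real.pi : ℂ))⁻¹ •
          NormedSpace.exp (z • (Complex.I • gfamDist K)) := by funext z; rfl
      rw [this]
      exact he.const_smul ((4 * (Real.pi : ℂ))⁻¹ : ℂ)
    · have : gfam K (0 + 1) = fun z => (8 * (Real.pi : ℂ) ^ 2)⁻¹ •
          (NormedSpace.exp (z • (Complex.I • gfamDist K)) *
            (1 - z • (Complex.I • gfamDist K))) := by funext z; rfl
      rw [this]
      have h2 : Differentiable ℂ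
          (fun z : ℂ => (1 : C(K × K, ℂ)) - z • (Complex.I • gfamDist K)) :=
        (differentiable_const _).sub (differentiable_id.smul_const _)
      exact (he.mul h2).const_smul ((8 * (Real.pi : ℂ) ^ 2)⁻¹ : ℂ)
  | succ j ih =>
    refine ⟨ih.2, ?_⟩
    have : gfam K (j + 1 + 1) = fun z => (2 * (Real.pi : ℂ))⁻¹ •
        ((2 * (j : ℂ) + 3) • gfam K (j + 1) z -
      (2 * (Real.pi : ℂ))⁻¹ • ((z • gfamDist K) * (z • gfamDist K) * gfam K j z)) := by
      funext z; rfl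
    rw [this]
    have h1 : Differentiable ℂ (fun z : ℂ => z • gfamDist K) := differentiable_id.smul_const _
    exact ((ih.2.const_smul (2 * (j : ℂ) + 3)).sub
      (((h1.mul h1).mul ih.1).const_smul ((2 * (Real.pi : ℂ))⁻¹ : ℂ))).const_smul
        ((2 * (Real.pi : ℂ))⁻¹ : ℂ)

end

theorem familiesQ (h : EbFacts) : FamiliesQ := by
  obtain ⟨hder, hdiff, hgrow, hpar, -, -, -⟩ := h
  intro q hq K _ _
  refine ⟨gfam K q, gfam K (q - 1), gfam_apply q, gfam_apply (q - 1), (gfam_diff_aux q).1, ?_, ?_⟩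
  · intro z x y
    obtain ⟨p, rfl⟩ : ∃ p, q = p + 1 := ⟨q - 1, by omega⟩
    have h1 : HasDerivAt (gfam K (p + 1)) (deriv (gfam K (p + 1)) z) z :=
      ((gfam_diff_aux (K := K) (p + 1)).1 z).hasDerivAt
    have h2 : HasDerivAt (fun w => (ContinuousMap.evalCLM ℂ (x, y) : C(K × K, ℂ) →L[ℂ] ℂ)
        (gfam K (p + 1) w)) ((ContinuousMap.evalCLM ℂ (x, y) : C(K × K, ℂ) →L[ℂ] ℂ)
          (deriv (gfam K (p + 1)) z)) z :=
      (ContinuousMap.evalCLM ℂ (x, y) : C(K × K, ℂ) →L[ℂ] ℂ).hasFDerivAt.comp_hasDerivAt z h1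
    have h3 : HasDerivAt (fun w : ℂ => eb (p + 1) (w * ((dist x y : ℝ) : ℂ)))
        ((z * ((dist x y : ℝ) : ℂ)) * eb p (z * ((dist x y : ℝ) : ℂ)) / (2 * (Real.pi : ℂ)) *
          (1 * ((dist x y : ℝ) : ℂ))) z :=
      HasDerivAt.comp z (hder p (z * ((dist x y : ℝ) : ℂ)))
        ((hasDerivAt_id z).mul_const ((dist x y : ℝ) : ℂ))
    have h4 : (fun w => (ContinuousMap.evalCLM ℂ (x, y) : C(K × K, ℂ) →L[ℂ] ℂ)
        (gfam K (p + 1) w)) = fun w : ℂ => eb (p + 1) (w * ((dist x y : ℝ) : ℂ)) := by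
      funext w
      exact gfam_apply (p + 1) w x y
    rw [h4] at h2
    have h5 := h2.unique h3
    have h6 : (ContinuousMap.evalCLM ℂ (x, y) : C(K × K, ℂ) →L[ℂ] ℂ)
          (deriv (gfam K (p + 1)) z) = deriv (gfam K (p + 1)) z (x, y) := rfl
    rw [← h6, h5, Nat.add_sub_cancel, gfam_apply]
    ring
  · obtain ⟨C1, hC1⟩ := hgrow q
    obtain ⟨C2, hC2⟩ := hpar q
    -- bound for the distance
    obtain ⟨D, hD0, hD⟩ : ∃ D : ℝ, 0 ≤ D ∧ ∀ x y : K, dist x y ≤ D :=
      ⟨‖gfamDist K‖, norm_nonneg _, fun x y => by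
        have := ContinuousMap.norm_coe_le_norm (gfamDist K) (x, y)
        rw [gfamDist_apply, Complex.norm_real, Real.norm_of_nonneg dist_nonneg] at this
        exact this⟩
    set M : ℝ := |C1| * (1 + D) ^ q * Real.exp D with hM
    have hM0 : 0 ≤ M := by positivity
    have hbd : ∀ w : ℂ, ‖w‖ ≤ D → ‖eb q w‖ ≤ M := by
      intro w hw
      have hexp : Real.exp (-w.im) ≤ Real.exp D := by
        apply Real.exp_le_exp.2
        have := Complex.abs_im_le_norm w
        have h2 := neg_abs_le w.im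
        linarith
      calc ‖eb q w‖ ≤ C1 * (1 + ‖w‖) ^ q * Real.exp (-w.im) := hC1 w
        _ ≤ |C1| * (1 + ‖w‖) ^ q * Real.exp (-w.im) := by
            gcongr
            exact le_abs_self C1
        _ ≤ |C1| * (1 + D) ^ q * Real.exp D := by
            gcongr
    refine ⟨(|C2| + 2 * M) * D ^ (2 * q + 1), fun z hz => ?_⟩
    rw [ContinuousMap.norm_le _ (by positivity)]
    rintro ⟨x, y⟩
    rw [ContinuousMap.sub_apply, gfam_apply, gfam_apply, neg_mul]
    set w : ℂ := z * ((dist x y : ℝ) : ℂ) with hw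
    have hwn : ‖w‖ = ‖z‖ * dist x y := by
      rw [hw, norm_mul, Complex.norm_real, Real.norm_of_nonneg dist_nonneg]
    have hwD : ‖w‖ ≤ D := by
      rw [hwn]
      calc ‖z‖ * dist x y ≤ 1 * D := by
            gcongr
            exact hD x y
        _ = D := one_mul D
    have hwp : ‖w‖ ^ (2 * q + 1) ≤ D ^ (2 * q + 1) * ‖z‖ ^ (2 * q + 1) := by
      rw [hwn, mul_pow, mul_comm]
      gcongr
      exact hD x y
    have key : ‖eb q w - eb q (-w)‖ ≤ (|C2| + 2 * M) * ‖w‖ ^ (2 * q + 1) := by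
      rcases le_or_gt ‖w‖ 1 with h1 | h1
      · calc ‖eb q w - eb q (-w)‖ ≤ C2 * ‖w‖ ^ (2 * q + 1) := hC2 w h1
          _ ≤ (|C2| + 2 * M) * ‖w‖ ^ (2 * q + 1) := by
              gcongr
              linarith [le_abs_self C2]
      · have h2 : (1 : ℝ) ≤ ‖w‖ ^ (2 * q + 1) := one_le_pow₀ h1.le
        calc ‖eb q w - eb q (-w)‖ ≤ ‖eb q w‖ + ‖eb q (-w)‖ := norm_sub_le _ _
          _ ≤ M + M := add_le_add (hbd w hwD) (hbd (-w) (by rwa [norm_neg]))
          _ ≤ (|C2| + 2 * M) * 1 := by linarith [abs_nonneg C2]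
          _ ≤ (|C2| + 2 * M) * ‖w‖ ^ (2 * q + 1) := by
              gcongr
    calc ‖eb q w - eb q (-w)‖ ≤ (|C2| + 2 * M) * ‖w‖ ^ (2 * q + 1) := key
      _ ≤ (|C2| + 2 * M) * (D ^ (2 * q + 1) * ‖z‖ ^ (2 * q + 1)) := by
          gcongr
      _ = (|C2| + 2 * M) * D ^ (2 * q + 1) * ‖z‖ ^ (2 * q + 1) := by ring

end Pool.Agent.Work.MP_f2af60_mp

end

section

/-!
# MP_f2af60_mp, item Q23: multiplicativity of the perturbation determinants
-/

namespace Pool.Agent.Work.MP_f2af60_mp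

open MeasureTheory Metric Filter Topology Matrix

section FrMulAux

variable {X : Type*} [NormedAddCommGroup X] [NormedSpace ℂ X] {N N' : ℕ}

theorem frMul_FRop_append (φ : Fin N → X) (ψ : Fin N → (X →L[ℂ] ℂ)) (φ' : Fin N' → X)
    (ψ' : Fin N' → (X →L[ℂ] ℂ)) :
    FRop (Fin.append φ φ') (Fin.append ψ (fun k => -ψ' k)) = FRop φ ψ - FRop φ' ψ' := by
  ext u
  simp only [FRop_apply, _root_.sub_apply, Fin.sum_univ_add, Fin.append_left, Fin.append_right,
    _root_.neg_apply, neg_smul, Finset.sum_neg_distrib]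
  abel

end FrMulAux

theorem frMul : FrMul := by
  intro X _ _ _ N N' φ ψ φ' ψ' A₁ T₁ A₁' T₁' hA h1 h2 h1' h2'
  set Φ : Fin N ⊕ Fin N' → X := Sum.elim φ φ' with hΦ
  set β : Fin N ⊕ Fin N' → (X →L[ℂ] ℂ) :=
    Sum.elim (fun k => (ψ k).comp T₁) (fun k => -(ψ' k).comp T₁) with hβ
  set α : Fin N ⊕ Fin N' → (X →L[ℂ] ℂ) :=
    Sum.elim (fun k => (ψ k).comp T₁) (fun _ => 0) with hα
  set γ : Fin N ⊕ Fin N' → (X →L[ℂ] ℂ) :=
    Sum.elim (fun _ => 0) (fun k => (ψ' k).comp T₁') with hγ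
  have key : ∀ k v, α k v = γ k v + β k v + ∑ j, γ k (Φ j) * β j v := by
    intro k v
    rcases k with k | k
    · simp [hα, hγ, hβ]
    · have e1 : T₁' v - T₁ v + T₁' (∑ j, β j v • Φ j) = 0 := by
        have e2 : ∑ j, β j v • Φ j = (FRop φ ψ - FRop φ' ψ') (T₁ v) := by
          simp only [hβ, hΦ, Fintype.sum_sum_type, Sum.elim_inl, Sum.elim_inr, _root_.sub_apply,
            FRop_apply, ContinuousLinearMap.comp_apply, _root_.neg_apply, neg_smul,
            Finset.sum_neg_distrib]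
          abel
        have e3 : FRop φ ψ - FRop φ' ψ' = (1 + A₁') - (1 + A₁) := by
          have h5 : FRop φ ψ = A₁' + FRop φ' ψ' - A₁ := by
            rw [← hA]; abel
          rw [h5]; abel
        have e4 : T₁' * (FRop φ ψ - FRop φ' ψ') * T₁ = T₁ - T₁' := by
          rw [e3, mul_sub, sub_mul, h1', one_mul, mul_assoc, h2, mul_one]
        have e5 := congrArg (fun S : X →L[ℂ] X => S v) e4
        have e6 : (T₁' * (FRop φ ψ - FRop φ' ψ') * T₁) v =
            T₁' ((FRop φ ψ - FRop φ' ψ') (T₁ v)) := rfl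
        change (T₁' * (FRop φ ψ - FRop φ' ψ') * T₁) v = T₁ v - T₁' v at e5
        rw [e6] at e5
        rw [e2, e5]; abel
      have e7 := congrArg (ψ' k) e1
      rw [map_add, map_sub, map_sum, map_sum, map_zero] at e7
      simp only [map_smul, smul_eq_mul] at e7
      simp only [hα, hγ, Sum.elim_inr, _root_.zero_apply, ContinuousLinearMap.comp_apply]
      rw [← e7]
      have e8 : β (Sum.inr k) v = -ψ' k (T₁ v) := rfl
      rw [e8, sub_eq_add_neg]
      congr 1
      exact Finset.sum_congr rfl fun j _ => mul_comm _ _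
  set MA : Matrix (Fin N ⊕ Fin N') (Fin N ⊕ Fin N') ℂ := Matrix.of fun k j => α k (Φ j) with hMA
  set MB : Matrix (Fin N ⊕ Fin N') (Fin N ⊕ Fin N') ℂ := Matrix.of fun k j => β k (Φ j) with hMB
  set MC : Matrix (Fin N ⊕ Fin N') (Fin N ⊕ Fin N') ℂ := Matrix.of fun k j => γ k (Φ j) with hMC
  have hmul : 1 + MA = (1 + MC) * (1 + MB) := by
    simp only [add_mul, mul_add, one_mul, mul_one]
    have : MA = MC + MB + MC * MB := by
      ext k j
      rw [Matrix.add_apply, Matrix.add_apply, Matrix.mul_apply]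
      exact key k (Φ j)
    rw [this]
    abel
  have hdA : (1 + MA).det = (1 + FRmat φ ψ T₁).det := by
    have : 1 + MA = Matrix.fromBlocks (1 + FRmat φ ψ T₁)
        (Matrix.of fun k j => ψ k (T₁ (φ' j))) 0 1 := by
      ext k j
      rcases k with k | k <;> rcases j with j | j <;>
        simp [hMA, hα, hΦ, FRmat_apply, Matrix.one_apply]
    rw [this, Matrix.det_fromBlocks_zero₂₁, Matrix.det_one, mul_one]
  have hdC : (1 + MC).det = (1 + FRmat φ' ψ' T₁').det := by
    have : 1 + MC = Matrix.fromBlocks 1 0 (Matrix.of fun k j => ψ' k (T₁' (φ j)))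
        (1 + FRmat φ' ψ' T₁') := by
      ext k j
      rcases k with k | k <;> rcases j with j | j <;>
        simp [hMC, hγ, hΦ, FRmat_apply, Matrix.one_apply]
    rw [this, Matrix.det_fromBlocks_zero₁₂, Matrix.det_one, one_mul]
  have hdB : (1 + MB).det =
      (1 + FRmat (Fin.append φ φ') (Fin.append ψ (fun k => -ψ' k)) T₁).det := by
    rw [← Matrix.det_submatrix_equiv_self finSumFinEquiv
      (1 + FRmat (Fin.append φ φ') (Fin.append ψ (fun k => -ψ' k)) T₁)]
    congr 1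
    ext k j
    rw [Matrix.submatrix_apply, Matrix.add_apply, Matrix.add_apply]
    congr 1
    · rw [Matrix.one_apply, Matrix.one_apply]
      simp
    · rcases k with k | k <;> rcases j with j | j <;>
        simp [hMB, hβ, hΦ, FRmat_apply]
  refine ⟨_, rfl, ?_, ?_⟩
  · have h4 : (1 + (A₁ + FRop (Fin.append φ φ') (Fin.append ψ (fun k => -ψ' k)))) * T₁' = 1 := by
      rw [frMul_FRop_append, ← add_sub_assoc, hA, add_sub_cancel_right, h2']
    have h5 := one_sub_FRmat (Fin.append φ φ') (Fin.append ψ (fun k => -ψ' k)) A₁ T₁ T₁' h1 h4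
    intro h0
    have h6 := congrArg Matrix.det h5
    rw [Matrix.det_mul, h0, zero_mul, Matrix.det_one] at h6
    exact zero_ne_one h6
  · rw [← hdA, ← hdB, ← hdC, hmul, Matrix.det_mul]

end Pool.Agent.Work.MP_f2af60_mp

end

section

/-!
# MP_f2af60_mp, item Q39: Gagliardo-Nirenberg for iterated directional derivatives
-/

namespace Pool.Agent.Work.MP_f2af60_mp

open MeasureTheory Filter Topology

/-- Hoelder with three functions, in multiplicative form. -/
theorem gn_holder3 {X : Type*} [MeasurableSpace X] {μ : Measure X} {g0 g1 g2 : X → ℝ}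
    (h0 : ∀ x, 0 ≤ g0 x) (h1 : ∀ x, 0 ≤ g1 x) (h2 : ∀ x, 0 ≤ g2 x)
    (i0 : Integrable g0 μ) (i1 : Integrable g1 μ) (i2 : Integrable g2 μ)
    {a b c : ℝ} (ha : 0 ≤ a) (hb : 0 ≤ b) (hc : 0 ≤ c) (habc : a + b + c = 1) :
    ∫ x, g0 x ^ a * g1 x ^ b * g2 x ^ c ∂μ ≤
      (∫ x, g0 x ∂μ) ^ a * (∫ x, g1 x ∂μ) ^ b * (∫ x, g2 x ∂μ) ^ c := by
  have key := ENNReal.lintegral_prod_norm_pow_le (μ := μ) (Finset.univ : Finset (Fin 3))
    (f := ![fun x => ENNReal.ofReal (g0 x), fun x => ENNReal.ofReal (g1 x),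
      fun x => ENNReal.ofReal (g2 x)]) (p := ![a, b, c])
    (by
      intro i _
      fin_cases i
      · exact i0.1.aemeasurable.ennreal_ofReal
      · exact i1.1.aemeasurable.ennreal_ofReal
      · exact i2.1.aemeasurable.ennreal_ofReal)
    (by simp [Fin.sum_univ_three, habc])
    (by
      intro i _
      fin_cases i
      · exact ha
      · exact hb
      · exact hc)
  simp only [Fin.prod_univ_three, Matrix.cons_val_zero, Matrix.cons_val_one,
    Matrix.cons_val_two, Matrix.head_cons, Matrix.tail_cons] at key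
  have n0 : 0 ≤ ∫ x, g0 x ∂μ := integral_nonneg h0
  have n1 : 0 ≤ ∫ x, g1 x ∂μ := integral_nonneg h1
  have n2 : 0 ≤ ∫ x, g2 x ∂μ := integral_nonneg h2
  rw [← ofReal_integral_eq_lintegral_ofReal i0 (Eventually.of_forall h0),
    ← ofReal_integral_eq_lintegral_ofReal i1 (Eventually.of_forall h1),
    ← ofReal_integral_eq_lintegral_ofReal i2 (Eventually.of_forall h2),
    ENNReal.ofReal_rpow_of_nonneg n0 ha, ENNReal.ofReal_rpow_of_nonneg n1 hb,
    ENNReal.ofReal_rpow_of_nonneg n2 hc, ← ENNReal.ofReal_mul (by positivity),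
    ← ENNReal.ofReal_mul (by positivity)] at key
  have hL : ∀ x, 0 ≤ g0 x ^ a * g1 x ^ b * g2 x ^ c := fun x =>
    mul_nonneg (mul_nonneg (Real.rpow_nonneg (h0 x) _) (Real.rpow_nonneg (h1 x) _))
      (Real.rpow_nonneg (h2 x) _)
  have hcongr : ∀ x, ENNReal.ofReal (g0 x ^ a * g1 x ^ b * g2 x ^ c) =
      ENNReal.ofReal (g0 x) ^ a * ENNReal.ofReal (g1 x) ^ b * ENNReal.ofReal (g2 x) ^ c := by
    intro x
    rw [ENNReal.ofReal_rpow_of_nonneg (h0 x) ha, ENNReal.ofReal_rpow_of_nonneg (h1 x) hb,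
      ENNReal.ofReal_rpow_of_nonneg (h2 x) hc,
      ← ENNReal.ofReal_mul (Real.rpow_nonneg (h0 x) _),
      ← ENNReal.ofReal_mul (mul_nonneg (Real.rpow_nonneg (h0 x) _) (Real.rpow_nonneg (h1 x) _))]
  have hmeas : AEStronglyMeasurable (fun x => g0 x ^ a * g1 x ^ b * g2 x ^ c) μ :=
    (((i0.1.aemeasurable.pow_const a).mul (i1.1.aemeasurable.pow_const b)).mul
      (i2.1.aemeasurable.pow_const c)).aestronglyMeasurable
  rw [integral_eq_lintegral_of_nonneg_ae (Eventually.of_forall hL) hmeas]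
  simp_rw [hcongr]
  exact ENNReal.toReal_le_of_le_ofReal (by positivity) key

/-- The derivative of `|s|^r s`. -/
theorem gn_phi {r : ℝ} (hr : 0 < r) (s : ℝ) :
    HasDerivAt (fun s : ℝ => |s| ^ r * s) ((r + 1) * |s| ^ r) s := by
  rcases lt_trichotomy s 0 with hs | hs | hs
  · have h1 : HasDerivAt (fun s : ℝ => -((-s) ^ (r + 1))) ((r + 1) * (-s) ^ r) s := by
      have h2 : HasDerivAt (fun s : ℝ => (-s) ^ (r + 1)) ((-1) * (r + 1) * (-s) ^ (r + 1 - 1)) s :=
        HasDerivAt.rpow_const (hasDerivAt_neg s) (Or.inl (by linarith [neg_pos.2 hs]))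
      have h3 : HasDerivAt (fun s : ℝ => -((-s) ^ (r + 1)))
          (-((-1) * (r + 1) * (-s) ^ (r + 1 - 1))) s := h2.neg
      refine h3.congr_deriv ?_
      rw [add_sub_cancel_right]
      ring
    rw [abs_of_neg hs]
    refine h1.congr_of_eventuallyEq ?_
    filter_upwards [Iio_mem_nhds hs] with t ht
    have ht' : t < 0 := ht
    rw [abs_of_neg ht', Real.rpow_add_one (by linarith)]
    ring
  · subst hs
    rw [abs_zero, Real.zero_rpow hr.ne', mul_zero, hasDerivAt_iff_tendsto_slope]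
    have h1 : Tendsto (fun t : ℝ => |t| ^ r) (𝓝[≠] 0) (𝓝 0) := by
      have h2 : Tendsto (fun t : ℝ => |t| ^ r) (𝓝 0) (𝓝 (|0| ^ r)) :=
        ((continuous_abs.rpow_const fun x => Or.inr hr.le).tendsto 0)
      rw [abs_zero, Real.zero_rpow hr.ne'] at h2
      exact h2.mono_left nhdsWithin_le_nhds
    refine h1.congr' ?_
    filter_upwards [self_mem_nhdsWithin] with t ht
    have ht' : t ≠ 0 := ht
    rw [slope_def_field]
    field_simp
    simp
  · have h1 : HasDerivAt (fun s : ℝ => s ^ (r + 1)) ((r + 1) * s ^ (r + 1 - 1)) s :=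
      Real.hasDerivAt_rpow_const (Or.inl hs.ne')
    rw [add_sub_cancel_right] at h1
    rw [abs_of_pos hs]
    refine h1.congr_of_eventuallyEq ?_
    filter_upwards [Ioi_mem_nhds hs] with t ht
    rw [abs_of_pos ht, Real.rpow_add_one (ne_of_gt ht)]

section

variable {n : ℕ} {f : EuclideanSpace ℝ (Fin n) → ℝ}

theorem gn_smooth (hf : ContDiff ℝ (⊤ : ℕ∞) f) (L : List (EuclideanSpace ℝ (Fin n))) :
    ContDiff ℝ (⊤ : ℕ∞) (ld L f) := by
  induction L with
  | nil => exact hf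
  | cons v L ih =>
    show ContDiff ℝ (⊤ : ℕ∞) (fun x => fderiv ℝ (ld L f) x v)
    exact (ih.fderiv_right (m := (⊤ : ℕ∞)) (by simp)).clm_apply contDiff_const

theorem gn_supp (hc : HasCompactSupport f) (L : List (EuclideanSpace ℝ (Fin n))) :
    HasCompactSupport (ld L f) := by
  induction L with
  | nil => exact hc
  | cons v L ih =>
    show HasCompactSupport (fun x => fderiv ℝ (ld L f) x v)
    exact (ih.fderiv ℝ).comp_left (g := fun T : EuclideanSpace ℝ (Fin n) →L[ℝ] ℝ => T v) rfl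

/-- Powers of the derivatives are integrable. -/
theorem gn_int (hf : ContDiff ℝ (⊤ : ℕ∞) f) (hc : HasCompactSupport f)
    (L : List (EuclideanSpace ℝ (Fin n))) {p : ℝ} (hp : 0 < p) :
    Integrable (fun x => |ld L f x| ^ p) := by
  refine Continuous.integrable_of_hasCompactSupport ?_ ?_
  · exact ((gn_smooth hf L).continuous.abs).rpow_const fun x => Or.inr hp.le
  · exact (gn_supp hc L).comp_left (g := fun s : ℝ => |s| ^ p) (by simp [hp.ne'])

/-- Integration by parts. -/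
theorem gn_parts (hf : ContDiff ℝ (⊤ : ℕ∞) f) (hc : HasCompactSupport f)
    (L : List (EuclideanSpace ℝ (Fin n))) (v : EuclideanSpace ℝ (Fin n)) {r : ℝ} (hr : 0 < r) :
    ∫ x, |ld (v :: L) f x| ^ (r + 2) ≤
      (r + 1) * ∫ x, |ld L f x| * |ld (v :: v :: L) f x| * |ld (v :: L) f x| ^ r := by
  set u : EuclideanSpace ℝ (Fin n) → ℝ := ld L f with hu
  set w : EuclideanSpace ℝ (Fin n) → ℝ := ld (v :: L) f with hw
  set z : EuclideanSpace ℝ (Fin n) → ℝ := ld (v :: v :: L) f with hz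
  have su : ContDiff ℝ (⊤ : ℕ∞) u := gn_smooth hf L
  have sw : ContDiff ℝ (⊤ : ℕ∞) w := gn_smooth hf (v :: L)
  have sz : ContDiff ℝ (⊤ : ℕ∞) z := gn_smooth hf (v :: v :: L)
  have cu : HasCompactSupport u := gn_supp hc L
  have cw : HasCompactSupport w := gn_supp hc (v :: L)
  have du : ∀ x, fderiv ℝ u x v = w x := fun x => rfl
  have dw : ∀ x, fderiv ℝ w x v = z x := fun x => rfl
  have dg : ∀ x, HasFDerivAt (fun x => |w x| ^ r * w x)
      (((r + 1) * |w x| ^ r) • fderiv ℝ w x) x := by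
    intro x
    have h1 : HasFDerivAt w (fderiv ℝ w x) x :=
      ((sw.differentiable (by simp)) x).hasFDerivAt
    exact (gn_phi hr (w x)).comp_hasFDerivAt x h1
  have dg' : ∀ x, fderiv ℝ (fun x => |w x| ^ r * w x) x v = (r + 1) * |w x| ^ r * z x := by
    intro x
    rw [(dg x).fderiv]
    simp [dw]
  have cont_r : Continuous fun x => |w x| ^ r := sw.continuous.abs.rpow_const fun x => Or.inr hr.le
  have ibp := integral_mul_fderiv_eq_neg_fderiv_mul_of_integrable
    (μ := (volume : Measure (EuclideanSpace ℝ (Fin n))))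
    (f := u) (g := fun x => |w x| ^ r * w x) (v := v)
    (by
      simp_rw [du]
      refine Continuous.integrable_of_hasCompactSupport
        (sw.continuous.mul (cont_r.mul sw.continuous)) cw.mul_right)
    (by
      simp_rw [dg']
      refine Continuous.integrable_of_hasCompactSupport
        (su.continuous.mul ((continuous_const.mul cont_r).mul sz.continuous)) cu.mul_right)
    (by
      refine Continuous.integrable_of_hasCompactSupport
        (su.continuous.mul (cont_r.mul sw.continuous)) cu.mul_right)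
    (fun x _ => (su.differentiable (by simp)) x)
    (fun x _ => (dg x).differentiableAt)
  simp_rw [du, dg'] at ibp
  have e1 : ∫ x, |w x| ^ (r + 2) = ∫ x, w x * (|w x| ^ r * w x) := by
    refine integral_congr_ae (Eventually.of_forall fun x => ?_)
    show |w x| ^ (r + 2) = w x * (|w x| ^ r * w x)
    rcases eq_or_ne (w x) 0 with h0 | h0
    · rw [h0, abs_zero, Real.zero_rpow (by linarith)]
      simp
    · rw [Real.rpow_add (abs_pos.2 h0), Real.rpow_two, sq_abs]
      ring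
  have e2 : ∫ x, w x * (|w x| ^ r * w x) = - ∫ x, u x * ((r + 1) * |w x| ^ r * z x) := by
    rw [ibp, neg_neg]
  rw [e1, e2, ← integral_const_mul, ← integral_neg]
  refine integral_mono ?_ ?_ ?_
  · refine (Continuous.integrable_of_hasCompactSupport
      (su.continuous.mul ((continuous_const.mul cont_r).mul sz.continuous)) cu.mul_right).neg
  · refine Continuous.integrable_of_hasCompactSupport
      (continuous_const.mul ((su.continuous.abs.mul sz.continuous.abs).mul cont_r)) ?_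
    have cu' : HasCompactSupport fun x => |u x| := cu.comp_left (g := fun s : ℝ => |s|) abs_zero
    exact ((cu'.mul_right (f' := fun x => |z x|)).mul_right (f' := fun x => |w x| ^ r)).mul_left
  · intro x
    show -(u x * ((r + 1) * |w x| ^ r * z x)) ≤ (r + 1) * (|u x| * |z x| * |w x| ^ r)
    calc -(u x * ((r + 1) * |w x| ^ r * z x)) ≤ |u x * ((r + 1) * |w x| ^ r * z x)| :=
          neg_le_abs _
      _ = (r + 1) * (|u x| * |z x| * |w x| ^ r) := by
          rw [abs_mul, abs_mul, abs_mul, abs_of_nonneg (by linarith : 0 ≤ r + 1),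
            abs_of_nonneg (Real.rpow_nonneg (abs_nonneg (w x)) r)]
          ring

/-- The normalised size of a derivative. -/
noncomputable def gnN (J : ℕ) (B : ℝ) (f : EuclideanSpace ℝ (Fin n) → ℝ)
    (L : List (EuclideanSpace ℝ (Fin n))) : ℝ :=
  if L.length = 0 then B else
    (∫ x, |ld L f x| ^ (2 * (J : ℝ) / L.length)) ^ ((L.length : ℝ) / (2 * J))

theorem gnN_nonneg {J : ℕ} {B : ℝ} (hB : 0 ≤ B) (L : List (EuclideanSpace ℝ (Fin n))) :
    0 ≤ gnN J B f L := by
  unfold gnN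
  split_ifs
  · exact hB
  · exact Real.rpow_nonneg (integral_nonneg fun x => Real.rpow_nonneg (abs_nonneg _) _) _

/-- The basic interpolation step. -/
theorem gn_step (hf : ContDiff ℝ (⊤ : ℕ∞) f) (hc : HasCompactSupport f) {J : ℕ} {B : ℝ}
    (hB : 0 ≤ B) (hfB : ∀ x, |f x| ≤ B)
    (L : List (EuclideanSpace ℝ (Fin n))) (v : EuclideanSpace ℝ (Fin n))
    (hL : L.length + 1 < J) :
    gnN J B f (v :: L) ^ 2 ≤ (2 * J) * (gnN J B f L * gnN J B f (v :: v :: L)) := by
  set k : ℕ := L.length with hk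
  have hJ : (0 : ℝ) < J := by
    have : 0 < J := by omega
    exact_mod_cast this
  have hkJ : (k : ℝ) + 1 < J := by exact_mod_cast hL
  have hk0 : (0 : ℝ) ≤ k := Nat.cast_nonneg k
  -- the exponents
  set p : ℝ := 2 * (J : ℝ) / (k + 1) with hp
  have hp2 : 2 < p := by
    rw [hp, lt_div_iff₀ (by linarith)]
    linarith
  have hpJ : p ≤ 2 * J := by
    rw [hp, div_le_iff₀ (by linarith)]
    nlinarith
  set r : ℝ := p - 2 with hr
  have hr0 : 0 < r := by linarith
  have hN1 : gnN J B f (v :: L) =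
      (∫ x, |ld (v :: L) f x| ^ p) ^ (((k : ℝ) + 1) / (2 * J)) := by
    unfold gnN
    rw [if_neg (by simp)]
    simp [hp, hk]
  have hN2 : gnN J B f (v :: v :: L) =
      (∫ x, |ld (v :: v :: L) f x| ^ (2 * (J : ℝ) / (k + 2))) ^ (((k : ℝ) + 2) / (2 * J)) := by
    unfold gnN
    rw [if_neg (by simp)]
    simp only [List.length_cons, Nat.cast_add, Nat.cast_one, ← hk]
    ring_nf
  set I1 : ℝ := ∫ x, |ld (v :: L) f x| ^ p with hI1
  set I2 : ℝ := ∫ x, |ld (v :: v :: L) f x| ^ (2 * (J : ℝ) / (k + 2)) with hI2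
  have hI1n : 0 ≤ I1 := integral_nonneg fun x => Real.rpow_nonneg (abs_nonneg _) _
  have hI2n : 0 ≤ I2 := integral_nonneg fun x => Real.rpow_nonneg (abs_nonneg _) _
  have h1 := gn_parts hf hc L v hr0
  have hrp : r + 2 = p := by rw [hr]; ring
  rw [hrp] at h1
  -- Hoelder
  set c : ℝ := 1 - (2 * k + 2) / (2 * J) with hcdef
  have hJ2 : (0 : ℝ) < 2 * J := by linarith
  have hc0 : 0 ≤ c := by
    rw [hcdef, sub_nonneg, div_le_one hJ2]
    linarith
  have hb0 : 0 ≤ ((k : ℝ) + 2) / (2 * J) := by positivity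
  have hpc : p * c = r := by
    rw [hr, hcdef, hp]
    field_simp
  have e1 : ∀ x, (|ld (v :: v :: L) f x| ^ (2 * (J : ℝ) / (k + 2))) ^ (((k : ℝ) + 2) / (2 * J)) =
      |ld (v :: v :: L) f x| := by
    intro x
    rw [← Real.rpow_mul (abs_nonneg _)]
    have : 2 * (J : ℝ) / (k + 2) * (((k : ℝ) + 2) / (2 * J)) = 1 := by
      field_simp
    rw [this, Real.rpow_one]
  have e2 : ∀ x, (|ld (v :: L) f x| ^ p) ^ c = |ld (v :: L) f x| ^ r := by
    intro x
    rw [← Real.rpow_mul (abs_nonneg _), hpc]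
  have i1 : Integrable fun x => |ld (v :: v :: L) f x| ^ (2 * (J : ℝ) / (k + 2)) :=
    gn_int hf hc _ (by positivity)
  have i2 : Integrable fun x => |ld (v :: L) f x| ^ p := gn_int hf hc _ (by linarith)
  have hold : ∫ x, |ld L f x| * |ld (v :: v :: L) f x| * |ld (v :: L) f x| ^ r ≤
      gnN J B f L * I2 ^ (((k : ℝ) + 2) / (2 * J)) * I1 ^ c := by
    rcases Nat.eq_zero_or_pos k with hk1 | hk1
    · have hLnil : L = [] := List.length_eq_zero_iff.1 (by rw [← hk]; exact hk1)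
      have hN0 : gnN J B f L = B := by
        unfold gnN
        rw [if_pos (by rw [← hk]; exact hk1)]
      have hk1' : (k : ℝ) = 0 := by exact_mod_cast hk1
      have h3 := gn_holder3 (μ := (volume : Measure (EuclideanSpace ℝ (Fin n))))
        (fun x => Real.rpow_nonneg (abs_nonneg (ld (v :: v :: L) f x)) (2 * (J : ℝ) / (k + 2)))
        (fun x => Real.rpow_nonneg (abs_nonneg (ld (v :: v :: L) f x)) (2 * (J : ℝ) / (k + 2)))
        (fun x => Real.rpow_nonneg (abs_nonneg (ld (v :: L) f x)) p) i1 i1 i2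
        (le_refl (0 : ℝ)) hb0 hc0 (by rw [hcdef, hk1']; ring)
      simp only [Real.rpow_zero, one_mul] at h3
      simp_rw [e1, e2] at h3
      rw [← hI1, ← hI2] at h3
      rw [hN0, mul_assoc]
      refine le_trans ?_ (mul_le_mul_of_nonneg_left h3 hB)
      rw [← integral_const_mul]
      have su := gn_smooth hf L
      have sw := gn_smooth hf (v :: L)
      have sz := gn_smooth hf (v :: v :: L)
      have cont_r : Continuous fun x => |ld (v :: L) f x| ^ r :=
        sw.continuous.abs.rpow_const fun x => Or.inr hr0.le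
      have cz : HasCompactSupport fun x => |ld (v :: v :: L) f x| :=
        (gn_supp hc (v :: v :: L)).comp_left (g := fun s : ℝ => |s|) abs_zero
      refine integral_mono ?_ ?_ ?_
      · refine Continuous.integrable_of_hasCompactSupport
          ((su.continuous.abs.mul sz.continuous.abs).mul cont_r) ?_
        exact (cz.mul_left (f := fun x => |ld L f x|)).mul_right
      · refine Continuous.integrable_of_hasCompactSupport
          (continuous_const.mul (sz.continuous.abs.mul cont_r)) ?_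
        exact (cz.mul_right (f' := fun x => |ld (v :: L) f x| ^ r)).mul_left
      · intro x
        show |ld L f x| * |ld (v :: v :: L) f x| * |ld (v :: L) f x| ^ r ≤
          B * (|ld (v :: v :: L) f x| * |ld (v :: L) f x| ^ r)
        rw [mul_assoc]
        refine mul_le_mul_of_nonneg_right ?_
          (mul_nonneg (abs_nonneg _) (Real.rpow_nonneg (abs_nonneg _) _))
        rw [hLnil]
        exact hfB x
    · have hk1' : (0 : ℝ) < k := by exact_mod_cast hk1
      have hN0 : gnN J B f L = (∫ x, |ld L f x| ^ (2 * (J : ℝ) / k)) ^ ((k : ℝ) / (2 * J)) := by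
        unfold gnN
        rw [if_neg (by rw [← hk]; omega)]
      have e0 : ∀ x, (|ld L f x| ^ (2 * (J : ℝ) / k)) ^ ((k : ℝ) / (2 * J)) = |ld L f x| := by
        intro x
        rw [← Real.rpow_mul (abs_nonneg _)]
        have : 2 * (J : ℝ) / k * ((k : ℝ) / (2 * J)) = 1 := by
          field_simp
        rw [this, Real.rpow_one]
      have i0 : Integrable fun x => |ld L f x| ^ (2 * (J : ℝ) / k) :=
        gn_int hf hc _ (by positivity)
      have h3 := gn_holder3 (μ := (volume : Measure (EuclideanSpace ℝ (Fin n))))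
        (fun x => Real.rpow_nonneg (abs_nonneg (ld L f x)) (2 * (J : ℝ) / k))
        (fun x => Real.rpow_nonneg (abs_nonneg (ld (v :: v :: L) f x)) (2 * (J : ℝ) / (k + 2)))
        (fun x => Real.rpow_nonneg (abs_nonneg (ld (v :: L) f x)) p) i0 i1 i2
        (by positivity : 0 ≤ (k : ℝ) / (2 * J)) hb0 hc0 (by rw [hcdef]; ring)
      simp_rw [e0, e1, e2] at h3
      rw [hN0]
      exact h3
  rw [hN1, hN2]
  have hN0n : 0 ≤ gnN J B f L := gnN_nonneg hB L
  have hI2c : 0 ≤ I2 ^ (((k : ℝ) + 2) / (2 * J)) := Real.rpow_nonneg hI2n _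
  have hsq : (I1 ^ (((k : ℝ) + 1) / (2 * J))) ^ 2 = I1 ^ (1 - c) := by
    rw [← Real.rpow_natCast, ← Real.rpow_mul hI1n]
    congr 1
    rw [hcdef]
    push_cast
    ring
  rw [hsq]
  rcases hI1n.eq_or_lt with h0 | h0
  · rw [← h0, Real.zero_rpow]
    · exact mul_nonneg hJ2.le (mul_nonneg hN0n hI2c)
    · rw [hcdef, sub_sub_cancel]
      positivity
  · have h4 : I1 ≤ (r + 1) * (gnN J B f L * I2 ^ (((k : ℝ) + 2) / (2 * J)) * I1 ^ c) :=
      h1.trans (mul_le_mul_of_nonneg_left hold (by linarith))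
    have h5 : I1 ^ (1 - c) * I1 ^ c = I1 := by
      rw [← Real.rpow_add h0, sub_add_cancel, Real.rpow_one]
    have hIc : 0 < I1 ^ c := Real.rpow_pos_of_pos h0 _
    have h6 : I1 ^ (1 - c) * I1 ^ c ≤
        ((r + 1) * (gnN J B f L * I2 ^ (((k : ℝ) + 2) / (2 * J)))) * I1 ^ c := by
      rw [h5]
      calc I1 ≤ _ := h4
        _ = _ := by ring
    have h7 := le_of_mul_le_mul_right h6 hIc
    refine h7.trans (mul_le_mul_of_nonneg_right ?_ (mul_nonneg hN0n hI2c))
    linarith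

end

/-- Discrete logarithmic convexity, first part. -/
theorem gn_conv1 {a : ℕ → ℝ} {J : ℕ} {K : ℝ} (hK : 1 ≤ K) (ha : ∀ k, k ≤ J → 0 ≤ a k)
    (h : ∀ k, k + 1 < J → a (k + 1) ^ 2 ≤ K * (a k * a (k + 2))) :
    ∀ k, k < J → a k ^ (k + 1) ≤ K ^ (k * k) * (a 0 * a (k + 1) ^ k) := by
  intro k
  induction k with
  | zero => intro _; simp
  | succ k ih =>
    intro hk
    have h1 := ih (by omega)
    have h2 := h k hk
    have n0 := ha 0 (by omega)
    have nk := ha k (by omega)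
    have nk1 := ha (k + 1) (by omega)
    have nk2 := ha (k + 2) (by omega)
    rcases nk1.eq_or_lt with h0 | h0
    · rw [← h0, zero_pow (by omega)]
      positivity
    · have h3 : (a (k + 1) ^ 2) ^ (k + 1) ≤ (K * (a k * a (k + 2))) ^ (k + 1) :=
        pow_le_pow_left₀ (by positivity) h2 _
      have h4 : a (k + 1) ^ (k + 1 + 1) * a (k + 1) ^ k ≤
          (K ^ ((k + 1) * (k + 1)) * (a 0 * a (k + 1 + 1) ^ (k + 1))) * a (k + 1) ^ k := by
        calc a (k + 1) ^ (k + 1 + 1) * a (k + 1) ^ k = (a (k + 1) ^ 2) ^ (k + 1) := by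
              rw [← pow_mul, ← pow_add]; congr 1; ring
          _ ≤ (K * (a k * a (k + 2))) ^ (k + 1) := h3
          _ = K ^ (k + 1) * a (k + 2) ^ (k + 1) * a k ^ (k + 1) := by ring
          _ ≤ K ^ (k + 1) * a (k + 2) ^ (k + 1) * (K ^ (k * k) * (a 0 * a (k + 1) ^ k)) :=
              mul_le_mul_of_nonneg_left h1 (by positivity)
          _ = K ^ (k + 1 + k * k) * (a 0 * a (k + 1 + 1) ^ (k + 1)) * a (k + 1) ^ k := by
              rw [pow_add K]; ring
          _ ≤ (K ^ ((k + 1) * (k + 1)) * (a 0 * a (k + 1 + 1) ^ (k + 1))) * a (k + 1) ^ k := by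
              gcongr
              nlinarith
      exact le_of_mul_le_mul_right h4 (by positivity)

/-- Discrete logarithmic convexity, second part. -/
theorem gn_conv2 (k : ℕ) (hk1 : 1 ≤ k) (m : ℕ) (hkm : k ≤ m) :
    ∃ N : ℕ, ∀ (a : ℕ → ℝ) (J : ℕ) (K : ℝ), 1 ≤ K → (∀ j, j ≤ J → 0 ≤ a j) →
      (∀ j, j + 1 < J → a (j + 1) ^ 2 ≤ K * (a j * a (j + 2))) → m ≤ J →
      a k ^ m ≤ K ^ N * (a 0 ^ (m - k) * a m ^ k) := by
  induction m, hkm using Nat.le_induction with
  | base =>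
    refine ⟨0, fun a J K hK ha h hm => ?_⟩
    simp
  | succ m hkm ih =>
    obtain ⟨N, hN⟩ := ih
    refine ⟨N * (m + 1) + m * m * k, fun a J K hK ha h hm => ?_⟩
    have h1 := hN a J K hK ha h (by omega)
    have h2 := gn_conv1 hK ha h m (by omega)
    have n0 := ha 0 (by omega)
    have nk := ha k (by omega)
    have nm := ha m (by omega)
    have nm1 := ha (m + 1) hm
    have hK0 : 0 ≤ K := by linarith
    have hm0 : m ≠ 0 := by omega
    rw [← pow_le_pow_iff_left₀ (by positivity) (by positivity) hm0]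
    obtain ⟨d, rfl⟩ : ∃ d, m = k + d := ⟨m - k, by omega⟩
    have e1 : k + d - k = d := by omega
    have e2 : k + d + 1 - k = d + 1 := by omega
    rw [e1] at h1
    rw [e2]
    calc (a k ^ (k + d + 1)) ^ (k + d) = (a k ^ (k + d)) ^ (k + d + 1) := by ring
      _ ≤ (K ^ N * (a 0 ^ d * a (k + d) ^ k)) ^ (k + d + 1) :=
          pow_le_pow_left₀ (by positivity) h1 _
      _ = K ^ (N * (k + d + 1)) * a 0 ^ (d * (k + d + 1)) * (a (k + d) ^ (k + d + 1)) ^ k := by
          rw [mul_pow, mul_pow, ← pow_mul, ← pow_mul, ← pow_mul, ← pow_mul]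
          ring
      _ ≤ K ^ (N * (k + d + 1)) * a 0 ^ (d * (k + d + 1)) *
            (K ^ ((k + d) * (k + d)) * (a 0 * a (k + d + 1) ^ (k + d))) ^ k := by
          gcongr
      _ = K ^ (N * (k + d + 1) + (k + d) * (k + d) * k) *
            (a 0 ^ (d + 1) * a (k + d + 1) ^ k) ^ (k + d) := by
          rw [mul_pow, mul_pow, mul_pow, ← pow_mul, ← pow_mul, ← pow_mul, ← pow_mul,
            pow_add K]
          have : a 0 ^ ((d + 1) * (k + d)) = a 0 ^ (d * (k + d + 1)) * a 0 ^ k := by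
            rw [← pow_add]
            congr 1
            ring
          rw [this]
          ring
      _ ≤ (K ^ (N * (k + d + 1) + (k + d) * (k + d) * k)) ^ (k + d) *
            (a 0 ^ (d + 1) * a (k + d + 1) ^ k) ^ (k + d) := by
          gcongr
          exact le_self_pow₀ (one_le_pow₀ hK) hm0
      _ = (K ^ (N * (k + d + 1) + (k + d) * (k + d) * k) *
            (a 0 ^ (d + 1) * a (k + d + 1) ^ k)) ^ (k + d) := (mul_pow _ _ _).symm

theorem gagNir : GagNir := by
  intro n J hJ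
  have hex : ∀ k : ℕ, ∃ N : ℕ, 1 ≤ k → k ≤ J → ∀ (a : ℕ → ℝ) (K : ℝ), 1 ≤ K →
      (∀ j, j ≤ J → 0 ≤ a j) →
      (∀ j, j + 1 < J → a (j + 1) ^ 2 ≤ K * (a j * a (j + 2))) →
      a k ^ J ≤ K ^ N * (a 0 ^ (J - k) * a J ^ k) := by
    intro k
    by_cases hk : 1 ≤ k ∧ k ≤ J
    · obtain ⟨N, hN⟩ := gn_conv2 k hk.1 J hk.2
      exact ⟨N, fun _ _ a K hK ha h => hN a J K hK ha h le_rfl⟩
    · exact ⟨0, fun h1 h2 => absurd ⟨h1, h2⟩ hk⟩
  choose N hN using hex
  have hJ1 : (1 : ℝ) ≤ J := by exact_mod_cast hJ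
  have hK : (1 : ℝ) ≤ 2 * J := by linarith
  refine ⟨∑ k ∈ Finset.range (J + 1), ((2 * (J : ℝ)) ^ N k) ^ 2, by positivity, ?_⟩
  intro f hf hc B S ρ hfB hS L hL1 hLJ hLρ
  have hB : 0 ≤ B := (abs_nonneg _).trans (hfB 0)
  set k := L.length with hk
  -- the finite suprema
  set g : (j : ℕ) → (Fin j → Fin L.length) → ℝ :=
    fun j w => gnN J B f (List.ofFn fun i => L.get (w i)) with hg
  set a : ℕ → ℝ := fun j => ⨆ w : Fin j → Fin L.length, g j w with ha
  have hle : ∀ j w, g j w ≤ a j := fun j w => le_ciSup (Set.finite_range (g j)).bddAbove w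
  have hne : Nonempty (Fin L.length) := ⟨⟨0, by omega⟩⟩
  have hmax : ∀ j, ∃ w, g j w = a j := fun j => exists_eq_ciSup_of_finite
  have hgn : ∀ j w, 0 ≤ g j w := fun j w => gnN_nonneg hB _
  have han : ∀ j, 0 ≤ a j := by
    intro j
    obtain ⟨w, hw⟩ := hmax j
    rw [← hw]
    exact hgn j w
  have ha0 : a 0 = B := by
    obtain ⟨w, hw⟩ := hmax 0
    rw [← hw, hg]
    simp [gnN]
  have hstep : ∀ j, j + 1 < J → a (j + 1) ^ 2 ≤ (2 * J) * (a j * a (j + 2)) := by
    intro j hj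
    obtain ⟨w, hw⟩ := hmax (j + 1)
    have h1 : g (j + 1) w =
        gnN J B f (L.get (w 0) :: List.ofFn fun i : Fin j => L.get (w i.succ)) := by
      rw [hg]
      simp only [List.ofFn_succ]
    have h2 := gn_step hf hc hB hfB (List.ofFn fun i : Fin j => L.get (w i.succ)) (L.get (w 0))
      (by simpa using hj)
    rw [← h1, hw] at h2
    refine h2.trans ?_
    have h3 : gnN J B f (List.ofFn fun i : Fin j => L.get (w i.succ)) ≤ a j :=
      hle j fun i => w i.succ
    have h4 : gnN J B f (L.get (w 0) :: L.get (w 0) ::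
        List.ofFn fun i : Fin j => L.get (w i.succ)) ≤ a (j + 2) := by
      have h5 := hle (j + 2) (Fin.cons (w 0) w)
      have h6 : g (j + 2) (Fin.cons (w 0) w) = gnN J B f (L.get (w 0) :: L.get (w 0) ::
          List.ofFn fun i : Fin j => L.get (w i.succ)) := by
        rw [hg]
        simp only [List.ofFn_succ, Fin.cons_zero, Fin.cons_succ]
      rw [← h6]
      exact h5
    have h7 := gnN_nonneg (J := J) (f := f) hB (List.ofFn fun i : Fin j => L.get (w i.succ))
    have h8 := gnN_nonneg (J := J) (f := f) hB (L.get (w 0) :: L.get (w 0) ::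
        List.ofFn fun i : Fin j => L.get (w i.succ))
    have := han j
    gcongr
  have haJ : a J ^ 2 ≤ S := by
    obtain ⟨w, hw⟩ := hmax J
    rw [← hw, hg]
    simp only [gnN, List.length_ofFn]
    rw [if_neg (by omega)]
    have h1 : 2 * (J : ℝ) / J = 2 := by field_simp
    have h2 : (J : ℝ) / (2 * J) = 1 / 2 := by field_simp
    rw [h1, h2, ← Real.sqrt_eq_rpow, Real.sq_sqrt]
    · have h3 := hS (List.ofFn fun i => L.get (w i)) (by simp) (by
        intro v hv
        rw [List.mem_ofFn] at hv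
        obtain ⟨i, rfl⟩ := hv
        exact hLρ _ (List.get_mem L (w i)))
      refine le_trans (le_of_eq ?_) h3
      refine integral_congr_ae (Eventually.of_forall fun x => ?_)
      simp only [Real.rpow_two, sq_abs]
    · exact integral_nonneg fun x => Real.rpow_nonneg (abs_nonneg _) _
  have hmain := hN k hL1 hLJ a (2 * J) hK (fun j _ => han j) hstep
  have hkpos : (0 : ℝ) < k := by exact_mod_cast hL1
  have hkJ : (k : ℝ) ≤ J := by exact_mod_cast hLJ
  have hgk : gnN J B f L ≤ a k := by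
    have h1 := hle k id
    have h2 : (List.ofFn fun i : Fin L.length => L.get (id i)) = L := List.ofFn_get L
    rw [hg] at h1
    simp only at h1
    rw [h2] at h1
    exact h1
  have hgk0 := gnN_nonneg (J := J) (f := f) hB L
  have hI : ∫ x, |ld L f x| ^ (2 * (J : ℝ) / k) = (gnN J B f L ^ J) ^ (2 / (k : ℝ)) := by
    unfold gnN
    rw [if_neg (by omega), ← hk, ← Real.rpow_natCast, ← Real.rpow_mul, ← Real.rpow_mul]
    · have : (k : ℝ) / (2 * J) * (J * (2 / k)) = 1 := by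
        field_simp
      rw [this, Real.rpow_one]
    · exact integral_nonneg fun x => Real.rpow_nonneg (abs_nonneg _) _
    · exact Real.rpow_nonneg (integral_nonneg fun x => Real.rpow_nonneg (abs_nonneg _) _) _
  rw [ha0] at hmain
  rw [hI]
  have hS0 : 0 ≤ S := (sq_nonneg _).trans haJ
  have hKN : (1 : ℝ) ≤ (2 * (J : ℝ)) ^ N k := one_le_pow₀ hK
  have hB2 : (B ^ (J - k)) ^ (2 / (k : ℝ)) = B ^ (2 * (J : ℝ) / k - 2) := by
    rw [← Real.rpow_natCast, ← Real.rpow_mul hB, Nat.cast_sub hLJ]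
    congr 1
    field_simp
  have hA2 : (a J ^ k) ^ (2 / (k : ℝ)) = a J ^ 2 := by
    rw [← Real.rpow_natCast, ← Real.rpow_mul (han J), ← Real.rpow_natCast]
    congr 1
    push_cast
    field_simp
  calc (gnN J B f L ^ J) ^ (2 / (k : ℝ)) ≤ (a k ^ J) ^ (2 / (k : ℝ)) := by
        refine Real.rpow_le_rpow (by positivity) (pow_le_pow_left₀ hgk0 hgk J) (by positivity)
    _ ≤ ((2 * (J : ℝ)) ^ N k * (B ^ (J - k) * a J ^ k)) ^ (2 / (k : ℝ)) :=
        Real.rpow_le_rpow (pow_nonneg (han k) _) hmain (by positivity)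
    _ = ((2 * (J : ℝ)) ^ N k) ^ (2 / (k : ℝ)) * (B ^ (2 * (J : ℝ) / k - 2) * a J ^ 2) := by
        rw [Real.mul_rpow (by positivity) (mul_nonneg (by positivity) (pow_nonneg (han J) _)),
          Real.mul_rpow (by positivity) (pow_nonneg (han J) _), hB2, hA2]
    _ ≤ ((2 * (J : ℝ)) ^ N k) ^ 2 * (B ^ (2 * (J : ℝ) / k - 2) * S) := by
        refine mul_le_mul ?_ ?_ ?_ (by positivity)
        · rw [← Real.rpow_two]
          refine Real.rpow_le_rpow_of_exponent_le hKN ?_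
          rw [div_le_iff₀ hkpos]
          have : (1 : ℝ) ≤ k := by exact_mod_cast hL1
          linarith
        · exact mul_le_mul_of_nonneg_left haJ (Real.rpow_nonneg hB _)
        · exact mul_nonneg (Real.rpow_nonneg hB _) (sq_nonneg _)
    _ = ((2 * (J : ℝ)) ^ N k) ^ 2 * B ^ (2 * (J : ℝ) / k - 2) * S := by ring
    _ ≤ (∑ k ∈ Finset.range (J + 1), ((2 * (J : ℝ)) ^ N k) ^ 2) *
          B ^ (2 * (J : ℝ) / k - 2) * S := by
        gcongr
        exact Finset.single_le_sum (f := fun k => ((2 * (J : ℝ)) ^ N k) ^ 2)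
          (fun _ _ => by positivity) (Finset.mem_range.2 (by omega))

end Pool.Agent.Work.MP_f2af60_mp

end

section

/-!
# MP_f2af60_mp, item Q4: kernels of the powers of the resolvent
-/

namespace Pool.Agent.Work.MP_f2af60_mp

open MeasureTheory Filter Topology Set

/-- The integrand of `HH`. -/
noncomputable def hhF (q j : ℕ) (E : ℝ) (t : ℝ) (x : En q) : ℝ :=
  t ^ j / (j.factorial : ℝ) * Real.exp (-(E * t)) * pt q t x

lemma hh_eq (q j : ℕ) (E : ℝ) (x : En q) : HH q j E x = ∫ t in Ioi (0:ℝ), hhF q j E t x := rfl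

lemma hhF_nonneg (h : PtFacts) {q j : ℕ} {E t : ℝ} {x : En q} (ht : 0 < t) :
    0 ≤ hhF q j E t x := by
  have := ((h q).1 t ht x).le
  unfold hhF
  positivity

lemma hhF_pos (h : PtFacts) {q j : ℕ} {E t : ℝ} {x : En q} (ht : 0 < t) :
    0 < hhF q j E t x := by
  have := (h q).1 t ht x
  unfold hhF
  positivity

lemma hhF_meas (h : PtFacts) (q j : ℕ) (E : ℝ) : Measurable (Function.uncurry (hhF q j E)) := by
  have h1 := (h q).2.2.1
  have h2 : Function.uncurry (hhF q j E) = fun p : ℝ × En q =>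
      p.1 ^ j / (j.factorial : ℝ) * Real.exp (-(E * p.1)) * Function.uncurry (pt q) p := rfl
  rw [h2]
  exact Measurable.mul (by fun_prop) h1

lemma hh_gam_int (a E : ℝ) (ha : -1 < a) (hE : 0 < E) :
    IntegrableOn (fun t : ℝ => t ^ a * Real.exp (-(E * t))) (Ioi 0) := by
  have := integrableOn_rpow_mul_exp_neg_mul_rpow (p := 1) (s := a) (b := E) ha one_pos hE
  refine this.congr_fun (fun t _ => ?_) measurableSet_Ioi
  simp

lemma hh_tint (j : ℕ) (E : ℝ) (hE : 0 < E) :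
    IntegrableOn (fun t : ℝ => t ^ j / (j.factorial : ℝ) * Real.exp (-(E * t))) (Ioi 0) ∧
      ∫ t in Ioi (0:ℝ), t ^ j / (j.factorial : ℝ) * Real.exp (-(E * t)) = (E ^ (j + 1))⁻¹ := by
  constructor
  · have h1 := hh_gam_int j E (by have : (0:ℝ) ≤ j := Nat.cast_nonneg j; linarith) hE
    have h2 : IntegrableOn (fun t : ℝ => ((j.factorial : ℝ))⁻¹ *
        (t ^ (j:ℝ) * Real.exp (-(E * t)))) (Ioi 0) := h1.const_mul ((j.factorial : ℝ))⁻¹
    refine h2.congr_fun (fun t _ => ?_) measurableSet_Ioi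
    simp only [Real.rpow_natCast]
    ring
  · have h1 := Real.integral_rpow_mul_exp_neg_mul_Ioi (a := (j : ℝ) + 1) (r := E) (by positivity) hE
    have h2 : ∀ t : ℝ, t ^ j / (j.factorial : ℝ) * Real.exp (-(E * t)) =
        ((j.factorial : ℝ))⁻¹ * (t ^ ((j : ℝ) + 1 - 1) * Real.exp (-(E * t))) := by
      intro t
      have : ((j : ℝ) + 1 - 1) = (j : ℝ) := by ring
      rw [this, Real.rpow_natCast]
      ring
    simp_rw [h2]
    rw [integral_const_mul, h1, Real.Gamma_nat_eq_factorial, one_div]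
    have h3 : (j.factorial : ℝ) ≠ 0 := by positivity
    have h4 : (E⁻¹) ^ ((j : ℝ) + 1) = (E ^ (j + 1))⁻¹ := by
      have : ((j : ℝ) + 1) = ((j + 1 : ℕ) : ℝ) := by push_cast; ring
      rw [this, Real.rpow_natCast, inv_pow]
    rw [h4]
    field_simp

lemma hhF_xint (h : PtFacts) (q j : ℕ) (E t : ℝ) (ht : 0 < t) :
    Integrable (fun x => hhF q j E t x) ∧
      ∫ x, hhF q j E t x = t ^ j / (j.factorial : ℝ) * Real.exp (-(E * t)) := by
  obtain ⟨h1, h2⟩ := (h q).2.2.2.1 t ht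
  constructor
  · exact h1.const_mul _
  · unfold hhF
    rw [integral_const_mul, h2, mul_one]

lemma hhF_prod (h : PtFacts) (q j : ℕ) (E : ℝ) (hE : 0 < E) :
    Integrable (Function.uncurry (hhF q j E))
      ((volume.restrict (Ioi (0:ℝ))).prod (volume : Measure (En q))) := by
  rw [integrable_prod_iff (hhF_meas h q j E).aestronglyMeasurable]
  constructor
  · filter_upwards [ae_restrict_mem measurableSet_Ioi] with t ht
    exact (hhF_xint h q j E t ht).1
  · refine ((hh_tint j E hE).1).congr ?_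
    filter_upwards [ae_restrict_mem measurableSet_Ioi] with t ht
    have h1 : ∀ x, ‖Function.uncurry (hhF q j E) (t, x)‖ = hhF q j E t x := by
      intro x
      exact Real.norm_of_nonneg (hhF_nonneg h ht)
    simp_rw [h1]
    exact (hhF_xint h q j E t ht).2.symm

lemma hh_nonneg (h : PtFacts) (q j : ℕ) (E : ℝ) (x : En q) : 0 ≤ HH q j E x := by
  rw [hh_eq]
  exact setIntegral_nonneg measurableSet_Ioi fun t ht => hhF_nonneg h ht

lemma hh_meas (h : PtFacts) (q j : ℕ) (E : ℝ) : Measurable (HH q j E) := by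
  have h1 : StronglyMeasurable (Function.uncurry (hhF q j E)) :=
    (hhF_meas h q j E).stronglyMeasurable
  have h2 := h1.integral_prod_left' (μ := volume.restrict (Ioi (0:ℝ)))
  exact h2.measurable

lemma hh_int (h : PtFacts) (q j : ℕ) (E : ℝ) (hE : 0 < E) : Integrable (HH q j E) :=
  (hhF_prod h q j E hE).integral_prod_right

lemma hh_integral (h : PtFacts) (q j : ℕ) (E : ℝ) (hE : 0 < E) :
    ∫ x, HH q j E x = (E ^ (j + 1))⁻¹ := by
  have h1 := integral_integral_swap (hhF_prod h q j E hE)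
  have h2 : ∫ x, HH q j E x = ∫ x, ∫ t in Ioi (0:ℝ), hhF q j E t x := rfl
  rw [h2, ← h1, ← (hh_tint j E hE).2]
  refine setIntegral_congr_fun measurableSet_Ioi fun t ht => ?_
  exact (hhF_xint h q j E t ht).2

/-- Bound of the heat kernel away from the diagonal. -/
lemma hh_ptbd (q : ℕ) (x : En q) (hx : x ≠ 0) :
    ∃ C : ℝ, ∀ t > 0, pt q t x ≤ C * t ^ (1 / 2 : ℝ) := by
  have hr : 0 < ‖x‖ := norm_pos_iff.2 hx
  refine ⟨(4 * Real.pi) ^ (-((q:ℝ) + 3 / 2)) * (((q + 2).factorial : ℝ) * 4 ^ (q + 2) /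
    (‖x‖ ^ 2) ^ (q + 2)), fun t ht => ?_⟩
  unfold pt
  have hy : 0 < ‖x‖ ^ 2 / (4 * t) := by positivity
  have h1 : (‖x‖ ^ 2 / (4 * t)) ^ (q + 2) / ((q + 2).factorial : ℝ) ≤
      Real.exp (‖x‖ ^ 2 / (4 * t)) := Real.pow_div_factorial_le_exp _ hy.le _
  have h2 : Real.exp (-(‖x‖ ^ 2 / (4 * t))) ≤
      (((q + 2).factorial : ℝ) * 4 ^ (q + 2) / (‖x‖ ^ 2) ^ (q + 2)) * t ^ (q + 2) := by
    rw [Real.exp_neg]
    have h3 : (0:ℝ) < (‖x‖ ^ 2 / (4 * t)) ^ (q + 2) / ((q + 2).factorial : ℝ) := by positivity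
    refine (inv_anti₀ h3 h1).trans (le_of_eq ?_)
    rw [div_pow, mul_pow]
    field_simp
  have h4 : (4 * Real.pi * t) ^ (-((q:ℝ) + 3 / 2)) =
      (4 * Real.pi) ^ (-((q:ℝ) + 3 / 2)) * t ^ (-((q:ℝ) + 3 / 2)) := by
    rw [Real.mul_rpow (by positivity) ht.le]
  rw [h4]
  have h5 : t ^ (-((q:ℝ) + 3 / 2)) * t ^ (q + 2) = t ^ (1 / 2 : ℝ) := by
    rw [← Real.rpow_natCast, ← Real.rpow_add ht]
    congr 1
    push_cast
    ring
  calc (4 * Real.pi) ^ (-((q:ℝ) + 3 / 2)) * t ^ (-((q:ℝ) + 3 / 2)) *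
        Real.exp (-(‖x‖ ^ 2 / (4 * t)))
      ≤ (4 * Real.pi) ^ (-((q:ℝ) + 3 / 2)) * t ^ (-((q:ℝ) + 3 / 2)) *
        ((((q + 2).factorial : ℝ) * 4 ^ (q + 2) / (‖x‖ ^ 2) ^ (q + 2)) * t ^ (q + 2)) := by
        refine mul_le_mul_of_nonneg_left h2 (by positivity)
    _ = (4 * Real.pi) ^ (-((q:ℝ) + 3 / 2)) * (((q + 2).factorial : ℝ) * 4 ^ (q + 2) /
        (‖x‖ ^ 2) ^ (q + 2)) * (t ^ (-((q:ℝ) + 3 / 2)) * t ^ (q + 2)) := by ring
    _ = _ := by rw [h5]

lemma hh_ptbd0 (q : ℕ) (x : En q) (t : ℝ) (ht : 0 < t) :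
    pt q t x ≤ (4 * Real.pi) ^ (-((q:ℝ) + 3 / 2)) * t ^ (-((q:ℝ) + 3 / 2)) := by
  unfold pt
  rw [Real.mul_rpow (by positivity) ht.le]
  have : Real.exp (-(‖x‖ ^ 2 / (4 * t))) ≤ 1 := by
    rw [Real.exp_le_one_iff]
    have : 0 ≤ ‖x‖ ^ 2 / (4 * t) := by positivity
    linarith
  exact mul_le_of_le_one_right (by positivity) this

lemma hhF_measT (h : PtFacts) (q j : ℕ) (E : ℝ) (x : En q) :
    Measurable (fun t => hhF q j E t x) :=
  (hhF_meas h q j E).comp (measurable_id.prodMk measurable_const)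

lemma hhF_tint (h : PtFacts) (q j : ℕ) (E : ℝ) (hE : 0 < E) (x : En q) (hx : x ≠ 0 ∨ q < j) :
    IntegrableOn (fun t => hhF q j E t x) (Ioi 0) := by
  rcases hx with hx | hj
  · obtain ⟨C, hC⟩ := hh_ptbd q x hx
    have h1 := hh_gam_int ((j:ℝ) + 1 / 2) E
      (by have : (0:ℝ) ≤ j := Nat.cast_nonneg j; linarith) hE
    refine Integrable.mono' (h1.const_mul (C / (j.factorial : ℝ)))
      (hhF_measT h q j E x).aestronglyMeasurable ?_
    filter_upwards [ae_restrict_mem measurableSet_Ioi] with t ht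
    have ht' : (0:ℝ) < t := ht
    rw [Real.norm_of_nonneg (hhF_nonneg h ht')]
    unfold hhF
    have h2 := mul_le_mul_of_nonneg_left (hC t ht')
      (show 0 ≤ t ^ j / (j.factorial : ℝ) * Real.exp (-(E * t)) by positivity)
    refine h2.trans (le_of_eq ?_)
    rw [Real.rpow_add ht', Real.rpow_natCast]
    ring
  · have h1 := hh_gam_int ((j:ℝ) - q - 3 / 2) E
      (by have : (q:ℝ) + 1 ≤ j := by exact_mod_cast hj
          linarith) hE
    refine Integrable.mono' (h1.const_mul ((4 * Real.pi) ^ (-((q:ℝ) + 3 / 2)) /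
      (j.factorial : ℝ))) (hhF_measT h q j E x).aestronglyMeasurable ?_
    filter_upwards [ae_restrict_mem measurableSet_Ioi] with t ht
    have ht' : (0:ℝ) < t := ht
    rw [Real.norm_of_nonneg (hhF_nonneg h ht')]
    unfold hhF
    have h2 := mul_le_mul_of_nonneg_left (hh_ptbd0 q x t ht')
      (show 0 ≤ t ^ j / (j.factorial : ℝ) * Real.exp (-(E * t)) by positivity)
    refine h2.trans (le_of_eq ?_)
    have h3 : t ^ ((j:ℝ) - q - 3 / 2) = t ^ j * t ^ (-((q:ℝ) + 3 / 2)) := by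
      rw [← Real.rpow_natCast t j, ← Real.rpow_add ht']
      congr 1
      ring
    rw [h3]
    ring

lemma hh_pos (h : PtFacts) (q j : ℕ) (E : ℝ) (hE : 0 < E) (x : En q) (hx : x ≠ 0) :
    0 < HH q j E x := by
  rw [hh_eq]
  rw [setIntegral_pos_iff_support_of_nonneg_ae]
  · have : (Function.support fun t => hhF q j E t x) ∩ Ioi (0:ℝ) = Ioi 0 := by
      apply inter_eq_right.2
      intro t ht
      exact (hhF_pos h ht).ne'
    rw [this]
    simp
  · filter_upwards [ae_restrict_mem measurableSet_Ioi] with t ht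
    exact hhF_nonneg h ht
  · exact hhF_tint h q j E hE x (Or.inl hx)

lemma hh_scale (q j : ℕ) (s : ℝ) (hs : 0 < s) (E : ℝ) (x : En q) :
    HH q j (s * E) x = s ^ ((q : ℝ) + 1 / 2 - j) * HH q j E (Real.sqrt s • x) := by
  have h1 := integral_comp_mul_left_Ioi (fun t => hhF q j E t (Real.sqrt s • x)) 0 hs
  rw [mul_zero] at h1
  have h2 : ∀ t ∈ Ioi (0:ℝ), hhF q j E (s * t) (Real.sqrt s • x) =
      s ^ ((j : ℝ) - q - 3 / 2) * hhF q j (s * E) t x := by
    intro t ht
    have ht' : (0:ℝ) < t := ht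
    unfold hhF pt
    rw [norm_smul, Real.norm_of_nonneg (Real.sqrt_nonneg s), mul_pow (Real.sqrt s) ‖x‖ 2,
      Real.sq_sqrt hs.le]
    have e1 : s * ‖x‖ ^ 2 / (4 * (s * t)) = ‖x‖ ^ 2 / (4 * t) := by
      field_simp
    have e2 : (4 * Real.pi * (s * t)) ^ (-((q:ℝ) + 3 / 2)) =
        s ^ (-((q:ℝ) + 3 / 2)) * (4 * Real.pi * t) ^ (-((q:ℝ) + 3 / 2)) := by
      rw [← Real.mul_rpow hs.le (by positivity)]
      congr 1
      ring
    have e3 : s ^ ((j : ℝ) - q - 3 / 2) = s ^ j * s ^ (-((q:ℝ) + 3 / 2)) := by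
      rw [← Real.rpow_natCast s j, ← Real.rpow_add hs]
      congr 1
      ring
    have e4 : E * (s * t) = s * E * t := by ring
    rw [e1, e2, e3, e4, mul_pow]
    ring
  rw [setIntegral_congr_fun measurableSet_Ioi h2, integral_const_mul] at h1
  rw [← hh_eq, ← hh_eq, smul_eq_mul] at h1
  have h3 : HH q j E (Real.sqrt s • x) = s * (s ^ ((j : ℝ) - q - 3 / 2) * HH q j (s * E) x) := by
    rw [h1]
    field_simp
  rw [h3]
  have h4 : s ^ ((q : ℝ) + 1 / 2 - j) * (s * s ^ ((j : ℝ) - q - 3 / 2)) = 1 := by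
    nth_rewrite 2 [← Real.rpow_one s]
    rw [← Real.rpow_add hs, ← Real.rpow_add hs]
    have : (q : ℝ) + 1 / 2 - j + (1 + ((j : ℝ) - q - 3 / 2)) = 0 := by ring
    rw [this, Real.rpow_zero]
  calc HH q j (s * E) x = 1 * HH q j (s * E) x := by ring
    _ = (s ^ ((q : ℝ) + 1 / 2 - j) * (s * s ^ ((j : ℝ) - q - 3 / 2))) * HH q j (s * E) x := by
        rw [h4]
    _ = _ := by ring

lemma hh_bd (h : PtFacts) (q : ℕ) : ∃ C : ℝ, ∀ E > 0, ∀ x,
    HH q (q + 1) E x ≤ C * E ^ (-(1 / 2) : ℝ) := by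
  refine ⟨(4 * Real.pi) ^ (-((q:ℝ) + 3 / 2)) / ((q + 1).factorial : ℝ) * Real.Gamma (1 / 2),
    fun E hE x => ?_⟩
  rw [hh_eq]
  have h1 := hh_gam_int (-(1 / 2)) E (by norm_num) hE
  have h2 : ∫ t in Ioi (0:ℝ), hhF q (q + 1) E t x ≤ ∫ t in Ioi (0:ℝ),
      (4 * Real.pi) ^ (-((q:ℝ) + 3 / 2)) / ((q + 1).factorial : ℝ) *
        (t ^ (-(1 / 2) : ℝ) * Real.exp (-(E * t))) := by
    refine setIntegral_mono_on (hhF_tint h q (q + 1) E hE x (Or.inr (Nat.lt_succ_self q)))
      (h1.const_mul _) measurableSet_Ioi fun t ht => ?_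
    have ht' : (0:ℝ) < t := ht
    unfold hhF
    have h2 := mul_le_mul_of_nonneg_left (hh_ptbd0 q x t ht')
      (show 0 ≤ t ^ (q + 1) / ((q + 1).factorial : ℝ) * Real.exp (-(E * t)) by positivity)
    refine h2.trans (le_of_eq ?_)
    have h3 : t ^ (-(1 / 2) : ℝ) = t ^ (q + 1) * t ^ (-((q:ℝ) + 3 / 2)) := by
      rw [← Real.rpow_natCast t (q + 1), ← Real.rpow_add ht']
      congr 1
      push_cast
      ring
    rw [h3]
    ring
  refine h2.trans (le_of_eq ?_)
  have h3 := Real.integral_rpow_mul_exp_neg_mul_Ioi (a := 1 / 2) (r := E) (by norm_num) hE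
  have h4 : ((1:ℝ) / 2 - 1) = -(1 / 2) := by norm_num
  rw [h4] at h3
  rw [integral_const_mul, h3, one_div, Real.inv_rpow hE.le, ← Real.rpow_neg hE.le, one_div]
  ring

/-- The convolution integrand in the two time variables. -/
lemma hh_two (h : PtFacts) (q j : ℕ) (E : ℝ) (hE : 0 < E) (w : En q) (hw : w ≠ 0 ∨ q ≤ j) :
    Integrable (fun p : ℝ × ℝ => (Ioi (0:ℝ) ×ˢ Ioi (0:ℝ)).indicator
      (fun p : ℝ × ℝ => p.1 ^ j / (j.factorial : ℝ) * Real.exp (-(E * (p.1 + p.2))) *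
        pt q (p.1 + p.2) w) p) (volume.prod volume) ∧
    ∫ p : ℝ × ℝ, (Ioi (0:ℝ) ×ˢ Ioi (0:ℝ)).indicator
      (fun p : ℝ × ℝ => p.1 ^ j / (j.factorial : ℝ) * Real.exp (-(E * (p.1 + p.2))) *
        pt q (p.1 + p.2) w) p ∂(volume.prod volume) = HH q (j + 1) E w := by
  have hmp := measurePreserving_prod_add (volume : Measure ℝ) (volume : Measure ℝ)
  have hme : MeasurableEmbedding (fun z : ℝ × ℝ => (z.1, z.1 + z.2)) :=
    (MeasurableEquiv.shearAddRight ℝ).measurableEmbedding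
  set Ψ : ℝ × ℝ → ℝ := fun p => {p : ℝ × ℝ | 0 < p.1 ∧ p.1 < p.2}.indicator
    (fun p : ℝ × ℝ => p.1 ^ j / (j.factorial : ℝ) * Real.exp (-(E * p.2)) * pt q p.2 w) p with hΨ
  have hcomp : (fun p : ℝ × ℝ => (Ioi (0:ℝ) ×ˢ Ioi (0:ℝ)).indicator
      (fun p : ℝ × ℝ => p.1 ^ j / (j.factorial : ℝ) * Real.exp (-(E * (p.1 + p.2))) *
        pt q (p.1 + p.2) w) p) = Ψ ∘ (fun z : ℝ × ℝ => (z.1, z.1 + z.2)) := by
    funext p
    simp only [hΨ, Function.comp_apply]
    by_cases hp : p ∈ (Ioi (0:ℝ) ×ˢ Ioi (0:ℝ))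
    · rw [indicator_of_mem hp, indicator_of_mem]
      obtain ⟨hp1, hp2⟩ := hp
      simp only [mem_Ioi] at hp1 hp2
      exact ⟨hp1, by simpa using hp2⟩
    · rw [indicator_of_notMem hp, indicator_of_notMem]
      intro hp'
      obtain ⟨hp1, hp2⟩ := hp'
      exact hp ⟨hp1, by simpa using hp2⟩
  have hmeasS : MeasurableSet {p : ℝ × ℝ | 0 < p.1 ∧ p.1 < p.2} :=
    (measurableSet_lt measurable_const measurable_fst).inter
      (measurableSet_lt measurable_fst measurable_snd)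
  have hptm : Measurable fun p : ℝ × ℝ => pt q p.2 w := by
    have := (h q).2.2.1
    exact this.comp (measurable_snd.prodMk measurable_const)
  have hΨm : Measurable Ψ := by
    refine Measurable.indicator ?_ hmeasS
    exact Measurable.mul (by fun_prop) hptm
  -- slices
  have hslice : ∀ T t : ℝ, Ψ (t, T) = (Ioo 0 T).indicator
      (fun t => t ^ j / (j.factorial : ℝ) * Real.exp (-(E * T)) * pt q T w) t := by
    intro T t
    simp only [hΨ]
    by_cases hp : t ∈ Ioo 0 T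
    · rw [indicator_of_mem hp, indicator_of_mem]
      exact hp
    · rw [indicator_of_notMem hp, indicator_of_notMem]
      exact hp
  have hsl_int : ∀ T : ℝ, Integrable (fun t => Ψ (t, T)) := by
    intro T
    simp_rw [hslice]
    rw [integrable_indicator_iff measurableSet_Ioo]
    have : ContinuousOn (fun t : ℝ => t ^ j / (j.factorial : ℝ) * Real.exp (-(E * T)) * pt q T w)
        (Icc 0 T) := by fun_prop
    exact (this.integrableOn_Icc).mono_set Ioo_subset_Icc_self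
  have hsl_val : ∀ T : ℝ, ∫ t, Ψ (t, T) = (Ioi (0:ℝ)).indicator (fun T => hhF q (j + 1) E T w) T := by
    intro T
    simp_rw [hslice]
    rw [integral_indicator measurableSet_Ioo]
    by_cases hT : 0 < T
    · rw [indicator_of_mem (by exact hT), ← integral_Ioc_eq_integral_Ioo,
        ← intervalIntegral.integral_of_le hT.le]
      have : ∀ t : ℝ, t ^ j / (j.factorial : ℝ) * Real.exp (-(E * T)) * pt q T w =
          t ^ j * (1 / (j.factorial : ℝ) * Real.exp (-(E * T)) * pt q T w) := by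
        intro t; ring
      simp_rw [this]
      rw [intervalIntegral.integral_mul_const, integral_pow]
      unfold hhF
      rw [Nat.factorial_succ]
      push_cast
      have h3 : (j.factorial : ℝ) ≠ 0 := by positivity
      have h4 : (j:ℝ) + 1 ≠ 0 := by positivity
      field_simp
      simp
    · rw [indicator_of_notMem (by exact hT), Ioo_eq_empty (by exact hT)]
      simp
  have hsl_norm : ∀ T : ℝ, ∫ t, ‖Ψ (t, T)‖ = (Ioi (0:ℝ)).indicator (fun T => hhF q (j + 1) E T w) T := by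
    intro T
    rw [← hsl_val T]
    refine integral_congr_ae (Eventually.of_forall fun t => ?_)
    refine Real.norm_of_nonneg ?_
    rw [hslice]
    refine indicator_nonneg (fun t ht => ?_) t
    have hT : 0 < T := ht.1.trans ht.2
    have := ((h q).1 T hT w).le
    have h0 : 0 ≤ t := ht.1.le
    positivity
  have hfin : Integrable ((Ioi (0:ℝ)).indicator (fun T => hhF q (j + 1) E T w)) := by
    rw [integrable_indicator_iff measurableSet_Ioi]
    refine hhF_tint h q (j + 1) E hE w ?_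
    rcases hw with hw | hw
    · exact Or.inl hw
    · exact Or.inr (Nat.lt_succ_of_le hw)
  have hΨi : Integrable Ψ (volume.prod volume) := by
    rw [integrable_prod_iff' hΨm.aestronglyMeasurable]
    refine ⟨Eventually.of_forall fun T => hsl_int T, ?_⟩
    simp_rw [hsl_norm]
    exact hfin
  constructor
  · rw [hcomp]
    exact (hmp.integrable_comp_emb hme).2 hΨi
  · have e1 : ∫ p : ℝ × ℝ, (Ioi (0:ℝ) ×ˢ Ioi (0:ℝ)).indicator
      (fun p : ℝ × ℝ => p.1 ^ j / (j.factorial : ℝ) * Real.exp (-(E * (p.1 + p.2))) *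
        pt q (p.1 + p.2) w) p ∂(volume.prod volume) = ∫ p, Ψ p ∂(volume.prod volume) := by
      rw [← hmp.integral_comp hme Ψ]
      exact congrArg (fun f => ∫ p, f p ∂(volume.prod volume)) hcomp
    rw [e1, integral_prod_symm _ hΨi]
    simp_rw [hsl_val]
    rw [integral_indicator measurableSet_Ioi, ← hh_eq]

lemma hh_conv (h : PtFacts) (q j : ℕ) (E : ℝ) (hE : 0 < E) (x y : En q) (hw : x ≠ y ∨ q ≤ j) :
    Integrable (fun z => HH q 0 E (x - z) * HH q j E (z - y)) ∧
      ∫ z, HH q 0 E (x - z) * HH q j E (z - y) = HH q (j + 1) E (x - y) := by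
  obtain ⟨hI, hV⟩ := hh_two h q j E hE (x - y) (hw.imp_left sub_ne_zero.2)
  -- the triple function
  set ν : Measure (ℝ × ℝ) := (volume.restrict (Ioi (0:ℝ))).prod (volume.restrict (Ioi (0:ℝ)))
    with hν
  set Φ : (ℝ × ℝ) → En q → ℝ := fun p z => hhF q j E p.1 (z - y) * hhF q 0 E p.2 (x - z) with hΦ
  have hΦm : Measurable (Function.uncurry Φ) := by
    have m1 : Measurable fun r : (ℝ × ℝ) × En q => (r.1.1, r.2 - y) := by fun_prop
    have m2 : Measurable fun r : (ℝ × ℝ) × En q => (r.1.2, x - r.2) := by fun_prop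
    exact ((hhF_meas h q j E).comp m1).mul ((hhF_meas h q 0 E).comp m2)
  have hνr : ν = (volume.prod volume).restrict (Ioi (0:ℝ) ×ˢ Ioi (0:ℝ)) := by
    rw [hν, Measure.prod_restrict]
  have hmem : ∀ᵐ p ∂ν, p ∈ (Ioi (0:ℝ) ×ˢ Ioi (0:ℝ)) := by
    rw [hνr]
    exact ae_restrict_mem (measurableSet_Ioi.prod measurableSet_Ioi)
  have hz : ∀ p ∈ (Ioi (0:ℝ) ×ˢ Ioi (0:ℝ)), Integrable (Φ p) ∧ ∫ z, Φ p z =
      p.1 ^ j / (j.factorial : ℝ) * Real.exp (-(E * (p.1 + p.2))) *
        pt q (p.1 + p.2) (x - y) := by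
    intro p hp
    obtain ⟨h1, h2⟩ := (h q).2.2.2.2.1 p.2 hp.2 p.1 hp.1 x y
    have e : Φ p = fun z => (p.1 ^ j / (j.factorial : ℝ) * Real.exp (-(E * (p.1 + p.2)))) *
        (pt q p.2 (x - z) * pt q p.1 (z - y)) := by
      funext z
      simp only [hΦ, hhF, pow_zero, Nat.factorial_zero, Nat.cast_one, div_one, one_mul]
      have : Real.exp (-(E * (p.1 + p.2))) = Real.exp (-(E * p.1)) * Real.exp (-(E * p.2)) := by
        rw [← Real.exp_add]
        congr 1
        ring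
      rw [this]
      ring
    constructor
    · rw [e]
      exact h1.const_mul _
    · rw [e, integral_const_mul, h2, add_comm p.2 p.1]
  have hnn : ∀ p ∈ (Ioi (0:ℝ) ×ˢ Ioi (0:ℝ)), ∀ z, 0 ≤ Φ p z := by
    intro p hp z
    exact mul_nonneg (hhF_nonneg h hp.1) (hhF_nonneg h hp.2)
  have hI' : Integrable (fun p : ℝ × ℝ => p.1 ^ j / (j.factorial : ℝ) *
      Real.exp (-(E * (p.1 + p.2))) * pt q (p.1 + p.2) (x - y)) ν := by
    rw [hνr]
    exact (integrable_indicator_iff (measurableSet_Ioi.prod measurableSet_Ioi)).1 hI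
  have hV' : ∫ p : ℝ × ℝ, p.1 ^ j / (j.factorial : ℝ) *
      Real.exp (-(E * (p.1 + p.2))) * pt q (p.1 + p.2) (x - y) ∂ν = HH q (j + 1) E (x - y) := by
    rw [hνr, ← integral_indicator (measurableSet_Ioi.prod measurableSet_Ioi)]
    exact hV
  have hΦi : Integrable (Function.uncurry Φ) (ν.prod (volume : Measure (En q))) := by
    rw [integrable_prod_iff hΦm.aestronglyMeasurable]
    constructor
    · filter_upwards [hmem] with p hp
      exact (hz p hp).1
    · refine hI'.congr ?_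
      filter_upwards [hmem] with p hp
      have h1 : ∀ z, ‖Function.uncurry Φ (p, z)‖ = Φ p z := fun z =>
        Real.norm_of_nonneg (hnn p hp z)
      simp_rw [h1]
      exact (hz p hp).2.symm
  have hprod : ∀ z, HH q 0 E (x - z) * HH q j E (z - y) = ∫ p, Φ p z ∂ν := by
    intro z
    have := integral_prod_mul (μ := volume.restrict (Ioi (0:ℝ)))
      (ν := volume.restrict (Ioi (0:ℝ))) (fun t => hhF q j E t (z - y))
      (fun t => hhF q 0 E t (x - z))
    rw [mul_comm, hh_eq, hh_eq, ← this]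
  constructor
  · simp_rw [hprod]
    exact hΦi.integral_prod_right
  · simp_rw [hprod]
    rw [← integral_integral_swap hΦi, ← hV']
    refine integral_congr_ae ?_
    filter_upwards [hmem] with p hp
    exact (hz p hp).2

theorem hhFacts (h : PtFacts) : HHFacts := by
  intro q j
  refine ⟨fun E hE => ⟨hh_nonneg h q j E, hh_meas h q j E, hh_int h q j E hE,
    hh_integral h q j E hE, fun x hx => hh_pos h q j E hE x hx,
    fun x hx => hhF_tint h q j E hE x hx, fun x y hxy => hh_conv h q j E hE x y hxy⟩,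
    hh_bd h q, fun s hs E _ x => hh_scale q j s hs E x⟩

end Pool.Agent.Work.MP_f2af60_mp

end

section

/-!
# MP_f2af60_mp, Q17: a separable cutoff away from the diagonal, all odd dimensions
-/

namespace Pool.Agent.Work.MP_f2af60_mp

open MeasureTheory Metric Filter Topology

variable {q : ℕ}

/-- The product hat functions. -/
noncomputable def ghat_chi (d : ℝ) (m : ℕ) (s : Fin (2 * q + 3) → Fin (2 * m + 1)) : C(En q, ℝ) where
  toFun x := ∏ i, hat (x i / d - ((s i : ℕ) - m : ℝ))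
  continuous_toFun := by
    refine continuous_finsetProd _ fun i _ => hat_cont.comp ?_
    fun_prop

theorem ghat_chi_apply (d : ℝ) (m : ℕ) (s : Fin (2 * q + 3) → Fin (2 * m + 1)) (x : En q) :
    ghat_chi d m s x = ∏ i, hat (x i / d - ((s i : ℕ) - m : ℝ)) := rfl

theorem ghat_chi_nonneg (d : ℝ) (m : ℕ) (s : Fin (2 * q + 3) → Fin (2 * m + 1)) (x : En q) :
    0 ≤ ghat_chi d m s x := by
  rw [ghat_chi_apply]; exact Finset.prod_nonneg fun i _ => hat_nonneg _

theorem ghat_chi_le_one (d : ℝ) (m : ℕ) (s : Fin (2 * q + 3) → Fin (2 * m + 1)) (x : En q) :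
    ghat_chi d m s x ≤ 1 := by
  rw [ghat_chi_apply]; exact Finset.prod_le_one (fun i _ => hat_nonneg _) fun i _ => hat_le_one _

theorem ghat_abs_lt {d : ℝ} {m : ℕ} {s : Fin (2 * q + 3) → Fin (2 * m + 1)} {x : En q}
    (h : ghat_chi d m s x ≠ 0) (i : Fin (2 * q + 3)) : |x i / d - ((s i : ℕ) - m : ℝ)| < 1 := by
  rw [ghat_chi_apply, Finset.prod_ne_zero_iff] at h
  exact abs_lt_of_hat (h i (Finset.mem_univ _))

theorem ghat_chi_sum (d : ℝ) (hd : 0 < d) (m : ℕ) (x : En q) (hx : ∀ i, |x i| ≤ m * d) :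
    ∑ s : Fin (2 * q + 3) → Fin (2 * m + 1), ghat_chi d m s x = 1 := by
  simp_rw [ghat_chi_apply]
  rw [← Fintype.prod_sum (fun (i : Fin (2 * q + 3)) (j : Fin (2 * m + 1)) =>
    hat (x i / d - ((j : ℕ) - m : ℝ)))]
  refine Finset.prod_eq_one fun i _ => hat_sum m _ ?_
  rw [abs_div, abs_of_pos hd, div_le_iff₀ hd]
  exact hx i

/-- GFar pairs of indices. -/
def GFar {m : ℕ} (p : (Fin (2 * q + 3) → Fin (2 * m + 1)) × (Fin (2 * q + 3) → Fin (2 * m + 1))) : Prop :=
  ∃ i, (3 : ℤ) ≤ |((p.1 i : ℕ) : ℤ) - ((p.2 i : ℕ) : ℤ)|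

theorem ghat_coord_le (x y : En q) (i : Fin (2 * q + 3)) : |x i - y i| ≤ dist x y := by
  rw [dist_eq_norm]
  have := PiLp.norm_apply_le (x - y) i
  simpa using this

theorem ghat_exists_coord (x y : En q) (d : ℝ) (hd : 0 < d)
    (h : (8 * (q : ℝ) + 13) * d ≤ dist x y) : ∃ i, 4 * d < |x i - y i| := by
  by_contra hcon
  push Not at hcon
  have h1 : dist x y ^ 2 ≤ (2 * (q : ℝ) + 3) * (4 * d) ^ 2 := by
    rw [EuclideanSpace.dist_eq, Real.sq_sqrt (Finset.sum_nonneg fun i _ => sq_nonneg _)]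
    calc ∑ i, dist (x i) (y i) ^ 2 ≤ ∑ i : Fin (2 * q + 3), (4 * d) ^ 2 := by
          refine Finset.sum_le_sum fun i _ => ?_
          rw [Real.dist_eq]
          exact pow_le_pow_left₀ (abs_nonneg _) (hcon i) 2
      _ = (2 * (q : ℝ) + 3) * (4 * d) ^ 2 := by
          rw [Finset.sum_const, Finset.card_univ, Fintype.card_fin, nsmul_eq_mul]
          push_cast
          ring
  have h2 : ((8 * (q : ℝ) + 13) * d) ^ 2 ≤ dist x y ^ 2 := pow_le_pow_left₀ (by positivity) h 2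
  have hq : (0 : ℝ) ≤ q := Nat.cast_nonneg q
  have h3 : 0 < (64 * (q : ℝ) ^ 2 + 176 * q + 121) * d ^ 2 := by positivity
  nlinarith

theorem ghat_far_of_dist {m : ℕ} (p : (Fin (2 * q + 3) → Fin (2 * m + 1)) × (Fin (2 * q + 3) → Fin (2 * m + 1)))
    (d : ℝ) (hd : 0 < d) (x y : En q) (hx : ghat_chi d m p.1 x ≠ 0) (hy : ghat_chi d m p.2 y ≠ 0)
    (h : (8 * (q : ℝ) + 13) * d ≤ dist x y) : GFar p := by
  obtain ⟨i, hi⟩ := ghat_exists_coord x y d hd h
  refine ⟨i, ?_⟩
  have h1 := ghat_abs_lt hx i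
  have h2 := ghat_abs_lt hy i
  have h3 : 4 < |x i / d - y i / d| := by
    rw [← sub_div, abs_div, abs_of_pos hd, lt_div_iff₀ hd]
    exact hi
  have h4 : (2 : ℝ) < |((p.1 i : ℕ) : ℝ) - ((p.2 i : ℕ) : ℝ)| := by
    rw [abs_lt] at h1 h2
    rcases lt_abs.mp h3 with h3 | h3
    · exact lt_abs.mpr (Or.inl (by linarith [h1.1, h1.2, h2.1, h2.2]))
    · exact lt_abs.mpr (Or.inr (by linarith [h1.1, h1.2, h2.1, h2.2]))
  have h5 : (2 : ℤ) < |((p.1 i : ℕ) : ℤ) - ((p.2 i : ℕ) : ℤ)| := by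
    have : ((2 : ℤ) : ℝ) < ((|((p.1 i : ℕ) : ℤ) - ((p.2 i : ℕ) : ℤ)| : ℤ) : ℝ) := by
      push_cast
      exact h4
    exact_mod_cast this
  omega

theorem ghat_not_of_dist {m : ℕ} (p : (Fin (2 * q + 3) → Fin (2 * m + 1)) × (Fin (2 * q + 3) → Fin (2 * m + 1)))
    (d : ℝ) (hd : 0 < d) (x y : En q) (hx : ghat_chi d m p.1 x ≠ 0) (hy : ghat_chi d m p.2 y ≠ 0)
    (h : dist x y < d) : ¬ GFar p := by
  rintro ⟨i, hi⟩
  have h1 := ghat_abs_lt hx i
  have h2 := ghat_abs_lt hy i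
  have h3 : |x i / d - y i / d| < 1 := by
    rw [← sub_div, abs_div, abs_of_pos hd, div_lt_iff₀ hd, one_mul]
    exact (ghat_coord_le x y i).trans_lt h
  have h4 : |((p.1 i : ℕ) : ℝ) - ((p.2 i : ℕ) : ℝ)| < 3 := by
    rw [abs_lt] at h1 h2 h3 ⊢
    constructor <;> linarith [h1.1, h1.2, h2.1, h2.2, h3.1, h3.2]
  have h5 : |((p.1 i : ℕ) : ℤ) - ((p.2 i : ℕ) : ℤ)| < 3 := by
    have : ((|((p.1 i : ℕ) : ℤ) - ((p.2 i : ℕ) : ℤ)| : ℤ) : ℝ) < ((3 : ℤ) : ℝ) := by
      push_cast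
      exact h4
    exact_mod_cast this
  omega

open Classical in
theorem hatsQ : HatsQ := by
  intro q R c0 hR hc0
  have hq : (0 : ℝ) ≤ q := Nat.cast_nonneg q
  set κ : ℝ := 8 * (q : ℝ) + 13 with hκ
  have hκ0 : 0 < κ := by positivity
  have hκ1 : 1 ≤ κ := by linarith
  refine ⟨(2 * (κ * R / c0 + 1) + 1) ^ (2 * (2 * q + 3)), c0 / κ, 2 * (2 * q + 3), by positivity,
    div_le_self hc0.le hκ1, ?_⟩
  intro r hr
  have hr' : (1 : ℝ) ≤ r := by exact_mod_cast hr
  have hr0 : (0 : ℝ) < r := by linarith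
  set d : ℝ := c0 / (κ * r) with hd
  have hd0 : 0 < d := by positivity
  set m : ℕ := ⌈R / d⌉₊ with hm
  have hmR : R ≤ m * d := by
    have := Nat.le_ceil (R / d)
    rwa [div_le_iff₀ hd0] at this
  have hmle : (m : ℝ) ≤ (κ * R / c0 + 1) * r := by
    have h1 : (m : ℝ) < R / d + 1 := Nat.ceil_lt_add_one (by positivity)
    have h2 : R / d = κ * R / c0 * r := by
      rw [hd]; field_simp
    rw [h2] at h1
    nlinarith
  let I := (Fin (2 * q + 3) → Fin (2 * m + 1)) × (Fin (2 * q + 3) → Fin (2 * m + 1))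
  let e : I ≃ Fin (Fintype.card I) := Fintype.equivFin I
  let a : I → C(En q, ℝ) := fun p => if GFar p then ghat_chi d m p.1 else 0
  let b : I → C(En q, ℝ) := fun p => ghat_chi d m p.2
  refine ⟨Fintype.card I, fun k => a (e.symm k), fun k => b (e.symm k), ?_, ?_, ?_, ?_⟩
  · have h1 : Fintype.card I = (2 * m + 1) ^ (2 * (2 * q + 3)) := by
      simp only [I, Fintype.card_prod, Fintype.card_fun, Fintype.card_fin]
      ring
    rw [h1, ← mul_pow]
    push_cast
    refine pow_le_pow_left₀ (by positivity) ?_ _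
    nlinarith
  · intro k x
    simp only [a]
    split_ifs
    · exact ⟨ghat_chi_nonneg _ _ _ _, ghat_chi_le_one _ _ _ _⟩
    · simp
  · intro k x
    exact ⟨ghat_chi_nonneg _ _ _ _, ghat_chi_le_one _ _ _ _⟩
  · intro x hx y hy
    have hx' : ∀ i, |x i| ≤ m * d := by
      intro i
      have h1 := PiLp.norm_apply_le x i
      rw [Real.norm_eq_abs] at h1
      rw [mem_closedBall_zero_iff] at hx
      linarith
    have hy' : ∀ i, |y i| ≤ m * d := by
      intro i
      have h1 := PiLp.norm_apply_le y i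
      rw [Real.norm_eq_abs] at h1
      rw [mem_closedBall_zero_iff] at hy
      linarith
    have hS : ∑ k, (a (e.symm k)) x * (b (e.symm k)) y = ∑ p : I, a p x * b p y :=
      Equiv.sum_comp e.symm (fun p : I => a p x * b p y)
    have hT : ∑ p : I, ghat_chi d m p.1 x * ghat_chi d m p.2 y = 1 := by
      rw [Fintype.sum_prod_type]
      simp_rw [← Finset.mul_sum]
      rw [← Finset.sum_mul, ghat_chi_sum d hd0 m x hx', ghat_chi_sum d hd0 m y hy', one_mul]
    have hle : ∀ p : I, 0 ≤ a p x * b p y ∧ a p x * b p y ≤ ghat_chi d m p.1 x * ghat_chi d m p.2 y := by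
      intro p
      simp only [a, b]
      split_ifs
      · exact ⟨mul_nonneg (ghat_chi_nonneg _ _ _ _) (ghat_chi_nonneg _ _ _ _), le_rfl⟩
      · simp only [ContinuousMap.zero_apply, zero_mul, le_refl, true_and]
        exact mul_nonneg (ghat_chi_nonneg _ _ _ _) (ghat_chi_nonneg _ _ _ _)
    simp only [hS]
    refine ⟨Finset.sum_nonneg fun p _ => (hle p).1, ?_, ?_, ?_⟩
    · rw [← hT]
      exact Finset.sum_le_sum fun p _ => (hle p).2
    · intro hdist
      rw [← hT]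
      refine Finset.sum_congr rfl fun p _ => ?_
      by_cases h0 : ghat_chi d m p.1 x * ghat_chi d m p.2 y = 0
      · rw [h0]
        exact le_antisymm ((hle p).2.trans h0.le) (hle p).1
      · have h1 := left_ne_zero_of_mul h0
        have h2 := right_ne_zero_of_mul h0
        have hf : GFar p := ghat_far_of_dist p d hd0 x y h1 h2 (by
          have : κ * d = c0 / r := by rw [hd]; field_simp
          rw [this]; exact hdist)
        simp only [a, b, if_pos hf]
    · intro hdist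
      refine Finset.sum_eq_zero fun p _ => ?_
      by_cases h0 : ghat_chi d m p.1 x * ghat_chi d m p.2 y = 0
      · exact le_antisymm ((hle p).2.trans h0.le) (hle p).1
      · have h1 := left_ne_zero_of_mul h0
        have h2 := right_ne_zero_of_mul h0
        have hf : ¬ GFar p := ghat_not_of_dist p d hd0 x y h1 h2 (by
          have : d = c0 / κ / r := by rw [hd]; field_simp
          rw [this]; exact hdist)
        simp only [a, if_neg hf, ContinuousMap.zero_apply, zero_mul]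

end Pool.Agent.Work.MP_f2af60_mp

end

section

/-!
# MP_f2af60_mp, all odd dimensions: bounds on the imaginary axis
-/

namespace Pool.Agent.Work.MP_f2af60_mp

open MeasureTheory Metric Filter Topology Set

namespace GImag

variable {q : ℕ} {R : ℝ}

theorem int_ball {F : En q → ℝ} (hF : Integrable F) (h0 : ∀ x, 0 ≤ F x) :
    Integrable (fun z : closedBall (0 : En q) R => F z) (muQ q R) ∧
      ∫ z : closedBall (0 : En q) R, F z ∂(muQ q R) ≤ ∫ z, F z := by
  have hs : MeasurableSet (closedBall (0 : En q) R) := measurableSet_closedBall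
  have he := MeasurableEmbedding.subtype_coe hs
  have hm : (muQ q R).map Subtype.val = volume.restrict (closedBall (0 : En q) R) :=
    map_comap_subtype_coe hs volume
  refine ⟨?_, ?_⟩
  · have h1 := (he.integrable_map_iff (μ := muQ q R) (g := F)).1 (by
      rw [hm]; exact hF.integrableOn)
    exact h1
  · have h1 := he.integral_map (μ := muQ q R) F
    rw [← h1, hm]
    exact setIntegral_le_integral hF (Eventually.of_forall h0)

theorem ae_ne (y : closedBall (0 : En q) R) : ∀ᵐ z ∂(muQ q R), z ≠ y := by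
  have hs : MeasurableSet (closedBall (0 : En q) R) := measurableSet_closedBall
  have he := MeasurableEmbedding.subtype_coe hs
  rw [ae_iff]
  have h1 : {z : closedBall (0 : En q) R | ¬ z ≠ y} = {y} := by
    ext z; simp
  rw [h1]
  unfold muQ
  rw [he.comap_apply, image_singleton]
  exact measure_singleton _

theorem sub_ne {x y : closedBall (0 : En q) R} (h : x ≠ y) : (x : En q) - y ≠ 0 := by
  intro h1
  exact h (Subtype.ext (sub_eq_zero.1 h1))

theorem dist_norm (x y : closedBall (0 : En q) R) : dist x y = ‖(x : En q) - y‖ := by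
  rw [Subtype.dist_eq, dist_eq_norm]

/-- The first kernel. -/
theorem ker_h (h2 : Subord) (h4 : HHFacts) {E : ℝ} (hE : 0 < E)
    {h : C(closedBall (0 : En q) R × closedBall (0 : En q) R, ℂ)}
    (hh : ∀ x y, h (x, y) = eb q (Complex.I * (Real.sqrt E : ℂ) * ((dist x y : ℝ) : ℂ)))
    (x y : closedBall (0 : En q) R) :
    ‖h (x, y) * ((((dist x y) ^ (2 * q + 1))⁻¹ : ℝ) : ℂ)‖ ≤ HH q 0 E ((x : En q) - y) := by
  have hnn := ((h4 q 0).1 E hE).1
  by_cases hxy : x = y
  · subst hxy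
    rw [dist_self, zero_pow (by omega), inv_zero, Complex.ofReal_zero, mul_zero, norm_zero]
    exact hnn _
  · have h5 := (h2 q E _ hE (sub_ne hxy)).1
    rw [hh, dist_norm]
    have h6 : eb q (Complex.I * (Real.sqrt E : ℂ) * ((‖(x : En q) - y‖ : ℝ) : ℂ)) *
        (((‖(x : En q) - y‖ ^ (2 * q + 1))⁻¹ : ℝ) : ℂ) = (HH q 0 E ((x : En q) - y) : ℂ) := by
      rw [← h5, div_eq_mul_inv]
      push_cast
      rfl
    rw [h6, Complex.norm_real, Real.norm_of_nonneg (hnn _)]

/-- The second kernel. -/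
theorem ker_l (h2 : Subord) (h4 : HHFacts) (hq : 1 ≤ q) {E : ℝ} (hE : 0 < E)
    {l : C(closedBall (0 : En q) R × closedBall (0 : En q) R, ℂ)}
    (hl : ∀ x y, l (x, y) = eb (q - 1) (Complex.I * (Real.sqrt E : ℂ) * ((dist x y : ℝ) : ℂ)) /
        (4 * (Real.pi : ℂ)))
    (x y : closedBall (0 : En q) R) :
    ‖l (x, y) * ((((dist x y) ^ (2 * q - 1))⁻¹ : ℝ) : ℂ)‖ ≤ HH q 1 E ((x : En q) - y) := by
  have hnn := ((h4 q 1).1 E hE).1
  by_cases hxy : x = y
  · subst hxy
    rw [dist_self, zero_pow (by omega), inv_zero, Complex.ofReal_zero, mul_zero, norm_zero]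
    exact hnn _
  · have h5 := (h2 q E _ hE (sub_ne hxy)).2 hq
    rw [hl, dist_norm]
    have h6 : eb (q - 1) (Complex.I * (Real.sqrt E : ℂ) * ((‖(x : En q) - y‖ : ℝ) : ℂ)) /
        (4 * (Real.pi : ℂ)) * (((‖(x : En q) - y‖ ^ (2 * q - 1))⁻¹ : ℝ) : ℂ) =
        (HH q 1 E ((x : En q) - y) : ℂ) := by
      rw [← h5, div_eq_mul_inv, div_eq_mul_inv, mul_inv]
      push_cast
      ring
    rw [h6, Complex.norm_real, Real.norm_of_nonneg (hnn _)]

/-- The iterated kernels. -/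
theorem ker_KK (h2 : Subord) (h4 : HHFacts) (hq : 1 ≤ q) {V : En q → ℝ} {M : ℝ}
    (hM : ∀ x, |V x| ≤ M) {E : ℝ} (hE : 0 < E)
    {h l : C(closedBall (0 : En q) R × closedBall (0 : En q) R, ℂ)}
    (hh : ∀ x y, h (x, y) = eb q (Complex.I * (Real.sqrt E : ℂ) * ((dist x y : ℝ) : ℂ)))
    (hl : ∀ x y, l (x, y) = eb (q - 1) (Complex.I * (Real.sqrt E : ℂ) * ((dist x y : ℝ) : ℂ)) /
        (4 * (Real.pi : ℂ))) (m : ℕ) (hm : m ≤ q) :
    ∀ x y : closedBall (0 : En q) R, (x ≠ y ∨ m = q) →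
      ‖KK q (muQ q R) (fun x : closedBall (0 : En q) R => V x) h l m x y‖ ≤
        M ^ m * HH q (m + 1) E ((x : En q) - y) := by
  have hM0 : 0 ≤ M := (abs_nonneg _).trans (hM 0)
  induction m with
  | zero =>
    intro x y _
    have := ker_l h2 h4 hq hE hl x y
    simpa [KK] using this
  | succ m ih =>
    intro x y hxy
    have ih' := ih (by omega)
    have hc := ((h4 q (m + 1)).1 E hE).2.2.2.2.2.2 (x : En q) (y : En q) (by
      rcases hxy with h | h
      · exact Or.inl fun h' => h (Subtype.ext h')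
      · exact Or.inr h.ge)
    have hnn0 := ((h4 q 0).1 E hE).1
    have hnn1 := ((h4 q (m + 1)).1 E hE).1
    have hFi : Integrable (fun z : En q => M ^ (m + 1) *
        (HH q 0 E ((x : En q) - z) * HH q (m + 1) E (z - y))) := hc.1.const_mul _
    have hF0 : ∀ z : En q, 0 ≤ M ^ (m + 1) *
        (HH q 0 E ((x : En q) - z) * HH q (m + 1) E (z - y)) := fun z =>
      mul_nonneg (pow_nonneg hM0 _) (mul_nonneg (hnn0 _) (hnn1 _))
    obtain ⟨i1, i2⟩ := int_ball (R := R) hFi hF0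
    have key : ∀ᵐ z ∂(muQ q R), ‖h (x, z) * ((((dist x z) ^ (2 * q + 1))⁻¹ : ℝ) : ℂ) *
        (V z : ℂ) * KK q (muQ q R) (fun x : closedBall (0 : En q) R => V x) h l m z y‖ ≤
        M ^ (m + 1) * (HH q 0 E ((x : En q) - z) * HH q (m + 1) E ((z : En q) - y)) := by
      filter_upwards [ae_ne y] with z hz
      rw [norm_mul, norm_mul]
      have a1 := ker_h h2 h4 hE hh x z
      have a2 : ‖((V z : ℝ) : ℂ)‖ ≤ M := by
        rw [Complex.norm_real]; exact hM z
      have a3 := ih' z y (Or.inl hz)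
      calc ‖h (x, z) * ((((dist x z) ^ (2 * q + 1))⁻¹ : ℝ) : ℂ)‖ * ‖((V z : ℝ) : ℂ)‖ *
            ‖KK q (muQ q R) (fun x : closedBall (0 : En q) R => V x) h l m z y‖
          ≤ (HH q 0 E ((x : En q) - z) * M) * (M ^ m * HH q (m + 1) E ((z : En q) - y)) :=
            mul_le_mul (mul_le_mul a1 a2 (norm_nonneg _) (hnn0 _)) a3 (norm_nonneg _)
              (mul_nonneg (hnn0 _) hM0)
        _ = M ^ (m + 1) * (HH q 0 E ((x : En q) - z) * HH q (m + 1) E ((z : En q) - y)) := by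
            rw [pow_succ]; ring
    have h5 := norm_integral_le_of_norm_le i1 key
    simp only [KK]
    refine h5.trans (i2.trans (le_of_eq ?_))
    rw [integral_const_mul, hc.2]

end GImag

open GImag in
/-- Q16. -/
theorem imagQ (h2 : Subord) (h4 : HHFacts) : ImagQ := by
  intro q hq R _ V _ M hM
  have hM0 : 0 ≤ M := (abs_nonneg _).trans (hM 0)
  obtain ⟨C₁, hC₁⟩ := (h4 q 0).2.1
  refine ⟨max M (M ^ q * C₁), fun O E hE h l hh hl => ?_⟩
  have hE0 : 0 < E := lt_of_lt_of_le one_pos hE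
  refine ⟨?_, fun x y => ?_⟩
  · have hb : ‖O.Op h‖ ≤ M / E := by
      refine ContinuousLinearMap.opNorm_le_bound _ (by positivity) fun f => ?_
      rw [ContinuousMap.norm_le _ (by positivity)]
      intro x
      rw [O.Op_apply]
      have h5 := ((h4 q 0).1 E hE0)
      have hnn0 := h5.1
      have hi : Integrable (fun z : En q => (M * ‖f‖) * HH q 0 E ((x : En q) - z)) :=
        (h5.2.2.1.comp_sub_left (x : En q)).const_mul _
      obtain ⟨i1, i2⟩ := int_ball (R := R) hi fun z =>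
        mul_nonneg (mul_nonneg hM0 (norm_nonneg _)) (hnn0 _)
      have key : ∀ᵐ z ∂(muQ q R), ‖h (x, z) * ((((dist x z) ^ (2 * q + 1))⁻¹ : ℝ) : ℂ) *
          (V z : ℂ) * f z‖ ≤ (M * ‖f‖) * HH q 0 E ((x : En q) - z) := by
        refine Eventually.of_forall fun z => ?_
        rw [norm_mul, norm_mul]
        have a1 := ker_h h2 h4 hE0 hh x z
        have a2 : ‖((V z : ℝ) : ℂ)‖ ≤ M := by
          rw [Complex.norm_real]; exact hM z
        calc ‖h (x, z) * ((((dist x z) ^ (2 * q + 1))⁻¹ : ℝ) : ℂ)‖ * ‖((V z : ℝ) : ℂ)‖ * ‖f z‖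
            ≤ (HH q 0 E ((x : En q) - z) * M) * ‖f‖ :=
              mul_le_mul (mul_le_mul a1 a2 (norm_nonneg _) (hnn0 _)) (f.norm_coe_le_norm z)
                (norm_nonneg _) (mul_nonneg (hnn0 _) hM0)
          _ = (M * ‖f‖) * HH q 0 E ((x : En q) - z) := by ring
      refine (norm_integral_le_of_norm_le i1 key).trans (i2.trans (le_of_eq ?_))
      rw [integral_const_mul, integral_sub_left_eq_self (HH q 0 E), h5.2.2.2.1]
      simp only [zero_add, pow_one]
      ring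
    exact hb.trans (div_le_div_of_nonneg_right (le_max_left _ _) hE0.le)
  · have h5 := ker_KK h2 h4 hq hM hE0 hh hl q le_rfl x y (Or.inr rfl)
    have h6 := hC₁ E hE0 ((x : En q) - y)
    refine h5.trans ?_
    calc M ^ q * HH q (q + 1) E ((x : En q) - y)
        ≤ M ^ q * (C₁ * E ^ (-(1 / 2) : ℝ)) := mul_le_mul_of_nonneg_left h6 (pow_nonneg hM0 _)
      _ = (M ^ q * C₁) * E ^ (-(1 / 2) : ℝ) := by ring
      _ ≤ max M (M ^ q * C₁) * E ^ (-(1 / 2) : ℝ) :=
        mul_le_mul_of_nonneg_right (le_max_right _ _) (Real.rpow_nonneg hE0.le _)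

end Pool.Agent.Work.MP_f2af60_mp

end

section

/-!
# MP_f2af60_mp, Q36: moments of `k₁`
-/

namespace Pool.Agent.Work.MP_f2af60_mp

open MeasureTheory

theorem k1_pt {q : ℕ} (U : En q ≃ₗᵢ[ℝ] En q) (t : ℝ) (x : En q) : pt q t (U x) = pt q t x := by
  simp only [pt, U.norm_map]

theorem k1_HH {q : ℕ} (U : En q ≃ₗᵢ[ℝ] En q) (j : ℕ) (E : ℝ) (x : En q) :
    HH q j E (U x) = HH q j E x := by
  simp only [HH, k1_pt]

theorem k1_km {q : ℕ} (U : En q ≃ₗᵢ[ℝ] En q) (y : Fin 1 → En q) :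
    km q 1 (fun i => U (y i)) = km q 1 y := by
  have h : ∀ E', JJ q 1 E' (Fin.cons 0 fun i => U (y i)) = JJ q 1 E' (Fin.cons 0 y) := by
    intro E'
    have h1 : ∀ y : Fin 1 → En q, JJ q 1 E' (Fin.cons 0 y) =
        HH q 0 E' (-y 0) * HH q 1 E' (y 0) := by
      intro y
      have e0 : (Fin.cons 0 y : Fin 2 → En q) 0 = 0 := rfl
      have e1 : (Fin.cons 0 y : Fin 2 → En q) 1 = y 0 := rfl
      simp only [JJ, Fin.prod_univ_one]
      show HH q 0 E' ((Fin.cons 0 y : Fin 2 → En q) 0 - (Fin.cons 0 y : Fin 2 → En q) 1) *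
        HH q 1 E' ((Fin.cons 0 y : Fin 2 → En q) 1 - (Fin.cons 0 y : Fin 2 → En q) 0) = _
      rw [e0, e1, zero_sub, sub_zero]
    rw [h1, h1, ← map_neg, k1_HH, k1_HH]
  simp only [km, DJ, h]

theorem k1_mp {q : ℕ} (U : En q ≃ₗᵢ[ℝ] En q) :
    MeasurePreserving (fun (y : Fin 1 → En q) i => U (y i)) volume volume :=
  volume_preserving_pi fun _ => U.measurePreserving

theorem k1_emb {q : ℕ} (U : En q ≃ₗᵢ[ℝ] En q) :
    MeasurableEmbedding (fun (y : Fin 1 → En q) i => U (y i)) :=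
  (MeasurableEquiv.piCongrRight fun _ : Fin 1 =>
    U.toHomeomorph.toMeasurableEquiv).measurableEmbedding

theorem k1Facts (h33 : KmFacts) (_h4 : HHFacts) : K1Facts := by
  intro q hq i hi
  obtain ⟨hk0, -, hkint, hkpos, -⟩ := h33 q 1 hq le_rfl
  -- integrability of all moments
  have hint : ∀ ξ : En q, Integrable
      (fun y : Fin 1 → En q => km q 1 y * (2 * Real.pi * inner ℝ (y 0) ξ) ^ (2 * i)) := by
    intro ξ
    have hc : Continuous fun y : Fin 1 → En q =>
        (2 * Real.pi * inner ℝ (y 0) ξ) ^ (2 * i) / (1 + ‖y‖) ^ (2 * q) := by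
      refine Continuous.div (by fun_prop) (by fun_prop) fun y => ?_
      positivity
    have hb : ∀ y : Fin 1 → En q,
        ‖(2 * Real.pi * inner ℝ (y 0) ξ) ^ (2 * i) / (1 + ‖y‖) ^ (2 * q)‖ ≤
          (2 * Real.pi * ‖ξ‖) ^ (2 * i) := by
      intro y
      have h0 : 0 < ‖1 + ‖y‖‖ ^ (2 * q) := by
        rw [Real.norm_of_nonneg (by positivity : 0 ≤ 1 + ‖y‖)]
        positivity
      rw [norm_div, norm_pow, norm_pow, div_le_iff₀ h0]
      have h1 : ‖2 * Real.pi * inner ℝ (y 0) ξ‖ ≤ (2 * Real.pi * ‖ξ‖) * (1 + ‖y‖) := by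
        rw [norm_mul, Real.norm_of_nonneg (by positivity : (0 : ℝ) ≤ 2 * Real.pi)]
        have h2 : ‖inner ℝ (y 0) ξ‖ ≤ ‖y 0‖ * ‖ξ‖ := norm_inner_le_norm _ _
        have h3 : ‖y 0‖ ≤ ‖y‖ := norm_le_pi_norm y 0
        have h4 : ‖y 0‖ * ‖ξ‖ ≤ (1 + ‖y‖) * ‖ξ‖ :=
          mul_le_mul_of_nonneg_right (by linarith) (norm_nonneg _)
        calc 2 * Real.pi * ‖inner ℝ (y 0) ξ‖ ≤ 2 * Real.pi * ((1 + ‖y‖) * ‖ξ‖) :=
              mul_le_mul_of_nonneg_left (h2.trans h4) (by positivity)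
          _ = (2 * Real.pi * ‖ξ‖) * (1 + ‖y‖) := by ring
      have h5 : (1 : ℝ) ≤ 1 + ‖y‖ := by linarith [norm_nonneg y]
      have h6 : ‖1 + ‖y‖‖ = 1 + ‖y‖ := Real.norm_of_nonneg (by positivity)
      calc ‖2 * Real.pi * inner ℝ (y 0) ξ‖ ^ (2 * i) ≤ ((2 * Real.pi * ‖ξ‖) * (1 + ‖y‖)) ^ (2 * i) :=
            pow_le_pow_left₀ (norm_nonneg _) h1 _
        _ = (2 * Real.pi * ‖ξ‖) ^ (2 * i) * (1 + ‖y‖) ^ (2 * i) := mul_pow _ _ _
        _ ≤ (2 * Real.pi * ‖ξ‖) ^ (2 * i) * ‖1 + ‖y‖‖ ^ (2 * q) := by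
            rw [h6]
            exact mul_le_mul_of_nonneg_left (pow_le_pow_right₀ h5 (by omega)) (by positivity)
    have h := hkint.mul_bdd hc.aestronglyMeasurable (Filter.Eventually.of_forall hb)
    refine h.congr (Filter.Eventually.of_forall fun y => ?_)
    have h1 : (1 + ‖y‖) ^ (2 * q) ≠ 0 := by positivity
    show (1 + ‖y‖) ^ (2 * q) * km q 1 y *
      ((2 * Real.pi * inner ℝ (y 0) ξ) ^ (2 * i) / (1 + ‖y‖) ^ (2 * q)) = _
    field_simp
  set e : En q := EuclideanSpace.single 0 1 with he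
  have he1 : ‖e‖ = 1 := by simp [he]
  refine ⟨∫ y : Fin 1 → En q, km q 1 y * (2 * Real.pi * inner ℝ (y 0) e) ^ (2 * i), ?_,
    fun ξ => ⟨hint ξ, ?_⟩⟩
  · -- positivity
    have hnn : ∀ y : Fin 1 → En q, 0 ≤ km q 1 y * (2 * Real.pi * inner ℝ (y 0) e) ^ (2 * i) :=
      fun y => mul_nonneg (hk0 y) (by rw [pow_mul]; positivity)
    have hnn' : 0 ≤ fun y : Fin 1 → En q =>
        km q 1 y * (2 * Real.pi * inner ℝ (y 0) e) ^ (2 * i) := hnn
    rcases (integral_nonneg hnn').lt_or_eq with h | h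
    · exact h
    exfalso
    have h1 := (integral_eq_zero_iff_of_nonneg hnn' (hint e)).1 h.symm
    -- the hyperplane is null
    let ℓ : (Fin 1 → En q) →ₗ[ℝ] ℝ :=
      (innerₛₗ ℝ e).comp (LinearMap.proj (R := ℝ) (φ := fun _ : Fin 1 => En q) 0)
    have hℓ : ∀ y, ℓ y = inner ℝ e (y 0) := fun y => rfl
    have hnull : (volume : Measure (Fin 1 → En q)) (LinearMap.ker ℓ : Set (Fin 1 → En q)) = 0 := by
      refine Measure.addHaar_submodule _ _ fun htop => ?_
      have h2 : (fun _ => e : Fin 1 → En q) ∈ LinearMap.ker ℓ := by rw [htop]; trivial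
      rw [LinearMap.mem_ker, hℓ, real_inner_self_eq_norm_sq, he1] at h2
      norm_num at h2
    have h3 : km q 1 =ᵐ[volume] 0 := by
      have h4 : ∀ᵐ y : Fin 1 → En q, y ∉ (LinearMap.ker ℓ : Set (Fin 1 → En q)) :=
        measure_eq_zero_iff_ae_notMem.1 hnull
      filter_upwards [h1, h4] with y hy1 hy2
      have h5 : inner ℝ (y 0) e ≠ 0 := by
        intro h0
        apply hy2
        rw [SetLike.mem_coe, LinearMap.mem_ker, hℓ, real_inner_comm]
        exact h0
      have h6 : (2 * Real.pi * inner ℝ (y 0) e) ^ (2 * i) ≠ 0 :=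
        pow_ne_zero _ (mul_ne_zero (by positivity) h5)
      exact (mul_eq_zero.1 hy1).resolve_right h6
    rw [integral_congr_ae h3] at hkpos
    simp at hkpos
  · -- rotation invariance
    set v : En q := ‖ξ‖ • e with hv
    have hvn : ‖v‖ = ‖ξ‖ := by rw [hv, norm_smul, he1, mul_one, norm_norm]
    set U : En q ≃ₗᵢ[ℝ] En q := (Submodule.span ℝ {v - ξ})ᗮ.reflection with hU
    have hUv : U v = ξ := Submodule.reflection_sub hvn
    have h1 := (k1_mp U).integral_comp (k1_emb U)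
      (fun y : Fin 1 → En q => km q 1 y * (2 * Real.pi * inner ℝ (y 0) ξ) ^ (2 * i))
    rw [← h1]
    have h2 : ∀ y : Fin 1 → En q, km q 1 (fun i => U (y i)) *
        (2 * Real.pi * inner ℝ (U (y 0)) ξ) ^ (2 * i) =
        km q 1 y * (2 * Real.pi * inner ℝ (y 0) e) ^ (2 * i) * ‖ξ‖ ^ (2 * i) := by
      intro y
      have h3 : inner ℝ (U (y 0)) ξ = ‖ξ‖ * inner ℝ (y 0) e := by
        conv_lhs => rw [← hUv]
        rw [U.inner_map_map, hv, inner_smul_right]
      rw [k1_km, h3]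
      ring
    simp_rw [h2]
    exact integral_mul_const _ _

end Pool.Agent.Work.MP_f2af60_mp

end

section

/-!
# MP_f2af60_mp, item Q8: the iterated kernels
-/

namespace Pool.Agent.Work.MP_f2af60_mp

open MeasureTheory Metric Filter Topology

section GKK

/-! ### The cutoffs -/

/-- A cutoff which vanishes for `s ≤ e / 2` and equals one for `s ≥ e`. -/
noncomputable def gkkChi (e s : ℝ) : ℝ := min 1 (max 0 (2 * s / e - 1))

lemma gkkChi_cont (e : ℝ) : Continuous (gkkChi e) := by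
  unfold gkkChi
  fun_prop

lemma gkkChi_nonneg (e s : ℝ) : 0 ≤ gkkChi e s := le_min zero_le_one (le_max_left _ _)

lemma gkkChi_le (e s : ℝ) : gkkChi e s ≤ 1 := min_le_left _ _

lemma gkkChi_one {e s : ℝ} (he : 0 < e) (h : e ≤ s) : gkkChi e s = 1 := by
  unfold gkkChi
  apply min_eq_left
  apply le_max_of_le_right
  have : 1 ≤ s / e := by rwa [one_le_div he]
  have e1 : 2 * s / e = 2 * (s / e) := by ring
  rw [e1]
  linarith

lemma gkkChi_zero {e s : ℝ} (he : 0 < e) (h : s ≤ e / 2) : gkkChi e s = 0 := by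
  unfold gkkChi
  have : s / e ≤ 1 / 2 := by
    rw [div_le_iff₀ he]
    linarith
  have e1 : 2 * s / e = 2 * (s / e) := by ring
  rw [e1, max_eq_left (by linarith)]
  simp

/-- The truncated singularity. -/
noncomputable def gkkTau (q : ℕ) (e s : ℝ) : ℝ := ((max s e) ^ (2 * q + 1))⁻¹

lemma gkkTau_cont (q : ℕ) {e : ℝ} (he : 0 < e) : Continuous (gkkTau q e) := by
  unfold gkkTau
  refine Continuous.inv₀ (by fun_prop) fun s => ?_
  have : 0 < max s e := lt_max_of_lt_right he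
  positivity

lemma gkkTau_nonneg (q : ℕ) {e : ℝ} (he : 0 < e) (s : ℝ) : 0 ≤ gkkTau q e s := by
  unfold gkkTau
  have : 0 < max s e := lt_max_of_lt_right he
  positivity

lemma gkkTau_le (q : ℕ) {e : ℝ} (he : 0 < e) (s : ℝ) : gkkTau q e s ≤ (e ^ (2 * q + 1))⁻¹ := by
  unfold gkkTau
  apply inv_anti₀ (by positivity)
  exact pow_le_pow_left₀ he.le (le_max_right _ _) _

lemma gkkTau_le' (q : ℕ) {e s : ℝ} (hs : 0 < s) : gkkTau q e s ≤ (s ^ (2 * q + 1))⁻¹ := by
  unfold gkkTau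
  apply inv_anti₀ (by positivity)
  exact pow_le_pow_left₀ hs.le (le_max_left _ _) _

lemma gkkTau_eq (q : ℕ) {e s : ℝ} (h : e ≤ s) : gkkTau q e s = (s ^ (2 * q + 1))⁻¹ := by
  unfold gkkTau
  rw [max_eq_left h]

variable {K : Type} [MetricSpace K] [CompactSpace K] [MeasurableSpace K] [BorelSpace K]
  {μ : Measure K}

lemma gkk_ae_ne (hμ : NullSingletonClass μ) (y : K) : ∀ᵐ z ∂μ, z ≠ y := by
  have h : μ {y} = 0 := measure_singleton y
  rw [ae_iff]
  simpa using h

/-- The truncated kernel is continuous. -/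
lemma gkk_ke_cont (k : K → K → ℂ) (hkc : ContinuousOn (Function.uncurry k) {p | p.1 ≠ p.2})
    {e : ℝ} (he : 0 < e) :
    Continuous (fun p : K × K => (gkkChi e (dist p.1 p.2) : ℂ) * k p.1 p.2) := by
  have hopen : IsOpen {p : K × K | p.1 ≠ p.2} := isOpen_ne_fun continuous_fst continuous_snd
  rw [continuous_iff_continuousAt]
  intro p0
  by_cases h : p0.1 = p0.2
  · have hnear : ∀ᶠ p : K × K in 𝓝 p0, dist p.1 p.2 < e / 2 := by
      have hc : Continuous (fun p : K × K => dist p.1 p.2) := by fun_prop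
      have h0 : dist p0.1 p0.2 < e / 2 := by
        rw [h, dist_self]
        positivity
      exact (hc.tendsto p0).eventually (gt_mem_nhds h0)
    have hev : (fun p : K × K => (gkkChi e (dist p.1 p.2) : ℂ) * k p.1 p.2) =ᶠ[𝓝 p0]
        fun _ => 0 := by
      filter_upwards [hnear] with p hp
      rw [gkkChi_zero he hp.le]
      simp
    exact continuousAt_const.congr hev.symm
  · have h1 : ContinuousAt (Function.uncurry k) p0 := hkc.continuousAt (hopen.mem_nhds h)
    have h2 : ContinuousAt (fun p : K × K => (gkkChi e (dist p.1 p.2) : ℂ)) p0 := by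
      have := gkkChi_cont e
      fun_prop
    exact h2.mul h1

variable [IsFiniteMeasure μ]

lemma gkk_trunc_cont (q : ℕ) (V : K → ℝ) (hV : Measurable V) {M : ℝ} (hM : ∀ x, |V x| ≤ M)
    (h : C(K × K, ℂ)) (k : K → K → ℂ)
    (hkc : ContinuousOn (Function.uncurry k) {p | p.1 ≠ p.2}) {e : ℝ} (he : 0 < e) :
    Continuous (fun p : K × K => ∫ z, h (p.1, z) * (gkkTau q e (dist p.1 z) : ℂ) * (V z : ℂ) *
      ((gkkChi e (dist z p.2) : ℂ) * k z p.2) ∂μ) := by
  have hke := gkk_ke_cont k hkc he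
  obtain ⟨D, hD⟩ := isCompact_univ.exists_bound_of_continuousOn
    (hke.continuousOn (s := Set.univ))
  have hτ := gkkTau_cont q he
  refine continuous_of_dominated (bound := fun _ => ‖h‖ * (e ^ (2 * q + 1))⁻¹ * M * D) ?_ ?_ ?_ ?_
  · intro p
    have h1 : Measurable fun z => h (p.1, z) := (h.continuous.comp (by fun_prop)).measurable
    have h2 : Measurable fun z => (gkkTau q e (dist p.1 z) : ℂ) := by
      have : Continuous fun z => (gkkTau q e (dist p.1 z) : ℂ) := by fun_prop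
      exact this.measurable
    have h3 : Measurable fun z => ((gkkChi e (dist z p.2) : ℂ) * k z p.2) := by
      have : Continuous fun z => ((gkkChi e (dist z p.2) : ℂ) * k z p.2) :=
        hke.comp (by fun_prop : Continuous fun z : K => (z, p.2))
      exact this.measurable
    have h4 : Measurable fun z => (V z : ℂ) := by fun_prop
    exact (((h1.mul h2).mul h4).mul h3).aestronglyMeasurable
  · intro p
    refine Filter.Eventually.of_forall fun z => ?_
    have hM0 : 0 ≤ M := (abs_nonneg _).trans (hM z)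
    rw [norm_mul, norm_mul, norm_mul, Complex.norm_real, Complex.norm_real,
      Real.norm_of_nonneg (gkkTau_nonneg q he _), Real.norm_eq_abs]
    have h1 := h.norm_coe_le_norm (p.1, z)
    have h2 := gkkTau_le q he (dist p.1 z)
    have h3 := hD (z, p.2) (Set.mem_univ _)
    have h4 := gkkTau_nonneg q he (dist p.1 z)
    gcongr
    exact hM z
  · exact integrable_const _
  · refine Filter.Eventually.of_forall fun z => ?_
    have h3 : Continuous fun p : K × K => ((gkkChi e (dist z p.2) : ℂ) * k z p.2) :=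
      hke.comp (by fun_prop : Continuous fun p : K × K => (z, p.2))
    have h1 : Continuous fun p : K × K => h (p.1, z) := h.continuous.comp (by fun_prop)
    have h2 : Continuous fun p : K × K => (gkkTau q e (dist p.1 z) : ℂ) := by fun_prop
    exact ((h1.mul h2).mul continuous_const).mul h3

lemma gkk_integrable (q b : ℕ) (V : K → ℝ) (hV : Measurable V) {M : ℝ} (hM : ∀ x, |V x| ≤ M)
    (hμ : NullSingletonClass μ) (h : C(K × K, ℂ)) (k : K → K → ℂ) (hkm : Measurable (Function.uncurry k))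
    {B : ℝ} (hkb : ∀ z y, z ≠ y → ‖k z y‖ ≤ B * ((dist z y) ^ b)⁻¹) (x y : K)
    (hF : Integrable (fun z => ((dist x z) ^ (2 * q + 1))⁻¹ * ((dist z y) ^ b)⁻¹) μ) :
    Integrable (fun z => h (x, z) * ((((dist x z) ^ (2 * q + 1))⁻¹ : ℝ) : ℂ) * (V z : ℂ) *
      k z y) μ ∧
    ∀ᵐ z ∂μ, ‖h (x, z) * ((((dist x z) ^ (2 * q + 1))⁻¹ : ℝ) : ℂ) * (V z : ℂ) * k z y‖ ≤
      ‖h‖ * M * B * (((dist x z) ^ (2 * q + 1))⁻¹ * ((dist z y) ^ b)⁻¹) := by
  have hbd : ∀ᵐ z ∂μ, ‖h (x, z) * ((((dist x z) ^ (2 * q + 1))⁻¹ : ℝ) : ℂ) * (V z : ℂ) * k z y‖ ≤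
      ‖h‖ * M * B * (((dist x z) ^ (2 * q + 1))⁻¹ * ((dist z y) ^ b)⁻¹) := by
    filter_upwards [gkk_ae_ne hμ y] with z hz
    have hM0 : 0 ≤ M := (abs_nonneg _).trans (hM z)
    rw [norm_mul, norm_mul, norm_mul, Complex.norm_real, Complex.norm_real,
      Real.norm_of_nonneg (by positivity), Real.norm_eq_abs]
    have h1 := h.norm_coe_le_norm (x, z)
    have h2 := hkb z y hz
    have h3 := hM z
    calc ‖h (x, z)‖ * ((dist x z) ^ (2 * q + 1))⁻¹ * |V z| * ‖k z y‖ ≤
        ‖h‖ * ((dist x z) ^ (2 * q + 1))⁻¹ * M * (B * ((dist z y) ^ b)⁻¹) := by gcongr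
      _ = _ := by ring
  refine ⟨?_, hbd⟩
  refine (hF.const_mul (‖h‖ * M * B)).mono' ?_ hbd
  have h1 : Measurable fun z => h (x, z) := (h.continuous.comp (by fun_prop)).measurable
  have h2 : Measurable fun z => ((((dist x z) ^ (2 * q + 1))⁻¹ : ℝ) : ℂ) := by fun_prop
  have h3 : Measurable fun z => k z y := hkm.comp (by fun_prop : Measurable fun z : K => (z, y))
  have h4 : Measurable fun z => (V z : ℂ) := by fun_prop
  exact (((h1.mul h2).mul h4).mul h3).aestronglyMeasurable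

/-- The kernel integral is continuous at `p0` if the singular parts are uniformly small. -/
lemma gkk_contAt (q b : ℕ) (V : K → ℝ) (hV : Measurable V) {M : ℝ} (hM : ∀ x, |V x| ≤ M)
    (hμ : NullSingletonClass μ) (h : C(K × K, ℂ)) (k : K → K → ℂ)
    (hkm : Measurable (Function.uncurry k))
    (hkc : ContinuousOn (Function.uncurry k) {p | p.1 ≠ p.2}) {B : ℝ} (hB : 0 ≤ B)
    (hkb : ∀ z y, z ≠ y → ‖k z y‖ ≤ B * ((dist z y) ^ b)⁻¹) (p0 : K × K)
    (hsmall : ∀ ε > 0, ∃ e > 0, ∀ᶠ p : K × K in 𝓝 p0,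
      Integrable (fun z => ((dist p.1 z) ^ (2 * q + 1))⁻¹ * ((dist z p.2) ^ b)⁻¹) μ ∧
      (∫ z in ball p.1 e, ((dist p.1 z) ^ (2 * q + 1))⁻¹ * ((dist z p.2) ^ b)⁻¹ ∂μ) +
      (∫ z in ball p.2 e, ((dist p.1 z) ^ (2 * q + 1))⁻¹ * ((dist z p.2) ^ b)⁻¹ ∂μ) ≤ ε) :
    ContinuousAt (fun p : K × K => ∫ z, h (p.1, z) * ((((dist p.1 z) ^ (2 * q + 1))⁻¹ : ℝ) : ℂ) *
      (V z : ℂ) * k z p.2 ∂μ) p0 := by
  have hM0 : 0 ≤ M := (abs_nonneg _).trans (hM p0.1)
  refine continuousAt_of_locally_uniform_approx_of_continuousAt ?_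
  intro u hu
  obtain ⟨ε, hε, hεu⟩ := Metric.mem_uniformity_dist.1 hu
  set c : ℝ := 2 * (‖h‖ * M * B) with hc
  have hc0 : 0 ≤ c := by positivity
  obtain ⟨e, he, hev⟩ := hsmall (ε / (c + 1) / 2) (by positivity)
  refine ⟨_, hev, fun p : K × K => ∫ z, h (p.1, z) * (gkkTau q e (dist p.1 z) : ℂ) * (V z : ℂ) *
      ((gkkChi e (dist z p.2) : ℂ) * k z p.2) ∂μ,
      (gkk_trunc_cont q V hV hM h k hkc he).continuousAt, ?_⟩
  rintro p ⟨hF, hI⟩
  apply hεu
  have hke := gkk_ke_cont k hkc he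
  obtain ⟨D, hD⟩ := isCompact_univ.exists_bound_of_continuousOn
    (hke.continuousOn (s := Set.univ))
  obtain ⟨i1, -⟩ := gkk_integrable q b V hV hM hμ h k hkm hkb p.1 p.2 hF
  have hτ := gkkTau_cont q he
  have i2 : Integrable (fun z => h (p.1, z) * (gkkTau q e (dist p.1 z) : ℂ) * (V z : ℂ) *
      ((gkkChi e (dist z p.2) : ℂ) * k z p.2)) μ := by
    refine Integrable.of_bound (C := ‖h‖ * (e ^ (2 * q + 1))⁻¹ * M * D) ?_ ?_
    · have h1 : Measurable fun z => h (p.1, z) := (h.continuous.comp (by fun_prop)).measurable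
      have h2 : Measurable fun z => (gkkTau q e (dist p.1 z) : ℂ) := by
        have : Continuous fun z => (gkkTau q e (dist p.1 z) : ℂ) := by fun_prop
        exact this.measurable
      have h3 : Measurable fun z => ((gkkChi e (dist z p.2) : ℂ) * k z p.2) := by
        have : Continuous fun z => ((gkkChi e (dist z p.2) : ℂ) * k z p.2) :=
          hke.comp (by fun_prop : Continuous fun z : K => (z, p.2))
        exact this.measurable
      have h4 : Measurable fun z => (V z : ℂ) := by fun_prop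
      exact (((h1.mul h2).mul h4).mul h3).aestronglyMeasurable
    · refine Filter.Eventually.of_forall fun z => ?_
      rw [norm_mul, norm_mul, norm_mul, Complex.norm_real, Complex.norm_real,
        Real.norm_of_nonneg (gkkTau_nonneg q he _), Real.norm_eq_abs]
      have h1 := h.norm_coe_le_norm (p.1, z)
      have h2 := gkkTau_le q he (dist p.1 z)
      have h3 := hD (z, p.2) (Set.mem_univ _)
      have h4 := gkkTau_nonneg q he (dist p.1 z)
      gcongr
      exact hM z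
  rw [dist_eq_norm, ← integral_sub i1 i2]
  set F : K → ℝ := fun z => ((dist p.1 z) ^ (2 * q + 1))⁻¹ * ((dist z p.2) ^ b)⁻¹ with hFd
  have hF0 : ∀ z, 0 ≤ F z := fun z => by rw [hFd]; positivity
  -- pointwise bound
  have hpt : ∀ᵐ z ∂μ, ‖h (p.1, z) * ((((dist p.1 z) ^ (2 * q + 1))⁻¹ : ℝ) : ℂ) * (V z : ℂ) *
      k z p.2 - h (p.1, z) * (gkkTau q e (dist p.1 z) : ℂ) * (V z : ℂ) *
      ((gkkChi e (dist z p.2) : ℂ) * k z p.2)‖ ≤
      c * ((ball p.1 e).indicator F z + (ball p.2 e).indicator F z) := by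
    filter_upwards [gkk_ae_ne hμ p.1, gkk_ae_ne hμ p.2] with z hz1 hz2
    have hd1 : 0 < dist p.1 z := dist_pos.2 (Ne.symm hz1)
    have hd2 : 0 < dist z p.2 := dist_pos.2 hz2
    have hV1 := hM z
    have h1 := h.norm_coe_le_norm (p.1, z)
    have h2 := hkb z p.2 hz2
    have hi1 : 0 ≤ (ball p.1 e).indicator F z := Set.indicator_nonneg (fun _ _ => hF0 _) z
    have hi2 : 0 ≤ (ball p.2 e).indicator F z := Set.indicator_nonneg (fun _ _ => hF0 _) z
    by_cases hfar : e ≤ dist p.1 z ∧ e ≤ dist z p.2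
    · rw [gkkTau_eq q hfar.1, gkkChi_one he hfar.2, Complex.ofReal_one, one_mul, sub_self,
        norm_zero]
      positivity
    · have hge : F z ≤ (ball p.1 e).indicator F z + (ball p.2 e).indicator F z := by
        by_cases h5 : e ≤ dist p.1 z
        · have h6 : z ∈ ball p.2 e := by
            rw [mem_ball]
            by_contra h7
            exact hfar ⟨h5, not_lt.1 h7⟩
          rw [Set.indicator_of_mem h6]
          linarith
        · have h6 : z ∈ ball p.1 e := by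
            rw [mem_ball, dist_comm]
            exact not_le.1 h5
          rw [Set.indicator_of_mem h6]
          linarith
      have e1 : h (p.1, z) * ((((dist p.1 z) ^ (2 * q + 1))⁻¹ : ℝ) : ℂ) * (V z : ℂ) *
          k z p.2 - h (p.1, z) * (gkkTau q e (dist p.1 z) : ℂ) * (V z : ℂ) *
          ((gkkChi e (dist z p.2) : ℂ) * k z p.2) =
          h (p.1, z) * (V z : ℂ) * k z p.2 * (((((dist p.1 z) ^ (2 * q + 1))⁻¹ -
            gkkTau q e (dist p.1 z) * gkkChi e (dist z p.2) : ℝ)) : ℂ) := by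
        push_cast
        ring
      rw [e1, norm_mul, norm_mul, norm_mul, Complex.norm_real, Complex.norm_real,
        Real.norm_eq_abs, Real.norm_eq_abs]
      have h8 : |((dist p.1 z) ^ (2 * q + 1))⁻¹ -
          gkkTau q e (dist p.1 z) * gkkChi e (dist z p.2)| ≤ ((dist p.1 z) ^ (2 * q + 1))⁻¹ := by
        have a1 := gkkTau_nonneg q he (dist p.1 z)
        have a2 := gkkTau_le' q (e := e) hd1
        have a3 := gkkChi_nonneg e (dist z p.2)
        have a4 := gkkChi_le e (dist z p.2)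
        have a5 : 0 ≤ gkkTau q e (dist p.1 z) * gkkChi e (dist z p.2) := mul_nonneg a1 a3
        have a6 : gkkTau q e (dist p.1 z) * gkkChi e (dist z p.2) ≤
            ((dist p.1 z) ^ (2 * q + 1))⁻¹ :=
          (mul_le_of_le_one_right a1 a4).trans a2
        rw [abs_of_nonneg (by linarith)]
        linarith
      calc ‖h (p.1, z)‖ * |V z| * ‖k z p.2‖ * |((dist p.1 z) ^ (2 * q + 1))⁻¹ -
          gkkTau q e (dist p.1 z) * gkkChi e (dist z p.2)| ≤
          ‖h‖ * M * (B * ((dist z p.2) ^ b)⁻¹) * ((dist p.1 z) ^ (2 * q + 1))⁻¹ := by gcongr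
        _ = ‖h‖ * M * B * F z := by rw [hFd]; ring
        _ ≤ c * F z := by
            rw [hc]
            have : 0 ≤ ‖h‖ * M * B * F z := mul_nonneg (by positivity) (hF0 z)
            linarith
        _ ≤ _ := mul_le_mul_of_nonneg_left hge hc0
  have j1 : Integrable ((ball p.1 e).indicator F) μ := hF.indicator measurableSet_ball
  have j2 : Integrable ((ball p.2 e).indicator F) μ := hF.indicator measurableSet_ball
  have hle := norm_integral_le_of_norm_le ((j1.add j2).const_mul c) hpt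
  have e2 : ∫ z, c * ((ball p.1 e).indicator F z + (ball p.2 e).indicator F z) ∂μ =
      c * ((∫ z in ball p.1 e, F z ∂μ) + ∫ z in ball p.2 e, F z ∂μ) := by
    rw [integral_const_mul, integral_add j1 j2, integral_indicator measurableSet_ball,
      integral_indicator measurableSet_ball]
  have hle2 : ‖∫ z, (h (p.1, z) * ((((dist p.1 z) ^ (2 * q + 1))⁻¹ : ℝ) : ℂ) * (V z : ℂ) *
      k z p.2 - h (p.1, z) * (gkkTau q e (dist p.1 z) : ℂ) * (V z : ℂ) *
      ((gkkChi e (dist z p.2) : ℂ) * k z p.2)) ∂μ‖ ≤ c * (ε / (c + 1) / 2) := by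
    refine hle.trans (le_of_eq_of_le e2 ?_)
    exact mul_le_mul_of_nonneg_left hI hc0
  refine lt_of_le_of_lt hle2 ?_
  have : c * (ε / (c + 1) / 2) = (c / (c + 1)) * (ε / 2) := by
    field_simp
  rw [this]
  have h9 : c / (c + 1) ≤ 1 := by
    rw [div_le_one (by positivity)]
    linarith
  calc c / (c + 1) * (ε / 2) ≤ 1 * (ε / 2) := mul_le_mul_of_nonneg_right h9 (by positivity)
    _ < ε := by linarith

/-! ### Smallness -/

/-- Away from the diagonal. -/
lemma gkk_small_off (q b : ℕ) (hb : b ≤ 2 * q + 2) {D : ℝ} (hD : 0 < D)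
    (hint : ∀ x, ∀ b ≤ 2 * q + 2, Integrable (fun y => ((dist x y) ^ b)⁻¹) μ)
    (hgr : ∀ x, ∀ e > 0, ∀ b ≤ 2 * q + 2, ∫ y in ball x e, ((dist x y) ^ b)⁻¹ ∂μ ≤
        D * e ^ (2 * q + 3 - b))
    (hF : ∀ x y : K, x ≠ y →
      Integrable (fun z => ((dist x z) ^ (2 * q + 1))⁻¹ * ((dist z y) ^ b)⁻¹) μ)
    (p0 : K × K) (h0 : p0.1 ≠ p0.2) :
    ∀ ε > 0, ∃ e > 0, ∀ᶠ p : K × K in 𝓝 p0,
      Integrable (fun z => ((dist p.1 z) ^ (2 * q + 1))⁻¹ * ((dist z p.2) ^ b)⁻¹) μ ∧
      (∫ z in ball p.1 e, ((dist p.1 z) ^ (2 * q + 1))⁻¹ * ((dist z p.2) ^ b)⁻¹ ∂μ) +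
      (∫ z in ball p.2 e, ((dist p.1 z) ^ (2 * q + 1))⁻¹ * ((dist z p.2) ^ b)⁻¹ ∂μ) ≤ ε := by
  intro ε hε
  have hd0 : 0 < dist p0.1 p0.2 := dist_pos.2 h0
  set ρ := dist p0.1 p0.2 / 4 with hρ
  have hρ0 : 0 < ρ := by positivity
  set c := ((ρ ^ b)⁻¹ + (ρ ^ (2 * q + 1))⁻¹) * D with hc
  have hc0 : 0 < c := by positivity
  set e := min (min ρ 1) (ε / c) with he
  have he0 : 0 < e := lt_min (lt_min hρ0 one_pos) (by positivity)
  have heρ : e ≤ ρ := (min_le_left _ _).trans (min_le_left _ _)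
  have he1 : e ≤ 1 := (min_le_left _ _).trans (min_le_right _ _)
  have heε : e ≤ ε / c := min_le_right _ _
  refine ⟨e, he0, ?_⟩
  filter_upwards [ball_mem_nhds p0 hρ0] with p hp
  have hp1 : dist p.1 p0.1 < ρ := lt_of_le_of_lt (le_max_left _ _) (mem_ball.1 hp)
  have hp2 : dist p.2 p0.2 < ρ := lt_of_le_of_lt (le_max_right _ _) (mem_ball.1 hp)
  have hpd : 2 * ρ ≤ dist p.1 p.2 := by
    have h1 : dist p0.1 p0.2 ≤ dist p0.1 p.1 + dist p.1 p.2 + dist p.2 p0.2 :=
      dist_triangle4 _ _ _ _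
    rw [dist_comm p0.1 p.1] at h1
    have : dist p0.1 p0.2 = 4 * ρ := by rw [hρ]; ring
    linarith
  have hpne : p.1 ≠ p.2 := by
    intro h
    rw [h, dist_self] at hpd
    linarith
  have hFp := hF p.1 p.2 hpne
  refine ⟨hFp, ?_⟩
  have k1 : ∫ z in ball p.1 e, ((dist p.1 z) ^ (2 * q + 1))⁻¹ * ((dist z p.2) ^ b)⁻¹ ∂μ ≤
      (ρ ^ b)⁻¹ * D * e := by
    have h1 : ∫ z in ball p.1 e, ((dist p.1 z) ^ (2 * q + 1))⁻¹ * ((dist z p.2) ^ b)⁻¹ ∂μ ≤
        ∫ z in ball p.1 e, (ρ ^ b)⁻¹ * ((dist p.1 z) ^ (2 * q + 1))⁻¹ ∂μ := by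
      refine setIntegral_mono_on hFp.integrableOn
        (((hint p.1 (2 * q + 1) (by omega)).const_mul _).integrableOn) measurableSet_ball ?_
      intro z hz
      rw [mem_ball] at hz
      have h2 : ρ ≤ dist z p.2 := by
        have := dist_triangle p.1 z p.2
        rw [dist_comm p.1 z] at this
        linarith
      rw [mul_comm]
      refine mul_le_mul_of_nonneg_right ?_ (by positivity)
      exact inv_anti₀ (by positivity) (pow_le_pow_left₀ hρ0.le h2 _)
    refine h1.trans ?_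
    rw [integral_const_mul, mul_assoc]
    refine mul_le_mul_of_nonneg_left ?_ (by positivity)
    refine (hgr p.1 e he0 (2 * q + 1) (by omega)).trans ?_
    refine mul_le_mul_of_nonneg_left ?_ hD.le
    exact pow_le_of_le_one he0.le he1 (by omega)
  have k2 : ∫ z in ball p.2 e, ((dist p.1 z) ^ (2 * q + 1))⁻¹ * ((dist z p.2) ^ b)⁻¹ ∂μ ≤
      (ρ ^ (2 * q + 1))⁻¹ * D * e := by
    have h1 : ∫ z in ball p.2 e, ((dist p.1 z) ^ (2 * q + 1))⁻¹ * ((dist z p.2) ^ b)⁻¹ ∂μ ≤
        ∫ z in ball p.2 e, (ρ ^ (2 * q + 1))⁻¹ * ((dist p.2 z) ^ b)⁻¹ ∂μ := by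
      refine setIntegral_mono_on hFp.integrableOn
        (((hint p.2 b hb).const_mul _).integrableOn) measurableSet_ball ?_
      intro z hz
      rw [mem_ball] at hz
      have h2 : ρ ≤ dist p.1 z := by
        have := dist_triangle p.1 z p.2
        linarith
      rw [dist_comm z p.2]
      refine mul_le_mul_of_nonneg_right ?_ (by positivity)
      exact inv_anti₀ (by positivity) (pow_le_pow_left₀ hρ0.le h2 _)
    refine h1.trans ?_
    rw [integral_const_mul, mul_assoc]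
    refine mul_le_mul_of_nonneg_left ?_ (by positivity)
    refine (hgr p.2 e he0 b hb).trans ?_
    refine mul_le_mul_of_nonneg_left ?_ hD.le
    exact pow_le_of_le_one he0.le he1 (by omega)
  have k3 : c * e ≤ ε := by
    rw [le_div_iff₀ hc0] at heε
    linarith
  have e3 : c * e = (ρ ^ b)⁻¹ * D * e + (ρ ^ (2 * q + 1))⁻¹ * D * e := by
    rw [hc]
    ring
  linarith

lemma gkk_young (q : ℕ) {s t : ℝ} (hs : 0 ≤ s) (ht : 0 ≤ t) :
    (s ^ (2 * q + 1))⁻¹ * (t ^ 1)⁻¹ ≤ (s ^ (2 * q + 2))⁻¹ + (t ^ (2 * q + 2))⁻¹ := by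
  rcases hs.eq_or_lt with rfl | hs
  · simp
    positivity
  rcases ht.eq_or_lt with rfl | ht
  · simp
    positivity
  rcases le_total s t with h | h
  · have h1 : (s ^ (2 * q + 1))⁻¹ * (t ^ 1)⁻¹ ≤ (s ^ (2 * q + 1))⁻¹ * (s ^ 1)⁻¹ := by gcongr
    have h2 : (s ^ (2 * q + 1))⁻¹ * (s ^ 1)⁻¹ = (s ^ (2 * q + 2))⁻¹ := by
      rw [← mul_inv, ← pow_add]
    have h3 : 0 ≤ (t ^ (2 * q + 2))⁻¹ := by positivity
    linarith
  · have h1 : (s ^ (2 * q + 1))⁻¹ * (t ^ 1)⁻¹ ≤ (t ^ (2 * q + 1))⁻¹ * (t ^ 1)⁻¹ := by gcongr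
    have h2 : (t ^ (2 * q + 1))⁻¹ * (t ^ 1)⁻¹ = (t ^ (2 * q + 2))⁻¹ := by
      rw [← mul_inv, ← pow_add]
    have h3 : 0 ≤ (s ^ (2 * q + 2))⁻¹ := by positivity
    linarith

/-- The integral of the singularity at `y` over a ball around any other point. -/
lemma gkk_ball (q : ℕ) {D : ℝ} (hD : 0 < D)
    (hint : ∀ x, ∀ b ≤ 2 * q + 2, Integrable (fun y => ((dist x y) ^ b)⁻¹) μ)
    (hgr : ∀ x, ∀ e > 0, ∀ b ≤ 2 * q + 2, ∫ y in ball x e, ((dist x y) ^ b)⁻¹ ∂μ ≤
        D * e ^ (2 * q + 3 - b)) (x y : K) {e : ℝ} (he : 0 < e) :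
    ∫ z in ball x e, ((dist y z) ^ (2 * q + 2))⁻¹ ∂μ ≤ 3 * D * e := by
  have hi := hint y (2 * q + 2) le_rfl
  by_cases h : dist x y < 2 * e
  · have hsub : ball x e ⊆ ball y (3 * e) := by
      intro z hz
      rw [mem_ball] at hz ⊢
      have := dist_triangle z x y
      linarith
    have h1 : ∫ z in ball x e, ((dist y z) ^ (2 * q + 2))⁻¹ ∂μ ≤
        ∫ z in ball y (3 * e), ((dist y z) ^ (2 * q + 2))⁻¹ ∂μ := by
      refine setIntegral_mono_set hi.integrableOn ?_ hsub.eventuallyLE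
      exact Filter.Eventually.of_forall fun z => by positivity
    have h2 := hgr y (3 * e) (by positivity) (2 * q + 2) le_rfl
    have h3 : 2 * q + 3 - (2 * q + 2) = 1 := by omega
    rw [h3, pow_one] at h2
    linarith
  · push Not at h
    have h1 : ∫ z in ball x e, ((dist y z) ^ (2 * q + 2))⁻¹ ∂μ ≤
        ∫ z in ball x e, (e ^ (2 * q + 2))⁻¹ * ((dist x z) ^ 0)⁻¹ ∂μ := by
      refine setIntegral_mono_on hi.integrableOn
        (((hint x 0 (by omega)).const_mul _).integrableOn) measurableSet_ball ?_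
      intro z hz
      rw [mem_ball] at hz
      have h2 : e ≤ dist y z := by
        have := dist_triangle x z y
        rw [dist_comm x z, dist_comm z y] at this
        linarith
      rw [pow_zero, inv_one, mul_one]
      exact inv_anti₀ (by positivity) (pow_le_pow_left₀ he.le h2 _)
    refine h1.trans ?_
    rw [integral_const_mul]
    have h2 := hgr x e he 0 (by omega)
    have h3 : (e ^ (2 * q + 2))⁻¹ * ∫ z in ball x e, ((dist x z) ^ 0)⁻¹ ∂μ ≤
        (e ^ (2 * q + 2))⁻¹ * (D * e ^ (2 * q + 3 - 0)) :=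
      mul_le_mul_of_nonneg_left h2 (by positivity)
    have h4 : (e ^ (2 * q + 2))⁻¹ * (D * e ^ (2 * q + 3 - 0)) = D * e := by
      rw [Nat.sub_zero, pow_succ e (2 * q + 2)]
      field_simp
    have h5 : 0 < D * e := by positivity
    linarith

/-- The case of the exponent one: uniformly small. -/
lemma gkk_small_one (q : ℕ) {D : ℝ} (hD : 0 < D)
    (hint : ∀ x, ∀ b ≤ 2 * q + 2, Integrable (fun y => ((dist x y) ^ b)⁻¹) μ)
    (hgr : ∀ x, ∀ e > 0, ∀ b ≤ 2 * q + 2, ∫ y in ball x e, ((dist x y) ^ b)⁻¹ ∂μ ≤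
        D * e ^ (2 * q + 3 - b))
    (hF : ∀ x y : K,
      Integrable (fun z => ((dist x z) ^ (2 * q + 1))⁻¹ * ((dist z y) ^ 1)⁻¹) μ)
    (p0 : K × K) :
    ∀ ε > 0, ∃ e > 0, ∀ᶠ p : K × K in 𝓝 p0,
      Integrable (fun z => ((dist p.1 z) ^ (2 * q + 1))⁻¹ * ((dist z p.2) ^ 1)⁻¹) μ ∧
      (∫ z in ball p.1 e, ((dist p.1 z) ^ (2 * q + 1))⁻¹ * ((dist z p.2) ^ 1)⁻¹ ∂μ) +
      (∫ z in ball p.2 e, ((dist p.1 z) ^ (2 * q + 1))⁻¹ * ((dist z p.2) ^ 1)⁻¹ ∂μ) ≤ ε := by
  intro ε hε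
  refine ⟨ε / (12 * D), by positivity, Filter.Eventually.of_forall fun p => ?_⟩
  have hFp := hF p.1 p.2
  refine ⟨hFp, ?_⟩
  set e := ε / (12 * D) with he
  have he0 : 0 < e := by positivity
  have key : ∀ x : K, ∫ z in ball x e, ((dist p.1 z) ^ (2 * q + 1))⁻¹ *
      ((dist z p.2) ^ 1)⁻¹ ∂μ ≤ 6 * D * e := by
    intro x
    have i1 := hint p.1 (2 * q + 2) le_rfl
    have i2 := hint p.2 (2 * q + 2) le_rfl
    have h1 : ∫ z in ball x e, ((dist p.1 z) ^ (2 * q + 1))⁻¹ * ((dist z p.2) ^ 1)⁻¹ ∂μ ≤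
        ∫ z in ball x e, (((dist p.1 z) ^ (2 * q + 2))⁻¹ + ((dist p.2 z) ^ (2 * q + 2))⁻¹) ∂μ := by
      refine setIntegral_mono hFp.integrableOn (i1.add i2).integrableOn ?_
      intro z
      simp only
      rw [dist_comm p.2 z]
      exact gkk_young q dist_nonneg dist_nonneg
    rw [integral_add i1.integrableOn i2.integrableOn] at h1
    have h2 := gkk_ball q hD hint hgr x p.1 he0
    have h3 := gkk_ball q hD hint hgr x p.2 he0
    linarith
  have h1 := key p.1
  have h2 := key p.2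
  have h3 : 12 * D * e = ε := by
    rw [he]
    field_simp
  linarith

end GKK

lemma gkk_meas {K : Type} [MetricSpace K] [CompactSpace K] [MeasurableSpace K] [BorelSpace K]
    (q : ℕ) (μ : Measure K) [IsFiniteMeasure μ] (V : K → ℝ) (hV : Measurable V)
    (h l : C(K × K, ℂ)) : ∀ m, Measurable (Function.uncurry (KK q μ V h l m)) := by
  intro m
  induction m with
  | zero =>
    have e : Function.uncurry (KK q μ V h l 0) = fun p : K × K =>
        l p * ((((dist p.1 p.2) ^ (2 * q - 1))⁻¹ : ℝ) : ℂ) := rfl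
    rw [e]
    have h1 : Measurable fun p : K × K => l p := l.continuous.measurable
    have h2 : Measurable fun p : K × K => ((((dist p.1 p.2) ^ (2 * q - 1))⁻¹ : ℝ) : ℂ) := by
      fun_prop
    exact h1.mul h2
  | succ m ih =>
    have e : Function.uncurry (KK q μ V h l (m + 1)) = fun p : K × K =>
        ∫ z, h (p.1, z) * ((((dist p.1 z) ^ (2 * q + 1))⁻¹ : ℝ) : ℂ) * (V z : ℂ) *
          KK q μ V h l m z p.2 ∂μ := rfl
    rw [e]
    have h1 : Measurable fun w : (K × K) × K => h (w.1.1, w.2) :=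
      (h.continuous.comp (by fun_prop)).measurable
    have h2 : Measurable fun w : (K × K) × K =>
        ((((dist w.1.1 w.2) ^ (2 * q + 1))⁻¹ : ℝ) : ℂ) := by
      fun_prop
    have h3 : Measurable fun w : (K × K) × K => KK q μ V h l m w.2 w.1.2 :=
      ih.comp (by fun_prop : Measurable fun w : (K × K) × K => (w.2, w.1.2))
    have h4 : Measurable fun w : (K × K) × K => (V w.2 : ℂ) := by fun_prop
    have h5 := (((h1.mul h2).mul h4).mul h3).stronglyMeasurable
    exact (h5.integral_prod_right' (ν := μ)).measurable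

/-- Item Q8. -/
theorem kkFacts (hR : RieszQ) : KKFacts := by
  intro q hq K _ _ _ _ μ C hS V hV M hM
  have hfin := hS.fin
  obtain ⟨D, hD, hR1, hR2, hR3, hR4, -⟩ := hR q hq K μ C hS
  have hint : ∀ x, ∀ b ≤ 2 * q + 2, Integrable (fun y => ((dist x y) ^ b)⁻¹) μ :=
    fun x b hb => (hR1 x b hb).1
  set A : ℝ := (|M| + 1) * (D + 1) with hA
  have hA1 : 1 ≤ A := by
    rw [hA]
    nlinarith [abs_nonneg M]
  have hMD : |M| * D ≤ A := by
    rw [hA]
    nlinarith [abs_nonneg M]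
  refine ⟨A ^ q, by positivity, fun h l => ?_⟩
  have hmeas := gkk_meas q μ V hV h l
  -- one step bounds
  have hstepI : ∀ m < q, (∀ z y, z ≠ y → ‖KK q μ V h l m z y‖ ≤
      A ^ m * ‖h‖ ^ m * ‖l‖ * ((dist z y) ^ (2 * q - 1 - 2 * m))⁻¹) →
      ∀ x y, (x ≠ y ∨ m + 1 = q) →
      Integrable (fun z => ((dist x z) ^ (2 * q + 1))⁻¹ *
        ((dist z y) ^ (2 * q - 1 - 2 * m))⁻¹) μ := by
    intro m hm _ x y hxy
    by_cases h1 : m + 1 = q
    · have e : 2 * q - 1 - 2 * m = 1 := by omega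
      rw [e]
      simpa using (hR4 x y).1
    · rcases hxy with hxy | hxy
      · exact (hR3 (2 * q - 1 - 2 * m) (by omega) (by omega) x y hxy).1
      · exact absurd hxy h1
  have hnorm : ∀ m < q, (∀ z y, z ≠ y → ‖KK q μ V h l m z y‖ ≤
      A ^ m * ‖h‖ ^ m * ‖l‖ * ((dist z y) ^ (2 * q - 1 - 2 * m))⁻¹) →
      ∀ x y, (x ≠ y ∨ m + 1 = q) → ∀ D', ∫ z, ((dist x z) ^ (2 * q + 1))⁻¹ *
        ((dist z y) ^ (2 * q - 1 - 2 * m))⁻¹ ∂μ ≤ D * D' → 0 ≤ D' →
      ‖KK q μ V h l (m + 1) x y‖ ≤ A ^ (m + 1) * ‖h‖ ^ (m + 1) * ‖l‖ * D' := by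
    intro m hm hb x y hxy D' hD' hD'0
    have hF := hstepI m hm hb x y hxy
    obtain ⟨-, i2⟩ := gkk_integrable q (2 * q - 1 - 2 * m) V hV hM hS.noat h
      (KK q μ V h l m) (hmeas m) hb x y hF
    have hM0 : 0 ≤ M := (abs_nonneg _).trans (hM x)
    have h1 := norm_integral_le_of_norm_le (hF.const_mul (‖h‖ * M * (A ^ m * ‖h‖ ^ m * ‖l‖))) i2
    rw [integral_const_mul] at h1
    have h2 : ‖h‖ * M * (A ^ m * ‖h‖ ^ m * ‖l‖) * ∫ z, ((dist x z) ^ (2 * q + 1))⁻¹ *
        ((dist z y) ^ (2 * q - 1 - 2 * m))⁻¹ ∂μ ≤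
        ‖h‖ * M * (A ^ m * ‖h‖ ^ m * ‖l‖) * (D * D') :=
      mul_le_mul_of_nonneg_left hD' (by positivity)
    refine (h1.trans h2).trans ?_
    have h3 : M * D ≤ A := by
      rw [abs_of_nonneg hM0] at hMD
      exact hMD
    calc ‖h‖ * M * (A ^ m * ‖h‖ ^ m * ‖l‖) * (D * D') =
        (M * D) * (A ^ m * ‖h‖ ^ (m + 1) * ‖l‖ * D') := by ring
      _ ≤ A * (A ^ m * ‖h‖ ^ (m + 1) * ‖l‖ * D') :=
          mul_le_mul_of_nonneg_right h3 (by positivity)
      _ = _ := by ring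
  have main : ∀ m, m < q → (∀ x y, x ≠ y → ‖KK q μ V h l m x y‖ ≤
        A ^ m * ‖h‖ ^ m * ‖l‖ * ((dist x y) ^ (2 * q - 1 - 2 * m))⁻¹) ∧
      ContinuousOn (Function.uncurry (KK q μ V h l m)) {p | p.1 ≠ p.2} := by
    intro m
    induction m with
    | zero =>
      intro _
      constructor
      · intro x y hxy
        have e : KK q μ V h l 0 x y = l (x, y) * ((((dist x y) ^ (2 * q - 1))⁻¹ : ℝ) : ℂ) := rfl
        rw [e, norm_mul, Complex.norm_real, Real.norm_of_nonneg (by positivity)]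
        have h1 := l.norm_coe_le_norm (x, y)
        simp only [pow_zero, mul_zero, Nat.sub_zero, one_mul]
        exact mul_le_mul_of_nonneg_right h1 (by positivity)
      · have e : Function.uncurry (KK q μ V h l 0) = fun p : K × K =>
            l p * ((((dist p.1 p.2) ^ (2 * q - 1))⁻¹ : ℝ) : ℂ) := rfl
        rw [e]
        refine l.continuous.continuousOn.mul ?_
        refine Complex.continuous_ofReal.comp_continuousOn ?_
        refine ContinuousOn.inv₀ (by fun_prop) ?_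
        intro p hp
        have : dist p.1 p.2 ≠ 0 := dist_ne_zero.2 hp
        positivity
    | succ m ih =>
      intro hm
      obtain ⟨ih1, ih2⟩ := ih (by omega)
      constructor
      · intro x y hxy
        have e : 2 * q - 1 - 2 * (m + 1) = 2 * q - 1 - 2 * m - 2 := by omega
        rw [e]
        exact hnorm m (by omega) ih1 x y (Or.inl hxy) _
          (hR3 (2 * q - 1 - 2 * m) (by omega) (by omega) x y hxy).2 (by positivity)
      · have hopen : IsOpen {p : K × K | p.1 ≠ p.2} := isOpen_ne_fun continuous_fst continuous_snd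
        intro p0 hp0
        apply ContinuousAt.continuousWithinAt
        exact gkk_contAt q (2 * q - 1 - 2 * m) V hV hM hS.noat h (KK q μ V h l m) (hmeas m) ih2
          (by positivity) ih1 p0
          (gkk_small_off q (2 * q - 1 - 2 * m) (by omega) hD hint hR2
            (fun x y hxy => hstepI m (by omega) ih1 x y (Or.inl hxy)) p0 hp0)
  have hAq : ∀ m ≤ q, A ^ m ≤ A ^ q := fun m hm => pow_le_pow_right₀ hA1 hm
  obtain ⟨q', rfl⟩ : ∃ q', q = q' + 1 := ⟨q - 1, by omega⟩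
  obtain ⟨last1, last2⟩ := main q' (by omega)
  have e1 : 2 * (q' + 1) - 1 - 2 * q' = 1 := by omega
  refine ⟨hmeas, ?_, fun m hm => (main m hm).2, ?_, ?_, ?_⟩
  · intro m hm x y hxy
    refine ((main m hm).1 x y hxy).trans ?_
    have := hAq m hm.le
    gcongr
  · rw [continuous_iff_continuousAt]
    intro p0
    refine gkk_contAt (q' + 1) 1 V hV hM hS.noat h (KK (q' + 1) μ V h l q')
      (hmeas q') last2 (B := A ^ q' * ‖h‖ ^ q' * ‖l‖) (by positivity)
      (fun z y hzy => by simpa only [e1] using last1 z y hzy) p0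
      (gkk_small_one (q' + 1) hD hint hR2 (fun x y => by
        simpa using (hR4 x y).1) p0)
  · intro x y
    have h1 := hnorm q' (by omega) last1 x y (Or.inr rfl) 1 (by
      rw [e1, mul_one]
      simpa using (hR4 x y).2) zero_le_one
    rw [mul_one] at h1
    exact h1
  · intro m hm x y hxy
    exact (gkk_integrable (q' + 1) (2 * (q' + 1) - 1 - 2 * m) V hV hM hS.noat h
      (KK (q' + 1) μ V h l m) (hmeas m) (main m hm).1 x y
      (hstepI m hm (main m hm).1 x y hxy)).1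

end Pool.Agent.Work.MP_f2af60_mp

end

section

/-!
# MP_f2af60_mp, Q21: a kernel vector gives a resonance, all odd dimensions
-/

namespace Pool.Agent.Work.MP_f2af60_mp

open MeasureTheory Metric Filter Topology

/-- The function `r^(-(2q+1))` cut off at `B` is integrable near the origin. -/
theorem gkr_integrable_cut (q : ℕ) (B : ℝ) :
    Integrable (fun x : En q => (Set.Iic B).indicator (fun r : ℝ => (r ^ (2 * q + 1))⁻¹) ‖x‖) := by
  have hkey := (integrable_fun_norm_addHaar (E := En q) (volume : Measure (En q))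
    (f := (Set.Iic B).indicator (fun r : ℝ => (r ^ (2 * q + 1))⁻¹)))
  rw [hkey]
  have hfr : Module.finrank ℝ (En q) = 2 * q + 3 := by simp
  rw [hfr]
  have hcont : IntegrableOn (fun y : ℝ => y) (Set.Ioc 0 B) volume :=
    (continuous_id.integrableOn_Icc (a := 0) (b := B)).mono_set Set.Ioc_subset_Icc_self
  have h2 : IntegrableOn (Set.indicator (Set.Iic B) (fun y : ℝ => y)) (Set.Ioi 0) volume := by
    unfold IntegrableOn
    rw [integrable_indicator_iff measurableSet_Iic]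
    unfold IntegrableOn
    rw [Measure.restrict_restrict measurableSet_Iic]
    have : Set.Iic B ∩ Set.Ioi 0 = Set.Ioc 0 B := by
      ext x; simp [and_comm]
    rw [this]
    exact hcont
  refine h2.congr_fun ?_ measurableSet_Ioi
  intro y hy
  have hy0 : (0 : ℝ) < y := hy
  by_cases hyB : y ∈ Set.Iic B
  · simp only [Set.indicator_of_mem hyB, smul_eq_mul]
    have h0 : y ^ (2 * q + 1) ≠ 0 := (pow_pos hy0 _).ne'
    rw [show 2 * q + 3 - 1 = (2 * q + 1) + 1 from by omega, pow_succ y (2 * q + 1)]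
    field_simp
  · simp [Set.indicator_of_notMem hyB]

/-- The kernel is measurable. -/
theorem gkr_measurable_G (h : EbFacts) (q : ℕ) (l : ℂ) : Measurable (GG q l) := by
  have hc : Continuous (eb q) := (h.2.1 q).continuous
  have h1 : Measurable (fun x : En q => eb q (l * (‖x‖ : ℂ))) :=
    (hc.comp (by fun_prop : Continuous fun x : En q => l * (‖x‖ : ℂ))).measurable
  have h2 : Measurable (fun x : En q => (‖x‖ : ℂ) ^ (2 * q + 1)) := by fun_prop
  exact h1.div h2

/-- The bound for the kernel on a ball. -/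
theorem gkr_norm_G_le (h : EbFacts) (q : ℕ) (l : ℂ) (B : ℝ) :
    ∃ C : ℝ, ∀ x : En q, ‖x‖ ≤ B → ‖GG q l x‖ ≤ C * (‖x‖ ^ (2 * q + 1))⁻¹ := by
  have hc : Continuous (eb q) := (h.2.1 q).continuous
  have hcont : Continuous (fun r : ℝ => ‖eb q (l * (r : ℂ))‖) := by fun_prop
  obtain ⟨C, hC⟩ := (isCompact_Icc (a := (0 : ℝ)) (b := B)).bddAbove_image hcont.continuousOn
  refine ⟨C, fun x hx => ?_⟩
  unfold GG
  rw [norm_div, norm_pow, Complex.norm_real, Real.norm_eq_abs, abs_of_nonneg (norm_nonneg x),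
    div_eq_mul_inv]
  refine mul_le_mul_of_nonneg_right ?_ (by positivity)
  exact hC ⟨‖x‖, ⟨norm_nonneg x, hx⟩, rfl⟩

/-- The kernel is integrable on balls. -/
theorem gkr_integrable_G_indicator (h : EbFacts) (q : ℕ) (l : ℂ) (B : ℝ) :
    Integrable ((closedBall (0 : En q) B).indicator (GG q l)) := by
  obtain ⟨C, hC⟩ := gkr_norm_G_le h q l B
  refine ((gkr_integrable_cut q B).const_mul C).mono'
    (((gkr_measurable_G h q l).indicator measurableSet_closedBall).aestronglyMeasurable) ?_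
  refine Eventually.of_forall fun x => ?_
  by_cases hx : x ∈ closedBall (0 : En q) B
  · have hx' : ‖x‖ ≤ B := by simpa using hx
    rw [Set.indicator_of_mem hx, Set.indicator_of_mem (show ‖x‖ ∈ Set.Iic B from hx')]
    exact hC x hx'
  · have hx' : ¬ ‖x‖ ≤ B := by simpa using hx
    rw [Set.indicator_of_notMem hx, Set.indicator_of_notMem (show ‖x‖ ∉ Set.Iic B from hx')]
    simp

/-- A convolution of an integrable function with a bounded integrable function is continuous. -/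
theorem gkr_continuous_conv_aux {q : ℕ} (g F : En q → ℂ) (hg : Integrable g) (hF : Integrable F)
    (M : ℝ) (hM : ∀ x, ‖F x‖ ≤ M) : Continuous (fun x => ∫ y, g (x - y) * F y) := by
  rw [continuous_iff_continuousAt]
  intro x0
  refine continuousAt_of_locally_uniform_approx_of_continuousAt ?_
  intro u hu
  obtain ⟨e, he, hue⟩ := Metric.mem_uniformity_dist.1 hu
  have hM0 : 0 ≤ M := (norm_nonneg _).trans (hM 0)
  obtain ⟨g', hg's, hg'e, hg'c, hg'i⟩ :=
    hg.exists_hasCompactSupport_integral_sub_le (ε := e / (2 * (M + 1))) (by positivity)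
  refine ⟨Set.univ, univ_mem, fun x => ∫ y, g' (x - y) * F y, ?_, ?_⟩
  · have hc := hg's.continuous_convolution_right (ContinuousLinearMap.mul ℂ ℂ)
      (μ := (volume : Measure (En q))) (f := F) hF.locallyIntegrable hg'c
    have : (fun x => ∫ y, g' (x - y) * F y) =
        (convolution F g' (ContinuousLinearMap.mul ℂ ℂ) (volume : Measure (En q))) := by
      funext x
      unfold convolution
      refine integral_congr_ae (Eventually.of_forall fun y => ?_)
      simp [mul_comm]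
    rw [this]
    exact hc.continuousAt
  · intro x _
    apply hue
    rw [dist_eq_norm]
    have hgx : Integrable (fun y => g (x - y)) := hg.comp_sub_left x
    have hg'x : Integrable (fun y => g' (x - y)) := hg'i.comp_sub_left x
    have hb1 : Integrable (fun y => g (x - y) * F y) := by
      refine (hgx.norm.mul_const M).mono'
        (hgx.aestronglyMeasurable.mul hF.aestronglyMeasurable) ?_
      refine Eventually.of_forall fun y => ?_
      rw [norm_mul]
      exact mul_le_mul_of_nonneg_left (hM y) (norm_nonneg _)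
    have hb2 : Integrable (fun y => g' (x - y) * F y) := by
      refine (hg'x.norm.mul_const M).mono'
        (hg'x.aestronglyMeasurable.mul hF.aestronglyMeasurable) ?_
      refine Eventually.of_forall fun y => ?_
      rw [norm_mul]
      exact mul_le_mul_of_nonneg_left (hM y) (norm_nonneg _)
    rw [← integral_sub hb1 hb2]
    calc ‖∫ y, (g (x - y) * F y - g' (x - y) * F y)‖
        ≤ ∫ y, ‖g (x - y) - g' (x - y)‖ * M := by
          refine norm_integral_le_of_norm_le ((hgx.sub hg'x).norm.mul_const M) ?_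
          refine Eventually.of_forall fun y => ?_
          rw [← sub_mul, norm_mul]
          exact mul_le_mul_of_nonneg_left (hM y) (norm_nonneg _)
      _ = (∫ y, ‖g (x - y) - g' (x - y)‖) * M := integral_mul_const _ _
      _ = (∫ y, ‖g y - g' y‖) * M := by
          rw [integral_sub_left_eq_self (fun y => ‖g y - g' y‖) volume x]
      _ ≤ e / (2 * (M + 1)) * M := mul_le_mul_of_nonneg_right hg'e hM0
      _ < e := by
          rw [div_mul_eq_mul_div, div_lt_iff₀ (by positivity)]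
          nlinarith

/-- The potential of a bounded compactly supported function is continuous. -/
theorem gkr_continuous_potential (h : EbFacts) (q : ℕ) (l : ℂ) (R : ℝ) (F : En q → ℂ)
    (hF : Measurable F) (M : ℝ) (hM : ∀ x, ‖F x‖ ≤ M) (hR : ∀ x, R < ‖x‖ → F x = 0) :
    Continuous (fun x => ∫ y, GG q l (x - y) * F y) := by
  have hFi : Integrable F := by
    have h1 : IntegrableOn F (closedBall 0 R) volume := by
      refine IntegrableOn.of_bound (by exact measure_closedBall_lt_top) hF.aestronglyMeasurable M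
        (Eventually.of_forall hM)
    have h2 : F = (closedBall (0 : En q) R).indicator F := by
      funext x
      by_cases hx : x ∈ closedBall (0 : En q) R
      · rw [Set.indicator_of_mem hx]
      · rw [Set.indicator_of_notMem hx, hR x (by simpa using hx)]
    rw [h2]
    exact h1.integrable_indicator measurableSet_closedBall
  rw [continuous_iff_continuousAt]
  intro x0
  have hc := gkr_continuous_conv_aux _ F (gkr_integrable_G_indicator h q l (‖x0‖ + 1 + R)) hFi M hM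
  refine (hc.continuousAt (x := x0)).congr ?_
  filter_upwards [ball_mem_nhds x0 one_pos] with x hx
  refine integral_congr_ae (Eventually.of_forall fun y => ?_)
  by_cases hy : R < ‖y‖
  · simp [hR y hy]
  · have : x - y ∈ closedBall (0 : En q) (‖x0‖ + 1 + R) := by
      rw [mem_closedBall_zero_iff]
      have h1 : ‖x - y‖ ≤ ‖x‖ + ‖y‖ := norm_sub_le _ _
      have h2 : ‖x‖ ≤ ‖x0‖ + ‖x - x0‖ := by
        calc ‖x‖ = ‖x0 + (x - x0)‖ := by congr 1; abel
          _ ≤ _ := norm_add_le _ _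
      have h3 : ‖x - x0‖ < 1 := by rw [← dist_eq_norm]; exact hx
      have h4 : ‖y‖ ≤ R := not_lt.1 hy
      linarith
    simp [Set.indicator_of_mem this]

theorem gkr_eq (q : ℕ) (l : ℂ) (x y : En q) :
    eb q (l * ((dist x y : ℝ) : ℂ)) * ((((dist x y) ^ (2 * q + 1))⁻¹ : ℝ) : ℂ) =
      GG q l (x - y) := by
  unfold GG
  rw [dist_eq_norm]
  push_cast
  rw [div_eq_mul_inv]

theorem kerResQ (h : EbFacts) : KerResQ := by
  intro q hq R hR V hV M hM hVR l u hu hker
  set w : En q → ℂ := Function.extend Subtype.val (u : closedBall (0 : En q) R → ℂ) 0 with hw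
  have hwm : Measurable w :=
    (MeasurableEmbedding.subtype_coe measurableSet_closedBall).measurable_extend
      u.continuous.measurable measurable_zero
  have hwK : ∀ x : closedBall (0 : En q) R, w x = u x :=
    fun x => Subtype.val_injective.extend_apply _ _ _
  have hwb : ∀ x, ‖w x‖ ≤ ‖u‖ := by
    intro x
    by_cases hx : x ∈ closedBall (0 : En q) R
    · rw [show w x = u ⟨x, hx⟩ from hwK ⟨x, hx⟩]
      exact u.norm_coe_le_norm _
    · have : w x = 0 := by
        rw [hw, Function.extend_apply' _ _ _ (by rintro ⟨a, rfl⟩; exact hx a.2)]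
        rfl
      rw [this, norm_zero]
      exact norm_nonneg _
  set F : En q → ℂ := fun y => (V y : ℂ) * w y with hFdef
  have hFm : Measurable F := (Complex.measurable_ofReal.comp hV).mul hwm
  have hFb : ∀ x, ‖F x‖ ≤ M * ‖u‖ := by
    intro x
    rw [hFdef]
    simp only [norm_mul, Complex.norm_real, Real.norm_eq_abs]
    exact mul_le_mul (hM x) (hwb x) (norm_nonneg _) ((abs_nonneg _).trans (hM x))
  have hF0 : ∀ x, R < ‖x‖ → F x = 0 := by
    intro x hx
    simp [hFdef, hVR x hx]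
  set U : En q → ℂ := fun x => -∫ y, GG q l (x - y) * F y with hU
  have hUc : Continuous U := (gkr_continuous_potential h q l R F hFm _ hFb hF0).neg
  have hUK : ∀ x : closedBall (0 : En q) R, U x = u x := by
    intro x
    have h1 := hker x
    have h2 : ∫ y : closedBall (0 : En q) R, eb q (l * ((dist x y : ℝ) : ℂ)) *
          ((((dist x y) ^ (2 * q + 1))⁻¹ : ℝ) : ℂ) * (V y : ℂ) * u y ∂(muQ q R)
        = ∫ y, GG q l ((x : En q) - y) * F y := by
      have h3 : ∀ y : closedBall (0 : En q) R, eb q (l * ((dist x y : ℝ) : ℂ)) *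
          ((((dist x y) ^ (2 * q + 1))⁻¹ : ℝ) : ℂ) * (V y : ℂ) * u y
          = GG q l ((x : En q) - y) * F y := by
        intro y
        rw [show dist x y = dist (x : En q) y from rfl, gkr_eq, hFdef]
        simp only [hwK]
        ring
      simp_rw [h3]
      rw [muQ, integral_subtype_comap measurableSet_closedBall
        (fun y : En q => GG q l ((x : En q) - y) * F y)]
      refine setIntegral_eq_integral_of_forall_compl_eq_zero ?_
      intro y hy
      rw [hF0 y (by simpa using hy), mul_zero]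
    rw [h2] at h1
    rw [hU]
    simp only
    linear_combination -h1
  refine ⟨U, hUc, ?_, ?_⟩
  · intro hU0
    apply hu
    ext x
    rw [← hUK x, hU0]
    rfl
  · intro x
    rw [hU]
    simp only
    congr 1
    refine integral_congr_ae (Eventually.of_forall fun y => ?_)
    show GG q l (x - y) * F y = GG q l (x - y) * (V y : ℂ) * (U y)
    by_cases hy : R < ‖y‖
    · rw [hF0 y hy, hVR y hy]; simp
    · have hyK : y ∈ closedBall (0 : En q) R := by
        rw [mem_closedBall_zero_iff]; exact not_lt.1 hy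
      have h4 : U y = u ⟨y, hyK⟩ := hUK ⟨y, hyK⟩
      have h5 : w y = u ⟨y, hyK⟩ := hwK ⟨y, hyK⟩
      rw [h4, hFdef]
      simp only [h5]
      ring

end Pool.Agent.Work.MP_f2af60_mp

end
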