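import Mathlib.Analysis.Fourier.LpSpace
import Pool.Agent.Work.MP_f2af60_mp.GStmts
import Pool.Agent.Work.MP_f2af60_mp.Main
import Pool.Agent.Work.MP_f2af60_mp.Bd.B01

/-! Bundle of small proof modules (one section per former module). -/

section

/-!
# MP_f2af60_mp, item Q33: facts on the chain kernels
-/

namespace Pool.Agent.Work.MP_f2af60_mp

open MeasureTheory Set
open scoped ENNReal

/-! ### Measurability and symmetry -/

lemma KM_cons_measurable (q m : ℕ) :
    Measurable (fun y : Fin m → En q => (Fin.cons 0 y : Fin (m + 1) → En q)) := by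
  rw [measurable_pi_iff]
  intro i
  refine Fin.cases ?_ (fun j => ?_) i
  · simp
  · simpa using measurable_pi_apply j

lemma KM_JJ_measurable (h4 : HHFacts) (q m : ℕ) {E : ℝ} (hE : 0 < E) :
    Measurable (JJ q m E) := by
  have h0 : Measurable (HH q 0 E) := ((h4 q 0).1 E hE).2.1
  have h1 : Measurable (HH q 1 E) := ((h4 q 1).1 E hE).2.1
  unfold JJ
  refine Measurable.mul ?_ ?_
  · refine Finset.measurable_prod _ fun i _ => ?_
    exact h0.comp ((measurable_pi_apply _).sub (measurable_pi_apply _))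
  · exact h1.comp ((measurable_pi_apply _).sub (measurable_pi_apply _))

lemma KM_DJ_measurable (h4 : HHFacts) (q m : ℕ) {E : ℝ} (hE : 0 < E) :
    Measurable (DJ q m E) := by
  unfold DJ DD
  refine Finset.measurable_sum _ fun i _ => ?_
  refine Measurable.const_mul ?_ _
  have : 0 < (1 + (i : ℝ)) * E := by positivity
  exact KM_JJ_measurable h4 q m this

lemma KM_HH_neg (q j : ℕ) (E : ℝ) (x : En q) : HH q j E (-x) = HH q j E x := by
  unfold HH pt
  simp only [norm_neg]

lemma KM_JJ_neg (q m : ℕ) (E : ℝ) (x : Fin (m + 1) → En q) : JJ q m E (-x) = JJ q m E x := by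
  unfold JJ
  have e : ∀ i j : Fin (m + 1), (-x) i - (-x) j = -(x i - x j) := by
    intro i j; simp only [Pi.neg_apply]; abel
  simp only [e, KM_HH_neg]

lemma KM_DJ_neg (q m : ℕ) (E : ℝ) (x : Fin (m + 1) → En q) : DJ q m E (-x) = DJ q m E x := by
  unfold DJ
  simp only [KM_JJ_neg]

lemma KM_cons_neg (q m : ℕ) (y : Fin m → En q) :
    (Fin.cons 0 (-y) : Fin (m + 1) → En q) = -(Fin.cons 0 y : Fin (m + 1) → En q) := by
  funext i
  refine Fin.cases ?_ (fun j => ?_) i <;> simp

lemma KM_JJ_shift (q m : ℕ) (E : ℝ) (x : Fin (m + 1) → En q) (c : En q) :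
    JJ q m E (fun i => x i + c) = JJ q m E x := by
  unfold JJ
  simp only [add_sub_add_right_eq_sub]

lemma KM_DJ_shift (q m : ℕ) (E : ℝ) (x : Fin (m + 1) → En q) (c : En q) :
    DJ q m E (fun i => x i + c) = DJ q m E x := by
  unfold DJ
  simp only [KM_JJ_shift]

/-! ### The weight -/

/-- The link `i` of the closed chain `0, y`. -/
noncomputable def KM_D (q m : ℕ) (y : Fin m → En q) (i : Fin (m + 1)) : En q :=
  (Fin.cons 0 y : Fin (m + 1) → En q) i - (Fin.cons 0 y : Fin (m + 1) → En q) (i + 1)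

lemma KM_weight_aux (q m : ℕ) (y : Fin m → En q) (k : Fin (m + 1)) :
    1 + ‖(Fin.cons 0 y : Fin (m + 1) → En q) k‖ ≤
      ∏ i ∈ Finset.univ.filter (fun i : Fin (m + 1) => i < k), (1 + ‖KM_D q m y i‖) := by
  induction k using Fin.induction with
  | zero => simp
  | succ k ih =>
    have e : Finset.univ.filter (fun i : Fin (m + 1) => i < k.succ) =
        insert k.castSucc (Finset.univ.filter (fun i : Fin (m + 1) => i < k.castSucc)) := by
      ext i
      simp only [Finset.mem_filter, Finset.mem_univ, true_and, Finset.mem_insert]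
      rw [← Fin.le_castSucc_iff, le_iff_eq_or_lt]
    rw [e, Finset.prod_insert (by simp)]
    have hD : (Fin.cons 0 y : Fin (m + 1) → En q) k.succ =
        (Fin.cons 0 y : Fin (m + 1) → En q) k.castSucc - KM_D q m y k.castSucc := by
      unfold KM_D
      rw [Fin.coeSucc_eq_succ]
      abel
    have h1 : ‖(Fin.cons 0 y : Fin (m + 1) → En q) k.succ‖ ≤
        ‖(Fin.cons 0 y : Fin (m + 1) → En q) k.castSucc‖ + ‖KM_D q m y k.castSucc‖ := by
      rw [hD]; exact norm_sub_le _ _
    have h2 := norm_nonneg (KM_D q m y k.castSucc)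
    have h3 := norm_nonneg ((Fin.cons 0 y : Fin (m + 1) → En q) k.castSucc)
    calc 1 + ‖(Fin.cons 0 y : Fin (m + 1) → En q) k.succ‖
        ≤ (1 + ‖KM_D q m y k.castSucc‖) *
          (1 + ‖(Fin.cons 0 y : Fin (m + 1) → En q) k.castSucc‖) := by nlinarith
      _ ≤ _ := mul_le_mul_of_nonneg_left ih (by linarith)

lemma KM_weight (q m : ℕ) (y : Fin m → En q) :
    1 + ‖y‖ ≤ ∏ i : Fin (m + 1), (1 + ‖KM_D q m y i‖) := by
  have h0 : ∀ S : Finset (Fin (m + 1)), 1 ≤ ∏ i ∈ S, (1 + ‖KM_D q m y i‖) := by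
    intro S
    refine Finset.prod_induction _ (fun x : ℝ => 1 ≤ x)
      (fun a b ha hb => one_le_mul_of_one_le_of_one_le ha hb) le_rfl (fun i _ => ?_)
    linarith [norm_nonneg (KM_D q m y i)]
  have h1 : ∀ k : Fin (m + 1), 1 + ‖(Fin.cons 0 y : Fin (m + 1) → En q) k‖ ≤
      ∏ i : Fin (m + 1), (1 + ‖KM_D q m y i‖) := by
    intro k
    refine (KM_weight_aux q m y k).trans ?_
    rw [← Finset.prod_filter_mul_prod_filter_not Finset.univ (fun i : Fin (m + 1) => i < k)]
    exact le_mul_of_one_le_right (zero_le_one.trans (h0 _)) (h0 _)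
  have h2 : ‖y‖ ≤ (∏ i : Fin (m + 1), (1 + ‖KM_D q m y i‖)) - 1 := by
    rw [pi_norm_le_iff_of_nonneg (by linarith [h0 Finset.univ])]
    intro j
    have := h1 j.succ
    rw [Fin.cons_succ] at this
    linarith
  linarith

/-- The weighted Gaussian chain is dominated by a Gaussian chain of double times. -/
lemma KM_gauss (h32 : GaussChain) (q m : ℕ) (hm : 1 ≤ m) {C : ℝ} (hC : 0 ≤ C)
    (hCb : ∀ t > 0, ∀ x : En q, (1 + ‖x‖) ^ (2 * q) * pt q t x ≤
      C * (1 + t ^ (2 * q)) * pt q (2 * t) x) (t : Fin (m + 1) → ℝ) (ht : ∀ i, 0 < t i) :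
    ∫⁻ y : Fin m → En q, ENNReal.ofReal ((1 + ‖y‖) ^ (2 * q) *
      ∏ i, pt q (t i) (KM_D q m y i)) ≤
      ENNReal.ofReal ((∏ i, (C * (1 + t i ^ (2 * q)))) *
        (8 * Real.pi * ∑ i, t i) ^ (-((q : ℝ) + 3 / 2))) := by
  have hpt : ∀ s : ℝ, 0 < s → ∀ x : En q, 0 ≤ pt q s x := by
    intro s hs x; unfold pt; positivity
  have h1 : ∀ y : Fin m → En q, ENNReal.ofReal ((1 + ‖y‖) ^ (2 * q) *
      ∏ i, pt q (t i) (KM_D q m y i)) ≤ ENNReal.ofReal (∏ i, (C * (1 + t i ^ (2 * q)))) *
        ∏ i : Fin (m + 1), ENNReal.ofReal (pt q (2 * t i) (KM_D q m y i)) := by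
    intro y
    rw [← ENNReal.ofReal_prod_of_nonneg (fun i _ => hpt _ (by linarith [ht i]) _),
      ← ENNReal.ofReal_mul (Finset.prod_nonneg fun i _ => by have := ht i; positivity),
      ← Finset.prod_mul_distrib]
    apply ENNReal.ofReal_le_ofReal
    calc (1 + ‖y‖) ^ (2 * q) * ∏ i, pt q (t i) (KM_D q m y i)
        ≤ (∏ i : Fin (m + 1), (1 + ‖KM_D q m y i‖)) ^ (2 * q) *
          ∏ i, pt q (t i) (KM_D q m y i) := by
          apply mul_le_mul_of_nonneg_right _ (Finset.prod_nonneg fun i _ => hpt _ (ht i) _)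
          exact pow_le_pow_left₀ (by positivity) (KM_weight q m y) _
      _ = ∏ i, ((1 + ‖KM_D q m y i‖) ^ (2 * q) * pt q (t i) (KM_D q m y i)) := by
          rw [← Finset.prod_pow, Finset.prod_mul_distrib]
      _ ≤ _ := Finset.prod_le_prod (fun i _ => mul_nonneg (by positivity) (hpt _ (ht i) _))
          (fun i _ => hCb _ (ht i) _)
  refine (lintegral_mono h1).trans ?_
  rw [lintegral_const_mul' _ _ ENNReal.ofReal_ne_top]
  have h2 := h32 q m hm (fun i => 2 * t i) (fun i => by have := ht i; positivity)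
  have h3 : (∫⁻ y : Fin m → En q, ∏ i : Fin (m + 1),
      ENNReal.ofReal (pt q (2 * t i) (KM_D q m y i))) =
      ENNReal.ofReal ((4 * Real.pi * ∑ i, 2 * t i) ^ (-((q : ℝ) + 3 / 2))) := h2
  rw [h3, ← ENNReal.ofReal_mul (Finset.prod_nonneg fun i _ => by have := ht i; positivity)]
  apply le_of_eq
  congr 3
  rw [← Finset.mul_sum]; ring

/-- The one dimensional majorant. -/
noncomputable def KM_g (q : ℕ) (C a E : ℝ) (s : ℝ) : ℝ :=
  C * (1 + s ^ (2 * q)) * s ^ (-a) * Real.exp (-(E * s))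

lemma KM_g_int (q : ℕ) (C a E : ℝ) (ha : a < 1) (hE : 0 < E) :
    IntegrableOn (KM_g q C a E) (Ioi 0) := by
  have h1 := integrableOn_rpow_mul_exp_neg_mul_rpow (p := 1) (s := -a) (b := E)
    (by linarith) one_pos hE
  have h2 := integrableOn_rpow_mul_exp_neg_mul_rpow (p := 1) (s := (2 * q : ℕ) + -a) (b := E)
    (by have : (0 : ℝ) ≤ ((2 * q : ℕ) : ℝ) := by positivity
        linarith) one_pos hE
  have h3 := (h1.const_mul C).add (h2.const_mul C)
  refine IntegrableOn.congr_fun h3 (fun s hs => ?_) measurableSet_Ioi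
  have hs' : (0 : ℝ) < s := hs
  simp only [KM_g, Pi.add_apply, Real.rpow_one]
  rw [Real.rpow_add hs', Real.rpow_natCast, neg_mul]
  ring

/-- The pointwise bound of the time integrand. -/
lemma KM_pointwise (q m : ℕ) (hq : 1 ≤ q) {C E : ℝ} (hC : 0 ≤ C) (hE : 0 < E)
    (t : Fin (m + 1) → ℝ) (ht : ∀ i, 0 < t i) :
    t (Fin.last m) * Real.exp (-(E * ∑ i, t i)) * (1 - Real.exp (-(E * ∑ i, t i))) ^ (q - 1) *
      ((∏ i, (C * (1 + t i ^ (2 * q)))) * (8 * Real.pi * ∑ i, t i) ^ (-((q : ℝ) + 3 / 2))) ≤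
    (E ^ (q - 1) * (8 * Real.pi) ^ (-((q : ℝ) + 3 / 2))) *
      ∏ i, KM_g q C (3 / (2 * ((m : ℝ) + 1))) E (t i) := by
  set T := ∑ i, t i with hT
  have hti : ∀ i, t i ≤ T := fun i =>
    Finset.single_le_sum (fun j _ => (ht j).le) (Finset.mem_univ i)
  have hT0 : 0 < T := (ht 0).trans_le (hti 0)
  have hm : (0 : ℝ) < (m : ℝ) + 1 := by positivity
  have hP : 0 ≤ ∏ i, (C * (1 + t i ^ (2 * q))) :=
    Finset.prod_nonneg fun i _ => by have := ht i; positivity
  have e1 : Real.exp (-(E * T)) = ∏ i, Real.exp (-(E * t i)) := by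
    rw [← Real.exp_sum]; congr 1
    rw [hT, Finset.mul_sum, Finset.sum_neg_distrib]
  have e2 : T ^ (-(3 / 2) : ℝ) ≤ ∏ i, (t i) ^ (-(3 / (2 * ((m : ℝ) + 1)))) := by
    have h1 : T ^ (-(3 / 2) : ℝ) = ∏ _i : Fin (m + 1), T ^ (-(3 / (2 * ((m : ℝ) + 1)))) := by
      rw [Finset.prod_const, Finset.card_univ, Fintype.card_fin, ← Real.rpow_natCast,
        ← Real.rpow_mul hT0.le]
      congr 1
      push_cast
      field_simp
    rw [h1]
    exact Finset.prod_le_prod (fun i _ => Real.rpow_nonneg hT0.le _) (fun i _ =>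
      Real.rpow_le_rpow_of_nonpos (ht i) (hti i) (by
        have : 0 ≤ 3 / (2 * ((m : ℝ) + 1)) := by positivity
        linarith))
  have e3 : (1 - Real.exp (-(E * T))) ^ (q - 1) ≤ (E * T) ^ (q - 1) := by
    apply pow_le_pow_left₀
    · have : Real.exp (-(E * T)) ≤ 1 := Real.exp_le_one_iff.2 (by
        have := mul_pos hE hT0; linarith)
      linarith
    · have := Real.add_one_le_exp (-(E * T))
      linarith
  have e4 : T * (E * T) ^ (q - 1) * (8 * Real.pi * T) ^ (-((q : ℝ) + 3 / 2)) =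
      (E ^ (q - 1) * (8 * Real.pi) ^ (-((q : ℝ) + 3 / 2))) * T ^ (-(3 / 2) : ℝ) := by
    have h8 : (0 : ℝ) < 8 * Real.pi := by positivity
    rw [mul_pow, Real.mul_rpow h8.le hT0.le]
    have h2 : T * T ^ (q - 1) * T ^ (-((q : ℝ) + 3 / 2)) = T ^ (-(3 / 2) : ℝ) := by
      rw [← pow_succ', Nat.sub_add_cancel hq, ← Real.rpow_natCast, ← Real.rpow_add hT0]
      congr 1
      ring
    rw [← h2]; ring
  calc t (Fin.last m) * Real.exp (-(E * T)) * (1 - Real.exp (-(E * T))) ^ (q - 1) *
      ((∏ i, (C * (1 + t i ^ (2 * q)))) * (8 * Real.pi * T) ^ (-((q : ℝ) + 3 / 2)))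
      ≤ T * Real.exp (-(E * T)) * (E * T) ^ (q - 1) *
      ((∏ i, (C * (1 + t i ^ (2 * q)))) * (8 * Real.pi * T) ^ (-((q : ℝ) + 3 / 2))) := by
        apply mul_le_mul_of_nonneg_right _ (mul_nonneg hP (Real.rpow_nonneg (by positivity) _))
        apply mul_le_mul _ e3 _ (by positivity)
        · exact mul_le_mul_of_nonneg_right (hti _) (Real.exp_pos _).le
        · apply pow_nonneg
          have : Real.exp (-(E * T)) ≤ 1 := Real.exp_le_one_iff.2 (by
            have := mul_pos hE hT0; linarith)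
          linarith
    _ = (T * (E * T) ^ (q - 1) * (8 * Real.pi * T) ^ (-((q : ℝ) + 3 / 2))) *
        ((∏ i, (C * (1 + t i ^ (2 * q)))) * Real.exp (-(E * T))) := by ring
    _ = (E ^ (q - 1) * (8 * Real.pi) ^ (-((q : ℝ) + 3 / 2))) * (T ^ (-(3 / 2) : ℝ) *
        ((∏ i, (C * (1 + t i ^ (2 * q)))) * Real.exp (-(E * T)))) := by rw [e4]; ring
    _ ≤ (E ^ (q - 1) * (8 * Real.pi) ^ (-((q : ℝ) + 3 / 2))) *
        ((∏ i, (t i) ^ (-(3 / (2 * ((m : ℝ) + 1))))) *
        ((∏ i, (C * (1 + t i ^ (2 * q)))) * Real.exp (-(E * T)))) := by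
        apply mul_le_mul_of_nonneg_left _ (by positivity)
        exact mul_le_mul_of_nonneg_right e2 (mul_nonneg hP (Real.exp_pos _).le)
    _ = _ := by
        rw [e1, ← Finset.prod_mul_distrib, ← Finset.prod_mul_distrib]
        congr 1
        refine Finset.prod_congr rfl fun i _ => ?_
        unfold KM_g
        ring

/-- Finiteness of the time integral. -/
lemma KM_time_fin (q m : ℕ) (hm : 1 ≤ m) (C E : ℝ) (hE : 0 < E) :
    ∫⁻ t : Fin (m + 1) → ℝ in {t | ∀ i, 0 < t i},
      ENNReal.ofReal (∏ i, KM_g q C (3 / (2 * ((m : ℝ) + 1))) E (t i)) < ⊤ := by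
  have ha : 3 / (2 * ((m : ℝ) + 1)) < 1 := by
    rw [div_lt_one (by positivity)]
    have : (1 : ℝ) ≤ m := by exact_mod_cast hm
    linarith
  have h1 : Integrable ((Ioi (0 : ℝ)).indicator (KM_g q C (3 / (2 * ((m : ℝ) + 1))) E)) :=
    (integrable_indicator_iff measurableSet_Ioi).2 (KM_g_int q C _ E ha hE)
  have h2 : Integrable (fun t : Fin (m + 1) → ℝ => ∏ i,
      (Ioi (0 : ℝ)).indicator (KM_g q C (3 / (2 * ((m : ℝ) + 1))) E) (t i)) :=
    Integrable.fintype_prod (fun _ => h1)
  have hset : MeasurableSet {t : Fin (m + 1) → ℝ | ∀ i, 0 < t i} := by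
    rw [ofPred_forall]
    exact MeasurableSet.iInter fun i => measurableSet_lt measurable_const (measurable_pi_apply i)
  calc ∫⁻ t : Fin (m + 1) → ℝ in {t | ∀ i, 0 < t i},
      ENNReal.ofReal (∏ i, KM_g q C (3 / (2 * ((m : ℝ) + 1))) E (t i))
      ≤ ∫⁻ t : Fin (m + 1) → ℝ, ENNReal.ofReal ‖∏ i,
        (Ioi (0 : ℝ)).indicator (KM_g q C (3 / (2 * ((m : ℝ) + 1))) E) (t i)‖ := by
        rw [← lintegral_indicator hset]
        refine lintegral_mono fun t => ?_
        by_cases h : t ∈ {t : Fin (m + 1) → ℝ | ∀ i, 0 < t i}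
        · rw [indicator_of_mem h]
          apply ENNReal.ofReal_le_ofReal
          refine le_trans (le_of_eq ?_) (le_abs_self _)
          refine Finset.prod_congr rfl fun i _ => ?_
          rw [indicator_of_mem]
          exact h i
        · rw [indicator_of_notMem h]; exact bot_le
    _ < ⊤ := by
        have := h2.norm.lintegral_lt_top
        simpa using this

/-- The weighted chain kernel has finite integral. -/
lemma KM_fin (h3 : PtFacts) (h31 : KmRep) (h32 : GaussChain) (q m : ℕ) (hq : 1 ≤ q)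
    (hm : 1 ≤ m) {E : ℝ} (hE : 0 < E) :
    ∫⁻ y : Fin m → En q, ENNReal.ofReal ((1 + ‖y‖) ^ (2 * q) *
      DJ q m E (Fin.cons 0 y)) < ⊤ := by
  obtain ⟨-, -, hmeas, -, -, hb⟩ := h3 q
  obtain ⟨C0, hC0⟩ := hb (2 * q)
  set C := max C0 0 with hCdef
  have hC : 0 ≤ C := le_max_right _ _
  have hpt : ∀ s : ℝ, 0 < s → ∀ x : En q, 0 ≤ pt q s x := by
    intro s hs x; unfold pt; positivity
  have hCb : ∀ t > 0, ∀ x : En q, (1 + ‖x‖) ^ (2 * q) * pt q t x ≤
      C * (1 + t ^ (2 * q)) * pt q (2 * t) x := by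
    intro t ht x
    refine (hC0 t ht x).trans ?_
    apply mul_le_mul_of_nonneg_right _ (hpt _ (by linarith) _)
    exact mul_le_mul_of_nonneg_right (le_max_left _ _) (by positivity)
  set S : Set (Fin (m + 1) → ℝ) := {t | ∀ i, 0 < t i} with hS
  have hSm : MeasurableSet S := by
    rw [hS, ofPred_forall]
    exact MeasurableSet.iInter fun i => measurableSet_lt measurable_const (measurable_pi_apply i)
  -- the time density
  let A : (Fin (m + 1) → ℝ) → ℝ := fun t => t (Fin.last m) * Real.exp (-(E * ∑ i, t i)) *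
    (1 - Real.exp (-(E * ∑ i, t i))) ^ (q - 1)
  have hA0 : ∀ t ∈ S, 0 ≤ A t := by
    intro t ht
    have hT : 0 ≤ ∑ i, t i := Finset.sum_nonneg fun i _ => (ht i).le
    have : Real.exp (-(E * ∑ i, t i)) ≤ 1 := Real.exp_le_one_iff.2 (by
      have := mul_nonneg hE.le hT; linarith)
    exact mul_nonneg (mul_nonneg (ht _).le (Real.exp_pos _).le) (pow_nonneg (by linarith) _)
  have hAm : Measurable A := by fun_prop
  have hDm : ∀ i, Measurable (fun y : Fin m → En q => KM_D q m y i) := by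
    intro i
    exact ((measurable_pi_apply i).comp (KM_cons_measurable q m)).sub
      ((measurable_pi_apply (i + 1)).comp (KM_cons_measurable q m))
  have hjoint : Measurable (fun z : (Fin m → En q) × (Fin (m + 1) → ℝ) =>
      ∏ i, pt q (z.2 i) (KM_D q m z.1 i)) := by
    refine Finset.measurable_prod _ fun i _ => ?_
    have hf : Measurable (fun z : (Fin m → En q) × (Fin (m + 1) → ℝ) =>
        (z.2 i, KM_D q m z.1 i)) :=
      ((measurable_pi_apply i).comp measurable_snd).prodMk ((hDm i).comp measurable_fst)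
    exact hmeas.comp hf
  have h1 : ∀ y : Fin m → En q, ENNReal.ofReal ((1 + ‖y‖) ^ (2 * q) * DJ q m E (Fin.cons 0 y)) ≤
      ∫⁻ t in S, ENNReal.ofReal (A t) * ENNReal.ofReal ((1 + ‖y‖) ^ (2 * q) *
        ∏ i, pt q (t i) (KM_D q m y i)) := by
    intro y
    rw [ENNReal.ofReal_mul (by positivity)]
    refine (mul_le_mul_right (h31 q m hq hm E hE (Fin.cons 0 y)).2.2 _).trans ?_
    rw [← lintegral_const_mul' _ _ ENNReal.ofReal_ne_top]
    refine setLIntegral_mono' hSm fun t ht => ?_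
    rw [← ENNReal.ofReal_mul (by positivity), ← ENNReal.ofReal_mul (hA0 t ht)]
    apply ENNReal.ofReal_le_ofReal
    apply le_of_eq
    simp only [A, KM_D]
    ring
  calc ∫⁻ y : Fin m → En q, ENNReal.ofReal ((1 + ‖y‖) ^ (2 * q) * DJ q m E (Fin.cons 0 y))
      ≤ ∫⁻ y : Fin m → En q, ∫⁻ t in S, ENNReal.ofReal (A t) *
        ENNReal.ofReal ((1 + ‖y‖) ^ (2 * q) * ∏ i, pt q (t i) (KM_D q m y i)) :=
        lintegral_mono h1
    _ = ∫⁻ t in S, ∫⁻ y : Fin m → En q, ENNReal.ofReal (A t) *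
        ENNReal.ofReal ((1 + ‖y‖) ^ (2 * q) * ∏ i, pt q (t i) (KM_D q m y i)) := by
        apply lintegral_lintegral_swap
        apply Measurable.aemeasurable
        show Measurable (fun z : (Fin m → En q) × (Fin (m + 1) → ℝ) => ENNReal.ofReal (A z.2) *
          ENNReal.ofReal ((1 + ‖z.1‖) ^ (2 * q) * ∏ i, pt q (z.2 i) (KM_D q m z.1 i)))
        have hA' : Measurable (fun z : (Fin m → En q) × (Fin (m + 1) → ℝ) =>
            ENNReal.ofReal (A z.2)) := (hAm.comp measurable_snd).ennreal_ofReal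
        have hw : Measurable (fun z : (Fin m → En q) × (Fin (m + 1) → ℝ) =>
            (1 + ‖z.1‖) ^ (2 * q)) := by fun_prop
        exact hA'.mul (hw.mul hjoint).ennreal_ofReal
    _ ≤ ∫⁻ t in S, ENNReal.ofReal ((E ^ (q - 1) * (8 * Real.pi) ^ (-((q : ℝ) + 3 / 2))) *
          ∏ i, KM_g q C (3 / (2 * ((m : ℝ) + 1))) E (t i)) := by
        refine setLIntegral_mono' hSm fun t ht => ?_
        rw [lintegral_const_mul' _ _ ENNReal.ofReal_ne_top]
        refine (mul_le_mul_right (KM_gauss h32 q m hm hC hCb t ht) _).trans ?_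
        rw [← ENNReal.ofReal_mul (hA0 t ht)]
        apply ENNReal.ofReal_le_ofReal
        exact KM_pointwise q m hq hC hE t ht
    _ = ENNReal.ofReal (E ^ (q - 1) * (8 * Real.pi) ^ (-((q : ℝ) + 3 / 2))) *
        ∫⁻ t in S, ENNReal.ofReal (∏ i, KM_g q C (3 / (2 * ((m : ℝ) + 1))) E (t i)) := by
        rw [← lintegral_const_mul' _ _ ENNReal.ofReal_ne_top]
        refine lintegral_congr fun t => ?_
        rw [ENNReal.ofReal_mul (by positivity)]
    _ < ⊤ := ENNReal.mul_lt_top ENNReal.ofReal_lt_top (KM_time_fin q m hm C E hE)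

/-- Splitting off the first variable and translating the others. -/
lemma KM_split (q m : ℕ) (F : (Fin (m + 1) → En q) → ℝ≥0∞) (hF : Measurable F) :
    ∫⁻ x, F x = ∫⁻ x0 : En q, ∫⁻ y : Fin m → En q, F (Fin.cons x0 (fun i => y i + x0)) := by
  have h1 := (volume_preserving_piFinSuccAbove (fun _ : Fin (m + 1) => En q) 0).symm
  rw [← h1.lintegral_comp_emb (MeasurableEquiv.measurableEmbedding _)]
  rw [Measure.volume_eq_prod, lintegral_prod]
  · refine lintegral_congr fun x0 => ?_
    have h2 : ∫⁻ y : Fin m → En q, F (Fin.cons x0 (fun i => y i + x0)) =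
        ∫⁻ y : Fin m → En q, F (Fin.cons x0 y) := by
      have := lintegral_add_right_eq_self (μ := (volume : Measure (Fin m → En q)))
        (fun y => F (Fin.cons x0 y)) (fun _ => x0)
      exact this
    rw [h2]
    refine lintegral_congr fun y => ?_
    congr 1
    simp [MeasurableEquiv.piFinSuccAbove, Fin.insertNthEquiv]
  · exact (hF.comp (MeasurableEquiv.measurable _)).aemeasurable

theorem kmFacts (h3 : PtFacts) (h4 : HHFacts) (h31 : KmRep) (h32 : GaussChain) : KmFacts := by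
  intro q m hq hm
  have hkm : ∀ n : ℕ, Measurable (km q n) := fun n =>
    (KM_DJ_measurable h4 q n one_pos).comp (KM_cons_measurable q n)
  have hint : ∀ n : ℕ, 1 ≤ n → Integrable (fun y : Fin n → En q =>
      (1 + ‖y‖) ^ (2 * q) * km q n y) := by
    intro n hn
    refine ⟨?_, ?_⟩
    · refine (Measurable.mul ?_ (hkm n)).aestronglyMeasurable
      fun_prop
    · rw [hasFiniteIntegral_iff_ofReal]
      · exact KM_fin h3 h31 h32 q n hq hn one_pos
      · refine Filter.Eventually.of_forall fun y => ?_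
        exact mul_nonneg (by positivity) (h31 q n hq hn 1 one_pos _).1
  refine ⟨fun y => (h31 q m hq hm 1 one_pos _).1, fun y => ?_, hint m hm, ?_, ?_⟩
  · unfold km
    rw [KM_cons_neg, KM_DJ_neg]
  · have h1 : Integrable (km q 1) := by
      refine Integrable.mono' (hint 1 le_rfl) (hkm 1).aestronglyMeasurable ?_
      refine Filter.Eventually.of_forall fun y => ?_
      have h0 : 0 ≤ km q 1 y := (h31 q 1 hq le_rfl 1 one_pos _).1
      rw [Real.norm_of_nonneg h0]
      refine le_mul_of_one_le_left h0 (one_le_pow₀ ?_)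
      linarith [norm_nonneg y]
    have h0 : 0 ≤ km q 1 := fun y => (h31 q 1 hq le_rfl 1 one_pos _).1
    rw [integral_pos_iff_support_of_nonneg h0 h1]
    have hsub : ({0} : Set (Fin 1 → En q))ᶜ ⊆ Function.support (km q 1) := by
      intro y hy
      have hy0 : y 0 ≠ 0 := by
        intro h
        apply hy
        rw [mem_singleton_iff]
        funext i
        rw [Subsingleton.elim i 0, h]; rfl
      refine ((h31 q 1 hq le_rfl 1 one_pos (Fin.cons 0 y)).2.1 ?_).ne'
      intro i
      fin_cases i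
      · simpa using hy0.symm
      · simpa using hy0
    refine lt_of_lt_of_le ?_ (measure_mono hsub)
    have hz : (volume : Measure (Fin 1 → En q)) {0} = 0 := by
      have e : ({0} : Set (Fin 1 → En q)) = Set.pi univ (fun _ => {0}) := by
        ext y; simp [funext_iff]
      rw [e, volume_pi_pi]
      simp
    rw [measure_compl (measurableSet_singleton _) (by rw [hz]; simp), hz, tsub_zero]
    exact Measure.measure_univ_pos.2 (NeZero.ne _)
  · intro E hE V hV M R hM hR
    have hM0 : 0 ≤ M := (abs_nonneg _).trans (hM 0)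
    have hDJ := KM_DJ_measurable h4 q m hE
    have hVm : Measurable (fun x : Fin (m + 1) → En q => ∏ i, V (x i)) :=
      Finset.measurable_prod _ fun i _ => hV.comp (measurable_pi_apply i)
    refine ⟨(hVm.mul hDJ).aestronglyMeasurable, ?_⟩
    rw [hasFiniteIntegral_iff_norm]
    -- the majorant
    let G : (Fin (m + 1) → En q) → ℝ≥0∞ := fun x =>
      (Metric.closedBall (0 : En q) R).indicator (fun _ => ENNReal.ofReal (M ^ (m + 1))) (x 0) *
        ENNReal.ofReal (DJ q m E x)
    have hG : Measurable G := by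
      refine Measurable.mul ?_ hDJ.ennreal_ofReal
      exact (measurable_const.indicator measurableSet_closedBall).comp (measurable_pi_apply 0)
    have hle : ∀ x : Fin (m + 1) → En q, ENNReal.ofReal ‖(∏ i, V (x i)) * DJ q m E x‖ ≤ G x := by
      intro x
      have hD0 : 0 ≤ DJ q m E x := (h31 q m hq hm E hE x).1
      rw [norm_mul, ENNReal.ofReal_mul (norm_nonneg _), Real.norm_of_nonneg hD0]
      apply mul_le_mul_left
      by_cases hx : x 0 ∈ Metric.closedBall (0 : En q) R
      · rw [indicator_of_mem hx]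
        apply ENNReal.ofReal_le_ofReal
        rw [norm_prod]
        calc ∏ i, ‖V (x i)‖ ≤ ∏ _i : Fin (m + 1), M :=
              Finset.prod_le_prod (fun i _ => norm_nonneg _) (fun i _ => hM _)
          _ = M ^ (m + 1) := by simp
      · rw [indicator_of_notMem hx]
        have h0 : V (x 0) = 0 := by
          apply hR
          rw [Metric.mem_closedBall, dist_zero_right, not_le] at hx
          exact hx
        have : ∏ i, V (x i) = 0 := Finset.prod_eq_zero (Finset.mem_univ 0) h0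
        rw [this]; simp
    refine (lintegral_mono hle).trans_lt ?_
    rw [KM_split q m G hG]
    have hG2 : ∀ x0 : En q, ∫⁻ y : Fin m → En q, G (Fin.cons x0 (fun i => y i + x0)) =
        (Metric.closedBall (0 : En q) R).indicator (fun _ => ENNReal.ofReal (M ^ (m + 1))) x0 *
        ∫⁻ y : Fin m → En q, ENNReal.ofReal (DJ q m E (Fin.cons 0 y)) := by
      intro x0
      rw [← lintegral_const_mul']
      · refine lintegral_congr fun y => ?_
        have e : (Fin.cons x0 (fun i => y i + x0) : Fin (m + 1) → En q) =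
            fun i => (Fin.cons 0 y : Fin (m + 1) → En q) i + x0 := by
          funext i
          refine Fin.cases ?_ (fun j => ?_) i <;> simp
        simp only [G]
        rw [e, KM_DJ_shift]
        simp
      · by_cases hx0 : x0 ∈ Metric.closedBall (0 : En q) R
        · rw [indicator_of_mem hx0]; exact ENNReal.ofReal_ne_top
        · rw [indicator_of_notMem hx0]; simp
    simp only [hG2]
    rw [lintegral_mul_const]
    · refine ENNReal.mul_lt_top ?_ ?_
      · rw [lintegral_indicator measurableSet_closedBall, setLIntegral_const]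
        exact ENNReal.mul_lt_top ENNReal.ofReal_lt_top measure_closedBall_lt_top
      · refine lt_of_le_of_lt (lintegral_mono fun y => ?_) (KM_fin h3 h31 h32 q m hq hm hE)
        apply ENNReal.ofReal_le_ofReal
        refine le_mul_of_one_le_left (h31 q m hq hm E hE _).1 (one_le_pow₀ ?_)
        linarith [norm_nonneg y]
    · exact measurable_const.indicator measurableSet_closedBall

end Pool.Agent.Work.MP_f2af60_mp

end

section

/-!
# MP_f2af60_mp, item Q31: Laplace representation of the finite difference of a closed chain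
-/

namespace Pool.Agent.Work.MP_f2af60_mp

open MeasureTheory Filter Topology Set

/-- The kernels of low powers vanish at the origin by convention. -/
lemma kmr_zero (q j : ℕ) (hj : j ≤ q) (E : ℝ) (hE : 0 < E) : HH q j E (0 : En q) = 0 := by
  unfold HH
  refine integral_undef fun hi => ?_
  have h1 : IntegrableOn (fun t : ℝ => t ^ j / (j.factorial : ℝ) * Real.exp (-(E * t)) *
      pt q t (0 : En q)) (Ioo 0 1) := IntegrableOn.mono_set hi Ioo_subset_Ioi_self
  set c : ℝ := (j.factorial : ℝ) * Real.exp E * (4 * Real.pi) ^ ((q:ℝ) + 3 / 2) with hc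
  have h2 : IntegrableOn (fun t : ℝ => t ^ ((j:ℝ) - q - 3 / 2)) (Ioo 0 1) := by
    refine Integrable.mono' (h1.const_mul c)
      ((measurable_id.pow_const _).aestronglyMeasurable) ?_
    filter_upwards [ae_restrict_mem measurableSet_Ioo] with t ht
    have ht0 : 0 < t := ht.1
    have ht1 : t < 1 := ht.2
    have e0 : pt q t (0 : En q) = (4 * Real.pi * t) ^ (-((q : ℝ) + 3 / 2)) := by
      unfold pt
      simp
    rw [Real.norm_of_nonneg (by positivity)]
    rw [e0, Real.mul_rpow (by positivity) ht0.le]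
    have e3 : t ^ ((j : ℝ) - q - 3 / 2) = t ^ j * t ^ (-((q:ℝ) + 3 / 2)) := by
      rw [← Real.rpow_natCast t j, ← Real.rpow_add ht0]
      congr 1
      ring
    have e4 : (4 * Real.pi) ^ ((q:ℝ) + 3 / 2) * (4 * Real.pi) ^ (-((q:ℝ) + 3 / 2)) = 1 := by
      rw [← Real.rpow_add (by positivity)]
      simp
    have e5 : 1 ≤ Real.exp E * Real.exp (-(E * t)) := by
      rw [← Real.exp_add]
      apply Real.one_le_exp
      nlinarith
    have e6 : c * (t ^ j / (j.factorial : ℝ) * Real.exp (-(E * t)) *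
        ((4 * Real.pi) ^ (-((q:ℝ) + 3 / 2)) * t ^ (-((q:ℝ) + 3 / 2)))) =
        (Real.exp E * Real.exp (-(E * t))) *
        ((4 * Real.pi) ^ ((q:ℝ) + 3 / 2) * (4 * Real.pi) ^ (-((q:ℝ) + 3 / 2))) *
        (t ^ j * t ^ (-((q:ℝ) + 3 / 2))) := by
      rw [hc]
      have : (j.factorial : ℝ) ≠ 0 := by positivity
      field_simp
    rw [e6, e4, e3, mul_one]
    exact le_mul_of_one_le_left (by positivity) e5
  rw [intervalIntegral.integrableOn_Ioo_rpow_iff one_pos] at h2
  have : (j:ℝ) ≤ q := by exact_mod_cast hj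
  linarith

/-- The factors of the closed chain. -/
noncomputable def kmrF (q m : ℕ) (E : ℝ) (x : Fin (m + 1) → En q) (i : Fin (m + 1)) (t : ℝ) : ℝ :=
  (if i = Fin.last m then t else 1) * Real.exp (-(E * t)) * pt q t (x i - x (i + 1))

lemma kmr_prod (q m : ℕ) (E : ℝ) (x : Fin (m + 1) → En q) (t : Fin (m + 1) → ℝ) :
    ∏ i, kmrF q m E x i (t i) = t (Fin.last m) * Real.exp (-(E * ∑ i, t i)) *
      ∏ i, pt q (t i) (x i - x (i + 1)) := by
  unfold kmrF
  rw [Finset.prod_mul_distrib, Finset.prod_mul_distrib]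
  congr 1
  rw [Finset.mul_sum, ← Finset.sum_neg_distrib, Real.exp_sum]
  congr 1
  rw [Finset.prod_ite_eq' Finset.univ (Fin.last m) t]
  simp

lemma kmr_set (m : ℕ) : {t : Fin (m + 1) → ℝ | ∀ i, 0 < t i} =
    Set.univ.pi (fun _ => Ioi (0:ℝ)) := by
  ext t
  simp [Set.mem_pi]

lemma kmr_JJ (q m : ℕ) (E : ℝ) (x : Fin (m + 1) → En q) :
    JJ q m E x = ∫ t : Fin (m + 1) → ℝ in {t | ∀ i, 0 < t i}, (t (Fin.last m) *
      Real.exp (-(E * ∑ i, t i)) * ∏ i, pt q (t i) (x i - x (i + 1))) := by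
  rw [kmr_set, volume_pi, Measure.restrict_pi_pi]
  simp_rw [← kmr_prod]
  rw [integral_fintype_prod_eq_prod (kmrF q m E x), Fin.prod_univ_castSucc]
  unfold JJ
  congr 1
  · refine Finset.prod_congr rfl fun i _ => ?_
    unfold HH kmrF
    refine setIntegral_congr_fun measurableSet_Ioi fun t ht => ?_
    have h1 : i.castSucc ≠ Fin.last m := (Fin.castSucc_lt_last i).ne
    simp only [if_neg h1, Fin.coeSucc_eq_succ]
    simp
  · unfold HH kmrF
    refine setIntegral_congr_fun measurableSet_Ioi fun t ht => ?_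
    simp

theorem kmRep (h3 : PtFacts) (h4 : HHFacts) : KmRep := by
  intro q m hq hm E hE x
  by_cases hx : ∀ i, x i ≠ x (i + 1)
  swap
  · push Not at hx
    obtain ⟨i, hi⟩ := hx
    have hJ : ∀ E' > 0, JJ q m E' x = 0 := by
      intro E' hE'
      unfold JJ
      rcases Fin.eq_castSucc_or_eq_last i with ⟨k, rfl⟩ | rfl
      · rw [Finset.prod_eq_zero (Finset.mem_univ k), zero_mul]
        rw [Fin.coeSucc_eq_succ] at hi
        rw [hi, sub_self, kmr_zero q 0 (Nat.zero_le _) E' hE']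
      · rw [Fin.last_add_one] at hi
        rw [hi, sub_self, kmr_zero q 1 hq E' hE', mul_zero]
    have hD : DJ q m E x = 0 := by
      unfold DJ DD
      refine Finset.sum_eq_zero fun k _ => ?_
      have := hJ ((1 + (k:ℝ)) * E) (by positivity)
      simp only [this, mul_zero]
    refine ⟨hD.ge, fun h => absurd hi (h i), ?_⟩
    rw [hD]
    simp
  -- main case
  set S : Set (Fin (m + 1) → ℝ) := {t | ∀ i, 0 < t i} with hS
  set P : (Fin (m + 1) → ℝ) → ℝ := fun t => ∏ i, pt q (t i) (x i - x (i + 1)) with hP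
  have hSm : MeasurableSet S := by
    rw [hS, kmr_set]
    exact MeasurableSet.univ_pi fun _ => measurableSet_Ioi
  have hint : ∀ E' > 0, IntegrableOn (fun t : Fin (m + 1) → ℝ => t (Fin.last m) *
      Real.exp (-(E' * ∑ i, t i)) * P t) S := by
    intro E' hE'
    rw [hS, kmr_set, IntegrableOn, volume_pi, Measure.restrict_pi_pi]
    simp_rw [hP, ← kmr_prod]
    refine Integrable.fintype_prod fun i => ?_
    have hxi : x i - x (i + 1) ≠ 0 := sub_ne_zero.2 (hx i)
    by_cases hi : i = Fin.last m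
    · have := ((h4 q 1).1 E' hE').2.2.2.2.2.1 (x i - x (i + 1)) (Or.inl hxi)
      refine this.congr_fun (fun t _ => ?_) measurableSet_Ioi
      unfold kmrF
      simp [hi]
    · have := ((h4 q 0).1 E' hE').2.2.2.2.2.1 (x i - x (i + 1)) (Or.inl hxi)
      refine this.congr_fun (fun t _ => ?_) measurableSet_Ioi
      unfold kmrF
      simp [hi]
  set I : (Fin (m + 1) → ℝ) → ℝ := fun t => t (Fin.last m) * Real.exp (-(E * ∑ i, t i)) *
        (1 - Real.exp (-(E * ∑ i, t i))) ^ (q - 1) * P t with hI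
  have hIeq : ∀ t, I t = ∑ k ∈ Finset.range (q - 1 + 1), (-1) ^ k * ((q - 1).choose k : ℝ) *
      (t (Fin.last m) * Real.exp (-(((1 + (k:ℝ)) * E) * ∑ i, t i)) * P t) := by
    intro t
    simp only [hI]
    have h1 : (1 - Real.exp (-(E * ∑ i, t i))) ^ (q - 1) =
        ∑ k ∈ Finset.range (q - 1 + 1), (-1) ^ k * ((q - 1).choose k : ℝ) *
          Real.exp (-((k:ℝ) * E * ∑ i, t i)) := by
      have h2 := add_pow (-Real.exp (-(E * ∑ i, t i))) 1 (q - 1)
      have h3 : 1 - Real.exp (-(E * ∑ i, t i)) = -Real.exp (-(E * ∑ i, t i)) + 1 := by ring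
      rw [h3, h2]
      refine Finset.sum_congr rfl fun k _ => ?_
      rw [one_pow, mul_one, neg_pow, ← Real.exp_nat_mul]
      have : (k:ℝ) * -(E * ∑ i, t i) = -((k:ℝ) * E * ∑ i, t i) := by ring
      rw [this]
      ring
    rw [h1, Finset.mul_sum, Finset.sum_mul]
    refine Finset.sum_congr rfl fun k _ => ?_
    have h4 : Real.exp (-(((1 + (k:ℝ)) * E) * ∑ i, t i)) =
        Real.exp (-(E * ∑ i, t i)) * Real.exp (-((k:ℝ) * E * ∑ i, t i)) := by
      rw [← Real.exp_add]
      congr 1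
      ring
    rw [h4]
    ring
  have hIint : IntegrableOn I S := by
    have : I = fun t => ∑ k ∈ Finset.range (q - 1 + 1), (-1) ^ k * ((q - 1).choose k : ℝ) *
      (t (Fin.last m) * Real.exp (-(((1 + (k:ℝ)) * E) * ∑ i, t i)) * P t) := funext hIeq
    rw [this]
    refine integrable_finsetSum _ fun k _ => ?_
    exact (hint ((1 + (k:ℝ)) * E) (by positivity)).const_mul _
  have hDJ : DJ q m E x = ∫ t in S, I t := by
    simp_rw [hIeq]
    rw [integral_finsetSum]
    · unfold DJ DD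
      refine Finset.sum_congr rfl fun k _ => ?_
      rw [integral_const_mul]
      congr 1
      exact kmr_JJ q m ((1 + (k:ℝ)) * E) x
    · intro k _
      exact (hint ((1 + (k:ℝ)) * E) (by positivity)).const_mul _
  have hPpos : ∀ t ∈ S, 0 < P t := by
    intro t ht
    exact Finset.prod_pos fun i _ => (h3 q).1 (t i) (ht i) _
  have hIpos : ∀ t ∈ S, 0 < I t := by
    intro t ht
    have hs : 0 < ∑ i, t i := Finset.sum_pos (fun i _ => ht i) ⟨0, Finset.mem_univ _⟩
    have h1 : Real.exp (-(E * ∑ i, t i)) < 1 := by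
      rw [Real.exp_lt_one_iff]
      have := mul_pos hE hs
      linarith
    have h2 : 0 < (1 - Real.exp (-(E * ∑ i, t i))) ^ (q - 1) := pow_pos (by linarith) _
    have h3 := hPpos t ht
    have h4 : 0 < t (Fin.last m) := ht _
    simp only [hI]
    positivity
  have hnn : 0 ≤ᵐ[volume.restrict S] I := by
    filter_upwards [ae_restrict_mem hSm] with t ht
    exact (hIpos t ht).le
  refine ⟨?_, fun _ => ?_, ?_⟩
  · rw [hDJ]
    exact integral_nonneg_of_ae hnn
  · rw [hDJ, setIntegral_pos_iff_support_of_nonneg_ae hnn hIint]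
    have h1 : Function.support I ∩ S = S := by
      apply inter_eq_right.2
      intro t ht
      exact (hIpos t ht).ne'
    rw [h1, hS, kmr_set, volume_pi, Measure.pi_pi]
    simp
  · rw [hDJ, ofReal_integral_eq_lintegral_ofReal hIint hnn]

end Pool.Agent.Work.MP_f2af60_mp

end

section

/-!
# MP_f2af60_mp: items Q27, Q28, Q29 (the numbers `κ(a)`, comparison of powers, limits of expansions)
-/

namespace Pool.Agent.Work.MP_f2af60_mp

open Filter Topology

/-! ## Q27 -/

lemma glim_kap_pow (p a : ℕ) (h : a < p) :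
    ∑ i ∈ Finset.range (p + 1), (-1 : ℝ) ^ i * (p.choose i : ℝ) * (1 + (i : ℝ)) ^ a = 0 := by
  have h0 := congrFun (fwdDiff_iter_pow_eq_zero_of_lt (R := ℝ) h) (1 : ℝ)
  rw [fwdDiff_iter_eq_sum_shift] at h0
  have h1 : ∑ k ∈ Finset.range (p + 1), ((-1 : ℤ) ^ (p - k) * (p.choose k : ℤ)) •
      ((1 : ℝ) + k • (1 : ℝ)) ^ a =
      (-1 : ℝ) ^ p * ∑ i ∈ Finset.range (p + 1),
        (-1 : ℝ) ^ i * (p.choose i : ℝ) * (1 + (i : ℝ)) ^ a := by
    rw [Finset.mul_sum]
    refine Finset.sum_congr rfl fun k hk => ?_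
    have hk' : k ≤ p := Nat.lt_succ_iff.mp (Finset.mem_range.mp hk)
    have h2 : (-1 : ℝ) ^ (p - k) = (-1 : ℝ) ^ p * (-1 : ℝ) ^ k := by
      have h3 : (-1 : ℝ) ^ p = (-1 : ℝ) ^ (p - k) * (-1 : ℝ) ^ k := by
        rw [← pow_add, Nat.sub_add_cancel hk']
      have h4 : (-1 : ℝ) ^ k * (-1 : ℝ) ^ k = 1 := by
        rw [← pow_add, ← two_mul, pow_mul]; norm_num
      rw [h3, mul_assoc, h4, mul_one]
    rw [zsmul_eq_mul]
    push_cast
    rw [h2]
    simp only [nsmul_eq_mul, mul_one]
    ring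
  have h5 : (-1 : ℝ) ^ p * ∑ i ∈ Finset.range (p + 1),
        (-1 : ℝ) ^ i * (p.choose i : ℝ) * (1 + (i : ℝ)) ^ a = 0 := by
    rw [← h1]; exact h0
  rcases mul_eq_zero.mp h5 with h6 | h6
  · exact absurd h6 (pow_ne_zero _ (by norm_num))
  · exact h6

lemma glim_kap_neg (p : ℕ) :
    ∑ i ∈ Finset.range (p + 1), (-1 : ℝ) ^ i * (p.choose i : ℝ) * (1 + (i : ℝ))⁻¹ =
      1 / ((p : ℝ) + 1) := by
  have h1 : ∀ i ∈ Finset.range (p + 1), (-1 : ℝ) ^ i * (p.choose i : ℝ) * (1 + (i : ℝ))⁻¹ =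
      (1 / ((p : ℝ) + 1)) * ((-1 : ℝ) ^ i * ((p + 1).choose (i + 1) : ℝ)) := by
    intro i _
    have h2 : ((p + 1 : ℕ) : ℝ) * (p.choose i : ℝ) = ((p + 1).choose (i + 1) : ℝ) * ((i + 1 : ℕ) : ℝ) := by
      exact_mod_cast Nat.add_one_mul_choose_eq p i
    have hp : ((p : ℝ) + 1) ≠ 0 := by positivity
    have hi : (1 + (i : ℝ)) ≠ 0 := by positivity
    push_cast at h2
    field_simp
    linear_combination h2
  rw [Finset.sum_congr rfl h1, ← Finset.mul_sum]
  have h3 : ∑ i ∈ Finset.range (p + 1), (-1 : ℝ) ^ i * ((p + 1).choose (i + 1) : ℝ) = 1 := by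
    have h4 : ∑ j ∈ Finset.range (p + 1 + 1), (-1 : ℝ) ^ j * ((p + 1).choose j : ℝ) = 0 := by
      have h5 := Int.alternating_sum_range_choose_of_ne (n := p + 1) (Nat.succ_ne_zero p)
      exact_mod_cast h5
    rw [Finset.sum_range_succ'] at h4
    have h6 : ∑ i ∈ Finset.range (p + 1), (-1 : ℝ) ^ (i + 1) * ((p + 1).choose (i + 1) : ℝ) =
        -∑ i ∈ Finset.range (p + 1), (-1 : ℝ) ^ i * ((p + 1).choose (i + 1) : ℝ) := by
      rw [← Finset.sum_neg_distrib]
      refine Finset.sum_congr rfl fun i _ => ?_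
      ring
    rw [h6] at h4
    simp only [pow_zero, Nat.choose_zero_right, Nat.cast_one, mul_one] at h4
    linarith
  rw [h3, mul_one]

/-- Q27. -/
theorem kapFacts : KapFacts := by
  intro q hq
  obtain ⟨p, rfl⟩ : ∃ p, q = p + 1 := ⟨q - 1, by omega⟩
  refine ⟨fun a ha => ?_, ?_⟩
  · unfold kap
    simp only [Nat.add_sub_cancel]
    have h := glim_kap_pow p a (by omega)
    rw [← h]
    refine Finset.sum_congr rfl fun i _ => ?_
    rw [Real.rpow_natCast]
  · unfold kap
    simp only [Nat.add_sub_cancel]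
    have h := glim_kap_neg p
    push_cast
    rw [← h]
    refine Finset.sum_congr rfl fun i _ => ?_
    rw [Real.rpow_neg_one]

/-! ## Q28 -/

/-- Q28. -/
theorem powGrowth : PowGrowth := by
  intro p e he β a ha hlim
  by_contra hne
  push Not at hne
  obtain ⟨j1, hj1⟩ := hne
  -- the maximal exponent with a nonzero coefficient
  obtain ⟨j0, hj0, hmax⟩ := Finset.exists_max_image (Finset.univ.filter fun j => β j ≠ 0) e
    ⟨j1, by simp [hj1]⟩
  have hβ0 : β j0 ≠ 0 := by simpa using hj0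
  have hlt : ∀ j, β j ≠ 0 → j ≠ j0 → e j < e j0 := by
    intro j hj hjj
    have h1 := hmax j (by simp [hj])
    exact lt_of_le_of_ne h1 fun h => hjj (he h)
  -- the normalised sum tends to `β j0`
  have hA : Tendsto (fun E : ℝ => ∑ j, β j * ((E ^ (e j - e j0) : ℝ) : ℂ)) atTop (𝓝 (β j0)) := by
    have h1 : ∀ j : Fin p, Tendsto (fun E : ℝ => β j * ((E ^ (e j - e j0) : ℝ) : ℂ)) atTop
        (𝓝 (if j = j0 then β j0 else 0)) := by
      intro j
      by_cases hj : β j = 0
      · have : j ≠ j0 := fun h => hβ0 (h ▸ hj)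
        simp [hj, this]
      · by_cases hjj : j = j0
        · subst hjj
          simp
        · simp only [hjj, if_false]
          have h2 : Tendsto (fun E : ℝ => E ^ (e j - e j0)) atTop (𝓝 0) := by
            have h3 := tendsto_rpow_neg_atTop (y := e j0 - e j) (by linarith [hlt j hj hjj])
            simpa [neg_sub] using h3
          have h4 : Tendsto (fun E : ℝ => ((E ^ (e j - e j0) : ℝ) : ℂ)) atTop (𝓝 ((0 : ℝ) : ℂ)) :=
            (Complex.continuous_ofReal.tendsto 0).comp h2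
          simpa using h4.const_mul (β j)
    have h2 := tendsto_finsetSum Finset.univ fun j _ => h1 j
    simpa using h2
  -- it also tends to `0`
  have hB : Tendsto (fun E : ℝ => ∑ j, β j * ((E ^ (e j - e j0) : ℝ) : ℂ)) atTop (𝓝 0) := by
    have h0 : a ≤ e j0 := ha j0
    rw [tendsto_zero_iff_norm_tendsto_zero] at hlim ⊢
    refine squeeze_zero' (Eventually.of_forall fun E => norm_nonneg _) ?_ hlim
    filter_upwards [eventually_ge_atTop (1 : ℝ)] with E hE
    have hE0 : 0 < E := by linarith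
    have h1 : ∑ j, β j * ((E ^ (e j - e j0) : ℝ) : ℂ) =
        ((∑ j, β j * ((E ^ e j : ℝ) : ℂ)) / ((E ^ a : ℝ) : ℂ)) * ((E ^ (a - e j0) : ℝ) : ℂ) := by
      rw [Finset.sum_div, Finset.sum_mul]
      refine Finset.sum_congr rfl fun j _ => ?_
      have h2 : E ^ (e j - e j0) = E ^ e j / E ^ a * E ^ (a - e j0) := by
        rw [← Real.rpow_sub hE0, ← Real.rpow_add hE0]
        congr 1; ring
      rw [h2]
      push_cast
      ring
    rw [h1, norm_mul]
    have h3 : ‖((E ^ (a - e j0) : ℝ) : ℂ)‖ ≤ 1 := by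
      rw [Complex.norm_real, Real.norm_of_nonneg (Real.rpow_nonneg hE0.le _)]
      exact Real.rpow_le_one_of_one_le_of_nonpos hE (by linarith)
    exact mul_le_of_le_one_right (norm_nonneg _) h3
  exact hβ0 (tendsto_nhds_unique hA hB)

/-! ## Q29 -/

/-- Q29. -/
theorem limClosure (h : PowGrowth) : LimClosure := by
  intro p e he b F G E0 hE0 hb
  -- a lower bound for the exponents
  obtain ⟨a, ha⟩ : ∃ a : ℝ, ∀ j, a ≤ e j := by
    refine ⟨-∑ j, |e j|, fun j => ?_⟩
    have h1 : |e j| ≤ ∑ j, |e j| :=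
      Finset.single_le_sum (f := fun j => |e j|) (fun i _ => abs_nonneg _) (Finset.mem_univ j)
    have h2 := neg_abs_le (e j)
    linarith
  have hcont : ∀ E : ℝ, Continuous fun v : Fin p → ℂ => ∑ j, v j * ((E ^ e j : ℝ) : ℂ) := by
    intro E
    fun_prop
  -- the coefficient vectors are frequently bounded
  obtain ⟨B, hB⟩ : ∃ B : ℝ, ∃ᶠ r in atTop, ‖b r‖ ≤ B := by
    by_contra hcon
    push Not at hcon
    have hinf : Tendsto (fun r => ‖b r‖) atTop atTop := by
      rw [tendsto_atTop]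
      intro B
      have h1 := hcon B
      filter_upwards [h1] with r hr
      exact le_of_lt (by simpa using hr)
    -- normalise
    have hsph : ∀ᶠ r in atTop, ((‖b r‖⁻¹ : ℝ) : ℂ) • b r ∈ Metric.sphere (0 : Fin p → ℂ) 1 := by
      filter_upwards [hinf.eventually_gt_atTop 0] with r hr
      rw [mem_sphere_zero_iff_norm, norm_smul, Complex.norm_real, Real.norm_of_nonneg
        (inv_nonneg.mpr hr.le), inv_mul_cancel₀ hr.ne']
    obtain ⟨bs, hbs, φ, hφ, hlim⟩ :=
      (isCompact_sphere (0 : Fin p → ℂ) 1).tendsto_subseq' hsph.frequently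
    have hz : ∀ E ≥ E0, ∑ j, bs j * ((E ^ e j : ℝ) : ℂ) = 0 := by
      intro E hE
      have h1 : Tendsto (fun n => ∑ j, (((‖b (φ n)‖⁻¹ : ℝ) : ℂ) • b (φ n)) j *
          ((E ^ e j : ℝ) : ℂ)) atTop (𝓝 (∑ j, bs j * ((E ^ e j : ℝ) : ℂ))) :=
        ((hcont E).tendsto bs).comp hlim
      have h2 : Tendsto (fun n => ∑ j, (((‖b (φ n)‖⁻¹ : ℝ) : ℂ) • b (φ n)) j *
          ((E ^ e j : ℝ) : ℂ)) atTop (𝓝 0) := by
        rw [tendsto_zero_iff_norm_tendsto_zero]
        have h3 : Tendsto (fun n => ‖b (φ n)‖⁻¹ * (‖F E‖ + G E + 1)) atTop (𝓝 0) := by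
          have h4 : Tendsto (fun n => ‖b (φ n)‖⁻¹) atTop (𝓝 0) :=
            tendsto_inv_atTop_zero.comp (hinf.comp hφ.tendsto_atTop)
          simpa using h4.mul_const (‖F E‖ + G E + 1)
        refine squeeze_zero' (Eventually.of_forall fun n => norm_nonneg _) ?_ h3
        filter_upwards [hφ.tendsto_atTop.eventually (hb E hE 1 one_pos)] with n hn
        have h5 : ∑ j, (((‖b (φ n)‖⁻¹ : ℝ) : ℂ) • b (φ n)) j * ((E ^ e j : ℝ) : ℂ) =
            ((‖b (φ n)‖⁻¹ : ℝ) : ℂ) * ∑ j, b (φ n) j * ((E ^ e j : ℝ) : ℂ) := by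
          rw [Finset.mul_sum]
          refine Finset.sum_congr rfl fun j _ => ?_
          simp only [Pi.smul_apply, smul_eq_mul]
          ring
        rw [h5, norm_mul, Complex.norm_real, Real.norm_of_nonneg (inv_nonneg.mpr (norm_nonneg _))]
        refine mul_le_mul_of_nonneg_left ?_ (inv_nonneg.mpr (norm_nonneg _))
        have h6 : ‖∑ j, b (φ n) j * ((E ^ e j : ℝ) : ℂ)‖ ≤
            ‖∑ j, b (φ n) j * ((E ^ e j : ℝ) : ℂ) - F E‖ + ‖F E‖ := by
          have := norm_add_le (∑ j, b (φ n) j * ((E ^ e j : ℝ) : ℂ) - F E) (F E)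
          simpa using this
        linarith
      exact tendsto_nhds_unique h1 h2
    have hbs0 : ∀ j, bs j = 0 := by
      refine h p e he bs a ha ?_
      refine Tendsto.congr' ?_ tendsto_const_nhds
      filter_upwards [eventually_ge_atTop E0] with E hE
      rw [hz E hE, zero_div]
    have h7 : bs = 0 := funext hbs0
    rw [h7] at hbs
    simp at hbs
  -- extract a convergent subsequence
  obtain ⟨β, -, φ, hφ, hlim⟩ :=
    (isCompact_closedBall (0 : Fin p → ℂ) B).tendsto_subseq' (x := b)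
      (hB.mono fun r hr => by simpa using hr)
  refine ⟨β, fun E hE => ?_, fun j hj => ?_⟩
  · refine le_of_forall_pos_le_add fun η hη => ?_
    have h1 : Tendsto (fun n => ‖∑ j, b (φ n) j * ((E ^ e j : ℝ) : ℂ) - F E‖) atTop
        (𝓝 ‖∑ j, β j * ((E ^ e j : ℝ) : ℂ) - F E‖) :=
      ((((hcont E).tendsto β).comp hlim).sub_const (F E)).norm
    exact le_of_tendsto h1 (hφ.tendsto_atTop.eventually (hb E hE η hη))
  · have h1 : Tendsto (fun n => b (φ n) j) atTop (𝓝 (β j)) :=
      ((continuous_apply j).tendsto β).comp hlim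
    have h2 : Tendsto (fun n => b (φ n) j) atTop (𝓝 0) :=
      Tendsto.congr' (EventuallyEq.symm (hφ.tendsto_atTop.eventually hj)) tendsto_const_nhds
    exact tendsto_nhds_unique h1 h2

end Pool.Agent.Work.MP_f2af60_mp

end

section

/-!
# MP_f2af60_mp, item Q14: the error terms of the closed chains
-/

namespace Pool.Agent.Work.MP_f2af60_mp

open MeasureTheory Metric Filter Topology

lemma gle_tel {ι : Type*} [DecidableEq ι] (s : Finset ι) (f g : ι → ℂ) (c : ι → ℝ) (e : ℝ)
    (hf : ∀ i, ‖f i‖ ≤ c i) (hg : ∀ i, ‖g i‖ ≤ c i) (he : ∀ i, ‖f i - g i‖ ≤ e) :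
    ‖∏ i ∈ s, f i - ∏ i ∈ s, g i‖ ≤ e * ∑ j ∈ s, ∏ i ∈ s.erase j, c i := by
  have hc : ∀ i, 0 ≤ c i := fun i => (norm_nonneg _).trans (hf i)
  induction s using Finset.induction_on with
  | empty => simp
  | insert a s ha ih =>
    have he0 : 0 ≤ e := (norm_nonneg _).trans (he a)
    rw [Finset.prod_insert ha, Finset.prod_insert ha, Finset.sum_insert ha,
      Finset.erase_insert ha]
    have h1 : f a * ∏ i ∈ s, f i - g a * ∏ i ∈ s, g i =
        (f a - g a) * ∏ i ∈ s, f i + g a * (∏ i ∈ s, f i - ∏ i ∈ s, g i) := by ring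
    have h2 : ∑ j ∈ s, ∏ i ∈ (insert a s).erase j, c i =
        c a * ∑ j ∈ s, ∏ i ∈ s.erase j, c i := by
      rw [Finset.mul_sum]
      refine Finset.sum_congr rfl (fun j hj => ?_)
      have hja : j ≠ a := fun h => ha (h ▸ hj)
      rw [Finset.erase_insert_of_ne hja.symm, Finset.prod_insert]
      intro h
      exact ha (Finset.mem_of_mem_erase h)
    rw [h1, h2, mul_add]
    refine (norm_add_le _ _).trans (add_le_add ?_ ?_)
    · rw [norm_mul]
      refine mul_le_mul (he a) ?_ (norm_nonneg _) he0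
      rw [norm_prod]
      exact Finset.prod_le_prod (fun i _ => norm_nonneg _) (fun i _ => hf i)
    · rw [norm_mul]
      calc ‖g a‖ * ‖∏ i ∈ s, f i - ∏ i ∈ s, g i‖ ≤
          c a * (e * ∑ j ∈ s, ∏ i ∈ s.erase j, c i) :=
            mul_le_mul (hg a) ih (norm_nonneg _) (hc a)
        _ = e * (c a * ∑ j ∈ s, ∏ i ∈ s.erase j, c i) := by ring

/-- The links of the closed chain. -/
noncomputable def gleA {K : Type*} [MetricSpace K] (q m : ℕ) (h l : K → K → ℂ)
    (x : Fin (m + 1) → K) (i : Fin (m + 1)) : ℂ :=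
  if i = Fin.last m then l (x i) (x (i + 1)) * ((((dist (x i) (x (i + 1))) ^ (2 * q - 1))⁻¹ : ℝ) : ℂ)
  else h (x i) (x (i + 1)) * ((((dist (x i) (x (i + 1))) ^ (2 * q + 1))⁻¹ : ℝ) : ℂ)

lemma gle_JC {K : Type*} [MetricSpace K] (q m : ℕ) (h l : C(K × K, ℂ)) (x : Fin (m + 1) → K) :
    JC q m h l x = ∏ i, gleA q m (fun x y => h (x, y)) (fun x y => l (x, y)) x i := by
  rw [Fin.prod_univ_castSucc]
  unfold JC gleA
  congr 1
  · refine Finset.prod_congr rfl (fun i _ => ?_)
    rw [if_neg (Fin.castSucc_lt_last i).ne, Fin.coeSucc_eq_succ]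
  · rw [if_pos rfl, Fin.last_add_one]

lemma gle_chi {K : Type*} [MetricSpace K] (q m : ℕ) (h l : C(K × K, ℂ)) (χ : C(K × K, ℝ))
    (x : Fin (m + 1) → K) :
    (∏ i, (χ (x i, x (i + 1)) : ℂ)) * JC q m h l x =
      ∏ i, gleA q m (fun x y => (χ (x, y) : ℂ) * h (x, y))
        (fun x y => (χ (x, y) : ℂ) * l (x, y)) x i := by
  rw [gle_JC, ← Finset.prod_mul_distrib]
  refine Finset.prod_congr rfl (fun i _ => ?_)
  unfold gleA
  split_ifs <;> ring

lemma gle_bound {K : Type*} [MetricSpace K] (q m : ℕ) (hq : 1 ≤ q) (D : ℝ) (hD : 1 ≤ D)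
    (hdist : ∀ x y : K, dist x y ≤ D) (h l : K → K → ℂ) (B : ℝ) (hh : ∀ x y, ‖h x y‖ ≤ B)
    (hl : ∀ x y, ‖l x y‖ ≤ B) (x : Fin (m + 1) → K) (i : Fin (m + 1)) :
    ‖gleA q m h l x i‖ ≤ B * D ^ 2 * ((dist (x i) (x (i + 1))) ^ (2 * q + 1))⁻¹ := by
  have hB : 0 ≤ B := (norm_nonneg _).trans (hh (x i) (x i))
  have hD2 : (1 : ℝ) ≤ D ^ 2 := one_le_pow₀ hD
  unfold gleA
  split_ifs with hi
  · rw [norm_mul, Complex.norm_real, Real.norm_of_nonneg (by positivity)]
    rcases eq_or_lt_of_le (dist_nonneg (x := x i) (y := x (i + 1))) with h0 | h0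
    · rw [← h0, zero_pow (by omega), zero_pow (by omega)]
      simp
    · set r := dist (x i) (x (i + 1)) with hr
      have e : (r ^ (2 * q - 1))⁻¹ = r ^ 2 * (r ^ (2 * q + 1))⁻¹ := by
        have : 2 * q + 1 = (2 * q - 1) + 2 := by omega
        rw [this, pow_add]
        field_simp
      rw [e]
      calc ‖l (x i) (x (i + 1))‖ * (r ^ 2 * (r ^ (2 * q + 1))⁻¹) ≤
          B * (D ^ 2 * (r ^ (2 * q + 1))⁻¹) := by
            gcongr
            · exact hl _ _
            · exact hdist _ _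
        _ = _ := by ring
  · rw [norm_mul, Complex.norm_real, Real.norm_of_nonneg (by positivity)]
    gcongr
    calc ‖h (x i) (x (i + 1))‖ ≤ B * 1 := by rw [mul_one]; exact hh _ _
      _ ≤ B * D ^ 2 := by gcongr

lemma gle_diff {K : Type*} [MetricSpace K] (q m : ℕ) (h l h₁ l₁ : K → K → ℂ) (e : ℝ) (he : 0 ≤ e)
    (hh : ∀ x y, ‖h₁ x y - h x y‖ ≤ e * dist x y ^ (2 * q + 1))
    (hl : ∀ x y, ‖l₁ x y - l x y‖ ≤ e * dist x y ^ (2 * q - 1))
    (x : Fin (m + 1) → K) (i : Fin (m + 1)) :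
    ‖gleA q m h l x i - gleA q m h₁ l₁ x i‖ ≤ e := by
  have key : ∀ (u v : ℂ) (r : ℝ) (n : ℕ), 0 ≤ r → ‖v - u‖ ≤ e * r ^ n →
      ‖u * (((r ^ n)⁻¹ : ℝ) : ℂ) - v * (((r ^ n)⁻¹ : ℝ) : ℂ)‖ ≤ e := by
    intro u v r n hr huv
    rw [← sub_mul, norm_mul, Complex.norm_real, Real.norm_of_nonneg (by positivity),
      norm_sub_rev]
    calc ‖v - u‖ * (r ^ n)⁻¹ ≤ e * r ^ n * (r ^ n)⁻¹ := by gcongr
      _ = e * (r ^ n * (r ^ n)⁻¹) := by ring
      _ ≤ e * 1 := by
        gcongr
        exact mul_inv_le_one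
      _ = e := mul_one e
  unfold gleA
  split_ifs with hi
  · exact key _ _ _ _ dist_nonneg (hl _ _)
  · exact key _ _ _ _ dist_nonneg (hh _ _)

lemma gle_bound1 {K : Type*} [MetricSpace K] (q m : ℕ) (hq : 1 ≤ q) (D : ℝ) (hD : 1 ≤ D)
    (hdist : ∀ x y : K, dist x y ≤ D) (h l h₁ l₁ : K → K → ℂ) (B : ℝ) (hh : ∀ x y, ‖h x y‖ ≤ B)
    (hl : ∀ x y, ‖l x y‖ ≤ B) (e : ℝ) (he : 0 ≤ e) (he1 : e ≤ 1)
    (hh1 : ∀ x y, ‖h₁ x y - h x y‖ ≤ e * dist x y ^ (2 * q + 1))
    (hl1 : ∀ x y, ‖l₁ x y - l x y‖ ≤ e * dist x y ^ (2 * q - 1))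
    (x : Fin (m + 1) → K) (i : Fin (m + 1)) :
    ‖gleA q m h₁ l₁ x i‖ ≤
      (B * D ^ 2 + D ^ (2 * q + 1)) * ((dist (x i) (x (i + 1))) ^ (2 * q + 1))⁻¹ := by
  have h1 := gle_bound q m hq D hD hdist h l B hh hl x i
  have h2 := gle_diff q m h l h₁ l₁ e he hh1 hl1 x i
  rcases eq_or_lt_of_le (dist_nonneg (x := x i) (y := x (i + 1))) with h0 | h0
  · have : gleA q m h₁ l₁ x i = 0 := by
      unfold gleA
      rw [← h0, zero_pow (by omega), zero_pow (by omega)]
      simp
    rw [this, ← h0, zero_pow (by omega)]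
    simp
  · have h3 : ‖gleA q m h₁ l₁ x i‖ ≤ ‖gleA q m h l x i‖ + 1 := by
      calc ‖gleA q m h₁ l₁ x i‖ = ‖gleA q m h l x i - (gleA q m h l x i - gleA q m h₁ l₁ x i)‖ := by
            congr 1; ring
        _ ≤ ‖gleA q m h l x i‖ + ‖gleA q m h l x i - gleA q m h₁ l₁ x i‖ := norm_sub_le _ _
        _ ≤ ‖gleA q m h l x i‖ + 1 := by gcongr; exact h2.trans he1
    have h4 : (1 : ℝ) ≤ D ^ (2 * q + 1) * ((dist (x i) (x (i + 1))) ^ (2 * q + 1))⁻¹ := by
      rw [← div_eq_mul_inv, one_le_div (by positivity)]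
      exact pow_le_pow_left₀ h0.le (hdist _ _) _
    rw [add_mul]
    linarith

lemma gle_meas {K : Type*} [MetricSpace K] [CompactSpace K] [MeasurableSpace K] [BorelSpace K]
    (q m : ℕ) (h l : C(K × K, ℂ)) (i : Fin (m + 1)) :
    Measurable (fun x : Fin (m + 1) → K =>
      gleA q m (fun x y => h (x, y)) (fun x y => l (x, y)) x i) := by
  have hp : Continuous (fun x : Fin (m + 1) → K => (x i, x (i + 1))) := by fun_prop
  have hd : Continuous (fun x : Fin (m + 1) → K => dist (x i) (x (i + 1))) := by fun_prop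
  have hinv : ∀ n : ℕ, Measurable (fun x : Fin (m + 1) → K =>
      ((((dist (x i) (x (i + 1))) ^ n)⁻¹ : ℝ) : ℂ)) := fun n =>
    Complex.measurable_ofReal.comp ((hd.pow n).measurable.inv)
  unfold gleA
  by_cases hi : i = Fin.last m
  · simp only [if_pos hi]
    exact (l.continuous.comp hp).measurable.mul (hinv _)
  · simp only [if_neg hi]
    exact (h.continuous.comp hp).measurable.mul (hinv _)

theorem limErr (h12 : ChainCut) : LimErr := by
  intro q hq K _ _ _ _ μ C hμ V hV M hM m B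
  obtain ⟨D0, hD0⟩ : ∃ D0 : ℝ, ∀ x y : K, dist x y ≤ D0 := by
    obtain ⟨C0, hC0⟩ := Metric.isBounded_iff.1 (isCompact_univ (X := K)).isBounded
    exact ⟨C0, fun x y => hC0 (Set.mem_univ _) (Set.mem_univ _)⟩
  set D : ℝ := max D0 1 with hD
  have hD1 : 1 ≤ D := le_max_right _ _
  have hdist : ∀ x y : K, dist x y ≤ D := fun x y => (hD0 x y).trans (le_max_left _ _)
  set C2 : ℝ := |B| * D ^ 2 + D ^ (2 * q + 1) with hC2
  have hC20 : 0 ≤ C2 := by positivity
  set W : (Fin (m + 1) → K) → ℝ := fun x => ∑ j, ∏ i ∈ Finset.univ.erase j,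
    ((dist (x i) (x (i + 1))) ^ (2 * q + 1))⁻¹ with hW
  have hWi : Integrable W (Measure.pi fun _ => μ) := by
    rw [hW]
    exact integrable_finsetSum _ (fun j _ => h12 q hq K μ C hμ m j)
  refine ⟨|M| ^ (m + 1) * C2 ^ m * ∫ x, W x ∂(Measure.pi fun _ => μ), ?_⟩
  intro h l h₁ l₁ χ ε hh hl hε0 hε1 hχ hh1 hl1
  have hχn : ∀ p, ‖(χ p : ℂ)‖ ≤ 1 := fun p => by
    rw [Complex.norm_real, Real.norm_of_nonneg (hχ p).1]
    exact (hχ p).2
  have bh : ∀ x y, ‖(χ (x, y) : ℂ) * h (x, y)‖ ≤ |B| := fun x y => by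
    rw [norm_mul]
    calc ‖(χ (x, y) : ℂ)‖ * ‖h (x, y)‖ ≤ 1 * |B| :=
          mul_le_mul (hχn _) ((h.norm_coe_le_norm _).trans (hh.trans (le_abs_self B)))
            (norm_nonneg _) zero_le_one
      _ = |B| := one_mul _
  have bl : ∀ x y, ‖(χ (x, y) : ℂ) * l (x, y)‖ ≤ |B| := fun x y => by
    rw [norm_mul]
    calc ‖(χ (x, y) : ℂ)‖ * ‖l (x, y)‖ ≤ 1 * |B| :=
          mul_le_mul (hχn _) ((l.norm_coe_le_norm _).trans (hl.trans (le_abs_self B)))
            (norm_nonneg _) zero_le_one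
      _ = |B| := one_mul _
  have hpt : ∀ x : Fin (m + 1) → K, ‖(∏ i, (V (x i) : ℂ)) *
      ((∏ i, (χ (x i, x (i + 1)) : ℂ)) * JC q m h l x - JC q m h₁ l₁ x)‖ ≤
      |M| ^ (m + 1) * C2 ^ m * ε * W x := by
    intro x
    rw [norm_mul, gle_chi, gle_JC]
    have h1 := gle_tel Finset.univ
      (fun i => gleA q m (fun x y => (χ (x, y) : ℂ) * h (x, y))
        (fun x y => (χ (x, y) : ℂ) * l (x, y)) x i)
      (fun i => gleA q m (fun x y => h₁ (x, y)) (fun x y => l₁ (x, y)) x i)
      (fun i => C2 * ((dist (x i) (x (i + 1))) ^ (2 * q + 1))⁻¹) ε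
      (fun i => by
        refine (gle_bound q m hq D hD1 hdist _ _ |B| bh bl x i).trans ?_
        gcongr
        rw [hC2]
        have : 0 ≤ D ^ (2 * q + 1) := by positivity
        linarith)
      (fun i => gle_bound1 q m hq D hD1 hdist _ _ _ _ |B| bh bl ε hε0 hε1 hh1 hl1 x i)
      (fun i => gle_diff q m _ _ _ _ ε hε0 hh1 hl1 x i)
    have h2 : ∑ j, ∏ i ∈ Finset.univ.erase j,
        (C2 * ((dist (x i) (x (i + 1))) ^ (2 * q + 1))⁻¹) = C2 ^ m * W x := by
      rw [hW, Finset.mul_sum]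
      refine Finset.sum_congr rfl (fun j _ => ?_)
      rw [Finset.prod_mul_distrib, Finset.prod_const, Finset.card_erase_of_mem (Finset.mem_univ _),
        Finset.card_univ, Fintype.card_fin, Nat.add_sub_cancel]
    rw [h2] at h1
    have h3 : ‖∏ i, (V (x i) : ℂ)‖ ≤ |M| ^ (m + 1) := by
      rw [norm_prod]
      calc ∏ i, ‖(V (x i) : ℂ)‖ ≤ ∏ _i : Fin (m + 1), |M| := by
            refine Finset.prod_le_prod (fun i _ => norm_nonneg _) (fun i _ => ?_)
            rw [Complex.norm_real]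
            exact (hM _).trans (le_abs_self M)
        _ = |M| ^ (m + 1) := by simp
    calc _ ≤ |M| ^ (m + 1) * (ε * (C2 ^ m * W x)) :=
          mul_le_mul h3 h1 (norm_nonneg _) (by positivity)
      _ = _ := by ring
  have hmeas : AEStronglyMeasurable (fun x : Fin (m + 1) → K => (∏ i, (V (x i) : ℂ)) *
      ((∏ i, (χ (x i, x (i + 1)) : ℂ)) * JC q m h l x - JC q m h₁ l₁ x))
      (Measure.pi fun _ => μ) := by
    apply Measurable.aestronglyMeasurable
    have m1 : Measurable (fun x : Fin (m + 1) → K => ∏ i, (V (x i) : ℂ)) :=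
      Finset.measurable_prod _ (fun i _ =>
        Complex.measurable_ofReal.comp (hV.comp (measurable_pi_apply i)))
    have m2 : ∀ h l : C(K × K, ℂ), Measurable (fun x : Fin (m + 1) → K => JC q m h l x) := by
      intro h l
      simp only [gle_JC]
      exact Finset.measurable_prod _ (fun i _ => gle_meas q m h l i)
    have m3 : Measurable (fun x : Fin (m + 1) → K => ∏ i, (χ (x i, x (i + 1)) : ℂ)) :=
      Finset.measurable_prod _ (fun i _ => Complex.measurable_ofReal.comp
        (χ.continuous.comp (by fun_prop : Continuous (fun x : Fin (m + 1) → K =>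
          (x i, x (i + 1))))).measurable)
    exact m1.mul ((m3.mul (m2 h l)).sub (m2 h₁ l₁))
  have hbi : Integrable (fun x => |M| ^ (m + 1) * C2 ^ m * ε * W x) (Measure.pi fun _ => μ) :=
    hWi.const_mul _
  refine ⟨hbi.mono' hmeas (Filter.Eventually.of_forall hpt), ?_⟩
  calc _ ≤ ∫ x, |M| ^ (m + 1) * C2 ^ m * ε * W x ∂(Measure.pi fun _ => μ) :=
        norm_integral_le_of_norm_le hbi (Filter.Eventually.of_forall hpt)
    _ = _ := by rw [integral_const_mul]; ring

end Pool.Agent.Work.MP_f2af60_mp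

end

section

/-!
# MP_f2af60_mp, item Q15: the limit of the chain integrals
-/

namespace Pool.Agent.Work.MP_f2af60_mp

open MeasureTheory Metric Filter Topology

/-- The inclusion of a product of closed balls is measure preserving. -/
lemma lj_mp (q m : ℕ) (R : ℝ) :
    MeasurePreserving (fun (x : Fin (m + 1) → closedBall (0 : En q) R) i => (x i : En q))
      (Measure.pi fun _ => muQ q R)
      (Measure.pi fun _ => (volume : Measure (En q)).restrict (closedBall 0 R)) := by
  refine measurePreserving_pi (fun _ => muQ q R)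
    (fun _ => (volume : Measure (En q)).restrict (closedBall 0 R))
    (f := fun _ (y : closedBall (0 : En q) R) => (y : En q)) (fun _ => ?_)
  exact ⟨measurable_subtype_coe, map_comap_subtype_coe isClosed_closedBall.measurableSet _⟩

/-- The inclusion of a product of closed balls is a measurable embedding. -/
lemma lj_emb (q m : ℕ) (R : ℝ) :
    MeasurableEmbedding (fun (x : Fin (m + 1) → closedBall (0 : En q) R) i => (x i : En q)) := by
  have hc : Continuous (fun (x : Fin (m + 1) → closedBall (0 : En q) R) i => (x i : En q)) := by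
    fun_prop
  apply (hc.isClosedEmbedding _).measurableEmbedding
  intro x y hxy
  funext i
  exact Subtype.ext (congrFun hxy i)

/-- Transfer of integrals. -/
lemma lj_int (q m : ℕ) (R : ℝ) (F : (Fin (m + 1) → En q) → ℝ)
    (hF : ∀ x, (∃ i, R < ‖x i‖) → F x = 0) (hI : Integrable F) :
    Integrable (fun x : Fin (m + 1) → closedBall (0 : En q) R => F (fun i => (x i : En q)))
      (Measure.pi fun _ => muQ q R) ∧
    ∫ x : Fin (m + 1) → closedBall (0 : En q) R, F (fun i => (x i : En q))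
      ∂(Measure.pi fun _ => muQ q R) = ∫ x, F x := by
  have e1 : (Measure.pi fun _ : Fin (m + 1) => (volume : Measure (En q)).restrict
      (closedBall 0 R)) = (volume : Measure (Fin (m + 1) → En q)).restrict
        (Set.univ.pi fun _ => closedBall 0 R) := by
    rw [volume_pi, Measure.restrict_pi_pi]
  constructor
  · have h1 := (lj_mp q m R).integrable_comp_emb (lj_emb q m R) (g := F)
    rw [e1] at h1
    exact h1.2 hI.restrict
  · have h1 := (lj_mp q m R).integral_comp (lj_emb q m R) F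
    rw [h1, e1]
    apply setIntegral_eq_integral_of_forall_compl_eq_zero
    intro x hx
    apply hF
    by_contra hcon
    push Not at hcon
    apply hx
    intro i _
    rw [mem_closedBall_zero_iff]
    exact hcon i

/-- Almost every configuration has distinct consecutive points. -/
lemma lj_ae (q m : ℕ) (hm : 1 ≤ m) (R : ℝ) :
    ∀ᵐ x : Fin (m + 1) → closedBall (0 : En q) R ∂(Measure.pi fun _ => muQ q R),
      ∀ i, x i ≠ x (i + 1) := by
  rw [ae_all_iff]
  intro i
  have hi : i ≠ i + 1 := by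
    intro h
    have h1 : (1 : Fin (m + 1)) = 0 := by
      have := h.symm
      rwa [add_eq_left] at this
    rw [Fin.one_eq_zero_iff] at h1
    omega
  rw [ae_iff]
  have e1 : {x : Fin (m + 1) → closedBall (0 : En q) R | ¬ x i ≠ x (i + 1)} =
      (fun (x : Fin (m + 1) → closedBall (0 : En q) R) i => (x i : En q)) ⁻¹'
        {y : Fin (m + 1) → En q | y i = y (i + 1)} := by
    ext x
    simp only [ne_eq, not_not, Set.mem_ofPred_eq, Set.mem_preimage, SetCoe.ext_iff]
  rw [e1, (lj_mp q m R).measure_preimage_emb (lj_emb q m R)]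
  have e2 : (Measure.pi fun _ : Fin (m + 1) => (volume : Measure (En q)).restrict
      (closedBall 0 R)) = (volume : Measure (Fin (m + 1) → En q)).restrict
        (Set.univ.pi fun _ => closedBall 0 R) := by
    rw [volume_pi, Measure.restrict_pi_pi]
  rw [e2]
  refine le_antisymm ((Measure.restrict_le_self _).trans (le_of_eq ?_)) bot_le
  set S : Submodule ℝ (Fin (m + 1) → En q) :=
    LinearMap.ker (LinearMap.proj (R := ℝ) (φ := fun _ : Fin (m + 1) => En q) i -
      LinearMap.proj (i + 1)) with hS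
  have e3 : {y : Fin (m + 1) → En q | y i = y (i + 1)} = (S : Set (Fin (m + 1) → En q)) := by
    ext y
    simp [hS, sub_eq_zero]
  rw [e3]
  apply Measure.addHaar_submodule
  intro htop
  obtain ⟨v, hv⟩ := exists_ne (0 : En q)
  have h1 : (Pi.single i v : Fin (m + 1) → En q) ∈ S := by
    rw [htop]
    trivial
  rw [hS, LinearMap.mem_ker] at h1
  simp only [LinearMap.sub_apply, LinearMap.proj_apply, Pi.single_eq_same] at h1
  rw [Pi.single_eq_of_ne hi.symm, sub_zero] at h1
  exact hv h1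

/-- The chain in terms of the kernels of the resolvent. -/
lemma lj_JC (h2 : Subord) (q m : ℕ) (hq : 1 ≤ q) (R E : ℝ) (hE : 0 < E)
    (h l : C(closedBall (0 : En q) R × closedBall (0 : En q) R, ℂ))
    (hh : ∀ x y, h (x, y) = eb q (Complex.I * (Real.sqrt E : ℂ) * ((dist x y : ℝ) : ℂ)))
    (hl : ∀ x y, l (x, y) = eb (q - 1) (Complex.I * (Real.sqrt E : ℂ) *
      ((dist x y : ℝ) : ℂ)) / (4 * (Real.pi : ℂ)))
    (x : Fin (m + 1) → closedBall (0 : En q) R) (hx : ∀ i, x i ≠ x (i + 1)) :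
    JC q m h l x = ((JJ q m E (fun j => (x j : En q)) : ℝ) : ℂ) := by
  have hk : ∀ a b : closedBall (0 : En q) R, a ≠ b →
      h (a, b) * ((((dist a b) ^ (2 * q + 1))⁻¹ : ℝ) : ℂ) =
        ((HH q 0 E ((a : En q) - (b : En q)) : ℝ) : ℂ) := by
    intro a b hab
    have hab' : (a : En q) - (b : En q) ≠ 0 := sub_ne_zero.2 (fun h => hab (Subtype.ext h))
    rw [← (h2 q E _ hE hab').1, hh, Subtype.dist_eq, dist_eq_norm, div_eq_mul_inv]
    push_cast
    rfl
  have hk1 : ∀ a b : closedBall (0 : En q) R, a ≠ b →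
      l (a, b) * ((((dist a b) ^ (2 * q - 1))⁻¹ : ℝ) : ℂ) =
        ((HH q 1 E ((a : En q) - (b : En q)) : ℝ) : ℂ) := by
    intro a b hab
    have hab' : (a : En q) - (b : En q) ≠ 0 := sub_ne_zero.2 (fun h => hab (Subtype.ext h))
    rw [← (h2 q E _ hE hab').2 hq, hl, Subtype.dist_eq, dist_eq_norm]
    push_cast
    simp only [div_eq_mul_inv, mul_inv]
    ring
  unfold JC JJ
  push_cast
  congr 1
  · apply Finset.prod_congr rfl
    intro i _
    have h3 : x i.castSucc ≠ x i.succ := by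
      have h4 := hx i.castSucc
      rwa [Fin.coeSucc_eq_succ] at h4
    have h5 := hk _ _ h3
    push_cast at h5
    exact h5
  · have h3 : x (Fin.last m) ≠ x 0 := by
      have h4 := hx (Fin.last m)
      rwa [Fin.last_add_one] at h4
    have h5 := hk1 _ _ h3
    push_cast at h5
    exact h5

/-- The finite difference of the chains. -/
lemma lj_DJ (h2 : Subord) (q m : ℕ) (hq : 1 ≤ q) (R E : ℝ) (hE : 0 < E)
    (h l : ℕ → C(closedBall (0 : En q) R × closedBall (0 : En q) R, ℂ))
    (hh : ∀ i x y, h i (x, y) = eb q (Complex.I * (Real.sqrt ((1 + (i : ℝ)) * E) : ℂ) *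
      ((dist x y : ℝ) : ℂ)))
    (hl : ∀ i x y, l i (x, y) = eb (q - 1) (Complex.I * (Real.sqrt ((1 + (i : ℝ)) * E) : ℂ) *
      ((dist x y : ℝ) : ℂ)) / (4 * (Real.pi : ℂ)))
    (x : Fin (m + 1) → closedBall (0 : En q) R) (hx : ∀ i, x i ≠ x (i + 1)) :
    ∑ i ∈ Finset.range q, (-1) ^ i * ((q - 1).choose i : ℂ) * JC q m (h i) (l i) x =
      ((DJ q m E (fun j => (x j : En q)) : ℝ) : ℂ) := by
  unfold DJ DD
  rw [Nat.sub_add_cancel hq]
  push_cast
  apply Finset.sum_congr rfl
  intro i _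
  rw [lj_JC h2 q m hq R ((1 + (i : ℝ)) * E) (by positivity) (h i) (l i) (hh i) (hl i) x hx]

/-- Item Q15. -/
theorem limJ (h2 : Subord) (h33 : KmFacts) (h14 : LimErr) (h5 : SpBallQ) : LimJ := by
  intro q m hq hm R hR V hV M hM hV0 E hE h l h₁ l₁ χ ε δ hh hl hχ hχ0 hh1 hl1 hε hδ hint
  have hm1 : 1 ≤ m := (Finset.mem_Icc.1 hm).1
  obtain ⟨C, hC, hSp⟩ := h5 q R hR
  have hfin : IsFiniteMeasure (muQ q R) := hSp.fin
  set P : Measure (Fin (m + 1) → closedBall (0 : En q) R) := Measure.pi fun _ => muQ q R with hP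
  -- the total integrand
  set G : (Fin (m + 1) → closedBall (0 : En q) R) → ℝ := fun x =>
    (∏ j, V (x j)) * DJ q m E (fun j => (x j : En q)) with hG
  have hF0 : ∀ x : Fin (m + 1) → En q, (∃ i, R < ‖x i‖) → (∏ j, V (x j)) * DJ q m E x = 0 := by
    rintro x ⟨i, hi⟩
    rw [Finset.prod_eq_zero (Finset.mem_univ i) (hV0 _ hi), zero_mul]
  have hFI := (h33 q m hq hm1).2.2.2.2 E hE V hV M R hM hV0
  obtain ⟨hGI, hGint⟩ := lj_int q m R _ hF0 hFI
  have hGI' : Integrable G P := hGI
  have hGint' : ∫ x, G x ∂P = ∫ x : Fin (m + 1) → En q, (∏ j, V (x j)) * DJ q m E x := hGint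
  -- the cutoff product
  set X : ℕ → (Fin (m + 1) → closedBall (0 : En q) R) → ℝ := fun r x =>
    ∏ i, χ r (x i, x (i + 1)) with hX
  have hX01 : ∀ r x, 0 ≤ X r x ∧ X r x ≤ 1 := fun r x =>
    ⟨Finset.prod_nonneg fun i _ => (hχ r _).1,
      Finset.prod_le_one (fun i _ => (hχ r _).1) (fun i _ => (hχ r _).2)⟩
  have hXc : ∀ r, Continuous (X r) := by
    intro r
    apply continuous_finsetProd
    intro i _
    exact (χ r).continuous.comp (by fun_prop)
  have hdom : Tendsto (fun r => ∫ x, (1 - X r x) * G x ∂P) atTop (𝓝 (∫ x, G x ∂P)) := by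
    apply tendsto_integral_of_dominated_convergence (fun x => |G x|)
    · intro r
      exact ((continuous_const.sub (hXc r)).aestronglyMeasurable).mul hGI'.aestronglyMeasurable
    · exact hGI'.abs
    · intro r
      filter_upwards with x
      rw [norm_mul, Real.norm_eq_abs, Real.norm_eq_abs]
      have h1 : |1 - X r x| ≤ 1 := by
        rw [abs_le]
        have := hX01 r x
        constructor <;> linarith
      exact mul_le_of_le_one_left (abs_nonneg _) h1
    · filter_upwards [lj_ae q m hm1 R] with x hx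
      have h1 : 0 < dist (x 0) (x (0 + 1)) := dist_pos.2 (hx 0)
      have h3 : ∀ᶠ r in atTop, (1 - X r x) * G x = G x := by
        filter_upwards [hδ.eventually (gt_mem_nhds h1)] with r hr
        have h4 : X r x = 0 := by
          apply Finset.prod_eq_zero (Finset.mem_univ (0 : Fin (m + 1)))
          exact hχ0 r _ _ hr.le
        rw [h4, sub_zero, one_mul]
      exact tendsto_const_nhds.congr' (h3.mono fun r hr => hr.symm)
  -- the error terms
  set V' : closedBall (0 : En q) R → ℝ := fun x => V x with hV'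
  have hV'm : Measurable V' := hV.comp measurable_subtype_coe
  set B : ℝ := ∑ i ∈ Finset.range q, (‖h i‖ + ‖l i‖) with hB
  have hBh : ∀ i < q, ‖h i‖ ≤ B ∧ ‖l i‖ ≤ B := by
    intro i hi
    have h1 : ‖h i‖ + ‖l i‖ ≤ B := Finset.single_le_sum
      (f := fun i => ‖h i‖ + ‖l i‖) (fun i _ => by positivity) (Finset.mem_range.2 hi)
    constructor
    · linarith [norm_nonneg (l i)]
    · linarith [norm_nonneg (h i)]
  obtain ⟨C₁, hC₁⟩ := h14 q hq (closedBall (0 : En q) R) (muQ q R) C hSp V' hV'm M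
    (fun x => hM x) m B
  have hεa : Tendsto (fun r => |ε r|) atTop (𝓝 0) := by
    have := hε.abs
    rwa [abs_zero] at this
  have hε1 : ∀ᶠ r in atTop, |ε r| ≤ 1 :=
    (hεa.eventually (gt_mem_nhds one_pos)).mono fun r hr => hr.le
  set Err : ℕ → ℕ → (Fin (m + 1) → closedBall (0 : En q) R) → ℂ := fun r i x =>
    (∏ j, (V' (x j) : ℂ)) * ((∏ j, (χ r (x j, x (j + 1)) : ℂ)) * JC q m (h i) (l i) x -
      JC q m (h₁ r i) (l₁ r i) x) with hErr
  have herr : ∀ r, |ε r| ≤ 1 → ∀ i < q, Integrable (Err r i) P ∧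
      ‖∫ x, Err r i x ∂P‖ ≤ C₁ * |ε r| := by
    intro r hr i hi
    apply hC₁ (h i) (l i) (h₁ r i) (l₁ r i) (χ r) |ε r| (hBh i hi).1 (hBh i hi).2 (abs_nonneg _)
      hr (hχ r)
    · intro x y
      exact (hh1 r i hi x y).trans (mul_le_mul_of_nonneg_right (le_abs_self _) (by positivity))
    · intro x y
      exact (hl1 r i hi x y).trans (mul_le_mul_of_nonneg_right (le_abs_self _) (by positivity))
  set Tot : ℕ → ℕ → (Fin (m + 1) → closedBall (0 : En q) R) → ℂ := fun r i x =>
    (∏ j, (V (x j) : ℂ)) * (JC q m (h i) (l i) x - JC q m (h₁ r i) (l₁ r i) x) with hTot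
  -- the decomposition
  have hdec : ∀ r, |ε r| ≤ 1 → ∑ i ∈ Finset.range q, (-1) ^ i * ((q - 1).choose i : ℂ) *
      ∫ x, Tot r i x ∂P = ((∫ x, (1 - X r x) * G x ∂P : ℝ) : ℂ) +
        ∑ i ∈ Finset.range q, (-1) ^ i * ((q - 1).choose i : ℂ) * ∫ x, Err r i x ∂P := by
    intro r hr
    have hA : ∀ i < q, Integrable (fun x => Tot r i x - Err r i x) P := fun i hi =>
      (hint r i hi).sub (herr r hr i hi).1
    have h1 : ∀ i ∈ Finset.range q, (-1) ^ i * ((q - 1).choose i : ℂ) * ∫ x, Tot r i x ∂P =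
        (∫ x, (-1) ^ i * ((q - 1).choose i : ℂ) * (Tot r i x - Err r i x) ∂P) +
          (-1) ^ i * ((q - 1).choose i : ℂ) * ∫ x, Err r i x ∂P := by
      intro i hi
      rw [Finset.mem_range] at hi
      rw [integral_const_mul, integral_sub (hint r i hi) (herr r hr i hi).1]
      ring
    rw [Finset.sum_congr rfl h1, Finset.sum_add_distrib]
    congr 1
    rw [← integral_finsetSum _ (fun i hi => (hA i (Finset.mem_range.1 hi)).const_mul _),
      ← integral_complex_ofReal]
    apply integral_congr_ae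
    filter_upwards [lj_ae q m hm1 R] with x hx
    have h3 := lj_DJ h2 q m hq R E hE h l hh hl x hx
    have h4 : ∀ i ∈ Finset.range q, (-1) ^ i * ((q - 1).choose i : ℂ) *
        (Tot r i x - Err r i x) = (1 - (X r x : ℂ)) * (∏ j, (V (x j) : ℂ)) *
          ((-1) ^ i * ((q - 1).choose i : ℂ) * JC q m (h i) (l i) x) := by
      intro i _
      simp only [hTot, hErr, hX, hV']
      push_cast
      ring
    rw [Finset.sum_congr rfl h4, ← Finset.mul_sum, h3]
    simp only [hG]
    push_cast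
    ring
  have herr0 : Tendsto (fun r => ∑ i ∈ Finset.range q, (-1) ^ i * ((q - 1).choose i : ℂ) *
      ∫ x, Err r i x ∂P) atTop (𝓝 0) := by
    have h8 : ∀ i ∈ Finset.range q, Tendsto (fun r => (-1) ^ i * ((q - 1).choose i : ℂ) *
        ∫ x, Err r i x ∂P) atTop (𝓝 0) := by
      intro i hi
      rw [Finset.mem_range] at hi
      have h1 : Tendsto (fun r => ∫ x, Err r i x ∂P) atTop (𝓝 0) := by
        apply squeeze_zero_norm' (a := fun r => C₁ * |ε r|)
        · filter_upwards [hε1] with r hr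
          exact (herr r hr i hi).2
        · have := hεa.const_mul C₁
          rwa [mul_zero] at this
      have := h1.const_mul ((-1) ^ i * ((q - 1).choose i : ℂ))
      rwa [mul_zero] at this
    have h9 := tendsto_finsetSum _ h8
    rwa [Finset.sum_const_zero] at h9
  have hmain : Tendsto (fun r => ((∫ x, (1 - X r x) * G x ∂P : ℝ) : ℂ) +
      ∑ i ∈ Finset.range q, (-1) ^ i * ((q - 1).choose i : ℂ) * ∫ x, Err r i x ∂P) atTop
      (𝓝 ((∫ x : Fin (m + 1) → En q, (∏ j, V (x j)) * DJ q m E x : ℝ) : ℂ)) := by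
    rw [← hGint', ← add_zero (((∫ x, G x ∂P : ℝ) : ℂ))]
    exact ((Complex.continuous_ofReal.tendsto _).comp hdom).add herr0
  exact hmain.congr' (hε1.mono fun r hr => (hdec r hr).symm)

end Pool.Agent.Work.MP_f2af60_mp

end

section

/-!
# MP_f2af60_mp, all odd dimensions: assembly, part 1 (operators)
-/

namespace Pool.Agent.Work.MP_f2af60_mp

open MeasureTheory Metric Filter Topology

section GLoc

variable {K : Type} [MetricSpace K] [CompactSpace K] [MeasurableSpace K] [BorelSpace K]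

variable {q : ℕ} (μ : Measure K) (C : ℝ) (hS : SpQ q μ C) (V : K → ℝ) (hV : Measurable V) (M : ℝ)
  (hM : ∀ x, |V x| ≤ M)

include hS hV hM in
/-- integrability of the density against continuous functions. -/
lemma gm_integrable_cont (f g : C(K, ℂ)) : Integrable (fun y => f y * (V y : ℂ) * g y) μ := by
  have := hS.fin
  have hc : Continuous (fun y => f y * g y) := by fun_prop
  have h1 : Integrable (fun y => f y * g y) μ :=
    hc.integrable_of_hasCompactSupport (HasCompactSupport.of_compactSpace _)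
  have h2 : Integrable (fun y => (V y : ℂ) * (f y * g y)) μ := by
    refine h1.bdd_mul (c := M) ?_ ?_
    · exact (Complex.measurable_ofReal.comp hV).aestronglyMeasurable
    · refine Eventually.of_forall fun y => ?_
      rw [Complex.norm_real]; exact hM y
  refine h2.congr (Eventually.of_forall fun y => ?_)
  show (V y : ℂ) * (f y * g y) = f y * (V y : ℂ) * g y
  ring

include hS hV hM in
/-- the functional `u ↦ ∫ ψ V u`. -/
lemma gm_exists_functional (ψ : C(K, ℂ)) :
    ∃ P : C(K, ℂ) →L[ℂ] ℂ, (∀ u, P u = ∫ y, ψ y * (V y : ℂ) * u y ∂μ) ∧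
      ‖P‖ ≤ ‖ψ‖ * |M| * μ.real Set.univ := by
  have := hS.fin
  let L : C(K, ℂ) →ₗ[ℂ] ℂ :=
    { toFun := fun u => ∫ y, ψ y * (V y : ℂ) * u y ∂μ
      map_add' := by
        intro u v
        rw [← integral_add (gm_integrable_cont μ C hS V hV M hM ψ u)
          (gm_integrable_cont μ C hS V hV M hM ψ v)]
        refine integral_congr_ae (Eventually.of_forall fun y => ?_)
        simp [mul_add]
      map_smul' := by
        intro a u
        rw [RingHom.id_apply, smul_eq_mul, ← integral_const_mul]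
        refine integral_congr_ae (Eventually.of_forall fun y => ?_)
        simp only [ContinuousMap.smul_apply, smul_eq_mul]
        ring }
  have hb : ∀ u, ‖L u‖ ≤ ‖ψ‖ * |M| * μ.real Set.univ * ‖u‖ := by
    intro u
    have : ‖∫ y, ψ y * (V y : ℂ) * u y ∂μ‖ ≤ (‖ψ‖ * |M| * ‖u‖) * μ.real Set.univ := by
      refine norm_integral_le_of_norm_le_const (Eventually.of_forall fun y => ?_)
      rw [norm_mul, norm_mul, Complex.norm_real]
      have h1 := ψ.norm_coe_le_norm y
      have h2 := u.norm_coe_le_norm y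
      have h3 : ‖V y‖ ≤ |M| := (hM y).trans (le_abs_self M)
      gcongr
    calc ‖L u‖ ≤ (‖ψ‖ * |M| * ‖u‖) * μ.real Set.univ := this
      _ = _ := by ring
  refine ⟨L.mkContinuous _ hb, fun u => rfl, L.mkContinuous_norm_le ?_ hb⟩
  positivity

include hS in
/-- the finite rank operator as a kernel operator. -/
lemma gm_op_finite_rank (O : OpsQ q μ V) (N : ℕ) (φ ψ : Fin N → C(K, ℂ)) (c : Fin N → ℂ)
    (Ψ : Fin N → (C(K, ℂ) →L[ℂ] ℂ)) (hint : ∀ k (u : C(K, ℂ)), Integrable (fun y => ψ k y * (V y : ℂ) * u y) μ)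
    (hΨ : ∀ k u, Ψ k u = ∫ y, ψ k y * (V y : ℂ) * u y ∂μ) :
    O.Op (dlt K ^ (2 * q + 1) * ∑ k, c k • tens (φ k) (ψ k)) = FRop φ (fun k => c k • Ψ k) := by
  have := hS.noat
  ext u x
  rw [O.Op_apply]
  have h1 : ∀ᵐ y ∂μ, y ≠ x := by
    have : μ {x} = 0 := measure_singleton x
    rw [ae_iff]
    simp [this]
  have h2 : ∀ᵐ y ∂μ, (dlt K ^ (2 * q + 1) * ∑ k, c k • tens (φ k) (ψ k)) (x, y) *
      ((((dist x y) ^ (2 * q + 1))⁻¹ : ℝ) : ℂ) * (V y : ℂ) * u y =
      ∑ k, (c k * φ k x) * (ψ k y * (V y : ℂ) * u y) := by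
    filter_upwards [h1] with y hy
    have hd : ((dist x y : ℝ) : ℂ) ≠ 0 := by
      exact_mod_cast (dist_pos.2 (Ne.symm hy)).ne'
    have e1 : (dlt K ^ (2 * q + 1) * ∑ k, c k • tens (φ k) (ψ k)) (x, y) =
        ((dist x y : ℝ) : ℂ) ^ (2 * q + 1) * ∑ k, c k * (φ k x * ψ k y) := by
      simp
    rw [e1, Finset.mul_sum, Finset.sum_mul, Finset.sum_mul, Finset.sum_mul]
    refine Finset.sum_congr rfl fun k _ => ?_
    push_cast
    field_simp
  rw [integral_congr_ae h2, integral_finsetSum]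
  · simp only [FRop, FunLike.coe_sum, Finset.sum_apply, ContinuousMap.coe_sum,
      ContinuousLinearMap.smulRight_apply, ContinuousMap.smul_apply, smul_eq_mul]
    refine Finset.sum_congr rfl fun k _ => ?_
    rw [integral_const_mul, ← hΨ k u]
    simp only [_root_.smul_apply, smul_eq_mul]
    ring
  · intro k _
    exact (hint k u).const_mul _

/-- pointwise bound used in `gm_op_small`. -/
lemma gm_near_pt (q : ℕ) (d ρ B ε : ℝ) (hd : 0 ≤ d) (hB : 0 ≤ B) (hε : 0 ≤ ε) :
    ((if d < ρ then B else 0) + ε * d ^ (2 * q + 1)) * (d ^ (2 * q + 1))⁻¹ ≤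
      (if d < ρ then B * ρ * (d ^ (2 * q + 2))⁻¹ else 0) + ε := by
  rcases hd.eq_or_lt with h0 | h0
  · subst h0
    have h1 : (0 : ℝ) ^ (2 * q + 1) = 0 := by simp
    have h2 : (0 : ℝ) ^ (2 * q + 2) = 0 := by simp
    rw [h1, h2]
    simp [hε]
  · have h1 : ε * d ^ (2 * q + 1) * (d ^ (2 * q + 1))⁻¹ = ε := by
      field_simp
    rw [add_mul, h1]
    split_ifs with h
    · have : B * (d ^ (2 * q + 1))⁻¹ ≤ B * ρ * (d ^ (2 * q + 2))⁻¹ := by
        have e1 : (d ^ (2 * q + 1))⁻¹ = d * (d ^ (2 * q + 2))⁻¹ := by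
          rw [pow_succ d (2 * q + 1)]
          field_simp
        rw [e1]
        have h3 : 0 ≤ (d ^ (2 * q + 2))⁻¹ := by positivity
        have h4 : d * (d ^ (2 * q + 2))⁻¹ ≤ ρ * (d ^ (2 * q + 2))⁻¹ := by gcongr
        calc B * (d * (d ^ (2 * q + 2))⁻¹) ≤ B * (ρ * (d ^ (2 * q + 2))⁻¹) := by gcongr
          _ = _ := by ring
      linarith
    · simp

include hS hM in
/-- the operator of the near part is small. -/
lemma gm_op_small [Nonempty K] (O : OpsQ q μ V) (h : C(K × K, ℂ)) (ρ B ε : ℝ) (hρ : 0 < ρ)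
    (hB : 0 ≤ B) (hε : 0 ≤ ε)
    (hh : ∀ x y, ‖h (x, y)‖ ≤ (if dist x y < ρ then B else 0) + ε * dist x y ^ (2 * q + 1)) :
    ‖O.Op h‖ ≤ |M| * (B * C * ρ ^ 2 + ε * μ.real Set.univ) := by
  have := hS.fin
  obtain ⟨x0⟩ := ‹Nonempty K›
  have hC0 : 0 ≤ C * ρ := by
    refine le_trans ?_ (hS.small x0 ρ hρ)
    exact integral_nonneg fun y => by positivity
  have hC1 : 0 ≤ |M| * (B * C * ρ ^ 2 + ε * μ.real Set.univ) := by
    have : B * C * ρ ^ 2 = B * (C * ρ * ρ) := by ring
    rw [this]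
    have := mul_nonneg hC0 hρ.le
    positivity
  refine ContinuousLinearMap.opNorm_le_bound _ hC1 fun f => ?_
  rw [ContinuousMap.norm_le _ (by positivity)]
  intro x
  rw [O.Op_apply]
  have hgi : Integrable (fun y => |M| * ‖f‖ * ((ball x ρ).indicator
      (fun y => B * ρ * ((dist x y) ^ (2 * q + 2))⁻¹) y + ε)) μ := by
    refine Integrable.const_mul (Integrable.add ?_ (integrable_const ε)) _
    exact ((hS.int x).const_mul (B * ρ)).indicator measurableSet_ball
  refine (norm_integral_le_of_norm_le hgi (Eventually.of_forall fun y => ?_)).trans ?_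
  · rw [norm_mul, norm_mul, norm_mul, Complex.norm_real, Complex.norm_real]
    have h2 := f.norm_coe_le_norm y
    have h3 : ‖V y‖ ≤ |M| := (hM y).trans (le_abs_self M)
    have h4 : ‖((dist x y) ^ (2 * q + 1))⁻¹‖ = ((dist x y) ^ (2 * q + 1))⁻¹ := by
      rw [Real.norm_of_nonneg]; positivity
    rw [h4]
    have h5 : (ball x ρ).indicator (fun y => B * ρ * ((dist x y) ^ (2 * q + 2))⁻¹) y =
        if dist x y < ρ then B * ρ * ((dist x y) ^ (2 * q + 2))⁻¹ else 0 := by
      by_cases hb : dist x y < ρ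
      · rw [Set.indicator_of_mem (by rwa [mem_ball, dist_comm]), if_pos hb]
      · rw [Set.indicator_of_notMem (by rwa [mem_ball, dist_comm]), if_neg hb]
    rw [h5]
    have h6 := gm_near_pt q (dist x y) ρ B ε dist_nonneg hB hε
    have h7 : ‖h (x, y)‖ * ((dist x y) ^ (2 * q + 1))⁻¹ ≤
        (if dist x y < ρ then B * ρ * ((dist x y) ^ (2 * q + 2))⁻¹ else 0) + ε := by
      refine le_trans ?_ h6
      have : 0 ≤ ((dist x y) ^ (2 * q + 1))⁻¹ := by positivity
      exact mul_le_mul_of_nonneg_right (hh x y) this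
    calc ‖h (x, y)‖ * ((dist x y) ^ (2 * q + 1))⁻¹ * ‖V y‖ * ‖f y‖
        ≤ ((if dist x y < ρ then B * ρ * ((dist x y) ^ (2 * q + 2))⁻¹ else 0) + ε) *
            |M| * ‖f‖ := by
          have h8 : 0 ≤ ‖h (x, y)‖ * ((dist x y) ^ (2 * q + 1))⁻¹ := by positivity
          gcongr
      _ = _ := by ring
  · rw [integral_const_mul, integral_add, integral_indicator measurableSet_ball,
      integral_const_mul, integral_const, smul_eq_mul]
    · have h9 := hS.small x ρ hρ
      have h10 : B * ρ * ∫ y in ball x ρ, ((dist x y) ^ (2 * q + 2))⁻¹ ∂μ +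
          μ.real Set.univ * ε ≤ B * C * ρ ^ 2 + ε * μ.real Set.univ := by
        have := mul_le_mul_of_nonneg_left h9 (mul_nonneg hB hρ.le)
        nlinarith
      calc |M| * ‖f‖ * (B * ρ * ∫ y in ball x ρ, ((dist x y) ^ (2 * q + 2))⁻¹ ∂μ +
              μ.real Set.univ * ε)
          ≤ |M| * ‖f‖ * (B * C * ρ ^ 2 + ε * μ.real Set.univ) := by gcongr
        _ = _ := by ring
    · exact ((hS.int x).const_mul (B * ρ)).indicator measurableSet_ball
    · exact integrable_const ε

end GLoc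

section GStep

variable {K : Type} [MetricSpace K] [CompactSpace K] [MeasurableSpace K] [BorelSpace K]

/-- the numerator of the remainder kernel. -/
noncomputable def gh1 (q : ℕ) (h : ℂ → C(K × K, ℂ)) {N : ℕ} (φ ψ : Fin N → C(K, ℂ))
    (c : Fin N → ℂ → ℂ) (z : ℂ) : C(K × K, ℂ) :=
  h z - dlt K ^ (2 * q + 1) * ∑ k, c k z • tens (φ k) (ψ k)

/-- the numerator of the kernel of `A'(z) / (2 z)`. -/
noncomputable def glk (l : ℂ → C(K × K, ℂ)) (z : ℂ) : C(K × K, ℂ) :=
  (4 * (Real.pi : ℂ))⁻¹ • l z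

/-- the numerator of the kernel of the derivative of the remainder over `2 z`. -/
noncomputable def gl1 (q : ℕ) (l : ℂ → C(K × K, ℂ)) {N : ℕ} (φ ψ : Fin N → C(K, ℂ))
    (c : Fin N → ℂ → ℂ) (z : ℂ) : C(K × K, ℂ) :=
  glk l z - dlt K ^ (2 * q - 1) * ∑ k, (deriv (c k) z / (2 * z)) • tens (φ k) (ψ k)

omit [MeasurableSpace K] [BorelSpace K] in
lemma gh1_hasDerivAt {q : ℕ} (hq : 1 ≤ q) (h l : ℂ → C(K × K, ℂ)) (hhd : Differentiable ℂ h)
    (hh' : ∀ z, deriv h z = (z / (2 * (Real.pi : ℂ))) • (dlt K ^ 2 * l z)) {N : ℕ}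
    (φ ψ : Fin N → C(K, ℂ)) (c : Fin N → ℂ → ℂ) (hcd : ∀ k, Differentiable ℂ (c k)) (z : ℂ)
    (hz : z ≠ 0) :
    HasDerivAt (gh1 q h φ ψ c) ((2 * z) • (dlt K ^ 2 * gl1 q l φ ψ c z)) z := by
  have htSd : HasDerivAt (fun z => ∑ k, c k z • tens (φ k) (ψ k))
      (∑ k, deriv (c k) z • tens (φ k) (ψ k)) z := by
    refine HasDerivAt.fun_sum fun k _ => ?_
    exact (hcd k z).hasDerivAt.smul_const _
  have h2 := (hhd z).hasDerivAt.sub (htSd.const_mul (dlt K ^ (2 * q + 1)))
  have h3 : deriv h z - dlt K ^ (2 * q + 1) * (∑ k, deriv (c k) z • tens (φ k) (ψ k)) =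
      (2 * z) • (dlt K ^ 2 * gl1 q l φ ψ c z) := by
    rw [hh' z]
    ext ⟨x, y⟩
    have hpi : (Real.pi : ℂ) ≠ 0 := by exact_mod_cast Real.pi_ne_zero
    simp only [gl1, glk, ContinuousMap.sub_apply, ContinuousMap.smul_apply,
      ContinuousMap.mul_apply, ContinuousMap.pow_apply, smul_eq_mul,
      ContinuousMap.coe_sum, Finset.sum_apply]
    have e1 : (2 * q + 1) = (2 * q - 1) + 2 := by omega
    have e2 : ∑ k, deriv (c k) z * (tens (φ k) (ψ k)) (x, y) =
        2 * z * ∑ k, deriv (c k) z / (2 * z) * (tens (φ k) (ψ k)) (x, y) := by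
      rw [Finset.mul_sum]
      refine Finset.sum_congr rfl fun k _ => ?_
      field_simp
    rw [e1, e2, pow_add]
    field_simp
    ring
  rw [h3] at h2
  exact h2

variable {q : ℕ} (μ : Measure K) (C : ℝ) (hS : SpQ q μ C) (V : K → ℝ) (hV : Measurable V) (M : ℝ)
  (hM : ∀ x, |V x| ≤ M)

include hS hV hM in
lemma gm_A1 (O : OpsQ q μ V) (h : ℂ → C(K × K, ℂ)) {N : ℕ} (φ ψ : Fin N → C(K, ℂ))
    (c : Fin N → ℂ → ℂ) (Ψ : Fin N → (C(K, ℂ) →L[ℂ] ℂ))
    (hΨ : ∀ k u, Ψ k u = ∫ y, ψ k y * (V y : ℂ) * u y ∂μ) (z : ℂ) :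
    O.Op (h z) - FRop φ (fun k => c k z • Ψ k) = O.Op (gh1 q h φ ψ c z) := by
  rw [gh1]
  simp only [map_sub]
  rw [gm_op_finite_rank μ C hS V O N φ ψ (fun k => c k z) Ψ
    (fun k u => gm_integrable_cont μ C hS V hV M hM (ψ k) u) hΨ]

include hS hV hM in
theorem gm_trace (h11 : TraceIdQ) (h13 : ChainRep) (hq : 1 ≤ q) (O : OpsQ q μ V)
    (h l : ℂ → C(K × K, ℂ)) (hhd : Differentiable ℂ h)
    (hh' : ∀ z, deriv h z = (z / (2 * (Real.pi : ℂ))) • (dlt K ^ 2 * l z)) {N : ℕ}
    (φ ψ : Fin N → C(K, ℂ)) (c : Fin N → ℂ → ℂ) (hcd : ∀ k, Differentiable ℂ (c k))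
    (hdiag : ∀ k x, φ k x * ψ k x = 0) (Ψ : Fin N → (C(K, ℂ) →L[ℂ] ℂ))
    (hΨ : ∀ k u, Ψ k u = ∫ y, ψ k y * (V y : ℂ) * u y ∂μ) (z : ℂ) (hz : z ≠ 0)
    (κ κ₁ : C(K × K, ℂ)) (hκ : ∀ x y, κ (x, y) = KK q μ V (h z) (glk l z) q x y)
    (hκ₁ : ∀ x y, κ₁ (x, y) = KK q μ V (gh1 q h φ ψ c z) (gl1 q l φ ψ c z) q x y)
    (T T₁ A₁' : C(K, ℂ) →L[ℂ] C(K, ℂ)) (hT : T * (1 + O.Op (h z)) = 1)
    (hT' : (1 + O.Op (h z)) * T = 1)
    (hT₁ : T₁ * (1 + (O.Op (h z) - FRop φ (fun k => c k z • Ψ k))) = 1)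
    (hT₁' : (1 + (O.Op (h z) - FRop φ (fun k => c k z • Ψ k))) * T₁ = 1)
    (hA : HasDerivAt (fun z => O.Op (h z) - FRop φ (fun k => c k z • Ψ k)) A₁' z) :
    ∑ k, (deriv (fun z => c k z • Ψ k) z) (T (φ k)) -
      ∑ k, (c k z • Ψ k) (T₁ (A₁' (T (φ k)))) =
    (2 * z) * (∑ m ∈ Finset.Icc 1 q, (-1) ^ m *
      (∫ x : Fin (m + 1) → K, (∏ i, (V (x i) : ℂ)) *
        (JC q m (h z) (glk l z) x - JC q m (gh1 q h φ ψ c z) (gl1 q l φ ψ c z) x)
          ∂(Measure.pi fun _ => μ)) +
      (-1) ^ (q + 1) * (O.tr (T * O.Op (h z)) κ - O.tr (T₁ * O.Op (gh1 q h φ ψ c z)) κ₁)) := by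
  simp only [gm_A1 μ C hS V hV M hM O h φ ψ c Ψ hΨ] at hT₁ hT₁' hA
  have e1 := clm_hasDerivAt (X := C(K × K, ℂ)) (Y := C(K, ℂ) →L[ℂ] C(K, ℂ)) O.Op _ _ z
    (gh1_hasDerivAt hq h l hhd hh' φ ψ c hcd z hz)
  have e2 : A₁' = O.Op ((2 * z) • (dlt K ^ 2 * gl1 q l φ ψ c z)) := hA.unique e1
  have e2' : A₁' = (2 * z) • O.Op (dlt K ^ 2 * gl1 q l φ ψ c z) := by
    rw [e2, map_smul]
  have e3 : ∀ k, deriv (fun z => c k z • Ψ k) z = deriv (c k) z • Ψ k := fun k =>
    ((hcd k z).hasDerivAt.smul_const (Ψ k)).deriv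
  have key := h11 q hq K μ C hS V hV M hM O N (h z) (glk l z) (gh1 q h φ ψ c z)
    (gl1 q l φ ψ c z) (dlt K ^ 2 * gl1 q l φ ψ c z) κ κ₁ φ ψ (fun k => c k z)
    (fun k => deriv (c k) z / (2 * z)) ?_ ?_ ?_ ?_ hκ hκ₁ T T₁ hT hT' hT₁ hT₁' Ψ hΨ
  · have h2z : (2 * z) ≠ 0 := mul_ne_zero two_ne_zero hz
    have e4 : ∑ k, (deriv (fun z => c k z • Ψ k) z) (T (φ k)) -
        ∑ k, (c k z • Ψ k) (T₁ (A₁' (T (φ k)))) = (2 * z) *
        (∑ k, deriv (c k) z / (2 * z) * Ψ k (T (φ k)) - ∑ k, c k z *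
          Ψ k (T₁ (O.Op (dlt K ^ 2 * gl1 q l φ ψ c z) (T (φ k))))) := by
      rw [mul_sub, Finset.mul_sum, Finset.mul_sum]
      congr 1
      · refine Finset.sum_congr rfl fun k _ => ?_
        rw [e3 k]
        simp only [_root_.smul_apply, smul_eq_mul]
        field_simp
      · refine Finset.sum_congr rfl fun k _ => ?_
        rw [e2']
        simp only [_root_.smul_apply, smul_eq_mul, map_smul]
    rw [e4, key]
    congr 2
    refine Finset.sum_congr rfl fun m hm => ?_
    congr 1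
    have h13' := (h13 q hq K μ C hS V hV M hM (h z) (glk l z) (gh1 q h φ ψ c z)
      (gl1 q l φ ψ c z) (∑ k, c k z • tens (φ k) (ψ k))
      (∑ k, (deriv (c k) z / (2 * z)) • tens (φ k) (ψ k)) ?_ ?_ m hm).2
    · rw [← h13']
      have e5 : (fun x y => ∑ k, c k z * φ k x * ψ k y) =
          fun x y => (∑ k, c k z • tens (φ k) (ψ k) : C(K × K, ℂ)) (x, y) := by
        funext x y
        simp [mul_assoc]
      have e6 : (fun x y => ∑ k, deriv (c k) z / (2 * z) * φ k x * ψ k y) =
          fun x y => (∑ k, (deriv (c k) z / (2 * z)) • tens (φ k) (ψ k) : C(K × K, ℂ)) (x, y) := by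
        funext x y
        simp [mul_assoc]
      rw [e5, e6]
    · intro x y
      simp [gh1]
    · intro x y
      simp [gl1]
  · intro x y
    simp [gh1, mul_assoc]
  · intro x y
    simp [gl1, mul_assoc]
  · intro y
    refine Finset.sum_eq_zero fun k _ => ?_
    rw [mul_assoc, hdiag k y, mul_zero]
  · intro x y
    simp

end GStep

/-- the data of the decomposition of the kernel for one `r`. -/
structure DecData (q : ℕ) (R c0 e C : ℝ) (n r : ℕ) where
  N : ℕ
  φ : Fin N → C(closedBall (0 : En q) R, ℂ)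
  ψ : Fin N → C(closedBall (0 : En q) R, ℂ)
  c : Fin N → ℂ → ℂ
  χ : C(closedBall (0 : En q) R × closedBall (0 : En q) R, ℝ)
  hN : (N : ℝ) ≤ C * (r : ℝ) ^ n
  hφ : ∀ k, ‖φ k‖ ≤ Real.exp (C * (r : ℝ) ^ n)
  hψ : ∀ k, ‖ψ k‖ ≤ Real.exp (C * (r : ℝ) ^ n)
  hc : ∀ k, Differentiable ℂ (c k)
  hcb : ∀ k, ∀ l ∈ ball (0 : ℂ) r, ‖c k l‖ ≤ Real.exp (C * (r : ℝ) ^ n)
  hdiag : ∀ k x, φ k x * ψ k x = 0
  hpar : ∀ k, ∃ B : ℝ, ∀ l : ℂ, ‖l‖ ≤ 1 → ‖c k l - c k (-l)‖ ≤ B * ‖l‖ ^ (2 * q + 1)
  hχ : ∀ x y, 0 ≤ χ (x, y) ∧ χ (x, y) ≤ 1 ∧ (c0 / r ≤ dist x y → χ (x, y) = 0)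
  h1 : ∀ l ∈ ball (0 : ℂ) r, ∀ x y : closedBall (0 : En q) R,
          ‖eb q (l * ((dist x y : ℝ) : ℂ)) -
            ((dist x y : ℝ) : ℂ) ^ (2 * q + 1) * ∑ k, c k l * φ k x * ψ k y -
            (χ (x, y) : ℂ) * eb q (l * ((dist x y : ℝ) : ℂ))‖ ≤
            e / r * dist x y ^ (2 * q + 1)
  h2 : ∀ l ∈ ball (0 : ℂ) r, ∀ x y : closedBall (0 : En q) R,
          ‖l * eb (q - 1) (l * ((dist x y : ℝ) : ℂ)) / (2 * (Real.pi : ℂ)) -
            ((dist x y : ℝ) : ℂ) ^ (2 * q - 1) * ∑ k, deriv (c k) l * φ k x * ψ k y -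
            (χ (x, y) : ℂ) * (l * eb (q - 1) (l * ((dist x y : ℝ) : ℂ)) / (2 * (Real.pi : ℂ)))‖ ≤
            e / r * dist x y ^ (2 * q - 1)

lemma decData_exists (h20 : DecompQ) {q : ℕ} (hq : 1 ≤ q) {R c0 e : ℝ} (hR : 0 < R)
    (hc0 : 0 < c0) (he : 0 < e) :
    ∃ (C : ℝ) (n : ℕ), ∀ r : ℕ, 1 ≤ r → Nonempty (DecData q R c0 e C n r) := by
  obtain ⟨C, n, h⟩ := h20 q hq R c0 e hR hc0 he
  refine ⟨C, n, fun r hr => ?_⟩
  obtain ⟨N, φ, ψ, c, χ, a1, a2, a3, a4, a5, a6, a7, a8, a9, a10⟩ := h r hr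
  exact ⟨⟨N, φ, ψ, c, χ, a1, a2, a3, a4, a5, a6, a7, a8, a9, a10⟩⟩

section GData

variable {q : ℕ} {R c0 e C : ℝ} {n r : ℕ} (d : DecData q R c0 e C n r)
  (h l : ℂ → C(closedBall (0 : En q) R × closedBall (0 : En q) R, ℂ))
  (hh : ∀ z x y, h z (x, y) = eb q (z * ((dist x y : ℝ) : ℂ)))
  (hl : ∀ z x y, l z (x, y) = eb (q - 1) (z * ((dist x y : ℝ) : ℂ)))

include hh in
lemma gd_h1 (z : ℂ) (hz : z ∈ ball (0 : ℂ) r) (x y : closedBall (0 : En q) R) :
    ‖gh1 q h d.φ d.ψ d.c z (x, y) - (d.χ (x, y) : ℂ) * h z (x, y)‖ ≤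
      e / r * dist x y ^ (2 * q + 1) := by
  have e1 := d.h1 z hz x y
  have e2 : gh1 q h d.φ d.ψ d.c z (x, y) = eb q (z * ((dist x y : ℝ) : ℂ)) -
            ((dist x y : ℝ) : ℂ) ^ (2 * q + 1) * ∑ k, d.c k z * d.φ k x * d.ψ k y := by
    rw [← hh]
    simp [gh1, mul_assoc]
  rw [e2, hh]
  exact e1

include hl in
lemma gd_l1 (z : ℂ) (hz : z ∈ ball (0 : ℂ) r) (hz1 : 1 ≤ ‖z‖) (x y : closedBall (0 : En q) R)
    (he : 0 ≤ e) :
    ‖gl1 q l d.φ d.ψ d.c z (x, y) - (d.χ (x, y) : ℂ) * glk l z (x, y)‖ ≤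
      e / r * dist x y ^ (2 * q - 1) := by
  have e1 := d.h2 z hz x y
  have hz0 : z ≠ 0 := by
    intro h0
    rw [h0, norm_zero] at hz1
    linarith
  have hpi : (Real.pi : ℂ) ≠ 0 := by exact_mod_cast Real.pi_ne_zero
  have e2 : gl1 q l d.φ d.ψ d.c z (x, y) - (d.χ (x, y) : ℂ) * glk l z (x, y) = (2 * z)⁻¹ *
      (z * eb (q - 1) (z * ((dist x y : ℝ) : ℂ)) / (2 * (Real.pi : ℂ)) -
            ((dist x y : ℝ) : ℂ) ^ (2 * q - 1) * ∑ k, deriv (d.c k) z * d.φ k x * d.ψ k y -
            (d.χ (x, y) : ℂ) *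
              (z * eb (q - 1) (z * ((dist x y : ℝ) : ℂ)) / (2 * (Real.pi : ℂ)))) := by
    rw [← hl]
    have e3 : gl1 q l d.φ d.ψ d.c z (x, y) = (4 * (Real.pi : ℂ))⁻¹ * l z (x, y) -
        ((dist x y : ℝ) : ℂ) ^ (2 * q - 1) *
          ∑ k, deriv (d.c k) z / (2 * z) * (d.φ k x * d.ψ k y) := by
      simp [gl1, glk]
    have e4 : glk l z (x, y) = (4 * (Real.pi : ℂ))⁻¹ * l z (x, y) := by
      simp [glk]
    have e5 : ∑ k, deriv (d.c k) z / (2 * z) * (d.φ k x * d.ψ k y) =
        (2 * z)⁻¹ * ∑ k, deriv (d.c k) z * d.φ k x * d.ψ k y := by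
      rw [Finset.mul_sum]
      refine Finset.sum_congr rfl fun k _ => ?_
      field_simp
    rw [e3, e4, e5]
    field_simp
    ring
  rw [e2, norm_mul]
  have hd : 0 ≤ e / r * dist x y ^ (2 * q - 1) := by positivity
  have e6 : ‖(2 * z)⁻¹‖ ≤ 1 := by
    rw [norm_inv, norm_mul]
    have : (1 : ℝ) ≤ ‖(2 : ℂ)‖ * ‖z‖ := by
      rw [Complex.norm_ofNat]
      nlinarith
    exact inv_le_one_of_one_le₀ this
  calc ‖(2 * z)⁻¹‖ * _ ≤ 1 * (e / r * dist x y ^ (2 * q - 1)) := by gcongr
    _ = _ := one_mul _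

include hh in
lemma gd_small (B0 : ℝ) (hB : ∀ w : ℂ, ‖w‖ ≤ 1 → ‖eb q w‖ ≤ B0) (hc1 : c0 ≤ 1) (hr : 1 ≤ r)
    (z : ℂ) (hz : z ∈ ball (0 : ℂ) r) (x y : closedBall (0 : En q) R) :
    ‖gh1 q h d.φ d.ψ d.c z (x, y)‖ ≤
      (if dist x y < c0 / r then B0 else 0) + e / r * dist x y ^ (2 * q + 1) := by
  have e1 := gd_h1 d h hh z hz x y
  have hr0 : (0 : ℝ) < r := by exact_mod_cast hr
  have hz' : ‖z‖ < r := by simpa using hz
  obtain ⟨c1, c2, c3⟩ := d.hχ x y
  have e2 : ‖(d.χ (x, y) : ℂ) * h z (x, y)‖ ≤ if dist x y < c0 / r then B0 else 0 := by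
    split_ifs with hd
    · rw [norm_mul, Complex.norm_real, Real.norm_of_nonneg c1, hh]
      have hw : ‖z * ((dist x y : ℝ) : ℂ)‖ ≤ 1 := by
        rw [norm_mul, Complex.norm_real, Real.norm_of_nonneg dist_nonneg]
        calc ‖z‖ * dist x y ≤ r * (c0 / r) := by gcongr
          _ = c0 := by field_simp
          _ ≤ 1 := hc1
      have := hB _ hw
      calc d.χ (x, y) * ‖eb q (z * ((dist x y : ℝ) : ℂ))‖ ≤ 1 * B0 := by gcongr
        _ = B0 := one_mul _
    · rw [c3 (not_lt.1 hd)]
      simp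
  calc ‖gh1 q h d.φ d.ψ d.c z (x, y)‖ = ‖(gh1 q h d.φ d.ψ d.c z (x, y) -
        (d.χ (x, y) : ℂ) * h z (x, y)) + (d.χ (x, y) : ℂ) * h z (x, y)‖ := by ring_nf
    _ ≤ e / r * dist x y ^ (2 * q + 1) + if dist x y < c0 / r then B0 else 0 :=
        (norm_add_le _ _).trans (add_le_add e1 e2)
    _ = _ := add_comm _ _

end GData

end Pool.Agent.Work.MP_f2af60_mp

end

section

set_option autoImplicit false

/-!
# MP_f2af60_mp Q42: mollification
-/

namespace Pool.Agent.Work.MP_f2af60_mp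

open MeasureTheory Filter Topology SchwartzMap LineDeriv
open scoped FourierTransform ContDiff Convolution

namespace GMoll

section deriv

variable {q : ℕ}

theorem contDiff_ld (f : En q → ℝ) (hf : ContDiff ℝ ∞ f) (L : List (En q)) :
    ContDiff ℝ ∞ (ld L f) := by
  induction L with
  | nil => exact hf
  | cons v L ih =>
    show ContDiff ℝ ∞ (fun x => fderiv ℝ (ld L f) x v)
    exact (ih.fderiv_right (m := ∞) (by simp)).clm_apply contDiff_const

/-- The iterated directional derivatives of a Schwartz function. -/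
noncomputable def sld (F : 𝓢(En q, ℂ)) : List (En q) → 𝓢(En q, ℂ)
  | [] => F
  | v :: L => ∂_{v} (sld F L)

theorem sld_apply (f : En q → ℝ) (hf : ContDiff ℝ ∞ f) (F : 𝓢(En q, ℂ))
    (hF : ∀ x, F x = ((f x : ℝ) : ℂ)) (L : List (En q)) :
    ∀ x, sld F L x = ((ld L f x : ℝ) : ℂ) := by
  induction L with
  | nil => exact hF
  | cons v L ih =>
    intro x
    show fderiv ℝ (sld F L) x v = ((fderiv ℝ (ld L f) x v : ℝ) : ℂ)
    have h1 : (sld F L : En q → ℂ) = fun x => ((ld L f x : ℝ) : ℂ) := funext ih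
    rw [h1]
    have h2 : HasFDerivAt (ld L f) (fderiv ℝ (ld L f) x) x :=
      ((contDiff_ld f hf L).differentiable (by simp) x).hasFDerivAt
    have h3 : HasFDerivAt (fun x => ((ld L f x : ℝ) : ℂ))
        (Complex.ofRealCLM.comp (fderiv ℝ (ld L f) x)) x :=
      Complex.ofRealCLM.hasFDerivAt.comp x h2
    rw [h3.fderiv]
    rfl

theorem fourier_sld_le (F : 𝓢(En q, ℂ)) (ρ : ℝ) (hρ : 0 ≤ ρ) (L : List (En q))
    (hL : ∀ v ∈ L, ‖v‖ ≤ ρ) (ξ : En q) :
    ‖(𝓕 (sld F L)) ξ‖ ≤ (2 * Real.pi * ρ * ‖ξ‖) ^ L.length * ‖(𝓕 F) ξ‖ := by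
  induction L with
  | nil => simp [sld]
  | cons v L ih =>
    have h0 : (fun x : En q => inner ℝ x v).HasTemperateGrowth :=
      ((innerSL ℝ).flip v).hasTemperateGrowth
    have h1 : (𝓕 (sld F (v :: L))) ξ =
        (2 * Real.pi * Complex.I) * ((inner ℝ ξ v : ℝ) : ℂ) * (𝓕 (sld F L)) ξ := by
      show (𝓕 (∂_{v} (sld F L))) ξ = _
      rw [fourier_lineDerivOp_eq]
      rw [_root_.smul_apply, SchwartzMap.smulLeftCLM_apply_apply h0]
      simp only [smul_eq_mul, Complex.real_smul]
      ring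
    rw [h1, norm_mul, norm_mul, norm_mul, norm_mul, Complex.norm_I, mul_one, Complex.norm_real,
      Complex.norm_real, List.length_cons]
    have h2 : ‖(2 : ℂ)‖ = 2 := by simp
    have h3 : |inner ℝ ξ v| ≤ ‖ξ‖ * ρ :=
      (abs_real_inner_le_norm ξ v).trans
        (mul_le_mul_of_nonneg_left (hL v (List.mem_cons_self ..)) (norm_nonneg _))
    have h4 := ih (fun w hw => hL w (List.mem_cons_of_mem _ hw))
    rw [h2, Real.norm_eq_abs, Real.norm_eq_abs, abs_of_pos Real.pi_pos]
    calc 2 * Real.pi * |inner ℝ ξ v| * ‖(𝓕 (sld F L)) ξ‖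
        ≤ 2 * Real.pi * (‖ξ‖ * ρ) * ((2 * Real.pi * ρ * ‖ξ‖) ^ L.length * ‖(𝓕 F) ξ‖) := by
          have hpi := Real.pi_pos
          gcongr
      _ = (2 * Real.pi * ρ * ‖ξ‖) ^ (L.length + 1) * ‖(𝓕 F) ξ‖ := by ring

end deriv

section moll

variable {q : ℕ}

/-- The bump functions. -/
noncomputable def bump (q n : ℕ) : ContDiffBump (0 : En q) where
  rIn := 1 / (n + 2)
  rOut := 1 / (n + 1)
  rIn_pos := by positivity
  rIn_lt_rOut := by
    apply one_div_lt_one_div_of_lt
    · positivity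
    · linarith

/-- The mollified functions. -/
noncomputable def mf (V : En q → ℝ) (n : ℕ) : En q → ℝ :=
  (bump q n).normed volume ⋆[ContinuousLinearMap.lsmul ℝ ℝ, volume] V

variable {V : En q → ℝ} {M R : ℝ}

theorem mf_apply (V : En q → ℝ) (n : ℕ) (x : En q) :
    mf V n x = ∫ t, (bump q n).normed volume t * V (x - t) := rfl

theorem hasCompactSupport_V (hR : ∀ x, R < ‖x‖ → V x = 0) : HasCompactSupport V := by
  refine HasCompactSupport.of_support_subset_isCompact (isCompact_closedBall (0 : En q) R)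
    (fun x hx => ?_)
  rw [Metric.mem_closedBall, dist_zero_right]
  by_contra h
  exact hx (hR x (not_le.1 h))

theorem integrable_V (hV : Measurable V) (hM : ∀ x, |V x| ≤ M) (hR : ∀ x, R < ‖x‖ → V x = 0) :
    Integrable V := by
  have h1 : IntegrableOn V (Metric.closedBall (0 : En q) R) := by
    refine Measure.integrableOn_of_bounded (M := M)
      (isCompact_closedBall (0 : En q) R).measure_lt_top.ne hV.aestronglyMeasurable
      (Eventually.of_forall (fun x => ?_))
    rw [Real.norm_eq_abs]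
    exact hM x
  refine (integrableOn_iff_integrable_of_support_subset (fun x hx => ?_)).1 h1
  rw [Metric.mem_closedBall, dist_zero_right]
  by_contra h
  exact hx (hR x (not_le.1 h))

theorem contDiff_mf (hV : Integrable V) (n : ℕ) : ContDiff ℝ ∞ (mf V n) :=
  HasCompactSupport.contDiff_convolution_left _ (bump q n).hasCompactSupport_normed
    (bump q n).contDiff_normed hV.locallyIntegrable

theorem hasCompactSupport_mf (hV : HasCompactSupport V) (n : ℕ) : HasCompactSupport (mf V n) :=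
  HasCompactSupport.convolution _ (bump q n).hasCompactSupport_normed hV

theorem integrable_bump (n : ℕ) : Integrable ((bump q n).normed volume) :=
  (bump q n).integrable_normed

theorem abs_mf_le (hM : ∀ x, |V x| ≤ M) (n : ℕ) (x : En q) : |mf V n x| ≤ M := by
  rw [mf_apply, ← Real.norm_eq_abs]
  calc ‖∫ t, (bump q n).normed volume t * V (x - t)‖
      ≤ ∫ t, (bump q n).normed volume t * M := by
        refine norm_integral_le_of_norm_le ((integrable_bump n).mul_const M)
          (Eventually.of_forall (fun t => ?_))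
        rw [norm_mul, Real.norm_eq_abs, Real.norm_eq_abs,
          abs_of_nonneg ((bump q n).nonneg_normed t)]
        exact mul_le_mul_of_nonneg_left (hM _) ((bump q n).nonneg_normed t)
    _ = M := by rw [integral_mul_const, (bump q n).integral_normed, one_mul]

theorem fourier_mf_le (hV : Integrable V) (n : ℕ) (ξ : En q) :
    ‖𝓕 (fun x => ((mf V n x : ℝ) : ℂ)) ξ‖ ≤ ‖𝓕 (fun x => ((V x : ℝ) : ℂ)) ξ‖ := by
  have h1 : (fun x => ((mf V n x : ℝ) : ℂ)) =
      (fun x => (((bump q n).normed volume x : ℝ) : ℂ)) ⋆[ContinuousLinearMap.mul ℂ ℂ, volume]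
        (fun x => ((V x : ℝ) : ℂ)) := by
    funext x
    rw [mf_apply, ← integral_complex_ofReal]
    show _ = ∫ t, (((bump q n).normed volume t : ℝ) : ℂ) * ((V (x - t) : ℝ) : ℂ)
    refine integral_congr_ae (Eventually.of_forall (fun t => ?_))
    push_cast
    rfl
  have hb : Integrable (fun x => (((bump q n).normed volume x : ℝ) : ℂ)) :=
    (integrable_bump n).ofReal
  have hV' : Integrable (fun x => ((V x : ℝ) : ℂ)) := hV.ofReal
  have h0 := Real.fourier_mul_convolution_eq (R := ℂ) hb hV' ξ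
  rw [h1, h0, norm_mul]
  have h2 : ‖𝓕 (fun x => (((bump q n).normed volume x : ℝ) : ℂ)) ξ‖ ≤ 1 := by
    have h3 := VectorFourier.norm_fourierIntegral_le_integral_norm Real.fourierChar volume
      (innerₗ (En q)) (fun x => (((bump q n).normed volume x : ℝ) : ℂ)) ξ
    refine le_trans h3 (le_of_eq ?_)
    have h4 : ∀ x, ‖(((bump q n).normed volume x : ℝ) : ℂ)‖ = (bump q n).normed volume x := by
      intro x
      rw [Complex.norm_real, Real.norm_eq_abs, abs_of_nonneg ((bump q n).nonneg_normed x)]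
    simp only [h4]
    exact (bump q n).integral_normed
  calc _ ≤ 1 * ‖𝓕 (fun x => ((V x : ℝ) : ℂ)) ξ‖ :=
        mul_le_mul_of_nonneg_right h2 (norm_nonneg _)
    _ = _ := one_mul _

theorem ld_bound (J : ℕ) (hV : Integrable V) (hc : HasCompactSupport V)
    (hS : Integrable (fun ξ : En q => ‖ξ‖ ^ (2 * J) * ‖𝓕 (fun x => (V x : ℂ)) ξ‖ ^ 2))
    (n : ℕ) (ρ : ℝ) (L : List (En q)) (hρ : 0 ≤ ρ) (hL : L.length = J)
    (hv : ∀ v ∈ L, ‖v‖ ≤ ρ) :
    ∫ x, (ld L (mf V n) x) ^ 2 ≤ ((2 * Real.pi) ^ (2 * J) *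
      ∫ ξ : En q, ‖ξ‖ ^ (2 * J) * ‖𝓕 (fun x => (V x : ℂ)) ξ‖ ^ 2) * ρ ^ (2 * J) := by
  have hsm := contDiff_mf hV n
  have hcs := hasCompactSupport_mf hc n
  have hcs' : HasCompactSupport (fun x => ((mf V n x : ℝ) : ℂ)) :=
    hcs.comp_left (g := fun y : ℝ => (y : ℂ)) Complex.ofReal_zero
  have hsm' : ContDiff ℝ ∞ (fun x => ((mf V n x : ℝ) : ℂ)) :=
    Complex.ofRealCLM.contDiff.comp hsm
  set F : 𝓢(En q, ℂ) := hcs'.toSchwartzMap hsm' with hF
  have hFx : ∀ x, F x = ((mf V n x : ℝ) : ℂ) := fun x => rfl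
  have hFf : ∀ ξ, (𝓕 F) ξ = 𝓕 (fun x => ((mf V n x : ℝ) : ℂ)) ξ := fun ξ => rfl
  have h1 : ∫ x, (ld L (mf V n) x) ^ 2 = ∫ x, ‖sld F L x‖ ^ 2 := by
    refine integral_congr_ae (Eventually.of_forall (fun x => ?_))
    show (ld L (mf V n) x) ^ 2 = ‖sld F L x‖ ^ 2
    rw [sld_apply (mf V n) hsm F hFx L x, Complex.norm_real, Real.norm_eq_abs, sq_abs]
  rw [h1, ← SchwartzMap.integral_norm_sq_fourier]
  calc ∫ ξ, ‖(𝓕 (sld F L)) ξ‖ ^ 2
      ≤ ∫ ξ : En q, ((2 * Real.pi) ^ (2 * J) * ρ ^ (2 * J)) *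
          (‖ξ‖ ^ (2 * J) * ‖𝓕 (fun x => (V x : ℂ)) ξ‖ ^ 2) := by
        refine integral_mono_of_nonneg (Eventually.of_forall (fun ξ => by positivity))
          (hS.const_mul _) (Eventually.of_forall (fun ξ => ?_))
        have h2 := fourier_sld_le F ρ hρ L hv ξ
        rw [hL, hFf] at h2
        have h3 : (2 * Real.pi * ρ * ‖ξ‖) ^ J * ‖𝓕 (fun x => ((mf V n x : ℝ) : ℂ)) ξ‖ ≤
            (2 * Real.pi * ρ * ‖ξ‖) ^ J * ‖𝓕 (fun x => (V x : ℂ)) ξ‖ := by
          have hpi := Real.pi_pos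
          exact mul_le_mul_of_nonneg_left (fourier_mf_le hV n ξ) (by positivity)
        calc ‖(𝓕 (sld F L)) ξ‖ ^ 2
            ≤ ((2 * Real.pi * ρ * ‖ξ‖) ^ J * ‖𝓕 (fun x => (V x : ℂ)) ξ‖) ^ 2 :=
              pow_le_pow_left₀ (norm_nonneg _) (h2.trans h3) 2
          _ = _ := by ring
    _ = _ := by
        rw [integral_const_mul]
        ring

theorem tendsto_mf (hV : Measurable V) (hM : ∀ x, |V x| ≤ M) (hR : ∀ x, R < ‖x‖ → V x = 0) :
    Tendsto (fun n => ∫ x, |mf V n x - V x|) atTop (𝓝 0) := by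
  have hint := integrable_V hV hM hR
  have hM0 : 0 ≤ M := (abs_nonneg (V 0)).trans (hM 0)
  have h1 : ∀ᵐ x : En q, Tendsto (fun n => mf V n x) atTop (𝓝 (V x)) := by
    refine ContDiffBump.ae_convolution_tendsto_right_of_locallyIntegrable (K := 2) ?_ ?_
      hint.locallyIntegrable
    · exact tendsto_one_div_add_atTop_nhds_zero_nat
    · refine Eventually.of_forall (fun n => ?_)
      show (1 : ℝ) / (n + 1) ≤ 2 * (1 / (n + 2))
      rw [mul_one_div, div_le_div_iff₀ (by positivity) (by positivity)]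
      have : (0 : ℝ) ≤ n := Nat.cast_nonneg n
      linarith
  have h2 : Tendsto (fun n => ∫ x, |mf V n x - V x|) atTop (𝓝 (∫ _ : En q, (0 : ℝ))) := by
    refine tendsto_integral_of_dominated_convergence
      ((Metric.closedBall (0 : En q) (|R| + 1)).indicator (fun _ => 2 * M)) (fun n => ?_) ?_
      (fun n => Eventually.of_forall (fun x => ?_)) ?_
    · exact ((contDiff_mf hint n).continuous.aestronglyMeasurable.sub
        hV.aestronglyMeasurable).norm
    · rw [integrable_indicator_iff Metric.isClosed_closedBall.measurableSet]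
      exact integrableOn_const (isCompact_closedBall _ _).measure_lt_top.ne
    · rw [Real.norm_eq_abs, abs_abs]
      by_cases hx : x ∈ Metric.closedBall (0 : En q) (|R| + 1)
      · rw [Set.indicator_of_mem hx]
        calc |mf V n x - V x| ≤ |mf V n x| + |V x| := abs_sub _ _
          _ ≤ M + M := add_le_add (abs_mf_le hM n x) (hM x)
          _ = 2 * M := by ring
      · rw [Set.indicator_of_notMem hx]
        rw [Metric.mem_closedBall, dist_zero_right, not_le] at hx
        have h3 : V x = 0 := hR x (by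
          have := le_abs_self R
          linarith)
        have h4 : mf V n x = 0 := by
          rw [mf_apply]
          refine integral_eq_zero_of_ae (Eventually.of_forall (fun t => ?_))
          show (bump q n).normed volume t * V (x - t) = 0
          by_cases ht : t ∈ Metric.ball (0 : En q) (bump q n).rOut
          · have h5 : ‖t‖ < 1 := by
              rw [Metric.mem_ball, dist_zero_right] at ht
              refine ht.trans_le ?_
              show (1 : ℝ) / (n + 1) ≤ 1
              rw [div_le_one (by positivity)]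
              have : (0 : ℝ) ≤ n := Nat.cast_nonneg n
              linarith
            have h6 : R < ‖x - t‖ := by
              have := norm_sub_norm_le x t
              have := le_abs_self R
              linarith
            rw [hR _ h6, mul_zero]
          · have h5 : t ∉ Function.support ((bump q n).normed volume) := by
              rw [(bump q n).support_normed_eq]
              exact ht
            rw [Function.notMem_support.1 h5, zero_mul]
        rw [h3, h4, sub_zero, abs_zero]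
    · filter_upwards [h1] with x hx
      have h3 : Tendsto (fun n => |mf V n x - V x|) atTop (𝓝 |V x - V x|) :=
        (hx.sub_const _).abs
      rwa [sub_self, abs_zero] at h3
  rwa [integral_zero] at h2

end moll

end GMoll

open GMoll

theorem mollify : Mollify := by
  intro q J V hV M R hM hR hS
  have hint := integrable_V hV hM hR
  have hc := hasCompactSupport_V hR
  have hS' : Integrable (fun ξ : En q => ‖ξ‖ ^ (2 * J) * ‖𝓕 (fun x => (V x : ℂ)) ξ‖ ^ 2) := by
    unfold HS at hS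
    refine hS.congr (Eventually.of_forall (fun ξ => ?_))
    show ‖ξ‖ ^ (2 * (J : ℝ)) * _ = ‖ξ‖ ^ (2 * J) * _
    have h1 : (2 * (J : ℝ)) = ((2 * J : ℕ) : ℝ) := by push_cast; rfl
    rw [h1, Real.rpow_natCast]
  refine ⟨mf V, (2 * Real.pi) ^ (2 * J) *
    ∫ ξ : En q, ‖ξ‖ ^ (2 * J) * ‖𝓕 (fun x => (V x : ℂ)) ξ‖ ^ 2, fun n => contDiff_mf hint n,
    fun n => hasCompactSupport_mf hc n, fun n x => abs_mf_le hM n x,
    fun n ρ L hρ hL hv => ld_bound J hint hc hS' n ρ L hρ hL hv, tendsto_mf hV hM hR⟩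

end Pool.Agent.Work.MP_f2af60_mp

end

section

/-!
# MP_f2af60_mp, Q40: the multilinear bound
-/

namespace Pool.Agent.Work.MP_f2af60_mp

open MeasureTheory

section basics

variable {n : ℕ}

theorem mb_contDiff (L : List (EuclideanSpace ℝ (Fin n))) {f : EuclideanSpace ℝ (Fin n) → ℝ}
    (hf : ContDiff ℝ (⊤ : ℕ∞) f) : ContDiff ℝ (⊤ : ℕ∞) (ld L f) := by
  induction L with
  | nil => exact hf
  | cons v L ih =>
    show ContDiff ℝ _ (fun x => fderiv ℝ (ld L f) x v)
    exact (ih.fderiv_right (m := (⊤ : ℕ∞)) (by simp)).clm_apply contDiff_const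

theorem mb_supp (L : List (EuclideanSpace ℝ (Fin n))) {f : EuclideanSpace ℝ (Fin n) → ℝ}
    (hf : HasCompactSupport f) : HasCompactSupport (ld L f) := by
  induction L with
  | nil => exact hf
  | cons v L ih => exact ih.fderiv_apply (𝕜 := ℝ) v

theorem mb_contDiff' (L : List (EuclideanSpace ℝ (Fin n))) {f : EuclideanSpace ℝ (Fin n) → ℝ}
    (hf : ContDiff ℝ (⊤ : ℕ∞) f) (y : EuclideanSpace ℝ (Fin n)) :
    ContDiff ℝ (⊤ : ℕ∞) (fun x => ld L f (x + y)) :=
  (mb_contDiff L hf).comp (contDiff_id.add contDiff_const)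

theorem mb_supp' (L : List (EuclideanSpace ℝ (Fin n))) {f : EuclideanSpace ℝ (Fin n) → ℝ}
    (hf : HasCompactSupport f) (y : EuclideanSpace ℝ (Fin n)) :
    HasCompactSupport (fun x => ld L f (x + y)) :=
  (mb_supp L hf).comp_homeomorph (Homeomorph.addRight y)

theorem mb_fderiv (L : List (EuclideanSpace ℝ (Fin n))) (f : EuclideanSpace ℝ (Fin n) → ℝ)
    (v x y : EuclideanSpace ℝ (Fin n)) :
    fderiv ℝ (fun x => ld L f (x + y)) x v = ld (v :: L) f (x + y) := by
  rw [fderiv_comp_add_right]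
  rfl

theorem mb_prod_supp {ι : Type*} (s : Finset ι) {i : ι} (hi : i ∈ s)
    (g : ι → EuclideanSpace ℝ (Fin n) → ℝ) (hg : HasCompactSupport (g i)) :
    HasCompactSupport (fun x => ∏ l ∈ s, g l x) := by
  refine hg.mono fun x hx => ?_
  rw [Function.mem_support] at hx ⊢
  intro h
  exact hx (Finset.prod_eq_zero hi h)

/-- The total derivative of a product integrates to zero. -/
theorem mb_total {m : ℕ} {f : EuclideanSpace ℝ (Fin n) → ℝ} (hf : ContDiff ℝ (⊤ : ℕ∞) f)
    (hs : HasCompactSupport f) (L : Fin (m + 1) → List (EuclideanSpace ℝ (Fin n)))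
    (y : Fin (m + 1) → EuclideanSpace ℝ (Fin n)) (v : EuclideanSpace ℝ (Fin n)) :
    ∑ j, ∫ x, ∏ l, ld (Function.update L j (v :: L j) l) f (x + y l) = 0 := by
  set G : EuclideanSpace ℝ (Fin n) → ℝ := fun x => ∏ l, ld (L l) f (x + y l) with hG
  have hGc : ContDiff ℝ (⊤ : ℕ∞) G := contDiff_prod fun l _ => mb_contDiff' (L l) hf (y l)
  have hGs : HasCompactSupport G :=
    mb_prod_supp Finset.univ (Finset.mem_univ 0) (fun l x => ld (L l) f (x + y l))
      (mb_supp' (L 0) hs (y 0))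
  have hG' : Continuous (fun x => fderiv ℝ G x v) :=
    (hGc.continuous_fderiv (by simp)).clm_apply continuous_const
  have hGs' : HasCompactSupport (fun x => fderiv ℝ G x v) := hGs.fderiv_apply (𝕜 := ℝ) v
  have h0 : ∫ x, fderiv ℝ G x v = 0 := by
    have := integral_mul_fderiv_eq_neg_fderiv_mul_of_integrable (μ := (volume :
      Measure (EuclideanSpace ℝ (Fin n)))) (f := fun _ => (1 : ℝ)) (g := G) (v := v)
      (by simp) (by simpa using hG'.integrable_of_hasCompactSupport hGs')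
      (by simpa using hGc.continuous.integrable_of_hasCompactSupport hGs)
      (fun x _ => by fun_prop)
      (fun x _ => (hGc.differentiable (by simp)).differentiableAt)
    simpa using this
  have hkey : ∀ x, fderiv ℝ G x v =
      ∑ j, ∏ l, ld (Function.update L j (v :: L j) l) f (x + y l) := by
    intro x
    have h1 : HasFDerivAt G (∑ j, (∏ l ∈ Finset.univ.erase j, ld (L l) f (x + y l)) •
        fderiv ℝ (fun x => ld (L j) f (x + y j)) x) x := by
      exact HasFDerivAt.finsetProd fun l _ =>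
        ((mb_contDiff' (L l) hf (y l)).differentiable (by simp)).differentiableAt.hasFDerivAt
    rw [h1.fderiv, _root_.sum_apply]
    refine Finset.sum_congr rfl fun j _ => ?_
    rw [_root_.smul_apply, mb_fderiv, smul_eq_mul,
      ← Finset.mul_prod_erase Finset.univ _ (Finset.mem_univ j), Function.update_self, mul_comm]
    congr 1
    refine Finset.prod_congr rfl fun l hl => ?_
    rw [Function.update_of_ne (Finset.ne_of_mem_erase hl)]
  rw [← integral_finsetSum]
  · simp_rw [← hkey]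
    exact h0
  · intro j _
    refine Continuous.integrable_of_hasCompactSupport ?_ ?_
    · exact continuous_finsetProd _ fun l _ => (mb_contDiff' _ hf (y l)).continuous
    · exact mb_prod_supp Finset.univ (Finset.mem_univ 0)
        (fun l x => ld (Function.update L j (v :: L j) l) f (x + y l)) (mb_supp' _ hs (y 0))

end basics

/-- The Hölder case: all lists have length at most `J`. -/
theorem mb_holder (h39 : GagNir) (n J m : ℕ) (hJ : 1 ≤ J) (hm : 1 ≤ m) : ∃ C : ℝ, 0 ≤ C ∧
    ∀ f : EuclideanSpace ℝ (Fin n) → ℝ,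
    ContDiff ℝ (⊤ : ℕ∞) f → HasCompactSupport f → ∀ B S ρ : ℝ, (∀ x, |f x| ≤ B) →
    (∀ L : List (EuclideanSpace ℝ (Fin n)), L.length = J → (∀ v ∈ L, ‖v‖ ≤ ρ) →
      ∫ x, (ld L f x) ^ 2 ≤ S) →
    ∀ L : Fin (m + 1) → List (EuclideanSpace ℝ (Fin n)), ∑ i, (L i).length = 2 * J →
      (∀ i, (L i).length ≤ J) →
      (∀ i, ∀ v ∈ L i, ‖v‖ ≤ ρ) → ∀ y : Fin (m + 1) → EuclideanSpace ℝ (Fin n),
      |∫ x, ∏ i, ld (L i) f (x + y i)| ≤ C * B ^ (m - 1) * S := by
  obtain ⟨C, hC, hG⟩ := h39 n J hJ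
  refine ⟨C, hC, fun f hf hs B S ρ hB hS L hL hLJ hLv y => ?_⟩
  have hB0 : 0 ≤ B := (abs_nonneg _).trans (hB 0)
  have hJ' : (0 : ℝ) < J := by exact_mod_cast hJ
  -- some list is nonempty
  have hρ : 0 ≤ ρ := by
    by_contra hneg
    have hnil : ∀ i, (L i).length = 0 := by
      intro i
      by_contra hne
      obtain ⟨v, hv⟩ := List.exists_mem_of_length_pos (Nat.pos_of_ne_zero hne)
      exact hneg ((norm_nonneg _).trans (hLv i v hv))
    simp only [hnil, Finset.sum_const_zero] at hL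
    omega
  have hS0 : 0 ≤ S := by
    refine le_trans (integral_nonneg fun x => sq_nonneg _)
      (hS (List.replicate J 0) (by simp) fun v hv => ?_)
    rw [List.eq_of_mem_replicate hv]
    simpa using hρ
  set T : Finset (Fin (m + 1)) := Finset.univ.filter fun i => 1 ≤ (L i).length with hT
  set p : Fin (m + 1) → ℝ := fun i => ((L i).length : ℝ) / (2 * J) with hp
  set g : Fin (m + 1) → EuclideanSpace ℝ (Fin n) → ℝ := fun i x => ld (L i) f (x + y i) with hg
  have hgc : ∀ i, Continuous (g i) := fun i => (mb_contDiff' (L i) hf (y i)).continuous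
  have hgs : ∀ i, HasCompactSupport (g i) := fun i => mb_supp' (L i) hs (y i)
  have hTlen : ∀ i ∈ T, 1 ≤ (L i).length := fun i hi => (Finset.mem_filter.1 hi).2
  have hTc : ∀ i, i ∉ T → (L i).length = 0 := by
    intro i hi
    by_contra hne
    exact hi (Finset.mem_filter.2 ⟨Finset.mem_univ i, Nat.pos_of_ne_zero hne⟩)
  have hsumT : ∑ i ∈ T, (L i).length = 2 * J := by
    rw [← hL]
    exact Finset.sum_subset (Finset.subset_univ T) fun i _ hi => hTc i hi
  have hpsum : ∑ i ∈ T, p i = 1 := by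
    have h2 : ((∑ i ∈ T, (L i).length : ℕ) : ℝ) = 2 * J := by
      rw [hsumT]
      push_cast
      ring
    simp only [hp]
    rw [← Finset.sum_div, ← Nat.cast_sum, h2]
    field_simp
  have hp0 : ∀ i, 0 ≤ p i := fun i => by positivity
  have hpT : ∀ i ∈ T, 0 < p i := fun i hi => by
    have : (0 : ℝ) < (L i).length := by exact_mod_cast hTlen i hi
    positivity
  have hTcard : 2 ≤ T.card := by
    by_contra hlt
    have h1 : T.card ≤ 1 := by omega
    have h2 : ∑ i ∈ T, (L i).length ≤ T.card • J := Finset.sum_le_card_nsmul T _ J fun i _ => hLJ i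
    rw [hsumT, smul_eq_mul] at h2
    have h3 : T.card * J ≤ 1 * J := Nat.mul_le_mul_right J h1
    omega
  have hTcard' : T.card ≤ m + 1 := by simpa using Finset.card_le_univ T
  obtain ⟨i₀, hi₀⟩ : T.Nonempty := Finset.card_pos.1 (by omega)
  -- pointwise bound
  have hpt : ∀ x, |∏ i, g i x| ≤ B ^ (m + 1 - T.card) * ∏ i ∈ T, |g i x| := by
    intro x
    rw [Finset.abs_prod, ← Finset.prod_sdiff (Finset.subset_univ T)]
    have h1 : ∏ i ∈ Finset.univ \ T, |g i x| ≤ B ^ (m + 1 - T.card) := by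
      have h2 : ∏ i ∈ Finset.univ \ T, |g i x| ≤ ∏ _i ∈ Finset.univ \ T, B := by
        refine Finset.prod_le_prod (fun i _ => abs_nonneg _) fun i hi => ?_
        have h3 : L i = [] := List.length_eq_zero_iff.1 (hTc i (Finset.mem_sdiff.1 hi).2)
        simp only [hg, h3]
        exact hB _
      refine h2.trans (le_of_eq ?_)
      rw [Finset.prod_const, Finset.card_sdiff_of_subset (Finset.subset_univ T)]
      simp
    exact mul_le_mul_of_nonneg_right h1 (Finset.prod_nonneg fun i _ => abs_nonneg _)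
  have hTint : Integrable fun x => ∏ i ∈ T, |g i x| := by
    refine Continuous.integrable_of_hasCompactSupport ?_ ?_
    · exact continuous_finsetProd _ fun i _ => (hgc i).abs
    · exact mb_prod_supp T hi₀ (fun i x => |g i x|) ((hgs i₀).comp_left (g := fun t => |t|) (by simp))
  -- Hölder
  have hH : ∫ x, ∏ i ∈ T, |g i x| ≤ C * B ^ (T.card - 2) * S := by
    set q : Fin (m + 1) → ℝ := fun i => 2 * (J : ℝ) / (L i).length with hq
    have hqp : ∀ i ∈ T, q i * p i = 1 := by
      intro i hi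
      have : (0 : ℝ) < (L i).length := by exact_mod_cast hTlen i hi
      simp only [hq, hp]
      field_simp
    have hq0 : ∀ i ∈ T, 0 < q i := by
      intro i hi
      have : (0 : ℝ) < (L i).length := by exact_mod_cast hTlen i hi
      simp only [hq]
      positivity
    have hqint : ∀ i ∈ T, Integrable fun x => |g i x| ^ q i := by
      intro i hi
      refine Continuous.integrable_of_hasCompactSupport ?_ ?_
      · exact (hgc i).abs.rpow_const fun x => Or.inr (hq0 i hi).le
      · exact (hgs i).comp_left (g := fun t => |t| ^ q i)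
          (by simp [Real.zero_rpow (hq0 i hi).ne'])
    have hbd : ∀ i ∈ T, ∫ x, |g i x| ^ q i ≤ C * B ^ (q i - 2) * S := by
      intro i hi
      have h1 : ∫ x, |g i x| ^ q i = ∫ x, |ld (L i) f x| ^ q i :=
        integral_add_right_eq_self (fun x => |ld (L i) f x| ^ q i) (y i)
      rw [h1]
      exact hG f hf hs B S ρ hB hS (L i) (hTlen i hi) (hLJ i) (hLv i)
    have e1 : ENNReal.ofReal (∫ x, ∏ i ∈ T, |g i x|) =
        ∫⁻ x, ∏ i ∈ T, (ENNReal.ofReal (|g i x| ^ q i)) ^ p i := by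
      rw [ofReal_integral_eq_lintegral_ofReal hTint
        (Filter.Eventually.of_forall fun x => Finset.prod_nonneg fun i _ => abs_nonneg _)]
      refine lintegral_congr fun x => ?_
      rw [ENNReal.ofReal_prod_of_nonneg fun i _ => abs_nonneg _]
      refine Finset.prod_congr rfl fun i hi => ?_
      rw [ENNReal.ofReal_rpow_of_nonneg (Real.rpow_nonneg (abs_nonneg _) _) (hp0 i),
        ← Real.rpow_mul (abs_nonneg _), hqp i hi, Real.rpow_one]
    have e2 : ∫⁻ x, ∏ i ∈ T, (ENNReal.ofReal (|g i x| ^ q i)) ^ p i ≤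
        ∏ i ∈ T, (∫⁻ x, ENNReal.ofReal (|g i x| ^ q i)) ^ p i := by
      refine ENNReal.lintegral_prod_norm_pow_le T (fun i hi => ?_) hpsum fun i _ => hp0 i
      exact (hqint i hi).aestronglyMeasurable.aemeasurable.ennreal_ofReal
    have e3 : ∏ i ∈ T, (∫⁻ x, ENNReal.ofReal (|g i x| ^ q i)) ^ p i ≤
        ENNReal.ofReal (∏ i ∈ T, (C * B ^ (q i - 2) * S) ^ p i) := by
      rw [ENNReal.ofReal_prod_of_nonneg fun i _ => Real.rpow_nonneg (by positivity) _]
      refine Finset.prod_le_prod' fun i hi => ?_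
      rw [← ofReal_integral_eq_lintegral_ofReal (hqint i hi)
        (Filter.Eventually.of_forall fun x => Real.rpow_nonneg (abs_nonneg _) _),
        ← ENNReal.ofReal_rpow_of_nonneg (by positivity) (hp0 i)]
      exact ENNReal.rpow_le_rpow (ENNReal.ofReal_le_ofReal (hbd i hi)) (hp0 i)
    have e4 : ∫ x, ∏ i ∈ T, |g i x| ≤ ∏ i ∈ T, (C * B ^ (q i - 2) * S) ^ p i := by
      refine (ENNReal.ofReal_le_ofReal_iff ?_).1 (e1.le.trans (e2.trans e3))
      exact Finset.prod_nonneg fun i _ => Real.rpow_nonneg (by positivity) _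
    refine e4.trans (le_of_eq ?_)
    have e5 : ∀ i ∈ T, (C * B ^ (q i - 2) * S) ^ p i =
        C ^ p i * B ^ ((q i - 2) * p i) * S ^ p i := by
      intro i _
      rw [Real.mul_rpow (by positivity) hS0, Real.mul_rpow hC (by positivity), ← Real.rpow_mul hB0]
    rw [Finset.prod_congr rfl e5, Finset.prod_mul_distrib, Finset.prod_mul_distrib,
      ← Real.rpow_sum_of_nonneg hC fun i _ => hp0 i,
      ← Real.rpow_sum_of_nonneg hS0 fun i _ => hp0 i,
      ← Real.rpow_sum_of_nonneg hB0, hpsum, Real.rpow_one, Real.rpow_one]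
    · congr 2
      have e6 : ∑ i ∈ T, (q i - 2) * p i = ((T.card - 2 : ℕ) : ℝ) := by
        have e7 : ∀ i ∈ T, (q i - 2) * p i = 1 - 2 * p i := by
          intro i hi
          rw [sub_mul, hqp i hi]
        rw [Finset.sum_congr rfl e7, Finset.sum_sub_distrib, ← Finset.mul_sum, hpsum]
        rw [Nat.cast_sub hTcard]
        simp
      rw [e6, Real.rpow_natCast]
    · intro i hi
      have h1 : (q i - 2) * p i = 1 - 2 * p i := by rw [sub_mul, hqp i hi]
      rw [h1]
      have h2 : p i ≤ 1 / 2 := by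
        simp only [hp]
        have : ((L i).length : ℝ) ≤ J := by exact_mod_cast hLJ i
        rw [div_le_div_iff₀ (by positivity) (by norm_num)]
        linarith
      linarith
  -- conclusion
  have hfin : |∫ x, ∏ i, g i x| ≤ B ^ (m + 1 - T.card) * (C * B ^ (T.card - 2) * S) := by
    calc |∫ x, ∏ i, g i x| ≤ ∫ x, |∏ i, g i x| := abs_integral_le_integral_abs
      _ ≤ ∫ x, B ^ (m + 1 - T.card) * ∏ i ∈ T, |g i x| :=
          integral_mono_of_nonneg (Filter.Eventually.of_forall fun x => abs_nonneg _)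
            (hTint.const_mul _) (Filter.Eventually.of_forall hpt)
      _ = B ^ (m + 1 - T.card) * ∫ x, ∏ i ∈ T, |g i x| := integral_const_mul _ _
      _ ≤ _ := mul_le_mul_of_nonneg_left hH (by positivity)
  refine hfin.trans (le_of_eq ?_)
  have h1 : m - 1 = (m + 1 - T.card) + (T.card - 2) := by omega
  rw [h1, pow_add]
  ring

/-- The case `J = 0`. -/
theorem mb_zero (n m : ℕ) (hm : 1 ≤ m) (f : EuclideanSpace ℝ (Fin n) → ℝ)
    (hf : ContDiff ℝ (⊤ : ℕ∞) f) (hs : HasCompactSupport f) (B S : ℝ) (hB : ∀ x, |f x| ≤ B)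
    (hS : ∫ x, (f x) ^ 2 ≤ S) (y : Fin (m + 1) → EuclideanSpace ℝ (Fin n)) :
    |∫ x, ∏ i, f (x + y i)| ≤ B ^ (m - 1) * S := by
  have hB0 : 0 ≤ B := (abs_nonneg _).trans (hB 0)
  obtain ⟨k, rfl⟩ : ∃ k, m = k + 1 := ⟨m - 1, by omega⟩
  have hsq : ∀ z : EuclideanSpace ℝ (Fin n), Integrable fun x => (f (x + z)) ^ 2 := by
    intro z
    refine Continuous.integrable_of_hasCompactSupport ?_ ?_
    · exact (hf.continuous.comp (by fun_prop)).pow 2
    · exact (hs.comp_homeomorph (Homeomorph.addRight z)).comp_left (g := fun t => t ^ 2) (by simp)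
  have hpt : ∀ x, |∏ i, f (x + y i)| ≤
      B ^ k * (((f (x + y 0)) ^ 2 + (f (x + y 1)) ^ 2) / 2) := by
    intro x
    rw [Finset.abs_prod, Fin.prod_univ_succ, Fin.prod_univ_succ]
    have h1 : ∏ i : Fin k, |f (x + y i.succ.succ)| ≤ B ^ k := by
      calc ∏ i : Fin k, |f (x + y i.succ.succ)| ≤ ∏ _i : Fin k, B :=
            Finset.prod_le_prod (fun i _ => abs_nonneg _) fun i _ => hB _
        _ = B ^ k := by simp
    have h2 : |f (x + y 0)| * |f (x + y 1)| ≤
        ((f (x + y 0)) ^ 2 + (f (x + y 1)) ^ 2) / 2 := by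
      rw [← sq_abs (f (x + y 0)), ← sq_abs (f (x + y 1))]
      nlinarith [sq_nonneg (|f (x + y 0)| - |f (x + y 1)|)]
    have h3 : (Fin.succ 0 : Fin (k + 1 + 1)) = 1 := rfl
    rw [h3, ← mul_assoc, mul_comm]
    exact mul_le_mul h1 h2 (by positivity) (by positivity)
  have hval : ∀ z : EuclideanSpace ℝ (Fin n), ∫ x, (f (x + z)) ^ 2 = ∫ x, (f x) ^ 2 :=
    fun z => integral_add_right_eq_self (fun x => (f x) ^ 2) z
  calc |∫ x, ∏ i, f (x + y i)| ≤ ∫ x, |∏ i, f (x + y i)| := abs_integral_le_integral_abs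
    _ ≤ ∫ x, B ^ k * (((f (x + y 0)) ^ 2 + (f (x + y 1)) ^ 2) / 2) :=
        integral_mono_of_nonneg (Filter.Eventually.of_forall fun x => abs_nonneg _)
          ((((hsq (y 0)).add (hsq (y 1))).div_const 2).const_mul _)
          (Filter.Eventually.of_forall hpt)
    _ = B ^ k * ∫ x, (f x) ^ 2 := by
        rw [integral_const_mul, integral_div, integral_add (hsq _) (hsq _), hval, hval]
        ring
    _ ≤ B ^ (k + 1 - 1) * S := by
        rw [Nat.add_sub_cancel]
        exact mul_le_mul_of_nonneg_left hS (by positivity)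

theorem multiBd (h39 : GagNir) : MultiBd := by
  intro n J m hm
  rcases Nat.eq_zero_or_pos J with rfl | hJ
  · refine ⟨1, zero_le_one, fun f hf hs B S ρ hB hS L hL hLv y => ?_⟩
    have hnil : ∀ i, L i = [] := by
      intro i
      have : (L i).length ≤ ∑ i, (L i).length :=
        Finset.single_le_sum (f := fun i => (L i).length) (fun _ _ => Nat.zero_le _)
          (Finset.mem_univ i)
      exact List.length_eq_zero_iff.1 (by omega)
    have h0 : ∫ x, (f x) ^ 2 ≤ S := hS [] rfl (by simp)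
    simp only [hnil]
    rw [one_mul]
    exact mb_zero n m hm f hf hs B S hB h0 y
  obtain ⟨C, hC, hH⟩ := mb_holder h39 n J m hJ hm
  -- the induction on the excess
  have key : ∀ e : ℕ, ∀ f : EuclideanSpace ℝ (Fin n) → ℝ,
      ContDiff ℝ (⊤ : ℕ∞) f → HasCompactSupport f → ∀ B S ρ : ℝ, (∀ x, |f x| ≤ B) →
      (∀ L : List (EuclideanSpace ℝ (Fin n)), L.length = J → (∀ v ∈ L, ‖v‖ ≤ ρ) →
        ∫ x, (ld L f x) ^ 2 ≤ S) →
      ∀ L : Fin (m + 1) → List (EuclideanSpace ℝ (Fin n)), ∑ i, (L i).length = 2 * J →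
        (∀ i, (L i).length ≤ J + e) →
        (∀ i, ∀ v ∈ L i, ‖v‖ ≤ ρ) → ∀ y : Fin (m + 1) → EuclideanSpace ℝ (Fin n),
        |∫ x, ∏ i, ld (L i) f (x + y i)| ≤ (m : ℝ) ^ e * (C * B ^ (m - 1) * S) := by
    intro e
    induction e with
    | zero =>
      intro f hf hs B S ρ hB hS L hL hLJ hLv y
      rw [pow_zero, one_mul]
      exact hH f hf hs B S ρ hB hS L hL hLJ hLv y
    | succ e ih =>
      intro f hf hs B S ρ hB hS L hL hLJ hLv y
      have hm1 : (1 : ℝ) ≤ m := by exact_mod_cast hm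
      by_cases hall : ∀ i, (L i).length ≤ J + e
      · have h1 := ih f hf hs B S ρ hB hS L hL hall hLv y
        have h2 : 0 ≤ (m : ℝ) ^ e * (C * B ^ (m - 1) * S) := (abs_nonneg _).trans h1
        rw [pow_succ]
        nlinarith
      · push Not at hall
        obtain ⟨i, hi⟩ := hall
        have hilen : (L i).length = J + e + 1 := by
          have := hLJ i
          omega
        obtain ⟨v, T, hvT⟩ : ∃ v T, L i = v :: T := by
          rcases hLi : L i with _ | ⟨v, T⟩
          · rw [hLi] at hilen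
            simp at hilen
          · exact ⟨v, T, rfl⟩
        have hTlen : T.length = J + e := by
          rw [hvT, List.length_cons] at hilen
          omega
        -- lengths of the other lists
        have hsplit : (L i).length + ∑ l ∈ Finset.univ.erase i, (L l).length = 2 * J := by
          rw [← hL]
          exact Finset.add_sum_erase Finset.univ (fun l => (L l).length) (Finset.mem_univ i)
        set M : Fin (m + 1) → List (EuclideanSpace ℝ (Fin n)) := Function.update L i T with hM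
        have hMi : M i = T := Function.update_self _ _ _
        have hMne : ∀ l, l ≠ i → M l = L l := fun l hl => Function.update_of_ne hl _ _
        have hMback : Function.update M i (v :: M i) = L := by
          rw [hMi, hM, Function.update_idem, ← hvT, Function.update_eq_self]
        have htot := mb_total hf hs M y v
        rw [← Finset.add_sum_erase Finset.univ _ (Finset.mem_univ i), hMback] at htot
        have hkey : ∫ x, ∏ l, ld (L l) f (x + y l) =
            -∑ j ∈ Finset.univ.erase i, ∫ x, ∏ l,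
              ld (Function.update M j (v :: M j) l) f (x + y l) := by linarith
        have hj : ∀ j ∈ Finset.univ.erase i, |∫ x, ∏ l,
            ld (Function.update M j (v :: M j) l) f (x + y l)| ≤
              (m : ℝ) ^ e * (C * B ^ (m - 1) * S) := by
          intro j hj
          have hji : j ≠ i := Finset.ne_of_mem_erase hj
          have hLj : (L j).length ≤ ∑ l ∈ Finset.univ.erase i, (L l).length :=
            Finset.single_le_sum (f := fun l => (L l).length) (fun _ _ => Nat.zero_le _) hj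
          refine ih f hf hs B S ρ hB hS _ ?_ ?_ ?_ y
          · rw [← Finset.add_sum_erase Finset.univ _ (Finset.mem_univ j), Function.update_self,
              List.length_cons]
            have h1 : ∑ l ∈ Finset.univ.erase j, (Function.update M j (v :: M j) l).length =
                ∑ l ∈ Finset.univ.erase j, (M l).length :=
              Finset.sum_congr rfl fun l hl => by
                rw [Function.update_of_ne (Finset.ne_of_mem_erase hl)]
            have h2 : (M j).length + ∑ l ∈ Finset.univ.erase j, (M l).length =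
                ∑ l, (M l).length :=
              Finset.add_sum_erase Finset.univ (fun l => (M l).length) (Finset.mem_univ j)
            have h3 : (M i).length + ∑ l ∈ Finset.univ.erase i, (M l).length =
                ∑ l, (M l).length :=
              Finset.add_sum_erase Finset.univ (fun l => (M l).length) (Finset.mem_univ i)
            have h4 : ∑ l ∈ Finset.univ.erase i, (M l).length =
                ∑ l ∈ Finset.univ.erase i, (L l).length :=
              Finset.sum_congr rfl fun l hl => by rw [hMne l (Finset.ne_of_mem_erase hl)]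
            rw [hMi] at h3
            rw [h1]
            omega
          · intro l
            rcases eq_or_ne l j with rfl | hlj
            · rw [Function.update_self, List.length_cons, hMne l hji]
              omega
            · rw [Function.update_of_ne hlj]
              rcases eq_or_ne l i with rfl | hli
              · rw [hMi]
                omega
              · rw [hMne l hli]
                have := Finset.single_le_sum (f := fun l => (L l).length)
                  (fun _ _ => Nat.zero_le _) (Finset.mem_erase.2 ⟨hli, Finset.mem_univ l⟩)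
                have h5 : (L l).length ≤ ∑ l ∈ Finset.univ.erase i, (L l).length := this
                omega
          · intro l w hw
            have hv : ‖v‖ ≤ ρ := hLv i v (by rw [hvT]; exact List.mem_cons_self)
            have hMl : ∀ l, ∀ w ∈ M l, ‖w‖ ≤ ρ := by
              intro l w hw
              rcases eq_or_ne l i with rfl | hli
              · rw [hMi] at hw
                exact hLv l w (by rw [hvT]; exact List.mem_cons_of_mem v hw)
              · rw [hMne l hli] at hw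
                exact hLv l w hw
            rcases eq_or_ne l j with rfl | hlj
            · rw [Function.update_self] at hw
              rcases List.mem_cons.1 hw with rfl | hw
              · exact hv
              · exact hMl l w hw
            · rw [Function.update_of_ne hlj] at hw
              exact hMl l w hw
        rw [hkey, abs_neg]
        refine (Finset.abs_sum_le_sum_abs _ _).trans ((Finset.sum_le_sum hj).trans (le_of_eq ?_))
        rw [Finset.sum_const, Finset.card_erase_of_mem (Finset.mem_univ i), Finset.card_univ,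
          Fintype.card_fin, Nat.add_sub_cancel, nsmul_eq_mul, pow_succ]
        ring
  refine ⟨(m : ℝ) ^ J * C, by positivity, fun f hf hs B S ρ hB hS L hL hLv y => ?_⟩
  have h := key J f hf hs B S ρ hB hS L hL (fun i => ?_) hLv y
  · refine h.trans (le_of_eq (by ring))
  · have : (L i).length ≤ ∑ i, (L i).length :=
      Finset.single_le_sum (f := fun i => (L i).length) (fun _ _ => Nat.zero_le _)
        (Finset.mem_univ i)
    omega

end Pool.Agent.Work.MP_f2af60_mp

end

section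

/-!
# MP_f2af60_mp, item Q43: the multilinear terms, from smooth functions to bounded ones
-/

namespace Pool.Agent.Work.MP_f2af60_mp

open MeasureTheory Filter Topology

lemma q43_prod {ι : Type*} (s : Finset ι) (a b : ι → ℝ) {M : ℝ} (hM : 0 ≤ M)
    (ha : ∀ i, |a i| ≤ M) (hb : ∀ i, |b i| ≤ M) :
    |(∏ i ∈ s, a i) - ∏ i ∈ s, b i| ≤ (1 + M) ^ s.card * ∑ i ∈ s, |a i - b i| := by
  classical
  induction s using Finset.induction_on with
  | empty => simp
  | insert j s hj ih =>
    rw [Finset.prod_insert hj, Finset.prod_insert hj, Finset.sum_insert hj,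
      Finset.card_insert_of_notMem hj]
    have h1 : |∏ i ∈ s, a i| ≤ (1 + M) ^ s.card := by
      rw [Finset.abs_prod]
      calc ∏ i ∈ s, |a i| ≤ ∏ i ∈ s, (1 + M) :=
            Finset.prod_le_prod (fun i _ => abs_nonneg _) (fun i _ => by linarith [ha i])
        _ = (1 + M) ^ s.card := by simp
    have e : a j * (∏ i ∈ s, a i) - b j * ∏ i ∈ s, b i =
        (a j - b j) * (∏ i ∈ s, a i) + b j * ((∏ i ∈ s, a i) - ∏ i ∈ s, b i) := by ring
    rw [e]
    have hs : 0 ≤ ∑ i ∈ s, |a i - b i| := Finset.sum_nonneg fun i _ => abs_nonneg _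
    have hp : (0 : ℝ) ≤ (1 + M) ^ s.card := by positivity
    calc |(a j - b j) * (∏ i ∈ s, a i) + b j * ((∏ i ∈ s, a i) - ∏ i ∈ s, b i)|
        ≤ |(a j - b j) * (∏ i ∈ s, a i)| + |b j * ((∏ i ∈ s, a i) - ∏ i ∈ s, b i)| :=
          abs_add_le _ _
      _ = |a j - b j| * |∏ i ∈ s, a i| + |b j| * |(∏ i ∈ s, a i) - ∏ i ∈ s, b i| := by
          rw [abs_mul, abs_mul]
      _ ≤ |a j - b j| * (1 + M) ^ s.card +
          M * ((1 + M) ^ s.card * ∑ i ∈ s, |a i - b i|) := by
          gcongr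
          exact hb j
      _ ≤ (1 + M) ^ (s.card + 1) * (|a j - b j| + ∑ i ∈ s, |a i - b i|) := by
          rw [pow_succ]
          have h2 : 0 ≤ |a j - b j| := abs_nonneg _
          nlinarith [mul_nonneg hp h2, mul_nonneg hp hs, mul_nonneg (mul_nonneg hp h2) hM]

lemma q43_int {q : ℕ} {V : En q → ℝ} (hV : Measurable V) {M R : ℝ} (hM : ∀ x, |V x| ≤ M)
    (hR : ∀ x, R < ‖x‖ → V x = 0) : Integrable V := by
  have h : IntegrableOn V (Metric.closedBall (0 : En q) R) := by
    apply Measure.integrableOn_of_bounded (M := M)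
    · exact (measure_closedBall_lt_top).ne
    · exact hV.aestronglyMeasurable
    · exact Eventually.of_forall fun x => by simpa using hM x
  rw [← integrableOn_univ]
  apply h.of_forall_sdiff_eq_zero MeasurableSet.univ
  intro x hx
  apply hR
  have := hx.2
  rw [Metric.mem_closedBall, dist_zero_right, not_le] at this
  exact this

lemma q43_intprod {q m : ℕ} {V : En q → ℝ} (hVi : Integrable V) (hV : Measurable V) {M : ℝ}
    (hM : ∀ x, |V x| ≤ M) (y : Fin m → En q) :
    Integrable (fun x => V x * ∏ i, V (x + y i)) := by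
  apply hVi.mul_bdd (c := M ^ m)
  · exact (Finset.measurable_prod _ fun i _ =>
      hV.comp (measurable_id.add_const (y i))).aestronglyMeasurable
  · refine Eventually.of_forall fun x => ?_
    rw [Real.norm_eq_abs, Finset.abs_prod]
    calc ∏ i : Fin m, |V (x + y i)| ≤ ∏ i : Fin m, M :=
          Finset.prod_le_prod (fun i _ => abs_nonneg _) (fun i _ => hM _)
      _ = M ^ m := by simp

lemma q43_MM {q m : ℕ} {f V : En q → ℝ} (hf : Integrable f) (hVi : Integrable V)
    (hfm : Measurable f) (hV : Measurable V) {M : ℝ} (hM0 : 0 ≤ M)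
    (hfM : ∀ x, |f x| ≤ M) (hM : ∀ x, |V x| ≤ M) (y : Fin m → En q) :
    |MM q f m y - MM q V m y| ≤ (1 + M) ^ (m + 1) * ((m + 1) * ∫ x, |f x - V x|) := by
  unfold MM
  rw [← integral_sub (q43_intprod hf hfm hfM y) (q43_intprod hVi hV hM y)]
  have hd : Integrable (fun x => |f x - V x|) := (hf.sub hVi).abs
  have hdy : ∀ i, Integrable (fun x => |f (x + y i) - V (x + y i)|) := fun i =>
    hd.comp_add_right (y i)
  calc |∫ x, (f x * ∏ i, f (x + y i)) - V x * ∏ i, V (x + y i)|
      ≤ ∫ x, |(f x * ∏ i, f (x + y i)) - V x * ∏ i, V (x + y i)| :=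
        abs_integral_le_integral_abs
    _ ≤ ∫ x, (1 + M) ^ (m + 1) * (|f x - V x| + ∑ i, |f (x + y i) - V (x + y i)|) := by
        apply integral_mono
        · exact ((q43_intprod hf hfm hfM y).sub (q43_intprod hVi hV hM y)).abs
        · exact (hd.add (integrable_finsetSum _ fun i _ => hdy i)).const_mul _
        · intro x
          have h := q43_prod (Finset.univ : Finset (Fin (m + 1)))
            (fun i => f (x + (Fin.cons 0 y : Fin (m + 1) → En q) i))
            (fun i => V (x + (Fin.cons 0 y : Fin (m + 1) → En q) i)) hM0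
            (fun i => hfM _) (fun i => hM _)
          simpa [Fin.prod_univ_succ, Fin.sum_univ_succ] using h
    _ = (1 + M) ^ (m + 1) * ((m + 1) * ∫ x, |f x - V x|) := by
        rw [integral_const_mul, integral_add hd (integrable_finsetSum _ fun i _ => hdy i),
          integral_finsetSum _ fun i _ => hdy i]
        have h1 : ∀ i, ∫ x, |f (x + y i) - V (x + y i)| = ∫ x, |f x - V x| := fun i =>
          integral_add_right_eq_self (fun x => |f x - V x|) (y i)
        simp only [h1, Finset.sum_const, Finset.card_univ, Fintype.card_fin, nsmul_eq_mul]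
        ring

lemma q43_MMmeas {q m : ℕ} {V : En q → ℝ} (hV : Measurable V) :
    Measurable (MM q V m) := by
  unfold MM
  apply StronglyMeasurable.measurable
  apply StronglyMeasurable.integral_prod_right
  apply Measurable.stronglyMeasurable
  apply Measurable.mul (hV.comp measurable_snd)
  apply Finset.measurable_prod
  intro i _
  exact hV.comp (measurable_snd.add ((measurable_pi_apply i).comp measurable_fst))

lemma q43_MMbdd {q m : ℕ} {V : En q → ℝ} (hVi : Integrable V) (hV : Measurable V) {M : ℝ}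
    (hM : ∀ x, |V x| ≤ M) (y : Fin m → En q) :
    |MM q V m y| ≤ M ^ m * ∫ x, |V x| := by
  unfold MM
  rw [← integral_const_mul]
  refine abs_integral_le_integral_abs.trans (integral_mono (q43_intprod hVi hV hM y).abs
    (hVi.abs.const_mul _) fun x => ?_)
  show |V x * ∏ i, V (x + y i)| ≤ M ^ m * |V x|
  rw [abs_mul, mul_comm, Finset.abs_prod]
  gcongr
  calc ∏ i : Fin m, |V (x + y i)| ≤ ∏ i : Fin m, M :=
        Finset.prod_le_prod (fun i _ => abs_nonneg _) (fun i _ => hM _)
    _ = M ^ m := by simp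

lemma q43_km (h33 : KmFacts) {q m : ℕ} (hq : 1 ≤ q) (hm : 1 ≤ m) :
    Integrable (fun y : Fin m → En q => km q m y) := by
  obtain ⟨h0, -, hi, -⟩ := h33 q m hq hm
  have hc : Continuous (fun y : Fin m → En q => ((1 + ‖y‖) ^ (2 * q))⁻¹) := by
    apply Continuous.inv₀ (by fun_prop)
    intro y
    positivity
  have := hi.bdd_mul (c := 1) hc.aestronglyMeasurable (Eventually.of_forall fun y => by
    rw [norm_inv, norm_pow, Real.norm_of_nonneg (by positivity)]
    apply inv_le_one_of_one_le₀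
    apply one_le_pow₀
    linarith [norm_nonneg y])
  refine this.congr (Eventually.of_forall fun y => ?_)
  show ((1 + ‖y‖) ^ (2 * q))⁻¹ * ((1 + ‖y‖) ^ (2 * q) * km q m y) = km q m y
  rw [inv_mul_cancel_left₀]
  positivity

lemma q43_Phi (h33 : KmFacts) {q m : ℕ} (hq : 1 ≤ q) (hm : 1 ≤ m) {f V : En q → ℝ}
    (hf : Integrable f) (hVi : Integrable V)
    (hfm : Measurable f) (hV : Measurable V) {M : ℝ} (hM0 : 0 ≤ M)
    (hfM : ∀ x, |f x| ≤ M) (hM : ∀ x, |V x| ≤ M) (e : ℝ) :
    |Phi q f m e - Phi q V m e| ≤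
      (∫ y, km q m y) * ((1 + M) ^ (m + 1) * ((m + 1) * ∫ x, |f x - V x|)) := by
  have hk := q43_km h33 hq hm
  have h0 := (h33 q m hq hm).1
  have hcs : Measurable (fun y : Fin m → En q => fun i => Real.sqrt e • y i) :=
    measurable_pi_lambda _ fun i => Measurable.const_smul (measurable_pi_apply i) (Real.sqrt e)
  have hint : ∀ g : En q → ℝ, Integrable g → Measurable g → (∀ x, |g x| ≤ M) →
      Integrable (fun y : Fin m → En q => km q m y * MM q g m (fun i => Real.sqrt e • y i)) := by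
    intro g hg hgm hgM
    apply hk.mul_bdd (c := M ^ m * ∫ x, |g x|)
    · exact ((q43_MMmeas hgm).comp hcs).aestronglyMeasurable
    · exact Eventually.of_forall fun y => by
        rw [Real.norm_eq_abs]; exact q43_MMbdd hg hgm hgM _
  unfold Phi
  rw [← integral_sub (hint f hf hfm hfM) (hint V hVi hV hM)]
  refine abs_integral_le_integral_abs.trans ?_
  rw [← integral_mul_const]
  apply integral_mono ((hint f hf hfm hfM).sub (hint V hVi hV hM)).abs (hk.mul_const _)
  intro y
  show |km q m y * MM q f m (fun i => Real.sqrt e • y i) -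
    km q m y * MM q V m (fun i => Real.sqrt e • y i)| ≤ _
  rw [← mul_sub, abs_mul, abs_of_nonneg (h0 y)]
  exact mul_le_mul_of_nonneg_left (q43_MM hf hVi hfm hV hM0 hfM hM _) (h0 y)

/-- Item Q43. -/
theorem multiExpand (h41 : SmoothExpand) (h42 : Mollify) (h33 : KmFacts) (h29 : LimClosure) :
    MultiExpand := by
  intro q hq V hV M R hM hR J hJ hHS m hm
  have hM0 : 0 ≤ M := (abs_nonneg _).trans (hM 0)
  have hVi := q43_int hV hM hR
  obtain ⟨f, S, hfs, hfc, hfM, hfS, hft⟩ := h42 q J V hV M R hM hR hHS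
  obtain ⟨C, hC⟩ := h41 q J m hq hm hJ.le M S
  have hfi : ∀ n, Integrable (f n) := fun n =>
    (hfs n).continuous.integrable_of_hasCompactSupport (hfc n)
  have hfm : ∀ n, Measurable (f n) := fun n => (hfs n).continuous.measurable
  choose c hc using fun n => hC (f n) (hfs n) (hfc n) (hfM n) (hfS n)
  -- convergence
  have hconv : ∀ e : ℝ, Tendsto (fun n => Phi q (f n) m e) atTop (𝓝 (Phi q V m e)) := by
    intro e
    rw [tendsto_iff_norm_sub_tendsto_zero]
    have hlim : Tendsto (fun n => (∫ y, km q m y) *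
        ((1 + M) ^ (m + 1) * (((m : ℝ) + 1) * ∫ x, |f n x - V x|))) atTop (𝓝 0) := by
      have := ((hft.const_mul ((m : ℝ) + 1)).const_mul ((1 + M) ^ (m + 1))).const_mul
        (∫ y, km q m y)
      simpa using this
    refine squeeze_zero (fun n => norm_nonneg _) (fun n => ?_) hlim
    rw [Real.norm_eq_abs]
    exact q43_Phi h33 hq hm (hfi n) hVi (hfm n) hV hM0 (hfM n) hM e
  obtain ⟨β, hβ, -⟩ := h29 J (fun i => -((i : ℕ) : ℝ)) (fun i j h => by
      have : ((i : ℕ) : ℝ) = ((j : ℕ) : ℝ) := by simpa using h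
      exact Fin.ext (by exact_mod_cast this))
    (fun n i => ((c n i : ℝ) : ℂ)) (fun E => ((Phi q V m E⁻¹ : ℝ) : ℂ))
    (fun E => C * E ^ (-(J : ℝ))) 1 one_pos (by
      intro E hE η hη
      have hE0 : 0 < E := by linarith
      have h1 : ∀ᶠ n in atTop, |Phi q (f n) m E⁻¹ - Phi q V m E⁻¹| < η := by
        have := (hconv E⁻¹).eventually (Metric.ball_mem_nhds _ hη)
        simpa [Real.dist_eq] using this
      filter_upwards [h1] with n hn
      have h2 := hc n E⁻¹ (by positivity) (inv_le_one_of_one_le₀ hE)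
      have e1 : (∑ j : Fin J, ((c n j : ℝ) : ℂ) * ((E ^ (-((j : ℕ) : ℝ)) : ℝ) : ℂ)) -
          ((Phi q V m E⁻¹ : ℝ) : ℂ) =
          (((∑ i ∈ Finset.range J, c n i * E⁻¹ ^ i) - Phi q V m E⁻¹ : ℝ) : ℂ) := by
        rw [Finset.sum_range]
        push_cast
        congr 1
        apply Finset.sum_congr rfl
        intro j _
        rw [Real.rpow_neg hE0.le, Real.rpow_natCast]
        push_cast
        rw [inv_pow]
      rw [e1, Complex.norm_real, Real.norm_eq_abs]
      have e2 : E ^ (-(J : ℝ)) = E⁻¹ ^ J := by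
        rw [Real.rpow_neg hE0.le, Real.rpow_natCast, inv_pow]
      rw [e2]
      have h3 : |(∑ i ∈ Finset.range J, c n i * E⁻¹ ^ i) - Phi q (f n) m E⁻¹| ≤ C * E⁻¹ ^ J := by
        rw [abs_sub_comm]; exact h2
      calc |(∑ i ∈ Finset.range J, c n i * E⁻¹ ^ i) - Phi q V m E⁻¹|
          = |((∑ i ∈ Finset.range J, c n i * E⁻¹ ^ i) - Phi q (f n) m E⁻¹) +
            (Phi q (f n) m E⁻¹ - Phi q V m E⁻¹)| := by rw [sub_add_sub_cancel]
        _ ≤ _ := abs_add_le _ _
        _ ≤ C * E⁻¹ ^ J + η := by linarith)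
  refine ⟨fun i => if h : i < J then (β ⟨i, h⟩).re else 0, C, fun e he0 he1 => ?_⟩
  have h := hβ e⁻¹ ((one_le_inv₀ he0).2 he1)
  rw [inv_inv] at h
  have e2 : (e⁻¹) ^ (-(J : ℝ)) = e ^ J := by
    rw [Real.rpow_neg (by positivity), Real.rpow_natCast, inv_pow, inv_inv]
  rw [e2] at h
  refine le_trans ?_ h
  refine le_trans ?_ (Complex.abs_re_le_norm _)
  rw [abs_sub_comm]
  apply le_of_eq
  congr 1
  rw [Complex.sub_re, Complex.ofReal_re, Complex.re_sum, Finset.sum_range]
  congr 1
  apply Finset.sum_congr rfl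
  intro j _
  have hj : (fun i => if h : i < J then (β ⟨i, h⟩).re else 0) (j : ℕ) = (β j).re := by
    simp
  rw [hj, Complex.re_mul_ofReal, Real.rpow_neg (by positivity), Real.rpow_natCast,
    inv_pow, inv_inv]

end Pool.Agent.Work.MP_f2af60_mp

end

section

/-!
# MP_f2af60_mp, Q6: the weakly singular kernel operators in all odd dimensions
-/

set_option linter.unusedSectionVars false

namespace Pool.Agent.Work.MP_f2af60_mp

open MeasureTheory Metric Filter Topology

section Trunc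

variable {K : Type*} [MetricSpace K] [CompactSpace K] [MeasurableSpace K] [BorelSpace K]
    {μ : Measure K} {C : ℝ} {q : ℕ}

/-- The integrals of the fourth inverse power are uniformly bounded. -/
lemma SpQ.goq_bound (hS : SpQ q μ C) : ∃ D : ℝ, 0 ≤ D ∧ ∀ x, ∫ y, ((dist x y) ^ (2 * q + 2))⁻¹ ∂μ ≤ D := by
  refine ⟨max 0 (C * (diam (Set.univ : Set K) + 1)), le_max_left _ _, fun x => ?_⟩
  have h := hS.small x (diam (Set.univ : Set K) + 1)
    (by have := diam_nonneg (s := (Set.univ : Set K)); linarith)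
  have hball : ball x (diam (Set.univ : Set K) + 1) = Set.univ := by
    ext y
    simp only [mem_ball, Set.mem_univ, iff_true]
    have := dist_le_diam_of_mem (isBounded_of_compactSpace : Bornology.IsBounded
      (Set.univ : Set K)) (Set.mem_univ y) (Set.mem_univ x)
    linarith
  rw [hball, setIntegral_univ] at h
  exact h.trans (le_max_right _ _)

/-- Continuity of a parameter integral by truncation. -/
lemma goq_continuous_integral_of_trunc {P : Type*} [TopologicalSpace P] [FirstCountableTopology P]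
    [IsFiniteMeasure μ] (F : P → K → ℂ) (G : ℝ → P → K → ℂ) (D : ℝ)
    (hGm : ∀ e > 0, ∀ p, AEStronglyMeasurable (G e p) μ)
    (hGb : ∀ e > 0, ∃ B : ℝ, ∀ p z, ‖G e p z‖ ≤ B)
    (hGc : ∀ e > 0, ∀ z, Continuous fun p => G e p z)
    (hd : ∀ e > 0, e ≤ 1 → ∀ p, ‖∫ z, F p z ∂μ - ∫ z, G e p z ∂μ‖ ≤ D * e) :
    Continuous fun p => ∫ z, F p z ∂μ := by
  have hc : ∀ e > 0, Continuous fun p => ∫ z, G e p z ∂μ := by
    intro e he
    obtain ⟨B, hB⟩ := hGb e he
    refine continuous_of_dominated (bound := fun _ => B) (hGm e he) ?_ (integrable_const B) ?_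
    · exact fun p => Filter.Eventually.of_forall (hB p)
    · exact Filter.Eventually.of_forall (hGc e he)
  refine continuous_of_uniform_approx_of_continuous fun u hu => ?_
  obtain ⟨ε, hε, hu⟩ := Metric.mem_uniformity_dist.1 hu
  have hD : 0 < |D| + 1 := by positivity
  have he : 0 < min 1 (ε / (2 * (|D| + 1))) := by positivity
  refine ⟨_, hc _ he, fun p => hu ?_⟩
  rw [dist_eq_norm]
  refine (hd _ he (min_le_left _ _) p).trans_lt ?_
  calc D * min 1 (ε / (2 * (|D| + 1))) ≤ (|D| + 1) * (ε / (2 * (|D| + 1))) := by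
        apply mul_le_mul _ (min_le_right _ _) he.le hD.le
        linarith [le_abs_self D]
    _ = ε / 2 := by field_simp
    _ < ε := by linarith

/-- Comparison of two integrals. -/
lemma goq_integral_diff_le {F G : K → ℂ} {k : K → ℝ} {D : ℝ} (hF : Integrable F μ)
    (hG : Integrable G μ) (hk : Integrable k μ) (h : ∀ᵐ z ∂μ, ‖F z - G z‖ ≤ k z)
    (hkD : ∫ z, k z ∂μ ≤ D) : ‖∫ z, F z ∂μ - ∫ z, G z ∂μ‖ ≤ D := by
  rw [← integral_sub hF hG]
  exact (norm_integral_le_of_norm_le hk h).trans hkD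

lemma goq_inv_le (a : ℝ) (ha : 0 ≤ a) : (a ^ (2 * q + 1))⁻¹ ≤ 1 + (a ^ (2 * q + 2))⁻¹ := by
  rcases ha.eq_or_lt with h | h
  · rw [← h]; norm_num
  · rcases le_total 1 a with h1 | h1
    · have : (a ^ (2 * q + 1))⁻¹ ≤ 1 := inv_le_one_of_one_le₀ (one_le_pow₀ h1)
      have : 0 ≤ (a ^ (2 * q + 2))⁻¹ := by positivity
      linarith
    · have : (a ^ (2 * q + 1))⁻¹ ≤ (a ^ (2 * q + 2))⁻¹ := by
        apply inv_anti₀ (by positivity)
        exact pow_le_pow_of_le_one h.le h1 (by norm_num)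
      linarith

/-- Truncation error for the third inverse power. -/
lemma goq_trunc (a e : ℝ) (ha : 0 < a) (he : 0 < e) (he1 : e ≤ 1) :
    |(a ^ (2 * q + 1))⁻¹ - ((max a e) ^ (2 * q + 1))⁻¹| ≤ if a < e then (a ^ (2 * q + 2))⁻¹ else 0 := by
  split_ifs with h
  · rw [max_eq_right h.le, abs_of_nonneg]
    · have h1 : (a ^ (2 * q + 1))⁻¹ ≤ (a ^ (2 * q + 2))⁻¹ := by
        apply inv_anti₀ (by positivity)
        exact pow_le_pow_of_le_one ha.le (h.le.trans he1) (by norm_num)
      have : 0 ≤ (e ^ (2 * q + 1))⁻¹ := by positivity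
      linarith
    · have : (e ^ (2 * q + 1))⁻¹ ≤ (a ^ (2 * q + 1))⁻¹ := by
        apply inv_anti₀ (by positivity)
        gcongr
      linarith
  · rw [max_eq_left (not_lt.1 h)]; simp

lemma SpQ.goq_ae_ne (hS : SpQ q μ C) (x : K) : ∀ᵐ z ∂μ, z ≠ x := by
  have := hS.noat
  have : μ {x} = 0 := measure_singleton x
  rw [ae_iff]
  simp [this]

lemma SpQ.goq_small' (hS : SpQ q μ C) (x : K) {e : ℝ} (he : 0 < e) :
    Integrable (fun z => if dist x z < e then ((dist x z) ^ (2 * q + 2))⁻¹ else 0) μ ∧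
      ∫ z, (if dist x z < e then ((dist x z) ^ (2 * q + 2))⁻¹ else 0) ∂μ ≤ C * e := by
  have hE : (fun z => if dist x z < e then ((dist x z) ^ (2 * q + 2))⁻¹ else 0) =
      (ball x e).indicator fun z => ((dist x z) ^ (2 * q + 2))⁻¹ := by
    funext z
    simp only [Set.indicator, mem_ball, dist_comm z x]
  constructor
  · rw [hE]
    exact (hS.int x).indicator measurableSet_ball
  · rw [hE, integral_indicator measurableSet_ball]
    exact hS.small x e he

end Trunc

section Op

variable {K : Type*} [MetricSpace K] [CompactSpace K] [MeasurableSpace K] [BorelSpace K]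
    {μ : Measure K} {C : ℝ} {q : ℕ}

lemma goq_norm_opInt_le (V : K → ℝ) (M : ℝ) (hM : ∀ x, |V x| ≤ M) (h : C(K × K, ℂ)) (f : C(K, ℂ))
    (x y : K) (t : ℝ) :
    ‖h (x, y) * (t : ℂ) * (V y : ℂ) * f y‖ ≤ ‖h‖ * M * ‖f‖ * |t| := by
  rw [norm_mul, norm_mul, norm_mul, Complex.norm_real, Complex.norm_real, Real.norm_eq_abs,
    Real.norm_eq_abs]
  have h1 := h.norm_coe_le_norm (x, y)
  have h2 := f.norm_coe_le_norm y
  have h3 := hM y
  have hM0 : 0 ≤ M := (abs_nonneg _).trans h3
  calc ‖h (x, y)‖ * |t| * |V y| * ‖f y‖ ≤ ‖h‖ * |t| * M * ‖f‖ := by gcongr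
    _ = ‖h‖ * M * ‖f‖ * |t| := by ring

lemma goq_opInt_meas (V : K → ℝ) (hV : Measurable V) (h : C(K × K, ℂ)) (f : C(K, ℂ)) (x : K)
    (k : K → ℝ) (hk : Measurable k) :
    Measurable fun y => h (x, y) * ((k y : ℝ) : ℂ) * (V y : ℂ) * f y := by
  have h1 : Measurable fun y => h (x, y) := (h.continuous.comp (by fun_prop)).measurable
  have h2 : Measurable f := f.continuous.measurable
  fun_prop

lemma goq_op_integrable (hS : SpQ q μ C) (V : K → ℝ) (hV : Measurable V) (M : ℝ) (hM : ∀ x, |V x| ≤ M)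
    (h : C(K × K, ℂ)) (f : C(K, ℂ)) (x : K) :
    Integrable (fun y => h (x, y) * ((((dist x y) ^ (2 * q + 1))⁻¹ : ℝ) : ℂ) * (V y : ℂ) * f y) μ := by
  have := hS.fin
  have hk : Measurable fun y => ((dist x y) ^ (2 * q + 1))⁻¹ := by fun_prop
  have hint : Integrable (fun y => ‖h‖ * M * ‖f‖ * (1 + ((dist x y) ^ (2 * q + 2))⁻¹)) μ :=
    ((integrable_const 1).add (hS.int x)).const_mul _
  refine hint.mono' (goq_opInt_meas V hV h f x _ hk).aestronglyMeasurable ?_
  refine Filter.Eventually.of_forall fun y => ?_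
  refine (goq_norm_opInt_le V M hM h f x y _).trans ?_
  have hM0 : 0 ≤ M := (abs_nonneg _).trans (hM y)
  rw [abs_of_nonneg (by positivity)]
  exact mul_le_mul_of_nonneg_left (goq_inv_le _ dist_nonneg) (by positivity)

lemma goq_op_bound (hS : SpQ q μ C) (V : K → ℝ) (M : ℝ) (hM : ∀ x, |V x| ≤ M)
    {D : ℝ} (hD : ∀ x, ∫ y, ((dist x y) ^ (2 * q + 2))⁻¹ ∂μ ≤ D)
    (h : C(K × K, ℂ)) (f : C(K, ℂ)) (x : K) :
    ‖∫ y, h (x, y) * ((((dist x y) ^ (2 * q + 1))⁻¹ : ℝ) : ℂ) * (V y : ℂ) * f y ∂μ‖ ≤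
      (M * (μ.real Set.univ + D)) * ‖h‖ * ‖f‖ := by
  have := hS.fin
  have hM0 : 0 ≤ M := (abs_nonneg _).trans (hM x)
  have hint : Integrable (fun y => ‖h‖ * M * ‖f‖ * (1 + ((dist x y) ^ (2 * q + 2))⁻¹)) μ :=
    ((integrable_const 1).add (hS.int x)).const_mul _
  refine (norm_integral_le_of_norm_le hint (Filter.Eventually.of_forall fun y => ?_)).trans ?_
  · refine (goq_norm_opInt_le V M hM h f x y _).trans ?_
    rw [abs_of_nonneg (by positivity)]
    exact mul_le_mul_of_nonneg_left (goq_inv_le _ dist_nonneg) (by positivity)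
  · rw [integral_const_mul, integral_add (integrable_const 1) (hS.int x), integral_const,
      smul_eq_mul, mul_one]
    calc ‖h‖ * M * ‖f‖ * (μ.real Set.univ + ∫ y, ((dist x y) ^ (2 * q + 2))⁻¹ ∂μ)
        ≤ ‖h‖ * M * ‖f‖ * (μ.real Set.univ + D) := by
          apply mul_le_mul_of_nonneg_left _ (by positivity)
          linarith [hD x]
      _ = _ := by ring

lemma goq_op_continuous (hS : SpQ q μ C) (V : K → ℝ) (hV : Measurable V) (M : ℝ) (hM : ∀ x, |V x| ≤ M)
    (h : C(K × K, ℂ)) (f : C(K, ℂ)) :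
    Continuous fun x =>
      ∫ y, h (x, y) * ((((dist x y) ^ (2 * q + 1))⁻¹ : ℝ) : ℂ) * (V y : ℂ) * f y ∂μ := by
  have := hS.fin
  rcases isEmpty_or_nonempty K with hK | ⟨⟨x0⟩⟩
  · exact continuous_of_discreteTopology
  have hM0 : 0 ≤ M := (abs_nonneg _).trans (hM x0)
  have hmt : ∀ (e : ℝ) (x : K), Measurable fun y => ((max (dist x y) e) ^ (2 * q + 1))⁻¹ := by
    intro e x
    fun_prop
  have hbt : ∀ e > 0, ∀ x y : K, |((max (dist x y) e) ^ (2 * q + 1))⁻¹| ≤ (e ^ (2 * q + 1))⁻¹ := by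
    intro e he x y
    rw [abs_of_nonneg (by positivity)]
    exact inv_anti₀ (by positivity) (pow_le_pow_left₀ he.le (le_max_right _ _) _)
  have hGb : ∀ e > 0, ∀ x y : K,
      ‖h (x, y) * ((((max (dist x y) e) ^ (2 * q + 1))⁻¹ : ℝ) : ℂ) * (V y : ℂ) * f y‖ ≤
        ‖h‖ * M * ‖f‖ * (e ^ (2 * q + 1))⁻¹ := by
    intro e he x y
    refine (goq_norm_opInt_le V M hM h f x y _).trans ?_
    exact mul_le_mul_of_nonneg_left (hbt e he x y) (by positivity)
  refine goq_continuous_integral_of_trunc _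
    (fun e x y => h (x, y) * ((((max (dist x y) e) ^ (2 * q + 1))⁻¹ : ℝ) : ℂ) * (V y : ℂ) * f y)
    (‖h‖ * M * ‖f‖ * C) ?_ ?_ ?_ ?_
  · intro e he x
    exact (goq_opInt_meas V hV h f x _ (hmt e x)).aestronglyMeasurable
  · intro e he
    exact ⟨_, fun x y => hGb e he x y⟩
  · intro e he y
    have h1 : Continuous fun x : K => h (x, y) := h.continuous.comp (by fun_prop)
    have h2 : Continuous fun x : K => ((max (dist x y) e) ^ (2 * q + 1))⁻¹ := by
      refine Continuous.inv₀ (by fun_prop) fun x => ?_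
      positivity
    have h3 : Continuous fun x : K => ((((max (dist x y) e) ^ (2 * q + 1))⁻¹ : ℝ) : ℂ) :=
      Complex.continuous_ofReal.comp h2
    exact ((h1.mul h3).mul continuous_const).mul continuous_const
  · intro e he he1 x
    obtain ⟨hs1, hs2⟩ := hS.goq_small' x he
    refine goq_integral_diff_le (goq_op_integrable hS V hV M hM h f x) ?_
      (k := fun y => ‖h‖ * M * ‖f‖ * (if dist x y < e then ((dist x y) ^ (2 * q + 2))⁻¹ else 0))
      (hs1.const_mul _) ?_ ?_
    · refine Integrable.mono' (integrable_const (‖h‖ * M * ‖f‖ * (e ^ (2 * q + 1))⁻¹))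
        (goq_opInt_meas V hV h f x _ (hmt e x)).aestronglyMeasurable
        (Filter.Eventually.of_forall fun y => hGb e he x y)
    · filter_upwards [hS.goq_ae_ne x] with y hy
      have heq : h (x, y) * ((((dist x y) ^ (2 * q + 1))⁻¹ : ℝ) : ℂ) * (V y : ℂ) * f y -
          h (x, y) * ((((max (dist x y) e) ^ (2 * q + 1))⁻¹ : ℝ) : ℂ) * (V y : ℂ) * f y =
          h (x, y) * ((((dist x y) ^ (2 * q + 1))⁻¹ - ((max (dist x y) e) ^ (2 * q + 1))⁻¹ : ℝ) : ℂ) *
            (V y : ℂ) * f y := by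
        rw [Complex.ofReal_sub]
        ring
      rw [heq]
      refine (goq_norm_opInt_le V M hM h f x y _).trans ?_
      exact mul_le_mul_of_nonneg_left (goq_trunc _ e (dist_pos.2 hy.symm) he he1) (by positivity)
    · rw [integral_const_mul, mul_assoc (‖h‖ * M * ‖f‖) C e]
      exact mul_le_mul_of_nonneg_left hs2 (by positivity)

end Op

theorem goq_existsOp {K : Type} [MetricSpace K] [CompactSpace K] [MeasurableSpace K]
    [BorelSpace K] {q : ℕ} {μ : Measure K} {C : ℝ} (hS : SpQ q μ C) (V : K → ℝ)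
    (hV : Measurable V) (M : ℝ) (hM : ∀ x, |V x| ≤ M) :
    ∃ Op : C(K × K, ℂ) →L[ℂ] (C(K, ℂ) →L[ℂ] C(K, ℂ)), ∀ h f x, Op h f x =
      ∫ y, h (x, y) * ((((dist x y) ^ (2 * q + 1))⁻¹ : ℝ) : ℂ) * (V y : ℂ) * f y ∂μ := by
  obtain ⟨D, hD0, hD⟩ := hS.goq_bound
  let F : C(K × K, ℂ) → C(K, ℂ) → C(K, ℂ) := fun h f =>
    ⟨fun x => ∫ y, h (x, y) * ((((dist x y) ^ (2 * q + 1))⁻¹ : ℝ) : ℂ) * (V y : ℂ) * f y ∂μ,
      goq_op_continuous hS V hV M hM h f⟩
  have hF : ∀ h f x, F h f x =
      ∫ y, h (x, y) * ((((dist x y) ^ (2 * q + 1))⁻¹ : ℝ) : ℂ) * (V y : ℂ) * f y ∂μ := fun _ _ _ => rfl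
  let L : C(K × K, ℂ) →ₗ[ℂ] C(K, ℂ) →ₗ[ℂ] C(K, ℂ) := LinearMap.mk₂ ℂ F
    (by
      intro h h' f
      ext x
      rw [ContinuousMap.add_apply, hF, hF, hF, ← integral_add (goq_op_integrable hS V hV M hM h f x)
        (goq_op_integrable hS V hV M hM h' f x)]
      refine integral_congr_ae (Filter.Eventually.of_forall fun y => ?_)
      simp only [ContinuousMap.add_apply]
      ring)
    (by
      intro c h f
      ext x
      rw [ContinuousMap.smul_apply, hF, hF, ← integral_smul]
      refine integral_congr_ae (Filter.Eventually.of_forall fun y => ?_)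
      simp only [ContinuousMap.smul_apply, smul_eq_mul]
      ring)
    (by
      intro h f f'
      ext x
      rw [ContinuousMap.add_apply, hF, hF, hF, ← integral_add (goq_op_integrable hS V hV M hM h f x)
        (goq_op_integrable hS V hV M hM h f' x)]
      refine integral_congr_ae (Filter.Eventually.of_forall fun y => ?_)
      simp only [ContinuousMap.add_apply]
      ring)
    (by
      intro c h f
      ext x
      rw [ContinuousMap.smul_apply, hF, hF, ← integral_smul]
      refine integral_congr_ae (Filter.Eventually.of_forall fun y => ?_)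
      simp only [ContinuousMap.smul_apply, smul_eq_mul]
      ring)
  rcases isEmpty_or_nonempty K with hK | ⟨⟨x0⟩⟩
  · exact ⟨0, fun h f x => (hK.false x).elim⟩
  have hM0 : 0 ≤ M := (abs_nonneg _).trans (hM x0)
  have hB0 : 0 ≤ M * (μ.real Set.univ + D) := mul_nonneg hM0 (add_nonneg measureReal_nonneg hD0)
  refine ⟨LinearMap.mkContinuous₂ L (M * (μ.real Set.univ + D)) ?_, ?_⟩
  · intro h f
    rw [ContinuousMap.norm_le _ (by positivity)]
    intro x
    exact goq_op_bound hS V M hM hD h f x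
  · intro h f x
    rfl

lemma goq_continuous_slice {K : Type*} [MetricSpace K] [CompactSpace K] (k : C(K × K, ℂ)) :
    Continuous (slice k) :=
  (ContinuousMap.curry (k.comp ⟨Prod.swap, continuous_swap⟩)).continuous

lemma goq_norm_slice_le {K : Type*} [MetricSpace K] [CompactSpace K] (k : C(K × K, ℂ)) (y : K) :
    ‖slice k y‖ ≤ ‖k‖ := by
  rw [ContinuousMap.norm_le _ (norm_nonneg _)]
  intro x
  exact k.norm_coe_le_norm (x, y)

theorem goq_existsTr {K : Type} [MetricSpace K] [CompactSpace K] [MeasurableSpace K]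
    [BorelSpace K] {q : ℕ} {μ : Measure K} {C : ℝ} (hC : SpQ q μ C) (V : K → ℝ)
    (hV : Measurable V) (M : ℝ) (hM : ∀ x, |V x| ≤ M) :
    ∃ tr : (C(K, ℂ) →L[ℂ] C(K, ℂ)) →L[ℂ] C(K × K, ℂ) →L[ℂ] ℂ, ∀ S k, tr S k =
      ∫ y, (V y : ℂ) * (S (slice k y)) y ∂μ := by
  have : IsFiniteMeasure μ := hC.fin
  have hcont : ∀ (S : C(K, ℂ) →L[ℂ] C(K, ℂ)) (k : C(K × K, ℂ)),
      Continuous fun y => (S (slice k y)) y := by
    intro S k
    have h1 : Continuous fun y => S (slice k y) := S.continuous.comp (goq_continuous_slice k)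
    exact h1.eval continuous_id
  have hbd : ∀ (S : C(K, ℂ) →L[ℂ] C(K, ℂ)) (k : C(K × K, ℂ)) (y : K),
      ‖(V y : ℂ) * (S (slice k y)) y‖ ≤ |M| * (‖S‖ * ‖k‖) := by
    intro S k y
    rw [norm_mul]
    have h1 : ‖(V y : ℂ)‖ ≤ |M| := by
      rw [Complex.norm_real, Real.norm_eq_abs]
      exact (hM y).trans (le_abs_self M)
    have h2 : ‖(S (slice k y)) y‖ ≤ ‖S‖ * ‖k‖ :=
      ((S (slice k y)).norm_coe_le_norm y).trans ((S.le_opNorm (slice k y)).trans
        (mul_le_mul_of_nonneg_left (goq_norm_slice_le k y) (norm_nonneg _)))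
    exact mul_le_mul h1 h2 (norm_nonneg _) (abs_nonneg _)
  have hmeas : ∀ (S : C(K, ℂ) →L[ℂ] C(K, ℂ)) (k : C(K × K, ℂ)),
      AEStronglyMeasurable (fun y => (V y : ℂ) * (S (slice k y)) y) μ := by
    intro S k
    exact ((Complex.measurable_ofReal.comp hV).mul (hcont S k).measurable).aestronglyMeasurable
  have hint : ∀ (S : C(K, ℂ) →L[ℂ] C(K, ℂ)) (k : C(K × K, ℂ)),
      Integrable (fun y => (V y : ℂ) * (S (slice k y)) y) μ := fun S k =>
    Integrable.of_bound (hmeas S k) _ (Filter.Eventually.of_forall (hbd S k))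
  let f : (C(K, ℂ) →L[ℂ] C(K, ℂ)) →ₗ[ℂ] C(K × K, ℂ) →ₗ[ℂ] ℂ :=
    LinearMap.mk₂ ℂ (fun S k => ∫ y, (V y : ℂ) * (S (slice k y)) y ∂μ)
      (by
        intro S S' k
        rw [← integral_add (hint S k) (hint S' k)]
        refine integral_congr_ae (Filter.Eventually.of_forall fun y => ?_)
        simp [mul_add])
      (by
        intro c S k
        rw [smul_eq_mul, ← integral_const_mul]
        refine integral_congr_ae (Filter.Eventually.of_forall fun y => ?_)
        simp [mul_left_comm])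
      (by
        intro S k k'
        rw [← integral_add (hint S k) (hint S k')]
        refine integral_congr_ae (Filter.Eventually.of_forall fun y => ?_)
        have : slice (k + k') y = slice k y + slice k' y := rfl
        simp [mul_add, this])
      (by
        intro c S k
        rw [smul_eq_mul, ← integral_const_mul]
        refine integral_congr_ae (Filter.Eventually.of_forall fun y => ?_)
        have : slice (c • k) y = c • slice k y := rfl
        simp [mul_left_comm, this])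
  refine ⟨LinearMap.mkContinuous₂ f (|M| * μ.real Set.univ) ?_, fun S k => rfl⟩
  intro S k
  have := norm_integral_le_of_norm_le_const (μ := μ) (Filter.Eventually.of_forall (hbd S k))
  calc ‖f S k‖ ≤ |M| * (‖S‖ * ‖k‖) * μ.real Set.univ := this
    _ = |M| * μ.real Set.univ * ‖S‖ * ‖k‖ := by ring

theorem existsOpsQ : ExistsOpsQ := by
  intro q K _ _ _ _ μ C hS V hV M hM
  obtain ⟨Op, hOp⟩ := goq_existsOp hS V hV M hM
  obtain ⟨tr, htr⟩ := goq_existsTr hS V hV M hM
  exact ⟨⟨Op, hOp, tr, htr⟩⟩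

end Pool.Agent.Work.MP_f2af60_mp

end

section

/-!
# MP_f2af60_mp: the quadratic term
-/

namespace Pool.Agent.Work.MP_f2af60_mp

open MeasureTheory Metric Filter Topology

namespace Phi1

/-- The remainder of the Taylor polynomial of the cosine. -/
noncomputable def rho (j : ℕ) (s : ℝ) : ℝ :=
  (-1) ^ (j + 1) * (Real.cos s - ∑ i ∈ Finset.range (j + 1),
      (-1) ^ i * s ^ (2 * i) / ((2 * i).factorial : ℝ))

lemma rho_nonneg (h : CosEnv) (j : ℕ) (s : ℝ) : 0 ≤ rho j s := (h j s).1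

lemma rho_le (h : CosEnv) (j : ℕ) (s : ℝ) :
    rho j s ≤ s ^ (2 * j + 2) / ((2 * j + 2).factorial : ℝ) := (h j s).2

lemma rho_succ (j : ℕ) (s : ℝ) :
    rho (j + 1) s = s ^ (2 * (j + 1)) / ((2 * (j + 1)).factorial : ℝ) - rho j s := by
  unfold rho
  rw [Finset.sum_range_succ]
  have h : ((-1 : ℝ)) ^ (j + 1) * (-1) ^ (j + 1) = 1 := by
    rw [← mul_pow]
    simp
  have h2 : ((-1 : ℝ)) ^ (j + 1 + 1) = -(-1) ^ (j + 1) := by
    rw [pow_succ]
    ring
  rw [h2]
  linear_combination (s ^ (2 * (j + 1)) / ((2 * (j + 1)).factorial : ℝ)) * h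

lemma fact_one (n : ℕ) : (1 : ℝ) ≤ (n.factorial : ℝ) := by
  exact_mod_cast n.factorial_pos

lemma rho_le1 (h : CosEnv) (j : ℕ) (s : ℝ) : rho j s ≤ s ^ (2 * j + 2) := by
  refine (rho_le h j s).trans (div_le_self ?_ (fact_one _))
  rw [show 2 * j + 2 = 2 * (j + 1) by ring, pow_mul]
  positivity

lemma rho_le2 (h : CosEnv) (j : ℕ) (s : ℝ) : rho j s ≤ 2 * s ^ (2 * j) := by
  cases j with
  | zero =>
    unfold rho
    simp
    linarith [Real.neg_one_le_cos s]
  | succ j =>
    have h1 := rho_nonneg h j s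
    rw [rho_succ]
    have h2 : 0 ≤ s ^ (2 * (j + 1)) := by
      rw [pow_mul]
      positivity
    have h3 : s ^ (2 * (j + 1)) / ((2 * (j + 1)).factorial : ℝ) ≤ s ^ (2 * (j + 1)) :=
      div_le_self h2 (fact_one _)
    linarith

lemma rho_le3 (h : CosEnv) (j : ℕ) (s : ℝ) : rho j s ≤ 2 * |s| ^ (2 * j + 1) := by
  have h0 : 0 ≤ |s| := abs_nonneg s
  rcases le_total (|s|) 1 with h1 | h1
  · calc rho j s ≤ s ^ (2 * j + 2) := rho_le1 h j s
      _ = |s| ^ (2 * j + 2) := by
          rw [show 2 * j + 2 = 2 * (j + 1) by ring, pow_mul, pow_mul, sq_abs]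
      _ ≤ |s| ^ (2 * j + 1) := pow_le_pow_of_le_one h0 h1 (by omega)
      _ ≤ 2 * |s| ^ (2 * j + 1) := by
          have : 0 ≤ |s| ^ (2 * j + 1) := by positivity
          linarith
  · calc rho j s ≤ 2 * s ^ (2 * j) := rho_le2 h j s
      _ = 2 * |s| ^ (2 * j) := by rw [pow_mul, pow_mul, sq_abs]
      _ ≤ 2 * |s| ^ (2 * j + 1) := by
          have := pow_le_pow_right₀ h1 (show 2 * j ≤ 2 * j + 1 by omega)
          linarith

lemma rho_cont (j : ℕ) : Continuous (rho j) := by
  unfold rho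
  fun_prop

section prod

variable {q : ℕ}

/-- The variable of the cosine. -/
noncomputable def XX (z : (Fin 1 → En q) × En q) : ℝ := 2 * Real.pi * inner ℝ (z.1 0) z.2

lemma XX_cont : Continuous (XX : (Fin 1 → En q) × En q → ℝ) := by
  unfold XX
  exact (((continuous_apply (0 : Fin 1)).comp continuous_fst).inner continuous_snd).const_mul _

lemma XX_abs (z : (Fin 1 → En q) × En q) : |XX z| ≤ 2 * Real.pi * (1 + ‖z.1‖) * ‖z.2‖ := by
  unfold XX
  have hp : 0 ≤ 2 * Real.pi := by positivity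
  rw [abs_mul, abs_of_nonneg hp, mul_assoc (2 * Real.pi)]
  refine mul_le_mul_of_nonneg_left ?_ hp
  calc |inner ℝ (z.1 0) z.2| ≤ ‖z.1 0‖ * ‖z.2‖ := abs_real_inner_le_norm _ _
    _ ≤ (1 + ‖z.1‖) * ‖z.2‖ := by
        refine mul_le_mul_of_nonneg_right ?_ (norm_nonneg _)
        have := norm_le_pi_norm z.1 0
        linarith

variable {k : (Fin 1 → En q) → ℝ} {W : En q → ℝ}

lemma int_main (hk : Integrable (fun y : Fin 1 → En q => (1 + ‖y‖) ^ (2 * q) * k y))
    (hk0 : ∀ y, 0 ≤ k y) (hkm : AEStronglyMeasurable k) (hWc : Continuous W)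
    (hW0 : ∀ ξ, 0 ≤ W ξ) {n : ℕ} (hn : n ≤ 2 * q) (hW : Integrable (fun ξ => ‖ξ‖ ^ n * W ξ))
    {f : (Fin 1 → En q) × En q → ℝ} (hf : Continuous f) {c : ℝ}
    (hfb : ∀ z, |f z| ≤ c * |XX z| ^ n) :
    Integrable (fun z : (Fin 1 → En q) × En q => k z.1 * W z.2 * f z)
      ((volume : Measure (Fin 1 → En q)).prod (volume : Measure (En q))) := by
  have h1 : Integrable (fun z : (Fin 1 → En q) × En q =>
      ((1 + ‖z.1‖) ^ (2 * q) * k z.1) * (‖z.2‖ ^ n * W z.2))
      ((volume : Measure (Fin 1 → En q)).prod (volume : Measure (En q))) := hk.mul_prod hW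
  refine (h1.const_mul (|c| * (2 * Real.pi) ^ n)).mono' ?_ (Eventually.of_forall fun z => ?_)
  · exact (hkm.comp_fst.mul (hWc.comp continuous_snd).aestronglyMeasurable).mul
      hf.aestronglyMeasurable
  · rw [Real.norm_eq_abs, abs_mul, abs_mul, abs_of_nonneg (hk0 _), abs_of_nonneg (hW0 _)]
    have hkW : 0 ≤ k z.1 * W z.2 := mul_nonneg (hk0 _) (hW0 _)
    have h2 : |f z| ≤ |c| * ((2 * Real.pi * (1 + ‖z.1‖) * ‖z.2‖) ^ n) := by
      refine (hfb z).trans ?_
      refine mul_le_mul (le_abs_self c) (pow_le_pow_left₀ (abs_nonneg _) (XX_abs z) n)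
        (by positivity) (abs_nonneg _)
    have h3 : (1 + ‖z.1‖) ^ n ≤ (1 + ‖z.1‖) ^ (2 * q) :=
      pow_le_pow_right₀ (by linarith [norm_nonneg z.1]) hn
    calc k z.1 * W z.2 * |f z|
        ≤ k z.1 * W z.2 * (|c| * ((2 * Real.pi * (1 + ‖z.1‖) * ‖z.2‖) ^ n)) :=
          mul_le_mul_of_nonneg_left h2 hkW
      _ = (k z.1 * W z.2 * |c| * (2 * Real.pi) ^ n * ‖z.2‖ ^ n) * (1 + ‖z.1‖) ^ n := by
          rw [mul_pow, mul_pow]
          ring
      _ ≤ (k z.1 * W z.2 * |c| * (2 * Real.pi) ^ n * ‖z.2‖ ^ n) * (1 + ‖z.1‖) ^ (2 * q) := by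
          refine mul_le_mul_of_nonneg_left h3 ?_
          have : 0 ≤ |c| * (2 * Real.pi) ^ n * ‖z.2‖ ^ n := by positivity
          have h4 := mul_nonneg hkW this
          calc (0 : ℝ) ≤ k z.1 * W z.2 * (|c| * (2 * Real.pi) ^ n * ‖z.2‖ ^ n) := h4
            _ = _ := by ring
      _ = _ := by ring

end prod

end Phi1

open Phi1

theorem phi1Facts (h33 : KmFacts) (h35 : PlanchV) (h36 : K1Facts) (h37 : CosEnv) :
    Phi1Facts := by
  intro q hq V hVm M R hVM hVR j hj hHS
  obtain ⟨hk0, -, hkint, hkpos, -⟩ := h33 q 1 hq le_rfl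
  have hkp : 0 < ∫ y, km q 1 y := hkpos
  obtain ⟨hW0i, hPl, hFc, hMM⟩ := h35 q V hVm M R hVM hVR
  set W : En q → ℝ := fun ξ => ‖FourierTransform.fourier (fun x => (V x : ℂ)) ξ‖ ^ 2 with hWdef
  have hWc : Continuous W := (hFc.norm).pow 2
  have hW0 : ∀ ξ, 0 ≤ W ξ := fun ξ => by positivity
  have hkm : AEStronglyMeasurable (km q 1) := by
    have h1 : AEStronglyMeasurable (fun y : Fin 1 → En q => ((1 + ‖y‖) ^ (2 * q))⁻¹ *
        ((1 + ‖y‖) ^ (2 * q) * km q 1 y)) := by
      refine AEStronglyMeasurable.mul ?_ hkint.aestronglyMeasurable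
      refine Continuous.aestronglyMeasurable (Continuous.inv₀ (by fun_prop) fun y => ?_)
      have : 0 < 1 + ‖y‖ := by linarith [norm_nonneg y]
      positivity
    refine h1.congr (Eventually.of_forall fun y => ?_)
    have : 0 < 1 + ‖y‖ := by linarith [norm_nonneg y]
    show ((1 + ‖y‖) ^ (2 * q))⁻¹ * ((1 + ‖y‖) ^ (2 * q) * km q 1 y) = km q 1 y
    field_simp
  -- moments of W
  have hWi0 : Integrable W := by
    refine hW0i.congr (Eventually.of_forall fun ξ => ?_)
    show ‖ξ‖ ^ (0 : ℝ) * W ξ = W ξ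
    rw [Real.rpow_zero, one_mul]
  have hrp : ∀ (n : ℕ) (ξ : En q), ‖ξ‖ ^ ((n : ℕ) : ℝ) = ‖ξ‖ ^ n := fun n ξ =>
    Real.rpow_natCast _ _
  have hWij : Integrable (fun ξ : En q => ‖ξ‖ ^ (2 * j) * W ξ) := by
    refine hHS.congr (Eventually.of_forall fun ξ => ?_)
    show ‖ξ‖ ^ (2 * (j : ℝ)) * W ξ = ‖ξ‖ ^ (2 * j) * W ξ
    rw [← hrp (2 * j) ξ]
    push_cast
    rfl
  have hWi : ∀ i ≤ j, Integrable (fun ξ : En q => ‖ξ‖ ^ (2 * i) * W ξ) := by
    intro i hi
    refine (hWi0.add hWij).mono' ((by fun_prop : Continuous fun ξ : En q =>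
      ‖ξ‖ ^ (2 * i)).mul hWc).aestronglyMeasurable (Eventually.of_forall fun ξ => ?_)
    rw [Real.norm_eq_abs, abs_of_nonneg (mul_nonneg (by positivity) (hW0 ξ))]
    show ‖ξ‖ ^ (2 * i) * W ξ ≤ W ξ + ‖ξ‖ ^ (2 * j) * W ξ
    have h1 : ‖ξ‖ ^ (2 * i) ≤ 1 + ‖ξ‖ ^ (2 * j) := by
      rcases le_total ‖ξ‖ 1 with h | h
      · have h2 := pow_le_one₀ (n := 2 * i) (norm_nonneg ξ) h
        have h3 : 0 ≤ ‖ξ‖ ^ (2 * j) := by positivity
        linarith
      · have h2 := pow_le_pow_right₀ h (show 2 * i ≤ 2 * j by omega)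
        linarith
    nlinarith [mul_le_mul_of_nonneg_right h1 (hW0 ξ)]
  have hXe : ∀ (e : ℝ) (n : ℕ) (x : ℝ), 0 < e → (Real.sqrt e * x) ^ (2 * n) = e ^ n * x ^ (2 * n) :=
    fun e n x he => by
      rw [mul_pow, pow_mul, Real.sq_sqrt he.le]
  set μ : Measure ((Fin 1 → En q) × En q) :=
    (volume : Measure (Fin 1 → En q)).prod (volume : Measure (En q)) with hμ
  have hcX : Continuous (XX : (Fin 1 → En q) × En q → ℝ) := XX_cont
  -- integrability of the terms
  have hFi : ∀ i ≤ j, Integrable (fun z : (Fin 1 → En q) × En q =>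
      km q 1 z.1 * W z.2 * XX z ^ (2 * i)) μ := fun i hi =>
    int_main (c := 1) hkint hk0 hkm hWc hW0 (by omega) (hWi i hi) (hcX.pow _) fun z => by
      rw [one_mul, abs_pow]
  have hRi : ∀ e : ℝ, 0 < e → Integrable (fun z : (Fin 1 → En q) × En q =>
      km q 1 z.1 * W z.2 * rho j (Real.sqrt e * XX z)) μ := fun e he =>
    int_main (c := 2 * e ^ j) hkint hk0 hkm hWc hW0 (show 2 * j ≤ 2 * q by omega) (hWi j le_rfl)
      ((rho_cont j).comp (hcX.const_mul _)) fun z => by
        rw [abs_of_nonneg (rho_nonneg h37 _ _)]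
        refine (rho_le2 h37 j _).trans (le_of_eq ?_)
        rw [hXe e j _ he, pow_mul |XX z|, sq_abs, ← pow_mul]
        ring
  have hC : ∀ e : ℝ, Integrable (fun z : (Fin 1 → En q) × En q =>
      km q 1 z.1 * W z.2 * Real.cos (Real.sqrt e * XX z)) μ := fun e =>
    int_main (c := 1) hkint hk0 hkm hWc hW0 (n := 0) (by omega) (by simpa using hWi0)
      (Real.continuous_cos.comp (hcX.const_mul _)) fun z => by
        simpa using Real.abs_cos_le_one _
  -- the function Phi
  have hPhi : ∀ e : ℝ, Phi q V 1 e = ∫ z, km q 1 z.1 * W z.2 * Real.cos (Real.sqrt e * XX z) ∂μ := by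
    intro e
    rw [hμ, integral_prod _ (hC e)]
    unfold Phi
    refine integral_congr_ae (Eventually.of_forall fun y => ?_)
    show km q 1 y * MM q V 1 (fun i => Real.sqrt e • y i) = _
    rw [hMM, ← integral_const_mul]
    refine integral_congr_ae (Eventually.of_forall fun ξ => ?_)
    show km q 1 y * (W ξ * Real.cos (2 * Real.pi * inner ℝ (Real.sqrt e • y 0) ξ)) =
      km q 1 y * W ξ * Real.cos (Real.sqrt e * (2 * Real.pi * inner ℝ (y 0) ξ))
    rw [real_inner_smul_left, ← mul_assoc (km q 1 y),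
      show 2 * Real.pi * (Real.sqrt e * inner ℝ (y 0) ξ) =
        Real.sqrt e * (2 * Real.pi * inner ℝ (y 0) ξ) by ring]
  set a : ℕ → ℝ := fun i => (-1) ^ i / ((2 * i).factorial : ℝ) *
    ∫ z, km q 1 z.1 * W z.2 * XX z ^ (2 * i) ∂μ with ha
  set Rj : ℝ → ℝ := fun e => ∫ z, km q 1 z.1 * W z.2 * rho j (Real.sqrt e * XX z) ∂μ with hRj
  refine ⟨a, Rj, ?_, ?_, ?_, ?_, ?_, ?_⟩
  · -- the expansion
    intro e he
    rw [hPhi e, hRj, ha]
    have h1 : ∀ z : (Fin 1 → En q) × En q, km q 1 z.1 * W z.2 * Real.cos (Real.sqrt e * XX z) =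
        (∑ i ∈ Finset.range (j + 1), ((-1) ^ i / ((2 * i).factorial : ℝ) * e ^ i) *
          (km q 1 z.1 * W z.2 * XX z ^ (2 * i))) +
        (-1) ^ (j + 1) * (km q 1 z.1 * W z.2 * rho j (Real.sqrt e * XX z)) := by
      intro z
      have h2 : Real.cos (Real.sqrt e * XX z) = (∑ i ∈ Finset.range (j + 1),
          (-1) ^ i * (Real.sqrt e * XX z) ^ (2 * i) / ((2 * i).factorial : ℝ)) +
          (-1) ^ (j + 1) * rho j (Real.sqrt e * XX z) := by
        unfold rho
        have h : ((-1 : ℝ)) ^ (j + 1) * (-1) ^ (j + 1) = 1 := by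
          rw [← mul_pow]
          simp
        rw [← mul_assoc, h]
        ring
      rw [h2, mul_add, Finset.mul_sum]
      congr 1
      · refine Finset.sum_congr rfl fun i _ => ?_
        rw [hXe e i _ he]
        ring
      · ring
    simp_rw [h1]
    rw [integral_add, integral_finsetSum]
    · simp_rw [integral_const_mul]
      congr 1
      refine Finset.sum_congr rfl fun i _ => ?_
      ring
    · intro i hi
      exact (hFi i (by simpa [Nat.lt_succ_iff] using hi)).const_mul _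
    · exact integrable_finsetSum _ fun i hi =>
        (hFi i (by simpa [Nat.lt_succ_iff] using hi)).const_mul _
    · exact (hRi e he).const_mul _
  · intro e he
    exact integral_nonneg fun z => mul_nonneg (mul_nonneg (hk0 _) (hW0 _)) (rho_nonneg h37 _ _)
  · -- the remainder is small
    have h1 : Tendsto (fun e : ℝ => ∫ z, km q 1 z.1 * W z.2 *
        (rho j (Real.sqrt e * XX z) / e ^ j) ∂μ) (𝓝[>] 0) (𝓝 (∫ z, (0 : ℝ) ∂μ)) := by
      refine tendsto_integral_filter_of_dominated_convergence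
        (fun z => 2 * (km q 1 z.1 * W z.2 * XX z ^ (2 * j))) ?_ ?_ ((hFi j le_rfl).const_mul 2) ?_
      · filter_upwards [self_mem_nhdsWithin] with e he
        have := (hRi e he).div_const (e ^ j)
        refine this.aestronglyMeasurable.congr (Eventually.of_forall fun z => ?_)
        show _ / e ^ j = _
        ring
      · filter_upwards [self_mem_nhdsWithin] with e he
        refine Eventually.of_forall fun z => ?_
        have he' : (0 : ℝ) < e := he
        have hkW : 0 ≤ km q 1 z.1 * W z.2 := mul_nonneg (hk0 _) (hW0 _)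
        have hr := rho_nonneg h37 j (Real.sqrt e * XX z)
        rw [Real.norm_eq_abs, abs_of_nonneg (mul_nonneg hkW (by positivity))]
        have h2 : rho j (Real.sqrt e * XX z) / e ^ j ≤ 2 * XX z ^ (2 * j) := by
          rw [div_le_iff₀ (by positivity)]
          refine (rho_le2 h37 j _).trans (le_of_eq ?_)
          rw [hXe e j _ he']
          ring
        calc km q 1 z.1 * W z.2 * (rho j (Real.sqrt e * XX z) / e ^ j)
            ≤ km q 1 z.1 * W z.2 * (2 * XX z ^ (2 * j)) := mul_le_mul_of_nonneg_left h2 hkW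
          _ = _ := by ring
      · refine Eventually.of_forall fun z => ?_
        have hlim : Tendsto (fun e : ℝ => rho j (Real.sqrt e * XX z) / e ^ j) (𝓝[>] 0) (𝓝 0) := by
          have h3 : Tendsto (fun e : ℝ => e * XX z ^ (2 * j + 2)) (𝓝[>] 0) (𝓝 0) := by
            have : Tendsto (fun e : ℝ => e * XX z ^ (2 * j + 2)) (𝓝 0)
                (𝓝 (0 * XX z ^ (2 * j + 2))) := (continuous_id.mul continuous_const).tendsto 0
            rw [zero_mul] at this
            exact this.mono_left nhdsWithin_le_nhds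
          refine tendsto_of_tendsto_of_tendsto_of_le_of_le' tendsto_const_nhds h3 ?_ ?_
          · filter_upwards [self_mem_nhdsWithin] with e he
            have he' : (0 : ℝ) < e := he
            have hr := rho_nonneg h37 j (Real.sqrt e * XX z)
            positivity
          · filter_upwards [self_mem_nhdsWithin] with e he
            have he' : (0 : ℝ) < e := he
            rw [div_le_iff₀ (by positivity)]
            refine (rho_le1 h37 j _).trans (le_of_eq ?_)
            rw [show 2 * j + 2 = 2 * (j + 1) by ring, hXe e (j + 1) _ he']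
            ring
        have := hlim.const_mul (km q 1 z.1 * W z.2)
        rwa [mul_zero] at this
    rw [integral_zero] at h1
    refine h1.congr' ?_
    filter_upwards [self_mem_nhdsWithin] with e he
    show _ = Rj e / e ^ j
    rw [hRj]
    show _ = (∫ z, km q 1 z.1 * W z.2 * rho j (Real.sqrt e * XX z) ∂μ) / e ^ j
    rw [← integral_div]
    refine integral_congr_ae (Eventually.of_forall fun z => ?_)
    show _ = _ / e ^ j
    ring
  · -- a 0 = 0
    intro h0
    have h1 : a 0 = (∫ y, km q 1 y) * ∫ ξ, W ξ := by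
      rw [ha]
      simp only [pow_zero, mul_zero, Nat.factorial_zero, Nat.cast_one, div_one, one_mul, mul_one]
      exact integral_prod_mul (km q 1) W
    rw [h1] at h0
    have h2 : ∫ ξ, W ξ = 0 := by
      rcases mul_eq_zero.mp h0 with h | h
      · exact absurd h hkp.ne'
      · exact h
    rw [hPl] at h2
    have hVi : Integrable (fun x => V x ^ 2) := by
      have h3 : IntegrableOn (fun x => V x ^ 2) (closedBall 0 R) := by
        refine Measure.integrableOn_of_bounded (M := M ^ 2) ?_ ?_ ?_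
        · exact (isCompact_closedBall 0 R).measure_ne_top
        · exact (hVm.pow_const 2).aestronglyMeasurable
        · refine Eventually.of_forall fun x => ?_
          rw [Real.norm_eq_abs, abs_pow]
          exact pow_le_pow_left₀ (abs_nonneg _) (hVM x) 2
      refine (integrableOn_iff_integrable_of_support_subset ?_).mp h3
      intro x hx
      by_contra hxR
      rw [mem_closedBall, dist_zero_right, not_le] at hxR
      exact hx (by simp [hVR x hxR])
    have h4 := (integral_eq_zero_iff_of_nonneg (fun x => sq_nonneg (V x)) hVi).mp h2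
    filter_upwards [h4] with x hx
    exact pow_eq_zero_iff (two_ne_zero) |>.mp hx
  · -- Fatou
    rintro ⟨C, hC'⟩
    have hcX' := hcX
    obtain ⟨c, hc, hcX⟩ := h36 q hq (j + 1) (by omega)
    have hfp : (0 : ℝ) < ((2 * (j + 1)).factorial : ℝ) := by
      exact_mod_cast (2 * (j + 1)).factorial_pos
    set u : ℕ → ℝ := fun n => 1 / ((n : ℝ) + 1) with hu
    have hu0 : ∀ n, 0 < u n := fun n => by
      rw [hu]
      positivity
    have hut : Tendsto u atTop (𝓝[>] 0) := by
      rw [tendsto_nhdsWithin_iff]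
      exact ⟨tendsto_one_div_add_atTop_nhds_zero_nat, Eventually.of_forall hu0⟩
    have hgi : ∀ n, Integrable (fun z : (Fin 1 → En q) × En q =>
        km q 1 z.1 * W z.2 * (rho j (Real.sqrt (u n) * XX z) / (u n) ^ (j + 1))) μ := fun n => by
      refine ((hRi (u n) (hu0 n)).div_const ((u n) ^ (j + 1))).congr
        (Eventually.of_forall fun z => ?_)
      show _ / (u n) ^ (j + 1) = _
      ring
    have hg0 : ∀ n (z : (Fin 1 → En q) × En q),
        0 ≤ km q 1 z.1 * W z.2 * (rho j (Real.sqrt (u n) * XX z) / (u n) ^ (j + 1)) := by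
      intro n z
      have := rho_nonneg h37 j (Real.sqrt (u n) * XX z)
      have := hu0 n
      exact mul_nonneg (mul_nonneg (hk0 _) (hW0 _)) (by positivity)
    have hpt : ∀ z : (Fin 1 → En q) × En q, Tendsto (fun n =>
        km q 1 z.1 * W z.2 * (rho j (Real.sqrt (u n) * XX z) / (u n) ^ (j + 1))) atTop
        (𝓝 (km q 1 z.1 * W z.2 * (XX z ^ (2 * (j + 1)) / ((2 * (j + 1)).factorial : ℝ)))) := by
      intro z
      refine Tendsto.const_mul _ ?_
      have h3 : Tendsto (fun n => u n * XX z ^ (2 * (j + 1) + 2)) atTop (𝓝 0) := by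
        have h4 : Tendsto u atTop (𝓝 0) := hut.mono_right nhdsWithin_le_nhds
        have := h4.mul_const (XX z ^ (2 * (j + 1) + 2))
        rwa [zero_mul] at this
      have h5 : Tendsto (fun n => XX z ^ (2 * (j + 1)) / ((2 * (j + 1)).factorial : ℝ) -
          u n * XX z ^ (2 * (j + 1) + 2)) atTop
          (𝓝 (XX z ^ (2 * (j + 1)) / ((2 * (j + 1)).factorial : ℝ))) := by
        have := (tendsto_const_nhds (x := XX z ^ (2 * (j + 1)) /
          ((2 * (j + 1)).factorial : ℝ))).sub h3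
        rwa [sub_zero] at this
      refine tendsto_of_tendsto_of_tendsto_of_le_of_le h5 tendsto_const_nhds
        (fun n => ?_) (fun n => ?_)
      · show XX z ^ (2 * (j + 1)) / ((2 * (j + 1)).factorial : ℝ) -
          u n * XX z ^ (2 * (j + 1) + 2) ≤ rho j (Real.sqrt (u n) * XX z) / (u n) ^ (j + 1)
        have hun := hu0 n
        rw [le_div_iff₀ (by positivity)]
        have h6 := rho_le1 h37 (j + 1) (Real.sqrt (u n) * XX z)
        rw [rho_succ, hXe (u n) (j + 1) _ hun,
          show 2 * (j + 1) + 2 = 2 * (j + 2) by ring, hXe (u n) (j + 2) _ hun] at h6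
        have h7 : (XX z ^ (2 * (j + 1)) / ((2 * (j + 1)).factorial : ℝ) -
            u n * XX z ^ (2 * (j + 2))) * (u n) ^ (j + 1) =
            (u n) ^ (j + 1) * XX z ^ (2 * (j + 1)) / ((2 * (j + 1)).factorial : ℝ) -
            (u n) ^ (j + 2) * XX z ^ (2 * (j + 2)) := by ring
        rw [show 2 * (j + 1) + 2 = 2 * (j + 2) by ring, h7]
        linarith
      · show rho j (Real.sqrt (u n) * XX z) / (u n) ^ (j + 1) ≤
          XX z ^ (2 * (j + 1)) / ((2 * (j + 1)).factorial : ℝ)
        have hun := hu0 n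
        rw [div_le_iff₀ (by positivity)]
        have h6 := rho_nonneg h37 (j + 1) (Real.sqrt (u n) * XX z)
        rw [rho_succ, hXe (u n) (j + 1) _ hun] at h6
        have h7 : XX z ^ (2 * (j + 1)) / ((2 * (j + 1)).factorial : ℝ) * (u n) ^ (j + 1) =
          (u n) ^ (j + 1) * XX z ^ (2 * (j + 1)) / ((2 * (j + 1)).factorial : ℝ) := by ring
        rw [h7]
        linarith
    have hlim : ∫⁻ z, ENNReal.ofReal (km q 1 z.1 * W z.2 *
        (XX z ^ (2 * (j + 1)) / ((2 * (j + 1)).factorial : ℝ))) ∂μ ≤ ENNReal.ofReal C := by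
      have h1 : ∀ z : (Fin 1 → En q) × En q, ENNReal.ofReal (km q 1 z.1 * W z.2 *
          (XX z ^ (2 * (j + 1)) / ((2 * (j + 1)).factorial : ℝ))) =
          liminf (fun n => ENNReal.ofReal (km q 1 z.1 * W z.2 *
            (rho j (Real.sqrt (u n) * XX z) / (u n) ^ (j + 1)))) atTop := fun z =>
        ((ENNReal.continuous_ofReal.tendsto _).comp (hpt z)).liminf_eq.symm
      simp_rw [h1]
      refine (lintegral_liminf_le' fun n =>
        (hgi n).aestronglyMeasurable.aemeasurable.ennreal_ofReal).trans ?_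
      refine le_trans (Filter.liminf_le_limsup (by isBoundedDefault) (by isBoundedDefault))
        (Filter.limsup_le_of_le (by isBoundedDefault) ?_)
      filter_upwards [hut.eventually hC'] with n hn
      rw [← ofReal_integral_eq_lintegral_ofReal (hgi n) (Eventually.of_forall (hg0 n))]
      refine ENNReal.ofReal_le_ofReal ?_
      have h2 : ∫ z, km q 1 z.1 * W z.2 * (rho j (Real.sqrt (u n) * XX z) / (u n) ^ (j + 1)) ∂μ =
          Rj (u n) / (u n) ^ (j + 1) := by
        rw [hRj]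
        show _ = (∫ z, km q 1 z.1 * W z.2 * rho j (Real.sqrt (u n) * XX z) ∂μ) / (u n) ^ (j + 1)
        rw [← integral_div]
        refine integral_congr_ae (Eventually.of_forall fun z => ?_)
        show _ = _ / (u n) ^ (j + 1)
        ring
      rw [h2, div_le_iff₀ (pow_pos (hu0 n) _)]
      exact hn
    have hint : Integrable (fun z : (Fin 1 → En q) × En q => km q 1 z.1 * W z.2 *
        (XX z ^ (2 * (j + 1)) / ((2 * (j + 1)).factorial : ℝ))) μ := by
      refine ⟨?_, ?_⟩
      · exact (hkm.comp_fst.mul (hWc.comp continuous_snd).aestronglyMeasurable).mul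
          ((hcX'.pow _).div_const _).aestronglyMeasurable
      · rw [hasFiniteIntegral_iff_ofReal (Eventually.of_forall fun z => ?_)]
        · exact hlim.trans_lt ENNReal.ofReal_lt_top
        · show 0 ≤ km q 1 z.1 * W z.2 * (XX z ^ (2 * (j + 1)) / ((2 * (j + 1)).factorial : ℝ))
          have h2 : 0 ≤ XX z ^ (2 * (j + 1)) := by
            rw [pow_mul]
            positivity
          exact mul_nonneg (mul_nonneg (hk0 _) (hW0 _)) (by positivity)
    have hint2 := hint.integral_prod_right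
    refine (hint2.const_mul (((2 * (j + 1)).factorial : ℝ) / c)).congr
      (Eventually.of_forall fun ξ => ?_)
    have h8 := (hcX ξ).2
    show ((2 * (j + 1)).factorial : ℝ) / c * (∫ y, km q 1 y * W ξ *
      (XX (y, ξ) ^ (2 * (j + 1)) / ((2 * (j + 1)).factorial : ℝ))) =
      ‖ξ‖ ^ (2 * ((j + 1 : ℕ) : ℝ)) * W ξ
    have h9 : ∫ y, km q 1 y * W ξ *
        (XX (y, ξ) ^ (2 * (j + 1)) / ((2 * (j + 1)).factorial : ℝ)) =
        (W ξ / ((2 * (j + 1)).factorial : ℝ)) * (c * ‖ξ‖ ^ (2 * (j + 1))) := by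
      rw [← h8, ← integral_const_mul]
      refine integral_congr_ae (Eventually.of_forall fun y => ?_)
      show km q 1 y * W ξ * ((2 * Real.pi * inner ℝ (y 0) ξ) ^ (2 * (j + 1)) /
        ((2 * (j + 1)).factorial : ℝ)) = (W ξ / ((2 * (j + 1)).factorial : ℝ)) *
        (km q 1 y * (2 * Real.pi * inner ℝ (y 0) ξ) ^ (2 * (j + 1)))
      ring
    rw [h9]
    have h10 : ‖ξ‖ ^ (2 * ((j + 1 : ℕ) : ℝ)) = ‖ξ‖ ^ (2 * (j + 1)) := by
      rw [← hrp (2 * (j + 1)) ξ]
      congr 1
      push_cast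
      ring
    rw [h10]
    field_simp
  · -- the last clause
    intro hS
    have hSi : Integrable (fun ξ : En q => ‖ξ‖ ^ (2 * j + 1) * W ξ) := by
      refine hS.congr (Eventually.of_forall fun ξ => ?_)
      show ‖ξ‖ ^ (2 * (j : ℝ) + 1) * W ξ = ‖ξ‖ ^ (2 * j + 1) * W ξ
      rw [← hrp (2 * j + 1) ξ]
      push_cast
      rfl
    have hXi : Integrable (fun z : (Fin 1 → En q) × En q =>
        km q 1 z.1 * W z.2 * |XX z| ^ (2 * j + 1)) μ :=
      int_main (c := 1) hkint hk0 hkm hWc hW0 (by omega) hSi (hcX.abs.pow _) fun z => by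
        rw [one_mul, abs_pow, abs_abs]
    have hre : ∀ e : ℝ, 0 < e → e ^ ((j : ℝ) + 1 / 2) = e ^ j * Real.sqrt e := fun e he => by
      rw [Real.rpow_add he, Real.rpow_natCast, Real.sqrt_eq_rpow]
    have h1 : Tendsto (fun e : ℝ => ∫ z, km q 1 z.1 * W z.2 *
        (rho j (Real.sqrt e * XX z) / e ^ ((j : ℝ) + 1 / 2)) ∂μ) (𝓝[>] 0)
        (𝓝 (∫ z, (0 : ℝ) ∂μ)) := by
      refine tendsto_integral_filter_of_dominated_convergence
        (fun z => 2 * (km q 1 z.1 * W z.2 * |XX z| ^ (2 * j + 1))) ?_ ?_ (hXi.const_mul 2) ?_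
      · filter_upwards [self_mem_nhdsWithin] with e he
        have := (hRi e he).div_const (e ^ ((j : ℝ) + 1 / 2))
        refine this.aestronglyMeasurable.congr (Eventually.of_forall fun z => ?_)
        show _ / e ^ ((j : ℝ) + 1 / 2) = _
        ring
      · filter_upwards [self_mem_nhdsWithin] with e he
        refine Eventually.of_forall fun z => ?_
        have he' : (0 : ℝ) < e := he
        have hse : 0 < Real.sqrt e := Real.sqrt_pos.mpr he'
        have hkW : 0 ≤ km q 1 z.1 * W z.2 := mul_nonneg (hk0 _) (hW0 _)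
        have hr := rho_nonneg h37 j (Real.sqrt e * XX z)
        rw [Real.norm_eq_abs, abs_of_nonneg (mul_nonneg hkW (by positivity))]
        have h2 : rho j (Real.sqrt e * XX z) / e ^ ((j : ℝ) + 1 / 2) ≤
            2 * |XX z| ^ (2 * j + 1) := by
          rw [div_le_iff₀ (by positivity), hre e he']
          refine (rho_le3 h37 j _).trans (le_of_eq ?_)
          rw [abs_mul, abs_of_pos hse, mul_pow, pow_succ (Real.sqrt e), pow_mul (Real.sqrt e),
            Real.sq_sqrt he'.le]
          ring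
        calc km q 1 z.1 * W z.2 * (rho j (Real.sqrt e * XX z) / e ^ ((j : ℝ) + 1 / 2))
            ≤ km q 1 z.1 * W z.2 * (2 * |XX z| ^ (2 * j + 1)) :=
              mul_le_mul_of_nonneg_left h2 hkW
          _ = _ := by ring
      · refine Eventually.of_forall fun z => ?_
        have hlim : Tendsto (fun e : ℝ => rho j (Real.sqrt e * XX z) / e ^ ((j : ℝ) + 1 / 2))
            (𝓝[>] 0) (𝓝 0) := by
          have h3 : Tendsto (fun e : ℝ => Real.sqrt e * XX z ^ (2 * j + 2)) (𝓝[>] 0) (𝓝 0) := by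
            have : Tendsto (fun e : ℝ => Real.sqrt e * XX z ^ (2 * j + 2)) (𝓝 0)
                (𝓝 (Real.sqrt 0 * XX z ^ (2 * j + 2))) :=
              (Real.continuous_sqrt.mul continuous_const).tendsto 0
            rw [Real.sqrt_zero, zero_mul] at this
            exact this.mono_left nhdsWithin_le_nhds
          refine tendsto_of_tendsto_of_tendsto_of_le_of_le' tendsto_const_nhds h3 ?_ ?_
          · filter_upwards [self_mem_nhdsWithin] with e he
            have he' : (0 : ℝ) < e := he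
            have hr := rho_nonneg h37 j (Real.sqrt e * XX z)
            positivity
          · filter_upwards [self_mem_nhdsWithin] with e he
            have he' : (0 : ℝ) < e := he
            rw [div_le_iff₀ (by positivity), hre e he']
            refine (rho_le1 h37 j _).trans (le_of_eq ?_)
            rw [show 2 * j + 2 = 2 * (j + 1) by ring, hXe e (j + 1) _ he']
            have h4 : Real.sqrt e * Real.sqrt e = e := Real.mul_self_sqrt he'.le
            calc e ^ (j + 1) * XX z ^ (2 * (j + 1))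
                = e ^ j * (Real.sqrt e * Real.sqrt e) * XX z ^ (2 * (j + 1)) := by
                  rw [h4, pow_succ]
              _ = _ := by ring
        have := hlim.const_mul (km q 1 z.1 * W z.2)
        rwa [mul_zero] at this
    rw [integral_zero] at h1
    refine h1.congr' ?_
    filter_upwards [self_mem_nhdsWithin] with e he
    show _ = Rj e / e ^ ((j : ℝ) + 1 / 2)
    rw [hRj]
    show _ = (∫ z, km q 1 z.1 * W z.2 * rho j (Real.sqrt e * XX z) ∂μ) / e ^ ((j : ℝ) + 1 / 2)
    rw [← integral_div]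
    refine integral_congr_ae (Eventually.of_forall fun z => ?_)
    show _ = _ / e ^ ((j : ℝ) + 1 / 2)
    ring

end Pool.Agent.Work.MP_f2af60_mp

end

section

/-!
# MP_f2af60_mp, item Q35: Plancherel for bounded potentials with compact support
-/

namespace Pool.Agent.Work.MP_f2af60_mp

open MeasureTheory FourierTransform SchwartzMap

section gpl

variable {E : Type*} [NormedAddCommGroup E] [InnerProductSpace ℝ E] [FiniteDimensional ℝ E]
  [MeasurableSpace E] [BorelSpace E]

lemma gpl_cont {f : E → ℂ} (h1 : Integrable f) : Continuous (𝓕 f) :=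
  VectorFourier.fourierIntegral_continuous Real.continuous_fourierChar
    (by exact continuous_inner) h1

/-- For `f ∈ L¹ ∩ L²` the `L²` Fourier transform is the classical one. -/
lemma gpl_fourier_ae (f : E → ℂ) (h1 : Integrable f) (h2 : MemLp f 2) :
    ((𝓕 (h2.toLp f) : Lp ℂ 2 (volume : Measure E)) : E → ℂ) =ᵐ[volume] 𝓕 f := by
  have hloc1 : LocallyIntegrable ((𝓕 (h2.toLp f) : Lp ℂ 2 (volume : Measure E)) : E → ℂ) volume :=
    (Lp.memLp (𝓕 (h2.toLp f) : Lp ℂ 2 (volume : Measure E))).locallyIntegrable (by norm_num)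
  have hloc2 : LocallyIntegrable (𝓕 f) volume := (gpl_cont h1).locallyIntegrable
  refine ae_eq_of_integral_contDiff_smul_eq hloc1 hloc2 (fun g gs gc => ?_)
  have hg₁ : HasCompactSupport (Complex.ofRealCLM ∘ g) := gc.comp_left rfl
  have hg₂ : ContDiff ℝ (⊤ : ℕ∞) (Complex.ofRealCLM ∘ g) := by fun_prop
  set G : 𝓢(E, ℂ) := hg₁.toSchwartzMap hg₂ with hG
  have hGa : ∀ x, G x = (g x : ℂ) := fun x => by rw [hG]; rfl
  have key := congrArg (fun T : 𝓢'(E, ℂ) => T G)
    (Lp.fourier_toTemperedDistribution_eq (h2.toLp f))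
  simp only [TemperedDistribution.fourier_apply, Lp.toTemperedDistribution_apply] at key
  have e1 : ∫ x, (𝓕 G) x • (h2.toLp f : E → ℂ) x = ∫ x, (𝓕 G) x • f x := by
    apply integral_congr_ae
    filter_upwards [h2.coeFn_toLp] with x hx
    rw [hx]
  have e2 : ∫ x, (𝓕 G) x • f x = ∫ x, G x • 𝓕 f x := by
    have := VectorFourier.integral_fourierIntegral_smul_eq_flip (L := innerₗ E) (μ := volume)
      (ν := volume) Real.continuous_fourierChar continuous_inner G.integrable h1
    simpa using! this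
  rw [e1, e2] at key
  simpa [hGa] using key.symm

lemma gpl_memLp {f : E → ℂ} (h1 : Integrable f) (h2 : MemLp f 2) : MemLp (𝓕 f) 2 :=
  (memLp_congr_ae (gpl_fourier_ae f h1 h2)).1 (Lp.memLp _)

lemma gpl_inner {f g : E → ℂ} (hf1 : Integrable f) (hf2 : MemLp f 2) (hg1 : Integrable g)
    (hg2 : MemLp g 2) :
    ∫ ξ, (starRingEnd ℂ) (𝓕 f ξ) * 𝓕 g ξ = ∫ x, (starRingEnd ℂ) (f x) * g x := by
  have h := Lp.inner_fourier_eq (hf2.toLp f) (hg2.toLp g)
  rw [L2.inner_def, L2.inner_def] at h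
  have e1 : ∫ a, inner ℂ ((𝓕 (hf2.toLp f) : Lp ℂ 2 (volume : Measure E)) a)
      ((𝓕 (hg2.toLp g) : Lp ℂ 2 (volume : Measure E)) a) =
      ∫ ξ, (starRingEnd ℂ) (𝓕 f ξ) * 𝓕 g ξ := by
    apply integral_congr_ae
    filter_upwards [gpl_fourier_ae f hf1 hf2, gpl_fourier_ae g hg1 hg2] with x hx hy
    rw [hx, hy]
    simp [mul_comm]
  have e2 : ∫ a, inner ℂ ((hf2.toLp f : Lp ℂ 2 (volume : Measure E)) a)
      ((hg2.toLp g : Lp ℂ 2 (volume : Measure E)) a) =
      ∫ x, (starRingEnd ℂ) (f x) * g x := by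
    apply integral_congr_ae
    filter_upwards [hf2.coeFn_toLp, hg2.coeFn_toLp] with x hx hy
    rw [hx, hy]
    simp [mul_comm]
  rw [← e1, ← e2, h]

lemma gpl_shift (f : E → ℂ) (y ξ : E) :
    𝓕 (fun x => f (x + y)) ξ =
      Complex.exp ((2 * Real.pi * inner ℝ y ξ : ℝ) * Complex.I) * 𝓕 f ξ := by
  have := congrFun (VectorFourier.fourierIntegral_comp_add_right Real.fourierChar
    (volume : Measure E) (innerₗ E) f y) ξ
  have h2 : 𝓕 (fun x => f (x + y)) ξ =
      VectorFourier.fourierIntegral Real.fourierChar volume (innerₗ E) (f ∘ fun v => v + y) ξ := rfl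
  rw [h2, this]
  show (Real.fourierChar (innerₗ E y ξ)) • 𝓕 f ξ = _
  rw [Circle.smul_def, smul_eq_mul, Real.fourierChar_apply]
  simp

end gpl

theorem planchV : PlanchV := by
  intro q V hV M R hM hR
  have hM0 : 0 ≤ M := (abs_nonneg _).trans (hM 0)
  have hsupp : Function.support V ⊆ Metric.closedBall (0 : En q) R := by
    intro x hx
    by_contra h
    rw [Metric.mem_closedBall, dist_zero_right, not_le] at h
    exact hx (hR x h)
  have hfin : volume (Metric.closedBall (0 : En q) R) < ⊤ := measure_closedBall_lt_top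
  set f : En q → ℂ := fun x => (V x : ℂ) with hf
  have hfm : Measurable f := Complex.measurable_ofReal.comp hV
  have hfb : ∀ x, ‖f x‖ ≤ M := fun x => by
    rw [hf]; simpa using hM x
  have hfs : Function.support f ⊆ Metric.closedBall (0 : En q) R := by
    intro x hx
    apply hsupp
    intro h
    apply hx
    show ((V x : ℝ) : ℂ) = 0
    rw [h]; simp
  have htop : MemLp f ⊤ (volume.restrict (Metric.closedBall (0 : En q) R)) :=
    memLp_top_of_bound hfm.aestronglyMeasurable M (Filter.Eventually.of_forall hfb)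
  have : IsFiniteMeasure (volume.restrict (Metric.closedBall (0 : En q) R)) :=
    ⟨by rw [Measure.restrict_apply_univ]; exact hfin⟩
  have hall : ∀ p : ENNReal, MemLp f p (volume : Measure (En q)) := by
    intro p
    have h := htop.mono_exponent (p := p) le_top
    have hm := (memLp_indicator_iff_restrict (f := f) (p := p) (μ := volume)
      (measurableSet_closedBall (x := (0 : En q)) (ε := R))).2 h
    rwa [Set.indicator_eq_self.2 hfs] at hm
  have h1 : Integrable f := memLp_one_iff_integrable.1 (hall 1)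
  have h2 : MemLp f 2 := hall 2
  have hF2 := gpl_memLp h1 h2
  have hsq : Integrable (fun ξ : En q => ‖𝓕 f ξ‖ ^ 2) := by
    have := hF2.integrable_norm_pow (by norm_num)
    simpa using this
  have hshift : ∀ y : En q, ∫ x, V x * V (x + y) =
      ∫ ξ, ‖𝓕 f ξ‖ ^ 2 * Real.cos (2 * Real.pi * inner ℝ y ξ) := by
    intro y
    have hg1 : Integrable (fun x => f (x + y)) := h1.comp_add_right y
    have hg2 : MemLp (fun x => f (x + y)) 2 := by
      have := h2.comp_measurePreserving (measurePreserving_add_right volume y)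
      exact this
    have h := gpl_inner h1 h2 hg1 hg2
    have e1 : ∫ x, (starRingEnd ℂ) (f x) * f (x + y) = ((∫ x, V x * V (x + y) : ℝ) : ℂ) := by
      rw [← integral_complex_ofReal]
      apply integral_congr_ae
      filter_upwards with x
      rw [hf]; simp
    have e2 : ∀ ξ, (starRingEnd ℂ) (𝓕 f ξ) * 𝓕 (fun x => f (x + y)) ξ =
        ((‖𝓕 f ξ‖ ^ 2 : ℝ) : ℂ) * Complex.exp ((2 * Real.pi * inner ℝ y ξ : ℝ) * Complex.I) := by
      intro ξ
      rw [gpl_shift, mul_left_comm, mul_comm ((starRingEnd ℂ) (𝓕 f ξ)), Complex.mul_conj,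
        Complex.normSq_eq_norm_sq]
      ring
    have hint : Integrable (fun ξ => ((‖𝓕 f ξ‖ ^ 2 : ℝ) : ℂ) *
        Complex.exp ((2 * Real.pi * inner ℝ y ξ : ℝ) * Complex.I)) := by
      have hb : Integrable (fun ξ : En q => ((‖𝓕 f ξ‖ ^ 2 : ℝ) : ℂ)) := hsq.ofReal
      refine hb.mul_bdd (c := 1) ?_ ?_
      · apply Continuous.aestronglyMeasurable
        fun_prop
      · filter_upwards with ξ
        exact (Complex.norm_exp_ofReal_mul_I _).le
    rw [e1] at h
    simp_rw [e2] at h
    have h3 := congrArg Complex.re h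
    rw [Complex.ofReal_re] at h3
    rw [← h3]
    have h4 : (∫ ξ, ((‖𝓕 f ξ‖ ^ 2 : ℝ) : ℂ) *
        Complex.exp ((2 * Real.pi * inner ℝ y ξ : ℝ) * Complex.I)).re =
        ∫ ξ, (((‖𝓕 f ξ‖ ^ 2 : ℝ) : ℂ) *
        Complex.exp ((2 * Real.pi * inner ℝ y ξ : ℝ) * Complex.I)).re := by
      have := integral_re hint
      simpa using this.symm
    rw [h4]
    apply integral_congr_ae
    filter_upwards with ξ
    rw [Complex.re_ofReal_mul, Complex.exp_ofReal_mul_I_re]
  refine ⟨?_, ?_, gpl_cont h1, ?_⟩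
  · unfold HS
    simp only [Real.rpow_zero, one_mul]
    exact hsq
  · have := hshift 0
    simp only [add_zero, inner_zero_left, mul_zero, Real.cos_zero, mul_one] at this
    rw [← this]
    apply integral_congr_ae
    filter_upwards with x
    ring
  · intro y
    rw [← hshift (y 0)]
    unfold MM
    simp

end Pool.Agent.Work.MP_f2af60_mp

end

section

/-!
# Q18: polynomial approximation of the kernel away from zero, all odd dimensions
-/

set_option autoImplicit false

namespace Pool.Agent.Work.MP_f2af60_mp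

open Metric

/-- Polynomial approximation of the powers `s ^ m / s ^ N`. -/
theorem gpa_pow (N : ℕ) (c η B b : ℝ) (hc : 0 < c) (h0 : 0 < η) (h1 : η ≤ 1 / 4) (hB : 1 ≤ B)
    (hB2 : 2 * c ≤ B ^ 2) (hb : 0 < b) (hb2 : b ^ 2 ≤ c * η) :
    ∃ a : ℕ → ℕ → ℂ, (∀ m d, ‖a m d‖ ≤ B ^ m * b⁻¹ ^ N * 2 ^ d) ∧
      ∀ (m : ℕ) (s : ℝ), 0 < s → s ^ 2 ≤ c → 2 * η ≤ s ^ 2 / c → ∀ D : ℕ,
        ‖(s : ℂ) ^ m / (s : ℂ) ^ N -
          ∑ d ∈ Finset.range D, a m d * ((1 - s ^ 2 / c : ℝ) : ℂ) ^ d‖ ≤
          B ^ m * b⁻¹ ^ N * (1 - η) ^ D / η := by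
  have key : ∀ m : ℕ, ∃ a : ℕ → ℂ, (∀ d, ‖a d‖ ≤ B ^ m * b⁻¹ ^ N * 2 ^ d) ∧
      ∀ t : ℝ, 0 ≤ t → t ≤ 1 - 2 * η → ∀ D : ℕ,
      ‖(fun t => paS c t ^ m / paS c t ^ N) (t : ℂ) - ∑ d ∈ Finset.range D, a d * (t : ℂ) ^ d‖ ≤
        B ^ m * b⁻¹ ^ N * (1 - η) ^ D / η := by
    intro m
    refine pa_taylor (fun t => paS c t ^ m / paS c t ^ N) ?_ η _ h0 h1 ?_
    rotate_left
    · intro z hz
      have hz1 : ‖z‖ < 1 := by rw [hz]; linarith
      have hn := paS_norm_sq c hc z hz1
      have hup : ‖paS c z‖ ≤ B := by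
        apply (pow_le_pow_iff_left₀ (norm_nonneg _) (by linarith) two_ne_zero).1
        rw [hn]
        refine le_trans ?_ hB2
        have : ‖1 - z‖ ≤ 2 := by
          refine (norm_sub_le _ _).trans ?_
          rw [norm_one]; linarith
        nlinarith
      have hlow : b ≤ ‖paS c z‖ := by
        apply (pow_le_pow_iff_left₀ hb.le (norm_nonneg _) two_ne_zero).1
        rw [hn]
        refine hb2.trans ?_
        have : η ≤ ‖1 - z‖ := by
          have := norm_sub_norm_le (1 : ℂ) z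
          rw [norm_one, hz] at this
          linarith
        exact mul_le_mul_of_nonneg_left this hc.le
      show ‖paS c z ^ m / paS c z ^ N‖ ≤ _
      rw [norm_div, norm_pow, norm_pow, div_eq_mul_inv, ← inv_pow]
      apply mul_le_mul
      · exact pow_le_pow_left₀ (norm_nonneg _) hup m
      · exact pow_le_pow_left₀ (by positivity) (inv_anti₀ hb hlow) N
      · positivity
      · positivity
    · apply DifferentiableOn.div
      · exact (paS_diff c).pow m
      · exact (paS_diff c).pow N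
      · intro z hz
        have hz1 : ‖z‖ < 1 := by simpa using hz
        apply pow_ne_zero
        unfold paS
        apply mul_ne_zero
        · exact_mod_cast (Real.sqrt_pos.2 hc).ne'
        · exact Complex.exp_ne_zero _
  choose a ha1 ha2 using key
  refine ⟨a, ha1, ?_⟩
  intro m s hs hsc hη D
  have h5 := ha2 m (1 - s ^ 2 / c) (by
    rw [sub_nonneg, div_le_one hc]; exact hsc) (by linarith) D
  simp only [paS_real c s hc hs] at h5
  exact h5

/-- Taylor coefficients of an entire function of exponential type `2`. -/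
theorem gpa_coef (f : ℂ → ℂ) (hf : Differentiable ℂ f) (M : ℝ)
    (hM : ∀ z, ‖f z‖ ≤ M * Real.exp (2 * ‖z‖)) (j : ℕ) :
    ‖iteratedDeriv j f 0 / (j.factorial : ℂ)‖ ≤ M * (8 ^ j / j.factorial) := by
  have hM0 : 0 ≤ M := by
    have h := (norm_nonneg _).trans (hM 0)
    rw [norm_zero, mul_zero, Real.exp_zero, mul_one] at h
    exact h
  rcases Nat.eq_zero_or_pos j with rfl | hj
  · have h := hM 0
    rw [norm_zero, mul_zero, Real.exp_zero, mul_one] at h
    simpa using h
  · have hj0 : (0 : ℝ) < j := by exact_mod_cast hj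
    have h1 := Complex.norm_iteratedDeriv_le_of_forall_mem_sphere_norm_le (f := f) (c := 0)
      (R := (j : ℝ)) (C := M * Real.exp (2 * j)) j hj0 hf.diffContOnCl (by
        intro z hz
        have hz2 : ‖z‖ = j := by simpa using hz
        have h := hM z
        rwa [hz2] at h)
    have hfac : (0 : ℝ) < j.factorial := by exact_mod_cast j.factorial_pos
    rw [norm_div, Complex.norm_natCast, div_le_iff₀ hfac]
    refine h1.trans ?_
    have h2 : Real.exp (2 * j) ≤ 8 ^ j := by
      rw [show (2 : ℝ) * j = j * 2 by ring, Real.exp_nat_mul]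
      apply pow_le_pow_left₀ (Real.exp_pos _).le
      have h3 : Real.exp 2 = Real.exp 1 ^ 2 := by
        rw [← Real.exp_nat_mul]; norm_num
      rw [h3]
      have h4 := Real.exp_one_lt_d9
      have h5 := Real.exp_pos 1
      nlinarith
    have h6 : (j.factorial : ℝ) ≤ (j : ℝ) ^ j := by exact_mod_cast Nat.factorial_le_pow j
    have hjj : (0 : ℝ) < (j : ℝ) ^ j := by positivity
    rw [div_le_iff₀ hjj]
    calc (j.factorial : ℝ) * (M * Real.exp (2 * j)) ≤ (j : ℝ) ^ j * (M * 8 ^ j) := by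
          apply mul_le_mul h6 _ (by positivity) hjj.le
          exact mul_le_mul_of_nonneg_left h2 hM0
      _ = M * (8 ^ j / j.factorial) * j.factorial * (j : ℝ) ^ j := by
          field_simp

/-- Bound for the tail of the Taylor series. -/
theorem gpa_tail (α : ℕ → ℂ) (M : ℝ) (hα : ∀ j, ‖α j‖ ≤ M * (8 ^ j / j.factorial))
    (z : ℂ) (Y : ℝ) (hY : ‖z‖ ≤ Y) (n : ℕ) (hn : 16 * Y ≤ n) :
    ‖∑' j, α j * z ^ j - ∑ j ∈ Finset.range n, α j * z ^ j‖ ≤
      M * (2 * Real.exp (64 * Y - n)) := by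
  have hY0 : 0 ≤ Y := (norm_nonneg _).trans hY
  have hM0 : 0 ≤ M := by
    have h := (norm_nonneg _).trans (hα 0)
    simpa using h
  have hb : ∀ j, ‖α j * z ^ j‖ ≤ M * ((8 * Y) ^ j / j.factorial) := by
    intro j
    rw [norm_mul, norm_pow]
    calc ‖α j‖ * ‖z‖ ^ j ≤ M * (8 ^ j / j.factorial) * Y ^ j := by
          apply mul_le_mul (hα j) (pow_le_pow_left₀ (norm_nonneg _) hY j) (by positivity)
          positivity
      _ = _ := by rw [mul_pow]; ring
  have hs : Summable (fun j : ℕ => M * ((8 * Y) ^ j / j.factorial)) :=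
    (Real.summable_pow_div_factorial (8 * Y)).mul_left M
  have hsn : Summable (fun j => ‖α j * z ^ j‖) :=
    Summable.of_nonneg_of_le (fun _ => norm_nonneg _) hb hs
  have hsz : Summable (fun j => α j * z ^ j) := hsn.of_norm
  have e1 : ∑' j, α j * z ^ j - ∑ j ∈ Finset.range n, α j * z ^ j =
      ∑' j, α (j + n) * z ^ (j + n) := by
    rw [← hsz.sum_add_tsum_nat_add n]
    ring
  rw [e1]
  have hsn2 : Summable (fun j => ‖α (j + n) * z ^ (j + n)‖) := (summable_nat_add_iff n).2 hsn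
  have hs2 : Summable (fun j : ℕ => M * ((8 * Y) ^ (j + n) / (j + n).factorial)) :=
    (summable_nat_add_iff (f := fun j : ℕ => M * ((8 * Y) ^ j / j.factorial)) n).2 hs
  refine (norm_tsum_le_tsum_norm hsn2).trans ?_
  refine (hsn2.tsum_le_tsum (fun j => hb (j + n)) hs2).trans ?_
  have e2 : ∑' j : ℕ, M * ((8 * Y) ^ (j + n) / (j + n).factorial) =
      M * (Real.exp (8 * Y) - ∑ j ∈ Finset.range n, (8 * Y) ^ j / j.factorial) := by
    rw [tsum_mul_left]
    congr 1
    have h1 := (Real.summable_pow_div_factorial (8 * Y)).sum_add_tsum_nat_add n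
    have h2 : Real.exp (8 * Y) = ∑' j : ℕ, (8 * Y) ^ j / j.factorial := by
      rw [Real.exp_eq_exp_ℝ, NormedSpace.exp_eq_tsum_div]
    rw [h2, ← h1]
    ring
  rw [e2]
  apply mul_le_mul_of_nonneg_left _ hM0
  have h3 := pa_exp ((8 * Y : ℝ) : ℂ) (8 * Y) (by
    rw [Complex.norm_real, Real.norm_eq_abs, abs_of_nonneg (by positivity)]) n (by linarith)
  have h4 : Complex.exp ((8 * Y : ℝ) : ℂ) - ∑ m ∈ Finset.range n, ((8 * Y : ℝ) : ℂ) ^ m / m.factorial
      = ((Real.exp (8 * Y) - ∑ j ∈ Finset.range n, (8 * Y) ^ j / j.factorial : ℝ) : ℂ) := by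
    push_cast
    rfl
  rw [h4, Complex.norm_real] at h3
  refine (le_abs_self _).trans (h3.trans ?_)
  rw [show 8 * (8 * Y) = 64 * Y by ring]

/-- **Q18**. -/
theorem polyApproxQ (h : EbFacts) : PolyApproxQ := by
  obtain ⟨-, hdiff, hgrow, -, -, hser, hpar⟩ := h
  intro q c c1 e hc hc1 he
  obtain ⟨Cq, hCq⟩ := hgrow q
  set N : ℕ := 2 * q + 1 with hN
  set M : ℝ := |Cq| * q.factorial * Real.exp 1 + 1 with hM
  have hM1 : 1 ≤ M := by
    have : 0 ≤ |Cq| * q.factorial * Real.exp 1 := by positivity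
    linarith
  have hM0 : 0 < M := by linarith
  have hbd : ∀ z, ‖eb q z‖ ≤ M * Real.exp (2 * ‖z‖) := by
    intro z
    have h1 : (1 + ‖z‖) ^ q ≤ q.factorial * Real.exp (1 + ‖z‖) := by
      have h := Real.pow_div_factorial_le_exp (1 + ‖z‖) (by positivity) q
      rw [div_le_iff₀ (by exact_mod_cast q.factorial_pos)] at h
      linarith
    have h2 : Real.exp (-z.im) ≤ Real.exp ‖z‖ :=
      Real.exp_le_exp.2 ((neg_le_abs _).trans (Complex.abs_im_le_norm z))
    calc ‖eb q z‖ ≤ Cq * (1 + ‖z‖) ^ q * Real.exp (-z.im) := hCq z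
      _ ≤ |Cq| * (1 + ‖z‖) ^ q * Real.exp (-z.im) := by
          gcongr
          exact le_abs_self _
      _ ≤ |Cq| * (q.factorial * Real.exp (1 + ‖z‖)) * Real.exp ‖z‖ := by gcongr
      _ = (|Cq| * q.factorial * Real.exp 1) * Real.exp (2 * ‖z‖) := by
          rw [show 2 * ‖z‖ = ‖z‖ + ‖z‖ by ring, Real.exp_add, Real.exp_add]
          ring
      _ ≤ M * Real.exp (2 * ‖z‖) := by
          apply mul_le_mul_of_nonneg_right _ (Real.exp_pos _).le
          linarith
  set α : ℕ → ℂ := fun j => iteratedDeriv j (eb q) 0 / (j.factorial : ℂ) with hα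
  have hαb : ∀ j, ‖α j‖ ≤ M * (8 ^ j / j.factorial) := fun j => gpa_coef (eb q) (hdiff q) M hbd j
  have hα0 : ∀ j, Odd j → j < N → α j = 0 := by
    intro j hj hjN
    simp only [hα]
    rw [hpar q j hj hjN, zero_div]
  set κ : ℝ := min (1 / 4) (c1 ^ 2 / (2 * c)) with hκ
  have hκ0 : 0 < κ := lt_min (by norm_num) (by positivity)
  have hκ1 : κ ≤ 1 / 4 := min_le_left _ _
  have hκ2 : κ ≤ c1 ^ 2 / (2 * c) := min_le_right _ _
  set B : ℝ := 1 + 2 * c with hB
  have hB1 : 1 ≤ B := by linarith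
  have hB2 : 2 * c ≤ B ^ 2 := by nlinarith
  set β : ℝ := Real.sqrt (c * κ) with hβ
  have hβ0 : 0 < β := Real.sqrt_pos.2 (by positivity)
  have hβ2 : β ^ 2 = c * κ := Real.sq_sqrt (by positivity)
  set w : ℝ := Real.sqrt c with hw
  have hw0 : 0 < w := Real.sqrt_pos.2 hc
  set E : ℝ := |Real.log (e / (4 * M))| with hE
  have hE0 : 0 ≤ E := abs_nonneg _
  have hEe : Real.exp (-E) ≤ e / (4 * M) := by
    have h1 : -E ≤ Real.log (e / (4 * M)) := neg_abs_le _
    calc Real.exp (-E) ≤ Real.exp (Real.log (e / (4 * M))) := Real.exp_le_exp.2 h1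
      _ = e / (4 * M) := Real.exp_log (by positivity)
  obtain ⟨C0, hC0⟩ := exists_nat_ge ((8 * B + N / β + 2 + κ⁻¹ + (E + 1)) / κ)
  obtain ⟨C1, hC1⟩ := exists_nat_ge (64 * w + N / c1 + (E + 1))
  have hC0' : 8 * B + N / β + 2 + κ⁻¹ + (E + 1) ≤ κ * C0 := by
    rw [div_le_iff₀ hκ0] at hC0
    linarith
  refine ⟨M + 8 * B + N / β + C0, 3, ?_⟩
  intro r hr
  have hr1 : (1 : ℝ) ≤ r := by exact_mod_cast hr
  have hr0 : (0 : ℝ) < r := by linarith
  have hMr : M * Real.exp (-((E + 1) * r)) ≤ e / 4 / r := by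
    have h1 : Real.exp (-((E + 1) * r)) ≤ Real.exp (-E) * Real.exp (-r) := by
      rw [← Real.exp_add]
      apply Real.exp_le_exp.2
      have : E ≤ E * r := le_mul_of_one_le_right hE0 hr1
      linarith
    have h2 : Real.exp (-(r : ℝ)) ≤ 1 / r := by
      rw [Real.exp_neg, inv_eq_one_div]
      apply one_div_le_one_div_of_le hr0
      linarith [Real.add_one_le_exp (r : ℝ)]
    calc M * Real.exp (-((E + 1) * r)) ≤ M * (e / (4 * M) * (1 / r)) := by
          apply mul_le_mul_of_nonneg_left _ hM0.le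
          refine h1.trans ?_
          exact mul_le_mul hEe h2 (Real.exp_pos _).le (by positivity)
      _ = e / 4 / r := by field_simp
  set η : ℝ := κ / r ^ 2 with hη
  have hη0 : 0 < η := by positivity
  have hη1 : η ≤ 1 / 4 := by
    refine le_trans ?_ hκ1
    exact div_le_self hκ0.le (one_le_pow₀ hr1)
  set b : ℝ := β / r with hb
  have hb0 : 0 < b := by positivity
  have hb2 : b ^ 2 ≤ c * η := by
    rw [hb, hη, div_pow, hβ2, mul_div_assoc]
  obtain ⟨a, ha1, ha2⟩ := gpa_pow N c η B b hc hη0 hη1 hB1 hB2 hb0 hb2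
  set D : ℕ := C0 * r ^ 3 with hD
  set n : ℕ := C1 * r with hn
  have hbexp : b⁻¹ ^ N ≤ Real.exp (N / β * r) := by
    have h1 : b⁻¹ ≤ Real.exp (r / β) := by
      rw [hb, inv_div]
      linarith [Real.add_one_le_exp ((r : ℝ) / β)]
    calc b⁻¹ ^ N ≤ Real.exp (r / β) ^ N := pow_le_pow_left₀ (by positivity) h1 N
      _ = Real.exp (N / β * r) := by
          rw [← Real.exp_nat_mul]; congr 1; ring
  -- a common estimate
  have hcomm : ∀ (X : ℕ → ℂ) (x : ℝ), 0 ≤ x → (∀ m, ‖X m‖ ≤ B ^ m * x) → ∀ l : ℂ, ‖l‖ ≤ r →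
      ‖∑ m ∈ Finset.range n, α m * l ^ m * X m‖ ≤ M * Real.exp (8 * B * r) * x := by
    intro X x hx hX l hl
    calc ‖∑ m ∈ Finset.range n, α m * l ^ m * X m‖
        ≤ ∑ m ∈ Finset.range n, M * x * ((8 * B * r) ^ m / m.factorial) := by
          apply norm_sum_le_of_le
          intro m _
          rw [norm_mul, norm_mul, norm_pow]
          calc ‖α m‖ * ‖l‖ ^ m * ‖X m‖ ≤ (M * (8 ^ m / m.factorial)) * (r : ℝ) ^ m * (B ^ m * x) := by
                apply mul_le_mul _ (hX m) (norm_nonneg _) (by positivity)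
                apply mul_le_mul (hαb m) (pow_le_pow_left₀ (norm_nonneg _) hl m) (by positivity)
                  (by positivity)
            _ = M * x * ((8 * B * r) ^ m / m.factorial) := by rw [mul_pow, mul_pow]; ring
      _ = M * x * ∑ m ∈ Finset.range n, (8 * B * r) ^ m / m.factorial := by
          rw [Finset.mul_sum]
      _ ≤ M * x * Real.exp (8 * B * r) := by
          apply mul_le_mul_of_nonneg_left _ (by positivity)
          exact Real.sum_le_exp_of_nonneg (by positivity) n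
      _ = M * Real.exp (8 * B * r) * x := by ring
  refine ⟨D, fun d l => if d < D then ∑ m ∈ Finset.range n, α m * l ^ m * a m d else 0,
    ?_, ?_, ?_, ?_, ?_⟩
  · rw [hD]
    push_cast
    apply mul_le_mul_of_nonneg_right _ (by positivity)
    have : 0 ≤ (N : ℝ) / β := by positivity
    linarith
  · intro d
    by_cases hd : d < D
    · simp only [if_pos hd]
      fun_prop
    · simp only [if_neg hd]
      exact differentiable_const _
  · intro d
    by_cases hd : d < D
    · simp only [if_pos hd]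
      refine ⟨∑ m ∈ Finset.range n, 2 * ‖α m * a m d‖, ?_⟩
      intro l hl
      rw [← Finset.sum_sub_distrib, Finset.sum_mul]
      apply norm_sum_le_of_le
      intro m _
      have e1 : α m * l ^ m * a m d - α m * (-l) ^ m * a m d = (l ^ m - (-l) ^ m) * (α m * a m d) := by
        ring
      rw [e1, norm_mul]
      rcases Nat.even_or_odd m with hm | hm
      · rw [hm.neg_pow, sub_self, norm_zero, zero_mul]
        positivity
      · by_cases hmN : m < N
        · rw [hα0 m hm hmN, zero_mul, norm_zero, mul_zero]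
          positivity
        · rw [hm.neg_pow, sub_neg_eq_add, ← two_mul, norm_mul, norm_pow]
          rw [show ‖(2 : ℂ)‖ = 2 by simp]
          have h3 : ‖l‖ ^ m ≤ ‖l‖ ^ N := pow_le_pow_of_le_one (norm_nonneg _) hl (by omega)
          calc 2 * ‖l‖ ^ m * ‖α m * a m d‖ ≤ 2 * ‖l‖ ^ N * ‖α m * a m d‖ := by gcongr
            _ = 2 * ‖α m * a m d‖ * ‖l‖ ^ N := by ring
    · simp only [if_neg hd]
      refine ⟨0, ?_⟩
      intro l _
      simp
  · intro d l hl
    by_cases hd : d < D
    · simp only [if_pos hd]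
      refine (hcomm (fun m => a m d) (b⁻¹ ^ N * 2 ^ d) (by positivity) (fun m => ?_) l hl).trans ?_
      · rw [← mul_assoc]; exact ha1 m d
      · have h2 : (2 : ℝ) ^ d ≤ Real.exp D := by
          rw [← Real.exp_one_pow]
          calc (2 : ℝ) ^ d ≤ 2 ^ D := pow_le_pow_right₀ one_le_two hd.le
            _ ≤ _ := pow_le_pow_left₀ two_pos.le
                (by linarith [Real.add_one_le_exp (1 : ℝ)]) D
        have hMe : M ≤ Real.exp M := by linarith [Real.add_one_le_exp M]
        calc M * Real.exp (8 * B * r) * (b⁻¹ ^ N * 2 ^ d) ≤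
              Real.exp M * Real.exp (8 * B * r) * (Real.exp (N / β * r) * Real.exp D) := by
                apply mul_le_mul _ _ (by positivity) (by positivity)
                · exact mul_le_mul_of_nonneg_right hMe (Real.exp_pos _).le
                · exact mul_le_mul hbexp h2 (by positivity) (Real.exp_pos _).le
          _ = Real.exp (M + 8 * B * r + N / β * r + D) := by
                rw [← Real.exp_add, ← Real.exp_add, ← Real.exp_add]; congr 1; ring
          _ ≤ _ := by
                apply Real.exp_le_exp.2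
                have h3 : (r : ℝ) ≤ (r : ℝ) ^ 3 := le_self_pow₀ hr1 (by norm_num)
                have h4 : (8 * B + N / β) * r ≤ (8 * B + N / β) * (r : ℝ) ^ 3 :=
                  mul_le_mul_of_nonneg_left h3 (by positivity)
                have h5 : M ≤ M * (r : ℝ) ^ 3 := le_mul_of_one_le_right hM0.le (one_le_pow₀ hr1)
                rw [hD]
                push_cast
                linarith
    · simp only [if_neg hd, norm_zero]
      exact (Real.exp_pos _).le
  · intro l hl s hs hsc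
    have hs0 : 0 < s := lt_of_lt_of_le (by positivity) hs
    set T : ℂ := ((1 - s ^ 2 / c : ℝ) : ℂ) with hT
    set z : ℂ := l * (s : ℂ) with hz
    have hsC : (s : ℂ) ≠ 0 := by exact_mod_cast hs0.ne'
    set X : ℕ → ℂ := fun m => (s : ℂ) ^ m / (s : ℂ) ^ N - ∑ d ∈ Finset.range D, a m d * T ^ d
      with hX
    have hdec : eb q z / (s : ℂ) ^ N -
        ∑ d ∈ Finset.range D, (if d < D then
          ∑ m ∈ Finset.range n, α m * l ^ m * a m d else 0) * T ^ d =
        (∑' j, α j * z ^ j - ∑ j ∈ Finset.range n, α j * z ^ j) / (s : ℂ) ^ N +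
        ∑ m ∈ Finset.range n, α m * l ^ m * X m := by
      have e1 : ∑ d ∈ Finset.range D, (if d < D then
          ∑ m ∈ Finset.range n, α m * l ^ m * a m d else 0) * T ^ d =
          ∑ m ∈ Finset.range n, α m * l ^ m * ∑ d ∈ Finset.range D, a m d * T ^ d := by
        have e2 : ∀ m, α m * l ^ m * ∑ d ∈ Finset.range D, a m d * T ^ d =
            ∑ d ∈ Finset.range D, α m * l ^ m * a m d * T ^ d := by
          intro m
          rw [Finset.mul_sum]
          apply Finset.sum_congr rfl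
          intro d _
          ring
        simp only [e2]
        rw [Finset.sum_comm]
        apply Finset.sum_congr rfl
        intro d hd
        rw [if_pos (Finset.mem_range.1 hd), ← Finset.sum_mul]
      have e3 : ∑ m ∈ Finset.range n, α m * l ^ m * X m =
          (∑ j ∈ Finset.range n, α j * z ^ j) / (s : ℂ) ^ N -
          ∑ m ∈ Finset.range n, α m * l ^ m * ∑ d ∈ Finset.range D, a m d * T ^ d := by
        rw [Finset.sum_div, ← Finset.sum_sub_distrib]
        apply Finset.sum_congr rfl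
        intro m _
        simp only [hX, hz]
        rw [mul_pow l (s : ℂ) m]
        ring
      rw [e1, e3, hser q z]
      ring
    have hgoal : eb q (l * (s : ℂ)) / (s : ℂ) ^ N -
        ∑ d ∈ Finset.range D, (if d < D then
          ∑ m ∈ Finset.range n, α m * l ^ m * a m d else 0) * T ^ d =
        (∑' j, α j * z ^ j - ∑ j ∈ Finset.range n, α j * z ^ j) / (s : ℂ) ^ N +
        ∑ m ∈ Finset.range n, α m * l ^ m * X m := hdec
    show ‖eb q (l * (s : ℂ)) / (s : ℂ) ^ N -
        ∑ d ∈ Finset.range D, (if d < D then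
          ∑ m ∈ Finset.range n, α m * l ^ m * a m d else 0) * T ^ d‖ ≤ e / r
    rw [hgoal]
    have hsw : s ≤ w := Real.le_sqrt_of_sq_le hsc
    have hzY : ‖z‖ ≤ w * r := by
      rw [hz, norm_mul, Complex.norm_real, Real.norm_eq_abs,
        abs_of_pos hs0, mul_comm w]
      exact mul_le_mul hl hsw hs0.le hr0.le
    have hnr : (64 * w + N / c1 + (E + 1)) * r ≤ n := by
      rw [hn]; push_cast
      exact mul_le_mul_of_nonneg_right hC1 hr0.le
    have hc1r : 0 ≤ N / c1 * (r : ℝ) := by positivity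
    have hwr : 0 < w * (r : ℝ) := by positivity
    have hErn : 0 ≤ (E + 1) * (r : ℝ) := by positivity
    have h1 : ‖(∑' j, α j * z ^ j - ∑ j ∈ Finset.range n, α j * z ^ j) / (s : ℂ) ^ N‖ ≤
        2 * (e / 4 / r) := by
      have f1 := gpa_tail α M hαb z (w * r) hzY n (by linarith)
      have f3 : ‖(s : ℂ) ^ N‖⁻¹ ≤ Real.exp (N / c1 * r) := by
        rw [norm_pow, Complex.norm_real, Real.norm_eq_abs, abs_of_pos hs0, ← inv_pow]
        have g1 : s⁻¹ ≤ Real.exp (r / c1) := by
          have g2 : s⁻¹ ≤ (c1 / r)⁻¹ := inv_anti₀ (by positivity) hs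
          rw [inv_div] at g2
          linarith [Real.add_one_le_exp ((r : ℝ) / c1)]
        calc s⁻¹ ^ N ≤ Real.exp (r / c1) ^ N := pow_le_pow_left₀ (by positivity) g1 N
          _ = Real.exp (N / c1 * r) := by
              rw [← Real.exp_nat_mul]; congr 1; ring
      rw [norm_div, div_eq_mul_inv]
      calc _ ≤ (M * (2 * Real.exp (64 * (w * r) - n))) * Real.exp (N / c1 * r) :=
            mul_le_mul f1 f3 (by positivity) (by positivity)
        _ = 2 * (M * Real.exp (64 * (w * r) - n + N / c1 * r)) := by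
            rw [Real.exp_add]; ring
        _ ≤ 2 * (M * Real.exp (-((E + 1) * r))) := by
            apply mul_le_mul_of_nonneg_left _ two_pos.le
            apply mul_le_mul_of_nonneg_left _ hM0.le
            apply Real.exp_le_exp.2
            linarith
        _ ≤ 2 * (e / 4 / r) := mul_le_mul_of_nonneg_left hMr two_pos.le
    have hη2 : 2 * η ≤ s ^ 2 / c := by
      have g1 : 2 * η ≤ c1 ^ 2 / (c * r ^ 2) := by
        rw [hη, le_div_iff₀ (by positivity)]
        have : κ * (2 * c) ≤ c1 ^ 2 := by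
          rw [le_div_iff₀ (by positivity)] at hκ2
          exact hκ2
        calc 2 * (κ / (r : ℝ) ^ 2) * (c * (r : ℝ) ^ 2) = κ * (2 * c) := by
              field_simp
          _ ≤ _ := this
      have g2 : (c1 / r) ^ 2 ≤ s ^ 2 := pow_le_pow_left₀ (by positivity) hs 2
      refine g1.trans ?_
      rw [mul_comm c, ← div_div, ← div_pow]
      exact div_le_div_of_nonneg_right g2 hc.le
    have h2 := hcomm X (b⁻¹ ^ N * (1 - η) ^ D / η) (by
      have : 0 ≤ 1 - η := by linarith
      positivity) (fun m => by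
      refine (ha2 m s hs0 hsc hη2 D).trans (le_of_eq ?_)
      ring) l hl
    have h3 : M * Real.exp (8 * B * r) * (b⁻¹ ^ N * (1 - η) ^ D / η) ≤ e / 4 / r := by
      have f1 : (1 - η) ^ D ≤ Real.exp (-(κ * C0 * r)) := by
        have g1 : 1 - η ≤ Real.exp (-η) := by linarith [Real.add_one_le_exp (-η)]
        calc (1 - η) ^ D ≤ Real.exp (-η) ^ D := pow_le_pow_left₀ (by linarith) g1 D
          _ = Real.exp (-(κ * C0 * r)) := by
              rw [← Real.exp_nat_mul, hD, hη]
              congr 1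
              push_cast
              field_simp
      have f2 : η⁻¹ ≤ Real.exp (2 * r) * Real.exp (κ⁻¹ * r) := by
        rw [hη, inv_div, div_eq_mul_inv]
        apply mul_le_mul _ _ (by positivity) (by positivity)
        · rw [mul_comm 2 (r : ℝ), mul_comm (r : ℝ) 2, show (2 : ℝ) * r = ((2 : ℕ) : ℝ) * r by norm_num,
            Real.exp_nat_mul]
          exact pow_le_pow_left₀ hr0.le (by linarith [Real.add_one_le_exp (r : ℝ)]) 2
        · have g1 : κ⁻¹ ≤ κ⁻¹ * r := le_mul_of_one_le_right (by positivity) hr1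
          linarith [Real.add_one_le_exp (κ⁻¹ * (r : ℝ))]
      calc M * Real.exp (8 * B * r) * (b⁻¹ ^ N * (1 - η) ^ D / η)
          ≤ M * Real.exp (8 * B * r) * (Real.exp (N / β * r) * Real.exp (-(κ * C0 * r)) *
              (Real.exp (2 * r) * Real.exp (κ⁻¹ * r))) := by
            apply mul_le_mul_of_nonneg_left _ (by positivity)
            rw [div_eq_mul_inv]
            have : 0 ≤ 1 - η := by linarith
            apply mul_le_mul _ f2 (by positivity) (by positivity)
            exact mul_le_mul hbexp f1 (by positivity) (by positivity)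
        _ = M * Real.exp (8 * B * r + N / β * r - κ * C0 * r + 2 * r + κ⁻¹ * r) := by
            rw [← Real.exp_add, ← Real.exp_add, ← Real.exp_add, mul_assoc, ← Real.exp_add]
            congr 2; ring
        _ ≤ M * Real.exp (-((E + 1) * r)) := by
            apply mul_le_mul_of_nonneg_left _ hM0.le
            apply Real.exp_le_exp.2
            have g1 := mul_le_mul_of_nonneg_right hC0' hr0.le
            linarith
        _ ≤ e / 4 / r := hMr
    calc _ ≤ _ := norm_add_le _ _
      _ ≤ 2 * (e / 4 / r) + e / 4 / r := add_le_add h1 (h2.trans h3)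
      _ ≤ e / r := by
          have : 0 < e / r := by positivity
          have h5 : e / 4 / r = e / r / 4 := by ring
          rw [h5]
          linarith

end Pool.Agent.Work.MP_f2af60_mp

end
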