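import Pool.Agent.Work.MP_f2af60_mp.GStmts
import Pool.Agent.Work.MP_f2af60_mp.Bd.B01
import Pool.Agent.Work.MP_f2af60_mp.PoleDefs
import Pool.Agent.Work.MP_f2af60_mp.Bd.B03
import Pool.Agent.Work.MP_f2af60_mp.PoleQDefs

/-! Bundle of small proof modules (one section per former module). -/

section

/-!
# MP_f2af60_mp, item Q3: the heat kernel
-/

namespace Pool.Agent.Work.MP_f2af60_mp

open MeasureTheory

theorem ptF_pos (q : ℕ) {t : ℝ} (ht : 0 < t) (x : En q) : 0 < pt q t x := by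
  unfold pt
  have := Real.pi_pos
  positivity

theorem ptF_neg (q : ℕ) (t : ℝ) (x : En q) : pt q t (-x) = pt q t x := by
  unfold pt
  rw [norm_neg]

theorem ptF_meas (q : ℕ) : Measurable (Function.uncurry (pt q)) := by
  have : Function.uncurry (pt q) = fun p : ℝ × En q =>
      (4 * Real.pi * p.1) ^ (-((q : ℝ) + 3 / 2)) * Real.exp (-(‖p.2‖ ^ 2 / (4 * p.1))) := by
    funext p
    rfl
  rw [this]
  fun_prop

theorem ptF_gauss_integrable (q : ℕ) {b : ℝ} (hb : 0 < b) :
    Integrable (fun x : En q => Real.exp (-b * ‖x‖ ^ 2)) := by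
  have h := (GaussianFourier.integrable_cexp_neg_mul_sq_norm_add (b := (b : ℂ)) (V := En q)
    (by simpa using hb) 0 0).norm
  refine h.congr (Filter.Eventually.of_forall fun x => ?_)
  simp only [zero_mul, add_zero]
  rw [Complex.norm_exp]
  congr 1
  have : (-(b : ℂ) * (‖x‖ : ℂ) ^ 2) = ((-b * ‖x‖ ^ 2 : ℝ) : ℂ) := by push_cast; ring
  rw [this, Complex.ofReal_re]

theorem ptF_integrable (q : ℕ) {t : ℝ} (ht : 0 < t) : Integrable (pt q t) := by
  have h : pt q t = fun x : En q => (4 * Real.pi * t) ^ (-((q : ℝ) + 3 / 2)) *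
      Real.exp (-(1 / (4 * t)) * ‖x‖ ^ 2) := by
    funext x
    unfold pt
    congr 2
    ring
  rw [h]
  exact (ptF_gauss_integrable q (by positivity)).const_mul _

theorem ptF_integral (q : ℕ) {t : ℝ} (ht : 0 < t) : ∫ x, pt q t x = 1 := by
  have h : ∀ x : En q, pt q t x = (4 * Real.pi * t) ^ (-((q : ℝ) + 3 / 2)) *
      Real.exp (-(1 / (4 * t)) * ‖x‖ ^ 2) := by
    intro x
    unfold pt
    congr 2
    ring
  have hp := Real.pi_pos
  simp only [h]
  rw [integral_const_mul, GaussianFourier.integral_rexp_neg_mul_sq_norm (by positivity)]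
  have e1 : Real.pi / (1 / (4 * t)) = 4 * Real.pi * t := by field_simp
  have e2 : (Module.finrank ℝ (En q) / 2 : ℝ) = (q : ℝ) + 3 / 2 := by
    rw [finrank_euclideanSpace, Fintype.card_fin]
    push_cast
    ring
  rw [e1, e2, ← Real.rpow_add (by positivity), neg_add_cancel, Real.rpow_zero]

theorem ptF_square {V : Type*} [NormedAddCommGroup V] [InnerProductSpace ℝ V] (a b : V) {s t : ℝ}
    (hs : 0 < s) (ht : 0 < t) :
    ‖a‖ ^ 2 / (4 * s) + ‖b‖ ^ 2 / (4 * t) = ‖a + b‖ ^ 2 / (4 * (s + t)) +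
      ‖(s + t)⁻¹ • (s • b - t • a)‖ ^ 2 / (4 * (s * t / (s + t))) := by
  have h1 : ‖a + b‖ ^ 2 = ‖a‖ ^ 2 + 2 * inner ℝ a b + ‖b‖ ^ 2 := norm_add_sq_real a b
  have h2 : ‖s • b - t • a‖ ^ 2 = s ^ 2 * ‖b‖ ^ 2 - 2 * (s * t * inner ℝ a b) +
      t ^ 2 * ‖a‖ ^ 2 := by
    rw [norm_sub_sq_real, norm_smul, norm_smul, mul_pow, mul_pow, real_inner_smul_left,
      real_inner_smul_right, real_inner_comm, Real.norm_eq_abs, Real.norm_eq_abs, sq_abs, sq_abs]
    ring
  have hst : 0 < s + t := by positivity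
  rw [norm_smul, mul_pow, h1, h2, Real.norm_eq_abs, sq_abs]
  field_simp
  ring

theorem ptF_mul (q : ℕ) {s t : ℝ} (hs : 0 < s) (ht : 0 < t) (x y z : En q) :
    pt q s (x - z) * pt q t (z - y) = pt q (s + t) (x - y) *
      pt q (s * t / (s + t)) (z - (s + t)⁻¹ • (t • x + s • y)) := by
  have hst : 0 < s + t := by positivity
  have hp := Real.pi_pos
  have e1 : z - (s + t)⁻¹ • (t • x + s • y) = (s + t)⁻¹ • (s • (z - y) - t • (x - z)) := by
    have : z = (s + t)⁻¹ • ((s + t) • z) := by rw [smul_smul, inv_mul_cancel₀ hst.ne', one_smul]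
    nth_rewrite 1 [this]
    rw [← smul_sub]
    congr 1
    simp only [add_smul, smul_sub]
    abel
  have e2 := ptF_square (x - z) (z - y) hs ht
  rw [sub_add_sub_cancel] at e2
  unfold pt
  rw [e1]
  rw [mul_mul_mul_comm, mul_mul_mul_comm ((4 * Real.pi * (s + t)) ^ (-((q : ℝ) + 3 / 2))),
    ← Real.exp_add, ← Real.exp_add, ← Real.mul_rpow (by positivity) (by positivity),
    ← Real.mul_rpow (by positivity) (by positivity)]
  congr 2
  · field_simp
  · linarith

theorem ptF_bound (q j : ℕ) : ∃ C : ℝ, ∀ t > 0, ∀ x : En q, (1 + ‖x‖) ^ j * pt q t x ≤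
    C * (1 + t ^ j) * pt q (2 * t) x := by
  refine ⟨(2 : ℝ) ^ ((q : ℝ) + 3 / 2) * (2 ^ j * (2 + j.factorial * 8 ^ j)), fun t ht x => ?_⟩
  have hp := Real.pi_pos
  set r := ‖x‖ with hr
  have hr0 : 0 ≤ r := norm_nonneg _
  have e1 : pt q t x = (4 * Real.pi * t) ^ (-((q : ℝ) + 3 / 2)) * (Real.exp (-(r ^ 2 / (8 * t))) *
      Real.exp (-(r ^ 2 / (8 * t)))) := by
    unfold pt
    rw [← Real.exp_add, ← hr]
    congr 2
    field_simp
    ring
  have e2 : pt q (2 * t) x = (2 : ℝ) ^ (-((q : ℝ) + 3 / 2)) *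
      ((4 * Real.pi * t) ^ (-((q : ℝ) + 3 / 2)) * Real.exp (-(r ^ 2 / (8 * t)))) := by
    unfold pt
    have e4 : (4 * Real.pi * (2 * t)) = 2 * (4 * Real.pi * t) := by ring
    rw [← hr, e4, Real.mul_rpow (by norm_num) (by positivity), mul_assoc]
    congr 3
    ring
  have e3 : (2 : ℝ) ^ ((q : ℝ) + 3 / 2) * (2 : ℝ) ^ (-((q : ℝ) + 3 / 2)) = 1 := by
    rw [← Real.rpow_add (by norm_num), add_neg_cancel, Real.rpow_zero]
  set E := Real.exp (-(r ^ 2 / (8 * t))) with hE
  have hE0 : 0 < E := Real.exp_pos _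
  have hE1 : E ≤ 1 := by
    rw [hE]
    apply Real.exp_le_one_iff.mpr
    have : 0 ≤ r ^ 2 / (8 * t) := by positivity
    linarith
  set P := (4 * Real.pi * t) ^ (-((q : ℝ) + 3 / 2)) with hP
  have hP0 : 0 < P := by rw [hP]; positivity
  have k1 : (1 + r) ^ j ≤ 2 ^ j * (1 + r ^ j) := by
    rcases le_total r 1 with h | h
    · calc (1 + r) ^ j ≤ 2 ^ j := by gcongr; linarith
        _ ≤ 2 ^ j * (1 + r ^ j) := by
          have : 0 ≤ r ^ j := by positivity
          have h2 : (0 : ℝ) < 2 ^ j := by positivity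
          nlinarith
    · calc (1 + r) ^ j ≤ (2 * r) ^ j := by gcongr; linarith
        _ = 2 ^ j * r ^ j := by rw [mul_pow]
        _ ≤ 2 ^ j * (1 + r ^ j) := by
          have h2 : (0 : ℝ) < 2 ^ j := by positivity
          nlinarith
  have k2 : (r ^ 2) ^ j * E ≤ j.factorial * (8 * t) ^ j := by
    have h1 : (r ^ 2 / (8 * t)) ^ j / j.factorial ≤ Real.exp (r ^ 2 / (8 * t)) :=
      Real.pow_div_factorial_le_exp _ (by positivity) j
    have h2 : E = (Real.exp (r ^ 2 / (8 * t)))⁻¹ := by rw [hE, Real.exp_neg]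
    rw [div_pow, div_div, div_le_iff₀ (by positivity)] at h1
    rw [h2, ← div_eq_mul_inv, div_le_iff₀ (Real.exp_pos _)]
    linarith
  have k3 : r ^ j ≤ 1 + (r ^ 2) ^ j := by
    rw [← pow_mul, mul_comm 2 j, pow_mul]
    nlinarith [sq_nonneg (r ^ j - 1), sq_nonneg (r ^ j)]
  have k4 : (1 + r) ^ j * E ≤ (2 ^ j * (2 + j.factorial * 8 ^ j)) * (1 + t ^ j) := by
    have h0 : (0 : ℝ) < 2 ^ j := by positivity
    have h1 : (1 + r) ^ j * E ≤ 2 ^ j * (1 + r ^ j) * E := by gcongr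
    have h2 : (1 + r ^ j) * E ≤ 2 + j.factorial * (8 * t) ^ j := by
      have h7 : (1 + r ^ j) * E ≤ (2 + (r ^ 2) ^ j) * E :=
        mul_le_mul_of_nonneg_right (by linarith) hE0.le
      nlinarith
    have h3 : (8 * t) ^ j = 8 ^ j * t ^ j := mul_pow _ _ _
    have h4 : 0 ≤ t ^ j := by positivity
    have h5 : 0 ≤ (j.factorial : ℝ) * 8 ^ j := by positivity
    have h6 : 2 + j.factorial * (8 * t) ^ j ≤ (2 + j.factorial * 8 ^ j) * (1 + t ^ j) := by
      rw [h3]; nlinarith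
    calc (1 + r) ^ j * E ≤ 2 ^ j * ((1 + r ^ j) * E) := by rw [← mul_assoc]; exact h1
      _ ≤ 2 ^ j * ((2 + j.factorial * 8 ^ j) * (1 + t ^ j)) :=
        mul_le_mul_of_nonneg_left (h2.trans h6) h0.le
      _ = _ := by ring
  rw [e1, e2]
  calc (1 + r) ^ j * (P * (E * E)) = ((1 + r) ^ j * E) * (P * E) := by ring
    _ ≤ ((2 ^ j * (2 + j.factorial * 8 ^ j)) * (1 + t ^ j)) * (P * E) := by gcongr
    _ = ((2 : ℝ) ^ ((q : ℝ) + 3 / 2) * (2 : ℝ) ^ (-((q : ℝ) + 3 / 2))) *
        ((2 ^ j * (2 + j.factorial * 8 ^ j)) * (1 + t ^ j)) * (P * E) := by rw [e3, one_mul]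
    _ = _ := by ring

/-- Item Q3. -/
theorem ptFacts : PtFacts := by
  intro q
  refine ⟨fun t ht x => ptF_pos q ht x, fun t x => ptF_neg q t x, ptF_meas q,
    fun t ht => ⟨ptF_integrable q ht, ptF_integral q ht⟩, fun s hs t ht x y => ?_, ptF_bound q⟩
  have hst : 0 < s * t / (s + t) := by positivity
  have h : (fun z => pt q s (x - z) * pt q t (z - y)) = fun z => pt q (s + t) (x - y) *
      pt q (s * t / (s + t)) (z - (s + t)⁻¹ • (t • x + s • y)) := by
    funext z
    exact ptF_mul q hs ht x y z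
  rw [h]
  refine ⟨((ptF_integrable q hst).comp_sub_right _).const_mul _, ?_⟩
  rw [integral_const_mul, integral_sub_right_eq_self (fun z => pt q (s * t / (s + t)) z),
    ptF_integral q hst, mul_one]

end Pool.Agent.Work.MP_f2af60_mp

end

section

/-!
# MP_f2af60_mp, all odd dimensions: the real side (Q44)
-/

namespace Pool.Agent.Work.MP_f2af60_mp

open MeasureTheory Filter Topology

/-- `f` is a combination of the powers `E ^ (q - 3/2 - i)`, `i ≤ j`, up to
`O(E ^ (q - 5/2 - j))`, with first coefficient `g`. -/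
def rsAp (q j : ℕ) (E1 g : ℝ) (f : ℝ → ℝ) : Prop :=
  ∃ (γ : ℕ → ℝ) (C : ℝ), γ 0 = g ∧ ∀ E ≥ E1,
    |f E - ∑ i ∈ Finset.range (j + 1), γ i * E ^ ((q : ℝ) - 3 / 2 - i)| ≤
      C * E ^ ((q : ℝ) - 5 / 2 - j)

section rs

variable {q j : ℕ} {E1 : ℝ}

lemma rsAp_add {g g' : ℝ} {f f' : ℝ → ℝ} (h : rsAp q j E1 g f) (h' : rsAp q j E1 g' f') :
    rsAp q j E1 (g + g') (fun E => f E + f' E) := by
  obtain ⟨γ, C, h0, h1⟩ := h
  obtain ⟨γ', C', h0', h1'⟩ := h'
  refine ⟨fun i => γ i + γ' i, C + C', by simp [h0, h0'], fun E hE => ?_⟩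
  have e : f E + f' E - ∑ i ∈ Finset.range (j + 1), (γ i + γ' i) * E ^ ((q : ℝ) - 3 / 2 - i) =
      (f E - ∑ i ∈ Finset.range (j + 1), γ i * E ^ ((q : ℝ) - 3 / 2 - i)) +
      (f' E - ∑ i ∈ Finset.range (j + 1), γ' i * E ^ ((q : ℝ) - 3 / 2 - i)) := by
    simp only [add_mul, Finset.sum_add_distrib]; ring
  rw [e, add_mul]
  exact (abs_add_le _ _).trans (add_le_add (h1 E hE) (h1' E hE))

lemma rsAp_smul {g : ℝ} {f : ℝ → ℝ} (c : ℝ) (h : rsAp q j E1 g f) :
    rsAp q j E1 (c * g) (fun E => c * f E) := by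
  obtain ⟨γ, C, h0, h1⟩ := h
  refine ⟨fun i => c * γ i, |c| * C, by simp [h0], fun E hE => ?_⟩
  have e : c * f E - ∑ i ∈ Finset.range (j + 1), c * γ i * E ^ ((q : ℝ) - 3 / 2 - i) =
      c * (f E - ∑ i ∈ Finset.range (j + 1), γ i * E ^ ((q : ℝ) - 3 / 2 - i)) := by
    simp only [mul_assoc, ← Finset.mul_sum]; ring
  rw [e, abs_mul, mul_assoc]
  exact mul_le_mul_of_nonneg_left (h1 E hE) (abs_nonneg _)

lemma rsAp_congr {g : ℝ} {f f' : ℝ → ℝ} (h : rsAp q j E1 g f) (e : ∀ E ≥ E1, f' E = f E) :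
    rsAp q j E1 g f' := by
  obtain ⟨γ, C, h0, h1⟩ := h
  exact ⟨γ, C, h0, fun E hE => by rw [e E hE]; exact h1 E hE⟩

lemma rsAp_pow (hE1 : 1 ≤ E1) (k : ℕ) :
    rsAp q j E1 (if k = 0 then 1 else 0) (fun E => E ^ ((q : ℝ) - 3 / 2 - k)) := by
  by_cases hk : k ≤ j
  · refine ⟨fun i => if i = k then 1 else 0, 0, ?_, fun E _ => ?_⟩
    · simp only [eq_comm (a := (0 : ℕ))]
    · have e : ∑ i ∈ Finset.range (j + 1), (if i = k then (1 : ℝ) else 0) *
          E ^ ((q : ℝ) - 3 / 2 - i) = E ^ ((q : ℝ) - 3 / 2 - k) := by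
        rw [Finset.sum_eq_single k]
        · simp
        · intro i _ hi; simp [hi]
        · intro h; exact absurd (Finset.mem_range.2 (by omega)) h
      rw [e]; simp
  · push Not at hk
    have hk0 : k ≠ 0 := by omega
    refine ⟨fun _ => 0, 1, by simp [hk0], fun E hE => ?_⟩
    have hE' : 1 ≤ E := hE1.trans hE
    have : (0 : ℝ) ≤ E ^ ((q : ℝ) - 3 / 2 - k) := Real.rpow_nonneg (by linarith) _
    simp only [zero_mul, Finset.sum_const_zero, sub_zero, one_mul]
    rw [abs_of_nonneg this]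
    apply Real.rpow_le_rpow_of_exponent_le hE'
    have : (j : ℝ) + 1 ≤ k := by exact_mod_cast hk
    linarith

lemma rsAp_err (hE1 : 1 ≤ E1) {f : ℝ → ℝ} {C x : ℝ} (hx : x ≤ (q : ℝ) - 5 / 2 - j)
    (h : ∀ E ≥ E1, |f E| ≤ C * E ^ x) : rsAp q j E1 0 f := by
  refine ⟨fun _ => 0, |C|, rfl, fun E hE => ?_⟩
  have hE' : 1 ≤ E := hE1.trans hE
  simp only [zero_mul, Finset.sum_const_zero, sub_zero]
  refine (h E hE).trans ?_
  have h1 : (0 : ℝ) ≤ E ^ x := Real.rpow_nonneg (by linarith) _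
  calc C * E ^ x ≤ |C| * E ^ x := mul_le_mul_of_nonneg_right (le_abs_self C) h1
    _ ≤ _ := mul_le_mul_of_nonneg_left (Real.rpow_le_rpow_of_exponent_le hE' hx) (abs_nonneg _)

lemma rsAp_sum {ι : Type*} (s : Finset ι) (f : ι → ℝ → ℝ) (h : ∀ m ∈ s, rsAp q j E1 0 (f m)) :
    rsAp q j E1 0 (fun E => ∑ m ∈ s, f m E) := by
  classical
  induction s using Finset.induction_on with
  | empty =>
    refine ⟨fun _ => 0, 0, rfl, fun E _ => by simp⟩
  | insert a s ha ih =>
    have h1 := rsAp_add (h a (Finset.mem_insert_self a s))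
      (ih fun m hm => h m (Finset.mem_insert_of_mem hm))
    rw [add_zero] at h1
    refine rsAp_congr h1 fun E _ => ?_
    rw [Finset.sum_insert ha]

/-- A polynomial in `1/E` of degree `< p`, times `E ^ (q - 3/2)`. -/
lemma rsAp_poly (hE1 : 1 ≤ E1) (c : ℕ → ℝ) (p : ℕ) (hp : 1 ≤ p) :
    rsAp q j E1 (c 0) (fun E => ∑ i ∈ Finset.range p, c i * E ^ ((q : ℝ) - 3 / 2 - i)) := by
  obtain ⟨r, rfl⟩ : ∃ r, p = r + 1 := ⟨p - 1, by omega⟩
  have h1 : rsAp q j E1 0 (fun E => ∑ i ∈ Finset.range r,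
      c (i + 1) * E ^ ((q : ℝ) - 3 / 2 - ((i + 1 : ℕ) : ℝ))) := by
    apply rsAp_sum
    intro i _
    have := rsAp_smul (c (i + 1)) (rsAp_pow (q := q) (j := j) hE1 (i + 1))
    simpa using this
  have h2 := rsAp_smul (c 0) (rsAp_pow (q := q) (j := j) hE1 0)
  have h3 := rsAp_add h1 h2
  simp only [if_true, mul_one, zero_add] at h3
  refine rsAp_congr h3 fun E _ => ?_
  rw [Finset.sum_range_succ']

end rs

/-- The expansion of the real side. -/
lemma rs_expand (h34 : ScalingF) (h38 : Phi1Facts) (h43 : MultiExpand) (q : ℕ) (hq : 1 ≤ q)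
    (V : En q → ℝ) (hV : Measurable V) (M R : ℝ) (hM : ∀ x, |V x| ≤ M)
    (hR : ∀ x, R < ‖x‖ → V x = 0) (j : ℕ) (hj : j < q) (hS : HS q V (2 * j)) (E1 : ℝ)
    (hE1 : 1 ≤ E1) :
    ∃ (a0 : ℝ) (Rj : ℝ → ℝ),
      rsAp q j E1 (-a0) (fun E => FF q V E + (-1) ^ (j + 1) * (E ^ ((q : ℝ) - 3 / 2) * Rj E⁻¹)) ∧
      (∀ e > 0, 0 ≤ Rj e) ∧
      Tendsto (fun e => Rj e / e ^ j) (𝓝[>] 0) (𝓝 0) ∧
      (a0 = 0 → V =ᵐ[volume] 0) ∧
      ((∃ C : ℝ, ∀ᶠ e in 𝓝[>] 0, Rj e ≤ C * e ^ (j + 1)) → HS q V (2 * (j + 1 : ℕ))) ∧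
      (HS q V (2 * j + 1) → Tendsto (fun e => Rj e / e ^ ((j : ℝ) + 1 / 2)) (𝓝[>] 0) (𝓝 0)) := by
  obtain ⟨a, Rj, p1, p2, p3, p4, p5, p6⟩ := h38 q hq V hV M R hM hR j hj hS
  refine ⟨a 0, Rj, ?_, p2, p3, p4, p5, p6⟩
  -- the quadratic term
  have k1 : rsAp q j E1 (-(a 0)) (fun E => -(∑ i ∈ Finset.range (j + 1),
      a i * E ^ ((q : ℝ) - 3 / 2 - i))) := by
    have := rsAp_smul (-1) (rsAp_poly (q := q) (j := j) hE1 a (j + 1) (by omega))
    rw [neg_one_mul] at this
    exact rsAp_congr this fun E _ => by ring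
  -- the other terms
  have k2 : rsAp q j E1 0 (fun E => ∑ m ∈ Finset.Icc 2 q,
      (-1) ^ m * (E ^ ((q : ℝ) - 1 / 2 - m) * Phi q V m E⁻¹)) := by
    apply rsAp_sum
    intro m hm
    rw [Finset.mem_Icc] at hm
    obtain ⟨c, C, hc⟩ := h43 q hq V hV M R hM hR j hj hS m (by omega)
    have k3 : rsAp q j E1 0 (fun E => E ^ ((q : ℝ) - 1 / 2 - m) *
        (Phi q V m E⁻¹ - ∑ i ∈ Finset.range j, c i * (E⁻¹) ^ i)) := by
      refine rsAp_err (C := C) (x := (q : ℝ) - 1 / 2 - m - j) hE1 ?_ ?_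
      · have : (2 : ℝ) ≤ m := by exact_mod_cast hm.1
        linarith
      · intro E hE
        have hE' : 1 ≤ E := hE1.trans hE
        have hE0 : 0 < E := by linarith
        rw [abs_mul, abs_of_nonneg (Real.rpow_nonneg hE0.le _)]
        have := hc E⁻¹ (inv_pos.2 hE0) (inv_le_one_of_one_le₀ hE')
        calc E ^ ((q : ℝ) - 1 / 2 - m) * |Phi q V m E⁻¹ - ∑ i ∈ Finset.range j, c i * (E⁻¹) ^ i|
            ≤ E ^ ((q : ℝ) - 1 / 2 - m) * (C * (E⁻¹) ^ j) :=
              mul_le_mul_of_nonneg_left this (Real.rpow_nonneg hE0.le _)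
          _ = C * E ^ ((q : ℝ) - 1 / 2 - m - j) := by
              rw [Real.rpow_sub hE0 _ (j : ℝ), Real.rpow_natCast, inv_pow]
              field_simp
    have k4 : rsAp q j E1 0 (fun E => ∑ i ∈ Finset.range j,
        c i * E ^ ((q : ℝ) - 3 / 2 - ((i + (m - 1) : ℕ) : ℝ))) := by
      apply rsAp_sum
      intro i _
      have := rsAp_smul (c i) (rsAp_pow (q := q) (j := j) hE1 (i + (m - 1)))
      rw [if_neg (by omega), mul_zero] at this
      exact this
    have k5 := rsAp_smul ((-1) ^ m) (rsAp_add k3 k4)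
    rw [add_zero, mul_zero] at k5
    refine rsAp_congr k5 fun E hE => ?_
    have hE' : 1 ≤ E := hE1.trans hE
    have hE0 : 0 < E := by linarith
    congr 1
    have e : ∑ i ∈ Finset.range j, c i * E ^ ((q : ℝ) - 3 / 2 - ((i + (m - 1) : ℕ) : ℝ)) =
        E ^ ((q : ℝ) - 1 / 2 - m) * ∑ i ∈ Finset.range j, c i * (E⁻¹) ^ i := by
      rw [Finset.mul_sum]
      refine Finset.sum_congr rfl fun i _ => ?_
      have e1 : (q : ℝ) - 3 / 2 - ((i + (m - 1) : ℕ) : ℝ) = ((q : ℝ) - 1 / 2 - m) - i := by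
        rw [Nat.cast_add, Nat.cast_sub (by omega)]
        push_cast; ring
      rw [e1, Real.rpow_sub hE0 _ (i : ℝ), Real.rpow_natCast, inv_pow]
      field_simp
    rw [e]; ring
  have k6 := rsAp_add k1 k2
  rw [add_zero] at k6
  refine rsAp_congr k6 fun E hE => ?_
  have hE' : 1 ≤ E := hE1.trans hE
  have hE0 : 0 < E := by linarith
  rw [h34 q hq V hV M R hM hR E hE0]
  have e1 : Finset.Icc 1 q = insert 1 (Finset.Icc 2 q) := by
    ext x; simp only [Finset.mem_Icc, Finset.mem_insert]; omega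
  rw [e1, Finset.sum_insert (by simp), p1 E⁻¹ (inv_pos.2 hE0)]
  have e2 : ∑ i ∈ Finset.range (j + 1), a i * E ^ ((q : ℝ) - 3 / 2 - i) =
      E ^ ((q : ℝ) - 3 / 2) * ∑ i ∈ Finset.range (j + 1), a i * (E⁻¹) ^ i := by
    rw [Finset.mul_sum]
    refine Finset.sum_congr rfl fun i _ => ?_
    rw [Real.rpow_sub hE0 _ (i : ℝ), Real.rpow_natCast, inv_pow]
    field_simp
  rw [e2]
  have e3 : (q : ℝ) - 1 / 2 - (1 : ℕ) = (q : ℝ) - 3 / 2 := by push_cast; ring
  rw [e3]
  ring

/-- The comparison of the two sides. -/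
lemma rs_compare (h34 : ScalingF) (h38 : Phi1Facts) (h43 : MultiExpand) (h28 : PowGrowth)
    (q : ℕ) (hq : 1 ≤ q)
    (V : En q → ℝ) (hV : Measurable V) (M R : ℝ) (hM : ∀ x, |V x| ≤ M)
    (hR : ∀ x, R < ‖x‖ → V x = 0) (N : ℕ) (α : ℕ → ℝ) (C E1 : ℝ) (hE1 : 1 ≤ E1)
    (hF : ∀ E ≥ E1, |FF q V E + (N : ℝ) / (2 * q) * E⁻¹ -
      ∑ i ∈ Finset.range q, α i * E ^ ((q : ℝ) - 3 / 2 - i)| ≤ C * E ^ (-(3 / 2) : ℝ))
    (j : ℕ) (hj : j < q) (hS : HS q V (2 * j)) :
    ∃ (a0 : ℝ) (Rj : ℝ → ℝ) (C' : ℝ), a0 = -α 0 ∧ 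
      (∀ E ≥ E1, |(-1) ^ (j + 1) * (E ^ ((q : ℝ) - 3 / 2) * Rj E⁻¹) - (N : ℝ) / (2 * q) * E⁻¹| ≤
        C' * E ^ ((q : ℝ) - 5 / 2 - j)) ∧
      (∀ e > 0, 0 ≤ Rj e) ∧
      Tendsto (fun e => Rj e / e ^ j) (𝓝[>] 0) (𝓝 0) ∧
      (a0 = 0 → V =ᵐ[volume] 0) ∧
      ((∃ C : ℝ, ∀ᶠ e in 𝓝[>] 0, Rj e ≤ C * e ^ (j + 1)) → HS q V (2 * (j + 1 : ℕ))) ∧
      (HS q V (2 * j + 1) → Tendsto (fun e => Rj e / e ^ ((j : ℝ) + 1 / 2)) (𝓝[>] 0) (𝓝 0)) := by
  obtain ⟨a0, Rj, k1, k2, k3, k4, k5, k6⟩ :=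
    rs_expand h34 h38 h43 q hq V hV M R hM hR j hj hS E1 hE1
  have hjq : (j : ℝ) + 1 ≤ q := by exact_mod_cast hj
  -- the difference
  have d1 : rsAp q j E1 0 (fun E => FF q V E + (N : ℝ) / (2 * q) * E⁻¹ -
      ∑ i ∈ Finset.range q, α i * E ^ ((q : ℝ) - 3 / 2 - i)) :=
    rsAp_err hE1 (by linarith) hF
  have d2 := rsAp_poly (q := q) (j := j) hE1 α q hq
  have d3 := rsAp_add k1 (rsAp_smul (-1) (rsAp_add d1 d2))
  obtain ⟨β, C', b0, b1⟩ := rsAp_congr (f' := fun E => (-1) ^ (j + 1) *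
    (E ^ ((q : ℝ) - 3 / 2) * Rj E⁻¹) - (N : ℝ) / (2 * q) * E⁻¹) d3 (fun E _ => by ring)
  -- all coefficients vanish
  have hβ : ∀ i : Fin (j + 1), (β i : ℂ) = 0 := by
    apply h28 (j + 1) (fun i : Fin (j + 1) => (q : ℝ) - 3 / 2 - (i : ℕ))
      (fun x y hxy => by
        have : ((x : ℕ) : ℝ) = (y : ℕ) := by simpa using hxy
        exact Fin.ext (by exact_mod_cast this))
      (fun i => (β i : ℂ)) ((q : ℝ) - 3 / 2 - j)
      (fun i => by
        have : ((i : ℕ) : ℝ) ≤ j := by exact_mod_cast Nat.lt_succ_iff.1 i.2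
        linarith)
    -- the real limit
    have hlim : Tendsto (fun E : ℝ => (∑ i ∈ Finset.range (j + 1),
        β i * E ^ ((q : ℝ) - 3 / 2 - i)) / E ^ ((q : ℝ) - 3 / 2 - j)) atTop (𝓝 0) := by
      have l1 : Tendsto (fun E : ℝ => Rj E⁻¹ / (E⁻¹) ^ j) atTop (𝓝 0) :=
        k3.comp tendsto_inv_atTop_nhdsGT_zero
      have l2 : Tendsto (fun E : ℝ => (N : ℝ) / (2 * q) * E ^ (-((q : ℝ) - 1 / 2 - j))) atTop
          (𝓝 ((N : ℝ) / (2 * q) * 0)) :=
        (tendsto_rpow_neg_atTop (by linarith)).const_mul _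
      have l3 : Tendsto (fun E : ℝ => C' * E⁻¹) atTop (𝓝 (C' * 0)) :=
        tendsto_inv_atTop_zero.const_mul _
      rw [mul_zero] at l2 l3
      have l1' : Tendsto (fun E : ℝ => |Rj E⁻¹ / (E⁻¹) ^ j|) atTop (𝓝 0) := by
        simpa using l1.abs
      have l2' : Tendsto (fun E : ℝ => |(N : ℝ) / (2 * q) * E ^ (-((q : ℝ) - 1 / 2 - j))|)
          atTop (𝓝 0) := by
        simpa using l2.abs
      have l4 := (l1'.add l2').add l3
      simp only [add_zero] at l4
      refine squeeze_zero_norm' ?_ l4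
      filter_upwards [eventually_ge_atTop E1] with E hE
      have hE' : 1 ≤ E := hE1.trans hE
      have hE0 : 0 < E := by linarith
      have hpos : 0 < E ^ ((q : ℝ) - 3 / 2 - j) := Real.rpow_pos_of_pos hE0 _
      have hb := b1 E hE
      set S := ∑ i ∈ Finset.range (j + 1), β i * E ^ ((q : ℝ) - 3 / 2 - i) with hSdef
      rw [Real.norm_eq_abs, abs_div, abs_of_pos hpos, div_le_iff₀ hpos]
      have e1 : |Rj E⁻¹ / (E⁻¹) ^ j| * E ^ ((q : ℝ) - 3 / 2 - j) =
          |(-1) ^ (j + 1) * (E ^ ((q : ℝ) - 3 / 2) * Rj E⁻¹)| := by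
        rw [abs_mul, abs_pow, abs_neg, abs_one, one_pow, one_mul, abs_mul, abs_div,
          abs_of_pos (Real.rpow_pos_of_pos hE0 _), abs_of_pos (pow_pos (inv_pos.2 hE0) j),
          Real.rpow_sub hE0 _ (j : ℝ), Real.rpow_natCast, inv_pow]
        field_simp
      have e2 : |(N : ℝ) / (2 * q) * E ^ (-((q : ℝ) - 1 / 2 - j))| * E ^ ((q : ℝ) - 3 / 2 - j) =
          |(N : ℝ) / (2 * q) * E⁻¹| := by
        have e3 : E⁻¹ = E ^ (-((q : ℝ) - 1 / 2 - j)) * E ^ ((q : ℝ) - 3 / 2 - j) := by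
          rw [← Real.rpow_add hE0, ← Real.rpow_neg_one]; congr 1; ring
        rw [e3, ← mul_assoc, abs_mul _ (E ^ ((q : ℝ) - 3 / 2 - j)), abs_of_pos hpos]
      have e4 : C' * E⁻¹ * E ^ ((q : ℝ) - 3 / 2 - j) = C' * E ^ ((q : ℝ) - 5 / 2 - j) := by
        rw [mul_assoc, ← Real.rpow_neg_one, ← Real.rpow_add hE0]; congr 2; ring
      rw [add_mul, add_mul, e1, e2, e4]
      have t1 := abs_sub_abs_le_abs_sub S ((-1) ^ (j + 1) * (E ^ ((q : ℝ) - 3 / 2) * Rj E⁻¹) -
        (N : ℝ) / (2 * q) * E⁻¹)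
      rw [abs_sub_comm S] at t1
      simp only at hb
      have t2 := abs_sub ((-1) ^ (j + 1) * (E ^ ((q : ℝ) - 3 / 2) * Rj E⁻¹))
        ((N : ℝ) / (2 * q) * E⁻¹)
      linarith
    have h2 := (Complex.continuous_ofReal.tendsto 0).comp hlim
    rw [Complex.ofReal_zero] at h2
    refine h2.congr fun E => ?_
    simp only [Function.comp]
    push_cast
    congr 1
    rw [← Fin.sum_univ_eq_sum_range (fun i => (β i : ℂ) * ((E ^ ((q : ℝ) - 3 / 2 - i) : ℝ) : ℂ))]
  have hβ' : ∀ i ∈ Finset.range (j + 1), β i = 0 := by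
    intro i hi
    have := hβ ⟨i, Finset.mem_range.1 hi⟩
    exact_mod_cast this
  refine ⟨a0, Rj, C', ?_, ?_, k2, k3, k4, k5, k6⟩
  · have := hβ' 0 (Finset.mem_range.2 (by omega))
    rw [b0] at this
    linarith
  · intro E hE
    have := b1 E hE
    rw [Finset.sum_eq_zero (fun i hi => by rw [hβ' i hi, zero_mul]), sub_zero] at this
    exact this

theorem realSide (h34 : ScalingF) (h38 : Phi1Facts) (h43 : MultiExpand) (h35 : PlanchV)
    (h28 : PowGrowth) : RealSide := by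
  intro q hq V hV M R hM hR N α C E1 hE1 hF hcase
  have hcmp := rs_compare h34 h38 h43 h28 q hq V hV M R hM hR N α C E1 hE1 hF
  -- bootstrap
  have hboot : ∀ j < q, HS q V (2 * j) := by
    intro j
    induction j with
    | zero =>
      intro _
      have := (h35 q V hV M R hM hR).1
      simpa using this
    | succ j ih =>
      intro hj
      have hS := ih (by omega)
      obtain ⟨a0, Rj, C', -, b2, b3, -, -, b6, -⟩ := hcmp j (by omega) hS
      refine b6 ⟨|(N : ℝ) / (2 * q)| + |C'|, ?_⟩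
      have hjq : (j : ℝ) + 2 ≤ q := by exact_mod_cast hj
      have hmem : Set.Ioc (0 : ℝ) E1⁻¹ ∈ 𝓝[>] (0 : ℝ) :=
        Ioc_mem_nhdsGT (inv_pos.2 (by linarith))
      filter_upwards [hmem] with e he
      have he0 : 0 < e := he.1
      have hE : E1 ≤ e⁻¹ := by
        have := inv_anti₀ he0 he.2
        rwa [inv_inv] at this
      have h1 := b2 e⁻¹ hE
      rw [inv_inv] at h1
      have hE' : 1 ≤ e⁻¹ := hE1.trans hE
      have hE0 : 0 < e⁻¹ := by linarith
      have hR0 := b3 e he0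
      have hpos : 0 < e⁻¹ ^ ((q : ℝ) - 3 / 2) := Real.rpow_pos_of_pos hE0 _
      have t1 := abs_sub_abs_le_abs_sub ((-1) ^ (j + 1) * (e⁻¹ ^ ((q : ℝ) - 3 / 2) * Rj e))
        ((N : ℝ) / (2 * q) * e)
      rw [abs_mul, abs_pow, abs_neg, abs_one, one_pow, one_mul, abs_mul,
        abs_of_pos hpos, abs_of_nonneg hR0, abs_mul, abs_of_pos he0] at t1
      have t2 : e ≤ e⁻¹ ^ ((q : ℝ) - 5 / 2 - j) := by
        have : e = e⁻¹ ^ (-1 : ℝ) := by rw [Real.rpow_neg_one, inv_inv]
        calc e = e⁻¹ ^ (-1 : ℝ) := this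
          _ ≤ _ := Real.rpow_le_rpow_of_exponent_le hE' (by linarith)
      have t3 : e⁻¹ ^ ((q : ℝ) - 3 / 2) * Rj e ≤
          (|(N : ℝ) / (2 * q)| + |C'|) * e⁻¹ ^ ((q : ℝ) - 5 / 2 - j) := by
        have u1 : |(N : ℝ) / (2 * q)| * e ≤ |(N : ℝ) / (2 * q)| * e⁻¹ ^ ((q : ℝ) - 5 / 2 - j) :=
          mul_le_mul_of_nonneg_left t2 (abs_nonneg _)
        have u2 : C' * e⁻¹ ^ ((q : ℝ) - 5 / 2 - j) ≤ |C'| * e⁻¹ ^ ((q : ℝ) - 5 / 2 - j) :=
          mul_le_mul_of_nonneg_right (le_abs_self _) (Real.rpow_nonneg hE0.le _)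
        rw [add_mul]; linarith
      have t4 : e⁻¹ ^ ((q : ℝ) - 5 / 2 - j) = e⁻¹ ^ ((q : ℝ) - 3 / 2) * e ^ (j + 1) := by
        have : (q : ℝ) - 5 / 2 - j = ((q : ℝ) - 3 / 2) - ((j + 1 : ℕ) : ℝ) := by
          push_cast; ring
        rw [this, Real.rpow_sub hE0, Real.rpow_natCast, inv_pow]
        field_simp
      rw [t4] at t3
      have t5 : e⁻¹ ^ ((q : ℝ) - 3 / 2) * Rj e ≤ e⁻¹ ^ ((q : ℝ) - 3 / 2) *
          ((|(N : ℝ) / (2 * q)| + |C'|) * e ^ (j + 1)) := by
        calc _ ≤ _ := t3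
          _ = _ := by ring
      exact le_of_mul_le_mul_left t5 hpos
  -- the final stage
  obtain ⟨j, rfl⟩ : ∃ j, q = j + 1 := ⟨q - 1, by omega⟩
  obtain ⟨a0, Rj, C', b1, b2, b3, -, b5, -, b7⟩ := hcmp j (by omega) (hboot j (by omega))
  have hexp : (((j + 1 : ℕ) : ℝ)) - 5 / 2 - j = -(3 / 2) := by push_cast; ring
  rw [hexp] at b2
  refine ⟨?_, ?_⟩
  · have hNq : (0 : ℝ) ≤ (N : ℝ) / (2 * ((j + 1 : ℕ) : ℝ)) := by positivity
    have hzero : (N : ℝ) / (2 * ((j + 1 : ℕ) : ℝ)) ≤ 0 := by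
      rcases hcase with hodd | hH
      · -- odd `q`
        have heven : Even j := by
          rcases Nat.even_or_odd j with h | h
          · exact h
          · exact absurd hodd (by simpa using h.add_one)
        have hb : ∀ E ≥ E1, (N : ℝ) / (2 * ((j + 1 : ℕ) : ℝ)) ≤ |C'| * E ^ (-(1 / 2) : ℝ) := by
          intro E hE
          have hE' : 1 ≤ E := hE1.trans hE
          have hE0 : 0 < E := by linarith
          have h1 := b2 E hE
          have hs : (-1 : ℝ) ^ (j + 1) = -1 := (heven.add_one).neg_one_pow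
          rw [hs] at h1
          have hR0 : 0 ≤ E ^ (((j + 1 : ℕ) : ℝ) - 3 / 2) * Rj E⁻¹ :=
            mul_nonneg (Real.rpow_nonneg hE0.le _) (b3 _ (inv_pos.2 hE0))
          have h2 := (abs_le.1 h1).1
          have h3 : (N : ℝ) / (2 * ((j + 1 : ℕ) : ℝ)) * E⁻¹ ≤ |C'| * E ^ (-(3 / 2) : ℝ) := by
            have u2 : C' * E ^ (-(3 / 2) : ℝ) ≤ |C'| * E ^ (-(3 / 2) : ℝ) :=
              mul_le_mul_of_nonneg_right (le_abs_self _) (Real.rpow_nonneg hE0.le _)
            linarith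
          have h4 : E ^ (-(3 / 2) : ℝ) = E ^ (-(1 / 2) : ℝ) * E⁻¹ := by
            rw [← Real.rpow_neg_one E, ← Real.rpow_add hE0]; congr 1; norm_num
          rw [h4, ← mul_assoc] at h3
          exact le_of_mul_le_mul_right h3 (inv_pos.2 hE0)
        have hlim : Tendsto (fun E : ℝ => |C'| * E ^ (-(1 / 2) : ℝ)) atTop (𝓝 (|C'| * 0)) :=
          (tendsto_rpow_neg_atTop (by norm_num)).const_mul _
        rw [mul_zero] at hlim
        exact ge_of_tendsto hlim (by filter_upwards [eventually_ge_atTop E1] with E hE using hb E hE)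
      · -- more regularity
        have hH' : HS (j + 1) V (2 * (j : ℝ) + 1) := by
          have : (2 : ℝ) * ((j + 1 : ℕ) : ℝ) - 1 = 2 * (j : ℝ) + 1 := by push_cast; ring
          rw [this] at hH; exact hH
        have hl := (b7 hH').comp tendsto_inv_atTop_nhdsGT_zero
        have hl1 : Tendsto (fun E : ℝ => Rj E⁻¹ / (E⁻¹) ^ ((j : ℝ) + 1 / 2)) atTop (𝓝 0) := hl
        have hb : ∀ E ≥ E1, (N : ℝ) / (2 * ((j + 1 : ℕ) : ℝ)) ≤
            |Rj E⁻¹ / (E⁻¹) ^ ((j : ℝ) + 1 / 2)| + |C'| * E ^ (-(1 / 2) : ℝ) := by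
          intro E hE
          have hE' : 1 ≤ E := hE1.trans hE
          have hE0 : 0 < E := by linarith
          have h1 := b2 E hE
          have t1 := abs_sub_abs_le_abs_sub ((N : ℝ) / (2 * ((j + 1 : ℕ) : ℝ)) * E⁻¹)
            ((-1) ^ (j + 1) * (E ^ (((j + 1 : ℕ) : ℝ) - 3 / 2) * Rj E⁻¹))
          rw [abs_sub_comm] at t1
          have e1 : |(-1) ^ (j + 1) * (E ^ (((j + 1 : ℕ) : ℝ) - 3 / 2) * Rj E⁻¹)| =
              |Rj E⁻¹ / (E⁻¹) ^ ((j : ℝ) + 1 / 2)| * E⁻¹ := by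
            rw [abs_mul, abs_pow, abs_neg, abs_one, one_pow, one_mul, abs_mul, abs_div,
              abs_of_pos (Real.rpow_pos_of_pos hE0 _),
              abs_of_pos (Real.rpow_pos_of_pos (inv_pos.2 hE0) _), Real.inv_rpow hE0.le]
            have e2 : ((j + 1 : ℕ) : ℝ) - 3 / 2 = ((j : ℝ) + 1 / 2) + (-1) := by
              push_cast; ring
            rw [e2, Real.rpow_add hE0, Real.rpow_neg_one]
            field_simp
          have e3 : |(N : ℝ) / (2 * ((j + 1 : ℕ) : ℝ)) * E⁻¹| =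
              (N : ℝ) / (2 * ((j + 1 : ℕ) : ℝ)) * E⁻¹ :=
            abs_of_nonneg (mul_nonneg hNq (inv_pos.2 hE0).le)
          have u2 : C' * E ^ (-(3 / 2) : ℝ) ≤ |C'| * E ^ (-(3 / 2) : ℝ) :=
            mul_le_mul_of_nonneg_right (le_abs_self _) (Real.rpow_nonneg hE0.le _)
          have h4 : E ^ (-(3 / 2) : ℝ) = E ^ (-(1 / 2) : ℝ) * E⁻¹ := by
            rw [← Real.rpow_neg_one E, ← Real.rpow_add hE0]; congr 1; norm_num
          rw [e1, e3] at t1
          have h5 : (N : ℝ) / (2 * ((j + 1 : ℕ) : ℝ)) * E⁻¹ ≤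
              (|Rj E⁻¹ / (E⁻¹) ^ ((j : ℝ) + 1 / 2)| + |C'| * E ^ (-(1 / 2) : ℝ)) * E⁻¹ := by
            rw [add_mul, mul_assoc |C'|, ← h4]
            linarith
          exact le_of_mul_le_mul_right h5 (inv_pos.2 hE0)
        have hlim : Tendsto (fun E : ℝ => |C'| * E ^ (-(1 / 2) : ℝ)) atTop (𝓝 (|C'| * 0)) :=
          (tendsto_rpow_neg_atTop (by norm_num)).const_mul _
        rw [mul_zero] at hlim
        have hl2 : Tendsto (fun E : ℝ => |Rj E⁻¹ / (E⁻¹) ^ ((j : ℝ) + 1 / 2)|) atTop (𝓝 0) := by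
          simpa using hl1.abs
        have hl3 := hl2.add hlim
        rw [add_zero] at hl3
        exact ge_of_tendsto hl3 (by filter_upwards [eventually_ge_atTop E1] with E hE using hb E hE)
    have h6 : (N : ℝ) / (2 * ((j + 1 : ℕ) : ℝ)) = 0 := le_antisymm hzero hNq
    have h7 : (N : ℝ) = 0 := by
      rcases div_eq_zero_iff.1 h6 with h | h
      · exact h
      · exfalso
        have : (0 : ℝ) < 2 * ((j + 1 : ℕ) : ℝ) := by positivity
        linarith
    exact_mod_cast h7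
  · intro hα
    apply b5
    rw [b1, hα 0 (by omega), neg_zero]

end Pool.Agent.Work.MP_f2af60_mp

end

section

/-!
# MP_f2af60_mp, item Q7: growth and Riesz composition in `SpQ`
-/

namespace Pool.Agent.Work.MP_f2af60_mp

open MeasureTheory Metric Set

section riesz

variable {K : Type} [MetricSpace K] [CompactSpace K] [MeasurableSpace K] [BorelSpace K]
  {q : ℕ} {μ : Measure K} {C : ℝ}

lemma rz_meas (x : K) (b : ℕ) : Measurable (fun y => ((dist x y) ^ b)⁻¹) :=
  (((continuous_const.dist continuous_id).measurable).pow_const b).inv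

lemma rz_meas' (y : K) (b : ℕ) : Measurable (fun x => ((dist x y) ^ b)⁻¹) :=
  (((continuous_id.dist continuous_const).measurable).pow_const b).inv

lemma rz_ae_pos (h : SpQ q μ C) (x : K) : ∀ᵐ y ∂μ, 0 < dist x y := by
  haveI := h.noat
  filter_upwards [Measure.ae_ne μ x] with y hy
  exact dist_pos.mpr (Ne.symm hy)

lemma rz_bound {d e : ℝ} (hd : 0 < d) (hde : d ≤ e) {b N : ℕ} (hb : b ≤ N) :
    (d ^ b)⁻¹ ≤ e ^ (N - b) * (d ^ N)⁻¹ := by
  have h1 : (d ^ b)⁻¹ = d ^ (N - b) * (d ^ N)⁻¹ := by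
    have : d ^ N = d ^ (N - b) * d ^ b := by
      rw [← pow_add]; congr 1; omega
    rw [this]
    field_simp
  rw [h1]
  gcongr

lemma rz_diam (x y : K) : dist x y ≤ diam (univ : Set K) + 1 := by
  have h := dist_le_diam_of_mem (isCompact_univ.isBounded) (mem_univ x) (mem_univ y)
  linarith

lemma rz_int (h : SpQ q μ C) (x : K) {b : ℕ} (hb : b ≤ 2 * q + 2) :
    Integrable (fun y => ((dist x y) ^ b)⁻¹) μ := by
  have h1 := (h.int x).const_mul ((diam (univ : Set K) + 1) ^ (2 * q + 2 - b))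
  refine h1.mono' (rz_meas x b).aestronglyMeasurable ?_
  filter_upwards [rz_ae_pos h x] with y hy
  rw [Real.norm_of_nonneg (by positivity)]
  exact rz_bound hy (rz_diam x y) hb

lemma rz_ball (h : SpQ q μ C) (x : K) {e : ℝ} (he : 0 < e) {b : ℕ} (hb : b ≤ 2 * q + 2) :
    ∫ y in ball x e, ((dist x y) ^ b)⁻¹ ∂μ ≤ (|C| + 1) * e ^ (2 * q + 3 - b) := by
  have h1 : ∫ y in ball x e, ((dist x y) ^ b)⁻¹ ∂μ ≤
      ∫ y in ball x e, e ^ (2 * q + 2 - b) * ((dist x y) ^ (2 * q + 2))⁻¹ ∂μ := by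
    refine integral_mono_ae (rz_int h x hb).integrableOn
      ((h.int x).const_mul _).integrableOn ?_
    have h2 := ae_restrict_mem (μ := μ) (measurableSet_ball (x := x) (ε := e))
    filter_upwards [h2, ae_restrict_of_ae (rz_ae_pos h x)] with y hy hy2
    rw [mem_ball, dist_comm] at hy
    exact rz_bound hy2 hy.le hb
  rw [integral_const_mul] at h1
  refine h1.trans ?_
  have h3 := h.small x e he
  have h4 : C * e ≤ (|C| + 1) * e := by
    have : C ≤ |C| + 1 := by linarith [le_abs_self C]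
    gcongr
  calc e ^ (2 * q + 2 - b) * ∫ y in ball x e, ((dist x y) ^ (2 * q + 2))⁻¹ ∂μ
      ≤ e ^ (2 * q + 2 - b) * ((|C| + 1) * e) := by
        gcongr
        exact h3.trans h4
    _ = (|C| + 1) * e ^ (2 * q + 3 - b) := by
        have : 2 * q + 3 - b = (2 * q + 2 - b) + 1 := by omega
        rw [this, pow_succ]
        ring

lemma rz_all (h : SpQ q μ C) (x : K) {b : ℕ} (hb : b ≤ 2 * q + 2) :
    ∫ y, ((dist x y) ^ b)⁻¹ ∂μ ≤ (|C| + 1) * (diam (univ : Set K) + 2) ^ (2 * q + 3) := by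
  have hd : (0 : ℝ) ≤ diam (univ : Set K) := diam_nonneg
  have h1 := rz_ball h x (e := diam (univ : Set K) + 2) (by linarith) hb
  have h2 : ball x (diam (univ : Set K) + 2) = univ := by
    ext y
    simp only [mem_ball, mem_univ, iff_true]
    have := rz_diam y x
    linarith
  rw [h2, Measure.restrict_univ] at h1
  refine h1.trans ?_
  gcongr
  · linarith
  · omega

/-- The tail estimate: pointwise dyadic bound. -/
lemma rz_dyadic {d r : ℝ} (hr : 0 < r) (hd : r ≤ d) {n : ℕ} (hn : d < 2 ^ n * r) :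
    (d ^ 2)⁻¹ ≤ ∑ k ∈ Finset.range n, (if d < 2 ^ (k + 1) * r then ((2 ^ k * r) ^ 2)⁻¹ else 0) := by
  have hex : ∃ k, d < 2 ^ k * r := ⟨n, hn⟩
  classical
  set k0 := Nat.find hex with hk0
  have h1 : d < 2 ^ k0 * r := Nat.find_spec hex
  have h2 : k0 ≤ n := Nat.find_min' hex hn
  have h3 : k0 ≠ 0 := by
    intro h0
    rw [h0] at h1
    simp at h1
    linarith
  obtain ⟨j, hj⟩ := Nat.exists_eq_succ_of_ne_zero h3
  have h4 : ¬ d < 2 ^ j * r := Nat.find_min hex (by omega)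
  push Not at h4
  have hjn : j ∈ Finset.range n := by simp; omega
  have h5 : (d ^ 2)⁻¹ ≤ (if d < 2 ^ (j + 1) * r then ((2 ^ j * r) ^ 2)⁻¹ else 0) := by
    rw [if_pos (by rw [hj] at h1; exact h1)]
    gcongr
  refine h5.trans ?_
  refine Finset.single_le_sum (f := fun k => (if d < 2 ^ (k + 1) * r then ((2 ^ k * r) ^ 2)⁻¹ else 0))
    (fun k _ => ?_) hjn
  split_ifs <;> positivity

lemma rz_tail_int (h : SpQ q μ C) (x : K) {r : ℝ} (hr : 0 < r) (c : ℕ) :
    Integrable ({z | r ≤ dist x z}.indicator (fun z => ((dist x z) ^ c)⁻¹)) μ := by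
  haveI := h.fin
  have hm : MeasurableSet {z : K | r ≤ dist x z} :=
    measurableSet_le measurable_const (continuous_const.dist continuous_id).measurable
  refine Integrable.mono' (integrable_const ((r ^ c)⁻¹))
    ((rz_meas x c).indicator hm).aestronglyMeasurable ?_
  refine Filter.Eventually.of_forall fun z => ?_
  by_cases hz : r ≤ dist x z
  · rw [indicator_of_mem (by exact hz), Real.norm_of_nonneg (by positivity)]
    gcongr
  · rw [indicator_of_notMem (by exact hz)]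
    simp
    positivity

lemma rz_geom (n : ℕ) : ∑ k ∈ Finset.range n, ((2 : ℝ) ^ k)⁻¹ ≤ 2 := by
  have h : ∀ n : ℕ, ∑ k ∈ Finset.range n, ((2 : ℝ) ^ k)⁻¹ = 2 - 2 * ((2 : ℝ) ^ n)⁻¹ := by
    intro n
    induction n with
    | zero => simp
    | succ n ih =>
      rw [Finset.sum_range_succ, ih, pow_succ]
      field_simp
      ring
  rw [h]
  have : (0 : ℝ) < ((2 : ℝ) ^ n)⁻¹ := by positivity
  linarith

lemma rz_tail (h : SpQ q μ C) (x : K) {r : ℝ} (hr : 0 < r) {c : ℕ} (hc : 2 * q + 4 ≤ c) :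
    ∫ z, {z | r ≤ dist x z}.indicator (fun z => ((dist x z) ^ c)⁻¹) z ∂μ ≤
      4 * (|C| + 1) * (r ^ (c - (2 * q + 3)))⁻¹ := by
  obtain ⟨n, hn⟩ : ∃ n : ℕ, diam (univ : Set K) + 1 < 2 ^ n * r := by
    obtain ⟨n, hn⟩ := pow_unbounded_of_one_lt ((diam (univ : Set K) + 1) / r) (one_lt_two)
    exact ⟨n, by rwa [div_lt_iff₀ hr] at hn⟩
  set N := 2 * q + 2 with hN
  have hpt : ∀ z, {z | r ≤ dist x z}.indicator (fun z => ((dist x z) ^ c)⁻¹) z ≤
      ∑ k ∈ Finset.range n, ((r ^ (c - N - 2))⁻¹ * ((2 ^ k * r) ^ 2)⁻¹) *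
        (ball x (2 ^ (k + 1) * r)).indicator (fun z => ((dist x z) ^ N)⁻¹) z := by
    intro z
    by_cases hz : r ≤ dist x z
    · rw [indicator_of_mem (by exact hz)]
      have hz0 : 0 < dist x z := lt_of_lt_of_le hr hz
      have e1 : ((dist x z) ^ c)⁻¹ =
          ((dist x z) ^ (c - N - 2))⁻¹ * ((dist x z) ^ 2)⁻¹ * ((dist x z) ^ N)⁻¹ := by
        rw [← mul_inv, ← mul_inv, ← pow_add, ← pow_add]
        congr 2
        omega
      rw [e1]
      have e2 := rz_dyadic hr hz (lt_of_le_of_lt (rz_diam x z) hn)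
      have e3 : ((dist x z) ^ (c - N - 2))⁻¹ ≤ (r ^ (c - N - 2))⁻¹ := by gcongr
      calc ((dist x z) ^ (c - N - 2))⁻¹ * ((dist x z) ^ 2)⁻¹ * ((dist x z) ^ N)⁻¹
          ≤ (r ^ (c - N - 2))⁻¹ * (∑ k ∈ Finset.range n,
            (if dist x z < 2 ^ (k + 1) * r then ((2 ^ k * r) ^ 2)⁻¹ else 0)) *
              ((dist x z) ^ N)⁻¹ := by gcongr
        _ = _ := by
          rw [Finset.mul_sum, Finset.sum_mul]
          refine Finset.sum_congr rfl fun k _ => ?_
          by_cases hk : dist x z < 2 ^ (k + 1) * r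
          · rw [if_pos hk, indicator_of_mem (by rw [mem_ball, dist_comm]; exact hk)]
          · rw [if_neg hk, indicator_of_notMem (by rw [mem_ball, dist_comm]; exact hk)]
            ring
    · rw [indicator_of_notMem (by exact hz)]
      refine Finset.sum_nonneg fun k _ => ?_
      refine mul_nonneg (by positivity) (indicator_nonneg (fun z _ => by positivity) z)
  have hint : ∀ k ∈ Finset.range n, Integrable (fun z => ((r ^ (c - N - 2))⁻¹ * ((2 ^ k * r) ^ 2)⁻¹) *
        (ball x (2 ^ (k + 1) * r)).indicator (fun z => ((dist x z) ^ N)⁻¹) z) μ := by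
    intro k _
    exact (((h.int x).indicator measurableSet_ball)).const_mul _
  refine (integral_mono (rz_tail_int h x hr c) (integrable_finsetSum _ hint) hpt).trans ?_
  rw [integral_finsetSum _ hint]
  have hk : ∀ k ∈ Finset.range n, ∫ z, ((r ^ (c - N - 2))⁻¹ * ((2 ^ k * r) ^ 2)⁻¹) *
        (ball x (2 ^ (k + 1) * r)).indicator (fun z => ((dist x z) ^ N)⁻¹) z ∂μ ≤
        (2 * (|C| + 1) * (r ^ (c - (2 * q + 3)))⁻¹) * ((2 : ℝ) ^ k)⁻¹ := by
    intro k _
    rw [integral_const_mul, integral_indicator measurableSet_ball]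
    have h1 := h.small x (2 ^ (k + 1) * r) (by positivity)
    have h2 : C * (2 ^ (k + 1) * r) ≤ (|C| + 1) * (2 ^ (k + 1) * r) := by
      have : C ≤ |C| + 1 := by linarith [le_abs_self C]
      gcongr
    calc (r ^ (c - N - 2))⁻¹ * ((2 ^ k * r) ^ 2)⁻¹ *
          ∫ z in ball x (2 ^ (k + 1) * r), ((dist x z) ^ N)⁻¹ ∂μ
        ≤ (r ^ (c - N - 2))⁻¹ * ((2 ^ k * r) ^ 2)⁻¹ * ((|C| + 1) * (2 ^ (k + 1) * r)) := by
          gcongr
          exact h1.trans h2
      _ = (2 * (|C| + 1) * (r ^ (c - (2 * q + 3)))⁻¹) * ((2 : ℝ) ^ k)⁻¹ := by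
          have e1 : c - (2 * q + 3) = (c - N - 2) + 1 := by omega
          rw [e1, pow_succ r, pow_succ (2 : ℝ) k]
          field_simp
  refine (Finset.sum_le_sum hk).trans ?_
  rw [← Finset.mul_sum]
  have hg := rz_geom n
  calc (2 * (|C| + 1) * (r ^ (c - (2 * q + 3)))⁻¹) * ∑ k ∈ Finset.range n, ((2 : ℝ) ^ k)⁻¹
      ≤ (2 * (|C| + 1) * (r ^ (c - (2 * q + 3)))⁻¹) * 2 := by gcongr
    _ = _ := by ring

lemma rz_mul_le {u v : ℝ} (hu : 0 < u) (hv : 0 < v) (a b : ℕ) :
    (u ^ a)⁻¹ * (v ^ b)⁻¹ ≤ (u ^ (a + b))⁻¹ + (v ^ (a + b))⁻¹ := by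
  rcases le_total u v with h | h
  · have : (v ^ b)⁻¹ ≤ (u ^ b)⁻¹ := by gcongr
    calc (u ^ a)⁻¹ * (v ^ b)⁻¹ ≤ (u ^ a)⁻¹ * (u ^ b)⁻¹ := by gcongr
      _ = (u ^ (a + b))⁻¹ := by rw [← mul_inv, ← pow_add]
      _ ≤ _ := by
        have : (0 : ℝ) ≤ (v ^ (a + b))⁻¹ := by positivity
        linarith
  · have : (u ^ a)⁻¹ ≤ (v ^ a)⁻¹ := by gcongr
    calc (u ^ a)⁻¹ * (v ^ b)⁻¹ ≤ (v ^ a)⁻¹ * (v ^ b)⁻¹ := by gcongr
      _ = (v ^ (a + b))⁻¹ := by rw [← mul_inv, ← pow_add]
      _ ≤ _ := by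
        have : (0 : ℝ) ≤ (u ^ (a + b))⁻¹ := by positivity
        linarith

/-- The pointwise bound behind the composition. -/
lemma rz_comp_pt (x y z : K) (hρ : 0 < dist x y) {a b : ℕ} :
    ((dist x z) ^ a)⁻¹ * ((dist z y) ^ b)⁻¹ ≤
      ((dist x y / 2) ^ b)⁻¹ * (ball x (dist x y / 2)).indicator (fun z => ((dist x z) ^ a)⁻¹) z +
      ((dist x y / 2) ^ a)⁻¹ * (ball y (dist x y / 2)).indicator (fun z => ((dist y z) ^ b)⁻¹) z +
      ({z | dist x y / 2 ≤ dist x z}.indicator (fun z => ((dist x z) ^ (a + b))⁻¹) z +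
      {z | dist x y / 2 ≤ dist y z}.indicator (fun z => ((dist y z) ^ (a + b))⁻¹) z) := by
  have hr : 0 < dist x y / 2 := by positivity
  have n1 : 0 ≤ (ball x (dist x y / 2)).indicator (fun z => ((dist x z) ^ a)⁻¹) z :=
    indicator_nonneg (fun z _ => by positivity) z
  have n2 : 0 ≤ (ball y (dist x y / 2)).indicator (fun z => ((dist y z) ^ b)⁻¹) z :=
    indicator_nonneg (fun z _ => by positivity) z
  have n3 : 0 ≤ {z | dist x y / 2 ≤ dist x z}.indicator (fun z => ((dist x z) ^ (a + b))⁻¹) z :=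
    indicator_nonneg (fun z _ => by positivity) z
  have n4 : 0 ≤ {z | dist x y / 2 ≤ dist y z}.indicator (fun z => ((dist y z) ^ (a + b))⁻¹) z :=
    indicator_nonneg (fun z _ => by positivity) z
  have m1 : 0 ≤ ((dist x y / 2) ^ b)⁻¹ *
      (ball x (dist x y / 2)).indicator (fun z => ((dist x z) ^ a)⁻¹) z := by positivity
  have m2 : 0 ≤ ((dist x y / 2) ^ a)⁻¹ *
      (ball y (dist x y / 2)).indicator (fun z => ((dist y z) ^ b)⁻¹) z := by positivity
  have htri : dist x y ≤ dist x z + dist y z := by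
    rw [dist_comm y z]; exact dist_triangle x z y
  rw [dist_comm z y]
  by_cases h1 : dist x z < dist x y / 2
  · have hv : dist x y / 2 ≤ dist y z := by linarith
    have e1 : (ball x (dist x y / 2)).indicator (fun z => ((dist x z) ^ a)⁻¹) z =
        ((dist x z) ^ a)⁻¹ := indicator_of_mem (by rw [mem_ball, dist_comm]; exact h1) _
    have e2 : ((dist y z) ^ b)⁻¹ ≤ ((dist x y / 2) ^ b)⁻¹ := by gcongr
    have e3 : ((dist x z) ^ a)⁻¹ * ((dist y z) ^ b)⁻¹ ≤
        ((dist x y / 2) ^ b)⁻¹ *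
          (ball x (dist x y / 2)).indicator (fun z => ((dist x z) ^ a)⁻¹) z := by
      rw [e1, mul_comm]
      gcongr
    linarith
  · push Not at h1
    by_cases h2 : dist y z < dist x y / 2
    · have e1 : (ball y (dist x y / 2)).indicator (fun z => ((dist y z) ^ b)⁻¹) z =
          ((dist y z) ^ b)⁻¹ := indicator_of_mem (by rw [mem_ball, dist_comm]; exact h2) _
      have e2 : ((dist x z) ^ a)⁻¹ ≤ ((dist x y / 2) ^ a)⁻¹ := by gcongr
      have e3 : ((dist x z) ^ a)⁻¹ * ((dist y z) ^ b)⁻¹ ≤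
          ((dist x y / 2) ^ a)⁻¹ *
            (ball y (dist x y / 2)).indicator (fun z => ((dist y z) ^ b)⁻¹) z := by
        rw [e1]
        gcongr
      linarith
    · push Not at h2
      have e1 : {z | dist x y / 2 ≤ dist x z}.indicator (fun z => ((dist x z) ^ (a + b))⁻¹) z =
          ((dist x z) ^ (a + b))⁻¹ := indicator_of_mem (by exact h1) _
      have e2 : {z | dist x y / 2 ≤ dist y z}.indicator (fun z => ((dist y z) ^ (a + b))⁻¹) z =
          ((dist y z) ^ (a + b))⁻¹ := indicator_of_mem (by exact h2) _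
      have e3 := rz_mul_le (lt_of_lt_of_le hr h1) (lt_of_lt_of_le hr h2) a b
      rw [← e1, ← e2] at e3
      linarith

lemma rz_comp (h : SpQ q μ C) {b : ℕ} (hb3 : 3 ≤ b) (hb : b ≤ 2 * q + 2)
    (x y : K) (hxy : x ≠ y) :
    Integrable (fun z => ((dist x z) ^ (2 * q + 1))⁻¹ * ((dist z y) ^ b)⁻¹) μ ∧
      ∫ z, ((dist x z) ^ (2 * q + 1))⁻¹ * ((dist z y) ^ b)⁻¹ ∂μ ≤
        (10 * (|C| + 1) * 2 ^ (2 * q + 2)) * ((dist x y) ^ (b - 2))⁻¹ := by
  have hρ : 0 < dist x y := dist_pos.mpr hxy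
  have hr : 0 < dist x y / 2 := by positivity
  set r := dist x y / 2 with hrdef
  set a := 2 * q + 1 with ha
  have hpt : ∀ z, ((dist x z) ^ a)⁻¹ * ((dist z y) ^ b)⁻¹ ≤
      (r ^ b)⁻¹ * (ball x r).indicator (fun z => ((dist x z) ^ a)⁻¹) z +
      (r ^ a)⁻¹ * (ball y r).indicator (fun z => ((dist y z) ^ b)⁻¹) z +
      ({z | r ≤ dist x z}.indicator (fun z => ((dist x z) ^ (a + b))⁻¹) z +
      {z | r ≤ dist y z}.indicator (fun z => ((dist y z) ^ (a + b))⁻¹) z) :=
    fun z => rz_comp_pt x y z hρ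
  have i1 : Integrable (fun z => (r ^ b)⁻¹ *
      (ball x r).indicator (fun z => ((dist x z) ^ a)⁻¹) z) μ :=
    ((rz_int h x (by omega)).indicator measurableSet_ball).const_mul _
  have i2 : Integrable (fun z => (r ^ a)⁻¹ *
      (ball y r).indicator (fun z => ((dist y z) ^ b)⁻¹) z) μ :=
    ((rz_int h y hb).indicator measurableSet_ball).const_mul _
  have i3 := rz_tail_int h x hr (a + b)
  have i4 := rz_tail_int h y hr (a + b)
  have i12 := i1.add i2
  have i34 := i3.add i4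
  have hsum := i12.add i34
  have hI : Integrable (fun z => ((dist x z) ^ a)⁻¹ * ((dist z y) ^ b)⁻¹) μ := by
    refine hsum.mono' ((rz_meas x a).mul (rz_meas' y b)).aestronglyMeasurable ?_
    refine Filter.Eventually.of_forall fun z => ?_
    rw [Real.norm_of_nonneg (by positivity)]
    exact hpt z
  refine ⟨hI, ?_⟩
  refine (integral_mono hI hsum hpt).trans ?_
  have k1 : ∫ z, ((fun z => (r ^ b)⁻¹ * (ball x r).indicator (fun z => ((dist x z) ^ a)⁻¹) z) +
      (fun z => (r ^ a)⁻¹ * (ball y r).indicator (fun z => ((dist y z) ^ b)⁻¹) z) +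
      (({z | r ≤ dist x z}.indicator (fun z => ((dist x z) ^ (a + b))⁻¹)) +
      ({z | r ≤ dist y z}.indicator (fun z => ((dist y z) ^ (a + b))⁻¹)))) z ∂μ =
      (r ^ b)⁻¹ * (∫ z in ball x r, ((dist x z) ^ a)⁻¹ ∂μ) +
      (r ^ a)⁻¹ * (∫ z in ball y r, ((dist y z) ^ b)⁻¹ ∂μ) +
      ((∫ z, {z | r ≤ dist x z}.indicator (fun z => ((dist x z) ^ (a + b))⁻¹) z ∂μ) +
      (∫ z, {z | r ≤ dist y z}.indicator (fun z => ((dist y z) ^ (a + b))⁻¹) z ∂μ)) := by
    rw [integral_add' i12 i34, integral_add' i1 i2, integral_add' i3 i4]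
    congr 2
    · rw [integral_const_mul, integral_indicator measurableSet_ball]
    · rw [integral_const_mul, integral_indicator measurableSet_ball]
  refine (le_of_eq k1).trans ?_
  have b1 := rz_ball h x hr (b := a) (by omega)
  have b2 := rz_ball h y hr (b := b) hb
  have b3 := rz_tail h x hr (c := a + b) (by omega)
  have b4 := rz_tail h y hr (c := a + b) (by omega)
  have hC : 0 < |C| + 1 := by positivity
  have c1 : (r ^ b)⁻¹ * (∫ z in ball x r, ((dist x z) ^ a)⁻¹ ∂μ) ≤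
      (|C| + 1) * (r ^ (b - 2))⁻¹ := by
    calc (r ^ b)⁻¹ * (∫ z in ball x r, ((dist x z) ^ a)⁻¹ ∂μ)
        ≤ (r ^ b)⁻¹ * ((|C| + 1) * r ^ (2 * q + 3 - a)) := by gcongr
      _ = (|C| + 1) * (r ^ (b - 2))⁻¹ := by
        have e1 : 2 * q + 3 - a = 2 := by omega
        have e2 : r ^ b = r ^ (b - 2) * r ^ 2 := by rw [← pow_add]; congr 1; omega
        rw [e1, e2]
        field_simp
  have c2 : (r ^ a)⁻¹ * (∫ z in ball y r, ((dist y z) ^ b)⁻¹ ∂μ) ≤
      (|C| + 1) * (r ^ (b - 2))⁻¹ := by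
    calc (r ^ a)⁻¹ * (∫ z in ball y r, ((dist y z) ^ b)⁻¹ ∂μ)
        ≤ (r ^ a)⁻¹ * ((|C| + 1) * r ^ (2 * q + 3 - b)) := by gcongr
      _ = (|C| + 1) * (r ^ (b - 2))⁻¹ := by
        have e2 : r ^ a = r ^ (b - 2) * r ^ (2 * q + 3 - b) := by
          rw [← pow_add]; congr 1; omega
        rw [e2]
        field_simp
  have c3 : 4 * (|C| + 1) * (r ^ (a + b - (2 * q + 3)))⁻¹ = 4 * (|C| + 1) * (r ^ (b - 2))⁻¹ := by
    have : a + b - (2 * q + 3) = b - 2 := by omega
    rw [this]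
  rw [c3] at b3 b4
  have c4 : (r ^ (b - 2))⁻¹ ≤ 2 ^ (2 * q + 2) * ((dist x y) ^ (b - 2))⁻¹ := by
    have e1 : (r ^ (b - 2))⁻¹ = 2 ^ (b - 2) * ((dist x y) ^ (b - 2))⁻¹ := by
      rw [hrdef, div_pow, inv_div]
      field_simp
    rw [e1]
    gcongr
    · norm_num
    · omega
  calc _ ≤ (|C| + 1) * (r ^ (b - 2))⁻¹ + (|C| + 1) * (r ^ (b - 2))⁻¹ +
        (4 * (|C| + 1) * (r ^ (b - 2))⁻¹ + 4 * (|C| + 1) * (r ^ (b - 2))⁻¹) := by
        linarith
    _ = 10 * (|C| + 1) * (r ^ (b - 2))⁻¹ := by ring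
    _ ≤ 10 * (|C| + 1) * (2 ^ (2 * q + 2) * ((dist x y) ^ (b - 2))⁻¹) := by gcongr
    _ = _ := by ring

lemma rz_one_pt (x y z : K) :
    ((dist x z) ^ (2 * q + 1))⁻¹ * (dist z y)⁻¹ ≤
      ((dist x z) ^ (2 * q + 2))⁻¹ + ((dist y z) ^ (2 * q + 2))⁻¹ := by
  rw [dist_comm z y]
  by_cases h1 : dist x z = 0
  · rw [h1]; simp
  · by_cases h2 : dist y z = 0
    · rw [h2]; simp
    · have h1' : 0 < dist x z := lt_of_le_of_ne dist_nonneg (Ne.symm h1)
      have h2' : 0 < dist y z := lt_of_le_of_ne dist_nonneg (Ne.symm h2)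
      have := rz_mul_le h1' h2' (2 * q + 1) 1
      simpa using this

lemma rz_one_int (h : SpQ q μ C) (x y : K) :
    Integrable (fun z => ((dist x z) ^ (2 * q + 1))⁻¹ * (dist z y)⁻¹) μ := by
  have hm := (rz_meas x (2 * q + 1)).mul (rz_meas' y 1)
  simp only [pow_one] at hm
  refine ((h.int x).add (h.int y)).mono' hm.aestronglyMeasurable ?_
  refine Filter.Eventually.of_forall fun z => ?_
  rw [Real.norm_of_nonneg (by positivity)]
  exact rz_one_pt x y z

/-- Q7: growth and Riesz composition in `SpQ`. -/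
theorem rieszQ : RieszQ := by
  intro q hq K _ _ _ _ μ C h
  have hd : (0 : ℝ) ≤ diam (univ : Set K) := diam_nonneg
  have hC : 0 < |C| + 1 := by positivity
  set R := diam (univ : Set K) + 2 with hR
  have hR1 : 1 ≤ R ^ (2 * q + 3) := one_le_pow₀ (by linarith)
  have h2N : (1 : ℝ) ≤ 2 ^ (2 * q + 2) := one_le_pow₀ (by norm_num)
  set C1 := (|C| + 1) * (2 * R ^ (2 * q + 3) + 10 * 2 ^ (2 * q + 2)) with hC1
  have hC1a : (|C| + 1) * (2 * R ^ (2 * q + 3)) ≤ C1 := by
    rw [hC1]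
    gcongr
    linarith
  have hC1b : 10 * (|C| + 1) * 2 ^ (2 * q + 2) ≤ C1 := by
    rw [hC1]
    nlinarith
  have hC1c : 4 * (|C| + 1) ≤ C1 := by
    nlinarith
  refine ⟨C1, by nlinarith, ?_, ?_, ?_, ?_, ?_⟩
  · intro x b hb
    refine ⟨rz_int h x hb, (rz_all h x hb).trans ?_⟩
    nlinarith
  · intro x e he b hb
    refine (rz_ball h x he hb).trans ?_
    have : (|C| + 1) ≤ C1 := by linarith
    gcongr
  · intro b hb3 hb x y hxy
    obtain ⟨h1, h2⟩ := rz_comp h hb3 hb x y hxy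
    refine ⟨h1, h2.trans ?_⟩
    gcongr
  · intro x y
    refine ⟨rz_one_int h x y, ?_⟩
    have h1 := integral_mono (rz_one_int h x y) ((h.int x).add (h.int y)) (rz_one_pt x y)
    refine h1.trans ?_
    have h2 : ∫ z, ((fun z => ((dist x z) ^ (2 * q + 2))⁻¹) +
        fun z => ((dist y z) ^ (2 * q + 2))⁻¹) z ∂μ = ∫ z, ((dist x z) ^ (2 * q + 2))⁻¹ ∂μ +
          ∫ z, ((dist y z) ^ (2 * q + 2))⁻¹ ∂μ := integral_add' (h.int x) (h.int y)
    refine (le_of_eq h2).trans ?_
    have h3 := rz_all h x (le_refl (2 * q + 2))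
    have h4 := rz_all h y (le_refl (2 * q + 2))
    linarith
  · intro e he x0 x y hx hy
    have h1 := setIntegral_mono (μ := μ) (s := ball x0 e) (rz_one_int h x y).integrableOn
      ((h.int x).add (h.int y)).integrableOn (rz_one_pt x y)
    refine h1.trans ?_
    have h2 : ∫ z in ball x0 e, ((fun z => ((dist x z) ^ (2 * q + 2))⁻¹) +
        fun z => ((dist y z) ^ (2 * q + 2))⁻¹) z ∂μ =
          ∫ z in ball x0 e, ((dist x z) ^ (2 * q + 2))⁻¹ ∂μ +
          ∫ z in ball x0 e, ((dist y z) ^ (2 * q + 2))⁻¹ ∂μ :=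
      integral_add' (h.int x).integrableOn (h.int y).integrableOn
    refine (le_of_eq h2).trans ?_
    have h3 : ∀ w : K, dist w x0 < e → ∫ z in ball x0 e, ((dist w z) ^ (2 * q + 2))⁻¹ ∂μ ≤
        (|C| + 1) * (2 * e) := by
      intro w hw
      have hsub : ball x0 e ⊆ ball w (2 * e) := by
        intro z hz
        rw [mem_ball] at hz ⊢
        have := dist_triangle z x0 w
        rw [dist_comm x0 w] at this
        linarith
      refine (setIntegral_mono_set (h.int w).integrableOn ?_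
        (Filter.Eventually.of_forall hsub)).trans ?_
      · exact Filter.Eventually.of_forall fun z => by positivity
      · refine (h.small w (2 * e) (by positivity)).trans ?_
        have : C ≤ |C| + 1 := by linarith [le_abs_self C]
        gcongr
    have h4 := h3 x hx
    have h5 := h3 y hy
    calc _ ≤ (|C| + 1) * (2 * e) + (|C| + 1) * (2 * e) := add_le_add h4 h5
      _ = 4 * (|C| + 1) * e := by ring
      _ ≤ C1 * e := by gcongr

end riesz

end Pool.Agent.Work.MP_f2af60_mp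

end

section

/-!
# MP_f2af60_mp: scaling of the chain integrals (Q34)
-/

namespace Pool.Agent.Work.MP_f2af60_mp

open MeasureTheory

lemma scal_JJ (h4 : HHFacts) (q m : ℕ) {E E' : ℝ} (hE : 0 < E) (hE' : 0 < E')
    (x : Fin (m + 1) → En q) :
    JJ q m (E * E') x = (E ^ ((q : ℝ) + 1 / 2)) ^ m * E ^ ((q : ℝ) - 1 / 2) *
      JJ q m E' (fun i => Real.sqrt E • x i) := by
  have h0 := (h4 q 0).2.2 E hE E' hE'
  have h1 := (h4 q 1).2.2 E hE E' hE'
  have e0 : (q : ℝ) + 1 / 2 - ((0 : ℕ) : ℝ) = (q : ℝ) + 1 / 2 := by simp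
  have e1 : (q : ℝ) + 1 / 2 - ((1 : ℕ) : ℝ) = (q : ℝ) - 1 / 2 := by
    push_cast
    ring
  rw [e0] at h0
  rw [e1] at h1
  unfold JJ
  rw [h1, Finset.prod_congr rfl fun i _ => h0 (x i.castSucc - x i.succ), Finset.prod_mul_distrib,
    Finset.prod_const, Finset.card_univ, Fintype.card_fin]
  simp only [smul_sub]
  ring

lemma scal_DJ (h4 : HHFacts) (q m : ℕ) {E : ℝ} (hE : 0 < E) (x : Fin (m + 1) → En q) :
    DJ q m E x = (E ^ ((q : ℝ) + 1 / 2)) ^ m * E ^ ((q : ℝ) - 1 / 2) *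
      DJ q m 1 (fun i => Real.sqrt E • x i) := by
  unfold DJ DD
  rw [Finset.mul_sum]
  refine Finset.sum_congr rfl fun i _ => ?_
  have hi : (0 : ℝ) < 1 + (i : ℝ) := by positivity
  simp only
  rw [mul_comm (1 + (i : ℝ)) E, scal_JJ h4 q m hE hi, mul_one]
  ring

lemma scal_trans (q m : ℕ) (E : ℝ) (x y : Fin (m + 1) → En q)
    (h : ∀ i j, x i - x j = y i - y j) : DJ q m E x = DJ q m E y := by
  unfold DJ DD JJ
  simp only [h]

/-- The change of variables `(x, y) ↦ (x, x + y_1, …, x + y_m)`. -/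
def scalPsi (q m : ℕ) (p : En q × (Fin m → En q)) : Fin (m + 1) → En q :=
  Fin.cons p.1 (fun i => p.1 + p.2 i)

lemma scal_measurePreserving (q m : ℕ) :
    MeasurePreserving (scalPsi q m) (volume : Measure (En q × (Fin m → En q))) volume := by
  have h1 : MeasurePreserving (fun p : En q × (Fin m → En q) => (p.1, fun i => p.1 + p.2 i))
      ((volume : Measure (En q)).prod (volume : Measure (Fin m → En q)))
      ((volume : Measure (En q)).prod (volume : Measure (Fin m → En q))) := by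
    refine (MeasurePreserving.id (volume : Measure (En q))).skew_product
      (g := fun a (y : Fin m → En q) i => a + y i) ?_ ?_
    · apply measurable_pi_lambda
      intro i
      exact measurable_fst.add ((measurable_pi_apply i).comp measurable_snd)
    · refine Filter.Eventually.of_forall fun a => ?_
      have := map_add_left_eq_self (volume : Measure (Fin m → En q)) (fun _ => a)
      exact this
  have h2 := (volume_preserving_piFinSuccAbove (fun _ : Fin (m + 1) => En q) 0).symm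
  have h3 := h2.comp h1
  have h4 : (⇑(MeasurableEquiv.piFinSuccAbove (fun _ : Fin (m + 1) => En q) 0).symm ∘
      fun p : En q × (Fin m → En q) => (p.1, fun i => p.1 + p.2 i)) = scalPsi q m := by
    funext p
    funext i
    refine Fin.cases ?_ (fun j => ?_) i
    · rfl
    · rfl
  rw [h4] at h3
  exact h3

theorem scal_main (h4 : HHFacts) (h33 : KmFacts) (q m : ℕ) (hq : 1 ≤ q) (hm : 1 ≤ m)
    (V : En q → ℝ) (hV : Measurable V) (M R : ℝ) (hM : ∀ x, |V x| ≤ M)
    (hR : ∀ x, R < ‖x‖ → V x = 0) (E : ℝ) (hE : 0 < E) :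
    ∫ x : Fin (m + 1) → En q, (∏ i, V (x i)) * DJ q m E x =
      E ^ ((q : ℝ) - 1 / 2 - m) * Phi q V m E⁻¹ := by
  have hint := (h33 q m hq hm).2.2.2.2 E hE V hV M R hM hR
  set a : ℝ := (E ^ ((q : ℝ) + 1 / 2)) ^ m * E ^ ((q : ℝ) - 1 / 2) with ha
  have hs : 0 < Real.sqrt E := Real.sqrt_pos.mpr hE
  have hΨ := scal_measurePreserving q m
  -- the integrand in the new coordinates
  have hcomp : ∀ p : En q × (Fin m → En q),
      (∏ i, V (scalPsi q m p i)) * DJ q m E (scalPsi q m p) =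
        (V p.1 * ∏ i, V (p.1 + p.2 i)) * (a * km q m (fun i => Real.sqrt E • p.2 i)) := by
    intro p
    rw [scal_DJ h4 q m hE, Fin.prod_univ_succ, km]
    have e1 : DJ q m 1 (fun i => Real.sqrt E • scalPsi q m p i) =
        DJ q m 1 (Fin.cons 0 (fun i => Real.sqrt E • p.2 i)) := by
      apply scal_trans
      have e2 : ∀ i, Real.sqrt E • scalPsi q m p i =
          (Fin.cons 0 (fun i => Real.sqrt E • p.2 i) : Fin (m + 1) → En q) i
            + Real.sqrt E • p.1 := by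
        intro i
        refine Fin.cases ?_ (fun j => ?_) i
        · simp [scalPsi]
        · simp [scalPsi, smul_add, add_comm]
      intro i j
      rw [e2 i, e2 j, add_sub_add_right_eq_sub]
    rw [e1]
    rfl
  have hint2 : Integrable (fun p : En q × (Fin m → En q) =>
      (V p.1 * ∏ i, V (p.1 + p.2 i)) * (a * km q m (fun i => Real.sqrt E • p.2 i))) volume := by
    have h5 := (hΨ.integrable_comp hint.aestronglyMeasurable).mpr hint
    refine h5.congr (Filter.Eventually.of_forall fun p => ?_)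
    exact hcomp p
  have h6 : ∫ x : Fin (m + 1) → En q, (∏ i, V (x i)) * DJ q m E x =
      ∫ p : En q × (Fin m → En q),
        (V p.1 * ∏ i, V (p.1 + p.2 i)) * (a * km q m (fun i => Real.sqrt E • p.2 i)) := by
    have hmap := hΨ.map_eq
    have hF : AEStronglyMeasurable (fun x : Fin (m + 1) → En q => (∏ i, V (x i)) * DJ q m E x)
        (Measure.map (scalPsi q m) volume) := by
      rw [hmap]
      exact hint.aestronglyMeasurable
    have h7 := integral_map (hΨ.measurable.aemeasurable) hF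
    rw [hmap] at h7
    rw [h7]
    exact integral_congr_ae (Filter.Eventually.of_forall fun p => hcomp p)
  rw [h6]
  rw [Measure.volume_eq_prod] at hint2 ⊢
  rw [integral_prod_symm _ hint2]
  have h8 : ∀ y : Fin m → En q, ∫ x : En q, (V (x, y).1 * ∏ i, V ((x, y).1 + (x, y).2 i)) *
      (a * km q m (fun i => Real.sqrt E • (x, y).2 i)) =
      a * (km q m (fun i => Real.sqrt E • y i) * MM q V m (fun i => Real.sqrt E⁻¹ •
        (Real.sqrt E • y i))) := by
    intro y
    simp only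
    rw [integral_mul_const, MM]
    have e3 : ∀ i, Real.sqrt E⁻¹ • (Real.sqrt E • y i) = y i := by
      intro i
      rw [smul_smul, Real.sqrt_inv, inv_mul_cancel₀ hs.ne', one_smul]
    simp only [e3]
    ring
  rw [integral_congr_ae (Filter.Eventually.of_forall h8), integral_const_mul]
  have h9 := Measure.integral_comp_smul (volume : Measure (Fin m → En q))
    (fun z => km q m z * MM q V m (fun i => Real.sqrt E⁻¹ • z i)) (Real.sqrt E)
  have h10 : ∫ y : Fin m → En q, km q m (fun i => Real.sqrt E • y i) *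
      MM q V m (fun i => Real.sqrt E⁻¹ • (Real.sqrt E • y i)) =
      ∫ y : Fin m → En q, (fun z => km q m z * MM q V m (fun i => Real.sqrt E⁻¹ • z i))
        (Real.sqrt E • y) := rfl
  rw [h10, h9, smul_eq_mul, ← mul_assoc]
  have hfin : Module.finrank ℝ (Fin m → En q) = m * (2 * q + 3) := by
    rw [Module.finrank_pi_fintype]
    simp
  have hconst : a * |(Real.sqrt E ^ Module.finrank ℝ (Fin m → En q))⁻¹| =
      E ^ ((q : ℝ) - 1 / 2 - m) := by
    rw [abs_of_pos (by positivity), hfin, ha, Real.sqrt_eq_rpow, ← Real.rpow_natCast,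
      ← Real.rpow_natCast, ← Real.rpow_mul hE.le, ← Real.rpow_mul hE.le, ← Real.rpow_neg hE.le,
      ← Real.rpow_add hE, ← Real.rpow_add hE]
    congr 1
    push_cast
    ring
  rw [hconst]
  rfl

theorem scalingF (h4 : HHFacts) (h33 : KmFacts) : ScalingF := by
  intro q hq V hV M R hM hR E hE
  unfold FF
  refine Finset.sum_congr rfl fun m hm => ?_
  rw [Finset.mem_Icc] at hm
  rw [scal_main h4 h33 q m hq hm.1 V hV M R hM hR E hE]

end Pool.Agent.Work.MP_f2af60_mp

end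

section

/-!
# MP_f2af60_mp, item Q19: separation of variables for the powers of `1 - |x-y|²/c`
-/

namespace Pool.Agent.Work.MP_f2af60_mp

open MeasureTheory Metric Filter Topology

/-- The `2 q + 5` left factors of `1 - |x-y|²/c`. -/
noncomputable def gsepU (q : ℕ) (c : ℝ) : Option (Option (Fin (2 * q + 3))) → C(En q, ℝ)
  | none => ⟨fun x => 1 - ‖x‖ ^ 2 / c, by fun_prop⟩
  | some none => 1
  | some (some i) => ⟨fun x => 2 * x i / c, by fun_prop⟩

/-- The `2 q + 5` right factors of `1 - |x-y|²/c`. -/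
noncomputable def gsepV (q : ℕ) (c : ℝ) : Option (Option (Fin (2 * q + 3))) → C(En q, ℝ)
  | none => 1
  | some none => ⟨fun y => -(‖y‖ ^ 2 / c), by fun_prop⟩
  | some (some i) => ⟨fun y => y i, by fun_prop⟩

theorem gsep_base (q : ℕ) (c : ℝ) (x y : En q) :
    1 - dist x y ^ 2 / c = ∑ j, gsepU q c j x * gsepV q c j y := by
  have h1 : dist x y ^ 2 = ‖x‖ ^ 2 - 2 * (∑ i, x i * y i) + ‖y‖ ^ 2 := by
    rw [dist_eq_norm, norm_sub_sq_real]
    congr 3
    rw [PiLp.inner_apply]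
    refine Finset.sum_congr rfl fun i _ => ?_
    simp [mul_comm]
  rw [h1, Fintype.sum_option, Fintype.sum_option]
  have h2 : ∑ i, gsepU q c (some (some i)) x * gsepV q c (some (some i)) y =
      2 / c * ∑ i, x i * y i := by
    rw [Finset.mul_sum]
    refine Finset.sum_congr rfl fun i _ => ?_
    simp only [gsepU, gsepV, ContinuousMap.coe_mk]
    ring
  rw [h2]
  simp only [gsepU, gsepV, ContinuousMap.coe_mk, ContinuousMap.one_apply]
  ring

/-- Q19. -/
theorem sepQ : SepQ := by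
  classical
  intro q R c hR hc
  have hB : ∀ f : C(En q, ℝ), ∃ B : ℝ, 0 ≤ B ∧ ∀ x ∈ closedBall (0 : En q) R, |f x| ≤ B := by
    intro f
    obtain ⟨B, hB⟩ := (isCompact_closedBall (0 : En q) R).exists_bound_of_continuousOn
      f.continuous.continuousOn
    refine ⟨|B|, abs_nonneg _, fun x hx => ?_⟩
    exact (hB x hx).trans (le_abs_self _)
  choose B hB0 hB using hB
  set ι := Option (Option (Fin (2 * q + 3))) with hι
  set M : ℝ := 1 + ∑ j : ι, (B (gsepU q c j) + B (gsepV q c j)) with hM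
  have hM1 : 1 ≤ M := by
    have : 0 ≤ ∑ j : ι, (B (gsepU q c j) + B (gsepV q c j)) :=
      Finset.sum_nonneg fun j _ => add_nonneg (hB0 _) (hB0 _)
    linarith
  have hMj : ∀ j : ι, B (gsepU q c j) + B (gsepV q c j) ≤ M := by
    intro j
    have : B (gsepU q c j) + B (gsepV q c j) ≤ ∑ j : ι, (B (gsepU q c j) + B (gsepV q c j)) :=
      Finset.single_le_sum (f := fun j : ι => B (gsepU q c j) + B (gsepV q c j))
        (fun j _ => add_nonneg (hB0 _) (hB0 _)) (Finset.mem_univ j)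
    linarith
  refine ⟨(2 * q + 5 : ℕ) * M, ?_, fun d => ?_⟩
  · have h7 : (1 : ℝ) ≤ ((2 * q + 5 : ℕ) : ℝ) := by exact_mod_cast (by omega : 1 ≤ 2 * q + 5)
    nlinarith
  set A : Finset (ι → ℕ) := Finset.piAntidiag Finset.univ d with hA
  have hAcard : A.card ≤ (d + 1) ^ (2 * q + 5) := by
    have hsub : A ⊆ Fintype.piFinset (fun _ : ι => Finset.range (d + 1)) := by
      intro k hk
      rw [Fintype.mem_piFinset]
      intro j
      rw [hA, Finset.mem_piAntidiag] at hk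
      have : k j ≤ ∑ i, k i := Finset.single_le_sum (f := k) (fun _ _ => Nat.zero_le _)
        (Finset.mem_univ j)
      have h0 : ∑ i, k i = d := hk.1
      rw [Finset.mem_range]
      omega
    have := Finset.card_le_card hsub
    rw [Fintype.card_piFinset] at this
    simpa [hι] using this
  have hmult : ∀ k ∈ A, (Nat.multinomial Finset.univ k : ℝ) ≤ ((2 * q + 5 : ℕ) : ℝ) ^ d := by
    intro k hk
    have h := Finset.sum_pow_eq_sum_piAntidiag (Finset.univ : Finset ι) (fun _ => (1 : ℝ)) d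
    simp only [one_pow, Finset.prod_const_one, mul_one, Finset.sum_const, nsmul_eq_mul] at h
    have h7 : ((Finset.univ : Finset ι).card : ℝ) = ((2 * q + 5 : ℕ) : ℝ) := by
      rw [Finset.card_univ]
      simp [hι]
      ring
    rw [h7] at h
    rw [h]
    exact Finset.single_le_sum (f := fun k => (Nat.multinomial Finset.univ k : ℝ))
      (fun _ _ => Nat.cast_nonneg _) hk
  have hprod : ∀ (W : ι → C(En q, ℝ)), (∀ j, ∀ x ∈ closedBall (0 : En q) R, |W j x| ≤ M) →
      ∀ k ∈ A, ∀ x ∈ closedBall (0 : En q) R, |∏ j, W j x ^ k j| ≤ M ^ d := by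
    intro W hW k hk x hx
    rw [Finset.abs_prod]
    have hk' : ∑ j, k j = d := by
      rw [hA, Finset.mem_piAntidiag] at hk
      exact hk.1
    calc ∏ j, |W j x ^ k j| ≤ ∏ j, M ^ k j := by
          refine Finset.prod_le_prod (fun _ _ => abs_nonneg _) fun j _ => ?_
          rw [abs_pow]
          exact pow_le_pow_left₀ (abs_nonneg _) (hW j x hx) _
      _ = M ^ d := by rw [Finset.prod_pow_eq_pow_sum, hk']
  have hU : ∀ j, ∀ x ∈ closedBall (0 : En q) R, |gsepU q c j x| ≤ M := fun j x hx =>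
    (hB _ x hx).trans (by linarith [hMj j, hB0 (gsepV q c j)])
  have hV : ∀ j, ∀ x ∈ closedBall (0 : En q) R, |gsepV q c j x| ≤ M := fun j x hx =>
    (hB _ x hx).trans (by linarith [hMj j, hB0 (gsepU q c j)])
  let e := A.equivFin
  refine ⟨A.card, fun i => (Nat.multinomial Finset.univ ((e.symm i : ι → ℕ)) : ℝ) •
      ∏ j, gsepU q c j ^ ((e.symm i : ι → ℕ) j),
    fun i => ∏ j, gsepV q c j ^ ((e.symm i : ι → ℕ) j), hAcard, ?_, ?_⟩
  · intro i x hx
    have hk : (e.symm i : ι → ℕ) ∈ A := (e.symm i).2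
    refine ⟨?_, ?_⟩
    · simp only [ContinuousMap.smul_apply, ContinuousMap.coe_prod, Finset.prod_apply,
        ContinuousMap.pow_apply, smul_eq_mul]
      rw [abs_mul, abs_of_nonneg (Nat.cast_nonneg _), mul_pow]
      exact mul_le_mul (hmult _ hk) (hprod _ hU _ hk x hx) (abs_nonneg _) (by positivity)
    · simp only [ContinuousMap.coe_prod, Finset.prod_apply, ContinuousMap.pow_apply]
      refine (hprod _ hV _ hk x hx).trans ?_
      refine pow_le_pow_left₀ (by linarith) ?_ _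
      have h7 : (1 : ℝ) ≤ ((2 * q + 5 : ℕ) : ℝ) := by exact_mod_cast (by omega : 1 ≤ 2 * q + 5)
      nlinarith
  · intro x y
    rw [gsep_base, Finset.sum_pow_eq_sum_piAntidiag]
    rw [← Finset.sum_coe_sort, ← e.symm.sum_comp]
    refine Finset.sum_congr rfl fun i _ => ?_
    simp only [ContinuousMap.smul_apply, ContinuousMap.coe_prod, Finset.prod_apply,
      ContinuousMap.pow_apply, smul_eq_mul, mul_pow, Finset.prod_mul_distrib]
    ring

end Pool.Agent.Work.MP_f2af60_mp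

end

section

/-!
# MP_f2af60_mp, Q41: the expansion of `Φ_m` for smooth functions
-/

namespace Pool.Agent.Work.MP_f2af60_mp

open MeasureTheory Metric Filter Topology

section SmGen

variable {X : Type*} [NormedAddCommGroup X] [NormedSpace ℝ X]

/-- Iterated directional derivatives of smooth functions are smooth. -/
lemma sm_ld_contDiff {f : X → ℝ} (hf : ContDiff ℝ (⊤ : ℕ∞) f) :
    ∀ L : List X, ContDiff ℝ (⊤ : ℕ∞) (ld L f)
  | [] => hf
  | v :: L => by
    have h := sm_ld_contDiff hf L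
    have h2 : ContDiff ℝ (⊤ : ℕ∞) (fderiv ℝ (ld L f)) :=
      h.fderiv_right (by simp)
    exact h2.clm_apply contDiff_const

/-- Iterated directional derivatives do not enlarge the support. -/
lemma sm_ld_tsupport (f : X → ℝ) : ∀ L : List X, tsupport (ld L f) ⊆ tsupport f
  | [] => subset_rfl
  | v :: L => (tsupport_fderiv_apply_subset ℝ v).trans (sm_ld_tsupport f L)

lemma sm_ld_zero {f : X → ℝ} (L : List X) {x : X} (hx : x ∉ tsupport f) : ld L f x = 0 := by
  have h := sm_ld_tsupport f L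
  have h2 : x ∉ tsupport (ld L f) := fun h3 => hx (h h3)
  exact image_eq_zero_of_notMem_tsupport h2

end SmGen

/-- Taylor formula for a sequence of successive derivatives. -/
lemma sm_taylor (n : ℕ) : ∀ (D : ℕ → ℝ → ℝ), (∀ k t, HasDerivAt (D k) (D (k + 1) t) t) →
    ∀ A : ℝ, (∀ t, 0 ≤ t → t ≤ 1 → |D n t| ≤ A) → ∀ t, 0 ≤ t → t ≤ 1 →
    |D 0 t - ∑ i ∈ Finset.range n, D i 0 * t ^ i / (i.factorial : ℝ)| ≤ A * t ^ n := by
  induction n with
  | zero =>
    intro D hD A hA t ht0 ht1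
    simpa using hA t ht0 ht1
  | succ n ih =>
    intro D hD A hA t ht0 ht1
    have hA0 : 0 ≤ A := le_trans (abs_nonneg _) (hA 0 le_rfl zero_le_one)
    have ih' := ih (fun k => D (k + 1)) (fun k t => hD (k + 1) t) A hA
    set φ : ℝ → ℝ := fun s => D 0 s - ∑ i ∈ Finset.range (n + 1), D i 0 * s ^ i / (i.factorial : ℝ)
      with hφ
    have hφd : ∀ s, HasDerivAt φ (D 1 s - ∑ i ∈ Finset.range n,
        D (i + 1) 0 * s ^ i / (i.factorial : ℝ)) s := by
      intro s
      have h1 : HasDerivAt (fun s => ∑ i ∈ Finset.range (n + 1),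
          D i 0 * s ^ i / (i.factorial : ℝ))
          (∑ i ∈ Finset.range (n + 1), D i 0 * ((i : ℝ) * s ^ (i - 1)) / (i.factorial : ℝ)) s := by
        apply HasDerivAt.fun_sum
        intro i _
        exact ((hasDerivAt_pow i s).const_mul (D i 0)).div_const _
      have h2 : (∑ i ∈ Finset.range (n + 1), D i 0 * ((i : ℝ) * s ^ (i - 1)) /
          (i.factorial : ℝ)) = ∑ i ∈ Finset.range n, D (i + 1) 0 * s ^ i / (i.factorial : ℝ) := by
        rw [Finset.sum_range_succ']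
        simp only [Nat.cast_zero, zero_mul, mul_zero, zero_div, add_zero, Nat.add_sub_cancel]
        apply Finset.sum_congr rfl
        intro i _
        rw [Nat.factorial_succ]
        push_cast
        have : (i.factorial : ℝ) ≠ 0 := by positivity
        have : ((i : ℝ) + 1) ≠ 0 := by positivity
        field_simp
      rw [h2] at h1
      exact (hD 0 s).sub h1
    have hφ0 : φ 0 = 0 := by
      simp only [hφ]
      rw [Finset.sum_range_succ']
      simp
    have hb : ∀ s ∈ Set.Icc (0 : ℝ) t, ‖D 1 s - ∑ i ∈ Finset.range n,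
        D (i + 1) 0 * s ^ i / (i.factorial : ℝ)‖ ≤ A * t ^ n := by
      intro s hs
      have h1 := ih' s hs.1 (hs.2.trans ht1)
      rw [Real.norm_eq_abs]
      refine h1.trans ?_
      have : s ^ n ≤ t ^ n := pow_le_pow_left₀ hs.1 hs.2 n
      exact mul_le_mul_of_nonneg_left this hA0
    have h3 := Convex.norm_image_sub_le_of_norm_hasDerivWithin_le
      (f := φ) (s := Set.Icc (0 : ℝ) t) (x := 0) (y := t)
      (fun s _ => (hφd s).hasDerivWithinAt) hb (convex_Icc _ _)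
      ⟨le_rfl, ht0⟩ ⟨ht0, le_rfl⟩
    rw [hφ0, sub_zero, sub_zero, Real.norm_eq_abs, Real.norm_eq_abs, abs_of_nonneg ht0] at h3
    rw [pow_succ, ← mul_assoc]
    exact h3

section SmInt

variable {q m : ℕ}

/-- The multilinear integral. -/
noncomputable def smI (f : En q → ℝ) (Y : Fin (m + 1) → En q) (L : Fin (m + 1) → List (En q))
    (t : ℝ) : ℝ := ∫ x, ∏ i, ld (L i) f (x + t • Y i)

lemma sm_deriv (f : En q → ℝ) (hf : ContDiff ℝ (⊤ : ℕ∞) f) (hc : HasCompactSupport f)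
    (Y : Fin (m + 1) → En q) (hY : Y 0 = 0) (L : Fin (m + 1) → List (En q)) (t : ℝ) :
    HasDerivAt (smI f Y L) (∑ j, smI f Y (Function.update L j (Y j :: L j)) t) t := by
  have hcont : ∀ L : Fin (m + 1) → List (En q),
      Continuous (fun p : ℝ × En q => ∏ i, ld (L i) f (p.2 + p.1 • Y i)) := by
    intro L
    refine continuous_finsetProd _ fun i _ => ?_
    exact (sm_ld_contDiff hf (L i)).continuous.comp (by fun_prop)
  have hzero : ∀ L : Fin (m + 1) → List (En q), ∀ t : ℝ, ∀ x ∉ tsupport f,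
      ∏ i, ld (L i) f (x + t • Y i) = 0 := by
    intro L t x hx
    apply Finset.prod_eq_zero (Finset.mem_univ 0)
    rw [hY, smul_zero, add_zero]
    exact sm_ld_zero _ hx
  have hint : ∀ L : Fin (m + 1) → List (En q), ∀ t : ℝ,
      Integrable (fun x => ∏ i, ld (L i) f (x + t • Y i)) := by
    intro L t
    have h1 : Continuous (fun x => ∏ i, ld (L i) f (x + t • Y i)) :=
      (hcont L).comp (by fun_prop : Continuous (fun x : En q => (t, x)))
    apply h1.integrable_of_hasCompactSupport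
    apply HasCompactSupport.intro hc
    intro x hx
    exact hzero L t x hx
  have hpt : ∀ x (s : ℝ), HasDerivAt (fun t : ℝ => ∏ i, ld (L i) f (x + t • Y i))
      (∑ j, ∏ i, ld (Function.update L j (Y j :: L j) i) f (x + s • Y i)) s := by
    intro x s
    have h1 : ∀ i ∈ (Finset.univ : Finset (Fin (m + 1))),
        HasDerivAt (fun t : ℝ => ld (L i) f (x + t • Y i))
          (fderiv ℝ (ld (L i) f) (x + s • Y i) (Y i)) s := by
      intro i _
      have h2 : HasFDerivAt (ld (L i) f) (fderiv ℝ (ld (L i) f) (x + s • Y i)) (x + s • Y i) :=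
        ((sm_ld_contDiff hf (L i)).differentiable (by simp)).differentiableAt.hasFDerivAt
      have h3 : HasDerivAt (fun t : ℝ => x + t • Y i) (Y i) s := by
        have := ((hasDerivAt_id s).smul_const (Y i)).const_add x
        simpa using this
      exact h2.comp_hasDerivAt s h3
    have h4 := HasDerivAt.fun_finsetProd h1
    have h5 : (∑ i, (∏ j ∈ Finset.univ.erase i, ld (L j) f (x + s • Y j)) •
        (fderiv ℝ (ld (L i) f) (x + s • Y i)) (Y i)) =
        ∑ j, ∏ i, ld (Function.update L j (Y j :: L j) i) f (x + s • Y i) := by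
      apply Finset.sum_congr rfl
      intro j _
      rw [← Finset.prod_erase_mul _ _ (Finset.mem_univ j), smul_eq_mul]
      congr 1
      · apply Finset.prod_congr rfl
        intro i hi
        rw [Function.update_of_ne (Finset.ne_of_mem_erase hi)]
      · rw [Function.update_self]
        rfl
    rw [h5] at h4
    exact h4
  have hcont2 : Continuous (fun p : ℝ × En q =>
      ∑ j, ∏ i, ld (Function.update L j (Y j :: L j) i) f (p.2 + p.1 • Y i)) :=
    continuous_finsetSum _ fun j _ => hcont _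
  obtain ⟨M, hM⟩ := (((isCompact_Icc (a := t - 1) (b := t + 1)).prod
    hc.isCompact).exists_bound_of_continuousOn hcont2.continuousOn)
  have key := hasDerivAt_integral_of_dominated_loc_of_deriv_le
    (F := fun (s : ℝ) (x : En q) => ∏ i, ld (L i) f (x + s • Y i))
    (F' := fun (s : ℝ) (x : En q) =>
      ∑ j, ∏ i, ld (Function.update L j (Y j :: L j) i) f (x + s • Y i))
    (μ := volume) (x₀ := t) (s := Metric.ball t 1)
    (bound := Set.indicator (tsupport f) (fun _ => M))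
    (Metric.ball_mem_nhds t one_pos)
    (Eventually.of_forall fun s => (hint L s).aestronglyMeasurable)
    (hint L t)
    ((hcont2.comp (by fun_prop : Continuous (fun x : En q => (t, x)))).aestronglyMeasurable)
    (Eventually.of_forall fun x s hs => by
      by_cases hx : x ∈ tsupport f
      · rw [Set.indicator_of_mem hx]
        refine hM (s, x) ⟨?_, hx⟩
        rw [Metric.mem_ball, Real.dist_eq, abs_lt] at hs
        constructor <;> dsimp only <;> linarith [hs.1, hs.2]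
      · rw [Set.indicator_of_notMem hx]
        rw [Finset.sum_eq_zero, norm_zero]
        intro j _
        exact hzero _ s x hx)
    ((integrable_indicator_iff hc.isCompact.measurableSet).mpr
      (integrableOn_const (hc.isCompact.measure_lt_top.ne)))
    (Eventually.of_forall fun x s _ => hpt x s)
  have h6 := key.2
  rw [integral_finsetSum _ (fun j _ => hint _ t)] at h6
  exact h6

/-- The successive derivatives of `smI`. -/
noncomputable def smD (f : En q → ℝ) (Y : Fin (m + 1) → En q) :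
    ℕ → (Fin (m + 1) → List (En q)) → ℝ → ℝ
  | 0, L, t => smI f Y L t
  | (k + 1), L, t => ∑ j, smD f Y k (Function.update L j (Y j :: L j)) t

lemma sm_deriv_D (f : En q → ℝ) (hf : ContDiff ℝ (⊤ : ℕ∞) f) (hc : HasCompactSupport f)
    (Y : Fin (m + 1) → En q) (hY : Y 0 = 0) (k : ℕ) : ∀ (L : Fin (m + 1) → List (En q)) (t : ℝ),
    HasDerivAt (smD f Y k L) (smD f Y (k + 1) L t) t := by
  induction k with
  | zero =>
    intro L t
    exact sm_deriv f hf hc Y hY L t
  | succ k ih =>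
    intro L t
    have h : HasDerivAt (fun t => ∑ j, smD f Y k (Function.update L j (Y j :: L j)) t)
        (∑ j, smD f Y (k + 1) (Function.update L j (Y j :: L j)) t) t := by
      apply HasDerivAt.fun_sum
      intro j _
      exact ih _ t
    exact h

lemma sm_bound_D (f : En q → ℝ) (Y : Fin (m + 1) → En q) (ρ A : ℝ) (hY : ∀ i, ‖Y i‖ ≤ ρ)
    (N : ℕ) (hA : ∀ L : Fin (m + 1) → List (En q), ∑ i, (L i).length = N →
      (∀ i, ∀ v ∈ L i, ‖v‖ ≤ ρ) → ∀ t, |smI f Y L t| ≤ A) (k : ℕ) :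
    ∀ L : Fin (m + 1) → List (En q), ∑ i, (L i).length + k = N →
      (∀ i, ∀ v ∈ L i, ‖v‖ ≤ ρ) → ∀ t, |smD f Y k L t| ≤ ((m : ℝ) + 1) ^ k * A := by
  induction k with
  | zero =>
    intro L hL hv t
    simpa [smD] using hA L hL hv t
  | succ k ih =>
    intro L hL hv t
    have h1 : ∀ j, |smD f Y k (Function.update L j (Y j :: L j)) t| ≤ ((m : ℝ) + 1) ^ k * A := by
      intro j
      apply ih
      · have h2 : ∑ i, (Function.update L j (Y j :: L j) i).length =
            ∑ i, (L i).length + 1 := by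
          rw [← Finset.sum_erase_add _ _ (Finset.mem_univ j),
            ← Finset.sum_erase_add _ _ (Finset.mem_univ j), Function.update_self, List.length_cons,
            ← add_assoc]
          congr 2
          apply Finset.sum_congr rfl
          intro i hi
          rw [Function.update_of_ne (Finset.ne_of_mem_erase hi)]
        rw [h2]
        omega
      · intro i v hv'
        by_cases hij : i = j
        · subst hij
          rw [Function.update_self] at hv'
          rcases List.mem_cons.mp hv' with h3 | h3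
          · rw [h3]
            exact hY i
          · exact hv i v h3
        · rw [Function.update_of_ne hij] at hv'
          exact hv i v hv'
    calc |smD f Y (k + 1) L t| ≤ ∑ j, |smD f Y k (Function.update L j (Y j :: L j)) t| :=
          Finset.abs_sum_le_sum_abs _ _
      _ ≤ ∑ _j : Fin (m + 1), ((m : ℝ) + 1) ^ k * A := Finset.sum_le_sum fun j _ => h1 j
      _ = ((m : ℝ) + 1) ^ (k + 1) * A := by
        rw [Finset.sum_const, Finset.card_univ, Fintype.card_fin, nsmul_eq_mul]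
        push_cast
        ring

lemma sm_MM_eq (f : En q → ℝ) (y : Fin m → En q) (t : ℝ) :
    MM q f m (fun i => t • y i) = smI f (Fin.cons 0 y : Fin (m + 1) → En q) (fun _ => []) t := by
  unfold MM smI
  congr 1
  ext x
  rw [Fin.prod_univ_succ]
  simp [ld]

lemma sm_MM_smooth {f : En q → ℝ} (hf : ContDiff ℝ (⊤ : ℕ∞) f) (hc : HasCompactSupport f)
    (m : ℕ) : ContDiff ℝ (⊤ : ℕ∞) (MM q f m) := by
  have hg : ContDiff ℝ (⊤ : ℕ∞) (Function.HasUncurry.uncurry
      (fun (y : Fin m → En q) (x : En q) => f x * ∏ i, f (x + y i))) := by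
    have h1 : ContDiff ℝ (⊤ : ℕ∞) (fun p : (Fin m → En q) × En q =>
        f p.2 * ∏ i, f (p.2 + p.1 i)) := by
      apply ContDiff.mul
      · exact hf.comp contDiff_snd
      · apply contDiff_prod
        intro i _
        apply hf.comp
        apply contDiff_snd.add
        exact (contDiff_apply ℝ (En q) i).comp contDiff_fst
    exact h1
  have h := contDiffOn_convolution_right_with_param_comp (𝕜 := ℝ) (n := (⊤ : ℕ∞))
    (μ := (volume : Measure (En q)))
    (ContinuousLinearMap.mul ℝ ℝ) (s := Set.univ) (v := fun _ : Fin m → En q => (0 : En q))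
    contDiffOn_const (f := fun _ : En q => (1 : ℝ))
    (g := fun (y : Fin m → En q) (x : En q) => f x * ∏ i, f (x + y i)) (k := tsupport f)
    isOpen_univ hc.isCompact
    (fun y x _ hx => by
      rw [image_eq_zero_of_notMem_tsupport hx, zero_mul])
    (locallyIntegrable_const _)
    hg.contDiffOn
  rw [contDiffOn_univ] at h
  have h2 : (fun y : Fin m → En q => (convolution (fun _ : En q => (1 : ℝ))
      (fun (x : En q) => f x * ∏ i, f (x + y i)) (ContinuousLinearMap.mul ℝ ℝ) volume) 0) =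
      MM q f m := by
    ext y
    unfold convolution MM
    simp only [ContinuousLinearMap.mul_apply', one_mul, zero_sub]
    exact integral_neg_eq_self (fun x => f x * ∏ i, f (x + y i)) volume
  rw [← h2]
  exact h

/-- The `k`-th derivative at `0` along rays. -/
noncomputable def smT (f : En q → ℝ) (m k : ℕ) : ContinuousMultilinearMap ℝ
    (fun _ : Fin k => (Fin m → En q)) ℝ := iteratedFDeriv ℝ k (MM q f m) 0

lemma sm_D_eq_T {f : En q → ℝ} (hf : ContDiff ℝ (⊤ : ℕ∞) f) (hc : HasCompactSupport f)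
    (y : Fin m → En q) (k : ℕ) :
    smD f (Fin.cons 0 y : Fin (m + 1) → En q) k (fun _ => []) 0 = smT f m k (fun _ => y) := by
  set Y : Fin (m + 1) → En q := Fin.cons 0 y with hY
  have hY0 : Y 0 = 0 := by rw [hY, Fin.cons_zero]
  have h1 : ∀ k, iteratedDeriv k (smI f Y (fun _ => [])) = smD f Y k (fun _ => []) := by
    intro k
    induction k with
    | zero =>
      rw [iteratedDeriv_zero]
      rfl
    | succ k ih =>
      rw [iteratedDeriv_succ, ih]
      ext t
      exact (sm_deriv_D f hf hc Y hY0 k (fun _ => []) t).deriv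
  have h2 : smI f Y (fun _ => []) = MM q f m ∘ (ContinuousLinearMap.toSpanSingleton ℝ y) := by
    ext t
    rw [hY, ← sm_MM_eq, Function.comp_apply, ContinuousLinearMap.toSpanSingleton_apply]
    rfl
  rw [← h1 k, h2, iteratedDeriv_eq_iteratedFDeriv,
    ContinuousLinearMap.iteratedFDeriv_comp_right _ (sm_MM_smooth hf hc m) 0
      (i := k) (by exact_mod_cast le_top), map_zero]
  rw [ContinuousMultilinearMap.compContinuousLinearMap_apply]
  unfold smT
  congr 1
  ext i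
  simp

lemma sm_sum_even_odd (u : ℕ → ℝ) (J : ℕ) : ∑ k ∈ Finset.range (2 * J), u k =
    ∑ i ∈ Finset.range J, (u (2 * i) + u (2 * i + 1)) := by
  induction J with
  | zero => simp
  | succ J ih =>
    rw [show 2 * (J + 1) = 2 * J + 1 + 1 by ring, Finset.sum_range_succ, Finset.sum_range_succ, ih,
      Finset.sum_range_succ]
    ring

end SmInt

/-- Q41: the expansion of `Φ_m` for smooth functions. -/
theorem smoothExpand (h40 : MultiBd) (h33 : KmFacts) : SmoothExpand := by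
  intro q J m hq hm hJ B S
  obtain ⟨C0, hC0, hC⟩ := h40 (2 * q + 3) J m hm
  obtain ⟨hk0, hkev, hkint, -, -⟩ := h33 q m hq hm
  set W := ∫ y : Fin m → En q, (1 + ‖y‖) ^ (2 * q) * km q m y with hW
  refine ⟨((m : ℝ) + 1) ^ (2 * J) * (C0 * B ^ (m - 1) * S) * W, ?_⟩
  intro f hf hc hfB hfS
  have hB : 0 ≤ B := le_trans (abs_nonneg _) (hfB 0)
  have hS : 0 ≤ S := by
    have h1 := hfS 1 (List.replicate J 0) zero_le_one (List.length_replicate ..)
      (fun v hv => by rw [List.eq_of_mem_replicate hv]; simp)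
    have h2 : 0 ≤ ∫ x, (ld (List.replicate J 0) f x) ^ 2 := integral_nonneg fun x => sq_nonneg _
    simpa using h2.trans h1
  set A : ℝ := ((m : ℝ) + 1) ^ (2 * J) * (C0 * B ^ (m - 1) * S) with hA
  have hA0 : 0 ≤ A := by positivity
  -- the kernel is measurable
  have hkm : AEStronglyMeasurable (km q m) (volume : Measure (Fin m → En q)) := by
    have h1 : AEStronglyMeasurable (fun y : Fin m → En q => ((1 + ‖y‖) ^ (2 * q))⁻¹ *
        ((1 + ‖y‖) ^ (2 * q) * km q m y)) volume := by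
      apply AEStronglyMeasurable.mul _ hkint.aestronglyMeasurable
      have h2 : Continuous (fun y : Fin m → En q => ((1 + ‖y‖) ^ (2 * q))⁻¹) := by
        apply Continuous.inv₀ (by fun_prop)
        intro y
        positivity
      exact h2.aestronglyMeasurable
    refine h1.congr (Eventually.of_forall fun y => ?_)
    have h3 : (1 + ‖y‖) ^ (2 * q) ≠ 0 := by positivity
    dsimp only
    rw [← mul_assoc, inv_mul_cancel₀ h3, one_mul]
  have hdom : ∀ (u : (Fin m → En q) → ℝ) (c : ℝ) (k : ℕ), Continuous u → k ≤ 2 * q →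
      0 ≤ c → (∀ y, |u y| ≤ c * ‖y‖ ^ k) → Integrable (fun y => km q m y * u y) ∧
      |∫ y, km q m y * u y| ≤ c * W := by
    intro u c k hu hk hc0 hub
    have h1 : ∀ y : Fin m → En q, ‖km q m y * u y‖ ≤ c * ((1 + ‖y‖) ^ (2 * q) * km q m y) := by
      intro y
      rw [Real.norm_eq_abs, abs_mul, abs_of_nonneg (hk0 y)]
      have h2 : ‖y‖ ^ k ≤ (1 + ‖y‖) ^ (2 * q) := by
        calc ‖y‖ ^ k ≤ (1 + ‖y‖) ^ k := pow_le_pow_left₀ (norm_nonneg _) (by linarith) _
          _ ≤ (1 + ‖y‖) ^ (2 * q) := pow_le_pow_right₀ (by linarith [norm_nonneg y]) hk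
      calc km q m y * |u y| ≤ km q m y * (c * ‖y‖ ^ k) :=
            mul_le_mul_of_nonneg_left (hub y) (hk0 y)
        _ ≤ km q m y * (c * (1 + ‖y‖) ^ (2 * q)) :=
            mul_le_mul_of_nonneg_left (mul_le_mul_of_nonneg_left h2 hc0) (hk0 y)
        _ = _ := by ring
    have h3 : Integrable (fun y => c * ((1 + ‖y‖) ^ (2 * q) * km q m y)) := hkint.const_mul c
    refine ⟨h3.mono' (hkm.mul hu.aestronglyMeasurable) (Eventually.of_forall h1), ?_⟩
    have h4 := norm_integral_le_of_norm_le h3 (Eventually.of_forall h1)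
    rw [integral_const_mul] at h4
    exact h4
  -- the coefficients
  have hTc : ∀ k, Continuous (fun y : Fin m → En q => smT f m k (fun _ => y)) := by
    intro k
    exact (smT f m k).cont.comp (continuous_pi fun _ => continuous_id)
  have hTb : ∀ k, ∀ y : Fin m → En q, |smT f m k (fun _ => y)| ≤ ‖smT f m k‖ * ‖y‖ ^ k := by
    intro k y
    have h1 := (smT f m k).le_opNorm (fun _ => y)
    simpa using h1
  have hTo : ∀ k, ∀ y : Fin m → En q, smT f m k (fun _ => -y) =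
      (-1) ^ k * smT f m k (fun _ => y) := by
    intro k y
    have h1 := (smT f m k).map_smul_univ (fun _ => (-1 : ℝ)) (fun _ => y)
    simpa using h1
  have hodd : ∀ k, Odd k → ∫ y : Fin m → En q, km q m y * smT f m k (fun _ => y) = 0 := by
    intro k hk
    have : (volume : Measure (Fin m → En q)).IsNegInvariant := Measure.pi.isNegInvariant _
    have h1 := integral_neg_eq_self (fun y : Fin m → En q => km q m y * smT f m k (fun _ => y))
      volume
    simp only [hkev, hTo, hk.neg_one_pow] at h1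
    have h2 : ∫ y : Fin m → En q, km q m y * (-1 * smT f m k (fun _ => y)) =
        -∫ y : Fin m → En q, km q m y * smT f m k (fun _ => y) := by
      rw [← integral_neg]
      congr 1
      ext y
      ring
    rw [h2] at h1
    linarith
  refine ⟨fun i => (∫ y : Fin m → En q, km q m y * smT f m (2 * i) (fun _ => y)) /
    ((2 * i).factorial : ℝ), ?_⟩
  intro e he he1
  set t := Real.sqrt e with ht
  have ht0 : 0 ≤ t := Real.sqrt_nonneg e
  have ht1 : t ≤ 1 := by
    rw [ht]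
    calc Real.sqrt e ≤ Real.sqrt 1 := Real.sqrt_le_sqrt he1
      _ = 1 := Real.sqrt_one
  have ht2 : t ^ 2 = e := Real.sq_sqrt he.le
  -- Taylor
  have hTay : ∀ y : Fin m → En q, |MM q f m (fun i => t • y i) - ∑ k ∈ Finset.range (2 * J),
      smT f m k (fun _ => y) * t ^ k / (k.factorial : ℝ)| ≤ (A * t ^ (2 * J)) * ‖y‖ ^ (2 * J) := by
    intro y
    set Y : Fin (m + 1) → En q := Fin.cons 0 y with hY
    have hY0 : Y 0 = 0 := by rw [hY, Fin.cons_zero]
    have hYn : ∀ i, ‖Y i‖ ≤ ‖y‖ := by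
      intro i
      refine Fin.cases ?_ (fun i => ?_) i
      · rw [hY0, norm_zero]
        exact norm_nonneg _
      · rw [hY, Fin.cons_succ]
        exact norm_le_pi_norm y i
    have h1 : ∀ L : Fin (m + 1) → List (En q), ∑ i, (L i).length = 2 * J →
        (∀ i, ∀ v ∈ L i, ‖v‖ ≤ ‖y‖) → ∀ s, |smI f Y L s| ≤
          C0 * B ^ (m - 1) * (S * ‖y‖ ^ (2 * J)) := by
      intro L hL hv s
      exact hC f hf hc B (S * ‖y‖ ^ (2 * J)) ‖y‖ hfB
        (fun L' hL' hv' => hfS ‖y‖ L' (norm_nonneg _) hL' hv') L hL hv (fun i => s • Y i)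
    have h2 := sm_bound_D f Y ‖y‖ _ hYn (2 * J) h1 (2 * J) (fun _ => []) (by simp)
      (by simp)
    have h3 := sm_taylor (2 * J) (fun k => smD f Y k (fun _ => []))
      (fun k s => sm_deriv_D f hf hc Y hY0 k _ s) _ (fun s _ _ => h2 s) t ht0 ht1
    have h4 : smD f Y 0 (fun _ => []) t = MM q f m (fun i => t • y i) := by
      rw [sm_MM_eq]
      rfl
    simp only [hY, sm_D_eq_T hf hc] at h3
    rw [← hY, h4] at h3
    refine h3.trans (le_of_eq ?_)
    rw [hA]
    ring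
  have hMMc : Continuous (fun y : Fin m → En q => MM q f m (fun i => t • y i)) :=
    (sm_MM_smooth hf hc m).continuous.comp (by fun_prop)
  have hRc : Continuous (fun y : Fin m → En q => MM q f m (fun i => t • y i) -
      ∑ k ∈ Finset.range (2 * J), smT f m k (fun _ => y) * t ^ k / (k.factorial : ℝ)) := by
    apply hMMc.sub
    apply continuous_finsetSum
    intro k _
    exact ((hTc k).mul_const _).div_const _
  obtain ⟨hI, hbd⟩ := hdom _ _ (2 * J) hRc (by omega) (by positivity) hTay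
  have hterm : ∀ k ∈ Finset.range (2 * J), Integrable (fun y : Fin m → En q =>
      km q m y * (smT f m k (fun _ => y) * t ^ k / (k.factorial : ℝ))) := by
    intro k hk
    have h1 := (hdom _ _ k (hTc k) (by rw [Finset.mem_range] at hk; omega) (norm_nonneg _)
      (hTb k)).1
    have h2 := h1.mul_const (t ^ k / (k.factorial : ℝ))
    refine h2.congr (Eventually.of_forall fun y => ?_)
    dsimp only
    ring
  have hsumI : Integrable (fun y : Fin m → En q => ∑ k ∈ Finset.range (2 * J),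
      km q m y * (smT f m k (fun _ => y) * t ^ k / (k.factorial : ℝ))) :=
    integrable_finsetSum _ hterm
  have hPhi : Phi q f m e = (∫ y : Fin m → En q, km q m y * (MM q f m (fun i => t • y i) -
      ∑ k ∈ Finset.range (2 * J), smT f m k (fun _ => y) * t ^ k / (k.factorial : ℝ))) +
      ∫ y : Fin m → En q, ∑ k ∈ Finset.range (2 * J),
      km q m y * (smT f m k (fun _ => y) * t ^ k / (k.factorial : ℝ)) := by
    rw [← integral_add hI hsumI]
    unfold Phi
    congr 1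
    ext y
    rw [← Finset.mul_sum, ← mul_add, sub_add_cancel]
  have hsum : (∫ y : Fin m → En q, ∑ k ∈ Finset.range (2 * J),
      km q m y * (smT f m k (fun _ => y) * t ^ k / (k.factorial : ℝ))) =
      ∑ i ∈ Finset.range J, (∫ y : Fin m → En q, km q m y * smT f m (2 * i) (fun _ => y)) /
        ((2 * i).factorial : ℝ) * e ^ i := by
    rw [integral_finsetSum _ hterm]
    have h1 : ∀ k, ∫ y : Fin m → En q, km q m y * (smT f m k (fun _ => y) * t ^ k /
        (k.factorial : ℝ)) = (∫ y : Fin m → En q, km q m y * smT f m k (fun _ => y)) *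
        (t ^ k / (k.factorial : ℝ)) := by
      intro k
      rw [← integral_mul_const]
      congr 1
      ext y
      ring
    simp only [h1]
    rw [sm_sum_even_odd]
    apply Finset.sum_congr rfl
    intro i _
    rw [hodd (2 * i + 1) ⟨i, rfl⟩, zero_mul, add_zero, pow_mul, ht2]
    ring
  rw [hsum] at hPhi
  rw [hPhi, add_sub_cancel_right]
  refine hbd.trans (le_of_eq ?_)
  rw [pow_mul, ht2]
  ring

end Pool.Agent.Work.MP_f2af60_mp

end

section

/-!
# MP_f2af60_mp, item Q5: closed balls of `ℝ^(2 q + 3)` satisfy `SpQ`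
-/

namespace Pool.Agent.Work.MP_f2af60_mp

open MeasureTheory Metric Set

/-- `|z|^(-(2 q + 2))` cut off at radius `e`. -/
noncomputable def sbQF (q : ℕ) (e : ℝ) (z : En q) : ℝ := (Iio e).indicator (fun t : ℝ => (t ^ (2 * q + 2))⁻¹) ‖z‖

theorem sbQ_aux (q : ℕ) (e : ℝ) (y : ℝ) (hy : y ∈ Ioi (0 : ℝ)) :
    (Iio e).indicator (fun _ : ℝ => (1 : ℝ)) y =
      y ^ (Module.finrank ℝ (En q) - 1) • (Iio e).indicator (fun t : ℝ => (t ^ (2 * q + 2))⁻¹) y := by
  have hy' : (0 : ℝ) < y := hy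
  have h5 : Module.finrank ℝ (En q) - 1 = 2 * q + 2 := by simp
  rw [h5]
  by_cases h : y ∈ Iio e
  · rw [indicator_of_mem h, indicator_of_mem h, smul_eq_mul, mul_inv_cancel₀ (by positivity)]
  · rw [indicator_of_notMem h, indicator_of_notMem h, smul_zero]

theorem sbQF_integrable (q : ℕ) (e : ℝ) : Integrable (sbQF q e) volume := by
  have h := (integrable_fun_norm_addHaar (volume : Measure (En q))
    (f := (Iio e).indicator (fun t : ℝ => (t ^ (2 * q + 2))⁻¹))).2 ?_
  · exact h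
  · refine IntegrableOn.congr_fun ?_ (sbQ_aux q e) measurableSet_Ioi
    have h1 : IntegrableOn (fun _ : ℝ => (1 : ℝ)) (Iio e) (volume.restrict (Ioi (0 : ℝ))) := by
      rw [IntegrableOn, Measure.restrict_restrict measurableSet_Iio, ← IntegrableOn]
      have : Iio e ∩ Ioi 0 = Ioo 0 e := by
        ext t; simp [and_comm]
      rw [this]
      exact integrableOn_const (by simp) (by simp)
    exact h1.integrable_indicator measurableSet_Iio

theorem sbQF_integral (q : ℕ) (e : ℝ) (he : 0 < e) :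
    ∫ z, sbQF q e z = ((2 * q + 3 : ℕ) : ℝ) * (volume : Measure (En q)).real (ball 0 1) * e := by
  have h := integral_fun_norm_addHaar (volume : Measure (En q))
    ((Iio e).indicator (fun t : ℝ => (t ^ (2 * q + 2))⁻¹))
  have h2 : ∫ y in Ioi (0 : ℝ), y ^ (Module.finrank ℝ (En q) - 1) •
      (Iio e).indicator (fun t : ℝ => (t ^ (2 * q + 2))⁻¹) y = e := by
    rw [← setIntegral_congr_fun measurableSet_Ioi (sbQ_aux q e),
      integral_indicator measurableSet_Iio, Measure.restrict_restrict measurableSet_Iio]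
    have : Iio e ∩ Ioi 0 = Ioo 0 e := by
      ext t; simp [and_comm]
    rw [this]
    simp [he.le]
  rw [h2] at h
  have h3 : ∫ z, sbQF q e z = ∫ x : En q, (Iio e).indicator (fun t : ℝ => (t ^ (2 * q + 2))⁻¹) ‖x‖ := rfl
  rw [h3, h]
  simp
  ring

theorem sbQ_ind (q : ℕ) (e : ℝ) (x y : En q) :
    (ball x e).indicator (fun y : En q => ((dist x y) ^ (2 * q + 2))⁻¹) y = sbQF q e (x - y) := by
  unfold sbQF
  by_cases h : y ∈ ball x e
  · have h' : ‖x - y‖ ∈ Iio e := by
      rw [mem_ball, dist_comm, dist_eq_norm] at h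
      exact h
    rw [indicator_of_mem h, indicator_of_mem h', dist_eq_norm]
  · have h' : ‖x - y‖ ∉ Iio e := by
      rw [mem_ball, dist_comm, dist_eq_norm] at h
      exact h
    rw [indicator_of_notMem h, indicator_of_notMem h']

theorem sbQ_integrableOn (q : ℕ) (x : En q) (e : ℝ) :
    IntegrableOn (fun y : En q => ((dist x y) ^ (2 * q + 2))⁻¹) (ball x e) volume := by
  rw [← integrable_indicator_iff measurableSet_ball]
  have h : (ball x e).indicator (fun y : En q => ((dist x y) ^ (2 * q + 2))⁻¹) = fun y => sbQF q e (x - y) := by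
    funext y
    exact sbQ_ind q e x y
  rw [h]
  exact (sbQF_integrable q e).comp_sub_left x

theorem sbQ_integral (q : ℕ) (x : En q) (e : ℝ) (he : 0 < e) :
    ∫ y in ball x e, ((dist x y) ^ (2 * q + 2))⁻¹ = ((2 * q + 3 : ℕ) : ℝ) * (volume : Measure (En q)).real (ball 0 1) * e := by
  rw [← integral_indicator measurableSet_ball]
  have h : (ball x e).indicator (fun y : En q => ((dist x y) ^ (2 * q + 2))⁻¹) = fun y => sbQF q e (x - y) := by
    funext y
    exact sbQ_ind q e x y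
  rw [h, integral_sub_left_eq_self (sbQF q e) volume x]
  exact sbQF_integral q e he

theorem spBallQ : SpBallQ := by
  intro q R hR
  refine ⟨((2 * q + 3 : ℕ) : ℝ) * (volume : Measure (En q)).real (ball 0 1), ?_, ?_⟩
  · have : 0 < (volume : Measure (En q)).real (ball 0 1) := by
      rw [Measure.real, ENNReal.toReal_pos_iff]
      exact ⟨measure_ball_pos _ _ one_pos, measure_ball_lt_top⟩
    positivity
  · have hemb := MeasurableEmbedding.subtype_coe
      (measurableSet_closedBall (x := (0 : En q)) (ε := R))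
    refine ⟨?_, ?_, ?_, ?_⟩
    · constructor
      rw [muQ, hemb.comap_apply, image_univ, Subtype.range_coe]
      exact measure_closedBall_lt_top
    · constructor
      intro x
      rw [muQ, hemb.comap_apply, image_singleton]
      simp
    · intro x
      have h1 : IntegrableOn (fun y : En q => ((dist (x : En q) y) ^ (2 * q + 2))⁻¹) (closedBall 0 R) volume := by
        refine (sbQ_integrableOn q (x : En q) (2 * R + 1)).mono_set ?_
        intro y hy
        have hx := x.2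
        rw [mem_closedBall, dist_zero_right] at hy hx
        rw [mem_ball, dist_eq_norm]
        calc ‖y - x‖ ≤ ‖y‖ + ‖(x : En q)‖ := norm_sub_le _ _
          _ < 2 * R + 1 := by linarith
      exact (integrableOn_iff_comap_subtypeVal measurableSet_closedBall).1 h1
    · intro x e he
      have hset : MeasurableSet (ball x e) := measurableSet_ball
      have hle : ∫ y in ball x e, ((dist x y) ^ (2 * q + 2))⁻¹ ∂(muQ q R) =
          ∫ y in closedBall (0 : En q) R ∩ ball (x : En q) e, ((dist (x : En q) y) ^ (2 * q + 2))⁻¹ := by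
        rw [← integral_indicator hset]
        have h1 : ∀ y : closedBall (0 : En q) R,
            (ball x e).indicator (fun y => ((dist x y) ^ (2 * q + 2))⁻¹) y =
            (ball (x : En q) e).indicator (fun y : En q => ((dist (x : En q) y) ^ (2 * q + 2))⁻¹) y := by
          intro y
          by_cases h : y ∈ ball x e
          · have h' : (y : En q) ∈ ball (x : En q) e := h
            rw [indicator_of_mem h, indicator_of_mem h']
            rfl
          · have h' : (y : En q) ∉ ball (x : En q) e := h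
            rw [indicator_of_notMem h, indicator_of_notMem h']
        rw [integral_congr_ae (Filter.Eventually.of_forall h1), muQ,
          integral_subtype_comap measurableSet_closedBall
            (fun y : En q => (ball (x : En q) e).indicator
              (fun y : En q => ((dist (x : En q) y) ^ (2 * q + 2))⁻¹) y),
          integral_indicator measurableSet_ball, Measure.restrict_restrict measurableSet_ball,
          inter_comm]
      rw [hle, ← sbQ_integral q (x : En q) e he]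
      refine setIntegral_mono_set (sbQ_integrableOn q (x : En q) e) ?_ ?_
      · exact Filter.Eventually.of_forall fun y => by
          simp only [Pi.zero_apply]
          positivity
      · exact Filter.Eventually.of_forall inter_subset_right

end Pool.Agent.Work.MP_f2af60_mp

end

section

/-!
# MP_f2af60_mp, item Q2: Gaussian subordination

The integrals `I_s = ∫ e^{-Et} (4πt)^{-s} e^{-b/4t} dt` satisfy
`4 π² b I_{s+2} = 4 π s I_{s+1} + E I_s` (integration by parts), which is the recursion of `eb`.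
-/

namespace Pool.Agent.Work.MP_f2af60_mp

open MeasureTheory Set Filter Topology

/-- The integrand. -/
noncomputable def subG (s E b t : ℝ) : ℝ :=
  Real.exp (-(E * t)) * ((4 * Real.pi * t) ^ (-s) * Real.exp (-(b / (4 * t))))

theorem subG_zero {s : ℝ} (hs : 0 < s) (E b : ℝ) : subG s E b 0 = 0 := by
  unfold subG
  rw [mul_zero, mul_zero, Real.zero_rpow (by linarith)]
  ring

theorem subG_nonneg (s E b : ℝ) {t : ℝ} (ht : 0 ≤ t) : 0 ≤ subG s E b t := by
  unfold subG
  have := Real.pi_pos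
  positivity

theorem subG_tendsto_zero {b : ℝ} (s E : ℝ) (hb : 0 < b) :
    Tendsto (subG s E b) (𝓝[>] 0) (𝓝 0) := by
  have hpi := Real.pi_pos
  have h1 := (tendsto_rpow_mul_exp_neg_mul_atTop_nhds_zero s (b / 4) (by positivity)).comp
    (tendsto_inv_nhdsGT_zero (𝕜 := ℝ))
  have h2 : Tendsto (fun t : ℝ => Real.exp (-(E * t)) * (4 * Real.pi) ^ (-s)) (𝓝[>] 0)
      (𝓝 (Real.exp (-(E * 0)) * (4 * Real.pi) ^ (-s))) := by
    have hc : Continuous (fun t : ℝ => Real.exp (-(E * t)) * (4 * Real.pi) ^ (-s)) := by fun_prop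
    exact (hc.tendsto 0).mono_left nhdsWithin_le_nhds
  have h3 := h2.mul h1
  rw [mul_zero] at h3
  refine h3.congr' ?_
  filter_upwards [self_mem_nhdsWithin] with t ht
  have ht' : 0 < t := ht
  unfold subG
  rw [Function.comp_apply, Real.mul_rpow (by positivity) ht'.le, Real.inv_rpow ht'.le,
    Real.rpow_neg ht'.le]
  have e1 : -(b / 4) * t⁻¹ = -(b / (4 * t)) := by
    field_simp
  rw [e1]
  ring

theorem subG_hasDerivAt (s E b : ℝ) {t : ℝ} (ht : 0 < t) :
    HasDerivAt (subG s E b) (-(4 * Real.pi * s) * subG (s + 1) E b t - E * subG s E b t +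
      4 * Real.pi ^ 2 * b * subG (s + 2) E b t) t := by
  have hpi := Real.pi_pos
  have h0 : 0 < 4 * Real.pi * t := by positivity
  have d1 : HasDerivAt (fun t : ℝ => Real.exp (-(E * t))) (Real.exp (-(E * t)) * -E) t := by
    have := ((hasDerivAt_id t).const_mul E).neg.exp
    simpa using this
  have d2 : HasDerivAt (fun t : ℝ => (4 * Real.pi * t) ^ (-s))
      ((4 * Real.pi) * (-s) * (4 * Real.pi * t) ^ (-s - 1)) t := by
    have e := (hasDerivAt_id t).const_mul (4 * Real.pi)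
    have := e.rpow_const (p := -s) (Or.inl h0.ne')
    simpa using this
  have d3 : HasDerivAt (fun t : ℝ => Real.exp (-(b / (4 * t))))
      (Real.exp (-(b / (4 * t))) * (b / (4 * t ^ 2))) t := by
    have e := (((hasDerivAt_const t b).div ((hasDerivAt_id t).const_mul 4)
      (by positivity : (4 : ℝ) * id t ≠ 0)).neg).exp
    refine e.congr_deriv ?_
    simp only [id, Pi.neg_apply, Pi.div_apply]
    field_simp
    ring
  refine (d1.mul (d2.mul d3)).congr_deriv ?_
  unfold subG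
  have e1 : (4 * Real.pi * t) ^ (-(s + 1)) = (4 * Real.pi * t) ^ (-s) / (4 * Real.pi * t) := by
    rw [← Real.rpow_sub_one h0.ne']
    congr 1
    ring
  have e2 : (4 * Real.pi * t) ^ (-(s + 2)) =
      (4 * Real.pi * t) ^ (-s) / (4 * Real.pi * t) ^ 2 := by
    rw [← Real.rpow_natCast (4 * Real.pi * t) 2, ← Real.rpow_sub h0]
    congr 1
    push_cast
    ring
  have e3 : (4 * Real.pi * t) ^ (-s - 1) = (4 * Real.pi * t) ^ (-s) / (4 * Real.pi * t) :=
    Real.rpow_sub_one h0.ne' _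
  rw [e1, e2]
  simp only [Pi.mul_apply, e3]
  field_simp
  ring

theorem subG_continuousOn {s b : ℝ} (E : ℝ) (hs : 0 < s) (hb : 0 < b) :
    ContinuousOn (subG s E b) (Ici 0) := by
  intro t ht
  rcases (mem_Ici.1 ht).eq_or_lt with h | h
  · rw [← h]
    rw [← continuousWithinAt_Ioi_iff_Ici]
    show Tendsto (subG s E b) (𝓝[>] 0) (𝓝 (subG s E b 0))
    rw [subG_zero hs]
    exact subG_tendsto_zero s E hb
  · exact (subG_hasDerivAt s E b h).continuousAt.continuousWithinAt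

theorem subG_le {s E b t : ℝ} (hs : 0 < s) (hb : 0 < b) (ht : 1 ≤ t) :
    subG s E b t ≤ Real.exp (-(E * t)) := by
  have hpi := Real.pi_gt_three
  unfold subG
  have h1 : (4 * Real.pi * t) ^ (-s) ≤ 1 :=
    Real.rpow_le_one_of_one_le_of_nonpos (by nlinarith) (by linarith)
  have h2 : Real.exp (-(b / (4 * t))) ≤ 1 := by
    rw [Real.exp_le_one_iff]
    have : 0 ≤ b / (4 * t) := by positivity
    linarith
  have h3 : (4 * Real.pi * t) ^ (-s) * Real.exp (-(b / (4 * t))) ≤ 1 :=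
    mul_le_one₀ h1 (Real.exp_pos _).le h2
  calc _ ≤ Real.exp (-(E * t)) * 1 := mul_le_mul_of_nonneg_left h3 (Real.exp_pos _).le
    _ = _ := mul_one _

theorem subG_integrable {s E b : ℝ} (hs : 0 < s) (hE : 0 < E) (hb : 0 < b) :
    IntegrableOn (subG s E b) (Ioi 0) := by
  refine integrable_of_isBigO_exp_neg hE (subG_continuousOn E hs hb) ?_
  refine Asymptotics.IsBigO.of_bound 1 ?_
  filter_upwards [eventually_ge_atTop 1] with t ht
  rw [Real.norm_of_nonneg (subG_nonneg s E b (by linarith)),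
    Real.norm_of_nonneg (Real.exp_pos _).le, one_mul]
  refine (subG_le hs hb ht).trans (le_of_eq ?_)
  congr 1
  ring

theorem subG_tendsto_top {s E b : ℝ} (hs : 0 < s) (hE : 0 < E) (hb : 0 < b) :
    Tendsto (subG s E b) atTop (𝓝 0) := by
  have h1 : Tendsto (fun t : ℝ => Real.exp (-(E * t))) atTop (𝓝 0) :=
    Real.tendsto_exp_neg_atTop_nhds_zero.comp (tendsto_id.const_mul_atTop hE)
  refine tendsto_of_tendsto_of_tendsto_of_le_of_le' tendsto_const_nhds h1 ?_ ?_
  · filter_upwards [eventually_ge_atTop 0] with t ht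
    exact subG_nonneg s E b ht
  · filter_upwards [eventually_ge_atTop 1] with t ht
    exact subG_le hs hb ht

/-- The integral. -/
noncomputable def subI (s E b : ℝ) : ℝ := ∫ t in Ioi (0 : ℝ), subG s E b t

theorem subI_rec {s E b : ℝ} (hs : 0 < s) (hE : 0 < E) (hb : 0 < b) :
    4 * Real.pi ^ 2 * b * subI (s + 2) E b = 4 * Real.pi * s * subI (s + 1) E b +
      E * subI s E b := by
  have i1 := (subG_integrable (s := s + 1) (by linarith) hE hb).const_mul (-(4 * Real.pi * s))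
  have i2 := (subG_integrable hs hE hb).const_mul E
  have i3 := (subG_integrable (s := s + 2) (by linarith) hE hb).const_mul (4 * Real.pi ^ 2 * b)
  have h := integral_Ioi_of_hasDerivAt_of_tendsto
    ((subG_continuousOn E hs hb) 0 self_mem_Ici)
    (fun t ht => subG_hasDerivAt s E b ht) ((i1.sub i2).add i3) (subG_tendsto_top hs hE hb)
  rw [subG_zero hs, sub_zero] at h
  have h4 : ∫ t in Ioi (0 : ℝ), (-(4 * Real.pi * s) * subG (s + 1) E b t - E * subG s E b t +
      4 * Real.pi ^ 2 * b * subG (s + 2) E b t) = -(4 * Real.pi * s) * subI (s + 1) E b -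
        E * subI s E b + 4 * Real.pi ^ 2 * b * subI (s + 2) E b := by
    unfold subI
    rw [← integral_const_mul, ← integral_const_mul, ← integral_const_mul]
    rw [← integral_sub i1 i2]
    exact integral_add (i1.sub i2) i3
  rw [h4] at h
  linarith

/-! ### The first two integrals -/

/-- The primitive in dimension three. -/
noncomputable def subH (k a t : ℝ) : ℝ :=
  Real.exp (-(2 * k * a)) * heatInt_Phi (k * Real.sqrt t - a / Real.sqrt t) -
    Real.exp (2 * k * a) * heatInt_Phi (k * Real.sqrt t + a / Real.sqrt t)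

theorem subH_deriv {k a t : ℝ} (ht : 0 < t) :
    HasDerivAt (subH k a) (a * (t * Real.sqrt t)⁻¹ *
      Real.exp (-(a ^ 2 / t) - k ^ 2 * t)) t := by
  have hs : 0 < Real.sqrt t := Real.sqrt_pos.2 ht
  have d0 : HasDerivAt (fun t : ℝ => Real.sqrt t) (1 / (2 * Real.sqrt t)) t :=
    Real.hasDerivAt_sqrt ht.ne'
  have dp : HasDerivAt (fun t : ℝ => k * Real.sqrt t + a / Real.sqrt t)
      (k * (1 / (2 * Real.sqrt t)) - a * (1 / (2 * Real.sqrt t)) / Real.sqrt t ^ 2) t := by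
    refine ((d0.const_mul k).add ((hasDerivAt_const t a).div d0 hs.ne')).congr_deriv ?_
    ring
  have dm : HasDerivAt (fun t : ℝ => k * Real.sqrt t - a / Real.sqrt t)
      (k * (1 / (2 * Real.sqrt t)) + a * (1 / (2 * Real.sqrt t)) / Real.sqrt t ^ 2) t := by
    refine ((d0.const_mul k).sub ((hasDerivAt_const t a).div d0 hs.ne')).congr_deriv ?_
    ring
  have dA := ((heatInt_Phi_deriv (k * Real.sqrt t + a / Real.sqrt t)).comp t dp).const_mul
    (Real.exp (2 * k * a))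
  have dB := ((heatInt_Phi_deriv (k * Real.sqrt t - a / Real.sqrt t)).comp t dm).const_mul
    (Real.exp (-(2 * k * a)))
  refine (dB.sub dA).congr_deriv ?_
  obtain ⟨s, hs0, hst⟩ : ∃ s : ℝ, 0 < s ∧ t = s ^ 2 := ⟨Real.sqrt t, hs, (Real.sq_sqrt ht.le).symm⟩
  have hsq : Real.sqrt t = s := by rw [hst, Real.sqrt_sq hs0.le]
  rw [hsq, hst]
  have eA : Real.exp (2 * k * a) * Real.exp (-((k * s + a / s) ^ 2)) =
      Real.exp (-(a ^ 2 / s ^ 2) - k ^ 2 * s ^ 2) := by
    rw [← Real.exp_add]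
    congr 1
    field_simp
    ring
  have eB : Real.exp (-(2 * k * a)) * Real.exp (-((k * s - a / s) ^ 2)) =
      Real.exp (-(a ^ 2 / s ^ 2) - k ^ 2 * s ^ 2) := by
    rw [← Real.exp_add]
    congr 1
    field_simp
    ring
  rw [← mul_assoc (Real.exp (2 * k * a)), ← mul_assoc (Real.exp (-(2 * k * a))), eA, eB]
  set X := Real.exp (-(a ^ 2 / s ^ 2) - k ^ 2 * s ^ 2) with hX
  field_simp
  ring

theorem subH_core {k a : ℝ} (hk : 0 < k) (ha : 0 < a) :
    ∫ t in Ioi (0 : ℝ), a * (t * Real.sqrt t)⁻¹ *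
      Real.exp (-(a ^ 2 / t) - k ^ 2 * t) = Real.sqrt Real.pi * Real.exp (-(2 * k * a)) := by
  set L := Real.exp (-(2 * k * a)) * (-(Real.sqrt Real.pi / 2)) -
    Real.exp (2 * k * a) * (Real.sqrt Real.pi / 2) with hL
  have hp : Tendsto (fun t : ℝ => k * Real.sqrt t + a / Real.sqrt t) (𝓝[>] 0) atTop :=
    (heatInt_mul_zero k).add_atTop (heatInt_inv_zero ha)
  have hm : Tendsto (fun t : ℝ => k * Real.sqrt t - a / Real.sqrt t) (𝓝[>] 0) atBot := by
    simp only [sub_eq_add_neg]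
    exact (heatInt_mul_zero k).add_atBot (tendsto_neg_atTop_atBot.comp (heatInt_inv_zero ha))
  have hF0 : Tendsto (subH k a) (𝓝[>] 0) (𝓝 L) :=
    ((heatInt_Phi_bot.comp hm).const_mul (Real.exp (-(2 * k * a)))).sub
      ((heatInt_Phi_top.comp hp).const_mul (Real.exp (2 * k * a)))
  have h0 : Tendsto (fun t : ℝ => k * Real.sqrt t) atTop atTop :=
    Real.tendsto_sqrt_atTop.const_mul_atTop hk
  have h1 : Tendsto (fun t : ℝ => a / Real.sqrt t) atTop (𝓝 0) := by
    have := (tendsto_inv_atTop_zero.comp Real.tendsto_sqrt_atTop).const_mul a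
    rw [mul_zero] at this
    refine this.congr (fun t => ?_)
    rw [Function.comp_apply, div_eq_mul_inv]
  have hp' : Tendsto (fun t : ℝ => k * Real.sqrt t + a / Real.sqrt t) atTop atTop :=
    h0.atTop_add h1
  have hm' : Tendsto (fun t : ℝ => k * Real.sqrt t - a / Real.sqrt t) atTop atTop := by
    simp only [sub_eq_add_neg]
    exact h0.atTop_add h1.neg
  have htop : Tendsto (subH k a) atTop (𝓝 (Real.exp (-(2 * k * a)) * (Real.sqrt Real.pi / 2) -
      Real.exp (2 * k * a) * (Real.sqrt Real.pi / 2))) :=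
    ((heatInt_Phi_top.comp hm').const_mul (Real.exp (-(2 * k * a)))).sub
      ((heatInt_Phi_top.comp hp').const_mul (Real.exp (2 * k * a)))
  set g := Function.update (subH k a) 0 L with hg
  have hcont : ContinuousWithinAt g (Ici 0) 0 := by
    rw [hg, continuousWithinAt_update_same]
    rwa [Ici_sdiff_left]
  have hgeq : ∀ t : ℝ, 0 < t → g =ᶠ[𝓝 t] subH k a := by
    intro t ht
    filter_upwards [lt_mem_nhds ht] with u hu
    rw [hg, Function.update_of_ne hu.ne']
  have hderiv : ∀ t ∈ Ioi (0 : ℝ), HasDerivAt g (a * (t * Real.sqrt t)⁻¹ *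
      Real.exp (-(a ^ 2 / t) - k ^ 2 * t)) t := fun t ht =>
    (subH_deriv ht).congr_of_eventuallyEq (hgeq t ht)
  have hpos : ∀ t ∈ Ioi (0 : ℝ), 0 ≤ a * (t * Real.sqrt t)⁻¹ *
      Real.exp (-(a ^ 2 / t) - k ^ 2 * t) := fun t ht => by
    have ht' : 0 < t := ht
    positivity
  have htop' : Tendsto g atTop _ := htop.congr' (by
    filter_upwards [eventually_gt_atTop 0] with u hu
    rw [hg, Function.update_of_ne hu.ne'])
  rw [integral_Ioi_of_hasDerivAt_of_nonneg hcont hderiv hpos htop', hg, Function.update_self, hL]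
  ring

theorem subI_zero {k r : ℝ} (hk : 0 < k) (hr : 0 < r) :
    subI (3 / 2) (k ^ 2) (r ^ 2) = Real.exp (-(k * r)) / (4 * Real.pi * r) := by
  have hpi := Real.pi_pos
  have ha : 0 < r / 2 := by positivity
  have h2 := subH_core hk ha
  set c : ℝ := ((r / 2) * (8 * Real.pi * Real.sqrt Real.pi))⁻¹ with hc
  have hsp : 0 < Real.sqrt Real.pi := Real.sqrt_pos.2 hpi
  have hcongr : ∀ t ∈ Ioi (0 : ℝ), c * ((r / 2) * (t * Real.sqrt t)⁻¹ *
      Real.exp (-((r / 2) ^ 2 / t) - k ^ 2 * t)) = subG (3 / 2) (k ^ 2) (r ^ 2) t := by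
    intro t ht
    have ht' : 0 < t := ht
    have hs : 0 < Real.sqrt t := Real.sqrt_pos.2 ht'
    have e1 : (4 * Real.pi * t) ^ (-(3 / 2 : ℝ)) =
        (8 * Real.pi * Real.sqrt Real.pi * (t * Real.sqrt t))⁻¹ := by
      have h0 : 0 < 4 * Real.pi * t := by positivity
      rw [Real.rpow_neg h0.le, show (3 / 2 : ℝ) = 1 + 1 / 2 by norm_num, Real.rpow_add h0,
        ← Real.sqrt_eq_rpow, Real.rpow_one, mul_assoc 4, Real.sqrt_mul (by norm_num : (0 : ℝ) ≤ 4),
        Real.sqrt_mul hpi.le, show (4 : ℝ) = 2 ^ 2 by norm_num, Real.sqrt_sq (by norm_num)]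
      congr 1
      ring
    have e2 : -((r / 2) ^ 2 / t) - k ^ 2 * t = -(k ^ 2 * t) + -(r ^ 2 / (4 * t)) := by
      have : (r / 2) ^ 2 / t = r ^ 2 / (4 * t) := by
        field_simp
        ring
      rw [this]
      ring
    unfold subG
    rw [e1, e2, hc, Real.exp_add]
    field_simp
  unfold subI
  rw [← setIntegral_congr_fun measurableSet_Ioi hcongr, integral_const_mul, h2, hc]
  have e3 : 2 * k * (r / 2) = k * r := by ring
  rw [e3]
  field_simp
  ring

theorem subI_one {k r : ℝ} (hk : 0 < k) (hr : 0 < r) :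
    subI (5 / 2) (k ^ 2) (r ^ 2) =
      Real.exp (-(k * r)) * (1 + k * r) / (8 * Real.pi ^ 2 * r ^ 3) := by
  have hpi := Real.pi_pos
  rw [← (heatIntegral k r hk hr).2]
  unfold subI
  refine setIntegral_congr_fun measurableSet_Ioi fun t ht => ?_
  have ht' : 0 < t := ht
  have h0 : 0 < 4 * Real.pi * t := by positivity
  unfold subG
  rw [Real.rpow_neg h0.le, sub_eq_add_neg, Real.exp_add]
  ring

/-! ### All dimensions -/

theorem subI_eb {k r : ℝ} (hk : 0 < k) (hr : 0 < r) (q : ℕ) :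
    eb q (Complex.I * (k : ℂ) * (r : ℂ)) / (r : ℂ) ^ (2 * q + 1) =
      (subI ((q : ℝ) + 3 / 2) (k ^ 2) (r ^ 2) : ℂ) := by
  have hpi := Real.pi_pos
  have hpic : (Real.pi : ℂ) ≠ 0 := by exact_mod_cast hpi.ne'
  have hrc : (r : ℂ) ≠ 0 := by exact_mod_cast hr.ne'
  have hexp : Complex.exp (Complex.I * (Complex.I * (k : ℂ) * (r : ℂ))) =
      ((Real.exp (-(k * r)) : ℝ) : ℂ) := by
    rw [Complex.ofReal_exp]
    congr 1
    push_cast
    linear_combination (k : ℂ) * (r : ℂ) * Complex.I_mul_I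
  induction q using Nat.twoStepInduction with
  | zero =>
    have h := subI_zero hk hr
    have e : ((0 : ℕ) : ℝ) + 3 / 2 = 3 / 2 := by norm_num
    rw [e, h]
    unfold eb
    rw [hexp]
    push_cast
    field_simp
  | one =>
    have h := subI_one hk hr
    have e : ((1 : ℕ) : ℝ) + 3 / 2 = 5 / 2 := by norm_num
    rw [e, h]
    unfold eb
    rw [hexp]
    have e2 : 1 - Complex.I * (Complex.I * (k : ℂ) * (r : ℂ)) = 1 + (k : ℂ) * (r : ℂ) := by
      linear_combination -(k : ℂ) * (r : ℂ) * Complex.I_mul_I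
    rw [e2]
    push_cast
    field_simp
  | more q ih1 ih2 =>
    have hrec := subI_rec (s := (q : ℝ) + 3 / 2) (E := k ^ 2) (b := r ^ 2) (by positivity)
      (by positivity) (by positivity)
    have e1 : (((q + 1 : ℕ) : ℝ)) + 3 / 2 = (q : ℝ) + 3 / 2 + 1 := by push_cast; ring
    have e2 : (((q + 2 : ℕ) : ℝ)) + 3 / 2 = (q : ℝ) + 3 / 2 + 2 := by push_cast; ring
    rw [e1] at ih2
    rw [e2]
    have hrecc : 4 * (Real.pi : ℂ) ^ 2 * (r : ℂ) ^ 2 *
        (subI ((q : ℝ) + 3 / 2 + 2) (k ^ 2) (r ^ 2) : ℂ) =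
        4 * (Real.pi : ℂ) * ((q : ℂ) + 3 / 2) * (subI ((q : ℝ) + 3 / 2 + 1) (k ^ 2) (r ^ 2) : ℂ) +
          (k : ℂ) ^ 2 * (subI ((q : ℝ) + 3 / 2) (k ^ 2) (r ^ 2) : ℂ) := by
      have h5 := congrArg (fun x : ℝ => (x : ℂ)) hrec
      push_cast at h5
      exact h5
    rw [← ih1, ← ih2] at hrecc
    have hne : 4 * (Real.pi : ℂ) ^ 2 * (r : ℂ) ^ 2 ≠ 0 :=
      mul_ne_zero (mul_ne_zero (by norm_num) (pow_ne_zero _ hpic)) (pow_ne_zero _ hrc)
    have hI : (Complex.I * (k : ℂ) * (r : ℂ)) ^ 2 = -((k : ℂ) ^ 2 * (r : ℂ) ^ 2) := by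
      rw [mul_pow, mul_pow, Complex.I_sq]
      ring
    apply mul_left_cancel₀ hne
    rw [hrecc]
    rw [eb, hI]
    set A := eb (q + 1) (Complex.I * (k : ℂ) * (r : ℂ)) with hA
    set B := eb q (Complex.I * (k : ℂ) * (r : ℂ)) with hB
    have p1 : (r : ℂ) ^ (2 * (q + 2) + 1) = (r : ℂ) ^ (2 * q + 1) * (r : ℂ) ^ 4 := by ring
    have p2 : (r : ℂ) ^ (2 * (q + 1) + 1) = (r : ℂ) ^ (2 * q + 1) * (r : ℂ) ^ 2 := by ring
    rw [p1, p2]
    have hrq : (r : ℂ) ^ (2 * q + 1) ≠ 0 := pow_ne_zero _ hrc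
    field_simp
    ring

theorem subord' : Subord := by
  intro q E x hE hx
  have hpi := Real.pi_pos
  have hr : 0 < ‖x‖ := norm_pos_iff.2 hx
  have hk : 0 < Real.sqrt E := Real.sqrt_pos.2 hE
  have hkE : Real.sqrt E ^ 2 = E := Real.sq_sqrt hE.le
  constructor
  · rw [subI_eb hk hr q, hkE]
    congr 1
    unfold subI HH pt subG
    refine setIntegral_congr_fun measurableSet_Ioi fun t _ => ?_
    simp
  · intro hq
    obtain ⟨p, rfl⟩ : ∃ p, q = p + 1 := ⟨q - 1, by omega⟩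
    have h := subI_eb hk hr p
    rw [hkE] at h
    have hH : HH (p + 1) 1 E x = (4 * Real.pi)⁻¹ * subI ((p : ℝ) + 3 / 2) E (‖x‖ ^ 2) := by
      unfold subI HH pt subG
      rw [← integral_const_mul]
      refine setIntegral_congr_fun measurableSet_Ioi fun t ht => ?_
      have ht' : 0 < t := ht
      have h0 : 0 < 4 * Real.pi * t := by positivity
      have e1 : (4 * Real.pi * t) ^ (-(((p + 1 : ℕ) : ℝ) + 3 / 2)) =
          (4 * Real.pi * t) ^ (-((p : ℝ) + 3 / 2)) / (4 * Real.pi * t) := by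
        rw [← Real.rpow_sub_one h0.ne']
        congr 1
        push_cast
        ring
      simp only [e1]
      simp only [pow_one, Nat.factorial_one, Nat.cast_one, div_one]
      field_simp
    rw [hH]
    push_cast
    rw [← h]
    have e3 : 2 * (p + 1) - 1 = 2 * p + 1 := by omega
    rw [e3]
    have hrc : (‖x‖ : ℂ) ≠ 0 := by exact_mod_cast hr.ne'
    have hpic : (Real.pi : ℂ) ≠ 0 := by exact_mod_cast hpi.ne'
    field_simp

/-- Item Q2. -/
theorem subord (_ : EbFacts) : Subord := subord'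

end Pool.Agent.Work.MP_f2af60_mp

end

section

/-!
# MP_f2af60_mp, all odd dimensions, Q11: the trace identity
-/

namespace Pool.Agent.Work.MP_f2af60_mp

open MeasureTheory Metric Filter Topology

namespace TQ

lemma inv_pow_le {a : ℝ} (ha : 0 ≤ a) {n N : ℕ} (hn : n ≤ N) :
    (a ^ n)⁻¹ ≤ 1 + (a ^ N)⁻¹ := by
  rcases ha.eq_or_lt with rfl | h0
  · rcases Nat.eq_zero_or_pos n with rfl | hn0
    · have : (0 : ℝ) ≤ ((0 : ℝ) ^ N)⁻¹ := by positivity
      simpa using this
    · have h1 : (0 : ℝ) ≤ ((0 : ℝ) ^ N)⁻¹ := by positivity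
      rw [zero_pow hn0.ne', inv_zero]
      linarith
  rcases le_total a 1 with h | h
  · have : (a ^ n)⁻¹ ≤ (a ^ N)⁻¹ :=
      inv_anti₀ (by positivity) (pow_le_pow_of_le_one ha h hn)
    linarith
  · have h1 : (a ^ n)⁻¹ ≤ 1 := inv_le_one_of_one_le₀ (one_le_pow₀ h)
    have h2 : 0 ≤ (a ^ N)⁻¹ := by positivity
    linarith

section

variable {K : Type} [MetricSpace K] [CompactSpace K] [MeasurableSpace K] [BorelSpace K]
  {q : ℕ} {μ : Measure K} {C : ℝ} {V : K → ℝ} {M : ℝ}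

omit [MetricSpace K] [CompactSpace K] [MeasurableSpace K] [BorelSpace K] in
lemma norm_V (hM : ∀ x, |V x| ≤ M) (y : K) : ‖(V y : ℂ)‖ ≤ M := by
  rw [Complex.norm_real, Real.norm_eq_abs]; exact hM y

omit [MeasurableSpace K] [BorelSpace K] in
lemma ball_univ (x : K) : ball x (diam (Set.univ : Set K) + 1) = Set.univ := by
  ext y
  have : dist y x ≤ diam (Set.univ : Set K) :=
    dist_le_diam_of_mem isCompact_univ.isBounded (Set.mem_univ _) (Set.mem_univ _)
  simp only [mem_ball, Set.mem_univ, iff_true]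
  linarith

lemma int_le (hS : SpQ q μ C) (x : K) :
    ∫ y, ((dist x y) ^ (2 * q + 2))⁻¹ ∂μ ≤ C * (diam (Set.univ : Set K) + 1) := by
  have hd : 0 ≤ diam (Set.univ : Set K) := diam_nonneg
  have h := hS.small x (diam (Set.univ : Set K) + 1) (by linarith)
  rwa [ball_univ, Measure.restrict_univ] at h

lemma int_prod (hS : SpQ q μ C) :
    Integrable (fun p : K × K => ((dist p.1 p.2) ^ (2 * q + 2))⁻¹) (μ.prod μ) := by
  have := hS.fin
  have hm : Measurable (fun p : K × K => ((dist p.1 p.2) ^ (2 * q + 2))⁻¹) := by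
    fun_prop
  rw [integrable_prod_iff hm.aestronglyMeasurable]
  refine ⟨Eventually.of_forall fun x => hS.int x, ?_⟩
  have h1 : AEStronglyMeasurable (fun x => ∫ y, ‖((dist x y) ^ (2 * q + 2))⁻¹‖ ∂μ) μ :=
    (hm.norm.aestronglyMeasurable (μ := μ.prod μ)).integral_prod_right'
  refine Integrable.mono' (integrable_const (C * (diam (Set.univ : Set K) + 1))) h1 ?_
  refine Eventually.of_forall fun x => ?_
  have h2 : ∫ y, ‖((dist x y) ^ (2 * q + 2))⁻¹‖ ∂μ = ∫ y, ((dist x y) ^ (2 * q + 2))⁻¹ ∂μ := by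
    congr 1
    ext y
    rw [Real.norm_of_nonneg (by positivity)]
  show ‖∫ y, ‖((dist x y) ^ (2 * q + 2))⁻¹‖ ∂μ‖ ≤ _
  rw [h2, Real.norm_of_nonneg (integral_nonneg fun y => by positivity)]
  exact int_le hS x

/-- a continuous function times `V` is integrable -/
lemma intV (hS : SpQ q μ C) (hV : Measurable V) (hM : ∀ x, |V x| ≤ M) (w : C(K, ℂ)) :
    Integrable (fun y => (V y : ℂ) * w y) μ := by
  have := hS.fin
  have hm : Measurable (fun y => (V y : ℂ) * w y) := by fun_prop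
  refine Integrable.mono' (integrable_const (M * ‖w‖)) hm.aestronglyMeasurable
    (Eventually.of_forall fun y => ?_)
  have hM0 : 0 ≤ M := (abs_nonneg _).trans (hM y)
  rw [norm_mul]
  have h1 := norm_V hM y
  have h2 := w.norm_coe_le_norm y
  gcongr

lemma cont_diag (S : C(K, ℂ) →L[ℂ] C(K, ℂ)) (k : C(K × K, ℂ)) :
    Continuous fun y => (S (slice k y)) y :=
  (S.continuous.comp (continuous_slice k)).eval continuous_id

lemma intS (hS : SpQ q μ C) (hV : Measurable V) (hM : ∀ x, |V x| ≤ M)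
    (S : C(K, ℂ) →L[ℂ] C(K, ℂ)) (k : C(K × K, ℂ)) :
    Integrable (fun y => (V y : ℂ) * (S (slice k y)) y) μ :=
  intV hS hV hM ⟨_, cont_diag S k⟩

/-- the weight `|x-z|^{-(2q+1)}` times a bounded kernel -/
lemma intA (hS : SpQ q μ C) (hV : Measurable V) (hM : ∀ x, |V x| ≤ M) (h : C(K × K, ℂ))
    (f : C(K, ℂ)) (x : K) : Integrable (fun y => h (x, y) *
      ((((dist x y) ^ (2 * q + 1))⁻¹ : ℝ) : ℂ) * (V y : ℂ) * f y) μ := by
  have := hS.fin
  have hm : Measurable (fun y => h (x, y) *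
      ((((dist x y) ^ (2 * q + 1))⁻¹ : ℝ) : ℂ) * (V y : ℂ) * f y) := by
    fun_prop
  have hM0 : 0 ≤ M := (abs_nonneg _).trans (hM x)
  refine Integrable.mono' (((integrable_const (1 : ℝ)).add (hS.int x)).const_mul (‖h‖ * M * ‖f‖))
    hm.aestronglyMeasurable (Eventually.of_forall fun y => ?_)
  rw [norm_mul, norm_mul, norm_mul, Complex.norm_real, Real.norm_of_nonneg (by positivity)]
  have h1 := h.norm_coe_le_norm (x, y)
  have h2 := f.norm_coe_le_norm y
  have h3 := norm_V hM y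
  have h4 := inv_pow_le (dist_nonneg (x := x) (y := y)) (show 2 * q + 1 ≤ 2 * q + 2 by omega)
  calc ‖h (x, y)‖ * (dist x y ^ (2 * q + 1))⁻¹ * ‖(V y : ℂ)‖ * ‖f y‖
      ≤ ‖h‖ * (1 + (dist x y ^ (2 * q + 2))⁻¹) * M * ‖f‖ := by gcongr
    _ = ‖h‖ * M * ‖f‖ * (1 + (dist x y ^ (2 * q + 2))⁻¹) := by ring

lemma intP (hS : SpQ q μ C) (hV : Measurable V) (hM : ∀ x, |V x| ≤ M) (p f : C(K, ℂ)) :
    Integrable (fun y => p y * (V y : ℂ) * f y) μ := by
  have := intV hS hV hM (p * f)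
  refine this.congr (Eventually.of_forall fun y => ?_)
  simp only [ContinuousMap.mul_apply]
  ring

/-- a symmetric singular kernel bound gives integrability of slices and on the product -/
lemma intKer (hS : SpQ q μ C) (hV : Measurable V) (hM : ∀ x, |V x| ≤ M) {k : K → K → ℂ}
    (hk : Measurable (Function.uncurry k)) {D : ℝ}
    (hb : ∀ x y, x ≠ y → ‖k x y‖ ≤ D * (1 + ((dist x y) ^ (2 * q + 2))⁻¹)) (p : C(K, ℂ)) (y : K) :
    Integrable (fun x => p x * (V x : ℂ) * k x y) μ := by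
  have := hS.fin
  have := hS.noat
  have hm : Measurable (fun x => p x * (V x : ℂ) * k x y) := by
    have : Measurable fun x => k x y := hk.comp (measurable_id.prodMk measurable_const)
    fun_prop
  have hM0 : 0 ≤ M := (abs_nonneg _).trans (hM y)
  refine Integrable.mono' (((integrable_const (1 : ℝ)).add (hS.int y)).const_mul (‖p‖ * M * D))
    hm.aestronglyMeasurable ?_
  have hx : {y}ᶜ ∈ ae μ := compl_mem_ae_iff.2 (measure_singleton y)
  filter_upwards [hx] with x hx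
  rw [norm_mul, norm_mul]
  have h1 := p.norm_coe_le_norm x
  have h3 := norm_V hM x
  have h4 := hb x y hx
  rw [dist_comm x y] at h4
  have h5 : 0 ≤ D * (1 + ((dist y x) ^ (2 * q + 2))⁻¹) := (norm_nonneg _).trans h4
  calc ‖p x‖ * ‖(V x : ℂ)‖ * ‖k x y‖
      ≤ ‖p‖ * M * (D * (1 + (dist y x ^ (2 * q + 2))⁻¹)) := by gcongr
    _ = ‖p‖ * M * D * (1 + (dist y x ^ (2 * q + 2))⁻¹) := by ring

lemma intKer_prod (hS : SpQ q μ C) (hV : Measurable V) (hM : ∀ x, |V x| ≤ M) {k : K → K → ℂ}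
    (hk : Measurable (Function.uncurry k)) {D : ℝ}
    (hb : ∀ x y, x ≠ y → ‖k x y‖ ≤ D * (1 + ((dist x y) ^ (2 * q + 2))⁻¹)) (p w : C(K, ℂ)) :
    Integrable (fun r : K × K => (V r.1 : ℂ) * w r.1 *
      (p r.2 * (V r.2 : ℂ) * k r.2 r.1)) (μ.prod μ) := by
  have := hS.fin
  have := hS.noat
  have hm : Measurable (fun r : K × K => (V r.1 : ℂ) * w r.1 *
      (p r.2 * (V r.2 : ℂ) * k r.2 r.1)) := by
    have : Measurable fun r : K × K => k r.2 r.1 := hk.comp (measurable_snd.prodMk measurable_fst)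
    fun_prop
  refine Integrable.mono' (((integrable_const (1 : ℝ)).add (int_prod hS)).const_mul
    (M * ‖w‖ * (‖p‖ * M * D))) hm.aestronglyMeasurable ?_
  have hdiag : ∀ᵐ r : K × K ∂(μ.prod μ), r.2 ≠ r.1 := by
    have hms : MeasurableSet {r : K × K | r.2 ≠ r.1} :=
      (measurableSet_eq_fun measurable_snd measurable_fst).compl
    have h0 : ∀ᵐ x ∂μ, ∀ᵐ y ∂μ, (x, y).2 ≠ (x, y).1 := by
      refine Eventually.of_forall fun x => ?_
      have hx : {x}ᶜ ∈ ae μ := compl_mem_ae_iff.2 (measure_singleton x)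
      filter_upwards [hx] with y hy
      exact hy
    exact (Measure.ae_prod_iff_ae_ae hms).2 h0
  filter_upwards [hdiag] with r hr
  obtain ⟨y, x⟩ := r
  simp only at hr ⊢
  have hM0 : 0 ≤ M := (abs_nonneg _).trans (hM y)
  simp only [norm_mul]
  have h1 := p.norm_coe_le_norm x
  have h2 := w.norm_coe_le_norm y
  have h3 := norm_V hM x
  have h3' := norm_V hM y
  have h4 := hb x y hr
  rw [dist_comm x y] at h4
  have h5 : 0 ≤ D * (1 + ((dist y x) ^ (2 * q + 2))⁻¹) := (norm_nonneg _).trans h4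
  calc ‖(V y : ℂ)‖ * ‖w y‖ * (‖p x‖ * ‖(V x : ℂ)‖ * ‖k x y‖)
      ≤ M * ‖w‖ * (‖p‖ * M * (D * (1 + (dist y x ^ (2 * q + 2))⁻¹))) := by gcongr
    _ = M * ‖w‖ * (‖p‖ * M * D) * (1 + (dist y x ^ (2 * q + 2))⁻¹) := by ring

omit [CompactSpace K] [MeasurableSpace K] [BorelSpace K] in
lemma pow_mul_inv {x y : K} (hxy : y ≠ x) (n : ℕ) :
    ((dist x y : ℝ) : ℂ) ^ n * ((((dist x y) ^ n)⁻¹ : ℝ) : ℂ) = 1 := by
  have h : dist x y ≠ 0 := dist_ne_zero.2 hxy.symm
  have : ((dist x y : ℝ) : ℂ) ≠ 0 := by exact_mod_cast h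
  rw [Complex.ofReal_inv, Complex.ofReal_pow]
  exact mul_inv_cancel₀ (pow_ne_zero _ this)

/-- The difference of the two operators has finite rank. -/
lemma opDiff (hS : SpQ q μ C) (hV : Measurable V) (hM : ∀ x, |V x| ≤ M) (O : OpsQ q μ V) {N : ℕ}
    {h h₁ : C(K × K, ℂ)} {φ ψ : Fin N → C(K, ℂ)} {c : Fin N → ℂ}
    (hh : ∀ x y, h (x, y) - h₁ (x, y) =
      ((dist x y : ℝ) : ℂ) ^ (2 * q + 1) * ∑ k, c k * φ k x * ψ k y)
    {Ψ : Fin N → (C(K, ℂ) →L[ℂ] ℂ)} (hΨ : ∀ k u, Ψ k u = ∫ y, ψ k y * (V y : ℂ) * u y ∂μ)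
    (u : C(K, ℂ)) : O.Op h u = O.Op h₁ u + ∑ k, (c k * Ψ k u) • φ k := by
  have := hS.fin
  have := hS.noat
  ext x
  simp only [ContinuousMap.add_apply, ContinuousMap.coe_sum, Finset.sum_apply,
    ContinuousMap.smul_apply, smul_eq_mul]
  rw [O.Op_apply, O.Op_apply]
  have e1 : ∀ᵐ y ∂μ, h (x, y) * ((((dist x y) ^ (2 * q + 1))⁻¹ : ℝ) : ℂ) * (V y : ℂ) * u y =
      h₁ (x, y) * ((((dist x y) ^ (2 * q + 1))⁻¹ : ℝ) : ℂ) * (V y : ℂ) * u y +
        ∑ k, (c k * φ k x) * (ψ k y * (V y : ℂ) * u y) := by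
    have hx : {x}ᶜ ∈ ae μ := compl_mem_ae_iff.2 (measure_singleton x)
    filter_upwards [hx] with y hy
    have hy' : y ≠ x := hy
    have h1 := hh x y
    rw [sub_eq_iff_eq_add] at h1
    rw [h1, add_mul, add_mul, add_mul, add_comm]
    congr 1
    calc ((dist x y : ℝ) : ℂ) ^ (2 * q + 1) * (∑ k, c k * φ k x * ψ k y) *
          ((((dist x y) ^ (2 * q + 1))⁻¹ : ℝ) : ℂ) * (V y : ℂ) * u y
        = (((dist x y : ℝ) : ℂ) ^ (2 * q + 1) * ((((dist x y) ^ (2 * q + 1))⁻¹ : ℝ) : ℂ)) *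
            (∑ k, c k * φ k x * ψ k y) * (V y : ℂ) * u y := by
          ring
      _ = (∑ k, c k * φ k x * ψ k y) * (V y : ℂ) * u y := by rw [pow_mul_inv hy', one_mul]
      _ = _ := by
          rw [Finset.sum_mul, Finset.sum_mul]
          exact Finset.sum_congr rfl fun k _ => by ring
  rw [integral_congr_ae e1, integral_add (intA hS hV hM h₁ u x)
    (integrable_finsetSum _ fun k _ => (intP hS hV hM (ψ k) u).const_mul _),
    integral_finsetSum _ fun k _ => (intP hS hV hM (ψ k) u).const_mul _]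
  congr 1
  refine Finset.sum_congr rfl fun k _ => ?_
  rw [integral_const_mul, hΨ]
  ring

/-- Fubini for a singular kernel. -/
lemma fub (hS : SpQ q μ C) (hV : Measurable V) (hM : ∀ x, |V x| ≤ M) {k : K → K → ℂ}
    (hk : Measurable (Function.uncurry k)) {D : ℝ}
    (hb : ∀ x y, x ≠ y → ‖k x y‖ ≤ D * (1 + ((dist x y) ^ (2 * q + 2))⁻¹)) (p w : C(K, ℂ)) :
    ∫ y, (V y : ℂ) * w y * ∫ x, p x * (V x : ℂ) * k x y ∂μ ∂μ =
      ∫ x, p x * (V x : ℂ) * ∫ y, k x y * (V y : ℂ) * w y ∂μ ∂μ := by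
  have := hS.fin
  have h1 := integral_integral_swap (μ := μ) (ν := μ)
    (f := fun y x => (V y : ℂ) * w y * (p x * (V x : ℂ) * k x y))
    (intKer_prod hS hV hM hk hb p w)
  simp only [integral_const_mul] at h1
  rw [h1]
  congr 1
  ext x
  rw [← integral_const_mul]
  congr 1
  ext y
  ring

/-- The Bochner integral of slices of a continuous kernel. -/
lemma bochner (hS : SpQ q μ C) (hV : Measurable V) (hM : ∀ x, |V x| ≤ M) (κ : C(K × K, ℂ))
    (w v : C(K, ℂ)) (hv : ∀ x, v x = ∫ y, κ (x, y) * (V y : ℂ) * w y ∂μ)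
    (L : C(K, ℂ) →L[ℂ] ℂ) :
    ∫ y, (V y : ℂ) * w y * L (slice κ y) ∂μ = L v := by
  have := hS.fin
  have hi : Integrable (fun y => ((V y : ℂ) * w y) • (slice κ y)) μ := by
    have hm : Measurable (fun y => (V y : ℂ) * w y) := by fun_prop
    refine Integrable.mono' (integrable_const (M * ‖w‖ * ‖κ‖))
      (hm.aestronglyMeasurable.smul (continuous_slice κ).aestronglyMeasurable)
      (Eventually.of_forall fun y => ?_)
    rw [norm_smul, norm_mul]
    have hM0 : 0 ≤ M := (abs_nonneg _).trans (hM y)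
    have h1 := norm_V hM y
    have h2 := w.norm_coe_le_norm y
    have h3 := norm_slice_le κ y
    gcongr
  have h1 : ∫ y, ((V y : ℂ) * w y) • (slice κ y) ∂μ = v := by
    ext x
    have h2 := (ContinuousMap.evalCLM ℂ (M := ℂ) x).integral_comp_comm hi
    simp only [ContinuousMap.evalCLM_apply] at h2
    rw [← h2, hv]
    congr 1
    ext y
    simp only [ContinuousMap.smul_apply, slice_apply, smul_eq_mul]
    ring
  have h2 := L.integral_comp_comm hi
  rw [h1] at h2
  rw [← h2]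
  congr 1
  ext y
  rw [map_smul, smul_eq_mul]

end

/-- Neumann type expansion of the resolvent. -/
lemma neumann {X : Type*} [NormedAddCommGroup X] [NormedSpace ℂ X] {T A : X →L[ℂ] X}
    (hT : T * (1 + A) = 1) (n : ℕ) (v : X) :
    T v = ∑ m ∈ Finset.range n, (-1 : ℂ) ^ m • (A ^ m) v + (-1 : ℂ) ^ n • T ((A ^ n) v) := by
  have hT' : ∀ u, T (A u) = u - T u := fun u => by
    have h2 : T (u + A u) = u := congrArg (fun F => F u) hT
    rw [map_add] at h2
    rw [eq_sub_iff_add_eq, add_comm]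
    exact h2
  induction n with
  | zero => simp
  | succ n ih =>
    rw [Finset.sum_range_succ]
    have e : (A ^ (n + 1)) v = A ((A ^ n) v) := by
      rw [pow_succ']; rfl
    rw [e, hT', pow_succ, mul_neg_one, neg_smul, smul_sub]
    conv_lhs => rw [ih]
    abel

lemma telesc (a d : ℕ → ℂ) (q : ℕ) :
    ∑ m ∈ Finset.range q, (-1 : ℂ) ^ m * (a (m + 1) + a m - d m) =
      a 0 - (-1) ^ q * a q - ∑ m ∈ Finset.range q, (-1 : ℂ) ^ m * d m := by
  induction q with
  | zero => simp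
  | succ q ih =>
    rw [Finset.sum_range_succ, Finset.sum_range_succ, ih]
    ring

end TQ

open TQ in
/-- **Q11**: the trace identity. -/
theorem traceIdQ (h8 : KKFacts) (h9 : DKFacts) (h10 : OpIter) : TraceIdQ := by
  intro q hq K _ _ _ _ μ C hS V hV M hM O N h l h₁ l₁ l₂ κ κ₁ φ ψ c c' hh hl hd hl₂ hκ hκ₁
    T T₁ hT hT' hT₁ hT₁' Ψ hΨ
  have := hS.fin
  have := hS.noat
  -- the continuous kernels `f`, `f'`
  set f : C(K × K, ℂ) := ⟨fun p => ∑ k, c k * φ k p.1 * ψ k p.2, by fun_prop⟩ with hf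
  set f' : C(K × K, ℂ) := ⟨fun p => ∑ k, c' k * φ k p.1 * ψ k p.2, by fun_prop⟩ with hf'
  have hfa : ∀ x y, f (x, y) = ∑ k, c k * φ k x * ψ k y := fun x y => rfl
  have hfa' : ∀ x y, f' (x, y) = ∑ k, c' k * φ k x * ψ k y := fun x y => rfl
  obtain ⟨Δ, G, hΔ, hG, hΔq⟩ := h9 q hq K μ C hS V hV M hM h l h₁ l₁ f f'
    (fun x y => by rw [hfa]; exact hh x y) (fun x y => by rw [hfa']; exact hl x y)
  obtain ⟨C₁, hC₁, hKK⟩ := h8 q hq K μ C hS V hV M hM
  obtain ⟨kk1, kk2, -, -, -, -⟩ := hKK h₁ l₁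
  set A := O.Op h with hA
  set A₁ := O.Op h₁ with hA₁
  -- kernel bounds
  have hker : ∀ m < q, ∀ x y, x ≠ y → ‖KK q μ V h₁ l₁ m x y‖ ≤
      (C₁ * ‖h₁‖ ^ m * ‖l₁‖) * (1 + ((dist x y) ^ (2 * q + 2))⁻¹) := fun m hm x y hxy => by
    refine (kk2 m hm x y hxy).trans ?_
    exact mul_le_mul_of_nonneg_left (inv_pow_le dist_nonneg (by omega)) (by positivity)
  -- vectors
  have hTv' : ∀ u, T (A u) = u - T u := fun u => by
    have h2 : T (u + A u) = u := congrArg (fun F => F u) hT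
    rw [map_add] at h2
    rw [eq_sub_iff_add_eq, add_comm]
    exact h2
  have hT₁v : ∀ u, T₁ u + A₁ (T₁ u) = u := fun u => by
    have h2 : T₁ u + O.Op h₁ (T₁ u) = u := congrArg (fun F => F u) hT₁'
    exact h2
  have hdiff := opDiff hS hV hM O hh hΨ
  -- `T F T₁ = T₁ - T`
  have hTFT : ∀ v, ∑ k, (c k * Ψ k (T₁ v)) • T (φ k) = T₁ v - T v := fun v => by
    have h1 := hTv' (T₁ v)
    rw [hA, hdiff (T₁ v), map_add, map_sum] at h1
    simp only [map_smul] at h1
    have h2 := congrArg T (hT₁v v)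
    rw [map_add] at h2
    rw [← h2]
    have h3 : T (A₁ (T₁ v)) = T₁ v - T (T₁ v) - ∑ k, (c k * Ψ k (T₁ v)) • T (φ k) := by
      rw [← h1]; abel
    rw [h3]; abel
  -- slices
  have hsl0 : ∀ y, slice (Δ 0) y = ∑ k, (c' k * ψ k y) • φ k := fun y => by
    ext x
    simp only [slice_apply, ContinuousMap.coe_sum, Finset.sum_apply, ContinuousMap.smul_apply,
      smul_eq_mul]
    rw [hΔ 0 (Nat.zero_le _)]
    simp only [DK]
    rw [hfa']
    exact Finset.sum_congr rfl fun k _ => by ring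
  have hslG : ∀ m < q, ∀ y, slice (G m) y =
      ∑ k, (c k * ∫ x, ψ k x * (V x : ℂ) * KK q μ V h₁ l₁ m x y ∂μ) • φ k := fun m hm y => by
    ext x
    simp only [slice_apply, ContinuousMap.coe_sum, Finset.sum_apply, ContinuousMap.smul_apply,
      smul_eq_mul]
    rw [hG m hm]
    have e : ∀ z, f (x, z) * (V z : ℂ) * KK q μ V h₁ l₁ m z y =
        ∑ k, (c k * φ k x) * (ψ k z * (V z : ℂ) * KK q μ V h₁ l₁ m z y) := fun z => by
      rw [hfa, Finset.sum_mul, Finset.sum_mul]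
      exact Finset.sum_congr rfl fun k _ => by ring
    simp only [e]
    rw [integral_finsetSum _ fun k _ => (intKer hS hV hM (kk1 m) (hker m hm) (ψ k) y).const_mul _]
    refine Finset.sum_congr rfl fun k _ => ?_
    rw [integral_const_mul]
    ring
  have hslD : ∀ m < q, ∀ y, slice (G m) y = slice (Δ (m + 1)) y - A (slice (Δ m) y) :=
    fun m hm y => by
      ext x
      rw [ContinuousMap.sub_apply, slice_apply, slice_apply, hA, O.Op_apply, hG m hm,
        hΔ (m + 1) (by omega)]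
      simp only [DK, slice_apply]
      rw [eq_sub_iff_add_eq, add_comm]
      congr 1
      congr 1
      ext z
      rw [hΔ m (by omega)]
  have hslκ : ∀ y, slice κ y = slice (Δ q) y + slice κ₁ y := fun y => by
    ext x
    rw [ContinuousMap.add_apply, slice_apply, slice_apply, slice_apply, hΔq, hκ, hκ₁]
    ring
  have hκs : κ = Δ q + κ₁ := by
    ext ⟨x, y⟩
    rw [ContinuousMap.add_apply, hΔq, hκ, hκ₁]
    ring
  -- (1)
  have h1 : ∑ k, c' k * Ψ k (T (φ k)) = O.tr T (Δ 0) := by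
    rw [O.tr_apply]
    have e : ∀ y, (V y : ℂ) * (T (slice (Δ 0) y)) y =
        ∑ k, c' k * (ψ k y * (V y : ℂ) * (T (φ k)) y) := fun y => by
      rw [hsl0, map_sum]
      simp only [map_smul, ContinuousMap.coe_sum, Finset.sum_apply, ContinuousMap.smul_apply,
        smul_eq_mul]
      rw [Finset.mul_sum]
      exact Finset.sum_congr rfl fun k _ => by ring
    simp only [e]
    rw [integral_finsetSum _ fun k _ => (intP hS hV hM (ψ k) (T (φ k))).const_mul _]
    refine Finset.sum_congr rfl fun k _ => ?_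
    rw [integral_const_mul, hΨ]
  -- (2)
  have h2 : ∀ m < q, ∑ k, c k * Ψ k ((A₁ ^ m) (O.Op l₂ (T (φ k)))) = O.tr T (G m) := by
    intro m hm
    rw [O.tr_apply]
    have e : ∀ y, (V y : ℂ) * (T (slice (G m) y)) y =
        ∑ k, c k * ((V y : ℂ) * (T (φ k)) y *
          ∫ x, ψ k x * (V x : ℂ) * KK q μ V h₁ l₁ m x y ∂μ) := fun y => by
      rw [hslG m hm, map_sum]
      simp only [map_smul, ContinuousMap.coe_sum, Finset.sum_apply, ContinuousMap.smul_apply,
        smul_eq_mul]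
      rw [Finset.mul_sum]
      exact Finset.sum_congr rfl fun k _ => by ring
    have i1 : ∀ k, Integrable (fun y => (V y : ℂ) * (T (φ k)) y *
        ∫ x, ψ k x * (V x : ℂ) * KK q μ V h₁ l₁ m x y ∂μ) μ := fun k => by
      have h1 := (intKer_prod hS hV hM (kk1 m) (hker m hm) (ψ k) (T (φ k))).integral_prod_left
      simpa only [integral_const_mul] using h1
    simp only [e]
    rw [integral_finsetSum _ fun k _ => (i1 k).const_mul _]
    refine Finset.sum_congr rfl fun k _ => ?_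
    rw [integral_const_mul, fub hS hV hM (kk1 m) (hker m hm) (ψ k) (T (φ k)), hΨ]
    congr 1
    congr 1
    ext x
    rw [(h10 q hq K μ C hS V hV M hM O h₁ l₁ l₂ hl₂ m hm.le (T (φ k)) x).2]
  -- (3)
  have h3 : ∑ k, c k * Ψ k (T₁ ((A₁ ^ q) (O.Op l₂ (T (φ k))))) = O.tr T₁ κ₁ - O.tr T κ₁ := by
    have hb : ∀ k, Ψ k (T₁ ((A₁ ^ q) (O.Op l₂ (T (φ k))))) =
        ∫ y, (V y : ℂ) * (T (φ k)) y * Ψ k (T₁ (slice κ₁ y)) ∂μ := fun k => by
      have := bochner hS hV hM κ₁ (T (φ k)) ((A₁ ^ q) (O.Op l₂ (T (φ k)))) (fun x => by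
        rw [(h10 q hq K μ C hS V hV M hM O h₁ l₁ l₂ hl₂ q le_rfl (T (φ k)) x).2]
        congr 1
        ext y
        rw [hκ₁]) ((Ψ k).comp T₁)
      exact this.symm
    have i1 : ∀ k, Integrable (fun y => (V y : ℂ) * (T (φ k)) y * Ψ k (T₁ (slice κ₁ y))) μ :=
      fun k => by
        have hc : Continuous (fun y => Ψ k (T₁ (slice κ₁ y))) :=
          (Ψ k).continuous.comp (T₁.continuous.comp (continuous_slice κ₁))
        have := intP hS hV hM (T (φ k)) ⟨_, hc⟩
        refine this.congr (Eventually.of_forall fun y => ?_)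
        simp only [ContinuousMap.coe_mk]
        ring
    rw [O.tr_apply, O.tr_apply, ← integral_sub (intS hS hV hM T₁ κ₁) (intS hS hV hM T κ₁)]
    have e : ∀ y, (V y : ℂ) * (T₁ (slice κ₁ y)) y - (V y : ℂ) * (T (slice κ₁ y)) y =
        ∑ k, c k * ((V y : ℂ) * (T (φ k)) y * Ψ k (T₁ (slice κ₁ y))) := fun y => by
      have := congrArg (fun F : C(K, ℂ) => F y) (hTFT (slice κ₁ y))
      simp only [ContinuousMap.sub_apply, ContinuousMap.coe_sum, Finset.sum_apply,
        ContinuousMap.smul_apply, smul_eq_mul] at this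
      rw [← mul_sub, ← this, Finset.mul_sum]
      exact Finset.sum_congr rfl fun k _ => by ring
    simp only [e]
    rw [integral_finsetSum _ fun k _ => (i1 k).const_mul _]
    refine Finset.sum_congr rfl fun k _ => ?_
    rw [integral_const_mul, hb]
  -- (2)+(3)
  have h23 : ∑ k, c k * Ψ k (T₁ (O.Op l₂ (T (φ k)))) =
      ∑ m ∈ Finset.range q, (-1) ^ m * O.tr T (G m) +
        (-1) ^ q * (O.tr T₁ κ₁ - O.tr T κ₁) := by
    have e : ∀ k, c k * Ψ k (T₁ (O.Op l₂ (T (φ k)))) =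
        ∑ m ∈ Finset.range q, (-1) ^ m * (c k * Ψ k ((A₁ ^ m) (O.Op l₂ (T (φ k))))) +
          (-1) ^ q * (c k * Ψ k (T₁ ((A₁ ^ q) (O.Op l₂ (T (φ k)))))) := fun k => by
      conv_lhs => rw [neumann hT₁ q]
      rw [map_add, map_sum, map_smul, mul_add, Finset.mul_sum, smul_eq_mul]
      congr 1
      · refine Finset.sum_congr rfl fun m _ => ?_
        rw [map_smul, smul_eq_mul]
        ring
      · ring
    simp only [e]
    rw [Finset.sum_add_distrib, Finset.sum_comm, ← Finset.mul_sum, h3]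
    congr 1
    refine Finset.sum_congr rfl fun m hm => ?_
    rw [← Finset.mul_sum, h2 m (Finset.mem_range.1 hm)]
  -- (4)
  set d : ℕ → ℂ := fun m => ∫ y, (V y : ℂ) * (Δ m) (y, y) ∂μ with hdd
  have h4 : ∀ m < q, O.tr T (G m) = O.tr T (Δ (m + 1)) + O.tr T (Δ m) - d m := by
    intro m hm
    have i0 : Integrable (fun y => (V y : ℂ) * (Δ m) (y, y)) μ := by
      have := intS hS hV hM 1 (Δ m)
      exact this
    have i1 := intS hS hV hM T (Δ (m + 1))
    have i2 := intS hS hV hM T (Δ m)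
    have e1 := integral_add i1 i2
    have e2 := integral_sub (i1.add i2) i0
    simp only [Pi.add_apply] at e2
    rw [O.tr_apply, O.tr_apply, O.tr_apply]
    show _ = _ - ∫ y, (V y : ℂ) * (Δ m) (y, y) ∂μ
    rw [← e1, ← e2]
    congr 1
    ext y
    rw [hslD m hm, map_sub, hTv']
    simp only [ContinuousMap.sub_apply, slice_apply]
    ring
  -- (5)
  have h5 : O.tr T κ - O.tr T₁ κ₁ = d q - (O.tr (T * A) κ - O.tr (T₁ * A₁) κ₁) := by
    have e1 : T * A = 1 - T := by
      rw [eq_sub_iff_add_eq, add_comm]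
      rw [mul_add, mul_one] at hT
      exact hT
    have e2 : T₁ * A₁ = 1 - T₁ := by
      rw [eq_sub_iff_add_eq, add_comm]
      rw [mul_add, mul_one] at hT₁
      exact hT₁
    have e3 : O.tr 1 (Δ q) = d q := by
      rw [O.tr_apply]
      rfl
    rw [e1, e2, map_sub, map_sub, ContinuousLinearMap.sub_apply, ContinuousLinearMap.sub_apply,
      ← e3]
    have e4 : O.tr 1 κ = O.tr 1 (Δ q) + O.tr 1 κ₁ := by
      conv_lhs => rw [hκs]
      rw [map_add]
    rw [e4]
    ring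
  have h6 : d 0 = 0 := by
    have : ∀ y, (Δ 0) (y, y) = 0 := fun y => by
      rw [hΔ 0 (Nat.zero_le _)]
      simp only [DK]
      rw [hfa', hd]
    simp only [hdd, this, mul_zero, integral_zero]
  have h7 : O.tr T κ = O.tr T (Δ q) + O.tr T κ₁ := by
    conv_lhs => rw [hκs]
    rw [map_add]
  have h8' : ∑ m ∈ Finset.range q, (-1 : ℂ) ^ m * O.tr T (G m) =
      O.tr T (Δ 0) - (-1) ^ q * O.tr T (Δ q) - ∑ m ∈ Finset.range q, (-1 : ℂ) ^ m * d m := by
    rw [← telesc (fun m => O.tr T (Δ m)) d q]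
    exact Finset.sum_congr rfl fun m hm => by rw [h4 m (Finset.mem_range.1 hm)]
  have h9' : ∑ m ∈ Finset.Icc 1 q, (-1 : ℂ) ^ m * ∫ y, (V y : ℂ) * DK q μ V h h₁ l₁
        (fun x y => ∑ k, c k * φ k x * ψ k y) (fun x y => ∑ k, c' k * φ k x * ψ k y) m y y ∂μ =
      ∑ m ∈ Finset.range q, (-1 : ℂ) ^ m * d m + (-1) ^ q * d q := by
    rw [← Finset.sum_range_succ, Finset.range_eq_Ico, Finset.sum_eq_sum_Ico_succ_bot (by omega),
      h6, mul_zero, zero_add]
    have : Finset.Icc 1 q = Finset.Ico (0 + 1) (q + 1) := by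
      ext m
      simp only [Finset.mem_Icc, Finset.mem_Ico]
      omega
    rw [this]
    refine Finset.sum_congr rfl fun m hm => ?_
    have hmq : m ≤ q := by
      have := (Finset.mem_Ico.1 hm).2
      omega
    congr 1
    simp only [hdd]
    congr 1
    ext y
    rw [hΔ m hmq]
    rfl
  rw [h1, h23, h8', h9', pow_succ]
  have h7' : O.tr T (Δ q) = O.tr T κ - O.tr T κ₁ := by rw [h7]; ring
  have h5' : O.tr T κ = O.tr T₁ κ₁ + (d q - (O.tr (T * A) κ - O.tr (T₁ * A₁) κ₁)) := by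
    rw [← h5]; ring
  rw [h7', h5']
  ring

end Pool.Agent.Work.MP_f2af60_mp

end

section

/-!
# MP_f2af60_mp, item P6: meromorphy of the inverse
-/

namespace Pool.Agent.Work.MP_f2af60_mp

open Filter Topology Matrix

theorem PoleMero_det {N : ℕ} (M : ℂ → Matrix (Fin N) (Fin N) ℂ) (z0 : ℂ)
    (h : ∀ i j, AnalyticAt ℂ (fun z => M z i j) z0) : AnalyticAt ℂ (fun z => (M z).det) z0 := by
  have e : (fun z => (M z).det) = fun z => ∑ σ : Equiv.Perm (Fin N),
      ((Equiv.Perm.sign σ : ℤ) : ℂ) * ∏ i, M z (σ i) i := by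
    funext z
    exact Matrix.det_apply' _
  rw [e]
  refine Finset.analyticAt_fun_sum _ fun σ _ => ?_
  refine analyticAt_const.mul ?_
  exact Finset.analyticAt_fun_prod _ fun i _ => h (σ i) i

theorem PoleMero_adj {N : ℕ} (M : ℂ → Matrix (Fin N) (Fin N) ℂ) (z0 : ℂ)
    (h : ∀ i j, AnalyticAt ℂ (fun z => M z i j) z0) (i j : Fin N) :
    AnalyticAt ℂ (fun z => (M z).adjugate i j) z0 := by
  simp only [Matrix.adjugate_apply]
  refine PoleMero_det _ z0 (fun a b => ?_)
  by_cases hj : a = j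
  · subst hj
    simp only [Matrix.updateRow_self]
    exact analyticAt_const
  · simp only [Matrix.updateRow_ne hj]
    exact h a b

section

variable {X : Type*} [NormedAddCommGroup X] [NormedSpace ℂ X] {N : ℕ}

/-- The explicit formula for the inverse. -/
theorem PoleMero_formula (φ : Fin N → X) (ψ : Fin N → (X →L[ℂ] ℂ)) (A₁ T₁ T : X →L[ℂ] X)
    (h1 : T₁ * (1 + A₁) = 1) (h4 : (1 + (A₁ + FRop φ ψ)) * T = 1)
    (hd : (1 + FRmat φ ψ T₁).det ≠ 0) :
    T = T₁ - ∑ j, ∑ k, ((1 + FRmat φ ψ T₁).det⁻¹ * (1 + FRmat φ ψ T₁).adjugate j k) •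
      ((ψ k).comp T₁).smulRight (T₁ (φ j)) := by
  ext v
  have e1 := T_eq φ ψ A₁ T₁ T h1 h4 v
  have e2 : (1 + FRmat φ ψ T₁) *ᵥ (fun j => ψ j (T v)) = fun i => ψ i (T₁ v) := by
    funext i
    rw [Matrix.add_mulVec, Matrix.one_mulVec, Pi.add_apply, ← psi_sum]
    have := congrArg (ψ i) e1
    rw [map_sub] at this
    rw [this]
    have e3 : (∑ j, ψ j (T v) • T₁ (φ j)) = T₁ (∑ j, ψ j (T v) • φ j) := by
      rw [map_sum]
      simp only [map_smul]
    rw [e3]
    abel
  have e4 : (fun j => ψ j (T v)) = fun j => ∑ k, ((1 + FRmat φ ψ T₁).det⁻¹ *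
      (1 + FRmat φ ψ T₁).adjugate j k) * ψ k (T₁ v) := by
    have e5 : (1 + FRmat φ ψ T₁).adjugate *ᵥ (fun i => ψ i (T₁ v)) =
        (1 + FRmat φ ψ T₁).det • (fun j => ψ j (T v)) := by
      rw [← e2, Matrix.mulVec_mulVec, Matrix.adjugate_mul, Matrix.smul_mulVec, Matrix.one_mulVec]
    funext j
    have e6 := congrFun e5 j
    simp only [Matrix.mulVec, dotProduct, Pi.smul_apply, smul_eq_mul] at e6
    simp only [mul_assoc, ← Finset.mul_sum]
    rw [e6, inv_mul_cancel_left₀ hd]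
  rw [e1]
  simp only [_root_.sub_apply, _root_.sum_apply, _root_.smul_apply,
    ContinuousLinearMap.smulRight_apply, ContinuousLinearMap.comp_apply]
  congr 1
  refine Finset.sum_congr rfl (fun j _ => ?_)
  rw [show ψ j (T v) = _ from congrFun e4 j, Finset.sum_smul]
  refine Finset.sum_congr rfl (fun k _ => ?_)
  rw [smul_smul]

end

theorem meroInverse : MeroInverse := by
  intro X _ _ _ A hA z0 N φ ψ hψ hnear hunit
  set F : ℂ → X →L[ℂ] X := fun z => FRop φ (fun k => ψ k z) with hF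
  have hFd : Differentiable ℂ F := by
    intro z
    have e : F = fun z => ∑ k, ContinuousLinearMap.smulRightL ℂ X X (ψ k z) (φ k) := by
      funext z
      ext v
      simp [hF, FRop_apply]
    rw [e]
    refine DifferentiableAt.fun_sum fun k _ => ?_
    exact ((ContinuousLinearMap.smulRightL ℂ X X).differentiableAt.comp z (hψ k z)).clm_apply
      (differentiableAt_const _)
  set A₁ : ℂ → X →L[ℂ] X := fun z => A z - F z with hA₁
  have hA₁d : Differentiable ℂ A₁ := hA.sub hFd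
  have hunit1 : ∀ᶠ z in 𝓝 z0, IsUnit (1 + A₁ z) := by
    filter_upwards [hnear] with z hz
    have h2 : ‖-(A₁ z)‖ < 1 := by
      rw [norm_neg]
      exact lt_of_le_of_lt hz (by norm_num)
    have := isUnit_one_sub_of_norm_lt_one h2
    rwa [sub_neg_eq_add] at this
  set T₁ : ℂ → X →L[ℂ] X := fun z => Ring.inverse (1 + A₁ z) with hT₁
  have hT₁d : ∀ᶠ z in 𝓝 z0, DifferentiableAt ℂ T₁ z := by
    filter_upwards [hunit1] with z hz
    obtain ⟨u, hu⟩ := hz
    have h2 : DifferentiableAt ℂ (fun z => 1 + A₁ z) z := (hA₁d z).const_add 1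
    have h3 : DifferentiableAt ℂ Ring.inverse (1 + A₁ z) := by
      rw [← hu]
      exact (hasFDerivAt_ringInverse (𝕜 := ℂ) u).differentiableAt
    exact h3.comp z h2
  have hentry : ∀ i j, AnalyticAt ℂ (fun z => (1 + FRmat φ (fun k => ψ k z) (T₁ z)) i j) z0 := by
    intro i j
    rw [Complex.analyticAt_iff_eventually_differentiableAt]
    filter_upwards [hT₁d] with z hz
    simp only [Matrix.add_apply, FRmat_apply]
    exact ((hψ i z).clm_apply (hz.clm_apply (differentiableAt_const _))).const_add _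
  have hop : ∀ j k, AnalyticAt ℂ (fun z => ((ψ k z).comp (T₁ z)).smulRight (T₁ z (φ j))) z0 := by
    intro j k
    rw [Complex.analyticAt_iff_eventually_differentiableAt]
    filter_upwards [hT₁d] with z hz
    have h2 : DifferentiableAt ℂ (fun z => (ψ k z).comp (T₁ z)) z := (hψ k z).clm_comp hz
    have h3 : DifferentiableAt ℂ (fun z => T₁ z (φ j)) z := hz.clm_apply (differentiableAt_const _)
    exact ((ContinuousLinearMap.smulRightL ℂ X X).differentiableAt.comp z h2).clm_apply h3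
  have hdet := PoleMero_det _ z0 hentry
  have hinv1 : ∀ z, IsUnit (1 + A₁ z) → T₁ z * (1 + A₁ z) = 1 ∧ (1 + A₁ z) * T₁ z = 1 :=
    fun z hz => ⟨Ring.inverse_mul_cancel _ hz, Ring.mul_inverse_cancel _ hz⟩
  have hAz : ∀ z, A₁ z + FRop φ (fun k => ψ k z) = A z := by
    intro z
    simp only [hA₁, hF, sub_add_cancel]
  have hne : ∀ᶠ z in 𝓝[≠] z0, (1 + FRmat φ (fun k => ψ k z) (T₁ z)).det ≠ 0 := by
    rcases hdet.eventually_eq_zero_or_eventually_ne_zero with h0 | h0
    · exfalso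
      have h1 : ∀ᶠ z in 𝓝[≠] z0, ¬ IsUnit (1 + A z) := by
        filter_upwards [h0.filter_mono nhdsWithin_le_nhds, hunit1.filter_mono nhdsWithin_le_nhds]
          with z hz hz1 hu
        obtain ⟨a1, a2⟩ := hinv1 z hz1
        obtain ⟨u, hu0, hu1⟩ := frKer X N φ (fun k => ψ k z) (A₁ z) (T₁ z) a1 a2 hz
        rw [hAz] at hu1
        obtain ⟨w, hw⟩ := hu
        have h3 : (w : X →L[ℂ] X) u = 0 := by
          rw [hw]
          simpa using hu1
        have h4 : ((w⁻¹ : (X →L[ℂ] X)ˣ) : X →L[ℂ] X) ((w : X →L[ℂ] X) u) = u := by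
          have h5 : (((w⁻¹ : (X →L[ℂ] X)ˣ) : X →L[ℂ] X) * (w : X →L[ℂ] X)) u =
              (1 : X →L[ℂ] X) u := by rw [Units.inv_mul]
          exact h5
        rw [h3, map_zero] at h4
        exact hu0 h4.symm
      exact hunit h1
    · exact h0
  have hmer : MeromorphicAt (fun z => T₁ z - ∑ j, ∑ k,
      ((1 + FRmat φ (fun k => ψ k z) (T₁ z)).det⁻¹ *
        (1 + FRmat φ (fun k => ψ k z) (T₁ z)).adjugate j k) •
      ((ψ k z).comp (T₁ z)).smulRight (T₁ z (φ j))) z0 := by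
    have hT₁a : AnalyticAt ℂ T₁ z0 := by
      rw [Complex.analyticAt_iff_eventually_differentiableAt]
      exact hT₁d
    refine MeromorphicAt.fun_sub hT₁a.meromorphicAt ?_
    refine MeromorphicAt.fun_sum fun j _ => MeromorphicAt.fun_sum fun k _ => ?_
    exact ((hdet.meromorphicAt.fun_inv).fun_mul
      (PoleMero_adj _ z0 hentry j k).meromorphicAt).fun_smul (hop j k).meromorphicAt
  refine hmer.congr ?_
  filter_upwards [hne, hunit1.filter_mono nhdsWithin_le_nhds] with z hz hz1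
  obtain ⟨a1, a2⟩ := hinv1 z hz1
  obtain ⟨T, b1, b2⟩ := frUnit X N φ (fun k => ψ k z) (A₁ z) (T₁ z) a1 a2 hz
  have hT := PoleMero_formula φ (fun k => ψ k z) (A₁ z) (T₁ z) T a1 b2 hz
  rw [hAz] at b1 b2
  have hTi : Ring.inverse (1 + A z) = T :=
    Ring.inverse_unit (⟨1 + A z, T, b2, b1⟩ : (X →L[ℂ] X)ˣ)
  rw [hTi]
  exact hT.symm

end Pool.Agent.Work.MP_f2af60_mp

end

section

/-!
# MP_f2af60_mp, all odd dimensions: assembly, part 2
-/

namespace Pool.Agent.Work.MP_f2af60_mp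

open MeasureTheory Metric Filter Topology

/-- the points on the imaginary axis. -/
noncomputable def lam (i : ℕ) (E : ℝ) : ℂ := Complex.I * (Real.sqrt ((1 + (i : ℝ)) * E) : ℂ)

lemma lam_norm (i : ℕ) (E : ℝ) : ‖lam i E‖ = Real.sqrt ((1 + (i : ℝ)) * E) := by
  rw [lam, norm_mul, Complex.norm_I, one_mul, Complex.norm_real,
    Real.norm_of_nonneg (Real.sqrt_nonneg _)]

lemma one_le_lam (i : ℕ) {E : ℝ} (hE : 1 ≤ E) : 1 ≤ ‖lam i E‖ := by
  rw [lam_norm i E]
  rw [Real.one_le_sqrt]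
  have : (0 : ℝ) ≤ i := Nat.cast_nonneg i
  nlinarith

lemma lam_ne (i : ℕ) {E : ℝ} (hE : 1 ≤ E) : lam i E ≠ 0 := by
  intro h
  have := one_le_lam i hE
  rw [h, norm_zero] at this
  linarith

/-- a general bound for the trace pairing. -/
lemma tr_bound {K : Type} [MetricSpace K] [CompactSpace K] [MeasurableSpace K] [BorelSpace K]
    {q : ℕ} {μ : Measure K} {V : K → ℝ} (O : OpsQ q μ V) :
    ∃ Ct : ℝ, 0 ≤ Ct ∧ ∀ (S A : C(K, ℂ) →L[ℂ] C(K, ℂ))
    (k : C(K × K, ℂ)), ‖O.tr (S * A) k‖ ≤ Ct * (‖S‖ * ‖A‖) * ‖k‖ := by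
  refine ⟨‖O.tr‖, ContinuousLinearMap.opNorm_nonneg _, fun S A k => ?_⟩
  calc ‖O.tr (S * A) k‖ ≤ ‖O.tr (S * A)‖ * ‖k‖ := ContinuousLinearMap.le_opNorm _ _
    _ ≤ (‖O.tr‖ * ‖S * A‖) * ‖k‖ := by
        gcongr
        exact ContinuousLinearMap.le_opNorm _ _
    _ ≤ _ := by
        gcongr
        exact norm_mul_le _ _

section Struct

variable {q : ℕ} {R c0 e C : ℝ} {n : ℕ} (dat : ∀ r : ℕ, DecData q R c0 e C n (max r 1))

/-- the closed chain integral for `r`, `i`, `m`. -/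
noncomputable def Imr (V : En q → ℝ)
    (h l : ℂ → C(closedBall (0 : En q) R × closedBall (0 : En q) R, ℂ)) (m r i : ℕ) (E : ℝ) : ℂ :=
  ∫ x : Fin (m + 1) → closedBall (0 : En q) R, (∏ j, (V (x j) : ℂ)) *
    (JC q m (h (lam i E)) (glk l (lam i E)) x -
      JC q m (gh1 q h (dat r).φ (dat r).ψ (dat r).c (lam i E))
        (gl1 q l (dat r).φ (dat r).ψ (dat r).c (lam i E)) x) ∂(Measure.pi fun _ => muQ q R)

theorem gm_limit (h13 : ChainRep) (h15 : LimJ) (h5 : SpBallQ) (hq : 1 ≤ q) (hR : 0 < R)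
    (he : 0 < e)
    (V : En q → ℝ) (hV : Measurable V) (M : ℝ) (hM : ∀ x, |V x| ≤ M)
    (hsupp : ∀ x, R < ‖x‖ → V x = 0)
    (h l : ℂ → C(closedBall (0 : En q) R × closedBall (0 : En q) R, ℂ))
    (hh : ∀ z x y, h z (x, y) = eb q (z * ((dist x y : ℝ) : ℂ)))
    (hl : ∀ z x y, l z (x, y) = eb (q - 1) (z * ((dist x y : ℝ) : ℂ)))
    (m : ℕ) (hm : m ∈ Finset.Icc 1 q) (E : ℝ) (hE : 1 ≤ E) :
    Tendsto (fun r => ∑ i ∈ Finset.range q, (-1) ^ i * ((q - 1).choose i : ℂ) *
      Imr dat V h l m r i E) atTop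
      (𝓝 ((∫ x : Fin (m + 1) → En q, (∏ j, V (x j)) * DJ q m E x : ℝ) : ℂ)) := by
  obtain ⟨Cs, hCs, hSp⟩ := h5 q R hR
  have hV' : Measurable (fun x : closedBall (0 : En q) R => V x) := hV.comp measurable_subtype_coe
  have hM' : ∀ x : closedBall (0 : En q) R, |V x| ≤ M := fun x => hM x
  have hE0 : 0 ≤ E := by linarith
  obtain ⟨r1, hr1⟩ : ∃ r1 : ℕ, 1 ≤ r1 ∧ ∀ i < q, ‖lam i E‖ < r1 := by
    obtain ⟨r1, hr1⟩ := exists_nat_gt (Real.sqrt ((1 + (q : ℝ)) * E))
    refine ⟨max r1 1, le_max_right _ _, fun i hi => ?_⟩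
    rw [lam_norm i E]
    have h1 : (i : ℝ) ≤ q := by exact_mod_cast hi.le
    have h2 : Real.sqrt ((1 + (i : ℝ)) * E) ≤ Real.sqrt ((1 + (q : ℝ)) * E) := by
      apply Real.sqrt_le_sqrt
      nlinarith
    have h3 : (r1 : ℝ) ≤ ((max r1 1 : ℕ) : ℝ) := by exact_mod_cast le_max_left r1 1
    linarith
  have hball : ∀ r i, i < q → lam i E ∈ ball (0 : ℂ) ((max (r + r1) 1 : ℕ) : ℝ) := by
    intro r i hi
    rw [mem_ball_zero_iff]
    refine (hr1.2 i hi).trans_le ?_
    have : r1 ≤ max (r + r1) 1 := le_trans (by omega) (le_max_left _ _)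
    exact_mod_cast this
  rw [← tendsto_add_atTop_iff_nat r1]
  have hcast : Tendsto (fun r : ℕ => (((max (r + r1) 1 : ℕ) : ℝ))) atTop atTop := by
    refine tendsto_natCast_atTop_atTop.comp ?_
    refine tendsto_atTop_mono (fun r => ?_) tendsto_id
    exact le_trans (by simp) (le_max_left _ _)
  have hten : ∀ a : ℝ, Tendsto (fun r : ℕ => a / ((max (r + r1) 1 : ℕ) : ℝ)) atTop (𝓝 0) :=
    fun a => tendsto_const_nhds.div_atTop hcast
  have key := h15 q m hq hm R hR V hV M hM hsupp E (by linarith)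
    (fun i => h (lam i E)) (fun i => glk l (lam i E))
    (fun r i => gh1 q h (dat (r + r1)).φ (dat (r + r1)).ψ (dat (r + r1)).c (lam i E))
    (fun r i => gl1 q l (dat (r + r1)).φ (dat (r + r1)).ψ (dat (r + r1)).c (lam i E))
    (fun r => (dat (r + r1)).χ) (fun r => e / ((max (r + r1) 1 : ℕ) : ℝ))
    (fun r => c0 / ((max (r + r1) 1 : ℕ) : ℝ))
    (fun i x y => hh _ x y)
    (fun i x y => by
      have : glk l (lam i E) (x, y) = (4 * (Real.pi : ℂ))⁻¹ * l (lam i E) (x, y) := by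
        simp [glk]
      rw [this, hl, div_eq_inv_mul, lam])
    (fun r p => ⟨((dat (r + r1)).hχ p.1 p.2).1, ((dat (r + r1)).hχ p.1 p.2).2.1⟩)
    (fun r x y hxy => ((dat (r + r1)).hχ x y).2.2 hxy)
    (fun r i hi x y => gd_h1 (dat (r + r1)) h hh _ (hball r i hi) x y)
    (fun r i hi x y => gd_l1 (dat (r + r1)) l hl _ (hball r i hi) (one_le_lam i hE) x y he.le)
    (hten e) (hten c0)
    (fun r i hi => by
      refine (h13 q hq _ (muQ q R) Cs hSp (fun x : closedBall (0 : En q) R => V x) hV' M hM'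
        (h (lam i E)) (glk l (lam i E)) _ _
        (∑ k, (dat (r + r1)).c k (lam i E) • tens ((dat (r + r1)).φ k) ((dat (r + r1)).ψ k))
        (∑ k, (deriv ((dat (r + r1)).c k) (lam i E) / (2 * lam i E)) •
          tens ((dat (r + r1)).φ k) ((dat (r + r1)).ψ k)) ?_ ?_ m hm).1
      · intro x y
        simp [gh1]
      · intro x y
        simp [gl1])
  exact key

theorem gm_third (h8 : KKFacts) (hq : 1 ≤ q) (hR : 0 < R) (hc0 : 0 < c0) (hc1 : c0 ≤ 1)
    (he : 0 < e) (Cs : ℝ) (hSp : SpQ q (muQ q R) Cs)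
    (V : En q → ℝ) (hV : Measurable V) (M : ℝ) (hM : ∀ x, |V x| ≤ M)
    (O : OpsQ q (muQ q R) (fun x : closedBall (0 : En q) R => V x))
    (h l : ℂ → C(closedBall (0 : En q) R × closedBall (0 : En q) R, ℂ))
    (hh : ∀ z x y, h z (x, y) = eb q (z * ((dist x y : ℝ) : ℂ)))
    (hl : ∀ z x y, l z (x, y) = eb (q - 1) (z * ((dist x y : ℝ) : ℂ)))
    (B0 : ℝ) (hB0 : 0 ≤ B0) (hB : ∀ w : ℂ, ‖w‖ ≤ 1 → ‖eb q w‖ ≤ B0)
    (z : ℂ) (hz1 : 1 ≤ ‖z‖)
    (T₁ : ℕ → C(closedBall (0 : En q) R, ℂ) →L[ℂ] C(closedBall (0 : En q) R, ℂ))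
    (hT₁ : ∀ᶠ r in atTop, ‖T₁ r‖ ≤ 2)
    (κ₁ : ℕ → C(closedBall (0 : En q) R × closedBall (0 : En q) R, ℂ))
    (hκ₁ : ∀ r x y, κ₁ r (x, y) = KK q (muQ q R) (fun x : closedBall (0 : En q) R => V x)
      (gh1 q h (dat r).φ (dat r).ψ (dat r).c z) (gl1 q l (dat r).φ (dat r).ψ (dat r).c z)
      q x y) :
    Tendsto (fun r => O.tr (T₁ r * O.Op (gh1 q h (dat r).φ (dat r).ψ (dat r).c z)) (κ₁ r))
      atTop (𝓝 0) := by
  have hfin := hSp.fin
  have hKn : Nonempty (closedBall (0 : En q) R) := ⟨⟨0, by simp [hR.le]⟩⟩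
  have hV' : Measurable (fun x : closedBall (0 : En q) R => V x) := hV.comp measurable_subtype_coe
  have hM' : ∀ x : closedBall (0 : En q) R, |V x| ≤ M := fun x => hM x
  have hD : ∀ x y : closedBall (0 : En q) R, dist x y ≤ 2 * R := by
    intro x y
    have h1 := mem_closedBall.1 x.2
    have h2 := mem_closedBall.1 y.2
    calc dist x y = dist (x : En q) y := rfl
      _ ≤ dist (x : En q) 0 + dist 0 (y : En q) := dist_triangle _ _ _
      _ ≤ 2 * R := by rw [dist_comm 0 (y : En q)]; linarith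
  obtain ⟨Ck, hCk, hKK⟩ := h8 q hq _ (muQ q R) Cs hSp (fun x : closedBall (0 : En q) R => V x)
    hV' M hM'
  obtain ⟨Ct, hCt, htr⟩ := tr_bound O
  set Bh : ℝ := ‖h z‖ + e * (2 * R) ^ (2 * q + 1) with hBh
  set Bl : ℝ := ‖glk l z‖ + e * (2 * R) ^ (2 * q - 1) with hBl
  have hBh0 : 0 ≤ Bh := by positivity
  have hBl0 : 0 ≤ Bl := by positivity
  have hmax : ∀ r : ℕ, (1 : ℝ) ≤ ((max r 1 : ℕ) : ℝ) := fun r => by
    exact_mod_cast le_max_right r 1
  have hball : ∀ᶠ r : ℕ in atTop, z ∈ ball (0 : ℂ) ((max r 1 : ℕ) : ℝ) := by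
    obtain ⟨r1, hr1⟩ := exists_nat_gt ‖z‖
    filter_upwards [eventually_ge_atTop r1] with r hr
    rw [mem_ball_zero_iff]
    refine hr1.trans_le ?_
    exact_mod_cast hr.trans (le_max_left _ _)
  have hed : ∀ (r : ℕ) (k : ℕ) (x y : closedBall (0 : En q) R),
      e / ((max r 1 : ℕ) : ℝ) * dist x y ^ k ≤ e * (2 * R) ^ k := by
    intro r k x y
    have h1 : e / ((max r 1 : ℕ) : ℝ) ≤ e := div_le_self he.le (hmax r)
    have h2 := hD x y
    gcongr
  have hgh : ∀ᶠ r : ℕ in atTop, ‖gh1 q h (dat r).φ (dat r).ψ (dat r).c z‖ ≤ Bh := by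
    filter_upwards [hball] with r hr
    rw [ContinuousMap.norm_le _ hBh0]
    rintro ⟨x, y⟩
    have h1 := gd_h1 (dat r) h hh z hr x y
    obtain ⟨c1, c2, -⟩ := (dat r).hχ x y
    have h2 : ‖((dat r).χ (x, y) : ℂ) * h z (x, y)‖ ≤ ‖h z‖ := by
      rw [norm_mul, Complex.norm_real, Real.norm_of_nonneg c1]
      have := (h z).norm_coe_le_norm (x, y)
      calc (dat r).χ (x, y) * ‖h z (x, y)‖ ≤ 1 * ‖h z‖ := by gcongr
        _ = _ := one_mul _
    have h3 := hed r (2 * q + 1) x y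
    have h4 := norm_sub_norm_le (gh1 q h (dat r).φ (dat r).ψ (dat r).c z (x, y))
      (((dat r).χ (x, y) : ℂ) * h z (x, y))
    linarith
  have hgl : ∀ᶠ r : ℕ in atTop, ‖gl1 q l (dat r).φ (dat r).ψ (dat r).c z‖ ≤ Bl := by
    filter_upwards [hball] with r hr
    rw [ContinuousMap.norm_le _ hBl0]
    rintro ⟨x, y⟩
    have h1 := gd_l1 (dat r) l hl z hr hz1 x y he.le
    obtain ⟨c1, c2, -⟩ := (dat r).hχ x y
    have h2 : ‖((dat r).χ (x, y) : ℂ) * glk l z (x, y)‖ ≤ ‖glk l z‖ := by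
      rw [norm_mul, Complex.norm_real, Real.norm_of_nonneg c1]
      have := (glk l z).norm_coe_le_norm (x, y)
      calc (dat r).χ (x, y) * ‖glk l z (x, y)‖ ≤ 1 * ‖glk l z‖ := by gcongr
        _ = _ := one_mul _
    have h3 := hed r (2 * q - 1) x y
    have h4 := norm_sub_norm_le (gl1 q l (dat r).φ (dat r).ψ (dat r).c z (x, y))
      (((dat r).χ (x, y) : ℂ) * glk l z (x, y))
    linarith
  have hkap : ∀ᶠ r : ℕ in atTop, ‖κ₁ r‖ ≤ Ck * Bh ^ q * Bl := by
    filter_upwards [hgh, hgl] with r hr1 hr2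
    rw [ContinuousMap.norm_le _ (by positivity)]
    rintro ⟨x, y⟩
    rw [hκ₁ r x y]
    refine ((hKK _ _).2.2.2.2.1 x y).trans ?_
    gcongr
  have hop : ∀ᶠ r : ℕ in atTop, ‖O.Op (gh1 q h (dat r).φ (dat r).ψ (dat r).c z)‖ ≤
      |M| * (B0 * Cs * (c0 / ((max r 1 : ℕ) : ℝ)) ^ 2 +
        e / ((max r 1 : ℕ) : ℝ) * (muQ q R).real Set.univ) := by
    filter_upwards [hball] with r hr
    have hr0 : (0 : ℝ) < ((max r 1 : ℕ) : ℝ) := lt_of_lt_of_le one_pos (hmax r)
    exact gm_op_small (muQ q R) Cs hSp _ M hM' O _ (c0 / ((max r 1 : ℕ) : ℝ)) B0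
      (e / ((max r 1 : ℕ) : ℝ)) (by positivity) hB0 (by positivity)
      (fun x y => gd_small (dat r) h hh B0 hB hc1 (le_max_right _ _) z hr x y)
  have hcast : Tendsto (fun r : ℕ => (((max r 1 : ℕ) : ℝ))) atTop atTop := by
    refine tendsto_natCast_atTop_atTop.comp ?_
    exact tendsto_atTop_mono (fun r => le_max_left _ _) tendsto_id
  have hten : ∀ a : ℝ, Tendsto (fun r : ℕ => a / ((max r 1 : ℕ) : ℝ)) atTop (𝓝 0) :=
    fun a => tendsto_const_nhds.div_atTop hcast
  have hlim : Tendsto (fun r : ℕ => Ct * (2 * (|M| * (B0 * Cs *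
      (c0 / ((max r 1 : ℕ) : ℝ)) ^ 2 + e / ((max r 1 : ℕ) : ℝ) * (muQ q R).real Set.univ))) *
      (Ck * Bh ^ q * Bl)) atTop (𝓝 0) := by
    have h1 : Tendsto (fun r : ℕ => B0 * Cs * (c0 / ((max r 1 : ℕ) : ℝ)) ^ 2 +
        e / ((max r 1 : ℕ) : ℝ) * (muQ q R).real Set.univ) atTop (𝓝 0) := by
      have h2 := (((hten c0).pow 2).const_mul (B0 * Cs)).add
        ((hten e).mul_const ((muQ q R).real Set.univ))
      simpa using h2
    have h3 := (((h1.const_mul |M|).const_mul 2).const_mul Ct).mul_const (Ck * Bh ^ q * Bl)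
    simpa using h3
  refine squeeze_zero_norm' ?_ hlim
  filter_upwards [hT₁, hkap, hop] with r a1 a2 a3
  refine (htr _ _ _).trans ?_
  have a4 := (ContinuousLinearMap.opNorm_nonneg _).trans a3
  gcongr

end Struct

/-- growth of the real side. -/
theorem gm_growth (h34 : ScalingF) (h43 : MultiExpand) (h35 : PlanchV) {q : ℕ} (hq : 1 ≤ q)
    (V : En q → ℝ) (hV : Measurable V) (M R : ℝ) (hM : ∀ x, |V x| ≤ M)
    (hsupp : ∀ x, R < ‖x‖ → V x = 0) :
    ∃ C : ℝ, 0 ≤ C ∧ ∀ E : ℝ, 1 ≤ E → |FF q V E| ≤ C * E ^ ((q : ℝ) - 3 / 2) := by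
  have hHS : HS q V (2 * ((0 : ℕ) : ℝ)) := by
    simpa using (h35 q V hV M R hM hsupp).1
  have hm : ∀ m : ℕ, 1 ≤ m → ∃ C : ℝ, ∀ e : ℝ, 0 < e → e ≤ 1 → |Phi q V m e| ≤ C := by
    intro m hm
    obtain ⟨c, C, h⟩ := h43 q hq V hV M R hM hsupp 0 (by omega) hHS m hm
    refine ⟨C, fun e he he1 => ?_⟩
    simpa using h e he he1
  choose! Cm hCm using hm
  refine ⟨∑ m ∈ Finset.Icc 1 q, |Cm m|, Finset.sum_nonneg fun m _ => abs_nonneg _, ?_⟩
  intro E hE
  have hE0 : 0 < E := by linarith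
  rw [h34 q hq V hV M R hM hsupp E hE0, Finset.sum_mul]
  refine (Finset.abs_sum_le_sum_abs _ _).trans (Finset.sum_le_sum fun m hm => ?_)
  rw [Finset.mem_Icc] at hm
  rw [abs_mul, abs_mul, abs_pow, abs_neg, abs_one, one_pow, one_mul,
    abs_of_pos (Real.rpow_pos_of_pos hE0 _)]
  have h1 := hCm m hm.1 E⁻¹ (by positivity) (inv_le_one_of_one_le₀ hE)
  have h2 : E ^ ((q : ℝ) - 1 / 2 - m) ≤ E ^ ((q : ℝ) - 3 / 2) := by
    refine Real.rpow_le_rpow_of_exponent_le hE ?_
    have : (1 : ℝ) ≤ m := by exact_mod_cast hm.1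
    linarith
  calc E ^ ((q : ℝ) - 1 / 2 - m) * |Phi q V m E⁻¹|
      ≤ E ^ ((q : ℝ) - 3 / 2) * |Cm m| := by
        have h3 := h1.trans (le_abs_self _)
        gcongr
    _ = _ := mul_comm _ _

end Pool.Agent.Work.MP_f2af60_mp

end

section

/-!
# MP_f2af60_mp, Q10: the powers of the kernel operators
-/

namespace Pool.Agent.Work.MP_f2af60_mp

open MeasureTheory Metric Filter Topology

theorem opIter (h7 : RieszQ) (h8 : KKFacts) : OpIter := by
  intro q hq K _ _ _ _ μ C hS V hV M hM O h l l₂ hl₂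
  obtain ⟨C₁, hC₁, r1, -⟩ := h7 q hq K μ C hS
  obtain ⟨C₂, hC₂, hk⟩ := h8 q hq K μ C hS V hV M hM
  obtain ⟨kmeas, kb, -, -, kbq, -⟩ := hk h l
  have hfin := hS.fin
  -- measurability
  have hm : ∀ (m : ℕ) (w : C(K, ℂ)) (x : K),
      AEStronglyMeasurable (fun z => KK q μ V h l m x z * (V z : ℂ) * w z) μ := by
    intro m w x
    have h1 : Measurable fun z => KK q μ V h l m x z := (kmeas m).comp measurable_prodMk_left
    exact ((h1.mul (Complex.measurable_ofReal.comp hV)).mul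
      w.continuous.measurable).aestronglyMeasurable
  -- pointwise bounds
  have hnorm : ∀ (m : ℕ) (w : C(K, ℂ)) (x z : K) (B : ℝ), ‖KK q μ V h l m x z‖ ≤ B →
      ‖KK q μ V h l m x z * (V z : ℂ) * w z‖ ≤ B * M * ‖w‖ := by
    intro m w x z B hB
    have h1 : ‖(V z : ℂ)‖ ≤ M := by
      rw [Complex.norm_real, Real.norm_eq_abs]
      exact hM z
    rw [norm_mul, norm_mul]
    exact mul_le_mul (mul_le_mul hB h1 (norm_nonneg _) ((norm_nonneg _).trans hB))
      (w.norm_coe_le_norm z) (norm_nonneg _)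
      (mul_nonneg ((norm_nonneg _).trans hB) ((norm_nonneg _).trans h1))
  have hae : ∀ m < q, ∀ (w : C(K, ℂ)) (x : K), ∀ᵐ z ∂μ,
      ‖KK q μ V h l m x z * (V z : ℂ) * w z‖ ≤
        C₂ * ‖h‖ ^ m * ‖l‖ * M * ‖w‖ * ((dist x z) ^ (2 * q - 1 - 2 * m))⁻¹ := by
    intro m hmq w x
    filter_upwards [hS.goq_ae_ne x] with z hz
    exact (hnorm m w x z _ (kb m hmq x z hz.symm)).trans (le_of_eq (by ring))
  have hint : ∀ m ≤ q, ∀ (w : C(K, ℂ)) (x : K),
      Integrable (fun z => KK q μ V h l m x z * (V z : ℂ) * w z) μ := by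
    intro m hmq w x
    rcases hmq.eq_or_lt with rfl | hmq
    · exact Integrable.of_bound (hm m w x) _
        (Filter.Eventually.of_forall fun z => hnorm m w x z _ (kbq x z))
    · exact (((r1 x (2 * q - 1 - 2 * m) (by omega)).1).const_mul
        (C₂ * ‖h‖ ^ m * ‖l‖ * M * ‖w‖)).mono' (hm m w x) (hae m hmq w x)
  have hbd : ∀ m < q, ∀ (w : C(K, ℂ)) (x : K),
      ∫ z, ‖KK q μ V h l m x z * (V z : ℂ) * w z‖ ∂μ ≤ C₂ * ‖h‖ ^ m * ‖l‖ * M * ‖w‖ * C₁ := by
    intro m hmq w x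
    have hM0 : 0 ≤ M := (abs_nonneg _).trans (hM x)
    obtain ⟨i1, i2⟩ := r1 x (2 * q - 1 - 2 * m) (by omega)
    calc ∫ z, ‖KK q μ V h l m x z * (V z : ℂ) * w z‖ ∂μ
        ≤ ∫ z, C₂ * ‖h‖ ^ m * ‖l‖ * M * ‖w‖ * ((dist x z) ^ (2 * q - 1 - 2 * m))⁻¹ ∂μ :=
          integral_mono_ae (hint m hmq.le w x).norm (i1.const_mul _) (hae m hmq w x)
      _ = C₂ * ‖h‖ ^ m * ‖l‖ * M * ‖w‖ * ∫ z, ((dist x z) ^ (2 * q - 1 - 2 * m))⁻¹ ∂μ :=
          integral_const_mul _ _
      _ ≤ _ := mul_le_mul_of_nonneg_left i2 (by positivity)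
  intro m
  induction m with
  | zero =>
    intro _ w x
    refine ⟨hint 0 (Nat.zero_le _) w x, ?_⟩
    rw [pow_zero, one_apply_eq_self, O.Op_apply]
    refine integral_congr_ae ?_
    filter_upwards [hS.goq_ae_ne x] with z hz
    have hd : dist x z ≠ 0 := (dist_pos.2 hz.symm).ne'
    have hd' : ((dist x z : ℝ) : ℂ) ≠ 0 := Complex.ofReal_ne_zero.2 hd
    have e : 2 * q + 1 = 2 + (2 * q - 1) := by omega
    have e2 : ((dist x z : ℝ) : ℂ) ^ 2 * ((((dist x z) ^ (2 * q + 1))⁻¹ : ℝ) : ℂ) =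
        ((((dist x z) ^ (2 * q - 1))⁻¹ : ℝ) : ℂ) := by
      rw [e, pow_add]
      push_cast
      rw [mul_inv, ← mul_assoc, mul_inv_cancel₀ (pow_ne_zero 2 hd'), one_mul]
    rw [hl₂, KK]
    linear_combination (l (x, z) * (V z : ℂ) * w z) * e2
  | succ m ih =>
    intro hmq w x
    refine ⟨hint (m + 1) hmq w x, ?_⟩
    have hM0 : 0 ≤ M := (abs_nonneg _).trans (hM x)
    have ih' := fun z => (ih (by omega) w z).2
    rw [pow_succ', mul_apply_eq_comp, O.Op_apply]
    -- the integrand on the product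
    let a : K → ℂ := fun z => h (x, z) * ((((dist x z) ^ (2 * q + 1))⁻¹ : ℝ) : ℂ) * (V z : ℂ)
    have ha : Measurable a := by
      have h1 : Measurable fun z => h (x, z) := (h.continuous.comp (by fun_prop)).measurable
      have h2 : Measurable fun z => (((dist x z) ^ (2 * q + 1))⁻¹ : ℝ) := by fun_prop
      exact (h1.mul (Complex.measurable_ofReal.comp h2)).mul (Complex.measurable_ofReal.comp hV)
    have hab : ∀ z, ‖a z‖ ≤ ‖h‖ * M * ((dist x z) ^ (2 * q + 1))⁻¹ := by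
      intro z
      have h1 : ‖(V z : ℂ)‖ ≤ M := by
        rw [Complex.norm_real, Real.norm_eq_abs]
        exact hM z
      have h2 : (0 : ℝ) ≤ ((dist x z) ^ (2 * q + 1))⁻¹ := by positivity
      simp only [a]
      rw [norm_mul, norm_mul, Complex.norm_real, Real.norm_of_nonneg h2]
      calc ‖h (x, z)‖ * ((dist x z) ^ (2 * q + 1))⁻¹ * ‖(V z : ℂ)‖
          ≤ ‖h‖ * ((dist x z) ^ (2 * q + 1))⁻¹ * M := by
            gcongr
            exact h.norm_coe_le_norm (x, z)
        _ = _ := by ring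
    let F : K × K → ℂ := fun p => a p.1 * (KK q μ V h l m p.1 p.2 * (V p.2 : ℂ) * w p.2)
    have hFm : AEStronglyMeasurable F (μ.prod μ) := by
      have h1 : Measurable fun p : K × K => KK q μ V h l m p.1 p.2 := kmeas m
      have h2 : Measurable fun p : K × K => (V p.2 : ℂ) :=
        Complex.measurable_ofReal.comp (hV.comp measurable_snd)
      have h3 : Measurable fun p : K × K => w p.2 := w.continuous.measurable.comp measurable_snd
      exact ((ha.comp measurable_fst).mul ((h1.mul h2).mul h3)).aestronglyMeasurable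
    have hF : Integrable F (μ.prod μ) := by
      rw [integrable_prod_iff hFm]
      refine ⟨Filter.Eventually.of_forall fun z => (hint m (by omega) w z).const_mul (a z), ?_⟩
      refine (((r1 x (2 * q + 1) (by omega)).1).const_mul
        (‖h‖ * M * (C₂ * ‖h‖ ^ m * ‖l‖ * M * ‖w‖ * C₁))).mono'
        hFm.norm.integral_prod_right' (Filter.Eventually.of_forall fun z => ?_)
      have h1 : ∫ y, ‖F (z, y)‖ ∂μ =
          ‖a z‖ * ∫ y, ‖KK q μ V h l m z y * (V y : ℂ) * w y‖ ∂μ := by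
        rw [← integral_const_mul]
        refine integral_congr_ae (Filter.Eventually.of_forall fun y => ?_)
        simp only [F]
        rw [norm_mul (a z)]
      have h2 : 0 ≤ ∫ y, ‖F (z, y)‖ ∂μ := integral_nonneg fun _ => norm_nonneg _
      rw [Real.norm_of_nonneg h2, h1]
      calc ‖a z‖ * ∫ y, ‖KK q μ V h l m z y * (V y : ℂ) * w y‖ ∂μ
          ≤ (‖h‖ * M * ((dist x z) ^ (2 * q + 1))⁻¹) * (C₂ * ‖h‖ ^ m * ‖l‖ * M * ‖w‖ * C₁) :=
            mul_le_mul (hab z) (hbd m (by omega) w z)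
              (integral_nonneg fun _ => norm_nonneg _) (by positivity)
        _ = _ := by ring
    calc ∫ z, h (x, z) * ((((dist x z) ^ (2 * q + 1))⁻¹ : ℝ) : ℂ) * (V z : ℂ) *
          ((O.Op h) ^ m) (O.Op l₂ w) z ∂μ = ∫ z, ∫ y, F (z, y) ∂μ ∂μ := by
          refine integral_congr_ae (Filter.Eventually.of_forall fun z => ?_)
          simp only [F]
          rw [ih' z, integral_const_mul]
      _ = ∫ y, ∫ z, F (z, y) ∂μ ∂μ := integral_integral_swap hF
      _ = ∫ y, KK q μ V h l (m + 1) x y * (V y : ℂ) * w y ∂μ := by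
          refine integral_congr_ae (Filter.Eventually.of_forall fun y => ?_)
          simp only [F, a]
          rw [KK, mul_assoc, ← integral_mul_const]
          refine integral_congr_ae (Filter.Eventually.of_forall fun z => ?_)
          simp only
          ring

end Pool.Agent.Work.MP_f2af60_mp

end

section

/-!
# MP_f2af60_mp, P5: existence and uniqueness of `R_V(i k) f` for large `k`
-/

namespace Pool.Agent.Work.MP_f2af60_mp.PQ

open MeasureTheory
open scoped SchwartzMap Laplacian FourierTransform ENNReal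

variable {q : ℕ}

section

variable {V : En q → ℝ} {M : ℝ}

lemma P5_memLp (hV : Measurable V) (hM : ∀ x, |V x| ≤ M) (u : L2 q) :
    MemLp (fun x => (V x : ℂ) * u x) 2 (volume : Measure (En q)) := by
  refine MemLp.of_le_mul (c := M) (Lp.memLp u) ?_ ?_
  · exact (Complex.measurable_ofReal.comp hV).aestronglyMeasurable.mul (Lp.aestronglyMeasurable u)
  · refine Filter.Eventually.of_forall fun x => ?_
    rw [norm_mul, Complex.norm_real, Real.norm_eq_abs]
    exact mul_le_mul_of_nonneg_right (hM x) (norm_nonneg _)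

/-- Multiplication by `V` on `L²`. -/
noncomputable def P5_mul (hV : Measurable V) (hM : ∀ x, |V x| ≤ M) : L2 q →L[ℂ] L2 q :=
  LinearMap.mkContinuous
    { toFun := fun u => (P5_memLp hV hM u).toLp _
      map_add' := by
        intro u v
        apply Lp.ext
        filter_upwards [(P5_memLp hV hM (u + v)).coeFn_toLp, (P5_memLp hV hM u).coeFn_toLp,
          (P5_memLp hV hM v).coeFn_toLp, Lp.coeFn_add ((P5_memLp hV hM u).toLp _)
            ((P5_memLp hV hM v).toLp _), Lp.coeFn_add u v] with x h1 h2 h3 h4 h5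
        rw [h1, h4, Pi.add_apply, h2, h3, h5, Pi.add_apply]
        ring
      map_smul' := by
        intro c u
        apply Lp.ext
        filter_upwards [(P5_memLp hV hM (c • u)).coeFn_toLp, (P5_memLp hV hM u).coeFn_toLp,
          Lp.coeFn_smul c ((P5_memLp hV hM u).toLp _), Lp.coeFn_smul c u] with x h1 h2 h3 h4
        rw [h1, RingHom.id_apply, h3, Pi.smul_apply, h2, h4, Pi.smul_apply, smul_eq_mul,
          smul_eq_mul]
        ring } M (by
      intro u
      apply Lp.norm_le_mul_norm_of_ae_le_mul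
      filter_upwards [(P5_memLp hV hM u).coeFn_toLp] with x h1
      simp only [LinearMap.coe_mk, AddHom.coe_mk]
      rw [h1, norm_mul, Complex.norm_real, Real.norm_eq_abs]
      exact mul_le_mul_of_nonneg_right (hM x) (norm_nonneg _))

lemma P5_mul_coe (hV : Measurable V) (hM : ∀ x, |V x| ≤ M) (u : L2 q) :
    ∀ᵐ x, (P5_mul hV hM u) x = (V x : ℂ) * u x :=
  (P5_memLp hV hM u).coeFn_toLp

lemma P5_mul_norm (hV : Measurable V) (hM : ∀ x, |V x| ≤ M) (hM0 : 0 ≤ M) :
    ‖P5_mul hV hM‖ ≤ M :=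
  LinearMap.mkContinuous_norm_le _ hM0 _

lemma P5_int (u : L2 q) (φ : 𝓢(En q, ℂ)) : Integrable (fun x => u x * φ x) (volume : Measure (En q)) :=
  MemLp.integrable_mul (Lp.memLp u) (φ.memLp 2 volume)

lemma P5_lap_coe (φ : 𝓢(En q, ℂ)) (x : En q) : (Δ φ) x = (Δ φ : 𝓢(En q, ℂ)) x := rfl

lemma P5_iff (hV : Measurable V) (hM : ∀ x, |V x| ≤ M) (k : ℝ) (f u : L2 q) :
    IsResolvent V k f u ↔ ∀ φ : 𝓢(En q, ℂ), ∫ x, u x * (-(Δ φ) x + (k : ℂ) ^ 2 * φ x) =
      ∫ x, (f - P5_mul hV hM u) x * φ x := by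
  unfold IsResolvent
  refine forall_congr' fun φ => ?_
  have e1 : ∫ x, u x * (-(Δ φ) x + ((V x : ℂ) + (k : ℂ) ^ 2) * φ x) =
      (∫ x, u x * (-(Δ φ) x + (k : ℂ) ^ 2 * φ x)) + ∫ x, (P5_mul hV hM u) x * φ x := by
    rw [← integral_add]
    · apply integral_congr_ae
      filter_upwards [P5_mul_coe hV hM u] with x hx
      simp only [hx]
      ring
    · have h1 := P5_int u (-(Δ φ) + ((k : ℂ) ^ 2) • φ)
      refine h1.congr (Filter.Eventually.of_forall fun x => ?_)
      simp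
    · exact P5_int _ φ
  have e2 : ∫ x, (f - P5_mul hV hM u) x * φ x = (∫ x, f x * φ x) -
      ∫ x, (P5_mul hV hM u) x * φ x := by
    rw [← integral_sub (P5_int f φ) (P5_int _ φ)]
    apply integral_congr_ae
    filter_upwards [Lp.coeFn_sub f (P5_mul hV hM u)] with x hx
    rw [hx, Pi.sub_apply]
    ring
  rw [e1, e2]
  constructor
  · intro h
    rw [← h]; ring
  · intro h
    rw [h]; ring

end

theorem resolventExistsUnique (h : FreeResolvent) : ResolventExistsUnique := by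
  intro q V hV M hM k hk hMk f
  obtain ⟨R₀, hR, hR'⟩ := h q k hk
  have hM0 : 0 ≤ M := (abs_nonneg _).trans (hM 0)
  have hk2 : 0 < k ^ 2 := by positivity
  set MV := P5_mul hV hM with hMV
  have hT : ‖-(R₀ * MV)‖ < 1 := by
    rw [norm_neg]
    calc ‖R₀ * MV‖ ≤ ‖R₀‖ * ‖MV‖ := norm_mul_le _ _
      _ ≤ (1 / k ^ 2) * M := mul_le_mul hR (P5_mul_norm hV hM hM0) (norm_nonneg _) (by positivity)
      _ < 1 := by
        rw [one_div, inv_mul_lt_iff₀ hk2, mul_one]
        exact hMk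
  have hunit : IsUnit (1 - -(R₀ * MV)) := isUnit_one_sub_of_norm_lt_one hT
  obtain ⟨S, hS⟩ := hunit
  have key : ∀ u : L2 q, IsResolvent V k f u ↔ (1 - -(R₀ * MV)) u = R₀ f := by
    intro u
    rw [P5_iff hV hM k f u, hR' (f - MV u) u, map_sub]
    have : (1 - -(R₀ * MV)) u = u + R₀ (MV u) := by
      simp [sub_neg_eq_add]
    rw [this]
    constructor
    · intro h1
      nth_rw 1 [h1]
      abel
    · intro h1
      rw [← h1]
      abel
  refine ⟨(↑S⁻¹ : L2 q →L[ℂ] L2 q) (R₀ f), ?_, ?_⟩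
  · show IsResolvent V k f _
    rw [key, ← hS, ← ContinuousLinearMap.mul_apply, Units.mul_inv]
    rfl
  · intro v hv
    rw [key, ← hS] at hv
    rw [← hv, ← ContinuousLinearMap.mul_apply, Units.inv_mul]
    rfl

end Pool.Agent.Work.MP_f2af60_mp.PQ

end

section

/-!
# MP_f2af60_mp, item P4: the free resolvent on `L²`
-/

namespace Pool.Agent.Work.MP_f2af60_mp.PQ

open MeasureTheory FourierTransform TemperedDistribution
open scoped SchwartzMap Laplacian ENNReal

variable (q : ℕ)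

/-- The multiplier `1 / (4 π² |ξ|² + k²)`, written in a form suited for `fun_prop`. -/
noncomputable def P4g (k : ℝ) (ξ : En q) : ℂ :=
  (((k ^ 2)⁻¹ * (1 + ‖(2 * Real.pi / k) • ξ‖ ^ 2) ^ (-1 : ℝ) : ℝ) : ℂ)

/-- The multiplier `4 π² |ξ|² + k²`. -/
noncomputable def P4h (k : ℝ) (ξ : En q) : ℂ :=
  ((2 * Real.pi) ^ 2 : ℂ) * ((‖ξ‖ ^ 2 : ℝ) : ℂ) + (k : ℂ) ^ 2

theorem P4h_growth (k : ℝ) : Function.HasTemperateGrowth (P4h q k) := by
  unfold P4h
  fun_prop

theorem P4g_growth (k : ℝ) : Function.HasTemperateGrowth (P4g q k) := by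
  have h1 : Function.HasTemperateGrowth (fun ξ : En q => (2 * Real.pi / k) • ξ) := by fun_prop
  have h2 : Function.HasTemperateGrowth (fun ξ : En q => (1 + ‖ξ‖ ^ 2) ^ (-1 : ℝ)) := by fun_prop
  have h3 := h2.comp h1
  have h4 : Function.HasTemperateGrowth
      (fun ξ : En q => (k ^ 2)⁻¹ * (1 + ‖(2 * Real.pi / k) • ξ‖ ^ 2) ^ (-1 : ℝ)) :=
    (Function.HasTemperateGrowth.const _).mul h3
  exact Function.HasTemperateGrowth.comp (g := Complex.ofReal) (by fun_prop) h4

theorem P4_mul (k : ℝ) (hk : 0 < k) (ξ : En q) : P4g q k ξ * P4h q k ξ = 1 := by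
  unfold P4g P4h
  have h0 : ((2 * Real.pi) ^ 2 : ℂ) * ((‖ξ‖ ^ 2 : ℝ) : ℂ) + (k : ℂ) ^ 2 =
      (((2 * Real.pi) ^ 2 * ‖ξ‖ ^ 2 + k ^ 2 : ℝ) : ℂ) := by push_cast; ring
  rw [h0, ← Complex.ofReal_mul]
  have hn : ‖(2 * Real.pi / k) • ξ‖ = 2 * Real.pi / k * ‖ξ‖ := by
    rw [norm_smul, Real.norm_of_nonneg (by positivity)]
  rw [hn, Real.rpow_neg_one]
  have h1 : (k ^ 2)⁻¹ * (1 + (2 * Real.pi / k * ‖ξ‖) ^ 2)⁻¹ *
      ((2 * Real.pi) ^ 2 * ‖ξ‖ ^ 2 + k ^ 2) = 1 := by
    have hpos : 0 < 1 + (2 * Real.pi / k * ‖ξ‖) ^ 2 := by positivity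
    have e : (2 * Real.pi) ^ 2 * ‖ξ‖ ^ 2 + k ^ 2 = k ^ 2 * (1 + (2 * Real.pi / k * ‖ξ‖) ^ 2) := by
      field_simp
      ring
    rw [e]
    field_simp
  rw [h1]; simp

theorem P4g_bound (k : ℝ) (hk : 0 < k) (ξ : En q) : ‖P4g q k ξ‖ ≤ 1 / k ^ 2 := by
  unfold P4g
  rw [Complex.norm_real, Real.norm_of_nonneg (by positivity), Real.rpow_neg_one, one_div]
  have : (1 + ‖(2 * Real.pi / k) • ξ‖ ^ 2)⁻¹ ≤ 1 := by
    apply inv_le_one_of_one_le₀
    have := sq_nonneg ‖(2 * Real.pi / k) • ξ‖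
    linarith
  exact mul_le_of_le_one_right (by positivity) this

/-- The class of the multiplier in `L^∞`. -/
theorem P4gL (k : ℝ) (hk : 0 < k) : MemLp (P4g q k) ∞ (volume : Measure (En q)) :=
  memLp_top_of_bound (P4g_growth q k).1.continuous.aestronglyMeasurable (1 / k ^ 2)
    (Filter.Eventually.of_forall (P4g_bound q k hk))

theorem P4gL_norm (k : ℝ) (hk : 0 < k) : ‖(P4gL q k hk).toLp‖ ≤ 1 / k ^ 2 := by
  rw [Lp.norm_toLp]
  apply ENNReal.toReal_le_of_le_ofReal (by positivity)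
  rw [eLpNorm_exponent_top]
  exact eLpNormEssSup_le_of_ae_bound (Filter.Eventually.of_forall (P4g_bound q k hk))

/-- The free resolvent. -/
noncomputable def P4R (k : ℝ) (hk : 0 < k) : L2 q →L[ℂ] L2 q :=
  LinearMap.mkContinuous
    { toFun := fun f => 𝓕⁻ ((((P4gL q k hk).toLp) • (𝓕 f : L2 q) : L2 q))
      map_add' := fun f g => by
        rw [FourierTransform.fourier_add, Lp.add_smul, FourierTransform.fourierInv_add]
      map_smul' := fun c f => by
        rw [FourierTransform.fourier_smul, ← Lp.smul_comm, FourierTransform.fourierInv_smul,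
          RingHom.id_apply] } (1 / k ^ 2) (fun f => by
      show ‖(𝓕⁻ ((((P4gL q k hk).toLp) • (𝓕 f : L2 q) : L2 q)) : L2 q)‖ ≤ 1 / k ^ 2 * ‖f‖
      have h1 : ‖(𝓕⁻ ((((P4gL q k hk).toLp) • (𝓕 f : L2 q) : L2 q)) : L2 q)‖ =
          ‖(((P4gL q k hk).toLp) • (𝓕 f : L2 q) : L2 q)‖ :=
        (Lp.fourierTransformₗᵢ (En q) ℂ).symm.norm_map _
      rw [h1]
      refine (Lp.norm_smul_le _ _).trans ?_
      rw [Lp.norm_fourier_eq]
      exact mul_le_mul_of_nonneg_right (P4gL_norm q k hk) (norm_nonneg _))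

theorem P4R_apply (k : ℝ) (hk : 0 < k) (f : L2 q) :
    P4R q k hk f = 𝓕⁻ ((((P4gL q k hk).toLp) • (𝓕 f : L2 q) : L2 q)) := rfl

theorem P4R_dist (k : ℝ) (hk : 0 < k) (f : L2 q) :
    ((P4R q k hk f : L2 q) : 𝓢'(En q, ℂ)) = fourierMultiplierCLM ℂ (P4g q k) (f : 𝓢'(En q, ℂ)) := by
  rw [P4R_apply, ← Lp.fourierInv_toTemperedDistribution_eq,
    MeasureTheory.Lp.toTemperedDistribution_smul_eq (P4g_growth q k),
    fourierMultiplierCLM_apply, Lp.fourier_toTemperedDistribution_eq]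

theorem P4_helm (k : ℝ) (U : 𝓢'(En q, ℂ)) :
    fourierMultiplierCLM ℂ (P4h q k) U = - (Δ U) + ((k : ℂ) ^ 2) • U := by
  rw [laplacian_eq_fourierMultiplierCLM]
  have h1 : P4h q k = (((2 * Real.pi) ^ 2 : ℂ) • (fun ξ : En q => ((‖ξ‖ ^ 2 : ℝ) : ℂ))) +
      (fun _ : En q => (k : ℂ) ^ 2) := by
    ext ξ
    simp [P4h]
  have h2 : Function.HasTemperateGrowth (fun ξ : En q => ((‖ξ‖ ^ 2 : ℝ) : ℂ)) := by fun_prop
  have h3 : Function.HasTemperateGrowth
      (((2 * Real.pi) ^ 2 : ℂ) • (fun ξ : En q => ((‖ξ‖ ^ 2 : ℝ) : ℂ))) := by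
    have : (((2 * Real.pi) ^ 2 : ℂ) • (fun ξ : En q => ((‖ξ‖ ^ 2 : ℝ) : ℂ))) =
        fun ξ : En q => ((2 * Real.pi) ^ 2 : ℂ) * ((‖ξ‖ ^ 2 : ℝ) : ℂ) := rfl
    rw [this]
    fun_prop
  rw [fourierMultiplierCLM_apply, h1, smulLeftCLM_add h3 (Function.HasTemperateGrowth.const _),
    smulLeftCLM_smul h2]
  simp only [add_apply, smul_apply, smulLeftCLM_const]
  rw [FourierTransform.fourierInv_add, FourierTransform.fourierInv_smul,
    FourierTransform.fourierInv_smul, FourierTransform.fourierInv_fourier_eq,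
    ← fourierMultiplierCLM_apply, neg_smul, neg_neg]
  congr 1
  rw [← Complex.coe_smul]
  push_cast
  rfl

theorem P4_inj (u v : L2 q) (h : (u : 𝓢'(En q, ℂ)) = (v : 𝓢'(En q, ℂ))) : u = v := by
  have hk := Lp.ker_toTemperedDistributionCLM_eq_bot (E := En q) (F := ℂ) (p := 2)
    (μ := (volume : Measure (En q)))
  have h1 : u - v ∈ (Lp.toTemperedDistributionCLM ℂ (volume : Measure (En q)) 2).ker := by
    rw [LinearMap.mem_ker]
    show Lp.toTemperedDistributionCLM ℂ (volume : Measure (En q)) 2 (u - v) = 0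
    rw [map_sub, Lp.toTemperedDistributionCLM_apply, Lp.toTemperedDistributionCLM_apply, h, sub_self]
  rw [hk, Submodule.mem_bot] at h1
  exact sub_eq_zero.mp h1

/-- P4: the free resolvent on `L²`. -/
theorem freeResolvent : FreeResolvent := by
  intro q k hk
  refine ⟨P4R q k hk, LinearMap.mkContinuous_norm_le _ (by positivity) _, fun f u => ?_⟩
  have i1 : ∀ φ : 𝓢(En q, ℂ), (∫ x : En q, (-(Δ φ) + ((k : ℂ) ^ 2) • φ) x • u x) =
      ∫ x, u x * (-(Δ φ) x + (k : ℂ) ^ 2 * φ x) := fun φ =>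
    integral_congr_ae (Filter.Eventually.of_forall fun x => by
      simp [mul_comm])
  have i2 : ∀ φ : 𝓢(En q, ℂ), (∫ x : En q, φ x • f x) = ∫ x, f x * φ x := fun φ =>
    integral_congr_ae (Filter.Eventually.of_forall fun x => by
      simp [mul_comm])
  have e1 : ∀ φ : 𝓢(En q, ℂ), (-(Δ (u : 𝓢'(En q, ℂ))) + ((k : ℂ) ^ 2) • (u : 𝓢'(En q, ℂ))) φ =
      (u : 𝓢'(En q, ℂ)) (-(Δ φ) + ((k : ℂ) ^ 2) • φ) := by
    intro φ
    rw [map_add, map_neg, map_smul]
    simp
  have h1 : (∀ φ : 𝓢(En q, ℂ), ∫ x, u x * (-(Δ φ) x + (k : ℂ) ^ 2 * φ x) = ∫ x, f x * φ x) ↔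
      fourierMultiplierCLM ℂ (P4h q k) (u : 𝓢'(En q, ℂ)) = (f : 𝓢'(En q, ℂ)) := by
    rw [P4_helm]
    constructor
    · intro h
      ext φ
      rw [e1, Lp.toTemperedDistribution_apply, Lp.toTemperedDistribution_apply]
      exact (i1 φ).trans ((h φ).trans (i2 φ).symm)
    · intro h φ
      have h2 := DFunLike.congr_fun h φ
      rw [e1, Lp.toTemperedDistribution_apply, Lp.toTemperedDistribution_apply] at h2
      exact (i1 φ).symm.trans (h2.trans (i2 φ))
  rw [h1]
  have hgh : P4h q k * P4g q k = fun _ : En q => (1 : ℂ) := by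
    ext ξ
    rw [Pi.mul_apply, mul_comm, P4_mul q k hk]
  have hhg : P4g q k * P4h q k = fun _ : En q => (1 : ℂ) := by
    ext ξ
    rw [Pi.mul_apply, P4_mul q k hk]
  constructor
  · intro h
    apply P4_inj
    rw [P4R_dist, ← h,
      fourierMultiplierCLM_fourierMultiplierCLM_apply (P4h_growth q k) (P4g_growth q k), hgh]
    simp
  · intro h
    rw [h, P4R_dist,
      fourierMultiplierCLM_fourierMultiplierCLM_apply (P4g_growth q k) (P4h_growth q k), hhg]
    simp

end Pool.Agent.Work.MP_f2af60_mp.PQ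

end
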