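import Pool.Agent.Work.MP_f2af60_mp.Ev.Stmts

/-! Bundle of small proof modules (one section per former module). -/

section

/-!
# [f2af60 Ev Cap] antipodal symmetry of the surface measure and lower bound for caps
-/

set_option autoImplicit false

namespace Pool.Agent.Work.MP_f2af60_mp.Ev

open MeasureTheory Metric Filter Topology Set
open scoped Pointwise

namespace Cap

theorem neg_preserving (q : ℕ) :
    MeasurePreserving (fun w : Sp q => -w) (sg q) (sg q) := by
  have hm : Measurable (fun w : Sp q => -w) := continuous_neg.measurable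
  refine ⟨hm, Measure.ext fun s hs => ?_⟩
  rw [Measure.map_apply hm hs]
  unfold sg
  rw [Measure.toSphere_apply' _ (hm hs), Measure.toSphere_apply' _ hs]
  have h1 : ((↑) '' ((fun w : Sp q => -w) ⁻¹' s) : Set (En q)) = -((↑) '' s) := by
    ext x
    rw [Set.mem_neg]
    constructor
    · rintro ⟨w, hw, rfl⟩
      exact ⟨-w, hw, rfl⟩
    · rintro ⟨w, hw, h⟩
      refine ⟨-w, ?_, ?_⟩
      · show - -w ∈ s
        rw [neg_neg]
        exact hw
      · show -(w : En q) = x
        rw [h, neg_neg]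
  have h2 : Ioo (0 : ℝ) 1 • (-((↑) '' s) : Set (En q)) = -(Ioo (0 : ℝ) 1 • ((↑) '' s)) := by
    ext x
    rw [Set.mem_neg]
    constructor
    · rintro ⟨r, hr, y, hy, rfl⟩
      exact ⟨r, hr, -y, hy, by simp⟩
    · rintro ⟨r, hr, y, hy, h⟩
      refine ⟨r, hr, -y, ?_, ?_⟩
      · rw [Set.mem_neg, neg_neg]
        exact hy
      · show r • -y = x
        rw [smul_neg]
        have h' : r • y = -x := h
        rw [h', neg_neg]
  rw [h1, h2, Measure.measure_neg]

end Cap

theorem I_Cap : StCap := by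
  intro q
  refine ⟨Cap.neg_preserving q, ?_⟩
  have hb : 0 < (volume : Measure (En q)).real (ball 0 1) := by
    rw [Measure.real, ENNReal.toReal_pos_iff]
    exact ⟨measure_ball_pos _ _ one_pos, measure_ball_lt_top⟩
  have hdim : Module.finrank ℝ (En q) = 2 * q + 3 := by simp
  refine ⟨((2 * q + 3 : ℕ) : ℝ) * (1 / 4) ^ (2 * q + 3) * (volume : Measure (En q)).real (ball 0 1),
    by positivity, fun w r hr hr1 => ?_⟩
  have h1 := Measure.toSphereBallBound_mul_measureReal_unitBall_le_toSphere_ball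
    (volume : Measure (En q)) hr w
  refine le_trans (le_of_eq ?_) h1
  rw [hdim]
  have h2 : ((Measure.toSphereBallBound (2 * q + 3) r : NNReal) : ℝ) =
      ((2 * q + 3 : ℕ) : ℝ) * (r / 4) ^ (2 * q + 3) := by
    unfold Measure.toSphereBallBound
    rw [if_pos ⟨by omega, hr⟩]
    have h3 : min (Real.toNNReal r) 2 = Real.toNNReal r := by
      apply min_eq_left
      rw [Real.toNNReal_le_iff_le_coe]
      push_cast
      linarith
    rw [h3]
    push_cast
    rw [Real.coe_toNNReal r hr.le]
  rw [h2]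
  rw [div_pow, div_pow, one_pow]
  ring

end Pool.Agent.Work.MP_f2af60_mp.Ev

end

section

/-! 17: the determinant of moments as a multiple integral. -/

set_option autoImplicit false

namespace Pool.Agent.Work.MP_f2af60_mp.Ev

open MeasureTheory Metric Filter Topology Set

namespace Det

/-- a bounded compactly supported potential times a continuous function is integrable -/
theorem integrable_mul {q : ℕ} {V : En q → ℝ} {R M : ℝ} (hV : Pot q V R M) (f : En q → ℝ)
    (hf : Continuous f) : Integrable (fun x => V x * f x) := by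
  have hK : IsCompact (closedBall (0 : En q) R) := isCompact_closedBall 0 R
  obtain ⟨C, hC⟩ := hK.exists_bound_of_continuousOn hf.continuousOn
  have h1 : IntegrableOn (fun x => V x * f x) (closedBall (0 : En q) R) := by
    refine Measure.integrableOn_of_bounded (M := M * C) hK.measure_lt_top.ne
      (hV.meas.mul hf.measurable).aestronglyMeasurable ?_
    refine (ae_restrict_iff' measurableSet_closedBall).2 (Eventually.of_forall fun x hx => ?_)
    rw [norm_mul]
    exact mul_le_mul (hV.bdd x) (hC x hx) (norm_nonneg _) ((abs_nonneg _).trans (hV.bdd x))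
  refine (integrableOn_iff_integrable_of_support_subset ?_).1 h1
  intro x hx
  by_contra hcon
  rw [mem_closedBall_zero_iff, not_le] at hcon
  exact hx (by simp [hV.supp x hcon])

end Det

theorem I_Det : StDet := by
  intro q V R M hV e p m φ hφ
  set f : Fin m → Fin m → En q → ℝ := fun i j x => V x * Real.exp (inner ℝ p x) *
    φ i (inner ℝ e x) * Real.exp (((j : ℕ) : ℝ) * inner ℝ e x) with hf
  have hint : ∀ i j, Integrable (f i j) := by
    intro i j
    have h := Det.integrable_mul hV (fun x => Real.exp (inner ℝ p x) *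
      φ i (inner ℝ e x) * Real.exp (((j : ℕ) : ℝ) * inner ℝ e x)) (by
        have := hφ i
        fun_prop)
    refine h.congr (Eventually.of_forall fun x => ?_)
    simp only [hf]
    ring
  have hprod : ∀ σ : Equiv.Perm (Fin m),
      Integrable (fun x : Fin m → En q => ∏ i, f i (σ i) (x i)) := fun σ =>
    Integrable.fintype_prod (f := fun i => f i (σ i)) fun i => hint i (σ i)
  have hexp : ∀ x : Fin m → En q,
      (∏ i, V (x i) * Real.exp (inner ℝ p (x i)) * φ i (inner ℝ e (x i))) *
        (Matrix.of fun i j : Fin m => Real.exp (((j : ℕ) : ℝ) * inner ℝ e (x i))).det =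
      ∑ σ : Equiv.Perm (Fin m), ((σ.sign : ℤ) : ℝ) * ∏ i, f i (σ i) (x i) := by
    intro x
    rw [← Matrix.det_transpose, Matrix.det_apply', Finset.mul_sum]
    refine Finset.sum_congr rfl fun σ _ => ?_
    simp only [Matrix.transpose_apply, Matrix.of_apply, hf]
    rw [mul_left_comm, ← Finset.prod_mul_distrib]
  constructor
  · refine Integrable.congr ?_ (Eventually.of_forall fun x => (hexp x).symm)
    exact integrable_finsetSum _ fun σ _ => (hprod σ).const_mul _
  · simp_rw [hexp]
    rw [integral_finsetSum _ fun σ _ => (hprod σ).const_mul _, ← Matrix.det_transpose,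
      Matrix.det_apply']
    refine Finset.sum_congr rfl fun σ _ => ?_
    rw [integral_const_mul]
    congr 1
    rw [integral_fintype_prod_volume_eq_prod (fun i => f i (σ i))]
    refine Finset.prod_congr rfl fun i _ => ?_
    simp only [Matrix.transpose_apply, Matrix.of_apply, hf]
    refine integral_congr_ae (Eventually.of_forall fun x => ?_)
    ring

end Pool.Agent.Work.MP_f2af60_mp.Ev

end

section

/-! Item Dir: a direction of the support of an even potential. -/

set_option autoImplicit false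

namespace Pool.Agent.Work.MP_f2af60_mp.Ev

open MeasureTheory Metric Filter Topology Set

namespace DirItem

/-- reflection of an almost everywhere statement -/
lemma ae_neg {q : ℕ} {p : En q → Prop} (h : ∀ᵐ x, p x) : ∀ᵐ x, p (-x) :=
  (Measure.measurePreserving_neg (volume : Measure (En q))).quasiMeasurePreserving.ae h

/-- a hyperplane is a null set -/
lemma ae_ne {q : ℕ} {e : En q} (he : ‖e‖ = 1) : ∀ᵐ x : En q, inner ℝ e x ≠ 0 := by
  let s : Submodule ℝ (En q) := LinearMap.ker ((innerSL ℝ e : En q →L[ℝ] ℝ) : En q →ₗ[ℝ] ℝ)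
  have hs : s ≠ ⊤ := by
    intro h
    have h1 : e ∈ s := by rw [h]; trivial
    have h2 : inner ℝ e e = (0 : ℝ) := h1
    rw [real_inner_self_eq_norm_sq, he] at h2
    norm_num at h2
  have h0 := Measure.addHaar_submodule (volume : Measure (En q)) s hs
  rw [ae_iff]
  refine measure_mono_null ?_ h0
  intro x hx
  have hx' : inner ℝ e x = (0 : ℝ) := by simpa using hx
  exact hx'

end DirItem

open DirItem in
/-- a direction exists -/
theorem I_Dir : StDir := by
  intro q V R M hV hev hne
  obtain ⟨e, he⟩ : ∃ e : En q, ‖e‖ = 1 := ⟨EuclideanSpace.single 0 1, by simp⟩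
  have hmono : ∀ s s' : ℝ, s ≤ s' → (∀ᵐ x, s < inner ℝ e x → V x = 0) →
      ∀ᵐ x, s' < inner ℝ e x → V x = 0 := by
    intro s s' hss h
    filter_upwards [h] with x hx hx'
    exact hx (lt_of_le_of_lt hss hx')
  have hR : ∀ᵐ x, R < inner ℝ e x → V x = 0 := by
    refine Eventually.of_forall fun x hx => hV.supp x ?_
    refine lt_of_lt_of_le hx ?_
    have := real_inner_le_norm e x
    rwa [he, one_mul] at this
  have h0 : ¬ ∀ᵐ x, (0 : ℝ) < inner ℝ e x → V x = 0 := by
    intro h
    apply hne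
    filter_upwards [h, ae_neg h, ae_ne he] with x h1 h2 h3
    rcases lt_or_gt_of_ne h3 with h4 | h4
    · have h5 := h2 (by rw [inner_neg_right]; linarith)
      rw [hev] at h5
      exact h5
    · exact h1 h4
  have hk : ∃ k : ℕ, ¬ ∀ᵐ x, (1 : ℝ) / ((k : ℝ) + 1) < inner ℝ e x → V x = 0 := by
    by_contra hcon
    push Not at hcon
    apply h0
    rw [← ae_all_iff] at hcon
    filter_upwards [hcon] with x hx hx'
    obtain ⟨k, hk⟩ := exists_nat_one_div_lt hx'
    exact hx k hk
  obtain ⟨k, hk⟩ := hk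
  set S : Set ℝ := {s | ∀ᵐ x, s < inner ℝ e x → V x = 0} with hS
  have hlb : (1 : ℝ) / ((k : ℝ) + 1) ∈ lowerBounds S := by
    intro s hs
    by_contra hlt
    rw [not_le] at hlt
    exact hk (hmono s _ hlt.le hs)
  have hbdd : BddBelow S := ⟨_, hlb⟩
  have hSne : S.Nonempty := ⟨R, hR⟩
  have hpos : 0 < sInf S := lt_of_lt_of_le (by positivity) (le_csInf hSne hlb)
  have habove : ∀ᵐ x, sInf S < inner ℝ e x → V x = 0 := by
    have h1 : ∀ j : ℕ, ∀ᵐ x, sInf S + 1 / ((j : ℝ) + 1) < inner ℝ e x → V x = 0 := by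
      intro j
      have hj : (0 : ℝ) < 1 / ((j : ℝ) + 1) := by positivity
      obtain ⟨s, hs, hsj⟩ := exists_lt_of_csInf_lt hSne (lt_add_of_pos_right (sInf S) hj)
      exact hmono s _ hsj.le hs
    rw [← ae_all_iff] at h1
    filter_upwards [h1] with x hx hx'
    obtain ⟨j, hj⟩ := exists_nat_one_div_lt (sub_pos.2 hx')
    exact hx j (by linarith)
  refine ⟨e, sInf S, he, hpos, habove, ?_, ?_⟩
  · filter_upwards [ae_neg habove] with x hx hx'
    have := hx (by rw [inner_neg_right]; linarith)
    rwa [hev] at this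
  · intro d hd h
    have h1 : sInf S ≤ sInf S - d := csInf_le hbdd h
    linarith

end Pool.Agent.Work.MP_f2af60_mp.Ev

end

section

set_option autoImplicit false

namespace Pool.Agent.Work.MP_f2af60_mp.Ev

/-- 4: the kernel of the physical free resolvent. -/
theorem I_GH (h : Subord) : StGH := by
  intro q t ht z hz
  have h1 := (h q (t ^ 2) z (by positivity) hz).1
  rw [Real.sqrt_sq ht.le] at h1
  exact h1

end Pool.Agent.Work.MP_f2af60_mp.Ev

end

section

/-! # MP_f2af60_mp, project Ev, item Grow -/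

set_option autoImplicit false

namespace Pool.Agent.Work.MP_f2af60_mp.Ev

open MeasureTheory Metric Filter Topology Set

namespace Grow

/-- clipping to `[-R, R]` -/
noncomputable def cl (R s : ℝ) : ℝ := max (-R) (min R s)

theorem cl_cont (R : ℝ) : Continuous (cl R) := by unfold cl; fun_prop

theorem cl_abs {R : ℝ} (hR : 0 < R) (s : ℝ) : |cl R s| ≤ R := by
  rw [abs_le]
  exact ⟨le_max_left _ _, max_le (by linarith) (min_le_left _ _)⟩

theorem cl_eq {R s : ℝ} (h : |s| ≤ R) : cl R s = s := by
  rw [abs_le] at h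
  rw [cl, min_eq_right h.2, max_eq_right h.1]

/-- the weight -/
noncomputable def WW {q m : ℕ} (V : En q → ℝ) (e p : En q) (x : Fin m → En q) : ℝ :=
  (∏ i, V (x i) * Real.exp (inner ℝ p (x i))) *
    (Matrix.of fun i j : Fin m => Real.exp (((j : ℕ) : ℝ) * inner ℝ e (x i))).det

theorem WW_supp {q m : ℕ} {V : En q → ℝ} {R M : ℝ} (hV : Pot q V R M) {e : En q} (he : ‖e‖ = 1)
    (p : En q) {x : Fin m → En q} (hx : WW V e p x ≠ 0) (i : Fin m) :
    |inner ℝ e (x i)| ≤ R := by
  have h1 : ‖x i‖ ≤ R := by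
    by_contra h
    apply hx
    have : V (x i) = 0 := hV.supp _ (not_le.mp h)
    rw [WW, Finset.prod_eq_zero (Finset.mem_univ i) (by rw [this, zero_mul]), zero_mul]
  calc |inner ℝ e (x i)| ≤ ‖e‖ * ‖x i‖ := abs_real_inner_le_norm _ _
    _ ≤ R := by rw [he, one_mul]; exact h1

theorem WW_mul {q m : ℕ} (V : En q → ℝ) (e p : En q) (φ : Fin m → ℝ → ℝ) (x : Fin m → En q) :
    (∏ i, V (x i) * Real.exp (inner ℝ p (x i)) * φ i (inner ℝ e (x i))) *
      (Matrix.of fun i j : Fin m => Real.exp (((j : ℕ) : ℝ) * inner ℝ e (x i))).det =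
    WW V e p x * ∏ i, φ i (inner ℝ e (x i)) := by
  rw [WW, Finset.prod_mul_distrib]; ring

end Grow

open Grow in
theorem I_Grow (h1 : StPL) (h2 : StSWE) (h3 : StPst) (h4 : StDet) (h5 : StNu) : StGrow := by
  intro q V R M hV e h hD m hm δ hδ
  obtain ⟨p, hp⟩ := h3 q V R M hV e h hD δ hδ
  have hR := hV.hR
  by_contra hcon
  push Not at hcon
  have he0 : e ≠ 0 := by
    intro h0
    have := hD.norm_e
    rw [h0, norm_zero] at this
    exact zero_ne_one this
  set a : ℝ := m * (h - δ) with ha
  -- the functions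
  let s : (Fin m → En q) → Fin m → ℝ := fun x i => cl R (inner ℝ e (x i))
  have hs_cont : Continuous s := by
    refine continuous_pi fun i => (cl_cont R).comp ?_
    fun_prop
  have hs_abs : ∀ x i, |s x i| ≤ R := fun x i => cl_abs hR _
  let S : (Fin m → En q) → ℝ := fun x => ∑ i, s x i
  have hS_cont : Continuous S := continuous_finsetSum _ fun i _ => (continuous_apply i).comp hs_cont
  have hS_abs : ∀ x, |S x| ≤ m * R := by
    intro x
    calc |S x| ≤ ∑ i : Fin m, |s x i| := Finset.abs_sum_le_sum_abs _ _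
      _ ≤ ∑ i : Fin m, R := Finset.sum_le_sum fun i _ => hs_abs x i
      _ = m * R := by simp
  have hGs : ∀ x : Fin m → En q, WW V e p x ≠ 0 → ∀ i, s x i = inner ℝ e (x i) :=
    fun x hx i => cl_eq (WW_supp hV hD.norm_e p hx i)
  -- integrability
  have hGint : Integrable (fun x : Fin m → En q => WW V e p x) := by
    have := (h4 q V R M hV e p m (fun _ _ => 1) (fun _ => continuous_const)).1
    refine this.congr (Eventually.of_forall fun x => ?_)
    beta_reduce
    rw [WW_mul V e p (fun _ _ => 1) x]; simp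
  have hfint : ∀ α : Fin m → ℝ,
      Integrable (fun x : Fin m → En q => WW V e p x * Real.exp (∑ i, α i * s x i)) := by
    intro α
    have := (h4 q V R M hV e p m (fun i t => Real.exp (α i * t)) (fun i => by fun_prop)).1
    refine this.congr (Eventually.of_forall fun x => ?_)
    beta_reduce
    rw [WW_mul V e p (fun i t => Real.exp (α i * t)) x]
    by_cases hx : WW V e p x = 0
    · rw [hx, zero_mul, zero_mul]
    · rw [Real.exp_sum]
      congr 1
      exact Finset.prod_congr rfl fun i _ => by rw [hGs x hx i]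
  -- the determinant
  have hdet : ∀ (α : Fin m → ℝ) (z : ℝ), (XM V e p m α z).det =
      ∫ x : Fin m → En q, (WW V e p x * Real.exp (∑ i, α i * s x i)) *
        Real.exp ((2 * z) * S x) := by
    intro α z
    have e1 : XM V e p m α z = Matrix.of fun i j : Fin m => ∫ x : En q,
        V x * Real.exp (inner ℝ p x) * (Real.exp ((2 * z + α i) * inner ℝ e x) *
          Real.exp (((j : ℕ) : ℝ) * inner ℝ e x)) := by
      ext i j
      rw [XM, Matrix.of_apply, Matrix.of_apply, LV]
      congr 1
      funext x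
      rw [mul_assoc, ← Real.exp_add, ← Real.exp_add, inner_add_left, real_inner_smul_left]
      congr 2; ring
    rw [e1]
    have e2 := (h4 q V R M hV e p m (fun i t => Real.exp ((2 * z + α i) * t))
      (fun i => by fun_prop)).2
    beta_reduce at e2
    rw [e2]
    congr 1
    funext x
    have e3 := WW_mul V e p (fun i t => Real.exp ((2 * z + α i) * t)) x
    beta_reduce at e3
    rw [e3]
    by_cases hx : WW V e p x = 0
    · rw [hx, zero_mul, zero_mul, zero_mul]
    · rw [mul_assoc, ← Real.exp_add, ← Real.exp_sum]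
      congr 2
      simp only [S]
      rw [Finset.mul_sum, ← Finset.sum_add_distrib]
      exact Finset.sum_congr rfl fun i _ => by rw [hGs x hx i]; ring
  -- Phragmen-Lindelof
  have hPL : ∀ α : Fin m → ℝ, ∫ x in {x | a < S x},
      WW V e p x * Real.exp (∑ i, α i * s x i) = 0 := by
    intro α
    obtain ⟨z0, hz0⟩ := hcon p α
    refine h1 (Fin m → En q) volume _ S (m * R) 1 a (2 * z0) (hfint α) hS_cont.measurable hS_abs ?_
    intro z hz
    have e1 := hz0 (z / 2) (by linarith)
    rw [hdet α (z / 2)] at e1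
    have e2 : 2 * (z / 2) = z := by ring
    rw [e2] at e1
    rw [one_mul]
    refine e1.le.trans (le_of_eq ?_)
    rw [ha]; congr 1; ring
  have hmeas : MeasurableSet {x : Fin m → En q | a < S x} :=
    measurableSet_lt measurable_const hS_cont.measurable
  have hSW := h2 (Fin m → En q) volume m ({x | a < S x}.indicator fun x => WW V e p x) s R
    (hGint.indicator hmeas) hs_cont.measurable hs_abs (by
      intro α
      have e1 : ∀ x : Fin m → En q, ({x | a < S x}.indicator fun x => WW V e p x) x *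
          Real.exp (∑ i, α i * s x i) = ({x | a < S x}.indicator fun x =>
            WW V e p x * Real.exp (∑ i, α i * s x i)) x := by
        intro x
        by_cases hx : x ∈ {x | a < S x}
        · rw [indicator_of_mem hx, indicator_of_mem hx]
        · rw [indicator_of_notMem hx, indicator_of_notMem hx, zero_mul]
      simp only [e1]
      rw [integral_indicator hmeas]
      exact hPL α)
  -- conclusion
  apply hp
  refine h5 q V R M hV e p m (h - δ) he0 hm ?_
  intro φ hφ hφ0
  rw [(h4 q V R M hV e p m φ hφ).2]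
  have e1 := hSW (fun t => ∏ i, φ i (t i)) (by
    refine continuous_finsetProd _ fun i _ => (hφ i).comp (continuous_apply i))
  rw [← e1]
  congr 1
  funext x
  rw [WW_mul V e p φ x]
  by_cases hx : WW V e p x = 0
  · have : ({x | a < S x}.indicator fun x => WW V e p x) x = 0 := by
      by_cases hx' : x ∈ {x | a < S x}
      · rw [indicator_of_mem hx', hx]
      · rw [indicator_of_notMem hx']
    rw [hx, this, zero_mul, zero_mul]
  · have e2 : ∏ i, φ i (s x i) = ∏ i, φ i (inner ℝ e (x i)) :=
      Finset.prod_congr rfl fun i _ => by rw [hGs x hx i]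
    rw [e2]
    by_cases hpr : ∏ i, φ i (inner ℝ e (x i)) = 0
    · rw [hpr, mul_zero, mul_zero]
    · have e3 : ∀ i, h - δ < inner ℝ e (x i) := by
        intro i
        by_contra hi
        exact hpr (Finset.prod_eq_zero (Finset.mem_univ i) (hφ0 i _ (not_lt.mp hi)))
      have e4 : x ∈ {x | a < S x} := by
        change a < ∑ i, s x i
        have : Nonempty (Fin m) := ⟨⟨0, hm⟩⟩
        calc a = ∑ i : Fin m, (h - δ) := by
              rw [Finset.sum_const, Finset.card_univ, Fintype.card_fin, nsmul_eq_mul]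
          _ < ∑ i, s x i := by
            refine Finset.sum_lt_sum_of_nonempty Finset.univ_nonempty fun i _ => ?_
            rw [hGs x hx i]; exact e3 i
      rw [indicator_of_mem e4]

end Pool.Agent.Work.MP_f2af60_mp.Ev

end

section

/-! # The index lemma -/

set_option autoImplicit false

namespace Pool.Agent.Work.MP_f2af60_mp.Ev

open MeasureTheory Metric Filter Topology Set

namespace Idx

variable {H : Type} [NormedAddCommGroup H] [InnerProductSpace ℝ H]

/-- the span of the eigenspaces with eigenvalues in `S` -/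
def MS (T : H →L[ℝ] H) (S : Set ℝ) : Submodule ℝ H :=
  ⨆ μ : S, Module.End.eigenspace (T : Module.End ℝ H) (μ : ℝ)

lemma mem_MS (T : H →L[ℝ] H) (S : Set ℝ) {v : H} (hv : v ∈ MS T S) :
    ∃ (F : Finset S) (w : (μ : S) → Module.End.eigenspace (T : Module.End ℝ H) (μ : ℝ)),
      v = ∑ μ ∈ F, (w μ : H) := by
  classical
  obtain ⟨f, hf⟩ := (Submodule.mem_iSup_iff_exists_dfinsupp' _ _).mp hv
  exact ⟨f.support, f, hf.symm⟩

lemma form (T : H →L[ℝ] H) (hs : T.IsSymmetric) (S : Set ℝ) {v : H} (hv : v ∈ MS T S) :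
    ∃ (F : Finset S) (w : (μ : S) → Module.End.eigenspace (T : Module.End ℝ H) (μ : ℝ)),
      ‖v‖ ^ 2 = ∑ μ ∈ F, ‖w μ‖ ^ 2 ∧
      inner ℝ v (v + T v) = ∑ μ ∈ F, (1 + (μ : ℝ)) * ‖w μ‖ ^ 2 := by
  obtain ⟨F, w, rfl⟩ := mem_MS T S hv
  have ho := (hs.orthogonalFamily_eigenspaces).comp (f := fun μ : S => (μ : ℝ))
    Subtype.coe_injective
  refine ⟨F, w, ho.norm_sum w F, ?_⟩
  have h1 : (∑ μ ∈ F, (w μ : H)) + T (∑ μ ∈ F, (w μ : H)) =
      ∑ μ ∈ F, (((1 + (μ : ℝ)) • w μ :
        Module.End.eigenspace (T : Module.End ℝ H) (μ : ℝ)) : H) := by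
    rw [map_sum, ← Finset.sum_add_distrib]
    apply Finset.sum_congr rfl
    intro μ _
    have h2 : T (w μ : H) = (μ : ℝ) • (w μ : H) := Module.End.mem_eigenspace_iff.1 (w μ).2
    rw [Submodule.coe_smul, add_smul, one_smul, h2]
  rw [h1]
  refine (ho.inner_sum w (fun μ => (1 + (μ : ℝ)) • w μ) F).trans ?_
  apply Finset.sum_congr rfl
  intro μ _
  rw [real_inner_smul_right, real_inner_self_eq_norm_sq]

lemma fin_dim [CompleteSpace H] (T : H →L[ℝ] H) (hc : IsCompactOperator T) (N : Submodule ℝ H)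
    (hN : IsClosed (N : Set H)) (hb : ∀ v ∈ N, ‖v‖ ≤ ‖T v‖) : FiniteDimensional ℝ N := by
  obtain ⟨K, hK, hK'⟩ := hc
  let f : N →L[ℝ] H := T.comp N.subtypeL
  have ha : AntilipschitzWith 1 f :=
    AddMonoidHomClass.antilipschitz_of_bound f (fun x => by
      rw [NNReal.coe_one, one_mul]
      exact hb x x.2)
  have : CompleteSpace N := hN.completeSpace_coe
  have hce : IsClosedEmbedding f := ha.isClosedEmbedding f.uniformContinuous
  have hid : IsCompactOperator (id : N → N) := by
    refine ⟨f ⁻¹' K, hce.isCompact_preimage hK, ?_⟩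
    have h1 : Tendsto (fun x : N => (x : H)) (𝓝 0) (𝓝 0) := by
      have := (continuous_subtype_val (p := fun x => x ∈ N)).tendsto 0
      simpa using this
    exact h1 hK'
  exact FiniteDimensional.of_isCompactOperator_id hid

lemma decomp [CompleteSpace H] (T : H →L[ℝ] H) (hs : T.IsSymmetric) (hc : IsCompactOperator T)
    (hi : ∀ v : H, v + T v = 0 → v = 0) :
    ∃ (M : Submodule ℝ H) (c : ℝ), 0 < c ∧ FiniteDimensional ℝ M ∧
      (∀ v ∈ M, inner ℝ v (v + T v) ≤ -c * ‖v‖ ^ 2) ∧
      (∀ v ∈ Mᗮ, c * ‖v‖ ^ 2 ≤ inner ℝ v (v + T v)) := by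
  have hne : ¬ Module.End.HasEigenvalue (T : Module.End ℝ H) (-1) := by
    intro h
    obtain ⟨v, hv1, hv2⟩ := h.exists_hasEigenvector
    have h2 : T v = (-1 : ℝ) • v := Module.End.mem_eigenspace_iff.1 hv1
    exact hv2 (hi v (by rw [h2]; simp))
  obtain ⟨c, hc0, hcb⟩ := antilipschitzWith_iff_exists_mul_le_norm.1
    (hc.antilipschitz_of_not_hasEigenvalue (by norm_num) hne)
  have heig : ∀ (μ : ℝ) (w : Module.End.eigenspace (T : Module.End ℝ H) μ),
      c * ‖w‖ ≤ |1 + μ| * ‖w‖ := by
    intro μ w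
    have h1 := hcb (w : H)
    have h2 : T (w : H) = μ • (w : H) := Module.End.mem_eigenspace_iff.1 w.2
    have h3 : (T - (-1 : ℝ) • (1 : H →L[ℝ] H)) (w : H) = (1 + μ) • (w : H) := by
      simp [h2, add_smul, add_comm]
    rw [h3, norm_smul, Real.norm_eq_abs] at h1
    exact h1
  set N := (MS T {μ : ℝ | μ < -1}).topologicalClosure with hNdef
  set P := MS T {μ : ℝ | ¬ μ < -1} with hPdef
  have hcont : Continuous fun v : H => inner ℝ v (v + T v) := by fun_prop
  -- negative part
  have hneg0 : ∀ v ∈ MS T {μ : ℝ | μ < -1}, inner ℝ v (v + T v) ≤ -c * ‖v‖ ^ 2 := by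
    intro v hv
    obtain ⟨F, w, h1, h2⟩ := form T hs _ hv
    rw [h1, h2, Finset.mul_sum]
    apply Finset.sum_le_sum
    intro μ _
    have h3 : (μ : ℝ) < -1 := μ.2
    rcases eq_or_lt_of_le (norm_nonneg (w μ)) with h | h
    · rw [← h]; simp
    · have h4 := le_of_mul_le_mul_right (heig μ (w μ)) h
      rw [abs_of_neg (by linarith)] at h4
      apply mul_le_mul_of_nonneg_right _ (by positivity)
      linarith
  have hneg : ∀ v ∈ N, inner ℝ v (v + T v) ≤ -c * ‖v‖ ^ 2 := by
    have hcl : IsClosed {v : H | inner ℝ v (v + T v) ≤ -c * ‖v‖ ^ 2} :=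
      isClosed_le hcont (by fun_prop)
    intro v hv
    exact closure_minimal hneg0 hcl hv
  -- positive part
  have hpos0 : ∀ v ∈ P, c * ‖v‖ ^ 2 ≤ inner ℝ v (v + T v) := by
    intro v hv
    obtain ⟨F, w, h1, h2⟩ := form T hs _ hv
    rw [h1, h2, Finset.mul_sum]
    apply Finset.sum_le_sum
    intro μ _
    have h3 : ¬ (μ : ℝ) < -1 := μ.2
    push Not at h3
    rcases eq_or_lt_of_le (norm_nonneg (w μ)) with h | h
    · rw [← h]; simp
    · have h4 := le_of_mul_le_mul_right (heig μ (w μ)) h
      rw [abs_of_nonneg (by linarith)] at h4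
      exact mul_le_mul_of_nonneg_right h4 (by positivity)
  have hpos : ∀ v ∈ Pᗮᗮ, c * ‖v‖ ^ 2 ≤ inner ℝ v (v + T v) := by
    have hcl : IsClosed {v : H | c * ‖v‖ ^ 2 ≤ inner ℝ v (v + T v)} :=
      isClosed_le (by fun_prop) hcont
    intro v hv
    rw [Submodule.orthogonal_orthogonal_eq_closure] at hv
    exact closure_minimal hpos0 hcl hv
  -- orthogonality
  have hort : MS T {μ : ℝ | μ < -1} ⟂ P := by
    unfold MS at hPdef ⊢
    rw [hPdef, Submodule.isOrtho_iSup_left]
    intro μ
    rw [Submodule.isOrtho_iSup_right]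
    intro ν
    apply hs.orthogonalFamily_eigenspaces.isOrtho
    have h1 : (μ : ℝ) < -1 := μ.2
    have h2 : ¬ (ν : ℝ) < -1 := ν.2
    intro h
    rw [h] at h1
    exact h2 h1
  have hNP : N ≤ Pᗮ := by
    apply Submodule.topologicalClosure_minimal _ _ (Submodule.isClosed_orthogonal _)
    exact hort
  have htot : Nᗮ ⊓ Pᗮ = ⊥ := by
    rw [eq_bot_iff, ← ContinuousLinearMap.orthogonalComplement_iSup_eigenspaces_eq_bot hc hs,
      Submodule.inf_orthogonal]
    apply Submodule.orthogonal_le
    apply iSup_le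
    intro μ
    by_cases h : μ < -1
    · refine le_trans ?_ le_sup_left
      refine le_trans ?_ (Submodule.le_topologicalClosure _)
      exact le_iSup (fun μ : {μ : ℝ | μ < -1} =>
        Module.End.eigenspace (T : Module.End ℝ H) (μ : ℝ)) ⟨μ, h⟩
    · refine le_trans ?_ le_sup_right
      exact le_iSup (fun μ : {μ : ℝ | ¬ μ < -1} =>
        Module.End.eigenspace (T : Module.End ℝ H) (μ : ℝ)) ⟨μ, h⟩
  have hNfin : FiniteDimensional ℝ N := by
    apply fin_dim T hc N (Submodule.isClosed_topologicalClosure _)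
    intro v hv
    have h1 := hneg v hv
    rw [inner_add_right, real_inner_self_eq_norm_sq] at h1
    have h2 := abs_real_inner_le_norm v (T v)
    have h3 := neg_abs_le (inner ℝ v (T v))
    have h4 : ‖v‖ * ‖v‖ ≤ ‖v‖ * ‖T v‖ := by
      have h5 : 0 ≤ c * ‖v‖ ^ 2 := by positivity
      nlinarith
    rcases eq_or_lt_of_le (norm_nonneg v) with h | h
    · rw [← h]; exact norm_nonneg _
    · exact le_of_mul_le_mul_left h4 h
  refine ⟨N, c, hc0, hNfin, hneg, ?_⟩
  intro v hv
  apply hpos
  rw [Submodule.mem_orthogonal]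
  intro u hu
  obtain ⟨m, hm, m', hm', rfl⟩ := N.exists_add_mem_mem_orthogonal u
  have h1 : m' ∈ Pᗮ := by
    have := Pᗮ.sub_mem hu (hNP hm)
    simpa using this
  have h2 : m' ∈ Nᗮ ⊓ Pᗮ := ⟨hm', h1⟩
  rw [htot, Submodule.mem_bot] at h2
  rw [h2, add_zero]
  exact (Submodule.mem_orthogonal _ _).1 hv m hm

lemma dim_le (T T' : H →L[ℝ] H) (M : Submodule ℝ H) [FiniteDimensional ℝ M] (c : ℝ)
    (hp : ∀ v ∈ Mᗮ, c * ‖v‖ ^ 2 ≤ inner ℝ v (v + T v)) (hT : ‖T' - T‖ ≤ c)
    (W : Submodule ℝ H) (hW : ∀ w ∈ W, w ≠ 0 → inner ℝ w (w + T' w) < 0) :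
    Module.finrank ℝ W ≤ Module.finrank ℝ M := by
  let f : W →ₗ[ℝ] M := (M.orthogonalProjectionOnto : H →ₗ[ℝ] M) ∘ₗ W.subtype
  apply LinearMap.finrank_le_finrank_of_injective (f := f)
  rw [← LinearMap.ker_eq_bot, LinearMap.ker_eq_bot']
  intro w hw
  have h1 : (w : H) ∈ Mᗮ := Submodule.orthogonalProjectionOnto_eq_zero_iff.1 hw
  by_contra hne
  have hne' : (w : H) ≠ 0 := fun h => hne (Subtype.ext h)
  have h2 := hW w w.2 hne'
  have h3 := hp w h1
  have h4 : inner ℝ (w : H) ((w : H) + T' w) =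
      inner ℝ (w : H) ((w : H) + T w) + inner ℝ (w : H) ((T' - T) w) := by
    rw [← inner_add_right]
    congr 1
    rw [sub_apply]
    abel
  have h5 : -(c * ‖(w : H)‖ ^ 2) ≤ inner ℝ (w : H) ((T' - T) w) := by
    have h6 := abs_real_inner_le_norm (w : H) ((T' - T) w)
    have h7 := (T' - T).le_opNorm (w : H)
    have h8 : ‖(T' - T) (w : H)‖ ≤ c * ‖(w : H)‖ :=
      h7.trans (mul_le_mul_of_nonneg_right hT (norm_nonneg _))
    have h9 := mul_le_mul_of_nonneg_left h8 (norm_nonneg (w : H))
    have h10 := neg_abs_le (inner ℝ (w : H) ((T' - T) w))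
    nlinarith
  linarith

lemma neg_of_near (T T' : H →L[ℝ] H) (M : Submodule ℝ H) (c : ℝ)
    (hn : ∀ v ∈ M, inner ℝ v (v + T v) ≤ -c * ‖v‖ ^ 2) (hT : ‖T' - T‖ < c) :
    ∀ w ∈ M, w ≠ 0 → inner ℝ w (w + T' w) < 0 := by
  intro w hw hne
  have h3 := hn w hw
  have h4 : inner ℝ w (w + T' w) = inner ℝ w (w + T w) + inner ℝ w ((T' - T) w) := by
    rw [← inner_add_right]
    congr 1
    rw [sub_apply]
    abel
  have hw0 : 0 < ‖w‖ := norm_pos_iff.2 hne
  have h5 : inner ℝ w ((T' - T) w) ≤ ‖T' - T‖ * ‖w‖ ^ 2 := by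
    have h6 := real_inner_le_norm w ((T' - T) w)
    have h7 := (T' - T).le_opNorm w
    have h9 := mul_le_mul_of_nonneg_left h7 (norm_nonneg w)
    nlinarith
  have h6 : ‖T' - T‖ * ‖w‖ ^ 2 < c * ‖w‖ ^ 2 := mul_lt_mul_of_pos_right hT (by positivity)
  linarith

end Idx

open Idx in
theorem I_Idx : StIdx := by
  intro H _ _ _ T t0 hT hA
  choose! M c hc hfin hneg hpos using fun (t : ℝ) (ht : t0 ≤ t) =>
    decomp (T t) (hA t ht).1 (hA t ht).2.1 (hA t ht).2.2
  have hloc : ∀ t ≥ t0, ∀ᶠ t' in 𝓝[Ici t0] t,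
      Module.finrank ℝ (M t') = Module.finrank ℝ (M t) := by
    intro t ht
    have h1 : ContinuousWithinAt T (Ici t0) t := hT t ht
    have h2 : ∀ᶠ t' in 𝓝[Ici t0] t, dist (T t') (T t) < c t :=
      Metric.tendsto_nhds.1 h1 (c t) (hc t ht)
    filter_upwards [h2, self_mem_nhdsWithin] with t' h3 h4
    rw [dist_eq_norm] at h3
    have := hfin t ht
    have := hfin t' h4
    apply le_antisymm
    · apply dim_le (T t) (T t') (M t) (c t) (hpos t ht) h3.le
      exact neg_of_near (T t') (T t') (M t') (c t') (hneg t' h4) (by simpa using hc t' h4)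
    · apply dim_le (T t') (T t') (M t') (c t') (hpos t' h4) (by simpa using (hc t' h4).le)
      exact neg_of_near (T t) (T t') (M t) (c t) (hneg t ht) h3
  have hcont : ContinuousOn (fun t => Module.finrank ℝ (M t)) (Ici t0) := by
    intro t ht
    exact (continuousWithinAt_const (b := Module.finrank ℝ (M t))).congr_of_eventuallyEq
      (hloc t ht) rfl
  refine ⟨Module.finrank ℝ (M t0), ?_⟩
  intro t ht W hWf hW
  have h1 : Module.finrank ℝ (M t) = Module.finrank ℝ (M t0) :=
    isPreconnected_Ici.constant hcont ht self_mem_Ici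
  rw [← h1]
  have := hfin t ht
  exact dim_le (T t) (T t) (M t) (c t) (hpos t ht) (by simpa using (hc t ht).le) W hW

end Pool.Agent.Work.MP_f2af60_mp.Ev

end

section

/-!
# MP_f2af60_mp, project Ev: the kernel depends continuously on `t`
-/

set_option autoImplicit false

namespace Pool.Agent.Work.MP_f2af60_mp.Ev

open MeasureTheory Metric Filter Topology Set

namespace KCont

theorem fin_muQ (q : ℕ) (R : ℝ) : IsFiniteMeasure (muQ q R) := by
  constructor
  have h : muQ q R univ = volume (closedBall (0 : En q) R) := by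
    unfold muQ
    rw [Measure.comap_apply _ Subtype.val_injective
      (fun s hs => (MeasurableEmbedding.subtype_coe
        (measurableSet_closedBall)).measurableSet_image.2 hs) _ MeasurableSet.univ, image_univ,
      Subtype.range_coe]
  rw [h]
  exact measure_closedBall_lt_top

/-- the functional `u ↦ ∫ V u` is continuous -/
theorem cont_func {q : ℕ} {V : En q → ℝ} {R M : ℝ} (hV : Pot q V R M) :
    Continuous (fun u : C(Kb q R, ℝ) => ∫ x : Kb q R, V x * u x ∂(muQ q R)) := by
  have := fin_muQ q R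
  have hM : 0 ≤ M := (abs_nonneg _).trans (hV.bdd 0)
  have hVm : AEStronglyMeasurable (fun x : Kb q R => V x) (muQ q R) :=
    (hV.meas.comp measurable_subtype_coe).aestronglyMeasurable
  have hint : ∀ u : C(Kb q R, ℝ), Integrable (fun x : Kb q R => V x * u x) (muQ q R) := by
    intro u
    refine Integrable.mono' (integrable_const (M * ‖u‖))
      (hVm.mul u.continuous.aestronglyMeasurable) (Eventually.of_forall fun x => ?_)
    rw [norm_mul]
    exact mul_le_mul (hV.bdd x) (u.norm_coe_le_norm x) (norm_nonneg _) hM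
  refine LipschitzWith.continuous (K := (M * (muQ q R).real univ).toNNReal)
    (LipschitzWith.of_dist_le_mul fun u v => ?_)
  rw [Real.dist_eq, ← integral_sub (hint u) (hint v), dist_eq_norm,
    Real.coe_toNNReal _ (by positivity)]
  have e : (fun x : Kb q R => V x * u x - V x * v x) = fun x : Kb q R => V x * (u - v) x := by
    funext x
    rw [ContinuousMap.sub_apply]
    ring
  rw [e]
  calc |∫ x : Kb q R, V x * (u - v) x ∂(muQ q R)|
      ≤ (M * ‖u - v‖) * (muQ q R).real univ := by
        have hb : ∀ᵐ x : Kb q R ∂(muQ q R), ‖V x * (u - v) x‖ ≤ M * ‖u - v‖ := by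
          refine Eventually.of_forall fun x => ?_
          rw [norm_mul]
          exact mul_le_mul (hV.bdd x) ((u - v).norm_coe_le_norm x) (norm_nonneg _) hM
        exact norm_integral_le_of_norm_le_const hb
    _ = M * (muQ q R).real univ * ‖u - v‖ := by ring

/-- the exponentials as elements of `C(K, ℝ)` -/
theorem cont_ex (q : ℕ) (R : ℝ) : ∃ E : ℝ × Sp q → C(Kb q R, ℝ), Continuous E ∧
    ∀ p x, E p x = ex p.1 p.2 (x : En q) := by
  have hc : Continuous (fun p : (ℝ × Sp q) × Kb q R => ex p.1.1 p.1.2 (p.2 : En q)) := by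
    unfold ex
    fun_prop
  exact ⟨ContinuousMap.curry ⟨_, hc⟩, (ContinuousMap.curry ⟨_, hc⟩).continuous, fun _ _ => rfl⟩

theorem cont_kk {q : ℕ} {V : En q → ℝ} {R M : ℝ} (hV : Pot q V R M) (P : Pack q V R) :
    Continuous (fun p : Ici P.t0 × (Sp q × Sp q) => kk P (p.1 : ℝ) p.2.1 p.2.2) := by
  obtain ⟨E, hE, hEx⟩ := cont_ex q R
  have hg : Continuous (fun p : Ici P.t0 × (Sp q × Sp q) => P.g (p.1 : ℝ) (-p.2.2)) := by
    have h := P.cont.comp_continuous
      (f := fun p : Ici P.t0 × (Sp q × Sp q) => ((p.1 : ℝ), -p.2.2))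
      (by fun_prop) (fun p => ⟨p.1.2, mem_univ _⟩)
    exact h
  have hE' : Continuous (fun p : Ici P.t0 × (Sp q × Sp q) => E ((p.1 : ℝ), p.2.1)) :=
    hE.comp (by fun_prop)
  have ha : Continuous (fun p : Ici P.t0 × (Sp q × Sp q) =>
      aa P (p.1 : ℝ) p.2.1 (-p.2.2)) := by
    have h := (cont_func hV).comp (hE'.mul hg)
    refine h.congr fun p => ?_
    refine integral_congr_ae (Eventually.of_forall fun x => ?_)
    change V x * (E ((p.1 : ℝ), p.2.1) x * P.g (p.1 : ℝ) (-p.2.2) x) =
      V x * ex (p.1 : ℝ) p.2.1 (x : En q) * P.g (p.1 : ℝ) (-p.2.2) x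
    rw [hEx, mul_assoc]
  unfold kk kp
  refine Continuous.mul ?_ ha
  fun_prop

end KCont

open KCont in
theorem I_KCont : StKCont := by
  classical
  intro q _ V R M hV P
  let K : C(Ici P.t0, C(Sp q × Sp q, ℝ)) := ContinuousMap.curry ⟨_, cont_kk hV P⟩
  refine ⟨fun t => if h : t ∈ Ici P.t0 then K ⟨t, h⟩ else 0, ?_, ?_⟩
  · intro t ht w w'
    have h : t ∈ Ici P.t0 := ht
    simp only [h, dif_pos]
    rfl
  · rw [continuousOn_iff_continuous_domRestrict]
    refine K.continuous.congr fun t => ?_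
    have h : (t : ℝ) ∈ Ici P.t0 := t.2
    simp only [domRestrict_apply, h, dif_pos]

end Pool.Agent.Work.MP_f2af60_mp.Ev

end

section

/-!
# MP_f2af60_mp, project Ev: the kernel of the difference of the two free resolvents
-/

set_option autoImplicit false

namespace Pool.Agent.Work.MP_f2af60_mp.Ev

open MeasureTheory Metric Filter Topology Set

theorem I_Ker (h1 : StDq) (h2 : StSph) : StKer := by
  intro q t ht z hz
  have hn : 0 < ‖z‖ := norm_pos_iff.mpr hz
  have hn' : ((‖z‖ : ℝ) : ℂ) ≠ 0 := by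
    exact_mod_cast hn.ne'
  have e1 : (-(Complex.I * (t : ℂ))) * ((‖z‖ : ℝ) : ℂ) = -(Complex.I * ((t * ‖z‖ : ℝ) : ℂ)) := by
    push_cast; ring
  have e2 : (Complex.I * (t : ℂ)) * ((‖z‖ : ℝ) : ℂ) = Complex.I * ((t * ‖z‖ : ℝ) : ℂ) := by
    push_cast; ring
  have e3 : ∫ w : Sp q, ex t w z ∂(sg q) = 2 * Real.pi ^ (q + 1) / (q.factorial : ℝ) *
      ∫ u in (-1 : ℝ)..1, (1 - u ^ 2) ^ q * Real.exp (t * ‖z‖ * u) := by
    have h := h2 q (t • z)
    rw [norm_smul, Real.norm_of_nonneg ht.le] at h
    rw [← h]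
    refine integral_congr_ae (Eventually.of_forall fun w => ?_)
    simp only [ex, inner_smul_right]
  unfold GG
  rw [e1, e2, ← sub_div, h1 q (t * ‖z‖), e3]
  set J : ℝ := ∫ u in (-1 : ℝ)..1, (1 - u ^ 2) ^ q * Real.exp (t * ‖z‖ * u) with hJ
  rw [← Complex.ofReal_pow, ← Complex.ofReal_div]
  congr 1
  have hpi := Real.pi_pos
  have hq : (q.factorial : ℝ) ≠ 0 := by exact_mod_cast q.factorial_ne_zero
  have e4 : (2 * Real.pi) ^ (2 * q + 2) = (4 * Real.pi) ^ (q + 1) * Real.pi ^ (q + 1) := by
    have : 2 * q + 2 = 2 * (q + 1) := by ring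
    rw [this, pow_mul, ← mul_pow]
    congr 1
    ring
  unfold kp
  rw [e4, mul_pow]
  field_simp

end Pool.Agent.Work.MP_f2af60_mp.Ev

end

section

/-!
# MP_f2af60_mp, project Ev: the kernel in the window
-/

set_option autoImplicit false

namespace Pool.Agent.Work.MP_f2af60_mp.Ev

open MeasureTheory Metric Filter Topology Set

namespace Kest

theorem point (C0 t s r e E g : ℝ) (hC : 0 ≤ C0) (ht : 1 ≤ t) (hr : |s| ≤ r) (hr1 : r ≤ 1)
    (he : 0 ≤ e) (hg : |g - E| ≤ C0 / t * E) (b : ℝ) (hb : e * E = b * Real.exp s) (hb0 : 0 ≤ b) :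
    |e * g - b| ≤ (C0 / t + 2 * r * (1 + C0)) * b := by
  have ht0 : 0 < t := by linarith
  have h1 : |Real.exp s - 1| ≤ 2 * |s| := Real.abs_exp_sub_one_le (hr.trans hr1)
  have h2 : Real.exp s ≤ 1 + 2 * r := by
    have := le_abs_self (Real.exp s - 1); linarith
  have h3 : |e * g - b| ≤ e * |g - E| + |e * E - b| := by
    have : e * g - b = e * (g - E) + (e * E - b) := by ring
    rw [this]
    refine (abs_add_le _ _).trans ?_
    rw [abs_mul, abs_of_nonneg he]
  have h4 : e * |g - E| ≤ C0 / t * (e * E) := by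
    calc e * |g - E| ≤ e * (C0 / t * E) := mul_le_mul_of_nonneg_left hg he
      _ = _ := by ring
  have h5 : |e * E - b| = b * |Real.exp s - 1| := by
    have : e * E - b = b * (Real.exp s - 1) := by rw [hb]; ring
    rw [this, abs_mul, abs_of_nonneg hb0]
  have h6 : C0 / t * (e * E) ≤ (C0 / t + 2 * r * C0) * b := by
    have h7 : 0 ≤ C0 / t := by positivity
    have h8 : C0 / t ≤ C0 := div_le_self hC ht
    have hr0 : 0 ≤ r := (abs_nonneg s).trans hr
    calc C0 / t * (e * E) = C0 / t * b * Real.exp s := by rw [hb]; ring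
      _ ≤ C0 / t * b * (1 + 2 * r) := mul_le_mul_of_nonneg_left h2 (by positivity)
      _ = C0 / t * b + 2 * r * b * (C0 / t) := by ring
      _ ≤ C0 / t * b + 2 * r * b * C0 := by
          have := mul_le_mul_of_nonneg_left h8 (by positivity : 0 ≤ 2 * r * b)
          linarith
      _ = _ := by ring
  have h9 : b * |Real.exp s - 1| ≤ 2 * r * b := by
    calc b * |Real.exp s - 1| ≤ b * (2 * |s|) := mul_le_mul_of_nonneg_left h1 hb0
      _ ≤ b * (2 * r) := mul_le_mul_of_nonneg_left (by linarith) hb0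
      _ = _ := by ring
  rw [h5] at h3
  calc |e * g - b| ≤ (C0 / t + 2 * r * C0) * b + 2 * r * b := by linarith
    _ = _ := by ring

theorem fin (q : ℕ) (R : ℝ) : IsFiniteMeasure (muQ q R) := by
  refine ⟨?_⟩
  unfold muQ
  rw [MeasurableEmbedding.comap_apply (MeasurableEmbedding.subtype_coe measurableSet_closedBall)]
  refine lt_of_le_of_lt (measure_mono (Set.image_subset_iff.2 fun x _ => x.2 : _ ⊆ closedBall (0 : En q) R)) ?_
  exact measure_closedBall_lt_top

theorem integrable_bdd {q : ℕ} {R : ℝ} (f : Kb q R → ℝ) (hf : Measurable f) (B : ℝ)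
    (hB : ∀ x, |f x| ≤ B) : Integrable f (muQ q R) := by
  have := fin q R
  exact Integrable.mono' (integrable_const B) hf.aestronglyMeasurable (ae_of_all _ hB)

theorem toBall {q : ℕ} (R : ℝ) (F : En q → ℝ) (hF : ∀ x, R < ‖x‖ → F x = 0) :
    ∫ x, F x = ∫ x : Kb q R, F x ∂(muQ q R) := by
  rw [muQ, integral_subtype_comap measurableSet_closedBall F]
  symm
  apply setIntegral_eq_integral_of_forall_compl_eq_zero
  intro x hx
  apply hF
  simpa [mem_closedBall, dist_zero_right] using hx

end Kest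

theorem I_Kest : StKest := by
  intro q V R M hV P
  have hM : 0 ≤ M := (abs_nonneg _).trans (hV.bdd 0)
  have hC := P.C_nonneg
  have hR := hV.hR
  refine ⟨2 * R * (1 + P.C) + P.C, by positivity, fun t ht w w' v η hη hRη => ?_⟩
  have ht1 : 1 ≤ t := P.t0_ge.trans ht
  have ht0 : 0 < t := by linarith
  have hη0 : 0 ≤ η := (norm_nonneg _).trans hη
  have := Kest.fin q R
  have hmV : Measurable fun x : Kb q R => V x := hV.meas.comp measurable_subtype_coe
  -- the exponentials
  have hexc : ∀ w : Sp q, Continuous fun x : Kb q R => ex t w (x : En q) := fun w => by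
    unfold ex; fun_prop
  have hvc : Continuous fun x : Kb q R => Real.exp (inner ℝ v (x : En q)) := by fun_prop
  obtain ⟨B1, hB1⟩ := (isCompact_univ (X := Kb q R)).exists_bound_of_continuousOn (hexc w).continuousOn
  obtain ⟨B2, hB2⟩ := (isCompact_univ (X := Kb q R)).exists_bound_of_continuousOn
    (P.g t (-w')).continuous.continuousOn
  obtain ⟨B3, hB3⟩ := (isCompact_univ (X := Kb q R)).exists_bound_of_continuousOn hvc.continuousOn
  have i1 : Integrable (fun x : Kb q R => V x * ex t w (x : En q) * P.g t (-w') x) (muQ q R) := by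
    refine Kest.integrable_bdd _ ((hmV.mul (hexc w).measurable).mul (P.g t (-w')).continuous.measurable)
      (M * B1 * B2) fun x => ?_
    rw [abs_mul, abs_mul]
    have e1 := hB1 x (mem_univ _)
    have e2 := hB2 x (mem_univ _)
    rw [Real.norm_eq_abs] at e1 e2
    exact mul_le_mul (mul_le_mul (hV.bdd x) e1 (abs_nonneg _) hM) e2 (abs_nonneg _)
      (mul_nonneg hM ((abs_nonneg _).trans e1))
  have i2 : Integrable (fun x : Kb q R => V x * Real.exp (inner ℝ v (x : En q))) (muQ q R) := by
    refine Kest.integrable_bdd _ (hmV.mul hvc.measurable) (M * B3) fun x => ?_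
    rw [abs_mul]
    have e3 := hB3 x (mem_univ _)
    rw [Real.norm_eq_abs] at e3
    exact mul_le_mul (hV.bdd x) e3 (abs_nonneg _) hM
  have i3 : Integrable (fun x : Kb q R => |V x| * Real.exp (inner ℝ v (x : En q))) (muQ q R) := by
    refine Kest.integrable_bdd _ (hmV.abs.mul hvc.measurable) (M * B3) fun x => ?_
    rw [abs_mul, abs_abs]
    have e3 := hB3 x (mem_univ _)
    rw [Real.norm_eq_abs] at e3
    exact mul_le_mul (hV.bdd x) e3 (abs_nonneg _) hM
  have e1 : LV V v = ∫ x : Kb q R, V x * Real.exp (inner ℝ v (x : En q)) ∂(muQ q R) :=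
    Kest.toBall R (fun x => V x * Real.exp (inner ℝ v x)) fun x hx => by simp [hV.supp x hx]
  have e2 : ∫ x, |V x| * Real.exp (inner ℝ v x) =
      ∫ x : Kb q R, |V x| * Real.exp (inner ℝ v (x : En q)) ∂(muQ q R) :=
    Kest.toBall R (fun x => |V x| * Real.exp (inner ℝ v x)) fun x hx => by simp [hV.supp x hx]
  rw [e1, e2]
  unfold aa
  rw [← integral_sub i1 i2]
  have hpt : ∀ x : Kb q R, ‖V x * ex t w (x : En q) * P.g t (-w') x -
      V x * Real.exp (inner ℝ v (x : En q))‖ ≤
      (P.C / t + 2 * (R * η) * (1 + P.C)) * (|V x| * Real.exp (inner ℝ v (x : En q))) := by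
    intro x
    have hxR : ‖(x : En q)‖ ≤ R := mem_closedBall_zero_iff.1 x.2
    have hs : |inner ℝ (t • (w : En q) - t • (w' : En q) - v) (x : En q)| ≤ R * η := by
      calc _ ≤ ‖t • (w : En q) - t • (w' : En q) - v‖ * ‖(x : En q)‖ := abs_real_inner_le_norm _ _
        _ ≤ η * R := mul_le_mul hη hxR (norm_nonneg _) hη0
        _ = _ := mul_comm _ _
    have hb : ex t w (x : En q) * ex t (-w') (x : En q) = Real.exp (inner ℝ v (x : En q)) *
        Real.exp (inner ℝ (t • (w : En q) - t • (w' : En q) - v) (x : En q)) := by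
      unfold ex
      rw [← Real.exp_add, ← Real.exp_add]
      congr 1
      have : ((-w' : Sp q) : En q) = -(w' : En q) := rfl
      rw [this, inner_sub_left, inner_sub_left, inner_smul_left, inner_smul_left, inner_neg_left]
      simp
      ring
    have key := Kest.point P.C t _ (R * η) (ex t w (x : En q)) (ex t (-w') (x : En q))
      (P.g t (-w') x) hC ht1 hs hRη (Real.exp_pos _).le (P.near t ht (-w') x)
      (Real.exp (inner ℝ v (x : En q))) hb (Real.exp_pos _).le
    have e4 : V x * ex t w (x : En q) * P.g t (-w') x - V x * Real.exp (inner ℝ v (x : En q)) =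
        V x * (ex t w (x : En q) * P.g t (-w') x - Real.exp (inner ℝ v (x : En q))) := by ring
    rw [e4, norm_mul, Real.norm_eq_abs, Real.norm_eq_abs]
    calc |V x| * |ex t w (x : En q) * P.g t (-w') x - Real.exp (inner ℝ v (x : En q))|
        ≤ |V x| * ((P.C / t + 2 * (R * η) * (1 + P.C)) * Real.exp (inner ℝ v (x : En q))) :=
          mul_le_mul_of_nonneg_left key (abs_nonneg _)
      _ = _ := by ring
  have hI : 0 ≤ ∫ x : Kb q R, |V x| * Real.exp (inner ℝ v (x : En q)) ∂(muQ q R) :=
    integral_nonneg fun x => mul_nonneg (abs_nonneg _) (Real.exp_pos _).le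
  calc |∫ x : Kb q R, (V x * ex t w (x : En q) * P.g t (-w') x -
      V x * Real.exp (inner ℝ v (x : En q))) ∂(muQ q R)|
      ≤ ∫ x : Kb q R, (P.C / t + 2 * (R * η) * (1 + P.C)) *
          (|V x| * Real.exp (inner ℝ v (x : En q))) ∂(muQ q R) :=
        norm_integral_le_of_norm_le (i3.const_mul _) (ae_of_all _ hpt)
    _ = (P.C / t + 2 * (R * η) * (1 + P.C)) *
          ∫ x : Kb q R, |V x| * Real.exp (inner ℝ v (x : En q)) ∂(muQ q R) := integral_const_mul _ _
    _ ≤ _ := by
        refine mul_le_mul_of_nonneg_right ?_ hI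
        have h1 : (2 * R * (1 + P.C) + P.C) / t = 2 * R * (1 + P.C) / t + P.C / t := add_div _ _ _
        have h2 : 0 ≤ 2 * R * (1 + P.C) / t := by positivity
        have h3 : 0 ≤ P.C * η := mul_nonneg hC hη0
        rw [h1]
        nlinarith

end Pool.Agent.Work.MP_f2af60_mp.Ev

end

section

/-! # MP_f2af60_mp, project Ev, item 22: size of the Laplace transform in the direction `e` -/

set_option autoImplicit false

namespace Pool.Agent.Work.MP_f2af60_mp.Ev

open MeasureTheory Metric Filter Topology Set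

namespace LV

theorem bound {q : ℕ} {V : En q → ℝ} {R M : ℝ} (hV : Pot q V R M) {e : En q} {h : ℝ}
    (hD : Dir q V e h) (p : En q) {A a z : ℝ} (ha : |a| ≤ A) (hz : 0 ≤ z) :
    ∀ᵐ x, |V x| * Real.exp (inner ℝ (p + (2 * z + a) • e) x) ≤
      (Kb q R).indicator (fun _ => M * (Real.exp (‖p‖ * R + A * h) * Real.exp (2 * z * h))) x := by
  have hM : 0 ≤ M := (abs_nonneg _).trans (hV.bdd 0)
  filter_upwards [hD.above, hD.below] with x h1 h2
  have hnn : 0 ≤ (Kb q R).indicator
      (fun _ => M * (Real.exp (‖p‖ * R + A * h) * Real.exp (2 * z * h))) x :=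
    indicator_nonneg (fun _ _ => by positivity) x
  by_cases hx : V x = 0
  · rw [hx, abs_zero, zero_mul]
    exact hnn
  have hR : ‖x‖ ≤ R := by
    by_contra hcon
    exact hx (hV.supp x (not_le.1 hcon))
  have h3 : inner ℝ e x ≤ h := by
    by_contra hcon
    exact hx (h1 (not_le.1 hcon))
  have h4 : -h ≤ inner ℝ e x := by
    by_contra hcon
    exact hx (h2 (not_le.1 hcon))
  have hmem : x ∈ Kb q R := mem_closedBall_zero_iff.2 hR
  rw [indicator_of_mem hmem, ← Real.exp_add]
  have h5 : inner ℝ (p + (2 * z + a) • e) x ≤ ‖p‖ * R + A * h + 2 * z * h := by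
    rw [inner_add_left, real_inner_smul_left]
    have h6 : inner ℝ p x ≤ ‖p‖ * R :=
      (real_inner_le_norm p x).trans (mul_le_mul_of_nonneg_left hR (norm_nonneg p))
    have h7 : 2 * z * inner ℝ e x ≤ 2 * z * h := mul_le_mul_of_nonneg_left h3 (by linarith)
    have h8 : a * inner ℝ e x ≤ A * h := by
      calc a * inner ℝ e x ≤ |a * inner ℝ e x| := le_abs_self _
        _ = |a| * |inner ℝ e x| := abs_mul _ _
        _ ≤ A * h := mul_le_mul ha (abs_le.2 ⟨h4, h3⟩) (abs_nonneg _) ((abs_nonneg a).trans ha)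
    linarith
  exact mul_le_mul (hV.bdd x) (Real.exp_le_exp.2 h5) (Real.exp_pos _).le hM

end LV

theorem I_LV : StLV := by
  intro q V R M hV e h hD p A
  have hM : 0 ≤ M := (abs_nonneg _).trans (hV.bdd 0)
  have hv : 0 ≤ (volume : Measure (En q)).real (Kb q R) := measureReal_nonneg
  refine ⟨(volume : Measure (En q)).real (Kb q R) * (M * Real.exp (‖p‖ * R + A * h)) + 1,
    by positivity, ?_⟩
  intro a ha z hz
  have h1 : ∫ x, |V x| * Real.exp (inner ℝ (p + (2 * z + a) • e) x) ≤
      ((volume : Measure (En q)).real (Kb q R) * (M * Real.exp (‖p‖ * R + A * h)) + 1) *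
        Real.exp (2 * z * h) := by
    have hint : Integrable ((Kb q R).indicator
        (fun _ : En q => M * (Real.exp (‖p‖ * R + A * h) * Real.exp (2 * z * h)))) := by
      rw [integrable_indicator_iff isClosed_closedBall.measurableSet]
      exact integrableOn_const (measure_closedBall_lt_top.ne)
    have h2 := integral_mono_of_nonneg (μ := (volume : Measure (En q)))
      (Eventually.of_forall fun x => mul_nonneg (abs_nonneg (V x)) (Real.exp_pos _).le) hint
      (LV.bound hV hD p ha hz)
    refine h2.trans ?_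
    rw [integral_indicator isClosed_closedBall.measurableSet, setIntegral_const, smul_eq_mul]
    have h3 : 0 ≤ Real.exp (2 * z * h) := (Real.exp_pos _).le
    nlinarith
  refine ⟨h1, ?_⟩
  refine le_trans ?_ h1
  have h4 : |LV V (p + (2 * z + a) • e)| ≤
      ∫ x, |V x * Real.exp (inner ℝ (p + (2 * z + a) • e) x)| := abs_integral_le_integral_abs
  refine h4.trans (le_of_eq ?_)
  refine integral_congr_ae (Eventually.of_forall fun x => ?_)
  show |V x * Real.exp (inner ℝ (p + (2 * z + a) • e) x)| =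
    |V x| * Real.exp (inner ℝ (p + (2 * z + a) • e) x)
  rw [abs_mul, abs_of_pos (Real.exp_pos _)]

end Pool.Agent.Work.MP_f2af60_mp.Ev

end

section

/-!
# MP_f2af60_mp, project Ev, item Main: purely imaginary resonances of even potentials
-/

set_option autoImplicit false

namespace Pool.Agent.Work.MP_f2af60_mp.Ev

open MeasureTheory Metric Filter Topology Set

namespace Main

/-- classes of bounded measurable functions -/
lemma memLp_of_bdd {q : ℕ} {f : Sp q → ℝ} (hf : Measurable f) (hb : ∃ B, ∀ w, |f w| ≤ B) :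
    MemLp f 2 (sg q) := by
  obtain ⟨B, hB⟩ := hb
  exact MemLp.of_bound hf.aestronglyMeasurable B (Eventually.of_forall fun w => by
    simpa [Real.norm_eq_abs] using hB w)

/-- the form on the span of classes of functions -/
lemma form_eq {q : ℕ} (Op : Lp ℝ 2 (sg q) →L[ℝ] Lp ℝ 2 (sg q)) (κ : Sp q → Sp q → ℝ)
    (hOp : ∀ f g : Lp ℝ 2 (sg q), inner ℝ g (Op f) = ∫ x, g x * ∫ y, κ x y * f y ∂(sg q) ∂(sg q))
    {m : ℕ} (f : Fin m → Sp q → ℝ) (hf : ∀ i, MemLp (f i) 2 (sg q)) (x : Fin m → ℝ) :
    inner ℝ (∑ i, x i • (hf i).toLp (f i))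
        (∑ i, x i • (hf i).toLp (f i) + Op (∑ i, x i • (hf i).toLp (f i))) =
      ∫ w, (∑ i, x i * f i w) ^ 2 ∂(sg q) +
      ∫ w, (∑ i, x i * f i w) * ∫ w', κ w w' * (∑ i, x i * f i w') ∂(sg q) ∂(sg q) := by
  set u : Lp ℝ 2 (sg q) := ∑ i, x i • (hf i).toLp (f i) with hu
  have hae : (u : Sp q → ℝ) =ᵐ[sg q] fun w => ∑ i, x i * f i w := by
    have h1 : (u : Sp q → ℝ) =ᵐ[sg q] ∑ i, ((x i • (hf i).toLp (f i) : Lp ℝ 2 (sg q)) : Sp q → ℝ) := by
      rw [hu]; exact Lp.coeFn_finsetSum _ _
    have h2 : ∀ i, ((x i • (hf i).toLp (f i) : Lp ℝ 2 (sg q)) : Sp q → ℝ) =ᵐ[sg q]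
        fun w => x i * f i w := by
      intro i
      filter_upwards [Lp.coeFn_smul (x i) ((hf i).toLp (f i)), (hf i).coeFn_toLp] with w h3 h4
      rw [h3, Pi.smul_apply, h4, smul_eq_mul]
    have h3 : ∀ᵐ w ∂(sg q), ∀ i, ((x i • (hf i).toLp (f i) : Lp ℝ 2 (sg q)) : Sp q → ℝ) w =
        x i * f i w := ae_all_iff.2 h2
    filter_upwards [h1, h3] with w h4 h5
    rw [h4, Finset.sum_apply]
    exact Finset.sum_congr rfl fun i _ => h5 i
  rw [inner_add_right, hOp u u]
  congr 1
  · rw [L2.inner_def]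
    refine integral_congr_ae ?_
    filter_upwards [hae] with w hw
    rw [hw]
    simp [sq]
  · have h6 : ∀ w, ∫ y, κ w y * u y ∂(sg q) = ∫ w', κ w w' * (∑ i, x i * f i w') ∂(sg q) := by
      intro w
      refine integral_congr_ae ?_
      filter_upwards [hae] with w' hw'
      rw [hw']
    refine integral_congr_ae ?_
    filter_upwards [hae] with w hw
    rw [hw, h6 w]

end Main

open Main in
/-- 25 -/
theorem I_Main (h7 : StPack) (h8 : StSym) (h9 : StKCont) (h10 : StRes) (h11 : StOpK)
    (h12 : StIdx) (h24 : StNeg) : StMain := by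
  intro q hq V R M hV hev hne T
  by_contra hcon
  push Not at hcon
  obtain ⟨P⟩ := h7 q hq V R M hV
  obtain ⟨k, hk, hkc⟩ := h9 q hq V R M hV P
  obtain ⟨Op, hOp1, hOpc, hOp2, hOps⟩ := h11 (Sp q) (sg q)
  set t1 : ℝ := max P.t0 (T + 1) with ht1
  have ht1P : P.t0 ≤ t1 := le_max_left _ _
  have ht1T : T + 1 ≤ t1 := le_max_right _ _
  have hcont : ContinuousOn (fun t => Op (k t)) (Ici t1) :=
    Op.continuous.comp_continuousOn (hkc.mono (Ici_subset_Ici.2 ht1P))
  have hcond : ∀ t ≥ t1, (Op (k t)).IsSymmetric ∧ IsCompactOperator (Op (k t)) ∧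
      ∀ v : Lp ℝ 2 (sg q), v + Op (k t) v = 0 → v = 0 := by
    intro t ht
    have htP : P.t0 ≤ t := ht1P.trans ht
    refine ⟨hOps _ fun w w' => ?_, hOpc _, fun v hv => ?_⟩
    · rw [hk t htP, hk t htP]
      exact ((h8 q hq V R M hV P t htP).2 hev).2 w w'
    · by_contra hv0
      refine hcon t (by linarith) (h10 q hq V R M hV P t htP v hv0 ?_)
      have h1 : ((v + Op (k t) v : Lp ℝ 2 (sg q)) : Sp q → ℝ) =ᵐ[sg q] 0 := by
        rw [hv]; exact Lp.coeFn_zero _ _ _
      filter_upwards [h1, Lp.coeFn_add v (Op (k t) v), hOp1 (k t) v] with w h2 h3 h4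
      rw [h3, Pi.add_apply, h4] at h2
      simp only [hk t htP] at h2
      exact h2
  obtain ⟨N, hN⟩ := h12 (Lp ℝ 2 (sg q)) (fun t => Op (k t)) t1 hcont hcond
  obtain ⟨t, ht, htP, f, hfm, hfb, hneg⟩ := h24 q hq V R M hV hev hne P (N + 1) (by omega) t1
  have hf : ∀ i, MemLp (f i) 2 (sg q) := fun i => memLp_of_bdd (hfm i) (hfb i)
  have hform : ∀ x : Fin (N + 1) → ℝ, x ≠ 0 →
      inner ℝ (∑ i, x i • (hf i).toLp (f i))
        (∑ i, x i • (hf i).toLp (f i) + Op (k t) (∑ i, x i • (hf i).toLp (f i))) < 0 := by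
    intro x hx
    rw [form_eq (Op (k t)) (fun w w' => kk P t w w') (fun f g => ?_) f hf x]
    · exact hneg x hx
    · rw [hOp2]
      simp only [hk t htP]
  have hli : LinearIndependent ℝ (fun i => (hf i).toLp (f i)) := by
    rw [Fintype.linearIndependent_iff]
    intro x hx
    by_contra h
    push Not at h
    obtain ⟨i, hi⟩ := h
    have h1 := hform x (fun h2 => hi (by rw [h2]; rfl))
    rw [hx] at h1
    simp at h1
  have hfr : Module.finrank ℝ (Submodule.span ℝ (Set.range fun i => (hf i).toLp (f i))) = N + 1 := by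
    rw [finrank_span_eq_card hli, Fintype.card_fin]
  have hle := hN t ht (Submodule.span ℝ (Set.range fun i => (hf i).toLp (f i)))
    (FiniteDimensional.span_of_finite ℝ (Set.finite_range _)) (fun w hw hw0 => ?_)
  · omega
  · obtain ⟨x, hx⟩ := (Submodule.mem_span_range_iff_exists_fun ℝ).1 hw
    rw [← hx]
    exact hform x (fun h2 => hw0 (by rw [← hx, h2]; simp))

end Pool.Agent.Work.MP_f2af60_mp.Ev

end

section

/-!
# MP_f2af60_mp, project Ev, item Mat: lower bound for a matrix in terms of its determinant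
-/

set_option autoImplicit false

namespace Pool.Agent.Work.MP_f2af60_mp.Ev

namespace Mat

/-- entries of the adjugate of a matrix with bounded entries -/
lemma adj_le {n : ℕ} (X : Matrix (Fin (n + 1)) (Fin (n + 1)) ℝ) (L : ℝ)
    (hX : ∀ i j, |X i j| ≤ L) (i j : Fin (n + 1)) :
    |X.adjugate i j| ≤ (n.factorial : ℝ) * L ^ n := by
  rw [Matrix.adjugate_fin_succ_eq_det_submatrix, abs_mul, abs_pow, abs_neg, abs_one, one_pow,
    one_mul]
  have h := Matrix.det_le (A := X.submatrix j.succAbove i.succAbove) (abv := AbsoluteValue.abs)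
    (x := L) (fun a b => by simpa using hX _ _)
  simpa [nsmul_eq_mul] using h

/-- the main step -/
lemma step {n : ℕ} (X : Matrix (Fin (n + 1)) (Fin (n + 1)) ℝ) (L : ℝ)
    (hX : ∀ i j, |X i j| ≤ L) (x : Fin (n + 1) → ℝ) (i : Fin (n + 1)) :
    X.det ^ 2 * x i ^ 2 ≤
      (((n : ℝ) + 1) * ((n.factorial : ℝ) * L ^ n) ^ 2) * ∑ j, (∑ i, X i j * x i) ^ 2 := by
  have h1 : X.det * x i = ∑ j, (∑ i, X i j * x i) * X.adjugate j i := by
    have h2 : Matrix.vecMul (Matrix.vecMul x X) X.adjugate = X.det • x := by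
      rw [Matrix.vecMul_vecMul, Matrix.mul_adjugate, Matrix.vecMul_smul, Matrix.vecMul_one]
    have h3 := congrFun h2 i
    simp only [Pi.smul_apply, smul_eq_mul] at h3
    rw [← h3]
    simp only [Matrix.vecMul, dotProduct]
    refine Finset.sum_congr rfl fun j _ => ?_
    congr 1
    exact Finset.sum_congr rfl fun k _ => mul_comm _ _
  have h4 : X.det ^ 2 * x i ^ 2 = (∑ j, (∑ i, X i j * x i) * X.adjugate j i) ^ 2 := by
    rw [← h1]; ring
  rw [h4]
  refine (Finset.sum_mul_sq_le_sq_mul_sq _ _ _).trans ?_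
  rw [mul_comm]
  refine mul_le_mul_of_nonneg_right ?_ (Finset.sum_nonneg fun j _ => sq_nonneg _)
  have h5 : ∀ j ∈ (Finset.univ : Finset (Fin (n + 1))),
      X.adjugate j i ^ 2 ≤ ((n.factorial : ℝ) * L ^ n) ^ 2 := fun j _ => by
    rw [← sq_abs]
    exact pow_le_pow_left₀ (abs_nonneg _) (adj_le X L hX j i) 2
  refine (Finset.sum_le_card_nsmul _ _ _ h5).trans ?_
  simp [nsmul_eq_mul]

end Mat

open Mat in
/-- 23 -/
theorem I_Mat : StMat := by
  intro m
  rcases m with _ | n
  · exact ⟨1, one_pos, fun X L _ _ x => by simp⟩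
  · refine ⟨((n : ℝ) + 1) ^ 2 * (n.factorial : ℝ) ^ 2, by positivity, ?_⟩
    intro X L hL hX x
    have h2 : ∀ i ∈ (Finset.univ : Finset (Fin (n + 1))), X.det ^ 2 * x i ^ 2 ≤
      (((n : ℝ) + 1) * ((n.factorial : ℝ) * L ^ n) ^ 2) * ∑ j, (∑ i, X i j * x i) ^ 2 :=
      fun i _ => step X L hX x i
    have h3 := Finset.sum_le_card_nsmul _ _ _ h2
    rw [← Finset.mul_sum] at h3
    refine h3.trans (le_of_eq ?_)
    have h4 : 2 * (n + 1) - 2 = 2 * n := by omega
    rw [h4]
    simp only [Finset.card_univ, Fintype.card_fin, nsmul_eq_mul, Nat.cast_add, Nat.cast_one]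
    ring

end Pool.Agent.Work.MP_f2af60_mp.Ev

end

section

/-!
# MP_f2af60_mp, project Ev, item Neg, part 1: the quadratic form of a combination of normalised
nonnegative functions (abstract)
-/

set_option autoImplicit false

namespace Pool.Agent.Work.MP_f2af60_mp.Ev

open MeasureTheory Metric Filter Topology Set

namespace Neg

/-- bounded measurable functions -/
def BM {X : Type*} [MeasurableSpace X] (f : X → ℝ) : Prop := Measurable f ∧ ∃ B, ∀ w, |f w| ≤ B

section
variable {X : Type*} [MeasurableSpace X] {f g : X → ℝ}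

lemma BM.integrable (hf : BM f) (μ : Measure X) [IsFiniteMeasure μ] : Integrable f μ := by
  obtain ⟨h1, B, h2⟩ := hf
  exact Integrable.of_bound h1.aestronglyMeasurable B (Eventually.of_forall fun w => by
    simpa [Real.norm_eq_abs] using h2 w)

lemma BM.mul (hf : BM f) (hg : BM g) : BM fun w => f w * g w := by
  obtain ⟨h1, B, h2⟩ := hf
  obtain ⟨h3, C, h4⟩ := hg
  refine ⟨h1.mul h3, B * C, fun w => ?_⟩
  rw [abs_mul]
  exact mul_le_mul (h2 w) (h4 w) (abs_nonneg _) ((abs_nonneg _).trans (h2 w))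

lemma BM.add (hf : BM f) (hg : BM g) : BM fun w => f w + g w := by
  obtain ⟨h1, B, h2⟩ := hf
  obtain ⟨h3, C, h4⟩ := hg
  exact ⟨h1.add h3, B + C, fun w => (abs_add_le _ _).trans (add_le_add (h2 w) (h4 w))⟩

lemma BM.const (c : ℝ) : BM (fun _ : X => c) := ⟨measurable_const, |c|, fun _ => le_rfl⟩

lemma BM.sum {ι : Type*} (s : Finset ι) {F : ι → X → ℝ} (hF : ∀ i, BM (F i)) :
    BM fun w => ∑ i ∈ s, F i w := by
  classical
  induction s using Finset.induction_on with
  | empty => simpa using BM.const (X := X) 0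
  | insert a s ha ih =>
    simp only [Finset.sum_insert ha]
    exact (hF a).add ih

/-- the kernel operator preserves bounded measurable functions -/
lemma BM.ker {K : X → X → ℝ} (hKm : Measurable (Function.uncurry K)) {B : ℝ}
    (hKb : ∀ w w', |K w w'| ≤ B) (hf : BM f) (μ : Measure X) [IsFiniteMeasure μ] :
    BM fun w => ∫ w', K w w' * f w' ∂μ := by
  obtain ⟨h1, C, h2⟩ := hf
  refine ⟨?_, B * C * μ.real univ, fun w => ?_⟩
  · have h3 : StronglyMeasurable (fun p : X × X => K p.1 p.2 * f p.2) :=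
      (hKm.mul (h1.comp measurable_snd)).stronglyMeasurable
    exact (StronglyMeasurable.integral_prod_right (f := fun x y => K x y * f y) h3).measurable
  · rw [← Real.norm_eq_abs]
    refine norm_integral_le_of_norm_le_const (Eventually.of_forall fun w' => ?_)
    rw [Real.norm_eq_abs, abs_mul]
    exact mul_le_mul (hKb w w') (h2 w') (abs_nonneg _) ((abs_nonneg _).trans (hKb w w'))

lemma BM.slice {K : X → X → ℝ} (hKm : Measurable (Function.uncurry K)) {B : ℝ}
    (hKb : ∀ w w', |K w w'| ≤ B) (w : X) : BM (K w) :=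
  ⟨hKm.comp measurable_prodMk_left, B, hKb w⟩

/-- averages of the kernel -/
lemma avg (μ : Measure X) [IsFiniteMeasure μ] {K : X → X → ℝ}
    (hKm : Measurable (Function.uncurry K)) {B : ℝ} (hKb : ∀ w w', |K w w'| ≤ B)
    (hf : BM f) (hg : BM g) (hf0 : ∀ w, 0 ≤ f w) (hg0 : ∀ w, 0 ≤ g w)
    (hf1 : ∫ w, f w ∂μ = 1) (hg1 : ∫ w, g w ∂μ = 1) {κ ε : ℝ}
    (h : ∀ w w', f w ≠ 0 → g w' ≠ 0 → |K w w' - κ| ≤ ε) :
    |∫ w, f w * ∫ w', K w w' * g w' ∂μ ∂μ - κ| ≤ ε := by
  have h1 : ∀ w, f w ≠ 0 → |∫ w', K w w' * g w' ∂μ - κ| ≤ ε := by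
    intro w hw
    have h2 : ∫ w', K w w' * g w' ∂μ - κ = ∫ w', (K w w' - κ) * g w' ∂μ := by
      simp only [sub_mul]
      rw [integral_sub (((BM.slice hKm hKb w).mul hg).integrable μ)
        (((BM.const κ).mul hg).integrable μ), integral_const_mul, hg1, mul_one]
    rw [h2]
    calc |∫ w', (K w w' - κ) * g w' ∂μ| ≤ ∫ w', |(K w w' - κ) * g w'| ∂μ :=
          abs_integral_le_integral_abs
      _ ≤ ∫ w', ε * g w' ∂μ := by
          refine integral_mono ?_ (((BM.const ε).mul hg).integrable μ) fun w' => ?_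
          · refine Integrable.abs ?_
            simp only [sub_mul]
            exact (((BM.slice hKm hKb w).mul hg).integrable μ).sub
              (((BM.const κ).mul hg).integrable μ)
          · by_cases h3 : g w' = 0
            · simp [h3]
            · simp only [abs_mul, abs_of_nonneg (hg0 w')]
              exact mul_le_mul_of_nonneg_right (h w w' hw h3) (hg0 w')
      _ = ε := by rw [integral_const_mul, hg1, mul_one]
  have hG := hg.ker hKm hKb μ
  have h4 : ∫ w, f w * ∫ w', K w w' * g w' ∂μ ∂μ - κ =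
      ∫ w, f w * (∫ w', K w w' * g w' ∂μ - κ) ∂μ := by
    simp only [mul_sub]
    rw [integral_sub ((hf.mul hG).integrable μ) ((hf.mul (BM.const κ)).integrable μ),
      integral_mul_const, hf1, one_mul]
  rw [h4]
  calc |∫ w, f w * (∫ w', K w w' * g w' ∂μ - κ) ∂μ|
      ≤ ∫ w, |f w * (∫ w', K w w' * g w' ∂μ - κ)| ∂μ := abs_integral_le_integral_abs
    _ ≤ ∫ w, f w * ε ∂μ := by
        refine integral_mono ?_ ((hf.mul (BM.const ε)).integrable μ) fun w => ?_
        · refine Integrable.abs ?_
          simp only [mul_sub]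
          exact ((hf.mul hG).integrable μ).sub ((hf.mul (BM.const κ)).integrable μ)
        · by_cases h3 : f w = 0
          · simp [h3]
          · simp only [abs_mul, abs_of_nonneg (hf0 w)]
            exact mul_le_mul_of_nonneg_left (h1 w h3) (hf0 w)
    _ = ε := by rw [integral_mul_const, hf1, one_mul]

/-- expansion of the bilinear form -/
lemma expand (μ : Measure X) [IsFiniteMeasure μ] {K : X → X → ℝ}
    (hKm : Measurable (Function.uncurry K)) {B : ℝ} (hKb : ∀ w w', |K w w'| ≤ B)
    {ι : Type*} [Fintype ι] (F : ι → X → ℝ) (hF : ∀ i, BM (F i)) (c : ι → ℝ) :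
    ∫ w, (∑ a, c a * F a w) * ∫ w', K w w' * (∑ b, c b * F b w') ∂μ ∂μ =
      ∑ a, ∑ b, c a * c b * ∫ w, F a w * ∫ w', K w w' * F b w' ∂μ ∂μ := by
  have h1 : ∀ w, ∫ w', K w w' * (∑ b, c b * F b w') ∂μ = ∑ b, c b * ∫ w', K w w' * F b w' ∂μ := by
    intro w
    have h2 : ∀ w', K w w' * (∑ b, c b * F b w') = ∑ b, c b * (K w w' * F b w') := by
      intro w'
      rw [Finset.mul_sum]
      exact Finset.sum_congr rfl fun b _ => by ring
    simp only [h2]
    rw [integral_finsetSum _ fun b _ =>
      ((BM.const (c b)).mul ((BM.slice hKm hKb w).mul (hF b))).integrable μ]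
    exact Finset.sum_congr rfl fun b _ => integral_const_mul _ _
  have h3 : ∀ w, (∑ a, c a * F a w) * ∫ w', K w w' * (∑ b, c b * F b w') ∂μ =
      ∑ a, ∑ b, c a * c b * (F a w * ∫ w', K w w' * F b w' ∂μ) := by
    intro w
    rw [h1 w, Finset.sum_mul_sum]
    exact Finset.sum_congr rfl fun a _ => Finset.sum_congr rfl fun b _ => by ring
  simp only [h3]
  rw [integral_finsetSum _ fun a _ => ?_]
  · refine Finset.sum_congr rfl fun a _ => ?_
    rw [integral_finsetSum _ fun b _ => ?_]
    · exact Finset.sum_congr rfl fun b _ => integral_const_mul _ _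
    · exact ((BM.const _).mul ((hF a).mul ((hF b).ker hKm hKb μ))).integrable μ
  · exact (BM.sum Finset.univ fun b =>
      (BM.const (c a * c b)).mul ((hF a).mul ((hF b).ker hKm hKb μ))).integrable μ

/-- the square of a combination -/
lemma sq_le (μ : Measure X) [IsFiniteMeasure μ] {ι : Type*} [Fintype ι] (F : ι → X → ℝ)
    (hF : ∀ i, BM (F i)) (c : ι → ℝ) (Q : ℝ) (hQ : ∀ i, ∫ w, F i w ^ 2 ∂μ ≤ Q) :
    ∫ w, (∑ a, c a * F a w) ^ 2 ∂μ ≤ (Fintype.card ι : ℝ) * Q * ∑ a, c a ^ 2 := by
  have hsq : ∀ a, BM fun w => F a w ^ 2 := fun a => by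
    simpa only [sq] using (hF a).mul (hF a)
  calc ∫ w, (∑ a, c a * F a w) ^ 2 ∂μ
      ≤ ∫ w, (Fintype.card ι : ℝ) * ∑ a, c a ^ 2 * F a w ^ 2 ∂μ := by
        refine integral_mono ?_ ?_ fun w => ?_
        · have h := BM.sum Finset.univ fun a => (BM.const (c a)).mul (hF a)
          simpa only [sq] using (h.mul h).integrable μ
        · exact ((BM.const _).mul (BM.sum Finset.univ fun a =>
            (BM.const (c a ^ 2)).mul (hsq a))).integrable μ
        · have h := sq_sum_le_card_mul_sum_sq (s := (Finset.univ : Finset ι))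
            (f := fun a => c a * F a w)
          simpa only [mul_pow, Finset.card_univ] using h
    _ = (Fintype.card ι : ℝ) * ∑ a, c a ^ 2 * ∫ w, F a w ^ 2 ∂μ := by
        rw [integral_const_mul, integral_finsetSum _ fun a _ =>
          ((BM.const (c a ^ 2)).mul (hsq a)).integrable μ]
        congr 1
        exact Finset.sum_congr rfl fun a _ => integral_const_mul _ _
    _ ≤ (Fintype.card ι : ℝ) * ∑ a, c a ^ 2 * Q := by
        refine mul_le_mul_of_nonneg_left (Finset.sum_le_sum fun a _ => ?_) (Nat.cast_nonneg _)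
        exact mul_le_mul_of_nonneg_left (hQ a) (sq_nonneg _)
    _ = (Fintype.card ι : ℝ) * Q * ∑ a, c a ^ 2 := by
        rw [← Finset.sum_mul]; ring

end

/-- a double sum with bounded coefficients -/
lemma dsum_le {m : ℕ} (x y : Fin m → ℝ) (A : Fin m → Fin m → ℝ) (c : ℝ) (hc : 0 ≤ c)
    (hA : ∀ i j, |A i j| ≤ c) :
    ∑ i, ∑ j, x i * y j * A i j ≤ c * m * ((∑ i, x i ^ 2 + ∑ i, y i ^ 2) / 2) := by
  have h1 : ∑ i, ∑ j, x i * y j * A i j ≤ c * ((∑ i, |x i|) * ∑ j, |y j|) := by
    rw [Finset.sum_mul_sum, Finset.mul_sum]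
    refine Finset.sum_le_sum fun i _ => ?_
    rw [Finset.mul_sum]
    refine Finset.sum_le_sum fun j _ => ?_
    calc x i * y j * A i j ≤ |x i * y j * A i j| := le_abs_self _
      _ = |x i| * |y j| * |A i j| := by rw [abs_mul, abs_mul]
      _ ≤ |x i| * |y j| * c :=
          mul_le_mul_of_nonneg_left (hA i j) (mul_nonneg (abs_nonneg _) (abs_nonneg _))
      _ = c * (|x i| * |y j|) := by ring
  have h2 : ∀ u : Fin m → ℝ, (∑ i, |u i|) ^ 2 ≤ m * ∑ i, u i ^ 2 := by
    intro u
    have h := sq_sum_le_card_mul_sum_sq (s := (Finset.univ : Finset (Fin m)))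
      (f := fun a => |u a|)
    simpa only [sq_abs, Finset.card_univ, Fintype.card_fin] using h
  have h3 : (∑ i, |x i|) * ∑ j, |y j| ≤ m * ((∑ i, x i ^ 2 + ∑ i, y i ^ 2) / 2) := by
    nlinarith [h2 x, h2 y, sq_nonneg ((∑ i, |x i|) - ∑ j, |y j|)]
  calc ∑ i, ∑ j, x i * y j * A i j ≤ c * ((∑ i, |x i|) * ∑ j, |y j|) := h1
    _ ≤ c * (m * ((∑ i, x i ^ 2 + ∑ i, y i ^ 2) / 2)) := mul_le_mul_of_nonneg_left h3 hc
    _ = _ := by ring

/-- the algebra of the form -/
lemma alg {m : ℕ} (hm : 1 ≤ m) (X P N U W : Fin m → Fin m → ℝ) (s κ C1 ε L : ℝ)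
    (hs : s * s = 1) (hκ : 0 ≤ κ) (hC1 : 0 ≤ C1) (hε : 0 ≤ ε) (hL : 0 < L)
    (hX : ∀ i j, |X i j| ≤ L) (hP : ∀ i j, |P i j| ≤ κ * C1) (hN : ∀ i j, |N i j| ≤ κ * C1)
    (hU : ∀ i j, |U i j - s * κ * X i j| ≤ κ * ε) (hW : ∀ i j, |W j i - s * κ * X i j| ≤ κ * ε)
    (x y : Fin m → ℝ) (hy : ∀ j, y j = -(s * (1 / (m * L)) * ∑ i, X i j * x i)) :
    ∑ j, y j ^ 2 ≤ ∑ i, x i ^ 2 ∧
    (∑ i, ∑ j, x i * x j * P i j) + (∑ i, ∑ j, x i * y j * U i j) +
      ((∑ i, ∑ j, y i * x j * W i j) + ∑ i, ∑ j, y i * y j * N i j) ≤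
      2 * m * κ * (C1 + ε) * ∑ i, x i ^ 2 -
        2 * κ * (1 / (m * L)) * ∑ j, (∑ i, X i j * x i) ^ 2 := by
  have hm0 : (0 : ℝ) < m := by exact_mod_cast hm
  have hxx : (0 : ℝ) ≤ ∑ i, x i ^ 2 := Finset.sum_nonneg fun i _ => sq_nonneg _
  have hyy : ∑ j, y j ^ 2 ≤ ∑ i, x i ^ 2 := by
    have h1 : ∀ j, y j ^ 2 ≤ (1 / m) * ∑ i, x i ^ 2 := by
      intro j
      have h2 : |∑ i, X i j * x i| ≤ L * ∑ i, |x i| := by
        refine (Finset.abs_sum_le_sum_abs _ _).trans ?_
        rw [Finset.mul_sum]
        refine Finset.sum_le_sum fun i _ => ?_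
        rw [abs_mul]
        exact mul_le_mul_of_nonneg_right (hX i j) (abs_nonneg _)
      have h3 : (∑ i, |x i|) ^ 2 ≤ m * ∑ i, x i ^ 2 := by
        have h := sq_sum_le_card_mul_sum_sq (s := (Finset.univ : Finset (Fin m)))
          (f := fun a => |x a|)
        simpa only [sq_abs, Finset.card_univ, Fintype.card_fin] using h
      have h4 : y j ^ 2 = (1 / (m * L)) ^ 2 * (∑ i, X i j * x i) ^ 2 := by
        rw [hy j]
        have : (-(s * (1 / (m * L)) * ∑ i, X i j * x i)) ^ 2 =
          (s * s) * ((1 / (m * L)) ^ 2 * (∑ i, X i j * x i) ^ 2) := by ring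
        rw [this, hs, one_mul]
      have h5 : (∑ i, X i j * x i) ^ 2 ≤ (L * ∑ i, |x i|) ^ 2 := by
        rw [← sq_abs]
        exact pow_le_pow_left₀ (abs_nonneg _) h2 2
      rw [h4]
      calc (1 / (m * L)) ^ 2 * (∑ i, X i j * x i) ^ 2
          ≤ (1 / (m * L)) ^ 2 * (L * ∑ i, |x i|) ^ 2 :=
            mul_le_mul_of_nonneg_left h5 (sq_nonneg _)
        _ = (1 / m) ^ 2 * (∑ i, |x i|) ^ 2 := by
            field_simp
        _ ≤ (1 / m) ^ 2 * (m * ∑ i, x i ^ 2) := mul_le_mul_of_nonneg_left h3 (sq_nonneg _)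
        _ = (1 / m) * ∑ i, x i ^ 2 := by field_simp
    calc ∑ j, y j ^ 2 ≤ ∑ j : Fin m, (1 / m) * ∑ i, x i ^ 2 :=
          Finset.sum_le_sum fun j _ => h1 j
      _ = ∑ i, x i ^ 2 := by
          rw [Finset.sum_const, Finset.card_univ, Fintype.card_fin, nsmul_eq_mul]
          field_simp
  refine ⟨hyy, ?_⟩
  have hκC : 0 ≤ κ * C1 := mul_nonneg hκ hC1
  have hκε : 0 ≤ κ * ε := mul_nonneg hκ hε
  have e1 := dsum_le x x P (κ * C1) hκC hP
  have e2 := dsum_le y y N (κ * C1) hκC hN
  have e3 := dsum_le x y (fun i j => U i j - s * κ * X i j) (κ * ε) hκε hU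
  have e4 := dsum_le y x (fun j i => W j i - s * κ * X i j) (κ * ε) hκε fun j i => hW i j
  have e5 : ∑ i, ∑ j, x i * y j * (s * κ * X i j) =
      -(κ * (1 / (m * L)) * ∑ j, (∑ i, X i j * x i) ^ 2) := by
    rw [Finset.sum_comm]
    have h6 : ∀ j, ∑ i, x i * y j * (s * κ * X i j) =
        -(κ * (1 / (m * L)) * (∑ i, X i j * x i) ^ 2) := by
      intro j
      have h7 : ∑ i, x i * y j * (s * κ * X i j) = y j * (s * κ) * ∑ i, X i j * x i := by
        rw [Finset.mul_sum]
        exact Finset.sum_congr rfl fun i _ => by ring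
      rw [h7, hy j]
      have h8 : -(s * (1 / (m * L)) * ∑ i, X i j * x i) * (s * κ) * ∑ i, X i j * x i =
          -((s * s) * (κ * (1 / (m * L)) * (∑ i, X i j * x i) ^ 2)) := by ring
      rw [h8, hs, one_mul]
    simp only [h6]
    rw [Finset.sum_neg_distrib, Finset.mul_sum]
  have e6 : ∑ j, ∑ i, y j * x i * (s * κ * X i j) =
      -(κ * (1 / (m * L)) * ∑ j, (∑ i, X i j * x i) ^ 2) := by
    rw [← e5, Finset.sum_comm]
    exact Finset.sum_congr rfl fun i _ => Finset.sum_congr rfl fun j _ => by ring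
  have e7 : ∑ i, ∑ j, x i * y j * U i j =
      ∑ i, ∑ j, x i * y j * (U i j - s * κ * X i j) + ∑ i, ∑ j, x i * y j * (s * κ * X i j) := by
    rw [← Finset.sum_add_distrib]
    refine Finset.sum_congr rfl fun i _ => ?_
    rw [← Finset.sum_add_distrib]
    exact Finset.sum_congr rfl fun j _ => by ring
  have e8 : ∑ i, ∑ j, y i * x j * W i j =
      ∑ j, ∑ i, y j * x i * (W j i - s * κ * X i j) + ∑ j, ∑ i, y j * x i * (s * κ * X i j) := by
    rw [← Finset.sum_add_distrib]
    refine Finset.sum_congr rfl fun i _ => ?_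
    rw [← Finset.sum_add_distrib]
    exact Finset.sum_congr rfl fun j _ => by ring
  rw [e7, e8, e5, e6]
  have hmC : (0 : ℝ) ≤ κ * C1 * m := mul_nonneg hκC hm0.le
  have hmε : (0 : ℝ) ≤ κ * ε * m := mul_nonneg hκε hm0.le
  have f1 := mul_le_mul_of_nonneg_left hyy hmC
  have f2 := mul_le_mul_of_nonneg_left hyy hmε
  linarith

end Neg

end Pool.Agent.Work.MP_f2af60_mp.Ev

end

section

/-!
# MP_f2af60_mp, project Ev, item Pack: the distorted exponentials.
-/

set_option autoImplicit false

namespace Pool.Agent.Work.MP_f2af60_mp.Ev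

open MeasureTheory Metric Filter Topology Set

namespace PackL

variable {q : ℕ}

lemma emb (R : ℝ) : MeasurableEmbedding (Subtype.val : Kb q R → En q) :=
  MeasurableEmbedding.subtype_coe measurableSet_closedBall

lemma muQ_int {R : ℝ} {h : En q → ℝ} (hh : Integrable h) :
    Integrable (fun y : Kb q R => h y) (muQ q R) := by
  have h1 : Integrable h ((muQ q R).map Subtype.val) := by
    rw [muQ, (emb R).map_comap]
    exact hh.mono_measure Measure.restrict_le_self
  exact ((emb R).integrable_map_iff).mp h1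

lemma muQ_noat (R : ℝ) (x : Kb q R) : (muQ q R) {x} = 0 := by
  rw [muQ, (emb R).comap_apply]
  simp

lemma muQ_ae (R : ℝ) (x : Kb q R) : ∀ᵐ y : Kb q R ∂(muQ q R), (x : En q) ≠ (y : En q) := by
  have : {y : Kb q R | ¬ ((x : En q) ≠ y)} = {x} := by
    ext y; simp [Subtype.ext_iff, eq_comm]
  rw [ae_iff, this]
  exact muQ_noat R x

lemma ex_pos (t : ℝ) (w : Sp q) (x : En q) : 0 < ex t w x := Real.exp_pos _

lemma ex_cont : Continuous (fun p : (ℝ × Sp q) × En q => ex p.1.1 p.1.2 p.2) := by
  unfold ex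
  fun_prop

lemma ex_cont' (t : ℝ) (w : Sp q) : Continuous (fun x : En q => ex t w x) := by
  unfold ex
  fun_prop

/-- the kernel is integrable against bounded functions -/
lemma int_ker (hF : HHFacts) {R t : ℝ} (ht : 0 < t) (x : Kb q R) {F : Kb q R → ℝ} {c : ℝ}
    (hm : Measurable F) (hb : ∀ y, |F y| ≤ c) :
    Integrable (fun y : Kb q R => HH q 0 (t ^ 2) ((x : En q) - y) * F y) (muQ q R) := by
  have h1 : Integrable (fun y : En q => HH q 0 (t ^ 2) ((x : En q) - y)) :=
    ((((hF q 0).1 (t ^ 2) (by positivity)).2.2.1).comp_sub_left (x : En q))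
  exact (muQ_int h1).mul_bdd (c := c) hm.aestronglyMeasurable
    (Eventually.of_forall fun y => by simpa using hb y)

/-- the inverse of `1 + B s` -/
lemma inv_ex {X : Type} [NormedAddCommGroup X] [NormedSpace ℂ X] [CompleteSpace X]
    (B : ℝ → (X →L[ℂ] X)) (t0 : ℝ) (hB : ∀ s ≥ t0, ‖B s‖ ≤ 1 / 2) (hc : Continuous B) :
    ∃ T : ℝ → (X →L[ℂ] X), (∀ s ≥ t0, ∀ u, T s u + B s (T s u) = u) ∧
      (∀ s ≥ t0, ∀ u, T s (u + B s u) = u) ∧ ContinuousOn T (Ici t0) := by
  have hunit : ∀ s ≥ t0, IsUnit (1 + B s) := by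
    intro s hs
    have := isUnit_one_sub_of_norm_lt_one (x := -(B s)) (by
      rw [norm_neg]; exact (hB s hs).trans_lt (by norm_num))
    simpa using this
  refine ⟨fun s => Ring.inverse (1 + B s), ?_, ?_, ?_⟩
  · intro s hs u
    have h1 : (1 + B s) * Ring.inverse (1 + B s) = 1 := Ring.mul_inverse_cancel _ (hunit s hs)
    have := congrArg (fun A : X →L[ℂ] X => A u) h1
    simpa using this
  · intro s hs u
    have h1 : Ring.inverse (1 + B s) * (1 + B s) = 1 := Ring.inverse_mul_cancel _ (hunit s hs)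
    have := congrArg (fun A : X →L[ℂ] X => A u) h1
    simpa using this
  · intro t ht
    apply ContinuousAt.continuousWithinAt
    have h1 : ContinuousAt (fun s : ℝ => (1 + B s : X →L[ℂ] X)) t :=
      (continuous_const.add hc).continuousAt
    obtain ⟨un, hun⟩ := hunit t ht
    have h2 : ContinuousAt Ring.inverse (1 + B t) := by
      rw [← hun]
      exact NormedRing.inverse_continuousAt un
    exact ContinuousAt.comp (f := fun s : ℝ => 1 + B s) (x := t) h2 h1

end PackL

open PackL in
theorem I_Pack (hG : StGp) (hH : StGH) (hC : StConj) (hF : HHFacts) : StPack := by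
  intro q hq V R M hV
  obtain ⟨O, h, s0, hfin, hh, hdiff, hs0, hnorm⟩ := hG q hq R hV.hR V hV.meas M hV.bdd
  have hM : 0 ≤ M := (abs_nonneg _).trans (hV.bdd 0)
  obtain ⟨C1, hC1, hconj⟩ := hC q R hV.hR
  set t0 : ℝ := max 1 (max s0 (2 * M * C1 + 1)) with ht0
  have ht0_1 : 1 ≤ t0 := le_max_left _ _
  have ht0_s : s0 ≤ t0 := (le_max_left _ _).trans (le_max_right _ _)
  have ht0_C : 2 * M * C1 + 1 ≤ t0 := (le_max_right _ _).trans (le_max_right _ _)
  set B : ℝ → (C(Kb q R, ℂ) →L[ℂ] C(Kb q R, ℂ)) := fun s => O.Op (h (Complex.I * (s : ℂ))) with hB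
  have hBn : ∀ s ≥ t0, ‖B s‖ ≤ 1 / 2 := fun s hs => hnorm s (ht0_s.trans hs)
  have hBc : Continuous B := O.Op.continuous.comp (hdiff.continuous.comp (by fun_prop))
  obtain ⟨T, hT1, hT2, hTc⟩ := inv_ex B t0 hBn hBc
  -- the operator
  have hBapp : ∀ s ≥ t0, ∀ (u : C(Kb q R, ℂ)) (x : Kb q R), (B s u) x =
      ∫ y : Kb q R, ((HH q 0 (s ^ 2) ((x : En q) - y) * V y : ℝ) : ℂ) * u y ∂(muQ q R) := by
    intro s hs u x
    have hs0' : 0 < s := by linarith
    rw [hB]
    simp only
    rw [O.Op_apply]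
    apply integral_congr_ae
    filter_upwards [muQ_ae R x] with y hy
    have hne : (x : En q) - y ≠ 0 := sub_ne_zero.2 hy
    have h1 := hH q s hs0' _ hne
    unfold GG at h1
    rw [hh, show dist x y = ‖(x : En q) - y‖ by rw [Subtype.dist_eq, dist_eq_norm]]
    have h2 : eb q (Complex.I * (s : ℂ) * ((‖(x : En q) - y‖ : ℝ) : ℂ)) *
        ((((‖(x : En q) - y‖) ^ (2 * q + 1))⁻¹ : ℝ) : ℂ) =
        (HH q 0 (s ^ 2) ((x : En q) - y) : ℂ) := by
      rw [← h1]
      push_cast
      rw [div_eq_mul_inv]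
    rw [h2]
    push_cast
    ring
  -- the exponentials
  let F : C((ℝ × Sp q) × Kb q R, ℂ) :=
    ⟨fun p => ((ex p.1.1 p.1.2 (p.2 : En q) : ℝ) : ℂ), by
      apply Complex.continuous_ofReal.comp
      exact ex_cont.comp (by fun_prop : Continuous fun p : (ℝ × Sp q) × Kb q R =>
        ((p.1, (p.2 : En q)) : (ℝ × Sp q) × En q))⟩
  let E : ℝ × Sp q → C(Kb q R, ℂ) := fun p => F.curry p
  have hE : ∀ p x, E p x = ((ex p.1 p.2 (x : En q) : ℝ) : ℂ) := fun p x => rfl
  have hEc : Continuous E := F.curry.continuous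
  let re : C(Kb q R, ℂ) → C(Kb q R, ℝ) := fun u =>
    (⟨Complex.re, Complex.continuous_re⟩ : C(ℂ, ℝ)).comp u
  have hre : ∀ u x, re u x = (u x).re := fun u x => rfl
  have hrec : Continuous re := ContinuousMap.continuous_postcomp _
  let g : ℝ → Sp q → C(Kb q R, ℝ) := fun t w => re (T t (E (t, w)))
  have hint : ∀ t ≥ t0, ∀ (x : Kb q R) (u : C(Kb q R, ℝ)),
      Integrable (fun y : Kb q R => HH q 0 (t ^ 2) ((x : En q) - y) * V y * u y) (muQ q R) := by
    intro t ht x u
    have := int_ker (q := q) hF (R := R) (t := t) (by linarith) x (F := fun y => V y * u y)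
      (c := M * ‖u‖) ((hV.meas.comp measurable_subtype_coe).mul u.continuous.measurable) (by
        intro y
        rw [abs_mul]
        exact mul_le_mul (hV.bdd y) (u.norm_coe_le_norm y) (abs_nonneg _) hM)
    simpa [mul_assoc] using this
  have hintC : ∀ t ≥ t0, ∀ (x : Kb q R) (u : C(Kb q R, ℂ)),
      Integrable (fun y : Kb q R => ((HH q 0 (t ^ 2) ((x : En q) - y) * V y : ℝ) : ℂ) * u y)
        (muQ q R) := by
    intro t ht x u
    have h1 := int_ker (q := q) hF (R := R) (t := t) (by linarith) x (F := fun y => V y)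
      (c := M) (hV.meas.comp measurable_subtype_coe) (fun y => hV.bdd y)
    exact h1.ofReal.mul_bdd (c := ‖u‖) u.continuous.aestronglyMeasurable
      (Eventually.of_forall fun y => u.norm_coe_le_norm y)
  have heqn : ∀ t ≥ t0, ∀ (w : Sp q) (x : Kb q R),
      g t w x + ∫ y : Kb q R, HH q 0 (t ^ 2) ((x : En q) - y) * V y * g t w y ∂(muQ q R) =
        ex t w x := by
    intro t ht w x
    have h2 : T t (E (t, w)) + B t (T t (E (t, w))) = E (t, w) := hT1 t ht _
    have h3 := congrArg (fun u : C(Kb q R, ℂ) => (u x).re) h2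
    simp only [ContinuousMap.add_apply, Complex.add_re, hE, Complex.ofReal_re] at h3
    rw [hBapp t ht] at h3
    rw [← h3]
    congr 1
    have h4 := integral_re (hintC t ht x (T t (E (t, w))))
    simp only [RCLike.re_to_complex] at h4
    rw [← h4]
    apply integral_congr_ae
    filter_upwards with y
    rw [Complex.re_ofReal_mul]
    rfl
  have huniq : ∀ t ≥ t0, ∀ u : C(Kb q R, ℝ),
      (∀ x : Kb q R, u x +
        ∫ y : Kb q R, HH q 0 (t ^ 2) ((x : En q) - y) * V y * u y ∂(muQ q R) = 0) → u = 0 := by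
    intro t ht u hu
    let uc : C(Kb q R, ℂ) := (⟨Complex.ofReal, Complex.continuous_ofReal⟩ : C(ℝ, ℂ)).comp u
    have huc : ∀ x, uc x = (u x : ℂ) := fun x => rfl
    have h1 : uc + B t uc = 0 := by
      ext x
      simp only [ContinuousMap.add_apply, ContinuousMap.zero_apply]
      rw [hBapp t ht, huc]
      have h2 : (∫ y : Kb q R, ((HH q 0 (t ^ 2) ((x : En q) - y) * V y : ℝ) : ℂ) * uc y
          ∂(muQ q R)) =
          ((∫ y : Kb q R, HH q 0 (t ^ 2) ((x : En q) - y) * V y * u y ∂(muQ q R) : ℝ) : ℂ) := by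
        rw [← integral_complex_ofReal]
        apply integral_congr_ae
        filter_upwards with y
        rw [huc]
        push_cast
        ring
      rw [h2, ← Complex.ofReal_add, hu x, Complex.ofReal_zero]
    have h4 : uc = 0 := by
      rw [← hT2 t ht uc, h1, map_zero]
    ext x
    have := congrArg (fun v : C(Kb q R, ℂ) => v x) h4
    simp only [huc, ContinuousMap.zero_apply] at this
    exact_mod_cast this
  have hnear : ∀ t ≥ t0, ∀ (w : Sp q) (x : Kb q R),
      |g t w x - ex t w x| ≤ (2 * M * C1) / t * ex t w x := by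
    intro t ht w
    have ht1 : 1 ≤ t := ht0_1.trans ht
    have htpos : 0 < t := by linarith
    let W : C(Kb q R, ℝ) := ⟨fun x => g t w x / ex t w x, by
      apply Continuous.div (g t w).continuous
      · exact (ex_cont' t w).comp continuous_subtype_val
      · intro x; exact (ex_pos t w x).ne'⟩
    have hW : ∀ x, W x = g t w x / ex t w x := fun x => rfl
    have hgW : ∀ y : Kb q R, |g t w y| ≤ ‖W‖ * ex t w y := by
      intro y
      have h1 := W.norm_coe_le_norm y
      rw [hW, Real.norm_eq_abs, abs_div, abs_of_pos (ex_pos t w y), div_le_iff₀ (ex_pos t w y)] at h1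
      exact h1
    have hmain : ∀ x : Kb q R, |g t w x - ex t w x| ≤ M * ‖W‖ * (C1 / t * ex t w x) := by
      intro x
      obtain ⟨hi, hle⟩ := hconj t ht1 w x
      have h1 := heqn t ht w x
      have h2 : g t w x - ex t w x =
          -∫ y : Kb q R, HH q 0 (t ^ 2) ((x : En q) - y) * V y * g t w y ∂(muQ q R) := by linarith
      rw [h2, abs_neg]
      calc |∫ y : Kb q R, HH q 0 (t ^ 2) ((x : En q) - y) * V y * g t w y ∂(muQ q R)|
          ≤ ∫ y : Kb q R, |HH q 0 (t ^ 2) ((x : En q) - y) * V y * g t w y| ∂(muQ q R) :=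
            abs_integral_le_integral_abs
        _ ≤ ∫ y : Kb q R, M * ‖W‖ * (HH q 0 (t ^ 2) ((x : En q) - y) * ex t w y) ∂(muQ q R) := by
            apply integral_mono_ae (hint t ht x (g t w)).abs (hi.const_mul _)
            filter_upwards with y
            have e1 : 0 ≤ HH q 0 (t ^ 2) ((x : En q) - y) :=
              ((hF q 0).1 (t ^ 2) (by positivity)).1 _
            rw [abs_mul, abs_mul, abs_of_nonneg e1]
            calc HH q 0 (t ^ 2) ((x : En q) - y) * |V y| * |g t w y|
                ≤ HH q 0 (t ^ 2) ((x : En q) - y) * M * (‖W‖ * ex t w y) := by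
                  apply mul_le_mul _ (hgW y) (abs_nonneg _) (mul_nonneg e1 hM)
                  exact mul_le_mul_of_nonneg_left (hV.bdd y) e1
              _ = _ := by ring
        _ = M * ‖W‖ * ∫ y : Kb q R, HH q 0 (t ^ 2) ((x : En q) - y) * ex t w y ∂(muQ q R) :=
            integral_const_mul _ _
        _ ≤ M * ‖W‖ * (C1 / t * ex t w x) :=
            mul_le_mul_of_nonneg_left hle (mul_nonneg hM (norm_nonneg _))
    have hsmall : M * (C1 / t) ≤ 1 / 2 := by
      rw [← mul_div_assoc, div_le_iff₀ htpos]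
      have := ht0_C.trans ht
      linarith
    have hWn : ‖W‖ ≤ 2 := by
      have h1 : ‖W‖ ≤ 1 + M * ‖W‖ * (C1 / t) := by
        rw [ContinuousMap.norm_le _ (by positivity)]
        intro x
        have h2 := hmain x
        have hp := ex_pos t w (x : En q)
        have h3 : |g t w x| ≤ ex t w x + M * ‖W‖ * (C1 / t * ex t w x) := by
          have := abs_sub_abs_le_abs_sub (g t w x) (ex t w x)
          rw [abs_of_pos hp] at this
          linarith
        rw [hW, Real.norm_eq_abs, abs_div, abs_of_pos hp, div_le_iff₀ hp]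
        calc |g t w x| ≤ _ := h3
          _ = _ := by ring
      have h4 : M * ‖W‖ * (C1 / t) ≤ 1 / 2 * ‖W‖ := by
        calc M * ‖W‖ * (C1 / t) = (M * (C1 / t)) * ‖W‖ := by ring
          _ ≤ _ := mul_le_mul_of_nonneg_right hsmall (norm_nonneg _)
      linarith
    intro x
    calc |g t w x - ex t w x| ≤ M * ‖W‖ * (C1 / t * ex t w x) := hmain x
      _ ≤ M * 2 * (C1 / t * ex t w x) := by
          apply mul_le_mul_of_nonneg_right
          · exact mul_le_mul_of_nonneg_left hWn hM
          · exact mul_nonneg (by positivity) (ex_pos t w x).le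
      _ = _ := by ring
  have hcont : ContinuousOn (fun p : ℝ × Sp q => g p.1 p.2) (Ici t0 ×ˢ univ) := by
    apply hrec.comp_continuousOn
    apply ContinuousOn.clm_apply
    · exact hTc.comp continuousOn_fst (fun p hp => hp.1)
    · exact (hEc.comp (by fun_prop : Continuous fun p : ℝ × Sp q => (p.1, p.2))).continuousOn
  exact ⟨⟨t0, 2 * M * C1, g, ht0_1, by positivity, heqn, huniq, hnear, hcont⟩⟩

end Pool.Agent.Work.MP_f2af60_mp.Ev

end

section

set_option autoImplicit false

namespace Pool.Agent.Work.MP_f2af60_mp.Ev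

open MeasureTheory Metric Filter Topology Set

namespace Pst

theorem pot_integrable {q : ℕ} {V : En q → ℝ} {R M : ℝ} (hV : Pot q V R M) :
    Integrable V := by
  have h1 : IntegrableOn V (closedBall (0 : En q) R) volume :=
    Measure.integrableOn_of_bounded (M := M) measure_closedBall_lt_top.ne
      hV.meas.aestronglyMeasurable
      (Eventually.of_forall fun x => by rw [Real.norm_eq_abs]; exact hV.bdd x)
  refine (integrableOn_iff_integrable_of_support_subset ?_).1 h1
  intro x hx
  rw [Function.mem_support] at hx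
  rw [mem_closedBall, dist_zero_right]
  by_contra hc
  exact hx (hV.supp x (not_le.1 hc))

theorem meas_D {q : ℕ} (e : En q) (a : ℝ) : MeasurableSet {x : En q | a < inner ℝ e x} :=
  (isOpen_lt continuous_const (continuous_const.inner continuous_id)).measurableSet

/-- truncated coordinates -/
noncomputable def sc (q : ℕ) (R : ℝ) (x : En q) (i : Fin (2 * q + 3)) : ℝ :=
  if ‖x‖ ≤ R then x i else 0

theorem sc_meas (q : ℕ) (R : ℝ) : Measurable (sc q R) := by
  refine measurable_pi_lambda _ fun i => ?_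
  unfold sc
  refine Measurable.ite (measurableSet_le continuous_norm.measurable measurable_const) ?_
    measurable_const
  exact (by fun_prop : Continuous fun x : En q => x i).measurable

theorem sc_le (q : ℕ) {R : ℝ} (hR : 0 < R) (x : En q) (i : Fin (2 * q + 3)) : |sc q R x i| ≤ R := by
  unfold sc
  split_ifs with h
  · refine le_trans ?_ h
    rw [← Real.norm_eq_abs]
    exact PiLp.norm_apply_le x i
  · simpa using hR.le

end Pst

open Pst in
theorem I_Pst (h : StSWE) : StPst := by
  intro q V R M hV e hh hD δ hδ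
  by_contra hcon
  simp only [not_exists, not_not] at hcon
  refine hD.top δ hδ ?_
  set D : Set (En q) := {x | hh - δ < inner ℝ e x} with hDdef
  have hDm : MeasurableSet D := meas_D e _
  have hVi := pot_integrable hV
  have hfi : Integrable (D.indicator V) := hVi.indicator hDm
  have key := h (En q) volume (2 * q + 3) (D.indicator V) (sc q R) R hfi (sc_meas q R)
    (sc_le q hV.hR) (fun α => by
      rw [← hcon (WithLp.toLp 2 α), ← integral_indicator hDm]
      refine integral_congr_ae (Eventually.of_forall fun x => ?_)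
      by_cases hx : x ∈ D
      · simp only [indicator_of_mem hx]
        by_cases hn : ‖x‖ ≤ R
        · simp only [sc, if_pos hn]
          rw [PiLp.inner_apply]
          simp only [RCLike.inner_apply, conj_trivial]
          congr 2
          exact Finset.sum_congr rfl fun i _ => mul_comm _ _
        · rw [hV.supp x (not_le.1 hn), zero_mul, zero_mul]
      · simp only [indicator_of_notMem hx, zero_mul])
  have hz : ∀ᵐ x : En q, D.indicator V x = 0 := by
    refine ae_eq_zero_of_integral_contDiff_smul_eq_zero hfi.locallyIntegrable ?_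
    intro g hg _
    have h1 := key (fun v => g (WithLp.toLp 2 v)) (hg.continuous.comp (PiLp.continuous_toLp 2 _))
    rw [← h1]
    refine integral_congr_ae (Eventually.of_forall fun x => ?_)
    simp only [smul_eq_mul]
    by_cases hx : x ∈ D
    · simp only [indicator_of_mem hx]
      by_cases hn : ‖x‖ ≤ R
      · have : (WithLp.toLp 2 (sc q R x) : En q) = x := by
          ext i
          simp [sc, hn]
        rw [this, mul_comm]
      · rw [hV.supp x (not_le.1 hn), zero_mul, mul_zero]
    · simp only [indicator_of_notMem hx, zero_mul, mul_zero]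
  filter_upwards [hz] with x hx hxD
  rwa [indicator_of_mem (show x ∈ D from hxD)] at hx

end Pool.Agent.Work.MP_f2af60_mp.Ev

end

section

/-!
# MP_f2af60_mp, project Ev, item Res: a kernel vector of `1 + s κ A J` gives a resonance.
-/

set_option autoImplicit false

namespace Pool.Agent.Work.MP_f2af60_mp.Ev

open MeasureTheory Metric Filter Topology Set

namespace Res

variable {q : ℕ}

instance (R : ℝ) : CompactSpace (Kb q R) :=
  isCompact_iff_compactSpace.mp (isCompact_closedBall _ _)

lemma emb (R : ℝ) : MeasurableEmbedding (Subtype.val : Kb q R → En q) :=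
  MeasurableEmbedding.subtype_coe measurableSet_closedBall

lemma muQ_fin (R : ℝ) : IsFiniteMeasure (muQ q R) := by
  constructor
  rw [muQ, (emb R).comap_apply]
  have : (Subtype.val '' (univ : Set (Kb q R))) = closedBall (0 : En q) R := by
    rw [image_univ, Subtype.range_coe]
  rw [this]
  exact measure_closedBall_lt_top

lemma muQ_int {R : ℝ} {h : En q → ℝ} (hh : Integrable h) :
    Integrable (fun y : Kb q R => h y) (muQ q R) := by
  have h1 : Integrable h ((muQ q R).map Subtype.val) := by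
    rw [muQ, (emb R).map_comap]
    exact hh.mono_measure Measure.restrict_le_self
  exact ((emb R).integrable_map_iff).mp h1

lemma muQ_noat (R : ℝ) (x : Kb q R) : (muQ q R) {x} = 0 := by
  rw [muQ, (emb R).comap_apply]
  simp

lemma muQ_ae (R : ℝ) (x : Kb q R) : ∀ᵐ y : Kb q R ∂(muQ q R), (y : En q) ≠ (x : En q) := by
  have : {y : Kb q R | ¬ ((y : En q) ≠ x)} = {x} := by
    ext y; simp [Subtype.ext_iff]
  rw [ae_iff, this]
  exact muQ_noat R x

lemma ex_pos (t : ℝ) (w : Sp q) (x : En q) : 0 < ex t w x := Real.exp_pos _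

lemma ex_le {t : ℝ} (ht : 0 ≤ t) (w : Sp q) {R : ℝ} (x : Kb q R) :
    ex t w x ≤ Real.exp (t * R) := by
  unfold ex
  apply Real.exp_le_exp.mpr
  apply mul_le_mul_of_nonneg_left _ ht
  have h1 : inner ℝ (w : En q) (x : En q) ≤ ‖(w : En q)‖ * ‖(x : En q)‖ := real_inner_le_norm _ _
  have h2 : ‖(w : En q)‖ = 1 := by
    simp
  have h3 : ‖(x : En q)‖ ≤ R := mem_closedBall_zero_iff.mp x.2
  rw [h2, one_mul] at h1
  linarith

lemma ex_cont (t : ℝ) : Continuous (fun p : Sp q × En q => ex t p.1 p.2) := by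
  unfold ex
  fun_prop

lemma ex_neg (t : ℝ) (w : Sp q) (z : En q) : ex t (-w) z = ex t w (-z) := by
  unfold ex
  simp

lemma ex_mul (t : ℝ) (w : Sp q) (x y : En q) : ex t (-w) x * ex t w y = ex t w (y - x) := by
  unfold ex
  rw [← Real.exp_add]
  congr 1
  simp [inner_sub_right]
  ring

end Res

theorem I_Res (hK : KerResQ) (h3 : StKer) (h4 : StGH) (h5 : StCap) (hF : HHFacts) : StRes := by
  intro q hq V R M hV P t ht f hf0 hf
  have ht1 : 1 ≤ t := P.t0_ge.trans ht
  have ht0 : 0 < t := by linarith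
  have hfin := Res.muQ_fin (q := q) R
  have : CompactSpace (Kb q R) := isCompact_iff_compactSpace.mp (isCompact_closedBall _ _)
  have hM : 0 ≤ M := (abs_nonneg _).trans (hV.bdd 0)
  set c : ℝ := (-1) ^ q * kp q t with hc
  -- the continuous family
  have hG : Continuous (fun w : Sp q => P.g t w) := by
    have h1 : Continuous (fun w : Sp q => ((t, w) : ℝ × Sp q)) := by fun_prop
    exact P.cont.comp_continuous h1 (fun w => ⟨ht, mem_univ _⟩)
  have hGn : Continuous (fun w : Sp q => P.g t (-w)) := hG.comp continuous_neg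
  have hGe : Continuous (fun p : Sp q × Kb q R => P.g t (-p.1) p.2) := by
    have h1 : Continuous (fun p : Sp q × Kb q R => (P.g t (-p.1), p.2)) :=
      (hGn.comp continuous_fst).prodMk continuous_snd
    exact ContinuousEval.continuous_eval.comp h1
  set B : ℝ := (1 + P.C / t) * Real.exp (t * R) with hB
  have hCt : 0 ≤ P.C / t := div_nonneg P.C_nonneg ht0.le
  have hB0 : 0 ≤ B := by positivity
  have hGB : ∀ (w : Sp q) (x : Kb q R), |P.g t w x| ≤ B := by
    intro w x
    have h1 := P.near t ht w x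
    have h2 := Res.ex_le ht0.le w x
    have h3 := Res.ex_pos t w (x : En q)
    have h4 : |P.g t w x| ≤ |P.g t w x - ex t w x| + |ex t w x| := by
      have := abs_add_le (P.g t w x - ex t w x) (ex t w x)
      simpa using this
    rw [abs_of_pos h3] at h4
    calc |P.g t w x| ≤ P.C / t * ex t w x + ex t w x := by linarith
      _ = (1 + P.C / t) * ex t w x := by ring
      _ ≤ B := by
        rw [hB]
        exact mul_le_mul_of_nonneg_left h2 (by linarith)
  have hfi : Integrable (fun w => f w) (sg q) := (Lp.memLp f).integrable (by norm_num)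
  have hfm : AEStronglyMeasurable (fun w => f w) (sg q) := hfi.aestronglyMeasurable
  -- psi
  set ps : Kb q R → ℝ := fun x => -c * ∫ w', P.g t (-w') x * f w' ∂(sg q) with hps
  have hpsc : Continuous ps := by
    rw [hps]
    apply Continuous.mul continuous_const
    apply continuous_of_dominated (bound := fun w' => B * |f w'|)
    · intro x
      exact (hGe.comp (by fun_prop : Continuous (fun w : Sp q => (w, x)))).aestronglyMeasurable.mul hfm
    · intro x
      filter_upwards with w'
      rw [Real.norm_eq_abs, abs_mul]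
      exact mul_le_mul_of_nonneg_right (hGB _ _) (abs_nonneg _)
    · exact hfi.abs.const_mul B
    · filter_upwards with w'
      exact (P.g t (-w')).continuous.mul continuous_const
  -- general Fubini
  have hVm : Measurable (fun x : Kb q R => V x) := hV.meas.comp measurable_subtype_coe
  have fub : ∀ h : Kb q R → ℝ, Integrable h (muQ q R) →
      ∫ x, h x * ps x ∂(muQ q R) = -c * ∫ w', (∫ x, h x * P.g t (-w') x ∂(muQ q R)) * f w' ∂(sg q) := by
    intro h hh
    have e1 : ∀ x, h x * ps x = -c * ∫ w', h x * P.g t (-w') x * f w' ∂(sg q) := by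
      intro x
      rw [hps]
      simp only
      have : ∀ w', h x * P.g t (-w') x * f w' = h x * (P.g t (-w') x * f w') := by
        intro w'; ring
      simp_rw [this]
      rw [integral_const_mul]
      ring
    simp_rw [e1]
    rw [integral_const_mul]
    congr 1
    rw [integral_integral_swap]
    · congr 1
      ext w'
      rw [integral_mul_const]
    · have i1 : Integrable (fun p : Kb q R × Sp q => h p.1 * f p.2) ((muQ q R).prod (sg q)) :=
        hh.mul_prod hfi
      have i2 : Integrable (fun p : Kb q R × Sp q => B * |h p.1 * f p.2|) ((muQ q R).prod (sg q)) :=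
        i1.abs.const_mul B
      refine i2.mono' ?_ ?_
      · have m1 : AEStronglyMeasurable (fun p : Kb q R × Sp q => P.g t (-p.2) p.1)
            ((muQ q R).prod (sg q)) :=
          (hGe.comp continuous_swap).aestronglyMeasurable
        have m2 := i1.aestronglyMeasurable.mul m1
        refine m2.congr ?_
        filter_upwards with p
        simp only [Function.uncurry, Pi.mul_apply]
        ring
      · filter_upwards with p
        simp only [Function.uncurry]
        rw [Real.norm_eq_abs]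
        have : h p.1 * P.g t (-p.2) p.1 * f p.2 = P.g t (-p.2) p.1 * (h p.1 * f p.2) := by ring
        rw [this, abs_mul]
        exact mul_le_mul_of_nonneg_right (hGB _ _) (abs_nonneg _)
  -- integrability of bounded functions
  have hbi : ∀ (h : Kb q R → ℝ) (D : ℝ), Measurable h → (∀ x, |h x| ≤ D) →
      Integrable h (muQ q R) := by
    intro h D hm hb
    exact Integrable.of_bound hm.aestronglyMeasurable D (by filter_upwards with x; simpa using hb x)
  have hexm : ∀ w : Sp q, Measurable (fun x : Kb q R => ex t w x) := by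
    intro w
    have : Continuous (fun x : Kb q R => ex t w (x : En q)) :=
      (Res.ex_cont t).comp (by fun_prop : Continuous (fun x : Kb q R => (w, (x : En q))))
    exact this.measurable
  have hVe : ∀ w : Sp q, Integrable (fun x : Kb q R => V x * ex t w x) (muQ q R) := by
    intro w
    apply hbi _ (M * Real.exp (t * R)) (hVm.mul (hexm w))
    intro x
    simp only [Pi.mul_apply]
    rw [abs_mul, abs_of_pos (Res.ex_pos t w _)]
    exact mul_le_mul (hV.bdd _) (Res.ex_le ht0.le w x) (Res.ex_pos t w _).le hM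
  -- (a)
  have ha : ∀ w : Sp q, ∫ x, V x * ex t w x * ps x ∂(muQ q R) =
      -∫ w', kk P t w w' * f w' ∂(sg q) := by
    intro w
    rw [fub _ (hVe w)]
    have : ∀ w', kk P t w w' * f w' = c * ((∫ x : Kb q R, V x * ex t w x * P.g t (-w') x ∂(muQ q R)) * f w') := by
      intro w'
      unfold kk aa
      rw [hc]; ring
    simp_rw [this]
    rw [integral_const_mul]
    ring
  have hFe : ∀ᵐ w ∂(sg q), f w = ∫ x, V x * ex t w x * ps x ∂(muQ q R) := by
    filter_upwards [hf] with w hw
    rw [ha w]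
    linarith
  -- psi is not zero
  have hpne : ps ≠ 0 := by
    intro h0
    apply hf0
    have : ∀ᵐ w ∂(sg q), f w = (0 : Lp ℝ 2 (sg q)) w := by
      filter_upwards [hFe, Lp.coeFn_zero ℝ 2 (sg q)] with w hw hw0
      rw [hw, hw0, h0]
      simp
    exact Lp.ext this
  -- the kernel of the difference
  set D : En q → ℝ := fun z => c * ∫ w : Sp q, ex t w z ∂(sg q) with hD
  have hDs : ∀ z, D (-z) = D z := by
    intro z
    rw [hD]
    simp only
    congr 1
    have h1 := (h5 q).1
    have h2 : ∫ w : Sp q, ex t (-w) z ∂(sg q) = ∫ w : Sp q, ex t w z ∂(sg q) := by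
      have := h1.integral_comp (MeasurableEquiv.neg (Sp q)).measurableEmbedding
        (fun w => ex t w z)
      exact this
    rw [← h2]
    simp_rw [Res.ex_neg]
  -- (b)
  have hHH := (hF q 0).1 (t ^ 2) (by positivity)
  have hHi : ∀ x : Kb q R, Integrable (fun y : Kb q R => HH q 0 (t ^ 2) ((x : En q) - y) * V y)
      (muQ q R) := by
    intro x
    have h1 : Integrable (fun y : En q => HH q 0 (t ^ 2) ((x : En q) - y)) :=
      (hHH.2.2.1).comp_sub_left (x : En q)
    have h2 := Res.muQ_int (R := R) h1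
    have h3 := h2.bdd_mul (c := M) hVm.aestronglyMeasurable
      (by filter_upwards with y; rw [Real.norm_eq_abs]; exact hV.bdd _)
    refine h3.congr ?_
    filter_upwards with y
    ring
  have hpsb : ∃ D', ∀ x, |ps x| ≤ D' := by
    obtain ⟨C, hC⟩ := (isCompact_univ (X := Kb q R)).exists_bound_of_continuousOn hpsc.continuousOn
    exact ⟨C, fun x => by simpa using hC x (mem_univ _)⟩
  obtain ⟨D', hD'⟩ := hpsb
  -- Fubini for the exponentials
  have hb : ∀ x : Kb q R, ps x + ∫ y : Kb q R, HH q 0 (t ^ 2) ((x : En q) - y) * V y * ps y ∂(muQ q R) =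
      -∫ y : Kb q R, D ((x : En q) - y) * V y * ps y ∂(muQ q R) := by
    intro x
    rw [fub _ (hHi x)]
    have e1 : ps x + -c * ∫ w', (∫ y : Kb q R, HH q 0 (t ^ 2) ((x : En q) - y) * V y *
        P.g t (-w') y ∂(muQ q R)) * f w' ∂(sg q) = -c * ∫ w', ex t (-w') x * f w' ∂(sg q) := by
      rw [hps]
      simp only
      rw [← mul_add]
      congr 1
      have i1 : Integrable (fun w' => P.g t (-w') x * f w') (sg q) := by
        refine hfi.bdd_mul (c := B) ?_ ?_
        · exact (hGe.comp (by fun_prop : Continuous (fun w : Sp q => (w, x)))).aestronglyMeasurable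
        · filter_upwards with w'
          rw [Real.norm_eq_abs]
          exact hGB _ _
      have i3 : Integrable (fun w' => ex t (-w') (x : En q) * f w') (sg q) := by
        refine hfi.bdd_mul (c := Real.exp (t * R)) ?_ ?_
        · exact ((Res.ex_cont t).comp
            (by fun_prop : Continuous (fun w : Sp q => (-w, (x : En q))))).aestronglyMeasurable
        · filter_upwards with w'
          rw [Real.norm_eq_abs, abs_of_pos (Res.ex_pos t _ _)]
          exact Res.ex_le ht0.le _ x
      have e2 : ∀ w' : Sp q, (∫ y : Kb q R, HH q 0 (t ^ 2) ((x : En q) - y) * V y *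
        P.g t (-w') y ∂(muQ q R)) * f w' = ex t (-w') (x : En q) * f w' - P.g t (-w') x * f w' := by
        intro w'
        have := P.eqn t ht (-w') x
        rw [← this]; ring
      simp_rw [e2]
      rw [integral_sub i3 i1]
      ring
    rw [e1]
    -- replace f by its representation
    have e3 : ∫ w', ex t (-w') (x : En q) * f w' ∂(sg q) =
        ∫ w', ∫ y : Kb q R, ex t w' ((y : En q) - x) * (V y * ps y) ∂(muQ q R) ∂(sg q) := by
      apply integral_congr_ae
      filter_upwards [hFe] with w' hw'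
      rw [hw', ← integral_const_mul]
      congr 1
      ext y
      rw [← Res.ex_mul]
      ring
    rw [e3, integral_integral_swap]
    · rw [← integral_const_mul, ← integral_neg]
      congr 1
      ext y
      rw [integral_mul_const]
      have : D ((x : En q) - y) = c * ∫ w : Sp q, ex t w ((y : En q) - x) ∂(sg q) := by
        rw [← hDs, neg_sub]
      rw [this]
      ring
    · have i1 : Integrable (fun p : Sp q × Kb q R => (1 : ℝ) * (V p.2 * ps p.2))
          ((sg q).prod (muQ q R)) := by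
        have j1 : Integrable (fun _ : Sp q => (1 : ℝ)) (sg q) := integrable_const _
        have j2 : Integrable (fun y : Kb q R => V y * ps y) (muQ q R) := by
          apply hbi _ (M * D') (hVm.mul hpsc.measurable)
          intro y
          simp only [Pi.mul_apply]
          rw [abs_mul]
          exact mul_le_mul (hV.bdd _) (hD' _) (abs_nonneg _) hM
        exact j1.mul_prod j2
      have m1 : Continuous (fun p : Sp q × Kb q R => ex t p.1 ((p.2 : En q) - x)) :=
        (Res.ex_cont t).comp (by fun_prop :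
          Continuous (fun p : Sp q × Kb q R => (p.1, (p.2 : En q) - x)))
      have i2 := i1.bdd_mul (c := Real.exp (t * (2 * R))) m1.aestronglyMeasurable (by
        filter_upwards with p
        rw [Real.norm_eq_abs, abs_of_pos (Res.ex_pos t _ _), ← Res.ex_mul]
        have h1 := Res.ex_le ht0.le (-p.1) x
        have h2 := Res.ex_le ht0.le p.1 p.2
        calc ex t (-p.1) (x : En q) * ex t p.1 (p.2 : En q)
            ≤ Real.exp (t * R) * Real.exp (t * R) :=
              mul_le_mul h1 h2 (Res.ex_pos t _ _).le (Real.exp_pos _).le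
          _ = Real.exp (t * (2 * R)) := by rw [← Real.exp_add]; ring_nf)
      refine i2.congr ?_
      filter_upwards with p
      simp [Function.uncurry]
  -- integrability of the two pieces
  have hint1 : ∀ x : Kb q R, Integrable
      (fun y : Kb q R => HH q 0 (t ^ 2) ((x : En q) - y) * V y * ps y) (muQ q R) := by
    intro x
    have := (hHi x).bdd_mul (c := D') hpsc.aestronglyMeasurable
      (by filter_upwards with y; rw [Real.norm_eq_abs]; exact hD' y)
    refine this.congr ?_
    filter_upwards with y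
    ring
  have hDc : Continuous D := by
    rw [hD]
    apply Continuous.mul continuous_const
    have j1 : Continuous (Function.uncurry fun (z : En q) (w : Sp q) => ex t w z) :=
      (Res.ex_cont t).comp continuous_swap
    have j2 := continuous_parametric_integral_of_continuous (μ := sg q) j1
      (isCompact_univ (X := Sp q))
    simpa using j2
  have hint2 : ∀ x : Kb q R, Integrable
      (fun y : Kb q R => D ((x : En q) - y) * V y * ps y) (muQ q R) := by
    intro x
    have hDx : Continuous (fun y : Kb q R => D ((x : En q) - y)) :=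
      hDc.comp (by fun_prop)
    obtain ⟨C, hC⟩ := (isCompact_univ (X := Kb q R)).exists_bound_of_continuousOn hDx.continuousOn
    have i1 : Integrable (fun y : Kb q R => V y * ps y) (muQ q R) := by
      apply hbi _ (M * D') (hVm.mul hpsc.measurable)
      intro y
      simp only [Pi.mul_apply]
      rw [abs_mul]
      exact mul_le_mul (hV.bdd _) (hD' _) (abs_nonneg _) hM
    have := i1.bdd_mul (c := C) hDx.aestronglyMeasurable
      (by filter_upwards with y; exact hC y (mem_univ _))
    refine this.congr ?_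
    filter_upwards with y
    ring
  -- conclusion
  let u : C(closedBall (0 : En q) R, ℂ) := ⟨fun x => (ps x : ℂ), by
    exact Complex.continuous_ofReal.comp hpsc⟩
  refine hK q hq R hV.hR V hV.meas M hV.bdd hV.supp _ u ?_ ?_
  · intro h0
    apply hpne
    ext x
    have : u x = 0 := by rw [h0]; rfl
    have h2 : ((ps x : ℝ) : ℂ) = 0 := this
    simpa using h2
  · intro x
    have e1 : ∫ y : closedBall (0 : En q) R, eb q (-(Complex.I * (t : ℂ)) * ((dist x y : ℝ) : ℂ)) *
      ((((dist x y) ^ (2 * q + 1))⁻¹ : ℝ) : ℂ) * (V y : ℂ) * u y ∂(muQ q R) =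
      ∫ y : closedBall (0 : En q) R, (((D ((x : En q) - y) * V y * ps y +
        HH q 0 (t ^ 2) ((x : En q) - y) * V y * ps y : ℝ)) : ℂ) ∂(muQ q R) := by
      apply integral_congr_ae
      filter_upwards [Res.muQ_ae R x] with y hy
      have hne : (x : En q) - y ≠ 0 := by
        rw [sub_ne_zero]
        exact fun h => hy h.symm
      have k1 := h3 q t ht0 _ hne
      have k2 := h4 q t ht0 _ hne
      have k3 : GG q (-(Complex.I * (t : ℂ))) ((x : En q) - y) =
          ((D ((x : En q) - y) + HH q 0 (t ^ 2) ((x : En q) - y) : ℝ) : ℂ) := by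
        rw [hD]
        push_cast
        push_cast at k1
        rw [← k2]
        rw [← sub_eq_iff_eq_add, k1, hc]
        push_cast
        ring
      have k4 : dist x y = ‖(x : En q) - y‖ := by
        rw [Subtype.dist_eq, dist_eq_norm]
      have k5 : eb q (-(Complex.I * (t : ℂ)) * ((dist x y : ℝ) : ℂ)) *
          ((((dist x y) ^ (2 * q + 1))⁻¹ : ℝ) : ℂ) = GG q (-(Complex.I * (t : ℂ))) ((x : En q) - y) := by
        rw [k4]
        unfold GG
        push_cast
        rw [div_eq_mul_inv]
      rw [k5, k3]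
      show _ * _ * ((ps y : ℝ) : ℂ) = _
      push_cast
      ring
    rw [e1, integral_complex_ofReal, integral_add (hint2 x) (hint1 x)]
    have := hb x
    show ((ps x : ℝ) : ℂ) + _ = 0
    rw [← Complex.ofReal_add]
    norm_cast
    linarith

end Pool.Agent.Work.MP_f2af60_mp.Ev

end
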