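import Pool.Agent.Work.MP_f2af60_mp.Ev.Stmts
import Pool.Agent.Work.MP_f2af60_mp.Bd.B05

/-! Bundle of small proof modules (one section per former module). -/

section

/-!
# MP_f2af60_mp, project Ev, item 2: the Laplace transform of the surface measure
-/

set_option autoImplicit false

namespace Pool.Agent.Work.MP_f2af60_mp.Ev

open MeasureTheory Metric Filter Topology Set

namespace Sph

/-- polar coordinates for products -/
theorem polar (q : ℕ) (a : ℝ → ℝ) (b : Sp q → ℝ) (g : En q → ℝ)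
    (hg : ∀ (w : Sp q) (r : ℝ), 0 < r → g (r • (w : En q)) = b w * a r) :
    ∫ x, g x = (∫ w, b w ∂(sg q)) * ∫ r in Ioi (0:ℝ), r ^ (2 * q + 2) * a r := by
  have hdim : Module.finrank ℝ (En q) - 1 = 2 * q + 2 := by simp
  calc
    ∫ x, g x = ∫ x : ({(0)}ᶜ : Set (En q)), g x ∂((volume : Measure (En q)).comap (↑)) := by
      rw [integral_subtype_comap (measurableSet_singleton _).compl g, restrict_compl_singleton]
    _ = ∫ x, (b x.1 * a x.2) ∂(sg q).prod
          (Measure.volumeIoiPow (Module.finrank ℝ (En q) - 1)) := by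
      unfold sg
      rw [← ((volume : Measure (En q)).measurePreserving_homeomorphUnitSphereProd).integral_comp
        (Homeomorph.measurableEmbedding _) (fun p => b p.1 * a p.2)]
      refine integral_congr_ae (Eventually.of_forall fun x => ?_)
      have hx : (x : En q) ≠ 0 := x.2
      have hn : 0 < ‖(x : En q)‖ := norm_pos_iff.2 hx
      have h1 := hg (homeomorphUnitSphereProd (En q) x).1 ‖(x : En q)‖ hn
      simp only [homeomorphUnitSphereProd_apply_fst_coe] at h1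
      rw [smul_smul, mul_inv_cancel₀ hn.ne', one_smul] at h1
      simpa using h1
    _ = (∫ w, b w ∂(sg q)) *
          ∫ r : Ioi (0:ℝ), a r ∂(Measure.volumeIoiPow (Module.finrank ℝ (En q) - 1)) :=
      integral_prod_mul b (fun r : Ioi (0:ℝ) => a r)
    _ = _ := by
      congr 1
      rw [hdim]
      simp only [Measure.volumeIoiPow, ENNReal.ofReal]
      rw [integral_withDensity_eq_integral_smul,
        integral_subtype_comap measurableSet_Ioi
          fun r => Real.toNNReal (r ^ (2 * q + 2)) • a r]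
      · refine setIntegral_congr_fun measurableSet_Ioi fun x hx => ?_
        rw [NNReal.smul_def, Real.coe_toNNReal _ (pow_nonneg (le_of_lt hx) _), smul_eq_mul]
      · exact (measurable_subtype_coe.pow_const _).real_toNNReal

/-- the Gamma integral with natural powers -/
theorem gam (k : ℕ) : ∫ r in Ioi (0:ℝ), r ^ k * Real.exp (-r ^ 2) =
    1 / 2 * Real.Gamma (((k : ℝ) + 1) / 2) := by
  have h := integral_rpow_mul_exp_neg_rpow (p := 2) (q := (k : ℝ)) (by norm_num)
    (by have : (0:ℝ) ≤ k := Nat.cast_nonneg k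
        linarith)
  rw [← h]
  refine setIntegral_congr_fun measurableSet_Ioi fun x _ => ?_
  rw [Real.rpow_natCast, Real.rpow_two]

theorem gamR (j : ℕ) : ∫ x : ℝ, x ^ (2 * j) * Real.exp (-x ^ 2) =
    Real.Gamma ((j : ℝ) + 1 / 2) := by
  have h := integral_comp_abs (f := fun x : ℝ => x ^ (2 * j) * Real.exp (-x ^ 2))
  rw [gam] at h
  have h2 : ∀ x : ℝ, |x| ^ (2 * j) * Real.exp (-|x| ^ 2) = x ^ (2 * j) * Real.exp (-x ^ 2) := by
    intro x
    rw [sq_abs, pow_mul, sq_abs, ← pow_mul]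
  simp only [h2] at h
  rw [h]
  push_cast
  rw [← mul_assoc]
  norm_num
  congr 1
  ring

/-- the Beta integral -/
theorem beta (q j : ℕ) : ∫ u in (-1:ℝ)..1, (1 - u ^ 2) ^ q * u ^ (2 * j) =
    (q.factorial : ℝ) * Real.Gamma ((j : ℝ) + 1 / 2) / Real.Gamma ((j : ℝ) + q + 3 / 2) := by
  induction q generalizing j with
  | zero =>
    have hj : (0:ℝ) < (j : ℝ) + 1 / 2 := by positivity
    have h1 : Real.Gamma ((j : ℝ) + (0 : ℕ) + 3 / 2) =
        ((j : ℝ) + 1 / 2) * Real.Gamma ((j : ℝ) + 1 / 2) := by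
      rw [← Real.Gamma_add_one hj.ne']
      congr 1
      push_cast
      ring
    rw [h1]
    have hG : Real.Gamma ((j : ℝ) + 1 / 2) ≠ 0 := (Real.Gamma_pos_of_pos hj).ne'
    simp only [pow_zero, one_mul, integral_pow, Nat.factorial_zero, Nat.cast_one]
    have h3 : ((-1 : ℝ)) ^ (2 * j + 1) = -1 := by
      rw [pow_succ, pow_mul]
      norm_num
    rw [h3]
    push_cast
    field_simp
    ring
  | succ q ih =>
    have h0 : ∀ u : ℝ, (1 - u ^ 2) ^ (q + 1) * u ^ (2 * j) =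
        (1 - u ^ 2) ^ q * u ^ (2 * j) - (1 - u ^ 2) ^ q * u ^ (2 * (j + 1)) := by
      intro u
      ring
    simp only [h0]
    rw [intervalIntegral.integral_sub, ih j, ih (j + 1)]
    · have hj : (0:ℝ) < (j : ℝ) + 1 / 2 := by positivity
      have hj2 : (0:ℝ) < (j : ℝ) + q + 3 / 2 := by positivity
      have e1 : Real.Gamma (((j + 1 : ℕ) : ℝ) + 1 / 2) =
          ((j : ℝ) + 1 / 2) * Real.Gamma ((j : ℝ) + 1 / 2) := by
        rw [← Real.Gamma_add_one hj.ne']
        congr 1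
        push_cast
        ring
      have e2 : Real.Gamma (((j + 1 : ℕ) : ℝ) + q + 3 / 2) =
          ((j : ℝ) + q + 3 / 2) * Real.Gamma ((j : ℝ) + q + 3 / 2) := by
        rw [← Real.Gamma_add_one hj2.ne']
        congr 1
        push_cast
        ring
      have e3 : Real.Gamma ((j : ℝ) + ((q + 1 : ℕ) : ℝ) + 3 / 2) =
          ((j : ℝ) + q + 3 / 2) * Real.Gamma ((j : ℝ) + q + 3 / 2) := by
        rw [← Real.Gamma_add_one hj2.ne']
        congr 1
        push_cast
        ring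
      have hG : Real.Gamma ((j : ℝ) + q + 3 / 2) ≠ 0 := (Real.Gamma_pos_of_pos hj2).ne'
      rw [e1, e2, e3, Nat.factorial_succ]
      push_cast
      field_simp
      ring
    · exact Continuous.intervalIntegrable (by fun_prop) _ _
    · exact Continuous.intervalIntegrable (by fun_prop) _ _

theorem beta_odd (q j : ℕ) : ∫ u in (-1:ℝ)..1, (1 - u ^ 2) ^ q * u ^ (2 * j + 1) = 0 := by
  have h := intervalIntegral.integral_comp_neg (a := -1) (b := 1)
    (fun u : ℝ => (1 - u ^ 2) ^ q * u ^ (2 * j + 1))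
  have h2 : ∀ u : ℝ, (1 - (-u) ^ 2) ^ q * (-u) ^ (2 * j + 1) =
      -((1 - u ^ 2) ^ q * u ^ (2 * j + 1)) := by
    intro u
    have : (-u) ^ (2 * j + 1) = -(u ^ (2 * j + 1)) := Odd.neg_pow ⟨j, rfl⟩ u
    rw [this, neg_sq]
    ring
  simp only [h2, intervalIntegral.integral_neg, neg_neg] at h
  linarith

/-- the integral over the whole space -/
theorem full (q j : ℕ) (z : En q) :
    ∫ x : En q, (inner ℝ x z) ^ (2 * j) * Real.exp (-‖x‖ ^ 2) =
      ‖z‖ ^ (2 * j) * (Real.pi ^ (q + 1) * Real.Gamma ((j : ℝ) + 1 / 2)) := by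
  classical
  set e0 : En q := EuclideanSpace.single 0 1 with he0
  have hn : ‖z‖ = ‖‖z‖ • e0‖ := by
    rw [norm_smul, he0]
    simp
  set L : En q ≃ₗᵢ[ℝ] En q := (Submodule.reflection (ℝ ∙ (z - ‖z‖ • e0))ᗮ) with hL
  have hLz : L z = ‖z‖ • e0 := by
    rw [hL]
    exact Submodule.reflection_sub hn
  have h1 : ∫ x : En q, (inner ℝ x z) ^ (2 * j) * Real.exp (-‖x‖ ^ 2) =
      ∫ x : En q, (inner ℝ x (‖z‖ • e0)) ^ (2 * j) * Real.exp (-‖x‖ ^ 2) := by
    rw [← (L.measurePreserving).integral_comp L.toHomeomorph.measurableEmbedding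
      (fun x : En q => (inner ℝ x (‖z‖ • e0)) ^ (2 * j) * Real.exp (-‖x‖ ^ 2))]
    refine integral_congr_ae (Eventually.of_forall fun x => ?_)
    simp only
    rw [← hLz, L.inner_map_map, L.norm_map]
  rw [h1]
  set f : Fin (2 * q + 3) → ℝ → ℝ := fun i t => if i = 0 then t ^ (2 * j) * Real.exp (-t ^ 2)
    else Real.exp (-t ^ 2) with hf
  have h2 : ∀ x : En q, (inner ℝ x (‖z‖ • e0)) ^ (2 * j) * Real.exp (-‖x‖ ^ 2) =
      ‖z‖ ^ (2 * j) * ∏ i, f i (x i) := by
    intro x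
    have e1 : inner ℝ x (‖z‖ • e0) = ‖z‖ * x 0 := by
      rw [inner_smul_right, he0, EuclideanSpace.inner_single_right]
      simp
    have e2 : ∏ i, f i (x i) = (x 0) ^ (2 * j) * Real.exp (-‖x‖ ^ 2) := by
      rw [EuclideanSpace.real_norm_sq_eq, ← Finset.sum_neg_distrib, Real.exp_sum,
        Fin.prod_univ_succ (fun i => f i (x i)),
        Fin.prod_univ_succ (fun i => Real.exp (-x i ^ 2))]
      simp only [hf, if_true, Fin.succ_ne_zero, if_false]
      ring
    rw [e1, e2]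
    ring
  simp only [h2]
  rw [integral_const_mul]
  congr 1
  have h3 : ∫ x : En q, ∏ i, f i (x i) = ∫ x : Fin (2 * q + 3) → ℝ, ∏ i, f i (x i) := by
    rw [← (PiLp.volume_preserving_ofLp (Fin (2 * q + 3))).integral_comp
      (MeasurableEquiv.toLp 2 (Fin (2 * q + 3) → ℝ)).symm.measurableEmbedding
      (fun x : Fin (2 * q + 3) → ℝ => ∏ i, f i (x i))]
  rw [h3, integral_fintype_prod_volume_eq_prod, Fin.prod_univ_succ]
  have h4 : ∫ t, f 0 t = Real.Gamma ((j : ℝ) + 1 / 2) := by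
    simp only [hf, if_true]
    exact gamR j
  have h5 : ∀ i : Fin (2 * q + 2), ∫ t, f i.succ t = Real.sqrt Real.pi := by
    intro i
    simp only [hf, Fin.succ_ne_zero, if_false]
    have := integral_gaussian 1
    simpa using this
  rw [h4, Finset.prod_congr rfl (fun i _ => h5 i), Finset.prod_const, Finset.card_univ,
    Fintype.card_fin, show 2 * q + 2 = 2 * (q + 1) by ring, pow_mul,
    Real.sq_sqrt Real.pi_pos.le]
  ring

theorem full_odd (q j : ℕ) (z : En q) :
    ∫ x : En q, (inner ℝ x z) ^ (2 * j + 1) * Real.exp (-‖x‖ ^ 2) = 0 := by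
  have h := integral_neg_eq_self
    (fun x : En q => (inner ℝ x z) ^ (2 * j + 1) * Real.exp (-‖x‖ ^ 2)) volume
  have h2 : ∀ x : En q, (inner ℝ (-x) z) ^ (2 * j + 1) * Real.exp (-‖-x‖ ^ 2) =
      -((inner ℝ x z) ^ (2 * j + 1) * Real.exp (-‖x‖ ^ 2)) := by
    intro x
    rw [inner_neg_left, norm_neg, Odd.neg_pow ⟨j, rfl⟩]
    ring
  simp only [h2, integral_neg] at h
  linarith

/-- moments of the sphere -/
theorem moment (q k : ℕ) (z : En q) :
    (∫ w : Sp q, (inner ℝ (w : En q) z) ^ k ∂(sg q)) *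
      (1 / 2 * Real.Gamma (((2 * q + 2 + k : ℕ) + 1 : ℝ) / 2)) =
    ∫ x : En q, (inner ℝ x z) ^ k * Real.exp (-‖x‖ ^ 2) := by
  rw [← gam, polar q (fun r => r ^ k * Real.exp (-r ^ 2))
    (fun w => (inner ℝ (w : En q) z) ^ k)]
  · congr 1
    refine setIntegral_congr_fun measurableSet_Ioi fun x _ => ?_
    ring
  · intro w r hr
    have hw : ‖(w : En q)‖ = 1 := by simp
    rw [inner_smul_left, norm_smul, hw, mul_one, Real.norm_eq_abs, sq_abs]
    simp only [conj_trivial]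
    ring

theorem mom (q k : ℕ) (z : En q) :
    ∫ w : Sp q, (inner ℝ (w : En q) z) ^ k ∂(sg q) =
      2 * Real.pi ^ (q + 1) / (q.factorial : ℝ) *
        ∫ u in (-1 : ℝ)..1, (1 - u ^ 2) ^ q * (‖z‖ * u) ^ k := by
  have hm := moment q k z
  have hq : (q.factorial : ℝ) ≠ 0 := by positivity
  have hpos : 0 < Real.Gamma (((2 * q + 2 + k : ℕ) + 1 : ℝ) / 2) :=
    Real.Gamma_pos_of_pos (by positivity)
  have hr : ∫ u in (-1 : ℝ)..1, (1 - u ^ 2) ^ q * (‖z‖ * u) ^ k =
      ‖z‖ ^ k * ∫ u in (-1 : ℝ)..1, (1 - u ^ 2) ^ q * u ^ k := by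
    rw [← intervalIntegral.integral_const_mul]
    congr 1
    ext u
    ring
  rw [hr]
  rcases Nat.even_or_odd' k with ⟨j, rfl | rfl⟩
  · rw [full] at hm
    rw [beta]
    have e : ((2 * q + 2 + 2 * j : ℕ) + 1 : ℝ) / 2 = (j : ℝ) + q + 3 / 2 := by
      push_cast
      ring
    rw [e] at hm hpos
    field_simp
    field_simp at hm
    linarith
  · rw [full_odd] at hm
    rw [beta_odd]
    simp only [mul_zero]
    rcases mul_eq_zero.1 hm with h | h
    · exact h
    · exfalso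
      have : (0:ℝ) < 1 / 2 * Real.Gamma (((2 * q + 2 + (2 * j + 1) : ℕ) + 1 : ℝ) / 2) := by
        positivity
      linarith

theorem hasSum_exp (x : ℝ) : HasSum (fun n : ℕ => x ^ n / (n.factorial : ℝ)) (Real.exp x) := by
  rw [Real.exp_eq_exp_ℝ]
  exact NormedSpace.expSeries_div_hasSum_exp x

theorem term (q n : ℕ) (z : En q) :
    ∫ w : Sp q, (inner ℝ (w : En q) z) ^ n / (n.factorial : ℝ) ∂(sg q) =
      2 * Real.pi ^ (q + 1) / (q.factorial : ℝ) * ∫ u in (-1 : ℝ)..1,
      (1 - u ^ 2) ^ q * ((‖z‖ * u) ^ n / (n.factorial : ℝ)) := by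
  have h1 : ∫ w : Sp q, (inner ℝ (w : En q) z) ^ n / (n.factorial : ℝ) ∂(sg q) =
      (∫ w : Sp q, (inner ℝ (w : En q) z) ^ n ∂(sg q)) / (n.factorial : ℝ) :=
    integral_div _ _
  have h2 : ∫ u in (-1 : ℝ)..1, (1 - u ^ 2) ^ q * ((‖z‖ * u) ^ n / (n.factorial : ℝ)) =
      (∫ u in (-1 : ℝ)..1, (1 - u ^ 2) ^ q * (‖z‖ * u) ^ n) / (n.factorial : ℝ) := by
    rw [← intervalIntegral.integral_div]
    congr 1
    ext u
    ring
  rw [h1, h2, mom]
  ring

end Sph

open Sph in
theorem I_Sph : StSph := by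
  intro q z
  have hS : HasSum (fun n : ℕ => ∫ w : Sp q, (inner ℝ (w : En q) z) ^ n / (n.factorial : ℝ) ∂(sg q))
      (∫ w : Sp q, Real.exp (inner ℝ (w : En q) z) ∂(sg q)) := by
    refine hasSum_integral_of_dominated_convergence
      (fun n _ => ‖z‖ ^ n / (n.factorial : ℝ)) ?_ ?_ ?_ ?_ ?_
    · intro n
      exact Continuous.aestronglyMeasurable (by fun_prop)
    · intro n
      refine Eventually.of_forall fun w => ?_
      have hw : ‖(w : En q)‖ = 1 := by simp
      have := abs_real_inner_le_norm (w : En q) z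
      rw [hw, one_mul] at this
      rw [norm_div, norm_pow, Real.norm_eq_abs, Real.norm_natCast]
      gcongr
    · exact Eventually.of_forall fun w => Real.summable_pow_div_factorial ‖z‖
    · exact integrable_const _
    · exact Eventually.of_forall fun w => hasSum_exp _
  have hI : HasSum (fun n : ℕ => ∫ u in (-1 : ℝ)..1,
      (1 - u ^ 2) ^ q * ((‖z‖ * u) ^ n / (n.factorial : ℝ)))
      (∫ u in (-1 : ℝ)..1, (1 - u ^ 2) ^ q * Real.exp (‖z‖ * u)) := by
    refine intervalIntegral.hasSum_integral_of_dominated_convergence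
      (fun n _ => ‖z‖ ^ n / (n.factorial : ℝ)) ?_ ?_ ?_ ?_ ?_
    · intro n
      exact Continuous.aestronglyMeasurable (by fun_prop)
    · intro n
      refine Eventually.of_forall fun u hu => ?_
      rw [uIoc_of_le (by norm_num)] at hu
      have hu2 : |u| ≤ 1 := abs_le.2 ⟨hu.1.le, hu.2⟩
      have h1 : u ^ 2 ≤ 1 := by
        rw [← sq_abs]
        exact pow_le_one₀ (abs_nonneg u) hu2
      have h2 : |(1 - u ^ 2) ^ q| ≤ 1 := by
        rw [abs_pow]
        refine pow_le_one₀ (abs_nonneg _) ?_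
        rw [abs_of_nonneg (by linarith)]
        linarith [sq_nonneg u]
      have h3 : |(‖z‖ * u) ^ n / (n.factorial : ℝ)| ≤ ‖z‖ ^ n / (n.factorial : ℝ) := by
        rw [abs_div, abs_pow, abs_mul, abs_norm, Nat.abs_cast]
        gcongr
        calc ‖z‖ * |u| ≤ ‖z‖ * 1 := by gcongr
          _ = ‖z‖ := mul_one _
      rw [norm_mul, Real.norm_eq_abs, Real.norm_eq_abs]
      calc |(1 - u ^ 2) ^ q| * |(‖z‖ * u) ^ n / (n.factorial : ℝ)|
          ≤ 1 * (‖z‖ ^ n / (n.factorial : ℝ)) := by gcongr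
        _ = _ := one_mul _
    · exact Eventually.of_forall fun u _ => Real.summable_pow_div_factorial ‖z‖
    · exact intervalIntegrable_const
    · exact Eventually.of_forall fun u _ => (hasSum_exp _).mul_left _
  have hI2 := hI.mul_left (2 * Real.pi ^ (q + 1) / (q.factorial : ℝ))
  refine hS.unique ?_
  have he : (fun n : ℕ => ∫ w : Sp q, (inner ℝ (w : En q) z) ^ n / (n.factorial : ℝ) ∂(sg q)) =
      fun n : ℕ => 2 * Real.pi ^ (q + 1) / (q.factorial : ℝ) * ∫ u in (-1 : ℝ)..1,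
      (1 - u ^ 2) ^ q * ((‖z‖ * u) ^ n / (n.factorial : ℝ)) := by
   funext n
   exact term q n z
  rw [he]
  exact hI2

end Pool.Agent.Work.MP_f2af60_mp.Ev

end

section

/-!
# MP_f2af60_mp, project Ev, item Sym: symmetry of the kernel for even potentials
-/

set_option autoImplicit false

namespace Pool.Agent.Work.MP_f2af60_mp.Ev

open MeasureTheory Metric Filter Topology Set

namespace Sym

lemma HH_neg (q j : ℕ) (E : ℝ) (x : En q) : HH q j E (-x) = HH q j E x := by
  unfold HH pt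
  simp only [norm_neg]

lemma HH_sub_comm (q j : ℕ) (E : ℝ) (x y : En q) : HH q j E (x - y) = HH q j E (y - x) := by
  rw [← HH_neg, neg_sub]

lemma emb (q : ℕ) (R : ℝ) : MeasurableEmbedding (Subtype.val : Kb q R → En q) :=
  MeasurableEmbedding.subtype_coe measurableSet_closedBall

lemma mapμ (q : ℕ) (R : ℝ) : (muQ q R).map Subtype.val = volume.restrict (Kb q R) := by
  unfold muQ
  rw [(emb q R).map_comap, Subtype.range_coe]

lemma fin (q : ℕ) (R : ℝ) : IsFiniteMeasure (muQ q R) := by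
  constructor
  have h : (muQ q R) univ = volume (Kb q R) := by
    unfold muQ
    rw [(emb q R).comap_apply, image_univ, Subtype.range_coe]
  rw [h]
  exact measure_closedBall_lt_top

/-- `y ↦ -y` preserves the measure of the ball -/
lemma mpneg (q : ℕ) (R : ℝ) : MeasurePreserving (fun y : Kb q R => -y) (muQ q R) (muQ q R) := by
  have hc : Continuous (fun y : Kb q R => -y) := by fun_prop
  refine ⟨hc.measurable, ?_⟩
  ext s hs
  rw [Measure.map_apply hc.measurable hs]
  unfold muQ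
  rw [(emb q R).comap_apply, (emb q R).comap_apply]
  have h : Subtype.val '' ((fun y : Kb q R => -y) ⁻¹' s) =
      (fun y : En q => -y) ⁻¹' (Subtype.val '' s) := by
    ext z
    constructor
    · rintro ⟨y, hy, rfl⟩
      exact ⟨-y, hy, rfl⟩
    · rintro ⟨y, hy, hyz⟩
      refine ⟨-y, ?_, ?_⟩
      · show - -y ∈ s
        rw [neg_neg]; exact hy
      · show -(y : En q) = z
        rw [hyz]
        exact neg_neg z
  rw [h]
  exact (Measure.measurePreserving_neg (volume : Measure (En q))).measure_preimage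
    ((emb q R).measurableSet_image.2 hs).nullMeasurableSet

lemma intneg (q : ℕ) (R : ℝ) (F : Kb q R → ℝ) :
    ∫ y, F (-y) ∂(muQ q R) = ∫ y, F y ∂(muQ q R) := by
  have h := (mpneg q R).integral_comp (MeasurableEquiv.neg (Kb q R)).measurableEmbedding F
  exact h

section
variable {q : ℕ} {R : ℝ}

lemma intK (hF : HHFacts) {E : ℝ} (hE : 0 < E) (x : En q) :
    Integrable (fun y : Kb q R => HH q 0 E (x - y)) (muQ q R) ∧
      ∫ y : Kb q R, HH q 0 E (x - y) ∂(muQ q R) ≤ (E ^ (0 + 1))⁻¹ := by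
  obtain ⟨h0, hm, hi, hv, -⟩ := (hF q 0).1 E hE
  have h1 : Integrable (fun y : En q => HH q 0 E (x - y)) := hi.comp_sub_left x
  have h2 : Integrable (fun y : En q => HH q 0 E (x - y)) ((muQ q R).map Subtype.val) := by
    rw [mapμ]; exact h1.integrableOn
  refine ⟨((emb q R).integrable_map_iff).1 h2, ?_⟩
  have h3 : ∫ y : Kb q R, HH q 0 E (x - y) ∂(muQ q R) = ∫ y in Kb q R, HH q 0 E (x - y) := by
    rw [← mapμ, (emb q R).integral_map]
  rw [h3, ← hv, ← integral_sub_left_eq_self (fun y => HH q 0 E y) volume x]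
  exact setIntegral_le_integral h1 (ae_of_all _ fun y => h0 _)

lemma measK (hF : HHFacts) {E : ℝ} (hE : 0 < E) :
    Measurable (fun p : Kb q R × Kb q R => HH q 0 E ((p.1 : En q) - p.2)) := by
  obtain ⟨h0, hm, hi, hv, -⟩ := (hF q 0).1 E hE
  exact hm.comp (by fun_prop)

lemma intKK (hF : HHFacts) {E : ℝ} (hE : 0 < E) :
    Integrable (fun p : Kb q R × Kb q R => HH q 0 E ((p.1 : En q) - p.2))
      ((muQ q R).prod (muQ q R)) := by
  haveI := fin q R
  obtain ⟨h0, hm, hi, hv, -⟩ := (hF q 0).1 E hE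
  rw [integrable_prod_iff (measK hF hE).aestronglyMeasurable]
  refine ⟨ae_of_all _ fun x => (intK hF hE (x : En q)).1, ?_⟩
  refine Integrable.of_bound (C := (E ^ (0 + 1))⁻¹) ?_ (ae_of_all _ fun x => ?_)
  · exact (measK hF hE).aestronglyMeasurable.norm.integral_prod_right'
  · have h1 : ∀ y : Kb q R, ‖HH q 0 E ((x : En q) - y)‖ = HH q 0 E ((x : En q) - y) :=
      fun y => by rw [Real.norm_eq_abs, abs_of_nonneg (h0 _)]
    simp_rw [h1]
    rw [Real.norm_eq_abs, abs_of_nonneg (integral_nonneg fun y => h0 _)]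
    exact (intK hF hE (x : En q)).2

variable {V : En q → ℝ} {M : ℝ}

lemma measV (hV : Pot q V R M) : Measurable (fun y : Kb q R => V y) :=
  hV.meas.comp measurable_subtype_coe

/-- bounded measurable functions are integrable -/
lemma intB {F : Kb q R → ℝ} (hm : Measurable F) {B : ℝ} (hB : ∀ x, |F x| ≤ B) :
    Integrable F (muQ q R) := by
  haveI := fin q R
  exact Integrable.of_bound hm.aestronglyMeasurable B (ae_of_all _ fun x => hB x)

lemma cbd (u : C(Kb q R, ℝ)) (x : Kb q R) : |u x| ≤ ‖u‖ := by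
  have := u.norm_coe_le_norm x
  simpa using this

lemma intV3 (hV : Pot q V R M) (u v : C(Kb q R, ℝ)) :
    Integrable (fun x : Kb q R => V x * u x * v x) (muQ q R) := by
  refine intB (((measV hV).mul u.continuous.measurable).mul v.continuous.measurable)
    (B := M * ‖u‖ * ‖v‖) fun x => ?_
  have hM : 0 ≤ M := (abs_nonneg _).trans (hV.bdd 0)
  rw [abs_mul, abs_mul]
  have h1 := hV.bdd x
  have h2 := cbd u x
  have h3 := cbd v x
  gcongr

lemma intKV (hF : HHFacts) (hV : Pot q V R M) {E : ℝ} (hE : 0 < E) (x : En q)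
    (u : C(Kb q R, ℝ)) :
    Integrable (fun y : Kb q R => HH q 0 E (x - y) * V y * u y) (muQ q R) := by
  have hM : 0 ≤ M := (abs_nonneg _).trans (hV.bdd 0)
  have h1 := (intK (R := R) hF hE x).1
  have h2 := h1.mul_bdd (c := M * ‖u‖) (g := fun y : Kb q R => V y * u y)
    (((measV hV).mul u.continuous.measurable).aestronglyMeasurable)
    (ae_of_all _ fun y => by
      have h1 := hV.bdd y
      have h2 := cbd u y
      rw [Real.norm_eq_abs, abs_mul]
      gcongr)
  refine h2.congr (ae_of_all _ fun y => ?_)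
  simp only []
  ring

/-- the symmetric double integral -/
lemma dbl (hF : HHFacts) (hV : Pot q V R M) {E : ℝ} (hE : 0 < E) (u v : C(Kb q R, ℝ)) :
    ∫ x : Kb q R, V x * v x * ∫ y : Kb q R, HH q 0 E ((x : En q) - y) * V y * u y
        ∂(muQ q R) ∂(muQ q R) =
      ∫ x : Kb q R, V x * u x * ∫ y : Kb q R, HH q 0 E ((x : En q) - y) * V y * v y
        ∂(muQ q R) ∂(muQ q R) := by
  haveI := fin q R
  have hM : 0 ≤ M := (abs_nonneg _).trans (hV.bdd 0)
  have hint : Integrable (Function.uncurry fun x y : Kb q R =>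
      V x * v x * (HH q 0 E ((x : En q) - y) * V y * u y)) ((muQ q R).prod (muQ q R)) := by
    have h2 := (intKK (R := R) hF hE).mul_bdd (c := (M * ‖v‖) * (M * ‖u‖))
      (g := fun p : Kb q R × Kb q R => (V p.1 * v p.1) * (V p.2 * u p.2))
      ((((measV hV).comp measurable_fst).mul (v.continuous.measurable.comp measurable_fst)).mul
        (((measV hV).comp measurable_snd).mul
          (u.continuous.measurable.comp measurable_snd))).aestronglyMeasurable
      (ae_of_all _ fun p => by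
        have h1 := hV.bdd p.1
        have h2 := cbd v p.1
        have h3 := hV.bdd p.2
        have h4 := cbd u p.2
        rw [Real.norm_eq_abs, abs_mul, abs_mul, abs_mul]
        gcongr)
    refine h2.congr (ae_of_all _ fun p => ?_)
    simp only [Function.uncurry]
    ring
  have h1 : ∀ x : Kb q R, V x * v x * ∫ y : Kb q R, HH q 0 E ((x : En q) - y) * V y * u y
      ∂(muQ q R) = ∫ y : Kb q R, V x * v x * (HH q 0 E ((x : En q) - y) * V y * u y)
      ∂(muQ q R) := fun x => (integral_const_mul _ _).symm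
  simp_rw [h1]
  rw [integral_integral_swap hint]
  refine integral_congr_ae (ae_of_all _ fun y => ?_)
  simp only []
  rw [← integral_const_mul]
  refine integral_congr_ae (ae_of_all _ fun x => ?_)
  simp only []
  rw [HH_sub_comm q 0 E (x : En q) y]
  ring

/-- the exponential on the ball -/
noncomputable def exc (t : ℝ) (w : Sp q) : C(Kb q R, ℝ) :=
  ⟨fun x => ex t w x, by unfold ex; fun_prop⟩

lemma aa_eq (hF : HHFacts) (hV : Pot q V R M) (P : Pack q V R) {t : ℝ} (ht : P.t0 ≤ t)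
    (w w' : Sp q) :
    aa P t w w' = ∫ x : Kb q R, V x * P.g t w x * P.g t w' x ∂(muQ q R) +
      ∫ x : Kb q R, V x * P.g t w' x *
        ∫ y : Kb q R, HH q 0 (t ^ 2) ((x : En q) - y) * V y * P.g t w y ∂(muQ q R)
        ∂(muQ q R) := by
  have h1 : ∀ x : Kb q R, V x * P.g t w' x *
      ∫ y : Kb q R, HH q 0 (t ^ 2) ((x : En q) - y) * V y * P.g t w y ∂(muQ q R) =
      V x * exc t w x * P.g t w' x - V x * P.g t w x * P.g t w' x := by
    intro x
    have h := P.eqn t ht w x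
    have h2 : ∫ y : Kb q R, HH q 0 (t ^ 2) ((x : En q) - y) * V y * P.g t w y ∂(muQ q R) =
        ex t w x - P.g t w x := by linarith
    rw [h2]
    show _ = V x * ex t w x * _ - _
    ring
  simp_rw [h1]
  rw [integral_sub (intV3 hV _ _) (intV3 hV _ _)]
  unfold aa
  show _ = _ + (∫ x : Kb q R, V x * ex t w x * P.g t w' x ∂(muQ q R) - _)
  ring

lemma aa_symm (hF : HHFacts) (hV : Pot q V R M) (P : Pack q V R) {t : ℝ} (ht : P.t0 ≤ t)
    (w w' : Sp q) : aa P t w w' = aa P t w' w := by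
  have hE : 0 < t ^ 2 := by
    have := P.t0_ge
    have : 0 < t := by linarith
    positivity
  rw [aa_eq hF hV P ht, aa_eq hF hV P ht, dbl hF hV hE]
  congr 1
  refine integral_congr_ae (ae_of_all _ fun x => ?_)
  simp only []
  ring

/-- composition with `x ↦ -x` -/
noncomputable def ng (u : C(Kb q R, ℝ)) : C(Kb q R, ℝ) := ⟨fun x => u (-x), by fun_prop⟩

lemma g_neg (hF : HHFacts) (hV : Pot q V R M) (P : Pack q V R) {t : ℝ} (ht : P.t0 ≤ t)
    (hev : ∀ x, V (-x) = V x) (w : Sp q) : P.g t (-w) = ng (P.g t w) := by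
  have hE : 0 < t ^ 2 := by
    have := P.t0_ge
    have : 0 < t := by linarith
    positivity
  have h1 : ∀ x : Kb q R, ng (P.g t w) x +
      ∫ y : Kb q R, HH q 0 (t ^ 2) ((x : En q) - y) * V y * ng (P.g t w) y ∂(muQ q R) =
      ex t (-w) x := by
    intro x
    have h := P.eqn t ht w (-x)
    have h2 : ex t (-w) x = ex t w ((-x : Kb q R) : En q) := by
      unfold ex
      simp [inner_neg_left, inner_neg_right]
    rw [h2, ← h]
    show P.g t w (-x) + _ = _
    congr 1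
    rw [← intneg q R (fun y : Kb q R => HH q 0 (t ^ 2) (((-x : Kb q R) : En q) - y) * V y *
      P.g t w y)]
    refine integral_congr_ae (ae_of_all _ fun y => ?_)
    simp only []
    have h3 : (((-x : Kb q R) : En q) - ((-y : Kb q R) : En q)) = -((x : En q) - y) := by
      show -(x : En q) - -(y : En q) = _
      abel
    have h4 : V ((-y : Kb q R) : En q) = V y := hev y
    rw [h3, HH_neg, h4]
    rfl
  have h2 := P.uniq t ht (P.g t (-w) - ng (P.g t w)) (fun x => by
    have h3 := P.eqn t ht (-w) x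
    have h4 := h1 x
    have h5 : ∫ y : Kb q R, HH q 0 (t ^ 2) ((x : En q) - y) * V y *
        (P.g t (-w) - ng (P.g t w)) y ∂(muQ q R) =
        ∫ y : Kb q R, HH q 0 (t ^ 2) ((x : En q) - y) * V y * P.g t (-w) y ∂(muQ q R) -
        ∫ y : Kb q R, HH q 0 (t ^ 2) ((x : En q) - y) * V y * ng (P.g t w) y ∂(muQ q R) := by
      rw [← integral_sub (intKV hF hV hE _ _) (intKV hF hV hE _ _)]
      refine integral_congr_ae (ae_of_all _ fun y => ?_)
      simp only [ContinuousMap.sub_apply]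
      ring
    rw [h5]
    simp only [ContinuousMap.sub_apply]
    linarith)
  exact sub_eq_zero.1 h2

lemma aa_neg (hF : HHFacts) (hV : Pot q V R M) (P : Pack q V R) {t : ℝ} (ht : P.t0 ≤ t)
    (hev : ∀ x, V (-x) = V x) (w w' : Sp q) : aa P t (-w) (-w') = aa P t w w' := by
  unfold aa
  rw [g_neg hF hV P ht hev, ← intneg q R (fun x : Kb q R => V x * ex t w x * P.g t w' x)]
  refine integral_congr_ae (ae_of_all _ fun x => ?_)
  simp only []
  have h4 : V ((-x : Kb q R) : En q) = V x := hev x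
  have h2 : ex t (-w) x = ex t w ((-x : Kb q R) : En q) := by
    unfold ex
    simp [inner_neg_left, inner_neg_right]
  rw [h4, h2]
  rfl

end

end Sym

theorem I_Sym (hF : HHFacts) : StSym := by
  intro q hq V R M hV P t ht
  refine ⟨fun w w' => Sym.aa_symm hF hV P ht w w', fun hev =>
    ⟨fun w w' => Sym.aa_neg hF hV P ht hev w w', fun w w' => ?_⟩⟩
  unfold kk
  congr 1
  rw [Sym.aa_symm hF hV P ht w (-w'), ← Sym.aa_neg hF hV P ht hev (-w') w, neg_neg]

end Pool.Agent.Work.MP_f2af60_mp.Ev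

end

section

/-!
# MP_f2af60_mp, project Ev: translations
-/

set_option autoImplicit false

namespace Pool.Agent.Work.MP_f2af60_mp.Ev

open MeasureTheory Metric Filter Topology Set

theorem I_Trans : StTrans := by
  rintro q V c l ⟨u, hu, hu0, heq⟩
  refine ⟨fun x => u (x - c), hu.comp (continuous_id.sub continuous_const), ?_, ?_⟩
  · intro h
    apply hu0
    ext x
    have h1 := congrFun h (x + c)
    simpa using h1
  · intro x
    change u (x - c) = _
    rw [heq (x - c), ← integral_sub_right_eq_self _ c]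
    congr 1
    refine integral_congr_ae (Eventually.of_forall fun y => ?_)
    change GG q l (x - c - (y - c)) * (V (y - c + c) : ℂ) * u (y - c) = _
    rw [sub_add_cancel, sub_sub_sub_cancel_right]

end Pool.Agent.Work.MP_f2af60_mp.Ev

end

section

/-! MP_f2af60_mp, Ev, item Win: geometry of the window. -/

set_option autoImplicit false

namespace Pool.Agent.Work.MP_f2af60_mp.Ev

open MeasureTheory Metric Filter Topology Set

namespace Win

theorem exists_orth (q : ℕ) (e p : En q) : ∃ u : En q, u ≠ 0 ∧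
    inner ℝ u e = 0 ∧ inner ℝ u p = 0 := by
  let K : Submodule ℝ (En q) := Submodule.span ℝ {e, p}
  have h1 : Module.finrank ℝ K ≤ 2 := by
    have h := finrank_span_le_card (R := ℝ) ({e, p} : Set (En q))
    refine h.trans ?_
    simp only [toFinset_insert, toFinset_singleton]
    exact Finset.card_le_two
  have h2 := K.finrank_add_finrank_orthogonal
  have h3 : Module.finrank ℝ (En q) = 2 * q + 3 := by simp
  have h4 : Kᗮ ≠ ⊥ := by
    intro h
    rw [h, finrank_bot, h3] at h2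
    omega
  obtain ⟨u, hu, hu0⟩ := Submodule.exists_mem_ne_zero_of_ne_bot h4
  have he : e ∈ K := Submodule.subset_span (by simp)
  have hp : p ∈ K := Submodule.subset_span (by simp)
  refine ⟨u, hu0, ?_, ?_⟩
  · rw [real_inner_comm]; exact hu e he
  · rw [real_inner_comm]; exact hu p hp

end Win

theorem I_Win : StWin := by
  intro q e p _
  obtain ⟨u, hu0, hue, hup⟩ := Win.exists_orth q e p
  have hn : ‖u‖ ≠ 0 := norm_ne_zero_iff.2 hu0
  have hw : ‖(‖u‖)⁻¹ • u‖ = 1 := by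
    rw [norm_smul, norm_inv, norm_norm, inv_mul_cancel₀ hn]
  refine ⟨⟨(‖u‖)⁻¹ • u, by rw [mem_sphere_zero_iff_norm]; exact hw⟩, ?_, ?_, ?_⟩
  · rw [real_inner_smul_left, hue, mul_zero]
  · rw [real_inner_smul_left, hup, mul_zero]
  · intro v hv t ht
    have hv' : inner ℝ ((‖u‖)⁻¹ • u) v = 0 := hv
    show ∃ w : Sp q, ‖t • (w : En q) - (t • ((‖u‖)⁻¹ • u) + v)‖ ≤ ‖v‖ ^ 2 / (2 * t)
    set w0 : En q := (‖u‖)⁻¹ • u with hw0
    have hsq : ‖t • w0 + v‖ ^ 2 = t ^ 2 + ‖v‖ ^ 2 := by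
      rw [norm_add_sq_real, real_inner_smul_left, hv', norm_smul, hw, Real.norm_eq_abs, abs_of_pos ht]
      ring
    set N : ℝ := ‖t • w0 + v‖ with hN
    have hN0 : 0 ≤ N := norm_nonneg _
    have hNt : t ≤ N := by
      apply le_of_sq_le_sq _ hN0
      rw [hsq]
      nlinarith [sq_nonneg ‖v‖]
    have hNpos : 0 < N := lt_of_lt_of_le ht hNt
    refine ⟨⟨N⁻¹ • (t • w0 + v), ?_⟩, ?_⟩
    · rw [mem_sphere_zero_iff_norm, norm_smul, norm_inv, Real.norm_eq_abs, abs_of_pos hNpos, ← hN,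
        inv_mul_cancel₀ hNpos.ne']
    · show ‖t • (N⁻¹ • (t • w0 + v)) - (t • w0 + v)‖ ≤ ‖v‖ ^ 2 / (2 * t)
      have h1 : t • (N⁻¹ • (t • w0 + v)) - (t • w0 + v) = (t * N⁻¹ - 1) • (t • w0 + v) := by
        rw [sub_smul, one_smul, smul_smul]
      rw [h1, norm_smul, ← hN, Real.norm_eq_abs]
      have h2 : |t * N⁻¹ - 1| = 1 - t * N⁻¹ := by
        rw [abs_of_nonpos, neg_sub]
        have : t * N⁻¹ ≤ 1 := by
          rw [← div_eq_mul_inv, div_le_one hNpos]
          exact hNt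
        linarith
      rw [h2, sub_mul, one_mul, mul_assoc, inv_mul_cancel₀ hNpos.ne', mul_one, le_div_iff₀ (by positivity)]
      nlinarith [sq_nonneg (N - t)]

end Pool.Agent.Work.MP_f2af60_mp.Ev

end

section

/-!
# MP_f2af60_mp, project Ev, item Neg, part 2: the form for two groups of functions, caps, the
comparison of exponentials
-/

set_option autoImplicit false

namespace Pool.Agent.Work.MP_f2af60_mp.Ev

open MeasureTheory Metric Filter Topology Set

namespace Neg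

/-- the form of the combinations `F_i - s θ ∑_j X_ij G_j` -/
lemma form_le {X : Type*} [MeasurableSpace X] (μ : Measure X) [IsFiniteMeasure μ]
    {K : X → X → ℝ} (hKm : Measurable (Function.uncurry K)) {B : ℝ} (hKb : ∀ w w', |K w w'| ≤ B)
    {m : ℕ} (hm : 1 ≤ m) (F G : Fin m → X → ℝ) (hF : ∀ i, BM (F i)) (hG : ∀ i, BM (G i))
    (hF0 : ∀ i w, 0 ≤ F i w) (hG0 : ∀ i w, 0 ≤ G i w)
    (hF1 : ∀ i, ∫ w, F i w ∂μ = 1) (hG1 : ∀ i, ∫ w, G i w ∂μ = 1) (Q : ℝ) (hQ0 : 0 ≤ Q)
    (hFQ : ∀ i, ∫ w, F i w ^ 2 ∂μ ≤ Q) (hGQ : ∀ i, ∫ w, G i w ^ 2 ∂μ ≤ Q)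
    (A : Fin m → Fin m → ℝ) (s κ C1 ε L : ℝ)
    (hs : s * s = 1) (hκ : 0 ≤ κ) (hC1 : 0 ≤ C1) (hε : 0 ≤ ε) (hL : 0 < L)
    (hA : ∀ i j, |A i j| ≤ L)
    (hFF : ∀ i i' w w', F i w ≠ 0 → F i' w' ≠ 0 → |K w w'| ≤ κ * C1)
    (hGG : ∀ i i' w w', G i w ≠ 0 → G i' w' ≠ 0 → |K w w'| ≤ κ * C1)
    (hFG : ∀ i j w w', F i w ≠ 0 → G j w' ≠ 0 → |K w w' - s * κ * A i j| ≤ κ * ε)
    (hGF : ∀ i j w w', G j w ≠ 0 → F i w' ≠ 0 → |K w w' - s * κ * A i j| ≤ κ * ε)
    (f : Fin m → X → ℝ)
    (hf : ∀ i w, f i w = F i w - s * (1 / (m * L)) * ∑ j, A i j * G j w) (x : Fin m → ℝ) :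
    ∫ w, (∑ i, x i * f i w) ^ 2 ∂μ +
      ∫ w, (∑ i, x i * f i w) * ∫ w', K w w' * (∑ i, x i * f i w') ∂μ ∂μ ≤
      (4 * m * Q + 2 * m * κ * (C1 + ε)) * ∑ i, x i ^ 2 -
        2 * κ * (1 / (m * L)) * ∑ j, (∑ i, A i j * x i) ^ 2 := by
  set y : Fin m → ℝ := fun j => -(s * (1 / (m * L)) * ∑ i, A i j * x i) with hy
  set H : Fin m ⊕ Fin m → X → ℝ := Sum.elim F G with hH
  set c : Fin m ⊕ Fin m → ℝ := Sum.elim x y with hc
  have hHB : ∀ a, BM (H a) := by
    rintro (i | i)
    · exact hF i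
    · exact hG i
  have h1 : ∀ w, ∑ i, x i * f i w = ∑ a, c a * H a w := by
    intro w
    rw [Fintype.sum_sum_type]
    simp only [hc, hH, Sum.elim_inl, Sum.elim_inr]
    have h2 : ∑ j, y j * G j w = -(s * (1 / (m * L)) * ∑ i, x i * ∑ j, A i j * G j w) := by
      simp only [hy, Finset.mul_sum, Finset.sum_mul, ← Finset.sum_neg_distrib]
      rw [Finset.sum_comm]
      exact Finset.sum_congr rfl fun i _ => Finset.sum_congr rfl fun j _ => by ring
    rw [h2]
    simp only [hf, mul_sub, Finset.sum_sub_distrib]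
    rw [sub_eq_add_neg]
    congr 2
    rw [Finset.mul_sum]
    exact Finset.sum_congr rfl fun i _ => by ring
  simp only [h1]
  have hQ : ∀ a, ∫ w, H a w ^ 2 ∂μ ≤ Q := by
    rintro (i | i)
    · exact hFQ i
    · exact hGQ i
  have e1 := sq_le μ H hHB c Q hQ
  rw [expand μ hKm hKb H hHB c]
  have hcard : (Fintype.card (Fin m ⊕ Fin m) : ℝ) = 2 * m := by
    simp [Fintype.card_sum]; ring
  rw [hcard, Fintype.sum_sum_type] at e1
  simp only [hc, Sum.elim_inl, Sum.elim_inr] at e1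
  have hP : ∀ i j, |∫ w, F i w * ∫ w', K w w' * F j w' ∂μ ∂μ| ≤ κ * C1 := fun i j => by
    simpa using avg μ hKm hKb (hF i) (hF j) (hF0 i) (hF0 j) (hF1 i) (hF1 j) (κ := 0)
      fun w w' h2 h3 => by simpa using hFF i j w w' h2 h3
  have hN : ∀ i j, |∫ w, G i w * ∫ w', K w w' * G j w' ∂μ ∂μ| ≤ κ * C1 := fun i j => by
    simpa using avg μ hKm hKb (hG i) (hG j) (hG0 i) (hG0 j) (hG1 i) (hG1 j) (κ := 0)
      fun w w' h2 h3 => by simpa using hGG i j w w' h2 h3
  have hU : ∀ i j, |∫ w, F i w * ∫ w', K w w' * G j w' ∂μ ∂μ - s * κ * A i j| ≤ κ * ε :=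
    fun i j => avg μ hKm hKb (hF i) (hG j) (hF0 i) (hG0 j) (hF1 i) (hG1 j)
      fun w w' h2 h3 => hFG i j w w' h2 h3
  have hW : ∀ i j, |∫ w, G j w * ∫ w', K w w' * F i w' ∂μ ∂μ - s * κ * A i j| ≤ κ * ε :=
    fun i j => avg μ hKm hKb (hG j) (hF i) (hG0 j) (hF0 i) (hG1 j) (hF1 i)
      fun w w' h2 h3 => hGF i j w w' h2 h3
  obtain ⟨e2, e3⟩ := alg hm A (fun i j => ∫ w, F i w * ∫ w', K w w' * F j w' ∂μ ∂μ)
    (fun i j => ∫ w, G i w * ∫ w', K w w' * G j w' ∂μ ∂μ)
    (fun i j => ∫ w, F i w * ∫ w', K w w' * G j w' ∂μ ∂μ)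
    (fun j i => ∫ w, G j w * ∫ w', K w w' * F i w' ∂μ ∂μ) s κ C1 ε L hs hκ hC1 hε hL hA hP hN
    hU hW x y fun j => rfl
  have e4 : ∑ a, ∑ b, c a * c b * ∫ w, H a w * ∫ w', K w w' * H b w' ∂μ ∂μ =
      (∑ i, ∑ j, x i * x j * ∫ w, F i w * ∫ w', K w w' * F j w' ∂μ ∂μ) +
      (∑ i, ∑ j, x i * y j * ∫ w, F i w * ∫ w', K w w' * G j w' ∂μ ∂μ) +
      ((∑ i, ∑ j, y i * x j * ∫ w, G i w * ∫ w', K w w' * F j w' ∂μ ∂μ) +
        ∑ i, ∑ j, y i * y j * ∫ w, G i w * ∫ w', K w w' * G j w' ∂μ ∂μ) := by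
    rw [Fintype.sum_sum_type]
    simp only [Fintype.sum_sum_type, hc, hH, Sum.elim_inl, Sum.elim_inr, Finset.sum_add_distrib]
  rw [e4]
  have hm0 : (0 : ℝ) ≤ m := Nat.cast_nonneg m
  have e5 := mul_le_mul_of_nonneg_left e2 (mul_nonneg (mul_nonneg zero_le_two hm0) hQ0)
  linarith

/-! ## Caps -/

/-- normalised indicator of a cap -/
noncomputable def capf {q : ℕ} (w0 : Sp q) (r : ℝ) : Sp q → ℝ :=
  (ball w0 r).indicator fun _ => ((sg q).real (ball w0 r))⁻¹

lemma capf_BM {q : ℕ} (w0 : Sp q) (r : ℝ) : BM (capf w0 r) := by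
  refine ⟨measurable_const.indicator measurableSet_ball, |((sg q).real (ball w0 r))⁻¹|, fun w => ?_⟩
  unfold capf
  by_cases h : w ∈ ball w0 r
  · rw [indicator_of_mem h]
  · rw [indicator_of_notMem h, abs_zero]; exact abs_nonneg _

lemma capf_nonneg {q : ℕ} (w0 : Sp q) (r : ℝ) (w : Sp q) : 0 ≤ capf w0 r w :=
  indicator_nonneg (fun _ _ => inv_nonneg.2 measureReal_nonneg) w

lemma capf_mem {q : ℕ} {w0 : Sp q} {r : ℝ} {w : Sp q} (h : capf w0 r w ≠ 0) : w ∈ ball w0 r := by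
  by_contra h1
  exact h (indicator_of_notMem h1 _)

lemma capf_int {q : ℕ} (w0 : Sp q) (r : ℝ) (h : 0 < (sg q).real (ball w0 r)) :
    ∫ w, capf w0 r w ∂(sg q) = 1 := by
  unfold capf
  rw [integral_indicator measurableSet_ball, setIntegral_const, smul_eq_mul,
    mul_inv_cancel₀ h.ne']

lemma capf_sq {q : ℕ} (w0 : Sp q) (r : ℝ) (h : 0 < (sg q).real (ball w0 r)) :
    ∫ w, capf w0 r w ^ 2 ∂(sg q) = ((sg q).real (ball w0 r))⁻¹ := by
  have h1 : (fun w => capf w0 r w ^ 2) = (ball w0 r).indicator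
      fun _ => ((sg q).real (ball w0 r))⁻¹ ^ 2 := by
    funext w
    unfold capf
    by_cases h2 : w ∈ ball w0 r
    · rw [indicator_of_mem h2, indicator_of_mem h2]
    · rw [indicator_of_notMem h2, indicator_of_notMem h2]; simp
  rw [h1, integral_indicator measurableSet_ball, setIntegral_const, smul_eq_mul]
  field_simp

/-! ## Comparison -/

/-- polynomials against exponentials -/
lemma ev_poly (a b c B k : ℝ) (hc : 0 < c) (hk : 0 < k) :
    ∀ᶠ z in atTop, a + b * (3 + (z + B) ^ 2) < c * Real.exp (k * z) := by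
  have h0 : Tendsto (fun z : ℝ => k * z) atTop atTop := tendsto_id.const_mul_atTop hk
  have h1 : Tendsto (fun z : ℝ => (k * z) ^ 2 * Real.exp (-(k * z))) atTop (𝓝 0) :=
    (Real.tendsto_pow_mul_exp_neg_atTop_nhds_zero 2).comp h0
  have h2 : Tendsto (fun z : ℝ => (k * z) ^ 1 * Real.exp (-(k * z))) atTop (𝓝 0) :=
    (Real.tendsto_pow_mul_exp_neg_atTop_nhds_zero 1).comp h0
  have h3 : Tendsto (fun z : ℝ => (k * z) ^ 0 * Real.exp (-(k * z))) atTop (𝓝 0) :=
    (Real.tendsto_pow_mul_exp_neg_atTop_nhds_zero 0).comp h0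
  have h4 : Tendsto (fun z : ℝ => (a + b * (3 + (z + B) ^ 2)) * Real.exp (-(k * z))) atTop
      (𝓝 0) := by
    have h5 := ((h1.const_mul (b / k ^ 2)).add (h2.const_mul (2 * b * B / k))).add
      (h3.const_mul (a + b * (3 + B ^ 2)))
    simp only [mul_zero, add_zero] at h5
    refine h5.congr fun z => ?_
    field_simp
    ring
  have h6 := h4.eventually (gt_mem_nhds hc)
  filter_upwards [h6] with z hz
  have h7 : Real.exp (-(k * z)) * Real.exp (k * z) = 1 := by
    rw [← Real.exp_add]; simp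
  have h8 := mul_lt_mul_of_pos_right hz (Real.exp_pos (k * z))
  rwa [mul_assoc, h7, mul_one] at h8

end Neg

end Pool.Agent.Work.MP_f2af60_mp.Ev

end

section

/-!
# MP_f2af60_mp, project Ev, item Neg, part 3: final comparison and geometry of the window
-/

set_option autoImplicit false

namespace Pool.Agent.Work.MP_f2af60_mp.Ev

open MeasureTheory Metric Filter Topology Set

namespace Neg

/-- the final comparison -/
lemma final (q m : ℕ) (hm : 1 ≤ m) {t z K h cc D C1 Ck C2 Cm B d κ ε L Q : ℝ}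
    (hcc : 0 < cc) (hD : 0 < D) (hC1 : 0 ≤ C1) (hC2 : 0 < C2) (hCm : 0 < Cm)
    (ht : 1 ≤ t) (hK : 0 < K) (hte : t = Real.exp (2 * z / K)) (hKh : K * h = 4 * q + 10)
    (hκ : κ = t ^ (2 * q + 1) / D)
    (hε : ε = (Ck / t + Ck * ((2 + (z + B) ^ 2) / t)) * (C2 * Real.exp (2 * z * h)))
    (hL : L = C2 * Real.exp (2 * z * h)) (hQ : Q = cc⁻¹ * t ^ (4 * q + 6))
    (hd : Real.exp (2 * z * (m * (h - 1 / (8 * m * K)))) ≤ |d|)
    (hc : (4 * m / cc + 2 * m / D * C1) + (2 * m / D * (Ck * C2)) * (3 + (z + B) ^ 2) <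
      2 / (D * m * Cm * C2 ^ (2 * m - 1)) * Real.exp (3 / 2 / K * z)) :
    4 * m * Q + 2 * m * κ * (C1 + ε) < 2 * κ * (1 / (m * L)) * (d ^ 2 / (Cm * L ^ (2 * m - 2))) := by
  have hm0 : (0 : ℝ) < m := by exact_mod_cast hm
  have ht0 : 0 < t := lt_of_lt_of_le one_pos ht
  set g : ℝ := Real.exp (3 / 2 / K * z) with hg
  have hg0 : 0 < g := Real.exp_pos _
  have hτ : Real.exp (2 * z * h) = t ^ (4 * q + 10) := by
    rw [hte, ← Real.exp_nat_mul]
    congr 1
    push_cast
    rw [← hKh]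
    field_simp
  have hexp : Real.exp (2 * z * (m * (h - 1 / (8 * m * K)))) ^ 2 =
      (t ^ (4 * q + 10)) ^ (2 * m) * (g / t) := by
    rw [← hτ, hg, hte, ← Real.exp_nat_mul, ← Real.exp_nat_mul, ← Real.exp_sub, ← Real.exp_add]
    congr 1
    push_cast
    field_simp
    ring
  have hd2 : (t ^ (4 * q + 10)) ^ (2 * m) * (g / t) ≤ d ^ 2 := by
    rw [← hexp, ← sq_abs d]
    exact pow_le_pow_left₀ (Real.exp_pos _).le hd 2
  have hL0 : 0 < L := by rw [hL]; exact mul_pos hC2 (Real.exp_pos _)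
  have hκ0 : 0 < κ := by rw [hκ]; positivity
  -- the right hand side
  have hR : 2 / (D * m * Cm * C2 ^ (2 * m - 1)) * g * t ^ (6 * q + 10) ≤
      2 * κ * (1 / (m * L)) * (d ^ 2 / (Cm * L ^ (2 * m - 2))) := by
    have h1 : 2 * κ * (1 / (m * L)) *
        (((t ^ (4 * q + 10)) ^ (2 * m) * (g / t)) / (Cm * L ^ (2 * m - 2))) =
        2 / (D * m * Cm * C2 ^ (2 * m - 1)) * g * t ^ (6 * q + 10) := by
      obtain ⟨n, rfl⟩ : ∃ n, m = n + 1 := ⟨m - 1, by omega⟩
      have e1 : 2 * (n + 1) - 2 = 2 * n := by omega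
      have e2 : 2 * (n + 1) - 1 = 2 * n + 1 := by omega
      rw [e1, e2, hL, hτ, hκ]
      have e3 : t ^ (6 * q + 10) * t = t ^ (2 * q + 1) * t ^ (4 * q + 10) := by
        rw [← pow_succ, ← pow_add]; congr 1; omega
      have e4 : (t ^ (4 * q + 10)) ^ (2 * (n + 1)) =
          (t ^ (4 * q + 10)) ^ (2 * n) * t ^ (4 * q + 10) * t ^ (4 * q + 10) := by
        ring
      have e5 : (C2 * t ^ (4 * q + 10)) ^ (2 * n) = C2 ^ (2 * n) * (t ^ (4 * q + 10)) ^ (2 * n) :=
        mul_pow _ _ _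
      rw [e4, e5]
      have hp : (t ^ (4 * q + 10)) ^ (2 * n) ≠ 0 := by positivity
      have hp2 : t ^ (4 * q + 10) ≠ 0 := by positivity
      have hC2n : C2 ^ (2 * n) ≠ 0 := by positivity
      generalize (t ^ (4 * q + 10)) ^ (2 * n) = Y at *
      generalize hZ : t ^ (4 * q + 10) = Z at *
      rw [pow_succ C2 (2 * n)]
      generalize C2 ^ (2 * n) = C2n at *
      have hDn : D ≠ 0 := hD.ne'
      have hC2' : C2 ≠ 0 := hC2.ne'
      have hCm' : Cm ≠ 0 := hCm.ne'
      have ht' : t ≠ 0 := ht0.ne'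
      have hn' : (((n + 1 : ℕ) : ℝ)) ≠ 0 := hm0.ne'
      generalize (((n + 1 : ℕ) : ℝ)) = N at *
      generalize ht6 : t ^ (6 * q + 10) = T6 at *
      generalize t ^ (2 * q + 1) = T2 at *
      field_simp
      linear_combination (-1 : ℝ) * e3
    rw [← h1]
    refine mul_le_mul_of_nonneg_left ?_ (by positivity)
    exact div_le_div_of_nonneg_right hd2 (by positivity)
  refine lt_of_lt_of_le ?_ hR
  have hT : 0 < t ^ (6 * q + 10) := by positivity
  have h1 : Q ≤ cc⁻¹ * t ^ (6 * q + 10) := by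
    rw [hQ]
    exact mul_le_mul_of_nonneg_left (pow_le_pow_right₀ ht (by omega)) (by positivity)
  have h2 : κ ≤ t ^ (6 * q + 10) / D := by
    rw [hκ]
    exact div_le_div_of_nonneg_right (pow_le_pow_right₀ ht (by omega)) hD.le
  have h3 : κ * ε = (Ck * C2) * (3 + (z + B) ^ 2) * t ^ (6 * q + 10) / D := by
    rw [hκ, hε, hτ]
    have e3 : t ^ (6 * q + 10) * t = t ^ (2 * q + 1) * t ^ (4 * q + 10) := by
      rw [← pow_succ, ← pow_add]; congr 1; omega
    have ht' : t ≠ 0 := ht0.ne'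
    have hDn : D ≠ 0 := hD.ne'
    generalize t ^ (6 * q + 10) = T6 at *
    generalize t ^ (2 * q + 1) = T2 at *
    generalize t ^ (4 * q + 10) = T4 at *
    field_simp
    linear_combination (-Ck * (3 + (z + B) ^ 2)) * e3
  have h4 : 4 * m * Q + 2 * m * κ * (C1 + ε) ≤
      ((4 * m / cc + 2 * m / D * C1) + (2 * m / D * (Ck * C2)) * (3 + (z + B) ^ 2)) *
        t ^ (6 * q + 10) := by
    have h5 : 4 * m * Q ≤ 4 * m / cc * t ^ (6 * q + 10) := by
      calc 4 * m * Q ≤ 4 * m * (cc⁻¹ * t ^ (6 * q + 10)) :=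
            mul_le_mul_of_nonneg_left h1 (by positivity)
        _ = _ := by ring
    have h6 : 2 * m * κ * C1 ≤ 2 * m / D * C1 * t ^ (6 * q + 10) := by
      calc 2 * m * κ * C1 = 2 * m * C1 * κ := by ring
        _ ≤ 2 * m * C1 * (t ^ (6 * q + 10) / D) := mul_le_mul_of_nonneg_left h2 (by positivity)
        _ = _ := by ring
    have h7 : 2 * m * κ * ε = (2 * m / D * (Ck * C2)) * (3 + (z + B) ^ 2) * t ^ (6 * q + 10) := by
      calc 2 * m * κ * ε = 2 * m * (κ * ε) := by ring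
        _ = _ := by rw [h3]; ring
    calc 4 * m * Q + 2 * m * κ * (C1 + ε) = 4 * m * Q + 2 * m * κ * C1 + 2 * m * κ * ε := by ring
      _ ≤ _ := by rw [h7]; linarith
  calc 4 * m * Q + 2 * m * κ * (C1 + ε) ≤ _ := h4
    _ < _ := mul_lt_mul_of_pos_right hc hT

/-- geometry of two caps in the window -/
lemma geo {E : Type*} [NormedAddCommGroup E] [NormedSpace ℝ E] {w w' a b w0 v v' : E}
    {t n : ℝ} (ht : 0 < t) (hw : ‖w - a‖ ≤ (t ^ 2)⁻¹) (hw' : ‖w' - b‖ ≤ (t ^ 2)⁻¹)
    (ha : ‖t • a - (t • w0 + v)‖ ≤ ‖v‖ ^ 2 / (2 * t))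
    (hb : ‖t • b - (t • w0 + v')‖ ≤ ‖v'‖ ^ 2 / (2 * t)) (hv : ‖v‖ ≤ n) (hv' : ‖v'‖ ≤ n) :
    ‖t • w - t • w' - (v - v')‖ ≤ (2 + n ^ 2) / t := by
  have h1 : t • w - t • w' - (v - v') =
      (t • (w - a) + (t • a - (t • w0 + v))) - (t • (w' - b) + (t • b - (t • w0 + v'))) := by
    simp only [smul_sub]; abel
  have h2 : ‖t • (w - a)‖ ≤ 1 / t := by
    rw [norm_smul, Real.norm_eq_abs, abs_of_pos ht]
    calc t * ‖w - a‖ ≤ t * (t ^ 2)⁻¹ := mul_le_mul_of_nonneg_left hw ht.le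
      _ = 1 / t := by field_simp
  have h3 : ‖t • (w' - b)‖ ≤ 1 / t := by
    rw [norm_smul, Real.norm_eq_abs, abs_of_pos ht]
    calc t * ‖w' - b‖ ≤ t * (t ^ 2)⁻¹ := mul_le_mul_of_nonneg_left hw' ht.le
      _ = 1 / t := by field_simp
  have h4 : ‖v‖ ^ 2 / (2 * t) ≤ n ^ 2 / (2 * t) :=
    div_le_div_of_nonneg_right (pow_le_pow_left₀ (norm_nonneg _) hv 2) (by positivity)
  have h5 : ‖v'‖ ^ 2 / (2 * t) ≤ n ^ 2 / (2 * t) :=
    div_le_div_of_nonneg_right (pow_le_pow_left₀ (norm_nonneg _) hv' 2) (by positivity)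
  rw [h1]
  calc _ ≤ ‖t • (w - a) + (t • a - (t • w0 + v))‖ + ‖t • (w' - b) + (t • b - (t • w0 + v'))‖ :=
        norm_sub_le _ _
    _ ≤ (‖t • (w - a)‖ + ‖t • a - (t • w0 + v)‖) +
        (‖t • (w' - b)‖ + ‖t • b - (t • w0 + v')‖) := add_le_add (norm_add_le _ _) (norm_add_le _ _)
    _ ≤ (1 / t + n ^ 2 / (2 * t)) + (1 / t + n ^ 2 / (2 * t)) := by gcongr <;> linarith
    _ = (2 + n ^ 2) / t := by field_simp; ring

end Neg

end Pool.Agent.Work.MP_f2af60_mp.Ev

end

section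

/-!
# MP_f2af60_mp, project Ev, item Neg: the quadratic form is negative on a space of dimension `m`
-/

set_option autoImplicit false

namespace Pool.Agent.Work.MP_f2af60_mp.Ev

open MeasureTheory Metric Filter Topology Set

namespace Neg

lemma ball_norm {q : ℕ} {w a : Sp q} {r : ℝ} (h : w ∈ ball a r) :
    ‖(w : En q) - (a : En q)‖ ≤ r := by
  have h1 : dist w a < r := h
  rw [Subtype.dist_eq, dist_eq_norm] at h1
  exact h1.le

lemma sgn_sq (q : ℕ) : ((-1 : ℝ) ^ q) * (-1) ^ q = 1 := by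
  rw [← pow_add, ← two_mul]; simp

lemma sgn_abs (q : ℕ) : |((-1 : ℝ) ^ q)| = 1 := by simp

end Neg

open Pool.Agent.Work.MP_f2af60_mp.Ev.Neg in
/-- 24 -/
theorem I_Neg (hS : StSym) (hKc : StKCont) (hcap : StCap) (hdir : StDir) (hgrow : StGrow)
    (hwin : StWin) (hk : StKest) (hlv : StLV) (hm : StMat) : StNeg := by
  intro q hq V R M hV hev hne P m hm1 T
  obtain ⟨e, h, hD⟩ := hdir q V R M hV hev hne
  have hm0 : (0 : ℝ) < m := by exact_mod_cast hm1
  have hh : 0 < h := hD.h_pos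
  set K : ℝ := (4 * q + 10) / h with hKdef
  have hK : 0 < K := by positivity
  have hKh : K * h = 4 * q + 10 := by rw [hKdef]; field_simp
  obtain ⟨p, α, hgr⟩ := hgrow q V R M hV e h hD m hm1 (1 / (8 * m * K)) (by positivity)
  obtain ⟨w0, hw0e, hw0p, hw⟩ := hwin q e p hD.norm_e
  obtain ⟨Ck, hCk, hkest⟩ := hk q V R M hV P
  obtain ⟨-, cc, hcc, hcap2⟩ := hcap q
  obtain ⟨Cm, hCm, hmat⟩ := hm m
  have hR := hV.hR
  -- bounds for the parameters
  set A0 : ℝ := ∑ i, |α i| with hA0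
  have hA00 : 0 ≤ A0 := Finset.sum_nonneg fun i _ => abs_nonneg _
  have hα : ∀ i, |α i| ≤ A0 := fun i =>
    Finset.single_le_sum (f := fun i => |α i|) (fun i _ => abs_nonneg _) (Finset.mem_univ i)
  have hj : ∀ j : Fin m, (0 : ℝ) ≤ ((j : ℕ) : ℝ) ∧ ((j : ℕ) : ℝ) ≤ m := fun j =>
    ⟨Nat.cast_nonneg _, by exact_mod_cast j.2.le⟩
  set A : ℝ := 2 * A0 + m with hAdef
  obtain ⟨C2, hC2, hlv2⟩ := hlv q V R M hV e h hD p A
  obtain ⟨C0, hC0, hlv0⟩ := hlv q V R M hV e h hD 0 A
  set B : ℝ := ‖p‖ + A0 + m with hB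
  set C1 : ℝ := C0 * (1 + Ck + Ck / R) with hC1def
  have hC1 : 0 ≤ C1 := by positivity
  set D : ℝ := 2 * (2 * Real.pi) ^ (2 * q + 2) with hDdef
  have hD0 : 0 < D := by positivity
  -- choice of `z`
  have ev1 := ev_poly (4 * m / cc + 2 * m / D * C1) (2 * m / D * (Ck * C2))
    (2 / (D * m * Cm * C2 ^ (2 * m - 1))) B (3 / 2 / K) (by positivity) (by positivity)
  have ev2 := ev_poly (T ⊔ P.t0) 0 1 B (2 / K) one_pos (by positivity)
  have ev3 := ev_poly 0 R 1 B (2 / K) one_pos (by positivity)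
  have ev4 : ∀ᶠ z : ℝ in atTop, 0 ≤ z := eventually_ge_atTop 0
  obtain ⟨z0, hz0⟩ := eventually_atTop.1 ((ev1.and ev2).and (ev3.and ev4))
  obtain ⟨z, hz, hdet⟩ := hgr z0
  obtain ⟨⟨hz1, hz2⟩, hz3, hz4⟩ := hz0 z hz
  set t : ℝ := Real.exp (2 * z / K) with ht
  have hte : Real.exp (2 / K * z) = t := by rw [ht]; congr 1; ring
  rw [hte, one_mul, zero_mul, add_zero] at hz2
  rw [hte, one_mul, zero_add] at hz3
  have htT : T ≤ t := le_sup_left.trans hz2.le
  have htP : P.t0 ≤ t := le_sup_right.trans hz2.le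
  have ht1 : 1 ≤ t := P.t0_ge.trans htP
  have ht0 : 0 < t := lt_of_lt_of_le one_pos ht1
  set η : ℝ := (2 + (z + B) ^ 2) / t with hη
  have hη0 : 0 ≤ η := by positivity
  have hRη : R * η ≤ 1 := by
    rw [hη, ← mul_div_assoc, div_le_one ht0]
    nlinarith [sq_nonneg (z + B)]
  -- the vectors
  set vp : Fin m → En q := fun i => p + (z + α i) • e with hvp
  set vm : Fin m → En q := fun j => -((z + ((j : ℕ) : ℝ)) • e) with hvm
  have hvpo : ∀ i, inner ℝ (w0 : En q) (vp i) = 0 := fun i => by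
    simp only [hvp]
    rw [inner_add_right, inner_smul_right, hw0e, hw0p]; ring
  have hvmo : ∀ j, inner ℝ (w0 : En q) (vm j) = 0 := fun j => by
    simp only [hvm]
    rw [inner_neg_right, inner_smul_right, hw0e]; ring
  have hB0 : 0 ≤ z + B := by positivity
  have hvpn : ∀ i, ‖vp i‖ ≤ z + B := fun i => by
    simp only [hvp]
    refine (norm_add_le _ _).trans ?_
    rw [norm_smul, hD.norm_e, mul_one, Real.norm_eq_abs]
    have h1 : |z + α i| ≤ z + A0 := (abs_add_le _ _).trans (by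
      rw [abs_of_nonneg hz4]; linarith [hα i])
    rw [hB]; linarith
  have hvmn : ∀ j, ‖vm j‖ ≤ z + B := fun j => by
    simp only [hvm]
    rw [norm_neg, norm_smul, hD.norm_e, mul_one, Real.norm_eq_abs,
      abs_of_nonneg (add_nonneg hz4 (hj j).1)]
    have := (hj j).2
    have := norm_nonneg p
    rw [hB]; linarith
  choose wp hwp using fun i => hw (vp i) (hvpo i) t ht0
  choose wm hwm using fun j => hw (vm j) (hvmo j) t ht0
  -- caps
  set r : ℝ := (t ^ 2)⁻¹ with hr
  have hr0 : 0 < r := by positivity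
  have hr1 : r ≤ 1 := inv_le_one_of_one_le₀ (one_le_pow₀ ht1)
  have hσ : ∀ w : Sp q, 0 < (sg q).real (ball w r) := fun w =>
    lt_of_lt_of_le (by positivity) (hcap2 w r hr0 hr1)
  set Q : ℝ := cc⁻¹ * t ^ (4 * q + 6) with hQ
  have hσQ : ∀ w : Sp q, ∫ w', capf w r w' ^ 2 ∂(sg q) ≤ Q := fun w => by
    rw [capf_sq w r (hσ w)]
    have h1 : (cc * r ^ (2 * q + 3))⁻¹ = Q := by
      rw [hQ, hr, mul_inv, inv_pow, inv_inv, ← pow_mul]
      congr 2
      ring
    rw [← h1]
    exact inv_anti₀ (by positivity) (hcap2 w r hr0 hr1)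
  -- the kernel
  obtain ⟨k, hk1, -⟩ := hKc q hq V R M hV P
  have hkk : ∀ w w', kk P t w w' = k t (w, w') := fun w w' => (hk1 t htP w w').symm
  have hKm : Measurable (Function.uncurry fun w w' => kk P t w w') := by
    have : (Function.uncurry fun w w' => kk P t w w') = k t := by
      funext ⟨w, w'⟩; exact hkk w w'
    rw [this]; exact (k t).continuous.measurable
  have hKb : ∀ w w', |kk P t w w'| ≤ ‖k t‖ := fun w w' => by
    rw [hkk, ← Real.norm_eq_abs]; exact (k t).norm_coe_le_norm _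
  have hksym : ∀ w w', kk P t w w' = kk P t w' w := ((hS q hq V R M hV P t htP).2 hev).2
  set κ : ℝ := kp q t with hκdef
  have hκ : κ = t ^ (2 * q + 1) / D := by rw [hκdef, kp, hDdef]
  have hκ0 : 0 < κ := by rw [hκ]; positivity
  set s : ℝ := (-1) ^ q with hs
  set L : ℝ := C2 * Real.exp (2 * z * h) with hL
  have hL0 : 0 < L := by positivity
  set ε : ℝ := (Ck / t + Ck * η) * L with hε
  have hε0 : 0 ≤ ε := by positivity
  have hkk2 : ∀ w w' (c : ℝ), |kk P t w w' - s * κ * c| = κ * |aa P t w (-w') - c| := by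
    intro w w' c
    have : kk P t w w' - s * κ * c = s * (κ * (aa P t w (-w') - c)) := by
      rw [kk]; ring
    rw [this, abs_mul, abs_mul, hs, sgn_abs, one_mul, abs_of_pos hκ0]
  have hCkt : Ck / t ≤ Ck := div_le_self hCk ht1
  have hCkη : Ck * η ≤ Ck / R := by
    rw [le_div_iff₀ hR]
    calc Ck * η * R = Ck * (R * η) := by ring
      _ ≤ Ck * 1 := mul_le_mul_of_nonneg_left hRη hCk
      _ = Ck := mul_one _
  -- estimate for bounded differences
  have hbdd : ∀ (w w' : Sp q) (a : ℝ), |a| ≤ A →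
      ‖t • (w : En q) - t • (w' : En q) - a • e‖ ≤ η → |kk P t w w'| ≤ κ * C1 := by
    intro w w' a ha hn
    have h1 := hkest t htP w w' (a • e) η hn hRη
    obtain ⟨h2, h3⟩ := hlv0 a ha 0 le_rfl
    have h4 : (0 : En q) + (2 * (0 : ℝ) + a) • e = a • e := by simp
    rw [h4] at h2 h3
    have h5 : Real.exp (2 * (0 : ℝ) * h) = 1 := by simp
    rw [h5, mul_one] at h2 h3
    have h6 := hkk2 w w' 0
    rw [mul_zero, sub_zero, sub_zero] at h6
    rw [h6]
    refine mul_le_mul_of_nonneg_left ?_ hκ0.le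
    have h7 : (Ck / t + Ck * η) * ∫ x, |V x| * Real.exp (inner ℝ (a • e) x) ≤
        (Ck + Ck / R) * C0 := by
      refine mul_le_mul (by linarith) h2 ?_ (by positivity)
      exact integral_nonneg fun x => mul_nonneg (abs_nonneg _) (Real.exp_pos _).le
    calc |aa P t w (-w')| = |(aa P t w (-w') - LV V (a • e)) + LV V (a • e)| := by
          congr 1; ring
      _ ≤ |aa P t w (-w') - LV V (a • e)| + |LV V (a • e)| := abs_add_le _ _
      _ ≤ (Ck + Ck / R) * C0 + C0 := by linarith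
      _ = C1 := by rw [hC1def]; ring
  -- estimate between the groups
  have hbtw : ∀ (w w' : Sp q) (i j : Fin m), ‖t • (w : En q) - t • (w' : En q) -
      (p + (2 * z + (α i + ((j : ℕ) : ℝ))) • e)‖ ≤ η →
      |kk P t w w' - s * κ * XM V e p m α z i j| ≤ κ * ε := by
    intro w w' i j hn
    have h1 := hkest t htP w w' _ η hn hRη
    have ha : |α i + ((j : ℕ) : ℝ)| ≤ A := (abs_add_le _ _).trans (by
      rw [abs_of_nonneg (hj j).1, hAdef]; linarith [hα i, (hj j).2])
    obtain ⟨h2, -⟩ := hlv2 _ ha z hz4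
    rw [hkk2]
    refine mul_le_mul_of_nonneg_left ?_ hκ0.le
    have h3 : XM V e p m α z i j = LV V (p + (2 * z + (α i + ((j : ℕ) : ℝ))) • e) := by
      simp only [XM, Matrix.of_apply]
      congr 3
      ring
    rw [h3]
    refine h1.trans ?_
    rw [hε, hL]
    exact mul_le_mul_of_nonneg_left h2 (by positivity)
  have hX : ∀ i j, |XM V e p m α z i j| ≤ L := fun i j => by
    have ha : |α i + ((j : ℕ) : ℝ)| ≤ A := (abs_add_le _ _).trans (by
      rw [abs_of_nonneg (hj j).1, hAdef]; linarith [hα i, (hj j).2])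
    have h3 : XM V e p m α z i j = LV V (p + (2 * z + (α i + ((j : ℕ) : ℝ))) • e) := by
      simp only [XM, Matrix.of_apply]
      congr 3
      ring
    rw [h3]
    exact (hlv2 _ ha z hz4).2
  refine ⟨t, htT, htP, fun i w => capf (wp i) r w - s * (1 / (m * L)) *
    ∑ j, XM V e p m α z i j * capf (wm j) r w, fun i => ?_, fun i => ?_, fun x hx => ?_⟩
  · exact (capf_BM (wp i) r).1.sub
      ((BM.sum Finset.univ fun j => (BM.const (XM V e p m α z i j)).mul
        (capf_BM (wm j) r)).1.const_mul _)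
  · obtain ⟨B1, hB1⟩ := (capf_BM (wp i) r).2
    obtain ⟨B2, hB2⟩ := ((BM.const (s * (1 / (m * L)))).mul
      (BM.sum Finset.univ fun j => (BM.const (XM V e p m α z i j)).mul
        (capf_BM (wm j) r))).2
    refine ⟨B1 + B2, fun w => ?_⟩
    exact (abs_sub _ _).trans (add_le_add (hB1 w) (hB2 w))
  · have hform := form_le (sg q) hKm hKb hm1 (fun i => capf (wp i) r) (fun j => capf (wm j) r)
      (fun i => capf_BM _ r) (fun i => capf_BM _ r) (fun i w => capf_nonneg _ r w)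
      (fun i w => capf_nonneg _ r w) (fun i => capf_int _ r (hσ _)) (fun i => capf_int _ r (hσ _))
      Q (by positivity) (fun i => hσQ _) (fun i => hσQ _) (XM V e p m α z) s κ C1 ε L
      (sgn_sq q) hκ0.le hC1 hε0 hL0 hX
      (fun i i' w w' h1 h2 => ?_) (fun j j' w w' h1 h2 => ?_) (fun i j w w' h1 h2 => ?_)
      (fun i j w w' h1 h2 => ?_) _ (fun i w => rfl) x
    · refine lt_of_le_of_lt hform ?_
      have hS0 : 0 < ∑ i, x i ^ 2 := by
        refine lt_of_le_of_ne (Finset.sum_nonneg fun i _ => sq_nonneg _) fun h0 => hx ?_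
        have h1 := (Finset.sum_eq_zero_iff_of_nonneg (s := (Finset.univ : Finset (Fin m)))
          (f := fun i => x i ^ 2) fun i _ => sq_nonneg _).1 h0.symm
        funext i
        exact pow_eq_zero_iff (two_ne_zero) |>.1 (h1 i (Finset.mem_univ i))
      have hfin := final q m hm1 (d := (XM V e p m α z).det) (κ := κ) (ε := ε) (L := L) (Q := Q)
        (B := B) hcc hD0 hC1 hC2 hCm ht1 hK ht hKh hκ (by rw [hε, hη, hL]) hL hQ hdet hz1
      have hmt := hmat (XM V e p m α z) L hL0.le hX x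
      have hCL : 0 < Cm * L ^ (2 * m - 2) := by positivity
      have hY : (XM V e p m α z).det ^ 2 / (Cm * L ^ (2 * m - 2)) * ∑ i, x i ^ 2 ≤
          ∑ j, (∑ i, XM V e p m α z i j * x i) ^ 2 := by
        rw [div_mul_eq_mul_div, div_le_iff₀ hCL]
        linarith
      have hc0 : 0 ≤ 2 * κ * (1 / (m * L)) := by positivity
      have e1 := mul_le_mul_of_nonneg_left hY hc0
      have e2 := mul_lt_mul_of_pos_right hfin hS0
      rw [← mul_assoc] at e1
      linarith
    · have hgeo := geo (w0 := (w0 : En q)) ht0 (ball_norm (capf_mem h1)) (ball_norm (capf_mem h2))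
        (hwp i) (hwp i') (hvpn i) (hvpn i')
      have hv : vp i - vp i' = (α i - α i') • e := by
        simp only [hvp]; module
      rw [hv] at hgeo
      refine hbdd w w' (α i - α i') ?_ hgeo
      refine (abs_sub _ _).trans ?_
      rw [hAdef]; linarith [hα i, hα i']
    · have hgeo := geo (w0 := (w0 : En q)) ht0 (ball_norm (capf_mem h1)) (ball_norm (capf_mem h2))
        (hwm j) (hwm j') (hvmn j) (hvmn j')
      have hv : vm j - vm j' = (((j' : ℕ) : ℝ) - ((j : ℕ) : ℝ)) • e := by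
        simp only [hvm]; module
      rw [hv] at hgeo
      refine hbdd w w' _ ?_ hgeo
      rw [abs_le, hAdef]
      constructor <;> linarith [(hj j).1, (hj j).2, (hj j').1, (hj j').2]
    · have hgeo := geo (w0 := (w0 : En q)) ht0 (ball_norm (capf_mem h1)) (ball_norm (capf_mem h2))
        (hwp i) (hwm j) (hvpn i) (hvmn j)
      have hv : vp i - vm j = p + (2 * z + (α i + ((j : ℕ) : ℝ))) • e := by
        simp only [hvp, hvm]; module
      rw [hv] at hgeo
      exact hbtw w w' i j hgeo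
    · have hgeo := geo (w0 := (w0 : En q)) ht0 (ball_norm (capf_mem h2)) (ball_norm (capf_mem h1))
        (hwp i) (hwm j) (hvpn i) (hvmn j)
      have hv : vp i - vm j = p + (2 * z + (α i + ((j : ℕ) : ℝ))) • e := by
        simp only [hvp, hvm]; module
      rw [hv] at hgeo
      rw [hksym w w']
      exact hbtw w' w i j hgeo

end Pool.Agent.Work.MP_f2af60_mp.Ev

end
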