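import Pool.Agent.Work.MP_f2af60_mp.PoleQDefs

/-! Bundle of small proof modules (one section per former module). -/

section

/-!
# MP_f2af60_mp: the heat kernel on the Fourier side (P2)
-/

namespace Pool.Agent.Work.MP_f2af60_mp.PQ

open MeasureTheory
open scoped SchwartzMap FourierTransform InnerProductSpace

variable {q : ℕ}

theorem heatFourier : HeatFourier := by
  intro q t ht φ y
  have hb : 0 < ((4 * Real.pi ^ 2 * t : ℝ) : ℂ).re := by
    rw [Complex.ofReal_re]; positivity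
  have J : Integrable (fun w : En q ↦ Complex.exp (-((4 * Real.pi ^ 2 * t : ℝ) : ℂ) * ‖w‖ ^ 2
      + 2 * Real.pi * Complex.I * ⟪y, w⟫_ℝ)) :=
    GaussianFourier.integrable_cexp_neg_mul_sq_norm_add hb _ _
  have key := VectorFourier.integral_fourierIntegral_smul_eq_flip (L := innerₗ (En q))
      Real.continuous_fourierChar continuous_inner J (φ.integrable (μ := volume))
  have key' : ∫ w : En q, 𝓕 (fun w : En q ↦ Complex.exp (-((4 * Real.pi ^ 2 * t : ℝ) : ℂ) * ‖w‖ ^ 2
      + 2 * Real.pi * Complex.I * ⟪y, w⟫_ℝ)) w • φ w =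
      ∫ w : En q, Complex.exp (-((4 * Real.pi ^ 2 * t : ℝ) : ℂ) * ‖w‖ ^ 2
      + 2 * Real.pi * Complex.I * ⟪y, w⟫_ℝ) • 𝓕 (fun x => φ x) w := by
    simpa using! key
  have hL : ∫ x : En q, ((pt q t (x - y) : ℝ) : ℂ) * φ x =
      ∫ w : En q, 𝓕 (fun w : En q ↦ Complex.exp (-((4 * Real.pi ^ 2 * t : ℝ) : ℂ) * ‖w‖ ^ 2
      + 2 * Real.pi * Complex.I * ⟪y, w⟫_ℝ)) w • φ w := by
    congr 1
    ext w
    rw [fourier_gaussian_innerProductSpace' hb, smul_eq_mul]
    congr 1
    have hpi : (Real.pi : ℝ) ≠ 0 := Real.pi_ne_zero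
    have h1 : ((Real.pi : ℂ) / ((4 * Real.pi ^ 2 * t : ℝ) : ℂ)) =
        (((4 * Real.pi * t)⁻¹ : ℝ) : ℂ) := by
      push_cast
      have : (Real.pi : ℂ) ≠ 0 := by exact_mod_cast hpi
      have : (t : ℂ) ≠ 0 := by exact_mod_cast ht.ne'
      field_simp
    have h2 : ((Module.finrank ℝ (En q) : ℕ) / 2 : ℂ) = (((q : ℝ) + 3 / 2 : ℝ) : ℂ) := by
      have : Module.finrank ℝ (En q) = 2 * q + 3 := by simp
      rw [this]; push_cast; ring
    rw [h1, h2, ← Complex.ofReal_cpow (by positivity)]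
    rw [Real.inv_rpow (by positivity), ← Real.rpow_neg (by positivity), pt]
    push_cast
    congr 1
    rw [norm_sub_rev w y]
    congr 1
    have : (Real.pi : ℂ) ≠ 0 := by exact_mod_cast hpi
    have : (t : ℂ) ≠ 0 := by exact_mod_cast ht.ne'
    field_simp
  rw [hL, key']
  congr 1
  ext ξ
  rw [smul_eq_mul, Complex.exp_add, mul_assoc]
  have e1 : Complex.exp (-((4 * Real.pi ^ 2 * t : ℝ) : ℂ) * ‖ξ‖ ^ 2) =
      ((Real.exp (-(4 * Real.pi ^ 2 * t * ‖ξ‖ ^ 2)) : ℝ) : ℂ) := by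
    push_cast
    congr 1
    ring
  rw [e1, real_inner_comm]
  rfl

end Pool.Agent.Work.MP_f2af60_mp.PQ

end

section

/-!
# MP_f2af60_mp, pole form: the kernel representation of the resolvent
-/

namespace Pool.Agent.Work.MP_f2af60_mp.PQ

open MeasureTheory Filter Topology Metric
open scoped SchwartzMap Laplacian

variable {q : ℕ}

theorem rep_F_integrable (F : En q → ℂ) (hF : Measurable F) (M R : ℝ) (hM : ∀ x, ‖F x‖ ≤ M)
    (hR : ∀ x, R < ‖x‖ → F x = 0) : Integrable F := by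
  have h1 : IntegrableOn F (closedBall 0 R) volume := by
    refine IntegrableOn.of_bound (by exact measure_closedBall_lt_top) hF.aestronglyMeasurable M
      (Eventually.of_forall hM)
  have h2 : F = (closedBall (0 : En q) R).indicator F := by
    funext x
    by_cases hx : x ∈ closedBall (0 : En q) R
    · rw [Set.indicator_of_mem hx]
    · rw [Set.indicator_of_notMem hx, hR x (by simpa using hx)]
  rw [h2]
  exact h1.integrable_indicator measurableSet_closedBall

theorem rep_integrand (g F : En q → ℂ) (hg : Integrable g) (hF : Integrable F) :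
    Integrable (fun p : En q × En q => g (p.1 - p.2) * F p.2) (volume.prod volume) := by
  have := hF.convolution_integrand (ContinuousLinearMap.mul ℂ ℂ) hg
    (μ := (volume : Measure (En q)))
  refine this.congr (Eventually.of_forall fun p => ?_)
  simp [mul_comm]

theorem rep_memLp (g F : En q → ℂ) (hg : Integrable g) (hF : Integrable F) (M : ℝ)
    (hM : ∀ x, ‖F x‖ ≤ M) : MemLp (fun x => ∫ y, g (x - y) * F y) 2 volume := by
  have hM0 : 0 ≤ M := (norm_nonneg _).trans (hM 0)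
  have h1 : Integrable (fun x => ∫ y, g (x - y) * F y) := (rep_integrand g F hg hF).integral_prod_left
  rw [memLp_two_iff_integrable_sq_norm h1.aestronglyMeasurable]
  have hb : ∀ x, ‖∫ y, g (x - y) * F y‖ ≤ (∫ y, ‖g y‖) * M := by
    intro x
    calc ‖∫ y, g (x - y) * F y‖ ≤ ∫ y, ‖g (x - y)‖ * M := by
          refine norm_integral_le_of_norm_le ((hg.comp_sub_left x).norm.mul_const M) ?_
          refine Eventually.of_forall fun y => ?_
          rw [norm_mul]
          exact mul_le_mul_of_nonneg_left (hM y) (norm_nonneg _)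
      _ = (∫ y, ‖g (x - y)‖) * M := integral_mul_const _ _
      _ = _ := by rw [integral_sub_left_eq_self (fun y => ‖g y‖) volume x]
  refine (h1.norm.mul_const ((∫ y, ‖g y‖) * M)).mono' (h1.aestronglyMeasurable.norm.pow 2) ?_
  refine Eventually.of_forall fun x => ?_
  rw [Real.norm_of_nonneg (by positivity), sq]
  exact mul_le_mul_of_nonneg_left (hb x) (norm_nonneg _)

theorem gg_eq (hS : Subord) (k : ℝ) (hk : 0 < k) (x : En q) (hx : x ≠ 0) :
    GG q (Complex.I * (k : ℂ)) x = (HH q 0 (k ^ 2) x : ℂ) := by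
  have := (hS q (k ^ 2) x (by positivity) hx).1
  rw [Real.sqrt_sq hk.le] at this
  exact this

theorem ae_ne (y : En q) : ∀ᵐ x : En q, x ≠ y := by
  rw [ae_iff]
  simp

theorem gg_integrable (hS : Subord) (hH : HHFacts) (k : ℝ) (hk : 0 < k) :
    Integrable (GG q (Complex.I * (k : ℂ))) := by
  have h1 : Integrable (fun x : En q => (HH q 0 (k ^ 2) x : ℂ)) :=
    (((hH q 0).1 (k ^ 2) (by positivity)).2.2.1).ofReal
  refine h1.congr ?_
  filter_upwards [ae_ne (0 : En q)] with x hx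
  exact (gg_eq hS k hk x hx).symm

theorem rep_weak (hS : Subord) (hH : HHFacts) (h3 : Fundamental) (k : ℝ) (hk : 0 < k)
    (F : En q → ℂ) (hF : Integrable F) (φ : 𝓢(En q, ℂ)) :
    ∫ x, (∫ y, GG q (Complex.I * (k : ℂ)) (x - y) * F y) * (-(Δ φ) x + (k : ℂ) ^ 2 * φ x) =
      ∫ y, F y * φ y := by
  set g : En q → ℂ := GG q (Complex.I * (k : ℂ)) with hg
  have hgi : Integrable g := gg_integrable hS hH k hk
  set ψ : 𝓢(En q, ℂ) := -(Δ φ) + ((k : ℂ) ^ 2) • φ with hψ
  have hψx : ∀ x, -(Δ φ) x + (k : ℂ) ^ 2 * φ x = ψ x := by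
    intro x
    simp [hψ]
  simp_rw [hψx]
  have h1 := rep_integrand g F hgi hF
  obtain ⟨C, hC⟩ : ∃ C, ∀ x, ‖ψ x‖ ≤ C := by
    obtain ⟨C, -, hC⟩ := ψ.decay 0 0
    exact ⟨C, fun x => by simpa using hC x⟩
  have h2 : Integrable (fun p : En q × En q => (g (p.1 - p.2) * F p.2) * ψ p.1)
      (volume.prod volume) := by
    refine h1.mul_bdd (c := C) ?_ (Eventually.of_forall fun p => hC p.1)
    exact (ψ.continuous.comp continuous_fst).aestronglyMeasurable
  calc ∫ x, (∫ y, g (x - y) * F y) * ψ x = ∫ x, ∫ y, (g (x - y) * F y) * ψ x := by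
        refine integral_congr_ae (Eventually.of_forall fun x => ?_)
        exact (integral_mul_const _ _).symm
    _ = ∫ y, ∫ x, (g (x - y) * F y) * ψ x := integral_integral_swap h2
    _ = ∫ y, F y * φ y := by
        refine integral_congr_ae (Eventually.of_forall fun y => ?_)
        simp only
        have h4 := h3 q k hk φ y
        simp_rw [hψx] at h4
        calc ∫ x, g (x - y) * F y * ψ x = ∫ x, F y * (g (x - y) * ψ x) := by
              refine integral_congr_ae (Eventually.of_forall fun x => ?_)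
              simp only
              ring
          _ = F y * φ y := by rw [integral_const_mul, h4]

end Pool.Agent.Work.MP_f2af60_mp.PQ

end

section

/-!
# MP_f2af60_mp, pole item P3: the kernel `G (i k)` is the fundamental solution of `-Δ + k²`

Integrate the heat kernel against `e^{-k² t}`, use its Fourier representation and Fubini twice.
-/

namespace Pool.Agent.Work.MP_f2af60_mp.PQ

open MeasureTheory
open scoped SchwartzMap Laplacian FourierTransform

variable {q : ℕ}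

theorem pole3_fourier_laplacian (φ : 𝓢(En q, ℂ)) (ξ : En q) :
    (𝓕 (Δ φ)) ξ = -(4 * (Real.pi : ℂ) ^ 2 * (‖ξ‖ : ℂ) ^ 2) * (𝓕 φ) ξ := by
  rw [SchwartzMap.laplacian_eq_fourierMultiplierCLM, SchwartzMap.fourierMultiplierCLM_apply,
    FourierTransform.fourier_smul, FourierTransform.fourier_fourierInv_eq, smul_apply,
    SchwartzMap.smulLeftCLM_apply_apply (by fun_prop)]
  simp only [Complex.real_smul]
  push_cast
  ring

theorem pole3_G (hS : Subord) (k : ℝ) (hk : 0 < k) (x : En q) (hx : x ≠ 0) :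
    GG q (Complex.I * (k : ℂ)) x =
      ((∫ t in Set.Ioi (0 : ℝ), pt q t x * Real.exp (-(k ^ 2 * t)) : ℝ) : ℂ) := by
  rw [gg_eq hS k hk x hx, HH]
  congr 1
  refine integral_congr_ae (Filter.Eventually.of_forall fun t => ?_)
  simp [mul_comm]

theorem pole3_mass (hP : PtFacts) (t : ℝ) (ht : 0 < t) (y : En q) :
    Integrable (fun x => pt q t (x - y)) ∧ ∫ x, pt q t (x - y) = 1 := by
  obtain ⟨h1, h2⟩ := (hP q).2.2.2.1 t ht
  exact ⟨h1.comp_sub_right y, by rw [integral_sub_right_eq_self (pt q t) y, h2]⟩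

theorem pole3_int1 (hP : PtFacts) (k : ℝ) (hk : 0 < k) (ψ : 𝓢(En q, ℂ)) (y : En q) :
    Integrable (Function.uncurry fun (x : En q) (t : ℝ) =>
      ((pt q t (x - y) * Real.exp (-(k ^ 2 * t)) : ℝ) : ℂ) * ψ x)
      (volume.prod (volume.restrict (Set.Ioi (0 : ℝ)))) := by
  have hmeas : Measurable (Function.uncurry fun (x : En q) (t : ℝ) =>
      ((pt q t (x - y) * Real.exp (-(k ^ 2 * t)) : ℝ) : ℂ) * ψ x) := by
    have hψ : Measurable ψ := ψ.continuous.measurable
    unfold pt Function.uncurry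
    fun_prop
  obtain ⟨Cψ, hCψ⟩ : ∃ C : ℝ, ∀ x, ‖ψ x‖ ≤ C :=
    ⟨_, ψ.toBoundedContinuousFunction.norm_coe_le_norm⟩
  have hC0 : 0 ≤ Cψ := (norm_nonneg _).trans (hCψ 0)
  have hnorm : ∀ (x : En q) (t : ℝ), 0 < t →
      ‖((pt q t (x - y) * Real.exp (-(k ^ 2 * t)) : ℝ) : ℂ) * ψ x‖ ≤
        (Cψ * Real.exp (-(k ^ 2 * t))) * pt q t (x - y) := by
    intro x t ht
    have := ((hP q).1 t ht (x - y)).le
    rw [norm_mul, Complex.norm_real, Real.norm_eq_abs, abs_of_nonneg (by positivity)]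
    calc _ ≤ pt q t (x - y) * Real.exp (-(k ^ 2 * t)) * Cψ :=
          mul_le_mul_of_nonneg_left (hCψ x) (by positivity)
      _ = _ := by ring
  rw [integrable_prod_iff' hmeas.aestronglyMeasurable]
  constructor
  · rw [ae_restrict_iff' measurableSet_Ioi]
    refine Filter.Eventually.of_forall fun t ht => ?_
    refine Integrable.mono' ((pole3_mass hP t ht y).1.const_mul (Cψ * Real.exp (-(k ^ 2 * t)))) ?_ ?_
    · exact (hmeas.comp (measurable_id.prodMk measurable_const)).aestronglyMeasurable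
    · exact Filter.Eventually.of_forall fun x => hnorm x t ht
  · have hbound : Integrable (fun t : ℝ => Cψ * Real.exp (-(k ^ 2) * t))
        (volume.restrict (Set.Ioi (0 : ℝ))) :=
      (exp_neg_integrableOn_Ioi 0 (by positivity)).const_mul Cψ
    refine Integrable.mono' hbound ?_ ?_
    · exact (hmeas.norm.aestronglyMeasurable (μ := (volume.restrict (Set.Ioi (0 : ℝ))).prod volume
        |>.map Prod.swap)).comp_measurable measurable_swap |>.integral_prod_right'
    · rw [ae_restrict_iff' measurableSet_Ioi]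
      refine Filter.Eventually.of_forall fun t ht => ?_
      rw [Real.norm_eq_abs, abs_of_nonneg (integral_nonneg fun x => norm_nonneg _)]
      calc _ ≤ ∫ x, (Cψ * Real.exp (-(k ^ 2 * t))) * pt q t (x - y) := by
            apply integral_mono_of_nonneg
            · exact Filter.Eventually.of_forall fun x => norm_nonneg _
            · exact (pole3_mass hP t ht y).1.const_mul _
            · exact Filter.Eventually.of_forall fun x => hnorm x t ht
        _ = Cψ * Real.exp (-(k ^ 2) * t) := by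
            rw [integral_const_mul, (pole3_mass hP t ht y).2, mul_one]
            congr 2
            ring

theorem pole3_int2 (k : ℝ) (hk : 0 < k) (g : En q → ℂ) (hg : Integrable g) :
    Integrable (Function.uncurry fun (t : ℝ) (ξ : En q) =>
      (((4 * Real.pi ^ 2 * ‖ξ‖ ^ 2 + k ^ 2) *
        Real.exp (-((4 * Real.pi ^ 2 * ‖ξ‖ ^ 2 + k ^ 2) * t)) : ℝ) : ℂ) * g ξ)
      ((volume.restrict (Set.Ioi (0 : ℝ))).prod volume) := by
  have hm : AEStronglyMeasurable (Function.uncurry fun (t : ℝ) (ξ : En q) =>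
      (((4 * Real.pi ^ 2 * ‖ξ‖ ^ 2 + k ^ 2) *
        Real.exp (-((4 * Real.pi ^ 2 * ‖ξ‖ ^ 2 + k ^ 2) * t)) : ℝ) : ℂ) * g ξ)
      ((volume.restrict (Set.Ioi (0 : ℝ))).prod volume) := by
    refine AEStronglyMeasurable.mul ?_ hg.1.comp_snd
    apply Measurable.aestronglyMeasurable
    fun_prop
  rw [integrable_prod_iff' hm]
  have ha : ∀ ξ : En q, 0 < 4 * Real.pi ^ 2 * ‖ξ‖ ^ 2 + k ^ 2 := fun ξ => by positivity
  have hint : ∀ a : ℝ, 0 < a → Integrable (fun t : ℝ => a * Real.exp (-(a * t)))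
      (volume.restrict (Set.Ioi (0 : ℝ))) := by
    intro a h
    have := (exp_neg_integrableOn_Ioi 0 h).const_mul a
    simpa only [neg_mul] using this
  constructor
  · refine Filter.Eventually.of_forall fun ξ => ?_
    exact ((hint _ (ha ξ)).ofReal (𝕜 := ℂ)).mul_const (g ξ)
  · have h1 : (fun ξ : En q => ∫ t in Set.Ioi (0 : ℝ),
        ‖Function.uncurry (fun (t : ℝ) (ξ : En q) =>
      (((4 * Real.pi ^ 2 * ‖ξ‖ ^ 2 + k ^ 2) *
        Real.exp (-((4 * Real.pi ^ 2 * ‖ξ‖ ^ 2 + k ^ 2) * t)) : ℝ) : ℂ) * g ξ) (t, ξ)‖) =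
        fun ξ => ‖g ξ‖ := by
      funext ξ
      simp only [Function.uncurry_apply_pair, norm_mul, Complex.norm_real, Real.norm_eq_abs]
      rw [integral_mul_const]
      have h2 : ∫ t in Set.Ioi (0 : ℝ), |4 * Real.pi ^ 2 * ‖ξ‖ ^ 2 + k ^ 2| *
          |Real.exp (-((4 * Real.pi ^ 2 * ‖ξ‖ ^ 2 + k ^ 2) * t))| = 1 := by
        have h3 : ∀ t : ℝ, |4 * Real.pi ^ 2 * ‖ξ‖ ^ 2 + k ^ 2| *
          |Real.exp (-((4 * Real.pi ^ 2 * ‖ξ‖ ^ 2 + k ^ 2) * t))| =
          (4 * Real.pi ^ 2 * ‖ξ‖ ^ 2 + k ^ 2) *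
            Real.exp (-(4 * Real.pi ^ 2 * ‖ξ‖ ^ 2 + k ^ 2) * t) := by
          intro t
          rw [abs_of_pos (ha ξ), abs_of_pos (Real.exp_pos _), neg_mul]
        simp only [h3]
        rw [integral_const_mul, integral_exp_mul_Ioi (neg_lt_zero.2 (ha ξ))]
        have := (ha ξ).ne'
        simp only [mul_zero, Real.exp_zero]
        field_simp
      rw [h2, one_mul]
    rw [h1]
    exact hg.norm

/-- P3: the kernel `G (i k)` is the fundamental solution of `-Δ + k²`. -/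
theorem fundamental (hS : Subord) (hP : PtFacts) (h2 : HeatFourier) : Fundamental := by
  intro q k hk φ y
  set ψ : 𝓢(En q, ℂ) := -(Δ φ) + (k : ℂ) ^ 2 • φ with hψ
  have hψx : ∀ x, ψ x = -(Δ φ) x + (k : ℂ) ^ 2 * φ x := fun x => rfl
  have hFψ : ∀ ξ, (𝓕 ψ) ξ = ((4 * Real.pi ^ 2 * ‖ξ‖ ^ 2 + k ^ 2 : ℝ) : ℂ) * (𝓕 φ) ξ := by
    intro ξ
    rw [hψ, FourierTransform.fourier_add, FourierTransform.fourier_neg,
      FourierTransform.fourier_smul]
    show -((𝓕 (Δ φ)) ξ) + (k : ℂ) ^ 2 * (𝓕 φ) ξ = _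
    rw [pole3_fourier_laplacian]
    push_cast
    ring
  -- step 1
  have s1 : ∫ x, GG q (Complex.I * (k : ℂ)) (x - y) * (-(Δ φ) x + (k : ℂ) ^ 2 * φ x) =
      ∫ x, ∫ t in Set.Ioi (0 : ℝ),
        ((pt q t (x - y) * Real.exp (-(k ^ 2 * t)) : ℝ) : ℂ) * ψ x := by
    apply integral_congr_ae
    have hne : ∀ᵐ x : En q, x ≠ y := by
      rw [ae_iff]
      simp
    filter_upwards [hne] with x hx
    rw [pole3_G hS k hk (x - y) (sub_ne_zero.2 hx), ← hψx, ← integral_complex_ofReal]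
    exact (integral_mul_const (ψ x) _).symm
  rw [s1, integral_integral_swap (pole3_int1 hP k hk ψ y)]
  -- step 2
  set g : En q → ℂ := fun ξ => Complex.exp (2 * Real.pi * Complex.I * (inner ℝ ξ y : ℝ)) *
    (𝓕 φ) ξ with hg
  have hgi : Integrable g := by
    refine (SchwartzMap.integrable (𝓕 φ)).bdd_mul (c := 1) ?_ ?_
    · apply Continuous.aestronglyMeasurable
      fun_prop
    · refine Filter.Eventually.of_forall fun ξ => ?_
      rw [show (2 * Real.pi * Complex.I * (inner ℝ ξ y : ℝ) : ℂ) =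
        ((2 * Real.pi * inner ℝ ξ y : ℝ) : ℂ) * Complex.I by push_cast; ring,
        Complex.norm_exp_ofReal_mul_I]
  have s2 : ∫ t in Set.Ioi (0 : ℝ), ∫ x,
        ((pt q t (x - y) * Real.exp (-(k ^ 2 * t)) : ℝ) : ℂ) * ψ x =
      ∫ t in Set.Ioi (0 : ℝ), ∫ ξ : En q, (((4 * Real.pi ^ 2 * ‖ξ‖ ^ 2 + k ^ 2) *
        Real.exp (-((4 * Real.pi ^ 2 * ‖ξ‖ ^ 2 + k ^ 2) * t)) : ℝ) : ℂ) * g ξ := by
    apply setIntegral_congr_fun measurableSet_Ioi
    intro t ht
    have e1 := h2 q t ht ψ y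
    have e2 : ∀ x, ((pt q t (x - y) * Real.exp (-(k ^ 2 * t)) : ℝ) : ℂ) * ψ x =
        ((Real.exp (-(k ^ 2 * t)) : ℝ) : ℂ) * (((pt q t (x - y) : ℝ) : ℂ) * ψ x) := by
      intro x
      push_cast
      ring
    show ∫ x, ((pt q t (x - y) * Real.exp (-(k ^ 2 * t)) : ℝ) : ℂ) * ψ x = _
    simp only [e2]
    rw [integral_const_mul, e1, ← integral_const_mul]
    apply integral_congr_ae
    refine Filter.Eventually.of_forall fun ξ => ?_
    show _ = (((4 * Real.pi ^ 2 * ‖ξ‖ ^ 2 + k ^ 2) *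
        Real.exp (-((4 * Real.pi ^ 2 * ‖ξ‖ ^ 2 + k ^ 2) * t)) : ℝ) : ℂ) * g ξ
    simp only [hFψ, hg]
    rw [show -((4 * Real.pi ^ 2 * ‖ξ‖ ^ 2 + k ^ 2) * t) =
      -(k ^ 2 * t) + -(4 * Real.pi ^ 2 * t * ‖ξ‖ ^ 2) by ring, Real.exp_add]
    push_cast
    ring
  rw [s2, integral_integral_swap (pole3_int2 k hk g hgi)]
  -- step 3
  have ha : ∀ ξ : En q, 0 < 4 * Real.pi ^ 2 * ‖ξ‖ ^ 2 + k ^ 2 := fun ξ => by positivity
  have s3 : ∀ ξ : En q, ∫ t in Set.Ioi (0 : ℝ), (((4 * Real.pi ^ 2 * ‖ξ‖ ^ 2 + k ^ 2) *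
        Real.exp (-((4 * Real.pi ^ 2 * ‖ξ‖ ^ 2 + k ^ 2) * t)) : ℝ) : ℂ) * g ξ = g ξ := by
    intro ξ
    have e3 := ha ξ
    set a := 4 * Real.pi ^ 2 * ‖ξ‖ ^ 2 + k ^ 2 with haa
    rw [integral_mul_const, integral_complex_ofReal]
    have e4 : ∫ t in Set.Ioi (0 : ℝ), a * Real.exp (-(a * t)) = 1 := by
      have e5 : ∀ t : ℝ, a * Real.exp (-(a * t)) = a * Real.exp (-a * t) := fun t => by
        rw [neg_mul]
      simp only [e5]
      rw [integral_const_mul, integral_exp_mul_Ioi (neg_lt_zero.2 e3)]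
      simp only [mul_zero, Real.exp_zero]
      field_simp
    rw [e4]
    simp
  simp only [s3]
  -- step 4
  have s4 : (𝓕⁻ (𝓕 φ : 𝓢(En q, ℂ)) : 𝓢(En q, ℂ)) y = φ y := by
    rw [FourierTransform.fourierInv_fourier_eq]
  rw [← s4, SchwartzMap.fourierInv_coe, Real.fourierInv_eq']
  apply integral_congr_ae
  refine Filter.Eventually.of_forall fun ξ => ?_
  simp only [hg, smul_eq_mul]
  congr 2
  push_cast
  ring

end Pool.Agent.Work.MP_f2af60_mp.PQ

end
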