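import Pool.Agent.Work.MP_f2af60_mp.Bd.B04
import Pool.Agent.Work.MP_f2af60_mp.PoleQDefs
import Pool.Agent.Work.MP_f2af60_mp.Bd.B01
import Pool.Agent.Work.MP_f2af60_mp.Bd.B07
import Pool.Agent.Work.MP_f2af60_mp.Bd.B02
import Pool.Agent.Work.MP_f2af60_mp.Bd.B03

/-! Bundle of small proof modules (one section per former module). -/

section

/-!
# MP_f2af60_mp, pole form: invertibility off a discrete set
-/

namespace Pool.Agent.Work.MP_f2af60_mp.PQ

open Filter Topology Matrix Metric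

theorem isUnit_of_small {X : Type} [NormedAddCommGroup X] [NormedSpace ℂ X] [CompleteSpace X]
    (a : X →L[ℂ] X) (ha : ‖a‖ ≤ 1 / 2) : IsUnit (1 + a) := by
  have h : ‖-a‖ < 1 := by rw [norm_neg]; linarith
  have := isUnit_one_sub_of_norm_lt_one h
  simpa using this

theorem no_kernel_of_isUnit {X : Type} [NormedAddCommGroup X] [NormedSpace ℂ X]
    (B : X →L[ℂ] X) (hB : IsUnit B) (u : X) (hu : B u = 0) : u = 0 := by
  obtain ⟨w, hw⟩ := hB
  have h3 : (w : X →L[ℂ] X) u = 0 := by rw [hw]; exact hu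
  have h4 : ((w⁻¹ : (X →L[ℂ] X)ˣ) : X →L[ℂ] X) ((w : X →L[ℂ] X) u) = u := by
    have h5 : (((w⁻¹ : (X →L[ℂ] X)ˣ) : X →L[ℂ] X) * (w : X →L[ℂ] X)) u =
        (1 : X →L[ℂ] X) u := by rw [Units.inv_mul]
    exact h5
  rw [h3, map_zero] at h4
  exact h4.symm

/-- If `1 + A` is locally a finite rank perturbation of an invertible operator and is invertible
somewhere, it is invertible off a discrete set. -/
theorem eventually_isUnit {X : Type} [NormedAddCommGroup X] [NormedSpace ℂ X] [CompleteSpace X]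
    (A : ℂ → X →L[ℂ] X) (hA : Differentiable ℂ A)
    (hloc : ∀ r : ℕ, 1 ≤ r → ∃ (N : ℕ) (φ : Fin N → X) (ψ : Fin N → ℂ → (X →L[ℂ] ℂ)),
      (∀ k, Differentiable ℂ (ψ k)) ∧
      ∀ l ∈ ball (0 : ℂ) r, ‖A l - FRop φ (fun k => ψ k l)‖ ≤ 1 / 2)
    (l0 : ℂ) (h0 : IsUnit (1 + A l0)) (z1 : ℂ) : ∀ᶠ z in 𝓝[≠] z1, IsUnit (1 + A z) := by
  obtain ⟨r, hr⟩ := exists_nat_gt (max (max ‖z1‖ ‖l0‖) 1)
  have hr1 : 1 ≤ r := by
    have : (1 : ℝ) < r := (le_max_right _ _).trans_lt hr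
    exact_mod_cast this.le
  have hz1 : z1 ∈ ball (0 : ℂ) r := by
    rw [mem_ball_zero_iff]
    exact ((le_max_left _ _).trans (le_max_left _ _)).trans_lt hr
  have hl0 : l0 ∈ ball (0 : ℂ) r := by
    rw [mem_ball_zero_iff]
    exact ((le_max_right _ _).trans (le_max_left _ _)).trans_lt hr
  obtain ⟨N, φ, ψ, hψ, hsm⟩ := hloc r hr1
  set F : ℂ → X →L[ℂ] X := fun z => FRop φ (fun k => ψ k z) with hF
  have hFd : Differentiable ℂ F := by
    intro z
    have e : F = fun z => ∑ k, ContinuousLinearMap.smulRightL ℂ X X (ψ k z) (φ k) := by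
      funext z
      ext v
      simp [hF, FRop_apply]
    rw [e]
    refine DifferentiableAt.fun_sum fun k _ => ?_
    exact ((ContinuousLinearMap.smulRightL ℂ X X).differentiableAt.comp z (hψ k z)).clm_apply
      (differentiableAt_const _)
  set A₁ : ℂ → X →L[ℂ] X := fun z => A z - F z with hA₁
  have hA₁d : Differentiable ℂ A₁ := hA.sub hFd
  have hunit1 : ∀ z ∈ ball (0 : ℂ) r, IsUnit (1 + A₁ z) := fun z hz =>
    isUnit_of_small _ (hsm z hz)
  set T₁ : ℂ → X →L[ℂ] X := fun z => Ring.inverse (1 + A₁ z) with hT₁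
  have hT₁d : ∀ z ∈ ball (0 : ℂ) r, DifferentiableAt ℂ T₁ z := by
    intro z hz
    obtain ⟨u, hu⟩ := hunit1 z hz
    have h2 : DifferentiableAt ℂ (fun z => 1 + A₁ z) z := (hA₁d z).const_add 1
    have h3 : DifferentiableAt ℂ Ring.inverse (1 + A₁ z) := by
      rw [← hu]
      exact (hasFDerivAt_ringInverse (𝕜 := ℂ) u).differentiableAt
    exact h3.comp z h2
  have hdet : AnalyticOnNhd ℂ (fun z => (1 + FRmat φ (fun k => ψ k z) (T₁ z)).det)
      (ball (0 : ℂ) r) := by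
    intro z hz
    refine PoleMero_det _ z fun i j => ?_
    rw [Complex.analyticAt_iff_eventually_differentiableAt]
    filter_upwards [isOpen_ball.mem_nhds hz] with y hy
    simp only [Matrix.add_apply, FRmat_apply]
    exact ((hψ i y).clm_apply ((hT₁d y hy).clm_apply (differentiableAt_const _))).const_add _
  have hinv1 : ∀ z ∈ ball (0 : ℂ) r, T₁ z * (1 + A₁ z) = 1 ∧ (1 + A₁ z) * T₁ z = 1 :=
    fun z hz => ⟨Ring.inverse_mul_cancel _ (hunit1 z hz), Ring.mul_inverse_cancel _ (hunit1 z hz)⟩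
  have hAz : ∀ z, A₁ z + FRop φ (fun k => ψ k z) = A z := by
    intro z
    simp only [hA₁, hF, sub_add_cancel]
  have hd0 : (1 + FRmat φ (fun k => ψ k l0) (T₁ l0)).det ≠ 0 := by
    intro hc
    obtain ⟨a1, a2⟩ := hinv1 l0 hl0
    obtain ⟨u, hu0, hu1⟩ := frKer X N φ (fun k => ψ k l0) (A₁ l0) (T₁ l0) a1 a2 hc
    rw [hAz] at hu1
    exact hu0 (no_kernel_of_isUnit _ h0 u (by simpa using hu1))
  have hne : ∀ᶠ z in 𝓝[≠] z1, (1 + FRmat φ (fun k => ψ k z) (T₁ z)).det ≠ 0 := by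
    rcases (hdet z1 hz1).eventually_eq_zero_or_eventually_ne_zero with h | h
    · exfalso
      exact hd0 (hdet.eqOn_zero_of_preconnected_of_eventuallyEq_zero
        (convex_ball (0 : ℂ) r).isPreconnected hz1 h hl0)
    · exact h
  have hball : ∀ᶠ z in 𝓝[≠] z1, z ∈ ball (0 : ℂ) r :=
    (isOpen_ball.eventually_mem hz1).filter_mono nhdsWithin_le_nhds
  filter_upwards [hne, hball] with z hz hzb
  obtain ⟨a1, a2⟩ := hinv1 z hzb
  obtain ⟨T, b1, b2⟩ := frUnit X N φ (fun k => ψ k z) (A₁ z) (T₁ z) a1 a2 hz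
  rw [hAz] at b1 b2
  exact ⟨⟨1 + A z, T, b2, b1⟩, rfl⟩

end Pool.Agent.Work.MP_f2af60_mp.PQ

end

section

/-!
# MP_f2af60_mp, all odd dimensions: assembly, part 3
-/

namespace Pool.Agent.Work.MP_f2af60_mp

open MeasureTheory Metric Filter Topology

/-- bounds on the imaginary axis at the points `lam i E`. -/
theorem gm_imag (h16 : ImagQ) {q : ℕ} (hq : 1 ≤ q) {R : ℝ} (hR : 0 < R) (V : En q → ℝ)
    (hV : Measurable V) (M : ℝ) (hM : ∀ x, |V x| ≤ M) :
    ∃ C : ℝ, 0 ≤ C ∧ ∀ (O : OpsQ q (muQ q R) (fun x : closedBall (0 : En q) R => V x))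
      (h l : ℂ → C(closedBall (0 : En q) R × closedBall (0 : En q) R, ℂ)),
      (∀ z x y, h z (x, y) = eb q (z * ((dist x y : ℝ) : ℂ))) →
      (∀ z x y, l z (x, y) = eb (q - 1) (z * ((dist x y : ℝ) : ℂ))) →
      ∀ (i : ℕ) (E : ℝ), 1 ≤ E →
      ‖O.Op (h (lam i E))‖ ≤ C / E ∧
      ∀ x y, ‖KK q (muQ q R) (fun x : closedBall (0 : En q) R => V x) (h (lam i E))
        (glk l (lam i E)) q x y‖ ≤ C * E ^ (-(1 / 2) : ℝ) := by
  obtain ⟨C, hC⟩ := h16 q hq R hR V hV M hM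
  refine ⟨|C|, abs_nonneg _, fun O h l hh hl i E hE => ?_⟩
  have hi : (0 : ℝ) ≤ i := Nat.cast_nonneg i
  have hE' : 1 ≤ (1 + (i : ℝ)) * E := by nlinarith
  have hEE : E ≤ (1 + (i : ℝ)) * E := by nlinarith
  have hE0 : 0 < E := by linarith
  obtain ⟨h1, h2⟩ := hC O ((1 + (i : ℝ)) * E) hE' (h (lam i E)) (glk l (lam i E))
    (fun x y => hh _ x y)
    (fun x y => by
      have : glk l (lam i E) (x, y) = (4 * (Real.pi : ℂ))⁻¹ * l (lam i E) (x, y) := by
        simp [glk]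
      rw [this, hl, div_eq_inv_mul, lam])
  constructor
  · refine h1.trans ?_
    calc C / ((1 + (i : ℝ)) * E) ≤ |C| / ((1 + (i : ℝ)) * E) := by
          gcongr; exact le_abs_self C
      _ ≤ |C| / E := by gcongr
  · intro x y
    refine (h2 x y).trans ?_
    have h3 : ((1 + (i : ℝ)) * E) ^ (-(1 / 2) : ℝ) ≤ E ^ (-(1 / 2) : ℝ) :=
      Real.rpow_le_rpow_of_nonpos hE0 hEE (by norm_num)
    have h4 : 0 ≤ ((1 + (i : ℝ)) * E) ^ (-(1 / 2) : ℝ) := by positivity
    calc C * ((1 + (i : ℝ)) * E) ^ (-(1 / 2) : ℝ)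
        ≤ |C| * ((1 + (i : ℝ)) * E) ^ (-(1 / 2) : ℝ) := by
          gcongr; exact le_abs_self C
      _ ≤ _ := by gcongr

/-- choice of the small parameter. -/
lemma gm_small_param (M B Cs μ : ℝ) (hB : 0 ≤ B) (hCs : 0 ≤ Cs) (hμ : 0 ≤ μ) :
    ∃ e : ℝ, 0 < e ∧ e ≤ 1 ∧ ∀ r : ℝ, 1 ≤ r → |M| * (B * Cs * (e / r) ^ 2 + e / r * μ) ≤ 1 / 2 := by
  have hden : 0 < 2 * (|M| * (B * Cs + μ) + 1) := by positivity
  have hq : 0 ≤ |M| * (B * Cs + μ) := by positivity
  have he1 : 1 / (2 * (|M| * (B * Cs + μ) + 1)) ≤ 1 := by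
    rw [div_le_one hden]
    linarith
  have he0 : 0 < 1 / (2 * (|M| * (B * Cs + μ) + 1)) := by positivity
  refine ⟨1 / (2 * (|M| * (B * Cs + μ) + 1)), he0, he1, fun r hr => ?_⟩
  have h3 : ∀ e : ℝ, 0 < e → e ≤ 1 → |M| * (B * Cs * e ^ 2 + e * μ) ≤
      |M| * (B * Cs + μ) * e := by
    intro e h0 h1
    have h2 : e ^ 2 ≤ e := by nlinarith
    have h4 : 0 ≤ B * Cs := by positivity
    have : B * Cs * e ^ 2 + e * μ ≤ (B * Cs + μ) * e := by
      nlinarith
    calc |M| * (B * Cs * e ^ 2 + e * μ)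
        ≤ |M| * ((B * Cs + μ) * e) := by gcongr
      _ = _ := by ring
  set e := 1 / (2 * (|M| * (B * Cs + μ) + 1)) with he
  have hr0 : 0 < r := by linarith
  have h5 : e / r ≤ e := div_le_self he0.le hr
  have h6 : 0 < e / r := by positivity
  refine (h3 (e / r) h6 (h5.trans he1)).trans ?_
  calc |M| * (B * Cs + μ) * (e / r) ≤ |M| * (B * Cs + μ) * e := by gcongr
    _ ≤ 1 / 2 := by
      rw [he, mul_one_div, div_le_iff₀ hden]
      linarith

section Abs

variable {q : ℕ} {R ε C : ℝ} {n : ℕ} (dat : ∀ r : ℕ, DecData q R ε ε C n (max r 1))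

/-- for `r ≥ 1` the operators of the remainders have norm at most `1 / 2`. -/
theorem gm_half (hR : 0 < R) (he : 0 < ε) (he1 : ε ≤ 1) (Cs : ℝ) (hSp : SpQ q (muQ q R) Cs)
    (V : En q → ℝ) (M : ℝ) (hM : ∀ x, |V x| ≤ M)
    (O : OpsQ q (muQ q R) (fun x : closedBall (0 : En q) R => V x))
    (h : ℂ → C(closedBall (0 : En q) R × closedBall (0 : En q) R, ℂ))
    (hh : ∀ z x y, h z (x, y) = eb q (z * ((dist x y : ℝ) : ℂ)))
    (B0 : ℝ) (hB0 : 0 ≤ B0) (hB : ∀ w : ℂ, ‖w‖ ≤ 1 → ‖eb q w‖ ≤ B0)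
    (hsm : ∀ r : ℝ, 1 ≤ r → |M| * (B0 * Cs * (ε / r) ^ 2 + ε / r * (muQ q R).real Set.univ) ≤
      1 / 2) (r : ℕ) (z : ℂ) (hz : z ∈ ball (0 : ℂ) ((max r 1 : ℕ) : ℝ)) :
    ‖O.Op (gh1 q h (dat r).φ (dat r).ψ (dat r).c z)‖ ≤ 1 / 2 := by
  have hKn : Nonempty (closedBall (0 : En q) R) := ⟨⟨0, by simp [hR.le]⟩⟩
  have hM' : ∀ x : closedBall (0 : En q) R, |V x| ≤ M := fun x => hM x
  have hmax : (1 : ℝ) ≤ ((max r 1 : ℕ) : ℝ) := by
    exact_mod_cast le_max_right r 1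
  have hr0 : (0 : ℝ) < ((max r 1 : ℕ) : ℝ) := lt_of_lt_of_le one_pos hmax
  refine le_trans ?_ (hsm _ hmax)
  exact gm_op_small (muQ q R) Cs hSp _ M hM' O _ (ε / ((max r 1 : ℕ) : ℝ)) B0
      (ε / ((max r 1 : ℕ) : ℝ)) (by positivity) hB0 (by positivity)
      (fun x y => gd_small (dat r) h hh B0 hB he1 (le_max_right _ _) z hz x y)

end Abs

section AbsK

variable {K : Type} [MetricSpace K] [CompactSpace K] [MeasurableSpace K] [BorelSpace K]

/-- The hypotheses of `DiscFac` for the concrete families (abstract space). -/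
theorem gm_disc (h11 : TraceIdQ) (h13 : ChainRep) (h26 : DiscFac) {q : ℕ}
    (hq : 1 ≤ q) (μ : Measure K) (Cs : ℝ) (hSp : SpQ q μ Cs)
    (V : K → ℝ) (hV : Measurable V) (M : ℝ) (hM : ∀ x, |V x| ≤ M)
    (O : OpsQ q μ V) (h l : ℂ → C(K × K, ℂ)) (hhd : Differentiable ℂ h)
    (hh' : ∀ z, deriv h z = (z / (2 * (Real.pi : ℂ))) • (dlt K ^ 2 * l z))
    (hpar : ∃ B : ℝ, ∀ z : ℂ, ‖z‖ ≤ 1 → ‖h z - h (-z)‖ ≤ B * ‖z‖ ^ (2 * q + 1))
    (C : ℝ) (n : ℕ) (N : ℕ → ℕ) (φ ψ : ∀ r, Fin (N r) → C(K, ℂ)) (c₀ : ∀ r, Fin (N r) → ℂ → ℂ)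
    (hN : ∀ r : ℕ, 1 ≤ r → (N r : ℝ) ≤ C * (r : ℝ) ^ n)
    (hφ : ∀ r : ℕ, 1 ≤ r → ∀ k, ‖φ r k‖ ≤ Real.exp (C * (r : ℝ) ^ n))
    (hψ : ∀ r : ℕ, 1 ≤ r → ∀ k, ‖ψ r k‖ ≤ Real.exp (C * (r : ℝ) ^ n))
    (hcd : ∀ r k, Differentiable ℂ (c₀ r k))
    (hcb : ∀ r : ℕ, 1 ≤ r → ∀ k, ∀ z ∈ ball (0 : ℂ) r, ‖c₀ r k z‖ ≤ Real.exp (C * (r : ℝ) ^ n))
    (hdiag : ∀ r k x, φ r k x * ψ r k x = 0)
    (hcpar : ∀ r k, ∃ B : ℝ, ∀ z : ℂ, ‖z‖ ≤ 1 →
      ‖c₀ r k z - c₀ r k (-z)‖ ≤ B * ‖z‖ ^ (2 * q + 1))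
    (hhalf : ∀ r : ℕ, 1 ≤ r → ∀ z ∈ ball (0 : ℂ) r,
      ‖O.Op (gh1 q h (φ r) (ψ r) (c₀ r) z)‖ ≤ 1 / 2)
    (l0 : ℂ) (hl0 : ‖O.Op (h l0)‖ ≤ 1 / 2)
    (hfin : {z : ℂ | ∃ u : C(K, ℂ), u ≠ 0 ∧ u + O.Op (h z) u = 0}.Finite) :
    ∃ (P : Polynomial ℂ) (c : ℕ → ℕ → ℂ) (C' : ℝ) (r0 m : ℕ), P.Monic ∧ 1 ≤ r0 ∧
      (∀ r : ℕ, r0 ≤ r → ∀ j, ‖c r j‖ ≤ C' * (r : ℝ) ^ m * (8 / (r : ℝ)) ^ j) ∧
      (∀ r : ℕ, r0 ≤ r → ∀ z ∈ ball (0 : ℂ) ((r : ℝ) / 8), 1 ≤ ‖z‖ →
        ∀ κ κ₁ : C(K × K, ℂ),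
        (∀ x y, κ (x, y) = KK q μ V (h z) (glk l z) q x y) →
        (∀ x y, κ₁ (x, y) = KK q μ V (gh1 q h (φ r) (ψ r) (c₀ r) z)
          (gl1 q l (φ r) (ψ r) (c₀ r) z) q x y) →
        ∀ T T₁ : C(K, ℂ) →L[ℂ] C(K, ℂ),
        T * (1 + O.Op (h z)) = 1 → (1 + O.Op (h z)) * T = 1 →
        T₁ * (1 + O.Op (gh1 q h (φ r) (ψ r) (c₀ r) z)) = 1 →
        (1 + O.Op (gh1 q h (φ r) (ψ r) (c₀ r) z)) * T₁ = 1 →
        LL P (c r) z / (2 * z) = ∑ m ∈ Finset.Icc 1 q, (-1) ^ m *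
          (∫ x : Fin (m + 1) → K, (∏ i, (V (x i) : ℂ)) *
            (JC q m (h z) (glk l z) x - JC q m (gh1 q h (φ r) (ψ r) (c₀ r) z)
              (gl1 q l (φ r) (ψ r) (c₀ r) z) x) ∂(Measure.pi fun _ => μ)) +
          (-1) ^ (q + 1) * (O.tr (T * O.Op (h z)) κ -
            O.tr (T₁ * O.Op (gh1 q h (φ r) (ψ r) (c₀ r) z)) κ₁)) ∧
      (P = 1 → ∀ r : ℕ, r0 ≤ r → ∀ j, Odd j → j < 2 * q + 1 → c r j = 0) := by
  have hfinm := hSp.fin
  choose Ψ hΨ hΨn using fun r k => gm_exists_functional μ Cs hSp V hV M hM (ψ r k)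
  have hA : Differentiable ℂ (fun z => O.Op (h z)) := fun z =>
    clm_differentiableAt (X := C(K × K, ℂ)) (Y := C(K, ℂ) →L[ℂ] C(K, ℂ)) O.Op h z (hhd z)
  have hu := inv_exists _ hl0
  have hA1 : ∀ r z, O.Op (h z) - FRop (φ r) (fun k => c₀ r k z • Ψ r k) =
      O.Op (gh1 q h (φ r) (ψ r) (c₀ r) z) := fun r z =>
    gm_A1 μ Cs hSp V hV M hM O h (φ r) (ψ r) (c₀ r) (Ψ r) (hΨ r) z
  set Mμ : ℝ := |M| * μ.real Set.univ with hMμ
  have hMμ0 : 0 ≤ Mμ := by positivity
  have hC1 : ∀ r : ℕ, C * (r : ℝ) ^ n ≤ (2 * |C| + Mμ) * (r : ℝ) ^ n := by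
    intro r
    have h1 : C ≤ 2 * |C| + Mμ := by
      have := le_abs_self C
      have := abs_nonneg C
      linarith
    gcongr
  obtain ⟨P, c, C', r0, m, hP, hr0, hc, hLL, hparity⟩ := h26 (C(K, ℂ))
    (fun z => O.Op (h z)) hA l0 (Ring.inverse (1 + O.Op (h l0)))
    (Ring.inverse_mul_cancel _ hu) (Ring.mul_inverse_cancel _ hu) (2 * |C| + Mμ) n
    N φ (fun r k z => c₀ r k z • Ψ r k)
    (fun r hr => by
      have hr1 : (1 : ℝ) ≤ r := by exact_mod_cast hr
      have hrn : (1 : ℝ) ≤ (r : ℝ) ^ n := one_le_pow₀ hr1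
      refine ⟨(hN r hr).trans (hC1 r),
        fun k => (hφ r hr k).trans (Real.exp_le_exp.2 (hC1 r)),
        fun k => (hcd r k).smul_const (Ψ r k), ?_, ?_⟩
      · intro k z hz
        rw [norm_smul]
        have e0 : C * (r : ℝ) ^ n ≤ |C| * (r : ℝ) ^ n := by
          gcongr
          exact le_abs_self C
        have e1 : Mμ ≤ Real.exp (Mμ * (r : ℝ) ^ n) := by
          have h2 : Mμ ≤ Mμ * (r : ℝ) ^ n := by nlinarith
          have h3 := Real.add_one_le_exp (Mμ * (r : ℝ) ^ n)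
          linarith
        have e2 : ‖c₀ r k z‖ ≤ Real.exp (|C| * (r : ℝ) ^ n) :=
          (hcb r hr k z hz).trans (Real.exp_le_exp.2 e0)
        have e3 : ‖ψ r k‖ ≤ Real.exp (|C| * (r : ℝ) ^ n) :=
          (hψ r hr k).trans (Real.exp_le_exp.2 e0)
        calc ‖c₀ r k z‖ * ‖Ψ r k‖
            ≤ ‖c₀ r k z‖ * (‖ψ r k‖ * Mμ) := by
              have := hΨn r k
              rw [mul_assoc] at this
              gcongr
          _ ≤ Real.exp (|C| * (r : ℝ) ^ n) * (Real.exp (|C| * (r : ℝ) ^ n) *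
              Real.exp (Mμ * (r : ℝ) ^ n)) := by gcongr
          _ = Real.exp ((2 * |C| + Mμ) * (r : ℝ) ^ n) := by
              rw [← Real.exp_add, ← Real.exp_add]
              congr 1
              ring
      · intro z hz
        simp only [hA1]
        exact hhalf r hr z hz)
    hfin
  refine ⟨P, c, C', r0, m, hP, hr0, hc, ?_, ?_⟩
  · intro r hr z hz hz1 κ κ₁ hκ hκ₁ T T₁ hT hT' hT₁ hT₁'
    have hz0 : z ≠ 0 := by
      intro h0
      rw [h0, norm_zero] at hz1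
      linarith
    have h2z : (2 * z) ≠ 0 := mul_ne_zero two_ne_zero hz0
    have hder : HasDerivAt (fun z => O.Op (h z) - FRop (φ r) (fun k => c₀ r k z • Ψ r k))
        (O.Op ((2 * z) • (dlt K ^ 2 * gl1 q l (φ r) (ψ r) (c₀ r) z))) z := by
      simp only [hA1]
      exact clm_hasDerivAt (X := C(K × K, ℂ)) (Y := C(K, ℂ) →L[ℂ] C(K, ℂ)) O.Op _ _ z
        (gh1_hasDerivAt hq h l hhd hh' (φ r) (ψ r) (c₀ r) (hcd r) z hz0)
    have hT₁a : T₁ * (1 + (O.Op (h z) - FRop (φ r) (fun k => c₀ r k z • Ψ r k))) = 1 := by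
      rw [hA1]; exact hT₁
    have hT₁b : (1 + (O.Op (h z) - FRop (φ r) (fun k => c₀ r k z • Ψ r k))) * T₁ = 1 := by
      rw [hA1]; exact hT₁'
    have e1 := (hLL r hr z hz T T₁ _ hT hT' hT₁a hT₁b hder).2
    have e2 := gm_trace μ Cs hSp V hV M hM h11 h13
      hq O h l hhd hh' (φ r) (ψ r) (c₀ r) (hcd r) (hdiag r) (Ψ r) (hΨ r) z hz0
      κ κ₁ hκ hκ₁ T T₁ _ hT hT' hT₁a hT₁b hder
    rw [← e1, div_eq_iff h2z, mul_comm _ (2 * z)]
    exact e2
  · intro hP1 r hr j hj hj'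
    refine hparity hP1 (2 * q + 1) ?_ ?_ r hr j hj hj'
    · obtain ⟨B, hB⟩ := hpar
      refine ⟨‖O.Op‖ * B, fun z hz => ?_⟩
      have e1 : O.Op (h z) - O.Op (h (-z)) = O.Op (h z - h (-z)) := (map_sub _ _ _).symm
      rw [e1]
      calc ‖O.Op (h z - h (-z))‖ ≤ ‖O.Op‖ * ‖h z - h (-z)‖ := ContinuousLinearMap.le_opNorm _ _
        _ ≤ ‖O.Op‖ * (B * ‖z‖ ^ (2 * q + 1)) := by
            have := hB z hz
            gcongr
        _ = _ := by ring
    · intro r' _ k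
      obtain ⟨B, hB⟩ := hcpar r' k
      refine ⟨B * ‖Ψ r' k‖, fun z hz => ?_⟩
      have e5 : c₀ r' k z • Ψ r' k - c₀ r' k (-z) • Ψ r' k =
          (c₀ r' k z - c₀ r' k (-z)) • Ψ r' k := by
        ext u
        simp [sub_mul]
      rw [e5, norm_smul]
      calc ‖c₀ r' k z - c₀ r' k (-z)‖ * ‖Ψ r' k‖
          ≤ B * ‖z‖ ^ (2 * q + 1) * ‖Ψ r' k‖ := by
            have := hB z hz
            gcongr
        _ = _ := by ring

end AbsK

end Pool.Agent.Work.MP_f2af60_mp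

end

section

/-!
# MP_f2af60_mp, pole form: assembly
-/

namespace Pool.Agent.Work.MP_f2af60_mp.PQ

open MeasureTheory Filter Topology Metric
open scoped SchwartzMap Laplacian ComplexConjugate

variable {q : ℕ}

section ext

variable {R : ℝ}

/-- extension by zero. -/
noncomputable def ext0 (u : C(closedBall (0 : En q) R, ℂ)) : En q → ℂ :=
  Function.extend Subtype.val (u : closedBall (0 : En q) R → ℂ) 0

lemma ext0_measurable (u : C(closedBall (0 : En q) R, ℂ)) : Measurable (ext0 u) :=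
  (MeasurableEmbedding.subtype_coe measurableSet_closedBall).measurable_extend
    u.continuous.measurable measurable_zero

lemma ext0_coe (u : C(closedBall (0 : En q) R, ℂ)) (x : closedBall (0 : En q) R) :
    ext0 u x = u x := Subtype.val_injective.extend_apply _ _ _

lemma ext0_out (u : C(closedBall (0 : En q) R, ℂ)) (x : En q) (hx : R < ‖x‖) : ext0 u x = 0 := by
  rw [ext0, Function.extend_apply' _ _ _ (by
    rintro ⟨a, rfl⟩
    exact absurd (mem_closedBall_zero_iff.1 a.2) (not_le.2 hx))]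
  rfl

lemma ext0_bound (u : C(closedBall (0 : En q) R, ℂ)) (x : En q) : ‖ext0 u x‖ ≤ ‖u‖ := by
  by_cases hx : x ∈ closedBall (0 : En q) R
  · rw [show ext0 u x = u ⟨x, hx⟩ from ext0_coe u ⟨x, hx⟩]
    exact u.norm_coe_le_norm _
  · rw [ext0_out u x (by simpa using hx), norm_zero]
    exact norm_nonneg _

lemma integral_muB (F : En q → ℂ) (hF : ∀ x, R < ‖x‖ → F x = 0) :
    ∫ y : closedBall (0 : En q) R, F y ∂(muQ q R) = ∫ y, F y := by
  rw [muQ, integral_subtype_comap measurableSet_closedBall F]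
  refine setIntegral_eq_integral_of_forall_compl_eq_zero ?_
  intro y hy
  exact hF y (by simpa using hy)

end ext

/-- A bounded measurable function supported in a ball is in `L²`. -/
lemma memLp_two (F : En q → ℂ) (hF : Measurable F) (M R : ℝ) (hM : ∀ x, ‖F x‖ ≤ M)
    (hR : ∀ x, R < ‖x‖ → F x = 0) : MemLp F 2 volume := by
  have h1 : Integrable F := rep_F_integrable F hF M R hM hR
  rw [memLp_two_iff_integrable_sq_norm hF.aestronglyMeasurable]
  refine (h1.norm.mul_const M).mono' (hF.aestronglyMeasurable.norm.pow 2) ?_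
  refine Eventually.of_forall fun x => ?_
  rw [Real.norm_of_nonneg (by positivity), sq]
  exact mul_le_mul_of_nonneg_left (hM x) (norm_nonneg _)

/-- The weak equation for the kernel representation. -/
theorem isResolvent_of_kernel (hS : Subord) (hH : HHFacts) (h3 : Fundamental) (R : ℝ) (V : En q → ℝ) (hV : Measurable V)
    (M : ℝ) (hM : ∀ x, |V x| ≤ M) (hVR : ∀ x, R < ‖x‖ → V x = 0) (k : ℝ) (hk : 0 < k)
    (w v : C(closedBall (0 : En q) R, ℂ))
    (hvw : ∀ x : closedBall (0 : En q) R,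
      v x + ∫ y, GG q (Complex.I * (k : ℂ)) ((x : En q) - y) * ((V y : ℂ) * ext0 v y) = w x)
    (f : L2 q) (hf : ∀ᵐ x, f x = (V x : ℂ) * ext0 w x) :
    ∃ u : L2 q, IsResolvent V k f u ∧
      ∀ᵐ x, u x = ∫ y, GG q (Complex.I * (k : ℂ)) (x - y) * ((V y : ℂ) * ext0 v y) := by
  set F : En q → ℂ := fun y => (V y : ℂ) * ext0 v y with hF
  have hFm : Measurable F := (Complex.measurable_ofReal.comp hV).mul (ext0_measurable v)
  have hFb : ∀ x, ‖F x‖ ≤ M * ‖v‖ := by
    intro x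
    rw [hF]
    simp only [norm_mul, Complex.norm_real, Real.norm_eq_abs]
    exact mul_le_mul (hM x) (ext0_bound v x) (norm_nonneg _) ((abs_nonneg _).trans (hM x))
  have hF0 : ∀ x, R < ‖x‖ → F x = 0 := by
    intro x hx
    simp [hF, hVR x hx]
  have hFi : Integrable F := rep_F_integrable F hFm _ R hFb hF0
  have hU := rep_memLp (GG q (Complex.I * (k : ℂ))) F (gg_integrable hS hH k hk) hFi _ hFb
  set U : En q → ℂ := fun x => ∫ y, GG q (Complex.I * (k : ℂ)) (x - y) * F y with hUdef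
  refine ⟨hU.toLp U, ?_, hU.coeFn_toLp⟩
  intro φ
  have hVU : ∀ x, (V x : ℂ) * U x = (V x : ℂ) * (ext0 w x - ext0 v x) := by
    intro x
    by_cases hx : R < ‖x‖
    · simp [hVR x hx]
    · have hxK : x ∈ closedBall (0 : En q) R := by
        rw [mem_closedBall_zero_iff]; exact not_lt.1 hx
      have h1 := hvw ⟨x, hxK⟩
      have h2 : ext0 w x = w ⟨x, hxK⟩ := ext0_coe w ⟨x, hxK⟩
      have h3 : ext0 v x = v ⟨x, hxK⟩ := ext0_coe v ⟨x, hxK⟩
      rw [h2, h3, ← h1]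
      simp only [hUdef, hF, add_sub_cancel_left]
  set ψ : 𝓢(En q, ℂ) := -(Δ φ) + ((k : ℂ) ^ 2) • φ with hψ
  have hψx : ∀ x, -(Δ φ) x + (k : ℂ) ^ 2 * φ x = ψ x := by
    intro x
    simp [hψ]
  have hbw : ∀ x, ‖(V x : ℂ) * (ext0 w x - ext0 v x)‖ ≤ M * (‖w‖ + ‖v‖) := by
    intro x
    simp only [norm_mul, Complex.norm_real, Real.norm_eq_abs]
    refine mul_le_mul (hM x) ((norm_sub_le _ _).trans
      (add_le_add (ext0_bound w x) (ext0_bound v x))) (norm_nonneg _)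
      ((abs_nonneg _).trans (hM x))
  have hmw : Measurable (fun x => (V x : ℂ) * (ext0 w x - ext0 v x)) :=
    (Complex.measurable_ofReal.comp hV).mul ((ext0_measurable w).sub (ext0_measurable v))
  have hi1 : Integrable (fun x => (V x : ℂ) * (ext0 w x - ext0 v x)) :=
    rep_F_integrable _ hmw _ R hbw (by intro x hx; simp [hVR x hx])
  obtain ⟨C, hC⟩ : ∃ C, ∀ x, ‖φ x‖ ≤ C := by
    obtain ⟨C, -, hC⟩ := φ.decay 0 0
    exact ⟨C, fun x => by simpa using hC x⟩
  have hi2 : Integrable (fun x => (V x : ℂ) * (ext0 w x - ext0 v x) * φ x) :=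
    hi1.mul_bdd (c := C) φ.continuous.aestronglyMeasurable (Eventually.of_forall hC)
  have hi3 : Integrable (fun x => F x * φ x) :=
    hFi.mul_bdd (c := C) φ.continuous.aestronglyMeasurable (Eventually.of_forall hC)
  have hi4 : Integrable (fun x => U x * ψ x) := by
    have := MemLp.integrable_mul hU (ψ.memLp 2 volume)
    exact this
  calc ∫ x, (hU.toLp U) x * (-(Δ φ) x + ((V x : ℂ) + (k : ℂ) ^ 2) * φ x)
      = ∫ x, (U x * ψ x + (V x : ℂ) * (ext0 w x - ext0 v x) * φ x) := by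
        refine integral_congr_ae ?_
        filter_upwards [hU.coeFn_toLp] with x hx
        rw [hx, ← hVU x, ← hψx x]
        ring
    _ = (∫ x, U x * ψ x) + ∫ x, (V x : ℂ) * (ext0 w x - ext0 v x) * φ x := integral_add hi4 hi2
    _ = (∫ y, F y * φ y) + ∫ x, (V x : ℂ) * (ext0 w x - ext0 v x) * φ x := by
        have := rep_weak hS hH h3 k hk F hFi φ
        simp_rw [hψx] at this
        rw [hUdef, this]
    _ = ∫ x, (F x * φ x + (V x : ℂ) * (ext0 w x - ext0 v x) * φ x) := (integral_add hi3 hi2).symm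
    _ = ∫ x, f x * φ x := by
        refine integral_congr_ae ?_
        filter_upwards [hf] with x hx
        rw [hx, hF]
        ring

lemma eb_eq (l : ℂ) (x y : En q) :
    eb q (l * ((dist x y : ℝ) : ℂ)) * ((((dist x y) ^ (2 * q + 1))⁻¹ : ℝ) : ℂ) = GG q l (x - y) := by
  unfold GG
  rw [dist_eq_norm]
  push_cast
  rw [div_eq_mul_inv]

/-- The operator on the ball as a convolution on the whole space. -/
lemma op_eq_conv {R : ℝ} (V : En q → ℝ) (hVR : ∀ x, R < ‖x‖ → V x = 0)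
    (O : OpsQ q (muQ q R) (fun x : closedBall (0 : En q) R => V x))
    (h : ℂ → C(closedBall (0 : En q) R × closedBall (0 : En q) R, ℂ))
    (hh : ∀ z x y, h z (x, y) = eb q (z * ((dist x y : ℝ) : ℂ))) (z : ℂ) (v : C(closedBall (0 : En q) R, ℂ))
    (x : closedBall (0 : En q) R) :
    O.Op (h z) v x = ∫ y, GG q z ((x : En q) - y) * ((V y : ℂ) * ext0 v y) := by
  rw [O.Op_apply]
  have h3 : ∀ y : closedBall (0 : En q) R,
      h z (x, y) * ((((dist x y) ^ (2 * q + 1))⁻¹ : ℝ) : ℂ) * (V y : ℂ) * v y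
      = (fun y : En q => GG q z ((x : En q) - y) * ((V y : ℂ) * ext0 v y)) y := by
    intro y
    rw [hh, show dist x y = dist (x : En q) y from rfl, eb_eq]
    simp only [ext0_coe]
    ring
  simp_rw [h3]
  exact integral_muB (fun y : En q => GG q z ((x : En q) - y) * ((V y : ℂ) * ext0 v y))
    (by intro y hy; simp [hVR y hy])

lemma clm_differentiableAt {X Y : Type} [NormedAddCommGroup X] [NormedSpace ℂ X]
    [NormedAddCommGroup Y] [NormedSpace ℂ Y] (L : X →L[ℂ] Y) (f : ℂ → X) (z : ℂ)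
    (h : DifferentiableAt ℂ f z) :
    DifferentiableAt ℂ (fun z => L (f z)) z :=
  L.differentiableAt.comp z h

/-- the functional `u ↦ ∫ ψ u`. -/
lemma exists_functional {K : Type} [MetricSpace K] [CompactSpace K] [MeasurableSpace K]
    [BorelSpace K] (μ : Measure K) [IsFiniteMeasure μ] (ψ : C(K, ℂ)) :
    ∃ P : C(K, ℂ) →L[ℂ] ℂ, ∀ u, P u = ∫ y, ψ y * u y ∂μ := by
  have hint : ∀ u : C(K, ℂ), Integrable (fun y => ψ y * u y) μ := by
    intro u
    have hc : Continuous (fun y => ψ y * u y) := by fun_prop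
    exact hc.integrable_of_hasCompactSupport (HasCompactSupport.of_compactSpace _)
  let L : C(K, ℂ) →ₗ[ℂ] ℂ :=
    { toFun := fun u => ∫ y, ψ y * u y ∂μ
      map_add' := by
        intro u v
        rw [← integral_add (hint u) (hint v)]
        refine integral_congr_ae (Eventually.of_forall fun y => ?_)
        simp [mul_add]
      map_smul' := by
        intro a u
        rw [RingHom.id_apply, smul_eq_mul, ← integral_const_mul]
        refine integral_congr_ae (Eventually.of_forall fun y => ?_)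
        simp only [ContinuousMap.smul_apply, smul_eq_mul]
        ring }
  have hb : ∀ u, ‖L u‖ ≤ ‖ψ‖ * μ.real Set.univ * ‖u‖ := by
    intro u
    have : ‖∫ y, ψ y * u y ∂μ‖ ≤ (‖ψ‖ * ‖u‖) * μ.real Set.univ := by
      refine norm_integral_le_of_norm_le_const (Eventually.of_forall fun y => ?_)
      rw [norm_mul]
      have h1 := ψ.norm_coe_le_norm y
      have h2 := u.norm_coe_le_norm y
      gcongr
    calc ‖L u‖ ≤ (‖ψ‖ * ‖u‖) * μ.real Set.univ := this
      _ = _ := by ring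
  exact ⟨L.mkContinuous _ hb, fun u => rfl⟩

/-- Every outgoing solution produces a pole. -/
theorem isPole_of_isRes (hS : Subord) (hH : HHFacts) (h3 : Fundamental)
    (hEU : ResolventExistsUnique) (V : En q → ℝ)
    (hV : Measurable V) (M R' : ℝ) (hM : ∀ x, |V x| ≤ M) (hsupp : ∀ x, R' < ‖x‖ → V x = 0)
    (O : OpsQ q (muQ q R') (fun x : closedBall (0 : En q) R' => V x))
    (hfin : IsFiniteMeasure (muQ q R'))
    (h : ℂ → C(closedBall (0 : En q) R' × closedBall (0 : En q) R', ℂ))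
    (hh : ∀ z x y, h z (x, y) = eb q (z * ((dist x y : ℝ) : ℂ))) (hhd : Differentiable ℂ h)
    (s0 : ℝ) (hs0 : 0 < s0) (has : ∀ s ≥ s0, ‖O.Op (h (Complex.I * (s : ℂ)))‖ ≤ 1 / 2)
    (hloc : ∀ r : ℕ, 1 ≤ r → ∃ (N : ℕ) (φ : Fin N → C(closedBall (0 : En q) R', ℂ))
      (ψ : Fin N → ℂ → (C(closedBall (0 : En q) R', ℂ) →L[ℂ] ℂ)),
      (∀ k, Differentiable ℂ (ψ k)) ∧
      ∀ l ∈ ball (0 : ℂ) r, ‖O.Op (h l) - FRop φ (fun k => ψ k l)‖ ≤ 1 / 2)
    (z0 : ℂ) (hz0 : IsRes q V z0) : IsPole V z0 := by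
  set A : ℂ → C(closedBall (0 : En q) R', ℂ) →L[ℂ] C(closedBall (0 : En q) R', ℂ) :=
    fun z => O.Op (h z) with hAdef
  have hA : Differentiable ℂ A := fun z =>
    clm_differentiableAt (X := C(closedBall (0 : En q) R' × closedBall (0 : En q) R', ℂ))
      (Y := C(closedBall (0 : En q) R', ℂ) →L[ℂ] C(closedBall (0 : En q) R', ℂ)) O.Op h z (hhd z)
  have hunit : ∀ z1, ∀ᶠ z in 𝓝[≠] z1, IsUnit (1 + A z) := fun z1 =>
    eventually_isUnit A hA hloc (Complex.I * (s0 : ℂ)) (isUnit_of_small _ (has s0 le_rfl)) z1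
  have hmer : ∀ z1, MeromorphicAt (fun z => Ring.inverse (1 + A z)) z1 := by
    intro z1
    obtain ⟨r, hr⟩ := exists_nat_gt (max ‖z1‖ 1)
    have hr1 : 1 ≤ r := by
      have : (1 : ℝ) < r := (le_max_right _ _).trans_lt hr
      exact_mod_cast this.le
    obtain ⟨N, φ, ψ, hψ, hsm⟩ := hloc r hr1
    refine meroInverse _ A hA z1 N φ ψ hψ ?_ (hunit z1).frequently
    have : ball (0 : ℂ) r ∈ 𝓝 z1 := isOpen_ball.mem_nhds (by
      rw [mem_ball_zero_iff]
      exact (le_max_left _ _).trans_lt hr)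
    filter_upwards [this] with z hz
    exact hsm z hz
  -- the kernel vector
  obtain ⟨u, huc, hu0, hux⟩ := hz0
  set uK : C(closedBall (0 : En q) R', ℂ) := ⟨fun x => u x, by fun_prop⟩ with huK
  have hVu : ∀ y, (V y : ℂ) * ext0 uK y = (V y : ℂ) * u y := by
    intro y
    by_cases hy : R' < ‖y‖
    · simp [hsupp y hy]
    · have hyK : y ∈ closedBall (0 : En q) R' := by
        rw [mem_closedBall_zero_iff]; exact not_lt.1 hy
      rw [show ext0 uK y = uK ⟨y, hyK⟩ from ext0_coe uK ⟨y, hyK⟩]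
      rfl
  have hker : uK + A z0 uK = 0 := by
    ext x
    have h1 := hux x
    have h2 : A z0 uK x = ∫ y, GG q z0 ((x : En q) - y) * ((V y : ℂ) * ext0 uK y) :=
      op_eq_conv V hsupp O h hh z0 uK x
    simp_rw [hVu] at h2
    rw [ContinuousMap.add_apply, ContinuousMap.zero_apply, h2]
    show u x + _ = 0
    rw [h1]
    simp_rw [mul_assoc]
    exact neg_add_cancel _
  have huK0 : uK ≠ 0 := by
    intro hc
    apply hu0
    funext x
    rw [hux x]
    have h4 : ∀ y, GG q z0 (x - y) * (V y : ℂ) * u y = 0 := by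
      intro y
      have h5 := hVu y
      rw [hc] at h5
      have h6 : ext0 (0 : C(closedBall (0 : En q) R', ℂ)) y = 0 := by
        have := ext0_bound (0 : C(closedBall (0 : En q) R', ℂ)) y
        rw [norm_zero] at this
        exact norm_le_zero_iff.1 this
      rw [h6, mul_zero] at h5
      rw [mul_assoc, ← h5, mul_zero]
    simp [h4]
  obtain ⟨w, u₀, hu₀, hker₀, hP⟩ := poleOfKernel _ A z0 (hA z0).continuousAt (hmer z0)
    (hunit z0) uK huK0 hker
  -- the functional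
  set cu : C(closedBall (0 : En q) R', ℂ) := ⟨fun x => conj (u₀ x), by fun_prop⟩ with hcu
  obtain ⟨P, hPv⟩ := exists_functional (muQ q R') cu
  have hPv' : ∀ v : C(closedBall (0 : En q) R', ℂ), P v = ∫ y, conj (u₀ y) * v y ∂(muQ q R') := by
    intro v
    rw [hPv]
    rfl
  have hPu : P u₀ ≠ 0 := by
    intro hc
    rw [hPv'] at hc
    have h4 : ∫ y, ‖u₀ y‖ ^ 2 ∂(muQ q R') = 0 := by
      have h5 : ((∫ y, ‖u₀ y‖ ^ 2 ∂(muQ q R') : ℝ) : ℂ) = 0 := by
        rw [← integral_complex_ofReal, ← hc]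
        refine integral_congr_ae (Eventually.of_forall fun y => ?_)
        simp only
        rw [Complex.conj_mul']
        push_cast
        rfl
      exact_mod_cast h5
    have h6 : Integrable (fun y => ‖u₀ y‖ ^ 2) (muQ q R') := by
      have hc : Continuous (fun y => ‖u₀ y‖ ^ 2) := by fun_prop
      exact hc.integrable_of_hasCompactSupport (HasCompactSupport.of_compactSpace _)
    have h7 := (integral_eq_zero_iff_of_nonneg (fun y => by positivity) h6).1 h4
    apply hu₀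
    have h8 : A z0 u₀ = 0 := by
      ext x
      show O.Op (h z0) u₀ x = 0
      rw [O.Op_apply]
      refine integral_eq_zero_of_ae ?_
      filter_upwards [h7] with y hy
      have : u₀ y = 0 := by simpa using hy
      rw [this]
      simp
    rw [h8, add_zero] at hker₀
    exact hker₀
  -- the functions `f` and `g`
  have hfm : Measurable (fun x => (V x : ℂ) * ext0 w x) :=
    (Complex.measurable_ofReal.comp hV).mul (ext0_measurable w)
  have hfb : ∀ x, ‖(V x : ℂ) * ext0 w x‖ ≤ M * ‖w‖ := by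
    intro x
    simp only [norm_mul, Complex.norm_real, Real.norm_eq_abs]
    exact mul_le_mul (hM x) (ext0_bound w x) (norm_nonneg _) ((abs_nonneg _).trans (hM x))
  have hfL := memLp_two _ hfm _ R' hfb (by intro x hx; simp [hsupp x hx])
  have hgL := memLp_two _ (ext0_measurable cu) _ R' (ext0_bound cu) (ext0_out cu)
  refine ⟨hfL.toLp _, hgL.toLp _, ⟨R', ?_⟩, ⟨R', ?_⟩, fun z => P w - P (Ring.inverse (1 + A z) w),
    ⟨?_, max s0 (max 1 |M|), ?_⟩, hP P hPu⟩
  · filter_upwards [hfL.coeFn_toLp] with x hx hxR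
    rw [hx]
    simp [hsupp x hxR]
  · filter_upwards [hgL.coeFn_toLp] with x hx hxR
    rw [hx]
    exact ext0_out cu x hxR
  · intro z
    have h4 : MeromorphicAt (fun z => P (Ring.inverse (1 + A z) w)) z := by
      obtain ⟨m, hm⟩ := hmer z
      refine ⟨m, ?_⟩
      have h5 : AnalyticAt ℂ (fun y => P (((y - z) ^ m • Ring.inverse (1 + A y)) w)) z := by
        have h6 : AnalyticAt ℂ (fun y => ((y - z) ^ m • Ring.inverse (1 + A y)) w) z :=
          ((ContinuousLinearMap.apply ℂ (C(closedBall (0 : En q) R', ℂ)) w).analyticAt _).comp hm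
        exact (P.analyticAt _).comp h6
      refine h5.congr (Eventually.of_forall fun y => ?_)
      simp only [_root_.smul_apply, map_smul]
    exact (MeromorphicAt.const (P w) z).sub h4
  · intro k hk'
    have hk : s0 < k := (le_max_left _ _).trans_lt hk'
    have hk0 : 0 < k := hs0.trans hk
    have hk1 : 1 < k := ((le_max_left _ _).trans (le_max_right _ _)).trans_lt hk'
    have hk2 : |M| < k := ((le_max_right _ _).trans (le_max_right _ _)).trans_lt hk'
    have hk3 : M < k ^ 2 := by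
      have := le_abs_self M
      nlinarith
    have hU : IsUnit (1 + A (Complex.I * (k : ℂ))) := isUnit_of_small _ (has k hk.le)
    set v := Ring.inverse (1 + A (Complex.I * (k : ℂ))) w with hv
    have hvw : v + A (Complex.I * (k : ℂ)) v = w := by
      have h4 := congrArg (fun L : C(closedBall (0 : En q) R', ℂ) →L[ℂ] C(closedBall (0 : En q) R', ℂ)
        => L w) (Ring.mul_inverse_cancel _ hU)
      simpa using h4
    have hvw' : ∀ x : closedBall (0 : En q) R',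
        v x + ∫ y, GG q (Complex.I * (k : ℂ)) ((x : En q) - y) * ((V y : ℂ) * ext0 v y) = w x := by
      intro x
      rw [← op_eq_conv V hsupp O h hh (Complex.I * (k : ℂ)) v x]
      have := congrArg (fun f : C(closedBall (0 : En q) R', ℂ) => f x) hvw
      simpa using this
    obtain ⟨U, hU1, hU2⟩ := isResolvent_of_kernel hS hH h3 R' V hV M hM hsupp k hk0 w v hvw'
      (hfL.toLp _) hfL.coeFn_toLp
    obtain ⟨U', hU', hU''⟩ := hEU q V hV M hM k hk0 hk3 (hfL.toLp _)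
    refine ⟨U, fun v => ⟨fun hv => ?_, fun hv => hv ▸ hU1⟩, ?_⟩
    · rw [hU'' v hv, hU'' U hU1]
    have h5 : ∫ x, U x * (hgL.toLp _) x = ∫ x, ext0 cu x * (ext0 w x - ext0 v x) := by
      refine integral_congr_ae ?_
      filter_upwards [hU2, hgL.coeFn_toLp] with x hx1 hx2
      rw [hx1, hx2]
      by_cases hx : R' < ‖x‖
      · rw [ext0_out cu x hx]
        simp
      · have hxK : x ∈ closedBall (0 : En q) R' := by
          rw [mem_closedBall_zero_iff]; exact not_lt.1 hx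
        have h6 := hvw' ⟨x, hxK⟩
        rw [show ext0 w x = w ⟨x, hxK⟩ from ext0_coe w ⟨x, hxK⟩,
          show ext0 v x = v ⟨x, hxK⟩ from ext0_coe v ⟨x, hxK⟩, ← h6, add_sub_cancel_left]
        ring
    rw [h5, ← integral_muB (R := R') (fun x => ext0 cu x * (ext0 w x - ext0 v x))
      (by intro x hx; rw [ext0_out cu x hx, zero_mul])]
    simp only [ext0_coe]
    have h7 : ∀ y : closedBall (0 : En q) R', cu y = conj (u₀ y) := fun y => rfl
    simp_rw [h7]
    have h8 := hPv' (w - v)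
    rw [map_sub] at h8
    rw [h8]
    rfl

end Pool.Agent.Work.MP_f2af60_mp.PQ

end

section

/-!
# MP_f2af60_mp, all odd dimensions: assembly, part 4
-/

namespace Pool.Agent.Work.MP_f2af60_mp

open MeasureTheory Metric Filter Topology

lemma gm_rpow_aux (C E : ℝ) (hE : 0 < E) :
    C / E * (C * E ^ (-(1 / 2) : ℝ)) = C ^ 2 * E ^ (-(3 / 2) : ℝ) := by
  have h1 : E ^ (-(3 / 2) : ℝ) = E⁻¹ * E ^ (-(1 / 2) : ℝ) := by
    rw [← Real.rpow_neg_one, ← Real.rpow_add hE]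
    norm_num
  rw [h1]
  field_simp

/-- The structure theorem: if `V` has finitely many resonances, then the real side has an
expansion. -/
theorem gm_struct (h1 : EbFacts) (h5 : SpBallQ) (h6 : ExistsOpsQ) (h8 : KKFacts) (h11 : TraceIdQ)
    (h13 : ChainRep) (h15 : LimJ) (h16 : ImagQ) (h20 : DecompQ) (h21 : KerResQ) (h22 : FamiliesQ)
    (h26 : DiscFac) (h30 : Expand) (h34 : ScalingF) (h43 : MultiExpand) (h35 : PlanchV)
    {q : ℕ} (hq : 1 ≤ q) {R : ℝ} (hR : 0 < R) (V : En q → ℝ) (hV : Measurable V) (M : ℝ)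
    (hM : ∀ x, |V x| ≤ M) (hsupp : ∀ x, R < ‖x‖ → V x = 0) (hfin : {l : ℂ | IsRes q V l}.Finite) :
    ∃ (N : ℕ) (α : ℕ → ℝ) (C E1 : ℝ), 1 ≤ E1 ∧
      (∀ E ≥ E1, |FF q V E + (N : ℝ) / (2 * q) * E⁻¹ -
        ∑ i ∈ Finset.range q, α i * E ^ ((q : ℝ) - 3 / 2 - i)| ≤ C * E ^ (-(3 / 2) : ℝ)) ∧
      (N = 0 → ∀ i < q, α i = 0) := by
  obtain ⟨Cs, hCs, hSp⟩ := h5 q R hR
  have hfinm := hSp.fin
  have hV' : Measurable (fun x : closedBall (0 : En q) R => V x) := hV.comp measurable_subtype_coe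
  have hM' : ∀ x : closedBall (0 : En q) R, |V x| ≤ M := fun x => hM x
  obtain ⟨O⟩ := h6 q _ (muQ q R) Cs hSp (fun x : closedBall (0 : En q) R => V x) hV' M hM'
  obtain ⟨h, l, hh, hl, hhd, hh'0, hpar⟩ := h22 q hq (closedBall (0 : En q) R)
  have hh' : ∀ z, deriv h z = (z / (2 * (Real.pi : ℂ))) • (dlt _ ^ 2 * l z) := by
    intro z
    ext ⟨x, y⟩
    rw [hh'0 z x y]
    simp only [ContinuousMap.smul_apply, ContinuousMap.mul_apply, ContinuousMap.pow_apply,
      smul_eq_mul]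
    have : (dlt (closedBall (0 : En q) R)) (x, y) = ((dist x y : ℝ) : ℂ) := rfl
    rw [this]
    ring
  obtain ⟨Ci, hCi0, hCi⟩ := gm_imag h16 hq hR V hV M hM
  obtain ⟨Ck, hCk, hKK⟩ := h8 q hq _ (muQ q R) Cs hSp (fun x : closedBall (0 : En q) R => V x)
    hV' M hM'
  obtain ⟨Cb, hCb⟩ := h1.2.2.1 q
  have hB : ∀ w : ℂ, ‖w‖ ≤ 1 → ‖eb q w‖ ≤ |Cb| * 2 ^ q * Real.exp 1 := by
    intro w hw
    refine (hCb w).trans ?_
    have e1 : -w.im ≤ 1 := by
      have := Complex.abs_im_le_norm w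
      have := neg_abs_le w.im
      linarith
    have e2 : 1 + ‖w‖ ≤ 2 := by linarith
    calc Cb * (1 + ‖w‖) ^ q * Real.exp (-w.im) ≤ |Cb| * (1 + ‖w‖) ^ q * Real.exp (-w.im) := by
          gcongr
          exact le_abs_self Cb
      _ ≤ |Cb| * 2 ^ q * Real.exp 1 := by gcongr
  set B0 : ℝ := |Cb| * 2 ^ q * Real.exp 1 with hB0d
  have hB0 : 0 ≤ B0 := by positivity
  obtain ⟨ε, he, he1, hsm⟩ := gm_small_param M B0 Cs ((muQ q R).real Set.univ) hB0 hCs.le
    measureReal_nonneg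
  obtain ⟨Cd, nd, hdat⟩ := decData_exists h20 hq hR he he
  let dat : ∀ r : ℕ, DecData q R ε ε Cd nd (max r 1) := fun r =>
    Classical.choice (hdat (max r 1) (le_max_right _ _))
  -- a starting point on the imaginary axis
  set E0 : ℝ := max 1 (2 * Ci) with hE0
  have hE01 : 1 ≤ E0 := le_max_left _ _
  have hA2 : ∀ (i : ℕ) (E : ℝ), E0 ≤ E → ‖O.Op (h (lam i E))‖ ≤ 1 / 2 := by
    intro i E hE
    have hE1 : 1 ≤ E := hE01.trans hE
    refine (hCi O h l hh hl i E hE1).1.trans ?_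
    rw [div_le_iff₀ (by linarith)]
    have : 2 * Ci ≤ E := (le_max_right _ _).trans hE
    linarith
  have hhalf := gm_half dat hR he he1 Cs hSp V M hM O h hh B0 hB0 hB hsm
  have hfin2 : {z : ℂ | ∃ u : C(closedBall (0 : En q) R, ℂ), u ≠ 0 ∧
      u + O.Op (h z) u = 0}.Finite := by
    refine hfin.subset fun z hz => ?_
    obtain ⟨u, hu0, hu⟩ := hz
    refine h21 q hq R hR V hV M hM hsupp z u hu0 fun x => ?_
    have e1 := congrArg (fun f : C(closedBall (0 : En q) R, ℂ) => f x) hu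
    simp only [ContinuousMap.add_apply, ContinuousMap.zero_apply] at e1
    rw [O.Op_apply] at e1
    simp only [hh] at e1
    exact e1
  have hmr : ∀ r : ℕ, 1 ≤ r → ((max r 1 : ℕ) : ℝ) = (r : ℝ) := fun r hr => by
    rw [max_eq_left hr]
  obtain ⟨P, c, C', r0, m, hP, hr0, hc, hLL, hparity⟩ := gm_disc h11 h13 h26 hq (muQ q R) Cs hSp
    (fun x : closedBall (0 : En q) R => V x) hV' M hM' O h l hhd hh' hpar Cd nd
    (fun r => (dat r).N) (fun r => (dat r).φ) (fun r => (dat r).ψ) (fun r => (dat r).c)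
    (fun r hr => by
      have := (dat r).hN
      rwa [hmr r hr] at this)
    (fun r hr k => by
      have := (dat r).hφ k
      rwa [hmr r hr] at this)
    (fun r hr k => by
      have := (dat r).hψ k
      rwa [hmr r hr] at this)
    (fun r k => (dat r).hc k)
    (fun r hr k z hz => by
      have := (dat r).hcb k z
      rw [hmr r hr] at this
      exact this hz)
    (fun r k x => (dat r).hdiag k x) (fun r k => (dat r).hpar k)
    (fun r hr z hz => hhalf r z (by rwa [hmr r hr]))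
    (lam 0 E0) (hA2 0 E0 le_rfl) hfin2
  obtain ⟨CF, hCF0, hCF⟩ := gm_growth h34 h43 h35 hq V hV M R hM hsupp
  obtain ⟨Ct, hCt, htr⟩ := tr_bound O
  -- the constant
  set S : ℝ := ∑ i ∈ Finset.range q, ‖(-1 : ℂ) ^ i * ((q - 1).choose i : ℂ)‖ with hSdef
  have hS0 : 0 ≤ S := Finset.sum_nonneg fun i _ => norm_nonneg _
  set CC : ℝ := |C'| + CF + S * (Ct * 2 * Ci ^ 2) with hCC
  have hCC1 : C' ≤ CC := by
    have := le_abs_self C'
    have : 0 ≤ S * (Ct * 2 * Ci ^ 2) := by positivity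
    linarith
  have hCC2 : CF ≤ CC := by
    have := abs_nonneg C'
    have : 0 ≤ S * (Ct * 2 * Ci ^ 2) := by positivity
    linarith
  have hCC3 : S * (Ct * 2 * Ci ^ 2) ≤ CC := by
    have := abs_nonneg C'
    linarith
  have hlimit : ∀ E ≥ E0, ∀ η > 0, ∀ᶠ r in atTop,
      ‖(∑ i ∈ Finset.range q, (-1) ^ i * ((q - 1).choose i : ℂ) *
        (LL P (c r) (Complex.I * (Real.sqrt ((1 + (i : ℝ)) * E) : ℂ)) /
          (2 * (Complex.I * (Real.sqrt ((1 + (i : ℝ)) * E) : ℂ))))) - (FF q V E : ℂ)‖ ≤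
        CC * E ^ (-(3 / 2) : ℝ) + η := by
    intro E hE η hη
    have hE1' : 1 ≤ E := hE01.trans hE
    have hEpos : 0 < E := by linarith
    -- inverses
    set T : ℕ → C(closedBall (0 : En q) R, ℂ) →L[ℂ] C(closedBall (0 : En q) R, ℂ) :=
      fun i => Ring.inverse (1 + O.Op (h (lam i E))) with hT
    set T₁ : ℕ → ℕ → C(closedBall (0 : En q) R, ℂ) →L[ℂ] C(closedBall (0 : En q) R, ℂ) :=
      fun r i => Ring.inverse (1 + O.Op (gh1 q h (dat r).φ (dat r).ψ (dat r).c (lam i E))) with hT₁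
    set κ : ℕ → C(closedBall (0 : En q) R × closedBall (0 : En q) R, ℂ) := fun i =>
      ⟨Function.uncurry (KK q (muQ q R) (fun x : closedBall (0 : En q) R => V x) (h (lam i E))
        (glk l (lam i E)) q), (hKK _ _).2.2.2.1⟩ with hκ
    set κ₁ : ℕ → ℕ → C(closedBall (0 : En q) R × closedBall (0 : En q) R, ℂ) := fun r i =>
      ⟨Function.uncurry (KK q (muQ q R) (fun x : closedBall (0 : En q) R => V x)
        (gh1 q h (dat r).φ (dat r).ψ (dat r).c (lam i E))
        (gl1 q l (dat r).φ (dat r).ψ (dat r).c (lam i E)) q), (hKK _ _).2.2.2.1⟩ with hκ₁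
    have hu : ∀ i, IsUnit (1 + O.Op (h (lam i E))) := fun i => inv_exists _ (hA2 i E hE)
    obtain ⟨r1, hr1⟩ : ∃ r1 : ℕ, ∀ i < q, ‖lam i E‖ < (r1 : ℝ) / 8 := by
      obtain ⟨r1, hr1⟩ := exists_nat_gt (8 * Real.sqrt ((1 + (q : ℝ)) * E))
      refine ⟨r1, fun i hi => ?_⟩
      rw [lam_norm i E]
      have h1 : (i : ℝ) ≤ q := by exact_mod_cast hi.le
      have h2 : Real.sqrt ((1 + (i : ℝ)) * E) ≤ Real.sqrt ((1 + (q : ℝ)) * E) := by
        apply Real.sqrt_le_sqrt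
        nlinarith
      linarith
    have hball8 : ∀ r : ℕ, r1 ≤ r → ∀ i < q, lam i E ∈ ball (0 : ℂ) ((r : ℝ) / 8) := by
      intro r hr i hi
      rw [mem_ball_zero_iff]
      refine (hr1 i hi).trans_le ?_
      have : (r1 : ℝ) ≤ r := by exact_mod_cast hr
      linarith
    have hballm : ∀ r : ℕ, r1 ≤ r → ∀ i < q, lam i E ∈ ball (0 : ℂ) ((max r 1 : ℕ) : ℝ) := by
      intro r hr i hi
      have h2 := hball8 r hr i hi
      rw [mem_ball_zero_iff] at h2 ⊢
      have h3 : (r : ℝ) ≤ ((max r 1 : ℕ) : ℝ) := by exact_mod_cast le_max_left r 1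
      have h4 : (0 : ℝ) ≤ r := Nat.cast_nonneg r
      linarith
    have hu1 : ∀ r : ℕ, r1 ≤ r → ∀ i < q,
        IsUnit (1 + O.Op (gh1 q h (dat r).φ (dat r).ψ (dat r).c (lam i E))) := fun r hr i hi =>
      inv_exists _ (hhalf r _ (hballm r hr i hi))
    have hid : ∀ r : ℕ, r0 ≤ r → r1 ≤ r → ∀ i < q,
        LL P (c r) (lam i E) / (2 * lam i E) = ∑ m ∈ Finset.Icc 1 q, (-1) ^ m *
          Imr dat V h l m r i E + (-1) ^ (q + 1) * (O.tr (T i * O.Op (h (lam i E))) (κ i) -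
            O.tr (T₁ r i * O.Op (gh1 q h (dat r).φ (dat r).ψ (dat r).c (lam i E))) (κ₁ r i)) := by
      intro r hr hr' i hi
      exact hLL r hr _ (hball8 r hr' i hi) (one_le_lam i hE1') (κ i) (κ₁ r i)
        (fun x y => rfl) (fun x y => rfl) (T i) (T₁ r i)
        (Ring.inverse_mul_cancel _ (hu i)) (Ring.mul_inverse_cancel _ (hu i))
        (Ring.inverse_mul_cancel _ (hu1 r hr' i hi)) (Ring.mul_inverse_cancel _ (hu1 r hr' i hi))
    -- first limit
    have hlim1 : Tendsto (fun r => ∑ m ∈ Finset.Icc 1 q, (-1) ^ m *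
        ∑ i ∈ Finset.range q, (-1) ^ i * ((q - 1).choose i : ℂ) * Imr dat V h l m r i E) atTop
        (𝓝 ((FF q V E : ℝ) : ℂ)) := by
      have e1 : ((FF q V E : ℝ) : ℂ) = ∑ m ∈ Finset.Icc 1 q, (-1) ^ m *
          ((∫ x : Fin (m + 1) → En q, (∏ j, V (x j)) * DJ q m E x : ℝ) : ℂ) := by
        rw [FF]
        push_cast
        rfl
      rw [e1]
      refine tendsto_finsetSum _ fun m hm => Tendsto.const_mul _ ?_
      exact gm_limit dat h13 h15 h5 hq hR he V hV M hM hsupp h l hh hl m hm E hE1'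
    -- third limit
    have hlim3 : Tendsto (fun r => ∑ i ∈ Finset.range q, (-1) ^ i * ((q - 1).choose i : ℂ) *
        O.tr (T₁ r i * O.Op (gh1 q h (dat r).φ (dat r).ψ (dat r).c (lam i E))) (κ₁ r i)) atTop
        (𝓝 0) := by
      have e1 : (0 : ℂ) = ∑ i ∈ Finset.range q, (-1) ^ i * ((q - 1).choose i : ℂ) * 0 := by simp
      rw [e1]
      refine tendsto_finsetSum _ fun i hi => Tendsto.const_mul _ ?_
      rw [Finset.mem_range] at hi
      refine gm_third dat h8 hq hR he he1 he Cs hSp V hV M hM O h l hh hl B0 hB0 hB (lam i E)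
        (one_le_lam i hE1') (fun r => T₁ r i) ?_ (fun r => κ₁ r i) (fun r x y => rfl)
      filter_upwards [eventually_ge_atTop r1] with r hr
      exact inv_norm _ _ (hhalf r _ (hballm r hr i hi))
        (Ring.inverse_mul_cancel _ (hu1 r hr i hi))
    -- second term
    set Z : ℂ := ∑ i ∈ Finset.range q, (-1) ^ i * ((q - 1).choose i : ℂ) *
      O.tr (T i * O.Op (h (lam i E))) (κ i) with hZ
    have hZb : ‖Z‖ ≤ CC * E ^ (-(3 / 2) : ℝ) := by
      have e2 : ∀ i, ‖O.tr (T i * O.Op (h (lam i E))) (κ i)‖ ≤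
          Ct * 2 * Ci ^ 2 * E ^ (-(3 / 2) : ℝ) := by
        intro i
        have hTn : ‖T i‖ ≤ 2 := inv_norm _ _ (hA2 i E hE) (Ring.inverse_mul_cancel _ (hu i))
        obtain ⟨f1, f2⟩ := hCi O h l hh hl i E hE1'
        have hκn : ‖κ i‖ ≤ Ci * E ^ (-(1 / 2) : ℝ) := by
          rw [ContinuousMap.norm_le _ (by positivity)]
          rintro ⟨x, y⟩
          exact f2 x y
        calc ‖O.tr (T i * O.Op (h (lam i E))) (κ i)‖
            ≤ Ct * (‖T i‖ * ‖O.Op (h (lam i E))‖) * ‖κ i‖ := htr _ _ _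
          _ ≤ Ct * (2 * (Ci / E)) * (Ci * E ^ (-(1 / 2) : ℝ)) := by gcongr
          _ = Ct * 2 * (Ci / E * (Ci * E ^ (-(1 / 2) : ℝ))) := by ring
          _ = _ := by
              rw [gm_rpow_aux Ci E hEpos]
              ring
      have hE3 : 0 ≤ E ^ (-(3 / 2) : ℝ) := Real.rpow_nonneg hEpos.le _
      calc ‖Z‖ ≤ ∑ i ∈ Finset.range q, ‖(-1 : ℂ) ^ i * ((q - 1).choose i : ℂ) *
            O.tr (T i * O.Op (h (lam i E))) (κ i)‖ := norm_sum_le _ _
        _ ≤ ∑ i ∈ Finset.range q, ‖(-1 : ℂ) ^ i * ((q - 1).choose i : ℂ)‖ *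
            (Ct * 2 * Ci ^ 2 * E ^ (-(3 / 2) : ℝ)) := by
            refine Finset.sum_le_sum fun i _ => ?_
            rw [norm_mul]
            gcongr
            exact e2 i
        _ = S * (Ct * 2 * Ci ^ 2) * E ^ (-(3 / 2) : ℝ) := by
            rw [← Finset.sum_mul]
            ring
        _ ≤ CC * E ^ (-(3 / 2) : ℝ) := by gcongr
    -- conclusion
    have hlim : Tendsto (fun r => (∑ m ∈ Finset.Icc 1 q, (-1) ^ m *
        ∑ i ∈ Finset.range q, (-1) ^ i * ((q - 1).choose i : ℂ) * Imr dat V h l m r i E) -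
        (-1) ^ (q + 1) * (∑ i ∈ Finset.range q, (-1) ^ i * ((q - 1).choose i : ℂ) *
        O.tr (T₁ r i * O.Op (gh1 q h (dat r).φ (dat r).ψ (dat r).c (lam i E))) (κ₁ r i)) -
        ((FF q V E : ℝ) : ℂ)) atTop (𝓝 0) := by
      have := (hlim1.sub (hlim3.const_mul ((-1) ^ (q + 1)))).sub_const ((FF q V E : ℝ) : ℂ)
      simpa using this
    have hev := (Metric.tendsto_nhds.1 hlim) η hη
    filter_upwards [hev, eventually_ge_atTop r0, eventually_ge_atTop r1] with r e3 e4 e5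
    rw [dist_zero_right] at e3
    have e6 : ∑ i ∈ Finset.range q, (-1) ^ i * ((q - 1).choose i : ℂ) *
        (LL P (c r) (lam i E) / (2 * lam i E)) = (∑ m ∈ Finset.Icc 1 q, (-1) ^ m *
        ∑ i ∈ Finset.range q, (-1) ^ i * ((q - 1).choose i : ℂ) * Imr dat V h l m r i E) -
        (-1) ^ (q + 1) * (∑ i ∈ Finset.range q, (-1) ^ i * ((q - 1).choose i : ℂ) *
        O.tr (T₁ r i * O.Op (gh1 q h (dat r).φ (dat r).ψ (dat r).c (lam i E))) (κ₁ r i)) +
        (-1) ^ (q + 1) * Z := by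
      have e7 : ∑ m ∈ Finset.Icc 1 q, (-1 : ℂ) ^ m *
          ∑ i ∈ Finset.range q, (-1) ^ i * ((q - 1).choose i : ℂ) * Imr dat V h l m r i E =
          ∑ i ∈ Finset.range q, (-1) ^ i * ((q - 1).choose i : ℂ) *
            ∑ m ∈ Finset.Icc 1 q, (-1) ^ m * Imr dat V h l m r i E := by
        simp only [Finset.mul_sum]
        rw [Finset.sum_comm]
        refine Finset.sum_congr rfl fun i _ => Finset.sum_congr rfl fun m _ => ?_
        ring
      rw [e7, hZ, Finset.mul_sum, Finset.mul_sum, ← Finset.sum_sub_distrib,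
        ← Finset.sum_add_distrib]
      refine Finset.sum_congr rfl fun i hi => ?_
      rw [Finset.mem_range] at hi
      rw [hid r e4 e5 i hi]
      ring
    have e8 : (∑ i ∈ Finset.range q, (-1) ^ i * ((q - 1).choose i : ℂ) *
        (LL P (c r) (Complex.I * (Real.sqrt ((1 + (i : ℝ)) * E) : ℂ)) /
          (2 * (Complex.I * (Real.sqrt ((1 + (i : ℝ)) * E) : ℂ))))) =
        ∑ i ∈ Finset.range q, (-1) ^ i * ((q - 1).choose i : ℂ) *
        (LL P (c r) (lam i E) / (2 * lam i E)) := rfl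
    rw [e8, e6]
    have e9 : ‖((-1 : ℂ)) ^ (q + 1) * Z‖ ≤ CC * E ^ (-(3 / 2) : ℝ) := by
      rw [norm_mul, norm_pow, norm_neg, norm_one, one_pow, one_mul]
      exact hZb
    calc ‖_ - _ + (-1) ^ (q + 1) * Z - ((FF q V E : ℝ) : ℂ)‖
        = ‖(-1) ^ (q + 1) * Z + ((∑ m ∈ Finset.Icc 1 q, (-1) ^ m *
        ∑ i ∈ Finset.range q, (-1) ^ i * ((q - 1).choose i : ℂ) * Imr dat V h l m r i E) -
        (-1) ^ (q + 1) * (∑ i ∈ Finset.range q, (-1) ^ i * ((q - 1).choose i : ℂ) *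
        O.tr (T₁ r i * O.Op (gh1 q h (dat r).φ (dat r).ψ (dat r).c (lam i E))) (κ₁ r i)) -
        ((FF q V E : ℝ) : ℂ))‖ := by
          congr 1
          ring
      _ ≤ CC * E ^ (-(3 / 2) : ℝ) + η := (norm_add_le _ _).trans (add_le_add e9 e3.le)
  obtain ⟨α, C'', E1, hE1, hα, hα0⟩ := h30 q hq P hP c CC r0 m
    (fun r hr j => (hc r hr j).trans (by gcongr)) (FF q V) E0 hE01
    (fun E hE => (hCF E (hE01.trans hE)).trans (by
      have : 0 ≤ E ^ ((q : ℝ) - 3 / 2) := Real.rpow_nonneg (by linarith) _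
      gcongr)) hlimit
  refine ⟨P.natDegree, α, C'', E1, hE1, hα, fun hN => hα0 hN ?_⟩
  have hP1 : P = 1 := hP.natDegree_eq_zero.1 hN
  exact fun r hr j hj hj' => hparity hP1 r hr j hj hj'

end Pool.Agent.Work.MP_f2af60_mp

end

section

/-!
# MP_f2af60_mp: infinitely many resonances in odd dimensions `n = 2 q + 3 ≥ 5`
-/

namespace Pool.Agent.Work.MP_f2af60_mp

open MeasureTheory Metric Filter Topology

/-! ## The building blocks -/

theorem f_pt : PtFacts := ptFacts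
theorem f_hh : HHFacts := hhFacts f_pt
theorem f_sub : Subord := subord ebFacts
theorem f_kk : KKFacts := kkFacts rieszQ
theorem f_dk : DKFacts := dkFacts rieszQ f_kk
theorem f_opIter : OpIter := opIter rieszQ f_kk
theorem f_trace : TraceIdQ := traceIdQ f_kk f_dk f_opIter
theorem f_cut : ChainCut := chainCut rieszQ
theorem f_rep : ChainRep := chainRep rieszQ f_kk f_dk f_cut
theorem f_err : LimErr := limErr f_cut
theorem f_km : KmFacts := kmFacts f_pt f_hh (kmRep f_pt f_hh) (gaussChain f_pt)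
theorem f_limJ : LimJ := limJ f_sub f_km f_err spBallQ
theorem f_imag : ImagQ := imagQ f_sub f_hh
theorem f_decomp : DecompQ := decompQ ebFacts hatsQ (polyApproxQ ebFacts) sepQ
theorem f_kerRes : KerResQ := kerResQ ebFacts
theorem f_fam : FamiliesQ := familiesQ ebFacts
theorem f_disc : DiscFac := discFac (discDet frMul) discLog
theorem f_expand : Expand := expand kapFacts powGrowth (limClosure powGrowth)
theorem f_scal : ScalingF := scalingF f_hh f_km
theorem f_k1 : K1Facts := k1Facts f_km f_hh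
theorem f_phi1 : Phi1Facts := phi1Facts f_km planchV f_k1 cosEnv
theorem f_multi : MultiBd := multiBd gagNir
theorem f_smooth : SmoothExpand := smoothExpand f_multi f_km
theorem f_mexp : MultiExpand := multiExpand f_smooth mollify f_km (limClosure powGrowth)
theorem f_real : RealSide := realSide f_scal f_phi1 f_mexp planchV powGrowth

/-- Bounded measurable potentials supported in a ball. -/
theorem infinite_odd {q : ℕ} (hq : 1 ≤ q) (V : En q → ℝ) (hV : Measurable V) (M R : ℝ)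
    (hM : ∀ x, |V x| ≤ M) (hsupp : ∀ x, R < ‖x‖ → V x = 0) (hne : ¬ V =ᵐ[volume] 0)
    (hreg : Odd q ∨ HS q V (2 * q - 1)) : {l : ℂ | IsRes q V l}.Infinite := by
  intro hfin
  apply hne
  obtain ⟨R', hR', hRR⟩ : ∃ R' : ℝ, 0 < R' ∧ R ≤ R' := ⟨max R 1, by positivity, le_max_left _ _⟩
  have hsupp' : ∀ x, R' < ‖x‖ → V x = 0 := fun x hx => hsupp x (hRR.trans_lt hx)
  obtain ⟨N, α, C, E1, hE1, h1, h2⟩ := gm_struct ebFacts spBallQ existsOpsQ f_kk f_trace f_rep
    f_limJ f_imag f_decomp f_kerRes f_fam f_disc f_expand f_scal f_mexp planchV hq hR' V hV M hM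
    hsupp' hfin
  obtain ⟨hN, hV0⟩ := f_real q hq V hV M R' hM hsupp' N α C E1 hE1 h1 hreg
  exact hV0 (h2 hN)

/-- Resonances only depend on the potential up to almost everywhere equality. -/
theorem isRes_congr {q : ℕ} (V W : En q → ℝ) (h : V =ᵐ[volume] W) (l : ℂ) (hW : IsRes q W l) :
    IsRes q V l := by
  obtain ⟨u, hu, hu0, hux⟩ := hW
  refine ⟨u, hu, hu0, fun x => ?_⟩
  rw [hux x]
  congr 1
  refine integral_congr_ae ?_
  filter_upwards [h] with y hy
  rw [hy]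

/-- A bounded measurable representative supported in a ball. -/
theorem exists_rep_odd {q : ℕ} (V : En q → ℝ) (hV : MemLp V ⊤ volume) (R : ℝ)
    (hsupp : ∀ᵐ x, R < ‖x‖ → V x = 0) :
    ∃ (W : En q → ℝ) (M : ℝ), Measurable W ∧ (∀ x, |W x| ≤ M) ∧ (∀ x, R < ‖x‖ → W x = 0) ∧
      V =ᵐ[volume] W := by
  obtain ⟨hm, hb⟩ := hV
  set M : ℝ := (eLpNormEssSup V volume).toReal with hM
  have hb' : eLpNormEssSup V volume < ⊤ := by
    simpa [eLpNorm_exponent_top] using hb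
  have hbd : ∀ᵐ x, |V x| ≤ M := by
    filter_upwards [ae_le_eLpNormEssSup (f := V) (μ := volume)] with x hx
    have h1 : (‖V x‖ₑ).toReal ≤ M := ENNReal.toReal_mono hb'.ne hx
    simpa using h1
  set W0 := hm.mk V with hW0
  have hW0m : Measurable W0 := hm.stronglyMeasurable_mk.measurable
  have hae : V =ᵐ[volume] W0 := hm.ae_eq_mk
  have hM0 : 0 ≤ M := ENNReal.toReal_nonneg
  refine ⟨fun x => if ‖x‖ ≤ R then max (-M) (min M (W0 x)) else 0, M, ?_, ?_, ?_, ?_⟩
  · refine Measurable.ite (measurableSet_le measurable_norm measurable_const) ?_ measurable_const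
    exact measurable_const.max (measurable_const.min hW0m)
  · intro x
    by_cases h : ‖x‖ ≤ R
    · simp only [h, if_true]
      rw [abs_le]
      exact ⟨le_max_left _ _, max_le (by linarith) (min_le_left _ _)⟩
    · simp only [h, if_false, abs_zero]
      exact hM0
  · intro x hx
    simp [not_le.2 hx]
  · filter_upwards [hae, hbd, hsupp] with x h1 h2 h3
    by_cases h : ‖x‖ ≤ R
    · simp only [h, if_true]
      rw [← h1]
      rw [abs_le] at h2
      rw [min_eq_right h2.2, max_eq_right h2.1]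
    · simp only [h, if_false]
      exact h3 (not_le.1 h)

/-- Every nonzero real potential in `L^∞` with compact (essential) support on `ℝⁿ`,
`n = 2 q + 3 ≥ 5` odd, has infinitely many resonances if `n ≡ 1 mod 4`, and also if
`n ≡ 3 mod 4` and the potential is in the Sobolev space `H^((n-4)/2)`. -/
theorem infinite_resonances_odd {q : ℕ} (hq : 1 ≤ q) (V : En q → ℝ) (hV : MemLp V ⊤ volume)
    (R : ℝ) (hsupp : ∀ᵐ x, R < ‖x‖ → V x = 0) (hne : ¬ V =ᵐ[volume] 0)
    (hreg : Odd q ∨ HS q V (2 * q - 1)) :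
    {l : ℂ | IsRes q V l}.Infinite := by
  obtain ⟨W, M, hWm, hWM, hWR, hVW⟩ := exists_rep_odd V hV R hsupp
  have hW0 : ¬ W =ᵐ[volume] 0 := fun h => hne (hVW.trans h)
  have hregW : Odd q ∨ HS q W (2 * q - 1) := by
    refine hreg.imp_right fun h => ?_
    have e1 : FourierTransform.fourier (fun x => (W x : ℂ)) =
        FourierTransform.fourier (fun x => (V x : ℂ)) := by
      funext ξ
      rw [Real.fourier_eq, Real.fourier_eq]
      refine integral_congr_ae ?_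
      filter_upwards [hVW] with x hx
      rw [hx]
    unfold HS at h ⊢
    rw [e1]
    exact h
  exact (infinite_odd hq W hWm M R hWM hWR hW0 hregW).mono fun l hl => isRes_congr V W hVW l hl

end Pool.Agent.Work.MP_f2af60_mp

end
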