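import Pool.Agent.Work.MP_f2af60_mp.Bd.B04
import Pool.Agent.Work.MP_f2af60_mp.Bd.B03
import Pool.Agent.Work.MP_f2af60_mp.Bd.B08
import Pool.Agent.Work.MP_f2af60_mp.Bd.B02
import Pool.Agent.Work.MP_f2af60_mp.HLawCore

/-! Bundle of small proof modules (one section per former module). -/

section

/-!
# MP_f2af60_mp, dimensions `n = 2 q + 3`: lines of potentials and the law for the roughness

Shared definitions for the second round:
* every real line `V + g W` (`W ≠ 0`) contains only finitely many potentials with finitely many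
  resonances;
* if `V` has finitely many resonances then `∫_{|ξ| ≤ κ} |ξ|^(n-4) |V̂|² = c N log κ + O(1)`.
-/

namespace Pool.Agent.Work.MP_f2af60_mp

open MeasureTheory Metric Filter Topology

/-- The explicit remainder of the quadratic term:
`∫∫ k₁(y) |V̂(ξ)|² ρ_j(√e 2π y·ξ) dy dξ`. -/
noncomputable def RR (q : ℕ) (V : En q → ℝ) (j : ℕ) (e : ℝ) : ℝ :=
  ∫ z : (Fin 1 → En q) × En q, km q 1 z.1 *
    ‖FourierTransform.fourier (fun x => (V x : ℂ)) z.2‖ ^ 2 *
    Phi1.rho j (Real.sqrt e * Phi1.XX z)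
    ∂((volume : Measure (Fin 1 → En q)).prod (volume : Measure (En q)))

/-- The full real side `𝓕(E) = ∑_{m ≥ 1} (-1)^m E^(q - 1/2 - m) Φ_m(1/E)`, convergent for
`E > ‖V‖_∞`. -/
noncomputable def TT (q : ℕ) (V : En q → ℝ) (E : ℝ) : ℝ :=
  ∑' k : ℕ, (-1) ^ (k + 1) * (E ^ ((q : ℝ) - 1 / 2 - ((k + 1 : ℕ) : ℝ)) * Phi q V (k + 1) E⁻¹)

/-- The limit of `TT q (g U) (g s) / g^(q + 1/2)` as `g → ∞`, `U → W`:
`Ψ(s) = ∑_{m ≥ 1} (-1)^m s^(q - 1/2 - m) (∫ k_m) (∫ W^(m+1))`. -/
noncomputable def PsiS (q : ℕ) (W : En q → ℝ) (s : ℝ) : ℝ :=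
  ∑' k : ℕ, (-1) ^ (k + 1) * (s ^ ((q : ℝ) - 1 / 2 - ((k + 1 : ℕ) : ℝ)) *
    ((∫ y, km q (k + 1) y) * ∫ x, W x ^ (k + 2)))

/-- The contribution of the zeros of `P`: the finite difference of `P'(l) / (2 l P(l))`. -/
noncomputable def PF (q : ℕ) (P : Polynomial ℂ) (E : ℝ) : ℂ :=
  ∑ i ∈ Finset.range q, (-1) ^ i * ((q - 1).choose i : ℂ) *
    (P.derivative.eval (lam i E) / P.eval (lam i E) / (2 * lam i E))

/-- The matrix expressing that `F` agrees with a rational function of degree `≤ D` at the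
points `x`. -/
noncomputable def RM (D : ℕ) (F : ℝ → ℝ) (x : Fin (D + 1) ⊕ Fin (D + 1) → ℝ) :
    Matrix (Fin (D + 1) ⊕ Fin (D + 1)) (Fin (D + 1) ⊕ Fin (D + 1)) ℝ :=
  fun i j => match j with
    | Sum.inl a => x i ^ (a : ℕ) * F (x i)
    | Sum.inr a => x i ^ (a : ℕ)

end Pool.Agent.Work.MP_f2af60_mp

end

section

/-!
# MP_f2af60_mp, second round: the statements of the building blocks
-/

namespace Pool.Agent.Work.MP_f2af60_mp

open MeasureTheory Metric Filter Topology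

/-! ## The chain kernels -/

/-- H1: total masses of the chain kernels. -/
def KmMass : Prop :=
  ∀ q : ℕ, 1 ≤ q → (∃ C : ℝ, ∀ m, 1 ≤ m → Integrable (km q m) ∧ 0 < ∫ y, km q m y ∧
      ∫ y, km q m y ≤ C) ∧
    Tendsto (fun m => ∫ y, km q (m + 1) y) atTop (𝓝 0)

/-- H2: the masses do not decay faster than a power. -/
def KmMassLow : Prop :=
  ∀ q : ℕ, 1 ≤ q → ∃ (c : ℝ) (A : ℕ), 0 < c ∧ ∀ m : ℕ, 1 ≤ m →
    c / ((m : ℝ) + 1) ^ A ≤ ∫ y, km q m y

/-- H3: bounds for `Φ_m` and homogeneity. -/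
def PhiBd : Prop :=
  ∀ q : ℕ, 1 ≤ q → ∃ C : ℝ, 0 ≤ C ∧ ∀ V : En q → ℝ, Measurable V → ∀ M R : ℝ, (∀ x, |V x| ≤ M) →
    (∀ x, R < ‖x‖ → V x = 0) → ∀ m : ℕ, 1 ≤ m →
      (∀ e : ℝ, |Phi q V m e| ≤ C * M ^ (m + 1) * volume.real (closedBall (0 : En q) R)) ∧
      (∀ g e : ℝ, Phi q (fun x => g * V x) m e = g ^ (m + 1) * Phi q V m e)

/-- H4: the series `TT`. -/
def TTFacts : Prop :=
  ∀ q : ℕ, 1 ≤ q → ∀ V : En q → ℝ, Measurable V → ∀ M R : ℝ, (∀ x, |V x| ≤ M) →
    (∀ x, R < ‖x‖ → V x = 0) →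
    (∀ E : ℝ, M < E → 0 < E → Summable (fun k : ℕ => (-1) ^ (k + 1) *
      (E ^ ((q : ℝ) - 1 / 2 - ((k + 1 : ℕ) : ℝ)) * Phi q V (k + 1) E⁻¹))) ∧
    ∃ C : ℝ, ∀ E : ℝ, 2 * M ≤ E → 1 ≤ E →
      |TT q V E - FF q V E| ≤ C * E ^ (-(3 / 2) : ℝ) ∧ |TT q V E| ≤ C * E ^ ((q : ℝ) - 3 / 2)

/-- H5: `TT` is analytic in the coupling. -/
def TTAnalytic : Prop :=
  ∀ (q : ℕ), 1 ≤ q → ∀ V W : En q → ℝ, Measurable V → Measurable W → ∀ MV MW R : ℝ,
    (∀ x, |V x| ≤ MV) → (∀ x, |W x| ≤ MW) → (∀ x, R < ‖x‖ → V x = 0) →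
    (∀ x, R < ‖x‖ → W x = 0) → ∀ E : ℝ, 0 < E →
    AnalyticOnNhd ℝ (fun g : ℝ => TT q (fun x => V x + g * W x) E) {g : ℝ | MV + |g| * MW < E}

/-- H6: the limit of `Φ_m`. -/
def PhiLimit : Prop :=
  ∀ (q m : ℕ), 1 ≤ q → 1 ≤ m → ∀ (W : En q → ℝ) (U : ℕ → En q → ℝ) (M R : ℝ) (e η : ℕ → ℝ),
    Measurable W → (∀ k, Measurable (U k)) → (∀ x, |W x| ≤ M) → (∀ k x, |U k x| ≤ M) →
    (∀ x, R < ‖x‖ → W x = 0) → (∀ k x, R < ‖x‖ → U k x = 0) →
    (∀ k x, |U k x - W x| ≤ η k) → Tendsto η atTop (𝓝 0) → (∀ k, 0 < e k) →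
    Tendsto e atTop (𝓝 0) →
    Tendsto (fun k => Phi q (U k) m (e k)) atTop (𝓝 ((∫ y, km q m y) * ∫ x, W x ^ (m + 1)))

/-- H7: the semiclassical limit. -/
def SeriesLimit : Prop :=
  ∀ (q : ℕ), 1 ≤ q → ∀ (W : En q → ℝ) (U : ℕ → En q → ℝ) (M R : ℝ) (g η : ℕ → ℝ),
    Measurable W → (∀ k, Measurable (U k)) → (∀ x, |W x| ≤ M) → (∀ k x, |U k x| ≤ M) →
    (∀ x, R < ‖x‖ → W x = 0) → (∀ k x, R < ‖x‖ → U k x = 0) →
    (∀ k x, |U k x - W x| ≤ η k) → Tendsto η atTop (𝓝 0) → (∀ k, 0 < g k) →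
    Tendsto g atTop atTop → ∀ s : ℝ, M < s → 0 < s →
    Tendsto (fun k => TT q (fun x => g k * U k x) (g k * s) / (g k) ^ ((q : ℝ) + 1 / 2)) atTop
      (𝓝 (PsiS q W s))

/-- H8: the limit function is not rational. -/
def NonRat : Prop :=
  ∀ (q : ℕ), 1 ≤ q → ∀ W : En q → ℝ, Measurable W → ∀ M R : ℝ, (∀ x, |W x| ≤ M) →
    (∀ x, R < ‖x‖ → W x = 0) → ∀ (A B : Polynomial ℝ) (y0 : ℝ), B ≠ 0 →
    (∀ y ≥ y0, B.eval y * PsiS q W (y ^ 2) = A.eval y) → W =ᵐ[volume] 0

/-! ## The operators -/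

/-- H9: the closed chains as traces. -/
def TrPow : Prop :=
  ∀ (q : ℕ), 1 ≤ q → ∀ (K : Type) [MetricSpace K] [CompactSpace K] [MeasurableSpace K]
    [BorelSpace K] (μ : Measure K) (C : ℝ), SpQ q μ C → ∀ V : K → ℝ, Measurable V →
    ∀ M : ℝ, (∀ x, |V x| ≤ M) → ∀ (O : OpsQ q μ V) (h l κ : C(K × K, ℂ)),
    (∀ x y, κ (x, y) = KK q μ V h l q x y) → ∀ j : ℕ,
    Integrable (fun x : Fin (q + j + 1 + 1) → K =>
      (∏ i, (V (x i) : ℂ)) * JC q (q + j + 1) h l x) (Measure.pi fun _ => μ) ∧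
    O.tr ((O.Op h) ^ (j + 1)) κ = ∫ x : Fin (q + j + 1 + 1) → K, (∏ i, (V (x i) : ℂ)) *
      JC q (q + j + 1) h l x ∂(Measure.pi fun _ => μ)

/-- H10: the norm on the imaginary axis. -/
def OpNormQ : Prop :=
  ∀ (q : ℕ), 1 ≤ q → ∀ R : ℝ, 0 < R → ∀ (V : En q → ℝ), Measurable V →
    ∀ M : ℝ, (∀ x, |V x| ≤ M) →
    ∀ (O : OpsQ q (muQ q R) (fun x : closedBall (0 : En q) R => V x)) (E : ℝ), 0 < E →
      ∀ h : C(closedBall (0 : En q) R × closedBall (0 : En q) R, ℂ),
      (∀ x y, h (x, y) = eb q (Complex.I * (Real.sqrt E : ℂ) * ((dist x y : ℝ) : ℂ))) →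
      ‖O.Op h‖ ≤ M / E

/-- H11: the norm near the imaginary axis. -/
def NearNorm : Prop :=
  ∀ (q : ℕ), 1 ≤ q → ∃ C1 : ℝ, 1 ≤ C1 ∧ ∀ R : ℝ, 0 < R → ∀ (V : En q → ℝ), Measurable V →
    ∀ M : ℝ, (∀ x, |V x| ≤ M) →
    ∀ (O : OpsQ q (muQ q R) (fun x : closedBall (0 : En q) R => V x)) (E : ℝ), 0 < E →
      C1 * M ≤ E → ∀ z : ℂ, ‖z - Complex.I * (Real.sqrt E : ℂ)‖ < Real.sqrt E / 2 →
      ∀ h : C(closedBall (0 : En q) R × closedBall (0 : En q) R, ℂ),
      (∀ x y, h (x, y) = eb q (z * ((dist x y : ℝ) : ℂ))) → ‖O.Op h‖ ≤ 1 / 2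

/-- H12: the chains on the ball as chains on the whole space (absolutely convergent case). -/
def ChainReal : Prop :=
  ∀ (q m : ℕ), 1 ≤ q → q + 1 ≤ m → ∀ (R : ℝ), 0 < R → ∀ (V : En q → ℝ), Measurable V →
    ∀ M : ℝ, (∀ x, |V x| ≤ M) → (∀ x, R < ‖x‖ → V x = 0) → ∀ E : ℝ, 0 < E →
    ∀ (h l : ℕ → C(closedBall (0 : En q) R × closedBall (0 : En q) R, ℂ)),
    (∀ i x y, h i (x, y) = eb q (Complex.I * (Real.sqrt ((1 + (i : ℝ)) * E) : ℂ) *
      ((dist x y : ℝ) : ℂ))) →
    (∀ i x y, l i (x, y) = eb (q - 1) (Complex.I * (Real.sqrt ((1 + (i : ℝ)) * E) : ℂ) *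
      ((dist x y : ℝ) : ℂ)) / (4 * (Real.pi : ℂ))) →
    (∀ i < q, Integrable (fun x : Fin (m + 1) → closedBall (0 : En q) R =>
      (∏ j, (V (x j) : ℂ)) * JC q m (h i) (l i) x) (Measure.pi fun _ => muQ q R)) →
    ∑ i ∈ Finset.range q, (-1) ^ i * ((q - 1).choose i : ℂ) *
      ∫ x : Fin (m + 1) → closedBall (0 : En q) R, (∏ j, (V (x j) : ℂ)) * JC q m (h i) (l i) x
        ∂(Measure.pi fun _ => muQ q R) =
      ((∫ x : Fin (m + 1) → En q, (∏ j, V (x j)) * DJ q m E x : ℝ) : ℂ)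

/-- H13: the trace of the remainder of the Neumann series. -/
def TraceSeries : Prop :=
  ∀ (q : ℕ), 1 ≤ q → ∀ R : ℝ, 0 < R → ∀ (V : En q → ℝ), Measurable V →
    ∀ M : ℝ, (∀ x, |V x| ≤ M) → (∀ x, R < ‖x‖ → V x = 0) →
    ∀ (O : OpsQ q (muQ q R) (fun x : closedBall (0 : En q) R => V x)) (E : ℝ), 1 ≤ E →
      2 * M ≤ E →
      ∀ (h l κ : ℕ → C(closedBall (0 : En q) R × closedBall (0 : En q) R, ℂ))
        (T : ℕ → C(closedBall (0 : En q) R, ℂ) →L[ℂ] C(closedBall (0 : En q) R, ℂ)),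
      (∀ i x y, h i (x, y) = eb q (Complex.I * (Real.sqrt ((1 + (i : ℝ)) * E) : ℂ) *
        ((dist x y : ℝ) : ℂ))) →
      (∀ i x y, l i (x, y) = eb (q - 1) (Complex.I * (Real.sqrt ((1 + (i : ℝ)) * E) : ℂ) *
        ((dist x y : ℝ) : ℂ)) / (4 * (Real.pi : ℂ))) →
      (∀ i x y, κ i (x, y) = KK q (muQ q R) (fun x : closedBall (0 : En q) R => V x)
        (h i) (l i) q x y) →
      (∀ i, T i * (1 + O.Op (h i)) = 1) → (∀ i, (1 + O.Op (h i)) * T i = 1) →
      ((TT q V E - FF q V E : ℝ) : ℂ) = (-1) ^ (q + 1) * ∑ i ∈ Finset.range q, (-1) ^ i *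
        ((q - 1).choose i : ℂ) * O.tr (T i * O.Op (h i)) (κ i)

/-! ## Expansions -/

/-- H14: passage to the limit in the expansion, exact version. -/
def ExpandExact : Prop :=
  ∀ (q : ℕ), 1 ≤ q → ∀ (P : Polynomial ℂ), P.Monic → ∀ (c : ℕ → ℕ → ℂ) (C : ℝ) (r0 m : ℕ),
    (∀ r : ℕ, r0 ≤ r → ∀ j, ‖c r j‖ ≤ C * (r : ℝ) ^ m * (8 / (r : ℝ)) ^ j) →
    ∀ (F : ℝ → ℝ) (E0 : ℝ), 1 ≤ E0 → (∀ E ≥ E0, |F E| ≤ C * E ^ ((q : ℝ) - 3 / 2)) →
    (∀ E ≥ E0, Tendsto (fun r => ∑ i ∈ Finset.range q, (-1) ^ i * ((q - 1).choose i : ℂ) *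
      (LL P (c r) (lam i E) / (2 * lam i E))) atTop (𝓝 (F E : ℂ))) →
    ∃ α : ℕ → ℝ,
      (∀ E ≥ E0, F E = (PF q P E).re + ∑ i ∈ Finset.range q, α i * E ^ ((q : ℝ) - 3 / 2 - i)) ∧
      (P.natDegree = 0 → (∀ r : ℕ, r0 ≤ r → ∀ j, Odd j → j < 2 * q + 1 → c r j = 0) →
        ∀ i < q, α i = 0)

/-- H15: the contribution of the zeros. -/
def PFFacts : Prop :=
  ∀ (q : ℕ), 1 ≤ q → ∀ (P : Polynomial ℂ), P.Monic →
    (∃ C' E1 : ℝ, 1 ≤ E1 ∧ ∀ E ≥ E1, |(PF q P E).re + (P.natDegree : ℝ) / (2 * q) * E⁻¹| ≤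
      C' * E ^ (-(3 / 2) : ℝ)) ∧
    (∀ E > 0, (∀ i < q, ∀ z : ℂ, P.eval z = 0 → Real.sqrt ((1 + (i : ℝ)) * E) / 2 ≤
      ‖z - lam i E‖) → |(PF q P E).re| ≤ 2 ^ q * (P.natDegree : ℝ) / E)

/-- H16: the expansion is a rational function of `√E`. -/
def PFRational : Prop :=
  ∀ (q : ℕ), 1 ≤ q → ∀ N : ℕ, ∃ D : ℕ, ∀ (P : Polynomial ℂ), P.Monic → P.natDegree ≤ N →
    ∀ (α : ℕ → ℝ) (F : ℝ → ℝ) (x0 : ℝ), 1 ≤ x0 →
    (∀ i < q, ∀ x ≥ x0, P.eval (lam i (x ^ 2)) ≠ 0) →
    (∀ x ≥ x0, F x = (PF q P (x ^ 2)).re + ∑ i ∈ Finset.range q,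
      α i * (x ^ 2) ^ ((q : ℝ) - 3 / 2 - i)) →
    ∃ A B : Polynomial ℝ, B ≠ 0 ∧ A.natDegree ≤ D ∧ B.natDegree ≤ D ∧
      ∀ x ≥ x0, B.eval x * F x = A.eval x

/-- H17: rational functions and determinants. -/
def DetLin : Prop :=
  ∀ (D : ℕ) (F : ℝ → ℝ) (x0 : ℝ),
    ((∀ x : Fin (D + 1) ⊕ Fin (D + 1) → ℝ, (∀ i, x0 ≤ x i) → (RM D F x).det = 0) →
      ∃ A B : Polynomial ℝ, B ≠ 0 ∧ ∀ y ≥ x0, B.eval y * F y = A.eval y) ∧
    (∀ A B : Polynomial ℝ, B ≠ 0 → A.natDegree ≤ D → B.natDegree ≤ D →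
      (∀ y ≥ x0, B.eval y * F y = A.eval y) →
      ∀ x : Fin (D + 1) ⊕ Fin (D + 1) → ℝ, (∀ i, x0 ≤ x i) → (RM D F x).det = 0) ∧
    (∀ c d : ℝ, c ≠ 0 → d ≠ 0 → ∀ x : Fin (D + 1) ⊕ Fin (D + 1) → ℝ,
      ((RM D (fun y => c * F (d * y)) x).det = 0 ↔ (RM D F (fun i => d * x i)).det = 0))

/-! ## The quadratic term -/

/-- H18: the quadratic term with explicit remainder. -/
def Phi1Facts2 : Prop :=
  ∀ (q : ℕ), 1 ≤ q → ∀ V : En q → ℝ, Measurable V → ∀ M R : ℝ, (∀ x, |V x| ≤ M) →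
    (∀ x, R < ‖x‖ → V x = 0) → ∀ j < q, HS q V (2 * j) →
    ∃ (a : ℕ → ℝ),
      (∀ e > 0, Phi q V 1 e = ∑ i ∈ Finset.range (j + 1), a i * e ^ i +
        (-1) ^ (j + 1) * RR q V j e) ∧
      (∀ e > 0, 0 ≤ RR q V j e) ∧
      Tendsto (fun e => RR q V j e / e ^ j) (𝓝[>] 0) (𝓝 0) ∧
      (a 0 = 0 → V =ᵐ[volume] 0) ∧
      ((∃ C : ℝ, ∀ᶠ e in 𝓝[>] 0, RR q V j e ≤ C * e ^ (j + 1)) → HS q V (2 * (j + 1 : ℕ)))

/-- H19: the real side with explicit remainder. -/
def RealSide2 : Prop :=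
  ∀ (q : ℕ), 1 ≤ q → ∀ V : En q → ℝ, Measurable V → ∀ M R : ℝ, (∀ x, |V x| ≤ M) →
    (∀ x, R < ‖x‖ → V x = 0) → ∀ (N : ℕ) (α : ℕ → ℝ) (C E1 : ℝ), 1 ≤ E1 →
    (∀ E ≥ E1, |FF q V E + (N : ℝ) / (2 * q) * E⁻¹ -
      ∑ i ∈ Finset.range q, α i * E ^ ((q : ℝ) - 3 / 2 - i)| ≤ C * E ^ (-(3 / 2) : ℝ)) →
    HS q V (2 * ((q - 1 : ℕ) : ℝ)) ∧
    (∃ C' : ℝ, ∀ E ≥ E1, |(-1) ^ q * (E ^ ((q : ℝ) - 3 / 2) * RR q V (q - 1) E⁻¹) -
      (N : ℝ) / (2 * q) * E⁻¹| ≤ C' * E ^ (-(3 / 2) : ℝ)) ∧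
    ((∀ i < q, α i = 0) → V =ᵐ[volume] 0)

/-- H20: the remainder on a line of potentials. -/
def RRQuad : Prop :=
  ∀ (q : ℕ), 1 ≤ q → ∀ V W : En q → ℝ, Measurable V → Measurable W → ∀ M R : ℝ,
    (∀ x, |V x| ≤ M) → (∀ x, |W x| ≤ M) → (∀ x, R < ‖x‖ → V x = 0) →
    (∀ x, R < ‖x‖ → W x = 0) →
    (∀ a b s : ℝ, HS q V s → HS q W s → HS q (fun x => a * V x + b * W x) s) ∧
    (∀ j ≤ q, HS q V (2 * j) → HS q W (2 * j) → ∀ e > 0, ∃ X : ℝ, ∀ g : ℝ,
      RR q (fun x => V x + g * W x) j e = RR q V j e + g * X + g ^ 2 * RR q W j e)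

/-- H21: the remainder as an integral against a radial kernel. -/
def RRKernel : Prop :=
  ∀ (q : ℕ), 1 ≤ q → ∃ (Kf : ℝ → ℝ) (C c : ℝ), 0 < c ∧ Measurable Kf ∧ (∀ s, 0 ≤ Kf s) ∧
    (∀ s ≥ 0, Kf s ≤ C * s ^ (2 * q) ∧ Kf s ≤ C * s ^ (2 * (q - 1))) ∧
    (∀ s ∈ Set.Icc (0 : ℝ) 1, c * s ^ (2 * q) ≤ Kf s) ∧
    (∀ V : En q → ℝ, Measurable V → ∀ M R : ℝ, (∀ x, |V x| ≤ M) → (∀ x, R < ‖x‖ → V x = 0) →
      HS q V (2 * ((q - 1 : ℕ) : ℝ)) → ∀ e > 0,
      RR q V (q - 1) e = ∫ ξ : En q, Kf (Real.sqrt e * ‖ξ‖) *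
        ‖FourierTransform.fourier (fun x => (V x : ℂ)) ξ‖ ^ 2)

/-- H22: the law for the roughness, pure analysis. -/
def LawAn : Prop :=
  ∀ (q : ℕ), 1 ≤ q → ∀ (Kf : ℝ → ℝ) (C c : ℝ), 0 < c → Measurable Kf → (∀ s, 0 ≤ Kf s) →
    (∀ s ≥ 0, Kf s ≤ C * s ^ (2 * q) ∧ Kf s ≤ C * s ^ (2 * (q - 1))) →
    (∀ s ∈ Set.Icc (0 : ℝ) 1, c * s ^ (2 * q) ≤ Kf s) →
    ∃ b > 0, ∀ W : En q → ℝ, Continuous W → (∀ ξ, 0 ≤ W ξ) → Integrable W →
      Integrable (fun ξ => ‖ξ‖ ^ (2 * (q - 1)) * W ξ) →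
      ∀ (A C' e0 : ℝ), 0 < e0 → (∀ e ∈ Set.Ioc 0 e0,
        |(∫ ξ, Kf (Real.sqrt e * ‖ξ‖) * W ξ) - A * e ^ ((q : ℝ) - 1 / 2)| ≤ C' * e ^ q) →
      ∃ C'' : ℝ, ∀ t ≥ 1, |(∫ ξ in closedBall (0 : En q) t, ‖ξ‖ ^ (2 * q - 1) * W ξ) -
        b * A * Real.log t| ≤ C''

end Pool.Agent.Work.MP_f2af60_mp

end

section

/-!
# H17: rational functions and determinants
-/

set_option autoImplicit false

namespace Pool.Agent.Work.MP_f2af60_mp

open Polynomial in
/-- The value of a polynomial given by its coefficients. -/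
theorem detLin_eval (D : ℕ) (b : Fin (D + 1) → ℝ) (y : ℝ) :
    (∑ a : Fin (D + 1), C (b a) * X ^ (a : ℕ) : Polynomial ℝ).eval y = ∑ a, b a * y ^ (a : ℕ) := by
  rw [Polynomial.eval_finsetSum]
  refine Finset.sum_congr rfl fun a _ => ?_
  rw [Polynomial.eval_mul, Polynomial.eval_C, Polynomial.eval_pow, Polynomial.eval_X]

open Polynomial in
theorem detLin_coeff (D : ℕ) (b : Fin (D + 1) → ℝ) (a : Fin (D + 1)) :
    (∑ a : Fin (D + 1), C (b a) * X ^ (a : ℕ) : Polynomial ℝ).coeff (a : ℕ) = b a := by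
  rw [Polynomial.finsetSum_coeff, Finset.sum_eq_single a]
  · rw [Polynomial.coeff_C_mul, Polynomial.coeff_X_pow, if_pos rfl, mul_one]
  · intro c _ hc
    rw [Polynomial.coeff_C_mul, Polynomial.coeff_X_pow, if_neg, mul_zero]
    intro h
    exact hc (Fin.ext h.symm)
  · intro h
    exact absurd (Finset.mem_univ a) h

/-- A polynomial given by a functional. -/
theorem detLin_one (D : ℕ) (F : ℝ → ℝ) (x0 : ℝ)
    (h : ∀ x : Fin (D + 1) ⊕ Fin (D + 1) → ℝ, (∀ i, x0 ≤ x i) → (RM D F x).det = 0) :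
    ∃ A B : Polynomial ℝ, B ≠ 0 ∧ ∀ y ≥ x0, B.eval y * F y = A.eval y := by
  classical
  let v : ℝ → (Fin (D + 1) ⊕ Fin (D + 1) → ℝ) := fun y j => match j with
    | Sum.inl a => y ^ (a : ℕ) * F y
    | Sum.inr a => y ^ (a : ℕ)
  let S : Set (Fin (D + 1) ⊕ Fin (D + 1) → ℝ) := {w | ∃ y, x0 ≤ y ∧ v y = w}
  have hS : Submodule.span ℝ S < ⊤ := by
    rw [lt_top_iff_ne_top]
    intro htop
    obtain ⟨b, hb, hbs, hbl⟩ := exists_linearIndependent ℝ S
    rw [htop] at hbs
    have hbs' : ⊤ ≤ Submodule.span ℝ (Set.range (Subtype.val : b → _)) := by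
      rw [Subtype.range_coe, hbs]
    let B := Module.Basis.mk hbl hbs'
    have hfin : Finite b := hbl.setFinite.to_subtype
    have := Fintype.ofFinite b
    have hcard : Fintype.card (Fin (D + 1) ⊕ Fin (D + 1)) = Fintype.card b := by
      rw [← Module.finrank_eq_card_basis B, Module.finrank_fintype_fun_eq_card]
    let e : (Fin (D + 1) ⊕ Fin (D + 1)) ≃ b := Fintype.equivOfCardEq hcard
    have hx : ∀ i, ∃ y, x0 ≤ y ∧ v y = (e i).1 := fun i => hb (e i).2
    choose x hx0 hxv using hx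
    have hdet := h x hx0
    have hli : LinearIndependent ℝ (fun i => (RM D F x) i) := by
      have h1 : (fun i => (RM D F x) i) = fun i => ((e i).1 : Fin (D + 1) ⊕ Fin (D + 1) → ℝ) := by
        funext i
        rw [← hxv i]
        funext j
        rcases j with a | a <;> rfl
      rw [h1]
      exact hbl.comp e e.injective
    have h2 : IsUnit (RM D F x) := Matrix.linearIndependent_rows_iff_isUnit.mp hli
    rw [Matrix.isUnit_iff_isUnit_det, hdet] at h2
    exact not_isUnit_zero h2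
  obtain ⟨f, hf0, hf⟩ := Submodule.exists_le_ker_of_lt_top _ hS
  have hfv : ∀ y ≥ x0, f (v y) = 0 := fun y hy => hf (Submodule.subset_span ⟨y, hy, rfl⟩)
  let c : Fin (D + 1) ⊕ Fin (D + 1) → ℝ := fun j => f (Pi.single j 1)
  have hfc : ∀ w : Fin (D + 1) ⊕ Fin (D + 1) → ℝ, f w = ∑ j, w j * c j := by
    intro w
    conv_lhs => rw [pi_eq_sum_univ w]
    rw [map_sum]
    refine Finset.sum_congr rfl fun j _ => ?_
    rw [map_smul, smul_eq_mul]
    congr 2
    funext i
    rw [Pi.single_apply]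
    simp only [eq_comm]
  have key : ∀ y ≥ x0, (∑ a : Fin (D + 1), c (Sum.inl a) * y ^ (a : ℕ)) * F y =
      ∑ a : Fin (D + 1), (-c (Sum.inr a)) * y ^ (a : ℕ) := by
    intro y hy
    have h1 := hfv y hy
    rw [hfc, Fintype.sum_sum_type] at h1
    have e1 : ∑ a : Fin (D + 1), v y (Sum.inl a) * c (Sum.inl a) =
        (∑ a : Fin (D + 1), c (Sum.inl a) * y ^ (a : ℕ)) * F y := by
      rw [Finset.sum_mul]
      refine Finset.sum_congr rfl fun a _ => ?_
      show (y ^ (a : ℕ) * F y) * c (Sum.inl a) = _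
      ring
    have e2 : ∑ a : Fin (D + 1), v y (Sum.inr a) * c (Sum.inr a) =
        -∑ a : Fin (D + 1), (-c (Sum.inr a)) * y ^ (a : ℕ) := by
      rw [← Finset.sum_neg_distrib]
      refine Finset.sum_congr rfl fun a _ => ?_
      show y ^ (a : ℕ) * c (Sum.inr a) = _
      ring
    rw [e1, e2] at h1
    linarith
  refine ⟨∑ a : Fin (D + 1), Polynomial.C (-c (Sum.inr a)) * Polynomial.X ^ (a : ℕ),
    ∑ a : Fin (D + 1), Polynomial.C (c (Sum.inl a)) * Polynomial.X ^ (a : ℕ), ?_, ?_⟩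
  · intro hB
    have hb : ∀ a, c (Sum.inl a) = 0 := by
      intro a
      have := detLin_coeff D (fun a => c (Sum.inl a)) a
      rw [hB, Polynomial.coeff_zero] at this
      exact this.symm
    have hA : (∑ a : Fin (D + 1), Polynomial.C (-c (Sum.inr a)) * Polynomial.X ^ (a : ℕ) :
        Polynomial ℝ) = 0 := by
      apply Polynomial.eq_zero_of_infinite_isRoot
      refine (Set.Ici_infinite x0).mono ?_
      intro y hy
      have h1 := key y hy
      simp only [hb, zero_mul, Finset.sum_const_zero] at h1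
      show Polynomial.IsRoot _ y
      rw [Polynomial.IsRoot, detLin_eval]
      exact h1.symm
    have ha : ∀ a, c (Sum.inr a) = 0 := by
      intro a
      have := detLin_coeff D (fun a => -c (Sum.inr a)) a
      rw [hA, Polynomial.coeff_zero] at this
      linarith
    apply hf0
    apply LinearMap.ext
    intro w
    rw [hfc, LinearMap.zero_apply]
    refine Finset.sum_eq_zero fun j _ => ?_
    rcases j with a | a
    · rw [hb, mul_zero]
    · rw [ha, mul_zero]
  · intro y hy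
    rw [detLin_eval, detLin_eval]
    exact key y hy

theorem detLin_two (D : ℕ) (F : ℝ → ℝ) (x0 : ℝ) (A B : Polynomial ℝ) (hB : B ≠ 0)
    (hA : A.natDegree ≤ D) (hBD : B.natDegree ≤ D)
    (h : ∀ y ≥ x0, B.eval y * F y = A.eval y) (x : Fin (D + 1) ⊕ Fin (D + 1) → ℝ)
    (hx : ∀ i, x0 ≤ x i) : (RM D F x).det = 0 := by
  classical
  rw [← Matrix.exists_mulVec_eq_zero_iff]
  refine ⟨fun j => match j with
    | Sum.inl a => B.coeff (a : ℕ)
    | Sum.inr a => -A.coeff (a : ℕ), ?_, ?_⟩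
  · intro h0
    apply hB
    ext k
    rw [Polynomial.coeff_zero]
    by_cases hk : k ≤ D
    · exact congrFun h0 (Sum.inl ⟨k, by omega⟩)
    · exact Polynomial.coeff_eq_zero_of_natDegree_lt (by omega)
  · funext i
    rw [Matrix.mulVec, dotProduct, Fintype.sum_sum_type, Pi.zero_apply]
    have e1 : ∑ a : Fin (D + 1), (RM D F x) i (Sum.inl a) * B.coeff (a : ℕ) =
        B.eval (x i) * F (x i) := by
      rw [Polynomial.eval_eq_sum_range' (n := D + 1) (by omega), Finset.sum_mul, Finset.sum_range]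
      refine Finset.sum_congr rfl fun a _ => ?_
      show (x i ^ (a : ℕ) * F (x i)) * B.coeff (a : ℕ) = _
      ring
    have e2 : ∑ a : Fin (D + 1), (RM D F x) i (Sum.inr a) * (-A.coeff (a : ℕ)) =
        -A.eval (x i) := by
      rw [Polynomial.eval_eq_sum_range' (n := D + 1) (by omega), Finset.sum_range,
        ← Finset.sum_neg_distrib]
      refine Finset.sum_congr rfl fun a _ => ?_
      show x i ^ (a : ℕ) * (-A.coeff (a : ℕ)) = _
      ring
    show ∑ a : Fin (D + 1), (RM D F x) i (Sum.inl a) * B.coeff (a : ℕ) +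
      ∑ a : Fin (D + 1), (RM D F x) i (Sum.inr a) * (-A.coeff (a : ℕ)) = 0
    rw [e1, e2, h _ (hx i)]
    ring

theorem detLin_three (D : ℕ) (F : ℝ → ℝ) (c d : ℝ) (hc : c ≠ 0) (hd : d ≠ 0)
    (x : Fin (D + 1) ⊕ Fin (D + 1) → ℝ) :
    (RM D (fun y => c * F (d * y)) x).det = 0 ↔ (RM D F (fun i => d * x i)).det = 0 := by
  classical
  let w : Fin (D + 1) ⊕ Fin (D + 1) → ℝ := fun j => match j with
    | Sum.inl a => d ^ (a : ℕ) / c
    | Sum.inr a => d ^ (a : ℕ)
  have hw : ∀ j, w j ≠ 0 := by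
    intro j
    rcases j with a | a
    · exact div_ne_zero (pow_ne_zero _ hd) hc
    · exact pow_ne_zero _ hd
  have h1 : RM D F (fun i => d * x i) =
      RM D (fun y => c * F (d * y)) x * Matrix.diagonal w := by
    ext i j
    rw [Matrix.mul_diagonal]
    rcases j with a | a
    · show (d * x i) ^ (a : ℕ) * F (d * x i) =
        (x i ^ (a : ℕ) * (c * F (d * x i))) * (d ^ (a : ℕ) / c)
      rw [mul_pow]
      field_simp
    · show (d * x i) ^ (a : ℕ) = x i ^ (a : ℕ) * d ^ (a : ℕ)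
      rw [mul_pow, mul_comm]
  rw [h1, Matrix.det_mul, Matrix.det_diagonal, mul_eq_zero]
  constructor
  · intro h
    exact Or.inl h
  · rintro (h | h)
    · exact h
    · exact absurd h (Finset.prod_ne_zero_iff.mpr fun j _ => hw j)

/-- H17. -/
theorem detLin : DetLin := by
  intro D F x0
  exact ⟨detLin_one D F x0, fun A B hB hA hBD h x hx => detLin_two D F x0 A B hB hA hBD h x hx,
    fun c d hc hd x => detLin_three D F c d hc hd x⟩

end Pool.Agent.Work.MP_f2af60_mp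

end

section

/-!
# MP_f2af60_mp, item H14: passage to the limit in the expansion, exact version
-/

set_option autoImplicit false

namespace Pool.Agent.Work.MP_f2af60_mp

open MeasureTheory Metric Filter Topology

theorem hexp_main (h27 : KapFacts) (h28 : PowGrowth) (h29 : LimClosure) : ExpandExact := by
  intro q hq P hP c C r0 m hc F E0 hE0 hF hlim
  obtain ⟨hk0, hk1⟩ := h27 q hq
  obtain ⟨C2, Λ2, hC2, hΛ2, hrat⟩ := gexp_ratio q hk1 P hP
  set N : ℝ := (P.natDegree : ℝ) / (2 * q) with hN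
  obtain ⟨n, hn⟩ : ∃ n : ℕ, n = 2 * q - 1 := ⟨_, rfl⟩
  obtain ⟨p, hp⟩ : ∃ p : ℕ, p = n + (m + 1) := ⟨_, rfl⟩
  have hncast : (n : ℝ) = 2 * (q : ℝ) - 1 := by
    have : n + 1 = 2 * q := by omega
    have h2 : ((n + 1 : ℕ) : ℝ) = ((2 * q : ℕ) : ℝ) := by rw [this]
    push_cast at h2
    linarith
  have hq1 : (1 : ℝ) ≤ q := by exact_mod_cast hq
  set E1 : ℝ := max E0 Λ2 with hE1
  have hE11 : 1 ≤ E1 := hE0.trans (le_max_left _ _)
  set F' : ℝ → ℂ := fun E => (F E : ℂ) - PF q P E with hF'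
  have hPF : ∀ E, PF q P E = ∑ i ∈ Finset.range q, (-1 : ℂ) ^ i * ((q - 1).choose i : ℂ) *
        ((P.derivative.eval (Complex.I * (Real.sqrt ((1 + (i : ℝ)) * E) : ℂ)) /
          P.eval (Complex.I * (Real.sqrt ((1 + (i : ℝ)) * E) : ℂ))) /
          (2 * (Complex.I * (Real.sqrt ((1 + (i : ℝ)) * E) : ℂ)))) := fun E => rfl
  have hinj : Function.Injective (fun j : Fin p => (((j : ℕ) : ℝ) - 1) / 2) := by
    intro a b hab
    have h1 : (((a : ℕ) : ℝ) - 1) / 2 = (((b : ℕ) : ℝ) - 1) / 2 := hab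
    have h2 : ((a : ℕ) : ℝ) = ((b : ℕ) : ℝ) := by linarith
    exact Fin.ext (by exact_mod_cast h2)
  have happ : ∀ E ≥ E0, ∀ η > 0, ∀ᶠ r : ℕ in atTop,
      ‖∑ j : Fin p, gexp_b q c r j * ((E ^ ((((j : ℕ) : ℝ) - 1) / 2) : ℝ) : ℂ) - F' E‖ ≤
        (0 : ℝ) + η := by
    intro E hE η hη
    have hE1' : 1 ≤ E := hE0.trans hE
    have hlim' := (Metric.tendsto_nhds.mp (hlim E hE)) (η / 2) (half_pos hη)
    filter_upwards [hlim',
      gexp_main q P hc p (by omega) E hE1' (η / 2) (half_pos hη)] with r h1 h2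
    rw [Fin.sum_univ_eq_sum_range
      (fun j : ℕ => gexp_b q c r j * ((E ^ (((j : ℝ) - 1) / 2) : ℝ) : ℂ)) p]
    rw [← hPF E] at h2
    rw [dist_eq_norm] at h1
    have h1' : ‖(∑ i ∈ Finset.range q, (-1 : ℂ) ^ i * ((q - 1).choose i : ℂ) *
        (LL P (c r) (Complex.I * (Real.sqrt ((1 + (i : ℝ)) * E) : ℂ)) /
          (2 * (Complex.I * (Real.sqrt ((1 + (i : ℝ)) * E) : ℂ))))) - (F E : ℂ)‖ ≤ η / 2 := h1.le
    set A := ∑ i ∈ Finset.range q, (-1 : ℂ) ^ i * ((q - 1).choose i : ℂ) *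
        (LL P (c r) (Complex.I * (Real.sqrt ((1 + (i : ℝ)) * E) : ℂ)) /
          (2 * (Complex.I * (Real.sqrt ((1 + (i : ℝ)) * E) : ℂ)))) with hA
    set B := PF q P E with hB
    set S := ∑ j ∈ Finset.range p,
      gexp_b q c r j * ((E ^ (((j : ℝ) - 1) / 2) : ℝ) : ℂ) with hS
    have e1 : S - F' E = (A - (F E : ℂ)) - (A - B - S) := by
      simp only [hF']
      ring
    rw [e1]
    have h5 := norm_sub_le (A - (F E : ℂ)) (A - B - S)
    linarith
  obtain ⟨β, hβ1, hβ2⟩ := h29 p (fun j : Fin p => (((j : ℕ) : ℝ) - 1) / 2) hinj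
    (fun r j => gexp_b q c r j) F' (fun _ => (0 : ℝ)) E0 (by linarith) happ
  set βt : ℕ → ℂ := fun j => if h : j < p then β ⟨j, h⟩ else 0 with hβt
  have hβt0 : ∀ j : ℕ, (∀ᶠ r in atTop, gexp_b q c r j = 0) → βt j = 0 := by
    intro j hj
    simp only [hβt]
    split_ifs with h
    · exact hβ2 ⟨j, h⟩ hj
    · rfl
  have hsum : ∀ E : ℝ, ∑ j : Fin p, β j * ((E ^ ((((j : ℕ) : ℝ) - 1) / 2) : ℝ) : ℂ) =
      ∑ j ∈ Finset.range n, βt j * ((E ^ (((j : ℝ) - 1) / 2) : ℝ) : ℂ) +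
      ∑ k ∈ Finset.range (m + 1), βt (n + k) *
        ((E ^ ((((n + k : ℕ) : ℝ) - 1) / 2) : ℝ) : ℂ) := by
    intro E
    have h1 : ∑ j : Fin p, β j * ((E ^ ((((j : ℕ) : ℝ) - 1) / 2) : ℝ) : ℂ) =
        ∑ j : Fin p, (fun j : ℕ => βt j * ((E ^ (((j : ℝ) - 1) / 2) : ℝ) : ℂ)) j := by
      refine Finset.sum_congr rfl (fun j _ => ?_)
      simp [hβt]
    rw [h1, Fin.sum_univ_eq_sum_range
      (fun j : ℕ => βt j * ((E ^ (((j : ℝ) - 1) / 2) : ℝ) : ℂ)) p, hp, Finset.sum_range_add]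
  -- the high coefficients vanish
  have hhigh : ∀ k : Fin (m + 1), βt (n + k) = 0 := by
    have hinj2 : Function.Injective
        (fun k : Fin (m + 1) => (((n + (k : ℕ) : ℕ) : ℝ) - 1) / 2) := by
      intro a b hab
      have h1 : (((n + (a : ℕ) : ℕ) : ℝ) - 1) / 2 = (((n + (b : ℕ) : ℕ) : ℝ) - 1) / 2 := hab
      have h2 : ((n + (a : ℕ) : ℕ) : ℝ) = ((n + (b : ℕ) : ℕ) : ℝ) := by linarith
      have h3 : n + (a : ℕ) = n + (b : ℕ) := by exact_mod_cast h2
      exact Fin.ext (by omega)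
    refine h28 (m + 1) _ hinj2 (fun k => βt (n + k)) ((q : ℝ) - 5 / 4) ?_ ?_
    · intro k
      have : (0 : ℝ) ≤ ((k : ℕ) : ℝ) := Nat.cast_nonneg _
      push_cast
      rw [hncast]
      linarith
    · set K : ℝ := |C| + C2 + |N| + ∑ j ∈ Finset.range n, ‖βt j‖ with hK
      have hbound : ∀ᶠ E : ℝ in atTop, ‖(∑ k : Fin (m + 1), βt (n + k) *
          ((E ^ ((((n + (k : ℕ) : ℕ) : ℝ) - 1) / 2) : ℝ) : ℂ)) /
            ((E ^ ((q : ℝ) - 5 / 4) : ℝ) : ℂ)‖ ≤ K * E ^ (-(1 / 4) : ℝ) := by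
        filter_upwards [eventually_ge_atTop E1] with E hE
        have hE1' : 1 ≤ E := hE11.trans hE
        have hE0' : 0 < E := by linarith
        have hEE0 : E0 ≤ E := (le_max_left _ _).trans hE
        rw [Fin.sum_univ_eq_sum_range (fun k : ℕ => βt (n + k) *
          ((E ^ ((((n + k : ℕ) : ℝ) - 1) / 2) : ℝ) : ℂ)) (m + 1)]
        have h1 := hβ1 E hEE0
        rw [hsum E] at h1
        set S1 := ∑ j ∈ Finset.range n, βt j * ((E ^ (((j : ℝ) - 1) / 2) : ℝ) : ℂ) with hS1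
        set S2 := ∑ k ∈ Finset.range (m + 1), βt (n + k) *
          ((E ^ ((((n + k : ℕ) : ℝ) - 1) / 2) : ℝ) : ℂ) with hS2
        set T : ℝ := E ^ ((q : ℝ) - 3 / 2) with hT
        have hT0 : 0 < T := Real.rpow_pos_of_pos hE0' _
        have hS1b : ‖S1‖ ≤ (∑ j ∈ Finset.range n, ‖βt j‖) * T := by
          rw [hS1, Finset.sum_mul]
          refine (norm_sum_le _ _).trans (Finset.sum_le_sum (fun j hj => ?_))
          rw [Finset.mem_range] at hj
          rw [norm_mul, Complex.norm_real, Real.norm_eq_abs,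
            abs_of_nonneg (Real.rpow_nonneg hE0'.le _)]
          refine mul_le_mul_of_nonneg_left ?_ (norm_nonneg _)
          refine Real.rpow_le_rpow_of_exponent_le hE1' ?_
          have h2 : j + 1 ≤ n := hj
          have h3 : ((j + 1 : ℕ) : ℝ) ≤ (n : ℝ) := by exact_mod_cast h2
          push_cast at h3
          rw [hncast] at h3
          linarith
        have hNb : ‖(((P.natDegree : ℝ) / (2 * q) * E⁻¹ : ℝ) : ℂ)‖ ≤ |N| * T := by
          rw [Complex.norm_real, Real.norm_eq_abs, ← hN, abs_mul]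
          refine mul_le_mul_of_nonneg_left ?_ (abs_nonneg _)
          rw [abs_of_nonneg (by positivity), ← Real.rpow_neg_one]
          exact Real.rpow_le_rpow_of_exponent_le hE1' (by linarith)
        have h32 : C2 * E ^ (-(3 / 2) : ℝ) ≤ C2 * T := by
          refine mul_le_mul_of_nonneg_left ?_ hC2
          exact Real.rpow_le_rpow_of_exponent_le hE1' (by linarith)
        have hPFb : ‖PF q P E‖ ≤ C2 * T + |N| * T := by
          have h3 := hrat E ((le_max_right _ _).trans hE)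
          rw [← hPF E] at h3
          have h4 : PF q P E = (PF q P E + (((P.natDegree : ℝ) / (2 * q) * E⁻¹ : ℝ) : ℂ)) -
            (((P.natDegree : ℝ) / (2 * q) * E⁻¹ : ℝ) : ℂ) := by ring
          rw [h4]
          refine (norm_sub_le _ _).trans (add_le_add (h3.trans h32) hNb)
        have hF'b : ‖F' E‖ ≤ |C| * T + (C2 * T + |N| * T) := by
          simp only [hF']
          refine (norm_sub_le _ _).trans (add_le_add ?_ hPFb)
          rw [Complex.norm_real, Real.norm_eq_abs]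
          refine (hF E hEE0).trans ?_
          exact mul_le_mul_of_nonneg_right (le_abs_self C) hT0.le
        have hS2b : ‖S2‖ ≤ K * T := by
          have e1 : S2 = (S1 + S2 - F' E) + F' E - S1 := by ring
          have h6 := norm_sub_le ((S1 + S2 - F' E) + F' E) S1
          have h7 := norm_add_le (S1 + S2 - F' E) (F' E)
          rw [← e1] at h6
          have h8 : K * T = (|C| * T + (C2 * T + |N| * T)) +
              (∑ j ∈ Finset.range n, ‖βt j‖) * T := by
            rw [hK]; ring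
          rw [h8]
          linarith
        rw [norm_div, Complex.norm_real, Real.norm_eq_abs,
          abs_of_nonneg (Real.rpow_nonneg hE0'.le _),
          div_le_iff₀ (Real.rpow_pos_of_pos hE0' _), mul_assoc, ← Real.rpow_add hE0']
        have e2 : (-(1 / 4) : ℝ) + ((q : ℝ) - 5 / 4) = (q : ℝ) - 3 / 2 := by ring
        rw [e2]
        exact hS2b
      have hlim0 : Tendsto (fun E : ℝ => K * E ^ (-(1 / 4) : ℝ)) atTop (𝓝 0) := by
        have h9 := (tendsto_rpow_neg_atTop (y := (1 / 4 : ℝ)) (by norm_num)).const_mul K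
        rw [mul_zero] at h9
        exact h9
      exact squeeze_zero_norm' hbound hlim0
  -- the odd coefficients vanish
  have hodd : ∀ j : ℕ, Odd j → j < n → βt j = 0 := by
    intro j hj hjn
    obtain ⟨a, ha⟩ := hj
    refine hβt0 j (Eventually.of_forall (fun r => ?_))
    have h1 : ((j : ℝ) - 1) / 2 = (a : ℝ) := by
      rw [ha]; push_cast; ring
    have h2 : kap q (((j : ℝ) - 1) / 2) = 0 := by
      rw [h1]; exact hk0 a (by omega)
    rw [gexp_b, h2]
    simp
  have hfin : ∀ E : ℝ, ∑ j : Fin p, β j * ((E ^ ((((j : ℕ) : ℝ) - 1) / 2) : ℝ) : ℂ) =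
      ∑ i ∈ Finset.range q, βt (2 * (q - 1 - i)) * ((E ^ ((q : ℝ) - 3 / 2 - i) : ℝ) : ℂ) := by
    intro E
    rw [hsum E]
    have h1 : ∑ k ∈ Finset.range (m + 1), βt (n + k) *
        ((E ^ ((((n + k : ℕ) : ℝ) - 1) / 2) : ℝ) : ℂ) = 0 := by
      refine Finset.sum_eq_zero (fun k hk => ?_)
      rw [Finset.mem_range] at hk
      have := hhigh ⟨k, hk⟩
      simp only at this
      rw [this, zero_mul]
    have h2 : n = 2 * (q - 1) + 1 := by omega
    have h3 := gexp_even_sum (fun j : ℕ => βt j * ((E ^ (((j : ℝ) - 1) / 2) : ℝ) : ℂ)) (q - 1)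
      (fun j hj hjn => by
        have := hodd j hj (by omega)
        simp only [this, zero_mul])
    rw [← h2, Nat.sub_add_cancel hq] at h3
    rw [h1, add_zero, h3, ← Finset.sum_range_reflect]
    refine Finset.sum_congr rfl (fun i hi => ?_)
    rw [Finset.mem_range] at hi
    have h4 : (((2 * (q - 1 - i) : ℕ) : ℝ) - 1) / 2 = (q : ℝ) - 3 / 2 - i := by
      have h5 : q - 1 - i + (1 + i) = q := by omega
      have h6 : ((q - 1 - i + (1 + i) : ℕ) : ℝ) = (q : ℝ) := by rw [h5]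
      push_cast at h6 ⊢
      linarith
    rw [h4]
  refine ⟨fun i => (βt (2 * (q - 1 - i))).re, ?_, ?_⟩
  · intro E hE
    have h1 := hβ1 E hE
    rw [hfin E] at h1
    have h2 : ∑ i ∈ Finset.range q, βt (2 * (q - 1 - i)) *
        ((E ^ ((q : ℝ) - 3 / 2 - i) : ℝ) : ℂ) = F' E :=
      sub_eq_zero.mp (norm_le_zero_iff.mp h1)
    have h3 := congrArg Complex.re h2
    simp only [hF'] at h3
    rw [Complex.re_sum, Complex.sub_re, Complex.ofReal_re] at h3
    have h4 : ∀ i ∈ Finset.range q, (βt (2 * (q - 1 - i)) *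
        ((E ^ ((q : ℝ) - 3 / 2 - i) : ℝ) : ℂ)).re =
        (βt (2 * (q - 1 - i))).re * E ^ ((q : ℝ) - 3 / 2 - i) :=
      fun i _ => Complex.re_mul_ofReal _ _
    rw [Finset.sum_congr rfl h4] at h3
    rw [h3]
    ring
  · intro _ hcodd i hi
    have h1 : βt (2 * (q - 1 - i)) = 0 := by
      refine hβt0 _ ?_
      filter_upwards [eventually_ge_atTop r0] with r hr
      have h2 : c r (2 * (q - 1 - i) + 1) = 0 :=
        hcodd r hr _ ⟨q - 1 - i, rfl⟩ (by omega)
      rw [gexp_b, h2]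
      simp
    simp only [h1, Complex.zero_re]

theorem expandExact : ExpandExact := hexp_main kapFacts powGrowth (limClosure powGrowth)

end Pool.Agent.Work.MP_f2af60_mp

end

section

/-!
# MP_f2af60_mp, item H1: masses of the chain kernels
-/

namespace Pool.Agent.Work.MP_f2af60_mp

open MeasureTheory Set Filter Topology
open scoped ENNReal

/-! ### The Gamma function near one -/

lemma HKM_gamma {a : ℝ} (h0 : 0 ≤ a) (h1 : a < 1) : Real.Gamma (1 - a) ≤ (1 - a)⁻¹ := by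
  have hpos : (0 : ℝ) < 1 - a := by linarith
  have h2 : Real.Gamma (2 - a) ≤ 1 := by
    have h := Real.convexOn_Gamma.2 (show (1 : ℝ) ∈ Ioi (0 : ℝ) by norm_num)
      (show (2 : ℝ) ∈ Ioi (0 : ℝ) by norm_num) h0 hpos.le (by ring)
    simp only [smul_eq_mul, Real.Gamma_one, Real.Gamma_two, mul_one] at h
    have e : a + (1 - a) * 2 = 2 - a := by ring
    rw [e] at h
    linarith
  have h3 : Real.Gamma (2 - a) = (1 - a) * Real.Gamma (1 - a) := by
    have e : (2 : ℝ) - a = (1 - a) + 1 := by ring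
    rw [e, Real.Gamma_add_one hpos.ne']
  rw [h3] at h2
  rw [inv_eq_one_div, le_div_iff₀ hpos]
  linarith

lemma HKM_gamma_pow {m : ℕ} (hm : 1 ≤ m) :
    Real.Gamma (1 - 3 / (2 * ((m : ℝ) + 1))) ^ (m + 1) ≤ Real.exp 6 := by
  have hm1 : (1 : ℝ) ≤ m := by exact_mod_cast hm
  have hm0 : (0 : ℝ) < 2 * ((m : ℝ) + 1) := by positivity
  set a : ℝ := 3 / (2 * ((m : ℝ) + 1)) with ha
  have ha0 : 0 ≤ a := by positivity
  have ha1 : a ≤ 3 / 4 := by
    rw [ha, div_le_div_iff₀ hm0 (by norm_num)]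
    linarith
  have hpos : (0 : ℝ) < 1 - a := by linarith
  have h1 := HKM_gamma ha0 (by linarith : a < 1)
  have h2 : (1 - a)⁻¹ ≤ Real.exp (4 * a) := by
    have h3 : (1 - a)⁻¹ = 1 + a / (1 - a) := by
      field_simp
      ring
    have h4 : a / (1 - a) ≤ 4 * a := by
      rw [div_le_iff₀ hpos]
      nlinarith
    have h5 := Real.add_one_le_exp (4 * a)
    rw [h3]
    linarith
  have hG : 0 < Real.Gamma (1 - a) := Real.Gamma_pos_of_pos hpos
  calc Real.Gamma (1 - a) ^ (m + 1) ≤ Real.exp (4 * a) ^ (m + 1) :=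
        pow_le_pow_left₀ hG.le (h1.trans h2) _
    _ = Real.exp 6 := by
        rw [← Real.exp_nat_mul]
        congr 1
        rw [ha]
        push_cast
        field_simp
        ring

/-! ### The time integral -/

lemma HKM_time (m : ℕ) {a : ℝ} (ha : a < 1) :
    ∫⁻ t : Fin (m + 1) → ℝ in {t | ∀ i, 0 < t i},
      ENNReal.ofReal (∏ i, ((t i) ^ (-a) * Real.exp (-(t i)))) ≤
      ENNReal.ofReal (Real.Gamma (1 - a) ^ (m + 1)) := by
  have hpos : (0 : ℝ) < 1 - a := by linarith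
  set g : ℝ → ℝ := fun s => s ^ (-a) * Real.exp (-s) with hg
  have hgi : IntegrableOn g (Ioi 0) := by
    have h := Real.GammaIntegral_convergent hpos
    refine h.congr_fun (fun s _ => ?_) measurableSet_Ioi
    simp only [hg]
    rw [mul_comm]
    congr 2
    ring
  have hgI : ∫ s in Ioi (0 : ℝ), g s = Real.Gamma (1 - a) := by
    rw [Real.Gamma_eq_integral hpos]
    refine setIntegral_congr_fun measurableSet_Ioi fun s _ => ?_
    simp only [hg]
    rw [mul_comm]
    congr 2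
    ring
  have h1 : Integrable ((Ioi (0 : ℝ)).indicator g) :=
    (integrable_indicator_iff measurableSet_Ioi).2 hgi
  have h2 : Integrable (fun t : Fin (m + 1) → ℝ => ∏ i, (Ioi (0 : ℝ)).indicator g (t i)) :=
    Integrable.fintype_prod (fun _ => h1)
  have hset : MeasurableSet {t : Fin (m + 1) → ℝ | ∀ i, 0 < t i} := by
    rw [ofPred_forall]
    exact MeasurableSet.iInter fun i => measurableSet_lt measurable_const (measurable_pi_apply i)
  have hnn : ∀ s, 0 ≤ (Ioi (0 : ℝ)).indicator g s := by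
    intro s
    refine indicator_nonneg (fun u hu => ?_) s
    have hu' : (0 : ℝ) < u := hu
    exact mul_nonneg (Real.rpow_nonneg hu'.le _) (Real.exp_pos _).le
  calc ∫⁻ t : Fin (m + 1) → ℝ in {t | ∀ i, 0 < t i},
      ENNReal.ofReal (∏ i, ((t i) ^ (-a) * Real.exp (-(t i))))
      ≤ ∫⁻ t : Fin (m + 1) → ℝ, ENNReal.ofReal (∏ i, (Ioi (0 : ℝ)).indicator g (t i)) := by
        rw [← lintegral_indicator hset]
        refine lintegral_mono fun t => ?_
        by_cases h : t ∈ {t : Fin (m + 1) → ℝ | ∀ i, 0 < t i}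
        · rw [indicator_of_mem h]
          apply ENNReal.ofReal_le_ofReal
          refine le_of_eq ?_
          refine Finset.prod_congr rfl fun i _ => ?_
          rw [indicator_of_mem]
          exact h i
        · rw [indicator_of_notMem h]; exact bot_le
    _ = ENNReal.ofReal (∫ t : Fin (m + 1) → ℝ, ∏ i, (Ioi (0 : ℝ)).indicator g (t i)) := by
        rw [ofReal_integral_eq_lintegral_ofReal h2]
        exact Eventually.of_forall fun t => Finset.prod_nonneg fun i _ => hnn _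
    _ = _ := by
        rw [integral_fintype_prod_volume_eq_prod (fun _ : Fin (m + 1) => (Ioi (0 : ℝ)).indicator g)]
        rw [integral_indicator measurableSet_Ioi, hgI]
        simp

/-- Pointwise bound of the time integrand. -/
lemma HKM_pointwise (q m : ℕ) (hq : 1 ≤ q) (t : Fin (m + 1) → ℝ) (ht : ∀ i, 0 < t i) :
    t (Fin.last m) * Real.exp (-(1 * ∑ i, t i)) * (1 - Real.exp (-(1 * ∑ i, t i))) ^ (q - 1) *
      (4 * Real.pi * ∑ i, t i) ^ (-((q : ℝ) + 3 / 2)) ≤
    ((4 * Real.pi) ^ (-((q : ℝ) + 3 / 2)) * ((m : ℝ) + 1) ^ (-(3 / 2) : ℝ)) *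
      ∏ i, ((t i) ^ (-(3 / (2 * ((m : ℝ) + 1)))) * Real.exp (-(t i))) := by
  set T := ∑ i, t i with hT
  have hti : ∀ i, t i ≤ T := fun i =>
    Finset.single_le_sum (fun j _ => (ht j).le) (Finset.mem_univ i)
  have hT0 : 0 < T := (ht 0).trans_le (hti 0)
  have hm : (0 : ℝ) < (m : ℝ) + 1 := by positivity
  rw [one_mul]
  have e1 : Real.exp (-T) = ∏ i, Real.exp (-(t i)) := by
    rw [← Real.exp_sum]; congr 1
    rw [hT, Finset.sum_neg_distrib]
  have e2 : T ^ (-(3 / 2) : ℝ) ≤ ((m : ℝ) + 1) ^ (-(3 / 2) : ℝ) *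
      ∏ i, (t i) ^ (-(3 / (2 * ((m : ℝ) + 1)))) := by
    have hw : ∑ _i : Fin (m + 1), (1 / ((m : ℝ) + 1)) = 1 := by
      rw [Finset.sum_const, Finset.card_univ, Fintype.card_fin, nsmul_eq_mul]
      push_cast
      field_simp
    have h1 := Real.geom_mean_le_arith_mean_weighted Finset.univ
      (fun _ : Fin (m + 1) => 1 / ((m : ℝ) + 1)) t (fun _ _ => by positivity) hw
      (fun i _ => (ht i).le)
    have h2 : ∑ i : Fin (m + 1), 1 / ((m : ℝ) + 1) * t i = T / ((m : ℝ) + 1) := by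
      rw [← Finset.mul_sum, hT]; ring
    rw [h2] at h1
    have hP : 0 < ∏ i, t i ^ (1 / ((m : ℝ) + 1)) :=
      Finset.prod_pos fun i _ => Real.rpow_pos_of_pos (ht i) _
    have h3 := Real.rpow_le_rpow_of_nonpos hP h1 (by norm_num : (-(3 / 2) : ℝ) ≤ 0)
    have h4 : (∏ i, t i ^ (1 / ((m : ℝ) + 1))) ^ (-(3 / 2) : ℝ) =
        ∏ i, (t i) ^ (-(3 / (2 * ((m : ℝ) + 1)))) := by
      rw [← Real.finsetProd_rpow _ _ (fun i _ => Real.rpow_nonneg (ht i).le _)]
      refine Finset.prod_congr rfl fun i _ => ?_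
      rw [← Real.rpow_mul (ht i).le]
      congr 1
      field_simp
    rw [h4] at h3
    have h5 : T ^ (-(3 / 2) : ℝ) = ((m : ℝ) + 1) ^ (-(3 / 2) : ℝ) *
        (T / ((m : ℝ) + 1)) ^ (-(3 / 2) : ℝ) := by
      rw [← Real.mul_rpow hm.le (by positivity)]
      congr 1
      field_simp
    rw [h5]
    exact mul_le_mul_of_nonneg_left h3 (Real.rpow_nonneg hm.le _)
  have hE1 : Real.exp (-T) ≤ 1 := Real.exp_le_one_iff.2 (by linarith)
  have e3 : (1 - Real.exp (-T)) ^ (q - 1) ≤ T ^ (q - 1) := by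
    apply pow_le_pow_left₀
    · linarith
    · have := Real.add_one_le_exp (-T)
      linarith
  have e4 : T * T ^ (q - 1) * (4 * Real.pi * T) ^ (-((q : ℝ) + 3 / 2)) =
      (4 * Real.pi) ^ (-((q : ℝ) + 3 / 2)) * T ^ (-(3 / 2) : ℝ) := by
    have h8 : (0 : ℝ) < 4 * Real.pi := by positivity
    rw [Real.mul_rpow h8.le hT0.le]
    have h2 : T * T ^ (q - 1) * T ^ (-((q : ℝ) + 3 / 2)) = T ^ (-(3 / 2) : ℝ) := by
      rw [← pow_succ', Nat.sub_add_cancel hq, ← Real.rpow_natCast, ← Real.rpow_add hT0]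
      congr 1
      ring
    rw [← h2]; ring
  calc t (Fin.last m) * Real.exp (-T) * (1 - Real.exp (-T)) ^ (q - 1) *
      (4 * Real.pi * T) ^ (-((q : ℝ) + 3 / 2))
      ≤ T * Real.exp (-T) * T ^ (q - 1) * (4 * Real.pi * T) ^ (-((q : ℝ) + 3 / 2)) := by
        apply mul_le_mul_of_nonneg_right _ (Real.rpow_nonneg (by positivity) _)
        apply mul_le_mul _ e3 _ (by positivity)
        · exact mul_le_mul_of_nonneg_right (hti _) (Real.exp_pos _).le
        · apply pow_nonneg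
          linarith
    _ = (T * T ^ (q - 1) * (4 * Real.pi * T) ^ (-((q : ℝ) + 3 / 2))) * Real.exp (-T) := by ring
    _ = (4 * Real.pi) ^ (-((q : ℝ) + 3 / 2)) * (T ^ (-(3 / 2) : ℝ) * Real.exp (-T)) := by
        rw [e4]; ring
    _ ≤ (4 * Real.pi) ^ (-((q : ℝ) + 3 / 2)) * ((((m : ℝ) + 1) ^ (-(3 / 2) : ℝ) *
        ∏ i, (t i) ^ (-(3 / (2 * ((m : ℝ) + 1))))) * Real.exp (-T)) := by
        apply mul_le_mul_of_nonneg_left _ (by positivity)
        exact mul_le_mul_of_nonneg_right e2 (Real.exp_pos _).le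
    _ = _ := by
        rw [e1, Finset.prod_mul_distrib]
        ring

/-- The bound of the mass. -/
lemma HKM_lint (q m : ℕ) (hq : 1 ≤ q) (hm : 1 ≤ m) :
    ∫⁻ y : Fin m → En q, ENNReal.ofReal (km q m y) ≤
      ENNReal.ofReal (((4 * Real.pi) ^ (-((q : ℝ) + 3 / 2)) * ((m : ℝ) + 1) ^ (-(3 / 2) : ℝ)) *
        Real.exp 6) := by
  have h31 : KmRep := kmRep f_pt f_hh
  have h32 : GaussChain := gaussChain f_pt
  obtain ⟨-, -, hmeas, -, -, -⟩ := f_pt q
  have hpt : ∀ s : ℝ, 0 < s → ∀ x : En q, 0 ≤ pt q s x := by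
    intro s hs x; unfold pt; positivity
  set S : Set (Fin (m + 1) → ℝ) := {t | ∀ i, 0 < t i} with hS
  have hSm : MeasurableSet S := by
    rw [hS, ofPred_forall]
    exact MeasurableSet.iInter fun i => measurableSet_lt measurable_const (measurable_pi_apply i)
  let A : (Fin (m + 1) → ℝ) → ℝ := fun t => t (Fin.last m) * Real.exp (-(1 * ∑ i, t i)) *
    (1 - Real.exp (-(1 * ∑ i, t i))) ^ (q - 1)
  have hA0 : ∀ t ∈ S, 0 ≤ A t := by
    intro t ht
    have hT : 0 ≤ ∑ i, t i := Finset.sum_nonneg fun i _ => (ht i).le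
    have : Real.exp (-(1 * ∑ i, t i)) ≤ 1 := Real.exp_le_one_iff.2 (by linarith)
    exact mul_nonneg (mul_nonneg (ht _).le (Real.exp_pos _).le) (pow_nonneg (by linarith) _)
  have hAm : Measurable A := by fun_prop
  have hDm : ∀ i, Measurable (fun y : Fin m → En q => KM_D q m y i) := by
    intro i
    exact ((measurable_pi_apply i).comp (KM_cons_measurable q m)).sub
      ((measurable_pi_apply (i + 1)).comp (KM_cons_measurable q m))
  have hjoint : Measurable (fun z : (Fin m → En q) × (Fin (m + 1) → ℝ) =>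
      ∏ i, ENNReal.ofReal (pt q (z.2 i) (KM_D q m z.1 i))) := by
    refine Finset.measurable_prod _ fun i _ => ?_
    have hf : Measurable (fun z : (Fin m → En q) × (Fin (m + 1) → ℝ) =>
        (z.2 i, KM_D q m z.1 i)) :=
      ((measurable_pi_apply i).comp measurable_snd).prodMk ((hDm i).comp measurable_fst)
    exact (hmeas.comp hf).ennreal_ofReal
  have h1 : ∀ y : Fin m → En q, ENNReal.ofReal (km q m y) ≤
      ∫⁻ t in S, ENNReal.ofReal (A t) * ∏ i, ENNReal.ofReal (pt q (t i) (KM_D q m y i)) := by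
    intro y
    refine (h31 q m hq hm 1 one_pos (Fin.cons 0 y)).2.2.trans ?_
    refine setLIntegral_mono' hSm fun t ht => ?_
    rw [← ENNReal.ofReal_prod_of_nonneg (fun i _ => hpt _ (ht i) _),
      ← ENNReal.ofReal_mul (hA0 t ht)]
    exact le_rfl
  calc ∫⁻ y : Fin m → En q, ENNReal.ofReal (km q m y)
      ≤ ∫⁻ y : Fin m → En q, ∫⁻ t in S, ENNReal.ofReal (A t) *
        ∏ i, ENNReal.ofReal (pt q (t i) (KM_D q m y i)) := lintegral_mono h1
    _ = ∫⁻ t in S, ∫⁻ y : Fin m → En q, ENNReal.ofReal (A t) *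
        ∏ i, ENNReal.ofReal (pt q (t i) (KM_D q m y i)) := by
        apply lintegral_lintegral_swap
        apply Measurable.aemeasurable
        show Measurable (fun z : (Fin m → En q) × (Fin (m + 1) → ℝ) => ENNReal.ofReal (A z.2) *
          ∏ i, ENNReal.ofReal (pt q (z.2 i) (KM_D q m z.1 i)))
        have hA' : Measurable (fun z : (Fin m → En q) × (Fin (m + 1) → ℝ) =>
            ENNReal.ofReal (A z.2)) := (hAm.comp measurable_snd).ennreal_ofReal
        exact hA'.mul hjoint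
    _ ≤ ∫⁻ t in S, ENNReal.ofReal (((4 * Real.pi) ^ (-((q : ℝ) + 3 / 2)) *
          ((m : ℝ) + 1) ^ (-(3 / 2) : ℝ)) *
          ∏ i, ((t i) ^ (-(3 / (2 * ((m : ℝ) + 1)))) * Real.exp (-(t i)))) := by
        refine setLIntegral_mono' hSm fun t ht => ?_
        rw [lintegral_const_mul' _ _ ENNReal.ofReal_ne_top]
        have h2 : (∫⁻ y : Fin m → En q, ∏ i : Fin (m + 1),
            ENNReal.ofReal (pt q (t i) (KM_D q m y i))) =
            ENNReal.ofReal ((4 * Real.pi * ∑ i, t i) ^ (-((q : ℝ) + 3 / 2))) := h32 q m hm t ht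
        rw [h2, ← ENNReal.ofReal_mul (hA0 t ht)]
        apply ENNReal.ofReal_le_ofReal
        exact HKM_pointwise q m hq t ht
    _ = ENNReal.ofReal ((4 * Real.pi) ^ (-((q : ℝ) + 3 / 2)) * ((m : ℝ) + 1) ^ (-(3 / 2) : ℝ)) *
        ∫⁻ t in S, ENNReal.ofReal
          (∏ i, ((t i) ^ (-(3 / (2 * ((m : ℝ) + 1)))) * Real.exp (-(t i)))) := by
        rw [← lintegral_const_mul' _ _ ENNReal.ofReal_ne_top]
        refine lintegral_congr fun t => ?_
        rw [ENNReal.ofReal_mul (by positivity)]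
    _ ≤ ENNReal.ofReal ((4 * Real.pi) ^ (-((q : ℝ) + 3 / 2)) * ((m : ℝ) + 1) ^ (-(3 / 2) : ℝ)) *
        ENNReal.ofReal (Real.exp 6) := by
        refine mul_le_mul_right ?_ _
        have ha : 3 / (2 * ((m : ℝ) + 1)) < 1 := by
          rw [div_lt_one (by positivity)]
          have : (1 : ℝ) ≤ m := by exact_mod_cast hm
          linarith
        exact (HKM_time m ha).trans (ENNReal.ofReal_le_ofReal (HKM_gamma_pow hm))
    _ = _ := by rw [← ENNReal.ofReal_mul (by positivity)]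

lemma HKM_meas (q m : ℕ) : Measurable (km q m) :=
  (KM_DJ_measurable f_hh q m one_pos).comp (KM_cons_measurable q m)

lemma HKM_int (q m : ℕ) (hq : 1 ≤ q) (hm : 1 ≤ m) : Integrable (km q m) := by
  obtain ⟨h0, -, hi, -⟩ := f_km q m hq hm
  refine Integrable.mono' hi (HKM_meas q m).aestronglyMeasurable ?_
  refine Filter.Eventually.of_forall fun y => ?_
  rw [Real.norm_of_nonneg (h0 y)]
  refine le_mul_of_one_le_left (h0 y) (one_le_pow₀ ?_)
  linarith [norm_nonneg y]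

lemma HKM_bound (q m : ℕ) (hq : 1 ≤ q) (hm : 1 ≤ m) :
    ∫ y, km q m y ≤ ((4 * Real.pi) ^ (-((q : ℝ) + 3 / 2)) * ((m : ℝ) + 1) ^ (-(3 / 2) : ℝ)) *
      Real.exp 6 := by
  obtain ⟨h0, -⟩ := f_km q m hq hm
  rw [integral_eq_lintegral_of_nonneg_ae (Eventually.of_forall h0)
    (HKM_meas q m).aestronglyMeasurable]
  exact ENNReal.toReal_le_of_le_ofReal (by positivity) (HKM_lint q m hq hm)

lemma HKM_pos (q m : ℕ) (hq : 1 ≤ q) (hm : 1 ≤ m) : 0 < ∫ y, km q m y := by
  have h31 : KmRep := kmRep f_pt f_hh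
  have h0 : 0 ≤ km q m := fun y => (f_km q m hq hm).1 y
  rw [integral_pos_iff_support_of_nonneg h0 (HKM_int q m hq hm)]
  set U : Set (Fin m → En q) := {y | ∀ i : Fin (m + 1), (Fin.cons 0 y : Fin (m + 1) → En q) i ≠
    (Fin.cons 0 y : Fin (m + 1) → En q) (i + 1)} with hU
  have hsub : U ⊆ Function.support (km q m) := fun y hy =>
    ((h31 q m hq hm 1 one_pos (Fin.cons 0 y)).2.1 hy).ne'
  have hcont : ∀ i : Fin (m + 1), Continuous fun y : Fin m → En q =>
      (Fin.cons 0 y : Fin (m + 1) → En q) i := by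
    intro i
    refine Fin.cases ?_ (fun j => ?_) i
    · simpa using continuous_const
    · simpa using continuous_apply j
  have hopen : IsOpen U := by
    rw [hU, ofPred_forall]
    exact isOpen_iInter_of_finite fun i => isOpen_ne_fun (hcont i) (hcont (i + 1))
  have hne : U.Nonempty := by
    obtain ⟨v, hv⟩ := exists_ne (0 : En q)
    refine ⟨fun j => ((j : ℕ) + 1 : ℝ) • v, fun i => ?_⟩
    have hval : ∀ k : Fin (m + 1), (Fin.cons 0 (fun j : Fin m => ((j : ℕ) + 1 : ℝ) • v) :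
        Fin (m + 1) → En q) k = ((k : ℕ) : ℝ) • v := by
      intro k
      refine Fin.cases ?_ (fun j => ?_) k
      · simp
      · simp
    rw [hval, hval]
    intro h
    have h1 := smul_left_injective ℝ hv h
    have h2 : (i : ℕ) = ((i + 1 : Fin (m + 1)) : ℕ) := by exact_mod_cast h1
    have h3 : i = i + 1 := Fin.ext h2
    have h4 : (1 : Fin (m + 1)) = 0 := by
      have := h3
      rwa [left_eq_add] at this
    have h5 : (1 : Fin (m + 1)) ≠ 0 := by
      rw [Ne, Fin.ext_iff]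
      simp [Fin.val_one']
      omega
    exact h5 h4
  exact lt_of_lt_of_le (hopen.measure_pos volume hne) (measure_mono hsub)

theorem kmMass : KmMass := by
  intro q hq
  constructor
  · refine ⟨(4 * Real.pi) ^ (-((q : ℝ) + 3 / 2)) * Real.exp 6, fun m hm =>
      ⟨HKM_int q m hq hm, HKM_pos q m hq hm, (HKM_bound q m hq hm).trans ?_⟩⟩
    have h1 : ((m : ℝ) + 1) ^ (-(3 / 2) : ℝ) ≤ 1 :=
      Real.rpow_le_one_of_one_le_of_nonpos (by
        have : (0 : ℝ) ≤ m := Nat.cast_nonneg m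
        linarith) (by norm_num)
    have h2 : (0 : ℝ) ≤ (4 * Real.pi) ^ (-((q : ℝ) + 3 / 2)) := by positivity
    have h3 := mul_le_mul_of_nonneg_left h1 h2
    rw [mul_one] at h3
    exact mul_le_mul_of_nonneg_right h3 (Real.exp_pos _).le
  · refine squeeze_zero (fun m => (HKM_pos q (m + 1) hq (by omega)).le)
      (fun m => HKM_bound q (m + 1) hq (by omega)) ?_
    have h1 : Tendsto (fun m : ℕ => (((m + 1 : ℕ) : ℝ) + 1)) atTop atTop :=
      tendsto_atTop_add_const_right _ _ (tendsto_natCast_atTop_atTop.comp (tendsto_add_atTop_nat 1))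
    have h2 := (tendsto_rpow_neg_atTop (by norm_num : (0 : ℝ) < 3 / 2)).comp h1
    have h3 := (h2.const_mul ((4 * Real.pi) ^ (-((q : ℝ) + 3 / 2)))).mul_const (Real.exp 6)
    simpa using h3

end Pool.Agent.Work.MP_f2af60_mp

end

section

/-!
# MP_f2af60_mp, item H2: lower bound for the masses of the chain kernels
-/

namespace Pool.Agent.Work.MP_f2af60_mp

open MeasureTheory Filter Topology Set
open scoped ENNReal

/-- The Laplace representation as an equality, for consecutive distinct points. -/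
theorem hml_DJ (q m : ℕ) (E : ℝ) (hE : 0 < E)
    (x : Fin (m + 1) → En q) (hx : ∀ i, x i ≠ x (i + 1)) :
    ENNReal.ofReal (DJ q m E x) = ∫⁻ t : Fin (m + 1) → ℝ in {t | ∀ i, 0 < t i},
      ENNReal.ofReal (t (Fin.last m) * Real.exp (-(E * ∑ i, t i)) *
        (1 - Real.exp (-(E * ∑ i, t i))) ^ (q - 1) * ∏ i, pt q (t i) (x i - x (i + 1))) := by
  set S : Set (Fin (m + 1) → ℝ) := {t | ∀ i, 0 < t i} with hS
  set P : (Fin (m + 1) → ℝ) → ℝ := fun t => ∏ i, pt q (t i) (x i - x (i + 1)) with hP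
  have hSm : MeasurableSet S := by
    rw [hS, kmr_set]
    exact MeasurableSet.univ_pi fun _ => measurableSet_Ioi
  have hint : ∀ E' > 0, IntegrableOn (fun t : Fin (m + 1) → ℝ => t (Fin.last m) *
      Real.exp (-(E' * ∑ i, t i)) * P t) S := by
    intro E' hE'
    rw [hS, kmr_set, IntegrableOn, volume_pi, Measure.restrict_pi_pi]
    simp_rw [hP, ← kmr_prod]
    refine Integrable.fintype_prod fun i => ?_
    have hxi : x i - x (i + 1) ≠ 0 := sub_ne_zero.2 (hx i)
    by_cases hi : i = Fin.last m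
    · have := ((f_hh q 1).1 E' hE').2.2.2.2.2.1 (x i - x (i + 1)) (Or.inl hxi)
      refine this.congr_fun (fun t _ => ?_) measurableSet_Ioi
      unfold kmrF
      simp [hi]
    · have := ((f_hh q 0).1 E' hE').2.2.2.2.2.1 (x i - x (i + 1)) (Or.inl hxi)
      refine this.congr_fun (fun t _ => ?_) measurableSet_Ioi
      unfold kmrF
      simp [hi]
  set I : (Fin (m + 1) → ℝ) → ℝ := fun t => t (Fin.last m) * Real.exp (-(E * ∑ i, t i)) *
        (1 - Real.exp (-(E * ∑ i, t i))) ^ (q - 1) * P t with hI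
  have hIeq : ∀ t, I t = ∑ k ∈ Finset.range (q - 1 + 1), (-1) ^ k * ((q - 1).choose k : ℝ) *
      (t (Fin.last m) * Real.exp (-(((1 + (k:ℝ)) * E) * ∑ i, t i)) * P t) := by
    intro t
    simp only [hI]
    have h1 : (1 - Real.exp (-(E * ∑ i, t i))) ^ (q - 1) =
        ∑ k ∈ Finset.range (q - 1 + 1), (-1) ^ k * ((q - 1).choose k : ℝ) *
          Real.exp (-((k:ℝ) * E * ∑ i, t i)) := by
      have h2 := add_pow (-Real.exp (-(E * ∑ i, t i))) 1 (q - 1)
      have h3 : 1 - Real.exp (-(E * ∑ i, t i)) = -Real.exp (-(E * ∑ i, t i)) + 1 := by ring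
      rw [h3, h2]
      refine Finset.sum_congr rfl fun k _ => ?_
      rw [one_pow, mul_one, neg_pow, ← Real.exp_nat_mul]
      have : (k:ℝ) * -(E * ∑ i, t i) = -((k:ℝ) * E * ∑ i, t i) := by ring
      rw [this]
      ring
    rw [h1, Finset.mul_sum, Finset.sum_mul]
    refine Finset.sum_congr rfl fun k _ => ?_
    have h4 : Real.exp (-(((1 + (k:ℝ)) * E) * ∑ i, t i)) =
        Real.exp (-(E * ∑ i, t i)) * Real.exp (-((k:ℝ) * E * ∑ i, t i)) := by
      rw [← Real.exp_add]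
      congr 1
      ring
    rw [h4]
    ring
  have hIint : IntegrableOn I S := by
    have : I = fun t => ∑ k ∈ Finset.range (q - 1 + 1), (-1) ^ k * ((q - 1).choose k : ℝ) *
      (t (Fin.last m) * Real.exp (-(((1 + (k:ℝ)) * E) * ∑ i, t i)) * P t) := funext hIeq
    rw [this]
    refine integrable_finsetSum _ fun k _ => ?_
    exact (hint ((1 + (k:ℝ)) * E) (by positivity)).const_mul _
  have hDJ : DJ q m E x = ∫ t in S, I t := by
    simp_rw [hIeq]
    rw [integral_finsetSum]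
    · unfold DJ DD
      refine Finset.sum_congr rfl fun k _ => ?_
      rw [integral_const_mul]
      congr 1
      exact kmr_JJ q m ((1 + (k:ℝ)) * E) x
    · intro k _
      exact (hint ((1 + (k:ℝ)) * E) (by positivity)).const_mul _
  have hPpos : ∀ t ∈ S, 0 < P t := by
    intro t ht
    exact Finset.prod_pos fun i _ => (f_pt q).1 (t i) (ht i) _
  have hIpos : ∀ t ∈ S, 0 < I t := by
    intro t ht
    have hs : 0 < ∑ i, t i := Finset.sum_pos (fun i _ => ht i) ⟨0, Finset.mem_univ _⟩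
    have h1 : Real.exp (-(E * ∑ i, t i)) < 1 := by
      rw [Real.exp_lt_one_iff]
      have := mul_pos hE hs
      linarith
    have h2 : 0 < (1 - Real.exp (-(E * ∑ i, t i))) ^ (q - 1) := pow_pos (by linarith) _
    have h3 := hPpos t ht
    have h4 : 0 < t (Fin.last m) := ht _
    simp only [hI]
    positivity
  have hnn : 0 ≤ᵐ[volume.restrict S] I := by
    filter_upwards [ae_restrict_mem hSm] with t ht
    exact (hIpos t ht).le
  rw [hDJ, ofReal_integral_eq_lintegral_ofReal hIint hnn]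

/-- The coordinates of the chain as linear maps. -/
noncomputable def hml_c (q m : ℕ) (i : Fin (m + 1)) : (Fin m → En q) →ₗ[ℝ] En q :=
  Fin.cases (motive := fun _ => (Fin m → En q) →ₗ[ℝ] En q) 0 (fun j => LinearMap.proj j) i

lemma hml_c_apply (q m : ℕ) (i : Fin (m + 1)) (y : Fin m → En q) :
    hml_c q m i y = (Fin.cons 0 y : Fin (m + 1) → En q) i := by
  refine Fin.cases ?_ (fun j => ?_) i
  · simp [hml_c]
  · simp [hml_c]

lemma hml_null (q m : ℕ) (hm : 1 ≤ m) :
    ∀ᵐ y : Fin m → En q, ∀ i : Fin (m + 1), (Fin.cons 0 y : Fin (m + 1) → En q) i ≠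
      (Fin.cons 0 y : Fin (m + 1) → En q) (i + 1) := by
  rw [ae_all_iff]
  intro i
  rw [ae_iff]
  set S : Submodule ℝ (Fin m → En q) := LinearMap.ker (hml_c q m i - hml_c q m (i + 1)) with hS
  have e3 : {y : Fin m → En q | ¬ ((Fin.cons 0 y : Fin (m + 1) → En q) i ≠
      (Fin.cons 0 y : Fin (m + 1) → En q) (i + 1))} = (S : Set (Fin m → En q)) := by
    ext y
    simp [hS, sub_eq_zero, hml_c_apply]
  rw [e3]
  apply Measure.addHaar_submodule
  intro htop
  obtain ⟨v, hv⟩ := exists_ne (0 : En q)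
  have h1 : (fun j : Fin m => ((j : ℕ) + 1 : ℝ) • v) ∈ S := by
    rw [htop]
    trivial
  have h2 : ∀ k : Fin (m + 1), (Fin.cons 0 (fun j : Fin m => ((j : ℕ) + 1 : ℝ) • v) :
      Fin (m + 1) → En q) k = ((k : ℕ) : ℝ) • v := by
    intro k
    refine Fin.cases ?_ (fun j => ?_) k
    · simp
    · simp
  rw [hS, LinearMap.mem_ker, LinearMap.sub_apply, hml_c_apply, hml_c_apply, h2, h2,
    ← sub_smul, smul_eq_zero] at h1
  rcases h1 with h1 | h1
  · have h3 : ((i : ℕ) : ℝ) = ((i + 1 : Fin (m + 1)) : ℕ) := by linarith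
    have h4 : (i : ℕ) = ((i + 1 : Fin (m + 1)) : ℕ) := by exact_mod_cast h3
    have h5 : i = i + 1 := Fin.ext h4
    have h6 : (1 : Fin (m + 1)) = 0 := by
      simpa using h5
    rw [Fin.one_eq_zero_iff] at h6
    omega
  · exact hv h1

lemma hml_int (q m : ℕ) (hq : 1 ≤ q) (hm : 1 ≤ m) : Integrable (km q m) := by
  have h0 : ∀ y, 0 ≤ km q m y := (f_km q m hq hm).1
  have hmeas : Measurable (km q m) :=
    (KM_DJ_measurable f_hh q m one_pos).comp (KM_cons_measurable q m)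
  refine Integrable.mono' (f_km q m hq hm).2.2.1 hmeas.aestronglyMeasurable ?_
  refine Filter.Eventually.of_forall fun y => ?_
  rw [Real.norm_of_nonneg (h0 y)]
  refine le_mul_of_one_le_left (h0 y) (one_le_pow₀ ?_)
  linarith [norm_nonneg y]

/-- The mass as a time integral. -/
lemma hml_mass (q m : ℕ) (hq : 1 ≤ q) (hm : 1 ≤ m) :
    ENNReal.ofReal (∫ y, km q m y) = ∫⁻ t : Fin (m + 1) → ℝ in {t | ∀ i, 0 < t i},
      ENNReal.ofReal (t (Fin.last m) * Real.exp (-(∑ i, t i)) *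
        (1 - Real.exp (-(∑ i, t i))) ^ (q - 1)) *
        ENNReal.ofReal ((4 * Real.pi * ∑ i, t i) ^ (-((q : ℝ) + 3 / 2))) := by
  obtain ⟨-, -, hmeas, -, -, -⟩ := f_pt q
  have hpt : ∀ s : ℝ, 0 < s → ∀ x : En q, 0 ≤ pt q s x := by
    intro s hs x; unfold pt; positivity
  have h0 : ∀ y, 0 ≤ km q m y := (f_km q m hq hm).1
  rw [ofReal_integral_eq_lintegral_ofReal (hml_int q m hq hm) (Eventually.of_forall h0)]
  set S : Set (Fin (m + 1) → ℝ) := {t | ∀ i, 0 < t i} with hS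
  have hSm : MeasurableSet S := by
    rw [hS, kmr_set]
    exact MeasurableSet.univ_pi fun _ => measurableSet_Ioi
  let A : (Fin (m + 1) → ℝ) → ℝ := fun t => t (Fin.last m) * Real.exp (-(∑ i, t i)) *
    (1 - Real.exp (-(∑ i, t i))) ^ (q - 1)
  have hA0 : ∀ t ∈ S, 0 ≤ A t := by
    intro t ht
    have hT : 0 ≤ ∑ i, t i := Finset.sum_nonneg fun i _ => (ht i).le
    have : Real.exp (-(∑ i, t i)) ≤ 1 := Real.exp_le_one_iff.2 (by linarith)
    exact mul_nonneg (mul_nonneg (ht _).le (Real.exp_pos _).le) (pow_nonneg (by linarith) _)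
  have hAm : Measurable A := by fun_prop
  have hDm : ∀ i, Measurable (fun y : Fin m → En q => KM_D q m y i) := by
    intro i
    exact ((measurable_pi_apply i).comp (KM_cons_measurable q m)).sub
      ((measurable_pi_apply (i + 1)).comp (KM_cons_measurable q m))
  have hjoint : Measurable (fun z : (Fin m → En q) × (Fin (m + 1) → ℝ) =>
      ∏ i, pt q (z.2 i) (KM_D q m z.1 i)) := by
    refine Finset.measurable_prod _ fun i _ => ?_
    have hf : Measurable (fun z : (Fin m → En q) × (Fin (m + 1) → ℝ) =>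
        (z.2 i, KM_D q m z.1 i)) :=
      ((measurable_pi_apply i).comp measurable_snd).prodMk ((hDm i).comp measurable_fst)
    exact hmeas.comp hf
  calc ∫⁻ y : Fin m → En q, ENNReal.ofReal (km q m y)
      = ∫⁻ y : Fin m → En q, ∫⁻ t in S, ENNReal.ofReal (A t) *
        ENNReal.ofReal (∏ i, pt q (t i) (KM_D q m y i)) := by
        refine lintegral_congr_ae ?_
        filter_upwards [hml_null q m hm] with y hy
        unfold km
        rw [hml_DJ q m 1 one_pos _ hy]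
        refine setLIntegral_congr_fun hSm fun t ht => ?_
        rw [← ENNReal.ofReal_mul (hA0 t ht)]
        simp only [A, KM_D, one_mul]
    _ = ∫⁻ t in S, ∫⁻ y : Fin m → En q, ENNReal.ofReal (A t) *
        ENNReal.ofReal (∏ i, pt q (t i) (KM_D q m y i)) := by
        apply lintegral_lintegral_swap
        apply Measurable.aemeasurable
        show Measurable (fun z : (Fin m → En q) × (Fin (m + 1) → ℝ) => ENNReal.ofReal (A z.2) *
          ENNReal.ofReal (∏ i, pt q (z.2 i) (KM_D q m z.1 i)))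
        have hA' : Measurable (fun z : (Fin m → En q) × (Fin (m + 1) → ℝ) =>
            ENNReal.ofReal (A z.2)) := (hAm.comp measurable_snd).ennreal_ofReal
        exact hA'.mul hjoint.ennreal_ofReal
    _ = _ := by
        refine setLIntegral_congr_fun hSm fun t ht => ?_
        rw [lintegral_const_mul' _ _ ENNReal.ofReal_ne_top]
        congr 1
        rw [← gaussChain f_pt q m hm t ht]
        refine lintegral_congr fun y => ?_
        rw [ENNReal.ofReal_prod_of_nonneg (fun i _ => hpt _ (ht i) _)]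
        rfl

lemma hml_exp (a b : ℝ) (hab : a ≤ b) :
    ∫ t in Ioc a b, Real.exp (-t) = Real.exp (-a) - Real.exp (-b) := by
  rw [← intervalIntegral.integral_of_le hab, intervalIntegral.integral_comp_neg (fun x => Real.exp x),
    integral_exp]

/-- The box of times. -/
noncomputable def hml_box (m : ℕ) (i : Fin (m + 1)) : Set ℝ :=
  if i = Fin.last m then Ioc 1 2 else Ioc 0 ((m : ℝ) + 1)

lemma hml_box_prod (m : ℕ) :
    ∫ t : Fin (m + 1) → ℝ in Set.univ.pi (hml_box m), Real.exp (-(∑ i, t i)) =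
      (1 - Real.exp (-((m : ℝ) + 1))) ^ m * (Real.exp (-1) - Real.exp (-2)) := by
  rw [volume_pi, Measure.restrict_pi_pi]
  have h1 : ∀ t : Fin (m + 1) → ℝ, Real.exp (-(∑ i, t i)) = ∏ i, Real.exp (-(t i)) := by
    intro t
    rw [← Real.exp_sum, Finset.sum_neg_distrib]
  simp_rw [h1]
  rw [integral_fintype_prod_eq_prod (fun (_ : Fin (m + 1)) (s : ℝ) => Real.exp (-s)),
    Fin.prod_univ_castSucc]
  congr 1
  · rw [Finset.prod_congr rfl (g := fun _ => 1 - Real.exp (-((m : ℝ) + 1)))]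
    · simp
    · intro i _
      have h2 : i.castSucc ≠ Fin.last m := (Fin.castSucc_lt_last i).ne
      rw [hml_box, if_neg h2, hml_exp _ _ (by positivity)]
      simp
  · rw [hml_box, if_pos rfl, hml_exp _ _ (by norm_num)]

theorem kmMassLow : KmMassLow := by
  intro q hq
  set a : ℝ := (q : ℝ) + 3 / 2 with ha
  set c1 : ℝ := (1 - Real.exp (-1)) ^ (q - 1) * (4 * Real.pi) ^ (-a) * (2 ^ (q + 2))⁻¹ with hc1
  set c2 : ℝ := Real.exp (-1) - Real.exp (-2) with hc2
  have he1 : Real.exp (-1) < 1 := by rw [Real.exp_lt_one_iff]; norm_num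
  have hc1p : 0 < c1 := by
    have : 0 < 1 - Real.exp (-1) := by linarith
    positivity
  have hc2p : 0 < c2 := by
    have : Real.exp (-2) < Real.exp (-1) := Real.exp_lt_exp.2 (by norm_num)
    linarith
  refine ⟨c1 * (1 / 2 * c2), 2 * (q + 2), by positivity, ?_⟩
  intro m hm
  have hm1 : (1 : ℝ) ≤ m := by exact_mod_cast hm
  set B : Set (Fin (m + 1) → ℝ) := Set.univ.pi (hml_box m) with hB
  have hBm : MeasurableSet B := by
    refine MeasurableSet.univ_pi fun i => ?_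
    unfold hml_box
    split_ifs
    · exact measurableSet_Ioc
    · exact measurableSet_Ioc
  have hBpos : ∀ t ∈ B, ∀ i, 0 < t i ∧ t i ≤ (m : ℝ) + 1 := by
    intro t ht i
    have := ht i (Set.mem_univ i)
    unfold hml_box at this
    split_ifs at this
    · exact ⟨by linarith [this.1], by linarith [this.2]⟩
    · exact ⟨this.1, this.2⟩
  have hBlast : ∀ t ∈ B, 1 ≤ t (Fin.last m) := by
    intro t ht
    have := ht (Fin.last m) (Set.mem_univ _)
    unfold hml_box at this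
    rw [if_pos rfl] at this
    exact this.1.le
  set D : ℝ := c1 / ((m : ℝ) + 1) ^ (2 * (q + 2)) with hD
  have hD0 : 0 ≤ D := by positivity
  -- lower bound of the integrand
  have hlow : ∀ t ∈ B, ENNReal.ofReal (D * Real.exp (-(∑ i, t i))) ≤
      ENNReal.ofReal (t (Fin.last m) * Real.exp (-(∑ i, t i)) *
        (1 - Real.exp (-(∑ i, t i))) ^ (q - 1)) *
        ENNReal.ofReal ((4 * Real.pi * ∑ i, t i) ^ (-((q : ℝ) + 3 / 2))) := by
    intro t ht
    set T := ∑ i, t i with hT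
    have h1 : 1 ≤ T := (hBlast t ht).trans
      (Finset.single_le_sum (fun j _ => (hBpos t ht j).1.le) (Finset.mem_univ _))
    have h2 : T ≤ ((m : ℝ) + 1) ^ 2 := by
      calc T ≤ ∑ _i : Fin (m + 1), ((m : ℝ) + 1) :=
            Finset.sum_le_sum fun i _ => (hBpos t ht i).2
        _ = _ := by
            simp
            ring
    have h3 : Real.exp (-T) ≤ Real.exp (-1) := Real.exp_le_exp.2 (by linarith)
    have h4 : (1 - Real.exp (-1)) ^ (q - 1) ≤ (1 - Real.exp (-T)) ^ (q - 1) :=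
      pow_le_pow_left₀ (by linarith) (by linarith) _
    have h50 : 0 ≤ (1 - Real.exp (-T)) ^ (q - 1) := pow_nonneg (by linarith) _
    rw [← ENNReal.ofReal_mul (mul_nonneg (mul_nonneg (hBpos t ht _).1.le (Real.exp_pos _).le) h50)]
    apply ENNReal.ofReal_le_ofReal
    have h5 : (4 * Real.pi) ^ (-a) * (((m : ℝ) + 1) ^ (2 * (q + 2)))⁻¹ ≤
        (4 * Real.pi * T) ^ (-a) := by
      rw [Real.mul_rpow (x := 4 * Real.pi) (y := T) (by positivity) (by linarith)]
      apply mul_le_mul_of_nonneg_left _ (by positivity)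
      rw [Real.rpow_neg (by linarith)]
      apply inv_anti₀ (by positivity)
      calc T ^ a ≤ T ^ ((q + 2 : ℕ) : ℝ) := Real.rpow_le_rpow_of_exponent_le h1 (by
            rw [ha]; push_cast; linarith)
        _ = T ^ (q + 2) := Real.rpow_natCast _ _
        _ ≤ (((m : ℝ) + 1) ^ 2) ^ (q + 2) := pow_le_pow_left₀ (by linarith) h2 _
        _ = _ := by rw [← pow_mul]
    calc D * Real.exp (-T) = (2 ^ (q + 2))⁻¹ * (1 * Real.exp (-T) * (1 - Real.exp (-1)) ^ (q - 1) *
          ((4 * Real.pi) ^ (-a) * (((m : ℝ) + 1) ^ (2 * (q + 2)))⁻¹)) := by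
            rw [hD, hc1]; ring
      _ ≤ 1 * (1 * Real.exp (-T) * (1 - Real.exp (-1)) ^ (q - 1) *
          ((4 * Real.pi) ^ (-a) * (((m : ℝ) + 1) ^ (2 * (q + 2)))⁻¹)) := by
            apply mul_le_mul_of_nonneg_right
            · apply inv_le_one_of_one_le₀
              exact one_le_pow₀ (by norm_num)
            · have : 0 ≤ 1 - Real.exp (-1) := by linarith
              positivity
      _ ≤ t (Fin.last m) * Real.exp (-T) * (1 - Real.exp (-T)) ^ (q - 1) *
          (4 * Real.pi * T) ^ (-a) := by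
            rw [one_mul]
            have h6 : 0 ≤ 1 - Real.exp (-1) := by linarith
            have h7 : 1 * Real.exp (-T) ≤ t (Fin.last m) * Real.exp (-T) :=
              mul_le_mul_of_nonneg_right (hBlast t ht) (Real.exp_pos _).le
            have h8 : 1 * Real.exp (-T) * (1 - Real.exp (-1)) ^ (q - 1) ≤
                t (Fin.last m) * Real.exp (-T) * (1 - Real.exp (-T)) ^ (q - 1) :=
              mul_le_mul h7 h4 (pow_nonneg h6 _)
                (mul_nonneg (hBpos t ht _).1.le (Real.exp_pos _).le)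
            exact mul_le_mul h8 h5 (by positivity)
              (mul_nonneg (mul_nonneg (hBpos t ht _).1.le (Real.exp_pos _).le) h50)
  have hintB : IntegrableOn (fun t : Fin (m + 1) → ℝ => D * Real.exp (-(∑ i, t i))) B := by
    have hc : Continuous (fun t : Fin (m + 1) → ℝ => D * Real.exp (-(∑ i, t i))) := by fun_prop
    refine IntegrableOn.mono_set (hc.integrableOn_Icc (a := fun _ => 0)
      (b := fun _ => (m : ℝ) + 1)) ?_
    intro t ht
    exact ⟨fun i => (hBpos t ht i).1.le, fun i => (hBpos t ht i).2⟩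
  have hkey : ENNReal.ofReal (D * ((1 - Real.exp (-((m : ℝ) + 1))) ^ m * c2)) ≤
      ENNReal.ofReal (∫ y, km q m y) := by
    rw [hml_mass q m hq hm, hc2, ← hml_box_prod, ← integral_const_mul,
      ofReal_integral_eq_lintegral_ofReal hintB (Eventually.of_forall fun t => by positivity)]
    refine (setLIntegral_mono' hBm hlow).trans ?_
    exact lintegral_mono_set fun t ht i => (hBpos t ht i).1
  have hmass0 : 0 ≤ ∫ y, km q m y := integral_nonneg (f_km q m hq hm).1
  rw [ENNReal.ofReal_le_ofReal_iff hmass0] at hkey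
  have hber : 1 / 2 ≤ (1 - Real.exp (-((m : ℝ) + 1))) ^ m := by
    have h1 : 2 * (m : ℝ) ≤ Real.exp ((m : ℝ) + 1) := by
      have h2 : (m : ℝ) + 1 ≤ Real.exp (m : ℝ) := Real.add_one_le_exp _
      have h3 : (2 : ℝ) ≤ Real.exp 1 := by
        have := Real.add_one_le_exp (1 : ℝ)
        linarith
      rw [Real.exp_add]
      have := Real.exp_pos (m : ℝ)
      nlinarith
    have h4 : (m : ℝ) * Real.exp (-((m : ℝ) + 1)) ≤ 1 / 2 := by
      rw [Real.exp_neg]
      have := Real.exp_pos ((m : ℝ) + 1)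
      rw [← div_eq_mul_inv, div_le_iff₀ this]
      linarith
    have h5 : -2 ≤ -Real.exp (-((m : ℝ) + 1)) := by
      have : Real.exp (-((m : ℝ) + 1)) ≤ 1 := by rw [Real.exp_le_one_iff]; linarith
      linarith
    have h6 := one_add_mul_le_pow h5 m
    have h7 : 1 + -Real.exp (-((m : ℝ) + 1)) = 1 - Real.exp (-((m : ℝ) + 1)) := by ring
    rw [h7] at h6
    linarith
  calc c1 * (1 / 2 * c2) / ((m : ℝ) + 1) ^ (2 * (q + 2)) = D * (1 / 2 * c2) := by
        rw [hD]; ring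
    _ ≤ D * ((1 - Real.exp (-((m : ℝ) + 1))) ^ m * c2) := by
        apply mul_le_mul_of_nonneg_left _ hD0
        exact mul_le_mul_of_nonneg_right hber hc2p.le
    _ ≤ _ := hkey

end Pool.Agent.Work.MP_f2af60_mp

end

section

/-!
# H22: the law for the roughness
-/

namespace Pool.Agent.Work.MP_f2af60_mp

open MeasureTheory Metric Filter Topology Set

theorem lawAn : LawAn := by
  intro q hq Kf C c hc hm h0 hub hlb
  obtain ⟨k, rfl⟩ : ∃ k, q = k + 1 := ⟨q - 1, by omega⟩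
  have hK : LaK k Kf C c := by
    refine ⟨hc, hm, h0, fun s hs => ?_, fun s hs => ?_, fun s hs => ?_⟩
    · have := (hub s hs).1
      rwa [show 2 * (k + 1) = 2 * k + 2 by ring] at this
    · have := (hub s hs).2
      rwa [show k + 1 - 1 = k by omega] at this
    · have := hlb s hs
      rwa [show 2 * (k + 1) = 2 * k + 2 by ring] at this
  refine ⟨(laJ k Kf 0)⁻¹, inv_pos.mpr hK.J_pos, ?_⟩
  intro W hWc hW0 hWi hWi2 A C' e0 he0 hR
  have hw : LaW (volume : Measure (En (k + 1))) k (fun ξ => ‖ξ‖) W := by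
    refine ⟨measurable_norm, fun x => norm_nonneg x, hWc.measurable, hW0, ?_⟩
    rwa [show k + 1 - 1 = k by omega] at hWi2
  have hσ0 : 0 < Real.sqrt e0 := Real.sqrt_pos.mpr he0
  have hR' : ∀ σ ∈ Ioc 0 (Real.sqrt e0),
      |laR (volume : Measure (En (k + 1))) Kf (fun ξ => ‖ξ‖) W σ - A * σ ^ (2 * k + 1)| ≤
        C' * σ ^ (2 * k + 2) := by
    intro σ hσ
    have hσ' : σ ^ 2 ∈ Ioc 0 e0 := by
      refine ⟨by have := hσ.1; positivity, ?_⟩
      calc σ ^ 2 ≤ Real.sqrt e0 ^ 2 := pow_le_pow_left₀ hσ.1.le hσ.2 2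
        _ = e0 := Real.sq_sqrt he0.le
    have h1 := hR (σ ^ 2) hσ'
    rw [Real.sqrt_sq hσ.1.le] at h1
    have e1 : (σ ^ 2) ^ (((k + 1 : ℕ) : ℝ) - 1 / 2) = σ ^ (2 * k + 1) := by
      rw [← Real.rpow_natCast σ 2, ← Real.rpow_mul hσ.1.le, ← Real.rpow_natCast σ (2 * k + 1)]
      congr 1
      push_cast; ring
    have e2 : (σ ^ 2) ^ (k + 1) = σ ^ (2 * k + 2) := by rw [← pow_mul]; ring_nf
    rw [e1, e2] at h1
    exact h1
  obtain ⟨C'', hC''⟩ := hw.law hK hσ0 hR'
  refine ⟨C'', fun t ht => ?_⟩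
  have h1 := hC'' t ht
  have e1 : closedBall (0 : En (k + 1)) t = {x | ‖x‖ ≤ t} := by
    ext x; simp
  rw [e1, show 2 * (k + 1) - 1 = 2 * k + 1 by omega]
  exact h1

end Pool.Agent.Work.MP_f2af60_mp

end

section

/-!
# MP_f2af60_mp, items H6 and H7: semiclassical limits
-/

namespace Pool.Agent.Work.MP_f2af60_mp

open MeasureTheory Metric Filter Topology
open scoped ContDiff

/-- the correlation is continuous along rays -/
lemma hlim_cont {q m : ℕ} {W : En q → ℝ} (hW : Measurable W) {M R : ℝ} (hM : ∀ x, |W x| ≤ M)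
    (hR : ∀ x, R < ‖x‖ → W x = 0) (y : Fin m → En q) :
    Continuous (fun t : ℝ => MM q W m (fun i => t • y i)) := by
  have hM0 : 0 ≤ M := (abs_nonneg _).trans (hM 0)
  have hWi := q43_int hW hM hR
  have hc := GMoll.hasCompactSupport_V (q := q) hR
  have hfs : ∀ n, ContDiff ℝ ∞ (GMoll.mf W n) := fun n => GMoll.contDiff_mf hWi n
  have hfc : ∀ n, HasCompactSupport (GMoll.mf W n) := fun n =>
    GMoll.hasCompactSupport_mf hc n
  have hfi : ∀ n, Integrable (GMoll.mf W n) := fun n =>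
    (hfs n).continuous.integrable_of_hasCompactSupport (hfc n)
  have hlim := GMoll.tendsto_mf hW hM hR
  have hlim2 : Tendsto (fun n => (1 + M) ^ (m + 1) *
      (((m : ℝ) + 1) * ∫ x, |GMoll.mf W n x - W x|)) atTop (𝓝 0) := by
    have := (hlim.const_mul ((m : ℝ) + 1)).const_mul ((1 + M) ^ (m + 1))
    simpa using this
  have hunif : TendstoUniformly (fun n (t : ℝ) => MM q (GMoll.mf W n) m (fun i => t • y i))
      (fun t : ℝ => MM q W m (fun i => t • y i)) atTop := by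
    rw [Metric.tendstoUniformly_iff]
    intro ε hε
    filter_upwards [hlim2.eventually (gt_mem_nhds hε)] with n hn t
    rw [Real.dist_eq, abs_sub_comm]
    exact lt_of_le_of_lt (q43_MM (hfi n) hWi (hfs n).continuous.measurable hW hM0
      (GMoll.abs_mf_le hM n) hM _) hn
  refine hunif.continuous (Eventually.frequently (Eventually.of_forall fun n => ?_))
  exact (sm_MM_smooth (hfs n) (hfc n) m).continuous.comp
    (continuous_pi fun i => continuous_id.smul continuous_const)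

lemma hlim_MM0 {q m : ℕ} (W : En q → ℝ) (y : Fin m → En q) :
    MM q W m (fun i => (0 : ℝ) • y i) = ∫ x, W x ^ (m + 1) := by
  unfold MM
  congr 1
  ext x
  simp only [zero_smul, add_zero, Finset.prod_const, Finset.card_univ, Fintype.card_fin]
  rw [pow_succ]
  ring

lemma hlim_Phi {q m : ℕ} (hq : 1 ≤ q) (hm : 1 ≤ m) {W : En q → ℝ} (hW : Measurable W) {M R : ℝ}
    (hM : ∀ x, |W x| ≤ M) (hR : ∀ x, R < ‖x‖ → W x = 0) {e : ℕ → ℝ}
    (he : Tendsto e atTop (𝓝 0)) :
    Tendsto (fun k => Phi q W m (e k)) atTop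
      (𝓝 ((∫ y, km q m y) * ∫ x, W x ^ (m + 1))) := by
  have hWi := q43_int hW hM hR
  have hk := q43_km f_km hq hm
  have h0 := (f_km q m hq hm).1
  have hcs : ∀ k, Measurable (fun y : Fin m → En q => fun i => Real.sqrt (e k) • y i) := fun k =>
    measurable_pi_lambda _ fun i =>
      Measurable.const_smul (measurable_pi_apply i) (Real.sqrt (e k))
  unfold Phi
  rw [← integral_mul_const]
  refine tendsto_integral_of_dominated_convergence
    (fun y => km q m y * (M ^ m * ∫ x, |W x|)) ?_ (hk.mul_const _) ?_ ?_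
  · intro k
    exact hk.aestronglyMeasurable.mul
      ((q43_MMmeas hW).comp (hcs k)).aestronglyMeasurable
  · intro k
    refine Eventually.of_forall fun y => ?_
    rw [norm_mul, Real.norm_of_nonneg (h0 y), Real.norm_eq_abs]
    exact mul_le_mul_of_nonneg_left (q43_MMbdd hWi hW hM _) (h0 y)
  · refine Eventually.of_forall fun y => ?_
    apply Tendsto.const_mul
    have hc := hlim_cont (m := m) hW hM hR y
    have h1 : Tendsto (fun k => Real.sqrt (e k)) atTop (𝓝 0) := by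
      have := (Real.continuous_sqrt.tendsto 0).comp he
      rw [Real.sqrt_zero] at this
      exact this
    have h2 := (hc.tendsto 0).comp h1
    rw [hlim_MM0] at h2
    exact h2

lemma hlim_diff {q : ℕ} {W U : En q → ℝ} (hW : Measurable W) (hU : Measurable U) {M R η : ℝ}
    (hMW : ∀ x, |W x| ≤ M) (hMU : ∀ x, |U x| ≤ M) (hRW : ∀ x, R < ‖x‖ → W x = 0)
    (hRU : ∀ x, R < ‖x‖ → U x = 0) (h : ∀ x, |U x - W x| ≤ η) :
    ∫ x, |U x - W x| ≤ η * volume.real (closedBall (0 : En q) R) := by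
  have hi : Integrable (fun x => |U x - W x|) :=
    ((q43_int hU hMU hRU).sub (q43_int hW hMW hRW)).abs
  have hs : ∫ x, |U x - W x| = ∫ x in closedBall (0 : En q) R, |U x - W x| := by
    rw [setIntegral_eq_integral_of_forall_compl_eq_zero]
    intro x hx
    rw [mem_closedBall, dist_zero_right, not_le] at hx
    rw [hRU x hx, hRW x hx]
    simp
  rw [hs]
  calc ∫ x in closedBall (0 : En q) R, |U x - W x|
      ≤ ∫ _x in closedBall (0 : En q) R, η := by
        apply setIntegral_mono hi.integrableOn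
        · exact integrableOn_const (measure_closedBall_lt_top).ne
        · exact h
    _ = η * volume.real (closedBall (0 : En q) R) := by
        rw [setIntegral_const, smul_eq_mul, mul_comm]

/-- H6 -/
theorem phiLimit (_h1 : KmMass) : PhiLimit := by
  intro q m hq hm W U M R e η hW hU hMW hMU hRW hRU hη hη0 _ he0
  have hM0 : 0 ≤ M := (abs_nonneg _).trans (hMW 0)
  have h1 := hlim_Phi hq hm hW hMW hRW he0
  have h2 : Tendsto (fun k => Phi q (U k) m (e k) - Phi q W m (e k)) atTop (𝓝 0) := by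
    rw [tendsto_zero_iff_norm_tendsto_zero]
    have hlim : Tendsto (fun k => (∫ y, km q m y) * ((1 + M) ^ (m + 1) * (((m : ℝ) + 1) *
        (η k * volume.real (closedBall (0 : En q) R))))) atTop (𝓝 0) := by
      have := (((hη0.mul_const (volume.real (closedBall (0 : En q) R))).const_mul
        ((m : ℝ) + 1)).const_mul ((1 + M) ^ (m + 1))).const_mul (∫ y, km q m y)
      simpa using this
    refine squeeze_zero (fun k => norm_nonneg _) (fun k => ?_) hlim
    rw [Real.norm_eq_abs]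
    refine (q43_Phi f_km hq hm (q43_int (hU k) (hMU k) (hRU k)) (q43_int hW hMW hRW) (hU k) hW hM0
      (hMU k) hMW (e k)).trans ?_
    have hkm0 : 0 ≤ ∫ y, km q m y := integral_nonneg (f_km q m hq hm).1
    apply mul_le_mul_of_nonneg_left _ hkm0
    apply mul_le_mul_of_nonneg_left _ (by positivity)
    apply mul_le_mul_of_nonneg_left _ (by positivity)
    exact hlim_diff hW (hU k) hMW (hMU k) hRW (hRU k) (hη k)
  have h3 := h2.add h1
  rw [zero_add] at h3
  refine h3.congr fun k => ?_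
  ring

/-- the algebra of the scaling of one term -/
lemma hlim_term (q k : ℕ) {g s φ : ℝ} (hg : 0 < g) (hs : 0 < s) :
    (-1) ^ (k + 1) * ((g * s) ^ ((q : ℝ) - 1 / 2 - ((k + 1 : ℕ) : ℝ)) * (g ^ (k + 2) * φ)) /
      g ^ ((q : ℝ) + 1 / 2) =
    (-1) ^ (k + 1) * (s ^ ((q : ℝ) - 1 / 2 - ((k + 1 : ℕ) : ℝ)) * φ) := by
  have h1 : (g * s) ^ ((q : ℝ) - 1 / 2 - ((k + 1 : ℕ) : ℝ)) =
      g ^ ((q : ℝ) - 1 / 2 - ((k + 1 : ℕ) : ℝ)) * s ^ ((q : ℝ) - 1 / 2 - ((k + 1 : ℕ) : ℝ)) :=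
    Real.mul_rpow hg.le hs.le
  have h2 : g ^ ((q : ℝ) - 1 / 2 - ((k + 1 : ℕ) : ℝ)) * g ^ (k + 2) = g ^ ((q : ℝ) + 1 / 2) := by
    rw [← Real.rpow_natCast g (k + 2), ← Real.rpow_add hg]
    congr 1
    push_cast
    ring
  have h3 : g ^ ((q : ℝ) + 1 / 2) ≠ 0 := (Real.rpow_pos_of_pos hg _).ne'
  rw [h1, div_eq_iff h3, ← h2]
  ring

/-- H7 -/
theorem seriesLimit (_h1 : KmMass) (h3 : PhiBd) (h6 : PhiLimit) : SeriesLimit := by
  intro q hq W U M R g η hW hU hMW hMU hRW hRU hη hη0 hg hgt s hMs hs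
  have hM0 : 0 ≤ M := (abs_nonneg _).trans (hMW 0)
  obtain ⟨C, hC, hbd⟩ := h3 q hq
  set v : ℝ := volume.real (closedBall (0 : En q) R) with hv
  have hv0 : 0 ≤ v := measureReal_nonneg
  have hrw : ∀ k, TT q (fun x => g k * U k x) (g k * s) / (g k) ^ ((q : ℝ) + 1 / 2) =
      ∑' j : ℕ, (-1) ^ (j + 1) * (s ^ ((q : ℝ) - 1 / 2 - ((j + 1 : ℕ) : ℝ)) *
        Phi q (U k) (j + 1) (g k * s)⁻¹) := by
    intro k
    unfold TT
    rw [← tsum_div_const]
    congr 1
    ext j
    rw [(hbd (U k) (hU k) M R (hMU k) (hRU k) (j + 1) (by omega)).2 (g k) (g k * s)⁻¹]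
    exact hlim_term q j (hg k) hs
  simp only [hrw]
  unfold PsiS
  refine tendsto_tsum_of_dominated_convergence
    (bound := fun j : ℕ => s ^ ((q : ℝ) + 1 / 2) * (C * v) * (M / s) ^ (j + 2)) ?_ ?_ ?_
  · apply Summable.mul_left
    have hr : |M / s| < 1 := by
      rw [abs_of_nonneg (by positivity), div_lt_one hs]
      exact hMs
    have := (summable_nat_add_iff 2).2 (summable_geometric_of_abs_lt_one hr)
    exact this
  · intro j
    apply Tendsto.const_mul
    apply Tendsto.const_mul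
    refine h6 q (j + 1) hq (by omega) W U M R (fun k => (g k * s)⁻¹) η hW hU hMW hMU hRW hRU hη hη0
      (fun k => inv_pos.2 (mul_pos (hg k) hs)) ?_
    exact (hgt.atTop_mul_const hs).inv_tendsto_atTop
  · refine Eventually.of_forall fun k j => ?_
    have hb := (hbd (U k) (hU k) M R (hMU k) (hRU k) (j + 1) (by omega)).1 (g k * s)⁻¹
    rw [norm_mul, norm_mul, norm_pow, norm_neg, norm_one, one_pow, one_mul, Real.norm_eq_abs,
      Real.norm_eq_abs, abs_of_pos (Real.rpow_pos_of_pos hs _)]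
    have hs1 : s ^ ((q : ℝ) - 1 / 2 - ((j + 1 : ℕ) : ℝ)) =
        s ^ ((q : ℝ) + 1 / 2) / s ^ (j + 2) := by
      rw [← Real.rpow_natCast s (j + 2), ← Real.rpow_sub hs]
      congr 1
      push_cast
      ring
    calc s ^ ((q : ℝ) - 1 / 2 - ((j + 1 : ℕ) : ℝ)) * |Phi q (U k) (j + 1) (g k * s)⁻¹|
        ≤ s ^ ((q : ℝ) - 1 / 2 - ((j + 1 : ℕ) : ℝ)) * (C * M ^ (j + 1 + 1) * v) :=
          mul_le_mul_of_nonneg_left hb (Real.rpow_pos_of_pos hs _).le
      _ = s ^ ((q : ℝ) + 1 / 2) * (C * v) * (M / s) ^ (j + 2) := by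
          rw [hs1, div_pow]
          ring

end Pool.Agent.Work.MP_f2af60_mp

end

section

/-!
# MP_f2af60_mp, second round: the structure theorem, exact version
-/

namespace Pool.Agent.Work.MP_f2af60_mp

open MeasureTheory Metric Filter Topology

section AbsK

variable {K : Type} [MetricSpace K] [CompactSpace K] [MeasurableSpace K] [BorelSpace K]

/-- The hypotheses of `DiscFac` for the concrete families (abstract space). -/
theorem gm_disc2 (h11 : TraceIdQ) (h13 : ChainRep) (h26 : DiscFac) {q : ℕ}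
    (hq : 1 ≤ q) (μ : Measure K) (Cs : ℝ) (hSp : SpQ q μ Cs)
    (V : K → ℝ) (hV : Measurable V) (M : ℝ) (hM : ∀ x, |V x| ≤ M)
    (O : OpsQ q μ V) (h l : ℂ → C(K × K, ℂ)) (hhd : Differentiable ℂ h)
    (hh' : ∀ z, deriv h z = (z / (2 * (Real.pi : ℂ))) • (dlt K ^ 2 * l z))
    (hpar : ∃ B : ℝ, ∀ z : ℂ, ‖z‖ ≤ 1 → ‖h z - h (-z)‖ ≤ B * ‖z‖ ^ (2 * q + 1))
    (C : ℝ) (n : ℕ) (N : ℕ → ℕ) (φ ψ : ∀ r, Fin (N r) → C(K, ℂ)) (c₀ : ∀ r, Fin (N r) → ℂ → ℂ)
    (hN : ∀ r : ℕ, 1 ≤ r → (N r : ℝ) ≤ C * (r : ℝ) ^ n)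
    (hφ : ∀ r : ℕ, 1 ≤ r → ∀ k, ‖φ r k‖ ≤ Real.exp (C * (r : ℝ) ^ n))
    (hψ : ∀ r : ℕ, 1 ≤ r → ∀ k, ‖ψ r k‖ ≤ Real.exp (C * (r : ℝ) ^ n))
    (hcd : ∀ r k, Differentiable ℂ (c₀ r k))
    (hcb : ∀ r : ℕ, 1 ≤ r → ∀ k, ∀ z ∈ ball (0 : ℂ) r, ‖c₀ r k z‖ ≤ Real.exp (C * (r : ℝ) ^ n))
    (hdiag : ∀ r k x, φ r k x * ψ r k x = 0)
    (hcpar : ∀ r k, ∃ B : ℝ, ∀ z : ℂ, ‖z‖ ≤ 1 →
      ‖c₀ r k z - c₀ r k (-z)‖ ≤ B * ‖z‖ ^ (2 * q + 1))
    (hhalf : ∀ r : ℕ, 1 ≤ r → ∀ z ∈ ball (0 : ℂ) r,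
      ‖O.Op (gh1 q h (φ r) (ψ r) (c₀ r) z)‖ ≤ 1 / 2)
    (l0 : ℂ) (hl0 : ‖O.Op (h l0)‖ ≤ 1 / 2)
    (hfin : {z : ℂ | ∃ u : C(K, ℂ), u ≠ 0 ∧ u + O.Op (h z) u = 0}.Finite) :
    ∃ (P : Polynomial ℂ) (c : ℕ → ℕ → ℂ) (C' : ℝ) (r0 m : ℕ), P.Monic ∧ 1 ≤ r0 ∧
      (∀ r : ℕ, r0 ≤ r → ∀ j, ‖c r j‖ ≤ C' * (r : ℝ) ^ m * (8 / (r : ℝ)) ^ j) ∧
      (∀ r : ℕ, r0 ≤ r → ∀ z ∈ ball (0 : ℂ) ((r : ℝ) / 8), 1 ≤ ‖z‖ →
        ∀ κ κ₁ : C(K × K, ℂ),
        (∀ x y, κ (x, y) = KK q μ V (h z) (glk l z) q x y) →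
        (∀ x y, κ₁ (x, y) = KK q μ V (gh1 q h (φ r) (ψ r) (c₀ r) z)
          (gl1 q l (φ r) (ψ r) (c₀ r) z) q x y) →
        ∀ T T₁ : C(K, ℂ) →L[ℂ] C(K, ℂ),
        T * (1 + O.Op (h z)) = 1 → (1 + O.Op (h z)) * T = 1 →
        T₁ * (1 + O.Op (gh1 q h (φ r) (ψ r) (c₀ r) z)) = 1 →
        (1 + O.Op (gh1 q h (φ r) (ψ r) (c₀ r) z)) * T₁ = 1 →
        LL P (c r) z / (2 * z) = ∑ m ∈ Finset.Icc 1 q, (-1) ^ m *
          (∫ x : Fin (m + 1) → K, (∏ i, (V (x i) : ℂ)) *
            (JC q m (h z) (glk l z) x - JC q m (gh1 q h (φ r) (ψ r) (c₀ r) z)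
              (gl1 q l (φ r) (ψ r) (c₀ r) z) x) ∂(Measure.pi fun _ => μ)) +
          (-1) ^ (q + 1) * (O.tr (T * O.Op (h z)) κ -
            O.tr (T₁ * O.Op (gh1 q h (φ r) (ψ r) (c₀ r) z)) κ₁)) ∧
      (∀ z : ℂ, 1 ≤ ‖z‖ → IsUnit (1 + O.Op (h z)) → P.eval z ≠ 0) ∧
      (P = 1 → ∀ r : ℕ, r0 ≤ r → ∀ j, Odd j → j < 2 * q + 1 → c r j = 0) := by
  have hfinm := hSp.fin
  choose Ψ hΨ hΨn using fun r k => gm_exists_functional μ Cs hSp V hV M hM (ψ r k)
  have hA : Differentiable ℂ (fun z => O.Op (h z)) := fun z =>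
    clm_differentiableAt (X := C(K × K, ℂ)) (Y := C(K, ℂ) →L[ℂ] C(K, ℂ)) O.Op h z (hhd z)
  have hu := inv_exists _ hl0
  have hA1 : ∀ r z, O.Op (h z) - FRop (φ r) (fun k => c₀ r k z • Ψ r k) =
      O.Op (gh1 q h (φ r) (ψ r) (c₀ r) z) := fun r z =>
    gm_A1 μ Cs hSp V hV M hM O h (φ r) (ψ r) (c₀ r) (Ψ r) (hΨ r) z
  set Mμ : ℝ := |M| * μ.real Set.univ with hMμ
  have hMμ0 : 0 ≤ Mμ := by positivity
  have hC1 : ∀ r : ℕ, C * (r : ℝ) ^ n ≤ (2 * |C| + Mμ) * (r : ℝ) ^ n := by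
    intro r
    have h1 : C ≤ 2 * |C| + Mμ := by
      have := le_abs_self C
      have := abs_nonneg C
      linarith
    gcongr
  obtain ⟨P, c, C', r0, m, hP, hr0, hc, hLL, hparity⟩ := h26 (C(K, ℂ))
    (fun z => O.Op (h z)) hA l0 (Ring.inverse (1 + O.Op (h l0)))
    (Ring.inverse_mul_cancel _ hu) (Ring.mul_inverse_cancel _ hu) (2 * |C| + Mμ) n
    N φ (fun r k z => c₀ r k z • Ψ r k)
    (fun r hr => by
      have hr1 : (1 : ℝ) ≤ r := by exact_mod_cast hr
      have hrn : (1 : ℝ) ≤ (r : ℝ) ^ n := one_le_pow₀ hr1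
      refine ⟨(hN r hr).trans (hC1 r),
        fun k => (hφ r hr k).trans (Real.exp_le_exp.2 (hC1 r)),
        fun k => (hcd r k).smul_const (Ψ r k), ?_, ?_⟩
      · intro k z hz
        rw [norm_smul]
        have e0 : C * (r : ℝ) ^ n ≤ |C| * (r : ℝ) ^ n := by
          gcongr
          exact le_abs_self C
        have e1 : Mμ ≤ Real.exp (Mμ * (r : ℝ) ^ n) := by
          have h2 : Mμ ≤ Mμ * (r : ℝ) ^ n := by nlinarith
          have h3 := Real.add_one_le_exp (Mμ * (r : ℝ) ^ n)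
          linarith
        have e2 : ‖c₀ r k z‖ ≤ Real.exp (|C| * (r : ℝ) ^ n) :=
          (hcb r hr k z hz).trans (Real.exp_le_exp.2 e0)
        have e3 : ‖ψ r k‖ ≤ Real.exp (|C| * (r : ℝ) ^ n) :=
          (hψ r hr k).trans (Real.exp_le_exp.2 e0)
        calc ‖c₀ r k z‖ * ‖Ψ r k‖
            ≤ ‖c₀ r k z‖ * (‖ψ r k‖ * Mμ) := by
              have := hΨn r k
              rw [mul_assoc] at this
              gcongr
          _ ≤ Real.exp (|C| * (r : ℝ) ^ n) * (Real.exp (|C| * (r : ℝ) ^ n) *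
              Real.exp (Mμ * (r : ℝ) ^ n)) := by gcongr
          _ = Real.exp ((2 * |C| + Mμ) * (r : ℝ) ^ n) := by
              rw [← Real.exp_add, ← Real.exp_add]
              congr 1
              ring
      · intro z hz
        simp only [hA1]
        exact hhalf r hr z hz)
    hfin
  refine ⟨P, c, C', r0, m, hP, hr0, hc, ?_, ?_, ?_⟩
  · intro r hr z hz hz1 κ κ₁ hκ hκ₁ T T₁ hT hT' hT₁ hT₁'
    have hz0 : z ≠ 0 := by
      intro h0
      rw [h0, norm_zero] at hz1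
      linarith
    have h2z : (2 * z) ≠ 0 := mul_ne_zero two_ne_zero hz0
    have hder : HasDerivAt (fun z => O.Op (h z) - FRop (φ r) (fun k => c₀ r k z • Ψ r k))
        (O.Op ((2 * z) • (dlt K ^ 2 * gl1 q l (φ r) (ψ r) (c₀ r) z))) z := by
      simp only [hA1]
      exact clm_hasDerivAt (X := C(K × K, ℂ)) (Y := C(K, ℂ) →L[ℂ] C(K, ℂ)) O.Op _ _ z
        (gh1_hasDerivAt hq h l hhd hh' (φ r) (ψ r) (c₀ r) (hcd r) z hz0)
    have hT₁a : T₁ * (1 + (O.Op (h z) - FRop (φ r) (fun k => c₀ r k z • Ψ r k))) = 1 := by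
      rw [hA1]; exact hT₁
    have hT₁b : (1 + (O.Op (h z) - FRop (φ r) (fun k => c₀ r k z • Ψ r k))) * T₁ = 1 := by
      rw [hA1]; exact hT₁'
    have e1 := (hLL r hr z hz T T₁ _ hT hT' hT₁a hT₁b hder).2
    have e2 := gm_trace μ Cs hSp V hV M hM h11 h13
      hq O h l hhd hh' (φ r) (ψ r) (c₀ r) (hcd r) (hdiag r) (Ψ r) (hΨ r) z hz0
      κ κ₁ hκ hκ₁ T T₁ _ hT hT' hT₁a hT₁b hder
    rw [← e1, div_eq_iff h2z, mul_comm _ (2 * z)]
    exact e2
  · intro z hz1 hunit
    have hz0 : z ≠ 0 := by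
      intro h0
      rw [h0, norm_zero] at hz1
      linarith
    obtain ⟨r1, hr1⟩ := exists_nat_gt (8 * ‖z‖)
    set r : ℕ := max r0 r1 with hrdef
    have hr : r0 ≤ r := le_max_left _ _
    have hrr : (r1 : ℝ) ≤ r := by exact_mod_cast le_max_right r0 r1
    have hzb : z ∈ ball (0 : ℂ) ((r : ℝ) / 8) := by
      rw [mem_ball_zero_iff]
      linarith
    have hzr : z ∈ ball (0 : ℂ) r := by
      rw [mem_ball_zero_iff]
      have := norm_nonneg z
      linarith
    have hder : HasDerivAt (fun z => O.Op (h z) - FRop (φ r) (fun k => c₀ r k z • Ψ r k))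
        (O.Op ((2 * z) • (dlt K ^ 2 * gl1 q l (φ r) (ψ r) (c₀ r) z))) z := by
      simp only [hA1]
      exact clm_hasDerivAt (X := C(K × K, ℂ)) (Y := C(K, ℂ) →L[ℂ] C(K, ℂ)) O.Op _ _ z
        (gh1_hasDerivAt hq h l hhd hh' (φ r) (ψ r) (c₀ r) (hcd r) z hz0)
    have hu1 : IsUnit (1 + (O.Op (h z) - FRop (φ r) (fun k => c₀ r k z • Ψ r k))) := by
      rw [hA1]
      exact inv_exists _ (hhalf r (hr0.trans hr) z hzr)
    exact (hLL r hr z hzb _ _ _ (Ring.inverse_mul_cancel _ hunit)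
      (Ring.mul_inverse_cancel _ hunit) (Ring.inverse_mul_cancel _ hu1)
      (Ring.mul_inverse_cancel _ hu1) hder).1
  · intro hP1 r hr j hj hj'
    refine hparity hP1 (2 * q + 1) ?_ ?_ r hr j hj hj'
    · obtain ⟨B, hB⟩ := hpar
      refine ⟨‖O.Op‖ * B, fun z hz => ?_⟩
      have e1 : O.Op (h z) - O.Op (h (-z)) = O.Op (h z - h (-z)) := (map_sub _ _ _).symm
      rw [e1]
      calc ‖O.Op (h z - h (-z))‖ ≤ ‖O.Op‖ * ‖h z - h (-z)‖ := ContinuousLinearMap.le_opNorm _ _
        _ ≤ ‖O.Op‖ * (B * ‖z‖ ^ (2 * q + 1)) := by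
            have := hB z hz
            gcongr
        _ = _ := by ring
    · intro r' _ k
      obtain ⟨B, hB⟩ := hcpar r' k
      refine ⟨B * ‖Ψ r' k‖, fun z hz => ?_⟩
      have e5 : c₀ r' k z • Ψ r' k - c₀ r' k (-z) • Ψ r' k =
          (c₀ r' k z - c₀ r' k (-z)) • Ψ r' k := by
        ext u
        simp [sub_mul]
      rw [e5, norm_smul]
      calc ‖c₀ r' k z - c₀ r' k (-z)‖ * ‖Ψ r' k‖
          ≤ B * ‖z‖ ^ (2 * q + 1) * ‖Ψ r' k‖ := by
            have := hB z hz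
            gcongr
        _ = _ := by ring

end AbsK

end Pool.Agent.Work.MP_f2af60_mp

end

section

/-! Item H8: the limit function is not rational. -/

open MeasureTheory Metric Filter Topology

namespace Pool.Agent.Work.MP_f2af60_mp

/-- If `b n → 0` then `(1 - θ) ∑ b n θ^n → 0` as `θ → 1-`. -/
theorem nonRat_abel (b : ℕ → ℂ) (hb : Tendsto (fun n => ‖b n‖) atTop (𝓝 0)) :
    Tendsto (fun θ : ℝ => ((1 - θ : ℝ) : ℂ) * ∑' n, b n * (θ : ℂ) ^ n) (𝓝[<] 1) (𝓝 0) := by
  rw [tendsto_zero_iff_norm_tendsto_zero]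
  rw [Metric.tendsto_nhds]
  intro ε hε
  obtain ⟨N, hN⟩ := (Metric.tendsto_atTop.1 hb) (ε / 2) (half_pos hε)
  have hN' : ∀ n ≥ N, ‖b n‖ ≤ ε / 2 := fun n hn => by
    have := hN n hn
    rw [Real.dist_eq, sub_zero, abs_of_nonneg (norm_nonneg _)] at this
    exact this.le
  set K : ℝ := ∑ n ∈ Finset.range N, ‖b n‖ with hK
  have hK0 : 0 ≤ K := Finset.sum_nonneg fun _ _ => norm_nonneg _
  have h1 : ∀ᶠ θ : ℝ in 𝓝[<] 1, (1 - θ) * K < ε / 2 := by
    have : Tendsto (fun θ : ℝ => (1 - θ) * K) (𝓝 1) (𝓝 ((1 - 1) * K)) := by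
      apply Continuous.tendsto
      fun_prop
    rw [sub_self, zero_mul] at this
    exact (this.mono_left nhdsWithin_le_nhds).eventually (gt_mem_nhds (half_pos hε))
  have h2 : ∀ᶠ θ : ℝ in 𝓝[<] 1, 0 < θ :=
    mem_nhdsWithin_of_mem_nhds (lt_mem_nhds one_pos)
  have h3 : ∀ᶠ θ : ℝ in 𝓝[<] 1, θ < 1 := self_mem_nhdsWithin
  filter_upwards [h1, h2, h3] with θ h1 h2 h3
  rw [Real.dist_eq, sub_zero, abs_of_nonneg (norm_nonneg _), norm_mul]
  have h4 : ‖((1 - θ : ℝ) : ℂ)‖ = 1 - θ := by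
    rw [Complex.norm_real, Real.norm_eq_abs, abs_of_pos (by linarith)]
  rw [h4]
  have hnorm : ∀ n, ‖b n * (θ : ℂ) ^ n‖ = ‖b n‖ * θ ^ n := fun n => by
    rw [norm_mul, norm_pow, Complex.norm_real, Real.norm_eq_abs, abs_of_pos h2]
  -- the majorant
  have hgeo : Summable fun n : ℕ => ε / 2 * θ ^ n :=
    (summable_geometric_of_lt_one h2.le h3).mul_left _
  have hfin : Summable fun n : ℕ => if n < N then ‖b n‖ else 0 := by
    refine summable_of_ne_finset_zero (s := Finset.range N) fun n hn => ?_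
    rw [if_neg (by simpa using hn)]
  have hmaj : ∀ n, ‖b n * (θ : ℂ) ^ n‖ ≤ (if n < N then ‖b n‖ else 0) + ε / 2 * θ ^ n := by
    intro n
    rw [hnorm]
    by_cases hn : n < N
    · rw [if_pos hn]
      have : ‖b n‖ * θ ^ n ≤ ‖b n‖ * 1 :=
        mul_le_mul_of_nonneg_left (pow_le_one₀ h2.le h3.le) (norm_nonneg _)
      have h5 : 0 ≤ ε / 2 * θ ^ n := by positivity
      linarith
    · rw [if_neg hn, zero_add]
      exact mul_le_mul_of_nonneg_right (hN' n (not_lt.1 hn)) (by positivity)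
  have h5 : ‖∑' n, b n * (θ : ℂ) ^ n‖ ≤ K + ε / 2 * (1 - θ)⁻¹ := by
    refine (tsum_of_norm_bounded (hfin.add hgeo).hasSum hmaj).trans (le_of_eq ?_)
    rw [hfin.tsum_add hgeo, tsum_mul_left, tsum_geometric_of_lt_one h2.le h3]
    congr 1
    rw [tsum_eq_sum (s := Finset.range N) (fun n hn => by rw [if_neg (by simpa using hn)])]
    exact Finset.sum_congr rfl fun n hn => by rw [if_pos (Finset.mem_range.1 hn)]
  have h6 : (0 : ℝ) < 1 - θ := by linarith
  calc (1 - θ) * ‖∑' n, b n * (θ : ℂ) ^ n‖ ≤ (1 - θ) * (K + ε / 2 * (1 - θ)⁻¹) :=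
        mul_le_mul_of_nonneg_left h5 h6.le
    _ = (1 - θ) * K + ε / 2 := by field_simp
    _ < ε := by linarith

/-- The power series with coefficients `a` as an analytic function on a disc. -/
theorem nonRat_series (a : ℕ → ℂ) (ρ : ℝ) (hρ : 0 < ρ)
    (ha : Tendsto (fun n => ‖a n‖ * ρ ^ n) atTop (𝓝 0)) :
    HasFPowerSeriesOnBall (fun z : ℂ => ∑' n, a n * z ^ n)
      (FormalMultilinearSeries.ofScalars ℂ a) 0 (ENNReal.ofReal ρ) := by
  set p : FormalMultilinearSeries ℂ ℂ ℂ := FormalMultilinearSeries.ofScalars ℂ a with hp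
  obtain ⟨C, hC⟩ := ha.bddAbove_range
  have hr : ENNReal.ofReal ρ ≤ p.radius := by
    refine p.le_radius_of_bound (r := ρ.toNNReal) C fun n => ?_
    rw [hp, FormalMultilinearSeries.ofScalars_norm, Real.coe_toNNReal ρ hρ.le]
    exact hC ⟨n, rfl⟩
  have h0 : 0 < p.radius := lt_of_lt_of_le (ENNReal.ofReal_pos.2 hρ) hr
  have h1 := (p.hasFPowerSeriesOnBall h0).mono (ENNReal.ofReal_pos.2 hρ) hr
  have h2 : p.sum = fun z : ℂ => ∑' n, a n * z ^ n := by
    funext z
    rw [hp]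
    exact FormalMultilinearSeries.ofScalars_sum_eq a z
  rw [h2] at h1
  exact h1


/-- Removing the zeros in the closed disc. -/
theorem nonRat_roots (a : ℕ → ℂ) (ρ : ℝ) (hρ : 0 < ρ)
    (ha : Tendsto (fun n => ‖a n‖ * ρ ^ n) atTop (𝓝 0)) :
    ∀ (N : ℕ) (P1 P2 : Polynomial ℂ), P1.natDegree = N → P1 ≠ 0 →
    (∀ z ∈ ball (0 : ℂ) ρ, P1.eval z * (∑' n, a n * z ^ n) = P2.eval z) →
    ∃ p1 p2 : Polynomial ℂ, (∀ z ∈ closedBall (0 : ℂ) ρ, p1.eval z ≠ 0) ∧
      ∀ z ∈ ball (0 : ℂ) ρ, p1.eval z * (∑' n, a n * z ^ n) = p2.eval z := by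
  have hF := nonRat_series a ρ hρ ha
  have hcont : ContinuousOn (fun z : ℂ => ∑' n, a n * z ^ n) (ball (0 : ℂ) ρ) := by
    have := hF.continuousOn
    rwa [Metric.eball_ofReal] at this
  intro N
  induction N with
  | zero =>
    intro P1 P2 hN h0 h
    refine ⟨P1, P2, fun z _ hz => h0 ?_, h⟩
    rw [Polynomial.eq_C_of_natDegree_eq_zero hN] at hz ⊢
    rw [Polynomial.eval_C] at hz
    rw [hz, Polynomial.C_0]
  | succ N ih =>
    intro P1 P2 hN h0 h
    by_cases hroot : ∀ z ∈ closedBall (0 : ℂ) ρ, P1.eval z ≠ 0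
    · exact ⟨P1, P2, hroot, h⟩
    push Not at hroot
    obtain ⟨z0, hz0, hr⟩ := hroot
    obtain ⟨Q1, hQ1⟩ := Polynomial.dvd_iff_isRoot.2 hr
    have hQ0 : Q1 ≠ 0 := by
      rintro rfl
      rw [mul_zero] at hQ1
      exact h0 hQ1
    have hdeg : Q1.natDegree = N := by
      have := Polynomial.natDegree_mul (Polynomial.X_sub_C_ne_zero z0) hQ0
      rw [← hQ1, hN, Polynomial.natDegree_X_sub_C] at this
      omega
    have hnz0 : ‖z0‖ ≤ ρ := by simpa using hz0
    -- the value of `P2` at `z0`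
    have hP2 : P2.eval z0 = 0 := by
      have hb : Tendsto (fun n => ‖a n * z0 ^ n‖) atTop (𝓝 0) := by
        refine squeeze_zero (fun n => norm_nonneg _) (fun n => ?_) ha
        rw [norm_mul, norm_pow]
        exact mul_le_mul_of_nonneg_left (pow_le_pow_left₀ (norm_nonneg _) hnz0 n) (norm_nonneg _)
      have h1 := nonRat_abel _ hb
      have h2 : Tendsto (fun θ : ℝ => P2.eval ((θ : ℂ) * z0)) (𝓝[<] 1) (𝓝 (P2.eval z0)) := by
        have : Continuous fun θ : ℝ => P2.eval ((θ : ℂ) * z0) := by fun_prop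
        have := this.tendsto 1
        rw [Complex.ofReal_one, one_mul] at this
        exact this.mono_left nhdsWithin_le_nhds
      have h3 : Tendsto (fun θ : ℝ => -(z0 * Q1.eval ((θ : ℂ) * z0)) * (((1 - θ : ℝ) : ℂ) *
          ∑' n, a n * z0 ^ n * (θ : ℂ) ^ n)) (𝓝[<] 1) (𝓝 (-(z0 * Q1.eval z0) * 0)) := by
        refine Tendsto.mul ?_ h1
        have : Continuous fun θ : ℝ => -(z0 * Q1.eval ((θ : ℂ) * z0)) := by fun_prop
        have := this.tendsto 1
        rw [Complex.ofReal_one, one_mul] at this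
        exact this.mono_left nhdsWithin_le_nhds
      rw [mul_zero] at h3
      refine tendsto_nhds_unique h2 (h3.congr' ?_)
      have h4 : ∀ᶠ θ : ℝ in 𝓝[<] 1, 0 < θ :=
        mem_nhdsWithin_of_mem_nhds (lt_mem_nhds one_pos)
      have h5 : ∀ᶠ θ : ℝ in 𝓝[<] 1, θ < 1 := self_mem_nhdsWithin
      filter_upwards [h4, h5] with θ h4 h5
      have h6 : (θ : ℂ) * z0 ∈ ball (0 : ℂ) ρ := by
        rw [mem_ball_zero_iff, norm_mul, Complex.norm_real, Real.norm_eq_abs, abs_of_pos h4]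
        nlinarith [norm_nonneg z0]
      rw [← h _ h6, hQ1]
      have h7 : (∑' n, a n * z0 ^ n * (θ : ℂ) ^ n) = ∑' n, a n * ((θ : ℂ) * z0) ^ n :=
        tsum_congr fun n => by rw [mul_pow]; ring
      rw [h7]
      simp only [Polynomial.eval_mul, Polynomial.eval_sub, Polynomial.eval_X, Polynomial.eval_C]
      push_cast
      ring
    obtain ⟨Q2, hQ2⟩ := Polynomial.dvd_iff_isRoot.2 hP2
    refine ih Q1 Q2 hdeg hQ0 fun z hz => ?_
    have hne : ∀ w ∈ ball (0 : ℂ) ρ, w ≠ z0 →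
        Q1.eval w * (∑' n, a n * w ^ n) = Q2.eval w := by
      intro w hw hwz
      have := h w hw
      rw [hQ1, hQ2] at this
      simp only [Polynomial.eval_mul, Polynomial.eval_sub, Polynomial.eval_X,
        Polynomial.eval_C] at this
      rw [mul_assoc] at this
      exact mul_left_cancel₀ (sub_ne_zero.2 hwz) this
    by_cases hzz : z = z0
    · subst hzz
      have hn : ball (0 : ℂ) ρ ∈ 𝓝 z := isOpen_ball.mem_nhds hz
      have h1 : Tendsto (fun w => Q1.eval w * (∑' n, a n * w ^ n)) (𝓝[≠] z)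
          (𝓝 (Q1.eval z * (∑' n, a n * z ^ n))) :=
        ((Q1.continuous.continuousAt).mul (hcont.continuousAt hn)).tendsto.mono_left
          nhdsWithin_le_nhds
      have h2 : Tendsto (fun w => Q2.eval w) (𝓝[≠] z) (𝓝 (Q2.eval z)) :=
        Q2.continuous.continuousAt.tendsto.mono_left nhdsWithin_le_nhds
      refine tendsto_nhds_unique h1 (h2.congr' ?_)
      filter_upwards [mem_nhdsWithin_of_mem_nhds hn, self_mem_nhdsWithin] with w hw1 hw2
      exact (hne w hw1 hw2).symm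
    · exact hne z hz hzz

/-- A rational function whose power series coefficients satisfy `|a n| ρ^n → 0` has a larger
radius of convergence. -/
theorem nonRat_radius (d : ℕ → ℝ) (ρ : ℝ) (hρ : 0 < ρ)
    (hd : Tendsto (fun n => |d n| * ρ ^ n) atTop (𝓝 0)) (P1 P2 : Polynomial ℝ) (h0 : P1 ≠ 0)
    (h : ∀ᶠ t : ℝ in 𝓝[>] 0, P1.eval t * (∑' n, d n * t ^ n) = P2.eval t) :
    ∃ r C : ℝ, ρ < r ∧ ∀ n, |d n| * r ^ n ≤ C := by
  set a : ℕ → ℂ := fun n => (d n : ℂ) with ha_def
  have hna : ∀ n, ‖a n‖ = |d n| := fun n => by rw [ha_def]; simp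
  have ha : Tendsto (fun n => ‖a n‖ * ρ ^ n) atTop (𝓝 0) := by simpa only [hna] using hd
  have hF := nonRat_series a ρ hρ ha
  have hFa : AnalyticOnNhd ℂ (fun z : ℂ => ∑' n, a n * z ^ n) (ball (0 : ℂ) ρ) := by
    have := hF.analyticOnNhd
    rwa [Metric.eball_ofReal] at this
  set Q1 := P1.map (algebraMap ℝ ℂ) with hQ1
  set Q2 := P2.map (algebraMap ℝ ℂ) with hQ2
  have hQ0 : Q1 ≠ 0 := (Polynomial.map_ne_zero_iff (algebraMap ℝ ℂ).injective).2 h0
  have hev : ∀ (P : Polynomial ℝ) (t : ℝ), (P.map (algebraMap ℝ ℂ)).eval (t : ℂ) =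
      ((P.eval t : ℝ) : ℂ) := by
    intro P t
    rw [Polynomial.eval_map_algebraMap]
    exact Polynomial.aeval_ofReal P t
  have hball : (0 : ℂ) ∈ ball (0 : ℂ) ρ := mem_ball_self hρ
  have hfreq : ∃ᶠ z in 𝓝[≠] (0 : ℂ), Q1.eval z * (∑' n, a n * z ^ n) = Q2.eval z := by
    have hT : Tendsto (fun t : ℝ => (t : ℂ)) (𝓝[>] 0) (𝓝[≠] (0 : ℂ)) := by
      refine tendsto_nhdsWithin_iff.2 ⟨?_, ?_⟩
      · have := Complex.continuous_ofReal.tendsto 0
        rw [Complex.ofReal_zero] at this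
        exact this.mono_left nhdsWithin_le_nhds
      · filter_upwards [self_mem_nhdsWithin] with t ht
        have : t ≠ 0 := ne_of_gt ht
        simpa using this
    refine hT.frequently (p := fun z => Q1.eval z * (∑' n, a n * z ^ n) = Q2.eval z) ?_
    refine Eventually.frequently ?_
    filter_upwards [h] with t ht
    rw [hQ1, hQ2, hev, hev, ← ht]
    push_cast
    rfl
  have hEq : ∀ z ∈ ball (0 : ℂ) ρ, Q1.eval z * (∑' n, a n * z ^ n) = Q2.eval z := by
    have hQa : ∀ Q : Polynomial ℂ, AnalyticOnNhd ℂ (fun z => Q.eval z) (ball (0 : ℂ) ρ) :=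
      fun Q => (Q.differentiable.differentiableOn).analyticOnNhd isOpen_ball
    exact ((hQa Q1).mul hFa).eqOn_of_preconnected_of_frequently_eq (hQa Q2)
      (convex_ball 0 ρ).isPreconnected hball hfreq
  obtain ⟨p1, p2, hp1, hp2⟩ := nonRat_roots a ρ hρ ha _ Q1 Q2 rfl hQ0 hEq
  have hopen : IsOpen {z : ℂ | p1.eval z ≠ 0} :=
    isOpen_ne.preimage p1.continuous
  obtain ⟨δ, hδ, hsub⟩ := (isCompact_closedBall (0 : ℂ) ρ).exists_thickening_subset_open hopen
    (fun z hz => hp1 z hz)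
  rw [thickening_closedBall hδ hρ.le] at hsub
  set R : ℝ := ρ + δ / 2 with hR
  have hRpos : 0 < R := by positivity
  have hRsub : closedBall (0 : ℂ) R ⊆ ball (0 : ℂ) (δ + ρ) :=
    closedBall_subset_ball (by rw [hR]; linarith)
  have hdiff : DifferentiableOn ℂ (fun z => p2.eval z / p1.eval z) (closedBall (0 : ℂ) R) :=
    p2.differentiable.differentiableOn.div p1.differentiable.differentiableOn
      fun z hz => hsub (hRsub hz)
  obtain ⟨R', hR'⟩ : ∃ R' : NNReal, (R' : ℝ) = R := ⟨⟨R, hRpos.le⟩, rfl⟩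
  have hG := DifferentiableOn.hasFPowerSeriesOnBall (R := R') (c := (0 : ℂ))
    (f := fun z => p2.eval z / p1.eval z) (by rw [hR']; exact hdiff)
    (by rw [← NNReal.coe_pos, hR']; exact hRpos)
  rw [hR'] at hG
  have hpeq : FormalMultilinearSeries.ofScalars ℂ a =
      cauchyPowerSeries (fun z => p2.eval z / p1.eval z) 0 R := by
    refine hF.hasFPowerSeriesAt.eq_formalMultilinearSeries_of_eventually
      hG.hasFPowerSeriesAt ?_
    filter_upwards [isOpen_ball.mem_nhds hball] with z hz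
    rw [eq_div_iff (hp1 z (ball_subset_closedBall hz)), mul_comm]
    exact hp2 z hz
  have hrad : (R' : ENNReal) ≤
      (FormalMultilinearSeries.ofScalars ℂ a).radius := by
    rw [hpeq]
    exact hG.r_le
  set r : ℝ := ρ + δ / 4 with hr
  have hrpos : 0 < r := by positivity
  obtain ⟨r', hr'⟩ : ∃ r' : NNReal, (r' : ℝ) = r := ⟨⟨r, hrpos.le⟩, rfl⟩
  have hlt : (r' : ENNReal) < (FormalMultilinearSeries.ofScalars ℂ a).radius := by
    refine lt_of_lt_of_le ?_ hrad
    rw [ENNReal.coe_lt_coe, ← NNReal.coe_lt_coe, hr', hR', hr, hR]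
    linarith
  obtain ⟨C, -, hC⟩ := (FormalMultilinearSeries.ofScalars ℂ a).norm_mul_pow_le_of_lt_radius hlt
  refine ⟨r, C, by rw [hr]; linarith, fun n => ?_⟩
  have := hC n
  rw [FormalMultilinearSeries.ofScalars_norm, hna, hr'] at this
  exact this


/-- The power series of the limit function in `t = 1/y`. -/
noncomputable def nonRatD (c : ℕ → ℝ) (n : ℕ) : ℝ :=
  if Even n ∧ 2 ≤ n then c ((n - 2) / 2) else 0

theorem nonRatD_even (c : ℕ → ℝ) (k : ℕ) : nonRatD c (2 * k + 2) = c k := by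
  unfold nonRatD
  rw [if_pos ⟨⟨k + 1, by ring⟩, by omega⟩]
  congr 1
  omega

theorem nonRatD_tsum (c : ℕ → ℝ) (t : ℝ) :
    ∑' n, nonRatD c n * t ^ n = ∑' k, c k * t ^ (2 * k + 2) := by
  have hinj : Function.Injective fun k : ℕ => 2 * k + 2 := fun a b h => by
    simp only at h; omega
  have := hinj.tsum_eq (f := fun n => nonRatD c n * t ^ n) (fun n hn => by
    rw [Function.mem_support] at hn
    have h1 : Even n ∧ 2 ≤ n := by
      by_contra hc
      apply hn
      unfold nonRatD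
      rw [if_neg hc, zero_mul]
    obtain ⟨⟨m, hm⟩, h2⟩ := h1
    exact ⟨m - 1, by simp only; omega⟩)
  rw [← this]
  exact tsum_congr fun k => by simp only [nonRatD_even]

theorem nonRat_main (c : ℕ → ℝ) (Mx : ℝ) (hMx : 0 < Mx) (s : ℕ)
    (hc : Tendsto (fun k => |c k| * (Mx⁻¹) ^ (k + 1)) atTop (𝓝 0))
    (hlow : ∀ θ < Mx, 0 ≤ θ → ∃ (v : ℝ) (A : ℕ), 0 < v ∧ ∀ j : ℕ,
      v * θ ^ (2 * j + 2) / ((2 * j + 2 : ℕ) : ℝ) ^ A ≤ |c (2 * j)|)
    (A B : Polynomial ℝ) (y0 : ℝ) (hB : B ≠ 0)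
    (h : ∀ y ≥ y0, 0 < y → B.eval y * (y ^ s * ∑' k, c k * (y⁻¹) ^ (2 * k + 2)) = A.eval y) :
    False := by
  set ρ : ℝ := (Real.sqrt Mx)⁻¹ with hρ
  have hρ0 : 0 < ρ := inv_pos.2 (Real.sqrt_pos.2 hMx)
  have hρ2 : ρ ^ 2 = Mx⁻¹ := by rw [hρ, inv_pow, Real.sq_sqrt hMx.le]
  have hd : Tendsto (fun n => |nonRatD c n| * ρ ^ n) atTop (𝓝 0) := by
    rw [Metric.tendsto_atTop]
    intro ε hε
    obtain ⟨N, hN⟩ := (Metric.tendsto_atTop.1 hc) ε hε
    refine ⟨2 * N + 2, fun n hn => ?_⟩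
    rw [Real.dist_eq, sub_zero, abs_of_nonneg (by positivity)]
    by_cases hev : Even n ∧ 2 ≤ n
    · obtain ⟨⟨m, hm⟩, h2⟩ := hev
      obtain ⟨k, rfl⟩ : ∃ k, n = 2 * k + 2 := ⟨m - 1, by omega⟩
      rw [nonRatD_even]
      have e : ρ ^ (2 * k + 2) = (Mx⁻¹) ^ (k + 1) := by
        rw [← hρ2, ← pow_mul]; congr 1
      rw [e]
      have := hN k (by omega)
      rwa [Real.dist_eq, sub_zero, abs_of_nonneg (by positivity)] at this
    · unfold nonRatD
      rw [if_neg hev]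
      simpa using hε
  -- the polynomials
  set P1 : Polynomial ℝ := Polynomial.X ^ A.natDegree * B.reverse with hP1
  have hP1' : P1 ≠ 0 := by
    rw [hP1]
    refine mul_ne_zero (pow_ne_zero _ Polynomial.X_ne_zero) ?_
    rwa [Ne, Polynomial.reverse_eq_zero]
  have hrev : ∀ (P : Polynomial ℝ) (t : ℝ), 0 < t →
      P.eval t⁻¹ = P.reverse.eval t * (t⁻¹) ^ P.natDegree := by
    intro P t ht
    have : Invertible t⁻¹ := invertibleOfNonzero (inv_ne_zero ht.ne')
    have := Polynomial.eval₂_reverse_mul_pow (RingHom.id ℝ) t⁻¹ P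
    rw [invOf_eq_inv, inv_inv] at this
    simpa [Polynomial.eval₂_id] using this.symm
  have hid : ∀ᶠ t : ℝ in 𝓝[>] 0, P1.eval t * (∑' n, nonRatD c n * t ^ n) =
      (Polynomial.X ^ (B.natDegree + s) * A.reverse).eval t := by
    have h1 : ∀ᶠ t : ℝ in 𝓝[>] 0, 0 < t := self_mem_nhdsWithin
    have h2 : ∀ᶠ t : ℝ in 𝓝[>] 0, y0 ≤ t⁻¹ := tendsto_inv_nhdsGT_zero.eventually_ge_atTop y0
    filter_upwards [h1, h2] with t h1 h2
    have h3 := h t⁻¹ h2 (inv_pos.2 h1)
    rw [inv_inv, hrev B t h1, hrev A t h1] at h3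
    rw [nonRatD_tsum, hP1]
    simp only [Polynomial.eval_mul, Polynomial.eval_pow, Polynomial.eval_X]
    set S := ∑' k, c k * t ^ (2 * k + 2)
    have h4 : t ^ (A.natDegree + B.natDegree + s) * (B.reverse.eval t * (t⁻¹) ^ B.natDegree *
        ((t⁻¹) ^ s * S)) = t ^ (A.natDegree + B.natDegree + s) *
        (A.reverse.eval t * (t⁻¹) ^ A.natDegree) := by rw [h3]
    have ht : t ≠ 0 := h1.ne'
    have h5 : ∀ m, t ^ m * (t⁻¹) ^ m = 1 := fun m => by
      rw [← mul_pow, mul_inv_cancel₀ ht, one_pow]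
    calc t ^ A.natDegree * B.reverse.eval t * S
        = t ^ A.natDegree * B.reverse.eval t * S * (t ^ B.natDegree * (t⁻¹) ^ B.natDegree) *
          (t ^ s * (t⁻¹) ^ s) := by rw [h5, h5, mul_one, mul_one]
      _ = t ^ (A.natDegree + B.natDegree + s) * (B.reverse.eval t * (t⁻¹) ^ B.natDegree *
        ((t⁻¹) ^ s * S)) := by ring
      _ = _ := h4
      _ = t ^ (B.natDegree + s) * A.reverse.eval t * (t ^ A.natDegree * (t⁻¹) ^ A.natDegree) := by
        ring
      _ = _ := by rw [h5, mul_one]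
  obtain ⟨r, C, hr, hC⟩ := nonRat_radius (nonRatD c) ρ hρ0 hd P1 _ hP1' hid
  have hr0 : 0 < r := hρ0.trans hr
  have hr2 : 1 < Mx * r ^ 2 := by
    have h1 : ρ ^ 2 < r ^ 2 := by gcongr
    rw [hρ2] at h1
    calc 1 = Mx * Mx⁻¹ := (mul_inv_cancel₀ hMx.ne').symm
      _ < Mx * r ^ 2 := by gcongr
  -- choose `θ`
  obtain ⟨θ, hθ1, hθ2⟩ : ∃ θ, (r ^ 2)⁻¹ < θ ∧ θ < Mx := by
    refine exists_between ?_
    rw [inv_lt_iff_one_lt_mul₀ (by positivity)]
    exact hr2
  have hθ0 : 0 < θ := lt_trans (by positivity) hθ1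
  have hx : 1 < θ * r ^ 2 := by
    rwa [inv_lt_iff_one_lt_mul₀ (by positivity)] at hθ1
  obtain ⟨v, K, hv, hvj⟩ := hlow θ hθ2 hθ0.le
  have h1 : ∀ j : ℕ, v * r⁻¹ ^ 2 ≤ C * (((2 * j + 2 : ℕ) : ℝ) ^ K / (θ * r ^ 2) ^ (2 * j + 2)) := by
    intro j
    have h2 := hC (2 * (2 * j) + 2)
    rw [nonRatD_even] at h2
    have h3 := (mul_le_mul_of_nonneg_right (hvj j)
      (by positivity : (0 : ℝ) ≤ r ^ (2 * (2 * j) + 2))).trans h2
    have h4 : (0 : ℝ) < ((2 * j + 2 : ℕ) : ℝ) ^ K := by positivity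
    rw [div_mul_eq_mul_div, div_le_iff₀ h4] at h3
    rw [← mul_div_assoc, le_div_iff₀ (by positivity)]
    refine le_trans (le_of_eq ?_) h3
    rw [mul_pow, ← pow_mul]
    field_simp
    ring
  have h2 : Tendsto (fun j : ℕ => C * (((2 * j + 2 : ℕ) : ℝ) ^ K /
      (θ * r ^ 2) ^ (2 * j + 2))) atTop (𝓝 (C * 0)) := by
    refine Tendsto.const_mul C ?_
    have h3 := tendsto_pow_const_div_const_pow_of_one_lt K hx
    have h4 : Tendsto (fun j : ℕ => 2 * j + 2) atTop atTop :=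
      tendsto_atTop_mono (fun j => by simp only [id]; omega) tendsto_id
    exact h3.comp h4
  rw [mul_zero] at h2
  have h3 := ge_of_tendsto' h2 h1
  have h4 : 0 < v * r⁻¹ ^ 2 := by positivity
  linarith


/-- Item H8. -/
theorem nonRat (h1 : KmMass) (h2 : KmMassLow) : NonRat := by
  intro q hq W hW M R hM hR A B y0 hB h
  by_contra hne
  have hM0 : 0 ≤ M := (abs_nonneg _).trans (hM 0)
  have hfin : eLpNormEssSup W volume ≤ ENNReal.ofReal M :=
    eLpNormEssSup_le_of_ae_bound (ae_of_all _ fun x => by rw [Real.norm_eq_abs]; exact hM x)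
  have htop : eLpNormEssSup W volume ≠ ⊤ := ne_top_of_le_ne_top ENNReal.ofReal_ne_top hfin
  have hz : eLpNormEssSup W volume ≠ 0 := fun hz => hne (eLpNormEssSup_eq_zero_iff.1 hz)
  set Mx : ℝ := (eLpNormEssSup W volume).toReal with hMx_def
  have hMx : 0 < Mx := ENNReal.toReal_pos hz htop
  have hae : ∀ᵐ x, |W x| ≤ Mx := by
    filter_upwards [ae_le_eLpNormEssSup (f := W) (μ := volume)] with x hx
    have := ENNReal.toReal_mono htop hx
    rwa [toReal_enorm, Real.norm_eq_abs] at this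
  have hpos : ∀ θ < Mx, 0 ≤ θ → volume {x | θ < |W x|} ≠ 0 := by
    intro θ hθ hθ0 hv
    have h3 : ∀ᵐ x, ‖W x‖ ≤ θ := by
      have : {x | ¬ ‖W x‖ ≤ θ} = {x | θ < |W x|} := by
        ext x; simp [Real.norm_eq_abs]
      rw [ae_iff, this]
      exact hv
    have h4 := ENNReal.toReal_mono ENNReal.ofReal_ne_top (eLpNormEssSup_le_of_ae_bound h3)
    rw [ENNReal.toReal_ofReal hθ0] at h4
    exact absurd h4 (not_le.2 hθ)
  have hout : ∀ n : ℕ, n ≠ 0 → ∀ x, x ∉ closedBall (0 : En q) R → W x ^ n = 0 := by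
    intro n hn x hx
    rw [mem_closedBall_zero_iff, not_le] at hx
    rw [hR x hx, zero_pow hn]
  have hvf : volume (closedBall (0 : En q) R) < ⊤ := measure_closedBall_lt_top
  have hint : ∀ n : ℕ, n ≠ 0 → Integrable (fun x => W x ^ n) := by
    intro n hn
    rw [← integrableOn_iff_integrable_of_support_subset (s := closedBall (0 : En q) R)
      (fun x hx => by_contra fun hc => hx (hout n hn x hc))]
    refine Measure.integrableOn_of_bounded (M := M ^ n) hvf.ne
      (hW.pow_const n).aestronglyMeasurable (ae_of_all _ fun x => ?_)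
    rw [norm_pow, Real.norm_eq_abs]
    exact pow_le_pow_left₀ (abs_nonneg _) (hM x) n
  obtain ⟨⟨Ck, hCk⟩, hκ⟩ := h1 q hq
  obtain ⟨c0, K0, hc0, hlow0⟩ := h2 q hq
  have hκpos : ∀ m, 1 ≤ m → 0 < ∫ y, km q m y := fun m hm => (hCk m hm).2.1
  set c : ℕ → ℝ := fun k => (-1) ^ (k + 1) * ((∫ y, km q (k + 1) y) * ∫ x, W x ^ (k + 2))
    with hc_def
  have habs : ∀ k, |c k| = (∫ y, km q (k + 1) y) * |∫ x, W x ^ (k + 2)| := by
    intro k
    rw [hc_def]
    simp only [abs_mul, abs_pow, abs_neg, abs_one, one_pow, one_mul]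
    rw [abs_of_pos (hκpos (k + 1) (by omega))]
  refine nonRat_main c Mx hMx (2 * q - 1) ?_ ?_ A B y0 hB ?_
  · -- decay
    have hle : ∀ k, |c k| * (Mx⁻¹) ^ (k + 1) ≤
        (∫ y, km q (k + 1) y) * (Mx * volume.real (closedBall (0 : En q) R)) := by
      intro k
      have h3 : |∫ x, W x ^ (k + 2)| ≤ Mx ^ (k + 2) * volume.real (closedBall (0 : En q) R) := by
        rw [← setIntegral_eq_integral_of_forall_compl_eq_zero (s := closedBall (0 : En q) R)
          (fun x hx => hout (k + 2) (by omega) x hx), ← Real.norm_eq_abs]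
        refine norm_setIntegral_le_of_norm_le_const_ae hvf ?_
        refine ae_restrict_of_ae ?_
        filter_upwards [hae] with x hx
        rw [norm_pow, Real.norm_eq_abs]
        exact pow_le_pow_left₀ (abs_nonneg _) hx _
      rw [habs]
      have hk := (hκpos (k + 1) (by omega)).le
      calc (∫ y, km q (k + 1) y) * |∫ x, W x ^ (k + 2)| * (Mx⁻¹) ^ (k + 1)
          ≤ (∫ y, km q (k + 1) y) * (Mx ^ (k + 2) * volume.real (closedBall (0 : En q) R)) *
            (Mx⁻¹) ^ (k + 1) := by gcongr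
        _ = (∫ y, km q (k + 1) y) * (Mx * volume.real (closedBall (0 : En q) R)) *
            (Mx ^ (k + 1) * (Mx⁻¹) ^ (k + 1)) := by ring
        _ = _ := by rw [← mul_pow, mul_inv_cancel₀ hMx.ne', one_pow, mul_one]
    refine squeeze_zero (fun k => by positivity) hle ?_
    have := hκ.mul_const (Mx * volume.real (closedBall (0 : En q) R))
    rwa [zero_mul] at this
  · -- lower bound
    intro θ hθ hθ0
    set S : Set (En q) := {x | θ < |W x|} with hS
    have hSm : MeasurableSet S := measurableSet_lt measurable_const hW.abs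
    have hSsub : S ⊆ closedBall (0 : En q) R := by
      intro x hx
      by_contra hc
      rw [mem_closedBall_zero_iff, not_le] at hc
      rw [hS, Set.mem_ofPred_eq, hR x hc, abs_zero] at hx
      exact absurd hx (not_lt.2 hθ0)
    have hSf : volume S ≠ ⊤ := ne_top_of_le_ne_top hvf.ne (measure_mono hSsub)
    have hSp : 0 < volume.real S := ENNReal.toReal_pos (hpos θ hθ hθ0) hSf
    refine ⟨c0 * volume.real S, K0, by positivity, fun j => ?_⟩
    rw [habs]
    have hev : Even (2 * j + 2) := ⟨j + 1, by ring⟩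
    have h3 : θ ^ (2 * j + 2) * volume.real S ≤ ∫ x, W x ^ (2 * j + 2) := by
      refine le_trans ?_ (setIntegral_le_integral (s := S) (hint _ (by omega))
        (ae_of_all _ fun x => hev.pow_nonneg _))
      refine setIntegral_ge_of_const_le_real hSm hSf (fun x hx => ?_)
        (hint _ (by omega)).integrableOn
      rw [← hev.pow_abs (W x)]
      exact pow_le_pow_left₀ hθ0 (le_of_lt hx) _
    have h4 := hlow0 (2 * j + 1) (by omega)
    have h5 : 0 ≤ θ ^ (2 * j + 2) * volume.real S := by positivity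
    rw [abs_of_nonneg (h5.trans h3)]
    have e : ((2 * j + 1 : ℕ) : ℝ) + 1 = ((2 * j + 2 : ℕ) : ℝ) := by push_cast; ring
    rw [e] at h4
    calc c0 * volume.real S * θ ^ (2 * j + 2) / ((2 * j + 2 : ℕ) : ℝ) ^ K0
        = c0 / ((2 * j + 2 : ℕ) : ℝ) ^ K0 * (θ ^ (2 * j + 2) * volume.real S) := by ring
      _ ≤ _ := mul_le_mul h4 h3 h5 (hκpos _ (by omega)).le
  · -- the series
    intro y hy hy0
    rw [← h y hy]
    congr 1
    unfold PsiS
    rw [← tsum_mul_left]
    refine tsum_congr fun k => ?_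
    have e : (y ^ 2) ^ ((q : ℝ) - 1 / 2 - ((k + 1 : ℕ) : ℝ)) =
        y ^ (2 * q - 1) * (y⁻¹) ^ (2 * k + 2) := by
      rw [← Real.rpow_natCast y 2, ← Real.rpow_mul hy0.le]
      have e2 : ((2 : ℕ) : ℝ) * ((q : ℝ) - 1 / 2 - ((k + 1 : ℕ) : ℝ)) =
          ((2 * q - 1 : ℕ) : ℝ) - ((2 * k + 2 : ℕ) : ℝ) := by
        rw [Nat.cast_sub (by omega)]
        push_cast
        ring
      rw [e2, Real.rpow_sub hy0, Real.rpow_natCast, Real.rpow_natCast, inv_pow, div_eq_mul_inv]
    rw [e, hc_def]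
    ring

end Pool.Agent.Work.MP_f2af60_mp

end

section

/-!
# MP_f2af60_mp, second round: norms on and near the imaginary axis
-/

namespace Pool.Agent.Work.MP_f2af60_mp

open MeasureTheory Metric Filter Topology Set

/-- The norm of a kernel operator whose kernel is dominated by the kernel of the resolvent. -/
theorem hn_norm {q : ℕ} {R : ℝ} {V : En q → ℝ} {M : ℝ} (hM : ∀ x, |V x| ≤ M)
    (O : OpsQ q (muQ q R) (fun x : closedBall (0 : En q) R => V x)) {E A : ℝ} (hE0 : 0 < E)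
    (hA : 0 ≤ A) (h : C(closedBall (0 : En q) R × closedBall (0 : En q) R, ℂ))
    (hh : ∀ x y : closedBall (0 : En q) R,
      ‖h (x, y) * ((((dist x y) ^ (2 * q + 1))⁻¹ : ℝ) : ℂ)‖ ≤ A * HH q 0 E ((x : En q) - y)) :
    ‖O.Op h‖ ≤ A * M / E := by
  have hM0 : 0 ≤ M := (abs_nonneg _).trans (hM 0)
  refine ContinuousLinearMap.opNorm_le_bound _ (by positivity) fun f => ?_
  rw [ContinuousMap.norm_le _ (by positivity)]
  intro x
  rw [O.Op_apply]
  have h5 := ((f_hh q 0).1 E hE0)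
  have hnn0 := h5.1
  have hi : Integrable (fun z : En q => (A * M * ‖f‖) * HH q 0 E ((x : En q) - z)) :=
    (h5.2.2.1.comp_sub_left (x : En q)).const_mul _
  obtain ⟨i1, i2⟩ := GImag.int_ball (R := R) hi fun z =>
    mul_nonneg (mul_nonneg (mul_nonneg hA hM0) (norm_nonneg _)) (hnn0 _)
  have key : ∀ᵐ z ∂(muQ q R), ‖h (x, z) * ((((dist x z) ^ (2 * q + 1))⁻¹ : ℝ) : ℂ) *
      (V z : ℂ) * f z‖ ≤ (A * M * ‖f‖) * HH q 0 E ((x : En q) - z) := by
    refine Eventually.of_forall fun z => ?_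
    rw [norm_mul, norm_mul]
    have a1 := hh x z
    have a2 : ‖((V z : ℝ) : ℂ)‖ ≤ M := by
      rw [Complex.norm_real]; exact hM z
    calc ‖h (x, z) * ((((dist x z) ^ (2 * q + 1))⁻¹ : ℝ) : ℂ)‖ * ‖((V z : ℝ) : ℂ)‖ * ‖f z‖
        ≤ (A * HH q 0 E ((x : En q) - z) * M) * ‖f‖ :=
          mul_le_mul (mul_le_mul a1 a2 (norm_nonneg _) (mul_nonneg hA (hnn0 _)))
            (f.norm_coe_le_norm z) (norm_nonneg _) (mul_nonneg (mul_nonneg hA (hnn0 _)) hM0)
      _ = (A * M * ‖f‖) * HH q 0 E ((x : En q) - z) := by ring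
  refine (norm_integral_le_of_norm_le i1 key).trans (i2.trans (le_of_eq ?_))
  rw [integral_const_mul, integral_sub_left_eq_self (HH q 0 E), h5.2.2.2.1]
  simp only [zero_add, pow_one]
  ring

/-- H10: the norm on the imaginary axis. -/
theorem opNormQ : OpNormQ := by
  intro q _ R _ V _ M hM O E hE h hh
  have h1 := hn_norm hM O hE zero_le_one h (fun x y => by
    rw [one_mul]
    exact GImag.ker_h f_sub f_hh hE hh x y)
  rwa [one_mul] at h1

/-- On the positive imaginary axis `eb q` is real and at least a multiple of the exponential. -/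
theorem hn_real (q : ℕ) : ∃ c : ℝ, 0 < c ∧ ∀ s : ℝ, 0 ≤ s → ∃ r : ℝ,
    eb q (Complex.I * (s : ℂ)) = (r : ℂ) ∧ c * Real.exp (-s) ≤ r := by
  have hI : ∀ s : ℝ, Complex.exp (Complex.I * (Complex.I * (s : ℂ))) = ((Real.exp (-s) : ℝ) : ℂ) := by
    intro s
    rw [← mul_assoc, Complex.I_mul_I, neg_one_mul, ← Complex.ofReal_neg, Complex.ofReal_exp]
  have key : ∀ q : ℕ, (∃ c : ℝ, 0 < c ∧ ∀ s : ℝ, 0 ≤ s → ∃ r : ℝ,
      eb q (Complex.I * (s : ℂ)) = (r : ℂ) ∧ c * Real.exp (-s) ≤ r) ∧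
      (∃ c : ℝ, 0 < c ∧ ∀ s : ℝ, 0 ≤ s → ∃ r : ℝ,
      eb (q + 1) (Complex.I * (s : ℂ)) = (r : ℂ) ∧ c * Real.exp (-s) ≤ r) := by
    intro q
    induction q with
    | zero =>
      constructor
      · refine ⟨1 / (4 * Real.pi), by positivity, fun s _ =>
          ⟨Real.exp (-s) / (4 * Real.pi), ?_, le_of_eq (by ring)⟩⟩
        rw [eb, hI]
        push_cast
        rfl
      · refine ⟨1 / (8 * Real.pi ^ 2), by positivity, fun s hs =>
          ⟨Real.exp (-s) * (1 + s) / (8 * Real.pi ^ 2), ?_, ?_⟩⟩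
        · show eb 1 _ = _
          rw [eb, hI, ← mul_assoc, Complex.I_mul_I]
          push_cast
          ring
        · have h1 : Real.exp (-s) * 1 ≤ Real.exp (-s) * (1 + s) :=
            mul_le_mul_of_nonneg_left (by linarith) (Real.exp_pos _).le
          calc 1 / (8 * Real.pi ^ 2) * Real.exp (-s)
              = Real.exp (-s) * 1 / (8 * Real.pi ^ 2) := by ring
            _ ≤ Real.exp (-s) * (1 + s) / (8 * Real.pi ^ 2) := by gcongr
    | succ q ih =>
      refine ⟨ih.2, ?_⟩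
      obtain ⟨⟨c0, hc0, h0⟩, ⟨c1, hc1, h1⟩⟩ := ih
      refine ⟨(2 * (q : ℝ) + 3) * c1 / (2 * Real.pi), by positivity, fun s hs => ?_⟩
      obtain ⟨r0, e0, l0⟩ := h0 s hs
      obtain ⟨r1, e1, l1⟩ := h1 s hs
      refine ⟨((2 * (q : ℝ) + 3) * r1 + s ^ 2 / (2 * Real.pi) * r0) / (2 * Real.pi), ?_, ?_⟩
      · show eb (q + 2) _ = _
        rw [eb, e0, e1, mul_pow, Complex.I_sq]
        push_cast
        ring
      · have hr0 : 0 ≤ r0 := le_trans (by positivity) l0
        have h2 : 0 ≤ s ^ 2 / (2 * Real.pi) * r0 := by positivity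
        have h3 : (2 * (q : ℝ) + 3) * (c1 * Real.exp (-s)) ≤ (2 * (q : ℝ) + 3) * r1 :=
          mul_le_mul_of_nonneg_left l1 (by positivity)
        calc (2 * (q : ℝ) + 3) * c1 / (2 * Real.pi) * Real.exp (-s)
            = ((2 * (q : ℝ) + 3) * (c1 * Real.exp (-s))) / (2 * Real.pi) := by ring
          _ ≤ ((2 * (q : ℝ) + 3) * r1 + s ^ 2 / (2 * Real.pi) * r0) / (2 * Real.pi) := by
            gcongr
            linarith
  exact (key q).1

/-- A polynomial is dominated by an exponential. -/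
theorem hn_poly (q : ℕ) (u : ℝ) (hu : 0 ≤ u) :
    (1 + 3 / 2 * u) ^ q * Real.exp (-(u / 2)) ≤
      (6 ^ q * (q.factorial : ℝ) * Real.exp (1 / 6)) * Real.exp (-(u / 4)) := by
  have h1 := Real.pow_div_factorial_le_exp (1 / 6 + u / 4) (by positivity) q
  have hq : (0 : ℝ) < (q.factorial : ℝ) := by positivity
  rw [div_le_iff₀ hq] at h1
  have h2 : (1 + 3 / 2 * u) ^ q = 6 ^ q * (1 / 6 + u / 4) ^ q := by
    rw [← mul_pow]
    congr 1
    ring
  rw [h2]
  calc 6 ^ q * (1 / 6 + u / 4) ^ q * Real.exp (-(u / 2))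
      ≤ 6 ^ q * (Real.exp (1 / 6 + u / 4) * q.factorial) * Real.exp (-(u / 2)) := by gcongr
    _ = (6 ^ q * (q.factorial : ℝ) * Real.exp (1 / 6)) *
        (Real.exp (u / 4) * Real.exp (-(u / 2))) := by
        rw [Real.exp_add]; ring
    _ = _ := by
        rw [← Real.exp_add]
        congr 2
        ring

/-- H11: the norm near the imaginary axis. -/
theorem nearNorm : NearNorm := by
  intro q _
  obtain ⟨C, hC⟩ := ebFacts.2.2.1 q
  obtain ⟨c, hc, hcr⟩ := hn_real q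
  have hC0 : 0 ≤ C := by
    have h1 := hC 0
    simp only [norm_zero, add_zero, one_pow, mul_one, Complex.zero_im, neg_zero,
      Real.exp_zero] at h1
    exact (norm_nonneg _).trans h1
  set A : ℝ := C * (6 ^ q * (q.factorial : ℝ) * Real.exp (1 / 6)) / c with hA
  have hA0 : 0 ≤ A := by positivity
  refine ⟨max 1 (32 * A), le_max_left _ _, ?_⟩
  intro R _ V _ M hM O E hE hCE z hz h hh
  have hM0 : 0 ≤ M := (abs_nonneg _).trans (hM 0)
  have hsE : 0 < Real.sqrt E := Real.sqrt_pos.2 hE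
  have hE16 : 0 < E / 16 := by positivity
  have hs16 : Real.sqrt (E / 16) = Real.sqrt E / 4 := by
    rw [show E / 16 = E / 4 ^ 2 by norm_num, Real.sqrt_div hE.le, Real.sqrt_sq (by norm_num)]
  have him : Real.sqrt E / 2 ≤ z.im := by
    have h1 := Complex.abs_im_le_norm (z - Complex.I * (Real.sqrt E : ℂ))
    have h2 : (z - Complex.I * (Real.sqrt E : ℂ)).im = z.im - Real.sqrt E := by
      simp
    rw [h2] at h1
    have h3 := (abs_le.1 (h1.trans hz.le)).1
    linarith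
  have hnz : ‖z‖ ≤ 3 / 2 * Real.sqrt E := by
    have h1 : z = (z - Complex.I * (Real.sqrt E : ℂ)) + Complex.I * (Real.sqrt E : ℂ) := by ring
    rw [h1]
    refine (norm_add_le _ _).trans ?_
    have h2 : ‖Complex.I * (Real.sqrt E : ℂ)‖ = Real.sqrt E := by
      rw [norm_mul, Complex.norm_I, one_mul, Complex.norm_real, Real.norm_of_nonneg hsE.le]
    rw [h2]
    linarith
  have hker : ∀ x y : closedBall (0 : En q) R,
      ‖h (x, y) * ((((dist x y) ^ (2 * q + 1))⁻¹ : ℝ) : ℂ)‖ ≤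
        A * HH q 0 (E / 16) ((x : En q) - y) := by
    intro x y
    have hnn := ((f_hh q 0).1 (E / 16) hE16).1
    by_cases hxy : x = y
    · subst hxy
      rw [dist_self, zero_pow (by omega), inv_zero, Complex.ofReal_zero, mul_zero, norm_zero]
      exact mul_nonneg hA0 (hnn _)
    · have hd : 0 < dist x y := dist_pos.2 hxy
      set d := dist x y with hdd
      have h5 := (f_sub q (E / 16) _ hE16 (GImag.sub_ne hxy)).1
      rw [← GImag.dist_norm, ← hdd, hs16] at h5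
      obtain ⟨r, hr1, hr2⟩ := hcr (Real.sqrt E / 4 * d) (by positivity)
      have e1 : Complex.I * ((Real.sqrt E / 4 : ℝ) : ℂ) * (d : ℂ) =
          Complex.I * ((Real.sqrt E / 4 * d : ℝ) : ℂ) := by
        push_cast
        ring
      rw [e1, hr1] at h5
      have h6 : HH q 0 (E / 16) ((x : En q) - y) = r / d ^ (2 * q + 1) := by
        have : ((r / d ^ (2 * q + 1) : ℝ) : ℂ) = (HH q 0 (E / 16) ((x : En q) - y) : ℂ) := by
          rw [← h5]
          push_cast
          rfl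
        exact (Complex.ofReal_injective this).symm
      rw [h6, hh, norm_mul]
      have h7 : ‖((((d ^ (2 * q + 1))⁻¹ : ℝ)) : ℂ)‖ = (d ^ (2 * q + 1))⁻¹ := by
        rw [Complex.norm_real, Real.norm_of_nonneg (by positivity)]
      rw [h7]
      have h8 : ‖eb q (z * (d : ℂ))‖ ≤ A * r := by
        have h9 := hC (z * (d : ℂ))
        have h10 : (z * (d : ℂ)).im = z.im * d := by
          simp
        have h11 : ‖z * (d : ℂ)‖ ≤ 3 / 2 * (Real.sqrt E * d) := by
          rw [norm_mul, Complex.norm_real, Real.norm_of_nonneg hd.le]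
          calc ‖z‖ * d ≤ (3 / 2 * Real.sqrt E) * d := by gcongr
            _ = _ := by ring
        rw [h10] at h9
        have h12 : Real.exp (-(z.im * d)) ≤ Real.exp (-(Real.sqrt E * d / 2)) := by
          apply Real.exp_le_exp.2
          have : Real.sqrt E / 2 * d ≤ z.im * d := by gcongr
          linarith
        have h13 := hn_poly q (Real.sqrt E * d) (by positivity)
        calc ‖eb q (z * (d : ℂ))‖
            ≤ C * (1 + ‖z * (d : ℂ)‖) ^ q * Real.exp (-(z.im * d)) := h9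
          _ ≤ C * (1 + 3 / 2 * (Real.sqrt E * d)) ^ q * Real.exp (-(Real.sqrt E * d / 2)) := by
              gcongr
          _ = C * ((1 + 3 / 2 * (Real.sqrt E * d)) ^ q * Real.exp (-(Real.sqrt E * d / 2))) := by
              ring
          _ ≤ C * ((6 ^ q * (q.factorial : ℝ) * Real.exp (1 / 6)) *
              Real.exp (-(Real.sqrt E * d / 4))) := by gcongr
          _ = A * (c * Real.exp (-(Real.sqrt E / 4 * d))) := by
              rw [hA]
              have : -(Real.sqrt E * d / 4) = -(Real.sqrt E / 4 * d) := by ring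
              rw [this]
              field_simp
          _ ≤ A * r := by gcongr
      calc ‖eb q (z * (d : ℂ))‖ * (d ^ (2 * q + 1))⁻¹ ≤ (A * r) * (d ^ (2 * q + 1))⁻¹ := by
            gcongr
        _ = A * (r / d ^ (2 * q + 1)) := by rw [div_eq_mul_inv]; ring
  have h1 := hn_norm hM O hE16 hA0 h hker
  refine h1.trans ?_
  rw [div_le_iff₀ hE16]
  have h2 : (32 * A) * M ≤ E := (mul_le_mul_of_nonneg_right (le_max_right _ _) hM0).trans hCE
  linarith

end Pool.Agent.Work.MP_f2af60_mp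

end

section

/-!
# MP_f2af60_mp, second round, items H15 and H16: the contribution of the zeros
-/

set_option autoImplicit false

namespace Pool.Agent.Work.MP_f2af60_mp

open MeasureTheory Metric Filter Topology

/-! ### H15 -/

lemma hpf_multiset (S : Multiset ℂ) (z : ℂ) (δ : ℝ) (hδ : 0 < δ)
    (h : ∀ a ∈ S, δ ≤ ‖z - a‖) :
    ((S.map (fun a => Polynomial.X - Polynomial.C a)).prod).eval z ≠ 0 ∧
    ‖((S.map (fun a => Polynomial.X - Polynomial.C a)).prod).derivative.eval z /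
      ((S.map (fun a => Polynomial.X - Polynomial.C a)).prod).eval z‖ ≤
        (Multiset.card S : ℝ) / δ := by
  induction S using Multiset.induction_on with
  | empty => simp
  | cons a S ih =>
    obtain ⟨h1, h2⟩ := ih (fun b hb => h b (Multiset.mem_cons_of_mem hb))
    have ha := h a (Multiset.mem_cons_self a S)
    have hza0 : z - a ≠ 0 := by
      rw [← norm_pos_iff]; linarith
    set Q := (S.map (fun a => Polynomial.X - Polynomial.C a)).prod with hQ
    rw [Multiset.map_cons, Multiset.prod_cons, ← hQ, Multiset.card_cons]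
    have e1 : ((Polynomial.X - Polynomial.C a) * Q).eval z = (z - a) * Q.eval z := by
      simp
    have e2 : ((Polynomial.X - Polynomial.C a) * Q).derivative.eval z =
        Q.eval z + (z - a) * Q.derivative.eval z := by
      simp [Polynomial.derivative_mul]
    rw [e1, e2]
    refine ⟨mul_ne_zero hza0 h1, ?_⟩
    have e3 : (Q.eval z + (z - a) * Q.derivative.eval z) / ((z - a) * Q.eval z) =
        Q.derivative.eval z / Q.eval z + (z - a)⁻¹ := by
      field_simp
      ring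
    rw [e3]
    refine (norm_add_le _ _).trans ?_
    have h3 : ‖(z - a)⁻¹‖ ≤ 1 / δ := by
      rw [norm_inv, ← one_div]
      exact one_div_le_one_div_of_le hδ ha
    push_cast
    rw [add_div]
    exact add_le_add h2 h3

lemma hpf_logDeriv (P : Polynomial ℂ) (hP : P.Monic) (z : ℂ) (δ : ℝ) (hδ : 0 < δ)
    (h : ∀ a : ℂ, P.eval a = 0 → δ ≤ ‖a - z‖) :
    ‖P.derivative.eval z / P.eval z‖ ≤ (P.natDegree : ℝ) / δ := by
  have hs := (IsAlgClosed.splits P).eq_prod_roots_of_monic hP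
  have hd := (IsAlgClosed.splits P).natDegree_eq_card_roots
  have h2 := (hpf_multiset P.roots z δ hδ (fun a ha => by
    rw [← norm_neg, neg_sub]
    exact h a (Polynomial.isRoot_of_mem_roots ha))).2
  rw [← hs, ← hd] at h2
  exact h2

theorem pfFacts : PFFacts := by
  intro q hq P hP
  constructor
  · obtain ⟨C2, Λ2, hC2, hΛ2, h⟩ := gexp_ratio q (kapFacts q hq).2 P hP
    refine ⟨C2, Λ2, hΛ2, fun E hE => ?_⟩
    have h1 := h E hE
    have h2 := Complex.abs_re_le_norm (∑ i ∈ Finset.range q, (-1 : ℂ) ^ i *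
        ((q - 1).choose i : ℂ) *
        ((P.derivative.eval (Complex.I * (Real.sqrt ((1 + (i : ℝ)) * E) : ℂ)) /
          P.eval (Complex.I * (Real.sqrt ((1 + (i : ℝ)) * E) : ℂ))) /
          (2 * (Complex.I * (Real.sqrt ((1 + (i : ℝ)) * E) : ℂ)))) +
        (((P.natDegree : ℝ) / (2 * q) * E⁻¹ : ℝ) : ℂ))
    rw [Complex.add_re, Complex.ofReal_re] at h2
    exact h2.trans h1
  · intro E hE h
    refine (Complex.abs_re_le_norm _).trans ?_
    unfold PF
    refine (norm_sum_le _ _).trans ?_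
    have hterm : ∀ i ∈ Finset.range q, ‖(-1 : ℂ) ^ i * ((q - 1).choose i : ℂ) *
        (P.derivative.eval (lam i E) / P.eval (lam i E) / (2 * lam i E))‖ ≤
        ((q - 1).choose i : ℝ) * ((P.natDegree : ℝ) / E) := by
      intro i hi
      have hi' := Finset.mem_range.1 hi
      have hpos : 0 < Real.sqrt ((1 + (i : ℝ)) * E) := Real.sqrt_pos.2 (by positivity)
      have h1 := hpf_logDeriv P hP (lam i E) (Real.sqrt ((1 + (i : ℝ)) * E) / 2) (by positivity)
        (fun a ha => h i hi' a ha)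
      have h2 : ‖lam i E‖ = Real.sqrt ((1 + (i : ℝ)) * E) := gexp_norm_lam
      rw [norm_mul, norm_mul, norm_pow, norm_neg, norm_one, one_pow, one_mul,
        Complex.norm_natCast]
      refine mul_le_mul_of_nonneg_left ?_ (by positivity)
      rw [norm_div, norm_mul, h2]
      have h3 : ‖(2 : ℂ)‖ = 2 := by norm_num
      rw [h3]
      calc ‖P.derivative.eval (lam i E) / P.eval (lam i E)‖ /
            (2 * Real.sqrt ((1 + (i : ℝ)) * E)) ≤
            ((P.natDegree : ℝ) / (Real.sqrt ((1 + (i : ℝ)) * E) / 2)) /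
            (2 * Real.sqrt ((1 + (i : ℝ)) * E)) := by gcongr
        _ = (P.natDegree : ℝ) / ((Real.sqrt ((1 + (i : ℝ)) * E)) ^ 2) := by field_simp
        _ = (P.natDegree : ℝ) / ((1 + (i : ℝ)) * E) := by rw [Real.sq_sqrt (by positivity)]
        _ ≤ (P.natDegree : ℝ) / E := by
            apply div_le_div_of_nonneg_left (by positivity) hE
            have : (0 : ℝ) ≤ i := Nat.cast_nonneg i
            nlinarith
    refine (Finset.sum_le_sum hterm).trans ?_
    rw [← Finset.sum_mul]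
    have hsum : ∑ i ∈ Finset.range q, ((q - 1).choose i : ℝ) = 2 ^ (q - 1) := by
      have := Nat.sum_range_choose (q - 1)
      rw [Nat.sub_add_cancel hq] at this
      exact_mod_cast this
    rw [hsum, ← mul_div_assoc]
    have h2 : (2 : ℝ) ^ (q - 1) ≤ 2 ^ q := pow_le_pow_right₀ (by norm_num) (Nat.sub_le q 1)
    gcongr

/-! ### H16 -/

/-- Real part of a complex polynomial on the real line. -/
noncomputable def hpf_re (p : Polynomial ℂ) : Polynomial ℝ :=
  ∑ k ∈ Finset.range (p.natDegree + 1), Polynomial.monomial k (p.coeff k).re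

/-- Imaginary part of a complex polynomial on the real line. -/
noncomputable def hpf_im (p : Polynomial ℂ) : Polynomial ℝ :=
  ∑ k ∈ Finset.range (p.natDegree + 1), Polynomial.monomial k (p.coeff k).im

lemma hpf_eval (p : Polynomial ℂ) (x : ℝ) :
    (p.eval (x : ℂ)).re = (hpf_re p).eval x ∧ (p.eval (x : ℂ)).im = (hpf_im p).eval x := by
  rw [Polynomial.eval_eq_sum_range, hpf_re, hpf_im, Polynomial.eval_finsetSum,
    Polynomial.eval_finsetSum, Complex.re_sum, Complex.im_sum]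
  constructor
  · refine Finset.sum_congr rfl fun k _ => ?_
    rw [Polynomial.eval_monomial, ← Complex.ofReal_pow, Complex.re_mul_ofReal]
  · refine Finset.sum_congr rfl fun k _ => ?_
    rw [Polynomial.eval_monomial, ← Complex.ofReal_pow, Complex.im_mul_ofReal]

lemma hpf_deg {p : Polynomial ℂ} {N : ℕ} (h : p.natDegree ≤ N) :
    (hpf_re p).natDegree ≤ N ∧ (hpf_im p).natDegree ≤ N := by
  constructor
  · refine Polynomial.natDegree_sum_le_of_forall_le _ _ fun k hk => ?_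
    have := Finset.mem_range.1 hk
    exact (Polynomial.natDegree_monomial_le _).trans (by omega)
  · refine Polynomial.natDegree_sum_le_of_forall_le _ _ fun k hk => ?_
    have := Finset.mem_range.1 hk
    exact (Polynomial.natDegree_monomial_le _).trans (by omega)

/-- The polynomial `P(i √(1+i) x)`. -/
noncomputable def hpf_c (P : Polynomial ℂ) (i : ℕ) : Polynomial ℂ :=
  P.comp (Polynomial.C (Complex.I * (Real.sqrt (1 + (i : ℝ)) : ℂ)) * Polynomial.X)

lemma hpf_lam (i : ℕ) {x : ℝ} (hx : 0 < x) :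
    lam i (x ^ 2) = Complex.I * (Real.sqrt (1 + (i : ℝ)) : ℂ) * (x : ℂ) := by
  unfold lam
  rw [Real.sqrt_mul (by positivity), Real.sqrt_sq hx.le]
  push_cast
  ring

lemma hpf_c_eval (P : Polynomial ℂ) (i : ℕ) {x : ℝ} (hx : 0 < x) :
    (hpf_c P i).eval (x : ℂ) = P.eval (lam i (x ^ 2)) := by
  rw [hpf_c, Polynomial.eval_comp, hpf_lam i hx]
  simp

lemma hpf_c_deg (P : Polynomial ℂ) (i : ℕ) {N : ℕ} (h : P.natDegree ≤ N) :
    (hpf_c P i).natDegree ≤ N := by
  unfold hpf_c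
  refine Polynomial.natDegree_comp_le.trans ?_
  have : (Polynomial.C (Complex.I * (Real.sqrt (1 + (i : ℝ)) : ℂ)) *
      Polynomial.X).natDegree ≤ 1 :=
    (Polynomial.natDegree_C_mul_le _ _).trans Polynomial.natDegree_X_le
  calc _ ≤ P.natDegree * 1 := Nat.mul_le_mul_left _ this
    _ ≤ N := by rw [mul_one]; exact h

/-- Real part of one term. -/
lemma hpf_term (u v : ℂ) (hu : u ≠ 0) (s x : ℝ) (hs : 0 < s) (hx : 0 < x) :
    (v / u / (2 * (Complex.I * (s : ℂ) * (x : ℂ)))).re * (x ^ 2 * (u.re ^ 2 + u.im ^ 2)) =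
      x * (1 / (2 * s)) * (v.im * u.re - v.re * u.im) := by
  have hN : 0 < u.re ^ 2 + u.im ^ 2 := by
    have := Complex.normSq_pos.2 hu
    rw [Complex.normSq_apply] at this
    nlinarith
  have h1 : v / u / (2 * (Complex.I * (s : ℂ) * (x : ℂ))) =
      (v * (starRingEnd ℂ) u * (-Complex.I)) * (((2 * s * x * (u.re ^ 2 + u.im ^ 2))⁻¹ : ℝ) : ℂ) := by
    have h2 : u * (starRingEnd ℂ) u = ((u.re ^ 2 + u.im ^ 2 : ℝ) : ℂ) := by
      rw [Complex.mul_conj, Complex.normSq_apply]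
      congr 1
      ring
    have h3 : (((u.re ^ 2 + u.im ^ 2 : ℝ)) : ℂ) ≠ 0 := by exact_mod_cast hN.ne'
    have h4 : (s : ℂ) ≠ 0 := by exact_mod_cast hs.ne'
    have h5 : (x : ℂ) ≠ 0 := by exact_mod_cast hx.ne'
    have h6 : ((2 * s * x * (u.re ^ 2 + u.im ^ 2) : ℝ) : ℂ) =
        2 * s * x * (u * (starRingEnd ℂ) u) := by
      rw [h2]; push_cast; ring
    have h7 : (starRingEnd ℂ) u ≠ 0 := by simpa using hu
    have h8 := Complex.I_ne_zero
    rw [Complex.ofReal_inv, h6]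
    have h9 : -Complex.I = Complex.I⁻¹ := by rw [Complex.inv_I]
    rw [h9]
    field_simp
  rw [h1, Complex.re_mul_ofReal]
  have h10 : (v * (starRingEnd ℂ) u * (-Complex.I)).re = v.im * u.re - v.re * u.im := by
    simp [Complex.mul_re, Complex.mul_im]
    ring
  rw [h10]
  field_simp

lemma hpf_pow {q i : ℕ} (hi : i < q) {x : ℝ} (hx : 0 < x) :
    (x ^ 2) ^ ((q : ℝ) - 3 / 2 - i) * x ^ 2 = x ^ (2 * q - 1 - 2 * i) := by
  rw [← Real.rpow_natCast x 2, ← Real.rpow_mul hx.le, ← Real.rpow_add hx, ← Real.rpow_natCast x]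
  congr 1
  have h1 : 2 * i + 1 ≤ 2 * q := by omega
  have : ((2 * q - 1 - 2 * i : ℕ) : ℝ) = 2 * q - 1 - 2 * i := by
    rw [Nat.sub_sub, Nat.cast_sub (by omega)]
    push_cast
    ring
  rw [this]
  push_cast
  ring

theorem pfRational : PFRational := by
  intro q hq N
  refine ⟨2 * q + 2 + 2 * N * q, fun P hP hN α F x0 hx0 hne hF => ?_⟩
  set a : ℕ → Polynomial ℝ := fun i => hpf_re (hpf_c P i) with ha
  set b : ℕ → Polynomial ℝ := fun i => hpf_im (hpf_c P i) with hb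
  set c : ℕ → Polynomial ℝ := fun i => hpf_re (hpf_c P.derivative i) with hc
  set e : ℕ → Polynomial ℝ := fun i => hpf_im (hpf_c P.derivative i) with he
  have hN' : P.derivative.natDegree ≤ N :=
    (Polynomial.natDegree_derivative_le P).trans (by omega)
  have hda : ∀ i, (a i).natDegree ≤ N := fun i => (hpf_deg (hpf_c_deg P i hN)).1
  have hdb : ∀ i, (b i).natDegree ≤ N := fun i => (hpf_deg (hpf_c_deg P i hN)).2
  have hdc : ∀ i, (c i).natDegree ≤ N := fun i => (hpf_deg (hpf_c_deg P.derivative i hN')).1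
  have hde : ∀ i, (e i).natDegree ≤ N := fun i => (hpf_deg (hpf_c_deg P.derivative i hN')).2
  set g : ℕ → Polynomial ℝ := fun i => a i ^ 2 + b i ^ 2 with hg
  have hdg : ∀ i, (g i).natDegree ≤ 2 * N := by
    intro i
    refine (Polynomial.natDegree_add_le _ _).trans (max_le ?_ ?_)
    · exact (Polynomial.natDegree_pow_le).trans (Nat.mul_le_mul_left _ (hda i))
    · exact (Polynomial.natDegree_pow_le).trans (Nat.mul_le_mul_left _ (hdb i))
  have hprod : ∀ s : Finset ℕ, (∏ j ∈ s, g j).natDegree ≤ s.card * (2 * N) := by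
    intro s
    refine (Polynomial.natDegree_prod_le _ _).trans ?_
    calc _ ≤ ∑ _j ∈ s, 2 * N := Finset.sum_le_sum fun j _ => hdg j
      _ = _ := by rw [Finset.sum_const, smul_eq_mul]
  set s : ℕ → ℝ := fun i => Real.sqrt (1 + (i : ℝ)) with hs
  have hspos : ∀ i, 0 < s i := fun i => Real.sqrt_pos.2 (by positivity)
  set A : Polynomial ℝ := ∑ i ∈ Finset.range q,
      Polynomial.C ((-1) ^ i * ((q - 1).choose i : ℝ) * (1 / (2 * s i))) *
        (Polynomial.X * (e i * a i - c i * b i) * ∏ j ∈ (Finset.range q).erase i, g j) +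
      ∑ i ∈ Finset.range q, Polynomial.C (α i) *
        (Polynomial.X ^ (2 * q - 1 - 2 * i) * ∏ j ∈ Finset.range q, g j) with hA
  set B : Polynomial ℝ := Polynomial.X ^ 2 * ∏ j ∈ Finset.range q, g j with hB
  have hgeval : ∀ i, ∀ x ≥ x0, (g i).eval x = (P.eval (lam i (x ^ 2))).re ^ 2 +
      (P.eval (lam i (x ^ 2))).im ^ 2 := by
    intro i x hx
    have hx' : 0 < x := by linarith
    have h1 := hpf_eval (hpf_c P i) x
    rw [hpf_c_eval P i hx'] at h1
    simp only [hg, Polynomial.eval_add, Polynomial.eval_pow]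
    rw [h1.1, h1.2]
  have hgpos : ∀ i < q, ∀ x ≥ x0, 0 < (g i).eval x := by
    intro i hi x hx
    rw [hgeval i x hx]
    have := Complex.normSq_pos.2 (hne i hi x hx)
    rw [Complex.normSq_apply] at this
    nlinarith
  refine ⟨A, B, ?_, ?_, ?_, ?_⟩
  · intro h0
    have h1 : B.eval x0 ≠ 0 := by
      rw [hB, Polynomial.eval_mul, Polynomial.eval_pow, Polynomial.eval_X,
        Polynomial.eval_prod]
      refine mul_ne_zero (by positivity) (Finset.prod_ne_zero_iff.2 fun j hj => ?_)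
      exact (hgpos j (Finset.mem_range.1 hj) x0 le_rfl).ne'
    rw [h0] at h1
    simp at h1
  · have hcard : ∀ i ∈ Finset.range q, ((Finset.range q).erase i).card = q - 1 := by
      intro i hi
      rw [Finset.card_erase_of_mem hi, Finset.card_range]
    refine (Polynomial.natDegree_add_le _ _).trans (max_le ?_ ?_)
    · refine Polynomial.natDegree_sum_le_of_forall_le _ _ fun i hi => ?_
      refine (Polynomial.natDegree_C_mul_le _ _).trans ?_
      refine (Polynomial.natDegree_mul_le).trans ?_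
      have h1 := hprod ((Finset.range q).erase i)
      rw [hcard i hi] at h1
      have h2 : (Polynomial.X * (e i * a i - c i * b i)).natDegree ≤ 1 + 2 * N := by
        refine (Polynomial.natDegree_mul_le).trans ?_
        rw [Polynomial.natDegree_X]
        refine Nat.add_le_add_left ?_ 1
        refine (Polynomial.natDegree_sub_le _ _).trans (max_le ?_ ?_)
        · refine (Polynomial.natDegree_mul_le).trans ?_
          have := hde i; have := hda i; omega
        · refine (Polynomial.natDegree_mul_le).trans ?_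
          have := hdc i; have := hdb i; omega
      have h3 : (q - 1) * (2 * N) + 2 * N = 2 * N * q := by
        obtain ⟨q', rfl⟩ : ∃ q', q = q' + 1 := ⟨q - 1, by omega⟩
        simp; ring
      omega
    · refine Polynomial.natDegree_sum_le_of_forall_le _ _ fun i hi => ?_
      refine (Polynomial.natDegree_C_mul_le _ _).trans ?_
      refine (Polynomial.natDegree_mul_le).trans ?_
      have h1 := hprod (Finset.range q)
      rw [Finset.card_range] at h1
      have h3 : q * (2 * N) = 2 * N * q := by ring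
      rw [Polynomial.natDegree_X_pow]
      omega
  · rw [hB]
    refine (Polynomial.natDegree_mul_le).trans ?_
    have h1 := hprod (Finset.range q)
    rw [Finset.card_range] at h1
    have h3 : q * (2 * N) = 2 * N * q := by ring
    rw [Polynomial.natDegree_X_pow]
    omega
  · intro x hx
    have hx' : 0 < x := by linarith
    rw [hF x hx, hA, hB]
    simp only [Polynomial.eval_add, Polynomial.eval_mul, Polynomial.eval_finsetSum,
      Polynomial.eval_pow, Polynomial.eval_X, Polynomial.eval_prod, Polynomial.eval_C,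
      Polynomial.eval_sub]
    rw [mul_add]
    congr 1
    · unfold PF
      rw [Complex.re_sum, Finset.mul_sum]
      refine Finset.sum_congr rfl fun i hi => ?_
      have hi' := Finset.mem_range.1 hi
      rw [← Finset.mul_prod_erase _ _ hi, hgeval i x hx]
      have h1 := hpf_eval (hpf_c P i) x
      rw [hpf_c_eval P i hx'] at h1
      have h2 := hpf_eval (hpf_c P.derivative i) x
      rw [hpf_c_eval P.derivative i hx'] at h2
      have h3 := hpf_term (P.eval (lam i (x ^ 2))) (P.derivative.eval (lam i (x ^ 2)))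
        (hne i hi' x hx) (s i) x (hspos i) hx'
      simp only [ha, hb, hc, he]
      rw [← h1.1, ← h1.2, ← h2.1, ← h2.2]
      have h4 : ((-1 : ℂ) ^ i * ((q - 1).choose i : ℂ) *
          (P.derivative.eval (lam i (x ^ 2)) / P.eval (lam i (x ^ 2)) /
            (2 * lam i (x ^ 2)))).re = (-1) ^ i * ((q - 1).choose i : ℝ) *
          (P.derivative.eval (lam i (x ^ 2)) / P.eval (lam i (x ^ 2)) /
            (2 * (Complex.I * (s i : ℂ) * (x : ℂ)))).re := by
        have h5 : (-1 : ℂ) ^ i * ((q - 1).choose i : ℂ) =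
            (((-1) ^ i * ((q - 1).choose i : ℝ) : ℝ) : ℂ) := by push_cast; ring
        rw [h5, Complex.re_ofReal_mul]
        congr 4
        exact hpf_lam i hx'
      rw [h4]
      calc _ = (-1) ^ i * ((q - 1).choose i : ℝ) *
            ((P.derivative.eval (lam i (x ^ 2)) / P.eval (lam i (x ^ 2)) /
            (2 * (Complex.I * (s i : ℂ) * (x : ℂ)))).re * (x ^ 2 *
              ((P.eval (lam i (x ^ 2))).re ^ 2 + (P.eval (lam i (x ^ 2))).im ^ 2))) *
              ∏ j ∈ (Finset.range q).erase i, (g j).eval x := by ring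
        _ = _ := by rw [h3]; ring
    · rw [Finset.mul_sum]
      refine Finset.sum_congr rfl fun i hi => ?_
      rw [← hpf_pow (Finset.mem_range.1 hi) hx']
      ring

end Pool.Agent.Work.MP_f2af60_mp

end

section

/-!
# MP_f2af60_mp, H18: the quadratic term with explicit remainder
-/

namespace Pool.Agent.Work.MP_f2af60_mp

open MeasureTheory Metric Filter Topology

open Phi1

theorem phi1Facts2 (h33 : KmFacts) (h35 : PlanchV) (h36 : K1Facts) (h37 : CosEnv) :
    Phi1Facts2 := by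
  intro q hq V hVm M R hVM hVR j hj hHS
  obtain ⟨hk0, -, hkint, hkpos, -⟩ := h33 q 1 hq le_rfl
  have hkp : 0 < ∫ y, km q 1 y := hkpos
  obtain ⟨hW0i, hPl, hFc, hMM⟩ := h35 q V hVm M R hVM hVR
  set W : En q → ℝ := fun ξ => ‖FourierTransform.fourier (fun x => (V x : ℂ)) ξ‖ ^ 2 with hWdef
  have hWc : Continuous W := (hFc.norm).pow 2
  have hW0 : ∀ ξ, 0 ≤ W ξ := fun ξ => by positivity
  have hkm : AEStronglyMeasurable (km q 1) := by
    have h1 : AEStronglyMeasurable (fun y : Fin 1 → En q => ((1 + ‖y‖) ^ (2 * q))⁻¹ *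
        ((1 + ‖y‖) ^ (2 * q) * km q 1 y)) := by
      refine AEStronglyMeasurable.mul ?_ hkint.aestronglyMeasurable
      refine Continuous.aestronglyMeasurable (Continuous.inv₀ (by fun_prop) fun y => ?_)
      have : 0 < 1 + ‖y‖ := by linarith [norm_nonneg y]
      positivity
    refine h1.congr (Eventually.of_forall fun y => ?_)
    have : 0 < 1 + ‖y‖ := by linarith [norm_nonneg y]
    show ((1 + ‖y‖) ^ (2 * q))⁻¹ * ((1 + ‖y‖) ^ (2 * q) * km q 1 y) = km q 1 y
    field_simp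
  -- moments of W
  have hWi0 : Integrable W := by
    refine hW0i.congr (Eventually.of_forall fun ξ => ?_)
    show ‖ξ‖ ^ (0 : ℝ) * W ξ = W ξ
    rw [Real.rpow_zero, one_mul]
  have hrp : ∀ (n : ℕ) (ξ : En q), ‖ξ‖ ^ ((n : ℕ) : ℝ) = ‖ξ‖ ^ n := fun n ξ =>
    Real.rpow_natCast _ _
  have hWij : Integrable (fun ξ : En q => ‖ξ‖ ^ (2 * j) * W ξ) := by
    refine hHS.congr (Eventually.of_forall fun ξ => ?_)
    show ‖ξ‖ ^ (2 * (j : ℝ)) * W ξ = ‖ξ‖ ^ (2 * j) * W ξ
    rw [← hrp (2 * j) ξ]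
    push_cast
    rfl
  have hWi : ∀ i ≤ j, Integrable (fun ξ : En q => ‖ξ‖ ^ (2 * i) * W ξ) := by
    intro i hi
    refine (hWi0.add hWij).mono' ((by fun_prop : Continuous fun ξ : En q =>
      ‖ξ‖ ^ (2 * i)).mul hWc).aestronglyMeasurable (Eventually.of_forall fun ξ => ?_)
    rw [Real.norm_eq_abs, abs_of_nonneg (mul_nonneg (by positivity) (hW0 ξ))]
    show ‖ξ‖ ^ (2 * i) * W ξ ≤ W ξ + ‖ξ‖ ^ (2 * j) * W ξ
    have h1 : ‖ξ‖ ^ (2 * i) ≤ 1 + ‖ξ‖ ^ (2 * j) := by
      rcases le_total ‖ξ‖ 1 with h | h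
      · have h2 := pow_le_one₀ (n := 2 * i) (norm_nonneg ξ) h
        have h3 : 0 ≤ ‖ξ‖ ^ (2 * j) := by positivity
        linarith
      · have h2 := pow_le_pow_right₀ h (show 2 * i ≤ 2 * j by omega)
        linarith
    nlinarith [mul_le_mul_of_nonneg_right h1 (hW0 ξ)]
  have hXe : ∀ (e : ℝ) (n : ℕ) (x : ℝ), 0 < e → (Real.sqrt e * x) ^ (2 * n) = e ^ n * x ^ (2 * n) :=
    fun e n x he => by
      rw [mul_pow, pow_mul, Real.sq_sqrt he.le]
  set μ : Measure ((Fin 1 → En q) × En q) :=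
    (volume : Measure (Fin 1 → En q)).prod (volume : Measure (En q)) with hμ
  have hcX : Continuous (XX : (Fin 1 → En q) × En q → ℝ) := XX_cont
  -- integrability of the terms
  have hFi : ∀ i ≤ j, Integrable (fun z : (Fin 1 → En q) × En q =>
      km q 1 z.1 * W z.2 * XX z ^ (2 * i)) μ := fun i hi =>
    int_main (c := 1) hkint hk0 hkm hWc hW0 (by omega) (hWi i hi) (hcX.pow _) fun z => by
      rw [one_mul, abs_pow]
  have hRi : ∀ e : ℝ, 0 < e → Integrable (fun z : (Fin 1 → En q) × En q =>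
      km q 1 z.1 * W z.2 * rho j (Real.sqrt e * XX z)) μ := fun e he =>
    int_main (c := 2 * e ^ j) hkint hk0 hkm hWc hW0 (show 2 * j ≤ 2 * q by omega) (hWi j le_rfl)
      ((rho_cont j).comp (hcX.const_mul _)) fun z => by
        rw [abs_of_nonneg (rho_nonneg h37 _ _)]
        refine (rho_le2 h37 j _).trans (le_of_eq ?_)
        rw [hXe e j _ he, pow_mul |XX z|, sq_abs, ← pow_mul]
        ring
  have hC : ∀ e : ℝ, Integrable (fun z : (Fin 1 → En q) × En q =>
      km q 1 z.1 * W z.2 * Real.cos (Real.sqrt e * XX z)) μ := fun e =>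
    int_main (c := 1) hkint hk0 hkm hWc hW0 (n := 0) (by omega) (by simpa using hWi0)
      (Real.continuous_cos.comp (hcX.const_mul _)) fun z => by
        simpa using Real.abs_cos_le_one _
  -- the function Phi
  have hPhi : ∀ e : ℝ, Phi q V 1 e = ∫ z, km q 1 z.1 * W z.2 * Real.cos (Real.sqrt e * XX z) ∂μ := by
    intro e
    rw [hμ, integral_prod _ (hC e)]
    unfold Phi
    refine integral_congr_ae (Eventually.of_forall fun y => ?_)
    show km q 1 y * MM q V 1 (fun i => Real.sqrt e • y i) = _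
    rw [hMM, ← integral_const_mul]
    refine integral_congr_ae (Eventually.of_forall fun ξ => ?_)
    show km q 1 y * (W ξ * Real.cos (2 * Real.pi * inner ℝ (Real.sqrt e • y 0) ξ)) =
      km q 1 y * W ξ * Real.cos (Real.sqrt e * (2 * Real.pi * inner ℝ (y 0) ξ))
    rw [real_inner_smul_left, ← mul_assoc (km q 1 y),
      show 2 * Real.pi * (Real.sqrt e * inner ℝ (y 0) ξ) =
        Real.sqrt e * (2 * Real.pi * inner ℝ (y 0) ξ) by ring]
  set a : ℕ → ℝ := fun i => (-1) ^ i / ((2 * i).factorial : ℝ) *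
    ∫ z, km q 1 z.1 * W z.2 * XX z ^ (2 * i) ∂μ with ha
  set Rj : ℝ → ℝ := fun e => ∫ z, km q 1 z.1 * W z.2 * rho j (Real.sqrt e * XX z) ∂μ with hRj
  have hRR : RR q V j = Rj := rfl
  rw [hRR]
  refine ⟨a, ?_, ?_, ?_, ?_, ?_⟩
  · -- the expansion
    intro e he
    rw [hPhi e, hRj, ha]
    have h1 : ∀ z : (Fin 1 → En q) × En q, km q 1 z.1 * W z.2 * Real.cos (Real.sqrt e * XX z) =
        (∑ i ∈ Finset.range (j + 1), ((-1) ^ i / ((2 * i).factorial : ℝ) * e ^ i) *
          (km q 1 z.1 * W z.2 * XX z ^ (2 * i))) +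
        (-1) ^ (j + 1) * (km q 1 z.1 * W z.2 * rho j (Real.sqrt e * XX z)) := by
      intro z
      have h2 : Real.cos (Real.sqrt e * XX z) = (∑ i ∈ Finset.range (j + 1),
          (-1) ^ i * (Real.sqrt e * XX z) ^ (2 * i) / ((2 * i).factorial : ℝ)) +
          (-1) ^ (j + 1) * rho j (Real.sqrt e * XX z) := by
        unfold rho
        have h : ((-1 : ℝ)) ^ (j + 1) * (-1) ^ (j + 1) = 1 := by
          rw [← mul_pow]
          simp
        rw [← mul_assoc, h]
        ring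
      rw [h2, mul_add, Finset.mul_sum]
      congr 1
      · refine Finset.sum_congr rfl fun i _ => ?_
        rw [hXe e i _ he]
        ring
      · ring
    simp_rw [h1]
    rw [integral_add, integral_finsetSum]
    · simp_rw [integral_const_mul]
      congr 1
      refine Finset.sum_congr rfl fun i _ => ?_
      ring
    · intro i hi
      exact (hFi i (by simpa [Nat.lt_succ_iff] using hi)).const_mul _
    · exact integrable_finsetSum _ fun i hi =>
        (hFi i (by simpa [Nat.lt_succ_iff] using hi)).const_mul _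
    · exact (hRi e he).const_mul _
  · intro e he
    exact integral_nonneg fun z => mul_nonneg (mul_nonneg (hk0 _) (hW0 _)) (rho_nonneg h37 _ _)
  · -- the remainder is small
    have h1 : Tendsto (fun e : ℝ => ∫ z, km q 1 z.1 * W z.2 *
        (rho j (Real.sqrt e * XX z) / e ^ j) ∂μ) (𝓝[>] 0) (𝓝 (∫ z, (0 : ℝ) ∂μ)) := by
      refine tendsto_integral_filter_of_dominated_convergence
        (fun z => 2 * (km q 1 z.1 * W z.2 * XX z ^ (2 * j))) ?_ ?_ ((hFi j le_rfl).const_mul 2) ?_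
      · filter_upwards [self_mem_nhdsWithin] with e he
        have := (hRi e he).div_const (e ^ j)
        refine this.aestronglyMeasurable.congr (Eventually.of_forall fun z => ?_)
        show _ / e ^ j = _
        ring
      · filter_upwards [self_mem_nhdsWithin] with e he
        refine Eventually.of_forall fun z => ?_
        have he' : (0 : ℝ) < e := he
        have hkW : 0 ≤ km q 1 z.1 * W z.2 := mul_nonneg (hk0 _) (hW0 _)
        have hr := rho_nonneg h37 j (Real.sqrt e * XX z)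
        rw [Real.norm_eq_abs, abs_of_nonneg (mul_nonneg hkW (by positivity))]
        have h2 : rho j (Real.sqrt e * XX z) / e ^ j ≤ 2 * XX z ^ (2 * j) := by
          rw [div_le_iff₀ (by positivity)]
          refine (rho_le2 h37 j _).trans (le_of_eq ?_)
          rw [hXe e j _ he']
          ring
        calc km q 1 z.1 * W z.2 * (rho j (Real.sqrt e * XX z) / e ^ j)
            ≤ km q 1 z.1 * W z.2 * (2 * XX z ^ (2 * j)) := mul_le_mul_of_nonneg_left h2 hkW
          _ = _ := by ring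
      · refine Eventually.of_forall fun z => ?_
        have hlim : Tendsto (fun e : ℝ => rho j (Real.sqrt e * XX z) / e ^ j) (𝓝[>] 0) (𝓝 0) := by
          have h3 : Tendsto (fun e : ℝ => e * XX z ^ (2 * j + 2)) (𝓝[>] 0) (𝓝 0) := by
            have : Tendsto (fun e : ℝ => e * XX z ^ (2 * j + 2)) (𝓝 0)
                (𝓝 (0 * XX z ^ (2 * j + 2))) := (continuous_id.mul continuous_const).tendsto 0
            rw [zero_mul] at this
            exact this.mono_left nhdsWithin_le_nhds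
          refine tendsto_of_tendsto_of_tendsto_of_le_of_le' tendsto_const_nhds h3 ?_ ?_
          · filter_upwards [self_mem_nhdsWithin] with e he
            have he' : (0 : ℝ) < e := he
            have hr := rho_nonneg h37 j (Real.sqrt e * XX z)
            positivity
          · filter_upwards [self_mem_nhdsWithin] with e he
            have he' : (0 : ℝ) < e := he
            rw [div_le_iff₀ (by positivity)]
            refine (rho_le1 h37 j _).trans (le_of_eq ?_)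
            rw [show 2 * j + 2 = 2 * (j + 1) by ring, hXe e (j + 1) _ he']
            ring
        have := hlim.const_mul (km q 1 z.1 * W z.2)
        rwa [mul_zero] at this
    rw [integral_zero] at h1
    refine h1.congr' ?_
    filter_upwards [self_mem_nhdsWithin] with e he
    show _ = Rj e / e ^ j
    rw [hRj]
    show _ = (∫ z, km q 1 z.1 * W z.2 * rho j (Real.sqrt e * XX z) ∂μ) / e ^ j
    rw [← integral_div]
    refine integral_congr_ae (Eventually.of_forall fun z => ?_)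
    show _ = _ / e ^ j
    ring
  · -- a 0 = 0
    intro h0
    have h1 : a 0 = (∫ y, km q 1 y) * ∫ ξ, W ξ := by
      rw [ha]
      simp only [pow_zero, mul_zero, Nat.factorial_zero, Nat.cast_one, div_one, one_mul, mul_one]
      exact integral_prod_mul (km q 1) W
    rw [h1] at h0
    have h2 : ∫ ξ, W ξ = 0 := by
      rcases mul_eq_zero.mp h0 with h | h
      · exact absurd h hkp.ne'
      · exact h
    rw [hPl] at h2
    have hVi : Integrable (fun x => V x ^ 2) := by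
      have h3 : IntegrableOn (fun x => V x ^ 2) (closedBall 0 R) := by
        refine Measure.integrableOn_of_bounded (M := M ^ 2) ?_ ?_ ?_
        · exact (isCompact_closedBall 0 R).measure_ne_top
        · exact (hVm.pow_const 2).aestronglyMeasurable
        · refine Eventually.of_forall fun x => ?_
          rw [Real.norm_eq_abs, abs_pow]
          exact pow_le_pow_left₀ (abs_nonneg _) (hVM x) 2
      refine (integrableOn_iff_integrable_of_support_subset ?_).mp h3
      intro x hx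
      by_contra hxR
      rw [mem_closedBall, dist_zero_right, not_le] at hxR
      exact hx (by simp [hVR x hxR])
    have h4 := (integral_eq_zero_iff_of_nonneg (fun x => sq_nonneg (V x)) hVi).mp h2
    filter_upwards [h4] with x hx
    exact pow_eq_zero_iff (two_ne_zero) |>.mp hx
  · -- Fatou
    rintro ⟨C, hC'⟩
    have hcX' := hcX
    obtain ⟨c, hc, hcX⟩ := h36 q hq (j + 1) (by omega)
    have hfp : (0 : ℝ) < ((2 * (j + 1)).factorial : ℝ) := by
      exact_mod_cast (2 * (j + 1)).factorial_pos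
    set u : ℕ → ℝ := fun n => 1 / ((n : ℝ) + 1) with hu
    have hu0 : ∀ n, 0 < u n := fun n => by
      rw [hu]
      positivity
    have hut : Tendsto u atTop (𝓝[>] 0) := by
      rw [tendsto_nhdsWithin_iff]
      exact ⟨tendsto_one_div_add_atTop_nhds_zero_nat, Eventually.of_forall hu0⟩
    have hgi : ∀ n, Integrable (fun z : (Fin 1 → En q) × En q =>
        km q 1 z.1 * W z.2 * (rho j (Real.sqrt (u n) * XX z) / (u n) ^ (j + 1))) μ := fun n => by
      refine ((hRi (u n) (hu0 n)).div_const ((u n) ^ (j + 1))).congr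
        (Eventually.of_forall fun z => ?_)
      show _ / (u n) ^ (j + 1) = _
      ring
    have hg0 : ∀ n (z : (Fin 1 → En q) × En q),
        0 ≤ km q 1 z.1 * W z.2 * (rho j (Real.sqrt (u n) * XX z) / (u n) ^ (j + 1)) := by
      intro n z
      have := rho_nonneg h37 j (Real.sqrt (u n) * XX z)
      have := hu0 n
      exact mul_nonneg (mul_nonneg (hk0 _) (hW0 _)) (by positivity)
    have hpt : ∀ z : (Fin 1 → En q) × En q, Tendsto (fun n =>
        km q 1 z.1 * W z.2 * (rho j (Real.sqrt (u n) * XX z) / (u n) ^ (j + 1))) atTop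
        (𝓝 (km q 1 z.1 * W z.2 * (XX z ^ (2 * (j + 1)) / ((2 * (j + 1)).factorial : ℝ)))) := by
      intro z
      refine Tendsto.const_mul _ ?_
      have h3 : Tendsto (fun n => u n * XX z ^ (2 * (j + 1) + 2)) atTop (𝓝 0) := by
        have h4 : Tendsto u atTop (𝓝 0) := hut.mono_right nhdsWithin_le_nhds
        have := h4.mul_const (XX z ^ (2 * (j + 1) + 2))
        rwa [zero_mul] at this
      have h5 : Tendsto (fun n => XX z ^ (2 * (j + 1)) / ((2 * (j + 1)).factorial : ℝ) -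
          u n * XX z ^ (2 * (j + 1) + 2)) atTop
          (𝓝 (XX z ^ (2 * (j + 1)) / ((2 * (j + 1)).factorial : ℝ))) := by
        have := (tendsto_const_nhds (x := XX z ^ (2 * (j + 1)) /
          ((2 * (j + 1)).factorial : ℝ))).sub h3
        rwa [sub_zero] at this
      refine tendsto_of_tendsto_of_tendsto_of_le_of_le h5 tendsto_const_nhds
        (fun n => ?_) (fun n => ?_)
      · show XX z ^ (2 * (j + 1)) / ((2 * (j + 1)).factorial : ℝ) -
          u n * XX z ^ (2 * (j + 1) + 2) ≤ rho j (Real.sqrt (u n) * XX z) / (u n) ^ (j + 1)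
        have hun := hu0 n
        rw [le_div_iff₀ (by positivity)]
        have h6 := rho_le1 h37 (j + 1) (Real.sqrt (u n) * XX z)
        rw [rho_succ, hXe (u n) (j + 1) _ hun,
          show 2 * (j + 1) + 2 = 2 * (j + 2) by ring, hXe (u n) (j + 2) _ hun] at h6
        have h7 : (XX z ^ (2 * (j + 1)) / ((2 * (j + 1)).factorial : ℝ) -
            u n * XX z ^ (2 * (j + 2))) * (u n) ^ (j + 1) =
            (u n) ^ (j + 1) * XX z ^ (2 * (j + 1)) / ((2 * (j + 1)).factorial : ℝ) -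
            (u n) ^ (j + 2) * XX z ^ (2 * (j + 2)) := by ring
        rw [show 2 * (j + 1) + 2 = 2 * (j + 2) by ring, h7]
        linarith
      · show rho j (Real.sqrt (u n) * XX z) / (u n) ^ (j + 1) ≤
          XX z ^ (2 * (j + 1)) / ((2 * (j + 1)).factorial : ℝ)
        have hun := hu0 n
        rw [div_le_iff₀ (by positivity)]
        have h6 := rho_nonneg h37 (j + 1) (Real.sqrt (u n) * XX z)
        rw [rho_succ, hXe (u n) (j + 1) _ hun] at h6
        have h7 : XX z ^ (2 * (j + 1)) / ((2 * (j + 1)).factorial : ℝ) * (u n) ^ (j + 1) =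
          (u n) ^ (j + 1) * XX z ^ (2 * (j + 1)) / ((2 * (j + 1)).factorial : ℝ) := by ring
        rw [h7]
        linarith
    have hlim : ∫⁻ z, ENNReal.ofReal (km q 1 z.1 * W z.2 *
        (XX z ^ (2 * (j + 1)) / ((2 * (j + 1)).factorial : ℝ))) ∂μ ≤ ENNReal.ofReal C := by
      have h1 : ∀ z : (Fin 1 → En q) × En q, ENNReal.ofReal (km q 1 z.1 * W z.2 *
          (XX z ^ (2 * (j + 1)) / ((2 * (j + 1)).factorial : ℝ))) =
          liminf (fun n => ENNReal.ofReal (km q 1 z.1 * W z.2 *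
            (rho j (Real.sqrt (u n) * XX z) / (u n) ^ (j + 1)))) atTop := fun z =>
        ((ENNReal.continuous_ofReal.tendsto _).comp (hpt z)).liminf_eq.symm
      simp_rw [h1]
      refine (lintegral_liminf_le' fun n =>
        (hgi n).aestronglyMeasurable.aemeasurable.ennreal_ofReal).trans ?_
      refine le_trans (Filter.liminf_le_limsup (by isBoundedDefault) (by isBoundedDefault))
        (Filter.limsup_le_of_le (by isBoundedDefault) ?_)
      filter_upwards [hut.eventually hC'] with n hn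
      rw [← ofReal_integral_eq_lintegral_ofReal (hgi n) (Eventually.of_forall (hg0 n))]
      refine ENNReal.ofReal_le_ofReal ?_
      have h2 : ∫ z, km q 1 z.1 * W z.2 * (rho j (Real.sqrt (u n) * XX z) / (u n) ^ (j + 1)) ∂μ =
          Rj (u n) / (u n) ^ (j + 1) := by
        rw [hRj]
        show _ = (∫ z, km q 1 z.1 * W z.2 * rho j (Real.sqrt (u n) * XX z) ∂μ) / (u n) ^ (j + 1)
        rw [← integral_div]
        refine integral_congr_ae (Eventually.of_forall fun z => ?_)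
        show _ = _ / (u n) ^ (j + 1)
        ring
      rw [h2, div_le_iff₀ (pow_pos (hu0 n) _)]
      exact hn
    have hint : Integrable (fun z : (Fin 1 → En q) × En q => km q 1 z.1 * W z.2 *
        (XX z ^ (2 * (j + 1)) / ((2 * (j + 1)).factorial : ℝ))) μ := by
      refine ⟨?_, ?_⟩
      · exact (hkm.comp_fst.mul (hWc.comp continuous_snd).aestronglyMeasurable).mul
          ((hcX'.pow _).div_const _).aestronglyMeasurable
      · rw [hasFiniteIntegral_iff_ofReal (Eventually.of_forall fun z => ?_)]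
        · exact hlim.trans_lt ENNReal.ofReal_lt_top
        · show 0 ≤ km q 1 z.1 * W z.2 * (XX z ^ (2 * (j + 1)) / ((2 * (j + 1)).factorial : ℝ))
          have h2 : 0 ≤ XX z ^ (2 * (j + 1)) := by
            rw [pow_mul]
            positivity
          exact mul_nonneg (mul_nonneg (hk0 _) (hW0 _)) (by positivity)
    have hint2 := hint.integral_prod_right
    refine (hint2.const_mul (((2 * (j + 1)).factorial : ℝ) / c)).congr
      (Eventually.of_forall fun ξ => ?_)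
    have h8 := (hcX ξ).2
    show ((2 * (j + 1)).factorial : ℝ) / c * (∫ y, km q 1 y * W ξ *
      (XX (y, ξ) ^ (2 * (j + 1)) / ((2 * (j + 1)).factorial : ℝ))) =
      ‖ξ‖ ^ (2 * ((j + 1 : ℕ) : ℝ)) * W ξ
    have h9 : ∫ y, km q 1 y * W ξ *
        (XX (y, ξ) ^ (2 * (j + 1)) / ((2 * (j + 1)).factorial : ℝ)) =
        (W ξ / ((2 * (j + 1)).factorial : ℝ)) * (c * ‖ξ‖ ^ (2 * (j + 1))) := by
      rw [← h8, ← integral_const_mul]
      refine integral_congr_ae (Eventually.of_forall fun y => ?_)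
      show km q 1 y * W ξ * ((2 * Real.pi * inner ℝ (y 0) ξ) ^ (2 * (j + 1)) /
        ((2 * (j + 1)).factorial : ℝ)) = (W ξ / ((2 * (j + 1)).factorial : ℝ)) *
        (km q 1 y * (2 * Real.pi * inner ℝ (y 0) ξ) ^ (2 * (j + 1)))
      ring
    rw [h9]
    have h10 : ‖ξ‖ ^ (2 * ((j + 1 : ℕ) : ℝ)) = ‖ξ‖ ^ (2 * (j + 1)) := by
      rw [← hrp (2 * (j + 1)) ξ]
      congr 1
      push_cast
      ring
    rw [h10]
    field_simp

end Pool.Agent.Work.MP_f2af60_mp

end

section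

/-!
# MP_f2af60_mp, items H3 and H4: bounds for `Φ_m`, homogeneity, and the series `TT`
-/

namespace Pool.Agent.Work.MP_f2af60_mp

open MeasureTheory Metric Filter Topology

theorem H3_MM_le {q : ℕ} {V : En q → ℝ} {M R : ℝ} (hM : ∀ x, |V x| ≤ M)
    (hR : ∀ x, R < ‖x‖ → V x = 0) (m : ℕ) (y : Fin m → En q) :
    |MM q V m y| ≤ M ^ (m + 1) * volume.real (closedBall (0 : En q) R) := by
  have hM0 : 0 ≤ M := (abs_nonneg _).trans (hM 0)
  have hfin : volume (closedBall (0 : En q) R) ≠ ⊤ := (isCompact_closedBall 0 R).measure_ne_top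
  have hint : Integrable ((closedBall (0 : En q) R).indicator fun _ => M ^ (m + 1)) := by
    rw [integrable_indicator_iff isClosed_closedBall.measurableSet]
    exact integrableOn_const hfin
  have h1 : ∀ x, ‖V x * ∏ i, V (x + y i)‖ ≤
      (closedBall (0 : En q) R).indicator (fun _ => M ^ (m + 1)) x := by
    intro x
    by_cases hx : x ∈ closedBall (0 : En q) R
    · rw [Set.indicator_of_mem hx, norm_mul, Real.norm_eq_abs, norm_prod, pow_succ, mul_comm]
      refine mul_le_mul ?_ (hM x) (abs_nonneg _) (pow_nonneg hM0 _)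
      calc ∏ i, ‖V (x + y i)‖ ≤ ∏ _i : Fin m, M :=
            Finset.prod_le_prod (fun i _ => norm_nonneg _) fun i _ => hM _
        _ = M ^ m := by rw [Finset.prod_const, Finset.card_univ, Fintype.card_fin]
    · rw [Set.indicator_of_notMem hx]
      rw [mem_closedBall, dist_zero_right, not_le] at hx
      rw [hR x hx, zero_mul, norm_zero]
  calc |MM q V m y| = ‖∫ x, V x * ∏ i, V (x + y i)‖ := rfl
    _ ≤ ∫ x, (closedBall (0 : En q) R).indicator (fun _ => M ^ (m + 1)) x :=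
        norm_integral_le_of_norm_le hint (Eventually.of_forall h1)
    _ = M ^ (m + 1) * volume.real (closedBall (0 : En q) R) := by
        rw [integral_indicator_const _ isClosed_closedBall.measurableSet, smul_eq_mul, mul_comm]

theorem H3_MM_smul {q : ℕ} (V : En q → ℝ) (g : ℝ) (m : ℕ) (y : Fin m → En q) :
    MM q (fun x => g * V x) m y = g ^ (m + 1) * MM q V m y := by
  unfold MM
  rw [← integral_const_mul]
  refine integral_congr_ae (Eventually.of_forall fun x => ?_)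
  simp only [Finset.prod_mul_distrib, Finset.prod_const, Finset.card_univ, Fintype.card_fin]
  ring

/-- Item H3. -/
theorem phiBd (h1 : KmMass) : PhiBd := by
  intro q hq
  obtain ⟨⟨C, hC⟩, -⟩ := h1 q hq
  have hC0 : 0 ≤ C := (hC 1 le_rfl).2.1.le.trans (hC 1 le_rfl).2.2
  refine ⟨C, hC0, fun V _ M R hM hR m hm => ⟨fun e => ?_, fun g e => ?_⟩⟩
  · have hM0 : 0 ≤ M := (abs_nonneg _).trans (hM 0)
    obtain ⟨hint, -, hle⟩ := hC m hm
    have hk0 := (f_km q m hq hm).1
    have hB : 0 ≤ M ^ (m + 1) * volume.real (closedBall (0 : En q) R) := by positivity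
    have h2 : ∀ y, ‖km q m y * MM q V m (fun i => Real.sqrt e • y i)‖ ≤
        km q m y * (M ^ (m + 1) * volume.real (closedBall (0 : En q) R)) := by
      intro y
      rw [norm_mul, Real.norm_of_nonneg (hk0 y), Real.norm_eq_abs]
      exact mul_le_mul_of_nonneg_left (H3_MM_le hM hR m _) (hk0 y)
    calc |Phi q V m e| = ‖∫ y, km q m y * MM q V m (fun i => Real.sqrt e • y i)‖ := rfl
      _ ≤ ∫ y, km q m y * (M ^ (m + 1) * volume.real (closedBall (0 : En q) R)) :=
          norm_integral_le_of_norm_le (hint.mul_const _) (Eventually.of_forall h2)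
      _ = (∫ y, km q m y) * (M ^ (m + 1) * volume.real (closedBall (0 : En q) R)) :=
          integral_mul_const _ _
      _ ≤ C * (M ^ (m + 1) * volume.real (closedBall (0 : En q) R)) :=
          mul_le_mul_of_nonneg_right hle hB
      _ = _ := by ring
  · unfold Phi
    rw [← integral_const_mul]
    refine integral_congr_ae (Eventually.of_forall fun y => ?_)
    simp only [H3_MM_smul]
    ring

/-- The terms of the series `TT`. -/
noncomputable def H4_term (q : ℕ) (V : En q → ℝ) (E : ℝ) (k : ℕ) : ℝ :=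
  (-1) ^ (k + 1) * (E ^ ((q : ℝ) - 1 / 2 - ((k + 1 : ℕ) : ℝ)) * Phi q V (k + 1) E⁻¹)

theorem H4_rpow {q : ℕ} {E : ℝ} (hE : 0 < E) (k : ℕ) :
    E ^ ((q : ℝ) - 1 / 2 - ((k + 1 : ℕ) : ℝ)) = E ^ ((q : ℝ) - 3 / 2) * (E ^ k)⁻¹ := by
  have h : (q : ℝ) - 1 / 2 - ((k + 1 : ℕ) : ℝ) = ((q : ℝ) - 3 / 2) + -(k : ℝ) := by
    push_cast
    ring
  rw [h, Real.rpow_add hE, Real.rpow_neg hE.le, Real.rpow_natCast]

theorem H4_term_le {q : ℕ} {V : En q → ℝ} {M B E : ℝ} (hM0 : 0 ≤ M) (hE : 0 < E)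
    (hB : ∀ m : ℕ, 1 ≤ m → ∀ e : ℝ, |Phi q V m e| ≤ B * M ^ (m + 1)) (k : ℕ) :
    ‖H4_term q V E k‖ ≤ (B * M ^ 2 * E ^ ((q : ℝ) - 3 / 2)) * (M / E) ^ k := by
  unfold H4_term
  have h1 := hB (k + 1) (by omega) E⁻¹
  have h2 : 0 < E ^ ((q : ℝ) - 3 / 2) := Real.rpow_pos_of_pos hE _
  rw [norm_mul, norm_pow, norm_neg, norm_one, one_pow, one_mul, norm_mul, H4_rpow hE,
    Real.norm_of_nonneg (by positivity), Real.norm_eq_abs]
  calc E ^ ((q : ℝ) - 3 / 2) * (E ^ k)⁻¹ * |Phi q V (k + 1) E⁻¹| ≤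
      E ^ ((q : ℝ) - 3 / 2) * (E ^ k)⁻¹ * (B * M ^ (k + 1 + 1)) :=
        mul_le_mul_of_nonneg_left h1 (by positivity)
    _ = (B * M ^ 2 * E ^ ((q : ℝ) - 3 / 2)) * (M / E) ^ k := by
        rw [div_pow, div_eq_mul_inv, pow_add, pow_add]
        ring

theorem H4_FF {q : ℕ} (hq : 1 ≤ q) {V : En q → ℝ} (hV : Measurable V) {M R : ℝ}
    (hM : ∀ x, |V x| ≤ M) (hR : ∀ x, R < ‖x‖ → V x = 0) {E : ℝ} (hE : 0 < E) :
    FF q V E = ∑ k ∈ Finset.range q, H4_term q V E k := by
  rw [f_scal q hq V hV M R hM hR E hE]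
  have h1 : Finset.Icc 1 q = Finset.Ico (0 + 1) (q + 1) := by
    ext x
    simp only [Finset.mem_Icc, Finset.mem_Ico]
    omega
  rw [h1, ← Finset.sum_Ico_add', ← Finset.range_eq_Ico]
  rfl

/-- Item H4. -/
theorem ttFacts (_h1 : KmMass) (h3 : PhiBd) : TTFacts := by
  intro q hq V hV M R hM hR
  have hM0 : 0 ≤ M := (abs_nonneg _).trans (hM 0)
  obtain ⟨C, hC, hPhi⟩ := h3 q hq
  set B : ℝ := C * volume.real (closedBall (0 : En q) R) with hBdef
  have hB0 : 0 ≤ B := by positivity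
  have hB : ∀ m : ℕ, 1 ≤ m → ∀ e : ℝ, |Phi q V m e| ≤ B * M ^ (m + 1) := by
    intro m hm e
    refine ((hPhi V hV M R hM hR m hm).1 e).trans (le_of_eq ?_)
    rw [hBdef]
    ring
  have hsum : ∀ E : ℝ, M < E → 0 < E → Summable (H4_term q V E) := by
    intro E hME hE
    refine Summable.of_norm_bounded (g := fun k =>
      (B * M ^ 2 * E ^ ((q : ℝ) - 3 / 2)) * (M / E) ^ k) ?_ (H4_term_le hM0 hE hB)
    exact (summable_geometric_of_lt_one (div_nonneg hM0 hE.le)
      ((div_lt_one hE).2 hME)).mul_left _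
  refine ⟨hsum, 2 * B * (M ^ (q + 2) + M ^ 2), fun E hE2 hE1 => ?_⟩
  have hE : 0 < E := by linarith
  have hME : M < E := by linarith
  have hr : M / E ≤ 1 / 2 := by
    rw [div_le_iff₀ hE]
    linarith
  have hr0 : 0 ≤ M / E := div_nonneg hM0 hE.le
  have hrk : ∀ k : ℕ, (M / E) ^ k ≤ (1 / 2) ^ k := fun k => pow_le_pow_left₀ hr0 hr k
  have hp1 : 0 < E ^ ((q : ℝ) - 3 / 2) := Real.rpow_pos_of_pos hE _
  have hp2 : 0 < E ^ (-(3 / 2) : ℝ) := Real.rpow_pos_of_pos hE _
  have hTT : TT q V E = ∑' k, H4_term q V E k := rfl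
  constructor
  · have h2 : TT q V E - FF q V E = ∑' k, H4_term q V E (k + q) := by
      rw [hTT, H4_FF hq hV hM hR hE, ← (hsum E hME hE).sum_add_tsum_nat_add q]
      ring
    rw [h2, ← Real.norm_eq_abs]
    have hg : HasSum (fun k : ℕ => B * M ^ (q + 2) * E ^ (-(3 / 2) : ℝ) * (1 / 2 : ℝ) ^ k)
        (B * M ^ (q + 2) * E ^ (-(3 / 2) : ℝ) * 2) := hasSum_geometric_two.mul_left _
    refine (tsum_of_norm_bounded hg fun k => ?_).trans ?_
    · refine (H4_term_le hM0 hE hB (k + q)).trans ?_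
      have h3 : (B * M ^ 2 * E ^ ((q : ℝ) - 3 / 2)) * (M / E) ^ (k + q) =
          B * M ^ (q + 2) * E ^ (-(3 / 2) : ℝ) * (M / E) ^ k := by
        have h4 : E ^ ((q : ℝ) - 3 / 2) = E ^ (-(3 / 2) : ℝ) * E ^ q := by
          rw [← Real.rpow_natCast, ← Real.rpow_add hE]
          congr 1
          ring
        rw [h4, pow_add (M / E), div_pow M E q, pow_add M q 2]
        field_simp
      rw [h3]
      exact mul_le_mul_of_nonneg_left (hrk k) (by positivity)
    · have h5 : 0 ≤ B * M ^ 2 * E ^ (-(3 / 2) : ℝ) := by positivity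
      nlinarith
  · rw [hTT, ← Real.norm_eq_abs]
    have hg : HasSum (fun k : ℕ => B * M ^ 2 * E ^ ((q : ℝ) - 3 / 2) * (1 / 2 : ℝ) ^ k)
        (B * M ^ 2 * E ^ ((q : ℝ) - 3 / 2) * 2) := hasSum_geometric_two.mul_left _
    refine (tsum_of_norm_bounded hg fun k => ?_).trans ?_
    · exact (H4_term_le hM0 hE hB k).trans
        (mul_le_mul_of_nonneg_left (hrk k) (by positivity))
    · have h5 : 0 ≤ B * M ^ (q + 2) * E ^ ((q : ℝ) - 3 / 2) := by positivity
      nlinarith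

end Pool.Agent.Work.MP_f2af60_mp

end

section

/-!
# MP_f2af60_mp, H21: the remainder of the quadratic term against a radial kernel
-/

namespace Pool.Agent.Work.MP_f2af60_mp

open MeasureTheory Metric Filter Topology

namespace HRK

/-- The unit vector. -/
noncomputable def ee (q : ℕ) : En q := EuclideanSpace.single 0 1

lemma ee_norm (q : ℕ) : ‖ee q‖ = 1 := by simp [ee]

/-- The argument of the cosine in the direction of the unit vector. -/
noncomputable def XE (q : ℕ) (y : Fin 1 → En q) : ℝ := 2 * Real.pi * inner ℝ (y 0) (ee q)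

lemma XE_cont (q : ℕ) : Continuous (XE q) := by
  unfold XE
  exact ((continuous_apply (0 : Fin 1)).inner continuous_const).const_mul _

lemma XE_abs (q : ℕ) (y : Fin 1 → En q) : |XE q y| ≤ 2 * Real.pi * ‖y‖ := by
  unfold XE
  have hp : 0 ≤ 2 * Real.pi := by positivity
  rw [abs_mul, abs_of_nonneg hp]
  refine mul_le_mul_of_nonneg_left ?_ hp
  calc |inner ℝ (y 0) (ee q)| ≤ ‖y 0‖ * ‖ee q‖ := abs_real_inner_le_norm _ _
    _ ≤ ‖y‖ * 1 := by
        rw [ee_norm]
        exact mul_le_mul_of_nonneg_right (norm_le_pi_norm y 0) (by norm_num)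
    _ = ‖y‖ := mul_one _

/-- The radial kernel. -/
noncomputable def Kf (q : ℕ) (s : ℝ) : ℝ :=
  ∫ y : Fin 1 → En q, km q 1 y * Phi1.rho (q - 1) (s * XE q y)

lemma rho_lower (j : ℕ) {x : ℝ} (hx : |x| ≤ 1) :
    x ^ (2 * j + 2) / (2 * ((2 * j + 2).factorial : ℝ)) ≤ Phi1.rho j x := by
  have h1 := Phi1.rho_le cosEnv (j + 1) x
  rw [Phi1.rho_succ] at h1
  have hf : ((2 * (j + 1) + 2).factorial : ℝ) =
      (2 * j + 4) * ((2 * j + 3) * ((2 * j + 2).factorial : ℝ)) := by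
    rw [show 2 * (j + 1) + 2 = (2 * j + 2) + 1 + 1 by ring, Nat.factorial_succ,
      Nat.factorial_succ]
    push_cast
    ring
  have hF : (0 : ℝ) < ((2 * j + 2).factorial : ℝ) := by exact_mod_cast Nat.factorial_pos _
  have hx2 : x ^ 2 ≤ 1 := by
    rw [← sq_abs]
    exact pow_le_one₀ (abs_nonneg x) hx
  have hX : 0 ≤ x ^ (2 * j + 2) := by
    rw [show 2 * j + 2 = 2 * (j + 1) by ring, pow_mul]
    positivity
  have h2 : x ^ (2 * (j + 1) + 2) ≤ x ^ (2 * j + 2) := by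
    rw [show 2 * (j + 1) + 2 = (2 * j + 2) + 2 by ring, pow_add]
    exact mul_le_of_le_one_right hX hx2
  have h3 : x ^ (2 * (j + 1) + 2) / ((2 * (j + 1) + 2).factorial : ℝ) ≤
      x ^ (2 * j + 2) / (2 * ((2 * j + 2).factorial : ℝ)) := by
    refine div_le_div₀ hX h2 (by positivity) ?_
    rw [hf]
    have hj : (0 : ℝ) ≤ j := Nat.cast_nonneg j
    nlinarith [mul_nonneg hj hF.le, mul_nonneg (mul_nonneg hj hj) hF.le]
  have h4 : x ^ (2 * (j + 1)) / ((2 * (j + 1)).factorial : ℝ) =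
      x ^ (2 * j + 2) / ((2 * j + 2).factorial : ℝ) := rfl
  have h5 : x ^ (2 * j + 2) / (2 * ((2 * j + 2).factorial : ℝ)) +
      x ^ (2 * j + 2) / (2 * ((2 * j + 2).factorial : ℝ)) =
      x ^ (2 * j + 2) / ((2 * j + 2).factorial : ℝ) := by
    field_simp
    ring
  rw [h4] at h1
  linarith

variable {q : ℕ}

lemma km_aesm (hq : 1 ≤ q) : AEStronglyMeasurable (km q 1) := by
  obtain ⟨-, -, hkint, -, -⟩ := f_km q 1 hq le_rfl
  have h1 : AEStronglyMeasurable (fun y : Fin 1 → En q => ((1 + ‖y‖) ^ (2 * q))⁻¹ *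
      ((1 + ‖y‖) ^ (2 * q) * km q 1 y)) := by
    refine AEStronglyMeasurable.mul ?_ hkint.aestronglyMeasurable
    refine Continuous.aestronglyMeasurable (Continuous.inv₀ (by fun_prop) fun y => ?_)
    have : 0 < 1 + ‖y‖ := by linarith [norm_nonneg y]
    positivity
  refine h1.congr (Eventually.of_forall fun y => ?_)
  have : 0 < 1 + ‖y‖ := by linarith [norm_nonneg y]
  show ((1 + ‖y‖) ^ (2 * q))⁻¹ * ((1 + ‖y‖) ^ (2 * q) * km q 1 y) = km q 1 y
  field_simp

lemma mom_int (hq : 1 ≤ q) {i : ℕ} (hi : i ≤ q) :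
    Integrable (fun y : Fin 1 → En q => km q 1 y * XE q y ^ (2 * i)) := by
  obtain ⟨c, -, h⟩ := f_k1 q hq i hi
  exact (h (ee q)).1

lemma mom_int_s (hq : 1 ≤ q) {i : ℕ} (hi : i ≤ q) (s : ℝ) :
    Integrable (fun y : Fin 1 → En q => km q 1 y * (s * XE q y) ^ (2 * i)) := by
  refine ((mom_int hq hi).const_mul (s ^ (2 * i))).congr (Eventually.of_forall fun y => ?_)
  show s ^ (2 * i) * (km q 1 y * XE q y ^ (2 * i)) = km q 1 y * (s * XE q y) ^ (2 * i)
  ring

lemma Kf_int (hq : 1 ≤ q) (s : ℝ) :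
    Integrable (fun y : Fin 1 → En q => km q 1 y * Phi1.rho (q - 1) (s * XE q y)) := by
  obtain ⟨hk0, -, -, -, -⟩ := f_km q 1 hq le_rfl
  refine ((mom_int_s hq (show q - 1 ≤ q by omega) s).const_mul 2).mono'
    ((km_aesm hq).mul ((Phi1.rho_cont _).comp ((XE_cont q).const_mul s)).aestronglyMeasurable)
    (Eventually.of_forall fun y => ?_)
  have h1 := Phi1.rho_nonneg cosEnv (q - 1) (s * XE q y)
  rw [Real.norm_of_nonneg (mul_nonneg (hk0 y) h1)]
  have h2 := Phi1.rho_le2 cosEnv (q - 1) (s * XE q y)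
  calc km q 1 y * Phi1.rho (q - 1) (s * XE q y)
      ≤ km q 1 y * (2 * (s * XE q y) ^ (2 * (q - 1))) := mul_le_mul_of_nonneg_left h2 (hk0 y)
    _ = 2 * (km q 1 y * (s * XE q y) ^ (2 * (q - 1))) := by ring

/-- Rotation invariance. -/
lemma Kf_rot (s : ℝ) (ξ : En q) :
    ∫ y : Fin 1 → En q, km q 1 y * Phi1.rho (q - 1) (s * (2 * Real.pi * inner ℝ (y 0) ξ)) =
      Kf q (s * ‖ξ‖) := by
  set v : En q := ‖ξ‖ • ee q with hv
  have hvn : ‖v‖ = ‖ξ‖ := by rw [hv, norm_smul, ee_norm, mul_one, norm_norm]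
  set U : En q ≃ₗᵢ[ℝ] En q := (Submodule.span ℝ {v - ξ})ᗮ.reflection with hU
  have hUv : U v = ξ := Submodule.reflection_sub hvn
  have h1 := (k1_mp U).integral_comp (k1_emb U)
    (fun y : Fin 1 → En q => km q 1 y * Phi1.rho (q - 1) (s * (2 * Real.pi * inner ℝ (y 0) ξ)))
  rw [← h1, Kf]
  refine integral_congr_ae (Eventually.of_forall fun y => ?_)
  have h3 : inner ℝ (U (y 0)) ξ = ‖ξ‖ * inner ℝ (y 0) (ee q) := by
    conv_lhs => rw [← hUv]
    rw [U.inner_map_map, hv, inner_smul_right]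
  show km q 1 (fun i => U (y i)) *
    Phi1.rho (q - 1) (s * (2 * Real.pi * inner ℝ (U (y 0)) ξ)) =
      km q 1 y * Phi1.rho (q - 1) (s * ‖ξ‖ * XE q y)
  rw [k1_km, h3, XE]
  congr 2
  ring

/-- The hyperplane is a null set. -/
lemma hyper_null (q : ℕ) : (volume : Measure (Fin 1 → En q)) {y | XE q y = 0} = 0 := by
  let ℓ : (Fin 1 → En q) →ₗ[ℝ] ℝ :=
    (innerₛₗ ℝ (ee q)).comp (LinearMap.proj (R := ℝ) (φ := fun _ : Fin 1 => En q) 0)
  have hℓ : ∀ y, ℓ y = inner ℝ (ee q) (y 0) := fun y => rfl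
  have hnull : (volume : Measure (Fin 1 → En q)) (LinearMap.ker ℓ : Set (Fin 1 → En q)) = 0 := by
    refine Measure.addHaar_submodule _ _ fun htop => ?_
    have h2 : (fun _ => ee q : Fin 1 → En q) ∈ LinearMap.ker ℓ := by rw [htop]; trivial
    rw [LinearMap.mem_ker, hℓ, real_inner_self_eq_norm_sq, ee_norm] at h2
    norm_num at h2
  refine measure_mono_null (fun y hy => ?_) hnull
  rw [SetLike.mem_coe, LinearMap.mem_ker, hℓ, real_inner_comm]
  have h3 : 2 * Real.pi * inner ℝ (y 0) (ee q) = 0 := hy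
  exact (mul_eq_zero.1 h3).resolve_left (by positivity)

lemma km_pos (hq : 1 ≤ q) {y : Fin 1 → En q} (hy : XE q y ≠ 0) : 0 < km q 1 y := by
  have hy0 : y 0 ≠ 0 := by
    intro h0
    apply hy
    rw [XE, h0, inner_zero_left, mul_zero]
  refine ((kmRep f_pt f_hh) q 1 hq le_rfl 1 one_pos (Fin.cons 0 y)).2.1 ?_
  intro i
  have e0 : (Fin.cons 0 y : Fin 2 → En q) 0 = 0 := rfl
  have e1 : (Fin.cons 0 y : Fin 2 → En q) 1 = y 0 := rfl
  fin_cases i
  · show (Fin.cons 0 y : Fin 2 → En q) 0 ≠ (Fin.cons 0 y : Fin 2 → En q) 1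
    rw [e0, e1]
    exact hy0.symm
  · show (Fin.cons 0 y : Fin 2 → En q) 1 ≠ (Fin.cons 0 y : Fin 2 → En q) 0
    rw [e0, e1]
    exact hy0

lemma Kf_meas (hq : 1 ≤ q) : Measurable (Kf q) := by
  have hk := km_aesm hq
  have h1 : Kf q = fun s => ∫ y : Fin 1 → En q, hk.mk (km q 1) y *
      Phi1.rho (q - 1) (s * XE q y) := by
    funext s
    refine integral_congr_ae ?_
    filter_upwards [hk.ae_eq_mk] with y hy
    rw [hy]
  rw [h1]
  have h2 : StronglyMeasurable (fun p : ℝ × (Fin 1 → En q) => hk.mk (km q 1) p.2 *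
      Phi1.rho (q - 1) (p.1 * XE q p.2)) := by
    refine (hk.stronglyMeasurable_mk.comp_measurable measurable_snd).mul ?_
    refine Continuous.stronglyMeasurable ?_
    exact (Phi1.rho_cont _).comp (continuous_fst.mul ((XE_cont q).comp continuous_snd))
  exact h2.integral_prod_right'.measurable

end HRK

open HRK Phi1

theorem rrKernel : RRKernel := by
  intro q hq
  obtain ⟨hk0, -, hkint, -, -⟩ := f_km q 1 hq le_rfl
  have hkm := km_aesm hq
  obtain ⟨c1, hc1, hm1⟩ := f_k1 q hq q le_rfl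
  obtain ⟨c2, hc2, hm2⟩ := f_k1 q hq (q - 1) (by omega)
  have hn1 : ‖ee q‖ = 1 := ee_norm q
  have hM1 : ∫ y : Fin 1 → En q, km q 1 y * XE q y ^ (2 * q) = c1 := by
    have := (hm1 (ee q)).2
    rw [hn1, one_pow, mul_one] at this
    exact this
  have hM2 : ∫ y : Fin 1 → En q, km q 1 y * XE q y ^ (2 * (q - 1)) = c2 := by
    have := (hm2 (ee q)).2
    rw [hn1, one_pow, mul_one] at this
    exact this
  have hK0 : ∀ s, 0 ≤ Kf q s := fun s =>
    integral_nonneg fun y => mul_nonneg (hk0 y) (rho_nonneg cosEnv _ _)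
  -- the constant of the lower bound
  set B : Set (Fin 1 → En q) := closedBall 0 (1 / (2 * Real.pi)) with hB
  set F : (Fin 1 → En q) → ℝ := fun y =>
    km q 1 y * XE q y ^ (2 * q) / (2 * ((2 * q).factorial : ℝ)) with hF
  have hFi : Integrable F := (mom_int hq le_rfl).div_const _
  have hfac : (0 : ℝ) < ((2 * q).factorial : ℝ) := by exact_mod_cast Nat.factorial_pos _
  have hXp : ∀ y : Fin 1 → En q, 0 ≤ XE q y ^ (2 * q) := fun y => by
    rw [pow_mul]
    positivity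
  have hF0 : ∀ y, 0 ≤ F y := fun y => by
    have := mul_nonneg (hk0 y) (hXp y)
    rw [hF]
    positivity
  have hcpos : 0 < ∫ y in B, F y := by
    rw [setIntegral_pos_iff_support_of_nonneg_ae (Eventually.of_forall hF0) hFi.integrableOn]
    have h1 : B \ {y | XE q y = 0} ⊆ Function.support F ∩ B := by
      rintro y ⟨hyB, hyX⟩
      refine ⟨?_, hyB⟩
      rw [Function.mem_support, hF]
      have h2 := km_pos hq (y := y) hyX
      have h3 : XE q y ^ (2 * q) ≠ 0 := pow_ne_zero _ hyX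
      have h4 : 0 < XE q y ^ (2 * q) := lt_of_le_of_ne (hXp y) (Ne.symm h3)
      exact (by positivity : 0 < km q 1 y * XE q y ^ (2 * q) / (2 * ((2 * q).factorial : ℝ))).ne'
    refine lt_of_lt_of_le ?_ (measure_mono h1)
    rw [measure_sdiff_null (hyper_null q)]
    refine lt_of_lt_of_le (measure_ball_pos volume (0 : Fin 1 → En q)
      (show 0 < 1 / (2 * Real.pi) by positivity)) (measure_mono ball_subset_closedBall)
  refine ⟨Kf q, c1 + 2 * c2, ∫ y in B, F y, hcpos, Kf_meas hq, hK0, ?_, ?_, ?_⟩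
  · intro s hs
    constructor
    · have h1 : Kf q s ≤ ∫ y : Fin 1 → En q, km q 1 y * (s * XE q y) ^ (2 * q) := by
        refine integral_mono (Kf_int hq s) (mom_int_s hq le_rfl s) fun y => ?_
        refine mul_le_mul_of_nonneg_left ?_ (hk0 y)
        have h2 := rho_le1 cosEnv (q - 1) (s * XE q y)
        rwa [show 2 * (q - 1) + 2 = 2 * q by omega] at h2
      have h2 : ∫ y : Fin 1 → En q, km q 1 y * (s * XE q y) ^ (2 * q) = s ^ (2 * q) * c1 := by
        rw [← hM1, ← integral_const_mul]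
        refine integral_congr_ae (Eventually.of_forall fun y => ?_)
        show km q 1 y * (s * XE q y) ^ (2 * q) = s ^ (2 * q) * (km q 1 y * XE q y ^ (2 * q))
        ring
      have h3 : 0 ≤ s ^ (2 * q) := by positivity
      calc Kf q s ≤ s ^ (2 * q) * c1 := h1.trans_eq h2
        _ ≤ (c1 + 2 * c2) * s ^ (2 * q) := by nlinarith
    · have h1 : Kf q s ≤ ∫ y : Fin 1 → En q, 2 * (km q 1 y * (s * XE q y) ^ (2 * (q - 1))) := by
        refine integral_mono (Kf_int hq s)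
          ((mom_int_s hq (show q - 1 ≤ q by omega) s).const_mul 2) fun y => ?_
        have h2 := rho_le2 cosEnv (q - 1) (s * XE q y)
        calc km q 1 y * rho (q - 1) (s * XE q y)
            ≤ km q 1 y * (2 * (s * XE q y) ^ (2 * (q - 1))) :=
              mul_le_mul_of_nonneg_left h2 (hk0 y)
          _ = 2 * (km q 1 y * (s * XE q y) ^ (2 * (q - 1))) := by ring
      have h2 : ∫ y : Fin 1 → En q, 2 * (km q 1 y * (s * XE q y) ^ (2 * (q - 1))) =
          2 * s ^ (2 * (q - 1)) * c2 := by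
        rw [← hM2, ← integral_const_mul]
        refine integral_congr_ae (Eventually.of_forall fun y => ?_)
        show 2 * (km q 1 y * (s * XE q y) ^ (2 * (q - 1))) =
          2 * s ^ (2 * (q - 1)) * (km q 1 y * XE q y ^ (2 * (q - 1)))
        ring
      have h3 : 0 ≤ s ^ (2 * (q - 1)) := by positivity
      calc Kf q s ≤ 2 * s ^ (2 * (q - 1)) * c2 := h1.trans_eq h2
        _ ≤ (c1 + 2 * c2) * s ^ (2 * (q - 1)) := by nlinarith
  · rintro s ⟨hs0, hs1⟩
    have h1 : ∫ y in B, km q 1 y * rho (q - 1) (s * XE q y) ≤ Kf q s :=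
      setIntegral_le_integral (Kf_int hq s)
        (Eventually.of_forall fun y => mul_nonneg (hk0 y) (rho_nonneg cosEnv _ _))
    have h2 : ∫ y in B, s ^ (2 * q) * F y ≤ ∫ y in B, km q 1 y * rho (q - 1) (s * XE q y) := by
      refine setIntegral_mono_on (hFi.const_mul _).integrableOn (Kf_int hq s).integrableOn
        isClosed_closedBall.measurableSet fun y hy => ?_
      have hy1 : ‖y‖ ≤ 1 / (2 * Real.pi) := by simpa [hB] using hy
      have hX1 : |s * XE q y| ≤ 1 := by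
        rw [abs_mul, abs_of_nonneg hs0]
        have h3 := XE_abs q y
        have h4 : 2 * Real.pi * ‖y‖ ≤ 1 := by
          have h5 := mul_le_mul_of_nonneg_left hy1 (show 0 ≤ 2 * Real.pi by positivity)
          have h6 : 2 * Real.pi * (1 / (2 * Real.pi)) = 1 := by
            field_simp
          linarith
        calc s * |XE q y| ≤ 1 * 1 :=
              mul_le_mul hs1 (h3.trans h4) (abs_nonneg _) (by norm_num)
          _ = 1 := one_mul 1
      have h7 := rho_lower (q - 1) hX1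
      rw [show 2 * (q - 1) + 2 = 2 * q by omega] at h7
      calc s ^ (2 * q) * F y = km q 1 y * ((s * XE q y) ^ (2 * q) /
            (2 * ((2 * q).factorial : ℝ))) := by
            rw [hF]
            ring
        _ ≤ km q 1 y * rho (q - 1) (s * XE q y) := mul_le_mul_of_nonneg_left h7 (hk0 y)
    rw [integral_const_mul] at h2
    linarith
  · intro V hVm M R hVM hVR hHS e he
    obtain ⟨hW0i, -, hFc, -⟩ := planchV q V hVm M R hVM hVR
    set W : En q → ℝ := fun ξ => ‖FourierTransform.fourier (fun x => (V x : ℂ)) ξ‖ ^ 2 with hWdef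
    have hWc : Continuous W := (hFc.norm).pow 2
    have hW0 : ∀ ξ, 0 ≤ W ξ := fun ξ => by positivity
    have hWij : Integrable (fun ξ : En q => ‖ξ‖ ^ (2 * (q - 1)) * W ξ) := by
      refine hHS.congr (Eventually.of_forall fun ξ => ?_)
      show ‖ξ‖ ^ (2 * ((q - 1 : ℕ) : ℝ)) * W ξ = ‖ξ‖ ^ (2 * (q - 1)) * W ξ
      rw [← Real.rpow_natCast ‖ξ‖ (2 * (q - 1))]
      push_cast
      rfl
    have hXe : (Real.sqrt e) ^ (2 * (q - 1)) = e ^ (q - 1) := by
      rw [pow_mul, Real.sq_sqrt he.le]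
    have hRi : Integrable (fun z : (Fin 1 → En q) × En q =>
        km q 1 z.1 * W z.2 * rho (q - 1) (Real.sqrt e * XX z))
        ((volume : Measure (Fin 1 → En q)).prod (volume : Measure (En q))) :=
      int_main (c := 2 * e ^ (q - 1)) hkint hk0 hkm hWc hW0
        (show 2 * (q - 1) ≤ 2 * q by omega) hWij
        ((rho_cont _).comp (XX_cont.const_mul _)) fun z => by
          rw [abs_of_nonneg (rho_nonneg cosEnv _ _)]
          refine (rho_le2 cosEnv _ _).trans (le_of_eq ?_)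
          rw [mul_pow, hXe, pow_mul |XX z|, sq_abs, ← pow_mul]
          ring
    unfold RR
    change ∫ z : (Fin 1 → En q) × En q, km q 1 z.1 * W z.2 *
      rho (q - 1) (Real.sqrt e * XX z) ∂_ = _
    rw [integral_prod_symm _ hRi]
    refine integral_congr_ae (Eventually.of_forall fun ξ => ?_)
    change ∫ y : Fin 1 → En q, km q 1 y * W ξ *
      rho (q - 1) (Real.sqrt e * (2 * Real.pi * inner ℝ (y 0) ξ)) = Kf q (Real.sqrt e * ‖ξ‖) * W ξ
    rw [← Kf_rot, ← integral_mul_const]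
    refine integral_congr_ae (Eventually.of_forall fun y => ?_)
    show km q 1 y * W ξ * rho (q - 1) (Real.sqrt e * (2 * Real.pi * inner ℝ (y 0) ξ)) =
      km q 1 y * rho (q - 1) (Real.sqrt e * (2 * Real.pi * inner ℝ (y 0) ξ)) * W ξ
    ring

end Pool.Agent.Work.MP_f2af60_mp

end

section

/-!
# MP_f2af60_mp, item H20: the quadratic remainder on a line of potentials
-/

namespace Pool.Agent.Work.MP_f2af60_mp

open MeasureTheory Metric Filter Topology Phi1

theorem H20_integrable {q : ℕ} {V : En q → ℝ} (hV : Measurable V) {M R : ℝ}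
    (hM : ∀ x, |V x| ≤ M) (hR : ∀ x, R < ‖x‖ → V x = 0) :
    Integrable (fun x => (V x : ℂ)) := by
  have h3 : IntegrableOn (fun x => (V x : ℂ)) (closedBall 0 R) := by
    refine Measure.integrableOn_of_bounded (M := M) ?_ ?_ ?_
    · exact (isCompact_closedBall 0 R).measure_ne_top
    · exact (Complex.measurable_ofReal.comp hV).aestronglyMeasurable
    · refine Eventually.of_forall fun x => ?_
      rw [Complex.norm_real, Real.norm_eq_abs]
      exact hM x
  refine (integrableOn_iff_integrable_of_support_subset ?_).mp h3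
  intro x hx
  by_contra hxR
  rw [mem_closedBall, dist_zero_right, not_le] at hxR
  exact hx (by simp [hR x hxR])

theorem H20_fourier {q : ℕ} {V W : En q → ℝ} (hV : Integrable (fun x => (V x : ℂ)))
    (hW : Integrable (fun x => (W x : ℂ))) (a b : ℝ) (ξ : En q) :
    FourierTransform.fourier (fun x => ((a * V x + b * W x : ℝ) : ℂ)) ξ =
      (a : ℂ) * FourierTransform.fourier (fun x => (V x : ℂ)) ξ +
        (b : ℂ) * FourierTransform.fourier (fun x => (W x : ℂ)) ξ := by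
  have h1 : (fun x => ((a * V x + b * W x : ℝ) : ℂ)) =
      (a : ℂ) • (fun x => (V x : ℂ)) + (b : ℂ) • (fun x => (W x : ℂ)) := by
    funext x
    simp
  have h2 := VectorFourier.fourierIntegral_add (e := Real.fourierChar) (μ := volume)
    (L := innerₗ (En q)) Real.continuous_fourierChar
    (by exact continuous_inner) (hV.smul (a : ℂ)) (hW.smul (b : ℂ))
  rw [VectorFourier.fourierIntegral_const_smul, VectorFourier.fourierIntegral_const_smul] at h2
  rw [h1]
  have h3 := congrFun h2 ξ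
  exact h3

theorem H20_norm (u v : ℂ) (g : ℝ) : ‖u + g * v‖ ^ 2 =
    ‖u‖ ^ 2 + g * (‖u + v‖ ^ 2 - ‖u‖ ^ 2 - ‖v‖ ^ 2) + g ^ 2 * ‖v‖ ^ 2 := by
  simp only [← Complex.normSq_eq_norm_sq, Complex.normSq_apply, Complex.add_re, Complex.add_im,
    Complex.mul_re, Complex.mul_im, Complex.ofReal_re, Complex.ofReal_im]
  ring

/-- Integrability of the integrand of `RR`. -/
theorem H20_int {q : ℕ} (hq : 1 ≤ q) {V : En q → ℝ} (hV : Measurable V) {M R : ℝ}
    (hM : ∀ x, |V x| ≤ M) (hR : ∀ x, R < ‖x‖ → V x = 0) {j : ℕ} (hj : j ≤ q)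
    (hHS : HS q V (2 * j)) {e : ℝ} (he : 0 < e) :
    Integrable (fun z : (Fin 1 → En q) × En q => km q 1 z.1 *
      ‖FourierTransform.fourier (fun x => (V x : ℂ)) z.2‖ ^ 2 * rho j (Real.sqrt e * XX z))
      ((volume : Measure (Fin 1 → En q)).prod (volume : Measure (En q))) := by
  obtain ⟨hk0, -, hkint, -, -⟩ := f_km q 1 hq le_rfl
  obtain ⟨-, -, hFc, -⟩ := planchV q V hV M R hM hR
  set W : En q → ℝ := fun ξ => ‖FourierTransform.fourier (fun x => (V x : ℂ)) ξ‖ ^ 2 with hWdef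
  have hWc : Continuous W := (hFc.norm).pow 2
  have hW0 : ∀ ξ, 0 ≤ W ξ := fun ξ => by positivity
  have hkm : AEStronglyMeasurable (km q 1) := by
    have h1 : AEStronglyMeasurable (fun y : Fin 1 → En q => ((1 + ‖y‖) ^ (2 * q))⁻¹ *
        ((1 + ‖y‖) ^ (2 * q) * km q 1 y)) := by
      refine AEStronglyMeasurable.mul ?_ hkint.aestronglyMeasurable
      refine Continuous.aestronglyMeasurable (Continuous.inv₀ (by fun_prop) fun y => ?_)
      have : 0 < 1 + ‖y‖ := by linarith [norm_nonneg y]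
      positivity
    refine h1.congr (Eventually.of_forall fun y => ?_)
    have : 0 < 1 + ‖y‖ := by linarith [norm_nonneg y]
    show ((1 + ‖y‖) ^ (2 * q))⁻¹ * ((1 + ‖y‖) ^ (2 * q) * km q 1 y) = km q 1 y
    field_simp
  have hWij : Integrable (fun ξ : En q => ‖ξ‖ ^ (2 * j) * W ξ) := by
    refine hHS.congr (Eventually.of_forall fun ξ => ?_)
    show ‖ξ‖ ^ (2 * (j : ℝ)) * W ξ = ‖ξ‖ ^ (2 * j) * W ξ
    rw [← Real.rpow_natCast]
    push_cast
    rfl
  refine int_main (c := 2 * e ^ j) hkint hk0 hkm hWc hW0 (show 2 * j ≤ 2 * q by omega) hWij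
    ((rho_cont j).comp (XX_cont.const_mul _)) fun z => ?_
  rw [abs_of_nonneg (rho_nonneg cosEnv _ _)]
  refine (rho_le2 cosEnv j _).trans (le_of_eq ?_)
  rw [mul_pow, pow_mul (Real.sqrt e), Real.sq_sqrt he.le, pow_mul |XX z|, sq_abs, ← pow_mul]
  ring

theorem H20_HS {q : ℕ} {V W : En q → ℝ} (hV : Measurable V) (hW : Measurable W) {M R : ℝ}
    (hVM : ∀ x, |V x| ≤ M) (hWM : ∀ x, |W x| ≤ M) (hVR : ∀ x, R < ‖x‖ → V x = 0)
    (hWR : ∀ x, R < ‖x‖ → W x = 0) (a b s : ℝ) (h1 : HS q V s) (h2 : HS q W s) :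
    HS q (fun x => a * V x + b * W x) s := by
  have hVi := H20_integrable hV hVM hVR
  have hWi := H20_integrable hW hWM hWR
  obtain ⟨-, -, hF, -⟩ := planchV q V hV M R hVM hVR
  obtain ⟨-, -, hG, -⟩ := planchV q W hW M R hWM hWR
  unfold HS at h1 h2 ⊢
  refine ((h1.const_mul (2 * a ^ 2)).add (h2.const_mul (2 * b ^ 2))).mono' ?_
    (Eventually.of_forall fun ξ => ?_)
  · have h3 : Measurable (fun ξ : En q => ‖ξ‖ ^ s) := measurable_norm.pow_const s
    have h4 : Continuous (fun ξ : En q => ‖FourierTransform.fourier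
        (fun x => ((a * V x + b * W x : ℝ) : ℂ)) ξ‖ ^ 2) := by
      simp_rw [H20_fourier hVi hWi a b]
      exact ((continuous_const.mul hF).add (continuous_const.mul hG)).norm.pow 2
    exact (h3.mul h4.measurable).aestronglyMeasurable
  · rw [H20_fourier hVi hWi a b, Pi.add_apply]
    set u := FourierTransform.fourier (fun x => (V x : ℂ)) ξ
    set v := FourierTransform.fourier (fun x => (W x : ℂ)) ξ
    have h5 : 0 ≤ ‖ξ‖ ^ s := Real.rpow_nonneg (norm_nonneg _) _
    rw [Real.norm_of_nonneg (by positivity)]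
    have h6 : ‖(a : ℂ) * u + (b : ℂ) * v‖ ^ 2 ≤ 2 * a ^ 2 * ‖u‖ ^ 2 + 2 * b ^ 2 * ‖v‖ ^ 2 := by
      have h7 : ‖(a : ℂ) * u + (b : ℂ) * v‖ ≤ |a| * ‖u‖ + |b| * ‖v‖ := by
        refine (norm_add_le _ _).trans (le_of_eq ?_)
        rw [norm_mul, norm_mul, Complex.norm_real, Complex.norm_real, Real.norm_eq_abs,
          Real.norm_eq_abs]
      have h8 : ‖(a : ℂ) * u + (b : ℂ) * v‖ ^ 2 ≤ (|a| * ‖u‖ + |b| * ‖v‖) ^ 2 :=
        pow_le_pow_left₀ (norm_nonneg _) h7 2
      have h9 : (|a| * ‖u‖ + |b| * ‖v‖) ^ 2 ≤ 2 * (|a| * ‖u‖) ^ 2 + 2 * (|b| * ‖v‖) ^ 2 := by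
        nlinarith [sq_nonneg (|a| * ‖u‖ - |b| * ‖v‖)]
      rw [mul_pow, mul_pow, sq_abs, sq_abs] at h9
      linarith
    calc ‖ξ‖ ^ s * ‖(a : ℂ) * u + (b : ℂ) * v‖ ^ 2 ≤
        ‖ξ‖ ^ s * (2 * a ^ 2 * ‖u‖ ^ 2 + 2 * b ^ 2 * ‖v‖ ^ 2) :=
          mul_le_mul_of_nonneg_left h6 h5
      _ = _ := by ring

/-- Item H20. -/
theorem rrQuad : RRQuad := by
  intro q hq V W hV hW M R hVM hWM hVR hWR
  refine ⟨H20_HS hV hW hVM hWM hVR hWR, ?_⟩
  intro j hj h1 h2 e he
  have hVi := H20_integrable hV hVM hVR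
  have hWi := H20_integrable hW hWM hWR
  have hS : HS q (fun x => 1 * V x + 1 * W x) (2 * j) :=
    H20_HS hV hW hVM hWM hVR hWR 1 1 _ h1 h2
  have hSM : ∀ x, |1 * V x + 1 * W x| ≤ M + M := fun x => by
    rw [one_mul, one_mul]
    exact (abs_add_le _ _).trans (add_le_add (hVM x) (hWM x))
  have hSR : ∀ x, R < ‖x‖ → 1 * V x + 1 * W x = 0 := fun x hx => by
    rw [hVR x hx, hWR x hx]; ring
  have i1 := H20_int hq hV hVM hVR hj h1 he
  have i2 := H20_int hq hW hWM hWR hj h2 he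
  have i3 := H20_int (V := fun x => 1 * V x + 1 * W x) hq
    ((measurable_const.mul hV).add (measurable_const.mul hW)) hSM hSR hj hS he
  refine ⟨RR q (fun x => 1 * V x + 1 * W x) j e - RR q V j e - RR q W j e, fun g => ?_⟩
  have hg : (fun x => V x + g * W x) = fun x => 1 * V x + g * W x := by
    funext x
    rw [one_mul]
  rw [hg]
  unfold RR
  set f1 : (Fin 1 → En q) × En q → ℝ := fun z => km q 1 z.1 *
      ‖FourierTransform.fourier (fun x => (V x : ℂ)) z.2‖ ^ 2 * rho j (Real.sqrt e * XX z) with hf1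
  set f2 : (Fin 1 → En q) × En q → ℝ := fun z => km q 1 z.1 *
      ‖FourierTransform.fourier (fun x => (W x : ℂ)) z.2‖ ^ 2 * rho j (Real.sqrt e * XX z) with hf2
  set f3 : (Fin 1 → En q) × En q → ℝ := fun z => km q 1 z.1 *
      ‖FourierTransform.fourier (fun x => ((1 * V x + 1 * W x : ℝ) : ℂ)) z.2‖ ^ 2 *
        rho j (Real.sqrt e * XX z) with hf3
  have j1 : Integrable (fun z => f3 z - f1 z) ((volume : Measure (Fin 1 → En q)).prod
      (volume : Measure (En q))) := i3.sub i1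
  have j2 : Integrable (fun z => f3 z - f1 z - f2 z) ((volume : Measure (Fin 1 → En q)).prod
      (volume : Measure (En q))) := j1.sub i2
  have j3 : Integrable (fun z => g * (f3 z - f1 z - f2 z)) ((volume : Measure (Fin 1 → En q)).prod
      (volume : Measure (En q))) := j2.const_mul g
  have j4 : Integrable (fun z => f1 z + g * (f3 z - f1 z - f2 z))
      ((volume : Measure (Fin 1 → En q)).prod (volume : Measure (En q))) := i1.add j3
  have j5 : Integrable (fun z => g ^ 2 * f2 z)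
      ((volume : Measure (Fin 1 → En q)).prod (volume : Measure (En q))) := i2.const_mul _
  have key : ∀ z : (Fin 1 → En q) × En q, km q 1 z.1 *
      ‖FourierTransform.fourier (fun x => ((1 * V x + g * W x : ℝ) : ℂ)) z.2‖ ^ 2 *
        rho j (Real.sqrt e * XX z) = f1 z + g * (f3 z - f1 z - f2 z) + g ^ 2 * f2 z := by
    intro z
    have e1 := H20_fourier hVi hWi 1 g z.2
    have e2 := H20_fourier hVi hWi 1 1 z.2
    rw [hf1, hf2, hf3]
    show km q 1 z.1 * ‖FourierTransform.fourier (fun x => ((1 * V x + g * W x : ℝ) : ℂ)) z.2‖ ^ 2 *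
        rho j (Real.sqrt e * XX z) = km q 1 z.1 *
      ‖FourierTransform.fourier (fun x => (V x : ℂ)) z.2‖ ^ 2 * rho j (Real.sqrt e * XX z) +
      g * (km q 1 z.1 * ‖FourierTransform.fourier
        (fun x => ((1 * V x + 1 * W x : ℝ) : ℂ)) z.2‖ ^ 2 * rho j (Real.sqrt e * XX z) -
        km q 1 z.1 * ‖FourierTransform.fourier (fun x => (V x : ℂ)) z.2‖ ^ 2 *
          rho j (Real.sqrt e * XX z) -
        km q 1 z.1 * ‖FourierTransform.fourier (fun x => (W x : ℂ)) z.2‖ ^ 2 *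
          rho j (Real.sqrt e * XX z)) +
      g ^ 2 * (km q 1 z.1 * ‖FourierTransform.fourier (fun x => (W x : ℂ)) z.2‖ ^ 2 *
          rho j (Real.sqrt e * XX z))
    rw [e1, e2, Complex.ofReal_one, one_mul, one_mul, H20_norm]
    ring
  simp_rw [key]
  rw [integral_add j4 j5, integral_add i1 j3, integral_const_mul, integral_const_mul,
    integral_sub j1 i2, integral_sub i3 i1]

end Pool.Agent.Work.MP_f2af60_mp

end
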