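import Pool.Agent.Work.MP_f2af60_mp.Bd.B09
import Pool.Agent.Work.MP_f2af60_mp.GPoleFinal

/-! Bundle of small proof modules (one section per former module). -/

section

/-!
# MP_f2af60_mp, item H5: the series `TT` is analytic in the coupling
-/

namespace Pool.Agent.Work.MP_f2af60_mp

open MeasureTheory Metric Filter Topology

/-- The points of the chain. -/
noncomputable def HTA_z (q m : ℕ) (s : ℝ) (p : (Fin m → En q) × En q) : Fin (m + 1) → En q :=
  Fin.cons p.2 (fun i => p.2 + s • p.1 i)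

lemma HTA_z_meas (q m : ℕ) (s : ℝ) (i : Fin (m + 1)) :
    Measurable (fun p : (Fin m → En q) × En q => HTA_z q m s p i) := by
  refine Fin.cases ?_ (fun j => ?_) i
  · simp only [HTA_z, Fin.cons_zero]
    exact measurable_snd
  · simp only [HTA_z, Fin.cons_succ]
    exact measurable_snd.add (((measurable_pi_apply j).comp measurable_fst).const_smul s)

/-- The integrand of the multilinear form. -/
noncomputable def HTA_f (q m : ℕ) (s : ℝ) (v : Fin (m + 1) → En q → ℂ)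
    (p : (Fin m → En q) × En q) : ℂ :=
  (km q m p.1 : ℂ) * ∏ i, v i (HTA_z q m s p i)

/-- The multilinear form. -/
noncomputable def HTA_P (q m : ℕ) (s : ℝ) (v : Fin (m + 1) → En q → ℂ) : ℂ :=
  ∫ p, HTA_f q m s v p ∂((volume : Measure (Fin m → En q)).prod (volume : Measure (En q)))

/-- The indicator of the ball. -/
noncomputable def HTA_chi (q : ℕ) (R : ℝ) : En q → ℝ :=
  Set.indicator (closedBall (0 : En q) R) (fun _ => 1)

lemma HTA_chi_int (q : ℕ) (R : ℝ) : Integrable (HTA_chi q R) := by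
  unfold HTA_chi
  rw [integrable_indicator_iff isClosed_closedBall.measurableSet]
  exact integrableOn_const (isCompact_closedBall (0 : En q) R).measure_ne_top

lemma HTA_chi_integral (q : ℕ) (R : ℝ) :
    ∫ x, HTA_chi q R x = volume.real (closedBall (0 : En q) R) := by
  unfold HTA_chi
  rw [integral_indicator isClosed_closedBall.measurableSet]
  simp

lemma HTA_bd {q m : ℕ} {s : ℝ} {v : Fin (m + 1) → En q → ℂ} {M : ℝ} {R : ℝ}
    (hM : ∀ i x, ‖v i x‖ ≤ M) (h0 : ∀ x, R < ‖x‖ → v 0 x = 0) (hkm : ∀ y, 0 ≤ km q m y)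
    (p : (Fin m → En q) × En q) :
    ‖HTA_f q m s v p‖ ≤ (km q m p.1 * HTA_chi q R p.2) * M ^ (m + 1) := by
  have hprod : ‖∏ i, v i (HTA_z q m s p i)‖ ≤ M ^ (m + 1) := by
    rw [norm_prod]
    calc ∏ i, ‖v i (HTA_z q m s p i)‖ ≤ ∏ _i : Fin (m + 1), M :=
          Finset.prod_le_prod (fun i _ => norm_nonneg _) (fun i _ => hM i _)
      _ = M ^ (m + 1) := by simp
  unfold HTA_f
  rw [norm_mul, Complex.norm_real, Real.norm_of_nonneg (hkm _)]
  by_cases hx : p.2 ∈ closedBall (0 : En q) R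
  · have : HTA_chi q R p.2 = 1 := by unfold HTA_chi; rw [Set.indicator_of_mem hx]
    rw [this, mul_one]
    exact mul_le_mul_of_nonneg_left hprod (hkm _)
  · have h1 : HTA_chi q R p.2 = 0 := by unfold HTA_chi; rw [Set.indicator_of_notMem hx]
    have h2 : R < ‖p.2‖ := by simpa using hx
    have h3 : ∏ i, v i (HTA_z q m s p i) = 0 := by
      refine Finset.prod_eq_zero (Finset.mem_univ 0) ?_
      simpa [HTA_z] using h0 _ h2
    rw [h1, h3]
    simp

lemma HTA_f_meas {q m : ℕ} {s : ℝ} {v : Fin (m + 1) → En q → ℂ} (hk : Integrable (km q m))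
    (hv : ∀ i, Measurable (v i)) : AEStronglyMeasurable (HTA_f q m s v)
      ((volume : Measure (Fin m → En q)).prod (volume : Measure (En q))) := by
  unfold HTA_f
  refine AEStronglyMeasurable.mul ?_ ?_
  · have : AEStronglyMeasurable (fun y => (km q m y : ℂ)) volume :=
      Complex.continuous_ofReal.comp_aestronglyMeasurable hk.aestronglyMeasurable
    exact this.comp_fst
  · refine (Finset.measurable_prod _ fun i _ => ?_).aestronglyMeasurable
    exact (hv i).comp (HTA_z_meas q m s i)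

lemma HTA_f_int {q m : ℕ} {s : ℝ} {v : Fin (m + 1) → En q → ℂ} {M : ℝ} {R : ℝ}
    (hk : Integrable (km q m)) (hkm : ∀ y, 0 ≤ km q m y) (hv : ∀ i, Measurable (v i))
    (hM : ∀ i x, ‖v i x‖ ≤ M) (h0 : ∀ x, R < ‖x‖ → v 0 x = 0) :
    Integrable (HTA_f q m s v)
      ((volume : Measure (Fin m → En q)).prod (volume : Measure (En q))) :=
  ((hk.mul_prod (HTA_chi_int q R)).mul_const (M ^ (m + 1))).mono' (HTA_f_meas hk hv)
    (Eventually.of_forall fun p => HTA_bd hM h0 hkm p)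

lemma HTA_P_bd {q m : ℕ} {s : ℝ} {v : Fin (m + 1) → En q → ℂ} {M : ℝ} {R : ℝ}
    (hk : Integrable (km q m)) (hkm : ∀ y, 0 ≤ km q m y)
    (hM : ∀ i x, ‖v i x‖ ≤ M) (h0 : ∀ x, R < ‖x‖ → v 0 x = 0) :
    ‖HTA_P q m s v‖ ≤ (∫ y, km q m y) * volume.real (closedBall (0 : En q) R) * M ^ (m + 1) := by
  unfold HTA_P
  have h := norm_integral_le_of_norm_le
    ((hk.mul_prod (HTA_chi_int q R)).mul_const (M ^ (m + 1)))
    (Eventually.of_forall fun p => HTA_bd (s := s) hM h0 hkm p)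
  refine h.trans (le_of_eq ?_)
  rw [integral_mul_const, integral_prod_mul, HTA_chi_integral]

lemma HTA_Phi {q m : ℕ} {e M R : ℝ} {U : En q → ℝ} (hk : Integrable (km q m))
    (hkm : ∀ y, 0 ≤ km q m y) (hU : Measurable U) (hM : ∀ x, |U x| ≤ M)
    (h0 : ∀ x, R < ‖x‖ → U x = 0) :
    ((Phi q U m e : ℝ) : ℂ) = HTA_P q m (Real.sqrt e) (fun _ x => (U x : ℂ)) := by
  have hint := HTA_f_int (s := Real.sqrt e) (v := fun _ x => (U x : ℂ)) (M := M) (R := R) hk hkm
    (fun _ => Complex.measurable_ofReal.comp hU)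
    (fun _ x => by rw [Complex.norm_real]; exact hM x) (fun x hx => by simp [h0 x hx])
  unfold HTA_P
  rw [integral_prod _ hint]
  unfold Phi MM
  rw [← integral_complex_ofReal]
  refine integral_congr_ae (Eventually.of_forall fun y => ?_)
  simp only
  rw [Complex.ofReal_mul, ← integral_complex_ofReal, ← integral_const_mul]
  refine integral_congr_ae (Eventually.of_forall fun x => ?_)
  simp only [HTA_f, HTA_z]
  rw [Fin.prod_univ_succ]
  simp only [Fin.cons_zero, Fin.cons_succ]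
  push_cast
  ring

/-- The line of potentials, complexified. -/
noncomputable def HTA_L (q m : ℕ) (V W : En q → ℝ) (g : ℂ) : Fin (m + 1) → En q → ℂ :=
  fun _ x => (V x : ℂ) + g * (W x : ℂ)

lemma HTA_P_diff {q m : ℕ} {s MV MW R : ℝ} {V W : En q → ℝ} (hk : Integrable (km q m))
    (hkm : ∀ y, 0 ≤ km q m y) (hV : Measurable V) (hW : Measurable W) (hMV : ∀ x, |V x| ≤ MV)
    (hMW : ∀ x, |W x| ≤ MW) (hV0 : ∀ x, R < ‖x‖ → V x = 0) (hW0 : ∀ x, R < ‖x‖ → W x = 0) :
    Differentiable ℂ (fun g => HTA_P q m s (HTA_L q m V W g)) := by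
  classical
  have key : ∀ g : ℂ, HTA_P q m s (HTA_L q m V W g) =
      ∑ t ∈ (Finset.univ : Finset (Fin (m + 1))).powerset,
        g ^ (Finset.univ \ t).card *
          HTA_P q m s (fun i x => if i ∈ t then (V x : ℂ) else (W x : ℂ)) := by
    intro g
    unfold HTA_P
    have e : ∀ p, HTA_f q m s (HTA_L q m V W g) p =
        ∑ t ∈ (Finset.univ : Finset (Fin (m + 1))).powerset,
          g ^ (Finset.univ \ t).card *
            HTA_f q m s (fun i x => if i ∈ t then (V x : ℂ) else (W x : ℂ)) p := by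
      intro p
      unfold HTA_f HTA_L
      rw [Finset.prod_add, Finset.mul_sum]
      refine Finset.sum_congr rfl fun t _ => ?_
      rw [Finset.prod_mul_distrib, Finset.prod_const]
      have e1 : ∏ i, (if i ∈ t then (V (HTA_z q m s p i) : ℂ) else (W (HTA_z q m s p i) : ℂ)) =
          (∏ i ∈ t, (V (HTA_z q m s p i) : ℂ)) *
            ∏ i ∈ Finset.univ \ t, (W (HTA_z q m s p i) : ℂ) := by
        rw [← Finset.prod_sdiff (Finset.subset_univ t), mul_comm]
        congr 1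
        · exact Finset.prod_congr rfl fun i hi => by rw [if_pos hi]
        · exact Finset.prod_congr rfl fun i hi => by
            rw [if_neg (Finset.mem_sdiff.1 hi).2]
      rw [e1]
      ring
    simp_rw [e]
    rw [integral_finsetSum]
    · refine Finset.sum_congr rfl fun t _ => ?_
      rw [integral_const_mul]
    · intro t _
      refine Integrable.const_mul ?_ _
      refine HTA_f_int (M := max MV MW) (R := R) hk hkm ?_ ?_ ?_
      · intro i
        by_cases hi : i ∈ t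
        · simp only [hi, if_true]
          exact Complex.measurable_ofReal.comp hV
        · simp only [hi, if_false]
          exact Complex.measurable_ofReal.comp hW
      · intro i x
        by_cases hi : i ∈ t
        · simp only [hi, if_true, Complex.norm_real]
          exact (hMV x).trans (le_max_left _ _)
        · simp only [hi, if_false, Complex.norm_real]
          exact (hMW x).trans (le_max_right _ _)
      · intro x hx
        simp [hV0 x hx, hW0 x hx]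
  have : (fun g => HTA_P q m s (HTA_L q m V W g)) = fun g =>
      ∑ t ∈ (Finset.univ : Finset (Fin (m + 1))).powerset,
        g ^ (Finset.univ \ t).card *
          HTA_P q m s (fun i x => if i ∈ t then (V x : ℂ) else (W x : ℂ)) := funext key
  rw [this]
  fun_prop

/-- The complexified series. -/
noncomputable def HTA_F (q : ℕ) (V W : En q → ℝ) (E : ℝ) (k : ℕ) (g : ℂ) : ℂ :=
  (-1) ^ (k + 1) * (((E ^ ((q : ℝ) - 1 / 2 - ((k + 1 : ℕ) : ℝ)) : ℝ) : ℂ) *
    HTA_P q (k + 1) (Real.sqrt E⁻¹) (HTA_L q (k + 1) V W g))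

/-- Item H5. -/
theorem ttAnalytic (h1 : KmMass) (_h3 : PhiBd) : TTAnalytic := by
  intro q hq V W hV hW MV MW R hMV hMW hV0 hW0 E hE g0 hg0
  obtain ⟨⟨C, hC⟩, -⟩ := h1 q hq
  have hkm : ∀ m, 1 ≤ m → ∀ y, 0 ≤ km q m y := fun m hm => (f_km q m hq hm).1
  have hMV0 : 0 ≤ MV := (abs_nonneg _).trans (hMV 0)
  have hMW0 : 0 ≤ MW := (abs_nonneg _).trans (hMW 0)
  have hg : MV + |g0| * MW < E := hg0
  have hC0 : 0 ≤ C := ((hC 1 le_rfl).2.1.le).trans (hC 1 le_rfl).2.2
  set vol := volume.real (closedBall (0 : En q) R) with hvol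
  have hvol0 : 0 ≤ vol := measureReal_nonneg
  obtain ⟨E', hE'1, hE'2⟩ := exists_between hg
  have hE'0 : 0 ≤ E' := by
    have : 0 ≤ |g0| * MW := mul_nonneg (abs_nonneg _) hMW0
    linarith
  -- the real function is the real part of the complex one
  have hreal : ∀ g : ℝ, TT q (fun x => V x + g * W x) E =
      (∑' k : ℕ, HTA_F q V W E k (g : ℂ)).re := by
    intro g
    have e : ∀ k : ℕ, HTA_F q V W E k (g : ℂ) =
        (((-1) ^ (k + 1) * (E ^ ((q : ℝ) - 1 / 2 - ((k + 1 : ℕ) : ℝ)) *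
          Phi q (fun x => V x + g * W x) (k + 1) E⁻¹) : ℝ) : ℂ) := by
      intro k
      have e1 := HTA_Phi (q := q) (m := k + 1) (e := E⁻¹) (M := MV + |g| * MW) (R := R)
        (U := fun x => V x + g * W x) (hC (k + 1) (by omega)).1 (hkm (k + 1) (by omega))
        (hV.add (hW.const_mul g))
        (fun x => (abs_add_le _ _).trans (add_le_add (hMV x) (by
          rw [abs_mul]; exact mul_le_mul_of_nonneg_left (hMW x) (abs_nonneg _))))
        (fun x hx => by simp [hV0 x hx, hW0 x hx])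
      rw [Complex.ofReal_mul, Complex.ofReal_mul, e1]
      unfold HTA_F HTA_L
      push_cast
      rfl
    simp_rw [e]
    rw [← Complex.ofReal_tsum, Complex.ofReal_re]
    rfl
  have hfun : (fun g : ℝ => TT q (fun x => V x + g * W x) E) =
      fun g : ℝ => (∑' k : ℕ, HTA_F q V W E k (g : ℂ)).re := funext hreal
  rw [hfun]
  refine AnalyticAt.re_ofReal (f := fun g : ℂ => ∑' k : ℕ, HTA_F q V W E k g) ?_
  set U : Set ℂ := {g : ℂ | MV + ‖g‖ * MW < E'} with hU
  have hUo : IsOpen U := by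
    have : Continuous fun g : ℂ => MV + ‖g‖ * MW := by fun_prop
    exact isOpen_lt this continuous_const
  have hgU : (g0 : ℂ) ∈ U := by
    change MV + ‖(g0 : ℂ)‖ * MW < E'
    rw [Complex.norm_real]
    exact hE'1
  refine DifferentiableOn.analyticAt (s := U) ?_ (hUo.mem_nhds hgU)
  have hsum : Summable (fun k : ℕ => (E ^ ((q : ℝ) - 1 / 2 - 1) * (C * vol) * E' ^ 2) *
      (E' / E) ^ k) :=
    (summable_geometric_of_lt_one (by positivity) ((div_lt_one hE).2 hE'2)).mul_left _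
  refine Complex.differentiableOn_tsum_of_summable_norm hsum ?_ hUo ?_
  · intro k
    have := HTA_P_diff (q := q) (m := k + 1) (s := Real.sqrt E⁻¹) (hC (k + 1) (by omega)).1
      (hkm (k + 1) (by omega)) hV hW hMV hMW hV0 hW0
    unfold HTA_F
    exact ((this.const_mul _).const_mul _).differentiableOn
  · intro k g hgk
    have hgk' : MV + ‖g‖ * MW < E' := hgk
    have hb := HTA_P_bd (q := q) (m := k + 1) (s := Real.sqrt E⁻¹) (M := E') (R := R)
      (v := HTA_L q (k + 1) V W g) (hC (k + 1) (by omega)).1 (hkm (k + 1) (by omega))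
      (fun i x => by
        unfold HTA_L
        refine (norm_add_le _ _).trans (le_trans ?_ hgk'.le)
        rw [norm_mul, Complex.norm_real, Complex.norm_real]
        exact add_le_add (hMV x) (mul_le_mul_of_nonneg_left (hMW x) (norm_nonneg _)))
      (fun x hx => by unfold HTA_L; simp [hV0 x hx, hW0 x hx])
    unfold HTA_F
    rw [norm_mul, norm_pow, norm_neg, norm_one, one_pow, one_mul, norm_mul, Complex.norm_real,
      Real.norm_of_nonneg (by positivity)]
    have hb2 : ‖HTA_P q (k + 1) (Real.sqrt E⁻¹) (HTA_L q (k + 1) V W g)‖ ≤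
        C * vol * E' ^ (k + 1 + 1) := by
      refine hb.trans ?_
      refine mul_le_mul_of_nonneg_right ?_ (by positivity)
      exact mul_le_mul_of_nonneg_right (hC (k + 1) (by omega)).2.2 hvol0
    refine (mul_le_mul_of_nonneg_left hb2 (by positivity)).trans (le_of_eq ?_)
    have e1 : E ^ ((q : ℝ) - 1 / 2 - ((k + 1 : ℕ) : ℝ)) =
        E ^ ((q : ℝ) - 1 / 2 - 1) / E ^ k := by
      rw [← Real.rpow_natCast, ← Real.rpow_sub hE]
      congr 1
      push_cast
      ring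
    rw [e1, div_pow]
    ring

end Pool.Agent.Work.MP_f2af60_mp

end

section

/-!
# MP_f2af60_mp, H9: the closed chains as traces
-/

namespace Pool.Agent.Work.MP_f2af60_mp

open MeasureTheory Metric Filter Topology
open scoped ENNReal

namespace TrPowAux

open ChainRepAux

section Abstract

variable {K : Type*} [MeasurableSpace K] {V : K → ℝ} {a b : K → K → ℂ}
  {μ : Measure K} [SigmaFinite μ]

/-- The total mass of the open chains. -/
noncomputable def lc (V : K → ℝ) (a b : K → K → ℂ) (μ : Measure K) (m : ℕ) (x y : K) : ℝ≥0∞ :=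
  ∫⁻ z : Fin m → K, ‖oc V a b m x z y‖ₑ ∂(Measure.pi fun _ => μ)

omit [SigmaFinite μ] in
theorem lc_zero (x y : K) : lc V a b μ 0 x y = ‖b x y‖ₑ := by
  simp [lc, oc]

theorem lc_succ (hV : Measurable V) (ha : Measurable (Function.uncurry a))
    (hb : Measurable (Function.uncurry b)) (m : ℕ) (x y : K) :
    lc V a b μ (m + 1) x y = ∫⁻ z0, ‖a x z0‖ₑ * ‖(V z0 : ℂ)‖ₑ * lc V a b μ m z0 y ∂μ := by
  have hoc := oc_meas hV ha hb m
  have hoc' := oc_meas hV ha hb (m + 1)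
  rw [lc, lint_cons]
  · refine lintegral_congr fun z0 => ?_
    simp only [oc, Fin.cons_zero, Fin.cons_succ, enorm_mul]
    rw [lintegral_const_mul]
    · rfl
    exact (hoc.comp (measurable_const.prodMk (measurable_id.prodMk measurable_const))).enorm
  · exact (hoc'.comp (measurable_const.prodMk (measurable_id.prodMk measurable_const))).enorm

/-- The iterated kernels are integrals of open chains, for every starting point. -/
theorem kk_eq_all (hV : Measurable V) (ha : Measurable (Function.uncurry a))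
    (hb : Measurable (Function.uncurry b)) {A M : ℝ≥0∞} (hA : A < ∞) (hM : M < ∞)
    (hVM : ∀ x, ‖(V x : ℂ)‖ₑ ≤ M) (haA : ∀ z, ∫⁻ x, ‖a x z‖ₑ ∂μ ≤ A)
    (hbA : ∀ y, ∫⁻ x, ‖b x y‖ₑ ∂μ ≤ A) (k : ℕ → K → K → ℂ) (h0 : ∀ x y, k 0 x y = b x y)
    (hk : ∀ m x y, k (m + 1) x y = ∫ z, a x z * (V z : ℂ) * k m z y ∂μ) (m : ℕ)
    (hfin : ∀ x y, lc V a b μ m x y < ∞) (x y : K) :
    k m x y = ∫ z : Fin m → K, oc V a b m x z y ∂(Measure.pi fun _ => μ) := by
  cases m with
  | zero =>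
    rw [h0]
    exact (int_zero (fun z : Fin 0 → K => oc V a b 0 x z y) (b x y) (fun z => rfl)).symm
  | succ m =>
    have hoc := oc_meas hV ha hb (m + 1)
    have hmx : Measurable (fun z : Fin (m + 1) → K => oc V a b (m + 1) x z y) :=
      hoc.comp (measurable_const.prodMk (measurable_id.prodMk measurable_const))
    rw [int_cons _ (integrable_of_lint _ hmx (hfin x y)), hk]
    refine integral_congr_ae ?_
    filter_upwards [kk_eq (μ := μ) hV ha hb hA hM hVM haA hbA k h0 hk y m] with z0 hz0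
    simp only [oc, Fin.cons_zero, Fin.cons_succ]
    rw [integral_const_mul, hz0]

/-- Closing the chains. -/
theorem closed [IsFiniteMeasure μ] (hV : Measurable V) (ha : Measurable (Function.uncurry a))
    (hb : Measurable (Function.uncurry b)) {M B : ℝ≥0∞} (hM : M < ∞) (hB : B < ∞)
    (hVM : ∀ x, ‖(V x : ℂ)‖ₑ ≤ M) (m : ℕ) (hBy : ∀ x y, lc V a b μ m x y ≤ B)
    (d : K → K → ℂ)
    (hd : ∀ x y, d x y = ∫ z : Fin m → K, oc V a b m x z y ∂(Measure.pi fun _ => μ)) :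
    Integrable (fun x : Fin (m + 1) → K => (V (x 0) : ℂ) *
      oc V a b m (x 0) (fun i => x i.succ) (x 0)) (Measure.pi fun _ => μ) ∧
    ∫ y, (V y : ℂ) * d y y ∂μ = ∫ x : Fin (m + 1) → K, (V (x 0) : ℂ) *
      oc V a b m (x 0) (fun i => x i.succ) (x 0) ∂(Measure.pi fun _ => μ) := by
  have hoc := oc_meas hV ha hb m
  have z0m : Measurable (fun z : Fin (m + 1) → K => z 0) := measurable_pi_apply 0
  have ztm : Measurable (fun z : Fin (m + 1) → K => (fun i : Fin m => z i.succ)) :=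
    measurable_pi_lambda _ (fun i => measurable_pi_apply i.succ)
  have p1 : Measurable (fun x : Fin (m + 1) → K => (V (x 0) : ℂ) *
      oc V a b m (x 0) (fun i => x i.succ) (x 0)) :=
    (Complex.measurable_ofReal.comp (hV.comp z0m)).mul
      (hoc.comp (z0m.prodMk (ztm.prodMk z0m)))
  have i1 : Integrable (fun x : Fin (m + 1) → K => (V (x 0) : ℂ) *
      oc V a b m (x 0) (fun i => x i.succ) (x 0)) (Measure.pi fun _ => μ) := by
    refine integrable_of_lint _ p1 ?_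
    rw [lint_cons _ p1.enorm]
    calc ∫⁻ z0, ∫⁻ z : Fin m → K, ‖(V ((Fin.cons z0 z : Fin (m + 1) → K) 0) : ℂ) *
          oc V a b m ((Fin.cons z0 z : Fin (m + 1) → K) 0)
            (fun i => (Fin.cons z0 z : Fin (m + 1) → K) i.succ)
            ((Fin.cons z0 z : Fin (m + 1) → K) 0)‖ₑ ∂(Measure.pi fun _ => μ) ∂μ
        ≤ ∫⁻ z0, M * B ∂μ := by
          refine lintegral_mono fun z0 => ?_
          simp only [Fin.cons_zero, Fin.cons_succ, enorm_mul]
          have m1 : Measurable (fun z : Fin m → K => ‖oc V a b m z0 z z0‖ₑ) :=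
            (hoc.comp (measurable_const.prodMk (measurable_id.prodMk measurable_const))).enorm
          rw [lintegral_const_mul _ m1]
          exact mul_le_mul' (hVM z0) (hBy z0 z0)
      _ = M * B * μ Set.univ := by rw [lintegral_const]
      _ < ∞ := ENNReal.mul_lt_top (ENNReal.mul_lt_top hM hB) (measure_lt_top _ _)
  refine ⟨i1, ?_⟩
  rw [int_cons _ i1]
  refine integral_congr_ae (Eventually.of_forall fun z0 => ?_)
  simp only [Fin.cons_zero, Fin.cons_succ]
  rw [integral_const_mul, hd]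

end Abstract

section Concrete

variable {K : Type} [MetricSpace K] [CompactSpace K] [MeasurableSpace K] [BorelSpace K]

/-- Off the diagonal the open chains have finite mass, with a power bound. -/
theorem lc_off {q : ℕ} {μ : Measure K} [IsFiniteMeasure μ] [NullSingletonClass μ] {V : K → ℝ}
    {M C₁ : ℝ}
    (hV : Measurable V) (hM : ∀ x, |V x| ≤ M) (hC : 0 < C₁)
    (h3 : ∀ b, 3 ≤ b → b ≤ 2 * q + 2 → ∀ x y : K, x ≠ y →
        Integrable (fun z => ((dist x z) ^ (2 * q + 1))⁻¹ * ((dist z y) ^ b)⁻¹) μ ∧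
        ∫ z, ((dist x z) ^ (2 * q + 1))⁻¹ * ((dist z y) ^ b)⁻¹ ∂μ ≤
          C₁ * ((dist x y) ^ (b - 2))⁻¹) (h l : C(K × K, ℂ)) :
    ∀ m < q, ∃ Q : ℝ, 0 ≤ Q ∧ ∀ x y, x ≠ y →
      lc V (qk (2 * q + 1) h) (qk (2 * q - 1) l) μ m x y ≤
        ENNReal.ofReal (Q * ((dist x y) ^ (2 * q - 1 - 2 * m))⁻¹) := by
  intro m
  induction m with
  | zero =>
    intro _
    refine ⟨‖l‖, norm_nonneg _, fun x y _ => ?_⟩
    rw [lc_zero]
    exact qk_le _ l x y
  | succ m ih =>
    intro hm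
    obtain ⟨Q, hQ, hQy⟩ := ih (by omega)
    have hM0 : ∀ z : K, 0 ≤ M := fun z => (abs_nonneg _).trans (hM z)
    refine ⟨‖h‖ * |M| * Q * C₁, by positivity, fun x y hxy => ?_⟩
    rw [lc_succ hV (qk_meas _ h) (qk_meas _ l)]
    obtain ⟨i3, l3⟩ := h3 (2 * q - 1 - 2 * m) (by omega) (by omega) x y hxy
    have hne : ∀ᵐ z ∂μ, z ≠ y := by
      rw [ae_iff]
      simp
    calc ∫⁻ z0, ‖qk (2 * q + 1) h x z0‖ₑ * ‖(V z0 : ℂ)‖ₑ *
          lc V (qk (2 * q + 1) h) (qk (2 * q - 1) l) μ m z0 y ∂μ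
        ≤ ∫⁻ z0, ENNReal.ofReal (‖h‖ * |M| * Q * (((dist x z0) ^ (2 * q + 1))⁻¹ *
            ((dist z0 y) ^ (2 * q - 1 - 2 * m))⁻¹)) ∂μ := by
          refine lintegral_mono_ae ?_
          filter_upwards [hne] with z0 hz0
          have e1 := qk_le (2 * q + 1) h x z0
          have e2 : ‖(V z0 : ℂ)‖ₑ ≤ ENNReal.ofReal |M| := by
            rw [← ofReal_norm]
            apply ENNReal.ofReal_le_ofReal
            rw [Complex.norm_real]
            exact (hM z0).trans (le_abs_self M)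
          have e3 := hQy z0 y hz0
          refine (mul_le_mul' (mul_le_mul' e1 e2) e3).trans ?_
          rw [← ENNReal.ofReal_mul (by positivity), ← ENNReal.ofReal_mul (by positivity)]
          apply ENNReal.ofReal_le_ofReal
          apply le_of_eq
          ring
      _ = ENNReal.ofReal (∫ z0, ‖h‖ * |M| * Q * (((dist x z0) ^ (2 * q + 1))⁻¹ *
            ((dist z0 y) ^ (2 * q - 1 - 2 * m))⁻¹) ∂μ) := by
          rw [← ofReal_integral_eq_lintegral_ofReal (i3.const_mul _)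
            (Eventually.of_forall fun z => by positivity)]
      _ ≤ _ := by
          apply ENNReal.ofReal_le_ofReal
          rw [integral_const_mul]
          have e4 : 2 * q - 1 - 2 * m - 2 = 2 * q - 1 - 2 * (m + 1) := by omega
          rw [e4] at l3
          calc ‖h‖ * |M| * Q * ∫ z0, ((dist x z0) ^ (2 * q + 1))⁻¹ *
                ((dist z0 y) ^ (2 * q - 1 - 2 * m))⁻¹ ∂μ
              ≤ ‖h‖ * |M| * Q * (C₁ * ((dist x y) ^ (2 * q - 1 - 2 * (m + 1)))⁻¹) :=
                mul_le_mul_of_nonneg_left l3 (by positivity)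
            _ = _ := by ring

/-- The open chains of length at least `q` have uniformly bounded mass. -/
theorem lc_bdd {q : ℕ} (hq : 1 ≤ q) {μ : Measure K} [IsFiniteMeasure μ] [NullSingletonClass μ]
    {V : K → ℝ} {M C₁ : ℝ}
    (hV : Measurable V) (hM : ∀ x, |V x| ≤ M) (hC : 0 < C₁)
    (h1 : ∀ x, ∀ b ≤ 2 * q + 2, Integrable (fun y : K => ((dist x y) ^ b)⁻¹) μ ∧
        ∫ y, ((dist x y) ^ b)⁻¹ ∂μ ≤ C₁)
    (h3 : ∀ b, 3 ≤ b → b ≤ 2 * q + 2 → ∀ x y : K, x ≠ y →
        Integrable (fun z => ((dist x z) ^ (2 * q + 1))⁻¹ * ((dist z y) ^ b)⁻¹) μ ∧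
        ∫ z, ((dist x z) ^ (2 * q + 1))⁻¹ * ((dist z y) ^ b)⁻¹ ∂μ ≤
          C₁ * ((dist x y) ^ (b - 2))⁻¹)
    (h4 : ∀ x y : K, Integrable (fun z => ((dist x z) ^ (2 * q + 1))⁻¹ * (dist z y)⁻¹) μ ∧
        ∫ z, ((dist x z) ^ (2 * q + 1))⁻¹ * (dist z y)⁻¹ ∂μ ≤ C₁) (h l : C(K × K, ℂ)) :
    ∀ j : ℕ, ∃ B : ℝ≥0∞, B < ∞ ∧ ∀ x y,
      lc V (qk (2 * q + 1) h) (qk (2 * q - 1) l) μ (q + j) x y ≤ B := by
  intro j
  induction j with
  | zero =>
    obtain ⟨m, rfl⟩ : ∃ m, q = m + 1 := ⟨q - 1, by omega⟩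
    obtain ⟨Q, hQ, hQy⟩ := lc_off hV hM hC h3 h l m (by omega)
    refine ⟨ENNReal.ofReal (‖h‖ * |M| * Q * C₁), ENNReal.ofReal_lt_top, fun x y => ?_⟩
    rw [add_zero, lc_succ hV (qk_meas _ h) (qk_meas _ l)]
    obtain ⟨i4, l4⟩ := h4 x y
    have hne : ∀ᵐ z ∂μ, z ≠ y := by
      rw [ae_iff]
      simp
    calc ∫⁻ z0, ‖qk (2 * (m + 1) + 1) h x z0‖ₑ * ‖(V z0 : ℂ)‖ₑ *
          lc V (qk (2 * (m + 1) + 1) h) (qk (2 * (m + 1) - 1) l) μ m z0 y ∂μ
        ≤ ∫⁻ z0, ENNReal.ofReal (‖h‖ * |M| * Q * (((dist x z0) ^ (2 * (m + 1) + 1))⁻¹ *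
            (dist z0 y)⁻¹)) ∂μ := by
          refine lintegral_mono_ae ?_
          filter_upwards [hne] with z0 hz0
          have e1 := qk_le (2 * (m + 1) + 1) h x z0
          have e2 : ‖(V z0 : ℂ)‖ₑ ≤ ENNReal.ofReal |M| := by
            rw [← ofReal_norm]
            apply ENNReal.ofReal_le_ofReal
            rw [Complex.norm_real]
            exact (hM z0).trans (le_abs_self M)
          have e3 := hQy z0 y hz0
          have e5 : 2 * (m + 1) - 1 - 2 * m = 1 := by omega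
          rw [e5, pow_one] at e3
          refine (mul_le_mul' (mul_le_mul' e1 e2) e3).trans ?_
          rw [← ENNReal.ofReal_mul (by positivity), ← ENNReal.ofReal_mul (by positivity)]
          apply ENNReal.ofReal_le_ofReal
          apply le_of_eq
          ring
      _ = ENNReal.ofReal (∫ z0, ‖h‖ * |M| * Q * (((dist x z0) ^ (2 * (m + 1) + 1))⁻¹ *
            (dist z0 y)⁻¹) ∂μ) := by
          rw [← ofReal_integral_eq_lintegral_ofReal (i4.const_mul _)
            (Eventually.of_forall fun z => by positivity)]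
      _ ≤ _ := by
          apply ENNReal.ofReal_le_ofReal
          rw [integral_const_mul]
          exact mul_le_mul_of_nonneg_left l4 (by positivity)
  | succ j ih =>
    obtain ⟨B, hB, hBy⟩ := ih
    have hai := (qk_int (fun x => h1 x (2 * q + 1) (by omega)) h).1
    refine ⟨ENNReal.ofReal (‖h‖ * C₁) * (ENNReal.ofReal |M| * B),
      ENNReal.mul_lt_top ENNReal.ofReal_lt_top (ENNReal.mul_lt_top ENNReal.ofReal_lt_top hB),
      fun x y => ?_⟩
    rw [← add_assoc, lc_succ hV (qk_meas _ h) (qk_meas _ l)]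
    calc ∫⁻ z0, ‖qk (2 * q + 1) h x z0‖ₑ * ‖(V z0 : ℂ)‖ₑ *
          lc V (qk (2 * q + 1) h) (qk (2 * q - 1) l) μ (q + j) z0 y ∂μ
        ≤ ∫⁻ z0, ‖qk (2 * q + 1) h x z0‖ₑ * (ENNReal.ofReal |M| * B) ∂μ := by
          refine lintegral_mono fun z0 => ?_
          rw [mul_assoc]
          refine mul_le_mul' le_rfl (mul_le_mul' ?_ (hBy z0 y))
          rw [← ofReal_norm]
          apply ENNReal.ofReal_le_ofReal
          rw [Complex.norm_real]
          exact (hM z0).trans (le_abs_self M)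
      _ = (∫⁻ z0, ‖qk (2 * q + 1) h x z0‖ₑ ∂μ) * (ENNReal.ofReal |M| * B) := by
          rw [lintegral_mul_const]
          exact ((qk_meas (2 * q + 1) h).comp (measurable_const.prodMk measurable_id)).enorm
      _ ≤ _ := mul_le_mul' (hai x) le_rfl

/-- The powers of the kernel operator applied to a slice of the continuous iterated kernel. -/
theorem op_pow {q : ℕ} {μ : Measure K} {V : K → ℝ} (O : OpsQ q μ V) (h l κ : C(K × K, ℂ))
    (hκ : ∀ x y, κ (x, y) = KK q μ V h l q x y) (y : K) (j : ℕ) : ∀ x,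
    ((O.Op h) ^ j) (slice κ y) x = KK q μ V h l (q + j) x y := by
  induction j with
  | zero =>
    intro x
    simp only [pow_zero, add_zero]
    exact hκ x y
  | succ j ih =>
    intro x
    rw [pow_succ', ← add_assoc]
    change O.Op h (((O.Op h) ^ j) (slice κ y)) x = _
    rw [O.Op_apply]
    simp only [ih]
    rfl

end Concrete

end TrPowAux

open ChainRepAux TrPowAux in
/-- H9: the closed chains as traces. -/
theorem trPow : TrPow := by
  intro q hq K _ _ _ _ μ C hS V hV M hM O h l κ hκ j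
  have := hS.fin
  have := hS.noat
  obtain ⟨C₁, hC₁, hint, -, h3, h4, -⟩ := rieszQ q hq K μ C hS
  have ha := qk_int (fun x => hint x (2 * q + 1) (by omega)) h
  have hb := qk_int (fun x => hint x (2 * q - 1) (by omega)) l
  have n1 := norm_nonneg h
  have n3 := norm_nonneg l
  have e1 : ENNReal.ofReal (‖h‖ * C₁) ≤ ENNReal.ofReal ((‖h‖ + ‖l‖) * C₁) :=
    ENNReal.ofReal_le_ofReal (mul_le_mul_of_nonneg_right (by linarith) hC₁.le)
  have e3 : ENNReal.ofReal (‖l‖ * C₁) ≤ ENNReal.ofReal ((‖h‖ + ‖l‖) * C₁) :=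
    ENNReal.ofReal_le_ofReal (mul_le_mul_of_nonneg_right (by linarith) hC₁.le)
  have hVM : ∀ x, ‖(V x : ℂ)‖ₑ ≤ ENNReal.ofReal M := by
    intro x
    rw [← ofReal_norm]
    apply ENNReal.ofReal_le_ofReal
    rw [Complex.norm_real]
    exact hM x
  obtain ⟨B, hB, hBy⟩ := lc_bdd hq hV hM hC₁ hint h3 h4 h l (j + 1)
  rw [← add_assoc] at hBy
  have hkk := kk_eq_all (μ := μ) hV (qk_meas (2 * q + 1) h) (qk_meas (2 * q - 1) l)
    ENNReal.ofReal_lt_top ENNReal.ofReal_lt_top hVM (fun y => (ha.2 y).trans e1)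
    (fun y => (hb.2 y).trans e3) (fun m x y => KK q μ V h l m x y) (fun x y => rfl)
    (fun m x y => rfl) (q + j + 1) (fun x y => (hBy x y).trans_lt hB)
  obtain ⟨i1, i2⟩ := closed (μ := μ) hV (qk_meas (2 * q + 1) h) (qk_meas (2 * q - 1) l)
    ENNReal.ofReal_lt_top hB hVM (q + j + 1) hBy (fun x y => KK q μ V h l (q + j + 1) x y) hkk
  have hfe : (fun x : Fin (q + j + 1 + 1) → K => (V (x 0) : ℂ) *
      oc V (qk (2 * q + 1) h) (qk (2 * q - 1) l) (q + j + 1) (x 0) (fun i => x i.succ) (x 0)) =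
      fun x => (∏ i, (V (x i) : ℂ)) * JC q (q + j + 1) h l x := by
    funext x
    rw [oc_prod, Fin.prod_univ_succ (fun i => (V (x i) : ℂ))]
    simp only [JC, qk]
    ring
  rw [hfe] at i1 i2
  refine ⟨i1, ?_⟩
  rw [← i2, O.tr_apply]
  refine integral_congr_ae (Eventually.of_forall fun y => ?_)
  simp only []
  rw [op_pow O h l κ hκ y (j + 1) y, ← add_assoc]

end Pool.Agent.Work.MP_f2af60_mp

end

section

/-!
# MP_f2af60_mp, second round: items H12 and H13
-/

namespace Pool.Agent.Work.MP_f2af60_mp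

open MeasureTheory Metric Filter Topology

/-- H12. -/
theorem chainReal : ChainReal := by
  intro q m hq hm R hR V hV M hM hV0 E hE h l hh hl hint
  have hm1 : 1 ≤ m := by omega
  have hF0 : ∀ x : Fin (m + 1) → En q, (∃ i, R < ‖x i‖) → (∏ j, V (x j)) * DJ q m E x = 0 := by
    rintro x ⟨i, hi⟩
    rw [Finset.prod_eq_zero (Finset.mem_univ i) (hV0 _ hi), zero_mul]
  have hFI := (f_km q m hq hm1).2.2.2.2 E hE V hV M R hM hV0
  obtain ⟨hGI, hGint⟩ := lj_int q m R _ hF0 hFI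
  rw [← hGint, ← integral_complex_ofReal]
  simp_rw [← integral_const_mul]
  rw [← integral_finsetSum _ fun i hi => (hint i (Finset.mem_range.1 hi)).const_mul _]
  apply integral_congr_ae
  filter_upwards [lj_ae q m hm1 R] with x hx
  have h3 := lj_DJ f_sub q m hq R E hE h l hh hl x hx
  push_cast
  rw [← h3, Finset.mul_sum]
  refine Finset.sum_congr rfl fun i _ => ?_
  ring

/-- The Neumann series. -/
lemma tser_neumann {A : Type*} [NormedRing A] [NormedAlgebra ℂ A] [CompleteSpace A] (a T : A)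
    (ha : ‖a‖ < 1) (h1 : T * (1 + a) = 1) :
    HasSum (fun j : ℕ => ((-1 : ℂ) ^ j) • a ^ (j + 1)) (T * a) := by
  have hn : ‖-a‖ < 1 := by rwa [norm_neg]
  have hs : Summable (fun j : ℕ => (-a) ^ j) := summable_geometric_of_norm_lt_one hn
  have h2 : (1 + a) * ∑' j : ℕ, (-a) ^ j = 1 := by
    have := mul_neg_geom_series (-a) hn
    rwa [sub_neg_eq_add] at this
  have h3 : T = ∑' j : ℕ, (-a) ^ j := by
    calc T = T * ((1 + a) * ∑' j : ℕ, (-a) ^ j) := by rw [h2, mul_one]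
      _ = (T * (1 + a)) * ∑' j : ℕ, (-a) ^ j := by rw [mul_assoc]
      _ = ∑' j : ℕ, (-a) ^ j := by rw [h1, one_mul]
  have h4 := hs.hasSum
  rw [← h3] at h4
  have h5 := h4.mul_right a
  have h6 : ∀ j : ℕ, (-a) ^ j * a = ((-1 : ℂ) ^ j) • a ^ (j + 1) := by
    intro j
    rcases Nat.even_or_odd j with hj | hj
    · rw [hj.neg_pow a, hj.neg_one_pow, one_smul, pow_succ]
    · rw [hj.neg_pow a, hj.neg_one_pow, neg_smul, one_smul, pow_succ, neg_mul]
  simp_rw [h6] at h5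
  exact h5

/-- H13. -/
theorem traceSeries (h9 : TrPow) (h10 : OpNormQ) (h12 : ChainReal) (h4 : TTFacts) :
    TraceSeries := by
  intro q hq R hR V hV M hM hV0 O E hE1 hME h l κ T hh hl hκ hT1 hT2
  have hE : 0 < E := by linarith
  have hM0 : 0 ≤ M := (abs_nonneg (V 0)).trans (hM 0)
  have hMltE : M < E := by linarith
  obtain ⟨C, hC, hSp⟩ := spBallQ q R hR
  have hV' : Measurable (fun x : closedBall (0 : En q) R => V x) :=
    hV.comp measurable_subtype_coe
  set A : ℕ → (C(closedBall (0 : En q) R, ℂ) →L[ℂ] C(closedBall (0 : En q) R, ℂ)) :=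
    fun i => O.Op (h i) with hA
  have hAn : ∀ i, ‖A i‖ < 1 := by
    intro i
    have hE' : 0 < (1 + (i : ℝ)) * E := by positivity
    have h5 := h10 q hq R hR V hV M hM O ((1 + (i : ℝ)) * E) hE' (h i) (hh i)
    refine lt_of_le_of_lt h5 ?_
    rw [div_lt_one hE']
    have h6 : (0 : ℝ) ≤ (i : ℝ) * E := by positivity
    linarith
  have hN' : ∀ i, HasSum (fun j : ℕ => (-1 : ℂ) ^ j * O.tr ((A i) ^ (j + 1)) (κ i))
      (O.tr (T i * A i) (κ i)) := by
    intro i
    have h6 : HasSum (fun j : ℕ => O.tr (((-1 : ℂ) ^ j) • (A i) ^ (j + 1)) (κ i))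
        (O.tr (T i * A i) (κ i)) :=
      (ContinuousLinearMap.apply ℂ ℂ (κ i)).hasSum
        (O.tr.hasSum (tser_neumann (A i) (T i) (hAn i) (hT1 i)))
    have h7 : ∀ j : ℕ, O.tr (((-1 : ℂ) ^ j) • (A i) ^ (j + 1)) (κ i) =
        (-1 : ℂ) ^ j * O.tr ((A i) ^ (j + 1)) (κ i) := by
      intro j
      rw [map_smul]
      rfl
    simp_rw [h7] at h6
    exact h6
  have hS : HasSum (fun j : ℕ => ∑ i ∈ Finset.range q, (-1) ^ i * ((q - 1).choose i : ℂ) *
      ((-1 : ℂ) ^ j * O.tr ((A i) ^ (j + 1)) (κ i)))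
      (∑ i ∈ Finset.range q, (-1) ^ i * ((q - 1).choose i : ℂ) * O.tr (T i * A i) (κ i)) :=
    hasSum_sum fun i _ => (hN' i).mul_left _
  set b : ℕ → ℝ := fun m => E ^ ((q : ℝ) - 1 / 2 - (m : ℝ)) * Phi q V m E⁻¹ with hb
  have hj : ∀ j : ℕ, ∑ i ∈ Finset.range q, (-1) ^ i * ((q - 1).choose i : ℂ) *
      ((-1 : ℂ) ^ j * O.tr ((A i) ^ (j + 1)) (κ i)) =
        (((-1) ^ j * b (q + j + 1) : ℝ) : ℂ) := by
    intro j
    have h7 := fun i => h9 q hq (closedBall (0 : En q) R) (muQ q R) C hSp _ hV' M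
      (fun x => hM x) O (h i) (l i) (κ i) (hκ i) j
    have h8 := h12 q (q + j + 1) hq (by omega) R hR V hV M hM hV0 E hE h l hh hl
      (fun i _ => (h7 i).1)
    have h11 := scal_main f_hh f_km q (q + j + 1) hq (by omega) V hV M R hM hV0 E hE
    rw [h11] at h8
    have h12' : ∀ i ∈ Finset.range q, (-1) ^ i * ((q - 1).choose i : ℂ) *
        ((-1 : ℂ) ^ j * O.tr ((A i) ^ (j + 1)) (κ i)) =
        (-1 : ℂ) ^ j * ((-1) ^ i * ((q - 1).choose i : ℂ) *
          ∫ x : Fin (q + j + 1 + 1) → closedBall (0 : En q) R,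
            (∏ j, (V (x j) : ℂ)) * JC q (q + j + 1) (h i) (l i) x
            ∂(Measure.pi fun _ => muQ q R)) := by
      intro i _
      rw [(h7 i).2]
      ring
    rw [Finset.sum_congr rfl h12', ← Finset.mul_sum, h8]
    simp only [hb]
    push_cast
    ring
  simp_rw [hj] at hS
  obtain ⟨hsum, -⟩ := h4 q hq V hV M R hM hV0
  have hs := hsum E hMltE hE
  have e1 := hs.sum_add_tsum_nat_add q
  have e2 : FF q V E = ∑ k ∈ Finset.range q, (-1) ^ (k + 1) *
      (E ^ ((q : ℝ) - 1 / 2 - ((k + 1 : ℕ) : ℝ)) * Phi q V (k + 1) E⁻¹) := by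
    rw [f_scal q hq V hV M R hM hV0 E hE]
    have e3 : Finset.Icc 1 q = Finset.Ico 1 (q + 1) := by
      ext k
      simp only [Finset.mem_Icc, Finset.mem_Ico]
      omega
    rw [e3, Finset.sum_Ico_eq_sum_range, Nat.add_sub_cancel]
    refine Finset.sum_congr rfl fun k _ => ?_
    rw [add_comm 1 k]
  have e4 : TT q V E - FF q V E = (-1) ^ (q + 1) * ∑' j : ℕ, (-1) ^ j * b (q + j + 1) := by
    unfold TT
    rw [e2, ← e1, add_sub_cancel_left, ← tsum_mul_left]
    refine tsum_congr fun j => ?_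
    simp only [hb]
    rw [add_comm j q, show q + j + 1 = q + 1 + j by ring, pow_add]
    ring
  rw [e4]
  push_cast
  congr 1
  rw [← hS.tsum_eq]
  refine tsum_congr fun j => ?_
  push_cast
  ring

end Pool.Agent.Work.MP_f2af60_mp

end

section

/-!
# MP_f2af60_mp, second round: the structure theorem, exact version, part 2
-/

namespace Pool.Agent.Work.MP_f2af60_mp

open MeasureTheory Metric Filter Topology

/-- The structure theorem, exact version (ball of radius `R`). -/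
theorem gm_struct2 (h1 : EbFacts) (h5 : SpBallQ) (h6 : ExistsOpsQ) (h8 : KKFacts) (h11 : TraceIdQ)
    (h13 : ChainRep) (h15 : LimJ) (h16 : ImagQ) (h20 : DecompQ) (h21 : KerResQ) (h22 : FamiliesQ)
    (h26 : DiscFac) (g4 : TTFacts) (g13 : TraceSeries) (g14 : ExpandExact)
    {q : ℕ} (hq : 1 ≤ q) (C1 : ℝ) (hC12 : 2 ≤ C1)
    (hnear : ∀ R : ℝ, 0 < R → ∀ (V : En q → ℝ), Measurable V →
      ∀ M : ℝ, (∀ x, |V x| ≤ M) →
      ∀ (O : OpsQ q (muQ q R) (fun x : closedBall (0 : En q) R => V x)) (E : ℝ), 0 < E →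
      C1 * M ≤ E → ∀ z : ℂ, ‖z - Complex.I * (Real.sqrt E : ℂ)‖ < Real.sqrt E / 2 →
      ∀ h : C(closedBall (0 : En q) R × closedBall (0 : En q) R, ℂ),
      (∀ x y, h (x, y) = eb q (z * ((dist x y : ℝ) : ℂ))) → ‖O.Op h‖ ≤ 1 / 2)
    (hnorm : OpNormQ)
    {R : ℝ} (hR : 0 < R) (V : En q → ℝ) (hV : Measurable V) (M : ℝ)
    (hM : ∀ x, |V x| ≤ M) (hsupp : ∀ x, R < ‖x‖ → V x = 0) (hfin : {l : ℂ | IsRes q V l}.Finite) :
    ∃ (P : Polynomial ℂ) (α : ℕ → ℝ), P.Monic ∧
      (∀ E, 4 ≤ E → C1 * M ≤ E → TT q V E = (PF q P E).re +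
        ∑ i ∈ Finset.range q, α i * E ^ ((q : ℝ) - 3 / 2 - i)) ∧
      (∀ E, 4 ≤ E → C1 * M ≤ E → ∀ z, P.eval z = 0 →
        Real.sqrt E / 2 ≤ ‖z - Complex.I * (Real.sqrt E : ℂ)‖) ∧
      (P.natDegree = 0 → ∀ i < q, α i = 0) := by
  obtain ⟨Cs, hCs, hSp⟩ := h5 q R hR
  have hfinm := hSp.fin
  have hV' : Measurable (fun x : closedBall (0 : En q) R => V x) := hV.comp measurable_subtype_coe
  have hM' : ∀ x : closedBall (0 : En q) R, |V x| ≤ M := fun x => hM x
  obtain ⟨O⟩ := h6 q _ (muQ q R) Cs hSp (fun x : closedBall (0 : En q) R => V x) hV' M hM'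
  obtain ⟨h, l, hh, hl, hhd, hh'0, hpar⟩ := h22 q hq (closedBall (0 : En q) R)
  have hh' : ∀ z, deriv h z = (z / (2 * (Real.pi : ℂ))) • (dlt _ ^ 2 * l z) := by
    intro z
    ext ⟨x, y⟩
    rw [hh'0 z x y]
    simp only [ContinuousMap.smul_apply, ContinuousMap.mul_apply, ContinuousMap.pow_apply,
      smul_eq_mul]
    have : (dlt (closedBall (0 : En q) R)) (x, y) = ((dist x y : ℝ) : ℂ) := rfl
    rw [this]
    ring
  obtain ⟨Ci, hCi0, hCi⟩ := gm_imag h16 hq hR V hV M hM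
  obtain ⟨Ck, hCk, hKK⟩ := h8 q hq _ (muQ q R) Cs hSp (fun x : closedBall (0 : En q) R => V x)
    hV' M hM'
  obtain ⟨Cb, hCb⟩ := h1.2.2.1 q
  have hB : ∀ w : ℂ, ‖w‖ ≤ 1 → ‖eb q w‖ ≤ |Cb| * 2 ^ q * Real.exp 1 := by
    intro w hw
    refine (hCb w).trans ?_
    have e1 : -w.im ≤ 1 := by
      have := Complex.abs_im_le_norm w
      have := neg_abs_le w.im
      linarith
    have e2 : 1 + ‖w‖ ≤ 2 := by linarith
    calc Cb * (1 + ‖w‖) ^ q * Real.exp (-w.im) ≤ |Cb| * (1 + ‖w‖) ^ q * Real.exp (-w.im) := by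
          gcongr
          exact le_abs_self Cb
      _ ≤ |Cb| * 2 ^ q * Real.exp 1 := by gcongr
  set B0 : ℝ := |Cb| * 2 ^ q * Real.exp 1 with hB0d
  have hB0 : 0 ≤ B0 := by positivity
  obtain ⟨ε, he, he1, hsm⟩ := gm_small_param M B0 Cs ((muQ q R).real Set.univ) hB0 hCs.le
    measureReal_nonneg
  obtain ⟨Cd, nd, hdat⟩ := decData_exists h20 hq hR he he
  let dat : ∀ r : ℕ, DecData q R ε ε Cd nd (max r 1) := fun r =>
    Classical.choice (hdat (max r 1) (le_max_right _ _))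
  -- a starting point on the imaginary axis
  have hM0 : 0 ≤ M := (abs_nonneg _).trans (hM 0)
  set E0 : ℝ := max 4 (C1 * M) with hE0
  have hE04 : 4 ≤ E0 := le_max_left _ _
  have hE01 : 1 ≤ E0 := by linarith
  have hA2 : ∀ (i : ℕ) (E : ℝ), E0 ≤ E → ‖O.Op (h (lam i E))‖ ≤ 1 / 2 := by
    intro i E hE
    have hE1 : 1 ≤ E := hE01.trans hE
    have hEi : 0 < (1 + (i : ℝ)) * E := by positivity
    have e0 := hnorm q hq R hR V hV M hM O ((1 + (i : ℝ)) * E) hEi (h (lam i E))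
      (fun x y => by rw [hh]; rfl)
    refine e0.trans ?_
    rw [div_le_iff₀ hEi]
    have e1 : C1 * M ≤ E := (le_max_right _ _).trans hE
    have e2 : E ≤ (1 + (i : ℝ)) * E := by
      have : (0 : ℝ) ≤ i := Nat.cast_nonneg i
      nlinarith
    nlinarith
  have hhalf := gm_half dat hR he he1 Cs hSp V M hM O h hh B0 hB0 hB hsm
  have hfin2 : {z : ℂ | ∃ u : C(closedBall (0 : En q) R, ℂ), u ≠ 0 ∧
      u + O.Op (h z) u = 0}.Finite := by
    refine hfin.subset fun z hz => ?_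
    obtain ⟨u, hu0, hu⟩ := hz
    refine h21 q hq R hR V hV M hM hsupp z u hu0 fun x => ?_
    have e1 := congrArg (fun f : C(closedBall (0 : En q) R, ℂ) => f x) hu
    simp only [ContinuousMap.add_apply, ContinuousMap.zero_apply] at e1
    rw [O.Op_apply] at e1
    simp only [hh] at e1
    exact e1
  have hmr : ∀ r : ℕ, 1 ≤ r → ((max r 1 : ℕ) : ℝ) = (r : ℝ) := fun r hr => by
    rw [max_eq_left hr]
  obtain ⟨P, c, C', r0, m, hP, hr0, hc, hLL, hPne, hparity⟩ := gm_disc2 h11 h13 h26 hq (muQ q R) Cs hSp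
    (fun x : closedBall (0 : En q) R => V x) hV' M hM' O h l hhd hh' hpar Cd nd
    (fun r => (dat r).N) (fun r => (dat r).φ) (fun r => (dat r).ψ) (fun r => (dat r).c)
    (fun r hr => by
      have := (dat r).hN
      rwa [hmr r hr] at this)
    (fun r hr k => by
      have := (dat r).hφ k
      rwa [hmr r hr] at this)
    (fun r hr k => by
      have := (dat r).hψ k
      rwa [hmr r hr] at this)
    (fun r k => (dat r).hc k)
    (fun r hr k z hz => by
      have := (dat r).hcb k z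
      rw [hmr r hr] at this
      exact this hz)
    (fun r k x => (dat r).hdiag k x) (fun r k => (dat r).hpar k)
    (fun r hr z hz => hhalf r z (by rwa [hmr r hr]))
    (lam 0 E0) (hA2 0 E0 le_rfl) hfin2
  obtain ⟨CF, hCF⟩ := (g4 q hq V hV M R hM hsupp).2
  obtain ⟨Ct, hCt, htr⟩ := tr_bound O
  set CC : ℝ := |C'| + |CF| with hCC
  have hCC1 : C' ≤ CC := by
    have := le_abs_self C'
    have := abs_nonneg CF
    linarith
  have hCC2 : CF ≤ CC := by
    have := abs_nonneg C'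
    have := le_abs_self CF
    linarith
  have hlimit : ∀ E ≥ E0, Tendsto (fun r => ∑ i ∈ Finset.range q, (-1) ^ i *
      ((q - 1).choose i : ℂ) * (LL P (c r) (lam i E) / (2 * lam i E))) atTop
      (𝓝 (TT q V E : ℂ)) := by
    intro E hE
    have hE1' : 1 ≤ E := hE01.trans hE
    have hE2M : 2 * M ≤ E := by
      have e1 : C1 * M ≤ E := (le_max_right _ _).trans hE
      nlinarith
    have hEpos : 0 < E := by linarith
    -- inverses
    set T : ℕ → C(closedBall (0 : En q) R, ℂ) →L[ℂ] C(closedBall (0 : En q) R, ℂ) :=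
      fun i => Ring.inverse (1 + O.Op (h (lam i E))) with hT
    set T₁ : ℕ → ℕ → C(closedBall (0 : En q) R, ℂ) →L[ℂ] C(closedBall (0 : En q) R, ℂ) :=
      fun r i => Ring.inverse (1 + O.Op (gh1 q h (dat r).φ (dat r).ψ (dat r).c (lam i E))) with hT₁
    set κ : ℕ → C(closedBall (0 : En q) R × closedBall (0 : En q) R, ℂ) := fun i =>
      ⟨Function.uncurry (KK q (muQ q R) (fun x : closedBall (0 : En q) R => V x) (h (lam i E))
        (glk l (lam i E)) q), (hKK _ _).2.2.2.1⟩ with hκ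
    set κ₁ : ℕ → ℕ → C(closedBall (0 : En q) R × closedBall (0 : En q) R, ℂ) := fun r i =>
      ⟨Function.uncurry (KK q (muQ q R) (fun x : closedBall (0 : En q) R => V x)
        (gh1 q h (dat r).φ (dat r).ψ (dat r).c (lam i E))
        (gl1 q l (dat r).φ (dat r).ψ (dat r).c (lam i E)) q), (hKK _ _).2.2.2.1⟩ with hκ₁
    have hu : ∀ i, IsUnit (1 + O.Op (h (lam i E))) := fun i => inv_exists _ (hA2 i E hE)
    obtain ⟨r1, hr1⟩ : ∃ r1 : ℕ, ∀ i < q, ‖lam i E‖ < (r1 : ℝ) / 8 := by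
      obtain ⟨r1, hr1⟩ := exists_nat_gt (8 * Real.sqrt ((1 + (q : ℝ)) * E))
      refine ⟨r1, fun i hi => ?_⟩
      rw [lam_norm i E]
      have h1 : (i : ℝ) ≤ q := by exact_mod_cast hi.le
      have h2 : Real.sqrt ((1 + (i : ℝ)) * E) ≤ Real.sqrt ((1 + (q : ℝ)) * E) := by
        apply Real.sqrt_le_sqrt
        nlinarith
      linarith
    have hball8 : ∀ r : ℕ, r1 ≤ r → ∀ i < q, lam i E ∈ ball (0 : ℂ) ((r : ℝ) / 8) := by
      intro r hr i hi
      rw [mem_ball_zero_iff]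
      refine (hr1 i hi).trans_le ?_
      have : (r1 : ℝ) ≤ r := by exact_mod_cast hr
      linarith
    have hballm : ∀ r : ℕ, r1 ≤ r → ∀ i < q, lam i E ∈ ball (0 : ℂ) ((max r 1 : ℕ) : ℝ) := by
      intro r hr i hi
      have h2 := hball8 r hr i hi
      rw [mem_ball_zero_iff] at h2 ⊢
      have h3 : (r : ℝ) ≤ ((max r 1 : ℕ) : ℝ) := by exact_mod_cast le_max_left r 1
      have h4 : (0 : ℝ) ≤ r := Nat.cast_nonneg r
      linarith
    have hu1 : ∀ r : ℕ, r1 ≤ r → ∀ i < q,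
        IsUnit (1 + O.Op (gh1 q h (dat r).φ (dat r).ψ (dat r).c (lam i E))) := fun r hr i hi =>
      inv_exists _ (hhalf r _ (hballm r hr i hi))
    have hid : ∀ r : ℕ, r0 ≤ r → r1 ≤ r → ∀ i < q,
        LL P (c r) (lam i E) / (2 * lam i E) = ∑ m ∈ Finset.Icc 1 q, (-1) ^ m *
          Imr dat V h l m r i E + (-1) ^ (q + 1) * (O.tr (T i * O.Op (h (lam i E))) (κ i) -
            O.tr (T₁ r i * O.Op (gh1 q h (dat r).φ (dat r).ψ (dat r).c (lam i E))) (κ₁ r i)) := by
      intro r hr hr' i hi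
      exact hLL r hr _ (hball8 r hr' i hi) (one_le_lam i hE1') (κ i) (κ₁ r i)
        (fun x y => rfl) (fun x y => rfl) (T i) (T₁ r i)
        (Ring.inverse_mul_cancel _ (hu i)) (Ring.mul_inverse_cancel _ (hu i))
        (Ring.inverse_mul_cancel _ (hu1 r hr' i hi)) (Ring.mul_inverse_cancel _ (hu1 r hr' i hi))
    -- first limit
    have hlim1 : Tendsto (fun r => ∑ m ∈ Finset.Icc 1 q, (-1) ^ m *
        ∑ i ∈ Finset.range q, (-1) ^ i * ((q - 1).choose i : ℂ) * Imr dat V h l m r i E) atTop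
        (𝓝 ((FF q V E : ℝ) : ℂ)) := by
      have e1 : ((FF q V E : ℝ) : ℂ) = ∑ m ∈ Finset.Icc 1 q, (-1) ^ m *
          ((∫ x : Fin (m + 1) → En q, (∏ j, V (x j)) * DJ q m E x : ℝ) : ℂ) := by
        rw [FF]
        push_cast
        rfl
      rw [e1]
      refine tendsto_finsetSum _ fun m hm => Tendsto.const_mul _ ?_
      exact gm_limit dat h13 h15 h5 hq hR he V hV M hM hsupp h l hh hl m hm E hE1'
    -- third limit
    have hlim3 : Tendsto (fun r => ∑ i ∈ Finset.range q, (-1) ^ i * ((q - 1).choose i : ℂ) *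
        O.tr (T₁ r i * O.Op (gh1 q h (dat r).φ (dat r).ψ (dat r).c (lam i E))) (κ₁ r i)) atTop
        (𝓝 0) := by
      have e1 : (0 : ℂ) = ∑ i ∈ Finset.range q, (-1) ^ i * ((q - 1).choose i : ℂ) * 0 := by simp
      rw [e1]
      refine tendsto_finsetSum _ fun i hi => Tendsto.const_mul _ ?_
      rw [Finset.mem_range] at hi
      refine gm_third dat h8 hq hR he he1 he Cs hSp V hV M hM O h l hh hl B0 hB0 hB (lam i E)
        (one_le_lam i hE1') (fun r => T₁ r i) ?_ (fun r => κ₁ r i) (fun r x y => rfl)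
      filter_upwards [eventually_ge_atTop r1] with r hr
      exact inv_norm _ _ (hhalf r _ (hballm r hr i hi))
        (Ring.inverse_mul_cancel _ (hu1 r hr i hi))
    -- second term
    set Z : ℂ := ∑ i ∈ Finset.range q, (-1) ^ i * ((q - 1).choose i : ℂ) *
      O.tr (T i * O.Op (h (lam i E))) (κ i) with hZ
    have hTTZ : ((TT q V E - FF q V E : ℝ) : ℂ) = (-1) ^ (q + 1) * Z :=
      g13 q hq R hR V hV M hM hsupp O E hE1' hE2M (fun i => h (lam i E))
        (fun i => glk l (lam i E)) κ T (fun i x y => by rw [hh]; rfl)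
        (fun i x y => by
          have e1 : (glk l (lam i E)) (x, y) = (4 * (Real.pi : ℂ))⁻¹ * l (lam i E) (x, y) := rfl
          rw [e1, hl, lam]
          ring) (fun i x y => rfl)
        (fun i => Ring.inverse_mul_cancel _ (hu i)) (fun i => Ring.mul_inverse_cancel _ (hu i))
    -- conclusion
    have hlim : Tendsto (fun r => (∑ m ∈ Finset.Icc 1 q, (-1) ^ m *
        ∑ i ∈ Finset.range q, (-1) ^ i * ((q - 1).choose i : ℂ) * Imr dat V h l m r i E) -
        (-1) ^ (q + 1) * (∑ i ∈ Finset.range q, (-1) ^ i * ((q - 1).choose i : ℂ) *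
        O.tr (T₁ r i * O.Op (gh1 q h (dat r).φ (dat r).ψ (dat r).c (lam i E))) (κ₁ r i)) +
        (-1) ^ (q + 1) * Z) atTop (𝓝 (TT q V E : ℂ)) := by
      have h2 := (hlim1.sub (hlim3.const_mul ((-1) ^ (q + 1)))).add_const ((-1) ^ (q + 1) * Z)
      have h3 : ((FF q V E : ℝ) : ℂ) - (-1) ^ (q + 1) * 0 + (-1) ^ (q + 1) * Z =
          (TT q V E : ℂ) := by
        rw [← hTTZ]
        push_cast
        ring
      rw [h3] at h2
      exact h2
    refine hlim.congr' ?_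
    filter_upwards [eventually_ge_atTop r0, eventually_ge_atTop r1] with r e4 e5
    have e7 : ∑ m ∈ Finset.Icc 1 q, (-1 : ℂ) ^ m *
        ∑ i ∈ Finset.range q, (-1) ^ i * ((q - 1).choose i : ℂ) * Imr dat V h l m r i E =
        ∑ i ∈ Finset.range q, (-1) ^ i * ((q - 1).choose i : ℂ) *
          ∑ m ∈ Finset.Icc 1 q, (-1) ^ m * Imr dat V h l m r i E := by
      simp only [Finset.mul_sum]
      rw [Finset.sum_comm]
      refine Finset.sum_congr rfl fun i _ => Finset.sum_congr rfl fun m _ => ?_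
      ring
    rw [e7, hZ, Finset.mul_sum, Finset.mul_sum, ← Finset.sum_sub_distrib,
      ← Finset.sum_add_distrib]
    refine Finset.sum_congr rfl fun i hi => ?_
    rw [Finset.mem_range] at hi
    rw [hid r e4 e5 i hi]
    ring
  obtain ⟨α, hα, hα0⟩ := g14 q hq P hP c CC r0 m
    (fun r hr j => (hc r hr j).trans (by gcongr)) (TT q V) E0 hE01
    (fun E hE => ((hCF E (by
      have e1 : C1 * M ≤ E := (le_max_right _ _).trans hE
      nlinarith) (hE01.trans hE)).2).trans (by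
      have : 0 ≤ E ^ ((q : ℝ) - 3 / 2) := Real.rpow_nonneg (by linarith) _
      gcongr)) hlimit
  refine ⟨P, α, hP, fun E hE hEM => hα E (max_le hE hEM), ?_, fun hN => hα0 hN ?_⟩
  · intro E hE hEM z hz
    by_contra hlt
    push Not at hlt
    have hE0' : 0 < E := by linarith
    have hs2 : 2 ≤ Real.sqrt E := by
      rw [Real.le_sqrt' (by norm_num)]
      linarith
    have hz1 : 1 ≤ ‖z‖ := by
      have e1 : ‖Complex.I * (Real.sqrt E : ℂ)‖ = Real.sqrt E := by
        rw [norm_mul, Complex.norm_I, one_mul, Complex.norm_real,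
          Real.norm_of_nonneg (Real.sqrt_nonneg _)]
      have e2 : ‖Complex.I * (Real.sqrt E : ℂ)‖ ≤ ‖z‖ + ‖z - Complex.I * (Real.sqrt E : ℂ)‖ := by
        have e3 : Complex.I * (Real.sqrt E : ℂ) = z - (z - Complex.I * (Real.sqrt E : ℂ)) := by
          ring
        calc ‖Complex.I * (Real.sqrt E : ℂ)‖ = ‖z - (z - Complex.I * (Real.sqrt E : ℂ))‖ := by
              rw [← e3]
          _ ≤ _ := norm_sub_le _ _
      linarith
    have hn := hnear R hR V hV M hM O E hE0' hEM z hlt (h z) (fun x y => hh z x y)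
    exact hPne z hz1 (inv_exists _ hn) hz
  · have hP1 : P = 1 := hP.natDegree_eq_zero.1 hN
    exact fun r hr j hj hj' => hparity hP1 r hr j hj hj'

end Pool.Agent.Work.MP_f2af60_mp

end

section

/-!
# MP_f2af60_mp, H19: the real side with explicit remainder
-/

namespace Pool.Agent.Work.MP_f2af60_mp

open MeasureTheory Filter Topology

/-- The expansion of the real side. -/
lemma rs2_expand (h34 : ScalingF) (h38 : Phi1Facts2) (h43 : MultiExpand) (q : ℕ) (hq : 1 ≤ q)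
    (V : En q → ℝ) (hV : Measurable V) (M R : ℝ) (hM : ∀ x, |V x| ≤ M)
    (hR : ∀ x, R < ‖x‖ → V x = 0) (j : ℕ) (hj : j < q) (hS : HS q V (2 * j)) (E1 : ℝ)
    (hE1 : 1 ≤ E1) :
    ∃ (a0 : ℝ),
      rsAp q j E1 (-a0) (fun E => FF q V E + (-1) ^ (j + 1) *
        (E ^ ((q : ℝ) - 3 / 2) * RR q V j E⁻¹)) ∧
      (∀ e > 0, 0 ≤ RR q V j e) ∧
      Tendsto (fun e => RR q V j e / e ^ j) (𝓝[>] 0) (𝓝 0) ∧
      (a0 = 0 → V =ᵐ[volume] 0) ∧
      ((∃ C : ℝ, ∀ᶠ e in 𝓝[>] 0, RR q V j e ≤ C * e ^ (j + 1)) → HS q V (2 * (j + 1 : ℕ))) := by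
  obtain ⟨a, p1, p2, p3, p4, p5⟩ := h38 q hq V hV M R hM hR j hj hS
  refine ⟨a 0, ?_, p2, p3, p4, p5⟩
  -- the quadratic term
  have k1 : rsAp q j E1 (-(a 0)) (fun E => -(∑ i ∈ Finset.range (j + 1),
      a i * E ^ ((q : ℝ) - 3 / 2 - i))) := by
    have := rsAp_smul (-1) (rsAp_poly (q := q) (j := j) hE1 a (j + 1) (by omega))
    rw [neg_one_mul] at this
    exact rsAp_congr this fun E _ => by ring
  -- the other terms
  have k2 : rsAp q j E1 0 (fun E => ∑ m ∈ Finset.Icc 2 q,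
      (-1) ^ m * (E ^ ((q : ℝ) - 1 / 2 - m) * Phi q V m E⁻¹)) := by
    apply rsAp_sum
    intro m hm
    rw [Finset.mem_Icc] at hm
    obtain ⟨c, C, hc⟩ := h43 q hq V hV M R hM hR j hj hS m (by omega)
    have k3 : rsAp q j E1 0 (fun E => E ^ ((q : ℝ) - 1 / 2 - m) *
        (Phi q V m E⁻¹ - ∑ i ∈ Finset.range j, c i * (E⁻¹) ^ i)) := by
      refine rsAp_err (C := C) (x := (q : ℝ) - 1 / 2 - m - j) hE1 ?_ ?_
      · have : (2 : ℝ) ≤ m := by exact_mod_cast hm.1
        linarith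
      · intro E hE
        have hE' : 1 ≤ E := hE1.trans hE
        have hE0 : 0 < E := by linarith
        rw [abs_mul, abs_of_nonneg (Real.rpow_nonneg hE0.le _)]
        have := hc E⁻¹ (inv_pos.2 hE0) (inv_le_one_of_one_le₀ hE')
        calc E ^ ((q : ℝ) - 1 / 2 - m) * |Phi q V m E⁻¹ - ∑ i ∈ Finset.range j, c i * (E⁻¹) ^ i|
            ≤ E ^ ((q : ℝ) - 1 / 2 - m) * (C * (E⁻¹) ^ j) :=
              mul_le_mul_of_nonneg_left this (Real.rpow_nonneg hE0.le _)
          _ = C * E ^ ((q : ℝ) - 1 / 2 - m - j) := by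
              rw [Real.rpow_sub hE0 _ (j : ℝ), Real.rpow_natCast, inv_pow]
              field_simp
    have k4 : rsAp q j E1 0 (fun E => ∑ i ∈ Finset.range j,
        c i * E ^ ((q : ℝ) - 3 / 2 - ((i + (m - 1) : ℕ) : ℝ))) := by
      apply rsAp_sum
      intro i _
      have := rsAp_smul (c i) (rsAp_pow (q := q) (j := j) hE1 (i + (m - 1)))
      rw [if_neg (by omega), mul_zero] at this
      exact this
    have k5 := rsAp_smul ((-1) ^ m) (rsAp_add k3 k4)
    rw [add_zero, mul_zero] at k5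
    refine rsAp_congr k5 fun E hE => ?_
    have hE' : 1 ≤ E := hE1.trans hE
    have hE0 : 0 < E := by linarith
    congr 1
    have e : ∑ i ∈ Finset.range j, c i * E ^ ((q : ℝ) - 3 / 2 - ((i + (m - 1) : ℕ) : ℝ)) =
        E ^ ((q : ℝ) - 1 / 2 - m) * ∑ i ∈ Finset.range j, c i * (E⁻¹) ^ i := by
      rw [Finset.mul_sum]
      refine Finset.sum_congr rfl fun i _ => ?_
      have e1 : (q : ℝ) - 3 / 2 - ((i + (m - 1) : ℕ) : ℝ) = ((q : ℝ) - 1 / 2 - m) - i := by
        rw [Nat.cast_add, Nat.cast_sub (by omega)]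
        push_cast; ring
      rw [e1, Real.rpow_sub hE0 _ (i : ℝ), Real.rpow_natCast, inv_pow]
      field_simp
    rw [e]; ring
  have k6 := rsAp_add k1 k2
  rw [add_zero] at k6
  refine rsAp_congr k6 fun E hE => ?_
  have hE' : 1 ≤ E := hE1.trans hE
  have hE0 : 0 < E := by linarith
  rw [h34 q hq V hV M R hM hR E hE0]
  have e1 : Finset.Icc 1 q = insert 1 (Finset.Icc 2 q) := by
    ext x; simp only [Finset.mem_Icc, Finset.mem_insert]; omega
  rw [e1, Finset.sum_insert (by simp), p1 E⁻¹ (inv_pos.2 hE0)]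
  have e2 : ∑ i ∈ Finset.range (j + 1), a i * E ^ ((q : ℝ) - 3 / 2 - i) =
      E ^ ((q : ℝ) - 3 / 2) * ∑ i ∈ Finset.range (j + 1), a i * (E⁻¹) ^ i := by
    rw [Finset.mul_sum]
    refine Finset.sum_congr rfl fun i _ => ?_
    rw [Real.rpow_sub hE0 _ (i : ℝ), Real.rpow_natCast, inv_pow]
    field_simp
  rw [e2]
  have e3 : (q : ℝ) - 1 / 2 - (1 : ℕ) = (q : ℝ) - 3 / 2 := by push_cast; ring
  rw [e3]
  ring

/-- The comparison of the two sides. -/
lemma rs2_compare (h34 : ScalingF) (h38 : Phi1Facts2) (h43 : MultiExpand) (h28 : PowGrowth)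
    (q : ℕ) (hq : 1 ≤ q)
    (V : En q → ℝ) (hV : Measurable V) (M R : ℝ) (hM : ∀ x, |V x| ≤ M)
    (hR : ∀ x, R < ‖x‖ → V x = 0) (N : ℕ) (α : ℕ → ℝ) (C E1 : ℝ) (hE1 : 1 ≤ E1)
    (hF : ∀ E ≥ E1, |FF q V E + (N : ℝ) / (2 * q) * E⁻¹ -
      ∑ i ∈ Finset.range q, α i * E ^ ((q : ℝ) - 3 / 2 - i)| ≤ C * E ^ (-(3 / 2) : ℝ))
    (j : ℕ) (hj : j < q) (hS : HS q V (2 * j)) :
    ∃ (a0 : ℝ) (C' : ℝ), a0 = -α 0 ∧
      (∀ E ≥ E1, |(-1) ^ (j + 1) * (E ^ ((q : ℝ) - 3 / 2) * RR q V j E⁻¹) - (N : ℝ) / (2 * q) * E⁻¹| ≤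
        C' * E ^ ((q : ℝ) - 5 / 2 - j)) ∧
      (∀ e > 0, 0 ≤ RR q V j e) ∧
      Tendsto (fun e => RR q V j e / e ^ j) (𝓝[>] 0) (𝓝 0) ∧
      (a0 = 0 → V =ᵐ[volume] 0) ∧
      ((∃ C : ℝ, ∀ᶠ e in 𝓝[>] 0, RR q V j e ≤ C * e ^ (j + 1)) → HS q V (2 * (j + 1 : ℕ))) := by
  obtain ⟨a0, k1, k2, k3, k4, k5⟩ :=
    rs2_expand h34 h38 h43 q hq V hV M R hM hR j hj hS E1 hE1
  have hjq : (j : ℝ) + 1 ≤ q := by exact_mod_cast hj
  -- the difference
  have d1 : rsAp q j E1 0 (fun E => FF q V E + (N : ℝ) / (2 * q) * E⁻¹ -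
      ∑ i ∈ Finset.range q, α i * E ^ ((q : ℝ) - 3 / 2 - i)) :=
    rsAp_err hE1 (by linarith) hF
  have d2 := rsAp_poly (q := q) (j := j) hE1 α q hq
  have d3 := rsAp_add k1 (rsAp_smul (-1) (rsAp_add d1 d2))
  obtain ⟨β, C', b0, b1⟩ := rsAp_congr (f' := fun E => (-1) ^ (j + 1) *
    (E ^ ((q : ℝ) - 3 / 2) * RR q V j E⁻¹) - (N : ℝ) / (2 * q) * E⁻¹) d3 (fun E _ => by ring)
  -- all coefficients vanish
  have hβ : ∀ i : Fin (j + 1), (β i : ℂ) = 0 := by
    apply h28 (j + 1) (fun i : Fin (j + 1) => (q : ℝ) - 3 / 2 - (i : ℕ))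
      (fun x y hxy => by
        have : ((x : ℕ) : ℝ) = (y : ℕ) := by simpa using hxy
        exact Fin.ext (by exact_mod_cast this))
      (fun i => (β i : ℂ)) ((q : ℝ) - 3 / 2 - j)
      (fun i => by
        have : ((i : ℕ) : ℝ) ≤ j := by exact_mod_cast Nat.lt_succ_iff.1 i.2
        linarith)
    -- the real limit
    have hlim : Tendsto (fun E : ℝ => (∑ i ∈ Finset.range (j + 1),
        β i * E ^ ((q : ℝ) - 3 / 2 - i)) / E ^ ((q : ℝ) - 3 / 2 - j)) atTop (𝓝 0) := by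
      have l1 : Tendsto (fun E : ℝ => RR q V j E⁻¹ / (E⁻¹) ^ j) atTop (𝓝 0) :=
        k3.comp tendsto_inv_atTop_nhdsGT_zero
      have l2 : Tendsto (fun E : ℝ => (N : ℝ) / (2 * q) * E ^ (-((q : ℝ) - 1 / 2 - j))) atTop
          (𝓝 ((N : ℝ) / (2 * q) * 0)) :=
        (tendsto_rpow_neg_atTop (by linarith)).const_mul _
      have l3 : Tendsto (fun E : ℝ => C' * E⁻¹) atTop (𝓝 (C' * 0)) :=
        tendsto_inv_atTop_zero.const_mul _
      rw [mul_zero] at l2 l3
      have l1' : Tendsto (fun E : ℝ => |RR q V j E⁻¹ / (E⁻¹) ^ j|) atTop (𝓝 0) := by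
        simpa using l1.abs
      have l2' : Tendsto (fun E : ℝ => |(N : ℝ) / (2 * q) * E ^ (-((q : ℝ) - 1 / 2 - j))|)
          atTop (𝓝 0) := by
        simpa using l2.abs
      have l4 := (l1'.add l2').add l3
      simp only [add_zero] at l4
      refine squeeze_zero_norm' ?_ l4
      filter_upwards [eventually_ge_atTop E1] with E hE
      have hE' : 1 ≤ E := hE1.trans hE
      have hE0 : 0 < E := by linarith
      have hpos : 0 < E ^ ((q : ℝ) - 3 / 2 - j) := Real.rpow_pos_of_pos hE0 _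
      have hb := b1 E hE
      set S := ∑ i ∈ Finset.range (j + 1), β i * E ^ ((q : ℝ) - 3 / 2 - i) with hSdef
      rw [Real.norm_eq_abs, abs_div, abs_of_pos hpos, div_le_iff₀ hpos]
      have e1 : |RR q V j E⁻¹ / (E⁻¹) ^ j| * E ^ ((q : ℝ) - 3 / 2 - j) =
          |(-1) ^ (j + 1) * (E ^ ((q : ℝ) - 3 / 2) * RR q V j E⁻¹)| := by
        rw [abs_mul, abs_pow, abs_neg, abs_one, one_pow, one_mul, abs_mul, abs_div,
          abs_of_pos (Real.rpow_pos_of_pos hE0 _), abs_of_pos (pow_pos (inv_pos.2 hE0) j),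
          Real.rpow_sub hE0 _ (j : ℝ), Real.rpow_natCast, inv_pow]
        field_simp
      have e2 : |(N : ℝ) / (2 * q) * E ^ (-((q : ℝ) - 1 / 2 - j))| * E ^ ((q : ℝ) - 3 / 2 - j) =
          |(N : ℝ) / (2 * q) * E⁻¹| := by
        have e3 : E⁻¹ = E ^ (-((q : ℝ) - 1 / 2 - j)) * E ^ ((q : ℝ) - 3 / 2 - j) := by
          rw [← Real.rpow_add hE0, ← Real.rpow_neg_one]; congr 1; ring
        rw [e3, ← mul_assoc, abs_mul _ (E ^ ((q : ℝ) - 3 / 2 - j)), abs_of_pos hpos]
      have e4 : C' * E⁻¹ * E ^ ((q : ℝ) - 3 / 2 - j) = C' * E ^ ((q : ℝ) - 5 / 2 - j) := by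
        rw [mul_assoc, ← Real.rpow_neg_one, ← Real.rpow_add hE0]; congr 2; ring
      rw [add_mul, add_mul, e1, e2, e4]
      have t1 := abs_sub_abs_le_abs_sub S ((-1) ^ (j + 1) * (E ^ ((q : ℝ) - 3 / 2) * RR q V j E⁻¹) -
        (N : ℝ) / (2 * q) * E⁻¹)
      rw [abs_sub_comm S] at t1
      simp only at hb
      have t2 := abs_sub ((-1) ^ (j + 1) * (E ^ ((q : ℝ) - 3 / 2) * RR q V j E⁻¹))
        ((N : ℝ) / (2 * q) * E⁻¹)
      linarith
    have h2 := (Complex.continuous_ofReal.tendsto 0).comp hlim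
    rw [Complex.ofReal_zero] at h2
    refine h2.congr fun E => ?_
    simp only [Function.comp]
    push_cast
    congr 1
    rw [← Fin.sum_univ_eq_sum_range (fun i => (β i : ℂ) * ((E ^ ((q : ℝ) - 3 / 2 - i) : ℝ) : ℂ))]
  have hβ' : ∀ i ∈ Finset.range (j + 1), β i = 0 := by
    intro i hi
    have := hβ ⟨i, Finset.mem_range.1 hi⟩
    exact_mod_cast this
  refine ⟨a0, C', ?_, ?_, k2, k3, k4, k5⟩
  · have := hβ' 0 (Finset.mem_range.2 (by omega))
    rw [b0] at this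
    linarith
  · intro E hE
    have := b1 E hE
    rw [Finset.sum_eq_zero (fun i hi => by rw [hβ' i hi, zero_mul]), sub_zero] at this
    exact this

theorem realSide2 (h34 : ScalingF) (h38 : Phi1Facts2) (h43 : MultiExpand) (h35 : PlanchV)
    (h28 : PowGrowth) : RealSide2 := by
  intro q hq V hV M R hM hR N α C E1 hE1 hF
  have hcmp := rs2_compare h34 h38 h43 h28 q hq V hV M R hM hR N α C E1 hE1 hF
  -- bootstrap
  have hboot : ∀ j < q, HS q V (2 * j) := by
    intro j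
    induction j with
    | zero =>
      intro _
      have := (h35 q V hV M R hM hR).1
      simpa using this
    | succ j ih =>
      intro hj
      have hS := ih (by omega)
      obtain ⟨a0, C', -, b2, b3, -, -, b6⟩ := hcmp j (by omega) hS
      refine b6 ⟨|(N : ℝ) / (2 * q)| + |C'|, ?_⟩
      have hjq : (j : ℝ) + 2 ≤ q := by exact_mod_cast hj
      have hmem : Set.Ioc (0 : ℝ) E1⁻¹ ∈ 𝓝[>] (0 : ℝ) :=
        Ioc_mem_nhdsGT (inv_pos.2 (by linarith))
      filter_upwards [hmem] with e he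
      have he0 : 0 < e := he.1
      have hE : E1 ≤ e⁻¹ := by
        have := inv_anti₀ he0 he.2
        rwa [inv_inv] at this
      have h1 := b2 e⁻¹ hE
      rw [inv_inv] at h1
      have hE' : 1 ≤ e⁻¹ := hE1.trans hE
      have hE0 : 0 < e⁻¹ := by linarith
      have hR0 := b3 e he0
      have hpos : 0 < e⁻¹ ^ ((q : ℝ) - 3 / 2) := Real.rpow_pos_of_pos hE0 _
      have t1 := abs_sub_abs_le_abs_sub ((-1) ^ (j + 1) * (e⁻¹ ^ ((q : ℝ) - 3 / 2) * RR q V j e))
        ((N : ℝ) / (2 * q) * e)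
      rw [abs_mul, abs_pow, abs_neg, abs_one, one_pow, one_mul, abs_mul,
        abs_of_pos hpos, abs_of_nonneg hR0, abs_mul, abs_of_pos he0] at t1
      have t2 : e ≤ e⁻¹ ^ ((q : ℝ) - 5 / 2 - j) := by
        have : e = e⁻¹ ^ (-1 : ℝ) := by rw [Real.rpow_neg_one, inv_inv]
        calc e = e⁻¹ ^ (-1 : ℝ) := this
          _ ≤ _ := Real.rpow_le_rpow_of_exponent_le hE' (by linarith)
      have t3 : e⁻¹ ^ ((q : ℝ) - 3 / 2) * RR q V j e ≤
          (|(N : ℝ) / (2 * q)| + |C'|) * e⁻¹ ^ ((q : ℝ) - 5 / 2 - j) := by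
        have u1 : |(N : ℝ) / (2 * q)| * e ≤ |(N : ℝ) / (2 * q)| * e⁻¹ ^ ((q : ℝ) - 5 / 2 - j) :=
          mul_le_mul_of_nonneg_left t2 (abs_nonneg _)
        have u2 : C' * e⁻¹ ^ ((q : ℝ) - 5 / 2 - j) ≤ |C'| * e⁻¹ ^ ((q : ℝ) - 5 / 2 - j) :=
          mul_le_mul_of_nonneg_right (le_abs_self _) (Real.rpow_nonneg hE0.le _)
        rw [add_mul]; linarith
      have t4 : e⁻¹ ^ ((q : ℝ) - 5 / 2 - j) = e⁻¹ ^ ((q : ℝ) - 3 / 2) * e ^ (j + 1) := by
        have : (q : ℝ) - 5 / 2 - j = ((q : ℝ) - 3 / 2) - ((j + 1 : ℕ) : ℝ) := by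
          push_cast; ring
        rw [this, Real.rpow_sub hE0, Real.rpow_natCast, inv_pow]
        field_simp
      rw [t4] at t3
      have t5 : e⁻¹ ^ ((q : ℝ) - 3 / 2) * RR q V j e ≤ e⁻¹ ^ ((q : ℝ) - 3 / 2) *
          ((|(N : ℝ) / (2 * q)| + |C'|) * e ^ (j + 1)) := by
        calc _ ≤ _ := t3
          _ = _ := by ring
      exact le_of_mul_le_mul_left t5 hpos
  -- the final stage
  have hjq : ((q - 1 : ℕ) : ℝ) = (q : ℝ) - 1 := by
    rw [Nat.cast_sub hq]
    norm_num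
  have hHS := hboot (q - 1) (by omega)
  obtain ⟨a0, C', b1, b2, -, -, b5, -⟩ := hcmp (q - 1) (by omega) hHS
  refine ⟨hHS, ⟨C', fun E hE => ?_⟩, fun hα => b5 ?_⟩
  · have h1 := b2 E hE
    rw [hjq, Nat.sub_add_cancel hq] at h1
    have h2 : (q : ℝ) - 5 / 2 - ((q : ℝ) - 1) = -(3 / 2) := by ring
    rw [h2] at h1
    exact h1
  · rw [b1, hα 0 (by omega), neg_zero]

/-- H19. -/
theorem f_real2 : RealSide2 :=
  realSide2 f_scal (phi1Facts2 f_km planchV f_k1 cosEnv) f_mexp planchV powGrowth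

end Pool.Agent.Work.MP_f2af60_mp

end

section

/-!
# MP_f2af60_mp: the law for the roughness of potentials with finitely many resonances
-/

namespace Pool.Agent.Work.MP_f2af60_mp

open MeasureTheory Metric Filter Topology

/-- The law for bounded measurable potentials with finitely many resonances. -/
theorem law_core (h21 : RRKernel) (h22 : LawAn) {q : ℕ} (hq : 1 ≤ q) (hqe : Even q) :
    ∃ c : ℝ, 0 < c ∧ ∀ (V : En q → ℝ), Measurable V → ∀ (M R : ℝ), (∀ x, |V x| ≤ M) →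
      (∀ x, R < ‖x‖ → V x = 0) → ¬ V =ᵐ[volume] 0 → {l : ℂ | IsRes q V l}.Finite →
      ∃ N : ℕ, 1 ≤ N ∧ ∃ C : ℝ, ∀ t : ℝ, 1 ≤ t →
        |(∫ ξ in closedBall (0 : En q) t, ‖ξ‖ ^ (2 * q - 1) *
          ‖FourierTransform.fourier (fun x => (V x : ℂ)) ξ‖ ^ 2) - c * N * Real.log t| ≤ C := by
  obtain ⟨Kf, C0, c0, hc0, hKm, hK0, hKb, hKl, hKR⟩ := h21 q hq
  obtain ⟨b, hb, hlaw⟩ := h22 q hq Kf C0 c0 hc0 hKm hK0 hKb hKl
  have hqpos : (0 : ℝ) < q := by exact_mod_cast hq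
  refine ⟨b / (2 * q), by positivity, fun V hV M R hM hsupp hne hfin => ?_⟩
  obtain ⟨R', hR', hRR⟩ : ∃ R' : ℝ, 0 < R' ∧ R ≤ R' := ⟨max R 1, by positivity, le_max_left _ _⟩
  have hsupp' : ∀ x, R' < ‖x‖ → V x = 0 := fun x hx => hsupp x (hRR.trans_lt hx)
  obtain ⟨N, α, C, E1, hE1, h1, h2⟩ := gm_struct ebFacts spBallQ existsOpsQ f_kk f_trace f_rep
    f_limJ f_imag f_decomp f_kerRes f_fam f_disc f_expand f_scal f_mexp planchV hq hR' V hV M hM
    hsupp' hfin
  obtain ⟨hHS, ⟨C', hC'⟩, hV0⟩ := f_real2 q hq V hV M R' hM hsupp' N α C E1 hE1 h1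
  have hN : 1 ≤ N := by
    by_contra hN
    exact hne (hV0 (h2 (by omega)))
  refine ⟨N, hN, ?_⟩
  obtain ⟨hW0i, -, hFc, -⟩ := planchV q V hV M R' hM hsupp'
  set W : En q → ℝ := fun ξ => ‖FourierTransform.fourier (fun x => (V x : ℂ)) ξ‖ ^ 2 with hW
  have hWc : Continuous W := hFc.norm.pow 2
  have hWi : Integrable W := by
    refine hW0i.congr (Eventually.of_forall fun ξ => ?_)
    show ‖ξ‖ ^ (0 : ℝ) * W ξ = W ξ
    rw [Real.rpow_zero, one_mul]
  have hWi2 : Integrable (fun ξ : En q => ‖ξ‖ ^ (2 * (q - 1)) * W ξ) := by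
    refine hHS.congr (Eventually.of_forall fun ξ => ?_)
    show ‖ξ‖ ^ (2 * ((q - 1 : ℕ) : ℝ)) * W ξ = ‖ξ‖ ^ (2 * (q - 1)) * W ξ
    rw [← Real.rpow_natCast ‖ξ‖ (2 * (q - 1))]
    push_cast
    rfl
  obtain ⟨C'', hC''⟩ := hlaw W hWc (fun ξ => by positivity) hWi hWi2 ((N : ℝ) / (2 * q)) C' E1⁻¹
    (by positivity) (by
      intro e he
      have he0 : 0 < e := he.1
      have hE : E1 ≤ e⁻¹ := by
        have := inv_anti₀ he0 he.2
        rwa [inv_inv] at this
      have hE0 : 0 < e⁻¹ := inv_pos.2 he0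
      have h3 := hC' e⁻¹ hE
      rw [inv_inv, hqe.neg_one_pow, one_mul] at h3
      rw [hKR V hV M R' hM hsupp' hHS e he0] at h3
      set I := ∫ ξ : En q, Kf (Real.sqrt e * ‖ξ‖) *
        ‖FourierTransform.fourier (fun x => (V x : ℂ)) ξ‖ ^ 2 with hI
      show |I - (N : ℝ) / (2 * q) * e ^ ((q : ℝ) - 1 / 2)| ≤ C' * e ^ q
      have hp : 0 < e⁻¹ ^ ((q : ℝ) - 3 / 2) := Real.rpow_pos_of_pos hE0 _
      have e1 : e⁻¹ ^ ((q : ℝ) - 3 / 2) * e ^ ((q : ℝ) - 1 / 2) = e := by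
        rw [Real.inv_rpow he0.le, ← Real.rpow_neg he0.le, ← Real.rpow_add he0]
        have : -((q : ℝ) - 3 / 2) + ((q : ℝ) - 1 / 2) = 1 := by ring
        rw [this, Real.rpow_one]
      have e2 : e⁻¹ ^ ((q : ℝ) - 3 / 2) * e ^ q = e⁻¹ ^ (-(3 / 2) : ℝ) := by
        rw [Real.inv_rpow he0.le, Real.inv_rpow he0.le, ← Real.rpow_neg he0.le,
          ← Real.rpow_neg he0.le, ← Real.rpow_natCast e q, ← Real.rpow_add he0]
        congr 1
        ring
      have e3 : e⁻¹ ^ ((q : ℝ) - 3 / 2) * |I - (N : ℝ) / (2 * q) * e ^ ((q : ℝ) - 1 / 2)| ≤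
          e⁻¹ ^ ((q : ℝ) - 3 / 2) * (C' * e ^ q) := by
        calc e⁻¹ ^ ((q : ℝ) - 3 / 2) * |I - (N : ℝ) / (2 * q) * e ^ ((q : ℝ) - 1 / 2)|
            = |e⁻¹ ^ ((q : ℝ) - 3 / 2) * (I - (N : ℝ) / (2 * q) * e ^ ((q : ℝ) - 1 / 2))| := by
              rw [abs_mul, abs_of_pos hp]
          _ = |e⁻¹ ^ ((q : ℝ) - 3 / 2) * I - (N : ℝ) / (2 * q) * e| := by
              congr 1
              linear_combination (-((N : ℝ) / (2 * q))) * e1
          _ ≤ C' * e⁻¹ ^ (-(3 / 2) : ℝ) := h3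
          _ = _ := by
              rw [← e2]
              ring
      exact le_of_mul_le_mul_left e3 hp)
  refine ⟨C'', fun t ht => ?_⟩
  have h4 := hC'' t ht
  have e5 : b / (2 * (q : ℝ)) * N * Real.log t = b * ((N : ℝ) / (2 * q)) * Real.log t := by
    ring
  rw [e5]
  exact h4

/-- The law for potentials in `L^∞_comp`. -/
theorem law_poles (h21 : RRKernel) (h22 : LawAn) {q : ℕ} (hq : 1 ≤ q) (hqe : Even q) :
    ∃ c : ℝ, 0 < c ∧ ∀ (V : En q → ℝ), MemLp V ⊤ volume → ∀ (R : ℝ),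
      (∀ᵐ x, R < ‖x‖ → V x = 0) → ¬ V =ᵐ[volume] 0 → {z : ℂ | PQ.IsPole V z}.Finite →
      ∃ N : ℕ, 1 ≤ N ∧ ∃ C : ℝ, ∀ t : ℝ, 1 ≤ t →
        |(∫ ξ in closedBall (0 : En q) t, ‖ξ‖ ^ (2 * q - 1) *
          ‖FourierTransform.fourier (fun x => (V x : ℂ)) ξ‖ ^ 2) - c * N * Real.log t| ≤ C := by
  obtain ⟨c, hc, hlaw⟩ := law_core h21 h22 hq hqe
  refine ⟨c, hc, fun V hV R hsupp hne hfin => ?_⟩
  obtain ⟨W, M, hWm, hWM, hWR, hVW⟩ := exists_rep_odd V hV R hsupp
  have hW0 : ¬ W =ᵐ[volume] 0 := fun h => hne (hVW.trans h)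
  have hfin' : {l : ℂ | IsRes q W l}.Finite := hfin.subset fun z hz =>
    gp_isPole_congr V W hVW z (gp_isPole hq W hWm M R hWM hWR z hz)
  have e1 : FourierTransform.fourier (fun x => (W x : ℂ)) =
      FourierTransform.fourier (fun x => (V x : ℂ)) := by
    funext ξ
    rw [Real.fourier_eq, Real.fourier_eq]
    refine integral_congr_ae ?_
    filter_upwards [hVW] with x hx
    rw [hx]
  have := hlaw W hWm M R hWM hWR hW0 hfin'
  rw [e1] at this
  exact this

end Pool.Agent.Work.MP_f2af60_mp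

end

section

/-!
# MP_f2af60_mp: lines of potentials, part 1 (data of a potential with finitely many resonances)
-/

namespace Pool.Agent.Work.MP_f2af60_mp

open MeasureTheory Metric Filter Topology

/-- The data attached to a potential (bounded by `M`) with finitely many resonances. -/
def Exc (q : ℕ) (C1 : ℝ) (U : En q → ℝ) (M : ℝ) (N : ℕ) : Prop :=
  ∃ (P : Polynomial ℂ) (α : ℕ → ℝ), P.Monic ∧ P.natDegree = N ∧
    (∀ E, 4 ≤ E → C1 * M ≤ E → TT q U E = (PF q P E).re +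
      ∑ i ∈ Finset.range q, α i * E ^ ((q : ℝ) - 3 / 2 - i)) ∧
    (∀ E, 4 ≤ E → C1 * M ≤ E → ∀ z, P.eval z = 0 →
      Real.sqrt E / 2 ≤ ‖z - Complex.I * (Real.sqrt E : ℂ)‖)

/-- All hypotheses of the second round used for lines. -/
structure LineHyp : Prop where
  tt : TTFacts
  tr : TraceSeries
  ex : ExpandExact
  near : NearNorm
  norm : OpNormQ
  pf : PFFacts
  pfr : PFRational
  quad : RRQuad
  det : DetLin
  an : TTAnalytic
  ser : SeriesLimit
  nonrat : NonRat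

/-- The data for one potential. -/
theorem exc_of_finite (H : LineHyp) {q : ℕ} (hq : 1 ≤ q) : ∃ C1 : ℝ, 2 ≤ C1 ∧
    ∀ (U : En q → ℝ), Measurable U → ∀ (M R : ℝ), (∀ x, |U x| ≤ M) →
    (∀ x, R < ‖x‖ → U x = 0) → {l : ℂ | IsRes q U l}.Finite →
    ∃ N : ℕ, Exc q C1 U M N ∧ HS q U (2 * ((q - 1 : ℕ) : ℝ)) ∧
      Tendsto (fun E : ℝ => E ^ ((q : ℝ) - 1 / 2) * RR q U (q - 1) E⁻¹) atTop
        (𝓝 ((-1) ^ q * ((N : ℝ) / (2 * q)))) := by
  obtain ⟨C1, hC1, hnear⟩ := H.near q hq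
  refine ⟨max C1 2, le_max_right _ _, fun U hU M R hM hsupp hfin => ?_⟩
  obtain ⟨R', hR', hRR⟩ : ∃ R' : ℝ, 0 < R' ∧ R ≤ R' := ⟨max R 1, by positivity, le_max_left _ _⟩
  have hsupp' : ∀ x, R' < ‖x‖ → U x = 0 := fun x hx => hsupp x (hRR.trans_lt hx)
  have hM0 : 0 ≤ M := (abs_nonneg _).trans (hM 0)
  obtain ⟨P, α, hP, hTT, hsep, hα⟩ := gm_struct2 ebFacts spBallQ existsOpsQ f_kk f_trace f_rep
    f_limJ f_imag f_decomp f_kerRes f_fam f_disc H.tt H.tr H.ex hq (max C1 2) (le_max_right _ _)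
    (fun R hR V hV M hM O E hE hE' z hz h hh => by
      have hM0' : 0 ≤ M := (abs_nonneg _).trans (hM 0)
      have : C1 * M ≤ max C1 2 * M := mul_le_mul_of_nonneg_right (le_max_left _ _) hM0'
      exact hnear R hR V hV M hM O E hE (this.trans hE') z hz h hh)
    H.norm hR' U hU M hM hsupp' hfin
  obtain ⟨-, CT, hCT⟩ := H.tt q hq U hU M R' hM hsupp'
  obtain ⟨⟨C', E1, hE1, hPF⟩, -⟩ := H.pf q hq P hP
  have hmax : 2 * M ≤ max C1 2 * M := mul_le_mul_of_nonneg_right (le_max_right _ _) hM0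
  set E2 : ℝ := max E1 (max 4 (max C1 2 * M)) with hE2
  have hE2a : E1 ≤ E2 := le_max_left _ _
  have hE2b : 4 ≤ E2 := (le_max_left _ _).trans (le_max_right _ _)
  have hE2c : max C1 2 * M ≤ E2 := (le_max_right _ _).trans (le_max_right _ _)
  obtain ⟨hHS, ⟨C'', hC''⟩, -⟩ := f_real2 q hq U hU M R' hM hsupp' P.natDegree α (C' + CT) E2
    (by linarith) (fun E hE => by
      have e1 : 1 ≤ E := by linarith
      have e2 := hPF E (hE2a.trans hE)
      have e3 := (hCT E (by linarith) e1).1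
      have e4 := hTT E (hE2b.trans hE) (hE2c.trans hE)
      have e5 : FF q U E + (P.natDegree : ℝ) / (2 * q) * E⁻¹ -
          ∑ i ∈ Finset.range q, α i * E ^ ((q : ℝ) - 3 / 2 - i) =
          ((PF q P E).re + (P.natDegree : ℝ) / (2 * q) * E⁻¹) - (TT q U E - FF q U E) := by
        rw [e4]
        ring
      rw [e5, add_mul]
      exact (abs_sub _ _).trans (add_le_add e2 e3))
  refine ⟨P.natDegree, ⟨P, α, hP, rfl, hTT, hsep⟩, hHS, ?_⟩
  -- the limit
  have hlim : Tendsto (fun E : ℝ => (-1) ^ q * ((-1) ^ q *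
      (E ^ ((q : ℝ) - 1 / 2) * RR q U (q - 1) E⁻¹))) atTop
      (𝓝 ((-1) ^ q * ((P.natDegree : ℝ) / (2 * q)))) := by
    refine Tendsto.const_mul _ ?_
    rw [tendsto_iff_norm_sub_tendsto_zero]
    have h0 : Tendsto (fun E : ℝ => |C''| * E ^ (-(1 / 2) : ℝ)) atTop (𝓝 (|C''| * 0)) :=
      (tendsto_rpow_neg_atTop (by norm_num)).const_mul _
    rw [mul_zero] at h0
    refine squeeze_zero' (Eventually.of_forall fun _ => norm_nonneg _) ?_ h0
    filter_upwards [eventually_ge_atTop E2] with E hE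
    have hE0 : 0 < E := by linarith
    have h1 := hC'' E hE
    have e1 : E ^ ((q : ℝ) - 1 / 2) = E ^ ((q : ℝ) - 3 / 2) * E := by
      have : (q : ℝ) - 1 / 2 = ((q : ℝ) - 3 / 2) + 1 := by ring
      rw [this, Real.rpow_add hE0, Real.rpow_one]
    have e2 : E ^ (-(1 / 2) : ℝ) = E ^ (-(3 / 2) : ℝ) * E := by
      have : (-(1 / 2) : ℝ) = (-(3 / 2) : ℝ) + 1 := by ring
      rw [this, Real.rpow_add hE0, Real.rpow_one]
    rw [Real.norm_eq_abs, e1, e2]
    have e3 : (-1) ^ q * (E ^ ((q : ℝ) - 3 / 2) * E * RR q U (q - 1) E⁻¹) -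
        (P.natDegree : ℝ) / (2 * q) = ((-1) ^ q * (E ^ ((q : ℝ) - 3 / 2) *
          RR q U (q - 1) E⁻¹) - (P.natDegree : ℝ) / (2 * q) * E⁻¹) * E := by
      field_simp
    have e4 : |C''| * (E ^ (-(3 / 2) : ℝ) * E) = (|C''| * E ^ (-(3 / 2) : ℝ)) * E := by ring
    rw [e3, abs_mul, abs_of_pos hE0, e4]
    refine mul_le_mul_of_nonneg_right (h1.trans ?_) hE0.le
    exact mul_le_mul_of_nonneg_right (le_abs_self _) (Real.rpow_nonneg hE0.le _)
  refine hlim.congr fun E => ?_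
  rw [← mul_assoc, ← mul_pow]
  norm_num

end Pool.Agent.Work.MP_f2af60_mp

end

section

/-!
# MP_f2af60_mp: lines of potentials, part 2 (the number of resonances is quadratic in `g`)
-/

namespace Pool.Agent.Work.MP_f2af60_mp

open MeasureTheory Metric Filter Topology

lemma quad_lagrange (a b c g1 g2 g3 g : ℝ) (h12 : g1 ≠ g2) (h13 : g1 ≠ g3) (h23 : g2 ≠ g3) :
    a + g * b + g ^ 2 * c =
      (a + g1 * b + g1 ^ 2 * c) * ((g - g2) * (g - g3) / ((g1 - g2) * (g1 - g3))) +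
      (a + g2 * b + g2 ^ 2 * c) * ((g - g1) * (g - g3) / ((g2 - g1) * (g2 - g3))) +
      (a + g3 * b + g3 ^ 2 * c) * ((g - g1) * (g - g2) / ((g3 - g1) * (g3 - g2))) := by
  have e1 : g1 - g2 ≠ 0 := sub_ne_zero.2 h12
  have e2 : g1 - g3 ≠ 0 := sub_ne_zero.2 h13
  have e3 : g2 - g3 ≠ 0 := sub_ne_zero.2 h23
  have e4 : g2 - g1 ≠ 0 := sub_ne_zero.2 h12.symm
  have e5 : g3 - g1 ≠ 0 := sub_ne_zero.2 h13.symm
  have e6 : g3 - g2 ≠ 0 := sub_ne_zero.2 h23.symm
  field_simp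
  ring

lemma lagr_bound (g a b d : ℝ) :
    |(g - a) * (g - b) / d| ≤ (1 + |a|) * (1 + |b|) / |d| * (1 + |g|) ^ 2 := by
  rw [abs_div, abs_mul]
  have h1 : |g - a| ≤ (1 + |a|) * (1 + |g|) := by
    have := abs_sub g a
    have := abs_nonneg g
    have := abs_nonneg a
    nlinarith
  have h2 : |g - b| ≤ (1 + |b|) * (1 + |g|) := by
    have := abs_sub g b
    have := abs_nonneg g
    have := abs_nonneg b
    nlinarith
  have h3 : |g - a| * |g - b| ≤ ((1 + |a|) * (1 + |g|)) * ((1 + |b|) * (1 + |g|)) :=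
    mul_le_mul h1 h2 (abs_nonneg _) (by positivity)
  calc |g - a| * |g - b| / |d| ≤ ((1 + |a|) * (1 + |g|)) * ((1 + |b|) * (1 + |g|)) / |d| := by
        gcongr
    _ = _ := by ring

/-- The degrees grow at most quadratically. -/
theorem line_degree (h20 : RRQuad) {q : ℕ} (hq : 1 ≤ q) (V W : En q → ℝ) (hV : Measurable V)
    (hW : Measurable W) (M R : ℝ) (hVM : ∀ x, |V x| ≤ M) (hWM : ∀ x, |W x| ≤ M)
    (hVR : ∀ x, R < ‖x‖ → V x = 0) (hWR : ∀ x, R < ‖x‖ → W x = 0)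
    (g : Fin 3 → ℝ) (hg : Function.Injective g) (L : Fin 3 → ℝ)
    (hHS : ∀ i, HS q (fun x => V x + g i * W x) (2 * ((q - 1 : ℕ) : ℝ)))
    (hL : ∀ i, Tendsto (fun E : ℝ => E ^ ((q : ℝ) - 1 / 2) *
      RR q (fun x => V x + g i * W x) (q - 1) E⁻¹) atTop (𝓝 (L i))) :
    ∃ C2 : ℝ, 0 ≤ C2 ∧ ∀ (t : ℝ) (N : ℕ), Tendsto (fun E : ℝ => E ^ ((q : ℝ) - 1 / 2) *
      RR q (fun x => V x + t * W x) (q - 1) E⁻¹) atTop (𝓝 ((-1) ^ q * ((N : ℝ) / (2 * q)))) →
      (N : ℝ) ≤ C2 * (1 + |t|) ^ 2 := by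
  have h01 : g 0 ≠ g 1 := fun h => by simpa using hg h
  have h02 : g 0 ≠ g 2 := fun h => by simpa using hg h
  have h12 : g 1 ≠ g 2 := fun h => by simpa using hg h
  have hM0 : 0 ≤ M := (abs_nonneg _).trans (hVM 0)
  have hqp : (0 : ℝ) < q := by exact_mod_cast hq
  -- the potentials on the line
  have hUm : ∀ i, Measurable (fun x => V x + g i * W x) := fun i => hV.add (hW.const_mul _)
  set M' : ℝ := M + (|g 0| + |g 1|) * M with hM'
  have hU0 : ∀ x, |V x + g 0 * W x| ≤ M' := fun x => by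
    refine (abs_add_le _ _).trans ?_
    rw [abs_mul, hM']
    have h1 : |g 0| * |W x| ≤ |g 0| * M := mul_le_mul_of_nonneg_left (hWM x) (abs_nonneg _)
    have h2 : 0 ≤ |g 1| * M := by positivity
    have := hVM x
    linarith [this, h1, h2, add_mul (|g 0|) (|g 1|) M]
  have hU1 : ∀ x, |V x + g 1 * W x| ≤ M' := fun x => by
    refine (abs_add_le _ _).trans ?_
    rw [abs_mul, hM']
    have h1 : |g 1| * |W x| ≤ |g 1| * M := mul_le_mul_of_nonneg_left (hWM x) (abs_nonneg _)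
    have h2 : 0 ≤ |g 0| * M := by positivity
    have := hVM x
    linarith [this, h1, h2, add_mul (|g 0|) (|g 1|) M]
  have hUR : ∀ i, ∀ x, R < ‖x‖ → V x + g i * W x = 0 := fun i x hx => by
    rw [hVR x hx, hWR x hx]
    ring
  have hcomb := (h20 q hq _ _ (hUm 0) (hUm 1) M' R hU0 hU1 (hUR 0) (hUR 1)).1
  have hd : g 0 - g 1 ≠ 0 := sub_ne_zero.2 h01
  have hVs : HS q V (2 * ((q - 1 : ℕ) : ℝ)) := by
    have h := hcomb (-g 1 / (g 0 - g 1)) (g 0 / (g 0 - g 1)) _ (hHS 0) (hHS 1)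
    have e : (fun x => -g 1 / (g 0 - g 1) * (V x + g 0 * W x) +
        g 0 / (g 0 - g 1) * (V x + g 1 * W x)) = V := by
      funext x
      field_simp
      ring
    rwa [e] at h
  have hWs : HS q W (2 * ((q - 1 : ℕ) : ℝ)) := by
    have h := hcomb (1 / (g 0 - g 1)) (-1 / (g 0 - g 1)) _ (hHS 0) (hHS 1)
    have e : (fun x => 1 / (g 0 - g 1) * (V x + g 0 * W x) +
        -1 / (g 0 - g 1) * (V x + g 1 * W x)) = W := by
      funext x
      field_simp
      ring
    rwa [e] at h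
  have hquad := (h20 q hq V W hV hW M R hVM hWM hVR hWR).2 (q - 1) (by omega) hVs hWs
  set l0 : ℝ → ℝ := fun t => (t - g 1) * (t - g 2) / ((g 0 - g 1) * (g 0 - g 2)) with hl0
  set l1 : ℝ → ℝ := fun t => (t - g 0) * (t - g 2) / ((g 1 - g 0) * (g 1 - g 2)) with hl1
  set l2 : ℝ → ℝ := fun t => (t - g 0) * (t - g 1) / ((g 2 - g 0) * (g 2 - g 1)) with hl2
  have hlag : ∀ t : ℝ, ∀ E : ℝ, 0 < E → E ^ ((q : ℝ) - 1 / 2) *
      RR q (fun x => V x + t * W x) (q - 1) E⁻¹ =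
      (E ^ ((q : ℝ) - 1 / 2) * RR q (fun x => V x + g 0 * W x) (q - 1) E⁻¹) * l0 t +
      (E ^ ((q : ℝ) - 1 / 2) * RR q (fun x => V x + g 1 * W x) (q - 1) E⁻¹) * l1 t +
      (E ^ ((q : ℝ) - 1 / 2) * RR q (fun x => V x + g 2 * W x) (q - 1) E⁻¹) * l2 t := by
    intro t E hE
    obtain ⟨X, hX⟩ := hquad E⁻¹ (inv_pos.2 hE)
    rw [hX t, hX (g 0), hX (g 1), hX (g 2)]
    have := quad_lagrange (RR q V (q - 1) E⁻¹) X (RR q W (q - 1) E⁻¹) (g 0) (g 1) (g 2) t
      h01 h02 h12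
    rw [this]
    simp only [hl0, hl1, hl2]
    ring
  have hlim : ∀ t : ℝ, Tendsto (fun E : ℝ => E ^ ((q : ℝ) - 1 / 2) *
      RR q (fun x => V x + t * W x) (q - 1) E⁻¹) atTop
      (𝓝 (L 0 * l0 t + L 1 * l1 t + L 2 * l2 t)) := by
    intro t
    have h := (((hL 0).mul_const (l0 t)).add ((hL 1).mul_const (l1 t))).add
      ((hL 2).mul_const (l2 t))
    refine h.congr' ?_
    filter_upwards [eventually_gt_atTop 0] with E hE
    exact (hlag t E hE).symm
  set c0 : ℝ := (1 + |g 1|) * (1 + |g 2|) / |(g 0 - g 1) * (g 0 - g 2)| with hc0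
  set c1 : ℝ := (1 + |g 0|) * (1 + |g 2|) / |(g 1 - g 0) * (g 1 - g 2)| with hc1
  set c2 : ℝ := (1 + |g 0|) * (1 + |g 1|) / |(g 2 - g 0) * (g 2 - g 1)| with hc2
  have hb0 : ∀ t, |l0 t| ≤ c0 * (1 + |t|) ^ 2 := fun t => lagr_bound t (g 1) (g 2) _
  have hb1 : ∀ t, |l1 t| ≤ c1 * (1 + |t|) ^ 2 := fun t => lagr_bound t (g 0) (g 2) _
  have hb2 : ∀ t, |l2 t| ≤ c2 * (1 + |t|) ^ 2 := fun t => lagr_bound t (g 0) (g 1) _
  refine ⟨2 * q * (|L 0| * c0 + |L 1| * c1 + |L 2| * c2), by positivity, fun t N hN => ?_⟩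
  have heq := tendsto_nhds_unique hN (hlim t)
  have h1 : (N : ℝ) / (2 * q) = |L 0 * l0 t + L 1 * l1 t + L 2 * l2 t| := by
    have h0 : (0 : ℝ) ≤ (N : ℝ) / (2 * q) := by positivity
    rw [← heq, abs_mul, abs_pow, abs_neg, abs_one, one_pow, one_mul, abs_of_nonneg h0]
  have h2 : (N : ℝ) = 2 * q * |L 0 * l0 t + L 1 * l1 t + L 2 * l2 t| := by
    rw [← h1]
    field_simp
  have t1 : |L 0 * l0 t| ≤ |L 0| * (c0 * (1 + |t|) ^ 2) := by
    rw [abs_mul]
    exact mul_le_mul_of_nonneg_left (hb0 t) (abs_nonneg _)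
  have t2 : |L 1 * l1 t| ≤ |L 1| * (c1 * (1 + |t|) ^ 2) := by
    rw [abs_mul]
    exact mul_le_mul_of_nonneg_left (hb1 t) (abs_nonneg _)
  have t3 : |L 2 * l2 t| ≤ |L 2| * (c2 * (1 + |t|) ^ 2) := by
    rw [abs_mul]
    exact mul_le_mul_of_nonneg_left (hb2 t) (abs_nonneg _)
  have key : |L 0 * l0 t + L 1 * l1 t + L 2 * l2 t| ≤
      (|L 0| * c0 + |L 1| * c1 + |L 2| * c2) * (1 + |t|) ^ 2 := by
    calc |L 0 * l0 t + L 1 * l1 t + L 2 * l2 t|
        ≤ |L 0 * l0 t| + |L 1 * l1 t| + |L 2 * l2 t| := abs_add_three _ _ _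
      _ ≤ |L 0| * (c0 * (1 + |t|) ^ 2) + |L 1| * (c1 * (1 + |t|) ^ 2) +
          |L 2| * (c2 * (1 + |t|) ^ 2) := by linarith
      _ = _ := by ring
  calc (N : ℝ) = 2 * q * |L 0 * l0 t + L 1 * l1 t + L 2 * l2 t| := h2
    _ ≤ 2 * q * ((|L 0| * c0 + |L 1| * c1 + |L 2| * c2) * (1 + |t|) ^ 2) :=
        mul_le_mul_of_nonneg_left key (by positivity)
    _ = _ := by ring

end Pool.Agent.Work.MP_f2af60_mp

end

section

/-!
# MP_f2af60_mp: lines of potentials, part 3 (the unbounded case)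
-/

namespace Pool.Agent.Work.MP_f2af60_mp

open MeasureTheory Metric Filter Topology

/-- The scaled potentials. -/
lemma line_scaled {q : ℕ} (V W : En q → ℝ) (MV MW : ℝ) (hVM : ∀ x, |V x| ≤ MV) (hWM : ∀ x, |W x| ≤ MW)
    {g : ℝ} (hg : 1 ≤ g) (x : En q) :
    g * (W x + V x / g) = V x + g * W x ∧ |W x + V x / g| ≤ MV + MW ∧
      |(W x + V x / g) - W x| ≤ MV / g := by
  have hg0 : 0 < g := by linarith
  have h1 : |V x / g| ≤ MV / g := by
    rw [abs_div, abs_of_pos hg0]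
    exact div_le_div_of_nonneg_right (hVM x) hg0.le
  have hMV : 0 ≤ MV := (abs_nonneg _).trans (hVM x)
  have h2 : MV / g ≤ MV := div_le_self hMV hg
  refine ⟨?_, ?_, ?_⟩
  · field_simp
    ring
  · refine (abs_add_le _ _).trans ?_
    have := hWM x
    linarith
  · have e : (W x + V x / g) - W x = V x / g := by ring
    rw [e]
    exact h1

/-- The limit of the scaled series along the line. -/
lemma line_series (H : LineHyp) {q : ℕ} (hq : 1 ≤ q) (V W : En q → ℝ) (hV : Measurable V)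
    (hW : Measurable W) (MV MW R : ℝ) (hVM : ∀ x, |V x| ≤ MV) (hWM : ∀ x, |W x| ≤ MW)
    (hVR : ∀ x, R < ‖x‖ → V x = 0) (hWR : ∀ x, R < ‖x‖ → W x = 0) (g : ℕ → ℝ)
    (hg1 : ∀ k, 1 ≤ g k) (hgt : Tendsto g atTop atTop) (s : ℝ) (hs : MV + MW < s) (hs0 : 0 < s) :
    Tendsto (fun k => TT q (fun x => V x + g k * W x) (g k * s) / (g k) ^ ((q : ℝ) + 1 / 2)) atTop
      (𝓝 (PsiS q W s)) := by
  have hMV : 0 ≤ MV := (abs_nonneg _).trans (hVM 0)
  have hη : Tendsto (fun k => MV / g k) atTop (𝓝 0) := hgt.const_div_atTop MV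
  have h := H.ser q hq W (fun k x => W x + V x / g k) (MV + MW) R g (fun k => MV / g k) hW
    (fun k => hW.add (hV.div_const _)) (fun x => (hWM x).trans (by linarith))
    (fun k x => (line_scaled V W MV MW hVM hWM (hg1 k) x).2.1) hWR
    (fun k x hx => by rw [hWR x hx, hVR x hx]; simp)
    (fun k x => (line_scaled V W MV MW hVM hWM (hg1 k) x).2.2) hη
    (fun k => by have := hg1 k; linarith) hgt s hs hs0
  refine h.congr fun k => ?_
  have e : (fun x => g k * (W x + V x / g k)) = fun x => V x + g k * W x := by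
    funext x
    exact (line_scaled V W MV MW hVM hWM (hg1 k) x).1
  rw [e]

/-- From an expansion of the limit to `W = 0`. -/
lemma line_conclude (h : NonRat) {q : ℕ} (hq : 1 ≤ q) (W : En q → ℝ) (hW : Measurable W)
    (M R : ℝ) (hWM : ∀ x, |W x| ≤ M) (hWR : ∀ x, R < ‖x‖ → W x = 0) (s0 : ℝ) (hs0 : 1 ≤ s0)
    (β : ℕ → ℝ) (hβ : ∀ s ≥ s0, PsiS q W s = ∑ i ∈ Finset.range q,
      β i * s ^ ((q : ℝ) - 3 / 2 - i)) : W =ᵐ[volume] 0 := by
  refine h q hq W hW M R hWM hWR (∑ i ∈ Finset.range q, Polynomial.C (β i) *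
    Polynomial.X ^ (2 * q - 2 - 2 * i)) Polynomial.X s0 Polynomial.X_ne_zero fun y hy => ?_
  have hy1 : 1 ≤ y := hs0.trans hy
  have hy0 : 0 < y := by linarith
  have hy2 : s0 ≤ y ^ 2 := by nlinarith
  rw [hβ _ hy2, Polynomial.eval_X, Polynomial.eval_finset_sum, Finset.mul_sum]
  refine Finset.sum_congr rfl fun i hi => ?_
  rw [Finset.mem_range] at hi
  rw [Polynomial.eval_mul, Polynomial.eval_C, Polynomial.eval_pow, Polynomial.eval_X]
  have e1 : (y ^ 2) ^ ((q : ℝ) - 3 / 2 - i) = y ^ (2 * ((q : ℝ) - 3 / 2 - i)) := by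
    rw [Real.rpow_mul hy0.le]
    norm_num
  have e2 : y ^ (2 * q - 2 - 2 * i) = y ^ (2 * ((q : ℝ) - 3 / 2 - i) + 1) := by
    rw [← Real.rpow_natCast y (2 * q - 2 - 2 * i)]
    congr 1
    rw [Nat.cast_sub (by omega), Nat.cast_sub (by omega)]
    push_cast
    ring
  rw [e1, e2, Real.rpow_add hy0, Real.rpow_one]
  ring

/-- The unbounded case. -/
theorem line_unbounded (H : LineHyp) {q : ℕ} (hq : 1 ≤ q) (C1 : ℝ) (hC1 : 2 ≤ C1)
    (V W : En q → ℝ) (hV : Measurable V) (hW : Measurable W) (MV MW R : ℝ)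
    (hVM : ∀ x, |V x| ≤ MV) (hWM : ∀ x, |W x| ≤ MW) (hVR : ∀ x, R < ‖x‖ → V x = 0)
    (hWR : ∀ x, R < ‖x‖ → W x = 0) (g : ℕ → ℝ) (hg1 : ∀ k, 1 ≤ g k)
    (hgt : Tendsto g atTop atTop) (C2 : ℝ) (hC2 : 0 ≤ C2) (N : ℕ → ℕ)
    (hN : ∀ k, (N k : ℝ) ≤ C2 * (1 + |g k|) ^ 2)
    (hE : ∀ k, Exc q C1 (fun x => V x + g k * W x) (MV + g k * MW) (N k)) :
    W =ᵐ[volume] 0 := by
  have hMV : 0 ≤ MV := (abs_nonneg _).trans (hVM 0)
  have hMW : 0 ≤ MW := (abs_nonneg _).trans (hWM 0)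
  choose P α hP hdeg hTT hsep using hE
  set s0 : ℝ := max 4 (C1 * (MV + MW)) + 1 with hs0
  have hs04 : 4 ≤ s0 := by
    have := le_max_left 4 (C1 * (MV + MW))
    linarith
  have hs0M : C1 * (MV + MW) + 1 ≤ s0 := by
    have := le_max_right 4 (C1 * (MV + MW))
    linarith
  have hs0M' : MV + MW < s0 := by nlinarith
  -- the error
  have herr : ∀ s ≥ s0, ∀ k, |TT q (fun x => V x + g k * W x) (g k * s) -
      ∑ i ∈ Finset.range q, α k i * (g k * s) ^ ((q : ℝ) - 3 / 2 - i)| ≤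
      2 ^ q * (C2 * 4) * (g k) := by
    intro s hs k
    have hg := hg1 k
    have hs1 : 4 ≤ s := hs04.trans hs
    have hgs : s ≤ g k * s := by nlinarith
    have hE4 : 4 ≤ g k * s := hs1.trans hgs
    have hEM : C1 * (MV + g k * MW) ≤ g k * s := by
      have h1 : MV + g k * MW ≤ g k * (MV + MW) := by nlinarith
      have h2 : C1 * (MV + g k * MW) ≤ C1 * (g k * (MV + MW)) :=
        mul_le_mul_of_nonneg_left h1 (by linarith)
      have h3 : C1 * (g k * (MV + MW)) = g k * (C1 * (MV + MW)) := by ring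
      have h4 : g k * (C1 * (MV + MW)) ≤ g k * s :=
        mul_le_mul_of_nonneg_left (by linarith) (by linarith)
      linarith
    have h5 := ((H.pf q hq (P k) (hP k)).2 (g k * s) (by linarith) (by
      intro i _ z hz
      have e1 : g k * s ≤ (1 + (i : ℝ)) * (g k * s) := by
        have : (0 : ℝ) ≤ i := Nat.cast_nonneg i
        nlinarith
      exact hsep k ((1 + (i : ℝ)) * (g k * s)) (hE4.trans e1) (hEM.trans e1) z hz))
    rw [hTT k (g k * s) hE4 hEM]
    have e2 : (PF q (P k) (g k * s)).re + ∑ i ∈ Finset.range q, α k i * (g k * s) ^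
        ((q : ℝ) - 3 / 2 - i) - ∑ i ∈ Finset.range q, α k i * (g k * s) ^
        ((q : ℝ) - 3 / 2 - i) = (PF q (P k) (g k * s)).re := by ring
    rw [e2]
    refine h5.trans ?_
    rw [hdeg k, div_le_iff₀ (by linarith)]
    have h6 := hN k
    rw [abs_of_nonneg (by linarith)] at h6
    have h7 : (1 + g k) ^ 2 ≤ 4 * (g k) ^ 2 := by nlinarith
    have h8 : (N k : ℝ) ≤ C2 * 4 * g k * (g k * s) := by
      have h9 : C2 * (1 + g k) ^ 2 ≤ C2 * (4 * (g k) ^ 2) := mul_le_mul_of_nonneg_left h7 hC2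
      have h10 : C2 * (4 * (g k) ^ 2) ≤ C2 * 4 * g k * (g k * s) := by
        have : 0 ≤ C2 * 4 * (g k) ^ 2 := by positivity
        nlinarith
      linarith
    calc (2 : ℝ) ^ q * (N k : ℝ) ≤ 2 ^ q * (C2 * 4 * g k * (g k * s)) :=
          mul_le_mul_of_nonneg_left h8 (by positivity)
      _ = _ := by ring
  -- the coefficients of the scaled expansions
  set e : Fin q → ℝ := fun i => (q : ℝ) - 3 / 2 - (i : ℕ) with he
  set b : ℕ → Fin q → ℂ := fun k i => ((α k i * (g k) ^ ((q : ℝ) - 3 / 2 - (i : ℕ)) /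
    (g k) ^ ((q : ℝ) + 1 / 2) : ℝ) : ℂ) with hb
  have hclos := limClosure powGrowth q e (fun x y hxy => by
    have h1 : (q : ℝ) - 3 / 2 - (x : ℕ) = (q : ℝ) - 3 / 2 - (y : ℕ) := hxy
    have h2 : ((x : ℕ) : ℝ) = (y : ℕ) := by linarith
    exact Fin.ext (by exact_mod_cast h2)) b (fun s => (PsiS q W s : ℂ)) (fun _ => 0) s0
    (by linarith) (by
      intro s hs η hη
      have hs1 : 4 ≤ s := hs04.trans hs
      have hlim := line_series H hq V W hV hW MV MW R hVM hWM hVR hWR g hg1 hgt s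
        (hs0M'.trans_le hs) (by linarith)
      have hsmall : Tendsto (fun k => 2 ^ q * (C2 * 4) * (g k) ^ (-(1 / 2) : ℝ)) atTop (𝓝 0) := by
        have h1 := ((tendsto_rpow_neg_atTop (y := 1 / 2) (by norm_num)).comp hgt).const_mul
          (2 ^ q * (C2 * 4))
        rw [mul_zero] at h1
        exact h1
      have ev1 := (Metric.tendsto_nhds.1 hlim) (η / 2) (by linarith)
      have ev2 := (Metric.tendsto_nhds.1 hsmall) (η / 2) (by linarith)
      filter_upwards [ev1, ev2] with k h1 h2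
      have hg := hg1 k
      have hg0 : 0 < g k := by linarith
      have hp : 0 < (g k) ^ ((q : ℝ) + 1 / 2) := Real.rpow_pos_of_pos hg0 _
      rw [Real.dist_eq] at h1
      rw [Real.dist_eq, sub_zero] at h2
      have h3 := herr s hs k
      have e1 : ∑ j, b k j * ((s ^ e j : ℝ) : ℂ) = ((∑ i ∈ Finset.range q,
          α k i * (g k * s) ^ ((q : ℝ) - 3 / 2 - i)) / (g k) ^ ((q : ℝ) + 1 / 2) : ℝ) := by
        rw [Finset.sum_div, Complex.ofReal_sum, ← Fin.sum_univ_eq_sum_range (fun i =>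
          ((α k i * (g k * s) ^ ((q : ℝ) - 3 / 2 - i) / (g k) ^ ((q : ℝ) + 1 / 2) : ℝ) : ℂ))]
        refine Finset.sum_congr rfl fun i _ => ?_
        rw [hb, ← Complex.ofReal_mul, Real.mul_rpow hg0.le (by linarith)]
        congr 1
        simp only [he]
        ring
      rw [e1, ← Complex.ofReal_sub, Complex.norm_real, Real.norm_eq_abs]
      set Sg := ∑ i ∈ Finset.range q, α k i * (g k * s) ^ ((q : ℝ) - 3 / 2 - i) with hSg
      set Tk := TT q (fun x => V x + g k * W x) (g k * s) with hTk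
      have h4 : |Sg / (g k) ^ ((q : ℝ) + 1 / 2) - PsiS q W s| ≤
          |Tk / (g k) ^ ((q : ℝ) + 1 / 2) - PsiS q W s| +
          |(Tk - Sg) / (g k) ^ ((q : ℝ) + 1 / 2)| := by
        have e5 : Sg / (g k) ^ ((q : ℝ) + 1 / 2) - PsiS q W s =
            (Tk / (g k) ^ ((q : ℝ) + 1 / 2) - PsiS q W s) -
            (Tk - Sg) / (g k) ^ ((q : ℝ) + 1 / 2) := by
          rw [sub_div]
          ring
        rw [e5]
        exact abs_sub _ _
      have h6 : |(Tk - Sg) / (g k) ^ ((q : ℝ) + 1 / 2)| ≤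
          2 ^ q * (C2 * 4) * (g k) ^ (-(1 / 2) : ℝ) := by
        rw [abs_div, abs_of_pos hp, div_le_iff₀ hp]
        refine h3.trans ?_
        have e6 : (g k) ^ (-(1 / 2) : ℝ) * (g k) ^ ((q : ℝ) + 1 / 2) = (g k) ^ q := by
          rw [← Real.rpow_add hg0, ← Real.rpow_natCast (g k) q]
          congr 1
          ring
        rw [mul_assoc (2 ^ q * (C2 * 4)), e6]
        have h7 : g k ≤ (g k) ^ q := by
          calc g k = (g k) ^ 1 := (pow_one _).symm
            _ ≤ (g k) ^ q := pow_le_pow_right₀ hg hq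
        exact mul_le_mul_of_nonneg_left h7 (by positivity)
      have h8 : 2 ^ q * (C2 * 4) * (g k) ^ (-(1 / 2) : ℝ) ≤ η / 2 :=
        ((le_abs_self _).trans_lt h2).le
      linarith)
  obtain ⟨β, hβ, -⟩ := hclos
  refine line_conclude H.nonrat hq W hW MW R hWM hWR s0 (by linarith)
    (fun i => if h : i < q then (β ⟨i, h⟩).re else 0) fun s hs => ?_
  have h1 := hβ s hs
  have h2 : ∑ j, β j * ((s ^ e j : ℝ) : ℂ) = (PsiS q W s : ℂ) :=
    sub_eq_zero.1 (norm_le_zero_iff.1 h1)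
  have h3 := congrArg Complex.re h2
  rw [Complex.ofReal_re, Complex.re_sum] at h3
  rw [← h3, ← Fin.sum_univ_eq_sum_range (fun i => (if h : i < q then (β ⟨i, h⟩).re else 0) *
    s ^ ((q : ℝ) - 3 / 2 - i))]
  refine Finset.sum_congr rfl fun i _ => ?_
  rw [Complex.re_mul_ofReal, dif_pos i.2]

end Pool.Agent.Work.MP_f2af60_mp

end

section

/-!
# MP_f2af60_mp: lines of potentials, part 4 (the bounded case)
-/

namespace Pool.Agent.Work.MP_f2af60_mp

open MeasureTheory Metric Filter Topology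

/-- The determinants depend continuously on the values. -/
lemma det_RM_tendsto (D : ℕ) (x : Fin (D + 1) ⊕ Fin (D + 1) → ℝ) (F : ℕ → ℝ → ℝ) (F0 : ℝ → ℝ)
    (h : ∀ i, Tendsto (fun k => F k (x i)) atTop (𝓝 (F0 (x i)))) :
    Tendsto (fun k => (RM D (F k) x).det) atTop (𝓝 (RM D F0 x).det) := by
  have hc : Continuous (fun A : Matrix (Fin (D + 1) ⊕ Fin (D + 1))
      (Fin (D + 1) ⊕ Fin (D + 1)) ℝ => A.det) := Continuous.matrix_det continuous_id
  refine (hc.tendsto (RM D F0 x)).comp ?_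
  refine tendsto_pi_nhds.2 fun i => tendsto_pi_nhds.2 fun j => ?_
  rcases j with a | a
  · exact (h i).const_mul _
  · exact tendsto_const_nhds

/-- The determinants depend analytically on the coupling. -/
lemma det_RM_analytic (D : ℕ) (x : Fin (D + 1) ⊕ Fin (D + 1) → ℝ) (F : ℝ → ℝ → ℝ) (S : Set ℝ)
    (h : ∀ i, AnalyticOnNhd ℝ (fun g => F g (x i)) S) :
    AnalyticOnNhd ℝ (fun g => (RM D (F g) x).det) S := by
  have h1 : (fun g => (RM D (F g) x).det) = fun g => ∑ σ : Equiv.Perm (Fin (D + 1) ⊕ Fin (D + 1)),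
      ((Equiv.Perm.sign σ : ℤ) : ℝ) * ∏ i, RM D (F g) x (σ i) i := by
    funext g
    rw [Matrix.det_apply']
  rw [h1]
  have hent : ∀ i j, AnalyticOnNhd ℝ (fun g => RM D (F g) x i j) S := by
    intro i j
    rcases j with a | a
    · exact analyticOnNhd_const.mul (h i)
    · exact analyticOnNhd_const
  refine Finset.analyticOnNhd_fun_sum _ fun σ _ => ?_
  refine analyticOnNhd_const.mul ?_
  exact Finset.analyticOnNhd_fun_prod _ fun i _ => hent _ _

/-- The bounded case. -/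
theorem line_bounded (H : LineHyp) {q : ℕ} (hq : 1 ≤ q) (C1 : ℝ) (hC1 : 2 ≤ C1)
    (V W : En q → ℝ) (hV : Measurable V) (hW : Measurable W) (MV MW R : ℝ)
    (hVM : ∀ x, |V x| ≤ MV) (hWM : ∀ x, |W x| ≤ MW) (hVR : ∀ x, R < ‖x‖ → V x = 0)
    (hWR : ∀ x, R < ‖x‖ → W x = 0) (S : Set ℝ) (hS : S.Infinite) (G : ℝ)
    (hG : ∀ g ∈ S, |g| ≤ G) (N0 : ℕ)
    (hE : ∀ g ∈ S, ∃ N ≤ N0, Exc q C1 (fun x => V x + g * W x) (MV + |g| * MW) N) :
    W =ᵐ[volume] 0 := by
  have hMV : 0 ≤ MV := (abs_nonneg _).trans (hVM 0)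
  have hMW : 0 ≤ MW := (abs_nonneg _).trans (hWM 0)
  have hG0 : 0 ≤ G := by
    obtain ⟨g, hg⟩ := hS.nonempty
    exact (abs_nonneg g).trans (hG g hg)
  obtain ⟨D, hD⟩ := H.pfr q hq N0
  set E0 : ℝ := max 4 (C1 * (MV + G * MW)) with hE0
  have hE04 : 4 ≤ E0 := le_max_left _ _
  set x0 : ℝ := Real.sqrt E0 with hx0
  have hx01 : 1 ≤ x0 := by
    rw [hx0, Real.one_le_sqrt]
    linarith
  have hx0E : ∀ x ≥ x0, E0 ≤ x ^ 2 := by
    intro x hx
    have h1 : x0 ^ 2 = E0 := Real.sq_sqrt (by linarith)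
    rw [← h1]
    exact pow_le_pow_left₀ (by linarith) hx 2
  -- determinants vanish on S
  have hdet : ∀ g ∈ S, ∀ x : Fin (D + 1) ⊕ Fin (D + 1) → ℝ, (∀ i, x0 ≤ x i) →
      (RM D (fun y => TT q (fun x => V x + g * W x) (y ^ 2)) x).det = 0 := by
    intro g hg
    obtain ⟨N, hN, P, α, hP, hdeg, hTT, hsep⟩ := hE g hg
    have hbd : C1 * (MV + |g| * MW) ≤ E0 := by
      refine le_trans ?_ (le_max_right _ _)
      refine mul_le_mul_of_nonneg_left ?_ (by linarith)
      have := mul_le_mul_of_nonneg_right (hG g hg) hMW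
      linarith
    obtain ⟨A, B, hB, hA1, hB1, hAB⟩ := hD P hP (hdeg.trans_le hN) α
      (fun y => TT q (fun x => V x + g * W x) (y ^ 2)) x0 hx01 (by
        intro i _ x hx h0
        have h1 := hx0E x hx
        have e1 : x ^ 2 ≤ (1 + (i : ℝ)) * x ^ 2 := by
          have : (0 : ℝ) ≤ i := Nat.cast_nonneg i
          nlinarith
        have h2 := hsep ((1 + (i : ℝ)) * x ^ 2) (by linarith) (by linarith) _ h0
        have h3 : lam i (x ^ 2) - Complex.I * (Real.sqrt ((1 + (i : ℝ)) * x ^ 2) : ℂ) = 0 := by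
          rw [lam, sub_self]
        rw [h3, norm_zero] at h2
        have h4 : 0 < Real.sqrt ((1 + (i : ℝ)) * x ^ 2) := Real.sqrt_pos.2 (by linarith)
        linarith) (fun x hx => hTT (x ^ 2) (by linarith [hx0E x hx]) (by linarith [hx0E x hx]))
    exact (H.det D (fun y => TT q (fun x => V x + g * W x) (y ^ 2)) x0).2.1 A B hB hA1 hB1 hAB
  -- determinants vanish everywhere
  have hdet2 : ∀ g : ℝ, ∀ x : Fin (D + 1) ⊕ Fin (D + 1) → ℝ, (∀ i, x0 ≤ x i) →
      (∀ i, MV + max G |g| * MW < (x i) ^ 2) →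
      (RM D (fun y => TT q (fun x => V x + g * W x) (y ^ 2)) x).det = 0 := by
    intro g x hx hxE
    set U : Set ℝ := {t : ℝ | ∀ i, MV + |t| * MW < (x i) ^ 2} with hU
    have hUo : ∀ i, {t : ℝ | MV + |t| * MW < (x i) ^ 2} ⊇ U := fun i t ht => ht i
    have han : AnalyticOnNhd ℝ (fun g => (RM D (fun y => TT q (fun x => V x + g * W x) (y ^ 2))
        x).det) U := by
      refine det_RM_analytic D x (fun g y => TT q (fun x => V x + g * W x) (y ^ 2)) U fun i => ?_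
      refine (H.an q hq V W hV hW MV MW R hVM hWM hVR hWR ((x i) ^ 2) ?_).mono (hUo i)
      have := hx0E (x i) (hx i)
      linarith
    have hconv : Convex ℝ U := by
      intro a ha b hb s t hs ht hst i
      have h1 := ha i
      have h2 := hb i
      have h3 : |s • a + t • b| ≤ s * |a| + t * |b| := by
        refine (abs_add_le _ _).trans ?_
        rw [smul_eq_mul, smul_eq_mul, abs_mul, abs_mul, abs_of_nonneg hs, abs_of_nonneg ht]
      have h4 : MV + |s • a + t • b| * MW ≤ s * (MV + |a| * MW) + t * (MV + |b| * MW) := by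
        have h5 := mul_le_mul_of_nonneg_right h3 hMW
        have h6 : s * MV + t * MV = MV := by rw [← add_mul, hst, one_mul]
        nlinarith
      have hc : (x i) ^ 2 = s * (x i) ^ 2 + t * (x i) ^ 2 := by rw [← add_mul, hst, one_mul]
      refine h4.trans_lt ?_
      rw [hc]
      rcases hs.lt_or_eq with hs' | hs'
      · have h7 := mul_lt_mul_of_pos_left h1 hs'
        have h8 := mul_le_mul_of_nonneg_left h2.le ht
        linarith
      · have ht' : t = 1 := by rw [← hst, ← hs', zero_add]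
        rw [← hs', ht']
        linarith
    -- the accumulation point
    have hSK : S ⊆ Set.Icc (-G) G := fun t ht => abs_le.1 (hG t ht)
    obtain ⟨a, haK, haS⟩ := hS.exists_accPt_of_subset_isCompact isCompact_Icc hSK
    have hKU : ∀ t : ℝ, |t| ≤ G → t ∈ U := by
      intro t ht i
      refine lt_of_le_of_lt ?_ (hxE i)
      have h1 : |t| ≤ max G |g| := ht.trans (le_max_left _ _)
      have := mul_le_mul_of_nonneg_right h1 hMW
      linarith
    have haU : a ∈ U := hKU a (abs_le.2 haK)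
    have hfreq : ∃ᶠ z in 𝓝[≠] a, (RM D (fun y => TT q (fun x => V x + z * W x) (y ^ 2))
        x).det = 0 := by
      rw [accPt_iff_frequently_nhdsNE] at haS
      exact haS.mono fun z hz => hdet z hz x hx
    have hz := han.eqOn_zero_of_preconnected_of_frequently_eq_zero hconv.isPreconnected haU hfreq
    have hgU : g ∈ U := by
      intro i
      refine lt_of_le_of_lt ?_ (hxE i)
      have := mul_le_mul_of_nonneg_right (le_max_right G |g|) hMW
      linarith
    exact hz hgU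
  -- the limit
  set y0 : ℝ := max x0 (MV + MW + 1) with hy0
  have hy0x : x0 ≤ y0 := le_max_left _ _
  have hy0M : MV + MW + 1 ≤ y0 := le_max_right _ _
  have hy01 : 1 ≤ y0 := hx01.trans hy0x
  set g : ℕ → ℝ := fun k => (k : ℝ) + 1 + G with hg
  have hg1 : ∀ k, 1 ≤ g k := fun k => by
    have : (0 : ℝ) ≤ k := Nat.cast_nonneg k
    simp only [hg]
    linarith
  have hgG : ∀ k, G ≤ g k := fun k => by
    have : (0 : ℝ) ≤ k := Nat.cast_nonneg k
    simp only [hg]
    linarith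
  have hgt : Tendsto g atTop atTop :=
    (tendsto_natCast_atTop_atTop.atTop_add tendsto_const_nhds).atTop_add tendsto_const_nhds
  have hfin : ∀ y : Fin (D + 1) ⊕ Fin (D + 1) → ℝ, (∀ i, y0 ≤ y i) →
      (RM D (fun y => PsiS q W (y ^ 2)) y).det = 0 := by
    intro y hy
    have hyM : ∀ i, MV + MW < (y i) ^ 2 := by
      intro i
      have h1 := hy i
      have h2 : 1 ≤ y i := hy01.trans h1
      nlinarith
    have hlim := det_RM_tendsto D y (fun k t => ((g k) ^ ((q : ℝ) + 1 / 2))⁻¹ *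
      (fun z => TT q (fun x => V x + g k * W x) (z ^ 2)) (Real.sqrt (g k) * t))
      (fun t => PsiS q W (t ^ 2)) (fun i => by
        have h1 := line_series H hq V W hV hW MV MW R hVM hWM hVR hWR g hg1 hgt ((y i) ^ 2)
          (hyM i) (by have := hyM i; linarith)
        refine h1.congr fun k => ?_
        have h2 : (Real.sqrt (g k) * y i) ^ 2 = g k * (y i) ^ 2 := by
          rw [mul_pow, Real.sq_sqrt (by have := hg1 k; linarith)]
        simp only [h2]
        rw [div_eq_inv_mul])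
    have hz : ∀ k, (RM D (fun t => ((g k) ^ ((q : ℝ) + 1 / 2))⁻¹ *
        (fun z => TT q (fun x => V x + g k * W x) (z ^ 2)) (Real.sqrt (g k) * t)) y).det = 0 := by
      intro k
      have hgk := hg1 k
      have hgk0 : 0 < g k := by linarith
      have hsq : 1 ≤ Real.sqrt (g k) := by
        rw [Real.one_le_sqrt]
        exact hgk
      rw [(H.det D (fun z => TT q (fun x => V x + g k * W x) (z ^ 2)) x0).2.2 _ _
        (inv_ne_zero (Real.rpow_pos_of_pos hgk0 _).ne') (by linarith) y]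
      refine hdet2 (g k) _ (fun i => ?_) (fun i => ?_)
      · have h1 := hy i
        have h2 : y i ≤ Real.sqrt (g k) * y i := by
          have : 0 ≤ y i := by linarith
          nlinarith
        linarith
      · have h2 : (Real.sqrt (g k) * y i) ^ 2 = g k * (y i) ^ 2 := by
          rw [mul_pow, Real.sq_sqrt hgk0.le]
        rw [h2, abs_of_pos hgk0, max_eq_right (hgG k)]
        have h3 := hyM i
        have h4 : MV + g k * MW ≤ g k * (MV + MW) := by nlinarith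
        have h5 : g k * (MV + MW) < g k * (y i) ^ 2 := mul_lt_mul_of_pos_left h3 hgk0
        linarith
    have h0 : Tendsto (fun _ : ℕ => (0 : ℝ)) atTop
        (𝓝 (RM D (fun y => PsiS q W (y ^ 2)) y).det) := by
      refine hlim.congr fun k => hz k
    exact tendsto_nhds_unique h0 tendsto_const_nhds
  obtain ⟨A, B, hB, hAB⟩ := (H.det D (fun y => PsiS q W (y ^ 2)) y0).1 hfin
  exact H.nonrat q hq W hW MW R hWM hWR A B y0 hB hAB

end Pool.Agent.Work.MP_f2af60_mp

end
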